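import Pool.Agent.FJA.Nat
import Pool.Agent.Lib_helper25.H2.Aver2

/-!
# Existence of the assembly map
-/

set_option autoImplicit false
set_option linter.unusedSectionVars false

open Matrix Pool.Agent.WhK Pool.Agent.Lib25 CategoryTheory

noncomputable section

namespace Pool.Agent.FJA

section ProdG

variable (hPRI : S_PRI.{0, 0, 0}) (hBD : S_BD.{0, 0, 0}) (n : ℕ)
  {C C' G P Q : Type} [Group C] [Group C'] [Group G] [Group P] [Group Q]

/-- The ring homomorphism induced on integral group rings. -/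
abbrev gr (φ : C →* G) : MonoidAlgebra ℤ C →+* MonoidAlgebra ℤ G :=
  MonoidAlgebra.mapDomainRingHom ℤ φ

theorem gr_of (φ : C →* G) (c : C) :
    gr φ (MonoidAlgebra.of ℤ C c) = MonoidAlgebra.of ℤ G (φ c) := by
  simp

theorem gr_comp (φ : C →* G) (α : C' →* C) : gr (φ.comp α) = (gr φ).comp (gr α) := by
  apply RingHom.ext
  intro x
  rw [RingHom.comp_apply]
  induction x using MonoidAlgebra.induction_on with
  | of c => rw [gr_of, gr_of, gr_of]; rfl
  | add x y hx hy => simp only [map_add, hx, hy]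
  | smul r x hx => simp only [map_zsmul, hx]

theorem comm_of {φ : C →* G} {j : P →* G} (H : ∀ z c, Commute (j z) (φ c)) :
    Comm (gr φ) ((MonoidAlgebra.of ℤ G).comp j) := by
  intro z x
  induction x using MonoidAlgebra.induction_on with
  | of c =>
    rw [gr_of]
    exact (H z c).map (MonoidAlgebra.of ℤ G)
  | add x y hx hy => rw [map_add]; exact hx.add_right hy
  | smul r x hx => rw [map_zsmul]; exact hx.smul_right r

theorem prodKN_congr {A A' : Type} [Ring A] [Ring A'] {γ γ' : A' →+* A} {u u' : P →* A}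
    (h1 : γ = γ') (h2 : u = u') (H : Comm γ u) (H' : Comm γ' u') :
    prodKN hPRI hBD n γ u H = prodKN hPRI hBD n γ' u' H' := by
  subst h1
  subst h2
  rfl

/-- The product map for group rings. -/
def prodG (φ : C →* G) (j : P →* G) (H : ∀ z c, Commute (j z) (φ c)) :
    KNegOne (MonoidAlgebra ℤ C) →+ (HQ (n + 1) P →ₗ[ℚ] KB n (MonoidAlgebra ℤ G)) :=
  prodKN hPRI hBD n (gr φ) ((MonoidAlgebra.of ℤ G).comp j) (comm_of H)

theorem prodG_comp (φ : C →* G) (j : P →* G) (H : ∀ z c, Commute (j z) (φ c)) (f : Q →* P)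
    (j' : Q →* G) (H' : ∀ z c, Commute (j' z) (φ c)) (hj : ∀ z, j' z = j (f z))
    (κ : KNegOne (MonoidAlgebra ℤ C)) (c : HQ (n + 1) Q) :
    prodG hPRI hBD n φ j' H' κ c = prodG hPRI hBD n φ j H κ (HQ.map (n + 1) f c) := by
  have hj' : (MonoidAlgebra.of ℤ G).comp j' = ((MonoidAlgebra.of ℤ G).comp j).comp f := by
    rw [MonoidHom.comp_assoc]
    congr 1
    exact MonoidHom.ext hj
  have H2 : Comm (gr φ) (((MonoidAlgebra.of ℤ G).comp j).comp f) := by
    rw [← hj']
    exact comm_of H'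
  have h1 := prodKN_comp hPRI hBD n (gr φ) ((MonoidAlgebra.of ℤ G).comp j) (comm_of H) f H2 κ c
  unfold prodG
  rw [← h1, prodKN_congr hPRI hBD n rfl hj' (comm_of H') H2]

theorem prodG_congr (φ : C →* G) (j : P →* G) (H : ∀ z c, Commute (j z) (φ c))
    (φ' : C →* G) (H' : ∀ z c, Commute (j z) (φ' c)) (hφ : φ' = φ)
    (κ : KNegOne (MonoidAlgebra ℤ C)) :
    prodG hPRI hBD n φ' j H' κ = prodG hPRI hBD n φ j H κ := by
  subst hφ
  rfl

theorem prodG_map (φ : C →* G) (j : P →* G) (H : ∀ z c, Commute (j z) (φ c)) (α : C' →* C)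
    (φ' : C' →* G) (H' : ∀ z c, Commute (j z) (φ' c)) (hφ : φ' = φ.comp α)
    (κ : KNegOne (MonoidAlgebra ℤ C')) (c : HQ (n + 1) P) :
    prodG hPRI hBD n φ' j H' κ c =
      prodG hPRI hBD n φ j H (KNegOne.map (gr α) κ) c := by
  subst hφ
  have h1 : Comm ((gr φ).comp (gr α)) ((MonoidAlgebra.of ℤ G).comp j) := by
    rw [← gr_comp]
    exact comm_of H'
  have h2 := prodKN_map hPRI hBD n (gr φ) ((MonoidAlgebra.of ℤ G).comp j) (comm_of H) (gr α)
    h1 κ c
  unfold prodG
  rw [← h2, prodKN_congr hPRI hBD n (gr_comp φ α) rfl (comm_of H') h1]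

theorem prodG_conj (φ φ' : C →* G) (j j' : P →* G) (H : ∀ z c, Commute (j z) (φ c))
    (H' : ∀ z c, Commute (j' z) (φ' c)) (x : G) (hφ : ∀ c, φ' c = x * φ c * x⁻¹)
    (hj : ∀ z, j' z = x * j z * x⁻¹) (κ : KNegOne (MonoidAlgebra ℤ C)) (c : HQ (n + 1) P) :
    prodG hPRI hBD n φ' j' H' κ c = prodG hPRI hBD n φ j H κ c := by
  let X : (MonoidAlgebra ℤ G)ˣ := ⟨MonoidAlgebra.of ℤ G x, MonoidAlgebra.of ℤ G x⁻¹,
    by rw [← map_mul, mul_inv_cancel, map_one], by rw [← map_mul, inv_mul_cancel, map_one]⟩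
  refine prodKN_conj hPRI hBD n (gr φ) (gr φ') _ _ (comm_of H) (comm_of H') X ?_ ?_ κ c
  · intro a
    change gr φ' a = MonoidAlgebra.of ℤ G x * gr φ a * MonoidAlgebra.of ℤ G x⁻¹
    induction a using MonoidAlgebra.induction_on with
    | of c => rw [gr_of, gr_of, hφ, map_mul, map_mul]
    | add x y hx hy => rw [map_add, map_add, mul_add, add_mul, hx, hy]
    | smul r x hx => rw [map_zsmul, map_zsmul, mul_smul_comm, smul_mul_assoc, hx]
  · intro z
    change MonoidAlgebra.of ℤ G (j' z) =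
      MonoidAlgebra.of ℤ G x * MonoidAlgebra.of ℤ G (j z) * MonoidAlgebra.of ℤ G x⁻¹
    rw [hj, map_mul, map_mul]

end ProdG

section RhoC

variable (hPRI : S_PRI.{0, 0, 0}) (hBD : S_BD.{0, 0, 0}) (n : ℕ) {N : ℕ} {G : Type} [Group G]

/-- The value on the class of an idempotent matrix. -/
theorem prodG_rhoC (ε : IdemMat (LaurentPolynomial (MonoidAlgebra ℤ (Cyc N)))) (φ : Cyc N →* G)
    (c : HQ (n + 1) (Cen (φ (gen N)))) :
    prodG hPRI hBD n φ (Cen (φ (gen N))).subtype (commute_cyc φ) (KNegOne.of ε) c =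
      KB.mk n (MonoidAlgebra ℤ G) ε.n (HQ.map (n + 1) (rhoC ε φ) c) := by
  unfold prodG
  rw [prodKN_of]
  have h1 : rhoG (mapL (gr φ)) (cu ((MonoidAlgebra.of ℤ G).comp (Cen (φ (gen N))).subtype))
      (comm_cu (comm_of (commute_cyc φ))) ε = rhoC ε φ := by
    refine MonoidHom.ext fun z => ?_
    apply Units.ext
    rfl
  rw [h1]

end RhoC

section Cyclic

variable {N : ℕ} {G : Type} [Group G]

theorem exists_cyc [NeZero N] (h : G) (hN : h ^ N = 1) : ∃ φ : Cyc N →* G, φ (gen N) = h := by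
  obtain ⟨φ, h1, -⟩ := exists_pairHom (n := N) h 1 hN (Commute.one_left h)
  exact ⟨φ.comp (MonoidHom.inl _ _), h1⟩

theorem cyc_eq_pow [NeZero N] (c : Cyc N) : c = gen N ^ (Multiplicative.toAdd c).val := by
  have h1 := ofAdd_eq_pow N (Multiplicative.toAdd c)
  rw [ofAdd_toAdd] at h1
  exact h1

theorem cyc_ext [NeZero N] {φ φ' : Cyc N →* G} (h : φ (gen N) = φ' (gen N)) : φ = φ' := by
  refine MonoidHom.ext fun c => ?_
  rw [cyc_eq_pow c, map_pow, map_pow, h]

theorem commute_cyc' [NeZero N] {φ : Cyc N →* G} {h : G} (hφ : φ (gen N) = h) (z : Cen h)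
    (c : Cyc N) : Commute ((Cen h).subtype z) (φ c) := by
  subst hφ
  exact commute_cyc φ z c

theorem orderOf_cyc (hN : 0 < N) (φ : Cyc N →* G) (hφ : Function.Injective φ) :
    orderOf (φ (gen N)) = N := by
  have : NeZero N := ⟨hN.ne'⟩
  rw [orderOf_injective φ hφ, orderOf_gen (zpowers_one_eq_top N), card_Cn]

/-- The power automorphism. -/
def pw (N : ℕ) (w : (ZMod N)ˣ) : Cyc N →* Cyc N := powMonoidHom (w : ZMod N).val

theorem pw_gen [NeZero N] (w : (ZMod N)ˣ) (φ : Cyc N →* G) :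
    (φ.comp (pw N w)) (gen N) = φ (gen N) ^ (w : ZMod N).val := by
  change φ (gen N ^ (w : ZMod N).val) = _
  rw [map_pow]

/-- The action of the units on `K_{-1}(ℤ[C_N])`. -/
def Tw (N : ℕ) (w : (ZMod N)ˣ) :
    KNegOne (MonoidAlgebra ℤ (Cyc N)) →+ KNegOne (MonoidAlgebra ℤ (Cyc N)) :=
  KNegOne.map (gr (pw N w))

theorem cyc_pow (c : Cyc N) [NeZero N] : c ^ N = 1 := by
  have := pow_card_eq_one' (x := c)
  rwa [card_Cn] at this

theorem Tw_Tw [NeZero N] (u w : (ZMod N)ˣ) (x : KNegOne (MonoidAlgebra ℤ (Cyc N))) :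
    Tw N u (Tw N w x) = Tw N (u * w) x := by
  unfold Tw
  rw [KNegOne.map_map, ← gr_comp]
  congr 2
  congr 1
  refine MonoidHom.ext fun c => ?_
  change (c ^ (w : ZMod N).val) ^ (u : ZMod N).val = c ^ ((u * w : (ZMod N)ˣ) : ZMod N).val
  rw [mul_comm u w, pow_val_mul (cyc_pow c)]

end Cyclic

section Exist

variable (hPRI : S_PRI.{0, 0, 0}) (hBD : S_BD.{0, 0, 0}) (n : ℕ) {G : Type} [Group G]
  (κ : ∀ N : ℕ, ℕ → KNegOne (MonoidAlgebra ℤ (Cyc N)))

theorem exists_V : ∃ V : ∀ (_ : ℕ) (h : G),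
    HQ (n + 1) (Cen h) →ₗ[ℚ] KB n (MonoidAlgebra ℤ G),
    (∀ p h, ¬ Adm p h → V p h = 0) ∧
    ∀ p h, Adm p h → ∀ (N : ℕ) (φ : Cyc N →* G)
      (H : ∀ (z : Cen h) c, Commute ((Cen h).subtype z) (φ c)), N = orderOf h → φ (gen N) = h →
      V p h = prodG hPRI hBD n φ (Cen h).subtype H (κ N p) := by
  classical
  have key : ∀ (p : ℕ) (h : G), ∃ v : HQ (n + 1) (Cen h) →ₗ[ℚ] KB n (MonoidAlgebra ℤ G),
      (¬ Adm p h → v = 0) ∧ (Adm p h → ∀ (N : ℕ) (φ : Cyc N →* G)
      (H : ∀ (z : Cen h) c, Commute ((Cen h).subtype z) (φ c)), N = orderOf h → φ (gen N) = h →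
      v = prodG hPRI hBD n φ (Cen h).subtype H (κ N p)) := by
    intro p h
    by_cases hv : Adm p h
    swap
    · exact ⟨0, fun _ => rfl, fun h => absurd h hv⟩
    · have hpos : 0 < orderOf h := orderOf_pos_iff.2 hv.2.1
      have : NeZero (orderOf h) := ⟨hpos.ne'⟩
      obtain ⟨φ0, h0⟩ := exists_cyc (N := orderOf h) h (pow_orderOf_eq_one h)
      refine ⟨prodG hPRI hBD n φ0 (Cen h).subtype (fun z c => commute_cyc' h0 z c)
        (κ (orderOf h) p), fun h => absurd hv h, ?_⟩
      rintro _ N φ H rfl hφ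
      exact prodG_congr hPRI hBD n φ (Cen h).subtype H φ0 _ (cyc_ext (h0.trans hφ.symm)) _
  choose V hV using key
  exact ⟨V, fun p h => (hV p h).1, fun p h hv N φ H hN hφ => (hV p h).2 hv N φ H hN hφ⟩

theorem adm_conj {p : ℕ} {h : G} (x : G) (H : Adm p h) : Adm p (x * h * x⁻¹) := by
  have h1 : orderOf (x * h * x⁻¹) = orderOf h := by
    have : IsConj h (x * h * x⁻¹) := isConj_iff.2 ⟨x, rfl⟩
    obtain ⟨u, hu⟩ := this
    exact (hu.orderOf_eq (u : G)).symm
  refine ⟨H.1, ?_, ?_⟩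
  · rw [← orderOf_pos_iff, h1, orderOf_pos_iff]
    exact H.2.1
  · rw [h1]
    exact H.2.2

theorem orderOf_conj (x h : G) : orderOf (x * h * x⁻¹) = orderOf h := by
  have : IsConj h (x * h * x⁻¹) := isConj_iff.2 ⟨x, rfl⟩
  obtain ⟨u, hu⟩ := this
  exact (hu.orderOf_eq (u : G)).symm

theorem adm_iff_conj {p : ℕ} {h : G} (x : G) : Adm p (x * h * x⁻¹) ↔ Adm p h := by
  refine ⟨fun H => ?_, adm_conj x⟩
  have h1 := adm_conj x⁻¹ H
  have h2 : x⁻¹ * (x * h * x⁻¹) * x⁻¹⁻¹ = h := by group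
  rwa [h2] at h1

theorem exists_A
    (hfrob : ∀ (N : ℕ) [NeZero N] (p : ℕ) (w : (ZMod N)ˣ), uRel N p w 1 →
      Tw N w (κ N p) = κ N p)
    (hsum : ∀ (N : ℕ) [NeZero N], ∑ q ∈ N.primeFactors, ∑ u : (ZMod N)ˣ, Tw N u (κ N q) = 0) :
    ∃ A : Src n G →ₗ[ℚ] KB n (MonoidAlgebra ℤ G), ∀ (N p : ℕ) (φ : Cyc N →* G)
      (c : HQ (n + 1) (Cen (φ (gen N)))), 0 < N → p.Prime → p ∣ N → Function.Injective φ →
      A (sym p (φ (gen N)) c) =
        prodG hPRI hBD n φ (Cen (φ (gen N))).subtype (commute_cyc φ) (κ N p) c := by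
  classical
  obtain ⟨V, hV0, hV⟩ := exists_V hPRI hBD n (G := G) κ
  let A0 : (Sym n G →₀ ℚ) →ₗ[ℚ] KB n (MonoidAlgebra ℤ G) :=
    Finsupp.linearCombination ℚ (fun s => V s.p s.h s.c)
  have hA0 : ∀ p h c, A0 (sg p h c) = V p h c := by
    intro p h c
    unfold sg
    exact (Finsupp.linearCombination_single ℚ _ _).trans (one_smul _ _)
  have hrel : ∀ x, Rel n G x → A0 x = 0 := by
    intro x hx
    cases hx with
    | invalid p h c hv => rw [hA0, hV0 p h hv]; rfl
    | add p h c c' => rw [map_sub, map_sub, hA0, hA0, hA0, map_add]; abel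
    | smul p h q c => rw [map_sub, map_smul, hA0, hA0, map_smul, sub_self]
    | conj p h x c =>
      rw [map_sub, hA0, hA0, sub_eq_zero]
      by_cases hv : Adm p h
      swap
      · rw [hV0 p h hv, hV0 p _ (fun H => hv ((adm_iff_conj x).1 H))]
        rfl
      · have hpos : 0 < orderOf h := orderOf_pos_iff.2 hv.2.1
        have : NeZero (orderOf h) := ⟨hpos.ne'⟩
        obtain ⟨φ, hφ⟩ := exists_cyc (N := orderOf h) h (pow_orderOf_eq_one h)
        have hφ' : ((MulAut.conj x).toMonoidHom.comp φ) (gen (orderOf h)) = x * h * x⁻¹ := by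
          change x * φ (gen (orderOf h)) * x⁻¹ = _
          rw [hφ]
        rw [hV p h hv (orderOf h) φ (fun z c => commute_cyc' hφ z c) rfl hφ,
          hV p (x * h * x⁻¹) (adm_conj x hv) (orderOf h) ((MulAut.conj x).toMonoidHom.comp φ)
            (fun z c => commute_cyc' hφ' z c) (orderOf_conj x h).symm hφ']
        have H1 : ∀ (z : Cen h) c, Commute (((Cen (x * h * x⁻¹)).subtype.comp
            (cHom x (cHom_conj x h))) z) (((MulAut.conj x).toMonoidHom.comp φ) c) := by
          intro z c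
          exact commute_cyc' hφ' _ c
        rw [← prodG_comp hPRI hBD n ((MulAut.conj x).toMonoidHom.comp φ)
          (Cen (x * h * x⁻¹)).subtype (fun z c => commute_cyc' hφ' z c)
          (cHom x (cHom_conj x h)) ((Cen (x * h * x⁻¹)).subtype.comp
            (cHom x (cHom_conj x h))) H1 (fun z => rfl)]
        exact prodG_conj hPRI hBD n φ _ (Cen h).subtype _ (fun z c => commute_cyc' hφ z c) H1 x
          (fun c => rfl) (fun z => rfl) _ c
    | frob p h h' hh j k c hv hz hpw =>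
      rw [map_sub, hA0, hA0, sub_eq_zero]
      have hpos : 0 < orderOf h := orderOf_pos_iff.2 hv.2.1
      have : NeZero (orderOf h) := ⟨hpos.ne'⟩
      obtain ⟨φ, hφ⟩ := exists_cyc (N := orderOf h) h (pow_orderOf_eq_one h)
      have hzz : Subgroup.zpowers h = Subgroup.zpowers h' := by
        apply le_antisymm
        · rwa [Subgroup.zpowers_le]
        · rwa [Subgroup.zpowers_le]
      obtain ⟨u, hu⟩ := exists_unit_of_zpowers (n := orderOf h) rfl hzz
      have hrel : uRel (orderOf h) p u 1 := by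
        refine ⟨k, j, ?_⟩
        rw [hu, ← pow_mul, pow_eq_pow_iff_modEq, ← ZMod.natCast_eq_natCast_iff] at hpw
        push_cast at hpw
        rw [ZMod.natCast_zmod_val] at hpw
        rw [Units.val_one, one_mul]
        exact hpw.symm
      have hord' : orderOf h' = orderOf h := by
        rw [← Nat.card_zpowers, ← hzz, Nat.card_zpowers]
      have hv' : Adm p h' := ⟨hv.1, by rw [← orderOf_pos_iff, hord']; exact hpos,
        by rw [hord']; exact hv.2.2⟩
      have hφ' : (φ.comp (pw (orderOf h) u)) (gen (orderOf h)) = h' := by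
        rw [pw_gen, hφ, hu]
      rw [hV p h hv (orderOf h) φ (fun z c => commute_cyc' hφ z c) rfl hφ,
        hV p h' hv' (orderOf h) (φ.comp (pw (orderOf h) u))
          (fun z c => commute_cyc' hφ' z c) hord'.symm hφ']
      have H1 : ∀ (z : Cen h) c, Commute ((Cen h).subtype z)
          ((φ.comp (pw (orderOf h) u)) c) := by
        intro z c
        exact commute_cyc' hφ z _
      rw [← prodG_comp hPRI hBD n _ _ _ (cHom 1 (cHom_pow h hh)) (Cen h).subtype H1 (fun z => by
        change (z : G) = 1 * (z : G) * 1⁻¹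
        rw [one_mul, inv_one, mul_one])]
      rw [prodG_map hPRI hBD n φ (Cen h).subtype (fun z c => commute_cyc' hφ z c)
        (pw (orderOf h) u) _ H1 rfl]
      have h5 := hfrob (orderOf h) p u hrel
      unfold Tw at h5
      rw [h5]
    | sum h c hfin =>
      have hpos : 0 < orderOf h := orderOf_pos_iff.2 hfin
      have : NeZero (orderOf h) := ⟨hpos.ne'⟩
      obtain ⟨φ, hφ⟩ := exists_cyc (N := orderOf h) h (pow_orderOf_eq_one h)
      have h3 : ∀ p ∈ (orderOf h).primeFactors, ∀ u : (ZMod (orderOf h))ˣ,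
          V p (h ^ (u : ZMod (orderOf h)).val) (HQ.map (n + 1) (cHom 1 (cHom_pow h
            (Subgroup.pow_mem _ (Subgroup.mem_zpowers h) (u : ZMod (orderOf h)).val))) c) =
            prodG hPRI hBD n φ (Cen h).subtype (fun z c => commute_cyc' hφ z c)
              (Tw (orderOf h) u (κ (orderOf h) p)) c := by
        intro p hp u
        have hφ' : (φ.comp (pw (orderOf h) u)) (gen (orderOf h)) =
            h ^ (u : ZMod (orderOf h)).val := by
          rw [pw_gen, hφ]
        have hord' : orderOf (h ^ (u : ZMod (orderOf h)).val) = orderOf h := orderOf_pow_val rfl u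
        have hv' : Adm p (h ^ (u : ZMod (orderOf h)).val) :=
          ⟨Nat.prime_of_mem_primeFactors hp, by rw [← orderOf_pos_iff, hord']; exact hpos,
          by rw [hord']; exact Nat.dvd_of_mem_primeFactors hp⟩
        have H1 : ∀ (z : Cen h) c, Commute ((Cen h).subtype z)
            ((φ.comp (pw (orderOf h) u)) c) := by
          intro z c
          exact commute_cyc' hφ z _
        rw [hV p _ hv' (orderOf h) (φ.comp (pw (orderOf h) u))
            (fun z c => commute_cyc' hφ' z c) hord'.symm hφ',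
          ← prodG_comp hPRI hBD n (φ.comp (pw (orderOf h) u))
            (Cen (h ^ (u : ZMod (orderOf h)).val)).subtype (fun z c => commute_cyc' hφ' z c)
            (cHom 1 _) (Cen h).subtype H1 (fun z => by
            change (z : G) = 1 * (z : G) * 1⁻¹
            rw [one_mul, inv_one, mul_one]),
          prodG_map hPRI hBD n φ (Cen h).subtype (fun z c => commute_cyc' hφ z c)
            (pw (orderOf h) u) _ H1 rfl]
        rfl
      have h4 : A0 (∑ p ∈ (orderOf h).primeFactors,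
          ∑ a ∈ (Finset.range (orderOf h)).filter (fun a => a.Coprime (orderOf h)),
          sg p (h ^ a) (HQ.map (n + 1) (cHom 1 (cHom_pow h (Subgroup.pow_mem _
            (Subgroup.mem_zpowers h) a))) c)) =
          prodG hPRI hBD n φ (Cen h).subtype (fun z c => commute_cyc' hφ z c)
            (∑ q ∈ (orderOf h).primeFactors, ∑ u : (ZMod (orderOf h))ˣ,
              Tw (orderOf h) u (κ (orderOf h) q)) c := by
        rw [map_sum, map_sum, LinearMap.sum_apply]
        apply Finset.sum_congr rfl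
        intro p hp
        rw [map_sum, map_sum, LinearMap.sum_apply]
        refine Eq.symm (Finset.sum_bij (fun (u : (ZMod (orderOf h))ˣ) _ =>
          (u : ZMod (orderOf h)).val) ?_ ?_ ?_ ?_)
        · intro u _
          rw [Finset.mem_filter, Finset.mem_range]
          exact ⟨ZMod.val_lt _, ZMod.val_coe_unit_coprime u⟩
        · intro u _ v _ huv
          exact Units.ext (ZMod.val_injective _ huv)
        · intro a ha
          rw [Finset.mem_filter, Finset.mem_range] at ha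
          refine ⟨ZMod.unitOfCoprime a ha.2, Finset.mem_univ _, ?_⟩
          rw [ZMod.coe_unitOfCoprime, ZMod.val_natCast, Nat.mod_eq_of_lt ha.1]
        · intro u _
          rw [hA0, h3 p hp u]
      rw [h4, hsum, map_zero]
      rfl
  have hle : Submodule.span ℚ {x | Rel n G x} ≤ LinearMap.ker A0 := by
    rw [Submodule.span_le]
    intro x hx
    exact hrel x hx
  let A : Src n G →ₗ[ℚ] KB n (MonoidAlgebra ℤ G) :=
    (Submodule.span ℚ {x | Rel n G x}).liftQ A0 hle
  refine ⟨A, ?_⟩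
  intro N p φ c hN hp hpN hφ
  have h1 : A (sym p (φ (gen N)) c) = A0 (sg p (φ (gen N)) c) := rfl
  have : NeZero N := ⟨hN.ne'⟩
  have hord := orderOf_cyc hN φ hφ
  rw [h1, hA0, hV p (φ (gen N)) ⟨hp, by rw [← orderOf_pos_iff, hord]; exact hN,
    by rw [hord]; exact hpN⟩ N φ (commute_cyc φ) hord.symm rfl]

end Exist

end Pool.Agent.FJA
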