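import Pool.Agent.FJA.SDefs

/-!
# The part of the assembly map with coefficients `K_0`

`T0 n G = H_{n+1}(G × ℤ; ℚ) / H_{n+1}(G; ℚ)`, which is isomorphic to `H_n(G; ℚ)` by the Künneth
formula, and the map `T0 n G → K_n(ℤ[G]) ⊗ ℚ` which is induced by the inclusion of
`G × ℤ = {g t^k}` in the units of `ℤ[G][t,t⁻¹]`.
-/

set_option autoImplicit false

open Matrix Pool.Agent.WhK Pool.Agent.Lib25 CategoryTheory

noncomputable section

namespace Pool.Agent.FJA

/-- A homomorphism from a group to the units of a ring, as a homomorphism to `GL_1`. -/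
def gl1 {S : Type} [Ring S] {P : Type} [Group P] (u : P →* S) : P →* GLn S 1 where
  toFun z := ⟨Matrix.diagonal fun _ => u z, Matrix.diagonal fun _ => u z⁻¹,
    by
      rw [Matrix.diagonal_mul_diagonal, ← Matrix.diagonal_one]
      congr 1
      funext _
      rw [← map_mul, mul_inv_cancel, map_one],
    by
      rw [Matrix.diagonal_mul_diagonal, ← Matrix.diagonal_one]
      congr 1
      funext _
      rw [← map_mul, inv_mul_cancel, map_one]⟩
  map_one' := by
    apply Units.ext
    change (Matrix.diagonal fun _ => u 1) = 1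
    rw [map_one, Matrix.diagonal_one]
  map_mul' y z := by
    apply Units.ext
    change (Matrix.diagonal fun _ => u (y * z)) =
      (Matrix.diagonal fun _ => u y) * (Matrix.diagonal fun _ => u z)
    rw [Matrix.diagonal_mul_diagonal, map_mul]

/-- The element `g t^k` of `ℤ[G][t,t⁻¹]`. -/
def mon {G : Type} [Group G] :
    G × Multiplicative ℤ →* LaurentPolynomial (MonoidAlgebra ℤ G) where
  toFun z := AddMonoidAlgebra.single (Multiplicative.toAdd z.2) (MonoidAlgebra.of ℤ G z.1)
  map_one' := rfl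
  map_mul' y z := by
    rw [AddMonoidAlgebra.single_mul_single, ← map_mul]
    rfl

/-- The map `H_{n+1}(G × ℤ; ℚ) → K_n(ℤ[G]) ⊗ ℚ` induced by the inclusion of `G × ℤ` in the units of
`ℤ[G][t,t⁻¹]`. -/
def tau (n : ℕ) (G : Type) [Group G] :
    HQ (n + 1) (G × Multiplicative ℤ) →ₗ[ℚ] KB n (MonoidAlgebra ℤ G) :=
  KB.mk n (MonoidAlgebra ℤ G) 1 ∘ₗ HQ.map (n + 1) (gl1 mon)

/-- The image of `H_{n+1}(G; ℚ)` in `H_{n+1}(G × ℤ; ℚ)`. -/
abbrev inG (n : ℕ) (G : Type) [Group G] : Submodule ℚ (HQ (n + 1) (G × Multiplicative ℤ)) :=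
  LinearMap.range (HQ.map (n + 1) (MonoidHom.inl G (Multiplicative ℤ)))

end Pool.Agent.FJA
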