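import Pool.Agent.FJA.St0
import Pool.Agent.FJA.SDefs2

/-!
# The interface between the core theorem and the statement
-/

set_option autoImplicit false

open Matrix Pool.Agent.WhK Pool.Agent.Lib25 CategoryTheory

noncomputable section

namespace Pool.Agent.FJA

/-- A family of linear functionals `L p h` on `H_{n+1}(Z_G(h); ℚ)` which satisfies the relations of
`Src n G`, such that a positive multiple of every `L p h` is represented by an integral cocycle. -/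
structure AdmL (n : ℕ) (G : Type) [Group G] (L : ∀ (_ : ℕ) (h : G), HQ (n + 1) (Cen h) →ₗ[ℚ] ℚ) :
    Prop where
  zero : ∀ p h, ¬ Adm p h → L p h = 0
  den : ∀ p h, ∃ (D : ℕ) (f : (Fin (n + 1) → Cen h) → ℤ), 0 < D ∧
    (∀ y : IC ℚ (n + 2) (Cen h), pair (fun g => (f g : ℚ)) (dI ℚ (n + 1) (Cen h) y) = 0) ∧
    ∀ x : ZC ℚ (n + 1) (Cen h), (D : ℚ) * L p h (cl ℚ (n + 1) (Cen h) x) =
      pair (fun g => (f g : ℚ)) (ch ℚ (n + 1) (Cen h) x)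
  conj : ∀ p h x c, L p (x * h * x⁻¹) (HQ.map (n + 1) (cHom x (cHom_conj x h)) c) = L p h c
  frob : ∀ p (h h' : G) (hh : h' ∈ Subgroup.zpowers h) (j k : ℕ) c, Adm p h →
    h ∈ Subgroup.zpowers h' → h ^ p ^ j = h' ^ p ^ k →
    L p h' (HQ.map (n + 1) (cHom 1 (cHom_pow h hh)) c) = L p h c
  sum : ∀ h c, IsOfFinOrder h → ∑ p ∈ (orderOf h).primeFactors,
    ∑ a ∈ (Finset.range (orderOf h)).filter (fun a => a.Coprime (orderOf h)),
      L p (h ^ a) (HQ.map (n + 1) (cHom 1 (cHom_pow h (Subgroup.pow_mem _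
        (Subgroup.mem_zpowers h) a))) c) = 0

/-- The core theorem. -/
def S_FIN (ε0 : ∀ N : ℕ, ℕ → IdemMat (LaurentPolynomial (MonoidAlgebra ℤ (Cyc N)))) : Prop :=
  ∀ (G : Type) [Group G] (bG : ℕ), TorBd G bG → ∀ (n : ℕ)
    (L : ∀ (_ : ℕ) (h : G), HQ (n + 1) (Cen h) →ₗ[ℚ] ℚ), AdmL n G L →
    ∀ (J : Type) (s : Finset J) (q : J → ℚ) (N p : J → ℕ) (φ : ∀ j, Cyc (N j) →* G)
      (c : ∀ j, HQ (n + 1) (Cen (φ j (gen (N j))))),
    (∀ j, 0 < N j) → (∀ j, (p j).Prime) → (∀ j, p j ∣ N j) → (∀ j, Function.Injective (φ j)) →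
    ∑ j ∈ s, q j • KB.mk n (MonoidAlgebra ℤ G) (ε0 (N j) (p j)).n
      (HQ.map (n + 1) (rhoC (ε0 (N j) (p j)) (φ j)) (c j)) = 0 →
    ∑ j ∈ s, q j * L (p j) (φ j (gen (N j))) (c j) = 0

/-- The part with coefficients `K_0`. -/
def S_T0 (ε0 : ∀ N : ℕ, ℕ → IdemMat (LaurentPolynomial (MonoidAlgebra ℤ (Cyc N)))) : Prop :=
  ∀ (G : Type) [Group G] (n : ℕ) (J : Type) (s : Finset J) (q : J → ℚ) (N p : J → ℕ)
      (φ : ∀ j, Cyc (N j) →* G) (c : ∀ j, HQ (n + 1) (Cen (φ j (gen (N j))))),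
    (∀ j, 0 < N j) → (∀ j, (p j).Prime) → (∀ j, p j ∣ N j) → (∀ j, Function.Injective (φ j)) →
    ∀ x : ZC ℚ (n + 1) (G × Multiplicative ℤ),
    tau n G (cl ℚ (n + 1) _ x) + ∑ j ∈ s, q j • KB.mk n (MonoidAlgebra ℤ G) (ε0 (N j) (p j)).n
      (HQ.map (n + 1) (rhoC (ε0 (N j) (p j)) (φ j)) (c j)) = 0 →
    ∀ F : (Fin (n + 2) → G × Multiplicative ℤ) → ℚ,
    (∀ (γ : G × Multiplicative ℤ) (X : Fin (n + 2) → G × Multiplicative ℤ),
      F (fun i => γ * X i) = F X) →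
    (∀ X : Fin (n + 3) → G × Multiplicative ℤ,
      ∑ i : Fin (n + 3), (-1 : ℚ) ^ (i : ℕ) * F (fun j => X (i.succAbove j)) = 0) →
    (∀ X : Fin (n + 2) → G × Multiplicative ℤ, (∀ i j, (X i).2 = (X j).2) → F X = 0) →
    pair F (psi ℚ (n + 1) _ (ch ℚ (n + 1) _ x)) = 0

/-- The final theorem. -/
def S_ALL : Prop :=
  ∃ ε : ∀ N : ℕ, ℕ → IdemMat (LaurentPolynomial (MonoidAlgebra ℤ (Cyc N))),
    ∀ (n : ℕ) (G : Type) [Group G], ∃ A : Src n G →ₗ[ℚ] KB n (MonoidAlgebra ℤ G),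
      IsAssembly ε A ∧
      ((∃ b : ℕ, ∀ h : G, IsOfFinOrder h → orderOf h ≤ b) →
        (∀ h : G, IsOfFinOrder h → h ≠ 1 → Module.Finite ℤ (HZ (n + 1) (Cen h))) →
        ∀ (a : HQ (n + 1) (G × Multiplicative ℤ)) (x : Src n G),
          tau n G a + A x = 0 ↔ a ∈ inG n G ∧ x = 0)

end Pool.Agent.FJA
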