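import Pool.Agent.FJA.Asm
import Pool.Agent.FJA.StF

/-!
# Values of functionals on the averaged classes
-/

set_option autoImplicit false
set_option linter.unusedSectionVars false

open Matrix Pool.Agent.WhK Pool.Agent.Lib25 CategoryTheory

noncomputable section

namespace Pool.Agent.FJA

/-- A functional with prescribed values exists if all relations are respected. -/
theorem exists_fun {J V : Type} [AddCommGroup V] [Module ℚ V] (a : J → V) (b : J → ℚ)
    (h : ∀ q : J →₀ ℚ, (q.sum fun j r => r • a j) = 0 → (q.sum fun j r => r * b j) = 0) :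
    ∃ F : V →ₗ[ℚ] ℚ, ∀ j, F (a j) = b j := by
  let Λ : (J →₀ ℚ) →ₗ[ℚ] V := Finsupp.linearCombination ℚ a
  let β : (J →₀ ℚ) →ₗ[ℚ] ℚ := Finsupp.linearCombination ℚ b
  have hker : LinearMap.ker Λ ≤ LinearMap.ker β := by
    intro q hq
    rw [LinearMap.mem_ker] at hq ⊢
    exact h q hq
  let f : LinearMap.range Λ →ₗ[ℚ] ℚ :=
    ((LinearMap.ker Λ).liftQ β hker).comp (Λ.quotKerEquivRange.symm : LinearMap.range Λ →ₗ[ℚ] _)
  have hf : ∀ c, f ⟨Λ c, LinearMap.mem_range_self Λ c⟩ = β c := by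
    intro c
    change ((LinearMap.ker Λ).liftQ β hker) (Λ.quotKerEquivRange.symm ⟨Λ c, _⟩) = β c
    have h1 : Λ.quotKerEquivRange.symm ⟨Λ c, LinearMap.mem_range_self Λ c⟩ =
        (LinearMap.ker Λ).mkQ c := by
      rw [LinearEquiv.symm_apply_eq]
      rfl
    rw [h1]
    exact Submodule.liftQ_apply _ _ _
  obtain ⟨F, hF⟩ := f.exists_extend
  refine ⟨F, fun j => ?_⟩
  have h1 := LinearMap.congr_fun hF ⟨Λ (Finsupp.single j 1), LinearMap.mem_range_self Λ _⟩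
  have h2 : F (Λ (Finsupp.single j 1)) = β (Finsupp.single j 1) := h1.trans (hf _)
  have h3 : Λ (Finsupp.single j 1) = a j :=
    (Finsupp.linearCombination_single ℚ _ _).trans (one_smul _ _)
  have h4 : β (Finsupp.single j 1) = b j :=
    (Finsupp.linearCombination_single ℚ _ _).trans (one_smul _ _)
  rw [h3, h4] at h2
  exact h2

/-- The data of an admissible pair `(p, φ)` and of a class in the centraliser. -/
structure Ix (n : ℕ) (G : Type) [Group G] : Type where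
  N : ℕ
  p : ℕ
  φ : Cyc N →* G
  c : HQ (n + 1) (Cen (φ (gen N)))
  hN : 0 < N
  hp : p.Prime
  hpN : p ∣ N
  hφ : Function.Injective φ

section

variable (ε0 : ∀ N : ℕ, ℕ → IdemMat (LaurentPolynomial (MonoidAlgebra ℤ (Cyc N)))) (n : ℕ)
  (G : Type) [Group G]

/-- The class defined by the raw idempotent matrix. -/
def rawV (j : Ix n G) : KB n (MonoidAlgebra ℤ G) :=
  KB.mk n (MonoidAlgebra ℤ G) (ε0 j.N j.p).n (HQ.map (n + 1) (rhoC (ε0 j.N j.p) j.φ) j.c)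

variable (hPRI : S_PRI.{0, 0, 0}) (hBD : S_BD.{0, 0, 0})

theorem rawV_eq (j : Ix n G) : prodG hPRI hBD n j.φ (Cen (j.φ (gen j.N))).subtype
    (commute_cyc j.φ) (KNegOne.of (ε0 j.N j.p)) j.c = rawV ε0 n G j :=
  prodG_rhoC hPRI hBD n _ _ _

variable {ε0} {n} {G}

theorem exists_F (hFIN : S_FIN ε0) {bG : ℕ} (hb : TorBd G bG)
    {L : ∀ (_ : ℕ) (h : G), HQ (n + 1) (Cen h) →ₗ[ℚ] ℚ} (hL : AdmL n G L) :
    ∃ F : KB n (MonoidAlgebra ℤ G) →ₗ[ℚ] ℚ, ∀ j : Ix n G,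
      F (rawV ε0 n G j) = L j.p (j.φ (gen j.N)) j.c := by
  apply exists_fun
  intro q hq
  exact hFIN G bG hb n L hL (Ix n G) q.support q (fun j => j.N) (fun j => j.p) (fun j => j.φ)
    (fun j => j.c) (fun j => j.hN) (fun j => j.hp) (fun j => j.hpN) (fun j => j.hφ) hq

/-- The raw class with a centraliser given up to an equality. -/
theorem raw_val {N : ℕ} {q : ℕ} (hN : 0 < N) (hq : q.Prime) (hqN : q ∣ N) (φ : Cyc N →* G)
    (hφ : Function.Injective φ) {h : G} (e : φ (gen N) = h)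
    (H : ∀ (z : Cen h) c, Commute ((Cen h).subtype z) (φ c)) (c : HQ (n + 1) (Cen h))
    {F : KB n (MonoidAlgebra ℤ G) →ₗ[ℚ] ℚ}
    {L : ∀ (_ : ℕ) (h : G), HQ (n + 1) (Cen h) →ₗ[ℚ] ℚ}
    (hF : ∀ j : Ix n G, F (rawV ε0 n G j) = L j.p (j.φ (gen j.N)) j.c) :
    F (prodG hPRI hBD n φ (Cen h).subtype H (KNegOne.of (ε0 N q)) c) = L q h c := by
  subst e
  have h1 := hF ⟨N, q, φ, c, hN, hq, hqN, hφ⟩
  rw [← rawV_eq ε0 n G hPRI hBD] at h1
  exact h1

theorem inj_pw {N : ℕ} [NeZero N] (w : (ZMod N)ˣ) : Function.Injective (pw N w) := by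
  intro c c' hcc
  have h3 : ∀ c : Cyc N, (c ^ (w : ZMod N).val) ^ ((w⁻¹ : (ZMod N)ˣ) : ZMod N).val = c := by
    intro c
    rw [← pow_val_mul (cyc_pow c), mul_inv_cancel, pow_val_one (cyc_pow c)]
  have h4 : c ^ (w : ZMod N).val = c' ^ (w : ZMod N).val := hcc
  rw [← h3 c, ← h3 c', h4]

/-- The twisted raw class, as a raw class. -/
theorem tw_raw {N : ℕ} [NeZero N] (q : ℕ) (φ : Cyc N →* G) {h : G}
    (H : ∀ (z : Cen h) c, Commute ((Cen h).subtype z) (φ c)) (c : HQ (n + 1) (Cen h))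
    (w : (ZMod N)ˣ) {h' : G} (hh : h' ∈ Subgroup.zpowers h)
    (H' : ∀ (z : Cen h') c, Commute ((Cen h').subtype z) ((φ.comp (pw N w)) c)) :
    prodG hPRI hBD n φ (Cen h).subtype H (Tw N w (KNegOne.of (ε0 N q))) c =
      prodG hPRI hBD n (φ.comp (pw N w)) (Cen h').subtype H' (KNegOne.of (ε0 N q))
        (HQ.map (n + 1) (cHom 1 (cHom_pow h hh)) c) := by
  have H1 : ∀ (z : Cen h) c, Commute ((Cen h).subtype z) ((φ.comp (pw N w)) c) := by
    intro z c
    exact H z _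
  rw [← prodG_comp hPRI hBD n (φ.comp (pw N w)) (Cen h').subtype H' (cHom 1 (cHom_pow h hh))
    (Cen h).subtype H1 (fun z => by
      change (z : G) = 1 * (z : G) * 1⁻¹
      rw [one_mul, inv_one, mul_one]),
    prodG_map hPRI hBD n φ (Cen h).subtype H (pw N w) _ H1 rfl]
  rfl

/-- The value of `L q h'` on the image of `c`. -/
def Lr (L : ∀ (_ : ℕ) (h : G), HQ (n + 1) (Cen h) →ₗ[ℚ] ℚ) (q : ℕ) {h : G}
    (c : HQ (n + 1) (Cen h)) (h' : G) (hh : h' ∈ Subgroup.zpowers h) : ℚ :=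
  L q h' (HQ.map (n + 1) (cHom 1 (cHom_pow h hh)) c)

theorem Lr_congr (L : ∀ (_ : ℕ) (h : G), HQ (n + 1) (Cen h) →ₗ[ℚ] ℚ) (q : ℕ) {h : G}
    (c : HQ (n + 1) (Cen h)) {h' h'' : G} (e : h' = h'') (hh : h' ∈ Subgroup.zpowers h)
    (hh' : h'' ∈ Subgroup.zpowers h) : Lr L q c h' hh = Lr L q c h'' hh' := by
  subst e
  rfl

theorem Lr_self (L : ∀ (_ : ℕ) (h : G), HQ (n + 1) (Cen h) →ₗ[ℚ] ℚ) (q : ℕ) {h : G}
    (c : HQ (n + 1) (Cen h)) (hh : h ∈ Subgroup.zpowers h) : Lr L q c h hh = L q h c := by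
  unfold Lr
  congr 1
  have h1 : cHom 1 (cHom_pow h hh) = MonoidHom.id (Cen h) := by
    refine MonoidHom.ext fun z => ?_
    apply Subtype.ext
    change 1 * (z : G) * 1⁻¹ = z
    rw [one_mul, inv_one, mul_one]
  rw [h1]
  exact Hk.map_id (k := ℚ) (n + 1) c

theorem Lr_frob {L : ∀ (_ : ℕ) (h : G), HQ (n + 1) (Cen h) →ₗ[ℚ] ℚ} (hL : AdmL n G L) (q : ℕ)
    {h : G} (c : HQ (n + 1) (Cen h)) {h' h'' : G} (hh : h' ∈ Subgroup.zpowers h)
    (hh' : h'' ∈ Subgroup.zpowers h) (H : Adm q h') (H1 : h' ∈ Subgroup.zpowers h'')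
    (H2 : h'' ∈ Subgroup.zpowers h') {j k : ℕ} (H3 : h' ^ q ^ j = h'' ^ q ^ k) :
    Lr L q c h'' hh' = Lr L q c h' hh := by
  unfold Lr
  have h1 : cHom 1 (cHom_pow h hh') = (cHom 1 (cHom_pow h' H2)).comp
      (cHom 1 (cHom_pow h hh)) := by
    refine MonoidHom.ext fun z => ?_
    apply Subtype.ext
    change 1 * (z : G) * 1⁻¹ = 1 * (1 * (z : G) * 1⁻¹) * 1⁻¹
    simp
  rw [← hL.frob q h' h'' H2 j k _ H H1 H3, ← HQ.map_comp, h1]

/-- The value on a twisted raw class. -/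
theorem val_tw {N : ℕ} [NeZero N] {q : ℕ} (hq : q ∈ N.primeFactors) (φ : Cyc N →* G)
    (hφ : Function.Injective φ) {h : G} (e : φ (gen N) = h)
    (H : ∀ (z : Cen h) c, Commute ((Cen h).subtype z) (φ c)) (c : HQ (n + 1) (Cen h))
    {F : KB n (MonoidAlgebra ℤ G) →ₗ[ℚ] ℚ}
    {L : ∀ (_ : ℕ) (h : G), HQ (n + 1) (Cen h) →ₗ[ℚ] ℚ}
    (hF : ∀ j : Ix n G, F (rawV ε0 n G j) = L j.p (j.φ (gen j.N)) j.c) (w : (ZMod N)ˣ) :
    F (prodG hPRI hBD n φ (Cen h).subtype H (Tw N w (KNegOne.of (ε0 N q))) c) =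
      Lr L q c (h ^ (w : ZMod N).val) (Subgroup.pow_mem _ (Subgroup.mem_zpowers h) _) := by
  have e' : (φ.comp (pw N w)) (gen N) = h ^ (w : ZMod N).val := by rw [pw_gen, e]
  rw [tw_raw hPRI hBD q φ H c w (Subgroup.pow_mem _ (Subgroup.mem_zpowers h) _)
    (fun z c => commute_cyc' e' z c)]
  have hi : Function.Injective (φ.comp (pw N w)) := fun a b hab => inj_pw w (hφ hab)
  exact raw_val hPRI hBD (Nat.pos_of_ne_zero (NeZero.ne N)) (Nat.prime_of_mem_primeFactors hq)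
    (Nat.dvd_of_mem_primeFactors hq) (φ.comp (pw N w)) hi e' (fun z c => commute_cyc' e' z c)
    (HQ.map (n + 1) (cHom 1 (cHom_pow h
      (Subgroup.pow_mem _ (Subgroup.mem_zpowers h) (w : ZMod N).val))) c) hF

/-- The constant which appears in the averaging. -/
def omg (N : ℕ) : ℕ :=
  if hN : 0 < N then
    (haveI : NeZero N := ⟨hN.ne'⟩
     N.primeFactors.card * Fintype.card (ZMod N)ˣ *
      ∏ q ∈ N.primeFactors, (ucl q (1 : (ZMod N)ˣ)).card)
  else 0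

theorem omg_eq (N : ℕ) [NeZero N] : omg N = N.primeFactors.card * Fintype.card (ZMod N)ˣ *
    ∏ q ∈ N.primeFactors, (ucl q (1 : (ZMod N)ˣ)).card :=
  dif_pos (Nat.pos_of_ne_zero (NeZero.ne N))

theorem omg_ne {N p : ℕ} (hN : 0 < N) (hp : p.Prime) (hpN : p ∣ N) : (omg N : ℚ) ≠ 0 := by
  have : NeZero N := ⟨hN.ne'⟩
  rw [omg_eq]
  refine Nat.cast_ne_zero.2 (Nat.mul_ne_zero (Nat.mul_ne_zero ?_ ?_) ?_)
  · exact (Finset.card_pos.2 ⟨p, Nat.mem_primeFactors.2 ⟨hp, hpN, hN.ne'⟩⟩).ne'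
  · exact Fintype.card_ne_zero
  · exact (Finset.prod_pos fun q _ => card_ucl_pos q _).ne'

/-- The value on an averaged class. -/
theorem val_ak3 {N : ℕ} [NeZero N] {p : ℕ} (hp : p ∈ N.primeFactors) (φ : Cyc N →* G)
    (hφ : Function.Injective φ) {h : G} (e : φ (gen N) = h)
    (H : ∀ (z : Cen h) c, Commute ((Cen h).subtype z) (φ c)) (c : HQ (n + 1) (Cen h))
    {F : KB n (MonoidAlgebra ℤ G) →ₗ[ℚ] ℚ}
    {L : ∀ (_ : ℕ) (h : G), HQ (n + 1) (Cen h) →ₗ[ℚ] ℚ} (hL : AdmL n G L)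
    (hF : ∀ j : Ix n G, F (rawV ε0 n G j) = L j.p (j.φ (gen j.N)) j.c) :
    F (prodG hPRI hBD n φ (Cen h).subtype H
      (H2.ak3 (Tw N) (fun q => KNegOne.of (ε0 N q)) p) c) = (omg N : ℚ) * L p h c := by
  have hord : orderOf h = N := by
    rw [← e]
    exact orderOf_cyc (Nat.pos_of_ne_zero (NeZero.ne N)) φ hφ
  have hfin : IsOfFinOrder h := by
    rw [← orderOf_pos_iff, hord]
    exact Nat.pos_of_ne_zero (NeZero.ne N)
  have hpow : h ^ N = 1 := by
    rw [← hord]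
    exact pow_orderOf_eq_one h
  set K : ℕ := ∏ q ∈ N.primeFactors, (ucl q (1 : (ZMod N)ˣ)).card with hK
  -- the additive function
  let E : KNegOne (MonoidAlgebra ℤ (Cyc N)) →+ ℚ :=
    { toFun := fun κ => F (prodG hPRI hBD n φ (Cen h).subtype H κ c)
      map_zero' := by rw [map_zero, LinearMap.zero_apply, map_zero]
      map_add' := fun x y => by rw [map_add, LinearMap.add_apply, map_add] }
  have hE : ∀ κ, E κ = F (prodG hPRI hBD n φ (Cen h).subtype H κ c) := fun _ => rfl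
  have hv : ∀ q ∈ N.primeFactors, ∀ w : (ZMod N)ˣ, E (Tw N w (KNegOne.of (ε0 N q))) =
      Lr L q c (h ^ (w : ZMod N).val) (Subgroup.pow_mem _ (Subgroup.mem_zpowers h) _) := by
    intro q hq w
    exact val_tw hPRI hBD hq φ hφ e H c hF w
  have h2 : ∀ q ∈ N.primeFactors, ∀ u : (ZMod N)ˣ,
      E (Tw N u (H2.ak2 (Tw N) (fun q => KNegOne.of (ε0 N q)) q)) = (K : ℚ) *
        Lr L q c (h ^ (u : ZMod N).val) (Subgroup.pow_mem _ (Subgroup.mem_zpowers h) _) := by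
    intro q hq u
    unfold H2.ak2
    rw [map_nsmul, map_nsmul, map_sum, map_sum]
    have h3 : ∀ w ∈ ucl q (1 : (ZMod N)ˣ), E (Tw N u (Tw N w (KNegOne.of (ε0 N q)))) =
        Lr L q c (h ^ (u : ZMod N).val) (Subgroup.pow_mem _ (Subgroup.mem_zpowers h) _) := by
      intro w hw
      rw [Tw_Tw, hv q hq]
      have hu : orderOf (h ^ (u : ZMod N).val) = N := orderOf_pow_val hord u
      have e1 : h ^ ((u * w : (ZMod N)ˣ) : ZMod N).val =
          (h ^ (u : ZMod N).val) ^ (w : ZMod N).val := pow_val_mul hpow u w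
      obtain ⟨i, k, hik⟩ := mem_ucl.1 hw
      have e2 : Subgroup.zpowers ((h ^ (u : ZMod N).val) ^ (w : ZMod N).val) =
          Subgroup.zpowers (h ^ (u : ZMod N).val) := by
        apply zpowers_pow_val
        rw [← pow_mul, mul_comm, pow_mul, hpow, one_pow]
      refine Lr_frob hL q c (j := k) (k := i) _ _ ⟨Nat.prime_of_mem_primeFactors hq, ?_, ?_⟩
        ?_ ?_ ?_
      · rw [← orderOf_pos_iff, hu]
        exact Nat.pos_of_ne_zero (NeZero.ne N)
      · rw [hu]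
        exact Nat.dvd_of_mem_primeFactors hq
      · rw [e1, e2]
        exact Subgroup.mem_zpowers _
      · rw [e1]
        exact Subgroup.pow_mem _ (Subgroup.mem_zpowers _) _
      · rw [e1, ← pow_mul, ← pow_mul, ← pow_mul, pow_eq_pow_iff_modEq, hord,
          ← ZMod.natCast_eq_natCast_iff]
        push_cast
        rw [ZMod.natCast_zmod_val, ZMod.natCast_zmod_val, hik, Units.val_one, one_mul]
    rw [Finset.sum_congr rfl h3, Finset.sum_const, nsmul_eq_mul, nsmul_eq_mul, ← mul_assoc,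
      ← Nat.cast_mul, hK, Finset.prod_erase_mul _ _ hq]
  have h3 : E (H2.akS (Tw N) (fun q => KNegOne.of (ε0 N q))) = 0 := by
    unfold H2.akS
    rw [map_sum]
    have h4 : ∀ q ∈ N.primeFactors, E (∑ u : (ZMod N)ˣ,
        Tw N u (H2.ak2 (Tw N) (fun q => KNegOne.of (ε0 N q)) q)) =
        (K : ℚ) * ∑ a ∈ (Finset.range N).filter (fun a => a.Coprime N),
          Lr L q c (h ^ a) (Subgroup.pow_mem _ (Subgroup.mem_zpowers h) _) := by
      intro q hq
      rw [map_sum, Finset.mul_sum]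
      refine Finset.sum_bij (fun (u : (ZMod N)ˣ) _ => (u : ZMod N).val) ?_ ?_ ?_ ?_
      · intro u _
        rw [Finset.mem_filter, Finset.mem_range]
        exact ⟨ZMod.val_lt _, ZMod.val_coe_unit_coprime u⟩
      · intro u _ v _ huv
        exact Units.ext (ZMod.val_injective _ huv)
      · intro a ha
        rw [Finset.mem_filter, Finset.mem_range] at ha
        refine ⟨ZMod.unitOfCoprime a ha.2, Finset.mem_univ _, ?_⟩
        rw [ZMod.coe_unitOfCoprime, ZMod.val_natCast, Nat.mod_eq_of_lt ha.1]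
      · intro u _
        exact h2 q hq u
    rw [Finset.sum_congr rfl h4, ← Finset.mul_sum]
    have h6 := hL.sum h c hfin
    rw [hord] at h6
    have h7 : ∑ q ∈ N.primeFactors, ∑ a ∈ (Finset.range N).filter (fun a => a.Coprime N),
          Lr L q c (h ^ a) (Subgroup.pow_mem _ (Subgroup.mem_zpowers h) _) = 0 := h6
    rw [h7, mul_zero]
  have h5 : E (H2.ak2 (Tw N) (fun q => KNegOne.of (ε0 N q)) p) = (K : ℚ) * L p h c := by
    have h6 := h2 p hp 1
    have h7 : Tw N 1 (H2.ak2 (Tw N) (fun q => KNegOne.of (ε0 N q)) p) =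
        H2.ak2 (Tw N) (fun q => KNegOne.of (ε0 N q)) p :=
      H2.T_ak2 (fun u w x => Tw_Tw u w x) p 1 (uRel_refl p 1)
    rw [h7] at h6
    rw [h6]
    congr 1
    rw [Lr_congr L p c (pow_val_one hpow) _ (Subgroup.mem_zpowers h), Lr_self]
  rw [← hE]
  unfold H2.ak3
  rw [map_sub, h3, sub_zero, map_nsmul, h5, nsmul_eq_mul, omg_eq]
  push_cast
  rw [hK]
  push_cast
  ring

end

end Pool.Agent.FJA
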