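import Mathlib

/-!
# Homogeneous chains, rational homology of groups, prisms

* `bd k V m` : the boundary of the free `k`-module on the tuples of `m + 1` elements of `V`.
* `HCh k Γ m` : homogeneous chains of degree `m` of the group `Γ`; `hdeg k Γ m` is the submodule
  spanned by the differences `g • X - X`; the chain complex which computes the homology of `Γ` with
  coefficients `k` is `HCh k Γ m / hdeg k Γ m`.  Its cycles are represented by the elements of
  `cyc k Γ m`, its boundaries by the elements of `bnd k Γ m`; `GH k Γ m` is the homology group.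
* `prism f f'` : the chain homotopy between the maps induced by two maps `f, f' : V → V'`.
-/

set_option autoImplicit false

namespace Pool.Agent.FJA

universe u v w

/-- The boundary of the free module on tuples: the alternating sum of the tuples obtained by
deleting one entry. -/
noncomputable def bd (k : Type v) [CommRing k] (V : Type u) (m : ℕ) :
    ((Fin (m + 1) → V) →₀ k) →ₗ[k] ((Fin m → V) →₀ k) :=
  Finsupp.linearCombination k fun X =>
    ∑ i : Fin (m + 1), Finsupp.single (fun j => X (i.succAbove j)) ((-1 : k) ^ (i : ℕ))

/-- Homogeneous chains of degree `m` of the group `Γ` with coefficients in `k`. -/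
abbrev HCh (k : Type v) [CommRing k] (Γ : Type u) (m : ℕ) : Type (max u v) :=
  (Fin (m + 1) → Γ) →₀ k

/-- The submodule spanned by the differences `g • X - X`, where `g • X` is the tuple with entries
`g * X i`; the quotient by it is the module of coinvariants. -/
noncomputable def hdeg (k : Type v) [CommRing k] (Γ : Type u) [Group Γ] (m : ℕ) :
    Submodule k (HCh k Γ m) :=
  Submodule.span k {x | ∃ (g : Γ) (X : Fin (m + 1) → Γ),
    x = Finsupp.single (fun i => g * X i) 1 - Finsupp.single X 1}

/-- The chains of degree `m` which represent cycles of the complex of coinvariants. -/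
noncomputable def cyc (k : Type v) [CommRing k] (Γ : Type u) [Group Γ] :
    ∀ m : ℕ, Submodule k (HCh k Γ m)
  | 0 => ⊤
  | m + 1 => (hdeg k Γ m).comap (bd k Γ (m + 1))

/-- The chains of degree `m` which represent boundaries of the complex of coinvariants. -/
noncomputable def bnd (k : Type v) [CommRing k] (Γ : Type u) [Group Γ] (m : ℕ) :
    Submodule k (HCh k Γ m) :=
  hdeg k Γ m ⊔ LinearMap.range (bd k Γ (m + 1))

/-- The homology `H_m(Γ; k)`: the classes of the cycles modulo the boundaries. -/
def GH (k : Type v) [CommRing k] (Γ : Type u) [Group Γ] (m : ℕ) : Type (max u v) :=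
  ↥((cyc k Γ m).map (bnd k Γ m).mkQ)

noncomputable instance GH.instAddCommGroup (k : Type v) [CommRing k] (Γ : Type u) [Group Γ]
    (m : ℕ) : AddCommGroup (GH k Γ m) :=
  Submodule.addCommGroup ((cyc k Γ m).map (bnd k Γ m).mkQ)

noncomputable instance GH.instModule (k : Type v) [CommRing k] (Γ : Type u) [Group Γ]
    (m : ℕ) : Module k (GH k Γ m) :=
  Submodule.module ((cyc k Γ m).map (bnd k Γ m).mkQ)

/-- The map of chains induced by a map of the vertices. -/
noncomputable def hmap (k : Type v) [CommRing k] {V : Type u} {V' : Type w} (f : V → V') (m : ℕ) :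
    ((Fin m → V) →₀ k) →ₗ[k] ((Fin m → V') →₀ k) :=
  Finsupp.lmapDomain k k fun X i => f (X i)

/-- The vertices `f (v 0), …, f (v i), f' (v i), …, f' (v (m - 1))`. -/
def mix {V : Type u} {V' : Type w} (f f' : V → V') {m : ℕ} (v : Fin m → V) (i : Fin m) :
    Fin (m + 1) → V' :=
  fun j => if j ≤ i.castSucc then f (v (i.predAbove j)) else f' (v (i.predAbove j))

/-- The prism operator between the maps induced by `f` and `f'`. -/
noncomputable def prism (k : Type v) [CommRing k] {V : Type u} {V' : Type w} (f f' : V → V')
    (m : ℕ) : ((Fin m → V) →₀ k) →ₗ[k] ((Fin (m + 1) → V') →₀ k) :=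
  Finsupp.linearCombination k fun v =>
    ∑ i : Fin m, Finsupp.single (mix f f' v i) ((-1 : k) ^ (i : ℕ))

end Pool.Agent.FJA
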