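import Pool.Agent.FJA.Rec
import Pool.Agent.FJA.Chains

/-!
# Definitions for the trace method

`Γ` is a group, `σ : Γ →* Multiplicative ℤ` a homomorphism (the coordinate `s` of `G × ℤ`).
-/

set_option autoImplicit false

open Matrix

namespace Pool.Agent.FJA

universe u v w x

section Functions

variable {Γ : Type u} [Group Γ] {V : Type v}

/-- Functions on recorded paths which are invariant under conjugation by `Γ`. -/
def CjInv (φ : Rec Γ V → ℚ) : Prop :=
  ∀ (γ : Γ) (μ : Rec Γ V), φ (Rec.inc γ * μ) = φ (μ * Rec.inc γ)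

/-- Trace functions on a monoid. -/
def IsTr {M : Type*} [Monoid M] (φ : M → ℚ) : Prop := ∀ μ ν, φ (μ * ν) = φ (ν * μ)

/-- All the positions which are recorded by `μ` have the same image under `σ`. -/
def Flat (σ : Γ →* Multiplicative ℤ) (μ : Rec Γ V) : Prop :=
  ∀ (i j : V) (a b : Γ), a ∈ μ.lst i → b ∈ μ.lst j → σ a = σ b

/-- The functions which give functionals that vanish on the killed chains: they are invariant under
conjugation, vanish unless the endpoint has finite order, and vanish on flat paths. -/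
structure NullFun (σ : Γ →* Multiplicative ℤ) (η : Rec Γ V → ℚ) : Prop where
  cj : CjInv η
  fin : ∀ μ, η μ ≠ 0 → IsOfFinOrder μ.val
  flat : ∀ μ, Flat σ μ → η μ = 0

end Functions

section Cochains

variable {Γ : Type u} [Group Γ]

/-- `F : (Fin (M + 1) → Γ) → Γ → ℚ` is a family of homogeneous cocycles `F · y` on `Γ`, indexed by
the elements `y` of finite order of `Γ`, which is invariant under `Γ` (acting on the tuples by left
multiplication and on `y` by conjugation), has bounded denominators, and vanishes on the tuples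
on which `σ` is constant. -/
structure Coch (σ : Γ →* Multiplicative ℤ) (M : ℕ) (F : (Fin (M + 1) → Γ) → Γ → ℚ) : Prop where
  inv : ∀ (γ : Γ) (a : Fin (M + 1) → Γ) (y : Γ), F (fun i => γ * a i) (γ * y * γ⁻¹) = F a y
  coc : ∀ (a : Fin (M + 2) → Γ) (y : Γ),
    ∑ i : Fin (M + 2), (-1 : ℚ) ^ (i : ℕ) * F (fun j => a (i.succAbove j)) y = 0
  fin : ∀ (a : Fin (M + 1) → Γ) (y : Γ), F a y ≠ 0 → IsOfFinOrder y
  den : ∃ D : ℕ, 0 < D ∧ ∀ (a : Fin (M + 1) → Γ) (y : Γ), ∃ z : ℤ, (D : ℚ) * F a y = z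
  flat : ∀ (a : Fin (M + 1) → Γ) (y : Γ), (∀ i j, σ (a i) = σ (a j)) → F a y = 0

/-- The function `F a (y ^ e)`. -/
def powF {M : ℕ} (e : ℕ) (F : (Fin M → Γ) → Γ → ℚ) : (Fin M → Γ) → Γ → ℚ := fun a y => F a (y ^ e)

/-- The function on recorded paths which evaluates `F` on the first recorded positions. -/
noncomputable def fst {M : ℕ} (F : (Fin M → Γ) → Γ → ℚ) (μ : Rec Γ (Fin M)) : ℚ := by
  classical
  exact if ∀ i, μ.lst i ≠ [] then F (fun i => (μ.lst i).headD 1) μ.val else 0

/-- The multilinear extension of a function on tuples. -/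
noncomputable def mex {Γ : Type u} {M : ℕ} (F : (Fin M → Γ) → ℚ) (c : Fin M → (Γ →₀ ℚ)) : ℚ := by
  classical
  exact ∑ x ∈ Fintype.piFinset (fun i => (c i).support), (∏ i, c i (x i)) * F x

/-- The sum of the coefficients. -/
noncomputable def aug {Γ : Type u} (c : Γ →₀ ℚ) : ℚ := c.sum fun _ r => r

/-- An equivariant section: it attaches to a nonempty list `Y` of positions and to an element `y` of
finite order a formal rational combination of augmentation `1` of the elements `y ^ t * a`,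
`t ∈ ℤ`, `a ∈ Y`. -/
structure Sec (s : List Γ → Γ → (Γ →₀ ℚ)) : Prop where
  inv : ∀ (γ : Γ) (Y : List Γ) (y : Γ), IsOfFinOrder y →
    s (Y.map (γ * ·)) (γ * y * γ⁻¹) = (s Y y).mapDomain (γ * ·)
  aug : ∀ (Y : List Γ) (y : Γ), IsOfFinOrder y → Y ≠ [] → aug (s Y y) = 1
  supp : ∀ (Y : List Γ) (y : Γ), IsOfFinOrder y → ∀ x ∈ (s Y y).support,
    ∃ (t : ℤ), ∃ a ∈ Y, x = y ^ t * a

/-- The function on recorded paths which evaluates `F` on the section `s` of the recorded
positions. -/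
noncomputable def evs {M : ℕ} (F : (Fin M → Γ) → Γ → ℚ) (s : List Γ → Γ → (Γ →₀ ℚ))
    (μ : Rec Γ (Fin M)) : ℚ := by
  classical
  exact if ∀ i, μ.lst i ≠ [] then mex (fun a => F a μ.val) (fun i => s (μ.lst i) μ.val) else 0

/-- The list of positions `Y`, `y Y`, …, `y ^ (e - 1) Y`: the positions on the `e`-fold path. -/
def powL (e : ℕ) (Y : List Γ) (y : Γ) : List Γ :=
  (List.range e).flatMap fun t => Y.map (y ^ t * ·)

/-- Bounded torsion. -/
def TorBd (Γ : Type u) [Group Γ] (b : ℕ) : Prop := ∀ γ : Γ, IsOfFinOrder γ → orderOf γ ≤ b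

end Cochains

section Matrices

variable {ι : Type x} [Fintype ι] [DecidableEq ι] {ι' : Type x} [Fintype ι'] [DecidableEq ι']

/-- The block sum of invertible matrices. -/
def blk {R : Type w} [Ring R] (A : (Matrix ι ι R)ˣ) (B : (Matrix ι' ι' R)ˣ) :
    (Matrix (ι ⊕ ι') (ι ⊕ ι') R)ˣ where
  val := Matrix.fromBlocks A.val 0 0 B.val
  inv := Matrix.fromBlocks A.inv 0 0 B.inv
  val_inv := by
    rw [Matrix.fromBlocks_multiply]
    simp
  inv_val := by
    rw [Matrix.fromBlocks_multiply]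
    simp

/-- Reindexing of invertible matrices. -/
def rix {R : Type w} [Ring R] (e : ι ≃ ι') (A : (Matrix ι ι R)ˣ) : (Matrix ι' ι' R)ˣ where
  val := A.val.submatrix e.symm e.symm
  inv := A.inv.submatrix e.symm e.symm
  val_inv := by
    rw [Matrix.submatrix_mul_equiv, A.val_inv, Matrix.submatrix_one_equiv]
  inv_val := by
    rw [Matrix.submatrix_mul_equiv, A.inv_val, Matrix.submatrix_one_equiv]

/-- The coefficients of an element of a monoid algebra over `ℚ_ℓ` are `ℓ`-adic integers. -/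
def NI {ℓ : ℕ} [Fact ℓ.Prime] {M : Type*} (x : MonoidAlgebra ℚ_[ℓ] M) : Prop :=
  ∀ μ, ‖x.coeff μ‖ ≤ 1

/-- All the entries of the matrix have integral coefficients. -/
def NIM {ℓ : ℕ} [Fact ℓ.Prime] {M : Type*} (A : Matrix ι ι' (MonoidAlgebra ℚ_[ℓ] M)) : Prop :=
  ∀ a b, NI (A a b)

/-- The matrix and its inverse have integral coefficients. -/
def NIU {ℓ : ℕ} [Fact ℓ.Prime] {M : Type*} [Monoid M] (A : (Matrix ι ι (MonoidAlgebra ℚ_[ℓ] M))ˣ) :
    Prop :=
  NIM (A : Matrix ι ι (MonoidAlgebra ℚ_[ℓ] M)) ∧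
    NIM ((A⁻¹ : (Matrix ι ι (MonoidAlgebra ℚ_[ℓ] M))ˣ) : Matrix ι ι (MonoidAlgebra ℚ_[ℓ] M))

end Matrices

end Pool.Agent.FJA
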