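import Pool.Agent.FJA.Hom
import Pool.Agent.FJA.Core2

/-!
# From `K_n(R) ⊗ ℚ` to chains modulo boundaries and killed chains
-/

set_option autoImplicit false
set_option linter.unusedSectionVars false

open Matrix Pool.Agent.WhK Pool.Agent.Lib25 CategoryTheory

noncomputable section

namespace Pool.Agent.FJA

section

variable (R : Type) [Ring R]

theorem kinS_single (M r : ℕ) (X : Fin M → GLn R r) (q : ℚ) :
    kinS R M r (Finsupp.single X q) = Finsupp.single ⟨r, X⟩ q := Finsupp.mapDomain_single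

theorem kinS_bd (M r : ℕ) (w : (Fin (M + 1) → GLn R r) →₀ ℚ) :
    kinS R M r (bd ℚ (GLn R r) M w) = bdS R M (kinS R (M + 1) r w) := by
  induction w using Finsupp.induction_linear with
  | zero => simp only [map_zero]
  | add x y hx hy => simp only [map_add, hx, hy]
  | single X q =>
    rw [bd_single, kinS_single, map_sum]
    unfold bdS
    rw [Finsupp.linearCombination_single, Finset.smul_sum]
    refine Finset.sum_congr rfl fun i _ => ?_
    rw [map_smul, kinS_single, Finsupp.smul_single, Finsupp.smul_single, smul_eq_mul, smul_eq_mul,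
      mul_comm]

theorem kinS_hdeg (m r : ℕ) {w : HCh ℚ (GLn (LaurentPolynomial R) r) m}
    (hw : w ∈ hdeg ℚ (GLn (LaurentPolynomial R) r) m) :
    kinS (LaurentPolynomial R) (m + 1) r w ∈ Kil R (m + 1) := by
  have h1 : hdeg ℚ (GLn (LaurentPolynomial R) r) m ≤
      (Kil R (m + 1)).comap (kinS (LaurentPolynomial R) (m + 1) r) := by
    unfold hdeg
    rw [Submodule.span_le]
    rintro x ⟨g, X, rfl⟩
    change kinS (LaurentPolynomial R) (m + 1) r _ ∈ Kil R (m + 1)
    rw [map_sub, kinS_single, kinS_single]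
    exact Submodule.subset_span (Or.inl (Or.inl (Or.inl ⟨r, g, X, rfl⟩)))
  exact h1 hw

theorem hmap_single {V V' : Type} (m : ℕ) (f : V → V') (X : Fin m → V) (q : ℚ) :
    hmap ℚ f m (Finsupp.single X q) = Finsupp.single (fun i => f (X i)) q :=
  Finsupp.mapDomain_single

theorem kinS_block (M a b : ℕ)
    (w : (Fin M → GLn (LaurentPolynomial R) a × GLn (LaurentPolynomial R) b) →₀ ℚ) :
    kinS (LaurentPolynomial R) M (a + b) (hmap ℚ (bsumHom (LaurentPolynomial R) a b) M w) -
      kinS (LaurentPolynomial R) M a (hmap ℚ (MonoidHom.fst _ _) M w) -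
      kinS (LaurentPolynomial R) M b (hmap ℚ (MonoidHom.snd _ _) M w) ∈ Kil R M := by
  induction w using Finsupp.induction_linear with
  | zero =>
    simp only [map_zero, sub_zero]
    exact Submodule.zero_mem _
  | add x y hx hy =>
    have h1 := Submodule.add_mem _ hx hy
    simp only [map_add]
    convert h1 using 1
    abel
  | single X q =>
    rw [hmap_single, hmap_single, hmap_single, kinS_single, kinS_single, kinS_single]
    have h1 : ∀ x : (Σ r : ℕ, (Fin M → GLn (LaurentPolynomial R) r)),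
        (Finsupp.single x q : SCh (LaurentPolynomial R) M) = q • Finsupp.single x 1 := by
      intro x
      rw [Finsupp.smul_single, smul_eq_mul, mul_one]
    rw [h1, h1 ⟨a, _⟩, h1 ⟨b, _⟩, ← smul_sub, ← smul_sub]
    exact Submodule.smul_mem _ _ (Submodule.subset_span (Or.inl (Or.inl (Or.inr
      ⟨a, b, fun i => (X i).1, fun i => (X i).2, rfl⟩))))

theorem kinS_pos (M r : ℕ) (w : (Fin M → GLn (Polynomial R) r) →₀ ℚ) :
    kinS (LaurentPolynomial R) M r (hmap ℚ (glm (posIncl R) r) M w) ∈ Kil R M := by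
  induction w using Finsupp.induction_linear with
  | zero =>
    simp only [map_zero]
    exact Submodule.zero_mem _
  | add x y hx hy =>
    simp only [map_add]
    exact Submodule.add_mem _ hx hy
  | single X q =>
    rw [hmap_single, kinS_single]
    have h1 : ∀ x : (Σ r : ℕ, (Fin M → GLn (LaurentPolynomial R) r)),
        (Finsupp.single x q : SCh (LaurentPolynomial R) M) = q • Finsupp.single x 1 := by
      intro x
      rw [Finsupp.smul_single, smul_eq_mul, mul_one]
    rw [h1]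
    exact Submodule.smul_mem _ _ (Submodule.subset_span (Or.inl (Or.inr ⟨r, X, rfl⟩)))

theorem kinS_neg (M r : ℕ) (w : (Fin M → GLn (Polynomial R) r) →₀ ℚ) :
    kinS (LaurentPolynomial R) M r (hmap ℚ (glm (negIncl R) r) M w) ∈ Kil R M := by
  induction w using Finsupp.induction_linear with
  | zero =>
    simp only [map_zero]
    exact Submodule.zero_mem _
  | add x y hx hy =>
    simp only [map_add]
    exact Submodule.add_mem _ hx hy
  | single X q =>
    rw [hmap_single, kinS_single]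
    have h1 : ∀ x : (Σ r : ℕ, (Fin M → GLn (LaurentPolynomial R) r)),
        (Finsupp.single x q : SCh (LaurentPolynomial R) M) = q • Finsupp.single x 1 := by
      intro x
      rw [Finsupp.smul_single, smul_eq_mul, mul_one]
    rw [h1]
    exact Submodule.smul_mem _ _ (Submodule.subset_span (Or.inr ⟨r, X, rfl⟩))

/-- The boundaries and the killed chains. -/
abbrev BK (M : ℕ) : Submodule ℚ (SCh (LaurentPolynomial R) M) :=
  LinearMap.range (bdS (LaurentPolynomial R) M) ⊔ Kil R M

/-- The map from inhomogeneous chains. -/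
def br0 (n r : ℕ) : IC ℚ (n + 1) (GLn (LaurentPolynomial R) r) →ₗ[ℚ]
    SCh (LaurentPolynomial R) (n + 2) ⧸ BK R (n + 2) :=
  (BK R (n + 2)).mkQ ∘ₗ kinS (LaurentPolynomial R) (n + 2) r ∘ₗ psi ℚ (n + 1) _

theorem br0_d (n r : ℕ) (y : IC ℚ (n + 2) (GLn (LaurentPolynomial R) r)) :
    br0 R n r (dI ℚ (n + 1) _ y) = 0 := by
  unfold br0
  rw [LinearMap.comp_apply, LinearMap.comp_apply, Submodule.mkQ_apply,
    Submodule.Quotient.mk_eq_zero]
  have h1 : psi ℚ (n + 1) _ (dI ℚ (n + 1) _ y) =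
      bd ℚ (GLn (LaurentPolynomial R) r) (n + 2) (psi ℚ (n + 2) _ y) -
      (bd ℚ (GLn (LaurentPolynomial R) r) (n + 2) (psi ℚ (n + 2) _ y) -
        psi ℚ (n + 1) _ (dI ℚ (n + 1) _ y)) := by
    rw [sub_sub_cancel]
  rw [h1, map_sub]
  refine Submodule.sub_mem _ (Submodule.mem_sup_left ?_) (Submodule.mem_sup_right ?_)
  · rw [kinS_bd]
    exact LinearMap.mem_range_self _ _
  · exact kinS_hdeg R (n + 1) r (psi_d (n + 1) y)

/-- The map from the homology of the general linear groups. -/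
def br1 (n : ℕ) : HGL (n + 1) (LaurentPolynomial R) →ₗ[ℚ]
    SCh (LaurentPolynomial R) (n + 2) ⧸ BK R (n + 2) :=
  DirectSum.toModule ℚ ℕ _ fun r => Hk.lift (br0 R n r) (br0_d R n r)

theorem br1_of (n r : ℕ) (x : ZC ℚ (n + 1) (GLn (LaurentPolynomial R) r)) :
    br1 R n (HGL.of (n + 1) (LaurentPolynomial R) r (cl ℚ (n + 1) _ x)) =
      (BK R (n + 2)).mkQ (kinS (LaurentPolynomial R) (n + 2) r
        (psi ℚ (n + 1) _ (ch ℚ (n + 1) _ x))) := by
  unfold br1 HGL.of
  rw [DirectSum.toModule_lof]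
  exact Hk.lift_cl _ _ x

/-- The value on the image of a class of a group `P`. -/
theorem br1_map (n r : ℕ) {P : Type} [Group P] (ρ : P →* GLn (LaurentPolynomial R) r)
    (x : ZC ℚ (n + 1) P) :
    br1 R n (HGL.of (n + 1) (LaurentPolynomial R) r (HQ.map (n + 1) ρ (cl ℚ (n + 1) P x))) =
      (BK R (n + 2)).mkQ (kinS (LaurentPolynomial R) (n + 2) r
        (hmap ℚ ρ (n + 2) (psi ℚ (n + 1) P (ch ℚ (n + 1) P x)))) := by
  obtain ⟨y, h1, h2⟩ := Hk.map_cl (k := ℚ) (m := n + 1) ρ x
  rw [HQ_map_eq, h1, br1_of, h2, psi_map]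

theorem br1_block (n : ℕ) :
    blockRel (n + 1) (LaurentPolynomial R) ≤ LinearMap.ker (br1 R n) := by
  unfold blockRel
  rw [Submodule.span_le]
  rintro _ ⟨a, b, c, rfl⟩
  obtain ⟨x, rfl⟩ := exists_cl (k := ℚ) c
  change br1 R n _ = 0
  rw [map_sub, map_sub, br1_map, br1_map, br1_map, ← map_sub, ← map_sub, Submodule.mkQ_apply,
    Submodule.Quotient.mk_eq_zero]
  exact Submodule.mem_sup_right (kinS_block R (n + 2) a b _)

/-- The map from `KQ`. -/
def br2 (n : ℕ) : KQ (n + 1) (LaurentPolynomial R) →ₗ[ℚ]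
    SCh (LaurentPolynomial R) (n + 2) ⧸ BK R (n + 2) :=
  (blockRel (n + 1) (LaurentPolynomial R)).liftQ (br1 R n) (br1_block R n)

theorem br2_map (n r : ℕ) {P : Type} [Group P] (ρ : P →* GLn (LaurentPolynomial R) r)
    (x : ZC ℚ (n + 1) P) :
    br2 R n (KQ.mk (n + 1) (LaurentPolynomial R) r (HQ.map (n + 1) ρ (cl ℚ (n + 1) P x))) =
      (BK R (n + 2)).mkQ (kinS (LaurentPolynomial R) (n + 2) r
        (hmap ℚ ρ (n + 2) (psi ℚ (n + 1) P (ch ℚ (n + 1) P x)))) :=
  br1_map R n r ρ x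

theorem br2_im (n : ℕ) :
    KQ.im (n + 1) (posIncl R) ⊔ KQ.im (n + 1) (negIncl R) ≤ LinearMap.ker (br2 R n) := by
  rw [sup_le_iff]
  unfold KQ.im
  rw [Submodule.span_le, Submodule.span_le]
  constructor
  · rintro _ ⟨r, c, rfl⟩
    obtain ⟨x, rfl⟩ := exists_cl (k := ℚ) c
    change br2 R n _ = 0
    rw [br2_map, Submodule.mkQ_apply, Submodule.Quotient.mk_eq_zero]
    exact Submodule.mem_sup_right (kinS_pos R (n + 2) r _)
  · rintro _ ⟨r, c, rfl⟩
    obtain ⟨x, rfl⟩ := exists_cl (k := ℚ) c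
    change br2 R n _ = 0
    rw [br2_map, Submodule.mkQ_apply, Submodule.Quotient.mk_eq_zero]
    exact Submodule.mem_sup_right (kinS_neg R (n + 2) r _)

/-- The map from `K_n(R) ⊗ ℚ` to the chains modulo the boundaries and the killed chains. -/
def bridge (n : ℕ) : KB n R →ₗ[ℚ] SCh (LaurentPolynomial R) (n + 2) ⧸ BK R (n + 2) :=
  (KQ.im (n + 1) (posIncl R) ⊔ KQ.im (n + 1) (negIncl R)).liftQ (br2 R n) (br2_im R n)

theorem bridge_mk (n r : ℕ) {P : Type} [Group P] (ρ : P →* GLn (LaurentPolynomial R) r)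
    (x : ZC ℚ (n + 1) P) :
    bridge R n (KB.mk n R r (HQ.map (n + 1) ρ (cl ℚ (n + 1) P x))) =
      (BK R (n + 2)).mkQ (kinS (LaurentPolynomial R) (n + 2) r
        (hmap ℚ ρ (n + 2) (psi ℚ (n + 1) P (ch ℚ (n + 1) P x)))) :=
  br2_map R n r ρ x

end

end Pool.Agent.FJA
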