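import Mathlib

/-!
# The condition on roots
-/

set_option autoImplicit false

noncomputable section

namespace Pool.Agent.FJA

/-- The group is residually finite. -/
def ResFin (G : Type) [Group G] : Prop :=
  ∀ g : G, g ≠ 1 → ∃ N : Subgroup G, N.Normal ∧ N.FiniteIndex ∧ g ∉ N

/-- For some prime `p` which is not invertible in `R` and some `b`, `c` the denominators of `f` are not divisible by
`p ^ b` and `y` is not a `p ^ c`-th power. -/
def RootC (R : Type) [CommRing R] {G : Type} [Group G] {n : ℕ} (y : G) (f : (Fin n → G) → ℚ) : Prop :=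
  ∃ p b c : ℕ, p.Prime ∧ ¬ IsUnit (p : R) ∧ (∀ a, ¬ p ^ b ∣ (f a).den) ∧ ∀ δ : G, δ ^ p ^ c ≠ y

end Pool.Agent.FJA
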