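import Pool.Agent.FJA.HcDefs
import Pool.Agent.FJA.RtRoot

/-!
# Cyclic cochains of group rings, and cocycles for the higher components of the Chern character
-/

set_option autoImplicit false

noncomputable section

namespace Pool.Agent.FJA

/-- The value on `tr (h 0 ⊗ ⋯ ⊗ h n)`, `h j` matrices over `R[G]`, of the cochain with the value
`F (1, γ 0, …, γ 0 ⋯ γ (n - 1); γ 0 ⋯ γ n)` on `γ 0 ⊗ ⋯ ⊗ γ n`, in the field `k` which contains `R`. -/
def cvalS {R : Type} [CommRing R] (k : Type) [Field k] [Algebra R k] {G : Type} [Group G] {ι : Type}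
    [Fintype ι] {n : ℕ} (F : (Fin (n + 1) → G) → G → ℚ)
    (h : Fin (n + 1) → Matrix ι ι (MonoidAlgebra R G)) : k :=
  ∑ᶠ γ : Fin (n + 1) → G, algebraMap R k (hcoef h γ) * ((F (fpr γ) (List.ofFn γ).prod : ℚ) : k)

/-- The cochain `f` is the sum of a cocycle `f'` and the coboundary of a cochain `E`, both alternating, invariant
under the centralizer of `y` and under powers of `y` in each variable; and `f' = 0`, or `RootC R y f'`, or for every
finite set `V` there are infinitely many primes `p` which do not occur in the denominators of `f'` such that every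
`z ∈ V` for which `z ^ p` is conjugate to `y` is a power of `z ^ p`. -/
def AdmSY (R : Type) [CommRing R] {G : Type} [Group G] (n : ℕ) (y : G) (f : (Fin (n + 1) → G) → ℚ) : Prop :=
  ∃ (f' : (Fin (n + 1) → G) → ℚ) (E : (Fin n → G) → ℚ), CInv y f' ∧ CInv y E ∧ AltB y f' ∧ AltB y E ∧
    (∀ a : Fin (n + 2) → G, cobE f' a = 0) ∧ (∀ a, f a = f' a + cobE E a) ∧
    (f' = 0 ∨ RootC R y f' ∨ ∀ V : Finset G, {p : ℕ | p.Prime ∧ (∀ a, ¬ p ∣ (f' a).den) ∧
      ∀ z ∈ V, IsConj (z ^ p) y → z ∈ Subgroup.zpowers (z ^ p)}.Infinite)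

end Pool.Agent.FJA
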