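import Pool.Agent.FJA.LmDefs
import Pool.Agent.FJA.RtChern

/-!
# The Chern character and the assembly map on chains
-/

set_option autoImplicit false

noncomputable section

namespace Pool.Agent.FJA

/-- The value of the family `F` on the image of the chain `z` of `GL_r(ℤ[G])` under the component
`H_n(GL_r(ℤ[G])) → HC_(n+2i)(ℚ[G])` of the Chern character, computed with the natural lift `T`. -/
def chv {G : Type} [Group G] {r : ℕ} (T : ∀ V : Type, ℕ → List V → (List V →₀ ℚ)) (n i : ℕ)
    (F : (Fin (n + 2 * i + 1) → G) → G → ℤ)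
    (z : (Fin (n + 1) → (Matrix (Fin r) (Fin r) (MonoidAlgebra ℤ G))ˣ) →₀ ℚ) : ℚ :=
  (lT T _ i (z.mapDomain List.ofFn)).sum fun Y q =>
    q * cvalS ℚ (fun a y => (F a y : ℚ)) (hseq (n + 2 * i) Y)

/-- The assembly map: the chain of `GL_1(ℤ[G])` of a chain of `G`. -/
def asm {G : Type} [Group G] {n : ℕ} (w : (Fin (n + 1) → G) →₀ ℚ) :
    (Fin (n + 1) → (Matrix (Fin 1) (Fin 1) (MonoidAlgebra ℤ G))ˣ) →₀ ℚ :=
  w.mapDomain fun a j => gMat (a j)

/-- The element `y` is superdivisible: it is a `p ^ c`-th power for all primes `p` and all `c`, and there is a finite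
set `V` such that for almost all primes `p` it is conjugate to `z ^ p` for some `z ∈ V`. -/
def SDvb {G : Type} [Group G] (y : G) : Prop :=
  (∀ p c : ℕ, p.Prime → ∃ δ : G, δ ^ p ^ c = y) ∧
    ∃ V : Finset G, {p : ℕ | p.Prime ∧ ∀ z ∈ V, ¬ IsConj (z ^ p) y}.Finite

/-- The only superdivisible element is `1`. -/
def NSDvb (G : Type) [Group G] : Prop := ∀ y : G, SDvb y → y = 1

end Pool.Agent.FJA
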