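import Pool.Agent.FJA.StT
import Pool.Agent.FJA.P_TXA
import Pool.Agent.FJA.P_TXD
import Pool.Agent.FJA.P_PRI

/-!
# SCF: the section and the first recorded positions
-/

set_option autoImplicit false

open Matrix

namespace Pool.Agent.FJA

namespace SCF

variable {Γ : Type}

/-- The prism function. -/
def EE {M : ℕ} (F : (Fin (M + 1) → Γ) → Γ → ℚ) (y : Γ) (v : Fin M → Γ × Γ) : ℚ :=
  ∑ j : Fin M, (-1 : ℚ) ^ (j : ℕ) * F (mix Prod.snd Prod.fst v j) y

/-- the prism identity for cocycles -/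
theorem prism_coc {M : ℕ} {F : (Fin (M + 1) → Γ) → Γ → ℚ} (y : Γ)
    (hF : ∀ a : Fin (M + 2) → Γ,
      ∑ i : Fin (M + 2), (-1 : ℚ) ^ (i : ℕ) * F (fun j => a (i.succAbove j)) y = 0)
    (v : Fin (M + 1) → Γ × Γ) :
    F (fun i => (v i).1) y - F (fun i => (v i).2) y =
      ∑ i : Fin (M + 1), (-1 : ℚ) ^ (i : ℕ) * EE F y (fun j => v (i.succAbove j)) := by
  set C : (Fin (M + 1) → Γ) → ℚ := fun c => F c y with hC
  set L : ((Fin (M + 1) → Γ) →₀ ℚ) →ₗ[ℚ] ℚ := Finsupp.linearCombination ℚ C with hL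
  have key := congrArg L (t_PRI ℚ (Γ × Γ) Γ Prod.snd Prod.fst M (Finsupp.single v 1))
  have hA : L (bd ℚ Γ (M + 1) (prism ℚ Prod.snd Prod.fst (M + 1)
      (Finsupp.single v 1))) = 0 := by
    unfold prism bd
    rw [Finsupp.linearCombination_single, one_smul, map_sum, map_sum]
    refine Finset.sum_eq_zero fun i _ => ?_
    rw [Finsupp.linearCombination_single, map_smul, map_sum]
    have h3 := hF (mix Prod.snd Prod.fst v i)
    have h4 : ∑ l : Fin (M + 1 + 1), L (Finsupp.single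
        (fun j => mix Prod.snd Prod.fst v i (l.succAbove j)) ((-1 : ℚ) ^ (l : ℕ))) = 0 := by
      rw [← h3]
      refine Finset.sum_congr rfl fun l _ => ?_
      rw [hL, Finsupp.linearCombination_single, smul_eq_mul]
    rw [h4, smul_zero]
  have hB : L (hmap ℚ Prod.fst (M + 1) (Finsupp.single v (1 : ℚ))) = C (fun i => (v i).1) := by
    unfold hmap
    rw [Finsupp.lmapDomain_apply, Finsupp.mapDomain_single, hL, Finsupp.linearCombination_single,
      one_smul]
  have hB' : L (hmap ℚ Prod.snd (M + 1) (Finsupp.single v (1 : ℚ))) = C (fun i => (v i).2) := by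
    unfold hmap
    rw [Finsupp.lmapDomain_apply, Finsupp.mapDomain_single, hL, Finsupp.linearCombination_single,
      one_smul]
  have hD : L (prism ℚ Prod.snd Prod.fst M (bd ℚ (Γ × Γ) M (Finsupp.single v 1))) =
      ∑ i : Fin (M + 1), (-1 : ℚ) ^ (i : ℕ) * EE F y (fun j => v (i.succAbove j)) := by
    unfold prism bd
    rw [Finsupp.linearCombination_single, one_smul, map_sum, map_sum]
    refine Finset.sum_congr rfl fun i _ => ?_
    rw [Finsupp.linearCombination_single, map_smul, map_sum, smul_eq_mul]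
    congr 1
    unfold EE
    refine Finset.sum_congr rfl fun j _ => ?_
    rw [hL, Finsupp.linearCombination_single, smul_eq_mul]
  rw [map_sub, map_sub, hA, hB, hB', hD] at key
  have h5 : C (fun i => (v i).1) - C (fun i => (v i).2) =
      ∑ i : Fin (M + 1), (-1 : ℚ) ^ (i : ℕ) * EE F y (fun j => v (i.succAbove j)) := by
    linarith
  exact h5

variable [Group Γ]

/-- The pairs (section, first position). -/
def vv {V : Type} (s : List Γ → Γ → Γ) (μ : Rec Γ V) (i : V) : Γ × Γ :=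
  (s (μ.lst i) μ.val, (μ.lst i).headD 1)

/-- The function. -/
noncomputable def eta {M : ℕ} (N : ℕ) (F : (Fin (M + 1) → Γ) → Γ → ℚ) (s : List Γ → Γ → Γ)
    (μ : Rec Γ (Fin M)) : ℚ := by
  classical
  exact if ∀ i, (μ.lst i).length = N then EE F μ.val (vv s μ) else 0

theorem step {M N : ℕ} (hN : 0 < N) {F : (Fin (M + 1) → Γ) → Γ → ℚ} (s : List Γ → Γ → Γ)
    (hF : ∀ (a : Fin (M + 2) → Γ) (y : Γ),
      ∑ i : Fin (M + 2), (-1 : ℚ) ^ (i : ℕ) * F (fun j => a (i.succAbove j)) y = 0)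
    (μ : Rec Γ (Fin (M + 1))) (hμ : ∀ i, (μ.lst i).length = N) :
    evN N F s μ = fst F μ +
      ∑ i : Fin (M + 1), (-1 : ℚ) ^ (i : ℕ) * eta N F s (Rec.res i.succAbove μ) := by
  classical
  have h1 : evN N F s μ = F (fun i => (vv s μ i).1) μ.val := by
    unfold evN
    rw [if_pos hμ]
    rfl
  have h2 : fst F μ = F (fun i => (vv s μ i).2) μ.val := by
    unfold fst
    rw [if_pos fun i h => ?_]
    · rfl
    · have := hμ i
      rw [h, List.length_nil] at this
      omega
  have h3 := prism_coc μ.val (fun a => hF a μ.val) (vv s μ)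
  have h4 : ∀ i : Fin (M + 1), eta N F s (Rec.res i.succAbove μ) =
      EE F μ.val (fun j => vv s μ (i.succAbove j)) := by
    intro i
    have h5 : ∀ j, ((Rec.res i.succAbove μ).lst j).length = N := fun j => hμ _
    unfold eta
    rw [if_pos h5]
    rfl
  rw [h1, h2, Finset.sum_congr rfl fun i _ => by rw [h4 i], ← h3]
  ring

theorem eta_cj {M N : ℕ} (hN : 0 < N) {F : (Fin (M + 1) → Γ) → Γ → ℚ} {s : List Γ → Γ → Γ}
    (hinv : ∀ (g : Γ) (a : Fin (M + 1) → Γ) (y : Γ), F (fun i => g * a i) (g * y * g⁻¹) = F a y)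
    (hb : ∀ (t : Fin (M + 1) → ℤ) (a : Fin (M + 1) → Γ) (y : Γ),
      F (fun i => y ^ t i * a i) y = F a y)
    (hs : SecF N s) : CjInv (eta N F s) := by
  classical
  intro γ μ
  have hl1 : ∀ i, (Rec.inc γ * μ).lst i = (μ.lst i).map (γ * ·) := by
    intro i
    simp
  have hl2 : ∀ i, (μ * Rec.inc γ).lst i = μ.lst i := by
    intro i
    simp
  have hv1 : (Rec.inc γ * μ).val = γ * (μ.val * γ) * γ⁻¹ := by
    simp [mul_assoc]
  have hv2 : (μ * Rec.inc γ).val = μ.val * γ := by simp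
  unfold eta
  have hiff : (∀ i, ((Rec.inc γ * μ).lst i).length = N) ↔
      (∀ i, ((μ * Rec.inc γ).lst i).length = N) := by
    simp only [hl1, hl2, List.length_map]
  by_cases h : ∀ i, ((μ * Rec.inc γ).lst i).length = N
  · rw [if_pos h, if_pos (hiff.2 h)]
    have hne : ∀ i, μ.lst i ≠ [] := fun i h0 => by
      have := h i
      rw [hl2, h0, List.length_nil] at this
      omega
    unfold EE
    refine Finset.sum_congr rfl fun j _ => ?_
    congr 1
    have h1 : ∀ l, ∃ t : ℤ, (vv s (Rec.inc γ * μ) l).2 =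
        γ * ((μ.val * γ) ^ t * (vv s (μ * Rec.inc γ) l).2) := by
      intro l
      refine ⟨0, ?_⟩
      unfold vv
      rw [hl1, hl2, zpow_zero, one_mul]
      obtain ⟨a, t, hat⟩ := List.exists_cons_of_ne_nil (hne l)
      rw [hat]
      rfl
    have h2 : ∀ l, ∃ t : ℤ, (vv s (Rec.inc γ * μ) l).1 =
        γ * ((μ.val * γ) ^ t * (vv s (μ * Rec.inc γ) l).1) := by
      intro l
      unfold vv
      rw [hl1, hl2, hv1, hv2]
      exact hs.inv γ (μ.lst l) (μ.val * γ) (hne l)
    have h3 : ∀ i, ∃ t : ℤ, mix Prod.snd Prod.fst (vv s (Rec.inc γ * μ)) j i =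
        γ * ((μ.val * γ) ^ t * mix Prod.snd Prod.fst (vv s (μ * Rec.inc γ)) j i) := by
      intro i
      unfold mix
      split_ifs
      · exact h1 _
      · exact h2 _
    choose t ht using h3
    have h4 : mix Prod.snd Prod.fst (vv s (Rec.inc γ * μ)) j =
        fun i => γ * ((μ.val * γ) ^ t i * mix Prod.snd Prod.fst (vv s (μ * Rec.inc γ)) j i) :=
      funext ht
    rw [h4, hv1, hv2, hinv γ (fun i => (μ.val * γ) ^ t i *
      mix Prod.snd Prod.fst (vv s (μ * Rec.inc γ)) j i), hb t]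
  · rw [if_neg h, if_neg (mt hiff.1 h)]

end SCF

open SCF in
theorem t_SCF : S_SCF := by
  intro Γ _ M N F s hN hinv hF hb hs
  refine ⟨eta N F s, eta_cj hN hinv hb hs, ?_⟩
  intro k _ _ ι _ _ X
  have h1 : TX (evN N F s) N X = TX (fun μ => fst F μ +
      ∑ i : Fin (M + 1), (-1 : ℚ) ^ (i : ℕ) * eta N F s (Rec.res i.succAbove μ)) N X := by
    refine t_TXlen k Γ ι (M + 1) N _ _ X fun μ hμ => ?_
    exact step hN s hF μ hμ
  have h2 : ∀ S : Finset (Fin (M + 1)), TX (fun μ : Rec Γ (Fin (M + 1)) =>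
      ∑ i ∈ S, (-1 : ℚ) ^ (i : ℕ) * eta N F s (Rec.res i.succAbove μ)) N X =
      ∑ i ∈ S, (-1 : k) ^ (i : ℕ) * TX (eta N F s) N (fun t => X (i.succAbove t)) := by
    intro S
    induction S using Finset.induction_on with
    | empty =>
      have h3 := (t_TXlin k Γ ι (M + 1) N X).2 0 (fun _ => 0)
      simp only [Finset.sum_empty]
      simpa using h3
    | insert a S ha ih =>
      simp only [Finset.sum_insert ha]
      rw [(t_TXlin k Γ ι (M + 1) N X).1, ih, (t_TXlin k Γ ι (M + 1) N X).2,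
        t_TXfac k Γ ι M N (eta N F s) a X]
      push_cast
      rfl
  rw [h1, (t_TXlin k Γ ι (M + 1) N X).1, h2 Finset.univ]
  ring

end Pool.Agent.FJA
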