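import Pool.Agent.FJA.StX
import Pool.Agent.FJA.P_SCF

/-!
# RTI: integral classes at the elements of finite order
-/

set_option autoImplicit false

noncomputable section

namespace Pool.Agent.FJA

namespace RTI

/-- the sum over all the tuples of a function which does not depend on one of the entries -/
theorem sum_succAbove {M : ℕ} {T : Type} [Fintype T] (i : Fin (M + 1)) (g : (Fin M → T) → ℚ) :
    ∑ t : Fin (M + 1) → T, g (fun j => t (i.succAbove j)) =
      (Fintype.card T : ℚ) * ∑ t : Fin M → T, g t := by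
  rw [← (Fin.insertNthEquiv (fun _ : Fin (M + 1) => T) i).sum_comp, Fintype.sum_prod_type]
  have h : ∀ (x : T) (t : Fin M → T),
      g (fun j => (Fin.insertNthEquiv (fun _ : Fin (M + 1) => T) i) (x, t) (i.succAbove j)) =
        g t := by
    intro x t
    congr 1
    funext j
    simp [Fin.insertNthEquiv]
  simp only [h]
  rw [Finset.sum_const, Finset.card_univ, nsmul_eq_mul]

variable {G : Type} [Group G] {n : ℕ}

/-- the family with rational values -/
def QF (F : (Fin (n + 1) → G) → G → ℤ) (a : Fin (n + 1) → G) (y : G) : ℚ := (F a y : ℚ)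

/-- the average -/
def av (y : G) [Fintype (Subgroup.zpowers y)] (F : (Fin (n + 1) → G) → G → ℤ)
    (a : Fin (n + 1) → G) : ℚ :=
  ((Fintype.card (Subgroup.zpowers y) : ℚ) ^ (n + 1))⁻¹ *
    ∑ t : Fin (n + 1) → Subgroup.zpowers y, QF F (fun i => (t i : G) * a i) y

/-- the average of the prism function -/
def ev (y : G) [Fintype (Subgroup.zpowers y)] (F : (Fin (n + 1) → G) → G → ℤ)
    (a : Fin n → G) : ℚ :=
  ((Fintype.card (Subgroup.zpowers y) : ℚ) ^ n)⁻¹ *
    ∑ t : Fin n → Subgroup.zpowers y, SCF.EE (QF F) y (fun i => ((t i : G) * a i, a i))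

theorem comm_zp {y g : G} (h : g * y = y * g) (t : Subgroup.zpowers y) :
    (t : G) * g = g * t := by
  obtain ⟨t, k, rfl⟩ := t
  have h1 : Commute g y := h
  exact (h1.zpow_right k).eq.symm

theorem inv_c {F : (Fin (n + 1) → G) → G → ℤ} (hF : CocFam n F) {y g : G} (h : g * y = y * g)
    (a : Fin (n + 1) → G) : QF F (fun i => g * a i) y = QF F a y := by
  have h1 := hF.inv g a y
  have h2 : g * y * g⁻¹ = y := by rw [h, mul_inv_cancel_right]
  rw [h2] at h1
  unfold QF
  rw [h1]

theorem coc_q {F : (Fin (n + 1) → G) → G → ℤ} (hF : CocFam n F) (y : G) (a : Fin (n + 2) → G) :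
    ∑ i : Fin (n + 2), (-1 : ℚ) ^ (i : ℕ) * QF F (fun j => a (i.succAbove j)) y = 0 := by
  have h := hF.coc a y
  unfold QF
  exact_mod_cast congrArg (fun z : ℤ => (z : ℚ)) h

theorem av_cinv (y : G) [Fintype (Subgroup.zpowers y)] {F : (Fin (n + 1) → G) → G → ℤ}
    (hF : CocFam n F) : CInv y (av y F) := by
  intro g a hg
  unfold av
  congr 1
  refine Finset.sum_congr rfl fun t _ => ?_
  rw [← inv_c hF hg fun i => (t i : G) * a i]
  congr 1
  funext i
  rw [← mul_assoc, comm_zp hg, mul_assoc]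

theorem ev_cinv (y : G) [Fintype (Subgroup.zpowers y)] {F : (Fin (n + 1) → G) → G → ℤ}
    (hF : CocFam n F) : CInv y (ev y F) := by
  intro g a hg
  unfold ev
  congr 1
  refine Finset.sum_congr rfl fun t _ => ?_
  unfold SCF.EE
  refine Finset.sum_congr rfl fun j _ => ?_
  rw [← inv_c hF hg (mix Prod.snd Prod.fst (fun i => ((t i : G) * a i, a i)) j)]
  congr 2
  funext i
  unfold mix
  split_ifs
  · rfl
  · dsimp only
    rw [← mul_assoc, comm_zp hg, mul_assoc]

theorem av_bas (y : G) [Fintype (Subgroup.zpowers y)] (F : (Fin (n + 1) → G) → G → ℤ)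
    (t : Fin (n + 1) → ℤ) (a : Fin (n + 1) → G) :
    av y F (fun i => y ^ t i * a i) = av y F a := by
  unfold av
  congr 1
  rw [← Equiv.sum_comp (Equiv.mulRight (fun i => (⟨y ^ t i, t i, rfl⟩ : Subgroup.zpowers y)))
    fun s : Fin (n + 1) → Subgroup.zpowers y => QF F (fun i => (s i : G) * a i) y]
  refine Finset.sum_congr rfl fun s _ => ?_
  congr 1
  funext i
  simp [mul_assoc]

theorem card_ne (y : G) [Fintype (Subgroup.zpowers y)] :
    (Fintype.card (Subgroup.zpowers y) : ℚ) ≠ 0 := by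
  exact_mod_cast Fintype.card_ne_zero

theorem av_coc (y : G) [Fintype (Subgroup.zpowers y)] {F : (Fin (n + 1) → G) → G → ℤ}
    (hF : CocFam n F) (a : Fin (n + 2) → G) : cobE (av y F) a = 0 := by
  have h1 : ∀ i : Fin (n + 2), (-1 : ℚ) ^ (i : ℕ) * av y F (fun j => a (i.succAbove j)) =
      ((Fintype.card (Subgroup.zpowers y) : ℚ) ^ (n + 2))⁻¹ *
        ∑ t : Fin (n + 2) → Subgroup.zpowers y, (-1 : ℚ) ^ (i : ℕ) *
          QF F (fun j => (fun l => (t l : G) * a l) (i.succAbove j)) y := by
    intro i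
    have := card_ne y
    rw [← Finset.mul_sum, sum_succAbove i fun t : Fin (n + 1) → Subgroup.zpowers y =>
      QF F (fun j => (t j : G) * a (i.succAbove j)) y]
    unfold av
    field_simp
    ring
  unfold cobE
  rw [Finset.sum_congr rfl fun i _ => h1 i, ← Finset.mul_sum, Finset.sum_comm]
  refine mul_eq_zero_of_right _ (Finset.sum_eq_zero fun t _ => ?_)
  exact coc_q hF y fun l => (t l : G) * a l

theorem av_eq (y : G) [Fintype (Subgroup.zpowers y)] {F : (Fin (n + 1) → G) → G → ℤ}
    (hF : CocFam n F) (a : Fin (n + 1) → G) : av y F a - QF F a y = cobE (ev y F) a := by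
  have h1 : ∀ t : Fin (n + 1) → Subgroup.zpowers y,
      QF F (fun i => (t i : G) * a i) y - QF F a y =
        ∑ i : Fin (n + 1), (-1 : ℚ) ^ (i : ℕ) *
          SCF.EE (QF F) y (fun j => ((t (i.succAbove j) : G) * a (i.succAbove j),
            a (i.succAbove j))) := fun t =>
    SCF.prism_coc y (coc_q hF y) (fun i => ((t i : G) * a i, a i))
  have h2 := Finset.sum_congr rfl fun (t : Fin (n + 1) → Subgroup.zpowers y)
    (_ : t ∈ Finset.univ) => h1 t
  rw [Finset.sum_sub_distrib, Finset.sum_const, Finset.card_univ, Fintype.card_fun,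
    Fintype.card_fin, nsmul_eq_mul, Finset.sum_comm] at h2
  have hN0 := card_ne y
  have h3 : ∀ i : Fin (n + 1), ∑ t : Fin (n + 1) → Subgroup.zpowers y, (-1 : ℚ) ^ (i : ℕ) *
      SCF.EE (QF F) y (fun j => ((t (i.succAbove j) : G) * a (i.succAbove j),
        a (i.succAbove j))) =
      (Fintype.card (Subgroup.zpowers y) : ℚ) ^ (n + 1) *
        ((-1 : ℚ) ^ (i : ℕ) * ev y F (fun j => a (i.succAbove j))) := by
    intro i
    rw [← Finset.mul_sum, sum_succAbove i fun t : Fin n → Subgroup.zpowers y =>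
      SCF.EE (QF F) y (fun j => ((t j : G) * a (i.succAbove j), a (i.succAbove j)))]
    unfold ev
    field_simp
    ring
  rw [Finset.sum_congr rfl fun i _ => h3 i, ← Finset.mul_sum] at h2
  push_cast at h2
  have h4 : (Fintype.card (Subgroup.zpowers y) : ℚ) ^ (n + 1) ≠ 0 := pow_ne_zero _ hN0
  unfold cobE
  have h5 := congrArg (fun x => ((Fintype.card (Subgroup.zpowers y) : ℚ) ^ (n + 1))⁻¹ * x) h2
  rw [← mul_assoc, inv_mul_cancel₀ h4, one_mul, mul_sub, ← mul_assoc, inv_mul_cancel₀ h4,
    one_mul] at h5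
  exact h5

theorem av_den (y : G) [Fintype (Subgroup.zpowers y)] (F : (Fin (n + 1) → G) → G → ℤ)
    (a : Fin (n + 1) → G) : (av y F a).den ∣ Fintype.card (Subgroup.zpowers y) ^ (n + 1) := by
  have h : av y F a = (((∑ t : Fin (n + 1) → Subgroup.zpowers y,
      F (fun i => (t i : G) * a i) y : ℤ) : ℚ)) /
      (((Fintype.card (Subgroup.zpowers y) ^ (n + 1) : ℕ) : ℤ) : ℚ) := by
    unfold av QF
    push_cast
    rw [div_eq_mul_inv, mul_comm]
  rw [h, ← Rat.divInt_eq_div]
  exact Int.natCast_dvd_natCast.1 (Rat.den_dvd _ _)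

end RTI

open RTI in
theorem t_RTI : S_RTI := by
  intro G _ n F hF y hy
  have : Finite (Subgroup.zpowers y) := hy.finite_zpowers
  let _ : Fintype (Subgroup.zpowers y) := Fintype.ofFinite _
  refine ⟨av y F, fun a => - ev y F a, av_cinv y hF, fun g a hg => ?_, av_bas y F, av_coc y hF,
    fun a => ?_, Fintype.card (Subgroup.zpowers y) ^ (n + 1),
    pow_pos Fintype.card_pos _, fun a p _ hp => hp.trans (av_den y F a)⟩
  · change - ev y F (fun i => g * a i) = - ev y F a
    rw [ev_cinv y hF g a hg]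
  · have h1 := av_eq y hF a
    have h2 : cobE (fun a => - ev y F a) a = - cobE (ev y F) a := by
      unfold cobE
      rw [← Finset.sum_neg_distrib]
      exact Finset.sum_congr rfl fun i _ => by ring
    rw [h2, ← h1]
    change RTI.QF F a y = _
    ring

end Pool.Agent.FJA
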