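import Pool.Agent.FJA.StY
import Pool.Agent.FJA.P_RTI

/-!
# RBA: at an element of finite order a cocycle can be made invariant under the powers of the element
-/

set_option autoImplicit false

noncomputable section

namespace Pool.Agent.FJA

namespace RBA

/-! ### denominators -/

theorem pow_dvd_lcm {p b m n : ℕ} (hp : p.Prime) (hm : m ≠ 0) (hn : n ≠ 0)
    (h : p ^ b ∣ m.lcm n) : p ^ b ∣ m ∨ p ^ b ∣ n := by
  rw [hp.pow_dvd_iff_le_factorization (Nat.lcm_ne_zero hm hn), Nat.factorization_lcm hm hn,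
    Finsupp.sup_apply, le_sup_iff] at h
  rcases h with h | h
  · exact Or.inl ((hp.pow_dvd_iff_le_factorization hm).2 h)
  · exact Or.inr ((hp.pow_dvd_iff_le_factorization hn).2 h)

theorem den_add {p b : ℕ} (hp : p.Prime) {q r : ℚ} (hq : ¬ p ^ b ∣ q.den) (hr : ¬ p ^ b ∣ r.den) :
    ¬ p ^ b ∣ (q + r).den := by
  intro h
  rcases pow_dvd_lcm hp q.den_nz r.den_nz (h.trans (Rat.add_den_dvd_lcm q r)) with h1 | h1
  · exact hq h1
  · exact hr h1

theorem den_sum {p b : ℕ} (hp : p.Prime) (hb : b ≠ 0) {ι : Type} (s : Finset ι) (q : ι → ℚ)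
    (hq : ∀ i, ¬ p ^ b ∣ (q i).den) : ¬ p ^ b ∣ (∑ i ∈ s, q i).den := by
  classical
  induction s using Finset.induction_on with
  | empty =>
    rw [Finset.sum_empty]
    intro h
    have h1 : p ^ b = 1 := Nat.dvd_one.1 h
    exact absurd h1 (Nat.one_lt_pow hb hp.one_lt).ne'
  | insert i s hi ih =>
    rw [Finset.sum_insert hi]
    exact den_add hp (hq i) ih

theorem den_inv_mul {p b c M : ℕ} (hp : p.Prime) (hM : 0 < M) (hc : ¬ p ^ c ∣ M) {q : ℚ}
    (hq : ¬ p ^ b ∣ q.den) : ¬ p ^ (b + c) ∣ ((M : ℚ)⁻¹ * q).den := by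
  intro h
  have h1 : p ^ (b + c) ∣ M * q.den := by
    have h2 := h.trans (Rat.mul_den_dvd (M : ℚ)⁻¹ q)
    rwa [Rat.inv_natCast_den_of_pos hM] at h2
  rw [hp.pow_dvd_iff_le_factorization (Nat.mul_ne_zero hM.ne' q.den_nz),
    Nat.factorization_mul hM.ne' q.den_nz, Finsupp.add_apply] at h1
  rw [hp.pow_dvd_iff_le_factorization hM.ne'] at hc
  rw [hp.pow_dvd_iff_le_factorization q.den_nz] at hq
  omega

/-! ### the averages -/

variable {G : Type} [Group G] {n : ℕ}

/-- the average -/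
def av (y : G) [Fintype (Subgroup.zpowers y)] (f : (Fin (n + 1) → G) → ℚ)
    (a : Fin (n + 1) → G) : ℚ :=
  ((Fintype.card (Subgroup.zpowers y) : ℚ) ^ (n + 1))⁻¹ *
    ∑ t : Fin (n + 1) → Subgroup.zpowers y, f (fun i => (t i : G) * a i)

/-- the average of the prism function -/
def ev (y : G) [Fintype (Subgroup.zpowers y)] (f : (Fin (n + 1) → G) → ℚ)
    (a : Fin n → G) : ℚ :=
  ((Fintype.card (Subgroup.zpowers y) : ℚ) ^ n)⁻¹ *
    ∑ t : Fin n → Subgroup.zpowers y, SCF.EE (fun a _ => f a) y (fun i => ((t i : G) * a i, a i))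

theorem av_cinv (y : G) [Fintype (Subgroup.zpowers y)] {f : (Fin (n + 1) → G) → ℚ}
    (hf : CInv y f) : CInv y (av y f) := by
  intro g a hg
  unfold av
  congr 1
  refine Finset.sum_congr rfl fun t _ => ?_
  rw [← hf g (fun i => (t i : G) * a i) hg]
  congr 1
  funext i
  rw [← mul_assoc, RTI.comm_zp hg, mul_assoc]

theorem ev_cinv (y : G) [Fintype (Subgroup.zpowers y)] {f : (Fin (n + 1) → G) → ℚ}
    (hf : CInv y f) : CInv y (ev y f) := by
  intro g a hg
  unfold ev
  congr 1
  refine Finset.sum_congr rfl fun t _ => ?_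
  unfold SCF.EE
  refine Finset.sum_congr rfl fun j _ => ?_
  dsimp only
  rw [← hf g (mix Prod.snd Prod.fst (fun i => ((t i : G) * a i, a i)) j) hg]
  congr 2
  funext i
  unfold mix
  split_ifs
  · rfl
  · dsimp only
    rw [← mul_assoc, RTI.comm_zp hg, mul_assoc]

theorem av_bas (y : G) [Fintype (Subgroup.zpowers y)] (f : (Fin (n + 1) → G) → ℚ)
    (t : Fin (n + 1) → ℤ) (a : Fin (n + 1) → G) :
    av y f (fun i => y ^ t i * a i) = av y f a := by
  unfold av
  congr 1
  rw [← Equiv.sum_comp (Equiv.mulRight (fun i => (⟨y ^ t i, t i, rfl⟩ : Subgroup.zpowers y)))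
    fun s : Fin (n + 1) → Subgroup.zpowers y => f (fun i => (s i : G) * a i)]
  refine Finset.sum_congr rfl fun s _ => ?_
  congr 1
  funext i
  simp [mul_assoc]

theorem av_coc (y : G) [Fintype (Subgroup.zpowers y)] {f : (Fin (n + 1) → G) → ℚ}
    (hf : ∀ a : Fin (n + 2) → G, cobE f a = 0) (a : Fin (n + 2) → G) : cobE (av y f) a = 0 := by
  have h1 : ∀ i : Fin (n + 2), (-1 : ℚ) ^ (i : ℕ) * av y f (fun j => a (i.succAbove j)) =
      ((Fintype.card (Subgroup.zpowers y) : ℚ) ^ (n + 2))⁻¹ *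
        ∑ t : Fin (n + 2) → Subgroup.zpowers y, (-1 : ℚ) ^ (i : ℕ) *
          f (fun j => (fun l => (t l : G) * a l) (i.succAbove j)) := by
    intro i
    have := RTI.card_ne y
    rw [← Finset.mul_sum, RTI.sum_succAbove i fun t : Fin (n + 1) → Subgroup.zpowers y =>
      f (fun j => (t j : G) * a (i.succAbove j))]
    unfold av
    field_simp
    ring
  unfold cobE
  rw [Finset.sum_congr rfl fun i _ => h1 i, ← Finset.mul_sum, Finset.sum_comm]
  refine mul_eq_zero_of_right _ (Finset.sum_eq_zero fun t _ => ?_)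
  exact hf fun l => (t l : G) * a l

theorem av_eq (y : G) [Fintype (Subgroup.zpowers y)] {f : (Fin (n + 1) → G) → ℚ}
    (hf : ∀ a : Fin (n + 2) → G, cobE f a = 0) (a : Fin (n + 1) → G) :
    av y f a - f a = cobE (ev y f) a := by
  have h1 : ∀ t : Fin (n + 1) → Subgroup.zpowers y,
      f (fun i => (t i : G) * a i) - f a =
        ∑ i : Fin (n + 1), (-1 : ℚ) ^ (i : ℕ) *
          SCF.EE (fun a _ => f a) y (fun j => ((t (i.succAbove j) : G) * a (i.succAbove j),
            a (i.succAbove j))) := fun t =>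
    SCF.prism_coc (F := fun a _ => f a) y hf (fun i => ((t i : G) * a i, a i))
  have h2 := Finset.sum_congr rfl fun (t : Fin (n + 1) → Subgroup.zpowers y)
    (_ : t ∈ Finset.univ) => h1 t
  rw [Finset.sum_sub_distrib, Finset.sum_const, Finset.card_univ, Fintype.card_fun,
    Fintype.card_fin, nsmul_eq_mul, Finset.sum_comm] at h2
  have hN0 := RTI.card_ne y
  have h3 : ∀ i : Fin (n + 1), ∑ t : Fin (n + 1) → Subgroup.zpowers y, (-1 : ℚ) ^ (i : ℕ) *
      SCF.EE (fun a _ => f a) y (fun j => ((t (i.succAbove j) : G) * a (i.succAbove j),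
        a (i.succAbove j))) =
      (Fintype.card (Subgroup.zpowers y) : ℚ) ^ (n + 1) *
        ((-1 : ℚ) ^ (i : ℕ) * ev y f (fun j => a (i.succAbove j))) := by
    intro i
    rw [← Finset.mul_sum, RTI.sum_succAbove i fun t : Fin n → Subgroup.zpowers y =>
      SCF.EE (fun a _ => f a) y (fun j => ((t j : G) * a (i.succAbove j), a (i.succAbove j)))]
    unfold ev
    field_simp
    ring
  rw [Finset.sum_congr rfl fun i _ => h3 i, ← Finset.mul_sum] at h2
  push_cast at h2
  have h4 : (Fintype.card (Subgroup.zpowers y) : ℚ) ^ (n + 1) ≠ 0 := pow_ne_zero _ hN0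
  unfold cobE
  have h5 := congrArg (fun x => ((Fintype.card (Subgroup.zpowers y) : ℚ) ^ (n + 1))⁻¹ * x) h2
  rw [← mul_assoc, inv_mul_cancel₀ h4, one_mul, mul_sub, ← mul_assoc, inv_mul_cancel₀ h4,
    one_mul] at h5
  exact h5

end RBA

open RBA in
theorem t_RBA : S_RBA := by
  intro G _ n y f hy hinv hcoc hroot
  have : Finite (Subgroup.zpowers y) := hy.finite_zpowers
  let _ : Fintype (Subgroup.zpowers y) := Fintype.ofFinite _
  refine ⟨av y f, fun a => - ev y f a, av_cinv y hinv, fun g a hg => ?_, av_coc y hcoc,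
    fun a => ?_, ?_, av_bas y f⟩
  · change - ev y f (fun i => g * a i) = - ev y f a
    rw [ev_cinv y hinv g a hg]
  · have h1 := av_eq y hcoc a
    have h2 : cobE (fun a => - ev y f a) a = - cobE (ev y f) a := by
      unfold cobE
      rw [← Finset.sum_neg_distrib]
      exact Finset.sum_congr rfl fun i _ => by ring
    rw [h2, ← h1]
    ring
  · obtain ⟨p, b, c, hp, hu, hden, hrt⟩ := hroot
    have hb : b ≠ 0 := by
      rintro rfl
      exact hden (fun _ => 1) (by simp)
    have hMpos : 0 < Fintype.card (Subgroup.zpowers y) ^ (n + 1) := pow_pos Fintype.card_pos _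
    refine ⟨p, b + Fintype.card (Subgroup.zpowers y) ^ (n + 1), c, hp, hu, fun a => ?_, hrt⟩
    have hc : ¬ p ^ (Fintype.card (Subgroup.zpowers y) ^ (n + 1)) ∣
        Fintype.card (Subgroup.zpowers y) ^ (n + 1) := fun h =>
      absurd (Nat.le_of_dvd hMpos h) (not_le.2 (Nat.lt_pow_self hp.one_lt))
    have h1 := den_inv_mul hp hMpos hc (den_sum hp hb Finset.univ
      (fun t : Fin (n + 1) → Subgroup.zpowers y => f (fun i => (t i : G) * a i)) fun t =>
        hden _)
    have e : ((Fintype.card (Subgroup.zpowers y) ^ (n + 1) : ℕ) : ℚ) =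
        (Fintype.card (Subgroup.zpowers y) : ℚ) ^ (n + 1) := by push_cast; rfl
    rw [e] at h1
    exact h1

end Pool.Agent.FJA
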