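import Pool.Agent.FJA.StL
import Pool.Agent.FJA.P_RBA

/-!
# LBA: cocycles which are invariant under the powers of `y ^ m` can be made invariant under the powers of `y`
-/

set_option autoImplicit false

noncomputable section

namespace Pool.Agent.FJA

namespace LBA

variable {G : Type} [Group G] {n : ℕ} {T : Type} [Fintype T]

/-- the average over the elements `c t` -/
def av (c : T → G) (f : (Fin (n + 1) → G) → ℚ) (a : Fin (n + 1) → G) : ℚ :=
  ((Fintype.card T : ℚ) ^ (n + 1))⁻¹ * ∑ t : Fin (n + 1) → T, f (fun i => c (t i) * a i)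

/-- the average of the prism function -/
def ev (y : G) (c : T → G) (f : (Fin (n + 1) → G) → ℚ) (a : Fin n → G) : ℚ :=
  ((Fintype.card T : ℚ) ^ n)⁻¹ *
    ∑ t : Fin n → T, SCF.EE (fun a _ => f a) y (fun i => (c (t i) * a i, a i))

theorem comm_c {y g x : G} (h : g * y = y * g) (hx : x ∈ Subgroup.zpowers y) : x * g = g * x := by
  obtain ⟨k, rfl⟩ := hx
  have h1 : Commute g y := h
  exact (h1.zpow_right k).eq.symm

theorem av_cinv (y : G) {c : T → G} (hc : ∀ t, c t ∈ Subgroup.zpowers y)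
    {f : (Fin (n + 1) → G) → ℚ} (hf : CInv y f) : CInv y (av c f) := by
  intro g a hg
  unfold av
  congr 1
  refine Finset.sum_congr rfl fun t _ => ?_
  rw [← hf g (fun i => c (t i) * a i) hg]
  congr 1
  funext i
  rw [← mul_assoc, comm_c hg (hc _), mul_assoc]

theorem ev_cinv (y : G) {c : T → G} (hc : ∀ t, c t ∈ Subgroup.zpowers y)
    {f : (Fin (n + 1) → G) → ℚ} (hf : CInv y f) : CInv y (ev y c f) := by
  intro g a hg
  unfold ev
  congr 1
  refine Finset.sum_congr rfl fun t _ => ?_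
  unfold SCF.EE
  refine Finset.sum_congr rfl fun j _ => ?_
  dsimp only
  rw [← hf g (mix Prod.snd Prod.fst (fun i => (c (t i) * a i, a i)) j) hg]
  congr 2
  funext i
  unfold mix
  split_ifs
  · rfl
  · dsimp only
    rw [← mul_assoc, comm_c hg (hc _), mul_assoc]

theorem av_coc [Nonempty T] (c : T → G) {f : (Fin (n + 1) → G) → ℚ}
    (hf : ∀ a : Fin (n + 2) → G, cobE f a = 0) (a : Fin (n + 2) → G) : cobE (av c f) a = 0 := by
  have hN : (Fintype.card T : ℚ) ≠ 0 := by exact_mod_cast Fintype.card_ne_zero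
  have h1 : ∀ i : Fin (n + 2), (-1 : ℚ) ^ (i : ℕ) * av c f (fun j => a (i.succAbove j)) =
      ((Fintype.card T : ℚ) ^ (n + 2))⁻¹ *
        ∑ t : Fin (n + 2) → T, (-1 : ℚ) ^ (i : ℕ) *
          f (fun j => (fun l => c (t l) * a l) (i.succAbove j)) := by
    intro i
    rw [← Finset.mul_sum, RTI.sum_succAbove i fun t : Fin (n + 1) → T =>
      f (fun j => c (t j) * a (i.succAbove j))]
    unfold av
    field_simp
    ring
  unfold cobE
  rw [Finset.sum_congr rfl fun i _ => h1 i, ← Finset.mul_sum, Finset.sum_comm]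
  refine mul_eq_zero_of_right _ (Finset.sum_eq_zero fun t _ => ?_)
  exact hf fun l => c (t l) * a l

theorem av_eq [Nonempty T] (y : G) (c : T → G) {f : (Fin (n + 1) → G) → ℚ}
    (hf : ∀ a : Fin (n + 2) → G, cobE f a = 0) (a : Fin (n + 1) → G) :
    av c f a - f a = cobE (ev y c f) a := by
  have h1 : ∀ t : Fin (n + 1) → T,
      f (fun i => c (t i) * a i) - f a =
        ∑ i : Fin (n + 1), (-1 : ℚ) ^ (i : ℕ) *
          SCF.EE (fun a _ => f a) y (fun j => (c (t (i.succAbove j)) * a (i.succAbove j),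
            a (i.succAbove j))) := fun t =>
    SCF.prism_coc (F := fun a _ => f a) y hf (fun i => (c (t i) * a i, a i))
  have h2 := Finset.sum_congr rfl fun (t : Fin (n + 1) → T)
    (_ : t ∈ Finset.univ) => h1 t
  rw [Finset.sum_sub_distrib, Finset.sum_const, Finset.card_univ, Fintype.card_fun,
    Fintype.card_fin, nsmul_eq_mul, Finset.sum_comm] at h2
  have hN0 : (Fintype.card T : ℚ) ≠ 0 := by exact_mod_cast Fintype.card_ne_zero
  have h3 : ∀ i : Fin (n + 1), ∑ t : Fin (n + 1) → T, (-1 : ℚ) ^ (i : ℕ) *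
      SCF.EE (fun a _ => f a) y (fun j => (c (t (i.succAbove j)) * a (i.succAbove j),
        a (i.succAbove j))) =
      (Fintype.card T : ℚ) ^ (n + 1) *
        ((-1 : ℚ) ^ (i : ℕ) * ev y c f (fun j => a (i.succAbove j))) := by
    intro i
    rw [← Finset.mul_sum, RTI.sum_succAbove i fun t : Fin n → T =>
      SCF.EE (fun a _ => f a) y (fun j => (c (t j) * a (i.succAbove j), a (i.succAbove j)))]
    unfold ev
    field_simp
    ring
  rw [Finset.sum_congr rfl fun i _ => h3 i, ← Finset.mul_sum] at h2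
  push_cast at h2
  have h4 : (Fintype.card T : ℚ) ^ (n + 1) ≠ 0 := pow_ne_zero _ hN0
  unfold cobE
  have h5 := congrArg (fun x => ((Fintype.card T : ℚ) ^ (n + 1))⁻¹ * x) h2
  rw [← mul_assoc, inv_mul_cancel₀ h4, one_mul, mul_sub, ← mul_assoc, inv_mul_cancel₀ h4,
    one_mul] at h5
  exact h5

/-! ### the powers `y ^ t`, `t` modulo `m` -/

/-- the power with exponent in `[0, m)` -/
def pw (m : ℕ) (y : G) (t : ZMod m) : G := y ^ t.val

theorem pw_mem (m : ℕ) (y : G) (t : ZMod m) : pw m y t ∈ Subgroup.zpowers y :=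
  Subgroup.pow_mem _ (Subgroup.mem_zpowers y) _

theorem pw_mul {m : ℕ} [NeZero m] (y : G) (t : ZMod m) (s : ℤ) :
    ∃ q : ℤ, pw m y t * y ^ s = (y ^ m) ^ q * pw m y (t + (s : ZMod m)) := by
  refine ⟨((t.val : ℤ) + s) / m, ?_⟩
  have h1 : (((t + (s : ZMod m)).val : ℕ) : ℤ) = ((t.val : ℤ) + s) % m := by
    rw [← ZMod.val_intCast ((t.val : ℤ) + s)]
    congr 2
    push_cast
    rw [ZMod.natCast_val, ZMod.cast_id', id]
  unfold pw
  rw [← zpow_natCast y m, ← zpow_mul, ← zpow_natCast y (ZMod.val t), ← zpow_add,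
    ← zpow_natCast y (ZMod.val (t + (s : ZMod m))), ← zpow_add, h1]
  congr 1
  exact (Int.mul_ediv_add_emod _ _).symm

theorem av_bas {m : ℕ} [NeZero m] (y : G) (f : (Fin (n + 1) → G) → ℚ)
    (hf : ∀ (t : Fin (n + 1) → ℤ) (a : Fin (n + 1) → G), f (fun i => (y ^ m) ^ t i * a i) = f a)
    (t : Fin (n + 1) → ℤ) (a : Fin (n + 1) → G) :
    av (pw m y) f (fun i => y ^ t i * a i) = av (pw m y) f a := by
  unfold av
  congr 1
  rw [← Equiv.sum_comp (Equiv.addRight (fun i => ((t i : ℤ) : ZMod m)))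
    fun s : Fin (n + 1) → ZMod m => f (fun i => pw m y (s i) * a i)]
  refine Finset.sum_congr rfl fun s _ => ?_
  choose q hq using fun i => pw_mul y (s i) (t i)
  rw [← hf q (fun i => pw m y ((Equiv.addRight (fun i => ((t i : ℤ) : ZMod m))) s i) * a i)]
  congr 1
  funext i
  rw [← mul_assoc, hq i, mul_assoc]
  rfl

end LBA

open LBA in
theorem t_LBA : S_LBA := by
  intro G _ n m y f hm hinv hcoc hper hroot
  have : NeZero m := ⟨hm.ne'⟩
  have hmem : ∀ t : ZMod m, pw m y t ∈ Subgroup.zpowers y := pw_mem m y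
  refine ⟨av (pw m y) f, fun a => - ev y (pw m y) f a, av_cinv y hmem hinv, fun g a hg => ?_,
    av_coc (pw m y) hcoc, fun a => ?_, ?_, av_bas y f hper⟩
  · change - ev y (pw m y) f (fun i => g * a i) = - ev y (pw m y) f a
    rw [ev_cinv y hmem hinv g a hg]
  · have h1 := av_eq y (pw m y) hcoc a
    have h2 : cobE (fun a => - ev y (pw m y) f a) a = - cobE (ev y (pw m y) f) a := by
      unfold cobE
      rw [← Finset.sum_neg_distrib]
      exact Finset.sum_congr rfl fun i _ => by ring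
    rw [h2, ← h1]
    ring
  · obtain ⟨p, b, c, hp, hu, hden, hrt⟩ := hroot
    have hb : b ≠ 0 := by
      rintro rfl
      exact hden (fun _ => 1) (by simp)
    have hMpos : 0 < Fintype.card (ZMod m) ^ (n + 1) := pow_pos Fintype.card_pos _
    refine ⟨p, b + Fintype.card (ZMod m) ^ (n + 1), c, hp, hu, fun a => ?_, hrt⟩
    have hc : ¬ p ^ (Fintype.card (ZMod m) ^ (n + 1)) ∣
        Fintype.card (ZMod m) ^ (n + 1) := fun h =>
      absurd (Nat.le_of_dvd hMpos h) (not_le.2 (Nat.lt_pow_self hp.one_lt))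
    have h1 := RBA.den_inv_mul hp hMpos hc (RBA.den_sum hp hb Finset.univ
      (fun t : Fin (n + 1) → ZMod m => f (fun i => pw m y (t i) * a i)) fun t =>
        hden _)
    have e : ((Fintype.card (ZMod m) ^ (n + 1) : ℕ) : ℚ) =
        (Fintype.card (ZMod m) : ℚ) ^ (n + 1) := by push_cast; rfl
    rw [e] at h1
    exact h1

end Pool.Agent.FJA
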