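import Pool.Agent.FJA.P_LME

/-!
# LMF: lifting cycles

A cycle of the general linear group of the group ring of `G` lifts to every group over `G` to which a sufficiently
large finite part of the multiplication table of `G` lifts.
-/

set_option autoImplicit false

open Matrix Pool.Agent.WhK Pool.Agent.Lib25

noncomputable section

namespace Pool.Agent.FJA

namespace LMF

open LME

theorem hmap_single {V V' : Type} (f : V → V') (m : ℕ) (v : Fin m → V) (c : ℚ) :
    hmap ℚ f m (Finsupp.single v c) = Finsupp.single (fun i => f (v i)) c :=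
  Finsupp.mapDomain_single

theorem bd_hmap {V V' : Type} (f : V → V') (m : ℕ) (w : (Fin (m + 1) → V) →₀ ℚ) :
    bd ℚ V' m (hmap ℚ f (m + 1) w) = hmap ℚ f m (bd ℚ V m w) := by
  induction w using Finsupp.induction_linear with
  | zero => simp only [map_zero]
  | add a b ha hb => simp only [map_add, ha, hb]
  | single X q =>
    rw [hmap_single, bd_single, bd_single, map_sum]
    refine Finset.sum_congr rfl fun i _ => ?_
    rw [map_smul, hmap_single]

/-- A chain only involves finitely many elements. -/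
theorem chain_id {Γ : Type} (m : ℕ) (z : (Fin m → Γ) →₀ ℚ) :
    ∃ E : Finset Γ, ∀ (Δ : Type) (f : Δ → Γ) (L : Γ → Δ), (∀ x ∈ E, f (L x) = x) →
      hmap ℚ f m (hmap ℚ L m z) = z := by
  classical
  induction z using Finsupp.induction_linear with
  | zero => exact ⟨∅, fun Δ f L _ => by rw [map_zero, map_zero]⟩
  | add a b ha hb =>
    obtain ⟨E, hE⟩ := ha
    obtain ⟨E', hE'⟩ := hb
    refine ⟨E ∪ E', fun Δ f L h => ?_⟩
    rw [map_add, map_add, hE Δ f L fun x hx => h x (Finset.mem_union_left _ hx),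
      hE' Δ f L fun x hx => h x (Finset.mem_union_right _ hx)]
  | single X q =>
    refine ⟨Finset.univ.image X, fun Δ f L h => ?_⟩
    rw [hmap_single, hmap_single]
    congr 1
    funext i
    exact h _ (Finset.mem_image_of_mem X (Finset.mem_univ i))

/-- A degenerate chain only involves finitely many products. -/
theorem deg_map {Γ : Type} [Group Γ] (m : ℕ) {y : HCh ℚ Γ m} (hy : y ∈ hdeg ℚ Γ m) :
    ∃ E : Finset (Γ × Γ), ∀ (Δ : Type) [Group Δ] (L : Γ → Δ),
      (∀ x ∈ E, L (x.1 * x.2) = L x.1 * L x.2) → hmap ℚ L (m + 1) y ∈ hdeg ℚ Δ m := by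
  classical
  unfold hdeg at hy
  induction hy using Submodule.span_induction with
  | mem x hx =>
    obtain ⟨g, X, rfl⟩ := hx
    refine ⟨Finset.univ.image fun i => (g, X i), fun Δ _ L h => ?_⟩
    rw [map_sub, hmap_single, hmap_single]
    have e1 : (fun i => L (g * X i)) = fun i => L g * L (X i) := by
      funext i
      exact h (g, X i) (Finset.mem_image_of_mem _ (Finset.mem_univ i))
    rw [e1]
    exact Submodule.subset_span ⟨L g, fun i => L (X i), rfl⟩
  | zero => exact ⟨∅, fun Δ _ L _ => by rw [map_zero]; exact zero_mem _⟩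
  | add a b _ _ ha hb =>
    obtain ⟨E, hE⟩ := ha
    obtain ⟨E', hE'⟩ := hb
    refine ⟨E ∪ E', fun Δ _ L h => ?_⟩
    rw [map_add]
    exact add_mem (hE Δ L fun x hx => h x (Finset.mem_union_left _ hx))
      (hE' Δ L fun x hx => h x (Finset.mem_union_right _ hx))
  | smul q a _ ha =>
    obtain ⟨E, hE⟩ := ha
    refine ⟨E, fun Δ _ L h => ?_⟩
    rw [map_smul]
    exact Submodule.smul_mem _ _ (hE Δ L h)

variable {R : Type} [CommRing R] {G Q : Type} [Group G] [Group Q] {r : ℕ}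

/-- The map of matrices of a map of sets. -/
def sm (R : Type) [CommRing R] {G Q : Type} [Group G] [Group Q] (s : G → Q) {r : ℕ}
    (A : Matrix (Fin r) (Fin r) (MonoidAlgebra R G)) : Matrix (Fin r) (Fin r) (MonoidAlgebra R Q) :=
  Matrix.of fun a b => lsg R s (A a b)

theorem sm_mul (s : G → Q) (U : Finset G) (h : ∀ g ∈ U, ∀ k ∈ U, s (g * k) = s g * s k)
    (A B : Matrix (Fin r) (Fin r) (MonoidAlgebra R G))
    (hA : ∀ a b, ∀ g ∈ (A a b).coeff.support, g ∈ U) (hB : ∀ a b, ∀ g ∈ (B a b).coeff.support, g ∈ U) :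
    sm R s (A * B) = sm R s A * sm R s B := by
  ext1 a b
  rw [Matrix.mul_apply]
  simp only [sm, Matrix.of_apply]
  have h1 : ∀ c, lsg R s (A a c) * lsg R s (B c b) = lsg R s (A a c * B c b) := fun c =>
    (lsg_mul s _ _ fun g hg k hk => h g (hA a c g hg) k (hB c b k hk)).symm
  simp only [h1]
  rw [← map_sum, ← Matrix.mul_apply]

theorem sm_one (s : G → Q) (h : s 1 = 1) :
    sm R s (1 : Matrix (Fin r) (Fin r) (MonoidAlgebra R G)) = 1 := by
  ext1 a b
  by_cases hab : a = b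
  · subst hab
    simp only [sm, Matrix.of_apply, Matrix.one_apply_eq]
    rw [MonoidAlgebra.one_def, lsg_single, h, ← MonoidAlgebra.one_def]
  · simp only [sm, Matrix.of_apply, Matrix.one_apply_ne hab, map_zero]

theorem exists_supp (T : Finset ((Matrix (Fin r) (Fin r) (MonoidAlgebra R G))ˣ)) :
    ∃ U : Finset G, 1 ∈ U ∧ ∀ A ∈ T, (∀ a b, ∀ g ∈ (A.val a b).coeff.support, g ∈ U) ∧
      ∀ a b, ∀ g ∈ ((A⁻¹).val a b).coeff.support, g ∈ U := by
  classical
  refine ⟨insert 1 (T.biUnion fun A => Finset.univ.biUnion fun a =>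
    Finset.univ.biUnion fun b => (A.val a b).coeff.support ∪ ((A⁻¹).val a b).coeff.support),
    Finset.mem_insert_self _ _, ?_⟩
  intro A hA
  constructor
  · intro a b g hg
    exact Finset.mem_insert_of_mem (Finset.mem_biUnion.2 ⟨A, hA, Finset.mem_biUnion.2
      ⟨a, Finset.mem_univ a, Finset.mem_biUnion.2 ⟨b, Finset.mem_univ b, Finset.mem_union_left _ hg⟩⟩⟩)
  · intro a b g hg
    exact Finset.mem_insert_of_mem (Finset.mem_biUnion.2 ⟨A, hA, Finset.mem_biUnion.2
      ⟨a, Finset.mem_univ a, Finset.mem_biUnion.2 ⟨b, Finset.mem_univ b, Finset.mem_union_right _ hg⟩⟩⟩)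

theorem exists_L (T : Finset ((Matrix (Fin r) (Fin r) (MonoidAlgebra R G))ˣ)) (U : Finset G)
    (hU : ∀ A ∈ T, (∀ a b, ∀ g ∈ (A.val a b).coeff.support, g ∈ U) ∧
      ∀ a b, ∀ g ∈ ((A⁻¹).val a b).coeff.support, g ∈ U)
    (s : G → Q) (h : ∀ g ∈ U, ∀ k ∈ U, s (g * k) = s g * s k) (h1 : s 1 = 1) :
    ∃ L : (Matrix (Fin r) (Fin r) (MonoidAlgebra R G))ˣ → (Matrix (Fin r) (Fin r) (MonoidAlgebra R Q))ˣ,
      ∀ A ∈ T, (L A).val = sm R s A.val := by
  have h2 : ∀ A : (Matrix (Fin r) (Fin r) (MonoidAlgebra R G))ˣ,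
      ∃ B : (Matrix (Fin r) (Fin r) (MonoidAlgebra R Q))ˣ, A ∈ T → B.val = sm R s A.val := by
    intro A
    by_cases hA : A ∈ T
    · obtain ⟨hA1, hA2⟩ := hU A hA
      refine ⟨⟨sm R s A.val, sm R s (A⁻¹).val, ?_, ?_⟩, fun _ => rfl⟩
      · rw [← sm_mul s U h _ _ hA1 hA2, ← Units.val_mul, mul_inv_cancel, Units.val_one, sm_one s h1]
      · rw [← sm_mul s U h _ _ hA2 hA1, ← Units.val_mul, inv_mul_cancel, Units.val_one, sm_one s h1]
    · exact ⟨1, fun hh => absurd hh hA⟩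
  choose L hL using h2
  exact ⟨L, hL⟩

end LMF

open LMF LME in
/-- **LMF**: lifting cycles. -/
theorem t_LMF : S_LMF := by
  classical
  intro R _ G _ n r z hz
  obtain ⟨E1, hE1⟩ := chain_id (n + 1) z
  have key : ∃ E2 : Finset (((Matrix (Fin r) (Fin r) (MonoidAlgebra R G))ˣ) ×
      ((Matrix (Fin r) (Fin r) (MonoidAlgebra R G))ˣ)), ∀ (Δ : Type) [Group Δ]
      (L : (Matrix (Fin r) (Fin r) (MonoidAlgebra R G))ˣ → Δ),
      (∀ x ∈ E2, L (x.1 * x.2) = L x.1 * L x.2) → hmap ℚ L (n + 1) z ∈ cyc ℚ Δ n := by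
    cases n with
    | zero => exact ⟨∅, fun Δ _ L _ => Submodule.mem_top⟩
    | succ m =>
      obtain ⟨E2, hE2⟩ := deg_map m (y := bd ℚ _ (m + 1) z) hz
      refine ⟨E2, fun Δ _ L h => ?_⟩
      show bd ℚ _ (m + 1) (hmap ℚ L (m + 1 + 1) z) ∈ hdeg ℚ _ m
      rw [bd_hmap]
      exact hE2 Δ L h
  obtain ⟨E2, hE2⟩ := key
  obtain ⟨U, hU1, hU⟩ := exists_supp (E1 ∪ (E2.image fun x => x.1) ∪ (E2.image fun x => x.2) ∪
    E2.image fun x => x.1 * x.2)
  refine ⟨U ∪ (U ×ˢ U).image fun x => x.1 * x.2, ?_⟩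
  intro Q _ π s hs
  have hUS : ∀ g ∈ U, g ∈ U ∪ (U ×ˢ U).image fun x => x.1 * x.2 := fun g hg =>
    Finset.mem_union_left _ hg
  have hmul : ∀ g ∈ U, ∀ k ∈ U, s (g * k) = s g * s k := fun g hg k hk =>
    hs.mul g (hUS g hg) k (hUS k hk) (Finset.mem_union_right _
      (Finset.mem_image.2 ⟨(g, k), Finset.mem_product.2 ⟨hg, hk⟩, rfl⟩))
  have hs1 : s 1 = 1 := by
    have h := hmul 1 hU1 1 hU1
    rw [mul_one] at h
    exact left_eq_mul.1 h
  obtain ⟨L, hL⟩ := exists_L _ U hU s hmul hs1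
  have hT1 : ∀ A ∈ E1, A ∈ E1 ∪ (E2.image fun x => x.1) ∪ (E2.image fun x => x.2) ∪
      E2.image fun x => x.1 * x.2 := fun A hA =>
    Finset.mem_union_left _ (Finset.mem_union_left _ (Finset.mem_union_left _ hA))
  have hT2 : ∀ x ∈ E2, x.1 ∈ E1 ∪ (E2.image fun x => x.1) ∪ (E2.image fun x => x.2) ∪
      E2.image fun x => x.1 * x.2 := fun x hx =>
    Finset.mem_union_left _ (Finset.mem_union_left _ (Finset.mem_union_right _
      (Finset.mem_image_of_mem (fun x => x.1) hx)))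
  have hT3 : ∀ x ∈ E2, x.2 ∈ E1 ∪ (E2.image fun x => x.1) ∪ (E2.image fun x => x.2) ∪
      E2.image fun x => x.1 * x.2 := fun x hx =>
    Finset.mem_union_left _ (Finset.mem_union_right _ (Finset.mem_image_of_mem (fun x => x.2) hx))
  have hT4 : ∀ x ∈ E2, x.1 * x.2 ∈ E1 ∪ (E2.image fun x => x.1) ∪ (E2.image fun x => x.2) ∪
      E2.image fun x => x.1 * x.2 := fun x hx =>
    Finset.mem_union_right _ (Finset.mem_image_of_mem (fun x => x.1 * x.2) hx)
  refine ⟨hmap ℚ L (n + 1) z, hE2 _ L ?_, hE1 _ _ L ?_⟩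
  · intro x hx
    apply Units.ext
    rw [Units.val_mul, hL _ (hT4 x hx), hL _ (hT2 x hx), hL _ (hT3 x hx), Units.val_mul]
    exact sm_mul s U hmul _ _ (hU _ (hT2 x hx)).1 (hU _ (hT3 x hx)).1
  · intro A hA
    apply Units.ext
    show ((MonoidAlgebra.mapDomainRingHom R π).mapMatrix :
      Matrix (Fin r) (Fin r) (MonoidAlgebra R Q) →+* Matrix (Fin r) (Fin r) (MonoidAlgebra R G))
      (L A).val = A.val
    rw [hL _ (hT1 A hA)]
    ext1 a b
    show MonoidAlgebra.mapDomainRingHom R π (lsg R s (A.val a b)) = A.val a b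
    exact map_lsg π s _ fun g hg => hs.sec g (hUS g ((hU _ (hT1 A hA)).1 a b g hg))

end Pool.Agent.FJA
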