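import Pool.Agent.FJA.StL

/-!
# Naturality of `dtr` for maps of groups
-/

set_option autoImplicit false

open Matrix Pool.Agent.WhK Pool.Agent.Lib25

noncomputable section

namespace Pool.Agent.FJA

namespace LNZ

open Classical in
/-- coefficients of the image of an element of the group ring -/
theorem coeff_map {Q G : Type} [Group Q] [Group G] (π : Q →* G) (x : MonoidAlgebra ℤ Q)
    (S : Finset Q) (hS : x.coeff.support ⊆ S) (g : G) :
    ((MonoidAlgebra.mapDomainRingHom ℤ π) x).coeff g =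
      ∑ q ∈ S, if π q = g then x.coeff q else 0 := by
  rw [MonoidAlgebra.mapDomainRingHom_apply]
  change (Finsupp.mapDomain π x.coeff) g = _
  rw [Finsupp.mapDomain, Finsupp.sum_apply, Finsupp.sum]
  rw [← Finset.sum_subset hS]
  · refine Finset.sum_congr rfl fun q _ => ?_
    rw [Finsupp.single_apply]
  · intro q _ hq
    rw [Finsupp.notMem_support_iff.mp hq, ite_self]

theorem quo_glZ {Q G : Type} [Group Q] [Group G] (π : Q →* G) {r : ℕ}
    (A B : (Matrix (Fin r) (Fin r) (MonoidAlgebra ℤ Q))ˣ) (a b : Fin r) :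
    ((glZ π A)⁻¹ * glZ π B : (Matrix (Fin r) (Fin r) (MonoidAlgebra ℤ G))ˣ).val a b =
      (MonoidAlgebra.mapDomainRingHom ℤ π)
        ((A⁻¹ * B : (Matrix (Fin r) (Fin r) (MonoidAlgebra ℤ Q))ˣ).val a b) := by
  rw [← map_inv, ← map_mul]
  rfl

open Classical in
/-- the union of the supports of the entries -/
def sup {Q : Type} [Group Q] {n r : ℕ}
    (X : Fin (n + 1) → (Matrix (Fin r) (Fin r) (MonoidAlgebra ℤ Q))ˣ) (j : Fin (n + 1)) : Finset Q :=
  Finset.univ.biUnion fun p : Fin r × Fin r =>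
    (((X j)⁻¹ * X (j + 1) : (Matrix (Fin r) (Fin r) (MonoidAlgebra ℤ Q))ˣ).val p.1 p.2).coeff.support

theorem sub_sup {Q : Type} [Group Q] {n r : ℕ}
    (X : Fin (n + 1) → (Matrix (Fin r) (Fin r) (MonoidAlgebra ℤ Q))ˣ) (j : Fin (n + 1)) (a b : Fin r) :
    (((X j)⁻¹ * X (j + 1) : (Matrix (Fin r) (Fin r) (MonoidAlgebra ℤ Q))ˣ).val a b).coeff.support ⊆
      sup X j := by
  classical
  intro q hq
  unfold sup
  rw [Finset.mem_biUnion]
  exact ⟨(a, b), Finset.mem_univ _, hq⟩

theorem dcoef_zero {Q : Type} [Group Q] {n r : ℕ}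
    (X : Fin (n + 1) → (Matrix (Fin r) (Fin r) (MonoidAlgebra ℤ Q))ˣ) (γ : Fin (n + 1) → Q)
    (hγ : γ ∉ Fintype.piFinset (sup X)) : dcoef X γ = 0 := by
  rw [Fintype.mem_piFinset] at hγ
  push Not at hγ
  obtain ⟨j, hj⟩ := hγ
  unfold dcoef
  refine Finset.sum_eq_zero fun a _ => ?_
  refine Finset.prod_eq_zero (Finset.mem_univ j) ?_
  by_contra h
  exact hj (sub_sup X j (a j) (a (j + 1)) (Finsupp.mem_support_iff.mpr h))

open Classical in
theorem dcoef_map {Q G : Type} [Group Q] [Group G] (π : Q →* G) {n r : ℕ}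
    (X : Fin (n + 1) → (Matrix (Fin r) (Fin r) (MonoidAlgebra ℤ Q))ˣ) (γ : Fin (n + 1) → G) :
    dcoef (fun j => glZ π (X j)) γ =
      ∑ p ∈ Fintype.piFinset (sup X), if (fun j => π (p j)) = γ then dcoef X p else 0 := by
  have h1 : ∀ a : Fin (n + 1) → Fin r, (∏ j : Fin (n + 1),
      (((glZ π (X j))⁻¹ * glZ π (X (j + 1)) : (Matrix (Fin r) (Fin r) (MonoidAlgebra ℤ G))ˣ).val (a j)
        (a (j + 1))).coeff (γ j)) =
      ∑ p ∈ Fintype.piFinset (sup X), if (fun j => π (p j)) = γ then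
        ∏ j : Fin (n + 1), (((X j)⁻¹ * X (j + 1) : (Matrix (Fin r) (Fin r) (MonoidAlgebra ℤ Q))ˣ).val (a j)
          (a (j + 1))).coeff (p j) else 0 := by
    intro a
    have h2 : ∀ j : Fin (n + 1),
        (((glZ π (X j))⁻¹ * glZ π (X (j + 1)) : (Matrix (Fin r) (Fin r) (MonoidAlgebra ℤ G))ˣ).val (a j)
          (a (j + 1))).coeff (γ j) =
        ∑ q ∈ sup X j, if π q = γ j then
          (((X j)⁻¹ * X (j + 1) : (Matrix (Fin r) (Fin r) (MonoidAlgebra ℤ Q))ˣ).val (a j)
            (a (j + 1))).coeff q else 0 := by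
      intro j
      rw [quo_glZ, coeff_map π _ (sup X j) (sub_sup X j _ _)]
    rw [Finset.prod_congr rfl fun j _ => h2 j, Finset.prod_univ_sum]
    refine Finset.sum_congr rfl fun p _ => ?_
    by_cases h : (fun j => π (p j)) = γ
    · rw [if_pos h]
      refine Finset.prod_congr rfl fun j _ => ?_
      rw [if_pos (congrFun h j)]
    · rw [if_neg h]
      obtain ⟨j, hj⟩ : ∃ j, π (p j) ≠ γ j := by
        by_contra h'
        push Not at h'
        exact h (funext h')
      refine Finset.prod_eq_zero (Finset.mem_univ j) ?_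
      rw [if_neg hj]
  unfold dcoef
  rw [Finset.sum_congr rfl fun a _ => h1 a, Finset.sum_comm]
  refine Finset.sum_congr rfl fun p _ => ?_
  by_cases h : (fun j => π (p j)) = γ
  · simp only [h, if_true]
  · simp only [h, if_false, Finset.sum_const_zero]

theorem fpr_map {Q G : Type} [Group Q] [Group G] (π : Q →* G) {n : ℕ} (γ : Fin (n + 1) → Q) :
    fpr (fun j => π (γ j)) = fun i => π (fpr γ i) := by
  funext i
  unfold fpr
  rw [map_list_prod, List.map_take, List.map_ofFn]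
  rfl

theorem prod_map {Q G : Type} [Group Q] [Group G] (π : Q →* G) {n : ℕ} (γ : Fin (n + 1) → Q) :
    (List.ofFn (fun j => π (γ j))).prod = π (List.ofFn γ).prod := by
  rw [map_list_prod, List.map_ofFn]
  rfl

end LNZ

open LNZ Classical in
theorem t_LNZ : S_LNZ := by
  intro Q G _ _ π n r F X
  unfold dtr
  set P : Finset (Fin (n + 1) → Q) := Fintype.piFinset (LNZ.sup X) with hP
  set c : (Fin (n + 1) → Q) → (Fin (n + 1) → G) := fun p j => π (p j) with hc
  have hR : (∑ᶠ γ : Fin (n + 1) → Q, ((dcoef X γ : ℤ) : ℚ) *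
      F (fun i => π (fpr γ i)) (π (List.ofFn γ).prod)) =
      ∑ γ ∈ P, ((dcoef X γ : ℤ) : ℚ) * F (fun i => π (fpr γ i)) (π (List.ofFn γ).prod) := by
    refine finsum_eq_sum_of_support_subset _ ?_
    intro γ hγ
    rw [Function.mem_support] at hγ
    by_contra h
    apply hγ
    rw [dcoef_zero X γ h, Int.cast_zero, zero_mul]
  have hL : (∑ᶠ γ : Fin (n + 1) → G, ((dcoef (fun j => glZ π (X j)) γ : ℤ) : ℚ) *
      F (fpr γ) (List.ofFn γ).prod) =
      ∑ γ ∈ P.image c, ((dcoef (fun j => glZ π (X j)) γ : ℤ) : ℚ) * F (fpr γ) (List.ofFn γ).prod := by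
    refine finsum_eq_sum_of_support_subset _ ?_
    intro γ hγ
    rw [Function.mem_support] at hγ
    by_contra h
    apply hγ
    have h0 : dcoef (fun j => glZ π (X j)) γ = 0 := by
      rw [dcoef_map]
      refine Finset.sum_eq_zero fun p hp => ?_
      rw [if_neg]
      intro hpγ
      apply h
      rw [Finset.mem_coe, Finset.mem_image]
      exact ⟨p, hp, hpγ⟩
    rw [h0, Int.cast_zero, zero_mul]
  rw [hR, hL]
  have h3 : ∀ γ ∈ P.image c, ((dcoef (fun j => glZ π (X j)) γ : ℤ) : ℚ) *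
      F (fpr γ) (List.ofFn γ).prod =
      ∑ p ∈ P, if c p = γ then
        ((dcoef X p : ℤ) : ℚ) * F (fun i => π (fpr p i)) (π (List.ofFn p).prod) else 0 := by
    intro γ _
    rw [dcoef_map, Int.cast_sum, Finset.sum_mul]
    refine Finset.sum_congr rfl fun p _ => ?_
    by_cases h : c p = γ
    · rw [if_pos h, if_pos h, ← h, hc, fpr_map, prod_map]
    · rw [if_neg h, if_neg h, Int.cast_zero, zero_mul]
  rw [Finset.sum_congr rfl h3, Finset.sum_comm]
  refine Finset.sum_congr rfl fun p hp => ?_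
  rw [Finset.sum_ite_eq, if_pos (Finset.mem_image_of_mem c hp)]

end Pool.Agent.FJA
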