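import Pool.Agent.FJA.StL

/-!
# Module LTC: the Dennis trace for direct limits of groups
-/

set_option autoImplicit false

open Matrix Pool.Agent.WhK Pool.Agent.Lib25

noncomputable section

namespace Pool.Agent.FJA

namespace LTC

theorem sum_hmap {V V' : Type} (f : V → V') (m : ℕ) (z : (Fin m → V) →₀ ℚ)
    (φ : (Fin m → V') → ℚ) :
    ((hmap ℚ f m z).sum fun X q => q * φ X) = z.sum fun X q => q * φ (fun i => f (X i)) := by
  unfold hmap
  rw [Finsupp.lmapDomain_apply, Finsupp.sum_mapDomain_index]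
  · intro b
    rw [zero_mul]
  · intro b m1 m2
    rw [add_mul]

open Classical in
/-- The part of `F` at `1`. -/
def F1 {G : Type} [Group G] {n : ℕ} (F : (Fin n → G) → G → ℚ) (a : Fin n → G) (y : G) : ℚ :=
  if y = 1 then F a y else 0

open Classical in
/-- The part of `F` away from `1`. -/
def F0 {G : Type} [Group G] {n : ℕ} (F : (Fin n → G) → G → ℚ) (a : Fin n → G) (y : G) : ℚ :=
  if y = 1 then 0 else F a y

theorem F0_one {G : Type} [Group G] {n : ℕ} (F : (Fin n → G) → G → ℚ) (a : Fin n → G) :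
    F0 F a 1 = 0 := by
  unfold F0
  rw [if_pos rfl]

theorem F1_one {G : Type} [Group G] {n : ℕ} (F : (Fin n → G) → G → ℚ) (a : Fin n → G) :
    F1 F a 1 = F a 1 := by
  unfold F1
  rw [if_pos rfl]

theorem F0_ne {G : Type} [Group G] {n : ℕ} (F : (Fin n → G) → G → ℚ) (a : Fin n → G) {y : G}
    (hy : y ≠ 1) : F0 F a y = F a y := by
  unfold F0
  rw [if_neg hy]

theorem F1_ne {G : Type} [Group G] {n : ℕ} (F : (Fin n → G) → G → ℚ) (a : Fin n → G) {y : G}
    (hy : y ≠ 1) : F1 F a y = 0 := by
  unfold F1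
  rw [if_neg hy]

theorem F1_add_F0 {G : Type} [Group G] {n : ℕ} (F : (Fin n → G) → G → ℚ) (a : Fin n → G) (y : G) :
    F1 F a y + F0 F a y = F a y := by
  by_cases hy : y = 1
  · subst hy
    rw [F1_one, F0_one, add_zero]
  · rw [F1_ne F a hy, F0_ne F a hy, zero_add]

theorem F0_inv {G : Type} [Group G] {n : ℕ} (F : (Fin n → G) → G → ℚ)
    (hinv : ∀ (g : G) (a : Fin n → G) (y : G), F (fun i => g * a i) (g * y * g⁻¹) = F a y)
    (g : G) (a : Fin n → G) (y : G) : F0 F (fun i => g * a i) (g * y * g⁻¹) = F0 F a y := by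
  by_cases hy : y = 1
  · subst hy
    rw [mul_one, mul_inv_cancel, F0_one, F0_one]
  · have h1 : g * y * g⁻¹ ≠ 1 := by
      intro h
      exact hy (conj_eq_one_iff.mp h)
    rw [F0_ne F _ h1, F0_ne F _ hy, hinv]

theorem dtr_split (hdeq : S_DEQ) {G : Type} [Group G] {n r : ℕ} (F : (Fin (n + 1) → G) → G → ℚ)
    (X : Fin (n + 1) → (Matrix (Fin r) (Fin r) (MonoidAlgebra ℤ G))ˣ) :
    dtr F X = dtr (F1 F) X + dtr (F0 F) X := by
  have h := hdeq.2.1 G n r Bool Finset.univ (fun b => if b then F1 F else F0 F) X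
  rw [Fintype.sum_bool] at h
  have h2 : (fun (a : Fin (n + 1) → G) y => ∑ i ∈ (Finset.univ : Finset Bool),
      (if i then F1 F else F0 F) a y) = F := by
    funext a y
    rw [Fintype.sum_bool]
    exact F1_add_F0 F a y
  rw [h2] at h
  exact h

end LTC

/-- LTC. -/
theorem t_LTC (hdeq : S_DEQ) (hwoq : S_WOQ) (hrtb : S_RTB) (hlmf : S_LMF) (hlnz : S_LNZ) :
    S_LTC := by
  intro G _ n r hn z hz
  obtain ⟨m, rfl⟩ : ∃ m, n = m + 1 := ⟨n - 1, by omega⟩
  obtain ⟨w, hw, hwF⟩ := hwoq G m r z hz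
  refine ⟨w, hw, ?_⟩
  intro F hF
  -- the value of the part away from `1` vanishes
  have h0 : (z.sum fun X q => q * dtr (LTC.F0 F) X) = 0 := by
    obtain ⟨S, hS⟩ := hlmf ℤ G (m + 1) r z hz
    obtain ⟨Q, hQ, π, s, hsec, hadm⟩ := hF.adm S
    obtain ⟨z', hz', hzz⟩ := hS Q π s hsec
    have hgl : (glR ℤ π (r := r)) = glZ π := rfl
    obtain ⟨w', hw', key⟩ := hrtb Q (m + 1) r hn z' hz'
    have h1 := key (fun (a : Fin (m + 2) → Q) (y : Q) => LTC.F0 F (fun i => π (a i)) (π y))
      (fun g a y => by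
        have h := LTC.F0_inv F hF.inv (π g) (fun i => π (a i)) (π y)
        simpa only [map_mul, map_inv] using h)
      (fun y hy => by
        by_cases hy1 : π y = 1
        · have hz0 : (fun (a : Fin (m + 2) → Q) => LTC.F0 F (fun i => π (a i)) (π y)) = 0 := by
            funext a
            rw [hy1]
            exact LTC.F0_one F _
          rw [hz0]
          refine ⟨0, 0, ?_, ?_, ?_, ?_, Or.inl rfl⟩
          · intro g a _
            rfl
          · intro g a _
            rfl
          · intro a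
            unfold cobE
            simp
          · intro a
            unfold cobE
            simp
        · have hz0 : (fun (a : Fin (m + 2) → Q) => LTC.F0 F (fun i => π (a i)) (π y)) =
              fun a => F (fun i => π (a i)) (π y) := by
            funext a
            exact LTC.F0_ne F _ hy1
          rw [hz0]
          exact hadm y hy1)
    rw [← hzz, LTC.sum_hmap, hgl]
    have h2 : (z'.sum fun X q => q * dtr (LTC.F0 F) fun i => (glZ π) (X i)) =
        z'.sum fun X q => q * dtr (fun (a : Fin (m + 2) → Q) (y : Q) =>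
          LTC.F0 F (fun i => π (a i)) (π y)) X := by
      refine Finsupp.sum_congr fun X _ => ?_
      rw [hlnz Q G π (m + 1) r (LTC.F0 F) X]
    rw [h2, h1]
    have h3 : ∀ a : Fin (m + 2) → Q, ∀ q : ℚ,
        q * LTC.F0 F (fun i => π (a i)) (π 1) = 0 := by
      intro a q
      rw [map_one, LTC.F0_one, mul_zero]
    exact Finset.sum_eq_zero fun a _ => h3 a _
  -- the value of the part at `1`
  have h1 : (z.sum fun X q => q * dtr (LTC.F1 F) X) = w.sum fun a q => q * F a 1 := by
    have h := hwF (LTC.F1 F) (fun a y h => by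
      by_contra hy
      exact h (LTC.F1_ne F a hy))
    rw [h]
    refine Finsupp.sum_congr fun a _ => ?_
    rw [LTC.F1_one]
  have h2 : (z.sum fun X q => q * dtr F X) =
      (z.sum fun X q => q * dtr (LTC.F1 F) X) + z.sum fun X q => q * dtr (LTC.F0 F) X := by
    rw [← Finsupp.sum_add]
    refine Finsupp.sum_congr fun X _ => ?_
    rw [LTC.dtr_split hdeq F X, mul_add]
  rw [h2, h0, h1, add_zero]

end Pool.Agent.FJA
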