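import Pool.Agent.FJA.StL

/-!
# Finitely generated subgroups
-/

set_option autoImplicit false

noncomputable section

namespace Pool.Agent.FJA

namespace LXA

open Classical in
/-- The section of the inclusion of a subgroup. -/
def sec {G : Type} [Group G] (H : Subgroup G) (g : G) : H := if h : g ∈ H then ⟨g, h⟩ else 1

theorem sec_coe {G : Type} [Group G] (H : Subgroup G) {g : G} (h : g ∈ H) : sec H g = ⟨g, h⟩ := by
  unfold sec
  rw [dif_pos h]

theorem psec {G : Type} [Group G] (S : Finset G) :
    PSec (Subgroup.closure (S : Set G)).subtype (sec (Subgroup.closure (S : Set G))) S := by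
  have hm : ∀ g ∈ S, g ∈ Subgroup.closure (S : Set G) := fun g hg =>
    Subgroup.subset_closure (Finset.mem_coe.mpr hg)
  refine ⟨fun g hg => ?_, fun g hg h hh _ => ?_⟩
  · rw [sec_coe _ (hm g hg)]
    rfl
  · rw [sec_coe _ (hm g hg), sec_coe _ (hm h hh), sec_coe _ (mul_mem (hm g hg) (hm h hh))]
    rfl

theorem fg {G : Type} [Group G] (S : Finset G) : (Subgroup.closure (S : Set G)).FG := ⟨S, rfl⟩

end LXA

open LXA

theorem t_LXA : S_LXA := by
  refine ⟨fun R _ G _ n F hF => ⟨hF.inv, fun S => ?_⟩, fun G _ n F hF => ⟨hF.1, fun S => ?_⟩,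
    fun P G _ hP S => ?_⟩
  · exact ⟨Subgroup.closure (S : Set G), inferInstance, (Subgroup.closure (S : Set G)).subtype,
      sec _, psec S, fun y => hF.adm _ (fg S) y⟩
  · refine ⟨Subgroup.closure (S : Set G), inferInstance, (Subgroup.closure (S : Set G)).subtype,
      sec _, psec S, fun y hy => hF.2 _ (fg S) y ?_⟩
    rintro rfl
    exact hy (map_one _)
  · exact ⟨Subgroup.closure (S : Set G), inferInstance, (Subgroup.closure (S : Set G)).subtype,
      sec _, psec S, hP _ (fg S)⟩

end Pool.Agent.FJA
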