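import Pool.Agent.FJA.StL

/-!
# Direct limits of groups: module LXC, integral classes and the Dennis trace
-/

set_option autoImplicit false

open Pool.Agent.WhK Pool.Agent.Lib25

noncomputable section

namespace Pool.Agent.FJA

namespace LXC

variable {Q G : Type} [Group Q] [Group G]

/-- the pulled back cochain -/
def pb (π : Q →* G) {n : ℕ} (F : (Fin (n + 1) → G) → G → ℤ) (y : Q) (a : Fin (n + 1) → Q) : ℚ :=
  ((F (fun i => π (a i)) (π y) : ℤ) : ℚ)

theorem pb_cinv (π : Q →* G) {n : ℕ} {F : (Fin (n + 1) → G) → G → ℤ} (hF : CocFam n F) (y : Q) :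
    CInv y (pb π F y) := by
  intro g a hg
  have h1 := hF.inv (π g) (fun i => π (a i)) (π y)
  have h2 : π g * π y * (π g)⁻¹ = π y := by
    rw [← map_mul, hg, map_mul, mul_inv_cancel_right]
  rw [h2] at h1
  change ((F (fun i => π (g * a i)) (π y) : ℤ) : ℚ) = ((F (fun i => π (a i)) (π y) : ℤ) : ℚ)
  simp only [map_mul]
  rw [h1]

theorem pb_coc (π : Q →* G) {n : ℕ} {F : (Fin (n + 1) → G) → G → ℤ} (hF : CocFam n F) (y : Q)
    (a : Fin (n + 2) → Q) : cobE (pb π F y) a = 0 := by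
  have h1 := hF.coc (fun i => π (a i)) (π y)
  have h2 : ((∑ i : Fin (n + 2), (-1 : ℤ) ^ (i : ℕ) *
      F (fun j => (fun i => π (a i)) (i.succAbove j)) (π y) : ℤ) : ℚ) = 0 := by
    rw [h1]; norm_num
  push_cast at h2
  exact h2

theorem pb_den (π : Q →* G) {n : ℕ} (F : (Fin (n + 1) → G) → G → ℤ) (y : Q)
    (a : Fin (n + 1) → Q) : (pb π F y a).den = 1 := by
  unfold pb
  exact Rat.den_intCast _

theorem rootC_pb (π : Q →* G) {n : ℕ} (F : (Fin (n + 1) → G) → G → ℤ) (y : Q) (hy : ¬ Dvb y) :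
    RootC ℤ y (pb π F y) := by
  unfold Dvb at hy
  push Not at hy
  obtain ⟨p, c, hp, hc⟩ := hy
  refine ⟨p, 1, c, hp, ?_, ?_, hc⟩
  · intro hu
    rw [Int.isUnit_iff] at hu
    have := hp.one_lt
    rcases hu with h | h <;> omega
  · intro a
    rw [pb_den, pow_one, Nat.dvd_one]
    exact hp.one_lt.ne'

omit [Group Q] in
theorem cobE_zero {n : ℕ} (a : Fin (n + 1) → Q) : cobE (fun _ : Fin n → Q => (0 : ℚ)) a = 0 := by
  simp [cobE]

theorem at_self {n : ℕ} {y : Q} {f : (Fin (n + 1) → Q) → ℚ} (h1 : CInv y f)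
    (h2 : ∀ a : Fin (n + 2) → Q, cobE f a = 0) (h3 : AdmR n y f) : AdmRAt n y f :=
  ⟨f, fun _ => 0, h1, fun _ _ _ => rfl, h2, fun a => by rw [cobE_zero, add_zero], h3⟩

/-- elements which are not divisible -/
theorem main (hlba : S_LBA) (π : Q →* G) {n : ℕ} {F : (Fin (n + 1) → G) → G → ℤ} (hF : CocFam n F)
    (hinf : ∀ y : G, ¬ IsOfFinOrder y → ∀ (t : Fin (n + 1) → ℤ) (a : Fin (n + 1) → G),
      F (fun i => y ^ t i * a i) y = F a y) (y : Q) (hy : ¬ Dvb y) :
    AdmRAt n y (pb π F y) := by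
  by_cases hfin : IsOfFinOrder (π y)
  · have hin : ∀ (t : Fin (n + 1) → ℤ) (a : Fin (n + 1) → Q),
        pb π F y (fun i => (y ^ orderOf (π y)) ^ t i * a i) = pb π F y a := by
      intro t a
      unfold pb
      simp only [map_mul, map_zpow, map_pow, pow_orderOf_eq_one, _root_.one_zpow, one_mul]
    obtain ⟨f', E, h1, h2, h3, h4, h5, h6⟩ := hlba Q n (orderOf (π y)) y (pb π F y)
      hfin.orderOf_pos (pb_cinv π hF y) (pb_coc π hF y) hin (rootC_pb π F y hy)
    exact ⟨f', E, h1, h2, h3, h4, Or.inr (Or.inl ⟨h5, Or.inr h6⟩)⟩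
  · refine at_self (pb_cinv π hF y) (pb_coc π hF y) (Or.inr (Or.inl ⟨rootC_pb π F y hy, Or.inr ?_⟩))
    intro t a
    unfold pb
    simp only [map_mul, map_zpow]
    rw [hinf (π y) hfin t (fun i => π (a i))]

end LXC

open LXC in
theorem t_LXC (hlba : S_LBA) : S_LXC := by
  intro G _ n F hF hinf hlim
  refine ⟨?_, ?_⟩
  · intro g a y
    rw [hF.inv g a y]
  · intro S
    rcases hlim with h | ⟨hn, h⟩
    · obtain ⟨Q, iQ, π, s, hs, hQ⟩ := h S
      refine ⟨Q, iQ, π, s, hs, ?_⟩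
      intro y hy
      refine main hlba π hF hinf y ?_
      intro hd
      exact hy (by rw [hQ y hd, map_one])
    · obtain ⟨Q, iQ, π, s, hs, hQ⟩ := h S
      refine ⟨Q, iQ, π, s, hs, ?_⟩
      intro y _
      by_cases hfin : IsOfFinOrder y
      · refine at_self (pb_cinv π hF y) (pb_coc π hF y)
          (Or.inr (Or.inr (Or.inl ⟨hn, hfin, 1, one_ne_zero, ?_⟩)))
        intro a
        exact (pb_den π F y a).dvd
      · exact main hlba π hF hinf y fun hd => hfin (hQ y hd)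

end Pool.Agent.FJA
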