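import Pool.Agent.FJA.StY2

/-!
# Malcev: finitely generated linear groups are residually finite (module RML)   (helper50)
-/

set_option autoImplicit false

open Matrix

namespace Pool.Agent.FJA

namespace RML

theorem jacobson_int : IsJacobsonRing ℤ := by
  rw [isJacobsonRing_iff_prime_eq]
  intro P hP
  by_cases h : P = ⊥
  · subst h
    rw [eq_bot_iff]
    intro x hx
    rw [Ideal.mem_jacobson_bot] at hx
    have h1 := hx x
    rw [Int.isUnit_iff] at h1
    have h2 : x = 0 := by
      rcases h1 with h1 | h1 <;> nlinarith [sq_nonneg x]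
    rw [h2]
    exact Submodule.zero_mem _
  · have hmax : P.IsMaximal := Ideal.IsPrime.isMaximal hP h
    exact Ideal.jacobson_eq_self_of_isMaximal

theorem residue (A : Type) [CommRing A] [Algebra.FiniteType ℤ A] (m : Ideal A)
    (hm : m.IsMaximal) : Finite (A ⧸ m) := by
  have := hm
  let : Field (A ⧸ m) := Ideal.Quotient.field m
  have : Algebra.FiniteType ℤ (A ⧸ m) :=
    Algebra.FiniteType.of_surjective (Ideal.Quotient.mkₐ ℤ m) (Ideal.Quotient.mkₐ_surjective ℤ m)
  have := jacobson_int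
  have : Module.Finite ℤ (A ⧸ m) := finite_of_finite_type_of_isJacobsonRing ℤ (A ⧸ m)
  obtain ⟨p, hp⟩ := CharP.exists (A ⧸ m)
  have hp0 : p ≠ 0 := by
    rintro rfl
    have : CharZero (A ⧸ m) := CharP.charP_to_charZero (A ⧸ m)
    have hinj : Function.Injective (algebraMap ℤ (A ⧸ m)) := by
      intro a b hab
      simpa using hab
    have : IsField ℤ :=
      isField_of_isIntegral_of_isField hinj (Field.toIsField (A ⧸ m))
    exact Int.not_isField this
  let : Algebra (ZMod p) (A ⧸ m) := ZMod.algebra (A ⧸ m) p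
  have : Module.Finite (ZMod p) (A ⧸ m) := by
    have : IsScalarTower ℤ (ZMod p) (A ⧸ m) := by
      refine IsScalarTower.of_algebraMap_eq fun x => ?_
      simp
    exact Module.Finite.of_restrictScalars_finite ℤ (ZMod p) (A ⧸ m)
  have : NeZero p := ⟨hp0⟩
  exact Module.finite_of_finite (ZMod p)

/-- an element not in a maximal ideal -/
theorem maxi (B : Type) [CommRing B] [IsDomain B] [Algebra.FiniteType ℤ B] (c : B)
    (hc : c ≠ 0) : ∃ 𝔪 : Ideal B, 𝔪.IsMaximal ∧ c ∉ 𝔪 := by
  have := jacobson_int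
  have : IsJacobsonRing B := isJacobsonRing_of_finiteType (A := ℤ)
  have h1 : (⊥ : Ideal B).jacobson = ⊥ := by
    rw [← Ideal.radical_eq_jacobson]
    exact (Ideal.isPrime_bot (α := B)).radical
  by_contra hcon
  push Not at hcon
  have h2 : c ∈ (⊥ : Ideal B).jacobson := by
    rw [Ideal.jacobson, Submodule.mem_sInf]
    intro J hJ
    exact hcon J hJ.2
  rw [h1] at h2
  exact hc (by simpa using h2)

theorem key (Γ : Type) [Group Γ] (hFG : Group.FG Γ) (K : Type) [Field K] (N : ℕ)
    (ρ : Γ →* GL (Fin N) K) (hρ : Function.Injective ρ) : ResFin Γ := by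
  classical
  intro h hh
  obtain ⟨S, hS⟩ := (Group.fg_def (G := Γ)).1 hFG
  -- the finite set of entries
  let E : Finset K := S.biUnion fun s => (Finset.univ : Finset (Fin N × Fin N)).biUnion fun p =>
    {(ρ s).val p.1 p.2, (ρ s⁻¹).val p.1 p.2}
  let B : Subalgebra ℤ K := Algebra.adjoin ℤ (E : Set K)
  have : Algebra.FiniteType ℤ B := (Subalgebra.fg_iff_finiteType B).1 (Subalgebra.fg_adjoin_finset E)
  have hmul : ∀ x y : Γ, (∀ i j, (ρ x).val i j ∈ B) → (∀ i j, (ρ y).val i j ∈ B) →
      ∀ i j, (ρ (x * y)).val i j ∈ B := by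
    intro x y hx hy i j
    rw [map_mul, Units.val_mul, Matrix.mul_apply]
    exact Subalgebra.sum_mem _ fun k _ => Subalgebra.mul_mem _ (hx i k) (hy k j)
  have hone : ∀ i j, (ρ (1 : Γ)).val i j ∈ B := by
    intro i j
    rw [map_one, Units.val_one, Matrix.one_apply]
    split_ifs
    · exact Subalgebra.one_mem _
    · exact Subalgebra.zero_mem _
  have hall : ∀ x : Γ, (∀ i j, (ρ x).val i j ∈ B) ∧ ∀ i j, (ρ x⁻¹).val i j ∈ B := by
    intro x
    have hx : x ∈ Subgroup.closure (S : Set Γ) := by rw [hS]; trivial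
    induction hx using Subgroup.closure_induction with
    | mem s hs =>
      refine ⟨fun i j => Algebra.subset_adjoin ?_, fun i j => Algebra.subset_adjoin ?_⟩
      · exact Finset.mem_coe.2 (Finset.mem_biUnion.2 ⟨s, hs, Finset.mem_biUnion.2
          ⟨(i, j), Finset.mem_univ _, Finset.mem_insert_self _ _⟩⟩)
      · exact Finset.mem_coe.2 (Finset.mem_biUnion.2 ⟨s, hs, Finset.mem_biUnion.2
          ⟨(i, j), Finset.mem_univ _, Finset.mem_insert_of_mem (Finset.mem_singleton_self _)⟩⟩)
    | one => exact ⟨hone, by rw [inv_one]; exact hone⟩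
    | mul x y _ _ ihx ihy =>
      refine ⟨hmul x y ihx.1 ihy.1, ?_⟩
      rw [_root_.mul_inv_rev]
      exact hmul _ _ ihy.2 ihx.2
    | inv x _ ih => exact ⟨ih.2, by rw [inv_inv]; exact ih.1⟩
  -- the matrices over `B`
  let MB : Γ → Matrix (Fin N) (Fin N) B := fun x => Matrix.of fun i j => ⟨(ρ x).val i j, (hall x).1 i j⟩
  have hinj : Function.Injective
      ((B.val.toRingHom.mapMatrix : Matrix (Fin N) (Fin N) B →+* Matrix (Fin N) (Fin N) K)) :=
    Matrix.map_injective Subtype.val_injective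
  have hMB : ∀ x, (B.val.toRingHom.mapMatrix : Matrix (Fin N) (Fin N) B →+* _) (MB x) = (ρ x).val := by
    intro x
    ext i j
    rfl
  let MBh : Γ →* Matrix (Fin N) (Fin N) B :=
    { toFun := MB
      map_one' := by
        apply hinj
        rw [hMB, map_one, map_one, Units.val_one]
      map_mul' := by
        intro x y
        apply hinj
        rw [hMB, map_mul, map_mul, Units.val_mul, hMB, hMB] }
  -- a nonzero entry
  obtain ⟨i₀, j₀, hij⟩ : ∃ i j, MB h i j ≠ (1 : Matrix (Fin N) (Fin N) B) i j := by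
    by_contra hcon
    push Not at hcon
    apply hh
    apply hρ
    rw [map_one]
    apply Units.ext
    rw [← hMB h, Units.val_one]
    have : MB h = 1 := by
      ext i j
      exact congrArg Subtype.val (hcon i j)
    rw [this, map_one]
  obtain ⟨𝔪, h𝔪, hc⟩ := maxi B (MB h i₀ j₀ - (1 : Matrix (Fin N) (Fin N) B) i₀ j₀)
    (sub_ne_zero.2 hij)
  have hfin : Finite (B ⧸ 𝔪) := residue B 𝔪 h𝔪
  let q : Matrix (Fin N) (Fin N) B →+* Matrix (Fin N) (Fin N) (B ⧸ 𝔪) :=
    (Ideal.Quotient.mk 𝔪).mapMatrix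
  let ψ : Γ →* (Matrix (Fin N) (Fin N) (B ⧸ 𝔪))ˣ := ((q : _ →* _).comp MBh).toHomUnits
  have hfin2 : Finite (Matrix (Fin N) (Fin N) (B ⧸ 𝔪)) := by
    unfold Matrix
    infer_instance
  have hfin3 : Finite (Matrix (Fin N) (Fin N) (B ⧸ 𝔪))ˣ := Finite.of_injective _ Units.val_injective
  refine ⟨ψ.ker, inferInstance, inferInstance, ?_⟩
  intro hker
  apply hc
  rw [MonoidHom.mem_ker] at hker
  have h1 : q (MB h) = 1 := by
    have := congrArg Units.val hker
    exact this
  have h2 : q (MB h) = q 1 := by rw [h1, map_one]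
  have h3 := congrFun (congrFun h2 i₀) j₀
  have h4 : Ideal.Quotient.mk 𝔪 (MB h i₀ j₀) =
      Ideal.Quotient.mk 𝔪 ((1 : Matrix (Fin N) (Fin N) B) i₀ j₀) := h3
  exact Ideal.Quotient.eq.1 h4

end RML

theorem t_RML : S_RML := by
  intro G _ K _ N ρ hρ H hH
  have hFG : Group.FG H := (Group.fg_iff_subgroup_fg H).2 hH
  exact RML.key H hFG K N (ρ.comp H.subtype) (hρ.comp Subtype.val_injective)

end Pool.Agent.FJA
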