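import Pool.Agent.FJA.CoreAllZ
import Pool.Agent.FJA.P_LMF
import Pool.Agent.FJA.P_LNZ
import Pool.Agent.FJA.P_LTC
import Pool.Agent.FJA.P_LXA
import Pool.Agent.FJA.P_LBA
import Pool.Agent.FJA.P_LXC
import Pool.Agent.FJA.P_RML

/-!
# The Dennis trace, direct limits: the theorems of the modules, composed
-/

set_option autoImplicit false

noncomputable section

namespace Pool.Agent.FJA

theorem h_LTC : S_LTC := t_LTC h_DEQ h_WOQ h_RTB t_LMF t_LNZ
theorem h_LXC : S_LXC := t_LXC t_LBA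

theorem ndvb_resFin (G : Type) [Group G] (h : ResFin G) : NDvb G := by
  intro y hy
  by_contra hne
  obtain ⟨p, c, hp, hc⟩ := t_RRF.1 G h y hne
  obtain ⟨δ, hδ⟩ := hy p c hp
  exact hc δ hδ

theorem lim_ndvb_resFin (G : Type) [Group G] (h : ∀ H : Subgroup G, H.FG → ResFin H) : LimOf NDvb G :=
  t_LXA.2.2 NDvb G fun H hH => ndvb_resFin H (h H hH)

end Pool.Agent.FJA
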