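import Pool.Agent.FJA.CoreAllL
import Pool.Agent.FJA.CoreAllM
import Pool.Agent.FJA.ChDefs

/-!
# The Chern character and the assembly map: the theorems for `GL_r(ℤ[G])`, put together
-/

set_option autoImplicit false

noncomputable section

namespace Pool.Agent.FJA

namespace CHA

/-- The cochain of a family on the simplex `X` is the value on the Dennis trace. -/
theorem cvalS_hseq {G : Type} [Group G] {r n : ℕ} (F : (Fin (n + 1) → G) → G → ℚ)
    (X : Fin (n + 1) → (Matrix (Fin r) (Fin r) (MonoidAlgebra ℤ G))ˣ) :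
    cvalS ℚ F (hseq n (List.ofFn X)) = dtr F X := by
  unfold cvalS dtr
  refine finsum_congr fun γ => ?_
  have h1 : hcoef (hseq n (List.ofFn X)) γ = dcoef X γ := by
    unfold hcoef dcoef
    refine Finset.sum_congr rfl fun a _ => Finset.prod_congr rfl fun j _ => ?_
    have hg : ∀ j : Fin (n + 1), (List.ofFn X).getD (j : ℕ) 1 = X j := by
      intro j
      rw [List.getD_eq_getElem?_getD, List.getElem?_ofFn, dif_pos j.2, Option.getD_some]
    unfold hseq
    rw [hg, hg]
  rw [h1]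
  simp

/-- A tuple of lists of elements of `G` as a simplex. -/
theorem cvalS_gMat {G : Type} [Group G] {m : ℕ} (F : (Fin (m + 1) → G) → G → ℚ)
    (hF : ∀ (g : G) (a : Fin (m + 1) → G) (y : G), F (fun i => g * a i) (g * y * g⁻¹) = F a y)
    (L : List G) (hL : L.length = m + 1) :
    cvalS ℚ F (hseq m (L.map (gMat (G := G)))) = F (fun j => L.get (j.cast hL.symm)) 1 := by
  have h1 : L.map (gMat (G := G)) = List.ofFn (fun j : Fin (m + 1) => gMat (L.get (j.cast hL.symm))) := by
    apply List.ext_getElem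
    · simp [hL]
    · intro k h1 h2
      rw [List.getElem_map, List.getElem_ofFn]
      rfl
  rw [h1, cvalS_hseq]
  exact t_GMQ G m F hF _

/-- `i = 0`. -/
theorem chv_zero {G : Type} [Group G] {r n : ℕ} {T : ∀ V : Type, ℕ → List V → (List V →₀ ℚ)}
    (hT : NatLift T) (F : (Fin (n + 1) → G) → G → ℤ)
    (z : (Fin (n + 1) → (Matrix (Fin r) (Fin r) (MonoidAlgebra ℤ G))ˣ) →₀ ℚ) :
    chv T n 0 F z = z.sum fun X q => q * dtr (fun a y => (F a y : ℚ)) X := by
  have h0 : ∀ (V : Type) (c : List V →₀ ℚ), lT T V 0 c = c := by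
    intro V c
    unfold lT
    rw [Finsupp.linearCombination_apply]
    have h1 : ∀ (X : List V) (q : ℚ), q • T V 0 X = Finsupp.single X q := by
      intro X q
      rw [hT.zero, Finsupp.smul_single, smul_eq_mul, mul_one]
    simp only [h1]
    exact Finsupp.sum_single c
  unfold chv
  rw [h0, Finsupp.sum_mapDomain_index (by intro b; simp) (by intro b m₁ m₂; ring)]
  refine Finsupp.sum_congr fun X _ => ?_
  exact congrArg _ (cvalS_hseq (fun a y => (F a y : ℚ)) X)

/-- Alternating functions vanish on lists with a repeated entry. -/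
theorem alt_zero {G : Type} {n : ℕ} {f : (Fin n → G) → ℚ}
    (hf : ∀ (σ : Equiv.Perm (Fin n)) (a : Fin n → G),
      f (fun j => a (σ j)) = ((Equiv.Perm.sign σ : ℤ) : ℚ) * f a)
    (a : Fin n → G) (j k : Fin n) (hjk : j ≠ k) (h : a j = a k) : f a = 0 := by
  have h1 := hf (Equiv.swap j k) a
  rw [Equiv.Perm.sign_swap hjk] at h1
  have h2 : (fun l => a (Equiv.swap j k l)) = a := by
    funext l
    rcases eq_or_ne l j with rfl | hj
    · rw [Equiv.swap_apply_left, h]
    · rcases eq_or_ne l k with rfl | hk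
      · rw [Equiv.swap_apply_right, h]
      · rw [Equiv.swap_apply_of_ne_of_ne hj hk]
  rw [h2] at h1
  simp at h1
  linarith

/-- The higher components vanish on the image of the assembly map. -/
theorem chv_asm_pos {G : Type} [Group G] {n : ℕ} {T : ∀ V : Type, ℕ → List V → (List V →₀ ℚ)}
    (hT : NatLift T) {i : ℕ} (hi : 1 ≤ i) (F : (Fin (n + 2 * i + 1) → G) → G → ℤ)
    (hF : IntFam (n + 2 * i) F) (w : (Fin (n + 1) → G) →₀ ℚ) : chv T n i F (asm w) = 0 := by
  classical
  have e1 : (asm w).mapDomain List.ofFn = (w.mapDomain List.ofFn).mapDomain (List.map (gMat (G := G))) := by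
    unfold asm
    rw [← Finsupp.mapDomain_comp, ← Finsupp.mapDomain_comp]
    congr 1
    funext a
    simp only [Function.comp]
    rw [List.map_ofFn]
    rfl
  unfold chv
  rw [e1, HTH.lT_map hT, Finsupp.sum_mapDomain_index (by intro b; simp) (by intro b m₁ m₂; ring)]
  have hinv : ∀ (g : G) (a : Fin (n + 2 * i + 1) → G) (y : G),
      (F (fun i => g * a i) (g * y * g⁻¹) : ℚ) = (F a y : ℚ) := by
    intro g a y
    rw [hF.fam.inv]
  -- reduce to a single simplex
  have hlin : ∀ c : List G →₀ ℚ, (∀ X ∈ c.support, X.length = n + 1) →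
      ((lT T G i c).sum fun L q => q * cvalS ℚ (fun a y => (F a y : ℚ))
        (hseq (n + 2 * i) (L.map (gMat (G := G))))) = 0 := by
    intro c hc
    unfold lT
    rw [Finsupp.linearCombination_apply, Finsupp.sum_sum_index (by intro a; simp) (by intro a b₁ b₂; ring)]
    refine Finset.sum_eq_zero fun X hX => ?_
    have hlen := hc X hX
    have h2 : T G i X = (T (Fin (n + 1)) i (List.ofFn id)).mapDomain
        (List.map (fun j : Fin (n + 1) => X.get (j.cast hlen.symm))) := by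
      rw [← hT.nat]
      congr 1
      apply List.ext_getElem
      · simp [hlen]
      · intro k h1 h2
        rw [List.getElem_map, List.getElem_ofFn]
        rfl
    show ((c X • T G i X).sum fun L q => q * cvalS ℚ (fun a y => (F a y : ℚ))
        (hseq (n + 2 * i) (L.map (gMat (G := G))))) = 0
    rw [h2, ← Finsupp.mapDomain_smul,
      Finsupp.sum_mapDomain_index (by intro b; simp) (by intro b m₁ m₂; ring)]
    refine Finset.sum_eq_zero fun L hL => ?_
    have hL2 : L ∈ (T (Fin (n + 1)) i (List.ofFn id)).support := Finsupp.support_smul hL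
    have hL3 : L.length = n + 2 * i + 1 := by
      rw [hT.deg _ _ _ L hL2, List.length_ofFn]
      ring
    have hL4 : (L.map (fun j : Fin (n + 1) => X.get (j.cast hlen.symm))).length = n + 2 * i + 1 := by
      rw [List.length_map, hL3]
    refine mul_eq_zero_of_right _ ?_
    rw [cvalS_gMat (fun a y => (F a y : ℚ)) hinv _ hL4]
    obtain ⟨j, k, hjk, hjk2⟩ := Fintype.exists_ne_map_eq_of_card_lt
      (fun j : Fin (n + 2 * i + 1) => L.get (j.cast hL3.symm)) (by simp; omega)
    refine alt_zero (f := fun a => (F a 1 : ℚ)) (hF.altb 1).alt _ j k hjk ?_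
    simp only [List.get_eq_getElem, Fin.val_cast, List.getElem_map] at hjk2 ⊢
    rw [hjk2]
  exact hlin _ (HTH.ofFn_len (n + 1) w)

/-- The Dennis trace on the image of the assembly map. -/
theorem chv_asm_zero {G : Type} [Group G] {n : ℕ} {T : ∀ V : Type, ℕ → List V → (List V →₀ ℚ)}
    (hT : NatLift T) (F : (Fin (n + 1) → G) → G → ℤ) (hF : CocFam n F) (w : (Fin (n + 1) → G) →₀ ℚ) :
    chv T n 0 F (asm w) = w.sum fun a q => q * (F a 1 : ℚ) := by
  rw [chv_zero hT]
  unfold asm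
  rw [Finsupp.sum_mapDomain_index (by intro b; simp) (by intro b m₁ m₂; ring)]
  refine Finsupp.sum_congr fun a _ => ?_
  rw [t_GMQ G n (fun a y => (F a y : ℚ)) (fun g a y => by rw [hF.inv]) a]

/-- The conditions on the family `F` for the higher components. -/
theorem adm_pos {G : Type} [Group G] (m : ℕ) (F : (Fin (m + 1) → G) → G → ℤ) (hF : IntFam m F)
    (h : ∀ S : Finset G, ∃ (Q : Type) (_ : Group Q) (π : Q →* G) (s : G → Q), PSec π s S ∧
      ∀ q : Q, SDvb q → IsOfFinOrder q ∨ ∀ a, F a (π q) = 0) :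
    AdmLC ℤ m (fun a y => (F a y : ℚ)) := by
  classical
  have hp : ∀ p : ℕ, p.Prime → ¬ IsUnit ((p : ℤ)) := by
    intro p hp hu
    rw [Int.isUnit_iff] at hu
    have := hp.one_lt
    rcases hu with h | h <;> omega
  refine ⟨fun g a y => by rw [hF.fam.inv], fun S => ?_⟩
  obtain ⟨Q, iQ, π, s, hs, hQ⟩ := h S
  refine ⟨Q, iQ, π, s, hs, fun y => ?_⟩
  by_cases h0 : ∀ a, F a (π y) = 0
  · have h1 : (fun a : Fin (m + 1) → Q => (F (fun i => π (a i)) (π y) : ℚ)) = 0 := by
      funext a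
      rw [h0]
      rfl
    rw [h1]
    exact ⟨0, 0, fun _ _ _ => rfl, fun _ _ _ => rfl, HLI.altb_zero y, HLI.altb_zero y,
      fun a => HLI.cobE_zero a, fun a => by rw [HLI.cobE_zero a, add_zero], Or.inl rfl⟩
  · refine ⟨fun a : Fin (m + 1) → Q => (F (fun i => π (a i)) (π y) : ℚ), 0, LXB.cinv hF.fam π y,
      fun _ _ _ => rfl, LXB.altb_res hF.altb π y, HLI.altb_zero y, LXB.coc hF.fam π y, ?_, ?_⟩
    · intro a
      rw [HLI.cobE_zero, add_zero]
    · by_cases hfin : IsOfFinOrder y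
      · exact Or.inr (Or.inr fun V => HLI.inf_fin hfin _ V)
      · have h2 : ¬ SDvb y := fun h3 => (hQ y h3).elim hfin h0
        by_cases h3 : Dvb y
        · refine Or.inr (Or.inr fun V => ?_)
          have h4 : ¬ {p : ℕ | p.Prime ∧ ∀ z ∈ V, ¬ IsConj (z ^ p) y}.Finite := fun h5 => h2 ⟨h3, V, h5⟩
          refine Set.Infinite.mono ?_ h4
          rintro p ⟨hp1, hp2⟩
          refine ⟨hp1, fun a hd => ?_, fun z hz hc => absurd hc (hp2 z hz)⟩
          rw [Rat.den_intCast] at hd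
          exact hp1.ne_one (Nat.dvd_one.1 hd)
        · refine Or.inr (Or.inl ?_)
          unfold Dvb at h3
          push Not at h3
          obtain ⟨p, c, hpp, hδ⟩ := h3
          refine ⟨p, 1, c, hpp, hp p hpp, ?_, hδ⟩
          intro a h
          rw [pow_one, Rat.den_intCast] at h
          exact hpp.ne_one (Nat.dvd_one.1 h)

/-- The conditions for the Dennis trace. -/
theorem adm_zero {G : Type} [Group G] (n : ℕ) (F : (Fin (n + 1) → G) → G → ℤ) (hF : IntFam n F)
    (h : ∀ S : Finset G, ∃ (Q : Type) (_ : Group Q) (π : Q →* G) (s : G → Q), PSec π s S ∧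
      ∀ q : Q, SDvb q → π q = 1 ∨ (n ≤ 3 ∧ IsOfFinOrder q) ∨ ∀ a, F a (π q) = 0) :
    AdmLG n (fun a y => (F a y : ℚ)) := by
  classical
  have hinf : ∀ y : G, ¬ IsOfFinOrder y → ∀ (t : Fin (n + 1) → ℤ) (a : Fin (n + 1) → G),
      F (fun i => y ^ t i * a i) y = F a y := by
    intro y _ t a
    have h1 := (hF.altb y).bas t a
    exact_mod_cast h1
  refine ⟨fun g a y => by rw [hF.fam.inv], fun S => ?_⟩
  obtain ⟨Q, iQ, π, s, hs, hQ⟩ := h S
  refine ⟨Q, iQ, π, s, hs, fun y hy => ?_⟩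
  by_cases h0 : ∀ a, F a (π y) = 0
  · have h1 : (fun a : Fin (n + 1) → Q => (F (fun i => π (a i)) (π y) : ℚ)) = 0 := by
      funext a
      rw [h0]
      rfl
    rw [h1]
    exact ⟨0, 0, fun _ _ _ => rfl, fun _ _ _ => rfl,
      fun a => HLI.cobE_zero a, fun a => by rw [HLI.cobE_zero a, add_zero], Or.inl rfl⟩
  · by_cases h2 : SDvb y
    · rcases hQ y h2 with h3 | ⟨hn, h3⟩ | h3
      · exact absurd h3 hy
      · refine LXC.at_self (LXC.pb_cinv π hF.fam y) (LXC.pb_coc π hF.fam y)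
          (Or.inr (Or.inr (Or.inl ⟨hn, h3, 1, one_ne_zero, ?_⟩)))
        intro a
        exact (LXC.pb_den π F y a).dvd
      · exact absurd h3 h0
    · by_cases h3 : Dvb y
      · refine LXC.at_self (LXC.pb_cinv π hF.fam y) (LXC.pb_coc π hF.fam y)
          (Or.inr (Or.inr (Or.inr (Or.inr ⟨?_, fun V => ?_⟩))))
        · intro t a
          exact (LXB.altb_res hF.altb π y).bas t a
        · have h4 : ¬ {p : ℕ | p.Prime ∧ ∀ z ∈ V, ¬ IsConj (z ^ p) y}.Finite := fun h5 => h2 ⟨h3, V, h5⟩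
          refine Set.Infinite.mono ?_ h4
          rintro p ⟨hp1, hp2⟩
          refine ⟨hp1, fun a hd => ?_, hp2⟩
          have hd2 : p ∣ (LXC.pb π F y a).den := hd
          rw [LXC.pb_den π F y a] at hd2
          exact hp1.ne_one (Nat.dvd_one.1 hd2)
      · exact LXC.main t_LBA π hF.fam hinf y h3

theorem nsdvb_of_ndvb (G : Type) [Group G] (h : NDvb G) : NSDvb G := fun y hy => h y hy.1

theorem lim_nsdvb (G : Type) [Group G] (h : LimOf NDvb G) : LimOf NSDvb G := by
  intro S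
  obtain ⟨Q, iQ, π, s, hs, hQ⟩ := h S
  exact ⟨Q, iQ, π, s, hs, nsdvb_of_ndvb Q hQ⟩

/-- The image of a cycle of `GL_r(ℤ[G])` is the image of a cycle of `G`. -/
theorem main (G : Type) [Group G] (n r : ℕ) (hn : 1 ≤ n)
    (z : (Fin (n + 1) → (Matrix (Fin r) (Fin r) (MonoidAlgebra ℤ G))ˣ) →₀ ℚ)
    (hz : z ∈ cyc ℚ ((Matrix (Fin r) (Fin r) (MonoidAlgebra ℤ G))ˣ) n) :
    ∃ w ∈ cyc ℚ G n, ∀ T : ∀ V : Type, ℕ → List V → (List V →₀ ℚ), NatLift T →
      (∀ (i : ℕ) (F : (Fin (n + 2 * i + 1) → G) → G → ℤ), IntFam (n + 2 * i) F →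
        (LimOf NSDvb G ∨
          ∀ a y, F a y ≠ 0 → y = 1 ∨ ¬ SDvb y ∨ ((1 ≤ i ∨ n ≤ 3) ∧ IsOfFinOrder y)) →
        chv T n i F z = chv T n i F (asm w)) ∧
      ∀ F : (Fin (n + 1) → G) → G → ℤ, AdmLG n (fun a y => (F a y : ℚ)) → CocFam n F →
        chv T n 0 F z = chv T n 0 F (asm w) := by
  classical
  obtain ⟨w, hw, hw2⟩ := h_LTC G n r hn z hz
  refine ⟨w, hw, fun T hT => ?_⟩
  have key : ∀ F : (Fin (n + 1) → G) → G → ℤ, AdmLG n (fun a y => (F a y : ℚ)) → CocFam n F →
      chv T n 0 F z = chv T n 0 F (asm w) := by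
    intro F hF hF2
    rw [chv_zero hT, chv_asm_zero hT F hF2, hw2 _ hF]
  refine ⟨?_, key⟩
  intro i F hF h
  rcases Nat.eq_zero_or_pos i with rfl | hi
  · refine key F (adm_zero n F hF fun S => ?_) hF.fam
    rcases h with h | h
    · obtain ⟨Q, iQ, π, s, hs, hQ⟩ := h S
      exact ⟨Q, iQ, π, s, hs, fun q hq => Or.inl (by rw [hQ q hq, map_one])⟩
    · refine ⟨G, inferInstance, MonoidHom.id G, id, ⟨fun g _ => rfl, fun g _ h _ _ => rfl⟩,
        fun q hq => ?_⟩
      by_cases h0 : ∀ a, F a q = 0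
      · exact Or.inr (Or.inr h0)
      · push Not at h0
        obtain ⟨a, ha⟩ := h0
        rcases h a q ha with h3 | h3 | ⟨h3, h4⟩
        · exact Or.inl h3
        · exact absurd hq h3
        · exact Or.inr (Or.inl ⟨by omega, h4⟩)
  · rw [chv_asm_pos hT hi F hF w]
    have h1 : AdmLC ℤ (n + 2 * i) (fun a y => (F a y : ℚ)) := by
      refine adm_pos (n + 2 * i) F hF fun S => ?_
      rcases h with h | h
      · obtain ⟨Q, iQ, π, s, hs, hQ⟩ := h S
        exact ⟨Q, iQ, π, s, hs, fun q hq => Or.inl (by rw [hQ q hq]; exact IsOfFinOrder.one)⟩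
      · refine ⟨G, inferInstance, MonoidHom.id G, id, ⟨fun g _ => rfl, fun g _ h _ _ => rfl⟩,
          fun q hq => ?_⟩
        by_cases h0 : ∀ a, F a q = 0
        · exact Or.inr h0
        · push Not at h0
          obtain ⟨a, ha⟩ := h0
          rcases h a q ha with h3 | h3 | ⟨-, h4⟩
          · exact Or.inl (by rw [h3]; exact IsOfFinOrder.one)
          · exact absurd hq h3
          · exact Or.inl h4
    have h2 := h_LTH T hT ℤ ℚ (algebraMap ℤ ℚ).injective_int G n i r hn hi z hz _ h1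
    simp only [Rat.cast_id] at h2
    exact h2

/-- Idempotent matrices. -/
theorem idem (G : Type) [Group G] (i r : ℕ) (hi : 1 ≤ i) (e : Matrix (Fin r) (Fin r) (MonoidAlgebra ℤ G))
    (he : e * e = e) (F : (Fin (2 * i + 1) → G) → G → ℤ) (hF : IntFam (2 * i) F)
    (h : LimOf NSDvb G ∨ ∀ a y, F a y ≠ 0 → ¬ SDvb y ∨ IsOfFinOrder y) :
    cvalS ℚ (fun a y => (F a y : ℚ)) (fun _ : Fin (2 * i + 1) => e) = 0 := by
  classical
  refine h_LTE ℤ ℚ (algebraMap ℤ ℚ).injective_int G i r hi e he _ (adm_pos (2 * i) F hF fun S => ?_)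
  rcases h with h | h
  · obtain ⟨Q, iQ, π, s, hs, hQ⟩ := h S
    exact ⟨Q, iQ, π, s, hs, fun q hq => Or.inl (by rw [hQ q hq]; exact IsOfFinOrder.one)⟩
  · refine ⟨G, inferInstance, MonoidHom.id G, id, ⟨fun g _ => rfl, fun g _ h _ _ => rfl⟩,
      fun q hq => ?_⟩
    by_cases h0 : ∀ a, F a q = 0
    · exact Or.inr h0
    · push Not at h0
      obtain ⟨a, ha⟩ := h0
      rcases h a q ha with h3 | h4
      · exact absurd hq h3
      · exact Or.inl h4

/-- Linear groups, characteristic zero: all integral cocycles. -/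
theorem lin_zero (G : Type) [Group G] (K : Type) [Field K] [CharZero K] (n N : ℕ)
    (ρ : G →* Matrix.GeneralLinearGroup (Fin N) K) (hρ : Function.Injective ρ)
    (F : (Fin (n + 1) → G) → G → ℤ) (hF : CocFam n F) : AdmLG n (fun a y => (F a y : ℚ)) :=
  t_LXA.2.1 G n _ (t_RCA.2 G n _ (h_LNK G K n N ρ hρ F hF))

end CHA

end Pool.Agent.FJA
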