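import Pool.Agent.FJA.SDefs
import Pool.Agent.FJA.Chains

/-!
# Chains

* `Hk.lift`: linear maps out of the homology of a group with trivial coefficients.
* `psi`: the map from the inhomogeneous chains to the homogeneous chains,
  `g ↦ (1, g₁, g₁g₂, …)`.
-/

set_option autoImplicit false
set_option linter.unusedSectionVars false

open Matrix Pool.Agent.WhK Pool.Agent.Lib25 CategoryTheory

noncomputable section

namespace Pool.Agent.FJA

/-! ## Homology of a group with trivial coefficients, for a commutative ring `k` -/

section Lift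

variable {k : Type} [CommRing k] {P Q : Type} [Group P] [Group Q]

/-- The trivial representation. -/
abbrev Tk (k : Type) [CommRing k] (P : Type) [Group P] : Rep k P := Rep.trivial k P k

/-- Inhomogeneous chains. -/
abbrev IC (k : Type) [CommRing k] (m : ℕ) (P : Type) : Type := (Fin m → P) →₀ k

/-- The boundary of inhomogeneous chains (version of Mathlib). -/
def dI0 (k : Type) [CommRing k] (m : ℕ) (P : Type) [Group P] :
    ((Fin (m + 1) → P) →₀ (Tk k P).V) →ₗ[k] ((Fin m → P) →₀ (Tk k P).V) :=
  (groupHomology.inhomogeneousChains.d (Tk k P) m).hom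

theorem dI0_single (m : ℕ) (g : Fin (m + 1) → P) (q : (Tk k P).V) :
    dI0 k m P (Finsupp.single g q) =
      Finsupp.single (fun i => g i.succ) ((Tk k P).ρ (g 0)⁻¹ q) +
      Finset.univ.sum fun j : Fin (m + 1) =>
        (-1 : k) ^ ((j : ℕ) + 1) • Finsupp.single (j.contractNth (· * ·) g) q :=
  groupHomology.inhomogeneousChains.d_single m g q

/-- The boundary of inhomogeneous chains. -/
def dI (k : Type) [CommRing k] (m : ℕ) (P : Type) [Group P] : IC k (m + 1) P →ₗ[k] IC k m P :=
  Finsupp.lsum k fun g => Finsupp.lsingle (fun i => g i.succ) +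
    ∑ j : Fin (m + 1), (-1 : k) ^ ((j : ℕ) + 1) • Finsupp.lsingle (j.contractNth (· * ·) g)

theorem dI_single (m : ℕ) (g : Fin (m + 1) → P) (q : k) :
    dI k m P (Finsupp.single g q) = Finsupp.single (fun i => g i.succ) q +
      ∑ j : Fin (m + 1), (-1 : k) ^ ((j : ℕ) + 1) • Finsupp.single (j.contractNth (· * ·) g) q := by
  unfold dI
  rw [Finsupp.lsum_single, LinearMap.add_apply, LinearMap.sum_apply]
  rfl

theorem dI0_eq (m : ℕ) : dI0 k m P = dI k m P := by
  refine Finsupp.lhom_ext fun g q => ?_
  rw [dI_single, dI0_single]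
  rfl

/-- The homology of a group with trivial coefficients. -/
abbrev Hk (k : Type) [CommRing k] (m : ℕ) (P : Type) [Group P] : ModuleCat k :=
  groupHomology (Tk k P) m

/-- The map induced by a homomorphism. -/
def Hk.map (k : Type) [CommRing k] (m : ℕ) (f : P →* Q) : Hk k m P →ₗ[k] Hk k m Q :=
  (groupHomology.map f (𝟙 (Tk k P)) m).hom

theorem HQ_map_eq (m : ℕ) (f : P →* Q) : HQ.map m f = Hk.map ℚ m f := rfl

/-- Inhomogeneous cycles. -/
abbrev ZC (k : Type) [CommRing k] (m : ℕ) (P : Type) [Group P] : ModuleCat k :=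
  groupHomology.cycles (Tk k P) m

/-- The chain underlying a cycle. -/
def ch (k : Type) [CommRing k] (m : ℕ) (P : Type) [Group P] : ZC k m P →ₗ[k] IC k m P :=
  (groupHomology.iCycles (Tk k P) m).hom

/-- The class of a cycle. -/
def cl (k : Type) [CommRing k] (m : ℕ) (P : Type) [Group P] : ZC k m P →ₗ[k] Hk k m P :=
  (groupHomology.π (Tk k P) m).hom

theorem exists_cl {m : ℕ} (c : Hk k m P) : ∃ x, cl k m P x = c := by
  induction c using groupHomology_induction_on with
  | h x => exact ⟨x, rfl⟩

theorem d_ch {m : ℕ} (x : ZC k (m + 1) P) : dI k m P (ch k (m + 1) P x) = 0 := by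
  have h1 := (groupHomology.inhomogeneousChains (Tk k P)).iCycles_d (m + 1) m
  have h2 := congrArg (fun f => f.hom x) h1
  rw [groupHomology.inhomogeneousChains.d_def] at h2
  have h3 : dI0 k m P (ch k (m + 1) P x) = 0 := h2
  rw [dI0_eq] at h3
  exact h3

/-- Every chain with boundary zero comes from a cycle. -/
theorem exists_ch {m : ℕ} (z : IC k (m + 1) P) (hz : dI k m P z = 0) :
    ∃ x, ch k (m + 1) P x = z := by
  have h1 : dI0 k m P z = 0 := by
    rw [dI0_eq]
    exact hz
  have h2 : ((groupHomology.inhomogeneousChains (Tk k P)).d (m + 1) m).hom z = 0 := by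
    rw [groupHomology.inhomogeneousChains.d_def]
    exact h1
  exact ⟨groupHomology.cyclesMk (m + 1) m (by simp) z h2,
    groupHomology.iCycles_mk _ _ _⟩

/-- The map induced on inhomogeneous chains. -/
def IC.map (k : Type) [CommRing k] (m : ℕ) (f : P → Q) : IC k m P →ₗ[k] IC k m Q :=
  Finsupp.lmapDomain k k (fun g => f ∘ g)

theorem IC.map_single (m : ℕ) (f : P → Q) (g : Fin m → P) (q : k) :
    IC.map k m f (Finsupp.single g q) = Finsupp.single (f ∘ g) q :=
  Finsupp.mapDomain_single

/-- The map induced on inhomogeneous chains (version of Mathlib). -/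
def cm0 (k : Type) [CommRing k] (m : ℕ) (f : P →* Q) :
    ((Fin m → P) →₀ (Tk k P).V) →ₗ[k] ((Fin m → Q) →₀ (Tk k Q).V) :=
  ((groupHomology.chainsMap (A := Tk k P) (B := Tk k Q) f (𝟙 (Tk k P))).f m).hom

theorem cm0_single (m : ℕ) (f : P →* Q) (g : Fin m → P) (q : (Tk k P).V) :
    cm0 k m f (Finsupp.single g q) = Finsupp.single (f ∘ g) q :=
  groupHomology.chainsMap_f_single (A := Tk k P) (B := Tk k Q) f (𝟙 (Tk k P)) m g q

theorem Hk.map_cl {m : ℕ} (f : P →* Q) (x : ZC k m P) :
    ∃ y, Hk.map k m f (cl k m P x) = cl k m Q y ∧ ch k m Q y = IC.map k m f (ch k m P x) := by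
  refine ⟨(groupHomology.cyclesMap (A := Tk k P) (B := Tk k Q) f (𝟙 (Tk k P)) m).hom x, ?_, ?_⟩
  · have h1 := groupHomology.π_map (A := Tk k P) (B := Tk k Q) f (𝟙 (Tk k P)) m
    exact congrArg (fun f => f.hom x) h1
  · have h1 := HomologicalComplex.cyclesMap_i
      (groupHomology.chainsMap (A := Tk k P) (B := Tk k Q) f (𝟙 (Tk k P))) m
    have h2 := congrArg (fun f => f.hom x) h1
    refine Eq.trans h2 ?_
    have h3 : cm0 k m f = IC.map k m f := by
      refine Finsupp.lhom_ext fun g q => ?_
      rw [cm0_single, IC.map_single]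
    exact LinearMap.congr_fun h3 _

section

variable {V : Type} [AddCommGroup V] [Module k V]

/-- Linear maps out of the homology. -/
def Hk.lift {m : ℕ} (Φ : IC k m P →ₗ[k] V) (h : ∀ y, Φ (dI k m P y) = 0) : Hk k m P →ₗ[k] V :=
  ((groupHomology.inhomogeneousChains (Tk k P)).homologyι m ≫
    (groupHomology.inhomogeneousChains (Tk k P)).descOpcycles (A := ModuleCat.of k V)
      (ModuleCat.ofHom Φ) (m + 1) (by simp) (by
        rw [groupHomology.inhomogeneousChains.d_def]
        apply ModuleCat.hom_ext
        have h1 : Φ ∘ₗ dI0 k m P = 0 := by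
          rw [dI0_eq]
          exact LinearMap.ext h
        exact h1)).hom

theorem Hk.lift_cl {m : ℕ} (Φ : IC k m P →ₗ[k] V) (h : ∀ y, Φ (dI k m P y) = 0) (x : ZC k m P) :
    Hk.lift Φ h (cl k m P x) = Φ (ch k m P x) := by
  have h1 : (groupHomology.inhomogeneousChains (Tk k P)).homologyπ m ≫
      (groupHomology.inhomogeneousChains (Tk k P)).homologyι m ≫
      (groupHomology.inhomogeneousChains (Tk k P)).descOpcycles (A := ModuleCat.of k V)
        (ModuleCat.ofHom Φ) (m + 1) (by simp) (by
          rw [groupHomology.inhomogeneousChains.d_def]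
          apply ModuleCat.hom_ext
          have h1 : Φ ∘ₗ dI0 k m P = 0 := by
            rw [dI0_eq]
            exact LinearMap.ext h
          exact h1) =
      (groupHomology.inhomogeneousChains (Tk k P)).iCycles m ≫ ModuleCat.ofHom Φ := by
    rw [HomologicalComplex.homology_π_ι_assoc, HomologicalComplex.p_descOpcycles]
  exact congrArg (fun f => f.hom x) h1

end

/-- Two cycles which differ by a boundary have the same class, and conversely. -/
theorem cl_eq_zero_iff {m : ℕ} (x : ZC k m P) :
    cl k m P x = 0 ↔ ∃ y : IC k (m + 1) P, ch k m P x = dI k m P y := by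
  constructor
  · intro h
    have h1 := Hk.lift_cl (LinearMap.range (dI k m P)).mkQ (fun y => by
      rw [Submodule.mkQ_apply, Submodule.Quotient.mk_eq_zero]
      exact LinearMap.mem_range_self _ _) x
    rw [h, map_zero, Submodule.mkQ_apply, eq_comm, Submodule.Quotient.mk_eq_zero] at h1
    obtain ⟨y, hy⟩ := h1
    exact ⟨y, hy.symm⟩
  · rintro ⟨y, hy⟩
    let K := groupHomology.inhomogeneousChains (Tk k P)
    have h1 : K.iCycles m ((K.toCycles (m + 1) m) y) = K.iCycles m x := by
      have h2 := congrArg (fun f => f.hom y) (K.toCycles_i (m + 1) m)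
      refine Eq.trans h2 ?_
      rw [groupHomology.inhomogeneousChains.d_def]
      refine Eq.trans ?_ hy.symm
      exact LinearMap.congr_fun (dI0_eq (k := k) (P := P) m) y
    have h3 : (K.toCycles (m + 1) m) y = x :=
      (ModuleCat.mono_iff_injective (K.iCycles m)).1 inferInstance h1
    rw [← h3]
    exact congrArg (fun f => f.hom y) (K.toCycles_comp_homologyπ (m + 1) m)

/-! ## Homogeneous chains -/

theorem bd_single (m : ℕ) (V : Type) (X : Fin (m + 1) → V) (q : k) :
    bd k V m (Finsupp.single X q) =
      ∑ i : Fin (m + 1), (-1 : k) ^ (i : ℕ) • Finsupp.single (fun j => X (i.succAbove j)) q := by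
  unfold bd
  rw [Finsupp.linearCombination_single, Finset.smul_sum]
  refine Finset.sum_congr rfl fun i _ => ?_
  rw [Finsupp.smul_single, Finsupp.smul_single, smul_eq_mul, smul_eq_mul, mul_comm]

theorem hdeg_mem (m : ℕ) (g : P) (X : Fin (m + 1) → P) (q : k) :
    Finsupp.single (fun i => g * X i) q - Finsupp.single X q ∈ hdeg k P m := by
  have h1 : (Finsupp.single (fun i => g * X i) q - Finsupp.single X q : HCh k P m) =
      q • (Finsupp.single (fun i => g * X i) 1 - Finsupp.single X 1) := by
    rw [smul_sub, Finsupp.smul_single, Finsupp.smul_single, smul_eq_mul, mul_one]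
  rw [h1]
  exact Submodule.smul_mem _ _ (Submodule.subset_span ⟨g, X, rfl⟩)

/-- The map from the inhomogeneous chains to the homogeneous chains. -/
def psi (k : Type) [CommRing k] (m : ℕ) (P : Type) [Group P] : IC k m P →ₗ[k] HCh k P m :=
  Finsupp.lmapDomain k k Fin.partialProd

theorem psi_single (m : ℕ) (g : Fin m → P) (q : k) :
    psi k m P (Finsupp.single g q) = Finsupp.single (Fin.partialProd g) q :=
  Finsupp.mapDomain_single

theorem psi_d (m : ℕ) (y : IC k (m + 1) P) :
    bd k P (m + 1) (psi k (m + 1) P y) - psi k m P (dI k m P y) ∈ hdeg k P m := by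
  induction y using Finsupp.induction_linear with
  | zero =>
    rw [map_zero, map_zero, map_zero, map_zero, sub_zero]
    exact Submodule.zero_mem _
  | add f g hf hg =>
    rw [map_add, map_add, map_add, map_add, add_sub_add_comm]
    exact Submodule.add_mem _ hf hg
  | single g q =>
    rw [psi_single, bd_single, dI_single, Fin.sum_univ_succ, map_add, map_sum]
    have h1 : ∀ j : Fin (m + 1), psi k m P ((-1 : k) ^ ((j : ℕ) + 1) •
        Finsupp.single (j.contractNth (· * ·) g) q) = (-1 : k) ^ ((j.succ : Fin (m + 2)) : ℕ) •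
        Finsupp.single (fun i => Fin.partialProd g (j.succ.succAbove i)) q := by
      intro j
      rw [map_smul, psi_single, Fin.partialProd_contractNth, Fin.val_succ]
      rfl
    rw [Finset.sum_congr rfl (fun j _ => h1 j), psi_single, add_sub_add_right_eq_sub]
    have h2 : (fun j => Fin.partialProd g ((0 : Fin (m + 2)).succAbove j)) =
        fun j => g 0 * Fin.partialProd (fun i => g i.succ) j := by
      funext j
      rw [Fin.zero_succAbove, Fin.partialProd_succ']
      rfl
    rw [h2, Fin.val_zero, pow_zero, one_smul]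
    exact hdeg_mem m _ _ q

/-- Cycles give cycles. -/
theorem psi_ch_mem (m : ℕ) (x : ZC k (m + 1) P) :
    psi k (m + 1) P (ch k (m + 1) P x) ∈ cyc k P (m + 1) := by
  have h1 := psi_d m (ch k (m + 1) P x)
  rw [d_ch, map_zero, sub_zero] at h1
  exact h1

/-- The map induced by a homomorphism on homogeneous chains. -/
theorem psi_map (m : ℕ) (f : P →* Q) (z : IC k m P) :
    psi k m Q (IC.map k m f z) = hmap k f (m + 1) (psi k m P z) := by
  induction z using Finsupp.induction_linear with
  | zero => simp only [map_zero]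
  | add f g hf hg => simp only [map_add, hf, hg]
  | single g q =>
    rw [IC.map_single, psi_single, psi_single]
    unfold hmap
    refine Eq.trans ?_ (Finsupp.mapDomain_single).symm
    congr 1
    funext i
    induction i using Fin.induction with
    | zero => simp
    | succ i ih => rw [Fin.partialProd_succ, ih, Fin.partialProd_succ, map_mul]; rfl

/-! ## The retraction -/

/-- The successive quotients of a tuple. -/
def quo {m : ℕ} (X : Fin (m + 1) → P) : Fin m → P := fun i => (X i.castSucc)⁻¹ * X i.succ

theorem quo_mul {m : ℕ} (g : P) (X : Fin (m + 1) → P) : quo (fun i => g * X i) = quo X := by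
  funext i
  unfold quo
  group

theorem quo_partialProd {m : ℕ} (g : Fin m → P) : quo (Fin.partialProd g) = g := by
  funext i
  exact Fin.partialProd_right_inv g i

theorem eq_mul_partialProd {m : ℕ} (X : Fin (m + 1) → P) :
    X = fun i => X 0 * Fin.partialProd (quo X) i := by
  have h2 := Fin.partialProd_left_inv X
  funext i
  exact (congrFun h2 i).symm

/-- The map from the homogeneous chains to the inhomogeneous chains. -/
def phi (k : Type) [CommRing k] (m : ℕ) (P : Type) [Group P] : HCh k P m →ₗ[k] IC k m P :=
  Finsupp.lmapDomain k k quo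

theorem phi_single (m : ℕ) (X : Fin (m + 1) → P) (q : k) :
    phi k m P (Finsupp.single X q) = Finsupp.single (quo X) q :=
  Finsupp.mapDomain_single

theorem phi_psi (m : ℕ) (z : IC k m P) : phi k m P (psi k m P z) = z := by
  induction z using Finsupp.induction_linear with
  | zero => simp only [map_zero]
  | add f g hf hg => simp only [map_add, hf, hg]
  | single g q => rw [psi_single, phi_single, quo_partialProd]

theorem phi_hdeg (m : ℕ) {w : HCh k P m} (hw : w ∈ hdeg k P m) : phi k m P w = 0 := by
  have h1 : hdeg k P m ≤ LinearMap.ker (phi k m P) := by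
    unfold hdeg
    rw [Submodule.span_le]
    rintro x ⟨g, X, rfl⟩
    change phi k m P _ = 0
    rw [map_sub, phi_single, phi_single, quo_mul, sub_self]
  exact h1 hw

theorem phi_bd (m : ℕ) (w : HCh k P (m + 1)) :
    phi k m P (bd k P (m + 1) w) = dI k m P (phi k (m + 1) P w) := by
  induction w using Finsupp.induction_linear with
  | zero => simp only [map_zero]
  | add f g hf hg => simp only [map_add, hf, hg]
  | single X q =>
    rw [bd_single, phi_single, map_sum, dI_single]
    simp only [map_smul, phi_single]
    have h1 := eq_mul_partialProd X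
    have h3 : ∀ i : Fin (m + 2), quo (fun j => X (i.succAbove j)) =
        quo (fun j => Fin.partialProd (quo X) (i.succAbove j)) := by
      intro i
      conv_lhs => rw [h1]
      exact quo_mul (X 0) _
    simp only [h3]
    generalize quo X = g
    rw [Fin.sum_univ_succ]
    congr 1
    · rw [Fin.val_zero, pow_zero, one_smul]
      congr 1
      have h5 : (fun j => Fin.partialProd g ((0 : Fin (m + 2)).succAbove j)) =
          fun j => g 0 * Fin.partialProd (fun i => g i.succ) j := by
        funext j
        rw [Fin.zero_succAbove, Fin.partialProd_succ']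
        rfl
      rw [h5, quo_mul, quo_partialProd]
    · refine Finset.sum_congr rfl fun j _ => ?_
      have h6 : (fun i => Fin.partialProd g (j.succ.succAbove i)) =
          Fin.partialProd (j.contractNth (· * ·) g) := (Fin.partialProd_contractNth g j).symm
      rw [h6, quo_partialProd, Fin.val_succ]

/-- A class vanishes if it is represented by a homogeneous boundary. -/
theorem cl_eq_zero_of_bnd {m : ℕ} (x : ZC k m P) (h : psi k m P (ch k m P x) ∈ bnd k P m) :
    cl k m P x = 0 := by
  obtain ⟨a, ha, b, ⟨y, rfl⟩, hab⟩ := Submodule.mem_sup.1 h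
  rw [cl_eq_zero_iff]
  refine ⟨phi k (m + 1) P y, ?_⟩
  have h1 := congrArg (phi k m P) hab
  rw [map_add, phi_hdeg m ha, zero_add, phi_bd, phi_psi] at h1
  exact h1.symm

theorem hmap_hdeg (m : ℕ) (f : P →* Q) {w : HCh k P m} (hw : w ∈ hdeg k P m) :
    hmap k f (m + 1) w ∈ hdeg k Q m := by
  have h1 : hdeg k P m ≤ (hdeg k Q m).comap (hmap k f (m + 1)) := by
    unfold hdeg
    rw [Submodule.span_le]
    rintro x ⟨g, X, rfl⟩
    refine Submodule.subset_span ⟨f g, fun i => f (X i), ?_⟩
    unfold hmap
    rw [map_sub]
    refine congrArg₂ _ (Finsupp.mapDomain_single.trans ?_) Finsupp.mapDomain_single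
    congr 1
    funext i
    exact map_mul f _ _
  exact h1 hw

/-! ## Cochains -/

/-- The pairing of a chain and a cochain. -/
def pair {V : Type} {m : ℕ} (F : (Fin m → V) → k) : ((Fin m → V) →₀ k) →ₗ[k] k :=
  Finsupp.linearCombination k F

theorem pair_single {V : Type} {m : ℕ} (F : (Fin m → V) → k) (X : Fin m → V) (q : k) :
    pair F (Finsupp.single X q) = q * F X := by
  unfold pair
  rw [Finsupp.linearCombination_single, smul_eq_mul]

theorem pair_quo {m : ℕ} (f : (Fin m → P) → k) (w : HCh k P m) :
    pair (fun X => f (quo X)) w = pair f (phi k m P w) := by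
  induction w using Finsupp.induction_linear with
  | zero => simp only [map_zero]
  | add f g hf hg => simp only [map_add, hf, hg]
  | single g q => rw [phi_single, pair_single, pair_single]

/-- The homogeneous cochain of a cocycle is a cocycle. -/
theorem quo_coc {m : ℕ} (f : (Fin m → P) → k) (hf : ∀ y, pair f (dI k m P y) = 0)
    (X : Fin (m + 2) → P) :
    ∑ i : Fin (m + 2), (-1 : k) ^ (i : ℕ) * f (quo fun j => X (i.succAbove j)) = 0 := by
  have h1 := hf (phi k (m + 1) P (Finsupp.single X 1))
  rw [← phi_bd, ← pair_quo, bd_single, map_sum] at h1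
  rw [← h1]
  refine Finset.sum_congr rfl fun i _ => ?_
  rw [map_smul, pair_single, one_mul, smul_eq_mul]

end Lift

end Pool.Agent.FJA
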