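import Pool.Agent.FJA.Core2
import Pool.Agent.FJA.Chain
import Pool.Agent.Lib_helper25.Class0
import Pool.Agent.Lib_helper25.H2.Theta2

/-!
# Definitions for the block 3
-/

set_option autoImplicit false

open Matrix Pool.Agent.WhK Pool.Agent.Lib25

noncomputable section

namespace Pool.Agent.FJA

/-! ## Chains over group algebras -/

/-- Formal rational combinations of `M`-tuples of invertible matrices over `k[Γ]`. -/
abbrev KCh (k : Type) [Field k] (Γ : Type) [Group Γ] (M : ℕ) : Type :=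
  (Σ r : ℕ, (Fin M → (Matrix (Fin r) (Fin r) (MonoidAlgebra k Γ))ˣ)) →₀ ℚ

/-- The inclusion of the tuples of matrices of size `r`. -/
def kinK (k : Type) [Field k] (Γ : Type) [Group Γ] (M r : ℕ) :
    ((Fin M → (Matrix (Fin r) (Fin r) (MonoidAlgebra k Γ))ˣ) →₀ ℚ) →ₗ[ℚ] KCh k Γ M :=
  Finsupp.lmapDomain ℚ ℚ fun X => ⟨r, X⟩

/-- The boundary. -/
def bdK (k : Type) [Field k] (Γ : Type) [Group Γ] (M : ℕ) : KCh k Γ (M + 1) →ₗ[ℚ] KCh k Γ M :=
  Finsupp.linearCombination ℚ fun x =>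
    ∑ i : Fin (M + 1), Finsupp.single ⟨x.1, fun t => x.2 (i.succAbove t)⟩ ((-1 : ℚ) ^ (i : ℕ))

/-- The functional defined by a function on recorded paths. -/
def TK (k : Type) [Field k] [CharZero k] {Γ : Type} [Group Γ] {M : ℕ} (φ : Rec Γ (Fin M) → ℚ)
    (N : ℕ) : KCh k Γ M →ₗ[ℚ] k :=
  Finsupp.linearCombination ℚ fun x => TX φ N x.2

/-- The map of chains induced by `cvt`. -/
def cvS (k : Type) [Field k] (G : Type) [Group G] (M : ℕ) :
    SCh (LaurentPolynomial (MonoidAlgebra ℤ G)) M →ₗ[ℚ] KCh k (G × Multiplicative ℤ) M :=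
  Finsupp.lmapDomain ℚ ℚ fun x => ⟨x.1, fun i => cvt k x.1 (x.2 i)⟩

/-- Change of fields. -/
def mapU {k k' : Type} [Field k] [Field k'] (f : k →+* k') {Γ : Type} [Group Γ] {ι : Type}
    [Fintype ι] [DecidableEq ι] :
    (Matrix ι ι (MonoidAlgebra k Γ))ˣ →* (Matrix ι ι (MonoidAlgebra k' Γ))ˣ :=
  Units.map ((MonoidAlgebra.mapRingHom Γ f).mapMatrix :
    Matrix ι ι (MonoidAlgebra k Γ) →+* Matrix ι ι (MonoidAlgebra k' Γ)).toMonoidHom

/-! ## The data of a relation -/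

/-- A formal combination `∑ j ∈ s, q j [p j, φ j, w j]`: prime divisors `p j` of `N j`, embeddings
`φ j : C_(N j) → G` and cycles `w j` of the centraliser of the image of the generator. -/
structure Dat (G : Type) [Group G] (n : ℕ) where
  J : Type
  s : Finset J
  q : J → ℚ
  p : J → ℕ
  N : J → ℕ
  pos : ∀ j, NeZero (N j)
  prime : ∀ j, Fact (p j).Prime
  dvd : ∀ j, p j ∣ N j
  φ : ∀ j, Cyc (N j) →* G
  inj : ∀ j, Function.Injective (φ j)
  w : ∀ j, (Fin (n + 2) → Cen (φ j (gen (N j)))) →₀ ℚ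
  mem : ∀ j, w j ∈ cyc ℚ (Cen (φ j (gen (N j)))) (n + 1)

attribute [instance] Dat.pos Dat.prime

variable {G : Type} [Group G] {n : ℕ}

/-- The chain over `ℤ[G][t,t⁻¹]` attached to the data and to the idempotents `e`. -/
def Dat.ch (D : Dat G n)
    (e : ∀ j, IdemMat (LaurentPolynomial (MonoidAlgebra ℤ (Cyc (D.N j))))) :
    SCh (LaurentPolynomial (MonoidAlgebra ℤ G)) (n + 2) :=
  ∑ j ∈ D.s, D.q j • kinS (LaurentPolynomial (MonoidAlgebra ℤ G)) (n + 2) (e j).n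
    (hmap ℚ (fun z => rhoC (e j) (D.φ j) z) (n + 2) (D.w j))

/-- The chain `b + ∑ q_j DX_j` over `k[G × Z']`. -/
def BT (k : Type) [Field k] (D : Dat G n)
    (e : ∀ j, IdemMat (LaurentPolynomial (MonoidAlgebra ℤ (Cyc (D.N j)))))
    (b : SCh (LaurentPolynomial (MonoidAlgebra ℤ G)) (n + 3))
    (T : ∀ j, (Matrix (Fin (e j).n) (Fin (e j).n)
      (MonoidAlgebra k (Cyc (D.N j) × Multiplicative ℤ)))ˣ) :
    KCh k (G × Multiplicative ℤ) (n + 3) :=
  cvS k G (n + 3) b +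
    ∑ j ∈ D.s, D.q j • kinK k _ (n + 3) (e j).n (DX (e j) (D.φ j) (T j) (D.w j))

/-- The functional `Q` of the relation theorem. -/
def QB (D : Dat G n) (e : ∀ j, IdemMat (LaurentPolynomial (MonoidAlgebra ℤ (Cyc (D.N j)))))
    (b : SCh (LaurentPolynomial (MonoidAlgebra ℤ G)) (n + 3))
    (T : ∀ j, (Matrix (Fin (e j).n) (Fin (e j).n)
      (MonoidAlgebra ℚ (Cyc (D.N j) × Multiplicative ℤ)))ˣ)
    (F : (Fin (n + 2) → G) → G → ℚ) : ℚ :=
  (-1 : ℚ) ^ (n + 1) * TK ℚ (fst (cup F)) 1 (BT ℚ D e b T)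

/-- The properties of the functional `Q` of the relation theorem for the elements of order `n0`. -/
structure QF (D : Dat G n) (v : ∀ (j : D.J) (p : ℕ), [Fact p.Prime] → Cyc (D.N j) → ℚ_[p])
    (n0 : ℕ) (Q : ((Fin (n + 2) → G) → G → ℚ) → ℚ) : Prop where
  add : ∀ F F' : (Fin (n + 2) → G) → G → ℚ, Q (fun a y => F a y + F' a y) = Q F + Q F'
  smul : ∀ (c : ℚ) (F : (Fin (n + 2) → G) → G → ℚ), Q (fun a y => c * F a y) = c * Q F
  loc : ∀ F : (Fin (n + 2) → G) → G → ℚ, GCoch (n + 1) (fun y => orderOf y = n0) F →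
    ∀ (p : ℕ) [Fact p.Prime], p ∣ n0 →
      ∑ j ∈ D.s, (D.q j : ℚ_[p]) * ∑ c : Cyc (D.N j), v j p c *
        ((evc (fun z : Cen (D.φ j (gen (D.N j))) => (z : G)) F (D.w j) (D.φ j c) : ℚ) : ℚ_[p]) =
      ((Q F : ℚ) : ℚ_[p])
  gal : ∀ F : (Fin (n + 2) → G) → G → ℚ, GCoch (n + 1) (fun y => orderOf y = n0) F →
    ∀ a : ℕ, a.Coprime n0 → Q (twF n0 a F) = Q F

/-! ## The idempotents -/

open scoped Classical in
/-- The properties of the family `ε` of idempotent matrices. -/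
structure NodeD (ε : ∀ N : ℕ, ℕ → IdemMat (LaurentPolynomial (MonoidAlgebra ℤ (Cyc N))))
    (v : ∀ (N : ℕ) (_ : ℕ) (q : ℕ), [Fact q.Prime] → Cyc N → ℚ_[q]) (K : ℕ → ℕ) : Prop where
  pos : ∀ N : ℕ, 0 < K N
  loc : ∀ (N p : ℕ) [NeZero N] [Fact p.Prime], p ∣ N → LocE (ε N p) (fun q _ => v N p q)
  away : ∀ (N p : ℕ) [NeZero N] [Fact p.Prime], p ∣ N → ∀ (q : ℕ) [Fact q.Prime], q ≠ p →
    ∀ c : Cyc N, v N p q c = 0
  top : ∀ (N p : ℕ) [NeZero N] [Fact p.Prime], p ∣ N → ∀ c : Cyc N, Subgroup.zpowers c ≠ ⊤ →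
    v N p p c = 0
  cls : ∀ (N p : ℕ) [NeZero N] [Fact p.Prime], p ∣ N → ∀ (Y : (ZMod N)ˣ → ℚ) (y : ℚ),
    ∑ u : (ZMod N)ˣ, v N p p (Multiplicative.ofAdd (u : ZMod N)) * (Y u : ℚ_[p]) = (y : ℚ_[p]) →
    ∀ z : (ZMod N)ˣ, (K N : ℚ) * ∑ u ∈ Finset.univ.filter (fun u => uRel N p u z), Y u =
      y * ((Finset.univ.filter (fun u => uRel N p u z)).card : ℚ)

/-! ## Families of cocycles -/

/-- The families `L p` of cocycles, `p` prime, which satisfy on cycles the relations dual to the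
relations between the symbols. -/
structure FamC (n : ℕ) (L : ℕ → (Fin (n + 2) → G) → G → ℚ) : Prop where
  gc : ∀ (p : ℕ), p.Prime → GCoch (n + 1) (fun y => IsOfFinOrder y ∧ p ∣ orderOf y) (L p)
  frob : ∀ (p : ℕ), p.Prime → ∀ (h h' : G) (j k : ℕ), IsOfFinOrder h → p ∣ orderOf h →
    h' ∈ Subgroup.zpowers h → h ∈ Subgroup.zpowers h' → h ^ p ^ j = h' ^ p ^ k →
    ∀ w ∈ cyc ℚ (Cen h) (n + 1),
      evc (fun z : Cen h => (z : G)) (L p) w h' = evc (fun z : Cen h => (z : G)) (L p) w h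
  sum : ∀ h : G, IsOfFinOrder h → ∀ w ∈ cyc ℚ (Cen h) (n + 1),
    ∑ p ∈ (orderOf h).primeFactors,
      ∑ a ∈ (Finset.range (orderOf h)).filter (fun a => a.Coprime (orderOf h)),
        evc (fun z : Cen h => (z : G)) (L p) w (h ^ a) = 0

/-- A positive multiple of the linear functional `lam` on `H_(n+1)(P; ℚ)` is represented by an
integral inhomogeneous cocycle. -/
def DenL (n : ℕ) {P : Type} [Group P] (lam : Hk ℚ (n + 1) P →ₗ[ℚ] ℚ) : Prop :=
  ∃ (D : ℕ) (f : (Fin (n + 1) → P) → ℤ), 0 < D ∧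
    (∀ y : IC ℚ (n + 2) P, pair (fun g => (f g : ℚ)) (dI ℚ (n + 1) P y) = 0) ∧
    ∀ x : ZC ℚ (n + 1) P, (D : ℚ) * lam (cl ℚ (n + 1) P x) =
      pair (fun g => (f g : ℚ)) (ch ℚ (n + 1) P x)

/-- Families of linear functionals on the homology groups `H_(n+1)(Z_G(h); ℚ)` which satisfy the
relations dual to the relations between the symbols and are supported on the conjugacy classes of the
elements of `T`. -/
structure FamL (n : ℕ) (T : Finset G) (Lam : ∀ (_ : ℕ) (h : G), Hk ℚ (n + 1) (Cen h) →ₗ[ℚ] ℚ) :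
    Prop where
  adm : ∀ (p : ℕ) (h : G), ¬ Adm p h → Lam p h = 0
  supp : ∀ (p : ℕ) (h : G), Lam p h ≠ 0 → ∃ t ∈ T, ∃ x : G, h = x * t * x⁻¹
  conj : ∀ (p : ℕ) (h x : G) (c : Hk ℚ (n + 1) (Cen h)),
    Lam p (x * h * x⁻¹) (Hk.map ℚ (n + 1) (cHom x (cHom_conj x h)) c) = Lam p h c
  frob : ∀ (p : ℕ) (h h' : G) (hh : h' ∈ Subgroup.zpowers h) (j k : ℕ)
    (c : Hk ℚ (n + 1) (Cen h)), Adm p h → h ∈ Subgroup.zpowers h' → h ^ p ^ j = h' ^ p ^ k →
    Lam p h' (Hk.map ℚ (n + 1) (cHom 1 (cHom_pow h hh)) c) = Lam p h c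
  sum : ∀ (h : G) (c : Hk ℚ (n + 1) (Cen h)), IsOfFinOrder h →
    ∑ p ∈ (orderOf h).primeFactors,
      ∑ a ∈ (Finset.range (orderOf h)).filter (fun a => a.Coprime (orderOf h)),
        Lam p (h ^ a) (Hk.map ℚ (n + 1) (cHom 1 (cHom_pow h (Subgroup.pow_mem _
          (Subgroup.mem_zpowers h) a))) c) = 0

end Pool.Agent.FJA
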