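import Pool.Agent.FJA.St5

/-!
# Phase 3: without a bound on the torsion, definitions

A *vertex* is a pair `(Y, y)`, `Y` a nonempty list of elements of the group `Γ`, `y ∈ Γ` of finite order.
The list is extended periodically: `Y (e + n) = y * Y e`, `n = Y.length`, `e ∈ ℤ`.  The rotation of
`(Y, y)` is `(rotL y Y, y)`: `(rotL y Y) e = Y (e + 1)`.
-/

set_option autoImplicit false

open Matrix Pool.Agent.WhK Pool.Agent.Lib25

noncomputable section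

namespace Pool.Agent.FJA

section

variable {Γ : Type} [Group Γ]

/-- The rotation of a list with respect to `y`. -/
def rotL (y : Γ) : List Γ → List Γ
  | [] => []
  | a :: Y => Y ++ [y * a]

/-- `δ` maps the rotation of `(Y, y)` by `e` steps to `(Y, y)`. -/
def Stb (Y : List Γ) (y δ : Γ) (e : ℕ) : Prop :=
  δ * y = y * δ ∧ ((rotL y)^[e] Y).map (δ * ·) = Y

/-- The stabilisers of `(Y, y)` have exponent dividing `m`. -/
def Good (m : ℕ) (Y : List Γ) (y : Γ) : Prop := ∀ (δ : Γ) (e : ℕ), Stb Y y δ e → δ ^ m = 1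

/-- The periods of `(Y, y)` are divisible by `d`. -/
def GoodP (d : ℕ) (Y : List Γ) (y : Γ) : Prop := ∀ (δ : Γ) (e : ℕ), Stb Y y δ e → d ∣ e

/-- The quotients of consecutive elements of the extended list `Y` are in `L`. -/
def Inc (L : Finset Γ) (Y : List Γ) (y : Γ) : Prop :=
  ∀ e : ℕ, (((rotL y)^[e] Y).headD 1)⁻¹ * ((rotL y)^[e + 1] Y).headD 1 ∈ L

/-- `Pt Y y` is a finite set of elements `y ^ t * a`, `a ∈ Y`, which is an orbit (from the left) of the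
cyclic group generated by `dl Y y`, and this cyclic group is the group of the `δ` with
`Stb Y y δ e` for some `e`; both are invariant under `Γ` and under the rotation. -/
structure Pnt (Pt : List Γ → Γ → Finset Γ) (dl : List Γ → Γ → Γ) : Prop where
  nil : ∀ y, Pt [] y = ∅
  ne : ∀ Y y, Y ≠ [] → IsOfFinOrder y → (Pt Y y).Nonempty
  supp : ∀ Y y, Y ≠ [] → IsOfFinOrder y → ∀ x ∈ Pt Y y, ∃ (t : ℤ), ∃ a ∈ Y, x = y ^ t * a
  inv : ∀ (γ : Γ) Y y, Y ≠ [] → IsOfFinOrder y → ∀ x,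
    γ * x ∈ Pt (Y.map (γ * ·)) (γ * y * γ⁻¹) ↔ x ∈ Pt Y y
  rot : ∀ Y y, Y ≠ [] → IsOfFinOrder y → Pt (rotL y Y) y = Pt Y y
  dinv : ∀ (γ : Γ) Y y, Y ≠ [] → IsOfFinOrder y →
    dl (Y.map (γ * ·)) (γ * y * γ⁻¹) = γ * dl Y y * γ⁻¹
  drot : ∀ Y y, Y ≠ [] → IsOfFinOrder y → dl (rotL y Y) y = dl Y y
  stb : ∀ Y y, Y ≠ [] → IsOfFinOrder y → ∃ e : ℕ, Stb Y y (dl Y y) e
  gen : ∀ Y y, Y ≠ [] → IsOfFinOrder y → ∀ (δ : Γ) (e : ℕ), Stb Y y δ e →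
    ∃ t : ℕ, δ = dl Y y ^ t
  fin : ∀ Y y, Y ≠ [] → IsOfFinOrder y → IsOfFinOrder (dl Y y)
  card : ∀ Y y, Y ≠ [] → IsOfFinOrder y → (Pt Y y).card = orderOf (dl Y y)
  orb : ∀ Y y, Y ≠ [] → IsOfFinOrder y → ∀ x ∈ Pt Y y, dl Y y * x ∈ Pt Y y
  trans : ∀ Y y, Y ≠ [] → IsOfFinOrder y → ∀ x ∈ Pt Y y, ∀ x' ∈ Pt Y y,
    ∃ t : ℕ, x' = dl Y y ^ t * x

/-- The average over `Pt Y y`. -/
def avS (Pt : List Γ → Γ → Finset Γ) (Y : List Γ) (y : Γ) : Γ →₀ ℚ :=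
  ∑ x ∈ Pt Y y, Finsupp.single x (1 / ((Pt Y y).card : ℚ))

/-- The section `s` is invariant under rotations. -/
def RotS (s : List Γ → Γ → (Γ →₀ ℚ)) : Prop :=
  ∀ (a : Γ) (Y : List Γ) (y : Γ), IsOfFinOrder y → s (Y ++ [y * a]) y = s (a :: Y) y

/-- The family `F` of cocycles of degree `m`, evaluated at the averages. -/
def mA (Pt : List Γ → Γ → Finset Γ) {m : ℕ} (F : (Fin m → Γ) → Γ → ℚ) (Y : Fin m → List Γ)
    (y : Γ) : ℚ :=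
  mex (fun a => F a y) (fun i => avS Pt (Y i) y)

/-- A strict cochain `L` which reduces the denominators of `mA Pt F` to `D * mm`. -/
structure StrL (Pt : List Γ → Γ → Finset Γ) (mm D : ℕ) {m : ℕ} (F : (Fin (m + 1) → Γ) → Γ → ℚ)
    (L : (Fin m → List Γ) → Γ → ℚ) : Prop where
  inv : ∀ (γ : Γ) (Y : Fin m → List Γ) (y : Γ),
    L (fun i => (Y i).map (γ * ·)) (γ * y * γ⁻¹) = L Y y
  rot : ∀ (Y : Fin m → List Γ) (y : Γ), (∀ i, Y i ≠ []) → IsOfFinOrder y →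
    L (fun i => rotL y (Y i)) y = L Y y
  supp : ∀ (Y : Fin m → List Γ) (y : Γ), L Y y ≠ 0 →
    (∀ i, Y i ≠ []) ∧ ∃ a : Fin (m + 1) → Γ, F a y ≠ 0
  int : ∀ (Y : Fin (m + 1) → List Γ) (y : Γ), (∀ i, Y i ≠ []) → IsOfFinOrder y →
    (∀ i, Good mm (Y i) y) →
    ∃ z : ℤ, ((D * mm : ℕ) : ℚ) * (mA Pt F Y y -
      ∑ i : Fin (m + 1), (-1 : ℚ) ^ (i : ℕ) * L (fun j => Y (i.succAbove j)) y) = z

end

/-- The reduction of the denominators in degree `m`. -/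
def DNP (m : ℕ) : Prop := ∀ (Γ : Type) [Group Γ] (Pt : List Γ → Γ → Finset Γ)
    (dl : List Γ → Γ → Γ), Pnt Pt dl → ∀ (S : Γ → Prop) (F : (Fin (m + 1) → Γ) → Γ → ℚ),
    (∀ y, S y → IsOfFinOrder y) → GCoch m S F →
    ∃ D : ℕ, 0 < D ∧ ∀ mm : ℕ, 0 < mm → ∃ L : (Fin m → List Γ) → Γ → ℚ, StrL Pt mm D F L

/-- The reduction of the denominators for `cup F`, in terms of recorded paths. -/
def CULP (m : ℕ) : Prop := ∀ (G : Type) [Group G]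
    (Pt : List (G × Multiplicative ℤ) → G × Multiplicative ℤ → Finset (G × Multiplicative ℤ))
    (dl : List (G × Multiplicative ℤ) → G × Multiplicative ℤ → G × Multiplicative ℤ), Pnt Pt dl →
    ∀ (S : G → Prop) (F : (Fin (m + 1) → G) → G → ℚ), (∀ y, S y → IsOfFinOrder y) → GCoch m S F →
    ∃ D : ℕ, 0 < D ∧ ∀ mm : ℕ, 0 < mm →
      ∃ L : Rec (G × Multiplicative ℤ) (Fin (m + 1)) → ℚ, NullFun (sg2 G) L ∧
        (∀ μ ∈ Bal (G × Multiplicative ℤ) (Fin (m + 1)),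
          ∀ ν ∈ Bal (G × Multiplicative ℤ) (Fin (m + 1)), L (μ * ν) = L (ν * μ)) ∧
        (∀ μ, L μ ≠ 0 → ∃ a, cup F a μ.val ≠ 0) ∧
        ∀ μ : Rec (G × Multiplicative ℤ) (Fin (m + 2)), (∀ i, μ.lst i ≠ []) →
          (∀ i, Good mm (μ.lst i) μ.val) →
          ∃ z : ℤ, ((D * mm : ℕ) : ℚ) * (evs (cup F) (avS Pt) μ - cobR L μ) = z

/-- The `ℓ`-adic theorem for the families `cup F`, `F` of degree `n + 1`. -/
def Pdg (G : Type) [Group G] (n : ℕ) : Prop := ∀ (n0 : ℕ), 0 < n0 → ∀ (ℓ : ℕ) [Fact ℓ.Prime]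
    (F : (Fin (n + 2) → G) → G → ℚ), GCoch (n + 1) (fun y => y ^ n0 = 1) F →
    ∀ B : KCh ℚ_[ℓ] (G × Multiplicative ℤ) (n + 3), (∀ x ∈ B.support, ∀ i, NIU (x.2 i)) →
    (∀ η : Rec (G × Multiplicative ℤ) (Fin (n + 2)) → ℚ, NullFun (sg2 G) η → ∀ N : ℕ, 0 < N →
      TK ℚ_[ℓ] η N (bdK _ _ (n + 2) B) = 0) →
    ∀ e : ℕ, TK ℚ_[ℓ] (fst (cup F)) 1 B = TK ℚ_[ℓ] (fst (powF (ℓ ^ e) (cup F))) 1 B

end Pool.Agent.FJA
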