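import Pool.Agent.FJA.St1

/-!
# MEX: properties of the multilinear extension
-/

set_option autoImplicit false

namespace Pool.Agent.FJA

universe u

namespace MEX

variable {Γ : Type u} {M : ℕ}

theorem mex_def (F : (Fin M → Γ) → ℚ) (c : Fin M → (Γ →₀ ℚ)) :
    mex F c = ∑ x ∈ Fintype.piFinset (fun i => (c i).support), (∏ i, c i (x i)) * F x := by
  rfl

theorem mex_of_subset (F : (Fin M → Γ) → ℚ) (c : Fin M → (Γ →₀ ℚ)) (T : Fin M → Finset Γ)
    (h : ∀ i, (c i).support ⊆ T i) :
    mex F c = ∑ x ∈ Fintype.piFinset T, (∏ i, c i (x i)) * F x := by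
  rw [mex_def]
  refine Finset.sum_subset (Fintype.piFinset_subset _ _ h) fun x _ hx => ?_
  rw [Fintype.mem_piFinset] at hx
  push Not at hx
  obtain ⟨i, hi⟩ := hx
  have h2 : ∏ i, c i (x i) = 0 :=
    Finset.prod_eq_zero (Finset.mem_univ i) (Finsupp.notMem_support_iff.1 hi)
  rw [h2, zero_mul]

theorem single (F : (Fin M → Γ) → ℚ) (x : Fin M → Γ) :
    mex F (fun i => Finsupp.single (x i) 1) = F x := by
  rw [mex_of_subset F _ (fun i => {x i}) fun i => Finsupp.support_single_subset,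
    Fintype.piFinset_singleton, Finset.sum_singleton]
  simp

theorem delete (F : (Fin M → Γ) → ℚ) (c : Fin (M + 1) → (Γ →₀ ℚ)) (i : Fin (M + 1))
    (h : ∀ j, aug (c j) = 1) :
    mex (fun x => F (fun j => x (i.succAbove j))) c = mex F (fun j => c (i.succAbove j)) := by
  have h1 : ∑ a ∈ (c i).support, c i a = 1 := h i
  rw [mex_def, mex_def]
  rw [← one_mul (∑ x ∈ _, _ * F x), ← h1, Finset.sum_mul_sum, ← Finset.sum_product']
  refine Finset.sum_nbij' (fun x => (x i, fun j => x (i.succAbove j)))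
    (fun p => i.insertNth p.1 p.2) ?_ ?_ ?_ ?_ ?_
  · intro x hx
    rw [Fintype.mem_piFinset] at hx
    exact Finset.mem_product.2 ⟨hx i, Fintype.mem_piFinset.2 fun j => hx _⟩
  · intro p hp
    obtain ⟨hp1, hp2⟩ := Finset.mem_product.1 hp
    rw [Fintype.mem_piFinset] at hp2
    rw [Fintype.mem_piFinset]
    intro j
    refine Fin.succAboveCases i ?_ (fun j => ?_) j
    · rw [Fin.insertNth_apply_same]
      exact hp1
    · rw [Fin.insertNth_apply_succAbove]
      exact hp2 j
  · intro x _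
    exact Fin.insertNth_self_removeNth i x
  · intro p _
    ext1
    · exact Fin.insertNth_apply_same (α := fun _ => Γ) i p.1 p.2
    · funext j
      exact Fin.insertNth_apply_succAbove (α := fun _ => Γ) i p.1 p.2 j
  · intro x _
    rw [Fin.prod_univ_succAbove _ i, mul_assoc]

theorem linear (J : Type) (s : Finset J) (r : J → ℚ) (F : J → (Fin M → Γ) → ℚ)
    (c : Fin M → (Γ →₀ ℚ)) :
    mex (fun x => ∑ j ∈ s, r j * F j x) c = ∑ j ∈ s, r j * mex (F j) c := by
  simp only [mex_def, Finset.mul_sum]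
  rw [Finset.sum_comm]
  refine Finset.sum_congr rfl fun j _ => Finset.sum_congr rfl fun x _ => ?_
  ring

theorem denom (F : (Fin M → Γ) → ℚ) (c : Fin M → (Γ →₀ ℚ)) (D b : ℕ)
    (hF : ∀ x, ∃ z : ℤ, (D : ℚ) * F x = z) (hc : ∀ i x, ∃ z : ℤ, (b : ℚ) * c i x = z) :
    ∃ z : ℤ, ((D * b ^ M : ℕ) : ℚ) * mex F c = z := by
  choose zF hzF using hF
  choose zc hzc using hc
  refine ⟨∑ x ∈ Fintype.piFinset (fun i => (c i).support), (∏ i, zc i (x i)) * zF x, ?_⟩
  rw [mex_def, Finset.mul_sum]
  push_cast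
  refine Finset.sum_congr rfl fun x _ => ?_
  rw [← hzF x, ← Finset.prod_congr rfl fun i _ => hzc i (x i), Finset.prod_mul_distrib,
    Finset.prod_const, Finset.card_univ, Fintype.card_fin]
  ring

theorem change (F : (Fin M → Γ) → ℚ) (c : Fin M → (Γ →₀ ℚ)) (g : Γ → Γ)
    (hg : Function.Injective g) :
    mex F (fun i => (c i).mapDomain g) = mex (fun x => F (fun i => g (x i))) c := by
  classical
  rw [mex_of_subset F (fun i => (c i).mapDomain g) (fun i => (c i).support.image g)
    fun i => Finsupp.mapDomain_support, mex_def]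
  symm
  refine Finset.sum_nbij (fun x i => g (x i)) ?_ ?_ ?_ ?_
  · intro x hx
    rw [Fintype.mem_piFinset] at hx ⊢
    exact fun i => Finset.mem_image_of_mem g (hx i)
  · intro x _ y _ h
    funext i
    exact hg (congrFun h i)
  · intro y hy
    have hy' := Fintype.mem_piFinset.1 hy
    choose x hx using fun i => Finset.mem_image.1 (hy' i)
    exact ⟨x, Fintype.mem_piFinset.2 fun i => (hx i).1, funext fun i => (hx i).2⟩
  · intro x _
    congr 1
    exact Finset.prod_congr rfl fun i _ => (Finsupp.mapDomain_apply hg _ _).symm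

theorem vanish (F : (Fin M → Γ) → ℚ) (c : Fin M → (Γ →₀ ℚ))
    (h : ∀ x : Fin M → Γ, (∀ i, x i ∈ (c i).support) → F x = 0) : mex F c = 0 := by
  rw [mex_def]
  refine Finset.sum_eq_zero fun x hx => ?_
  rw [h x (Fintype.mem_piFinset.1 hx), mul_zero]

end MEX

theorem t_MEX : S_MEX.{u} :=
  fun _ _ => ⟨MEX.single, MEX.delete, MEX.linear, MEX.denom, MEX.change, MEX.vanish⟩

end Pool.Agent.FJA
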