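import Pool.Agent.FJA.St1

/-!
# SCH: change of the section
-/

set_option autoImplicit false

open Matrix

namespace Pool.Agent.FJA

universe u w x

namespace SCH

variable {Γ : Type u}

/-- The prism function. -/
noncomputable def EE {M : ℕ} (F : (Fin (M + 1) → Γ) → Γ → ℚ) (y : Γ)
    (v : Fin M → (Γ →₀ ℚ) × (Γ →₀ ℚ)) : ℚ :=
  ∑ j : Fin M, (-1 : ℚ) ^ (j : ℕ) * mex (fun a => F a y) (mix Prod.snd Prod.fst v j)

theorem mix_all {V : Type*} {V' : Type*} (f f' : V → V') {m : ℕ} (v : Fin m → V) (i : Fin m)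
    (j : Fin (m + 1)) (P : V' → Prop) (h : ∀ l, P (f (v l))) (h' : ∀ l, P (f' (v l))) :
    P (mix f f' v i j) := by
  unfold mix
  split_ifs
  · exact h _
  · exact h' _

theorem mix_map {V : Type*} {V' : Type*} (f f' : V → V') {m : ℕ} (v v' : Fin m → V)
    (A : V' → V') (h : ∀ l, f (v' l) = A (f (v l))) (h' : ∀ l, f' (v' l) = A (f' (v l)))
    (i : Fin m) (j : Fin (m + 1)) : mix f f' v' i j = A (mix f f' v i j) := by
  unfold mix
  split_ifs
  · exact h _
  · exact h' _

theorem mex_zero (hmex : S_MEX.{u}) {M : ℕ} (F : (Fin M → Γ) → ℚ) (c : Fin M → (Γ →₀ ℚ))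
    (h : ∀ x, F x = 0) : mex F c = 0 :=
  (hmex Γ M).2.2.2.2.2 F c fun x _ => h x

/-- the multilinear extension of a cocycle is a cocycle -/
theorem closed (hmex : S_MEX.{u}) [Group Γ] {σ : Γ →* Multiplicative ℤ} {M : ℕ}
    {F : (Fin (M + 1) → Γ) → Γ → ℚ} (hF : Coch σ M F) (y : Γ) (c : Fin (M + 2) → (Γ →₀ ℚ))
    (hc : ∀ i, aug (c i) = 1) :
    ∑ i : Fin (M + 2), (-1 : ℚ) ^ (i : ℕ) * mex (fun a => F a y) (fun j => c (i.succAbove j)) =
      0 := by
  have h1 : ∀ i : Fin (M + 2), mex (fun a => F a y) (fun j => c (i.succAbove j)) =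
      mex (fun x => F (fun j => x (i.succAbove j)) y) c := fun i =>
    ((hmex Γ (M + 1)).2.1 (fun a => F a y) c i hc).symm
  have h2 := (hmex Γ (M + 2)).2.2.1 (Fin (M + 2)) Finset.univ (fun i => (-1 : ℚ) ^ (i : ℕ))
    (fun i x => F (fun j => x (i.succAbove j)) y) c
  rw [Finset.sum_congr rfl fun i _ => by rw [h1 i], ← h2]
  exact mex_zero hmex _ _ fun x => hF.coc x y

/-- the prism identity for cocycles -/
theorem prism_coc (hmex : S_MEX.{u}) (hpri : S_PRI.{u, 0, u}) [Group Γ]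
    {σ : Γ →* Multiplicative ℤ} {M : ℕ}
    {F : (Fin (M + 1) → Γ) → Γ → ℚ} (hF : Coch σ M F) (y : Γ)
    (v : Fin (M + 1) → (Γ →₀ ℚ) × (Γ →₀ ℚ)) (h1 : ∀ i, aug (v i).1 = 1)
    (h2 : ∀ i, aug (v i).2 = 1) :
    mex (fun a => F a y) (fun i => (v i).1) - mex (fun a => F a y) (fun i => (v i).2) =
      ∑ i : Fin (M + 1), (-1 : ℚ) ^ (i : ℕ) * EE F y (fun j => v (i.succAbove j)) := by
  set C : (Fin (M + 1) → (Γ →₀ ℚ)) → ℚ := fun c => mex (fun a => F a y) c with hC
  set L : ((Fin (M + 1) → (Γ →₀ ℚ)) →₀ ℚ) →ₗ[ℚ] ℚ := Finsupp.linearCombination ℚ C with hL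
  have key := congrArg L (hpri ℚ ((Γ →₀ ℚ) × (Γ →₀ ℚ)) (Γ →₀ ℚ) Prod.snd Prod.fst M
    (Finsupp.single v 1))
  have hA : L (bd ℚ (Γ →₀ ℚ) (M + 1) (prism ℚ Prod.snd Prod.fst (M + 1)
      (Finsupp.single v 1))) = 0 := by
    unfold prism bd
    rw [Finsupp.linearCombination_single, one_smul, map_sum, map_sum]
    refine Finset.sum_eq_zero fun i _ => ?_
    rw [Finsupp.linearCombination_single, map_smul, map_sum]
    have h3 := closed hmex hF y (mix Prod.snd Prod.fst v i)
      (fun j => mix_all Prod.snd Prod.fst v i j (fun c => aug c = 1) h2 h1)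
    have h4 : ∑ l : Fin (M + 1 + 1), L (Finsupp.single
        (fun j => mix Prod.snd Prod.fst v i (l.succAbove j)) ((-1 : ℚ) ^ (l : ℕ))) = 0 := by
      rw [← h3]
      refine Finset.sum_congr rfl fun l _ => ?_
      rw [hL, Finsupp.linearCombination_single, smul_eq_mul]
    rw [h4, smul_zero]
  have hB : L (hmap ℚ Prod.fst (M + 1) (Finsupp.single v (1 : ℚ))) = C (fun i => (v i).1) := by
    unfold hmap
    rw [Finsupp.lmapDomain_apply, Finsupp.mapDomain_single, hL, Finsupp.linearCombination_single,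
      one_smul]
  have hB' : L (hmap ℚ Prod.snd (M + 1) (Finsupp.single v (1 : ℚ))) = C (fun i => (v i).2) := by
    unfold hmap
    rw [Finsupp.lmapDomain_apply, Finsupp.mapDomain_single, hL, Finsupp.linearCombination_single,
      one_smul]
  have hD : L (prism ℚ Prod.snd Prod.fst M (bd ℚ ((Γ →₀ ℚ) × (Γ →₀ ℚ)) M
      (Finsupp.single v 1))) =
      ∑ i : Fin (M + 1), (-1 : ℚ) ^ (i : ℕ) * EE F y (fun j => v (i.succAbove j)) := by
    unfold prism bd
    rw [Finsupp.linearCombination_single, one_smul, map_sum, map_sum]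
    refine Finset.sum_congr rfl fun i _ => ?_
    rw [Finsupp.linearCombination_single, map_smul, map_sum, smul_eq_mul]
    congr 1
    unfold EE
    refine Finset.sum_congr rfl fun j _ => ?_
    rw [hL, Finsupp.linearCombination_single, smul_eq_mul]
  rw [map_sub, map_sub, hA, hB, hB', hD] at key
  have h5 : C (fun i => (v i).1) - C (fun i => (v i).2) =
      ∑ i : Fin (M + 1), (-1 : ℚ) ^ (i : ℕ) * EE F y (fun j => v (i.succAbove j)) := by
    linarith
  exact h5

variable [Group Γ]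

/-- The pairs (section, first position). -/
noncomputable def vv {V : Type} (s : List Γ → Γ → (Γ →₀ ℚ)) (μ : Rec Γ V) (i : V) :
    (Γ →₀ ℚ) × (Γ →₀ ℚ) :=
  (s (μ.lst i) μ.val, Finsupp.single ((μ.lst i).headD 1) 1)

/-- The null function. -/
noncomputable def eta {M : ℕ} (F : (Fin (M + 1) → Γ) → Γ → ℚ) (s : List Γ → Γ → (Γ →₀ ℚ))
    (μ : Rec Γ (Fin M)) : ℚ := by
  classical
  exact if (∀ i, μ.lst i ≠ []) ∧ IsOfFinOrder μ.val then EE F μ.val (vv s μ) else 0

omit [Group Γ] in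
theorem aug_single (a : Γ) : aug (Finsupp.single a (1 : ℚ)) = 1 := by
  unfold aug
  rw [Finsupp.sum_single_index rfl]

theorem step (hmex : S_MEX.{u}) (hpri : S_PRI.{u, 0, u}) {σ : Γ →* Multiplicative ℤ} {M : ℕ}
    {F : (Fin (M + 1) → Γ) → Γ → ℚ} {s : List Γ → Γ → (Γ →₀ ℚ)} (hF : Coch σ M F) (hs : Sec s)
    (μ : Rec Γ (Fin (M + 1))) (hμ : ∀ i, μ.lst i ≠ []) :
    evs F s μ = fst F μ +
      ∑ i : Fin (M + 1), (-1 : ℚ) ^ (i : ℕ) * eta F s (Rec.res i.succAbove μ) := by
  classical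
  have h1 : evs F s μ = mex (fun a => F a μ.val) (fun i => (vv s μ i).1) := by
    unfold evs
    rw [if_pos hμ]
    rfl
  have h2 : fst F μ = mex (fun a => F a μ.val) (fun i => (vv s μ i).2) := by
    unfold fst
    rw [if_pos hμ]
    exact ((hmex Γ (M + 1)).1 (fun a => F a μ.val) (fun i => (μ.lst i).headD 1)).symm
  by_cases hfin : IsOfFinOrder μ.val
  · have h3 := prism_coc hmex hpri hF μ.val (vv s μ) (fun i => hs.aug _ _ hfin (hμ i))
      (fun i => aug_single _)
    have h4 : ∀ i : Fin (M + 1), eta F s (Rec.res i.succAbove μ) =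
        EE F μ.val (fun j => vv s μ (i.succAbove j)) := by
      intro i
      unfold eta
      rw [if_pos ⟨fun j => hμ _, hfin⟩]
      rfl
    rw [h1, h2, Finset.sum_congr rfl fun i _ => by rw [h4 i], ← h3]
    ring
  · have h0 : ∀ a, F a μ.val = 0 := by
      intro a
      by_contra h
      exact hfin (hF.fin a _ h)
    have h4 : ∀ i : Fin (M + 1), eta F s (Rec.res i.succAbove μ) = 0 := by
      intro i
      unfold eta
      rw [if_neg fun h => hfin h.2]
    rw [h1, h2, mex_zero hmex _ _ h0, mex_zero hmex _ _ h0]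
    simp [h4]

theorem conj_fin (γ y : Γ) : IsOfFinOrder (γ * y * γ⁻¹) ↔ IsOfFinOrder y := by
  have h : IsConj y (γ * y * γ⁻¹) := isConj_iff.2 ⟨γ, rfl⟩
  exact ⟨h.symm.isOfFinOrder, h.isOfFinOrder⟩

theorem sigma_one {σ : Γ →* Multiplicative ℤ} {y : Γ} (hy : IsOfFinOrder y) : σ y = 1 := by
  obtain ⟨n, hn, h⟩ := isOfFinOrder_iff_pow_eq_one.1 (σ.isOfFinOrder hy)
  have h1 := congrArg Multiplicative.toAdd h
  rw [toAdd_pow, toAdd_one, nsmul_eq_mul] at h1
  have h2 : Multiplicative.toAdd (σ y) = 0 := by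
    rcases mul_eq_zero.1 h1 with h3 | h3
    · have h4 : n = 0 := by exact_mod_cast h3
      omega
    · exact h3
  rw [← ofAdd_toAdd (σ y), h2, ofAdd_zero]

theorem eta_null (hmex : S_MEX.{u}) {σ : Γ →* Multiplicative ℤ} {M : ℕ}
    {F : (Fin (M + 1) → Γ) → Γ → ℚ} {s : List Γ → Γ → (Γ →₀ ℚ)} (hF : Coch σ M F)
    (hs : Sec s) : NullFun σ (eta F s) := by
  classical
  refine ⟨?_, ?_, ?_⟩
  · intro γ μ
    have hl1 : ∀ i, (Rec.inc γ * μ).lst i = (μ.lst i).map (γ * ·) := by
      intro i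
      simp
    have hl2 : ∀ i, (μ * Rec.inc γ).lst i = μ.lst i := by
      intro i
      simp
    have hv1 : (Rec.inc γ * μ).val = γ * (μ.val * γ) * γ⁻¹ := by
      simp [mul_assoc]
    have hv2 : (μ * Rec.inc γ).val = μ.val * γ := by simp
    unfold eta
    have hiff : ((∀ i, (Rec.inc γ * μ).lst i ≠ []) ∧ IsOfFinOrder (Rec.inc γ * μ).val) ↔
        ((∀ i, (μ * Rec.inc γ).lst i ≠ []) ∧ IsOfFinOrder (μ * Rec.inc γ).val) := by
      rw [hv1, hv2, conj_fin]
      simp only [hl1, hl2, ne_eq, List.map_eq_nil_iff]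
    by_cases h : (∀ i, (μ * Rec.inc γ).lst i ≠ []) ∧ IsOfFinOrder (μ * Rec.inc γ).val
    · rw [if_pos h, if_pos (hiff.2 h)]
      have hy : IsOfFinOrder (μ.val * γ) := by rw [← hv2]; exact h.2
      have hne : ∀ i, μ.lst i ≠ [] := fun i => by rw [← hl2]; exact h.1 i
      unfold EE
      refine Finset.sum_congr rfl fun j _ => ?_
      congr 1
      have h1 : ∀ l, (vv s (Rec.inc γ * μ) l).2 =
          (vv s (μ * Rec.inc γ) l).2.mapDomain (γ * ·) := by
        intro l
        unfold vv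
        rw [hl1, hl2]
        simp only
        rw [Finsupp.mapDomain_single]
        congr 1
        obtain ⟨a, t, hat⟩ := List.exists_cons_of_ne_nil (hne l)
        rw [hat]
        rfl
      have h2 : ∀ l, (vv s (Rec.inc γ * μ) l).1 =
          (vv s (μ * Rec.inc γ) l).1.mapDomain (γ * ·) := by
        intro l
        unfold vv
        rw [hl1, hl2, hv1, hv2]
        exact hs.inv γ _ _ hy
      have h3 : mix Prod.snd Prod.fst (vv s (Rec.inc γ * μ)) j =
          fun i => (mix Prod.snd Prod.fst (vv s (μ * Rec.inc γ)) j i).mapDomain (γ * ·) := by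
        funext i
        exact mix_map Prod.snd Prod.fst _ _ (fun c : Γ →₀ ℚ => c.mapDomain (γ * ·)) h1 h2 j i
      rw [h3, (hmex Γ (M + 1)).2.2.2.2.1 _ _ (γ * ·) (mul_right_injective γ)]
      congr 1
      funext x
      rw [hv1, hv2]
      exact hF.inv γ x _
    · rw [if_neg h, if_neg (mt hiff.1 h)]
  · intro μ h
    unfold eta at h
    by_contra hf
    rw [if_neg fun h' => hf h'.2] at h
    exact h rfl
  · intro μ hfl
    unfold eta
    by_cases h : (∀ i, μ.lst i ≠ []) ∧ IsOfFinOrder μ.val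
    · rw [if_pos h]
      unfold EE
      refine Finset.sum_eq_zero fun j _ => ?_
      have hσ : σ μ.val = 1 := sigma_one h.2
      have hc : ∀ l, ((μ.lst l).headD 1) ∈ μ.lst l := by
        intro l
        obtain ⟨a, t, hat⟩ := List.exists_cons_of_ne_nil (h.1 l)
        rw [hat]
        simp
      have hz : mex (fun a => F a μ.val) (mix Prod.snd Prod.fst (vv s μ) j) = 0 := by
        refine (hmex Γ (M + 1)).2.2.2.2.2 _ _ fun x hx => ?_
        apply hF.flat
        have hm : ∀ i, ∃ l, ∃ a ∈ μ.lst l, σ (x i) = σ a := by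
          intro i
          have h4 := mix_all Prod.snd Prod.fst (vv s μ) j i
            (fun c : Γ →₀ ℚ => ∀ b ∈ c.support, ∃ l, ∃ a ∈ μ.lst l, σ b = σ a)
            (fun l b hb => by
              refine ⟨l, _, hc l, ?_⟩
              have h5 : b = (μ.lst l).headD 1 := by
                have h6 := Finsupp.support_single_subset hb
                simpa using h6
              rw [h5])
            (fun l b hb => by
              obtain ⟨t, a, ha, hba⟩ := hs.supp _ _ h.2 b hb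
              refine ⟨l, a, ha, ?_⟩
              rw [hba, map_mul, map_zpow, hσ, _root_.one_zpow, one_mul])
          exact h4 (x i) (hx i)
        intro i i'
        obtain ⟨l, a, ha, h1⟩ := hm i
        obtain ⟨l', a', ha', h2⟩ := hm i'
        rw [h1, h2]
        exact hfl l l' a a' ha ha'
      rw [hz, mul_zero]
    · rw [if_neg h]

end SCH

open SCH in
theorem t_SCH (hlin : S_TXlin.{u, w, x}) (hfac : S_TXfac.{u, w, x}) (hlen : S_TXlen.{u, w, x})
    (hmex : S_MEX.{u}) (hpri : S_PRI.{u, 0, u}) : S_SCH.{u, w, x} := by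
  intro Γ _ σ M F s hF hs
  refine ⟨eta F s, eta_null hmex hF hs, ?_⟩
  intro k _ _ ι _ _ N hN X
  have h1 : TX (evs F s) N X = TX (fun μ => fst F μ +
      ∑ i : Fin (M + 1), (-1 : ℚ) ^ (i : ℕ) * eta F s (Rec.res i.succAbove μ)) N X := by
    refine hlen k Γ ι (M + 1) N _ _ X fun μ hμ => ?_
    exact step hmex hpri hF hs μ fun i h0 => by
      have := hμ i
      rw [h0] at this
      simp only [List.length_nil] at this
      omega
  have h2 : ∀ S : Finset (Fin (M + 1)), TX (fun μ : Rec Γ (Fin (M + 1)) =>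
      ∑ i ∈ S, (-1 : ℚ) ^ (i : ℕ) * eta F s (Rec.res i.succAbove μ)) N X =
      ∑ i ∈ S, (-1 : k) ^ (i : ℕ) * TX (eta F s) N (fun t => X (i.succAbove t)) := by
    intro S
    induction S using Finset.induction_on with
    | empty =>
      have h3 := (hlin k Γ ι (M + 1) N X).2 0 (fun _ => 0)
      simp only [Finset.sum_empty]
      simpa using h3
    | insert a S ha ih =>
      simp only [Finset.sum_insert ha]
      rw [(hlin k Γ ι (M + 1) N X).1, ih, (hlin k Γ ι (M + 1) N X).2,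
        hfac k Γ ι M N (eta F s) a X]
      push_cast
      rfl
  rw [h1, (hlin k Γ ι (M + 1) N X).1, h2 Finset.univ]
  ring

end Pool.Agent.FJA
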