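import Pool.Agent.FJA.St2
import Pool.Agent.FJA.P_MEX
import Pool.Agent.FJA.P_PRI
import Pool.Agent.FJA.P_SCH

/-!
# AVC: averaging over a central finite subgroup
-/

set_option autoImplicit false

namespace Pool.Agent.FJA

namespace AVC

theorem closed {P : Type} {M : ℕ} (F : (Fin (M + 1) → P) → ℚ)
    (hF : ∀ a : Fin (M + 2) → P,
      ∑ i : Fin (M + 2), (-1 : ℚ) ^ (i : ℕ) * F (fun j => a (i.succAbove j)) = 0)
    (c : Fin (M + 2) → (P →₀ ℚ)) (hc : ∀ i, aug (c i) = 1) :
    ∑ i : Fin (M + 2), (-1 : ℚ) ^ (i : ℕ) * mex F (fun j => c (i.succAbove j)) = 0 := by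
  have h1 : ∀ i : Fin (M + 2), mex F (fun j => c (i.succAbove j)) =
      mex (fun x => F (fun j => x (i.succAbove j))) c := fun i =>
    ((t_MEX P (M + 1)).2.1 F c i hc).symm
  have h2 := (t_MEX P (M + 2)).2.2.1 (Fin (M + 2)) Finset.univ (fun i => (-1 : ℚ) ^ (i : ℕ))
    (fun i x => F (fun j => x (i.succAbove j))) c
  rw [Finset.sum_congr rfl fun i _ => by rw [h1 i], ← h2]
  exact SCH.mex_zero t_MEX _ _ fun x => hF x

/-- the prism identity for a cocycle -/
theorem prism_coc {P : Type} {M : ℕ} (F : (Fin (M + 1) → P) → P → ℚ) (y : P)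
    (hF : ∀ a : Fin (M + 2) → P,
      ∑ i : Fin (M + 2), (-1 : ℚ) ^ (i : ℕ) * F (fun j => a (i.succAbove j)) y = 0)
    (v : Fin (M + 1) → (P →₀ ℚ) × (P →₀ ℚ)) (h1 : ∀ i, aug (v i).1 = 1)
    (h2 : ∀ i, aug (v i).2 = 1) :
    mex (fun a => F a y) (fun i => (v i).1) - mex (fun a => F a y) (fun i => (v i).2) =
      ∑ i : Fin (M + 1), (-1 : ℚ) ^ (i : ℕ) * SCH.EE F y (fun j => v (i.succAbove j)) := by
  set C : (Fin (M + 1) → (P →₀ ℚ)) → ℚ := fun c => mex (fun a => F a y) c with hC
  set L : ((Fin (M + 1) → (P →₀ ℚ)) →₀ ℚ) →ₗ[ℚ] ℚ := Finsupp.linearCombination ℚ C with hL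
  have key := congrArg L (t_PRI ℚ ((P →₀ ℚ) × (P →₀ ℚ)) (P →₀ ℚ) Prod.snd Prod.fst M
    (Finsupp.single v 1))
  have hA : L (bd ℚ (P →₀ ℚ) (M + 1) (prism ℚ Prod.snd Prod.fst (M + 1)
      (Finsupp.single v 1))) = 0 := by
    unfold prism bd
    rw [Finsupp.linearCombination_single, one_smul, map_sum, map_sum]
    refine Finset.sum_eq_zero fun i _ => ?_
    rw [Finsupp.linearCombination_single, map_smul, map_sum]
    have h3 := closed (fun a => F a y) hF (mix Prod.snd Prod.fst v i)
      (fun j => SCH.mix_all Prod.snd Prod.fst v i j (fun c => aug c = 1) h2 h1)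
    have h4 : ∑ l : Fin (M + 1 + 1), L (Finsupp.single
        (fun j => mix Prod.snd Prod.fst v i (l.succAbove j)) ((-1 : ℚ) ^ (l : ℕ))) = 0 := by
      rw [← h3]
      refine Finset.sum_congr rfl fun l _ => ?_
      rw [hL, Finsupp.linearCombination_single, smul_eq_mul]
    rw [h4, smul_zero]
  have hB : L (hmap ℚ Prod.fst (M + 1) (Finsupp.single v (1 : ℚ))) = C (fun i => (v i).1) := by
    unfold hmap
    rw [Finsupp.lmapDomain_apply, Finsupp.mapDomain_single, hL, Finsupp.linearCombination_single,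
      one_smul]
  have hB' : L (hmap ℚ Prod.snd (M + 1) (Finsupp.single v (1 : ℚ))) = C (fun i => (v i).2) := by
    unfold hmap
    rw [Finsupp.lmapDomain_apply, Finsupp.mapDomain_single, hL, Finsupp.linearCombination_single,
      one_smul]
  have hD : L (prism ℚ Prod.snd Prod.fst M (bd ℚ ((P →₀ ℚ) × (P →₀ ℚ)) M
      (Finsupp.single v 1))) =
      ∑ i : Fin (M + 1), (-1 : ℚ) ^ (i : ℕ) * SCH.EE F y (fun j => v (i.succAbove j)) := by
    unfold prism bd
    rw [Finsupp.linearCombination_single, one_smul, map_sum, map_sum]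
    refine Finset.sum_congr rfl fun i _ => ?_
    rw [Finsupp.linearCombination_single, map_smul, map_sum, smul_eq_mul]
    congr 1
    unfold SCH.EE
    refine Finset.sum_congr rfl fun j _ => ?_
    rw [hL, Finsupp.linearCombination_single, smul_eq_mul]
  rw [map_sub, map_sub, hA, hB, hB', hD] at key
  have h5 : C (fun i => (v i).1) - C (fun i => (v i).2) =
      ∑ i : Fin (M + 1), (-1 : ℚ) ^ (i : ℕ) * SCH.EE F y (fun j => v (i.succAbove j)) := by
    linarith
  exact h5

variable {P C : Type} [Group P] [Group C] [Fintype C]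

/-- the average of the translates of `a` -/
noncomputable def cc (ψ : C →* P) (a : P) : P →₀ ℚ :=
  ∑ t : C, Finsupp.single (ψ t * a) ((Fintype.card C : ℚ)⁻¹)

theorem card_ne : (Fintype.card C : ℚ) ≠ 0 := by
  have := Fintype.card_pos (α := C)
  positivity

theorem aug_cc (ψ : C →* P) (a : P) : aug (cc ψ a) = 1 := by
  unfold aug cc
  rw [← Finsupp.sum_finsetSum_index (fun _ => rfl) (fun _ _ _ => rfl)]
  rw [Finset.sum_congr rfl fun t _ => Finsupp.sum_single_index rfl]
  rw [Finset.sum_const, Finset.card_univ, nsmul_eq_mul, mul_inv_cancel₀ card_ne]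

theorem mex_avg (ψ : C →* P) {m : ℕ} (F : (Fin m → P) → ℚ) (a : Fin m → P) :
    mex F (fun i => cc ψ (a i)) =
      ((Fintype.card C : ℚ) ^ m)⁻¹ * ∑ t : Fin m → C, F (fun i => ψ (t i) * a i) := by
  classical
  have hs : ∀ i, (cc ψ (a i)).support ⊆ Finset.univ.image fun t => ψ t * a i := by
    intro i x hx
    unfold cc at hx
    obtain ⟨t, -, ht⟩ := Finset.mem_biUnion.1 (Finsupp.support_finsetSum hx)
    have h1 := Finsupp.support_single_subset ht
    rw [Finset.mem_singleton] at h1
    exact Finset.mem_image.2 ⟨t, Finset.mem_univ t, h1.symm⟩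
  rw [MEX.mex_of_subset F _ (fun i => Finset.univ.image fun t => ψ t * a i) hs]
  have h2 : ∀ x : Fin m → P, ∏ i, cc ψ (a i) (x i) =
      ∑ t : Fin m → C, ∏ i, (Finsupp.single (ψ (t i) * a i) ((Fintype.card C : ℚ)⁻¹)) (x i) := by
    intro x
    have h3 : ∀ i, cc ψ (a i) (x i) =
        ∑ t ∈ (Finset.univ : Finset C), (Finsupp.single (ψ t * a i)
          ((Fintype.card C : ℚ)⁻¹)) (x i) := by
      intro i
      unfold cc
      rw [Finsupp.finsetSum_apply]
    rw [Finset.prod_congr rfl fun i _ => h3 i, Finset.prod_univ_sum, Fintype.piFinset_univ]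
  rw [Finset.sum_congr rfl fun x _ => by rw [h2 x, Finset.sum_mul], Finset.sum_comm,
    Finset.mul_sum]
  refine Finset.sum_congr rfl fun t _ => ?_
  rw [Finset.sum_eq_single (fun i => ψ (t i) * a i)]
  · rw [Finset.prod_congr rfl fun i _ => Finsupp.single_eq_same, Finset.prod_const,
      Finset.card_univ, Fintype.card_fin, inv_pow]
  · intro x _ hx
    obtain ⟨i, hi⟩ := Function.ne_iff.1 hx
    have h4 : (Finsupp.single (ψ (t i) * a i) ((Fintype.card C : ℚ)⁻¹)) (x i) = 0 :=
      Finsupp.single_eq_of_ne hi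
    rw [Finset.prod_eq_zero (Finset.mem_univ i) h4, zero_mul]
  · intro h
    exfalso
    apply h
    rw [Fintype.mem_piFinset]
    intro i
    exact Finset.mem_image.2 ⟨t i, Finset.mem_univ _, rfl⟩

theorem avC_eq (ψ : C →* P) {m : ℕ} (F : (Fin m → P) → P → ℚ) (a : Fin m → P) (y : P) :
    avC ψ F a y = mex (fun a => F a y) (fun i => cc ψ (a i)) :=
  (mex_avg ψ (fun a => F a y) a).symm

theorem cc_mul (ψ : C →* P) (hψ : ∀ c p, Commute (ψ c) p) (γ a : P) :
    cc ψ (γ * a) = (cc ψ a).mapDomain (γ * ·) := by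
  unfold cc
  rw [Finsupp.mapDomain_finsetSum]
  refine Finset.sum_congr rfl fun t _ => ?_
  rw [Finsupp.mapDomain_single]
  congr 1
  rw [← mul_assoc, (hψ t γ).eq, mul_assoc]

end AVC

open AVC in
theorem t_AVC : S_AVC := by
  intro P C _ _ _ ψ hψ m S F hF
  refine ⟨⟨?_, ?_, ?_, ?_⟩, ?_, ?_⟩
  · intro γ a y
    unfold avC
    congr 1
    refine Finset.sum_congr rfl fun t _ => ?_
    rw [← hF.inv γ (fun i => ψ (t i) * a i) y]
    congr 1
    funext i
    rw [← mul_assoc, (hψ (t i) γ).eq, mul_assoc]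
  · intro a y
    have h1 := closed (fun a => F a y) (fun a => hF.coc a y) (fun i => cc ψ (a i))
      (fun i => aug_cc ψ (a i))
    rw [← h1]
    refine Finset.sum_congr rfl fun i _ => ?_
    rw [avC_eq]
  · intro a y h
    by_contra hS
    apply h
    unfold avC
    rw [Finset.sum_eq_zero, mul_zero]
    intro t _
    by_contra h2
    exact hS (hF.supp _ _ h2)
  · obtain ⟨D, hD, h1⟩ := hF.den
    refine ⟨D * Fintype.card C ^ (m + 2), Nat.mul_pos hD (pow_pos Fintype.card_pos _), ?_⟩
    intro a y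
    choose z hz using fun t : Fin (m + 2) → C => h1 (fun i => ψ (t i) * a i) y
    refine ⟨∑ t, z t, ?_⟩
    unfold avC
    push_cast
    rw [← Finset.sum_congr rfl fun t _ => hz t, ← Finset.mul_sum]
    have h2 : (Fintype.card C : ℚ) ^ (m + 2) ≠ 0 := pow_ne_zero _ card_ne
    field_simp
  · intro t a y
    unfold avC
    congr 1
    refine Fintype.sum_equiv (Equiv.mulRight t) _ _ fun s => ?_
    congr 1
    funext i
    change ψ (s i) * (ψ (t i) * a i) = ψ (s i * t i) * a i
    rw [map_mul, mul_assoc]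
  · refine ⟨fun a y => SCH.EE F y (fun j => (Finsupp.single (a j) 1, cc ψ (a j))), ?_, ?_, ?_⟩
    · intro γ a y
      unfold SCH.EE
      refine Finset.sum_congr rfl fun j _ => ?_
      congr 1
      have h1 : (mix Prod.snd Prod.fst
          (fun j => (Finsupp.single (γ * a j) (1 : ℚ), cc ψ (γ * a j))) j) =
          fun i => (mix Prod.snd Prod.fst
            (fun j => (Finsupp.single (a j) (1 : ℚ), cc ψ (a j))) j i).mapDomain (γ * ·) := by
        funext i
        exact SCH.mix_map Prod.snd Prod.fst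
          (fun j => (Finsupp.single (a j) (1 : ℚ), cc ψ (a j)))
          (fun j => (Finsupp.single (γ * a j) (1 : ℚ), cc ψ (γ * a j)))
          (fun c => c.mapDomain (γ * ·)) (fun l => cc_mul ψ hψ γ (a l))
          (fun l => Finsupp.mapDomain_single.symm) j i
      rw [h1, (t_MEX P (m + 2)).2.2.2.2.1 (fun a => F a (γ * y * γ⁻¹)) _ (γ * ·)
        (mul_right_injective γ)]
      congr 1
      funext x
      exact hF.inv γ x y
    · intro a y h
      by_contra hS
      apply h
      have h0 : ∀ x, F x y = 0 := by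
        intro x
        by_contra h2
        exact hS (hF.supp _ _ h2)
      change SCH.EE F y _ = 0
      unfold SCH.EE
      refine Finset.sum_eq_zero fun j _ => ?_
      rw [SCH.mex_zero t_MEX _ _ h0, mul_zero]
    · intro a y
      have h1 := prism_coc F y (fun a => hF.coc a y)
        (fun j => (Finsupp.single (a j) (1 : ℚ), cc ψ (a j)))
        (fun i => SCH.aug_single (a i)) (fun i => aug_cc ψ (a i))
      rw [avC_eq]
      have h2 : mex (fun a => F a y) (fun i => Finsupp.single (a i) (1 : ℚ)) = F a y :=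
        (t_MEX P (m + 2)).1 (fun a => F a y) a
      rw [← h2]
      exact h1

end Pool.Agent.FJA
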