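import Pool.Agent.FJA.St4

/-!
# BRG: a relation in `K_n(ℤ[G]) ⊗ ℚ` gives a relation between chains
-/

set_option autoImplicit false

open Matrix Pool.Agent.WhK Pool.Agent.Lib25 CategoryTheory

noncomputable section

namespace Pool.Agent.FJA

theorem t_BRG : S_BRG := by
  intro ε0 G _ n J s q N p φ hN hp hd hφ z x h
  have h1 := congrArg (bridge (MonoidAlgebra ℤ G) n) h
  have h2 : bridge (MonoidAlgebra ℤ G) n (tau n G (cl ℚ (n + 1) _ x)) =
      (BK (MonoidAlgebra ℤ G) (n + 2)).mkQ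
        (kinS (LaurentPolynomial (MonoidAlgebra ℤ G)) (n + 2) 1
          (hmap ℚ (gl1 mon) (n + 2) (psi ℚ (n + 1) _ (ch ℚ (n + 1) _ x)))) :=
    bridge_mk (MonoidAlgebra ℤ G) n 1 (gl1 mon) x
  have h3 : ∀ j ∈ s, bridge (MonoidAlgebra ℤ G) n
      (q j • KB.mk n (MonoidAlgebra ℤ G) (ε0 (N j) (p j)).n
        (HQ.map (n + 1) (rhoC (ε0 (N j) (p j)) (φ j)) (cl ℚ (n + 1) _ (z j)))) =
      (BK (MonoidAlgebra ℤ G) (n + 2)).mkQ
        (q j • kinS (LaurentPolynomial (MonoidAlgebra ℤ G)) (n + 2) (ε0 (N j) (p j)).n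
          (hmap ℚ (rhoC (ε0 (N j) (p j)) (φ j)) (n + 2)
            (psi ℚ (n + 1) _ (ch ℚ (n + 1) _ (z j))))) := by
    intro j _
    rw [map_smul, map_smul, bridge_mk]
  rw [map_add, map_sum, map_zero, h2, Finset.sum_congr rfl h3, ← map_sum, ← map_add,
    Submodule.mkQ_apply, Submodule.Quotient.mk_eq_zero] at h1
  exact h1

end Pool.Agent.FJA
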