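import Pool.Agent.FJA.St2

/-!
# Module CUP: the coboundary of a cup product
-/

set_option autoImplicit false

noncomputable section

namespace Pool.Agent.FJA

namespace CUP

/-- the coboundary of a cup product -/
theorem cob (G : Type) [Group G] (m : ℕ) (F : (Fin (m + 1) → G) → G → ℚ)
    (a : Fin (m + 3) → G × Multiplicative ℤ) (y : G × Multiplicative ℤ) :
    ∑ i : Fin (m + 3), (-1 : ℚ) ^ (i : ℕ) * cup F (fun j => a (i.succAbove j)) y =
      if y.2 = 1 then
        (∑ i : Fin (m + 2), (-1 : ℚ) ^ (i : ℕ) * F (fun j => (a (i.succAbove j).castSucc).1) y.1) *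
          ((Multiplicative.toAdd (a (Fin.last (m + 2))).2 -
            Multiplicative.toAdd (a (Fin.last (m + 1)).castSucc).2 : ℤ) : ℚ)
      else 0 := by
  by_cases hy : y.2 = 1
  · rw [if_pos hy, Fin.sum_univ_castSucc, Fin.sum_univ_castSucc]
    rw [Fin.sum_univ_castSucc (n := m + 1)
      (f := fun i : Fin (m + 2) => (-1 : ℚ) ^ (i : ℕ) *
        F (fun j => (a (i.succAbove j).castSucc).1) y.1)]
    have h1 : ∀ i : Fin (m + 1), cup F (fun j => a (i.castSucc.castSucc.succAbove j)) y =
        F (fun j => (a (i.castSucc.succAbove j).castSucc).1) y.1 *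
          ((Multiplicative.toAdd (a (Fin.last (m + 2))).2 -
            Multiplicative.toAdd (a (Fin.last (m + 1)).castSucc).2 : ℤ) : ℚ) := by
      intro i
      have e1 : i.castSucc.castSucc.succAbove (Fin.last (m + 1)) = Fin.last (m + 2) := by
        rw [Fin.succAbove_of_le_castSucc]
        · simp
        · rw [Fin.le_def]
          have := i.2
          simp only [Fin.val_castSucc, Fin.val_last]
          omega
      have e2 : i.castSucc.castSucc.succAbove (Fin.last m).castSucc =
          (Fin.last (m + 1)).castSucc := by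
        rw [Fin.succAbove_of_le_castSucc]
        · simp [Fin.ext_iff]
        · rw [Fin.le_def]
          have := i.2
          simp
          omega
      have e3 : ∀ j : Fin (m + 1), i.castSucc.castSucc.succAbove j.castSucc =
          (i.castSucc.succAbove j).castSucc := fun j =>
        Fin.castSucc_succAbove_castSucc
      unfold cup
      rw [if_pos hy]
      simp only [e1, e2, e3]
    have h2 : cup F (fun j => a ((Fin.last (m + 1)).castSucc.succAbove j)) y =
        F (fun j => (a j.castSucc.castSucc).1) y.1 *
          ((Multiplicative.toAdd (a (Fin.last (m + 2))).2 -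
            Multiplicative.toAdd (a (Fin.last m).castSucc.castSucc).2 : ℤ) : ℚ) := by
      have e1 : (Fin.last (m + 1)).castSucc.succAbove (Fin.last (m + 1)) = Fin.last (m + 2) := by
        rw [Fin.succAbove_of_le_castSucc]
        · simp
        · exact le_refl _
      have e3 : ∀ j : Fin (m + 1), (Fin.last (m + 1)).castSucc.succAbove j.castSucc =
          j.castSucc.castSucc := fun j => by
        rw [Fin.castSucc_succAbove_castSucc, Fin.succAbove_last]
      unfold cup
      rw [if_pos hy]
      simp only [e1, e3]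
    have h3 : cup F (fun j => a ((Fin.last (m + 2)).succAbove j)) y =
        F (fun j => (a j.castSucc.castSucc).1) y.1 *
          ((Multiplicative.toAdd (a (Fin.last (m + 1)).castSucc).2 -
            Multiplicative.toAdd (a (Fin.last m).castSucc.castSucc).2 : ℤ) : ℚ) := by
      unfold cup
      rw [if_pos hy]
      simp only [Fin.succAbove_last]
    rw [h2, h3]
    simp only [h1, Fin.succAbove_last]
    rw [add_mul, Finset.sum_mul]
    have h4 : ∑ i : Fin (m + 1), (-1 : ℚ) ^ (i.castSucc.castSucc : ℕ) *
        (F (fun j => (a (i.castSucc.succAbove j).castSucc).1) y.1 *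
          ((Multiplicative.toAdd (a (Fin.last (m + 2))).2 -
            Multiplicative.toAdd (a (Fin.last (m + 1)).castSucc).2 : ℤ) : ℚ)) =
        ∑ i : Fin (m + 1), (-1 : ℚ) ^ (i.castSucc : ℕ) *
          F (fun j => (a (i.castSucc.succAbove j).castSucc).1) y.1 *
          ((Multiplicative.toAdd (a (Fin.last (m + 2))).2 -
            Multiplicative.toAdd (a (Fin.last (m + 1)).castSucc).2 : ℤ) : ℚ) := by
      refine Finset.sum_congr rfl fun i _ => ?_
      simp only [Fin.val_castSucc]
      ring
    rw [h4]
    simp only [Fin.val_castSucc, Fin.val_last]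
    push_cast
    ring
  · rw [if_neg hy]
    refine Finset.sum_eq_zero fun i _ => ?_
    unfold cup
    rw [if_neg hy, mul_zero]

/-- cup products are families of cocycles -/
theorem coch (G : Type) [Group G] (m : ℕ) (F : (Fin (m + 1) → G) → G → ℚ) (S : G → Prop)
    (hS : ∀ y, S y → IsOfFinOrder y) (hF : GCoch m S F) : Coch (sg2 G) (m + 1) (cup F) where
  inv γ a y := by
    have h1 : (γ * y * γ⁻¹).2 = y.2 := by
      rw [Prod.snd_mul, Prod.snd_mul, Prod.snd_inv, mul_comm γ.2 y.2, mul_assoc, mul_inv_cancel,
        mul_one]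
    have h2 := hF.inv γ.1 (fun i => (a i.castSucc).1) y.1
    unfold cup
    rw [h1]
    by_cases hy : y.2 = 1
    · rw [if_pos hy, if_pos hy]
      have h3 : (γ * y * γ⁻¹).1 = γ.1 * y.1 * γ.1⁻¹ := rfl
      have h4 : ∀ x : G × Multiplicative ℤ, (γ * x).1 = γ.1 * x.1 := fun x => rfl
      have h5 : ∀ x : G × Multiplicative ℤ, Multiplicative.toAdd (γ * x).2 =
          Multiplicative.toAdd γ.2 + Multiplicative.toAdd x.2 := fun x => rfl
      simp only [h3, h4, h5, h2]
      push_cast
      ring
    · rw [if_neg hy, if_neg hy]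
  coc a y := by
    have h1 := cob G m F a y
    have h2 := hF.coc (fun t => (a t.castSucc).1) y.1
    rw [h2, zero_mul, ite_self] at h1
    exact h1
  fin a y h := by
    unfold cup at h
    by_cases hy : y.2 = 1
    · rw [if_pos hy] at h
      have h1 := hS _ (hF.supp _ _ (left_ne_zero_of_mul h))
      rw [isOfFinOrder_iff_pow_eq_one] at h1 ⊢
      obtain ⟨n, hn, h2⟩ := h1
      exact ⟨n, hn, Prod.ext h2 (by rw [Prod.pow_snd, hy, one_pow]; rfl)⟩
    · rw [if_neg hy] at h
      exact absurd rfl h
  den := by
    obtain ⟨D, hD, h⟩ := hF.den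
    refine ⟨D, hD, fun a y => ?_⟩
    unfold cup
    by_cases hy : y.2 = 1
    · rw [if_pos hy]
      obtain ⟨z, hz⟩ := h (fun i => (a i.castSucc).1) y.1
      refine ⟨z * (Multiplicative.toAdd (a (Fin.last (m + 1))).2 -
        Multiplicative.toAdd (a (Fin.last m).castSucc).2), ?_⟩
      rw [Int.cast_mul, ← hz]
      ring
    · rw [if_neg hy]
      exact ⟨0, by simp⟩
  flat a y h := by
    unfold cup
    have h1 : (a (Fin.last (m + 1))).2 = (a (Fin.last m).castSucc).2 := h _ _
    rw [h1, sub_self, Int.cast_zero, mul_zero, ite_self]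

end CUP

theorem t_CUP : S_CUP := by
  intro G _ m F
  exact ⟨fun a y => CUP.cob G m F a y, fun S hS hF => CUP.coch G m F S hS hF⟩

end Pool.Agent.FJA
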