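import Pool.Agent.FJA.St2
import Pool.Agent.FJA.P_TXA
import Pool.Agent.FJA.P_TXD

/-!
# Module DIF: comparison of two trivialisations of the same idempotent matrix
-/

set_option autoImplicit false

open Matrix Pool.Agent.WhK Pool.Agent.Lib25

noncomputable section

namespace Pool.Agent.FJA

namespace DIF

/-! ### Chains -/

section

variable {V V' V'' : Type}

lemma hmap_single (f : V → V') (m : ℕ) (v : Fin m → V) (c : ℚ) :
    hmap ℚ f m (Finsupp.single v c) = Finsupp.single (fun i => f (v i)) c :=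
  Finsupp.mapDomain_single

lemma bd_single (m : ℕ) (X : Fin (m + 1) → V) (c : ℚ) :
    bd ℚ V m (Finsupp.single X c) =
      c • ∑ i : Fin (m + 1), Finsupp.single (fun j => X (i.succAbove j)) ((-1 : ℚ) ^ (i : ℕ)) :=
  Finsupp.linearCombination_single ℚ c X

lemma prism_single (f f' : V → V') (m : ℕ) (v : Fin m → V) (c : ℚ) :
    prism ℚ f f' m (Finsupp.single v c) =
      c • ∑ i : Fin m, Finsupp.single (mix f f' v i) ((-1 : ℚ) ^ (i : ℕ)) :=
  Finsupp.linearCombination_single ℚ c v

lemma prism_comp (g : V' → V'') (f f' : V → V') (m : ℕ) (w : (Fin m → V) →₀ ℚ) :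
    prism ℚ (fun v => g (f v)) (fun v => g (f' v)) m w =
      hmap ℚ g (m + 1) (prism ℚ f f' m w) := by
  induction w using Finsupp.induction_linear with
  | zero => simp only [map_zero]
  | add x y hx hy => simp only [map_add, hx, hy]
  | single v c =>
    rw [prism_single, prism_single, map_smul, map_sum]
    congr 1
    refine Finset.sum_congr rfl fun i _ => ?_
    rw [hmap_single]
    congr 1
    funext j
    unfold mix
    split_ifs <;> rfl

end

/-! ### Functionals -/

section

variable {k : Type} [Field k] [CharZero k]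

lemma TF_single {Γ : Type} [Group Γ] {ι : Type} [Fintype ι] [DecidableEq ι] {M : ℕ}
    (φ : Rec Γ (Fin M) → ℚ) (N : ℕ) (X : Fin M → (Matrix ι ι (MonoidAlgebra k Γ))ˣ) (q : ℚ) :
    TF φ N (Finsupp.single X q) = q • TX φ N X :=
  Finsupp.linearCombination_single ℚ q X

lemma TF_glG (hgrp : S_GRP) {Γ' Γ : Type} [Group Γ'] [Group Γ] (f : Γ' →* Γ) {ι : Type}
    [Fintype ι] [DecidableEq ι] {M : ℕ} (N : ℕ) (φ : Rec Γ (Fin M) → ℚ)
    (w : (Fin M → (Matrix ι ι (MonoidAlgebra k Γ'))ˣ) →₀ ℚ) :
    TF φ N (hmap ℚ (glG f) M w) = TF (fun μ => φ (recG f μ)) N w := by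
  induction w using Finsupp.induction_linear with
  | zero => simp only [map_zero]
  | add x y hx hy => simp only [map_add, hx, hy]
  | single v c =>
    rw [hmap_single, TF_single, TF_single, hgrp k Γ' Γ f ι M N φ v]

lemma TF_congr {Γ : Type} [Group Γ] {ι : Type} [Fintype ι] [DecidableEq ι] {M : ℕ}
    {φ φ' : Rec Γ (Fin M) → ℚ} (h : ∀ μ, φ μ = φ' μ) (N : ℕ)
    (w : (Fin M → (Matrix ι ι (MonoidAlgebra k Γ))ˣ) →₀ ℚ) : TF φ N w = TF φ' N w := by
  rw [funext h]

/-- two functions whose difference is a coboundary on paths with lists of length one -/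
lemma TF_cob {Γ : Type} [Group Γ] {ι : Type} [Fintype ι] [DecidableEq ι] {M : ℕ}
    (φ φ' : Rec Γ (Fin (M + 1)) → ℚ) (η : Rec Γ (Fin M) → ℚ)
    (h : ∀ μ : Rec Γ (Fin (M + 1)), (∀ i, (μ.lst i).length = 1) →
      φ μ = φ' μ + ∑ i : Fin (M + 1), (-1 : ℚ) ^ (i : ℕ) * η (Rec.res i.succAbove μ))
    (w : (Fin (M + 1) → (Matrix ι ι (MonoidAlgebra k Γ))ˣ) →₀ ℚ) :
    TF φ 1 w = TF φ' 1 w + TF η 1 (bd ℚ _ M w) := by
  have key : ∀ X : Fin (M + 1) → (Matrix ι ι (MonoidAlgebra k Γ))ˣ,
      TX φ 1 X = TX φ' 1 X +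
        ∑ i : Fin (M + 1), ((-1 : k) ^ (i : ℕ)) * TX η 1 (fun t => X (i.succAbove t)) := by
    intro X
    rw [t_TXlen k Γ ι (M + 1) 1 φ _ X h, (t_TXlin k Γ ι (M + 1) 1 X).1]
    congr 1
    have hs : ∀ s : Finset (Fin (M + 1)),
        TX (fun μ => ∑ i ∈ s, (-1 : ℚ) ^ (i : ℕ) * η (Rec.res i.succAbove μ)) 1 X =
          ∑ i ∈ s, ((-1 : k) ^ (i : ℕ)) * TX η 1 (fun t => X (i.succAbove t)) := by
      intro s
      classical
      induction s using Finset.induction_on with
      | empty =>
        simp only [Finset.sum_empty]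
        have h0 := (t_TXlin k Γ ι (M + 1) 1 X).2 0 (fun _ => 0)
        simpa using h0
      | insert a s ha ih =>
        simp only [Finset.sum_insert ha]
        rw [(t_TXlin k Γ ι (M + 1) 1 X).1, ih, (t_TXlin k Γ ι (M + 1) 1 X).2,
          t_TXfac k Γ ι M 1 η a X]
        push_cast
        ring
    exact hs Finset.univ
  induction w using Finsupp.induction_linear with
  | zero => simp only [map_zero, add_zero]
  | add x y hx hy =>
    simp only [map_add, hx, hy]
    abel
  | single v c =>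
    rw [bd_single, map_smul, map_sum, TF_single, TF_single, key, smul_add]
    congr 2
    refine Finset.sum_congr rfl fun i _ => ?_
    rw [TF_single, Rat.smul_def]
    push_cast
    rfl

end

/-! ### Functions on recorded paths -/

section

variable {Γ : Type} [Group Γ]

lemma fst_pos {M : ℕ} (F : (Fin M → Γ) → Γ → ℚ) (μ : Rec Γ (Fin M)) (h : ∀ i, μ.lst i ≠ []) :
    fst F μ = F (fun i => (μ.lst i).headD 1) μ.val := by
  unfold fst
  exact if_pos h

lemma fst_neg {M : ℕ} (F : (Fin M → Γ) → Γ → ℚ) (μ : Rec Γ (Fin M))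
    (h : ¬ ∀ i, μ.lst i ≠ []) : fst F μ = 0 := by
  unfold fst
  exact if_neg h

lemma headD_map {Γ' : Type} [Group Γ'] (f : Γ → Γ') (l : List Γ) (h : l ≠ []) :
    (l.map f).headD 1 = f (l.headD 1) := by
  cases l with
  | nil => exact absurd rfl h
  | cons a l => rfl

lemma headD_mem (l : List Γ) (h : l ≠ []) : l.headD 1 ∈ l := by
  cases l with
  | nil => exact absurd rfl h
  | cons a l => exact List.mem_cons_self

lemma null_fst (σ : Γ →* Multiplicative ℤ) {M : ℕ} (F : (Fin M → Γ) → Γ → ℚ)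
    (inv : ∀ (γ : Γ) (a : Fin M → Γ) (y : Γ), F (fun i => γ * a i) (γ * y * γ⁻¹) = F a y)
    (fin : ∀ (a : Fin M → Γ) (y : Γ), F a y ≠ 0 → IsOfFinOrder y)
    (flat : ∀ (a : Fin M → Γ) (y : Γ), (∀ i j, σ (a i) = σ (a j)) → F a y = 0) :
    NullFun σ (fst F) where
  cj γ μ := by
    by_cases h : ∀ i, μ.lst i ≠ []
    · have h1 : ∀ i, (Rec.inc γ * μ).lst i ≠ [] := fun i => by
        rw [Rec.mul_lst, Rec.inc_lst, List.nil_append]
        simpa using h i
      have h2 : ∀ i, (μ * Rec.inc γ).lst i ≠ [] := fun i => by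
        rw [Rec.mul_lst, Rec.inc_lst, List.map_nil, List.append_nil]
        exact h i
      rw [fst_pos F _ h1, fst_pos F _ h2]
      have e1 : (fun i => ((Rec.inc γ * μ).lst i).headD 1) =
          fun i => γ * ((μ * Rec.inc γ).lst i).headD 1 := by
        funext i
        rw [Rec.mul_lst, Rec.inc_lst, List.nil_append, Rec.inc_val, headD_map _ _ (h i),
          Rec.mul_lst, Rec.inc_lst, List.map_nil, List.append_nil]
      have e2 : (Rec.inc γ * μ).val = γ * (μ * Rec.inc γ).val * γ⁻¹ := by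
        rw [Rec.mul_val, Rec.mul_val, Rec.inc_val]
        group
      rw [e1, e2]
      exact inv γ _ _
    · have h1 : ¬ ∀ i, (Rec.inc γ * μ).lst i ≠ [] := fun hc => h fun i => by
        have := hc i
        rw [Rec.mul_lst, Rec.inc_lst, List.nil_append] at this
        simpa using this
      have h2 : ¬ ∀ i, (μ * Rec.inc γ).lst i ≠ [] := fun hc => h fun i => by
        have := hc i
        rw [Rec.mul_lst, Rec.inc_lst, List.map_nil, List.append_nil] at this
        exact this
      rw [fst_neg F _ h1, fst_neg F _ h2]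
  fin μ hμ := by
    by_cases h : ∀ i, μ.lst i ≠ []
    · rw [fst_pos F _ h] at hμ
      exact fin _ _ hμ
    · exact absurd (fst_neg F _ h) hμ
  flat μ hμ := by
    by_cases h : ∀ i, μ.lst i ≠ []
    · rw [fst_pos F _ h]
      exact flat _ _ fun i j => hμ i j _ _ (headD_mem _ (h i)) (headD_mem _ (h j))
    · exact fst_neg F _ h

lemma fst_recG {Γ' : Type} [Group Γ'] (f : Γ' →* Γ) {M : ℕ} (F : (Fin M → Γ) → Γ → ℚ)
    (μ : Rec Γ' (Fin M)) :
    fst F (recG f μ) = fst (fun a y => F (fun i => f (a i)) (f y)) μ := by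
  by_cases h : ∀ i, μ.lst i ≠ []
  · have h1 : ∀ i, (recG f μ).lst i ≠ [] := fun i => by
      change (μ.lst i).map f ≠ []
      simpa using h i
    rw [fst_pos _ _ h1, fst_pos _ _ h]
    congr 1
    funext i
    exact headD_map _ _ (h i)
  · have h1 : ¬ ∀ i, (recG f μ).lst i ≠ [] := fun hc => h fun i => by
      have := hc i
      change (μ.lst i).map f ≠ [] at this
      simpa using this
    rw [fst_neg _ _ h1, fst_neg _ _ h]

end

/-- the map induced by an injective homomorphism is injective -/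
lemma glG_injective {k : Type} [Field k] {Γ' Γ : Type} [Group Γ'] [Group Γ] (f : Γ' →* Γ)
    (hf : Function.Injective f) {ι : Type} [Fintype ι] [DecidableEq ι] :
    Function.Injective (glG f : (Matrix ι ι (MonoidAlgebra k Γ'))ˣ →
      (Matrix ι ι (MonoidAlgebra k Γ))ˣ) := by
  intro A B h
  apply Units.ext
  have h1 := congrArg Units.val h
  ext1 a b
  have h2 := congrFun (congrFun h1 a) b
  exact MonoidAlgebra.mapDomain_injective hf h2

/-! ### Evaluations -/

section

variable {P : Type} [Group P]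

/-- a function of tuples, invariant under left translations, vanishes on `hdeg` -/
lemma inv_hdeg {m : ℕ} (g : (Fin (m + 1) → P) → ℚ)
    (hg : ∀ (γ : P) (a : Fin (m + 1) → P), g (fun i => γ * a i) = g a)
    (x : HCh ℚ P m) (hx : x ∈ hdeg ℚ P m) : x.sum (fun z c => c * g z) = 0 := by
  have hL : ∀ y : HCh ℚ P m, y.sum (fun z c => c * g z) =
      Finsupp.linearCombination ℚ g y := by
    intro y
    rw [Finsupp.linearCombination_apply]
    rfl
  rw [hL]
  unfold hdeg at hx
  induction hx using Submodule.span_induction with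
  | mem y hy =>
    obtain ⟨γ, X, rfl⟩ := hy
    rw [map_sub, Finsupp.linearCombination_single, Finsupp.linearCombination_single, hg, sub_self]
  | zero => exact map_zero _
  | add y y' _ _ h1 h2 => rw [map_add, h1, h2, add_zero]
  | smul c y _ h1 => rw [map_smul, h1, smul_zero]

omit [Group P] in
/-- summation by parts -/
lemma sum_bd {m : ℕ} (g : (Fin m → P) → ℚ) (w : (Fin (m + 1) → P) →₀ ℚ) :
    w.sum (fun z c => c * ∑ i : Fin (m + 1), (-1 : ℚ) ^ (i : ℕ) * g (fun j => z (i.succAbove j))) =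
      (bd ℚ P m w).sum (fun z c => c * g z) := by
  have hL : ∀ (M : ℕ) (g' : (Fin M → P) → ℚ) (y : (Fin M → P) →₀ ℚ),
      y.sum (fun z c => c * g' z) = Finsupp.linearCombination ℚ g' y := by
    intro M g' y
    rw [Finsupp.linearCombination_apply]
    rfl
  rw [hL, hL]
  induction w using Finsupp.induction_linear with
  | zero => simp only [map_zero]
  | add x y hx hy => simp only [map_add, hx, hy]
  | single v c =>
    rw [bd_single, Finsupp.linearCombination_single, map_smul, map_sum]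
    congr 1
    refine Finset.sum_congr rfl fun i _ => ?_
    rw [Finsupp.linearCombination_single, smul_eq_mul]

/-- the sum of the coefficients of a cycle times the value of a cocycle on the constant tuple -/
lemma const_zero {m : ℕ} (S : P → Prop) (F : (Fin (m + 2) → P) → P → ℚ) (hF : GCoch (m + 1) S F)
    (w : (Fin (m + 2) → P) →₀ ℚ) (hw : w ∈ cyc ℚ P (m + 1)) (y : P) :
    w.sum (fun _ c => c * F (fun _ => 1) y) = 0 := by
  have hsign : ∀ n : ℕ, ∑ i : Fin n, (-1 : ℚ) ^ (i : ℕ) = if Even n then 0 else 1 := by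
    intro n
    rw [Fin.sum_univ_eq_sum_range (fun i => (-1 : ℚ) ^ i) n]
    induction n with
    | zero => simp
    | succ n ih =>
      rw [Finset.sum_range_succ, ih]
      by_cases h : Even n
      · have h' : ¬ Even (n + 1) := by rw [Nat.even_add_one]; exact fun h' => h' h
        rw [if_pos h, if_neg h', h.neg_one_pow, zero_add]
      · have h' : Even (n + 1) := by rw [Nat.even_add_one]; exact h
        rw [if_neg h, if_pos h', (Nat.not_even_iff_odd.1 h).neg_one_pow]
        ring
  by_cases hm : Even (m + 2)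
  · have h1 := hF.coc (fun _ => 1) y
    rw [← Finset.sum_mul, hsign, if_neg (by rw [Nat.even_add_one]; exact fun h' => h' hm),
      one_mul] at h1
    simp [Finsupp.sum, h1]
  · have h1 : bd ℚ P (m + 1) w ∈ hdeg ℚ P m := hw
    have h2 := inv_hdeg (fun _ => 1) (fun _ _ => rfl) _ h1
    rw [← sum_bd (fun _ => 1) w] at h2
    simp only [mul_one] at h2
    rw [hsign, if_neg hm] at h2
    have h3 : w.sum (fun _ c => c * F (fun _ => 1) y) =
        w.sum (fun _ c => c * 1) * F (fun _ => 1) y := by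
      rw [Finsupp.sum_mul]
      simp only [mul_one]
    rw [h3, h2, zero_mul]

end

end DIF

open DIF in
/-- **Module DIF** -/
theorem t_DIF (hgrp : S_GRP) (hhtp : S_HTP) (hfvx : S_FVX) (hcup : S_CUP) (havc : S_AVC)
    (heva : S_EVA) : S_DIF := by
  intro k _ _ G _ N _ e φ d X X' hX hX' m S F hS hF w hw
  obtain ⟨ψ, hψ, hcomm, hA, hB⟩ := (hfvx k G N e φ d X hX).2
  obtain ⟨ψ', hψ', _, hA', hB'⟩ := (hfvx k G N e φ d X' hX').2
  have hψψ : ψ' = ψ := MonoidHom.ext fun c => Subtype.ext ((hψ' c).trans (hψ c).symm)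
  subst hψψ
  -- abbreviations
  set io : Cen (φ (gen N)) × Multiplicative ℤ →* G × Multiplicative ℤ :=
    MonoidHom.prodMap (Cen (φ (gen N))).subtype (MonoidHom.id (Multiplicative ℤ)) with hio
  have hioinj : Function.Injective io := by
    rintro ⟨a, b⟩ ⟨a', b'⟩ h
    have h1 := congrArg Prod.fst h
    have h2 := congrArg Prod.snd h
    exact Prod.ext (Subtype.ext h1) h2
  let FP : (Fin (m + 2) → Cen (φ (gen N))) → Cen (φ (gen N)) → ℚ :=
    fun a y => F (fun i => (a i : G)) (y : G)
  have hFP : GCoch (m + 1) (fun y : Cen (φ (gen N)) => S (y : G)) FP :=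
    ⟨fun γ a y => hF.inv (γ : G) (fun i => (a i : G)) (y : G),
      fun a y => hF.coc (fun i => (a i : G)) (y : G),
      fun a y h => hF.supp (fun i => (a i : G)) (y : G) h, by
      obtain ⟨D, hD, h⟩ := hF.den
      exact ⟨D, hD, fun a y => h (fun i => (a i : G)) (y : G)⟩⟩
  obtain ⟨hF', htr, G0, hGinv, hGsupp, hGcob⟩ := havc (Cen (φ (gen N))) (Cyc N) ψ' hcomm m
    (fun y : Cen (φ (gen N)) => S (y : G)) FP hFP
  set F' := avC ψ' FP with hF'def
  -- the functional on `DX`
  have step1 : ∀ (Y : (Matrix (Fin e.n) (Fin e.n)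
      (MonoidAlgebra k (Cyc N × Multiplicative ℤ)))ˣ),
      (∀ z : Cen (φ (gen N)), fV k e φ z =
        glG io ((XG ψ' Y)⁻¹ * dgU k d z * XG ψ' Y)) →
      (∀ z : Cen (φ (gen N)), fV k e φ z * (XG φ Y)⁻¹ =
        glG io ((XG ψ' Y)⁻¹ * dgU k d z)) →
      TF (fst (cup F)) 1 (DX e φ Y w) =
        TF (fst (cup FP)) 1 (prism ℚ
          (fun z : Cen (φ (gen N)) => (XG ψ' Y)⁻¹ * dgU k d z * XG ψ' Y)
          (fun z : Cen (φ (gen N)) => (XG ψ' Y)⁻¹ * dgU k d z) (m + 2) w) := by
    intro Y h1 h2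
    have e1 : DX e φ Y w = hmap ℚ (glG io) (m + 3) (prism ℚ
          (fun z : Cen (φ (gen N)) => (XG ψ' Y)⁻¹ * dgU k d z * XG ψ' Y)
          (fun z : Cen (φ (gen N)) => (XG ψ' Y)⁻¹ * dgU k d z) (m + 2) w) := by
      unfold DX
      rw [← prism_comp, ← funext h1, ← funext h2]
    rw [e1, TF_glG hgrp]
    refine TF_congr (fun μ => ?_) 1 _
    rw [fst_recG]
    rfl
  -- the null function
  have hnull : NullFun (sg2 (Cen (φ (gen N)))) (fst (cup G0)) := by
    refine null_fst _ _ ?_ ?_ ?_
    · intro γ a y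
      unfold cup
      have e1 : (γ * y * γ⁻¹).2 = y.2 := by
        change γ.2 * y.2 * γ.2⁻¹ = y.2
        rw [mul_comm γ.2, mul_inv_cancel_right]
      rw [e1]
      by_cases hy : y.2 = 1
      · rw [if_pos hy, if_pos hy]
        have e2 := hGinv γ.1 (fun i => (a i.castSucc).1) y.1
        have e3 : (γ * y * γ⁻¹).1 = γ.1 * y.1 * γ.1⁻¹ := rfl
        have e4 : (fun i : Fin (m + 1) => (γ * a i.castSucc).1) =
            fun i => γ.1 * (a i.castSucc).1 := rfl
        rw [e3, e4, e2]
        congr 2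
        have e5 : ∀ i, Multiplicative.toAdd (γ * a i).2 =
            Multiplicative.toAdd γ.2 + Multiplicative.toAdd (a i).2 := fun i => rfl
        rw [e5, e5]
        ring
      · rw [if_neg hy, if_neg hy]
    · intro a y h
      unfold cup at h
      by_cases hy : y.2 = 1
      · rw [if_pos hy] at h
        have h1 := hGsupp _ _ (left_ne_zero_of_mul h)
        have h2 : IsOfFinOrder (y.1 : G) := hS _ h1
        have h3 : IsOfFinOrder y.1 := by
          rw [isOfFinOrder_iff_pow_eq_one] at h2 ⊢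
          obtain ⟨n, hn, h4⟩ := h2
          exact ⟨n, hn, Subtype.ext (by rw [Subgroup.coe_pow, h4]; rfl)⟩
        rw [isOfFinOrder_iff_pow_eq_one] at h3 ⊢
        obtain ⟨n, hn, h4⟩ := h3
        refine ⟨n, hn, Prod.ext h4 ?_⟩
        change y.2 ^ n = 1
        rw [hy, one_pow]
      · rw [if_neg hy] at h
        exact absurd rfl h
    · intro a y h
      unfold cup
      split_ifs with hy
      · have h1 : (a (Fin.last (m + 1))).2 = (a (Fin.last m).castSucc).2 := h _ _
        rw [h1, sub_self, Int.cast_zero, mul_zero]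
      · rfl
  -- the comparison of `FP` and `F'`
  have step2 : ∀ D : (Fin (m + 3) → (Matrix (Fin e.n) (Fin e.n)
      (MonoidAlgebra k (Cen (φ (gen N)) × Multiplicative ℤ)))ˣ) →₀ ℚ,
      TF (fst (cup FP)) 1 D = TF (fst (cup F')) 1 D + TF (fst (cup G0)) 1 (bd ℚ _ (m + 2) D) := by
    intro D
    refine TF_cob _ _ _ (fun μ hμ => ?_) D
    have hne : ∀ i, μ.lst i ≠ [] := fun i h => by
      have := hμ i
      rw [h] at this
      simp at this
    rw [fst_pos _ _ hne, fst_pos _ _ hne]
    have e1 : ∀ i : Fin (m + 3), fst (cup G0) (Rec.res i.succAbove μ) =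
        cup G0 (fun j => (μ.lst (i.succAbove j)).headD 1) μ.val := fun i => by
      rw [fst_pos _ _ (fun j => by rw [Rec.res_lst]; exact hne _)]
      rfl
    simp only [e1]
    rw [(hcup (Cen (φ (gen N))) m G0).1 (fun i => (μ.lst i).headD 1) μ.val]
    unfold cup
    by_cases hy : μ.val.2 = 1
    · rw [if_pos hy, if_pos hy, if_pos hy]
      have e2 := hGcob (fun i : Fin (m + 2) => ((μ.lst i.castSucc).headD 1).1) μ.val.1
      rw [← e2]
      ring
    · rw [if_neg hy, if_neg hy, if_neg hy, add_zero]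
  -- the evaluation
  have step3 : ∀ (Y : (Matrix (Fin e.n) (Fin e.n)
      (MonoidAlgebra k (Cyc N × Multiplicative ℤ)))ˣ)
      (w' : (Fin (m + 2) → Cen (φ (gen N))) →₀ ℚ),
      TF (fst (cup F')) 1 (prism ℚ
          (fun z : Cen (φ (gen N)) => (XG ψ' Y)⁻¹ * dgU k d z * XG ψ' Y)
          (fun z : Cen (φ (gen N)) => (XG ψ' Y)⁻¹ * dgU k d z) (m + 2) w') =
        (-1 : k) ^ (m + 1) * ∑ a : Fin e.n, ∑ c : Cyc N,
          dlog Y a c * ((w'.sum (fun Z q => q * F' (fun i => if d a then Z i else 1) (ψ' c)) : ℚ)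
            : k) := by
    intro Y w'
    have key : ∀ Z : Fin (m + 2) → Cen (φ (gen N)), ∀ q : ℚ,
        TF (fst (cup F')) 1 (prism ℚ
          (fun z : Cen (φ (gen N)) => (XG ψ' Y)⁻¹ * dgU k d z * XG ψ' Y)
          (fun z : Cen (φ (gen N)) => (XG ψ' Y)⁻¹ * dgU k d z) (m + 2) (Finsupp.single Z q)) =
        (-1 : k) ^ (m + 1) * ∑ a : Fin e.n, ∑ c : Cyc N,
          dlog Y a c * ((q * F' (fun i => if d a then Z i else 1) (ψ' c) : ℚ) : k) := by
      intro Z q
      have e1 : Finsupp.single Z q = q • Finsupp.single Z (1 : ℚ) := by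
        rw [Finsupp.smul_single, smul_eq_mul, mul_one]
      rw [e1, map_smul, map_smul, heva k (Cyc N) (Cen (φ (gen N))) ψ' hcomm e.n d Y (m + 1) F'
        hF'.inv htr Z, Rat.smul_def, mul_left_comm, Finset.mul_sum]
      congr 1
      refine Finset.sum_congr rfl fun a _ => ?_
      rw [Finset.mul_sum]
      refine Finset.sum_congr rfl fun c _ => ?_
      push_cast
      ring
    have hL : ∀ (g : (Fin (m + 2) → Cen (φ (gen N))) → ℚ)
        (y : (Fin (m + 2) → Cen (φ (gen N))) →₀ ℚ),
        y.sum (fun z c => c * g z) = Finsupp.linearCombination ℚ g y := by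
      intro g y
      rw [Finsupp.linearCombination_apply]
      rfl
    simp only [hL (fun Z => F' (fun i => if d _ then Z i else 1) (ψ' _))]
    induction w' using Finsupp.induction_linear with
    | zero =>
      simp only [map_zero, Rat.cast_zero, mul_zero, Finset.sum_const_zero]
    | add x y hx hy =>
      simp only [map_add, hx, hy, Rat.cast_add, mul_add, Finset.sum_add_distrib]
    | single Z q =>
      rw [key]
      simp only [Finsupp.linearCombination_single, smul_eq_mul]
  -- the matrices agree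
  have hXX : (fun z : Cen (φ (gen N)) => (XG ψ' X)⁻¹ * dgU k d z * XG ψ' X) =
      fun z : Cen (φ (gen N)) => (XG ψ' X')⁻¹ * dgU k d z * XG ψ' X' :=
    funext fun z => glG_injective io hioinj ((hA z).symm.trans (hA' z))
  have val : ∀ (Y : (Matrix (Fin e.n) (Fin e.n)
      (MonoidAlgebra k (Cyc N × Multiplicative ℤ)))ˣ),
      (∀ z : Cen (φ (gen N)), fV k e φ z =
        glG io ((XG ψ' Y)⁻¹ * dgU k d z * XG ψ' Y)) →
      (∀ z : Cen (φ (gen N)), fV k e φ z * (XG φ Y)⁻¹ =
        glG io ((XG ψ' Y)⁻¹ * dgU k d z)) →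
      TF (fst (cup F)) 1 (DX e φ Y w) =
        (-1 : k) ^ (m + 1) * ∑ a : Fin e.n, ∑ c : Cyc N,
          dlog Y a c * ((w.sum (fun Z q => q * F' (fun i => if d a then Z i else 1) (ψ' c)) : ℚ)
            : k) -
        TF (fst (cup G0)) 1
          (hmap ℚ (fun z : Cen (φ (gen N)) => (XG ψ' Y)⁻¹ * dgU k d z * XG ψ' Y) (m + 2) w) := by
    intro Y h1 h2
    have h3 := hhtp k (Cyc N) (Cen (φ (gen N))) (Cen (φ (gen N))) ψ' (MonoidHom.id _) e.n d Y m w
      hw (fst (cup G0)) 1 hnull
    simp only [MonoidHom.id_apply] at h3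
    rw [step1 Y h1 h2, step2, step3, h3, sub_eq_add_neg]
  -- the sums
  have hsum : ∀ (a : Fin e.n) (c : Cyc N),
      w.sum (fun Z q => q * F' (fun i => if d a then Z i else 1) (ψ' c)) =
        if d a = true then evc (fun z : Cen (φ (gen N)) => (z : G)) F w (φ c) else 0 := by
    intro a c
    by_cases ha : d a = true
    · simp only [ha, if_true]
      have h1 : ∀ Z : Fin (m + 2) → Cen (φ (gen N)), F' Z (ψ' c) =
          F (fun i => (Z i : G)) (φ c) -
            ∑ i : Fin (m + 2), (-1 : ℚ) ^ (i : ℕ) * G0 (fun j => Z (i.succAbove j)) (ψ' c) := by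
        intro Z
        rw [← hGcob Z (ψ' c), ← hψ' c]
        change F' Z (ψ' c) = FP Z (ψ' c) - (FP Z (ψ' c) - F' Z (ψ' c))
        ring
      have h2 : w.sum (fun Z q => q *
          ∑ i : Fin (m + 2), (-1 : ℚ) ^ (i : ℕ) * G0 (fun j => Z (i.succAbove j)) (ψ' c)) = 0 := by
        rw [sum_bd (fun Z => G0 Z (ψ' c)) w]
        refine inv_hdeg _ (fun γ b => ?_) _ hw
        have h3 := hGinv γ b (ψ' c)
        have h4 : γ * ψ' c * γ⁻¹ = ψ' c := by
          rw [← (hcomm c γ).eq, mul_inv_cancel_right]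
        rw [h4] at h3
        exact h3
      unfold evc
      rw [← sub_zero (w.sum fun z c_1 => c_1 * F (fun i => (z i : G)) (φ c)), ← h2,
        ← Finsupp.sum_sub]
      refine Finsupp.sum_congr fun Z _ => ?_
      rw [h1 Z, mul_sub]
    · have ha' : d a = false := by simpa using ha
      simp only [ha', Bool.false_eq_true, if_false]
      exact const_zero _ F' hF' w hw (ψ' c)
  rw [val X hA hB, val X' hA' hB', hXX, sub_sub_sub_cancel_right, ← mul_sub,
    ← Finset.sum_sub_distrib]
  congr 1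
  simp only [← Finset.sum_sub_distrib, ← sub_mul]
  rw [Finset.sum_comm]
  refine Finset.sum_congr rfl fun c _ => ?_
  rw [Finset.sum_mul, Finset.sum_filter]
  refine Finset.sum_congr rfl fun a _ => ?_
  rw [hsum a c]
  split_ifs <;> simp

end Pool.Agent.FJA
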