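import Pool.Agent.FJA.St2
import Pool.Agent.FJA.P_TXA
import Pool.Agent.FJA.P_TXD

/-!
# Module EVA: evaluation of the conjugation homotopy
-/

set_option autoImplicit false

open Matrix Pool.Agent.WhK Pool.Agent.Lib25

noncomputable section

namespace Pool.Agent.FJA

namespace EVA

/-! ## Functions on recorded paths -/

section Fun

variable {Γ : Type} [Group Γ] {M : ℕ}

/-- The function which vanishes unless all the lists have length one. -/
def one1 (G : (Fin M → Γ) → Γ → ℚ) (μ : Rec Γ (Fin M)) : ℚ := by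
  classical
  exact if ∀ i, (μ.lst i).length = 1 then G (fun i => (μ.lst i).headD 1) μ.val else 0

theorem one1_pos (G : (Fin M → Γ) → Γ → ℚ) (μ : Rec Γ (Fin M)) (h : ∀ i, (μ.lst i).length = 1) :
    one1 G μ = G (fun i => (μ.lst i).headD 1) μ.val := by
  unfold one1
  exact if_pos h

theorem one1_neg (G : (Fin M → Γ) → Γ → ℚ) (μ : Rec Γ (Fin M))
    (h : ¬ ∀ i, (μ.lst i).length = 1) : one1 G μ = 0 := by
  unfold one1
  exact if_neg h

theorem fst_eq (G : (Fin M → Γ) → Γ → ℚ) (μ : Rec Γ (Fin M)) (h : ∀ i, (μ.lst i).length = 1) :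
    fst G μ = one1 G μ := by
  rw [one1_pos G μ h]
  unfold fst
  refine if_pos fun i h0 => ?_
  have := h i
  rw [h0] at this
  exact absurd this (by simp)

theorem one1_sub (G G' : (Fin M → Γ) → Γ → ℚ) (c : ℚ) (μ : Rec Γ (Fin M)) :
    one1 (fun a y => G a y - c * G' a y) μ = one1 G μ - c * one1 G' μ := by
  by_cases h : ∀ i, (μ.lst i).length = 1
  · rw [one1_pos _ μ h, one1_pos _ μ h, one1_pos _ μ h]
  · rw [one1_neg _ μ h, one1_neg _ μ h, one1_neg _ μ h, mul_zero, sub_zero]

/-- Moving a letter across a record. -/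
theorem shift (G : (Fin M → Γ) → Γ → ℚ) (μ ν : Rec Γ (Fin M)) (γ : Γ) (j : Fin M) :
    one1 G (μ * Rec.inc γ * Rec.om j * ν) =
      one1 (fun a y => G (Function.update a j (a j * γ)) y) (μ * Rec.om j * Rec.inc γ * ν) := by
  have hne : ∀ i, i ≠ j → (μ * Rec.inc γ * Rec.om j * ν).lst i =
      (μ * Rec.om j * Rec.inc γ * ν).lst i := by
    intro i hi
    simp [hi]
  have h1 : (μ * Rec.inc γ * Rec.om j * ν).lst j =
      μ.lst j ++ (μ.val * γ) :: (ν.lst j).map (μ.val * γ * ·) := by
    simp
  have h2 : (μ * Rec.om j * Rec.inc γ * ν).lst j =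
      μ.lst j ++ μ.val :: (ν.lst j).map (μ.val * γ * ·) := by
    simp
  have hval : (μ * Rec.inc γ * Rec.om j * ν).val = (μ * Rec.om j * Rec.inc γ * ν).val := by
    simp
  have hlen : ∀ i, ((μ * Rec.inc γ * Rec.om j * ν).lst i).length =
      ((μ * Rec.om j * Rec.inc γ * ν).lst i).length := by
    intro i
    by_cases hi : i = j
    · subst hi
      rw [h1, h2, List.length_append, List.length_append, List.length_cons, List.length_cons]
    · rw [hne i hi]
  by_cases h : ∀ i, ((μ * Rec.om j * Rec.inc γ * ν).lst i).length = 1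
  · rw [one1_pos _ _ h, one1_pos _ _ (fun i => (hlen i).trans (h i)), hval]
    congr 1
    funext i
    by_cases hi : i = j
    · subst hi
      have h3 := h i
      rw [h2, List.length_append, List.length_cons] at h3
      have h4 : μ.lst i = [] := List.length_eq_zero_iff.1 (by omega)
      rw [Function.update_self]
      change ((μ * Rec.inc γ * Rec.om i * ν).lst i).headD 1 =
        ((μ * Rec.om i * Rec.inc γ * ν).lst i).headD 1 * γ
      rw [h1, h2, h4]
      rfl
    · rw [Function.update_of_ne hi, hne i hi]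
  · rw [one1_neg _ _ h, one1_neg _ _ (fun h' => h fun i => (hlen i).symm.trans (h' i))]

/-- Two consecutive records. -/
theorem vanish (G : (Fin M → Γ) → Γ → ℚ) (γ : Γ) (i j : Fin M) (hij : i ≠ j)
    (hG : ∀ a y, a j = a i * γ → G a y = 0) (μ ν : Rec Γ (Fin M)) :
    one1 G (μ * (Rec.om i * Rec.inc γ * Rec.om j) * ν) = 0 := by
  by_cases h : ∀ l, ((μ * (Rec.om i * Rec.inc γ * Rec.om j) * ν).lst l).length = 1
  · rw [one1_pos _ _ h]
    apply hG
    have e1 : (μ * (Rec.om i * Rec.inc γ * Rec.om j) * ν).lst i =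
        μ.lst i ++ μ.val :: (ν.lst i).map (μ.val * γ * ·) := by
      simp [hij]
    have e2 : (μ * (Rec.om i * Rec.inc γ * Rec.om j) * ν).lst j =
        μ.lst j ++ (μ.val * γ) :: (ν.lst j).map (μ.val * γ * ·) := by
      simp [hij.symm]
    have h1 := h i
    have h2 := h j
    rw [e1, List.length_append, List.length_cons] at h1
    rw [e2, List.length_append, List.length_cons] at h2
    have h3 : μ.lst i = [] := List.length_eq_zero_iff.1 (by omega)
    have h4 : μ.lst j = [] := List.length_eq_zero_iff.1 (by omega)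
    rw [e1, e2, h3, h4]
    rfl
  · rw [one1_neg _ _ h]

/-- The path which visits and records the elements `g 0, g 1, …`. -/
theorem path_lst {V : Type} [DecidableEq V] : ∀ (n : ℕ) (e : Fin n → V), Function.Injective e →
    ∀ g : Fin n → Γ,
    ((List.ofFn fun i => Rec.inc (g i) * Rec.om (e i) * Rec.inc (g i)⁻¹).prod : Rec Γ V).val = 1 ∧
    (∀ i, ((List.ofFn fun i => Rec.inc (g i) * Rec.om (e i) * Rec.inc (g i)⁻¹).prod :
      Rec Γ V).lst (e i) = [g i]) ∧
    ∀ v, (∀ i, v ≠ e i) → ((List.ofFn fun i => Rec.inc (g i) * Rec.om (e i) *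
      Rec.inc (g i)⁻¹).prod : Rec Γ V).lst v = [] := by
  intro n
  induction n with
  | zero =>
    intro e _ g
    refine ⟨rfl, fun i => i.elim0, fun v _ => rfl⟩
  | succ n ih =>
    intro e he g
    obtain ⟨h1, h2, h3⟩ := ih (fun i => e i.succ) (fun i j hij => Fin.succ_injective _ (he hij))
      (fun i => g i.succ)
    rw [List.ofFn_succ, List.prod_cons]
    refine ⟨?_, ?_, ?_⟩
    · rw [Rec.mul_val, h1]
      simp
    · intro i
      refine Fin.cases ?_ (fun i => ?_) i
      · rw [Rec.mul_lst, h3 (e 0) (fun i h => absurd (he h) (Fin.succ_ne_zero i).symm)]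
        simp
      · have hne : e i.succ ≠ e 0 := fun h => absurd (he h) (Fin.succ_ne_zero i)
        rw [Rec.mul_lst, h2 i]
        simp [hne]
    · intro v hv
      rw [Rec.mul_lst, h3 v (fun i => hv i.succ)]
      simp [hv 0]

end Fun

/-! ## Products -/

theorem prod_last {R : Type} [Monoid R] {n : ℕ} (f : Fin (n + 1) → R) :
    (List.ofFn f).prod = (List.ofFn fun i => f (Fin.castSucc i)).prod * f (Fin.last n) := by
  rw [List.ofFn_succ', List.concat_eq_append, List.prod_append, List.prod_singleton]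

section Mat

variable {k : Type} [Field k] {R : Type} [Monoid R] {ι : Type} [Fintype ι] [DecidableEq ι]

/-- Diagonal matrices of elements of the monoid. -/
def dm (k : Type) [Field k] {R : Type} [Monoid R] {ι : Type} [Fintype ι] [DecidableEq ι]
    (p : ι → R) : Matrix ι ι (MonoidAlgebra k R) :=
  Matrix.diagonal fun a => MonoidAlgebra.single (p a) 1

theorem dm_mul (p q : ι → R) : dm k p * dm k q = dm k fun a => p a * q a := by
  unfold dm
  rw [Matrix.diagonal_mul_diagonal]
  congr 1
  funext a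
  rw [MonoidAlgebra.single_mul_single, one_mul]

theorem dm_one : dm k (fun _ : ι => (1 : R)) = 1 := by
  unfold dm
  rw [← Matrix.diagonal_one]
  rfl

theorem dm_prod : ∀ (n : ℕ) (p : Fin n → ι → R),
    (List.ofFn fun i => dm k (p i)).prod = dm k fun a => (List.ofFn fun i => p i a).prod := by
  intro n
  induction n with
  | zero =>
    intro p
    exact dm_one.symm
  | succ n ih =>
    intro p
    rw [List.ofFn_succ, List.prod_cons, ih fun i => p i.succ, dm_mul]
    congr 1
    funext a
    rw [List.ofFn_succ, List.prod_cons]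

/-- The trace of a product with two diagonal matrices. -/
theorem trace_dm (A B : Matrix ι ι (MonoidAlgebra k R)) (p : ι → R) :
    Matrix.trace (A * dm k p * B) = ∑ a, ∑ b, A a b * MonoidAlgebra.single (p b) 1 * B b a := by
  unfold Matrix.trace
  refine Finset.sum_congr rfl fun a _ => ?_
  rw [Matrix.diag_apply, Matrix.mul_apply]
  refine Finset.sum_congr rfl fun b _ => ?_
  unfold dm
  rw [Matrix.mul_diagonal]

theorem trace_dm_dm (W : Matrix ι ι (MonoidAlgebra k R)) (p q : ι → R) :
    Matrix.trace (dm k p * W * dm k q) =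
      ∑ a, MonoidAlgebra.single (p a) 1 * W a a * MonoidAlgebra.single (q a) 1 := by
  unfold Matrix.trace
  refine Finset.sum_congr rfl fun a _ => ?_
  unfold dm
  rw [Matrix.diag_apply, Matrix.mul_diagonal, Matrix.diagonal_mul]

theorem trace_left (A Y B : Matrix ι ι (MonoidAlgebra k R)) (p : R) :
    Matrix.trace (A * Y * dm k (fun _ => p) * B) =
      ∑ a, ∑ c, ∑ b, A a b * Y b c * MonoidAlgebra.single p 1 * B c a := by
  rw [trace_dm]
  refine Finset.sum_congr rfl fun a _ => Finset.sum_congr rfl fun c _ => ?_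
  rw [Matrix.mul_apply, Finset.sum_mul, Finset.sum_mul]

theorem trace_right (A Y B : Matrix ι ι (MonoidAlgebra k R)) (p : R) :
    Matrix.trace (A * dm k (fun _ => p) * Y * B) =
      ∑ a, ∑ c, ∑ b, A a b * MonoidAlgebra.single p 1 * Y b c * B c a := by
  unfold Matrix.trace
  refine Finset.sum_congr rfl fun a _ => ?_
  rw [Matrix.diag_apply, Matrix.mul_apply]
  refine Finset.sum_congr rfl fun c _ => ?_
  rw [Matrix.mul_apply, Finset.sum_mul]
  refine Finset.sum_congr rfl fun b _ => ?_
  unfold dm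
  rw [Matrix.mul_diagonal]

/-- A function which vanishes on the paths through `p` gives zero. -/
theorem lin_zero_of (φ : R → ℚ) (p : R) (h : ∀ μ ν, φ (μ * p * ν) = 0)
    (x z : MonoidAlgebra k R) : lin k φ (x * MonoidAlgebra.single p 1 * z) = 0 := by
  induction x using MonoidAlgebra.induction_linear with
  | zero => rw [zero_mul, zero_mul, map_zero]
  | add x y hx hy => rw [add_mul, add_mul, map_add, hx, hy, add_zero]
  | single μ c =>
    induction z using MonoidAlgebra.induction_linear with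
    | zero => rw [mul_zero, map_zero]
    | add x y hx hy => rw [mul_add, map_add, hx, hy, add_zero]
    | single ν c' =>
      rw [MonoidAlgebra.single_mul_single, MonoidAlgebra.single_mul_single, lin_single, h,
        Rat.cast_zero, mul_zero]

theorem lin_trace_zero (φ : R → ℚ) (p : ι → R) (h : ∀ a μ ν, φ (μ * p a * ν) = 0)
    (A B : Matrix ι ι (MonoidAlgebra k R)) : lin k φ (Matrix.trace (A * dm k p * B)) = 0 := by
  rw [trace_dm, map_sum]
  refine Finset.sum_eq_zero fun a _ => ?_
  rw [map_sum]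
  exact Finset.sum_eq_zero fun b _ => lin_zero_of φ (p b) (h b) _ _

end Mat

/-! ## The derivation -/

section Der

variable {k : Type} [Field k] {C : Type}

theorem dZ_single (g : C × Multiplicative ℤ) (q : k) :
    dZ (MonoidAlgebra.single g q) =
      MonoidAlgebra.single g (((Multiplicative.toAdd g.2 : ℤ) : k) * q) := by
  unfold dZ
  rw [MonoidAlgebra.coeff_single, Finsupp.sum_single_index (by rw [mul_zero, Finsupp.single_zero])]
  rfl

theorem dZ_zero : dZ (0 : MonoidAlgebra k (C × Multiplicative ℤ)) = 0 := by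
  unfold dZ
  rw [MonoidAlgebra.coeff_zero, Finsupp.sum_zero_index]
  rfl

theorem dZ_add (x y : MonoidAlgebra k (C × Multiplicative ℤ)) : dZ (x + y) = dZ x + dZ y := by
  unfold dZ
  rw [MonoidAlgebra.coeff_add, Finsupp.sum_add_index', MonoidAlgebra.ofCoeff_add]
  · intro g
    rw [mul_zero, Finsupp.single_zero]
  · intro g a b
    rw [mul_add, Finsupp.single_add]

theorem dZ_sum {J : Type} (s : Finset J) (f : J → MonoidAlgebra k (C × Multiplicative ℤ)) :
    dZ (∑ i ∈ s, f i) = ∑ i ∈ s, dZ (f i) := by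
  classical
  induction s using Finset.induction_on with
  | empty => rw [Finset.sum_empty, Finset.sum_empty, dZ_zero]
  | insert a s ha ih => rw [Finset.sum_insert ha, Finset.sum_insert ha, dZ_add, ih]

theorem dZ_mul [Group C] (x y : MonoidAlgebra k (C × Multiplicative ℤ)) :
    dZ (x * y) = dZ x * y + x * dZ y := by
  induction x using MonoidAlgebra.induction_linear with
  | zero => rw [zero_mul, dZ_zero, zero_mul, zero_mul, add_zero]
  | add x x' hx hx' =>
    rw [add_mul, dZ_add, hx, hx', dZ_add, add_mul, add_mul]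
    abel
  | single g c =>
    induction y using MonoidAlgebra.induction_linear with
    | zero => rw [mul_zero, dZ_zero, mul_zero, mul_zero, add_zero]
    | add y y' hy hy' =>
      rw [mul_add, dZ_add, hy, hy', dZ_add, mul_add, mul_add]
      abel
    | single h c' =>
      rw [MonoidAlgebra.single_mul_single, dZ_single, dZ_single, dZ_single,
        MonoidAlgebra.single_mul_single, MonoidAlgebra.single_mul_single, ← MonoidAlgebra.single_add]
      congr 1
      rw [Prod.snd_mul, toAdd_mul]
      push_cast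
      ring

theorem dZ_one [Group C] : dZ (1 : MonoidAlgebra k (C × Multiplicative ℤ)) = 0 := by
  have h1 : (1 : MonoidAlgebra k (C × Multiplicative ℤ)) = MonoidAlgebra.single 1 1 := rfl
  rw [h1, dZ_single, Prod.snd_one, toAdd_one, Int.cast_zero, zero_mul, MonoidAlgebra.single_zero]

theorem map_dZ_mul [Group C] {ι : Type} [Fintype ι] [DecidableEq ι]
    (A B : Matrix ι ι (MonoidAlgebra k (C × Multiplicative ℤ))) :
    (A * B).map dZ = A.map dZ * B + A * B.map dZ := by
  ext1 i j
  rw [Matrix.map_apply, Matrix.mul_apply, dZ_sum, Matrix.add_apply, Matrix.mul_apply,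
    Matrix.mul_apply, ← Finset.sum_add_distrib]
  refine Finset.sum_congr rfl fun l _ => ?_
  rw [dZ_mul]
  rfl

theorem map_dZ_one [Group C] {ι : Type} [Fintype ι] [DecidableEq ι] :
    (1 : Matrix ι ι (MonoidAlgebra k (C × Multiplicative ℤ))).map dZ = 0 := by
  ext1 i j
  rw [Matrix.map_apply, Matrix.one_apply, Matrix.zero_apply]
  split_ifs
  · exact dZ_one
  · exact dZ_zero

theorem der_inv [Group C] {ι : Type} [Fintype ι] [DecidableEq ι]
    (X : (Matrix ι ι (MonoidAlgebra k (C × Multiplicative ℤ)))ˣ) :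
    X.val.map dZ * (X⁻¹).val = - (X.val * (X⁻¹).val.map dZ) := by
  have h1 := map_dZ_mul X.val (X⁻¹).val
  rw [Units.mul_inv, map_dZ_one] at h1
  exact eq_neg_of_add_eq_zero_left h1.symm

end Der

/-! ## The pieces of the proof -/

section Pieces

variable {k : Type} [Field k] [CharZero k] {C P : Type} [Group C] [Group P] {V : Type}
  {ι : Type} [Fintype ι] [DecidableEq ι]

/-- The ring homomorphism from `k[C × Z']` to the algebra of recorded paths in `P × Z'`. -/
def JC (k : Type) [Field k] {C P : Type} [Group C] [Group P] (ψ : C →* P) (V : Type) :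
    MonoidAlgebra k (C × Multiplicative ℤ) →+*
      MonoidAlgebra k (Rec (P × Multiplicative ℤ) V) :=
  (MonoidAlgebra.mapDomainRingHom k (Rec.inc (Γ := P × Multiplicative ℤ) (V := V))).comp
    (MonoidAlgebra.mapDomainRingHom k (MonoidHom.prodMap ψ (MonoidHom.id (Multiplicative ℤ))))

omit [CharZero k] in
theorem JC_single (ψ : C →* P) (c : C) (α : Multiplicative ℤ) (q : k) :
    JC k ψ V (MonoidAlgebra.single (c, α) q) = MonoidAlgebra.single (Rec.inc (ψ c, α)) q := by
  change MonoidAlgebra.mapDomain _ (MonoidAlgebra.mapDomain _ (MonoidAlgebra.single (c, α) q)) = _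
  rw [MonoidAlgebra.mapDomain_single, MonoidAlgebra.mapDomain_single]
  rfl

omit [CharZero k] in
theorem jm_XG (ψ : C →* P) (X : (Matrix ι ι (MonoidAlgebra k (C × Multiplicative ℤ)))ˣ) :
    jm k V (XG ψ X).val = X.val.map (JC k ψ V) := rfl

omit [CharZero k] in
theorem jm_XG_inv (ψ : C →* P) (X : (Matrix ι ι (MonoidAlgebra k (C × Multiplicative ℤ)))ˣ) :
    jm k V ((XG ψ X)⁻¹).val = (X⁻¹).val.map (JC k ψ V) := rfl

theorem move_scalar [DecidableEq V] (ψ : C →* P) (j : V)
    (φ φ0 : Rec (P × Multiplicative ℤ) V → ℚ)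
    (h : ∀ μ ν c α, φ (μ * Rec.inc (ψ c, α) * Rec.om j * ν) =
      φ (μ * Rec.om j * Rec.inc (ψ c, α) * ν) -
        ((Multiplicative.toAdd α : ℤ) : ℚ) * φ0 (μ * Rec.om j * Rec.inc (ψ c, α) * ν))
    (x z : MonoidAlgebra k (Rec (P × Multiplicative ℤ) V))
    (y : MonoidAlgebra k (C × Multiplicative ℤ)) :
    lin k φ (x * JC k ψ V y * MonoidAlgebra.single (Rec.om j) 1 * z) =
      lin k φ (x * MonoidAlgebra.single (Rec.om j) 1 * JC k ψ V y * z) -
        lin k φ0 (x * MonoidAlgebra.single (Rec.om j) 1 * JC k ψ V (dZ y) * z) := by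
  induction y using MonoidAlgebra.induction_linear with
  | zero => simp only [dZ_zero, map_zero, mul_zero, zero_mul, sub_zero]
  | add y y' hy hy' =>
    simp only [dZ_add, map_add, mul_add, add_mul, hy, hy']
    ring
  | single g q =>
    obtain ⟨c, α⟩ := g
    rw [dZ_single, JC_single, JC_single]
    induction x using MonoidAlgebra.induction_linear with
    | zero => simp only [map_zero, zero_mul, sub_zero]
    | add x x' hx hx' =>
      simp only [map_add, add_mul, hx, hx']
      ring
    | single μ a =>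
      induction z using MonoidAlgebra.induction_linear with
      | zero => simp only [map_zero, mul_zero, sub_zero]
      | add x x' hx hx' =>
        simp only [map_add, mul_add, hx, hx']
        ring
      | single ν b =>
        simp only [MonoidAlgebra.single_mul_single, lin_single]
        rw [h]
        push_cast
        ring

theorem move [DecidableEq V] (ψ : C →* P) (j : V)
    (φ φ0 : Rec (P × Multiplicative ℤ) V → ℚ)
    (h : ∀ μ ν c α, φ (μ * Rec.inc (ψ c, α) * Rec.om j * ν) =
      φ (μ * Rec.om j * Rec.inc (ψ c, α) * ν) -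
        ((Multiplicative.toAdd α : ℤ) : ℚ) * φ0 (μ * Rec.om j * Rec.inc (ψ c, α) * ν))
    (A B : Matrix ι ι (MonoidAlgebra k (Rec (P × Multiplicative ℤ) V)))
    (Y : Matrix ι ι (MonoidAlgebra k (C × Multiplicative ℤ))) :
    lin k φ (Matrix.trace (A * Y.map (JC k ψ V) * dm k (fun _ => Rec.om j) * B)) =
      lin k φ (Matrix.trace (A * dm k (fun _ => Rec.om j) * Y.map (JC k ψ V) * B)) -
        lin k φ0 (Matrix.trace (A * dm k (fun _ => Rec.om j) * (Y.map dZ).map (JC k ψ V) * B)) := by
  rw [trace_left, trace_right, trace_right]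
  simp only [map_sum]
  rw [← Finset.sum_sub_distrib]
  refine Finset.sum_congr rfl fun a _ => ?_
  rw [← Finset.sum_sub_distrib]
  refine Finset.sum_congr rfl fun c _ => ?_
  rw [← Finset.sum_sub_distrib]
  refine Finset.sum_congr rfl fun b _ => ?_
  exact move_scalar ψ j φ φ0 h (A a b) (B c a) (Y b c)

theorem lin_JC [Fintype C] (ψ : C →* P) (φ0 : Rec (P × Multiplicative ℤ) V → ℚ)
    (κ κ' : Rec (P × Multiplicative ℤ) V) (Fv : C → ℚ)
    (h : ∀ c α, φ0 (κ * Rec.inc (ψ c, α) * κ') = if α = 1 then Fv c else 0)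
    (w : MonoidAlgebra k (C × Multiplicative ℤ)) :
    lin k φ0 (MonoidAlgebra.single κ 1 * JC k ψ V w * MonoidAlgebra.single κ' 1) =
      ∑ c, w.coeff (c, 1) * ((Fv c : ℚ) : k) := by
  classical
  induction w using MonoidAlgebra.induction_linear with
  | zero => simp
  | add x y hx hy =>
    simp only [map_add, mul_add, add_mul, hx, hy, MonoidAlgebra.coeff_add, Finsupp.add_apply,
      Finset.sum_add_distrib]
  | single g q =>
    obtain ⟨c, α⟩ := g
    rw [JC_single, MonoidAlgebra.single_mul_single, MonoidAlgebra.single_mul_single, lin_single, h,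
      one_mul, mul_one, Finset.sum_eq_single c]
    · rw [MonoidAlgebra.coeff_single, Finsupp.single_apply]
      by_cases hα : α = 1
      · rw [if_pos hα, hα, if_pos rfl]
      · rw [if_neg hα, if_neg (fun h' => hα (congrArg Prod.snd h')), Rat.cast_zero, mul_zero,
          zero_mul]
    · intro c' _ hc'
      rw [MonoidAlgebra.coeff_single, Finsupp.single_apply,
        if_neg (fun h' => hc' (congrArg Prod.fst h').symm), zero_mul]
    · intro h'
      exact absurd (Finset.mem_univ c) h'

omit [CharZero k] in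
theorem jm_dm {Γ : Type} [Group Γ] (p : ι → Γ) :
    jm k V (dm k p) = dm k fun a => Rec.inc (p a) := by
  unfold jm dm
  change (Matrix.diagonal _).map _ = _
  rw [Matrix.diagonal_map (map_zero _)]
  congr 1
  funext a
  exact MonoidAlgebra.mapDomain_single

end Pieces

/-! ## Diagonal matrices -/

section Diag

variable {k : Type} [Field k] {P : Type} [Group P] {r : ℕ} (d : Fin r → Bool)

/-- The diagonal entries of `dgU`. -/
def zz (z : P) (a : Fin r) : P := if d a then z else 1

theorem dgU_val (z : P) : (dgU k d z).val = dm k fun a => (zz d z a, (1 : Multiplicative ℤ)) := by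
  change Matrix.diagonal _ = Matrix.diagonal _
  congr 1
  funext a
  change (if d a then MonoidAlgebra.single (z, 1) 1 else 1 :
      MonoidAlgebra k (P × Multiplicative ℤ)) =
    MonoidAlgebra.single ((if d a then z else 1 : P), (1 : Multiplicative ℤ)) 1
  by_cases h : d a = true
  · rw [if_pos h, if_pos h]
  · rw [if_neg h, if_neg h]
    rfl

theorem dgU_inv (z : P) :
    ((dgU k d z)⁻¹).val = dm k fun a => (zz d z a, (1 : Multiplicative ℤ))⁻¹ := by
  change Matrix.diagonal _ = Matrix.diagonal _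
  congr 1
  funext a
  change (if d a then MonoidAlgebra.single (z⁻¹, 1) 1 else 1 :
      MonoidAlgebra k (P × Multiplicative ℤ)) =
    MonoidAlgebra.single ((if d a then z else 1 : P), (1 : Multiplicative ℤ))⁻¹ 1
  by_cases h : d a = true
  · rw [if_pos h, if_pos h]
    rfl
  · rw [if_neg h, if_neg h, Prod.inv_mk, inv_one, inv_one]
    rfl

end Diag

/-! ## The functions -/

section Cup

variable {C P : Type} [Group C] [Group P] {m : ℕ}

/-- The factor `F` of the cup product. -/
def G0 (F : (Fin (m + 1) → P) → P → ℚ) (a : Fin (m + 2) → P × Multiplicative ℤ)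
    (y : P × Multiplicative ℤ) : ℚ :=
  if y.2 = 1 then F (fun i => (a i.castSucc).1) y.1 else 0

theorem cup_eq (F : (Fin (m + 1) → P) → P → ℚ) (a : Fin (m + 2) → P × Multiplicative ℤ)
    (y : P × Multiplicative ℤ) : cup F a y = G0 F a y *
      ((Multiplicative.toAdd (a (Fin.last (m + 1))).2 -
        Multiplicative.toAdd (a (Fin.last m).castSucc).2 : ℤ) : ℚ) := by
  unfold cup G0
  split_ifs
  · rfl
  · rw [zero_mul]

theorem cup_zero (F : (Fin (m + 1) → P) → P → ℚ) (γ : P × Multiplicative ℤ) (hγ : γ.2 = 1)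
    (a : Fin (m + 2) → P × Multiplicative ℤ) (y : P × Multiplicative ℤ)
    (h : a (Fin.last (m + 1)) = a (Fin.last m).castSucc * γ) : cup F a y = 0 := by
  rw [cup_eq, h, Prod.snd_mul, hγ, mul_one, sub_self, Int.cast_zero, mul_zero]

variable (ψ : C →* P) (hψ : ∀ c p, Commute (ψ c) p) (F : (Fin (m + 1) → P) → P → ℚ)
  (hF : ∀ (t : Fin (m + 1) → C) (a : Fin (m + 1) → P) (y : P),
    F (fun i => ψ (t i) * a i) y = F a y)

include hψ hF

theorem G0_update (a : Fin (m + 2) → P × Multiplicative ℤ) (y : P × Multiplicative ℤ)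
    (j : Fin (m + 2)) (c : C) (α : Multiplicative ℤ) :
    G0 F (Function.update a j (a j * (ψ c, α))) y = G0 F a y := by
  unfold G0
  split_ifs
  · have h1 := hF (fun i => if i.castSucc = j then c else 1) (fun i => (a i.castSucc).1) y.1
    rw [← h1]
    congr 1
    funext i
    by_cases hi : i.castSucc = j
    · subst hi
      rw [Function.update_self, if_pos rfl, Prod.fst_mul, (hψ c _).eq]
    · rw [Function.update_of_ne hi, if_neg hi, map_one, one_mul]
  · rfl

theorem cup_update_lt (a : Fin (m + 2) → P × Multiplicative ℤ) (y : P × Multiplicative ℤ)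
    (j : Fin (m + 2)) (hj : j.val < m) (c : C) (α : Multiplicative ℤ) :
    cup F (Function.update a j (a j * (ψ c, α))) y = cup F a y := by
  have h1 : Fin.last (m + 1) ≠ j := by
    intro h
    rw [← h] at hj
    simp at hj
  have h2 : (Fin.last m).castSucc ≠ j := by
    intro h
    rw [← h] at hj
    simp at hj
  rw [cup_eq, cup_eq, G0_update ψ hψ F hF, Function.update_of_ne h1, Function.update_of_ne h2]

theorem cup_update_eq (a : Fin (m + 2) → P × Multiplicative ℤ) (y : P × Multiplicative ℤ)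
    (c : C) (α : Multiplicative ℤ) :
    cup F (Function.update a (Fin.last m).castSucc (a (Fin.last m).castSucc * (ψ c, α))) y =
      cup F a y - ((Multiplicative.toAdd α : ℤ) : ℚ) * G0 F a y := by
  have h1 : Fin.last (m + 1) ≠ (Fin.last m).castSucc := by
    intro h
    have := congrArg Fin.val h
    simp at this
  rw [cup_eq, cup_eq, G0_update ψ hψ F hF, Function.update_of_ne h1, Function.update_self,
    Prod.snd_mul, toAdd_mul]
  push_cast
  ring

end Cup

/-! ## The two cases -/

section Cases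

variable {k : Type} [Field k] [CharZero k] {C P : Type} [Group C] [Group P] {m r : ℕ}

/-- A factor of `UX`. -/
def fac {Γ : Type} [Group Γ] {M : ℕ} (W : Fin M → (Matrix (Fin r) (Fin r) (MonoidAlgebra k Γ))ˣ)
    (i : Fin M) : Matrix (Fin r) (Fin r) (MonoidAlgebra k (Rec Γ (Fin M))) :=
  jm k (Fin M) (W i).val * dm k (fun _ => Rec.om i) * jm k (Fin M) ((W i)⁻¹).val

omit [CharZero k] in
theorem UX_last {Γ : Type} [Group Γ]
    (W : Fin (m + 2) → (Matrix (Fin r) (Fin r) (MonoidAlgebra k Γ))ˣ) :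
    UX W = (List.ofFn fun i : Fin m => fac W i.castSucc.castSucc).prod *
      fac W (Fin.last m).castSucc * fac W (Fin.last (m + 1)) := by
  have h1 : UX W = (List.ofFn (fac W)).prod := rfl
  rw [h1, prod_last, prod_last]

/-- The first case: the last two vertices are diagonal. -/
theorem case_one (F : (Fin (m + 1) → P) → P → ℚ) (d : Fin r → Bool)
    (W : Fin (m + 2) → (Matrix (Fin r) (Fin r) (MonoidAlgebra k (P × Multiplicative ℤ)))ˣ)
    (z z' : P) (h1 : W (Fin.last m).castSucc = dgU k d z) (h2 : W (Fin.last (m + 1)) = dgU k d z') :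
    lin k (one1 (cup F)) (Matrix.trace (UX W)) = 0 := by
  rw [UX_last]
  unfold fac
  rw [h1, h2, dgU_val, dgU_inv, dgU_val, dgU_inv, jm_dm, jm_dm, jm_dm, jm_dm, dm_mul, dm_mul,
    dm_mul, dm_mul, mul_assoc, dm_mul]
  set L := (List.ofFn fun i : Fin m => fac W i.castSucc.castSucc).prod with hL
  have e : (dm k fun a : Fin r => (Rec.inc (zz d z a, (1 : Multiplicative ℤ)) *
        Rec.om (Fin.last m).castSucc * Rec.inc (zz d z a, (1 : Multiplicative ℤ))⁻¹ *
        (Rec.inc (zz d z' a, (1 : Multiplicative ℤ)) * Rec.om (Fin.last (m + 1)) *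
          Rec.inc (zz d z' a, (1 : Multiplicative ℤ))⁻¹) :
            Rec (P × Multiplicative ℤ) (Fin (m + 2)))) =
      (dm k fun a => Rec.inc (zz d z a, (1 : Multiplicative ℤ))) *
        (dm k fun a => Rec.om (Fin.last m).castSucc *
          Rec.inc ((zz d z a, (1 : Multiplicative ℤ))⁻¹ * (zz d z' a, (1 : Multiplicative ℤ))) *
          Rec.om (Fin.last (m + 1))) *
        (dm k fun a => Rec.inc (zz d z' a, (1 : Multiplicative ℤ))⁻¹) := by
    rw [dm_mul, dm_mul]
    congr 1
    funext a
    rw [map_mul]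
    simp only [mul_assoc]
  rw [e, ← mul_assoc, ← mul_assoc]
  apply lin_trace_zero
  intro a μ ν
  apply vanish
  · intro h
    have := congrArg Fin.val h
    simp at this
  · intro a' y h
    refine cup_zero F _ ?_ a' y h
    rw [Prod.snd_mul, Prod.snd_inv, inv_one, one_mul]

/-- The value on the paths of the second case. -/
theorem std_eval (F : (Fin (m + 1) → P) → P → ℚ) (ψ : C →* P) (hψ : ∀ c p, Commute (ψ c) p)
    (d : Fin r → Bool) (Z : Fin (m + 1) → P) (a : Fin r) (c : C) (α : Multiplicative ℤ) :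
    one1 (G0 F) ((List.ofFn fun i : Fin m =>
        Rec.inc (zz d (Z i.castSucc) a, (1 : Multiplicative ℤ)) * Rec.om i.castSucc.castSucc *
          Rec.inc (zz d (Z i.castSucc) a, (1 : Multiplicative ℤ))⁻¹).prod *
      Rec.inc (zz d (Z (Fin.last m)) a, (1 : Multiplicative ℤ)) * Rec.om (Fin.last m).castSucc *
      Rec.inc (ψ c, α) *
      (Rec.om (Fin.last (m + 1)) *
        Rec.inc (zz d (Z (Fin.last m)) a, (1 : Multiplicative ℤ))⁻¹)) =
      if α = 1 then F (fun i => if d a then Z i else 1) (ψ c) else 0 := by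
  set gm : P × Multiplicative ℤ := (zz d (Z (Fin.last m)) a, (1 : Multiplicative ℤ)) with hgm
  set g : Fin (m + 2) → P × Multiplicative ℤ :=
    Fin.snoc (α := fun _ => P × Multiplicative ℤ)
      (fun i : Fin (m + 1) => (zz d (Z i) a, (1 : Multiplicative ℤ))) (gm * (ψ c, α)) with hg
  have hg1 : ∀ i : Fin (m + 1), g i.castSucc = (zz d (Z i) a, (1 : Multiplicative ℤ)) := by
    intro i
    rw [hg, Fin.snoc_castSucc]
  have hg2 : g (Fin.last (m + 1)) = gm * (ψ c, α) := by
    rw [hg, Fin.snoc_last]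
  have hgm2 : g (Fin.last m).castSucc = gm := hg1 (Fin.last m)
  obtain ⟨s1, s2, -⟩ := path_lst (m + 2) (fun i : Fin (m + 2) => i) (fun i j h => h) g
  set S : Rec (P × Multiplicative ℤ) (Fin (m + 2)) :=
    (List.ofFn fun i => Rec.inc (g i) * Rec.om i * Rec.inc (g i)⁻¹).prod with hS
  have e1 : ((List.ofFn fun i : Fin m =>
        Rec.inc (zz d (Z i.castSucc) a, (1 : Multiplicative ℤ)) * Rec.om i.castSucc.castSucc *
          Rec.inc (zz d (Z i.castSucc) a, (1 : Multiplicative ℤ))⁻¹).prod *
      Rec.inc gm * Rec.om (Fin.last m).castSucc * Rec.inc (ψ c, α) *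
      (Rec.om (Fin.last (m + 1)) * Rec.inc gm⁻¹) : Rec (P × Multiplicative ℤ) (Fin (m + 2))) =
      S * Rec.inc (gm * (ψ c, α) * gm⁻¹) := by
    rw [hS, prod_last, prod_last, hg2, hgm2]
    simp only [hg1]
    have e2 : (Rec.inc gm⁻¹ * Rec.inc (gm * (ψ c, α)) : Rec (P × Multiplicative ℤ) (Fin (m + 2))) =
        Rec.inc (ψ c, α) := by
      rw [← map_mul, inv_mul_cancel_left]
    have e3 : (Rec.inc (gm * (ψ c, α))⁻¹ * Rec.inc (gm * (ψ c, α) * gm⁻¹) :
        Rec (P × Multiplicative ℤ) (Fin (m + 2))) = Rec.inc gm⁻¹ := by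
      rw [← map_mul, inv_mul_cancel_left]
    simp only [mul_assoc] at e3 ⊢
    rw [e3]
    rw [← mul_assoc (Rec.inc gm⁻¹) (Rec.inc (gm * (ψ c, α))), e2]
  have hval : gm * (ψ c, α) * gm⁻¹ = (ψ c, α) := by
    rw [hgm, Prod.mk_mul_mk, Prod.inv_mk, Prod.mk_mul_mk, inv_one, one_mul, mul_one,
      ← (hψ c _).eq, mul_inv_cancel_right]
  rw [e1, hval]
  have hl : ∀ i, (S * Rec.inc (ψ c, α)).lst i = [g i] := by
    intro i
    rw [Rec.mul_lst, s2 i]
    rfl
  rw [one1_pos]
  · have e4 : (fun i => ((S * Rec.inc (ψ c, α)).lst i).headD 1) = g := by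
      funext i
      rw [hl i]
      rfl
    rw [e4, Rec.mul_val, s1, one_mul, Rec.inc_val]
    unfold G0
    simp only [hg1]
    rfl
  · intro i
    rw [hl i]
    rfl

/-- The second case. -/
theorem case_two [Fintype C] (F : (Fin (m + 1) → P) → P → ℚ) (ψ : C →* P)
    (hψ : ∀ c p, Commute (ψ c) p)
    (hF : ∀ (t : Fin (m + 1) → C) (a : Fin (m + 1) → P) (y : P),
      F (fun i => ψ (t i) * a i) y = F a y)
    (d : Fin r → Bool) (X : (Matrix (Fin r) (Fin r) (MonoidAlgebra k (C × Multiplicative ℤ)))ˣ)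
    (Z : Fin (m + 1) → P)
    (W : Fin (m + 2) → (Matrix (Fin r) (Fin r) (MonoidAlgebra k (P × Multiplicative ℤ)))ˣ)
    (h0 : ∀ i : Fin m, W i.castSucc.castSucc = dgU k d (Z i.castSucc))
    (h1 : W (Fin.last m).castSucc = dgU k d (Z (Fin.last m)) * XG ψ X)
    (h2 : W (Fin.last (m + 1)) = dgU k d (Z (Fin.last m))) :
    lin k (one1 (cup F)) (Matrix.trace (UX W)) =
      ∑ a : Fin r, ∑ c : C,
        dlog X a c * ((F (fun i => if d a then Z i else 1) (ψ c) : ℚ) : k) := by
  set L := (List.ofFn fun i : Fin m => fac W i.castSucc.castSucc).prod with hL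
  set D := jm k (Fin (m + 2)) (dgU k d (Z (Fin.last m))).val with hD
  set Di := jm k (Fin (m + 2)) ((dgU k d (Z (Fin.last m)))⁻¹).val with hDi
  set o : Matrix (Fin r) (Fin r) (MonoidAlgebra k (Rec (P × Multiplicative ℤ) (Fin (m + 2)))) :=
    dm k (fun _ => Rec.om (Fin.last m).castSucc) with ho
  set o' : Matrix (Fin r) (Fin r) (MonoidAlgebra k (Rec (P × Multiplicative ℤ) (Fin (m + 2)))) :=
    dm k (fun _ => Rec.om (Fin.last (m + 1))) with ho'
  set XJ := X.val.map (JC k ψ (Fin (m + 2))) with hXJ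
  set XJi := (X⁻¹).val.map (JC k ψ (Fin (m + 2))) with hXJi
  have hDD : Di * D = 1 := by
    rw [hDi, hD, ← map_mul, Units.inv_mul, map_one]
  have hXX : XJ * XJi = 1 := by
    have e1 : jm k (Fin (m + 2)) (XG ψ X).val * jm k (Fin (m + 2)) ((XG ψ X)⁻¹).val = 1 := by
      rw [← map_mul, Units.mul_inv, map_one]
    exact e1
  have eU : UX W = (L * D) * XJ * o * (XJi * o' * Di) := by
    rw [UX_last, ← hL]
    have f1 : fac W (Fin.last m).castSucc = D * XJ * o * (XJi * Di) := by
      unfold fac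
      rw [h1, _root_.mul_inv_rev, Units.val_mul, Units.val_mul, map_mul, map_mul]
      rfl
    have f2 : fac W (Fin.last (m + 1)) = D * o' * Di := by
      unfold fac
      rw [h2]
    rw [f1, f2]
    have e3 : Di * (D * (o' * Di)) = o' * Di := by
      rw [← mul_assoc, hDD, one_mul]
    simp only [mul_assoc, e3]
  have hmv : ∀ (μ ν : Rec (P × Multiplicative ℤ) (Fin (m + 2))) (c : C) (α : Multiplicative ℤ),
      one1 (cup F) (μ * Rec.inc (ψ c, α) * Rec.om (Fin.last m).castSucc * ν) =
      one1 (cup F) (μ * Rec.om (Fin.last m).castSucc * Rec.inc (ψ c, α) * ν) -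
        ((Multiplicative.toAdd α : ℤ) : ℚ) *
          one1 (G0 F) (μ * Rec.om (Fin.last m).castSucc * Rec.inc (ψ c, α) * ν) := by
    intro μ ν c α
    rw [shift, ← one1_sub]
    congr 1
    funext a y
    exact cup_update_eq ψ hψ F hF a y c α
  rw [eU, hXJ, ho, move ψ (Fin.last m).castSucc (one1 (cup F)) (one1 (G0 F)) hmv, ← hXJ, ← ho]
  -- the first term
  have t1 : lin k (one1 (cup F)) (Matrix.trace (L * D * o * XJ * (XJi * o' * Di))) = 0 := by
    have e1 : L * D * o * XJ * (XJi * o' * Di) = L * D *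
        dm k (fun _ => Rec.om (Fin.last m).castSucc * Rec.inc 1 * Rec.om (Fin.last (m + 1))) *
        Di := by
      have e2 : o * o' = dm k (fun _ => Rec.om (Fin.last m).castSucc * Rec.inc 1 *
          Rec.om (Fin.last (m + 1))) := by
        rw [ho, ho', dm_mul, map_one]
        simp only [mul_one]
      rw [← e2]
      have e3 : XJ * (XJi * (o' * Di)) = o' * Di := by
        rw [← mul_assoc, hXX, one_mul]
      simp only [mul_assoc, e3]
    rw [e1]
    apply lin_trace_zero
    intro a μ ν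
    apply vanish
    · intro h
      have := congrArg Fin.val h
      simp at this
    · intro a' y h
      exact cup_zero F 1 rfl a' y h
  rw [t1, zero_sub]
  -- the second term
  have e5 : L * D * o * (X.val.map dZ).map (JC k ψ (Fin (m + 2))) * (XJi * o' * Di) =
      -(L * D * o * (X.val * (X⁻¹).val.map dZ).map (JC k ψ (Fin (m + 2))) * (o' * Di)) := by
    have e6 : (X.val.map dZ).map (JC k ψ (Fin (m + 2))) * XJi =
        -((X.val * (X⁻¹).val.map dZ).map (JC k ψ (Fin (m + 2)))) := by
      rw [hXJi, ← Matrix.map_mul, der_inv]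
      exact map_neg (JC k ψ (Fin (m + 2))).mapMatrix (X.val * (X⁻¹).val.map dZ)
    have e7 : (X.val.map dZ).map (JC k ψ (Fin (m + 2))) * (XJi * (o' * Di)) =
        -((X.val * (X⁻¹).val.map dZ).map (JC k ψ (Fin (m + 2)))) * (o' * Di) := by
      rw [← mul_assoc, e6]
    simp only [mul_assoc, e7, neg_mul, mul_neg]
  rw [e5, Matrix.trace_neg, map_neg, neg_neg]
  -- everything is diagonal
  have hLd : L = dm k fun a => (List.ofFn fun i : Fin m =>
        Rec.inc (zz d (Z i.castSucc) a, (1 : Multiplicative ℤ)) * Rec.om i.castSucc.castSucc *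
          Rec.inc (zz d (Z i.castSucc) a, (1 : Multiplicative ℤ))⁻¹).prod := by
    rw [hL, ← dm_prod]
    congr 2
    funext i
    unfold fac
    rw [h0, dgU_val, dgU_inv, jm_dm, jm_dm, dm_mul, dm_mul]
  have hA : L * D * o = dm k fun a => (List.ofFn fun i : Fin m =>
        Rec.inc (zz d (Z i.castSucc) a, (1 : Multiplicative ℤ)) * Rec.om i.castSucc.castSucc *
          Rec.inc (zz d (Z i.castSucc) a, (1 : Multiplicative ℤ))⁻¹).prod *
      Rec.inc (zz d (Z (Fin.last m)) a, (1 : Multiplicative ℤ)) *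
      Rec.om (Fin.last m).castSucc := by
    rw [hLd, hD, ho, dgU_val, jm_dm, dm_mul, dm_mul]
  have hB : o' * Di = dm k fun a => Rec.om (Fin.last (m + 1)) *
      Rec.inc (zz d (Z (Fin.last m)) a, (1 : Multiplicative ℤ))⁻¹ := by
    rw [hDi, ho', dgU_inv, jm_dm, dm_mul]
  rw [hA, hB, trace_dm_dm, map_sum]
  refine Finset.sum_congr rfl fun a _ => ?_
  rw [Matrix.map_apply]
  exact lin_JC ψ (one1 (G0 F)) _ _ (fun c => F (fun i => if d a then Z i else 1) (ψ c))
    (fun c α => std_eval F ψ hψ d Z a c α) _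

end Cases

/-! ## Conjugation -/

section Conj

variable {P : Type} [Group P] {m : ℕ}

theorem cup_inv (F : (Fin (m + 1) → P) → P → ℚ)
    (hF : ∀ (γ : P) (a : Fin (m + 1) → P) (y : P), F (fun i => γ * a i) (γ * y * γ⁻¹) = F a y)
    (γ : P × Multiplicative ℤ) (a : Fin (m + 2) → P × Multiplicative ℤ)
    (y : P × Multiplicative ℤ) : cup F (fun i => γ * a i) (γ * y * γ⁻¹) = cup F a y := by
  have h1 : (γ * y * γ⁻¹).2 = y.2 := by
    rw [Prod.snd_mul, Prod.snd_mul, Prod.snd_inv, mul_comm γ.2, mul_inv_cancel_right]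
  unfold cup
  rw [h1]
  by_cases h : y.2 = 1
  · rw [if_pos h, if_pos h, Prod.snd_mul, Prod.snd_mul, toAdd_mul, toAdd_mul,
      add_sub_add_left_eq_sub]
    congr 1
    exact hF γ.1 (fun i => (a i.castSucc).1) y.1
  · rw [if_neg h, if_neg h]

theorem fst_pos {Γ : Type} [Group Γ] {M : ℕ} (F : (Fin M → Γ) → Γ → ℚ) (μ : Rec Γ (Fin M))
    (h : ∀ i, μ.lst i ≠ []) : fst F μ = F (fun i => (μ.lst i).headD 1) μ.val := by
  unfold fst
  exact if_pos h

theorem fst_neg {Γ : Type} [Group Γ] {M : ℕ} (F : (Fin M → Γ) → Γ → ℚ) (μ : Rec Γ (Fin M))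
    (h : ¬ ∀ i, μ.lst i ≠ []) : fst F μ = 0 := by
  unfold fst
  exact if_neg h

theorem cj_fst (F : (Fin (m + 1) → P) → P → ℚ)
    (hF : ∀ (γ : P) (a : Fin (m + 1) → P) (y : P), F (fun i => γ * a i) (γ * y * γ⁻¹) = F a y) :
    CjInv (fst (cup F)) := by
  intro γ μ
  have e1 : ∀ i, (Rec.inc γ * μ).lst i = (μ.lst i).map (γ * ·) := fun i => by simp
  have e2 : ∀ i, (μ * Rec.inc γ).lst i = μ.lst i := fun i => by simp
  by_cases h : ∀ i, μ.lst i ≠ []
  · rw [fst_pos _ _ (fun i => by rw [e1 i]; simpa using h i),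
      fst_pos _ _ (fun i => by rw [e2 i]; exact h i)]
    have e3 : (fun i => ((Rec.inc γ * μ).lst i).headD 1) =
        fun i => γ * ((μ * Rec.inc γ).lst i).headD 1 := by
      funext i
      rw [e1, e2]
      obtain ⟨x, l, hl⟩ := List.exists_cons_of_ne_nil (h i)
      rw [hl]
      rfl
    have e4 : (Rec.inc γ * μ).val = γ * (μ * Rec.inc γ).val * γ⁻¹ := by
      simp [mul_assoc]
    rw [e3, e4, cup_inv F hF]
  · rw [fst_neg _ _ (fun h' => h fun i => by
      have := h' i
      rw [e1 i] at this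
      simpa using this),
      fst_neg _ _ (fun h' => h fun i => by
      have := h' i
      rw [e2 i] at this
      exact this)]

end Conj

/-! ## Replacing the first vertices -/

section Replace

variable {k : Type} [Field k] [CharZero k] {C P : Type} [Group C] [Group P] {m r : ℕ}

/-- The point `z j` over the vertex `j` of the last simplex of the prism. -/
def zj (Z : Fin (m + 1) → P) (j : Fin (m + 2)) : P := Z ((Fin.last m).predAbove j)

/-- The vertices of the last simplex, where the first `s` ones have been replaced. -/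
def Ws (k : Type) [Field k] [CharZero k] (ψ : C →* P) (d : Fin r → Bool)
    (X : (Matrix (Fin r) (Fin r) (MonoidAlgebra k (C × Multiplicative ℤ)))ˣ)
    (Z : Fin (m + 1) → P) (s : ℕ) (j : Fin (m + 2)) :
    (Matrix (Fin r) (Fin r) (MonoidAlgebra k (P × Multiplicative ℤ)))ˣ :=
  if j.val < s then dgU k d (zj Z j) else
    if j ≤ (Fin.last m).castSucc then dgU k d (zj Z j) * XG ψ X else dgU k d (zj Z j)

theorem Ws_succ (ψ : C →* P) (d : Fin r → Bool)
    (X : (Matrix (Fin r) (Fin r) (MonoidAlgebra k (C × Multiplicative ℤ)))ˣ)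
    (Z : Fin (m + 1) → P) (s : ℕ) (hs : s < m) :
    Ws k ψ d X Z (s + 1) = Function.update (Ws k ψ d X Z s) (⟨s, by omega⟩ : Fin (m + 2))
      (Ws k ψ d X Z s ⟨s, by omega⟩ * (XG ψ X)⁻¹) := by
  funext j
  by_cases hj : j = (⟨s, by omega⟩ : Fin (m + 2))
  · subst hj
    rw [Function.update_self]
    unfold Ws
    have h1 : ((⟨s, by omega⟩ : Fin (m + 2)) : ℕ) < s + 1 := Nat.lt_succ_self s
    have h2 : ¬ ((⟨s, by omega⟩ : Fin (m + 2)) : ℕ) < s := lt_irrefl s
    have h3 : (⟨s, by omega⟩ : Fin (m + 2)) ≤ (Fin.last m).castSucc := by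
      rw [Fin.le_def]
      exact hs.le
    rw [if_pos h1, if_neg h2, if_pos h3, mul_inv_cancel_right]
  · rw [Function.update_of_ne hj]
    unfold Ws
    have h1 : j.val ≠ s := fun h => hj (Fin.ext h)
    by_cases h2 : j.val < s
    · rw [if_pos h2, if_pos (by omega)]
    · rw [if_neg h2, if_neg (by omega)]

/-- The coefficients of the image of a matrix over `k[C × Z']`. -/
theorem XG_supp (ψ : C →* P)
    (X : (Matrix (Fin r) (Fin r) (MonoidAlgebra k (C × Multiplicative ℤ)))ˣ) (a b : Fin r)
    (γ : P × Multiplicative ℤ)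
    (h : ((((XG ψ X)⁻¹ : (Matrix (Fin r) (Fin r) (MonoidAlgebra k (P × Multiplicative ℤ)))ˣ) :
      Matrix (Fin r) (Fin r) (MonoidAlgebra k (P × Multiplicative ℤ))) a b).coeff γ ≠ 0) :
    ∃ c : C, ψ c = γ.1 := by
  have e1 : ((((XG ψ X)⁻¹ : (Matrix (Fin r) (Fin r) (MonoidAlgebra k (P × Multiplicative ℤ)))ˣ) :
      Matrix (Fin r) (Fin r) (MonoidAlgebra k (P × Multiplicative ℤ))) a b).coeff =
      Finsupp.mapDomain (MonoidHom.prodMap ψ (MonoidHom.id (Multiplicative ℤ)))
        ((X⁻¹).val a b).coeff := rfl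
  rw [e1] at h
  by_contra hn
  apply h
  apply Finsupp.mapDomain_of_notMem_range
  rintro ⟨⟨c, α⟩, rfl⟩
  exact hn ⟨c, rfl⟩

theorem TX_Ws (htxc : S_TXC) (F : (Fin (m + 1) → P) → P → ℚ) (ψ : C →* P)
    (hψ : ∀ c p, Commute (ψ c) p)
    (hF : ∀ (t : Fin (m + 1) → C) (a : Fin (m + 1) → P) (y : P),
      F (fun i => ψ (t i) * a i) y = F a y)
    (d : Fin r → Bool) (X : (Matrix (Fin r) (Fin r) (MonoidAlgebra k (C × Multiplicative ℤ)))ˣ)
    (Z : Fin (m + 1) → P) (s : ℕ) (hs : s ≤ m) :
    TX (one1 (cup F)) 1 (Ws k ψ d X Z s) = TX (one1 (cup F)) 1 (Ws k ψ d X Z 0) := by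
  induction s with
  | zero => rfl
  | succ s ih =>
    rw [← ih (by omega), Ws_succ ψ d X Z s (by omega)]
    refine htxc k (P × Multiplicative ℤ) (Fin r) (m + 2) (one1 (cup F)) ⟨s, by omega⟩
      (Subgroup.comap (MonoidHom.fst P (Multiplicative ℤ)) ψ.range) ?_ _ _ ?_
    · intro μ ν γ hγ
      obtain ⟨c, hc⟩ := hγ
      have hγ2 : γ = (ψ c, γ.2) := Prod.ext hc.symm rfl
      rw [shift]
      congr 1
      funext a y
      rw [hγ2]
      exact cup_update_lt ψ hψ F hF a y _ (by change s < m; omega) c γ.2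
    · intro a b γ h
      obtain ⟨c, hc⟩ := XG_supp ψ X a b γ h
      exact ⟨c, hc⟩

end Replace

theorem smul_pow {k : Type} [Field k] [CharZero k] (m : ℕ) (x : k) :
    ((-1 : ℚ) ^ m) • x = (-1 : k) ^ m * x := by
  rw [Algebra.smul_def, eq_ratCast]
  push_cast
  ring

end EVA

open EVA

/-- EVA. -/
theorem t_EVA (htxc : S_TXC) : S_EVA := by
  intro k _ _ C P _ _ _ ψ hψ r d X m F hF1 hF2 Z
  classical
  set f : P → (Matrix (Fin r) (Fin r) (MonoidAlgebra k (P × Multiplicative ℤ)))ˣ :=
    fun z => (XG ψ X)⁻¹ * dgU k d z * XG ψ X with hf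
  set f' : P → (Matrix (Fin r) (Fin r) (MonoidAlgebra k (P × Multiplicative ℤ)))ˣ :=
    fun z => (XG ψ X)⁻¹ * dgU k d z with hf'
  have hTX : ∀ i : Fin (m + 1), TX (fst (cup F)) 1 (mix f f' Z i) =
      TX (one1 (cup F)) 1 (fun j => XG ψ X * mix f f' Z i j) := by
    intro i
    rw [← t_TXinv k (P × Multiplicative ℤ) (Fin r) (m + 2) 1 (fst (cup F)) (cj_fst F hF1)
      (XG ψ X) (mix f f' Z i)]
    exact t_TXlen k (P × Multiplicative ℤ) (Fin r) (m + 2) 1 _ _ _ fun μ hμ => fst_eq _ μ hμ
  have hTF : TF (fst (cup F)) 1 (prism ℚ f f' (m + 1) (Finsupp.single Z 1)) =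
      ∑ i : Fin (m + 1), (-1 : k) ^ (i : ℕ) * TX (fst (cup F)) 1 (mix f f' Z i) := by
    unfold prism
    rw [Finsupp.linearCombination_single, one_smul, map_sum]
    refine Finset.sum_congr rfl fun i _ => ?_
    unfold TF
    rw [Finsupp.linearCombination_single]
    exact smul_pow _ _
  rw [hTF, Finset.sum_eq_single (Fin.last m)]
  · rw [Fin.val_last]
    congr 1
    rw [hTX]
    have e1 : (fun j => XG ψ X * mix f f' Z (Fin.last m) j) = Ws k ψ d X Z 0 := by
      funext j
      unfold mix Ws zj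
      rw [if_neg (Nat.not_lt_zero _)]
      by_cases hj : j ≤ (Fin.last m).castSucc
      · rw [if_pos hj, if_pos hj, hf]
        simp only [mul_assoc, mul_inv_cancel_left]
      · rw [if_neg hj, if_neg hj, hf']
        exact mul_inv_cancel_left _ _
    rw [e1, ← TX_Ws htxc F ψ hψ hF2 d X Z m le_rfl]
    unfold TX
    rw [pow_one]
    have z0 : ∀ i : Fin (m + 1), zj Z i.castSucc = Z i := by
      intro i
      unfold zj
      congr 1
      rw [Fin.predAbove_of_le_castSucc _ _ (Fin.castSucc_le_castSucc_iff.2 (Fin.le_last i))]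
      exact Fin.castPred_castSucc _
    have z1 : zj Z (Fin.last (m + 1)) = Z (Fin.last m) := by
      unfold zj
      congr 1
      simp
    refine case_two F ψ hψ hF2 d X Z _ ?_ ?_ ?_
    · intro i
      unfold Ws
      rw [if_pos (by simp), z0]
    · unfold Ws
      rw [if_neg (by simp), if_pos le_rfl, z0]
    · unfold Ws
      rw [if_neg (by simp), if_neg (by rw [Fin.le_def]; simp), z1]
  · intro i _ hi
    have hlt : i < Fin.last m := lt_of_le_of_ne (Fin.le_last i) hi
    rw [hTX]
    unfold TX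
    rw [pow_one]
    have h1 : XG ψ X * mix f f' Z i (Fin.last m).castSucc =
        dgU k d (Z (i.predAbove (Fin.last m).castSucc)) := by
      unfold mix
      rw [if_neg (by
        rw [not_le]
        exact Fin.castSucc_lt_castSucc_iff.2 hlt)]
      exact mul_inv_cancel_left _ _
    have h2 : XG ψ X * mix f f' Z i (Fin.last (m + 1)) =
        dgU k d (Z (i.predAbove (Fin.last (m + 1)))) := by
      unfold mix
      rw [if_neg (by
        rw [not_le]
        exact Fin.castSucc_lt_last i)]
      exact mul_inv_cancel_left _ _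
    rw [case_one F d (fun j => XG ψ X * mix f f' Z i j) _ _ h1 h2, mul_zero]
  · intro h
    exact absurd (Finset.mem_univ _) h

end Pool.Agent.FJA
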