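import Pool.Agent.FJA.St3
import Pool.Agent.FJA.P_PRI
import Pool.Agent.FJA.Hom

/-!
# FAM: the family of cocycles attached to a cocycle of a centraliser
-/

set_option autoImplicit false

open Matrix Pool.Agent.WhK Pool.Agent.Lib25

noncomputable section

namespace Pool.Agent.FJA

namespace FAM

variable {G : Type} [Group G]

/-- A representative of the right coset. -/
def rep (C : Subgroup G) (g : G) : G := Quotient.out (Quotient.mk (QuotientGroup.rightRel C) g)

theorem rep_mem (C : Subgroup G) (g : G) : g * (rep C g)⁻¹ ∈ C := by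
  have h : Quotient.mk (QuotientGroup.rightRel C) (rep C g) =
      Quotient.mk (QuotientGroup.rightRel C) g := Quotient.out_eq _
  have h2 := Quotient.exact h
  exact QuotientGroup.rightRel_apply.1 h2

theorem rep_mul (C : Subgroup G) (z : C) (g : G) : rep C (z * g) = rep C g := by
  unfold rep
  congr 1
  apply Quotient.sound
  refine QuotientGroup.rightRel_apply.2 ?_
  have h : g * ((z : G) * g)⁻¹ = ((z⁻¹ : C) : G) := by
    rw [_root_.mul_inv_rev, mul_inv_cancel_left, Subgroup.coe_inv]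
  rw [h]
  exact (z⁻¹).2

/-- The retraction to the subgroup. -/
def ret (C : Subgroup G) (g : G) : C := ⟨g * (rep C g)⁻¹, rep_mem C g⟩

theorem ret_mul (C : Subgroup G) (z : C) (g : G) : ret C (z * g) = z * ret C g := by
  apply Subtype.ext
  change (z : G) * g * (rep C (z * g))⁻¹ = z * (g * (rep C g)⁻¹)
  rw [rep_mul, mul_assoc]

open Classical in
/-- The family. -/
def Fam (y0 : G) {m : ℕ} (f : (Fin m → Cen y0) → ℚ) (a : Fin m → G) (y : G) : ℚ :=
  if h : ∃ c : G, c * y * c⁻¹ = y0 then f (fun i => ret (Cen y0) (h.choose * a i)) else 0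

theorem Fam_eq {y0 : G} {m : ℕ} {f : (Fin m → Cen y0) → ℚ}
    (hf : ∀ (γ : Cen y0) (a : Fin m → Cen y0), f (fun i => γ * a i) = f a) {c y : G}
    (hc : c * y * c⁻¹ = y0) (a : Fin m → G) :
    Fam y0 f a y = f (fun i => ret (Cen y0) (c * a i)) := by
  have h : ∃ c : G, c * y * c⁻¹ = y0 := ⟨c, hc⟩
  unfold Fam
  rw [dif_pos h]
  have h1 := h.choose_spec
  set c' := h.choose with hc'
  have hz : c' * c⁻¹ ∈ Cen y0 := by
    rw [Subgroup.mem_centralizer_singleton_iff]
    have h2 : c' * c⁻¹ * y0 = c' * y * c⁻¹ := by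
      rw [← hc]
      group
    have h3 : y0 * (c' * c⁻¹) = c' * y * c⁻¹ := by
      rw [← h1]
      group
    rw [h2, h3]
  have h4 : (fun i => ret (Cen y0) (c' * a i)) =
      fun i => (⟨c' * c⁻¹, hz⟩ : Cen y0) * ret (Cen y0) (c * a i) := by
    funext i
    rw [← ret_mul]
    congr 1
    change c' * a i = c' * c⁻¹ * (c * a i)
    group
  rw [h4]
  exact hf _ _

theorem Fam_zero {y0 : G} {m : ℕ} {f : (Fin m → Cen y0) → ℚ} {y : G}
    (h : ¬ ∃ c : G, c * y * c⁻¹ = y0) (a : Fin m → G) : Fam y0 f a y = 0 := by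
  unfold Fam
  rw [dif_neg h]

omit [Group G] in
theorem evc_pair {P : Type} (j : P → G) {m : ℕ} (F : (Fin m → G) → G → ℚ)
    (w : (Fin m → P) →₀ ℚ) (y : G) :
    evc j F w y = pair (fun Z : Fin m → P => F (fun i => j (Z i)) y) w := by
  unfold evc pair
  rw [Finsupp.linearCombination_apply]
  rfl

theorem pair_hmap {V V' : Type} (g : V → V') {m : ℕ} (f : (Fin m → V') → ℚ)
    (w : (Fin m → V) →₀ ℚ) :
    pair f (hmap ℚ g m w) = pair (fun Z : Fin m → V => f (fun i => g (Z i))) w := by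
  induction w using Finsupp.induction_linear with
  | zero => simp only [map_zero]
  | add a b ha hb => simp only [map_add, ha, hb]
  | single X q => rw [PRI.hmap_single, pair_single, pair_single]

theorem pair_hdeg {C : Type} [Group C] {m : ℕ} {f : (Fin (m + 1) → C) → ℚ}
    (hf : ∀ (γ : C) (a : Fin (m + 1) → C), f (fun i => γ * a i) = f a) {w : HCh ℚ C m}
    (hw : w ∈ hdeg ℚ C m) : pair f w = 0 := by
  have h1 : hdeg ℚ C m ≤ LinearMap.ker (pair f) := by
    unfold hdeg
    rw [Submodule.span_le]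
    rintro x ⟨g, X, rfl⟩
    change pair f _ = 0
    rw [map_sub, pair_single, pair_single, hf, sub_self]
  exact h1 hw

theorem pair_bd {C : Type} {m : ℕ} {f : (Fin m → C) → ℚ}
    (hf : ∀ a : Fin (m + 1) → C,
      ∑ i : Fin (m + 1), (-1 : ℚ) ^ (i : ℕ) * f (fun j => a (i.succAbove j)) = 0)
    (w : (Fin (m + 1) → C) →₀ ℚ) : pair f (bd ℚ C m w) = 0 := by
  induction w using Finsupp.induction_linear with
  | zero => simp only [map_zero]
  | add a b ha hb => rw [map_add, map_add, ha, hb, add_zero]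
  | single X q =>
    rw [bd_single, map_sum]
    simp only [map_smul, pair_single, smul_eq_mul]
    have h := hf X
    have h2 : ∑ i : Fin (m + 1), (-1 : ℚ) ^ (i : ℕ) * (q * f (fun j => X (i.succAbove j))) =
        q * ∑ i : Fin (m + 1), (-1 : ℚ) ^ (i : ℕ) * f (fun j => X (i.succAbove j)) := by
      rw [Finset.mul_sum]
      refine Finset.sum_congr rfl fun i _ => ?_
      ring
    rw [h2, h, mul_zero]

/-- Right translation does not change the value on a cycle. -/
theorem pair_right {C : Type} [Group C] {m : ℕ} {f : (Fin (m + 2) → C) → ℚ}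
    (hf : ∀ (γ : C) (a : Fin (m + 2) → C), f (fun i => γ * a i) = f a)
    (hc : ∀ a : Fin (m + 3) → C,
      ∑ i : Fin (m + 3), (-1 : ℚ) ^ (i : ℕ) * f (fun j => a (i.succAbove j)) = 0)
    (r : C) {w : HCh ℚ C (m + 1)} (hw : bd ℚ C (m + 1) w ∈ hdeg ℚ C m) :
    pair f (hmap ℚ (· * r) (m + 2) w) = pair f w := by
  have h1 := t_PRI.{0, 0, 0} ℚ C C id (· * r) (m + 1) w
  have h2 := congrArg (pair f) h1
  rw [pair_bd hc, map_sub, map_sub] at h2
  have h3 : pair f (prism ℚ id (· * r) (m + 1) (bd ℚ C (m + 1) w)) = 0 :=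
    pair_hdeg hf (prism_hdeg t_BD.{0, 0, 0} m r hw)
  have h4 : hmap ℚ (id : C → C) (m + 1 + 1) w = w := by
    unfold hmap
    exact Finsupp.mapDomain_id
  rw [h3, h4, sub_zero] at h2
  exact (sub_eq_zero.1 h2.symm)

end FAM

open FAM in
theorem t_FAM : S_FAM := by
  intro G _ m y0 f hf hc hd
  refine ⟨Fam y0 f, ⟨?_, ?_, ?_, ?_⟩, ?_⟩
  · intro γ a y
    by_cases h : ∃ c : G, c * y * c⁻¹ = y0
    · obtain ⟨c, hcy⟩ := h
      have h2 : (c * γ⁻¹) * (γ * y * γ⁻¹) * (c * γ⁻¹)⁻¹ = y0 := by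
        rw [← hcy]
        group
      rw [Fam_eq hf hcy, Fam_eq hf h2]
      congr 1
      funext i
      congr 1
      group
    · have h2 : ¬ ∃ c : G, c * (γ * y * γ⁻¹) * c⁻¹ = y0 := by
        rintro ⟨c, hcy⟩
        apply h
        refine ⟨c * γ, ?_⟩
        rw [← hcy]
        group
      rw [Fam_zero h, Fam_zero h2]
  · intro a y
    by_cases h : ∃ c : G, c * y * c⁻¹ = y0
    · obtain ⟨c, hcy⟩ := h
      simp only [Fam_eq hf hcy]
      exact hc fun i => ret (Cen y0) (c * a i)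
    · simp only [Fam_zero h, mul_zero, Finset.sum_const_zero]
  · intro a y hne
    by_contra h
    apply hne
    apply Fam_zero
    rintro ⟨c, hcy⟩
    apply h
    refine ⟨c⁻¹, ?_⟩
    rw [← hcy]
    group
  · obtain ⟨D, hD, h⟩ := hd
    refine ⟨D, hD, fun a y => ?_⟩
    by_cases hy : ∃ c : G, c * y * c⁻¹ = y0
    · obtain ⟨c, hcy⟩ := hy
      rw [Fam_eq hf hcy]
      exact h _
    · refine ⟨0, ?_⟩
      rw [Fam_zero hy, mul_zero, Int.cast_zero]
  · intro x H w hw
    have hcy : x⁻¹ * (x * y0 * x⁻¹) * x⁻¹⁻¹ = y0 := by group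
    have hb : bd ℚ (Cen y0) (m + 1) (hmap ℚ (cHom x⁻¹ H) (m + 2) w) ∈ hdeg ℚ (Cen y0) m := by
      have h1 := (t_BD.{0, 0, 0} ℚ (Cen (x * y0 * x⁻¹)) (m + 1)).2.1 (Cen y0) (cHom x⁻¹ H) w
      rw [h1]
      exact hmap_hdeg m (cHom x⁻¹ H) hw
    rw [evc_pair, ← pair_right hf hc (ret (Cen y0) x⁻¹) hb, pair_hmap, pair_hmap]
    refine congrArg (fun F => pair F w) (funext fun Z => ?_)
    rw [Fam_eq hf hcy]
    congr 1
    funext i
    rw [← ret_mul]
    congr 1
    change x⁻¹ * (Z i : G) = x⁻¹ * (Z i : G) * x⁻¹⁻¹ * x⁻¹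
    group

end Pool.Agent.FJA
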