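import Pool.Agent.FJA.St3

/-!
# Module FCA: the family of cocycles attached to one functional
-/

set_option autoImplicit false

open Matrix Pool.Agent.WhK Pool.Agent.Lib25

noncomputable section

namespace Pool.Agent.FJA

namespace FCA

/-- The pairing with a multiple of a cochain. -/
theorem pair_div {V : Type} {m : ℕ} (f : (Fin m → V) → ℚ) (D : ℚ) (c : (Fin m → V) →₀ ℚ) :
    pair (fun g => f g / D) c = pair f c / D := by
  induction c using Finsupp.induction_linear with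
  | zero => rw [map_zero, map_zero, zero_div]
  | add f g hf hg => rw [map_add, map_add, hf, hg, add_div]
  | single g q => rw [pair_single, pair_single, mul_div_assoc]

end FCA

theorem t_FCA (hfam : S_FAM) (_hfcw : S_FCW) : S_FCA := by
  intro G _ n t lam hlam
  obtain ⟨D, f, hD, hf1, hf2⟩ := hlam
  have hDQ : (D : ℚ) ≠ 0 := Nat.cast_ne_zero.2 hD.ne'
  have hf3 : ∀ y : IC ℚ (n + 2) (Cen t),
      pair (fun g => (f g : ℚ) / D) (dI ℚ (n + 1) (Cen t) y) = 0 := by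
    intro y
    rw [FCA.pair_div, hf1, zero_div]
  obtain ⟨F, hF, hFv⟩ := hfam G n t (fun a => (f (quo a) : ℚ) / D)
    (by
      intro γ a
      rw [quo_mul])
    (by
      intro a
      exact quo_coc (fun g => (f g : ℚ) / D) hf3 a)
    ⟨D, hD, fun a => ⟨f (quo a), mul_div_cancel₀ _ hDQ⟩⟩
  refine ⟨F, hF, fun x H z => ?_⟩
  have h1 := hFv x H (psi ℚ (n + 1) _ (ch ℚ (n + 1) _ z)) (psi_ch_mem n z)
  obtain ⟨y, hy1, hy2⟩ := Hk.map_cl (cHom x⁻¹ H) z
  have h2 : hmap ℚ (cHom x⁻¹ H) (n + 2) (psi ℚ (n + 1) _ (ch ℚ (n + 1) _ z)) =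
      psi ℚ (n + 1) (Cen t) (ch ℚ (n + 1) (Cen t) y) := by
    rw [hy2]
    exact (psi_map (n + 1) (cHom x⁻¹ H) (ch ℚ (n + 1) _ z)).symm
  rw [h1, h2, hy1]
  have h3 := pair_quo (fun g => (f g : ℚ) / D) (psi ℚ (n + 1) (Cen t) (ch ℚ (n + 1) (Cen t) y))
  refine Eq.trans h3 ?_
  rw [phi_psi, FCA.pair_div, ← hf2 y, mul_div_cancel_left₀ _ hDQ]

end Pool.Agent.FJA
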