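import Pool.Agent.FJA.St3

/-!
# Module FNA: the local equation for the idempotents of the family

Only the embeddings with `N j = n0` and `p j = p` contribute to the equation at `p`, and only the
generators of `C_(n0)`, which are indexed by the units of `ZMod n0`.
-/

set_option autoImplicit false

open Matrix Pool.Agent.WhK Pool.Agent.Lib25

noncomputable section

namespace Pool.Agent.FJA

namespace FNA

/-- A sum over `C_N` with terms supported on the generators is a sum over the units. -/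
theorem sum_gens {A : Type} [AddCommMonoid A] (N : ℕ) [NeZero N] (f : Cyc N → A)
    (h : ∀ c : Cyc N, Subgroup.zpowers c ≠ ⊤ → f c = 0) :
    ∑ c : Cyc N, f c = ∑ u : (ZMod N)ˣ, f (Multiplicative.ofAdd (u : ZMod N)) := by
  symm
  refine Finset.sum_of_injOn (fun u : (ZMod N)ˣ => (Multiplicative.ofAdd (u : ZMod N) : Cyc N))
    ?_ ?_ ?_ ?_
  · intro u _ u' _ huu
    exact Units.ext (Multiplicative.ofAdd.injective huu)
  · intro u _
    exact Finset.mem_coe.2 (Finset.mem_univ _)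
  · intro c _ hc
    apply h
    intro htop
    apply hc
    have hu : IsUnit (Multiplicative.toAdd c) :=
      (gen_iff_isUnit N (Multiplicative.toAdd c)).1 (by rw [ofAdd_toAdd]; exact htop)
    exact ⟨hu.unit, Finset.mem_coe.2 (Finset.mem_univ _), rfl⟩
  · intro u _
    rfl

/-- The evaluation vanishes if the family vanishes at `y`. -/
theorem evc_eq_zero {G P : Type} (j : P → G) {m : ℕ} (F : (Fin m → G) → G → ℚ)
    (w : (Fin m → P) →₀ ℚ) (y : G) (h : ∀ a, F a y = 0) : evc j F w y = 0 := by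
  unfold evc
  refine Finset.sum_eq_zero fun z _ => ?_
  change w z * F (fun i => j (z i)) y = 0
  rw [h, mul_zero]

theorem orderOf_img (N : ℕ) [NeZero N] {G : Type} [Group G] (φ : Cyc N →* G)
    (hφ : Function.Injective φ) (u : (ZMod N)ˣ) :
    orderOf (φ (Multiplicative.ofAdd (u : ZMod N))) = N := by
  rw [orderOf_injective φ hφ, orderOf_gen ((gen_iff_isUnit N _).2 u.isUnit), card_Cn]

theorem img_eq (N : ℕ) [NeZero N] {G : Type} [Group G] (φ : Cyc N →* G) (a : ZMod N) :
    φ (Multiplicative.ofAdd a) = φ (gen N) ^ a.val := by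
  rw [ofAdd_eq_pow N a, map_pow]

theorem cast_sum (v : ∀ (N : ℕ) (_ : ℕ) (q : ℕ), [Fact q.Prime] → Cyc N → ℚ_[q]) (p : ℕ)
    [Fact p.Prime] (g : ℕ → ℚ_[p]) {N n0 : ℕ} [NeZero N] [NeZero n0] (h : N = n0) :
    ∑ u : (ZMod N)ˣ, v N p p (Multiplicative.ofAdd (u : ZMod N)) * g (u : ZMod N).val =
      ∑ u : (ZMod n0)ˣ, v n0 p p (Multiplicative.ofAdd (u : ZMod n0)) *
        g (u : ZMod n0).val := by
  subst h
  rfl

theorem term (ε : ∀ N : ℕ, ℕ → IdemMat (LaurentPolynomial (MonoidAlgebra ℤ (Cyc N))))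
    (v : ∀ (N : ℕ) (_ : ℕ) (q : ℕ), [Fact q.Prime] → Cyc N → ℚ_[q]) (K : ℕ → ℕ)
    (hv : NodeD ε v K) (G : Type) [Group G] (n n0 : ℕ) [NeZero n0] (D : Dat G n)
    (F : (Fin (n + 2) → G) → G → ℚ) (hF : GCoch (n + 1) (fun y => orderOf y = n0) F)
    (p : ℕ) [Fact p.Prime] (j : D.J) :
    ∑ c : Cyc (D.N j), v (D.N j) (D.p j) p c *
        ((evc (fun z : Cen (D.φ j (gen (D.N j))) => (z : G)) F (D.w j) (D.φ j c) : ℚ) : ℚ_[p]) =
      if D.N j = n0 ∧ D.p j = p then
        ∑ u : (ZMod n0)ˣ, v n0 p p (Multiplicative.ofAdd (u : ZMod n0)) *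
          ((evc (fun z : Cen (D.φ j (gen (D.N j))) => (z : G)) F (D.w j)
            (D.φ j (gen (D.N j)) ^ (u : ZMod n0).val) : ℚ) : ℚ_[p])
      else 0 := by
  by_cases hp : D.p j = p
  · have hd : p ∣ D.N j := hp ▸ D.dvd j
    rw [hp, sum_gens (D.N j) (fun c => v (D.N j) p p c *
      ((evc (fun z : Cen (D.φ j (gen (D.N j))) => (z : G)) F (D.w j) (D.φ j c) : ℚ) : ℚ_[p]))
      (fun c hc => by
        change v (D.N j) p p c * _ = 0
        rw [hv.top (D.N j) p hd c hc, zero_mul])]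
    by_cases hN : D.N j = n0
    · rw [if_pos ⟨hN, rfl⟩, ← cast_sum v p (fun k =>
        ((evc (fun z : Cen (D.φ j (gen (D.N j))) => (z : G)) F (D.w j)
            (D.φ j (gen (D.N j)) ^ k) : ℚ) : ℚ_[p])) hN]
      apply Finset.sum_congr rfl
      intro u _
      exact congrArg (fun y => v (D.N j) p p (Multiplicative.ofAdd (u : ZMod (D.N j))) *
        ((evc (fun z : Cen (D.φ j (gen (D.N j))) => (z : G)) F (D.w j) y : ℚ) : ℚ_[p]))
        (img_eq (D.N j) (D.φ j) (u : ZMod (D.N j)))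
    · rw [if_neg fun h => hN h.1]
      apply Finset.sum_eq_zero
      intro u _
      rw [evc_eq_zero, Rat.cast_zero, mul_zero]
      intro a
      by_contra hne
      exact hN ((orderOf_img (D.N j) (D.φ j) (D.inj j) u).symm.trans (hF.supp a _ hne))
  · rw [if_neg fun h => hp h.2]
    apply Finset.sum_eq_zero
    intro c _
    rw [hv.away (D.N j) (D.p j) (D.dvd j) p (fun h => hp h.symm) c, zero_mul]

end FNA

/-- Module FNA. -/
theorem t_FNA : S_FNA := by
  intro ε v K hv G _ n n0 _ D Q hQ F hF p _ hpn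
  rw [← hQ.loc F hF p hpn]
  have h1 : ∀ u : (ZMod n0)ˣ,
      v n0 p p (Multiplicative.ofAdd (u : ZMod n0)) *
        ((∑ j ∈ D.s with D.N j = n0 ∧ D.p j = p, D.q j *
          evc (fun z : Cen (D.φ j (gen (D.N j))) => (z : G)) F (D.w j)
            (D.φ j (gen (D.N j)) ^ (u : ZMod n0).val) : ℚ) : ℚ_[p]) =
      ∑ j ∈ D.s with D.N j = n0 ∧ D.p j = p, (D.q j : ℚ_[p]) *
        (v n0 p p (Multiplicative.ofAdd (u : ZMod n0)) *
          ((evc (fun z : Cen (D.φ j (gen (D.N j))) => (z : G)) F (D.w j)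
            (D.φ j (gen (D.N j)) ^ (u : ZMod n0).val) : ℚ) : ℚ_[p])) := by
    intro u
    rw [Rat.cast_sum, Finset.mul_sum]
    apply Finset.sum_congr rfl
    intro j _
    rw [Rat.cast_mul, mul_left_comm]
  rw [Finset.sum_congr rfl fun u _ => h1 u, Finset.sum_comm, Finset.sum_filter]
  apply Finset.sum_congr rfl
  intro j _
  rw [FNA.term ε v K hv G n n0 D F hF p j]
  split_ifs with h
  · rw [Finset.mul_sum]
  · rw [mul_zero]

end Pool.Agent.FJA
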