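import Pool.Agent.FJA.St3

/-!
# Module FNC: the value of `Q` on the sum of the families is zero
-/

set_option autoImplicit false

open Matrix Pool.Agent.WhK Pool.Agent.Lib25

noncomputable section

namespace Pool.Agent.FJA

namespace FNC

variable {G : Type} [Group G]

lemma ord_conj (γ y : G) : orderOf (γ * y * γ⁻¹) = orderOf y := by
  have h := MulEquiv.orderOf_eq (MulAut.conj γ) y
  rwa [MulAut.conj_apply] at h

lemma gc_rs {m : ℕ} {S : G → Prop} {F : (Fin (m + 1) → G) → G → ℚ} (n0 : ℕ)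
    (h : GCoch m S F) : GCoch m (fun y => orderOf y = n0) (rsF n0 F) where
  inv γ a y := by
    unfold rsF
    rw [ord_conj, h.inv]
  coc a y := by
    by_cases h1 : orderOf y = n0
    · simp only [rsF, if_pos h1]
      exact h.coc a y
    · simp only [rsF, if_neg h1, mul_zero, Finset.sum_const_zero]
  supp a y hne := by
    by_contra hc
    exact hne (by simp only [rsF, if_neg hc])
  den := by
    obtain ⟨D, hD, hz⟩ := h.den
    refine ⟨D, hD, fun a y => ?_⟩
    by_cases h1 : orderOf y = n0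
    · simp only [rsF, if_pos h1]
      exact hz a y
    · refine ⟨0, ?_⟩
      simp only [rsF, if_neg h1, mul_zero, Int.cast_zero]

lemma gc_tw {m : ℕ} {S : G → Prop} {F : (Fin (m + 1) → G) → G → ℚ} (n0 k : ℕ)
    (h : GCoch m S F) : GCoch m (fun y => orderOf y = n0) (twF n0 k F) where
  inv γ a y := by
    unfold twF
    rw [ord_conj, conj_pow, h.inv]
  coc a y := by
    by_cases h1 : orderOf y = n0
    · simp only [twF, if_pos h1]
      exact h.coc a (y ^ k)
    · simp only [twF, if_neg h1, mul_zero, Finset.sum_const_zero]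
  supp a y hne := by
    by_contra hc
    exact hne (by simp only [twF, if_neg hc])
  den := by
    obtain ⟨D, hD, hz⟩ := h.den
    refine ⟨D, hD, fun a y => ?_⟩
    by_cases h1 : orderOf y = n0
    · simp only [twF, if_pos h1]
      exact hz a (y ^ k)
    · refine ⟨0, ?_⟩
      simp only [twF, if_neg h1, mul_zero, Int.cast_zero]

lemma den_sum {ι A : Type} [DecidableEq ι] (F : ι → A → ℚ) (s : Finset ι) :
    (∀ i ∈ s, ∃ D : ℕ, 0 < D ∧ ∀ a : A, ∃ z : ℤ, (D : ℚ) * F i a = z) →
      ∃ D : ℕ, 0 < D ∧ ∀ a : A, ∃ z : ℤ, (D : ℚ) * ∑ i ∈ s, F i a = z := by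
  induction s using Finset.induction_on with
  | empty =>
    intro _
    refine ⟨1, one_pos, fun a => ⟨0, ?_⟩⟩
    simp
  | insert i s hi ih =>
    intro h
    obtain ⟨D1, hD1, h1⟩ := h i (Finset.mem_insert_self i s)
    obtain ⟨D2, hD2, h2⟩ := ih (fun j hj => h j (Finset.mem_insert_of_mem hj))
    refine ⟨D1 * D2, Nat.mul_pos hD1 hD2, fun a => ?_⟩
    obtain ⟨z1, hz1⟩ := h1 a
    obtain ⟨z2, hz2⟩ := h2 a
    refine ⟨D2 * z1 + D1 * z2, ?_⟩
    rw [Finset.sum_insert hi]
    push_cast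
    rw [← hz1, ← hz2]
    ring

lemma gc_sum {ι : Type} [DecidableEq ι] {m : ℕ} {S : G → Prop}
    (F : ι → (Fin (m + 1) → G) → G → ℚ) (s : Finset ι) (h : ∀ i ∈ s, GCoch m S (F i)) :
    GCoch m S (fun a y => ∑ i ∈ s, F i a y) where
  inv γ a y := Finset.sum_congr rfl (fun i hi => (h i hi).inv γ a y)
  coc a y := by
    simp only [Finset.mul_sum]
    rw [Finset.sum_comm]
    exact Finset.sum_eq_zero (fun i hi => (h i hi).coc a y)
  supp a y hne := by
    obtain ⟨i, hi, hne'⟩ := Finset.exists_ne_zero_of_sum_ne_zero hne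
    exact (h i hi).supp a y hne'
  den := by
    have h1 := den_sum (fun (i : ι) (a : (Fin (m + 1) → G) × G) => F i a.1 a.2) s
      (fun i hi => by
        obtain ⟨D, hD, hz⟩ := (h i hi).den
        exact ⟨D, hD, fun a => hz a.1 a.2⟩)
    obtain ⟨D, hD, hz⟩ := h1
    exact ⟨D, hD, fun a y => hz (a, y)⟩

lemma Q_sum {ι : Type} [DecidableEq ι] {m : ℕ} (Q : ((Fin m → G) → G → ℚ) → ℚ)
    (hadd : ∀ F F' : (Fin m → G) → G → ℚ, Q (fun a y => F a y + F' a y) = Q F + Q F')
    (hsmul : ∀ (c : ℚ) (F : (Fin m → G) → G → ℚ), Q (fun a y => c * F a y) = c * Q F)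
    (F : ι → (Fin m → G) → G → ℚ) (s : Finset ι) :
    Q (fun a y => ∑ i ∈ s, F i a y) = ∑ i ∈ s, Q (F i) := by
  induction s using Finset.induction_on with
  | empty =>
    have h := hsmul 0 (fun _ _ => 0)
    simp only [zero_mul] at h
    simpa using h
  | insert i s hi ih =>
    have h1 : (fun (a : Fin m → G) (y : G) => ∑ j ∈ insert i s, F j a y) =
        fun a y => F i a y + ∑ j ∈ s, F j a y := by
      funext a y
      rw [Finset.sum_insert hi]
    rw [h1, hadd (F i) (fun a y => ∑ j ∈ s, F j a y), ih, Finset.sum_insert hi]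

lemma evc_sum {P ι : Type} (j : P → G) {m : ℕ} (F : ι → (Fin m → G) → G → ℚ) (s : Finset ι)
    (w : (Fin m → P) →₀ ℚ) (y : G) :
    evc j (fun a y => ∑ i ∈ s, F i a y) w y = ∑ i ∈ s, evc j (F i) w y := by
  unfold evc Finsupp.sum
  simp only [Finset.mul_sum]
  rw [Finset.sum_comm]

lemma evc_congr {P : Type} (j : P → G) {m : ℕ} (F F' : (Fin m → G) → G → ℚ)
    (w : (Fin m → P) →₀ ℚ) (y y' : G) (h : ∀ a, F a y = F' a y') :
    evc j F w y = evc j F' w y' := by
  unfold evc
  refine Finsupp.sum_congr (fun z _ => ?_)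
  rw [h]

lemma ord_pow {h : G} {n0 k : ℕ} (h0 : orderOf h = n0) (hk : k.Coprime n0) :
    orderOf (h ^ k) = n0 := by
  rw [← h0] at hk ⊢
  exact (Nat.Coprime.symm hk).orderOf_pow

/-- The residues prime to `n0` are permuted by the multiplication by `u`. -/
lemma sum_perm (n0 u : ℕ) (hn : 0 < n0) (hu : u.Coprime n0) (g : ℕ → ℚ) :
    ∑ a ∈ (Finset.range n0).filter (fun a => a.Coprime n0), g (u * a % n0) =
      ∑ a ∈ (Finset.range n0).filter (fun a => a.Coprime n0), g a := by
  classical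
  set s := (Finset.range n0).filter (fun a => a.Coprime n0) with hs
  have hmaps : ∀ a ∈ s, u * a % n0 ∈ s := by
    intro a ha
    rw [hs, Finset.mem_filter, Finset.mem_range] at ha ⊢
    refine ⟨Nat.mod_lt _ hn, ?_⟩
    have h1 : (u * a).Coprime n0 := Nat.Coprime.mul_left hu ha.2
    unfold Nat.Coprime at h1 ⊢
    rw [← Nat.gcd_rec, Nat.gcd_comm]
    exact h1
  have hinj : Set.InjOn (fun a => u * a % n0) (s : Set ℕ) := by
    intro a ha b hb hab
    rw [Finset.mem_coe, hs, Finset.mem_filter, Finset.mem_range] at ha hb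
    have h1 : u * a ≡ u * b [MOD n0] := hab
    have h2 : a ≡ b [MOD n0] := Nat.ModEq.cancel_left_of_coprime (Nat.Coprime.symm hu) h1
    have h3 : a % n0 = b % n0 := h2
    rwa [Nat.mod_eq_of_lt ha.1, Nat.mod_eq_of_lt hb.1] at h3
  have hsurj : Set.SurjOn (fun a => u * a % n0) (s : Set ℕ) (s : Set ℕ) :=
    Finset.surjOn_of_injOn_of_card_le _ hmaps hinj le_rfl
  exact Finset.sum_nbij (fun a => u * a % n0) hmaps hinj hsurj (fun a _ => rfl)

end FNC

open FNC in
theorem t_FNC (hfna : S_FNA) : S_FNC := by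
  classical
  intro ε v K hN G _ n n0 _ D Q hQ L hL
  have hn0 : 0 < n0 := Nat.pos_of_ne_zero (NeZero.ne n0)
  set F : (Fin (n + 2) → G) → G → ℚ := fun a y => ∑ p ∈ n0.primeFactors, rsF n0 (L p) a y with hF
  have hFg : GCoch (n + 1) (fun y => orderOf y = n0) F :=
    gc_sum (fun p => rsF n0 (L p)) n0.primeFactors
      (fun p hp => gc_rs n0 (hL.gc p (Nat.prime_of_mem_primeFactors hp)))
  set s := (Finset.range n0).filter (fun a => a.Coprime n0) with hs
  set F' : (Fin (n + 2) → G) → G → ℚ := fun x y => ∑ a ∈ s, twF n0 a F x y with hF'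
  have hFg' : GCoch (n + 1) (fun y => orderOf y = n0) F' :=
    gc_sum (fun a => twF n0 a F) s (fun a _ => gc_tw n0 a hFg)
  have hQ' : Q F' = (s.card : ℚ) * Q F := by
    have h1 : Q F' = ∑ a ∈ s, Q (twF n0 a F) := Q_sum Q hQ.add hQ.smul (fun a => twF n0 a F) s
    rw [h1, Finset.sum_congr rfl (fun a ha => hQ.gal F hFg a (Finset.mem_filter.1 ha).2),
      Finset.sum_const, nsmul_eq_mul]
  by_cases hemp : n0.primeFactors = ∅
  · have h1 : F = fun _ _ => 0 * (0 : ℚ) := by
      funext a y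
      rw [hF]
      simp only [hemp, Finset.sum_empty, mul_zero]
    rw [h1, hQ.smul 0 (fun _ _ => 0), zero_mul]
  obtain ⟨p, hp⟩ := Finset.nonempty_iff_ne_empty.2 hemp
  have hpp : p.Prime := Nat.prime_of_mem_primeFactors hp
  haveI : Fact p.Prime := ⟨hpp⟩
  have key := hfna ε v K hN G n n0 D Q hQ F' hFg' p (Nat.dvd_of_mem_primeFactors hp)
  have hzero : ∀ (u : (ZMod n0)ˣ) (j : D.J), D.N j = n0 →
      evc (fun z : Cen (D.φ j (gen (D.N j))) => (z : G)) F' (D.w j)
        (D.φ j (gen (D.N j)) ^ (u : ZMod n0).val) = 0 := by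
    intro u j hj
    have hord : orderOf (D.φ j (gen (D.N j))) = n0 := by
      rw [orderOf_injective (D.φ j) (D.inj j), orderOf_ofAdd_eq_addOrderOf, ZMod.addOrderOf_one, hj]
    have hu : (u : ZMod n0).val.Coprime n0 := ZMod.val_coe_unit_coprime u
    set h := D.φ j (gen (D.N j)) with hh
    set k := (u : ZMod n0).val with hk
    have h1 : ∀ a ∈ s, evc (fun z : Cen h => (z : G)) (twF n0 a F) (D.w j) (h ^ k) =
        ∑ q ∈ n0.primeFactors, evc (fun z : Cen h => (z : G)) (L q) (D.w j) (h ^ (k * a % n0)) := by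
      intro a ha
      have hac : a.Coprime n0 := (Finset.mem_filter.1 ha).2
      rw [← evc_sum]
      refine evc_congr _ _ _ _ _ _ (fun x => ?_)
      have h2 : h ^ (k * a % n0) = (h ^ k) ^ a := by
        rw [← hord, pow_mod_orderOf, pow_mul]
      have h3 : orderOf ((h ^ k) ^ a) = n0 := ord_pow (ord_pow hord hu) hac
      rw [h2]
      unfold twF
      rw [if_pos (ord_pow hord hu), hF]
      refine Finset.sum_congr rfl (fun q _ => ?_)
      unfold rsF
      rw [if_pos h3]
    have h4 : evc (fun z : Cen h => (z : G)) F' (D.w j) (h ^ k) =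
        ∑ a ∈ s, ∑ q ∈ n0.primeFactors,
          evc (fun z : Cen h => (z : G)) (L q) (D.w j) (h ^ (k * a % n0)) := by
      have h5 := evc_sum (fun z : Cen h => (z : G)) (fun a => twF n0 a F) s (D.w j) (h ^ k)
      rw [← Finset.sum_congr rfl h1]
      exact h5
    rw [h4, hs, sum_perm n0 k hn0 hu (fun b => ∑ q ∈ n0.primeFactors,
      evc (fun z : Cen h => (z : G)) (L q) (D.w j) (h ^ b)), Finset.sum_comm]
    have hfin : IsOfFinOrder h := by
      rw [← orderOf_pos_iff, hord]
      exact hn0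
    have h6 := hL.sum h hfin (D.w j) (D.mem j)
    rw [hord] at h6
    exact h6
  have hsum : ∑ u : (ZMod n0)ˣ, v n0 p p (Multiplicative.ofAdd (u : ZMod n0)) *
        ((∑ j ∈ D.s with D.N j = n0 ∧ D.p j = p, D.q j *
          evc (fun z : Cen (D.φ j (gen (D.N j))) => (z : G)) F' (D.w j)
            (D.φ j (gen (D.N j)) ^ (u : ZMod n0).val) : ℚ) : ℚ_[p]) = 0 := by
    refine Finset.sum_eq_zero (fun u _ => ?_)
    have h1 : (∑ j ∈ D.s with D.N j = n0 ∧ D.p j = p, D.q j *
          evc (fun z : Cen (D.φ j (gen (D.N j))) => (z : G)) F' (D.w j)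
            (D.φ j (gen (D.N j)) ^ (u : ZMod n0).val) : ℚ) = 0 := by
      refine Finset.sum_eq_zero (fun j hj => ?_)
      rw [hzero u j (Finset.mem_filter.1 hj).2.1, mul_zero]
    rw [h1, Rat.cast_zero, mul_zero]
  rw [hsum] at key
  have h7 : Q F' = 0 := by
    have h8 : ((Q F' : ℚ) : ℚ_[p]) = ((0 : ℚ) : ℚ_[p]) := by
      rw [← key, Rat.cast_zero]
    exact Rat.cast_injective h8
  rw [hQ'] at h7
  have hcard : (s.card : ℚ) ≠ 0 := by
    have h9 : 0 < s.card := by
      rw [Finset.card_pos]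
      by_cases h10 : n0 = 1
      · refine ⟨0, ?_⟩
        rw [hs, Finset.mem_filter, Finset.mem_range, h10]
        exact ⟨one_pos, Nat.coprime_one_right 0⟩
      · refine ⟨1, ?_⟩
        rw [hs, Finset.mem_filter, Finset.mem_range]
        exact ⟨by omega, Nat.coprime_one_left n0⟩
    exact_mod_cast h9.ne'
  exact (mul_eq_zero.1 h7).resolve_left hcard

end Pool.Agent.FJA
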