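import Pool.Agent.FJA.St1

/-!
# Module ONE: null functionals vanish on one sided simplices
-/

set_option autoImplicit false

open Matrix

namespace Pool.Agent.FJA

universe u v w x

namespace ONE

variable {Γ : Type u} [Group Γ] {V : Type v}

theorem toAdd_fin (σ : Γ →* Multiplicative ℤ) {y : Γ} (hy : IsOfFinOrder y) :
    Multiplicative.toAdd (σ y) = 0 := by
  have h2 := MonoidHom.isOfFinOrder σ hy
  obtain ⟨n, hn, h3⟩ := isOfFinOrder_iff_pow_eq_one.1 h2
  have h4 : n • Multiplicative.toAdd (σ y) = 0 := by rw [← toAdd_pow, h3, toAdd_one]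
  rcases smul_eq_zero.1 h4 with h5 | h5
  · omega
  · exact h5

/-- The paths all of whose recorded positions lie between the start and the endpoint, with respect
to the coordinate `ε * σ`. -/
def sub (σ : Γ →* Multiplicative ℤ) (ε : ℤ) : Submonoid (Rec Γ V) where
  carrier := {μ | (∀ i, ∀ a ∈ μ.lst i, 0 ≤ ε * Multiplicative.toAdd (σ a) ∧
    ε * Multiplicative.toAdd (σ a) ≤ ε * Multiplicative.toAdd (σ μ.val)) ∧
    0 ≤ ε * Multiplicative.toAdd (σ μ.val)}
  one_mem' := by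
    refine ⟨?_, ?_⟩
    · intro i a ha
      simp at ha
    · simp
  mul_mem' := by
    rintro μ ν ⟨h1, h2⟩ ⟨h3, h4⟩
    refine ⟨?_, ?_⟩
    · intro i a ha
      rw [Rec.mul_lst, List.mem_append, List.mem_map] at ha
      rw [Rec.mul_val, map_mul, toAdd_mul, mul_add]
      rcases ha with ha | ⟨b, hb, rfl⟩
      · obtain ⟨h5, h6⟩ := h1 i a ha
        exact ⟨h5, by linarith⟩
      · obtain ⟨h5, h6⟩ := h3 i b hb
        rw [map_mul, toAdd_mul, mul_add]
        exact ⟨by linarith, by linarith⟩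
    · rw [Rec.mul_val, map_mul, toAdd_mul, mul_add]
      exact add_nonneg h2 h4

theorem mem_sub {σ : Γ →* Multiplicative ℤ} {ε : ℤ} {μ : Rec Γ V} :
    μ ∈ sub (V := V) σ ε ↔ (∀ i, ∀ a ∈ μ.lst i, 0 ≤ ε * Multiplicative.toAdd (σ a) ∧
    ε * Multiplicative.toAdd (σ a) ≤ ε * Multiplicative.toAdd (σ μ.val)) ∧
    0 ≤ ε * Multiplicative.toAdd (σ μ.val) := Iff.rfl

theorem om_mem [DecidableEq V] (σ : Γ →* Multiplicative ℤ) (ε : ℤ) (i : V) :
    Rec.om i ∈ sub (Γ := Γ) (V := V) σ ε := by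
  refine ⟨?_, ?_⟩
  · intro j a ha
    rw [Rec.om_lst] at ha
    by_cases hj : j = i
    · rw [if_pos hj, List.mem_singleton] at ha
      rw [ha]
      simp
    · rw [if_neg hj] at ha
      simp at ha
  · simp

theorem inc_mem {σ : Γ →* Multiplicative ℤ} {ε : ℤ} {γ : Γ}
    (h : 0 ≤ ε * Multiplicative.toAdd (σ γ)) : Rec.inc γ ∈ sub (V := V) σ ε := by
  refine ⟨?_, ?_⟩
  · intro j a ha
    simp at ha
  · exact h

theorem eta_zero {σ : Γ →* Multiplicative ℤ} {ε : ℤ} (hε : ε ≠ 0) {η : Rec Γ V → ℚ}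
    (hη : NullFun σ η) {μ : Rec Γ V} (hμ : μ ∈ sub (V := V) σ ε) : η μ = 0 := by
  by_contra hne
  have h1 := toAdd_fin σ (hη.fin μ hne)
  have h2 : ∀ i, ∀ a ∈ μ.lst i, σ a = 1 := by
    intro i a ha
    obtain ⟨h3, h4⟩ := (mem_sub.1 hμ).1 i a ha
    rw [h1, mul_zero] at h4
    have h5 : ε * Multiplicative.toAdd (σ a) = 0 := le_antisymm h4 h3
    rcases mul_eq_zero.1 h5 with h6 | h6
    · exact absurd h6 hε
    · exact Multiplicative.toAdd.injective h6
  exact hne (hη.flat μ fun i j a b ha hb => by rw [h2 i a ha, h2 j b hb])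

end ONE

open ONE in
theorem t_ONE (hsup : S_TXsup.{u, w, x}) : S_ONE.{u, w, x} := by
  intro k _ _ Γ _ σ ι _ _ M N η X hη hX
  rcases hX with ⟨h1, h2⟩ | ⟨h1, h2⟩
  · refine hsup k Γ ι M N η X (sub σ 1) (fun i => om_mem σ 1 i) ?_ ?_
      (fun μ hμ => eta_zero one_ne_zero hη hμ)
    · intro i a b γ hγ
      exact inc_mem (by rw [one_mul]; exact h1 i a b γ hγ)
    · intro i a b γ hγ
      exact inc_mem (by rw [one_mul]; exact h2 i a b γ hγ)
  · refine hsup k Γ ι M N η X (sub σ (-1)) (fun i => om_mem σ (-1) i) ?_ ?_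
      (fun μ hμ => eta_zero (by norm_num) hη hμ)
    · intro i a b γ hγ
      exact inc_mem (by have := h1 i a b γ hγ; linarith)
    · intro i a b γ hγ
      exact inc_mem (by have := h2 i a b γ hγ; linarith)

end Pool.Agent.FJA
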