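import Pool.Agent.FJA.St1

/-!
# Module TXB: block sums, reindexing, base change
-/

set_option autoImplicit false

open Matrix

namespace Pool.Agent.FJA

universe u w x

namespace TXB

section Gen

variable {R : Type*} [Ring R] {ι ι' : Type*} [Fintype ι] [DecidableEq ι] [Fintype ι']
  [DecidableEq ι']

theorem prod_blk {M : ℕ} (a : Fin M → Matrix ι ι R) (b : Fin M → Matrix ι' ι' R) :
    (List.ofFn fun i => Matrix.fromBlocks (a i) 0 0 (b i)).prod =
      Matrix.fromBlocks (List.ofFn a).prod 0 0 (List.ofFn b).prod := by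
  induction M with
  | zero => simp
  | succ M ih =>
    rw [List.ofFn_succ, List.ofFn_succ, List.ofFn_succ, List.prod_cons, List.prod_cons,
      List.prod_cons, ih (fun i => a i.succ) (fun i => b i.succ), Matrix.fromBlocks_multiply]
    simp

theorem pow_blk (P : Matrix ι ι R) (Q : Matrix ι' ι' R) (N : ℕ) :
    (Matrix.fromBlocks P 0 0 Q) ^ N = Matrix.fromBlocks (P ^ N) 0 0 (Q ^ N) := by
  induction N with
  | zero => simp
  | succ N ih =>
    rw [pow_succ, ih, Matrix.fromBlocks_multiply, pow_succ, pow_succ]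
    simp

theorem trace_blk (P : Matrix ι ι R) (Q : Matrix ι' ι' R) :
    Matrix.trace (Matrix.fromBlocks P 0 0 Q) = Matrix.trace P + Matrix.trace Q := by
  unfold Matrix.trace
  rw [Fintype.sum_sum_type]
  rfl

theorem prod_sub (e : ι ≃ ι') {M : ℕ} (a : Fin M → Matrix ι ι R) :
    (List.ofFn fun i => (a i).submatrix e.symm e.symm).prod =
      ((List.ofFn a).prod).submatrix e.symm e.symm := by
  induction M with
  | zero =>
    simp only [List.ofFn_zero, List.prod_nil]
    exact (Matrix.submatrix_one_equiv e.symm).symm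
  | succ M ih =>
    rw [List.ofFn_succ, List.ofFn_succ, List.prod_cons, List.prod_cons,
      ih (fun i => a i.succ), Matrix.submatrix_mul_equiv]

theorem pow_sub (e : ι ≃ ι') (P : Matrix ι ι R) (N : ℕ) :
    (P.submatrix e.symm e.symm) ^ N = (P ^ N).submatrix e.symm e.symm := by
  induction N with
  | zero =>
    simp only [pow_zero]
    exact (Matrix.submatrix_one_equiv e.symm).symm
  | succ N ih => rw [pow_succ, ih, pow_succ, Matrix.submatrix_mul_equiv]

theorem trace_sub (e : ι ≃ ι') (P : Matrix ι ι R) :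
    Matrix.trace (P.submatrix e.symm e.symm) = Matrix.trace P := by
  unfold Matrix.trace
  exact Equiv.sum_comp e.symm (fun i => P i i)

end Gen

section Blk

variable {k : Type w} [Field k] {Γ : Type u} [Group Γ] {ι ι' : Type x} [Fintype ι] [DecidableEq ι]
  [Fintype ι'] [DecidableEq ι'] {M : ℕ}

theorem jm_blk {V : Type*} (A : Matrix ι ι (MonoidAlgebra k Γ))
    (B : Matrix ι' ι' (MonoidAlgebra k Γ)) :
    jm k V (Matrix.fromBlocks A 0 0 B) = Matrix.fromBlocks (jm k V A) 0 0 (jm k V B) := by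
  unfold jm
  rw [RingHom.mapMatrix_apply, Matrix.fromBlocks_map, Matrix.map_zero _ (map_zero _),
    Matrix.map_zero _ (map_zero _)]
  rfl

theorem wm_blk {V : Type*} [DecidableEq V] (v : V) :
    wm k (Γ := Γ) (ι ⊕ ι') v = Matrix.fromBlocks (wm k ι v) 0 0 (wm k ι' v) := by
  unfold wm
  rw [Matrix.fromBlocks_diagonal]
  congr 1
  funext i
  rcases i with i | i <;> rfl

theorem UX_blk (A : Fin M → (Matrix ι ι (MonoidAlgebra k Γ))ˣ)
    (B : Fin M → (Matrix ι' ι' (MonoidAlgebra k Γ))ˣ) :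
    UX (fun i => blk (A i) (B i)) = Matrix.fromBlocks (UX A) 0 0 (UX B) := by
  unfold UX
  rw [← prod_blk]
  congr 2
  funext i
  have h1 : ((blk (A i) (B i) : (Matrix (ι ⊕ ι') (ι ⊕ ι') (MonoidAlgebra k Γ))ˣ) :
      Matrix (ι ⊕ ι') (ι ⊕ ι') (MonoidAlgebra k Γ)) = Matrix.fromBlocks (A i).val 0 0 (B i).val := rfl
  have h2 : (((blk (A i) (B i))⁻¹ : (Matrix (ι ⊕ ι') (ι ⊕ ι') (MonoidAlgebra k Γ))ˣ) :
      Matrix (ι ⊕ ι') (ι ⊕ ι') (MonoidAlgebra k Γ)) =
        Matrix.fromBlocks ((A i)⁻¹).val 0 0 ((B i)⁻¹).val := rfl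
  rw [h1, h2, jm_blk, jm_blk, wm_blk, Matrix.fromBlocks_multiply, Matrix.fromBlocks_multiply]
  simp

theorem jm_sub {V : Type*} (e : ι ≃ ι') (A : Matrix ι ι (MonoidAlgebra k Γ)) :
    jm k V (A.submatrix e.symm e.symm) = (jm k V A).submatrix e.symm e.symm := rfl

theorem wm_sub {V : Type*} [DecidableEq V] (e : ι ≃ ι') (v : V) :
    wm k (Γ := Γ) ι' v = (wm k ι v).submatrix e.symm e.symm := by
  unfold wm
  rw [Matrix.submatrix_diagonal_equiv]
  rfl

theorem UX_rix (e : ι ≃ ι') (X : Fin M → (Matrix ι ι (MonoidAlgebra k Γ))ˣ) :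
    UX (fun i => rix e (X i)) = (UX X).submatrix e.symm e.symm := by
  unfold UX
  rw [← prod_sub]
  congr 2
  funext i
  have h1 : ((rix e (X i) : (Matrix ι' ι' (MonoidAlgebra k Γ))ˣ) :
      Matrix ι' ι' (MonoidAlgebra k Γ)) = (X i).val.submatrix e.symm e.symm := rfl
  have h2 : (((rix e (X i))⁻¹ : (Matrix ι' ι' (MonoidAlgebra k Γ))ˣ) :
      Matrix ι' ι' (MonoidAlgebra k Γ)) = ((X i)⁻¹).val.submatrix e.symm e.symm := rfl
  rw [h1, h2, jm_sub, jm_sub, wm_sub e, Matrix.submatrix_mul_equiv, Matrix.submatrix_mul_equiv]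

end Blk

section Map

variable {k k' : Type w} [Field k] [Field k'] (f : k →+* k') {Γ : Type u} [Group Γ] {ι : Type x}
  [Fintype ι] [DecidableEq ι] {M : ℕ}

/-- base change of the coefficients of the entries -/
noncomputable def bc (ι : Type x) [Fintype ι] [DecidableEq ι] (G : Type*) [Monoid G] :
    Matrix ι ι (MonoidAlgebra k G) →+* Matrix ι ι (MonoidAlgebra k' G) :=
  (MonoidAlgebra.mapRingHom G f).mapMatrix

theorem jm_bc {V : Type*} (A : Matrix ι ι (MonoidAlgebra k Γ)) :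
    jm k' V (bc f ι Γ A) = bc f ι (Rec Γ V) (jm k V A) := by
  unfold jm bc
  ext1 i j
  have h := MonoidAlgebra.mapRingHom_comp_mapDomainRingHom (M := Γ) (N := Rec Γ V) f
    (Rec.inc (Γ := Γ) (V := V))
  have h1 := RingHom.congr_fun h (A i j)
  exact h1.symm

theorem wm_bc {V : Type*} [DecidableEq V] (v : V) :
    wm k' (Γ := Γ) ι v = bc f ι (Rec Γ V) (wm k ι v) := by
  unfold wm bc
  rw [RingHom.mapMatrix_apply, Matrix.diagonal_map (map_zero _)]
  congr 1
  funext i
  simp [MonoidAlgebra.mapRingHom_single]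

theorem UX_bc (X : Fin M → (Matrix ι ι (MonoidAlgebra k Γ))ˣ) :
    UX (fun i => Units.map (bc f ι Γ).toMonoidHom (X i)) = bc f ι (Rec Γ (Fin M)) (UX X) := by
  unfold UX
  rw [map_list_prod, List.map_ofFn]
  congr 2
  funext i
  have h1 : ((Units.map (bc f ι Γ).toMonoidHom (X i) : (Matrix ι ι (MonoidAlgebra k' Γ))ˣ) :
      Matrix ι ι (MonoidAlgebra k' Γ)) = bc f ι Γ (X i).val := rfl
  have h2 : (((Units.map (bc f ι Γ).toMonoidHom (X i))⁻¹ : (Matrix ι ι (MonoidAlgebra k' Γ))ˣ) :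
      Matrix ι ι (MonoidAlgebra k' Γ)) = bc f ι Γ ((X i)⁻¹).val := rfl
  rw [h1, h2, jm_bc, jm_bc, wm_bc f, Function.comp_apply, map_mul, map_mul]

theorem lin_bc {G : Type*} [Monoid G] (φ : G → ℚ) [CharZero k] [CharZero k']
    (x : MonoidAlgebra k G) :
    lin k' φ (MonoidAlgebra.mapRingHom G f x) = f (lin k φ x) := by
  induction x using MonoidAlgebra.induction_linear with
  | zero => simp
  | add a b ha hb => rw [map_add, map_add, map_add, map_add, ha, hb]
  | single m c =>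
    rw [MonoidAlgebra.mapRingHom_single, lin_single, lin_single, map_mul, map_ratCast]

end Map

end TXB

theorem t_TXblk : S_TXblk := by
  intro k _ _ Γ _ ι ι' _ _ _ _ M N φ A B
  unfold TX
  rw [TXB.UX_blk, TXB.pow_blk, TXB.trace_blk, map_add]

theorem t_TXrix : S_TXrix := by
  intro k _ _ Γ _ ι ι' _ _ _ _ e M N φ X
  unfold TX
  rw [TXB.UX_rix, TXB.pow_sub, TXB.trace_sub]

theorem t_TXmap : S_TXmap := by
  intro k k' _ _ _ _ f Γ _ ι _ _ M N φ X
  have h : UX (fun i => Units.map ((MonoidAlgebra.mapRingHom Γ f).mapMatrix :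
      Matrix ι ι (MonoidAlgebra k Γ) →+* Matrix ι ι (MonoidAlgebra k' Γ)).toMonoidHom (X i)) =
      TXB.bc f ι (Rec Γ (Fin M)) (UX X) := TXB.UX_bc f X
  unfold TX
  rw [h, ← map_pow, ← TXB.lin_bc f]
  congr 1
  unfold TXB.bc Matrix.trace
  rw [map_sum]
  rfl

end Pool.Agent.FJA
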