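import Pool.Agent.FJA.St3
import Pool.Agent.Lib_helper25.Raw

/-!
# Module NDA: the idempotent matrices attached to a `p`-adic idempotent and their local data
-/

set_option autoImplicit false

open Matrix Pool.Agent.WhK Pool.Agent.Lib25

noncomputable section

namespace Pool.Agent.FJA

namespace NDA

section general

variable {S : Type} [Ring S]

/-- The matrix with the rows `b`, `b'`. -/
def rws (b b' : Matrix (Fin 1) (Fin 2) S) : Matrix (Fin 2) (Fin 2) S :=
  Matrix.of fun i j => if i = 0 then b 0 j else b' 0 j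

/-- The matrix with the columns `a`, `a'`. -/
def cls (a a' : Matrix (Fin 2) (Fin 1) S) : Matrix (Fin 2) (Fin 2) S :=
  Matrix.of fun i j => if j = 0 then a i 0 else a' i 0

theorem off {a a' : Matrix (Fin 2) (Fin 1) S} {b b' : Matrix (Fin 1) (Fin 2) S}
    (h1 : b * a = 1) (h2 : b' * a' = 1) (h3 : a * b + a' * b' = 1) : b * a' = 0 := by
  have h : b * a' = b * a' + b * a' := by
    calc b * a' = b * (a * b + a' * b') * a' := by rw [h3, Matrix.mul_one]
      _ = (b * a) * (b * a') + (b * a') * (b' * a') := by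
        simp only [Matrix.mul_add, Matrix.add_mul, Matrix.mul_assoc]
      _ = _ := by rw [h1, h2, Matrix.one_mul, Matrix.mul_one]
  have h' := congrArg (fun z => z - b * a') h
  simpa using h'.symm

theorem rc {a a' : Matrix (Fin 2) (Fin 1) S} {b b' : Matrix (Fin 1) (Fin 2) S}
    (h1 : b * a = 1) (h2 : b' * a' = 1) (h3 : a * b + a' * b' = 1) :
    rws b b' * cls a a' = 1 := by
  have h4 := off h1 h2 h3
  have h5 : b' * a = 0 := off h2 h1 (by rw [add_comm]; exact h3)
  have e : ∀ (u : Matrix (Fin 1) (Fin 2) S) (w : Matrix (Fin 2) (Fin 1) S),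
      (u * w) 0 0 = u 0 0 * w 0 0 + u 0 1 * w 1 0 := by
    intro u w
    rw [Matrix.mul_apply, Fin.sum_univ_two]
  have k1 := e b a
  have k2 := e b a'
  have k3 := e b' a
  have k4 := e b' a'
  rw [h1] at k1
  rw [h4] at k2
  rw [h5] at k3
  rw [h2] at k4
  ext i j
  rw [Matrix.mul_apply, Fin.sum_univ_two]
  fin_cases i <;> fin_cases j
  · simpa [rws, cls] using k1.symm
  · simpa [rws, cls] using k2.symm
  · simpa [rws, cls] using k3.symm
  · simpa [rws, cls] using k4.symm

theorem cr {a a' : Matrix (Fin 2) (Fin 1) S} {b b' : Matrix (Fin 1) (Fin 2) S}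
    (h3 : a * b + a' * b' = 1) : cls a a' * rws b b' = 1 := by
  rw [← h3]
  ext i j
  rw [Matrix.mul_apply, Fin.sum_univ_two, Matrix.add_apply, Matrix.mul_apply, Matrix.mul_apply,
    Fin.sum_univ_one, Fin.sum_univ_one]
  simp [rws, cls]

theorem tr {a a' : Matrix (Fin 2) (Fin 1) S} {b b' : Matrix (Fin 1) (Fin 2) S}
    (h1 : b * a = 1) (h2 : b' * a' = 1) (h3 : a * b + a' * b' = 1) :
    rws b b' * (a * b) = Matrix.diagonal (fun i : Fin 2 => if i = 0 then (1 : S) else 0) *
      rws b b' := by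
  have h5 : b' * a = 0 := off h2 h1 (by rw [add_comm]; exact h3)
  have k1 : b * (a * b) = b := by rw [← Matrix.mul_assoc, h1, Matrix.one_mul]
  have k2 : b' * (a * b) = 0 := by rw [← Matrix.mul_assoc, h5, Matrix.zero_mul]
  ext i j
  rw [Matrix.diagonal_mul, Matrix.mul_apply, Fin.sum_univ_two]
  fin_cases i
  · have := congrFun (congrFun k1 0) j
    rw [Matrix.mul_apply, Fin.sum_univ_two] at this
    simpa [rws] using this
  · have := congrFun (congrFun k2 0) j
    rw [Matrix.mul_apply, Fin.sum_univ_two] at this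
    simpa [rws] using this

end general

section unit

variable {k : Type} [Field k] {C : Type} [Group C]

/-- The invertible matrix over `k[C × Z']`. -/
def XU {a a' : Matrix (Fin 2) (Fin 1) (LaurentPolynomial (MonoidAlgebra k C))}
    {b b' : Matrix (Fin 1) (Fin 2) (LaurentPolynomial (MonoidAlgebra k C))}
    (h1 : b * a = 1) (h2 : b' * a' = 1) (h3 : a * b + a' * b' = 1) :
    (Matrix (Fin 2) (Fin 2) (MonoidAlgebra k (C × Multiplicative ℤ)))ˣ where
  val := (rws b b').map (lau k C)
  inv := (cls a a').map (lau k C)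
  val_inv := by
    rw [← Matrix.map_mul, rc h1 h2 h3, Matrix.map_one _ (map_zero _) (map_one _)]
  inv_val := by
    rw [← Matrix.map_mul, cr h3, Matrix.map_one _ (map_zero _) (map_one _)]

omit [Group C] in
theorem dZ_single (g : C × Multiplicative ℤ) (c : k) :
    dZ (MonoidAlgebra.single g c) =
      MonoidAlgebra.single g (((Multiplicative.toAdd g.2 : ℤ) : k) * c) := by
  unfold dZ
  have h : (MonoidAlgebra.single g c : MonoidAlgebra k (C × Multiplicative ℤ)).coeff =
      Finsupp.single g c := rfl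
  rw [h, Finsupp.sum_single_index (by simp)]
  rfl

theorem dZ_add (x y : MonoidAlgebra k (C × Multiplicative ℤ)) : dZ (x + y) = dZ x + dZ y := by
  classical
  unfold dZ
  rw [MonoidAlgebra.coeff_add, Finsupp.sum_add_index' (by simp) (by
    intro g c c'
    rw [mul_add, Finsupp.single_add])]
  rfl

theorem dZ_zero : dZ (0 : MonoidAlgebra k (C × Multiplicative ℤ)) = 0 := by
  unfold dZ
  have h : (0 : MonoidAlgebra k (C × Multiplicative ℤ)).coeff = 0 := rfl
  rw [h, Finsupp.sum_zero_index]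
  rfl

/-- `lau` transforms `DL` into `dZ`. -/
theorem dZ_lau (x : LaurentPolynomial (MonoidAlgebra k C)) :
    dZ (lau k C x) = lau k C (DL x) := by
  induction x using AddMonoidAlgebra.induction_linear with
  | zero => rw [map_zero, map_zero, map_zero, dZ_zero]
  | add x y hx hy => rw [map_add, map_add, map_add, dZ_add, hx, hy]
  | single n a =>
    induction a using MonoidAlgebra.induction_linear with
    | zero => rw [AddMonoidAlgebra.single_zero, map_zero, map_zero, map_zero, dZ_zero]
    | add a b ha hb =>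
      rw [AddMonoidAlgebra.single_add, map_add, map_add, map_add, dZ_add, ha, hb]
    | single g c =>
      have hl : ∀ (n : ℤ) (g : C) (c : k),
          lau k C (AddMonoidAlgebra.single n (MonoidAlgebra.single g c)) =
          MonoidAlgebra.single (g, Multiplicative.ofAdd n) c := by
        intro n g c
        have h : lau k C (AddMonoidAlgebra.single n (MonoidAlgebra.single g c)) =
            MonoidAlgebra.mapDomainRingHom k (MonoidHom.inl C (Multiplicative ℤ))
              (MonoidAlgebra.single g c) *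
              MonoidAlgebra.single ((1 : C), Multiplicative.ofAdd n) (1 : k) :=
          AddMonoidAlgebra.liftNC_single _ _ _ _
        have h2 : MonoidAlgebra.mapDomainRingHom k (MonoidHom.inl C (Multiplicative ℤ))
            (MonoidAlgebra.single g c) = MonoidAlgebra.single (g, 1) c := by
          change MonoidAlgebra.mapDomain _ (MonoidAlgebra.single g c) = _
          rw [MonoidAlgebra.mapDomain_single]
          rfl
        rw [h, h2, MonoidAlgebra.single_mul_single, mul_one]
        congr 1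
        ext
        · simp
        · simp
      rw [hl, DL_single, dZ_single, MonoidAlgebra.smul_single, hl, zsmul_eq_mul]
      rfl

/-- The logarithmic derivative. -/
theorem dlog_XU (hc : ∀ (x : LaurentPolynomial (MonoidAlgebra k C)) (g : C)
    (a : Multiplicative ℤ), (lau k C x).coeff (g, a) = (x.coeff (Multiplicative.toAdd a)).coeff g)
    {a a' : Matrix (Fin 2) (Fin 1) (LaurentPolynomial (MonoidAlgebra k C))}
    {b b' : Matrix (Fin 1) (Fin 2) (LaurentPolynomial (MonoidAlgebra k C))}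
    (h1 : b * a = 1) (h2 : b' * a' = 1) (h3 : a * b + a' * b' = 1) (c : C) :
    dlog (XU h1 h2 h3) (0 : Fin 2) c =
      ((Matrix.trace (b * a.map DL)).coeff 0).coeff c := by
  have e : (XU h1 h2 h3).val = (rws b b').map (lau k C) := rfl
  have e' : (XU h1 h2 h3)⁻¹.val = (cls a a').map (lau k C) := rfl
  unfold dlog
  rw [e, e', Matrix.mul_apply, Fin.sum_univ_two]
  have e2 : ((rws b b').map (lau k C)) 0 0 * (((cls a a').map (lau k C)).map dZ) 0 0 +
      ((rws b b').map (lau k C)) 0 1 * (((cls a a').map (lau k C)).map dZ) 1 0 =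
      lau k C (Matrix.trace (b * a.map DL)) := by
    simp only [Matrix.map_apply, rws, cls, Matrix.of_apply, if_true]
    rw [dZ_lau, dZ_lau, ← map_mul, ← map_mul, ← map_add, Matrix.trace_fin_one, Matrix.mul_apply,
      Fin.sum_univ_two]
    rfl
  rw [e2, hc]
  rfl

end unit

/-- The conclusion for one idempotent matrix. -/
theorem loc (hlau : S_LAU) {N : ℕ} [NeZero N]
    (M : Matrix (Fin 2) (Fin 2) (LaurentPolynomial (MonoidAlgebra ℤ (Cyc N))))
    (hM : M * M = M) (R : LaurentPolynomial (MonoidAlgebra ℚ (Cyc N)))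
    (w : ∀ (q : ℕ) [Fact q.Prime], MonoidAlgebra ℚ_[q] (Cyc N))
    (hQ : ∃ (α : Matrix (Fin 2) (Fin 1) (LaurentPolynomial (MonoidAlgebra ℚ (Cyc N))))
        (β : Matrix (Fin 1) (Fin 2) (LaurentPolynomial (MonoidAlgebra ℚ (Cyc N)))),
        α * β = M.map (mapL (MonoidAlgebra.mapRingHom (Cyc N) (Int.castRingHom ℚ))) ∧
        β * α = 1 ∧ Matrix.trace (β * α.map DL) = R)
    (hQ' : ∃ (α : Matrix (Fin 2) (Fin 1) (LaurentPolynomial (MonoidAlgebra ℚ (Cyc N))))
        (β : Matrix (Fin 1) (Fin 2) (LaurentPolynomial (MonoidAlgebra ℚ (Cyc N)))),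
        α * β = (1 - M).map (mapL (MonoidAlgebra.mapRingHom (Cyc N) (Int.castRingHom ℚ))) ∧
        β * α = 1)
    (hq : ∀ (q : ℕ) [Fact q.Prime],
      (∃ (α : Matrix (Fin 2) (Fin 1) (LaurentPolynomial (MonoidAlgebra ℤ_[q] (Cyc N))))
        (β : Matrix (Fin 1) (Fin 2) (LaurentPolynomial (MonoidAlgebra ℤ_[q] (Cyc N)))),
        α * β = M.map (mapL (MonoidAlgebra.mapRingHom (Cyc N) (Int.castRingHom ℤ_[q]))) ∧
        β * α = 1 ∧ mapL (MonoidAlgebra.mapRingHom (Cyc N) (PadicInt.Coe.ringHom))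
          (Matrix.trace (β * α.map DL)) =
          mapL (MonoidAlgebra.mapRingHom (Cyc N) (algebraMap ℚ ℚ_[q])) R -
            LaurentPolynomial.C (w q)) ∧
      (∃ (α : Matrix (Fin 2) (Fin 1) (LaurentPolynomial (MonoidAlgebra ℤ_[q] (Cyc N))))
        (β : Matrix (Fin 1) (Fin 2) (LaurentPolynomial (MonoidAlgebra ℤ_[q] (Cyc N)))),
        α * β = (1 - M).map (mapL (MonoidAlgebra.mapRingHom (Cyc N) (Int.castRingHom ℤ_[q]))) ∧
        β * α = 1)) :
    LocE ⟨2, M, hM⟩ (fun q _ c => (w q).coeff c) := by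
  classical
  have hcQ := (hlau ℚ (Cyc N)).1
  have hsum : ∀ (T : Type) [Ring T] (φ : LaurentPolynomial (MonoidAlgebra ℤ (Cyc N)) →+* T),
      M.map φ + (1 - M).map φ = 1 := by
    intro T _ φ
    rw [← Matrix.map_add φ (map_add φ), add_sub_cancel, Matrix.map_one _ (map_zero _) (map_one _)]
  -- the condition `Trv`
  have htrv : ∀ (k : Type) [Field k]
      (a a' : Matrix (Fin 2) (Fin 1) (LaurentPolynomial (MonoidAlgebra k (Cyc N))))
      (b b' : Matrix (Fin 1) (Fin 2) (LaurentPolynomial (MonoidAlgebra k (Cyc N))))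
      (h1 : b * a = 1) (h2 : b' * a' = 1) (h3 : a * b + a' * b' = 1),
      a * b = M.map (mapL (MonoidAlgebra.mapRingHom (Cyc N) (Int.castRingHom k))) →
      Trv k ⟨2, M, hM⟩ (fun i : Fin 2 => decide (i = 0)) (XU h1 h2 h3) := by
    intro k _ a a' b b' h1 h2 h3 h4
    change (rws b b').map (lau k (Cyc N)) * M.map (lauZ k (Cyc N)) = dg k _ *
      (rws b b').map (lau k (Cyc N))
    have e1 : M.map (lauZ k (Cyc N)) = (a * b).map (lau k (Cyc N)) := by
      rw [h4]
      rfl
    have e2 : dg k (Γ := Cyc N × Multiplicative ℤ) (fun i : Fin 2 => decide (i = 0)) =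
        (Matrix.diagonal (fun i : Fin 2 => if i = 0 then
          (1 : LaurentPolynomial (MonoidAlgebra k (Cyc N))) else 0)).map (lau k (Cyc N)) := by
      unfold dg
      rw [Matrix.diagonal_map (map_zero _)]
      congr 1
      funext i
      by_cases hi : i = 0
      · simp [hi]
      · simp [hi]
    rw [e1, e2, ← Matrix.map_mul, ← Matrix.map_mul, tr h1 h2 h3]
  obtain ⟨α, β, k1, k2, k3⟩ := hQ
  obtain ⟨α', β', k1', k2'⟩ := hQ'
  have k4 : α * β + α' * β' = 1 := by
    rw [k1, k1']
    exact hsum _ _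
  refine ⟨fun i : Fin 2 => decide (i = 0), XU k2 k2' k4, htrv ℚ _ _ _ _ _ _ _ k1, ?_⟩
  intro q _
  obtain ⟨⟨α1, β1, m1, m2, m3⟩, ⟨α2, β2, n1, n2⟩⟩ := hq q
  have hcq := (hlau ℚ_[q] (Cyc N)).1
  obtain ⟨ι, hι⟩ : ∃ ι : LaurentPolynomial (MonoidAlgebra ℤ_[q] (Cyc N)) →+*
      LaurentPolynomial (MonoidAlgebra ℚ_[q] (Cyc N)),
      ι = mapL (MonoidAlgebra.mapRingHom (Cyc N) (PadicInt.Coe.ringHom)) := ⟨_, rfl⟩
  have hcomp : ∀ x : LaurentPolynomial (MonoidAlgebra ℤ (Cyc N)),
      ι (mapL (MonoidAlgebra.mapRingHom (Cyc N) (Int.castRingHom ℤ_[q])) x) =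
        mapL (MonoidAlgebra.mapRingHom (Cyc N) (Int.castRingHom ℚ_[q])) x := by
    intro x
    rw [hι]
    induction x using AddMonoidAlgebra.induction_linear with
    | zero => simp only [map_zero]
    | add x y hx hy => simp only [map_add, hx, hy]
    | single n a =>
      rw [mapL_single, mapL_single, mapL_single]
      congr 1
      induction a using MonoidAlgebra.induction_linear with
      | zero => simp only [map_zero]
      | add x y hx hy => simp only [map_add, hx, hy]
      | single g c =>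
        rw [MonoidAlgebra.mapRingHom_single, MonoidAlgebra.mapRingHom_single,
          MonoidAlgebra.mapRingHom_single]
        congr 1
  have j1 : β1.map ι * α1.map ι = 1 := by
    rw [← Matrix.map_mul, m2, Matrix.map_one _ (map_zero _) (map_one _)]
  have j2 : β2.map ι * α2.map ι = 1 := by
    rw [← Matrix.map_mul, n2, Matrix.map_one _ (map_zero _) (map_one _)]
  have j0 : α1.map ι * β1.map ι =
      M.map (mapL (MonoidAlgebra.mapRingHom (Cyc N) (Int.castRingHom ℚ_[q]))) := by
    rw [← Matrix.map_mul, m1]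
    ext i j
    simp only [Matrix.map_apply]
    rw [hcomp]
  have j0' : α2.map ι * β2.map ι =
      (1 - M).map (mapL (MonoidAlgebra.mapRingHom (Cyc N) (Int.castRingHom ℚ_[q]))) := by
    rw [← Matrix.map_mul, n1]
    ext i j
    simp only [Matrix.map_apply]
    rw [hcomp]
  have j3 : α1.map ι * β1.map ι + α2.map ι * β2.map ι = 1 := by
    rw [j0, j0']
    exact hsum _ _
  -- integrality
  have hint : ∀ x : LaurentPolynomial (MonoidAlgebra ℤ_[q] (Cyc N)),
      NI (lau ℚ_[q] (Cyc N) (ι x)) := by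
    intro x μ
    obtain ⟨g, a⟩ := μ
    rw [hcq]
    have e : ((ι x).coeff (Multiplicative.toAdd a)).coeff g =
        (((x.coeff (Multiplicative.toAdd a)).coeff g : ℤ_[q]) : ℚ_[q]) := by
      rw [hι]
      clear * - x
      induction x using AddMonoidAlgebra.induction_linear with
      | zero => simp
      | add x y hx hy =>
        rw [map_add, AddMonoidAlgebra.coeff_add, AddMonoidAlgebra.coeff_add, Finsupp.add_apply,
          Finsupp.add_apply, MonoidAlgebra.coeff_add, MonoidAlgebra.coeff_add, Finsupp.add_apply,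
          Finsupp.add_apply, hx, hy]
        push_cast
        rfl
      | single n b =>
        rw [mapL_single, AddMonoidAlgebra.coeff_single, AddMonoidAlgebra.coeff_single,
          Finsupp.single_apply, Finsupp.single_apply]
        split_ifs
        · exact coeff_mapRingHom' _ _ _
        · simp
    rw [e]
    exact PadicInt.norm_le_one _
  refine ⟨XU j1 j2 j3, ⟨?_, ?_⟩, htrv ℚ_[q] _ _ _ _ _ _ _ j0, ?_⟩
  · intro i j
    change NI (((rws (β1.map ι) (β2.map ι)).map (lau ℚ_[q] (Cyc N))) i j)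
    rw [Matrix.map_apply]
    unfold rws
    rw [Matrix.of_apply]
    split_ifs
    · exact hint _
    · exact hint _
  · intro i j
    change NI (((cls (α1.map ι) (α2.map ι)).map (lau ℚ_[q] (Cyc N))) i j)
    rw [Matrix.map_apply]
    unfold cls
    rw [Matrix.of_apply]
    split_ifs
    · exact hint _
    · exact hint _
  · intro c
    have hfil : (Finset.univ.filter (fun i : Fin 2 => decide (i = 0) = true)) = {0} := by
      ext i
      simp
    have hfil' : (Finset.univ.filter (fun a : Fin (⟨2, M, hM⟩ : IdemMat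
        (LaurentPolynomial (MonoidAlgebra ℤ (Cyc N)))).n =>
        (fun i : Fin 2 => decide (i = 0)) a = true)) = ({(0 : Fin 2)} : Finset (Fin 2)) := hfil
    rw [hfil', Finset.sum_singleton]
    have d1 := dlog_XU hcQ k2 k2' k4 c
    have d2 := dlog_XU hcq j1 j2 j3 c
    rw [d1, d2, k3]
    have e3 : Matrix.trace (β1.map ι * (α1.map ι).map DL) =
        ι (Matrix.trace (β1 * α1.map DL)) := by
      rw [Matrix.trace_fin_one, Matrix.trace_fin_one, Matrix.mul_apply, Matrix.mul_apply,
        Fin.sum_univ_two, Fin.sum_univ_two, map_add, map_mul, map_mul]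
      simp only [Matrix.map_apply]
      rw [hι, DL_mapL, DL_mapL]
    rw [e3, hι, m3]
    have e4 : ∀ x : LaurentPolynomial (MonoidAlgebra ℚ (Cyc N)),
        ((mapL (MonoidAlgebra.mapRingHom (Cyc N) (algebraMap ℚ ℚ_[q])) x).coeff 0).coeff c =
        (((x.coeff 0).coeff c : ℚ) : ℚ_[q]) := by
      intro x
      have h5 := coeffZero_mapL (MonoidAlgebra.mapRingHom (Cyc N) (algebraMap ℚ ℚ_[q])) x
      change (mapL (MonoidAlgebra.mapRingHom (Cyc N) (algebraMap ℚ ℚ_[q])) x).coeff 0 =
        MonoidAlgebra.mapRingHom (Cyc N) (algebraMap ℚ ℚ_[q]) (x.coeff 0) at h5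
      rw [h5, coeff_mapRingHom']
      simp
    have e5 : ((mapL (MonoidAlgebra.mapRingHom (Cyc N) (algebraMap ℚ ℚ_[q])) R -
        LaurentPolynomial.C (w q)).coeff 0).coeff c =
        (((R.coeff 0).coeff c : ℚ) : ℚ_[q]) - (w q).coeff c := by
      have e6 : (LaurentPolynomial.C (w q)).coeff 0 = w q := by
        change ((AddMonoidAlgebra.single (0 : ℤ) (w q)).coeff 0) = w q
        rw [AddMonoidAlgebra.coeff_single, Finsupp.single_eq_same]
      rw [AddMonoidAlgebra.coeff_sub, Finsupp.sub_apply, MonoidAlgebra.coeff_sub,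
        Finsupp.sub_apply, e4, e6]
    rw [e5]
    ring

end NDA

open NDA

theorem t_NDA (hlau : S_LAU) : S_NDA := by
  intro p _ N _ E hE
  obtain ⟨b, f, hn, R, R', e, -, ⟨α, β, a1, a2, a3⟩, ⟨α', β', a1', a2', a3'⟩, hep, heq, hq⟩ :=
    exists_raw p E (by rw [pow_two]; exact hE)
  have hM := nodeMat_idem b f hn
  have hM' : (1 - nodeMat b f) * (1 - nodeMat b f) = 1 - nodeMat b f := by
    rw [sub_mul, one_mul, mul_sub, mul_one, hM, sub_self, sub_zero]
  refine ⟨⟨2, nodeMat b f, hM⟩, ⟨2, 1 - nodeMat b f, hM'⟩, fun q _ c => (e q).coeff c, ?_, ?_,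
    ?_, ?_⟩
  · exact NDA.loc hlau _ hM R e ⟨α, β, a1, a2, a3⟩ ⟨α', β', a1', a2'⟩ (fun q _ => by
      obtain ⟨⟨γ, δ, b1, b2, b3⟩, ⟨γ', δ', b1', b2', b3'⟩⟩ := hq q
      exact ⟨⟨γ, δ, b1, b2, b3⟩, ⟨γ', δ', b1', b2'⟩⟩)
  · have h := NDA.loc hlau _ hM' R' (fun q _ => - e q) ⟨α', β', a1', a2', a3'⟩
      ⟨α, β, by rw [sub_sub_cancel]; exact a1, a2⟩ (fun q _ => by
      obtain ⟨⟨γ, δ, b1, b2, b3⟩, ⟨γ', δ', b1', b2', b3'⟩⟩ := hq q
      refine ⟨⟨γ', δ', b1', b2', ?_⟩, ⟨γ, δ, by rw [sub_sub_cancel]; exact b1, b2⟩⟩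
      rw [b3', map_neg, sub_neg_eq_add])
    have e1 : (fun (q : ℕ) (_ : Fact q.Prime) (c : Cyc N) => (- e q).coeff c) =
        (fun (q : ℕ) (_ : Fact q.Prime) (c : Cyc N) => - (e q).coeff c) := by
      funext q _ c
      rfl
    rw [← e1]
    exact h
  · intro c
    change (e p).coeff c = _
    rw [hep]
  · intro q _ hqp c
    change (e q).coeff c = 0
    rw [heq q hqp]
    rfl

end Pool.Agent.FJA
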