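import Pool.Agent.FJA.St3

/-!
# Module NDB: local data of block sums
-/

set_option autoImplicit false

open Matrix Pool.Agent.WhK Pool.Agent.Lib25

noncomputable section

namespace Pool.Agent.FJA

namespace NDB

section Gen

variable {R : Type} [Ring R] {a b : ℕ}

/-- The block sum, reindexed. -/
def bs (X : (Matrix (Fin a) (Fin a) R)ˣ) (Y : (Matrix (Fin b) (Fin b) R)ˣ) :
    (Matrix (Fin (a + b)) (Fin (a + b)) R)ˣ :=
  rix finSumFinEquiv (blk X Y)

theorem bs_val (X : (Matrix (Fin a) (Fin a) R)ˣ) (Y : (Matrix (Fin b) (Fin b) R)ˣ) :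
    (bs X Y).val = (Matrix.fromBlocks X.val 0 0 Y.val).submatrix finSumFinEquiv.symm
      finSumFinEquiv.symm := rfl

theorem bs_inv (X : (Matrix (Fin a) (Fin a) R)ˣ) (Y : (Matrix (Fin b) (Fin b) R)ˣ) :
    ((bs X Y)⁻¹).val = (Matrix.fromBlocks (X⁻¹).val 0 0 (Y⁻¹).val).submatrix finSumFinEquiv.symm
      finSumFinEquiv.symm := rfl

/-- The marking of the block sum. -/
def bd2 (d : Fin a → Bool) (d' : Fin b → Bool) : Fin (a + b) → Bool :=
  Sum.elim d d' ∘ finSumFinEquiv.symm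

theorem sum_bd2 {V : Type*} [AddCommMonoid V] (d : Fin a → Bool) (d' : Fin b → Bool)
    (f : Fin (a + b) → V) :
    ∑ i ∈ Finset.univ.filter (fun i => bd2 d d' i = true), f i =
      ∑ i ∈ Finset.univ.filter (fun i => d i = true), f (finSumFinEquiv (Sum.inl i)) +
      ∑ i ∈ Finset.univ.filter (fun i => d' i = true), f (finSumFinEquiv (Sum.inr i)) := by
  rw [Finset.sum_filter, Finset.sum_filter, Finset.sum_filter,
    ← Equiv.sum_comp (finSumFinEquiv (m := a) (n := b)), Fintype.sum_sum_type]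
  congr 1
  · refine Finset.sum_congr rfl fun i _ => ?_
    unfold bd2
    rw [Function.comp_apply, Equiv.symm_apply_apply]
    rfl
  · refine Finset.sum_congr rfl fun i _ => ?_
    unfold bd2
    rw [Function.comp_apply, Equiv.symm_apply_apply]
    rfl

end Gen

section Alg

variable {k : Type} [Field k] {Γ : Type} [Group Γ] {a b : ℕ}

theorem dg_bs (d : Fin a → Bool) (d' : Fin b → Bool) :
    dg k (Γ := Γ) (bd2 d d') = (Matrix.fromBlocks (dg k d) 0 0 (dg k d')).submatrix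
      finSumFinEquiv.symm finSumFinEquiv.symm := by
  unfold dg
  rw [Matrix.fromBlocks_diagonal, Matrix.submatrix_diagonal_equiv]
  congr 1
  funext i
  unfold bd2
  rw [Function.comp_apply, Function.comp_apply]
  rcases finSumFinEquiv.symm i with j | j <;> rfl

theorem dZ_zero {P : Type} : dZ (0 : MonoidAlgebra k (P × Multiplicative ℤ)) = 0 := by
  unfold dZ
  rw [MonoidAlgebra.coeff_zero, Finsupp.sum_zero_index]
  rfl

variable {P : Type} [Group P]

theorem dlog_aux (X : (Matrix (Fin a) (Fin a) (MonoidAlgebra k (P × Multiplicative ℤ)))ˣ)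
    (Y : (Matrix (Fin b) (Fin b) (MonoidAlgebra k (P × Multiplicative ℤ)))ˣ) :
    (bs X Y).val * ((bs X Y)⁻¹).val.map dZ =
      (Matrix.fromBlocks (X.val * (X⁻¹).val.map dZ) 0 0 (Y.val * (Y⁻¹).val.map dZ)).submatrix
        finSumFinEquiv.symm finSumFinEquiv.symm := by
  rw [bs_val, bs_inv, ← Matrix.submatrix_map, Matrix.submatrix_mul_equiv, Matrix.fromBlocks_map,
    Matrix.map_zero _ dZ_zero, Matrix.map_zero _ dZ_zero, Matrix.fromBlocks_multiply]
  simp

theorem dlog_inl (X : (Matrix (Fin a) (Fin a) (MonoidAlgebra k (P × Multiplicative ℤ)))ˣ)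
    (Y : (Matrix (Fin b) (Fin b) (MonoidAlgebra k (P × Multiplicative ℤ)))ˣ) (i : Fin a) (c : P) :
    dlog (bs X Y) (finSumFinEquiv (Sum.inl i)) c = dlog X i c := by
  unfold dlog
  rw [dlog_aux, Matrix.submatrix_apply, Equiv.symm_apply_apply, Matrix.fromBlocks_apply₁₁]

theorem dlog_inr (X : (Matrix (Fin a) (Fin a) (MonoidAlgebra k (P × Multiplicative ℤ)))ˣ)
    (Y : (Matrix (Fin b) (Fin b) (MonoidAlgebra k (P × Multiplicative ℤ)))ˣ) (i : Fin b) (c : P) :
    dlog (bs X Y) (finSumFinEquiv (Sum.inr i)) c = dlog Y i c := by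
  unfold dlog
  rw [dlog_aux, Matrix.submatrix_apply, Equiv.symm_apply_apply, Matrix.fromBlocks_apply₂₂]

theorem NI_zero {ℓ : ℕ} [Fact ℓ.Prime] {M : Type*} : NI (0 : MonoidAlgebra ℚ_[ℓ] M) := by
  intro μ
  rw [MonoidAlgebra.coeff_zero, Finsupp.zero_apply, norm_zero]
  exact zero_le_one

theorem NIM_bs {ℓ : ℕ} [Fact ℓ.Prime] {M : Type*}
    {A : Matrix (Fin a) (Fin a) (MonoidAlgebra ℚ_[ℓ] M)}
    {B : Matrix (Fin b) (Fin b) (MonoidAlgebra ℚ_[ℓ] M)} (hA : NIM A) (hB : NIM B) :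
    NIM ((Matrix.fromBlocks A 0 0 B).submatrix (finSumFinEquiv (m := a) (n := b)).symm
      (finSumFinEquiv (m := a) (n := b)).symm) := by
  intro i j
  rw [Matrix.submatrix_apply]
  rcases finSumFinEquiv.symm i with i | i <;> rcases finSumFinEquiv.symm j with j | j
  · exact hA i j
  · exact NI_zero
  · exact NI_zero
  · exact hB i j

end Alg

theorem trv_add {k : Type} [Field k] {N : ℕ}
    {e e' : IdemMat (LaurentPolynomial (MonoidAlgebra ℤ (Cyc N)))}
    {d : Fin e.n → Bool} {d' : Fin e'.n → Bool}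
    {X : (Matrix (Fin e.n) (Fin e.n) (MonoidAlgebra k (Cyc N × Multiplicative ℤ)))ˣ}
    {X' : (Matrix (Fin e'.n) (Fin e'.n) (MonoidAlgebra k (Cyc N × Multiplicative ℤ)))ˣ}
    (h : Trv k e d X) (h' : Trv k e' d' X') :
    Trv k (e.add e') (bd2 d d') (bs X X') := by
  have h1 : (bs X X').val * ((Matrix.fromBlocks e.mat 0 0 e'.mat).submatrix finSumFinEquiv.symm
      finSumFinEquiv.symm).map (lauZ k (Cyc N)) = dg k (bd2 d d') * (bs X X').val := by
    rw [bs_val, dg_bs, ← Matrix.submatrix_map, Matrix.submatrix_mul_equiv,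
      Matrix.submatrix_mul_equiv, Matrix.fromBlocks_map, Matrix.map_zero _ (map_zero _),
      Matrix.map_zero _ (map_zero _), Matrix.fromBlocks_multiply, Matrix.fromBlocks_multiply]
    unfold Trv at h h'
    simp [h, h']
  exact h1

end NDB

theorem t_NDB : S_NDB := by
  intro N _
  refine ⟨?_, ?_⟩
  · refine ⟨fun _ => false, 1, ?_, ?_⟩
    · refine Matrix.ext fun i _ => ?_
      exact Fin.elim0 i
    · intro q _
      refine ⟨1, ⟨fun i _ => Fin.elim0 i, fun i _ => Fin.elim0 i⟩, ?_, ?_⟩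
      · refine Matrix.ext fun i _ => ?_
        exact Fin.elim0 i
      · intro c
        exact Finset.sum_eq_zero fun i _ => Fin.elim0 i
  · rintro e e' v v' ⟨d, X, hX, hY⟩ ⟨d', X', hX', hY'⟩
    refine ⟨NDB.bd2 d d', NDB.bs X X', NDB.trv_add hX hX', ?_⟩
    intro q _
    obtain ⟨Y, hY1, hY2, hY3⟩ := hY q
    obtain ⟨Y', hY1', hY2', hY3'⟩ := hY' q
    refine ⟨NDB.bs Y Y', ⟨NDB.NIM_bs hY1.1 hY1'.1, NDB.NIM_bs hY1.2 hY1'.2⟩,
      NDB.trv_add hY2 hY2', ?_⟩
    intro c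
    have h1 := NDB.sum_bd2 d d' fun a =>
      (((dlog (NDB.bs X X') a c : ℚ) : ℚ_[q]) - dlog (NDB.bs Y Y') a c)
    refine Eq.trans h1 (Eq.trans ?_ (congrArg₂ (· + ·) (hY3 c) (hY3' c)))
    refine congrArg₂ (· + ·) ?_ ?_
    · refine Finset.sum_congr rfl fun i _ => ?_
      rw [NDB.dlog_inl, NDB.dlog_inl]
    · refine Finset.sum_congr rfl fun i _ => ?_
      rw [NDB.dlog_inr, NDB.dlog_inr]

end Pool.Agent.FJA
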