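import Pool.Agent.FJA.St3

/-!
# Module PDK: the `ℓ`-adic theorem for chains
-/

set_option autoImplicit false

open Matrix Pool.Agent.WhK Pool.Agent.Lib25

noncomputable section

namespace Pool.Agent.FJA

namespace PDK

lemma TK_apply {k : Type} [Field k] [CharZero k] {Γ : Type} [Group Γ] {M : ℕ}
    (φ : Rec Γ (Fin M) → ℚ) (N : ℕ) (B : KCh k Γ M) :
    TK k φ N B = ∑ x ∈ B.support, ((B x : ℚ) : k) * TX φ N x.2 := by
  unfold TK
  rw [Finsupp.linearCombination_apply, Finsupp.sum]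
  refine Finset.sum_congr rfl fun x _ => ?_
  rw [Algebra.smul_def, eq_ratCast]

lemma TK_bdK {k : Type} [Field k] [CharZero k] {Γ : Type} [Group Γ] {M : ℕ}
    (φ : Rec Γ (Fin M) → ℚ) (N : ℕ) (B : KCh k Γ (M + 1)) :
    TK k φ N (bdK k Γ M B) = ∑ x ∈ B.support, ((B x : ℚ) : k) * ∑ i : Fin (M + 1),
      (-1 : k) ^ (i : ℕ) * TX φ N (fun t => x.2 (i.succAbove t)) := by
  unfold bdK
  rw [Finsupp.linearCombination_apply, Finsupp.sum, map_sum]
  refine Finset.sum_congr rfl fun x _ => ?_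
  rw [map_smul, map_sum, Algebra.smul_def, eq_ratCast]
  congr 1
  refine Finset.sum_congr rfl fun i _ => ?_
  unfold TK
  rw [Finsupp.linearCombination_single, Algebra.smul_def, eq_ratCast]
  push_cast
  rfl

end PDK

theorem t_PDK (hpad : S_PAD.{0, 0}) : S_PDK := by
  intro Γ _ σ b hb ℓ _ M F hF B hB hB2 e
  have h := hpad Γ σ b hb ℓ M F hF
    (Σ r : ℕ, (Fin (M + 1) → (Matrix (Fin r) (Fin r) (MonoidAlgebra ℚ_[ℓ] Γ))ˣ)) B.support
    (fun x => ((B x : ℚ) : ℚ_[ℓ])) (fun x => x.1) (fun x => x.2) hB ?_ e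
  · rw [PDK.TK_apply, PDK.TK_apply]
    exact h
  · intro η hη N hN
    have h2 := hB2 η hη N hN
    rw [PDK.TK_bdK] at h2
    exact h2

end Pool.Agent.FJA
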