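import Pool.Agent.FJA.St3

/-!
# Module RLD: two trivialisations of the same matrices
-/

set_option autoImplicit false

open Matrix Pool.Agent.WhK Pool.Agent.Lib25

noncomputable section

namespace Pool.Agent.FJA

namespace RLD

/-- The value of the functional on `BT`. -/
lemma TK_BT (hkcb : S_KCB) (k : Type) [Field k] [CharZero k] (G : Type) [Group G] (n : ℕ)
    (D : Dat G n) (e : ∀ j, IdemMat (LaurentPolynomial (MonoidAlgebra ℤ (Cyc (D.N j)))))
    (T : ∀ j, (Matrix (Fin (e j).n) (Fin (e j).n)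
      (MonoidAlgebra k (Cyc (D.N j) × Multiplicative ℤ)))ˣ)
    (b : SCh (LaurentPolynomial (MonoidAlgebra ℤ G)) (n + 3))
    (η : Rec (G × Multiplicative ℤ) (Fin (n + 3)) → ℚ) (N : ℕ) :
    TK k η N (BT k D e b T) = TK k η N (cvS k G (n + 3) b) +
      ∑ j ∈ D.s, (D.q j : k) * TF η N (DX (e j) (D.φ j) (T j) (D.w j)) := by
  have h4 := (hkcb k G (n + 3)).2.2.2.1
  rw [BT, map_add, map_sum]
  congr 1
  refine Finset.sum_congr rfl fun j _ => ?_
  rw [map_smul, h4, Rat.smul_def]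

end RLD

theorem t_RLD (hdif : S_DIF) (hkcb : S_KCB) : S_RLD := by
  intro k _ _ G _ n D e d T T' hT hT' b S F hS hF
  rw [RLD.TK_BT hkcb, RLD.TK_BT hkcb, add_sub_add_left_eq_sub, ← Finset.sum_sub_distrib,
    Finset.mul_sum]
  refine Finset.sum_congr rfl fun j _ => ?_
  have h := hdif k G (D.N j) (e j) (D.φ j) (d j) (T j) (T' j) (hT j) (hT' j) n S F hS hF
    (D.w j) (D.mem j)
  rw [← mul_sub, h]
  ring

end Pool.Agent.FJA
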