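import Pool.Agent.FJA.St3
import Pool.Agent.FJA.P_TXA

/-!
# RLP: the value on `BT` over `ℚ_p` of a family supported on the elements of order `n0`, `p ∣ n0`
-/

set_option autoImplicit false

open Matrix Pool.Agent.WhK Pool.Agent.Lib25

noncomputable section

namespace Pool.Agent.FJA

namespace RLP

/-- The second component of an element of finite order is trivial. -/
theorem snd_eq_one {G : Type} [Group G] {y : G × Multiplicative ℤ} (h : IsOfFinOrder y) :
    y.2 = 1 := by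
  rw [isOfFinOrder_iff_pow_eq_one] at h
  obtain ⟨n, hn, h2⟩ := h
  have h3 : y.2 ^ n = 1 := by
    rw [← Prod.pow_snd, h2]
    rfl
  have h4 : (n : ℤ) * Multiplicative.toAdd y.2 = 0 := by
    have h5 := congrArg Multiplicative.toAdd h3
    rw [toAdd_pow, toAdd_one, nsmul_eq_mul] at h5
    exact h5
  rcases mul_eq_zero.1 h4 with h5 | h5
  · have h6 : n = 0 := by exact_mod_cast h5
    omega
  · apply Multiplicative.toAdd.injective
    rw [h5]
    rfl

/-- The torsion bound for `G × ℤ`. -/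
theorem torBd {G : Type} [Group G] {bG : ℕ} (h : TorBd G bG) :
    TorBd (G × Multiplicative ℤ) bG := by
  intro y hy
  have h1 := snd_eq_one hy
  have h2 : IsOfFinOrder y.1 := by
    rw [isOfFinOrder_iff_pow_eq_one] at hy ⊢
    obtain ⟨n, hn, h3⟩ := hy
    exact ⟨n, hn, by rw [← Prod.pow_fst, h3]; rfl⟩
  have h3 : orderOf y ≤ orderOf y.1 := by
    apply Nat.le_of_dvd h2.orderOf_pos
    apply orderOf_dvd_of_pow_eq_one
    apply Prod.ext
    · rw [Prod.pow_fst, pow_orderOf_eq_one]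
      rfl
    · rw [Prod.pow_snd, h1, one_pow]
      rfl
  exact h3.trans (h _ h2)

/-- The order of `x ^ (p ^ E)` is prime to `p` if `p ^ E` is larger than the order of `x`. -/
theorem not_dvd {G : Type} [Group G] {x : G} (hx : IsOfFinOrder x) {p E : ℕ} (hp : p.Prime)
    (hE : orderOf x < p ^ E) : ¬ p ∣ orderOf (x ^ p ^ E) := by
  obtain ⟨a, m, hm, h1⟩ := Nat.exists_eq_pow_mul_and_not_dvd hx.orderOf_pos.ne' p hp.ne_one
  have hm0 : 0 < m := by
    rcases Nat.eq_zero_or_pos m with h | h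
    · exact absurd (h ▸ dvd_zero p) hm
    · exact h
  have h2 : p ^ a ≤ orderOf x := by
    rw [h1]
    exact Nat.le_mul_of_pos_right _ hm0
  have h3 : a ≤ E := by
    by_contra h4
    have h5 : p ^ E ≤ p ^ a := Nat.pow_le_pow_right hp.pos (by omega)
    omega
  have h4 : orderOf (x ^ p ^ E) ∣ m := by
    apply orderOf_dvd_of_pow_eq_one
    rw [← pow_mul]
    apply orderOf_dvd_iff_pow_eq_one.1
    rw [h1]
    exact Nat.mul_dvd_mul_right (pow_dvd_pow p h3) m
  exact fun h5 => hm (h5.trans h4)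

theorem powF_zero {G : Type} [Group G] {bG : ℕ} (hb : TorBd G bG) {n n0 : ℕ} (hn0 : 0 < n0)
    {p : ℕ} (hp : p.Prime) (hd : p ∣ n0) {E : ℕ} (hE : bG < p ^ E)
    (F : (Fin (n + 2) → G) → G → ℚ) (hF : GCoch (n + 1) (fun y => orderOf y = n0) F)
    (a : Fin (n + 3) → G × Multiplicative ℤ) (y : G × Multiplicative ℤ) :
    powF (p ^ E) (cup F) a y = 0 := by
  unfold powF cup
  split_ifs with h1
  · by_contra h2
    have h3 : F (fun i => (a i.castSucc).1) (y ^ p ^ E).1 ≠ 0 := fun h => h2 (by rw [h, zero_mul])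
    have h4 : orderOf (y ^ p ^ E).1 = n0 := hF.supp _ _ h3
    rw [Prod.pow_fst] at h4
    have h5 : IsOfFinOrder (y.1 ^ p ^ E) := by
      rw [← orderOf_pos_iff, h4]
      exact hn0
    have h6 : IsOfFinOrder y.1 := h5.of_pow (pow_ne_zero _ hp.ne_zero)
    refine not_dvd h6 hp (lt_of_le_of_lt (hb _ h6) hE) ?_
    rw [h4]
    exact hd
  · rfl

theorem fst_zero {Γ : Type} [Group Γ] (M : ℕ) :
    fst (fun (_ : Fin M → Γ) (_ : Γ) => (0 : ℚ)) = fun _ => 0 := by
  funext μ
  unfold fst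
  split_ifs <;> rfl

theorem TK_zero (k : Type) [Field k] [CharZero k] {Γ : Type} [Group Γ] {M : ℕ} (N : ℕ)
    (B : KCh k Γ M) : TK k (fun _ : Rec Γ (Fin M) => (0 : ℚ)) N B = 0 := by
  unfold TK
  rw [Finsupp.linearCombination_apply]
  refine Finset.sum_eq_zero fun x _ => ?_
  have h1 := (t_TXlin k Γ (Fin x.1) M N x.2).2 0 (fun _ => 0)
  simp only [zero_mul, Rat.cast_zero] at h1
  change B x • TX (fun _ : Rec Γ (Fin M) => (0 : ℚ)) N x.2 = 0
  rw [h1, smul_zero]

end RLP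

theorem t_RLP (hpdk : S_PDK) (hrea : S_REA) (hnib : S_NIB) (hcup : S_CUP) : S_RLP := by
  intro G _ bG hb n n0 hn0 p hpp hp D e d T hT hTN b κ hκ hch F hF
  have hF' : Coch (sg2 G) (n + 2) (cup F) := by
    refine (hcup G (n + 1) F).2 (fun y => orderOf y = n0) (fun y hy => ?_) hF
    rw [← orderOf_pos_iff, hy]
    exact hn0
  obtain ⟨E, hE⟩ : ∃ E, bG < p ^ E := ⟨bG, Nat.lt_pow_self hpp.out.one_lt⟩
  have h1 := hpdk (G × Multiplicative ℤ) (sg2 G) bG (RLP.torBd hb) p (n + 2) (cup F) hF'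
    (BT ℚ_[p] D e b T) (hnib p G n D e T b (fun j _ => hTN j))
    (fun η hη N _ => hrea ℚ_[p] G n D e d T hT b κ hκ hch η N hη) E
  have h0 : powF (p ^ E) (cup F) = fun _ _ => 0 := by
    funext a y
    exact RLP.powF_zero hb hn0 hpp.out hp hE F hF a y
  rw [h0, RLP.fst_zero] at h1
  exact h1.trans (RLP.TK_zero ℚ_[p] 1 _)

end Pool.Agent.FJA
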