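import Pool.Agent.FJA.St4

/-!
# Module RST: restriction of a family of functionals to finitely many classes
-/

set_option autoImplicit false

open Matrix Pool.Agent.WhK Pool.Agent.Lib25 CategoryTheory

noncomputable section

namespace Pool.Agent.FJA

namespace RST

variable {G : Type} [Group G]

/-- `h` is conjugate to an element of `T`. -/
def Cj (T : Finset G) (h : G) : Prop := ∃ t ∈ T, ∃ x : G, h = x * t * x⁻¹

/-- `T` contains the powers of its elements. -/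
def Cl (T : Finset G) : Prop := ∀ t ∈ T, ∀ k : ℤ, t ^ k ∈ T

theorem Cj.self {T : Finset G} {t : G} (ht : t ∈ T) : Cj T t := ⟨t, ht, 1, by simp⟩

theorem Cj.conj {T : Finset G} (x h : G) : Cj T (x * h * x⁻¹) ↔ Cj T h := by
  constructor
  · rintro ⟨t, ht, y, hy⟩
    refine ⟨t, ht, x⁻¹ * y, ?_⟩
    have h1 : h = x⁻¹ * (x * h * x⁻¹) * x := by group
    rw [h1, hy]
    group
  · rintro ⟨t, ht, y, rfl⟩
    exact ⟨t, ht, x * y, by group⟩

theorem Cj.zpow {T : Finset G} (hT : Cl T) {h h' : G} (hh : h' ∈ Subgroup.zpowers h)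
    (h1 : Cj T h) : Cj T h' := by
  obtain ⟨k, rfl⟩ := hh
  obtain ⟨t, ht, x, rfl⟩ := h1
  refine ⟨t ^ k, hT t ht k, x, ?_⟩
  exact conj_zpow

open Classical in
/-- The restricted family. -/
def lam {n : ℕ} (T : Finset G) (L : ∀ (_ : ℕ) (h : G), HQ (n + 1) (Cen h) →ₗ[ℚ] ℚ) (p : ℕ)
    (h : G) : Hk ℚ (n + 1) (Cen h) →ₗ[ℚ] ℚ :=
  if Cj T h then L p h else 0

theorem lam_pos {n : ℕ} {T : Finset G} {L : ∀ (_ : ℕ) (h : G), HQ (n + 1) (Cen h) →ₗ[ℚ] ℚ}
    {p : ℕ} {h : G} (hh : Cj T h) : lam T L p h = L p h := by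
  unfold lam
  rw [if_pos hh]

theorem lam_neg {n : ℕ} {T : Finset G} {L : ∀ (_ : ℕ) (h : G), HQ (n + 1) (Cen h) →ₗ[ℚ] ℚ}
    {p : ℕ} {h : G} (hh : ¬ Cj T h) : lam T L p h = 0 := by
  unfold lam
  rw [if_neg hh]

theorem famL {n : ℕ} (T : Finset G) (hT : Cl T)
    (L : ∀ (_ : ℕ) (h : G), HQ (n + 1) (Cen h) →ₗ[ℚ] ℚ) (hL : AdmL n G L) :
    FamL n T (lam T L) where
  adm p h hp := by
    by_cases hh : Cj T h
    · rw [lam_pos hh]
      exact hL.zero p h hp
    · exact lam_neg hh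
  supp p h hp := by
    by_contra hh
    exact hp (lam_neg hh)
  conj p h x c := by
    by_cases hh : Cj T h
    · rw [lam_pos hh, lam_pos ((Cj.conj x h).mpr hh)]
      exact hL.conj p h x c
    · rw [lam_neg hh, lam_neg (fun h1 => hh ((Cj.conj x h).mp h1))]
      rfl
  frob p h h' hh j k c h1 h2 h3 := by
    by_cases hc : Cj T h
    · rw [lam_pos hc, lam_pos (hc.zpow hT hh)]
      exact hL.frob p h h' hh j k c h1 h2 h3
    · rw [lam_neg hc, lam_neg (fun h4 => hc (h4.zpow hT h2))]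
      rfl
  sum h c hf := by
    by_cases hc : Cj T h
    · refine Eq.trans ?_ (hL.sum h c hf)
      refine Finset.sum_congr rfl fun p _ => Finset.sum_congr rfl fun a _ => ?_
      rw [lam_pos (hc.zpow hT (Subgroup.pow_mem _ (Subgroup.mem_zpowers h) a))]
      rfl
    · refine Finset.sum_eq_zero fun p _ => Finset.sum_eq_zero fun a ha => ?_
      rw [Finset.mem_filter] at ha
      obtain ⟨m, hm⟩ := exists_pow_eq_self_of_coprime ha.2
      have h1 : (h ^ a) ^ m ∈ Subgroup.zpowers (h ^ a) :=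
        Subgroup.pow_mem _ (Subgroup.mem_zpowers (h ^ a)) m
      rw [hm] at h1
      rw [lam_neg (fun h4 => hc (h4.zpow hT h1))]
      rfl

open Classical in
/-- The powers of the elements of `T0`. -/
def pw (T0 : Finset G) : Finset G :=
  T0.biUnion fun t => (Finset.range (orderOf t)).image fun k => t ^ k

theorem mem_pw {T0 : Finset G} (h0 : ∀ t ∈ T0, IsOfFinOrder t) {u : G} :
    u ∈ pw T0 ↔ ∃ t ∈ T0, u ∈ Subgroup.zpowers t := by
  classical
  unfold pw
  rw [Finset.mem_biUnion]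
  constructor
  · rintro ⟨t, ht, hu⟩
    rw [Finset.mem_image] at hu
    obtain ⟨k, _, rfl⟩ := hu
    exact ⟨t, ht, Subgroup.pow_mem _ (Subgroup.mem_zpowers t) k⟩
  · rintro ⟨t, ht, hu⟩
    refine ⟨t, ht, ?_⟩
    rw [← (h0 t ht).mem_powers_iff_mem_zpowers] at hu
    obtain ⟨k, rfl⟩ := hu
    rw [Finset.mem_image]
    refine ⟨k % orderOf t, ?_, pow_mod_orderOf t k⟩
    rw [Finset.mem_range]
    exact Nat.mod_lt _ (h0 t ht).orderOf_pos

theorem cl_pw {T0 : Finset G} (h0 : ∀ t ∈ T0, IsOfFinOrder t) : Cl (pw T0) := by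
  intro u hu k
  rw [mem_pw h0] at hu ⊢
  obtain ⟨t, ht, hu⟩ := hu
  exact ⟨t, ht, Subgroup.zpow_mem _ hu k⟩

end RST

open RST in
theorem t_RST : S_RST := by
  intro G _ n L hL T0 h0
  have hsub : T0 ⊆ pw T0 := fun t ht => (mem_pw h0).mpr ⟨t, ht, Subgroup.mem_zpowers t⟩
  refine ⟨pw T0, lam (pw T0) L, hsub, famL (pw T0) (cl_pw h0) L hL, ?_, ?_⟩
  · intro p t ht
    rw [lam_pos (Cj.self ht)]
    exact hL.den p t
  · intro p t ht
    exact lam_pos (Cj.self (hsub ht))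

end Pool.Agent.FJA
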