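import Pool.Agent.FJA.St1

/-!
# FJA: the module SEC

A pair `(Y, y)`, `Y` a nonempty list of length `N`, gives the sequence `A : ℤ → Γ` with
`A (n + N) = y * A n`; the rotation of `(Y, y)` is the shift of `A`.
-/

set_option autoImplicit false

namespace Pool.Agent.FJA

universe u

namespace SEC

variable {Γ : Type u} [Group Γ]

/-- The sequence of a pair. -/
def sq (Y : List Γ) (y : Γ) (n : ℤ) : Γ :=
  y ^ (n / (Y.length : ℤ)) * Y.getD (n % (Y.length : ℤ)).toNat 1

lemma exists_idx {Y : List Γ} (hY : Y ≠ []) (n : ℤ) :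
    ∃ h : (n % (Y.length : ℤ)).toNat < Y.length,
      Y.getD (n % (Y.length : ℤ)).toNat 1 = Y[(n % (Y.length : ℤ)).toNat] := by
  have h0 : 0 < Y.length := List.length_pos_iff.mpr hY
  have h1 : 0 ≤ n % (Y.length : ℤ) := Int.emod_nonneg _ (by omega)
  have h2 : n % (Y.length : ℤ) < Y.length := Int.emod_lt_of_pos _ (by omega)
  have h3 : (n % (Y.length : ℤ)).toNat < Y.length := by omega
  exact ⟨h3, List.getD_eq_getElem _ _ h3⟩

lemma sq_mem {Y : List Γ} (hY : Y ≠ []) (y : Γ) (n : ℤ) :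
    ∃ (t : ℤ), ∃ a ∈ Y, sq Y y n = y ^ t * a := by
  obtain ⟨h, h'⟩ := exists_idx hY n
  exact ⟨_, _, List.getElem_mem h, by rw [sq, h']⟩

lemma sq_add {Y : List Γ} (hY : Y ≠ []) (y : Γ) (n : ℤ) :
    sq Y y (n + Y.length) = y * sq Y y n := by
  have h0 : 0 < Y.length := List.length_pos_iff.mpr hY
  have h1 : ((Y.length : ℕ) : ℤ) ≠ 0 := by omega
  rw [sq, sq, Int.add_emod_right, ← mul_assoc, ← zpow_one_add]
  congr 2
  rw [Int.add_ediv_of_dvd_right (dvd_refl _), Int.ediv_self h1]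
  ring

lemma sq_add_mul {Y : List Γ} (hY : Y ≠ []) (y : Γ) (n : ℤ) (e : ℤ) :
    sq Y y (n + e * Y.length) = y ^ e * sq Y y n := by
  have h0 : 0 < Y.length := List.length_pos_iff.mpr hY
  have h1 : ((Y.length : ℕ) : ℤ) ≠ 0 := by omega
  rw [sq, sq, Int.add_mul_emod_self_right, ← mul_assoc, ← zpow_add,
    Int.add_mul_ediv_right _ _ h1, add_comm e]

lemma sq_conj {Y : List Γ} (hY : Y ≠ []) (γ y : Γ) (n : ℤ) :
    sq (Y.map (γ * ·)) (γ * y * γ⁻¹) n = γ * sq Y y n := by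
  obtain ⟨h, h'⟩ := exists_idx hY n
  have hY' : Y.map (γ * ·) ≠ [] := by simpa using hY
  obtain ⟨h1, h1'⟩ := exists_idx hY' n
  rw [sq, sq, h', h1', conj_zpow]
  simp only [List.length_map, List.getElem_map]
  group

lemma sq_rot (a : Γ) (Y : List Γ) (y : Γ) (n : ℤ) :
    sq (Y ++ [y * a]) y n = sq (a :: Y) y (n + 1) := by
  have hl : (Y ++ [y * a]).length = Y.length + 1 := by simp
  have hl' : (a :: Y).length = Y.length + 1 := by simp
  obtain ⟨N, hN⟩ : ∃ N, N = Y.length := ⟨_, rfl⟩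
  rw [sq, sq, hl, hl', ← hN]
  have h1 : 0 ≤ n % ((N + 1 : ℕ) : ℤ) := Int.emod_nonneg _ (by omega)
  have h2 : n % ((N + 1 : ℕ) : ℤ) < ((N + 1 : ℕ) : ℤ) := Int.emod_lt_of_pos _ (by omega)
  obtain ⟨r, hr⟩ : ∃ r : ℕ, (r : ℤ) = n % ((N + 1 : ℕ) : ℤ) := ⟨(n % ((N + 1 : ℕ) : ℤ)).toNat, by
    omega⟩
  obtain ⟨q, hq⟩ : ∃ q : ℤ, q = n / ((N + 1 : ℕ) : ℤ) := ⟨_, rfl⟩
  have hn : n = r + ((N + 1 : ℕ) : ℤ) * q := by
    rw [hr, hq]
    exact (Int.emod_add_mul_ediv n _).symm
  rw [← hr, ← hq]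
  have hr' : r < N + 1 := by omega
  rcases Nat.lt_or_ge r N with h | h
  · have e1 : (n + 1) / ((N + 1 : ℕ) : ℤ) = q := by
      rw [hn, show (r : ℤ) + ((N + 1 : ℕ) : ℤ) * q + 1 = (r + 1 : ℤ) + ((N + 1 : ℕ) : ℤ) * q by
        ring, Int.add_mul_ediv_left _ _ (by omega), Int.ediv_eq_zero_of_lt (by omega) (by omega),
        zero_add]
    have e2 : (n + 1) % ((N + 1 : ℕ) : ℤ) = ((r + 1 : ℕ) : ℤ) := by
      rw [hn, show (r : ℤ) + ((N + 1 : ℕ) : ℤ) * q + 1 = (r + 1 : ℤ) + ((N + 1 : ℕ) : ℤ) * q by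
        ring, Int.add_mul_emod_self_left, Int.emod_eq_of_lt (by omega) (by omega)]
      push_cast
      ring
    rw [e1, e2, Int.toNat_natCast, Int.toNat_natCast, List.getD_cons_succ,
      List.getD_append _ _ _ _ (by omega)]
  · have hrN : r = N := by omega
    have e1 : (n + 1) / ((N + 1 : ℕ) : ℤ) = 1 + q := by
      rw [hn, hrN, show (N : ℤ) + ((N + 1 : ℕ) : ℤ) * q + 1 =
        ((N + 1 : ℕ) : ℤ) + ((N + 1 : ℕ) : ℤ) * q by push_cast; ring,
        Int.add_mul_ediv_left _ _ (by omega), Int.ediv_self (by omega)]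
    have e2 : (n + 1) % ((N + 1 : ℕ) : ℤ) = ((0 : ℕ) : ℤ) := by
      rw [hn, hrN, show (N : ℤ) + ((N + 1 : ℕ) : ℤ) * q + 1 =
        ((N + 1 : ℕ) : ℤ) + ((N + 1 : ℕ) : ℤ) * q by push_cast; ring,
        Int.add_mul_emod_self_left, Int.emod_self]
      rfl
    rw [e1, e2, Int.toNat_natCast, Int.toNat_natCast, List.getD_cons_zero, hrN, hN,
      List.getD_append_right _ _ _ _ (le_refl _), Nat.sub_self, List.getD_cons_zero, zpow_one_add,
      ← zpow_one_add, zpow_one_add, ← mul_assoc]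
    congr 1
    rw [← zpow_one_add, ← zpow_add_one, add_comm]

/-- Sequences up to translation by `Γ` and shift. -/
def rel : Setoid (ℤ → Γ) where
  r A B := ∃ (γ : Γ) (m : ℤ), ∀ n, A n = γ * B (n + m)
  iseqv := ⟨fun A => ⟨1, 0, fun n => by simp⟩,
    fun {A B} ⟨γ, m, h⟩ => ⟨γ⁻¹, -m, fun n => by rw [h (n + -m)]; simp⟩,
    fun {A B C} ⟨γ, m, h⟩ ⟨δ, l, h'⟩ => ⟨γ * δ, m + l, fun n => by
      rw [h n, h' (n + m), mul_assoc, add_assoc]⟩⟩

/-- The representative of the class. -/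
noncomputable def rep (A : ℤ → Γ) : ℤ → Γ := (Quotient.mk rel A).out

lemma rep_spec (A : ℤ → Γ) : ∃ (γ : Γ) (m : ℤ), ∀ n, A n = γ * rep A (n + m) :=
  (rel (Γ := Γ)).symm (Quotient.mk_out (s := rel) A)

/-- The chosen positions. -/
def pos (A : ℤ → Γ) : Set Γ :=
  {x | ∃ (γ : Γ) (m : ℤ), (∀ n, A n = γ * rep A (n + m)) ∧ x = γ * rep A 0}

lemma pos_nonempty (A : ℤ → Γ) : (pos A).Nonempty := by
  obtain ⟨γ, m, h⟩ := rep_spec A
  exact ⟨_, γ, m, h, rfl⟩

lemma pos_mem {A : ℤ → Γ} {x : Γ} (hx : x ∈ pos A) : ∃ n, x = A n := by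
  obtain ⟨γ, m, h, rfl⟩ := hx
  exact ⟨-m, by rw [h (-m)]; simp⟩

lemma pos_translate (A B : ℤ → Γ) (δ : Γ) (l : ℤ) (h : ∀ n, B n = δ * A (n + l)) :
    pos B = (δ * ·) '' pos A := by
  have hr : rep B = rep A := by
    unfold rep
    have : (Quotient.mk rel B) = Quotient.mk rel A := Quotient.sound (s := rel) ⟨δ, l, h⟩
    rw [this]
  ext x
  constructor
  · rintro ⟨γ, m, h1, rfl⟩
    rw [hr] at h1 ⊢
    refine ⟨δ⁻¹ * γ * rep A 0, ⟨δ⁻¹ * γ, m - l, fun n => ?_, rfl⟩, by group⟩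
    have h2 := h (n - l)
    rw [h1, sub_add_cancel] at h2
    rw [mul_assoc, show n + (m - l) = n - l + m by ring, h2]
    group
  · rintro ⟨_, ⟨γ, m, h1, rfl⟩, rfl⟩
    refine ⟨δ * γ, m + l, fun n => ?_, ?_⟩
    · rw [h, h1, hr, ← mul_assoc]
      congr 2
      ring
    · rw [hr]
      exact (mul_assoc _ _ _).symm

/-- The stabiliser. -/
def stab (A : ℤ → Γ) : Subgroup (Γ × Multiplicative ℤ) where
  carrier := {g | ∀ n, A n = g.1 * A (n + Multiplicative.toAdd g.2)}
  one_mem' := fun n => by simp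
  mul_mem' := by
    intro g g' h h' n
    rw [h n, h' (n + Multiplicative.toAdd g.2), ← mul_assoc]
    simp [add_assoc]
  inv_mem' := by
    intro g h n
    have h1 := h (n + Multiplicative.toAdd (g⁻¹).2)
    simp only [Prod.snd_inv, toAdd_inv, neg_add_cancel_right] at h1
    simp only [Prod.fst_inv, Prod.snd_inv, toAdd_inv]
    rw [h1]
    group

instance (A : ℤ → Γ) : IsCyclic (stab A) := by
  have hinj : Function.Injective ((MonoidHom.snd Γ (Multiplicative ℤ)).comp (stab A).subtype) := by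
    rw [injective_iff_map_eq_one]
    rintro ⟨⟨δ, e⟩, h⟩ h1
    have h2 : e = 1 := h1
    subst h2
    have h3 := h 0
    simp only [toAdd_one, add_zero] at h3
    have h4 : δ = 1 := by
      have := mul_right_cancel (a := (1 : Γ)) (b := A 0) (c := δ) (by rw [one_mul]; exact h3)
      exact this.symm
    subst h4
    rfl
  exact isCyclic_of_injective _ hinj

/-- The projection of the stabiliser. -/
def stab1 (A : ℤ → Γ) : Subgroup Γ :=
  ((MonoidHom.fst Γ (Multiplicative ℤ)).comp (stab A).subtype).range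

lemma mem_stab1 (A : ℤ → Γ) (δ : Γ) : δ ∈ stab1 A ↔ ∃ e : ℤ, ∀ n, A n = δ * A (n + e) := by
  constructor
  · rintro ⟨⟨⟨δ', e⟩, h⟩, rfl⟩
    exact ⟨Multiplicative.toAdd e, h⟩
  · rintro ⟨e, h⟩
    exact ⟨⟨(δ, Multiplicative.ofAdd e), h⟩, rfl⟩

instance (A : ℤ → Γ) : IsCyclic (stab1 A) :=
  isCyclic_of_surjective _ (MonoidHom.rangeRestrict_surjective _)

lemma pos_sub (A : ℤ → Γ) {x : Γ} (hx : x ∈ pos A) :
    pos A ⊆ (fun δ : stab1 A => (δ : Γ) * x) '' Set.univ := by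
  obtain ⟨γ, m, h, rfl⟩ := hx
  rintro _ ⟨γ', m', h', rfl⟩
  refine ⟨⟨γ' * γ⁻¹, (mem_stab1 A _).mpr ⟨m' - m, fun n => ?_⟩⟩, trivial, ?_⟩
  · rw [h', h (n + (m' - m)), show n + (m' - m) + m = n + m' by ring]
    group
  · simp only
    group

lemma fin_order {Y : List Γ} (hY : Y ≠ []) {y : Γ} (hy : IsOfFinOrder y) {δ : Γ}
    (hδ : δ ∈ stab1 (sq Y y)) : IsOfFinOrder δ := by
  have h0 : 0 < Y.length := List.length_pos_iff.mpr hY
  obtain ⟨e, he⟩ := (mem_stab1 _ _).mp hδ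
  have h1 : ∀ (j : ℕ) (n : ℤ), sq Y y n = δ ^ j * sq Y y (n + j * e) := by
    intro j
    induction j with
    | zero => intro n; simp
    | succ j ih =>
      intro n
      rw [ih n, he (n + j * e), pow_succ, mul_assoc]
      push_cast
      rw [show n + (j : ℤ) * e + e = n + ((j : ℤ) + 1) * e by ring]
  have h2 := h1 Y.length 0
  rw [mul_comm ((Y.length : ℕ) : ℤ) e, sq_add_mul hY, ← mul_assoc] at h2
  have h3 : δ ^ Y.length * y ^ e = 1 := by
    have := mul_right_cancel (a := (1 : Γ)) (b := sq Y y 0) (c := δ ^ Y.length * y ^ e)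
      (by rw [one_mul]; exact h2)
    exact this.symm
  have h4 : δ ^ Y.length = (y ^ e)⁻¹ := eq_inv_of_mul_eq_one_left h3
  have h5 : IsOfFinOrder (δ ^ Y.length) := by
    rw [h4]
    exact (hy.zpow).inv
  exact h5.of_pow (by omega)

lemma card_le {b : ℕ} (hb : TorBd Γ b) {Y : List Γ} (hY : Y ≠ []) {y : Γ} (hy : IsOfFinOrder y) :
    (pos (sq Y y)).Finite ∧ (pos (sq Y y)).ncard ≤ b := by
  obtain ⟨x, hx⟩ := pos_nonempty (sq Y y)
  obtain ⟨g, hg⟩ := IsCyclic.exists_generator (α := stab1 (sq Y y))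
  have h1 : IsOfFinOrder g := by
    have := fin_order hY hy g.2
    exact Submonoid.isOfFinOrder_coe.mp this
  have hfin : Finite (stab1 (sq Y y)) := by
    have h2 : Subgroup.zpowers g = ⊤ := (Subgroup.eq_top_iff' _).mpr hg
    have h3 : Finite (Subgroup.zpowers g) := (finite_zpowers.mpr h1).to_subtype
    rw [h2] at h3
    exact Finite.of_equiv _ Subgroup.topEquiv.toEquiv
  have hc : Nat.card (stab1 (sq Y y)) ≤ b := by
    have h2 : Nat.card (stab1 (sq Y y)) = orderOf g :=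
      (orderOf_eq_card_of_forall_mem_zpowers hg).symm
    rw [h2, ← Subgroup.orderOf_coe]
    exact hb _ (fin_order hY hy g.2)
  have hsub := pos_sub _ hx
  have hf : ((fun δ : stab1 (sq Y y) => (δ : Γ) * x) '' Set.univ).Finite := Set.toFinite _
  refine ⟨hf.subset hsub, (Set.ncard_le_ncard hsub hf).trans ?_⟩
  refine (Set.ncard_image_le (Set.toFinite _)).trans ?_
  rw [Set.ncard_univ]
  exact hc

/-- The average of a finite set. -/
noncomputable def avg (S : Set Γ) : Γ →₀ ℚ := by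
  classical
  exact if h : S.Finite then ∑ x ∈ h.toFinset, Finsupp.single x ((S.ncard : ℚ)⁻¹) else 0

lemma avg_image (S : Set Γ) (γ : Γ) : avg ((γ * ·) '' S) = (avg S).mapDomain (γ * ·) := by
  classical
  have hinj : Function.Injective (γ * · : Γ → Γ) := mul_right_injective γ
  unfold avg
  by_cases h : S.Finite
  · have h' : ((γ * ·) '' S).Finite := h.image _
    rw [dif_pos h, dif_pos h', Finsupp.mapDomain_finset_sum, Set.ncard_image_of_injective _ hinj,
      Set.Finite.toFinset_image _ h h', Finset.sum_image fun x _ y _ h => hinj h]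
    refine Finset.sum_congr rfl fun x _ => ?_
    rw [Finsupp.mapDomain_single]
  · have h' : ¬ ((γ * ·) '' S).Finite := by
      rw [Set.finite_image_iff hinj.injOn]
      exact h
    rw [dif_neg h, dif_neg h', Finsupp.mapDomain_zero]

lemma avg_apply (S : Set Γ) (x : Γ) [Decidable (x ∈ S)] (h : S.Finite) :
    avg S x = if x ∈ S then ((S.ncard : ℚ)⁻¹) else 0 := by
  classical
  unfold avg
  rw [dif_pos h, Finsupp.finset_sum_apply]
  simp only [Finsupp.single_apply, Finset.sum_ite_eq', Set.Finite.mem_toFinset]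

lemma aug_avg (S : Set Γ) (h : S.Finite) (hS : S.Nonempty) : aug (avg S) = 1 := by
  classical
  have h1 : ∀ (T : Finset Γ) (c : ℚ), aug (∑ x ∈ T, Finsupp.single x c) = T.card * c := by
    intro T c
    unfold aug
    rw [← Finsupp.sum_finset_sum_index (fun _ => rfl) (fun _ _ _ => rfl)]
    simp [Finsupp.sum_single_index]
  unfold avg
  rw [dif_pos h, h1, ← Set.ncard_eq_toFinset_card S h]
  have h2 : S.ncard ≠ 0 := by
    rw [Ne, Set.ncard_eq_zero h]
    exact hS.ne_empty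
  exact mul_inv_cancel₀ (by exact_mod_cast h2)

end SEC

open SEC in
theorem t_SEC : S_SEC := by
  classical
  intro Γ _ b hb
  refine ⟨fun Y y => if Y ≠ [] ∧ IsOfFinOrder y then avg (pos (sq Y y)) else 0, ⟨?_, ?_, ?_⟩, ?_, ?_⟩
  · intro γ Y y hy
    have hy' : IsOfFinOrder (γ * y * γ⁻¹) := by
      have := (isConj_iff.mpr ⟨γ, rfl⟩ : IsConj y (γ * y * γ⁻¹))
      exact this.isOfFinOrder hy
    by_cases hY : Y = []
    · subst hY
      simp
    · have hY' : Y.map (γ * ·) ≠ [] := by simpa using hY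
      simp only [if_pos (And.intro hY hy), if_pos (And.intro hY' hy')]
      rw [← avg_image]
      congr 1
      exact pos_translate _ _ γ 0 fun n => by rw [add_zero]; exact sq_conj hY γ y n
  · intro Y y hy hY
    simp only [if_pos (And.intro hY hy)]
    exact aug_avg _ (card_le hb hY hy).1 (pos_nonempty _)
  · intro Y y hy x hx
    by_cases hY : Y = []
    · subst hY
      simp at hx
    · simp only [if_pos (And.intro hY hy)] at hx
      rw [Finsupp.mem_support_iff, avg_apply _ _ (card_le hb hY hy).1] at hx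
      have hx' : x ∈ pos (sq Y y) := by
        by_contra h
        exact hx (if_neg h)
      obtain ⟨n, rfl⟩ := pos_mem hx'
      exact sq_mem hY y n
  · intro a Y y hy
    have h1 : Y ++ [y * a] ≠ [] := by simp
    have h2 : a :: Y ≠ [] := by simp
    simp only [if_pos (And.intro h1 hy), if_pos (And.intro h2 hy)]
    congr 1
    rw [pos_translate (sq (a :: Y) y) (sq (Y ++ [y * a]) y) 1 1 fun n => by
      rw [one_mul]; exact sq_rot a Y y n]
    simp
  · intro Y y x
    by_cases h : Y ≠ [] ∧ IsOfFinOrder y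
    · obtain ⟨h1, h2⟩ := card_le hb h.1 h.2
      simp only [if_pos h]
      rw [avg_apply _ _ h1]
      split_ifs with h3
      · have h4 : (pos (sq Y y)).ncard ≠ 0 := by
          rw [Ne, Set.ncard_eq_zero h1]
          exact (pos_nonempty _).ne_empty
        obtain ⟨c, hc⟩ : (pos (sq Y y)).ncard ∣ b.factorial :=
          Nat.dvd_factorial (Nat.pos_of_ne_zero h4) h2
        refine ⟨c, ?_⟩
        rw [hc]
        have h5 : ((pos (sq Y y)).ncard : ℚ) ≠ 0 := by exact_mod_cast h4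
        push_cast
        field_simp
      · exact ⟨0, by simp⟩
    · simp only [if_neg h]
      exact ⟨0, by simp⟩

end Pool.Agent.FJA
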