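import Pool.Agent.FJA.St2
import Pool.Agent.FJA.P_TXA
import Pool.Agent.FJA.P_PRI
import Pool.Agent.FJA.P_ONE
import Pool.Agent.FJA.P_TXD

/-!
# Module HTP: the boundary of the conjugation homotopy
-/

set_option autoImplicit false

open Matrix Pool.Agent.WhK Pool.Agent.Lib25

noncomputable section

namespace Pool.Agent.FJA

namespace HTP

variable {k : Type} [Field k] {P : Type} [Group P] {r : ℕ}

theorem dgU_mul (d : Fin r → Bool) (z z' : P) : dgU k d (z * z') = dgU k d z * dgU k d z' := by
  apply Units.ext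
  rw [Units.val_mul]
  change Matrix.diagonal _ = Matrix.diagonal _ * Matrix.diagonal _
  rw [Matrix.diagonal_mul_diagonal]
  congr 1
  funext a
  split_ifs
  · rw [MonoidAlgebra.single_mul_single, Prod.mk_mul_mk, mul_one, mul_one]
  · rw [mul_one]

theorem diag_supp (d : Fin r → Bool) (z : P) (a b : Fin r) (γ : P × Multiplicative ℤ)
    (h : ((Matrix.diagonal fun a => if d a then (MonoidAlgebra.single (z, 1) 1 :
      MonoidAlgebra k (P × Multiplicative ℤ)) else 1) a b).coeff γ ≠ 0) : γ.2 = 1 := by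
  by_cases hab : a = b
  · subst hab
    rw [Matrix.diagonal_apply_eq] at h
    split_ifs at h
    · rw [MonoidAlgebra.coeff_single] at h
      by_contra hc
      apply h
      rw [Finsupp.single_eq_of_ne]
      rintro rfl
      exact hc rfl
    · rw [MonoidAlgebra.one_def, MonoidAlgebra.coeff_single] at h
      by_contra hc
      apply h
      rw [Finsupp.single_eq_of_ne]
      rintro rfl
      exact hc rfl
  · rw [Matrix.diagonal_apply_ne _ hab] at h
    exact absurd rfl h

theorem TX_dgU [CharZero k] (d : Fin r → Bool) {M : ℕ} (z : Fin M → P)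
    (η : Rec (P × Multiplicative ℤ) (Fin M) → ℚ) (N : ℕ) (hη : NullFun (sg2 P) η) :
    TX η N (fun i => dgU k d (z i)) = 0 := by
  refine t_ONE t_TXsup k (P × Multiplicative ℤ) (sg2 P) (Fin r) M N η _ hη (Or.inl ⟨?_, ?_⟩)
  · intro i a b γ h
    have h1 := diag_supp d (z i) a b γ h
    change 0 ≤ Multiplicative.toAdd γ.2
    rw [h1, toAdd_one]
  · intro i a b γ h
    have h1 := diag_supp d (z i)⁻¹ a b γ h
    change 0 ≤ Multiplicative.toAdd γ.2
    rw [h1, toAdd_one]

section

variable {Γ : Type} [Group Γ] {ι : Type} [Fintype ι] [DecidableEq ι] [CharZero k]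

theorem TF_single {M : ℕ} (φ : Rec Γ (Fin M) → ℚ) (N : ℕ)
    (X : Fin M → (Matrix ι ι (MonoidAlgebra k Γ))ˣ) (q : ℚ) :
    TF φ N (Finsupp.single X q) = q • TX φ N X :=
  Finsupp.linearCombination_single ..

/-- left translations -/
theorem TF_hmap {M : ℕ} (φ : Rec Γ (Fin M) → ℚ) (N : ℕ) (hφ : CjInv φ)
    (g : (Matrix ι ι (MonoidAlgebra k Γ))ˣ)
    (c : (Fin M → (Matrix ι ι (MonoidAlgebra k Γ))ˣ) →₀ ℚ) :
    TF φ N (hmap ℚ (fun y => g * y) M c) = TF φ N c := by
  induction c using Finsupp.induction_linear with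
  | zero => rw [map_zero]
  | add x y hx hy => rw [map_add, map_add, map_add, hx, hy]
  | single X q =>
    have h1 : hmap ℚ (fun y => g * y) M (Finsupp.single X q) =
        Finsupp.single (fun i => g * X i) q := by
      change Finsupp.mapDomain _ _ = _
      rw [Finsupp.mapDomain_single]
    rw [h1, TF_single, TF_single, t_TXinv k Γ ι M N φ hφ g X]

end

end HTP

open HTP in
theorem t_HTP : S_HTP := by
  intro k _ _ C P Q _ _ _ ψ j r d X m w hw η N hη
  set f : Q → (Matrix (Fin r) (Fin r) (MonoidAlgebra k (P × Multiplicative ℤ)))ˣ :=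
    fun z => (XG ψ X)⁻¹ * dgU k d (j z) * XG ψ X with hf
  set f' : Q → (Matrix (Fin r) (Fin r) (MonoidAlgebra k (P × Multiplicative ℤ)))ˣ :=
    fun z => (XG ψ X)⁻¹ * dgU k d (j z) with hf'
  have hff : ∀ g z, f (g * z) = f g * f z := by
    intro g z
    rw [hf]
    simp only [map_mul, dgU_mul]
    group
  have hff' : ∀ g z, f' (g * z) = f g * f' z := by
    intro g z
    rw [hf, hf']
    simp only [map_mul, dgU_mul]
    group
  have h1 := t_PRI ℚ Q _ f f' (m + 1) w
  rw [h1, map_sub, map_sub]
  -- the end `f'`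
  have h2 : ∀ c : (Fin (m + 2) → Q) →₀ ℚ, TF η N (hmap ℚ f' (m + 1 + 1) c) = 0 := by
    intro c
    induction c using Finsupp.induction_linear with
    | zero => rw [map_zero, map_zero]
    | add x y hx hy => rw [map_add, map_add, hx, hy, add_zero]
    | single Z q =>
      have h3 : hmap ℚ f' (m + 1 + 1) (Finsupp.single Z q) =
          Finsupp.single (fun i => (XG ψ X)⁻¹ * dgU k d (j (Z i))) q := by
        change Finsupp.mapDomain _ _ = _
        rw [Finsupp.mapDomain_single]
      rw [h3, TF_single, t_TXinv k _ _ _ N η hη.cj (XG ψ X)⁻¹ fun i => dgU k d (j (Z i)),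
        TX_dgU d (fun i => j (Z i)) η N hη, smul_zero]
  -- the prism of the boundary
  have h3 : ∀ x ∈ hdeg ℚ Q m, TF η N (prism ℚ f f' (m + 1) x) = 0 := by
    intro x hx
    refine Submodule.span_induction ?_ ?_ ?_ ?_ hx
    · rintro _ ⟨g, Z, rfl⟩
      have h4 : Finsupp.single (fun i => g * Z i) (1 : ℚ) =
          hmap ℚ (fun y => g * y) (m + 1) (Finsupp.single Z 1) := by
        change _ = Finsupp.mapDomain _ _
        rw [Finsupp.mapDomain_single]
      rw [h4, map_sub, map_sub, (t_BD ℚ Q (m + 1)).2.2 _ f f' (fun y => g * y)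
        (fun y => f g * y) _ (fun v => hff g v) (fun v => hff' g v),
        TF_hmap η N hη.cj, sub_self]
    · rw [map_zero, map_zero]
    · intro x y _ _ hx hy
      rw [map_add, map_add, hx, hy, add_zero]
    · intro q x _ hx
      rw [map_smul, map_smul, hx, smul_zero]
  rw [h2 w, h3 _ hw, zero_sub, sub_zero]

end Pool.Agent.FJA
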