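import Pool.Agent.FJA.St2

/-!
# Module TXC: right multiplication of a vertex
-/

set_option autoImplicit false

open Matrix

namespace Pool.Agent.FJA

namespace TXC

/-- one factor of a product -/
theorem ofFn_split {R : Type*} [Monoid R] {M : ℕ} (F : Fin M → R) (j : Fin M) :
    ∃ A B : R, ∀ z, (List.ofFn (Function.update F j z)).prod = A * z * B := by
  induction M with
  | zero => exact j.elim0
  | succ M ih =>
    induction j using Fin.cases with
    | zero =>
      refine ⟨1, (List.ofFn fun i : Fin M => F i.succ).prod, fun z => ?_⟩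
      rw [List.ofFn_succ, List.prod_cons, Function.update_self, one_mul]
      congr 3
    | succ j =>
      obtain ⟨A, B, h⟩ := ih (fun i => F i.succ) j
      refine ⟨F 0 * A, B, fun z => ?_⟩
      rw [List.ofFn_succ, List.prod_cons, Function.update_of_ne (Fin.succ_ne_zero j).symm]
      have h1 : (fun i : Fin M => Function.update F j.succ z i.succ) =
          Function.update (fun i => F i.succ) j z := by
        funext i
        by_cases hi : i = j
        · subst hi
          rw [Function.update_self, Function.update_self]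
        · rw [Function.update_of_ne hi, Function.update_of_ne (fun h => hi (Fin.succ_injective _ h))]
      rw [h1, h]
      simp only [mul_assoc]

variable {k : Type} [Field k] {Γ : Type} [Group Γ] {ι : Type} [Fintype ι] [DecidableEq ι]

/-- an element as a sum of monomials -/
theorem sum_coeff {M : Type} (y : MonoidAlgebra k M) :
    y = ∑ s ∈ y.coeff.support, MonoidAlgebra.single s (y.coeff s) := by
  apply MonoidAlgebra.coeff_injective
  rw [MonoidAlgebra.coeff_sum]
  simp only [MonoidAlgebra.coeff_single]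
  exact (Finsupp.sum_single y.coeff).symm

theorem scal {V : Type} [DecidableEq V] (φ : Rec Γ V → ℚ) (j : V) (K : Subgroup Γ)
    (hφ : ∀ (μ ν : Rec Γ V) (γ : Γ), γ ∈ K →
      φ (μ * Rec.inc γ * Rec.om j * ν) = φ (μ * Rec.om j * Rec.inc γ * ν))
    (y : MonoidAlgebra k Γ) (hy : ∀ γ, y.coeff γ ≠ 0 → γ ∈ K) (p q : MonoidAlgebra k (Rec Γ V)) :
    lin k φ (p * (MonoidAlgebra.mapDomainRingHom k (Rec.inc (Γ := Γ) (V := V)) y *
      MonoidAlgebra.single (Rec.om j) 1) * q) =
    lin k φ (p * (MonoidAlgebra.single (Rec.om j) 1 *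
      MonoidAlgebra.mapDomainRingHom k (Rec.inc (Γ := Γ) (V := V)) y) * q) := by
  induction p using MonoidAlgebra.induction_linear with
  | zero => simp only [zero_mul, map_zero]
  | add a b ha hb => simp only [add_mul, map_add, ha, hb]
  | single μ c =>
    induction q using MonoidAlgebra.induction_linear with
    | zero => simp only [mul_zero, map_zero]
    | add a b ha hb => simp only [mul_add, map_add, ha, hb]
    | single ν d =>
      rw [sum_coeff y]
      simp only [map_sum, Finset.sum_mul, Finset.mul_sum]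
      refine Finset.sum_congr rfl fun γ hγ => ?_
      have h1 : MonoidAlgebra.mapDomainRingHom k (Rec.inc (Γ := Γ) (V := V))
          (MonoidAlgebra.single γ (y.coeff γ)) =
          MonoidAlgebra.single (Rec.inc γ) (y.coeff γ) := MonoidAlgebra.mapDomain_single
      rw [h1]
      simp only [MonoidAlgebra.single_mul_single, lin_single, ← mul_assoc]
      rw [hφ μ ν γ (hy γ (Finsupp.mem_support_iff.1 hγ))]
      ring

theorem mat {V : Type} [DecidableEq V] (φ : Rec Γ V → ℚ) (j : V) (K : Subgroup Γ)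
    (hφ : ∀ (μ ν : Rec Γ V) (γ : Γ), γ ∈ K →
      φ (μ * Rec.inc γ * Rec.om j * ν) = φ (μ * Rec.om j * Rec.inc γ * ν))
    (Y : Matrix ι ι (MonoidAlgebra k Γ)) (hY : ∀ a b γ, (Y a b).coeff γ ≠ 0 → γ ∈ K)
    (A B : Matrix ι ι (MonoidAlgebra k (Rec Γ V))) :
    lin k φ (Matrix.trace (A * (jm k V Y * wm k ι j) * B)) =
      lin k φ (Matrix.trace (A * (wm k ι j * jm k V Y) * B)) := by
  have key : ∀ P : Matrix ι ι (MonoidAlgebra k (Rec Γ V)),
      lin k φ (Matrix.trace (A * P * B)) =
        ∑ a, ∑ c, ∑ b, lin k φ (A a b * P b c * B c a) := by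
    intro P
    simp only [Matrix.trace, Matrix.diag_apply, Matrix.mul_apply, map_sum, Finset.sum_mul]
  rw [key, key]
  refine Finset.sum_congr rfl fun a _ => Finset.sum_congr rfl fun c _ =>
    Finset.sum_congr rfl fun b _ => ?_
  have h1 : (jm k V Y * wm k ι j : Matrix ι ι (MonoidAlgebra k (Rec Γ V))) b c =
      MonoidAlgebra.mapDomainRingHom k (Rec.inc (Γ := Γ) (V := V)) (Y b c) *
        MonoidAlgebra.single (Rec.om j) 1 := by
    unfold wm
    rw [Matrix.mul_diagonal]
    rfl
  have h2 : (wm k ι j * jm k V Y : Matrix ι ι (MonoidAlgebra k (Rec Γ V))) b c =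
      MonoidAlgebra.single (Rec.om j) 1 *
      MonoidAlgebra.mapDomainRingHom k (Rec.inc (Γ := Γ) (V := V)) (Y b c) := by
    unfold wm
    rw [Matrix.diagonal_mul]
    rfl
  rw [h1, h2]
  exact scal φ j K hφ (Y b c) (hY b c) _ _

end TXC

open TXC in
theorem t_TXC : S_TXC := by
  intro k _ _ Γ _ ι _ _ M φ j K hφ X Y hY
  let G : Fin M → Matrix ι ι (MonoidAlgebra k (Rec Γ (Fin M))) := fun i =>
    jm k (Fin M) (X i : Matrix ι ι (MonoidAlgebra k Γ)) * wm k ι i *
    jm k (Fin M) ((X i)⁻¹ : (Matrix ι ι (MonoidAlgebra k Γ))ˣ)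
  obtain ⟨A, B, hAB⟩ := ofFn_split G j
  have h1 : UX X = A * G j * B := by
    rw [← hAB, Function.update_eq_self]
    rfl
  have h2 : UX (Function.update X j (X j * Y)) = A *
      (jm k (Fin M) ((X j * Y : (Matrix ι ι (MonoidAlgebra k Γ))ˣ) :
        Matrix ι ι (MonoidAlgebra k Γ)) * wm k ι j *
      jm k (Fin M) ((X j * Y)⁻¹ : (Matrix ι ι (MonoidAlgebra k Γ))ˣ)) * B := by
    rw [← hAB]
    unfold UX
    congr 2
    funext i
    by_cases hi : i = j
    · subst hi
      rw [Function.update_self, Function.update_self]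
    · rw [Function.update_of_ne hi, Function.update_of_ne hi]
  have hYY : jm k (Fin M) (Y : Matrix ι ι (MonoidAlgebra k Γ)) *
      jm k (Fin M) ((Y⁻¹ : (Matrix ι ι (MonoidAlgebra k Γ))ˣ) :
        Matrix ι ι (MonoidAlgebra k Γ)) = 1 := by
    rw [← map_mul, Units.mul_inv, map_one]
  have h3 : UX X = (A * jm k (Fin M) (X j : Matrix ι ι (MonoidAlgebra k Γ))) *
      (wm k ι j * jm k (Fin M) (Y : Matrix ι ι (MonoidAlgebra k Γ))) *
      (jm k (Fin M) ((Y⁻¹ : (Matrix ι ι (MonoidAlgebra k Γ))ˣ) : Matrix ι ι (MonoidAlgebra k Γ)) *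
        (jm k (Fin M) ((X j)⁻¹ : (Matrix ι ι (MonoidAlgebra k Γ))ˣ) * B)) := by
    rw [h1]
    simp only [G, mul_assoc]
    rw [← mul_assoc (jm k (Fin M) (Y : Matrix ι ι (MonoidAlgebra k Γ))), hYY, one_mul]
  have h4 : UX (Function.update X j (X j * Y)) =
      (A * jm k (Fin M) (X j : Matrix ι ι (MonoidAlgebra k Γ))) *
      (jm k (Fin M) (Y : Matrix ι ι (MonoidAlgebra k Γ)) * wm k ι j) *
      (jm k (Fin M) ((Y⁻¹ : (Matrix ι ι (MonoidAlgebra k Γ))ˣ) : Matrix ι ι (MonoidAlgebra k Γ)) *
        (jm k (Fin M) ((X j)⁻¹ : (Matrix ι ι (MonoidAlgebra k Γ))ˣ) * B)) := by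
    rw [h2, _root_.mul_inv_rev, Units.val_mul, Units.val_mul, map_mul, map_mul]
    simp only [mul_assoc]
  unfold TX
  rw [pow_one, pow_one, h3, h4]
  exact mat φ j K hφ _ hY _ _

end Pool.Agent.FJA
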