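import Pool.Agent.FJA.St5
import Pool.Agent.FJA.P_EVS
import Pool.Agent.FJA.P_MEX
import Pool.Agent.FJA.P_SCH

/-!
# Module PSC: the coboundary of `psiM`
-/

set_option autoImplicit false

open Matrix

noncomputable section

namespace Pool.Agent.FJA

namespace PSC

/-- the removal of a label below the last one commutes with the removal of the last one -/
theorem sA_castSucc {n : ℕ} (i : Fin (n + 1)) (j : Fin n) :
    (i.castSucc).succAbove j.castSucc = (i.succAbove j).castSucc := by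
  apply Fin.ext
  simp only [Fin.succAbove, Fin.lt_def, Fin.val_castSucc]
  split_ifs <;> simp

theorem sA_last {n : ℕ} (j : Fin n) : (Fin.last n).succAbove j = j.castSucc := by
  exact Fin.succAbove_last_apply j

theorem sA_castSucc_last {n : ℕ} (i : Fin (n + 1)) :
    (i.castSucc).succAbove (Fin.last n) = Fin.last (n + 1) := by
  apply Fin.ext
  simp only [Fin.succAbove, Fin.lt_def, Fin.val_castSucc, Fin.val_last]
  have := i.2
  split_ifs with h
  · omega
  · simp

section psi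

variable {Γ : Type} [Group Γ] {M : ℕ}

theorem psi_pos (p k B : ℕ) (F : (Fin (M + 1) → Γ) → Γ → ℚ)
    (s : List Γ → Γ → (Γ →₀ ℚ)) (j : List Γ → Γ → ZMod (p ^ (k - B))) (μ : Rec Γ (Fin (M + 2)))
    (h : (∀ i, (μ.lst i).length = p ^ k) ∧ IsOfFinOrder μ.val ∧ p ∣ orderOf μ.val) :
    psiM p k B F s j μ = evs F s (Rec.res Fin.castSucc μ) *
      (((j (μ.lst (Fin.last (M + 1))) μ.val -
        j (μ.lst (Fin.last M).castSucc) μ.val).val : ℕ) : ℚ) := by
  unfold psiM
  exact if_pos h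

theorem psi_neg (p k B : ℕ) (F : (Fin (M + 1) → Γ) → Γ → ℚ)
    (s : List Γ → Γ → (Γ →₀ ℚ)) (j : List Γ → Γ → ZMod (p ^ (k - B))) (μ : Rec Γ (Fin (M + 2)))
    (h : ¬ ((∀ i, (μ.lst i).length = p ^ k) ∧ IsOfFinOrder μ.val ∧ p ∣ orderOf μ.val)) :
    psiM p k B F s j μ = 0 := by
  unfold psiM
  exact if_neg h

/-- the carry -/
theorem carry {n : ℕ} [NeZero n] (x x' : ZMod n) :
    ∃ q : ℤ, ((x'.val : ℕ) : ℚ) - (((x' + x).val : ℕ) : ℚ) + ((x.val : ℕ) : ℚ) = (n : ℚ) * q := by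
  refine ⟨((x'.val + x.val) / n : ℕ), ?_⟩
  rw [ZMod.val_add]
  have h := Nat.div_add_mod (x'.val + x.val) n
  have h' : ((n : ℚ) * (((x'.val + x.val) / n : ℕ) : ℚ) + (((x'.val + x.val) % n : ℕ) : ℚ)) =
      (x'.val : ℚ) + (x.val : ℚ) := by
    exact_mod_cast h
  rw [Int.cast_natCast]
  linarith

end psi

end PSC

open PSC in
theorem t_PSC : S_PSC := by
  classical
  intro Γ _ σ p hp B M c D F s hF hs hD k j _ μ hμ
  obtain ⟨n, hn⟩ := hμ
  by_cases hP : (∀ i, (μ.lst i).length = p ^ k) ∧ IsOfFinOrder μ.val ∧ p ∣ orderOf μ.val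
  swap
  · refine ⟨0, ?_⟩
    have h0 : cobR (psiM p k B F s j) μ = 0 := by
      unfold cobR
      refine Finset.sum_eq_zero fun i _ => ?_
      rw [psi_neg, mul_zero]
      rintro ⟨h1, h2, h3⟩
      apply hP
      refine ⟨fun l => ?_, h2, h3⟩
      have h4 := h1 0
      rw [Rec.res_lst, hn] at h4
      rw [hn, h4]
    rw [h0]
    simp
  · obtain ⟨hlen, hfin, hdvd⟩ := hP
    have hpos : 0 < p ^ k := pow_pos hp.out.pos k
    have hne : ∀ i, μ.lst i ≠ [] := by
      intro i h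
      have := hlen i
      rw [h, List.length_nil] at this
      omega
    set ρ : Rec Γ (Fin (M + 2)) := Rec.res Fin.castSucc μ with hρ
    set α : Fin (M + 2) → ℚ := fun i => evs F s (Rec.res i.succAbove ρ) with hα
    -- the cocycle identity
    have hcoc : ∑ i : Fin (M + 2), (-1 : ℚ) ^ (i : ℕ) * α i = 0 := by
      have h1 := SCH.closed (t_MEX) hF μ.val (fun i => s (ρ.lst i) μ.val)
        (fun i => hs.sec.aug _ _ hfin (hne _))
      rw [← h1]
      refine Finset.sum_congr rfl fun i _ => ?_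
      congr 1
      rw [hα]
      exact EVS.evs_pos F s _ (fun l => hne _)
    have hterm : ∀ i : Fin (M + 3), psiM p k B F s j (Rec.res i.succAbove μ) =
        evs F s (Rec.res Fin.castSucc (Rec.res i.succAbove μ)) *
        (((j (μ.lst (i.succAbove (Fin.last (M + 1)))) μ.val -
          j (μ.lst (i.succAbove (Fin.last M).castSucc)) μ.val).val : ℕ) : ℚ) := by
      intro i
      exact psi_pos p k B F s j _ ⟨fun l => hlen _, hfin, hdvd⟩
    have hres : ∀ i : Fin (M + 2), Rec.res Fin.castSucc (Rec.res (i.castSucc).succAbove μ) =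
        Rec.res i.succAbove ρ := by
      intro i
      apply Rec.ext
      · funext l
        simp only [Rec.res_lst, hρ]
        rw [sA_castSucc]
      · rfl
    have hres' : Rec.res Fin.castSucc (Rec.res (Fin.last (M + 2)).succAbove μ) =
        Rec.res (Fin.last (M + 1)).succAbove ρ := by
      apply Rec.ext
      · funext l
        simp only [Rec.res_lst, hρ]
        rw [sA_last, sA_last]
      · rfl
    set Y0 := j (μ.lst (Fin.last M).castSucc.castSucc) μ.val with hY0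
    set Y1 := j (μ.lst (Fin.last (M + 1)).castSucc) μ.val with hY1
    set Y2 := j (μ.lst (Fin.last (M + 2))) μ.val with hY2
    have e1 : ∀ i : Fin (M + 1), psiM p k B F s j
        (Rec.res (i.castSucc.castSucc).succAbove μ) =
        α i.castSucc * (((Y2 - Y1).val : ℕ) : ℚ) := by
      intro i
      rw [hterm, hres, sA_castSucc_last, sA_castSucc, sA_castSucc_last]
    have e2 : psiM p k B F s j (Rec.res ((Fin.last (M + 1)).castSucc).succAbove μ) =
        α (Fin.last (M + 1)) * (((Y2 - Y0).val : ℕ) : ℚ) := by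
      rw [hterm, hres, sA_castSucc_last, sA_castSucc, sA_last]
    have e3 : psiM p k B F s j (Rec.res (Fin.last (M + 2)).succAbove μ) =
        α (Fin.last (M + 1)) * (((Y1 - Y0).val : ℕ) : ℚ) := by
      rw [hterm, hres', sA_last, sA_last]
    have hcob : cobR (psiM p k B F s j) μ =
        (∑ i : Fin (M + 1), (-1 : ℚ) ^ (i : ℕ) * α i.castSucc) * (((Y2 - Y1).val : ℕ) : ℚ) +
        (-1 : ℚ) ^ (M + 1) * (α (Fin.last (M + 1)) * (((Y2 - Y0).val : ℕ) : ℚ)) +
        (-1 : ℚ) ^ (M + 2) * (α (Fin.last (M + 1)) * (((Y1 - Y0).val : ℕ) : ℚ)) := by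
      unfold cobR
      rw [Fin.sum_univ_castSucc, Fin.sum_univ_castSucc, e2, e3, Finset.sum_mul]
      simp only [e1, Fin.val_castSucc, Fin.val_last]
      congr 2
      refine Finset.sum_congr rfl fun i _ => ?_
      ring
    rw [Fin.sum_univ_castSucc] at hcoc
    simp only [Fin.val_castSucc, Fin.val_last] at hcoc
    have : NeZero (p ^ (k - B)) := ⟨(pow_pos hp.out.pos _).ne'⟩
    obtain ⟨q, hq⟩ := carry (Y1 - Y0) (Y2 - Y1)
    have hsum : Y2 - Y1 + (Y1 - Y0) = Y2 - Y0 := by ring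
    rw [hsum] at hq
    obtain ⟨z, hz⟩ := hD (Rec.res (Fin.last (M + 1)).succAbove ρ)
    have hz' : (D : ℚ) * α (Fin.last (M + 1)) = z := hz
    refine ⟨(-1) ^ M * z * q, ?_⟩
    rw [hcob]
    have h5 : ∑ i : Fin (M + 1), (-1 : ℚ) ^ (i : ℕ) * α i.castSucc =
        (-1 : ℚ) ^ M * α (Fin.last (M + 1)) := by
      have h6 : (-1 : ℚ) ^ (M + 1) = - (-1 : ℚ) ^ M := by ring
      rw [h6] at hcoc
      linarith
    rw [h5]
    have h7 : (D : ℚ) * ((-1 : ℚ) ^ M * α (Fin.last (M + 1)) * (((Y2 - Y1).val : ℕ) : ℚ) +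
        (-1 : ℚ) ^ (M + 1) * (α (Fin.last (M + 1)) * (((Y2 - Y0).val : ℕ) : ℚ)) +
        (-1 : ℚ) ^ (M + 2) * (α (Fin.last (M + 1)) * (((Y1 - Y0).val : ℕ) : ℚ))) =
        (-1 : ℚ) ^ M * ((D : ℚ) * α (Fin.last (M + 1))) * ((((Y2 - Y1).val : ℕ) : ℚ) -
          (((Y2 - Y0).val : ℕ) : ℚ) + (((Y1 - Y0).val : ℕ) : ℚ)) := by
      ring
    rw [h7, hq, hz']
    push_cast
    ring

end Pool.Agent.FJA
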