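import Pool.Agent.FJA.St6
import Pool.Agent.FJA.P_MEX
import Pool.Agent.FJA.P_PRI
import Pool.Agent.FJA.P_AVC

/-!
# BAS: basic families
-/

set_option autoImplicit false

namespace Pool.Agent.FJA

namespace BAS

variable {G : Type} [Group G]

/-- the average of the translates of `a` by the powers of `y` -/
noncomputable def cc (n : ℕ) (y a : G) : G →₀ ℚ :=
  ∑ t ∈ Finset.range n, Finsupp.single (y ^ t * a) ((n : ℚ)⁻¹)

theorem aug_cc {n : ℕ} (hn : 0 < n) (y a : G) : aug (cc n y a) = 1 := by
  have h0 : (n : ℚ) ≠ 0 := by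
    have : (0 : ℚ) < n := by exact_mod_cast hn
    exact this.ne'
  unfold aug cc
  rw [← Finsupp.sum_finsetSum_index (fun _ => rfl) (fun _ _ _ => rfl)]
  rw [Finset.sum_congr rfl fun t _ => Finsupp.sum_single_index rfl]
  rw [Finset.sum_const, Finset.card_range, nsmul_eq_mul, mul_inv_cancel₀ h0]

theorem cc_conj (n : ℕ) (γ y a : G) :
    cc n (γ * y * γ⁻¹) (γ * a) = (cc n y a).mapDomain (γ * ·) := by
  unfold cc
  rw [Finsupp.mapDomain_finsetSum]
  refine Finset.sum_congr rfl fun t _ => ?_
  rw [Finsupp.mapDomain_single]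
  congr 1
  rw [conj_pow, mul_assoc, mul_assoc, inv_mul_cancel_left]

theorem cc_comm (n : ℕ) (γ y a : G) (h : γ * y = y * γ) :
    cc n y (γ * a) = (cc n y a).mapDomain (γ * ·) := by
  have h1 := cc_conj n γ y a
  rwa [h, mul_inv_cancel_right] at h1

theorem cc_one (n : ℕ) (y a : G) (h : y ^ n = 1) : cc n y (y * a) = cc n y a := by
  have h1 := Finset.sum_range_succ' (fun t => Finsupp.single (y ^ t * a) ((n : ℚ)⁻¹)) n
  have h2 := Finset.sum_range_succ (fun t => Finsupp.single (y ^ t * a) ((n : ℚ)⁻¹)) n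
  rw [h2, h, pow_zero] at h1
  have h3 := add_right_cancel h1
  unfold cc
  rw [h3]
  refine Finset.sum_congr rfl fun t _ => ?_
  rw [pow_succ, mul_assoc]

theorem cc_zpow (n : ℕ) (y : G) (h : y ^ n = 1) (t : ℤ) :
    ∀ a : G, cc n y (y ^ t * a) = cc n y a := by
  induction t using Int.induction_on with
  | zero => intro a; rw [zpow_zero, one_mul]
  | succ i ih =>
    intro a
    rw [zpow_add, zpow_one, mul_assoc, ih, cc_one n y a h]
  | pred i ih =>
    intro a
    rw [sub_eq_add_neg, zpow_add, zpow_neg_one, mul_assoc, ih]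
    have h1 := cc_one n y (y⁻¹ * a) h
    rw [mul_inv_cancel_left] at h1
    exact h1.symm

theorem cc_int {n : ℕ} (hn : 0 < n) (y a x : G) : ∃ z : ℤ, (n : ℚ) * cc n y a x = z := by
  classical
  have h0 : (n : ℚ) ≠ 0 := by
    have : (0 : ℚ) < n := by exact_mod_cast hn
    exact this.ne'
  refine ⟨∑ t ∈ Finset.range n, if y ^ t * a = x then 1 else 0, ?_⟩
  unfold cc
  rw [Finsupp.finsetSum_apply, Finset.mul_sum]
  push_cast
  refine Finset.sum_congr rfl fun t _ => ?_
  rw [Finsupp.single_apply]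
  split_ifs
  · exact mul_inv_cancel₀ h0
  · exact mul_zero _

/-- the averaged family -/
noncomputable def av {m : ℕ} (n : ℕ) (F : (Fin m → G) → G → ℚ) (a : Fin m → G) (y : G) : ℚ :=
  mex (fun a => F a y) (fun i => cc n y (a i))

/-- the prism family -/
noncomputable def g0 {m : ℕ} (n : ℕ) (F : (Fin (m + 1) → G) → G → ℚ) (a : Fin m → G) (y : G) : ℚ :=
  SCH.EE F y (fun j => (Finsupp.single (a j) (1 : ℚ), cc n y (a j)))

theorem g0_inv {m : ℕ} (n : ℕ) (F : (Fin (m + 1) → G) → G → ℚ)
    (hF : ∀ (γ : G) (a : Fin (m + 1) → G) (y : G), F (fun i => γ * a i) (γ * y * γ⁻¹) = F a y)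
    (γ : G) (a : Fin m → G) (y : G) (h : γ * y = y * γ) :
    g0 n F (fun i => γ * a i) y = g0 n F a y := by
  unfold g0 SCH.EE
  refine Finset.sum_congr rfl fun j _ => ?_
  congr 1
  have h1 : (mix Prod.snd Prod.fst
      (fun j => (Finsupp.single (γ * a j) (1 : ℚ), cc n y (γ * a j))) j) =
      fun i => (mix Prod.snd Prod.fst
        (fun j => (Finsupp.single (a j) (1 : ℚ), cc n y (a j))) j i).mapDomain (γ * ·) := by
    funext i
    exact SCH.mix_map Prod.snd Prod.fst
      (fun j => (Finsupp.single (a j) (1 : ℚ), cc n y (a j)))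
      (fun j => (Finsupp.single (γ * a j) (1 : ℚ), cc n y (γ * a j)))
      (fun c => c.mapDomain (γ * ·)) (fun l => cc_comm n γ y (a l) h)
      (fun l => Finsupp.mapDomain_single.symm) j i
  rw [h1, (t_MEX G (m + 1)).2.2.2.2.1 (fun a => F a y) _ (γ * ·)
    (mul_right_injective γ)]
  congr 1
  funext x
  have h2 := hF γ x y
  rwa [h, mul_inv_cancel_right] at h2

theorem sub_eq {m : ℕ} {n : ℕ} (hn : 0 < n) (S : G → Prop) (F : (Fin (m + 1) → G) → G → ℚ)
    (hF : GCoch m S F) (a : Fin (m + 1) → G) (y : G) :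
    F a y - av n F a y =
      ∑ i : Fin (m + 1), (-1 : ℚ) ^ (i : ℕ) * g0 n F (fun j => a (i.succAbove j)) y := by
  have h1 := AVC.prism_coc F y (fun a => hF.coc a y)
    (fun j => (Finsupp.single (a j) (1 : ℚ), cc n y (a j)))
    (fun i => SCH.aug_single (a i)) (fun i => aug_cc hn y (a i))
  have h2 : mex (fun a => F a y) (fun i => Finsupp.single (a i) (1 : ℚ)) = F a y :=
    (t_MEX G (m + 1)).1 (fun a => F a y) a
  rw [← h2]
  exact h1

omit [Group G] in
theorem evc_lin {P : Type} (j : P → G) {m : ℕ} (F : (Fin m → G) → G → ℚ) (y : G)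
    (w : (Fin m → P) →₀ ℚ) :
    evc j F w y = Finsupp.linearCombination ℚ (fun z : Fin m → P => F (fun i => j (z i)) y) w :=
  rfl

theorem gcoch {m : ℕ} {n : ℕ} (hn : 0 < n) (S : G → Prop) (F : (Fin (m + 1) → G) → G → ℚ)
    (hF : GCoch m S F) : GCoch m S (av n F) := by
  refine ⟨?_, ?_, ?_, ?_⟩
  · intro γ a y
    unfold av
    have h1 : (fun i => cc n (γ * y * γ⁻¹) (γ * a i)) =
        fun i => (cc n y (a i)).mapDomain (γ * ·) := by
      funext i
      exact cc_conj n γ y (a i)
    rw [h1, (t_MEX G (m + 1)).2.2.2.2.1 (fun a => F a (γ * y * γ⁻¹)) _ (γ * ·)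
      (mul_right_injective γ)]
    congr 1
    funext x
    exact hF.inv γ x y
  · intro a y
    exact AVC.closed (fun a => F a y) (fun a => hF.coc a y) (fun i => cc n y (a i))
      (fun i => aug_cc hn y (a i))
  · intro a y h
    by_contra hS
    apply h
    refine SCH.mex_zero t_MEX _ _ fun x => ?_
    by_contra h2
    exact hS (hF.supp _ _ h2)
  · obtain ⟨D, hD, h1⟩ := hF.den
    refine ⟨D * n ^ (m + 1), Nat.mul_pos hD (pow_pos hn _), ?_⟩
    intro a y
    exact (t_MEX G (m + 1)).2.2.2.1 (fun a => F a y) (fun i => cc n y (a i)) D n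
      (fun x => h1 x y) (fun i x => cc_int hn y (a i) x)

theorem basic {m : ℕ} {n : ℕ} (S : G → Prop) (F : (Fin (m + 1) → G) → G → ℚ)
    (hS : ∀ y, S y → orderOf y = n) (hF : GCoch m S F) : Basic (av n F) := by
  intro t a y
  by_cases h : S y
  · have h1 : y ^ n = 1 := by
      rw [← hS y h]
      exact pow_orderOf_eq_one y
    unfold av
    congr 1
    funext i
    exact cc_zpow n y h1 (t i) (a i)
  · have h0 : ∀ x, F x y = 0 := by
      intro x
      by_contra h2
      exact h (hF.supp _ _ h2)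
    unfold av
    rw [SCH.mex_zero t_MEX _ _ h0, SCH.mex_zero t_MEX _ _ h0]

/-- the value of an invariant function on the degenerate chains -/
theorem hdeg_zero {h y : G} (hy : y ∈ Subgroup.zpowers h) {m : ℕ} (n : ℕ)
    (F : (Fin (m + 2) → G) → G → ℚ)
    (hF : ∀ (γ : G) (a : Fin (m + 2) → G) (y : G), F (fun i => γ * a i) (γ * y * γ⁻¹) = F a y)
    (x : (Fin (m + 1) → Cen h) →₀ ℚ) (hx : x ∈ hdeg ℚ (Cen h) m) :
    Finsupp.linearCombination ℚ (fun X : Fin (m + 1) → Cen h => g0 n F (fun i => (X i : G)) y) x =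
      0 := by
  have h1 : hdeg ℚ (Cen h) m ≤ LinearMap.ker (Finsupp.linearCombination ℚ
      (fun X : Fin (m + 1) → Cen h => g0 n F (fun i => (X i : G)) y)) := by
    unfold hdeg
    rw [Submodule.span_le]
    rintro _ ⟨g, X, rfl⟩
    rw [SetLike.mem_coe, LinearMap.mem_ker, map_sub, Finsupp.linearCombination_single,
      Finsupp.linearCombination_single, one_smul, one_smul, sub_eq_zero]
    have h2 : (g : G) * y = y * g := by
      obtain ⟨k, hk⟩ := Subgroup.mem_zpowers_iff.1 hy
      have h3 : Commute (g : G) h :=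
        Subgroup.mem_centralizer_singleton_iff.1 g.2
      rw [← hk]
      exact (h3.zpow_right k).eq
    exact g0_inv n F hF (g : G) (fun i => (X i : G)) y h2
  exact h1 hx

end BAS

open BAS in
theorem t_BAS : S_BAS := by
  intro G _ m N1 hN S F hS hF
  refine ⟨av N1 F, gcoch hN S F hF, basic S F hS hF, ?_⟩
  intro h y hy w hw
  rw [evc_lin, evc_lin]
  cases m with
  | zero =>
    congr 2
    funext z
    have h1 := sub_eq hN S F hF (fun i => (z i : G)) y
    have h2 : ∀ a : Fin 0 → G, g0 N1 F a y = 0 := fun a => by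
      unfold g0 SCH.EE
      exact Finset.sum_empty
    rw [Finset.sum_eq_zero (fun i _ => by rw [h2, mul_zero])] at h1
    linarith
  | succ m =>
    have h0 : bd ℚ (Cen h) (m + 1) w ∈ hdeg ℚ (Cen h) m := hw
    have h1 := hdeg_zero hy N1 F hF.inv _ h0
    have h2 : ∀ w : (Fin (m + 1 + 1) → Cen h) →₀ ℚ,
        Finsupp.linearCombination ℚ (fun z : Fin (m + 1 + 1) → Cen h =>
          F (fun i => (z i : G)) y) w -
        Finsupp.linearCombination ℚ (fun z : Fin (m + 1 + 1) → Cen h =>
          av N1 F (fun i => (z i : G)) y) w =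
        Finsupp.linearCombination ℚ (fun X : Fin (m + 1) → Cen h =>
          g0 N1 F (fun i => (X i : G)) y) (bd ℚ (Cen h) (m + 1) w) := by
      intro w
      induction w using Finsupp.induction_linear with
      | zero => simp only [map_zero, sub_zero]
      | add f g hf hg =>
        rw [map_add, map_add, map_add, map_add, ← hf, ← hg]
        ring
      | single z c =>
        unfold bd
        rw [Finsupp.linearCombination_single, Finsupp.linearCombination_single,
          Finsupp.linearCombination_single, map_smul, map_sum, ← smul_sub,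
          sub_eq hN S F hF (fun i => (z i : G)) y]
        congr 1
        refine Finset.sum_congr rfl fun i _ => ?_
        rw [Finsupp.linearCombination_single, smul_eq_mul]
    have h3 := h2 w
    rw [h1] at h3
    linarith

end Pool.Agent.FJA
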