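import Pool.Agent.FJA.St6
import Pool.Agent.FJA.P_TXD
import Pool.Agent.FJA.P_ADD
import Pool.Agent.FJA.P_NIB

/-!
# Module FST: the functional on units close to one
-/

set_option autoImplicit false

open Matrix

noncomputable section

namespace Pool.Agent.FJA

namespace FST

/-! ### linear functionals -/

section lin

variable {K : Type} [Field K] [CharZero K] {M : Type}

theorem lin_fadd (φ φ' : M → ℚ) (z : MonoidAlgebra K M) :
    lin K (fun x => φ x + φ' x) z = lin K φ z + lin K φ' z := by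
  induction z using MonoidAlgebra.induction_linear with
  | zero => simp only [map_zero, add_zero]
  | add x y hx hy =>
    rw [map_add, map_add, map_add, hx, hy]
    ring
  | single g a =>
    rw [lin_single, lin_single, lin_single]
    push_cast
    ring

end lin

/-! ### graded paths -/

variable {p : ℕ} [Fact p.Prime] {C : Type} [CommGroup C]

/-- graded recorded paths -/
abbrev Rg (C : Type) [CommGroup C] : Type := Rec C (Fin 2) × Multiplicative ℕ

/-- the inclusion of the group algebra -/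
def J (p : ℕ) [Fact p.Prime] (C : Type) [CommGroup C] :
    MonoidAlgebra ℚ_[p] C →+* MonoidAlgebra ℚ_[p] (Rg C) :=
  MonoidAlgebra.mapDomainRingHom ℚ_[p]
    ((MonoidHom.inl (Rec C (Fin 2)) (Multiplicative ℕ)).comp Rec.inc)

/-- the letters -/
def w (p : ℕ) [Fact p.Prime] (C : Type) [CommGroup C] (i : Fin 2) : MonoidAlgebra ℚ_[p] (Rg C) :=
  MonoidAlgebra.single (Rec.om i, 1) 1

/-- the degree -/
def T (p : ℕ) [Fact p.Prime] (C : Type) [CommGroup C] : MonoidAlgebra ℚ_[p] (Rg C) :=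
  MonoidAlgebra.single (1, Multiplicative.ofAdd 1) 1

/-- the graded matrix -/
def U (x x' : MonoidAlgebra ℚ_[p] C) : MonoidAlgebra ℚ_[p] (Rg C) :=
  w p C 0 * (1 + T p C * J p C x) * w p C 1 * (1 + T p C * J p C x')

theorem J_single (g : C) (a : ℚ_[p]) :
    J p C (MonoidAlgebra.single g a) = MonoidAlgebra.single (Rec.inc g, 1) a := by
  unfold J
  rw [MonoidAlgebra.mapDomainRingHom_apply, MonoidAlgebra.mapDomain_single]
  rfl

theorem T_comm (z : MonoidAlgebra ℚ_[p] (Rg C)) : T p C * z = z * T p C := by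
  induction z using MonoidAlgebra.induction_linear with
  | zero => rw [mul_zero, zero_mul]
  | add x y hx hy => rw [mul_add, add_mul, hx, hy]
  | single g a =>
    unfold T
    rw [MonoidAlgebra.single_mul_single, MonoidAlgebra.single_mul_single, one_mul, mul_one]
    congr 1
    refine Prod.ext ?_ ?_
    · change 1 * g.1 = g.1 * 1
      rw [one_mul, mul_one]
    · exact mul_comm _ _

/-! ### the evaluation of the degree -/

/-- the evaluation of the degree, on the monoid -/
def thM (p : ℕ) [Fact p.Prime] (C : Type) [CommGroup C] (r : ℕ) :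
    Rg C →* MonoidAlgebra ℚ_[p] (Rec C (Fin 2)) where
  toFun x := MonoidAlgebra.single x.1 ((p : ℚ_[p]) ^ (r * Multiplicative.toAdd x.2))
  map_one' := by
    change MonoidAlgebra.single 1 ((p : ℚ_[p]) ^ (r * 0)) = 1
    rw [mul_zero, pow_zero]
    rfl
  map_mul' x y := by
    rw [MonoidAlgebra.single_mul_single, ← pow_add, ← mul_add]
    rfl

/-- the evaluation of the degree -/
def th (p : ℕ) [Fact p.Prime] (C : Type) [CommGroup C] (r : ℕ) :
    MonoidAlgebra ℚ_[p] (Rg C) →ₐ[ℚ_[p]] MonoidAlgebra ℚ_[p] (Rec C (Fin 2)) :=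
  MonoidAlgebra.lift ℚ_[p] _ _ (thM p C r)

theorem th_single (r : ℕ) (x : Rg C) (a : ℚ_[p]) : th p C r (MonoidAlgebra.single x a) =
    MonoidAlgebra.single x.1 (a * (p : ℚ_[p]) ^ (r * Multiplicative.toAdd x.2)) := by
  unfold th
  rw [MonoidAlgebra.lift_single]
  change a • MonoidAlgebra.single x.1 ((p : ℚ_[p]) ^ (r * Multiplicative.toAdd x.2)) = _
  rw [MonoidAlgebra.smul_single, smul_eq_mul]

theorem lin_th (r : ℕ) (φ : Rec C (Fin 2) → ℚ) (z : MonoidAlgebra ℚ_[p] (Rg C)) :
    lin ℚ_[p] φ (th p C r z) =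
      lin ℚ_[p] (fun x : Rg C => (p : ℚ) ^ (r * Multiplicative.toAdd x.2) * φ x.1) z := by
  induction z using MonoidAlgebra.induction_linear with
  | zero => simp only [map_zero]
  | add x y hx hy => simp only [map_add, hx, hy]
  | single g a =>
    rw [th_single, lin_single, lin_single]
    push_cast
    ring

theorem th_w (r : ℕ) (i : Fin 2) : th p C r (w p C i) = MonoidAlgebra.single (Rec.om i) 1 := by
  unfold w
  rw [th_single]
  change MonoidAlgebra.single (Rec.om i) (1 * (p : ℚ_[p]) ^ (r * 0)) = _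
  rw [mul_zero, pow_zero, mul_one]

theorem th_T (r : ℕ) : th p C r (T p C) = MonoidAlgebra.single 1 ((p : ℚ_[p]) ^ r) := by
  unfold T
  rw [th_single]
  change MonoidAlgebra.single 1 (1 * (p : ℚ_[p]) ^ (r * 1)) = _
  rw [mul_one, one_mul]

theorem th_J (r : ℕ) (x : MonoidAlgebra ℚ_[p] C) : th p C r (J p C x) =
    MonoidAlgebra.mapDomainRingHom ℚ_[p] (Rec.inc (Γ := C) (V := Fin 2)) x := by
  induction x using MonoidAlgebra.induction_linear with
  | zero => simp only [map_zero]
  | add x y hx hy => simp only [map_add, hx, hy]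
  | single g a =>
    rw [J_single, th_single, MonoidAlgebra.mapDomainRingHom_apply, MonoidAlgebra.mapDomain_single]
    change MonoidAlgebra.single (Rec.inc g) (a * (p : ℚ_[p]) ^ (r * 0)) = _
    rw [mul_zero, pow_zero, mul_one]

theorem th_one_add (r : ℕ) (x : MonoidAlgebra ℚ_[p] C) : th p C r (1 + T p C * J p C x) =
    MonoidAlgebra.mapDomainRingHom ℚ_[p] (Rec.inc (Γ := C) (V := Fin 2))
      (1 + (p : ℚ_[p]) ^ r • x) := by
  rw [map_add, map_one, map_mul, th_T, th_J, map_add, map_one]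
  congr 1
  induction x using MonoidAlgebra.induction_linear with
  | zero => simp only [map_zero, mul_zero, smul_zero]
  | add x y hx hy => simp only [map_add, mul_add, smul_add, hx, hy]
  | single g a =>
    rw [MonoidAlgebra.smul_single, MonoidAlgebra.mapDomainRingHom_apply,
      MonoidAlgebra.mapDomain_single, MonoidAlgebra.mapDomainRingHom_apply,
      MonoidAlgebra.mapDomain_single, MonoidAlgebra.single_mul_single, one_mul, smul_eq_mul]

theorem sc_jm (v : (MonoidAlgebra ℚ_[p] C)ˣ) :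
    jm ℚ_[p] (Fin 2) (sc v : Matrix (Fin 1) (Fin 1) (MonoidAlgebra ℚ_[p] C)) =
      Matrix.scalar (Fin 1) (MonoidAlgebra.mapDomainRingHom ℚ_[p] (Rec.inc (Γ := C) (V := Fin 2))
        (v : MonoidAlgebra ℚ_[p] C)) := by
  change (MonoidAlgebra.mapDomainRingHom ℚ_[p] (Rec.inc (Γ := C) (V := Fin 2))).mapMatrix
    (Matrix.scalar (Fin 1) (v : MonoidAlgebra ℚ_[p] C)) = _
  rw [RingHom.mapMatrix_apply, Matrix.scalar_apply, Matrix.scalar_apply,
    Matrix.diagonal_map (map_zero _)]

theorem th_U (r : ℕ) (x x' : MonoidAlgebra ℚ_[p] C) : th p C r (U x x') =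
    MonoidAlgebra.single (Rec.om 0) 1 *
      MonoidAlgebra.mapDomainRingHom ℚ_[p] (Rec.inc (Γ := C) (V := Fin 2))
        (1 + (p : ℚ_[p]) ^ r • x) * MonoidAlgebra.single (Rec.om 1) 1 *
      MonoidAlgebra.mapDomainRingHom ℚ_[p] (Rec.inc (Γ := C) (V := Fin 2))
        (1 + (p : ℚ_[p]) ^ r • x') := by
  unfold U
  simp only [map_mul, th_w, th_one_add]

theorem UX_eq (v : (MonoidAlgebra ℚ_[p] C)ˣ) (r : ℕ) (x x' : MonoidAlgebra ℚ_[p] C)
    (h : (v : MonoidAlgebra ℚ_[p] C) = 1 + (p : ℚ_[p]) ^ r • x)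
    (h' : ((v⁻¹ : (MonoidAlgebra ℚ_[p] C)ˣ) : MonoidAlgebra ℚ_[p] C) =
      1 + (p : ℚ_[p]) ^ r • x') :
    UX ![1, sc v] = Matrix.scalar (Fin 1) (th p C r (U x x')) := by
  have hw : ∀ i : Fin 2, wm ℚ_[p] (Fin 1) i =
      Matrix.scalar (Fin 1) (MonoidAlgebra.single (Rec.om i : Rec C (Fin 2)) (1 : ℚ_[p])) :=
    fun i => rfl
  rw [th_U, ← h, ← h']
  unfold UX
  rw [List.ofFn_succ, List.ofFn_succ, List.ofFn_zero, List.prod_cons, List.prod_cons,
    List.prod_nil, mul_one]
  have e0 : (![1, sc v] : Fin 2 → (Matrix (Fin 1) (Fin 1) (MonoidAlgebra ℚ_[p] C))ˣ) 0 = 1 := rfl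
  have e1 : (![1, sc v] : Fin 2 → (Matrix (Fin 1) (Fin 1) (MonoidAlgebra ℚ_[p] C))ˣ)
      (Fin.succ 0) = sc v := rfl
  have e2 : (Fin.succ 0 : Fin 2) = 1 := rfl
  rw [e0, e1, inv_one, Units.val_one, map_one, one_mul, mul_one, ← map_inv, sc_jm, sc_jm, hw, hw,
    map_mul, map_mul, map_mul, e2]
  simp only [mul_assoc]

theorem TX_eq (v : (MonoidAlgebra ℚ_[p] C)ˣ) (r : ℕ) (x x' : MonoidAlgebra ℚ_[p] C)
    (h : (v : MonoidAlgebra ℚ_[p] C) = 1 + (p : ℚ_[p]) ^ r • x)
    (h' : ((v⁻¹ : (MonoidAlgebra ℚ_[p] C)ˣ) : MonoidAlgebra ℚ_[p] C) =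
      1 + (p : ℚ_[p]) ^ r • x') (φ : Rec C (Fin 2) → ℚ) (N : ℕ) :
    TX φ N ![1, sc v] =
      lin ℚ_[p] (fun x : Rg C => (p : ℚ) ^ (r * Multiplicative.toAdd x.2) * φ x.1)
        (U x x' ^ N) := by
  unfold TX
  rw [UX_eq v r x x' h h', ← map_pow, ← map_pow, ← lin_th, Matrix.scalar_apply,
    Matrix.trace_diagonal, Fin.sum_univ_one]

/-! ### the parts of degree zero and one -/

/-- the part of degree one of `U` -/
def B0 (x x' : MonoidAlgebra ℚ_[p] C) : MonoidAlgebra ℚ_[p] (Rg C) :=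
  w p C 0 * J p C x * w p C 1 + w p C 0 * w p C 1 * J p C x'

theorem U_split (x x' : MonoidAlgebra ℚ_[p] C) : ∃ Z, U x x' =
    w p C 0 * w p C 1 + T p C * B0 x x' + T p C * (T p C * Z) := by
  refine ⟨w p C 0 * J p C x * w p C 1 * J p C x', ?_⟩
  have h1 : w p C 0 * (T p C * J p C x) = T p C * (w p C 0 * J p C x) := by
    rw [← mul_assoc, ← T_comm, mul_assoc]
  have h2 : ∀ z : MonoidAlgebra ℚ_[p] (Rg C), z * (T p C * J p C x') =
      T p C * (z * J p C x') := by
    intro z
    rw [← mul_assoc, ← T_comm, mul_assoc]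
  have e1 : w p C 0 * (1 + T p C * J p C x) = w p C 0 + T p C * (w p C 0 * J p C x) := by
    rw [mul_add, mul_one, h1]
  have e2 : ∀ z : MonoidAlgebra ℚ_[p] (Rg C), z * (1 + T p C * J p C x') =
      z + T p C * (z * J p C x') := by
    intro z
    rw [mul_add, mul_one, h2]
  unfold U B0
  rw [e1, e2]
  simp only [mul_add, add_mul, mul_assoc]
  abel

/-- the part of degree one of the powers of `U` -/
def S1 (A B : MonoidAlgebra ℚ_[p] (Rg C)) (n : ℕ) : MonoidAlgebra ℚ_[p] (Rg C) :=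
  ∑ t ∈ Finset.range n, A ^ t * B * A ^ (n - 1 - t)

theorem S1_succ (A B : MonoidAlgebra ℚ_[p] (Rg C)) (n : ℕ) :
    S1 A B (n + 1) = A * S1 A B n + B * A ^ n := by
  unfold S1
  rw [Finset.sum_range_succ', pow_zero, one_mul, Finset.mul_sum]
  congr 1
  refine Finset.sum_congr rfl fun t _ => ?_
  have e : n + 1 - 1 - (t + 1) = n - 1 - t := by omega
  rw [e, pow_succ', mul_assoc, mul_assoc, mul_assoc]

theorem pow_split (A B Z V : MonoidAlgebra ℚ_[p] (Rg C))
    (hV : V = A + T p C * B + T p C * (T p C * Z)) (n : ℕ) :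
    ∃ Z', V ^ n = A ^ n + T p C * S1 A B n + T p C * (T p C * Z') := by
  induction n with
  | zero =>
    refine ⟨0, ?_⟩
    simp [S1]
  | succ n ih =>
    obtain ⟨Z', h⟩ := ih
    refine ⟨A * Z' + B * S1 A B n + B * (T p C * Z') + Z * V ^ n, ?_⟩
    have hA : A * (T p C * S1 A B n) = T p C * (A * S1 A B n) := by
      rw [← mul_assoc, ← T_comm, mul_assoc]
    have hA2 : A * (T p C * (T p C * Z')) = T p C * (T p C * (A * Z')) := by
      rw [← mul_assoc, ← T_comm, mul_assoc, ← mul_assoc A, ← T_comm, mul_assoc]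
    have hB : B * (T p C * S1 A B n) = T p C * (B * S1 A B n) := by
      rw [← mul_assoc, ← T_comm, mul_assoc]
    have hB2 : B * (T p C * (T p C * Z')) = T p C * (B * (T p C * Z')) := by
      rw [← mul_assoc, ← T_comm, mul_assoc]
    have h1 : V ^ (n + 1) = A * V ^ n + T p C * (B * V ^ n) + T p C * (T p C * (Z * V ^ n)) := by
      have h0 : V * V ^ n = (A + T p C * B + T p C * (T p C * Z)) * V ^ n := by rw [← hV]
      rw [pow_succ', h0, add_mul, add_mul, mul_assoc, mul_assoc, mul_assoc]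
    have h2 : A * V ^ n = A ^ (n + 1) + T p C * (A * S1 A B n) + T p C * (T p C * (A * Z')) := by
      rw [h, mul_add, mul_add, hA, hA2, pow_succ']
    have h3 : B * V ^ n = B * A ^ n + T p C * (B * S1 A B n) + T p C * (B * (T p C * Z')) := by
      rw [h, mul_add, mul_add, hB, hB2]
    rw [h1, h2, h3, S1_succ]
    simp only [mul_add]
    abel

/-- the function in degrees at most one -/
def lo (p r : ℕ) (φ : Rec C (Fin 2) → ℚ) (x : Rg C) : ℚ :=
  if 2 ≤ Multiplicative.toAdd x.2 then 0 else (p : ℚ) ^ (r * Multiplicative.toAdd x.2) * φ x.1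

theorem lin_lo_TT (r : ℕ) (φ : Rec C (Fin 2) → ℚ) (Z : MonoidAlgebra ℚ_[p] (Rg C)) :
    lin ℚ_[p] (lo p r φ) (T p C * (T p C * Z)) = 0 := by
  induction Z using MonoidAlgebra.induction_linear with
  | zero => simp only [map_zero, mul_zero]
  | add x y hx hy => simp only [map_add, mul_add, hx, hy, add_zero]
  | single g a =>
    unfold T
    rw [MonoidAlgebra.single_mul_single, MonoidAlgebra.single_mul_single, lin_single]
    have h : lo p r φ ((1, Multiplicative.ofAdd 1) * ((1, Multiplicative.ofAdd 1) * g)) = 0 := by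
      unfold lo
      rw [if_pos]
      change 2 ≤ 1 + (1 + Multiplicative.toAdd g.2)
      omega
    rw [h, Rat.cast_zero, mul_zero]

/-- the path of the letters -/
def q (C : Type) [CommGroup C] : Rec C (Fin 2) := Rec.om 0 * Rec.om 1

theorem w_mul : w p C 0 * w p C 1 = MonoidAlgebra.single (q C, 1) 1 := by
  unfold w
  rw [MonoidAlgebra.single_mul_single, mul_one]
  rfl

theorem w_pow (n : ℕ) : (w p C 0 * w p C 1) ^ n = MonoidAlgebra.single (q C ^ n, 1) 1 := by
  rw [w_mul, MonoidAlgebra.single_pow, one_pow]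
  congr 1

theorem q_val (n : ℕ) : (q C ^ n).val = 1 := by
  induction n with
  | zero => rfl
  | succ n ih =>
    rw [pow_succ, Rec.mul_val, ih, one_mul]
    change (1 : C) * 1 = 1
    rw [one_mul]

theorem q_lst (n : ℕ) (i : Fin 2) : (q C ^ n).lst i = List.replicate n 1 := by
  induction n with
  | zero => rfl
  | succ n ih =>
    rw [pow_succ, Rec.mul_lst, ih, q_val, List.replicate_succ']
    congr 1
    fin_cases i
    · change List.map (fun x => (1 : C) * x) ([1] ++ List.map (fun x => (1 : C) * x) []) = [1]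
      simp
    · change List.map (fun x => (1 : C) * x) ([] ++ List.map (fun x => (1 : C) * x) [1]) = [1]
      simp

/-- the first path of degree one -/
def m1 (t s : ℕ) (g : C) : Rec C (Fin 2) :=
  q C ^ t * (Rec.om 0 * Rec.inc g * Rec.om 1) * q C ^ s

/-- the second path of degree one -/
def m2 (t s : ℕ) (g : C) : Rec C (Fin 2) :=
  q C ^ t * (Rec.om 0 * Rec.om 1 * Rec.inc g) * q C ^ s

theorem m1_val (t s : ℕ) (g : C) : (m1 t s g).val = g := by
  unfold m1
  simp only [Rec.mul_val, q_val, Rec.om_val, Rec.inc_val, one_mul, mul_one]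

theorem m2_val (t s : ℕ) (g : C) : (m2 t s g).val = g := by
  unfold m2
  simp only [Rec.mul_val, q_val, Rec.om_val, Rec.inc_val, one_mul, mul_one]

theorem m1_lst0 (t s : ℕ) (g : C) : (m1 t s g).lst 0 =
    1 :: (List.replicate t 1 ++ List.replicate s g) := by
  unfold m1
  simp only [Rec.mul_lst, Rec.mul_val, q_val, Rec.om_val, Rec.inc_val, one_mul, mul_one, q_lst,
    Rec.om_lst, Rec.inc_lst]
  simp [← List.replicate_succ', List.replicate_succ]

theorem m1_lst1 (t s : ℕ) (g : C) : (m1 t s g).lst 1 =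
    (List.replicate t 1 ++ List.replicate s g) ++ [g * 1] := by
  unfold m1
  simp only [Rec.mul_lst, Rec.mul_val, q_val, Rec.om_val, Rec.inc_val, one_mul, mul_one, q_lst,
    Rec.om_lst, Rec.inc_lst]
  simp [← List.replicate_succ', List.replicate_succ]

theorem m2_lst (t s : ℕ) (g : C) : (m2 t s g).lst 1 = (m2 t s g).lst 0 := by
  unfold m2
  simp only [Rec.mul_lst, Rec.mul_val, q_val, Rec.om_val, Rec.inc_val, one_mul, mul_one, q_lst,
    Rec.om_lst, Rec.inc_lst]
  simp

open Classical in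
theorem lam_m1 {k B : ℕ} {j : List C → C → ZMod (p ^ (k - B))} (hj : Mrk C p k B j)
    (hk : B < k) {c : C} (hc : IsOfFinOrder c) (hp : p ∣ orderOf c) (t s : ℕ)
    (hts : t + s + 1 = p ^ k) (g : C) : lamM p k B j c (m1 t s g) = if g = c then 1 else 0 := by
  classical
  split_ifs with hg
  · subst hg
    have hlen : ∀ i, ((m1 t s g).lst i).length = p ^ k := by
      intro i
      fin_cases i
      · change ((m1 t s g).lst 0).length = _
        rw [m1_lst0, List.length_cons, List.length_append, List.length_replicate,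
          List.length_replicate, hts]
      · change ((m1 t s g).lst 1).length = _
        rw [m1_lst1, List.length_append, List.length_append, List.length_replicate,
          List.length_replicate, List.length_singleton, hts]
    rw [ADD.lam_pos _ _ _ _ _ _ ⟨hlen, m1_val t s g⟩, m1_lst0, m1_lst1,
      hj.rot 1 (List.replicate t 1 ++ List.replicate s g) g (by
        rw [List.length_append, List.length_replicate, List.length_replicate, hts]) hc hp,
      add_sub_cancel_left]
    have h1 : 1 < p ^ (k - B) := Nat.one_lt_pow (by omega) (Fact.out : p.Prime).one_lt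
    have : Fact (1 < p ^ (k - B)) := ⟨h1⟩
    rw [ZMod.val_one, Nat.cast_one]
  · exact ADD.lam_neg _ _ _ _ _ _ fun h => hg (by rw [← m1_val t s g]; exact h.2)

theorem lam_m2 {k B : ℕ} (j : List C → C → ZMod (p ^ (k - B))) (c : C) (t s : ℕ) (g : C) :
    lamM p k B j c (m2 t s g) = 0 := by
  by_cases h : (∀ i, ((m2 t s g).lst i).length = p ^ k) ∧ (m2 t s g).val = c
  · have : NeZero (p ^ (k - B)) := ⟨(pow_pos (Fact.out : p.Prime).pos _).ne'⟩
    rw [ADD.lam_pos _ _ _ _ _ _ h, m2_lst, sub_self, ZMod.val_zero, Nat.cast_zero]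
  · exact ADD.lam_neg _ _ _ _ _ _ h

omit [Fact p.Prime] in
theorem lo_one (r : ℕ) (φ : Rec C (Fin 2) → ℚ) (μ : Rec C (Fin 2)) :
    lo p r φ (μ, Multiplicative.ofAdd 1) = (p : ℚ) ^ r * φ μ := by
  unfold lo
  rw [if_neg]
  · change (p : ℚ) ^ (r * 1) * φ μ = _
    rw [mul_one]
  · change ¬ 2 ≤ 1
    omega

omit [Fact p.Prime] in
theorem lo_zero (r : ℕ) (φ : Rec C (Fin 2) → ℚ) (μ : Rec C (Fin 2)) :
    lo p r φ (μ, 1) = φ μ := by
  unfold lo
  rw [if_neg]
  · change (p : ℚ) ^ (r * 0) * φ μ = _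
    rw [mul_zero, pow_zero, one_mul]
  · change ¬ 2 ≤ 0
    omega

theorem term1 {k B : ℕ} {j : List C → C → ZMod (p ^ (k - B))} (hj : Mrk C p k B j)
    (hk : B < k) {c : C} (hc : IsOfFinOrder c) (hp : p ∣ orderOf c) (r t s : ℕ)
    (hts : t + s + 1 = p ^ k) (x : MonoidAlgebra ℚ_[p] C) :
    lin ℚ_[p] (lo p r (lamM p k B j c)) (T p C * ((w p C 0 * w p C 1) ^ t *
      (w p C 0 * J p C x * w p C 1) * (w p C 0 * w p C 1) ^ s)) =
      (p : ℚ_[p]) ^ r * x.coeff c := by
  classical
  induction x using MonoidAlgebra.induction_linear with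
  | zero => simp
  | add x y hx hy =>
    simp only [map_add, mul_add, add_mul] at hx hy ⊢
    rw [hx, hy, MonoidAlgebra.coeff_add, Finsupp.add_apply, mul_add]
  | single g a =>
    have h : T p C * ((w p C 0 * w p C 1) ^ t * (w p C 0 * J p C (MonoidAlgebra.single g a) *
        w p C 1) * (w p C 0 * w p C 1) ^ s) =
        MonoidAlgebra.single (m1 t s g, Multiplicative.ofAdd 1) a := by
      rw [w_pow, w_pow, J_single]
      unfold w T
      simp only [MonoidAlgebra.single_mul_single, one_mul, mul_one]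
      congr 1
      refine Prod.ext ?_ rfl
      change 1 * (q C ^ t * (Rec.om 0 * Rec.inc g * Rec.om 1) * q C ^ s) = _
      rw [one_mul]
      rfl
    rw [h, lin_single, lo_one, lam_m1 hj hk hc hp t s hts, MonoidAlgebra.coeff_single,
      Finsupp.single_apply]
    split_ifs <;> push_cast <;> ring

theorem term2 {k B : ℕ} (j : List C → C → ZMod (p ^ (k - B))) (c : C) (r t s : ℕ)
    (x : MonoidAlgebra ℚ_[p] C) :
    lin ℚ_[p] (lo p r (lamM p k B j c)) (T p C * ((w p C 0 * w p C 1) ^ t *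
      (w p C 0 * w p C 1 * J p C x) * (w p C 0 * w p C 1) ^ s)) = 0 := by
  induction x using MonoidAlgebra.induction_linear with
  | zero => simp
  | add x y hx hy =>
    simp only [map_add, mul_add, add_mul] at hx hy ⊢
    rw [hx, hy, add_zero]
  | single g a =>
    have h : T p C * ((w p C 0 * w p C 1) ^ t * (w p C 0 * w p C 1 *
        J p C (MonoidAlgebra.single g a)) * (w p C 0 * w p C 1) ^ s) =
        MonoidAlgebra.single (m2 t s g, Multiplicative.ofAdd 1) a := by
      rw [w_pow, w_pow, J_single]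
      unfold w T
      simp only [MonoidAlgebra.single_mul_single, one_mul, mul_one]
      congr 1
      refine Prod.ext ?_ rfl
      change 1 * (q C ^ t * (Rec.om 0 * Rec.om 1 * Rec.inc g) * q C ^ s) = _
      rw [one_mul]
      rfl
    rw [h, lin_single, lo_one, lam_m2, mul_zero, Rat.cast_zero, mul_zero]

theorem lin_lo {k B : ℕ} {j : List C → C → ZMod (p ^ (k - B))} (hj : Mrk C p k B j)
    (hk : B < k) {c : C} (hc : IsOfFinOrder c) (hp : p ∣ orderOf c) (r : ℕ)
    (x x' : MonoidAlgebra ℚ_[p] C) :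
    lin ℚ_[p] (lo p r (lamM p k B j c)) (U x x' ^ p ^ k) =
      (p : ℚ_[p]) ^ (k + r) * x.coeff c := by
  obtain ⟨Z, hZ⟩ := U_split x x'
  obtain ⟨Z', hZ'⟩ := pow_split _ _ _ _ hZ (p ^ k)
  have hc1 : (1 : C) ≠ c := by
    rintro rfl
    rw [orderOf_one] at hp
    exact (Fact.out : p.Prime).one_lt.ne' (Nat.dvd_one.1 hp)
  have h0 : lin ℚ_[p] (lo p r (lamM p k B j c)) ((w p C 0 * w p C 1) ^ p ^ k) = 0 := by
    rw [w_pow, lin_single, lo_zero, ADD.lam_neg, Rat.cast_zero, mul_zero]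
    rintro ⟨-, h⟩
    rw [q_val] at h
    exact hc1 h
  have h1 : lin ℚ_[p] (lo p r (lamM p k B j c)) (T p C * S1 (w p C 0 * w p C 1) (B0 x x')
      (p ^ k)) = (p : ℚ_[p]) ^ (k + r) * x.coeff c := by
    unfold S1
    rw [Finset.mul_sum, map_sum]
    have h2 : ∀ t ∈ Finset.range (p ^ k), lin ℚ_[p] (lo p r (lamM p k B j c))
        (T p C * ((w p C 0 * w p C 1) ^ t * B0 x x' * (w p C 0 * w p C 1) ^ (p ^ k - 1 - t))) =
        (p : ℚ_[p]) ^ r * x.coeff c := by
      intro t ht
      rw [Finset.mem_range] at ht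
      have hts : t + (p ^ k - 1 - t) + 1 = p ^ k := by omega
      unfold B0
      rw [mul_add, add_mul, mul_add, map_add, term1 hj hk hc hp r t _ hts, term2, add_zero]
    rw [Finset.sum_congr rfl h2, Finset.sum_const, Finset.card_range, nsmul_eq_mul, pow_add]
    push_cast
    ring
  rw [hZ', map_add, map_add, h0, h1, lin_lo_TT, zero_add, add_zero]

/-! ### the part of degree at least two -/

/-- the paths with given lengths -/
def TT (C : Type) [CommGroup C] (f : Fin 2 → ℕ) : Set (Rg C) := {x | x.1 ∈ TXD.Ln f}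

theorem mem_TT {f : Fin 2 → ℕ} {x : Rg C} (h : ∀ i, (x.1.lst i).length = f i) : x ∈ TT C f := h

theorem fam_TT : TXD.Fam (TT C) where
  one := TXD.fam_Ln.one
  mul := fun a b μ ν hμ hν => TXD.fam_Ln.mul a b μ.1 ν.1 hμ hν

theorem sp_J (x : MonoidAlgebra ℚ_[p] C) : TXD.Sp (TT C 0) (J p C x) := by
  induction x using MonoidAlgebra.induction_linear with
  | zero =>
    rw [map_zero]
    exact TXD.sp_zero _
  | add x y hx hy =>
    rw [map_add]
    exact TXD.sp_add hx hy
  | single g a =>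
    rw [J_single]
    exact TXD.sp_single (mem_TT fun _ => rfl) a

theorem sp_mul' {a b : Fin 2 → ℕ} {x y : MonoidAlgebra ℚ_[p] (Rg C)} (hx : TXD.Sp (TT C a) x)
    (hy : TXD.Sp (TT C b) y) : TXD.Sp (TT C (a + b)) (x * y) :=
  TXD.sp_mul (fun μ hμ ν hν => fam_TT.mul a b μ ν hμ hν) hx hy

theorem sp_T : TXD.Sp (TT C 0) (T p C) := TXD.sp_single (mem_TT fun _ => rfl) 1

theorem sp_one_add (x : MonoidAlgebra ℚ_[p] C) : TXD.Sp (TT C 0) (1 + T p C * J p C x) := by
  refine TXD.sp_add (TXD.sp_single (mem_TT fun _ => rfl) 1) ?_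
  have h := sp_mul' sp_T (sp_J x)
  rw [add_zero] at h
  exact h

theorem sp_w (i : Fin 2) : TXD.Sp (TT C (Pi.single i 1)) (w p C i) := by
  refine TXD.sp_single (mem_TT fun l => ?_) 1
  change ((Rec.om i : Rec C (Fin 2)).lst l).length = _
  rw [Rec.om_lst, Pi.single_apply]
  split_ifs <;> rfl

theorem sp_U (x x' : MonoidAlgebra ℚ_[p] C) (y : Rg C) (h : (U x x').coeff y ≠ 0) :
    y.1 ∈ Bal C (Fin 2) := by
  have h1 := sp_mul' (sp_mul' (sp_mul' (sp_w (p := p) (C := C) 0) (sp_one_add x)) (sp_w 1))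
    (sp_one_add x')
  have h2 : ∀ i, (y.1.lst i).length = _ := h1 y h
  refine ⟨1, fun i => ?_⟩
  rw [h2 i]
  fin_cases i <;> rfl

theorem ni_U {x x' : MonoidAlgebra ℚ_[p] C} (hx : NI x) (hx' : NI x') : NI (U x x') := by
  have hJ : ∀ {z : MonoidAlgebra ℚ_[p] C}, NI z → J p C z ∈ (GAU.ext p (Rg C)).range := by
    intro z hz
    rw [← GAU.ni_iff]
    exact NIB.ni_mapDomain _ hz
  have hs : ∀ y : Rg C, MonoidAlgebra.single y (1 : ℚ_[p]) ∈ (GAU.ext p (Rg C)).range := by
    intro y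
    rw [← GAU.ni_iff]
    exact GAU.ni_single y (by rw [norm_one])
  rw [GAU.ni_iff]
  refine Subring.mul_mem _ (Subring.mul_mem _ (Subring.mul_mem _ (hs _) ?_) (hs _)) ?_
  · exact Subring.add_mem _ (Subring.one_mem _) (Subring.mul_mem _ (hs _) (hJ hx))
  · exact Subring.add_mem _ (Subring.one_mem _) (Subring.mul_mem _ (hs _) (hJ hx'))

end FST

open FST in
theorem t_FST (hgra : S_GRA) : S_FST := by
  classical
  intro C _ b hb p _ B hB k hk j hj c hc hpc v r x hx hv hvx
  set x' : MonoidAlgebra ℚ_[p] C := -(x * ((v⁻¹ : (MonoidAlgebra ℚ_[p] C)ˣ) :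
    MonoidAlgebra ℚ_[p] C)) with hx'
  have hx'i : NI x' := by
    have h := ADD.ni_mul hx hv
    rw [GAU.ni_iff] at h ⊢
    exact Subring.neg_mem _ h
  have hvx' : ((v⁻¹ : (MonoidAlgebra ℚ_[p] C)ˣ) : MonoidAlgebra ℚ_[p] C) =
      1 + (p : ℚ_[p]) ^ r • x' := by
    have h1 : (v : MonoidAlgebra ℚ_[p] C) * ((v⁻¹ : (MonoidAlgebra ℚ_[p] C)ˣ) :
        MonoidAlgebra ℚ_[p] C) = 1 := by
      rw [← Units.val_mul, mul_inv_cancel, Units.val_one]
    rw [hvx, add_mul, one_mul, smul_mul_assoc] at h1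
    rw [hx', smul_neg, ← h1]
    abel
  rw [TX_eq v r x x' hvx hvx']
  have hsplit : (fun y : Rg C => (p : ℚ) ^ (r * Multiplicative.toAdd y.2) * lamM p k B j c y.1) =
      fun y : Rg C => (if 2 ≤ Multiplicative.toAdd y.2 then
        (p : ℚ) ^ (r * Multiplicative.toAdd y.2) * lamM p k B j c y.1 else 0) +
        lo p r (lamM p k B j c) y := by
    funext y
    unfold lo
    split_ifs
    · rw [add_zero]
    · rw [zero_add]
  rw [hsplit, lin_fadd, lin_lo hj hk hc hpc, add_sub_cancel_right]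
  have h := hgra C b hb p B hB k hk.le 2 r (lamM p k B j c)
    (fun μ hμ ν _ => ADD.lam_tr hj hc hpc hμ) (by
      intro μ hμ
      by_cases h : (∀ i, (μ.lst i).length = p ^ k) ∧ μ.val = c
      · rw [h.2]
        exact ⟨hc, hpc⟩
      · exact absurd (ADD.lam_neg _ _ _ _ _ _ h) hμ) (by
      intro μ
      by_cases h : (∀ i, (μ.lst i).length = p ^ k) ∧ μ.val = c
      · exact ⟨((j (μ.lst 1) c - j (μ.lst 0) c).val : ℕ), by rw [ADD.lam_pos _ _ _ _ _ _ h]; simp⟩
      · exact ⟨0, by rw [ADD.lam_neg _ _ _ _ _ _ h]; simp⟩)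
    (Fin 1) (Matrix.scalar (Fin 1) (U x x')) (by
      intro a a'
      have haa : a = a' := Subsingleton.elim a a'
      subst haa
      rw [Matrix.scalar_apply, Matrix.diagonal_apply_eq]
      exact ni_U hx hx'i) (by
      intro a a' y hy
      have haa : a = a' := Subsingleton.elim a a'
      subst haa
      rw [Matrix.scalar_apply, Matrix.diagonal_apply_eq] at hy
      exact sp_U x x' y hy)
  rw [← map_pow, Matrix.scalar_apply, Matrix.trace_diagonal, Fin.sum_univ_one] at h
  exact h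

end Pool.Agent.FJA
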