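import Pool.Agent.FJA.St5
import Pool.Agent.FJA.P_GAU
import Pool.Agent.FJA.P_TXA

/-!
# GAS: the Gauss congruence for matrices supported in a submonoid
-/

set_option autoImplicit false

open Matrix Pool.Agent.WhK Pool.Agent.Lib25

noncomputable section

namespace Pool.Agent.FJA

namespace GAS

variable {k : Type*} [Field k] {M : Type*} [Monoid M] (S : Submonoid M)

/-- The inclusion of the algebra of a submonoid. -/
def sub (k : Type*) [Field k] {M : Type*} [Monoid M] (S : Submonoid M) :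
    MonoidAlgebra k S →+* MonoidAlgebra k M :=
  MonoidAlgebra.mapDomainRingHom k S.subtype

theorem exists_lift (x : MonoidAlgebra k M) (hx : ∀ μ, x.coeff μ ≠ 0 → μ ∈ S) :
    ∃ y : MonoidAlgebra k S, sub k S y = x ∧ ∀ μ : S, y.coeff μ = x.coeff μ := by
  have hinj : Function.Injective (S.subtype : S → M) := Subtype.val_injective
  refine ⟨MonoidAlgebra.ofCoeff (Finsupp.comapDomain (S.subtype : S → M) x.coeff hinj.injOn),
    ?_, fun μ => rfl⟩
  change MonoidAlgebra.mapDomain (S.subtype : S → M) _ = x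
  apply MonoidAlgebra.coeff_injective
  rw [MonoidAlgebra.coeff_mapDomain, MonoidAlgebra.coeff_ofCoeff,
    Finsupp.mapDomain_comapDomain _ hinj]
  intro μ hμ
  exact ⟨⟨μ, hx μ (Finsupp.mem_support_iff.mp hμ)⟩, rfl⟩

theorem lin_sub [CharZero k] (φ : M → ℚ) (x : MonoidAlgebra k S) :
    lin k φ (sub k S x) = lin k (fun μ : S => φ μ) x :=
  (TXA.lin_comp k φ (S.subtype : S → M) x).symm

theorem exists_lift_mat {ι : Type*} (U : Matrix ι ι (MonoidAlgebra k M))
    (hU : ∀ a b μ, (U a b).coeff μ ≠ 0 → μ ∈ S) :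
    ∃ U' : Matrix ι ι (MonoidAlgebra k S), U'.map (sub k S) = U ∧
      ∀ a b (μ : S), (U' a b).coeff μ = (U a b).coeff μ := by
  choose U' h1 h2 using fun a b => exists_lift S (U a b) (hU a b)
  exact ⟨Matrix.of U', Matrix.ext fun a b => h1 a b, h2⟩

end GAS

open GAS in
/-- GAS: the Gauss congruence for matrices supported in a submonoid. -/
theorem t_GAS : S_GAS := by
  intro ℓ hℓ M _ S ι _ _ φ D hφ hD hden U hU hS n
  obtain ⟨U', h1, h2⟩ := exists_lift_mat S U hS
  have h3 : ∀ m : ℕ, ∀ ψ : M → ℚ, lin ℚ_[ℓ] ψ (Matrix.trace (U ^ m)) =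
      lin ℚ_[ℓ] (fun μ : S => ψ μ) (Matrix.trace (U' ^ m)) := by
    intro m ψ
    have h4 : U ^ m = (sub ℚ_[ℓ] S).mapMatrix (U' ^ m) := by
      rw [map_pow]
      congr 1
      exact h1.symm
    rw [h4, ← lin_sub]
    congr 1
    rw [RingHom.mapMatrix_apply]
    exact (AddMonoidHom.map_trace (sub ℚ_[ℓ] S).toAddMonoidHom (U' ^ m)).symm
  rw [h3, h3]
  have h5 := t_GAU ℓ S ι (fun μ : S => φ μ) D (fun μ ν => hφ μ μ.2 ν ν.2) hD
    (fun μ => hden μ) U' (fun a b μ => by rw [h2]; exact hU a b μ) n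
  simpa using h5

end Pool.Agent.FJA
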