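import Pool.Agent.FJA.St6
import Pool.Agent.FJA.P_DIV

/-!
# GRA: the divisibility with a grading
-/

set_option autoImplicit false

open Matrix

namespace Pool.Agent.FJA

namespace GRA

/-- the graded function, divided by `p ^ (2 r)` -/
def gr {Γ : Type} [Group Γ] {M : ℕ} (p r : ℕ) (φ : Rec Γ (Fin M) → ℚ)
    (x : Rec Γ (Fin M) × Multiplicative ℕ) : ℚ :=
  if 2 ≤ Multiplicative.toAdd x.2 then
    (p : ℚ) ^ (r * (Multiplicative.toAdd x.2 - 2)) * φ x.1 else 0

theorem gr_eq {Γ : Type} [Group Γ] {M : ℕ} (p r : ℕ) (φ : Rec Γ (Fin M) → ℚ)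
    (x : Rec Γ (Fin M) × Multiplicative ℕ) :
    (if 2 ≤ Multiplicative.toAdd x.2 then
      (p : ℚ) ^ (r * Multiplicative.toAdd x.2) * φ x.1 else 0) = (p : ℚ) ^ (2 * r) * gr p r φ x := by
  unfold gr
  split_ifs with h
  · have e : r * Multiplicative.toAdd x.2 = 2 * r + r * (Multiplicative.toAdd x.2 - 2) := by
      obtain ⟨d, hd⟩ := Nat.exists_eq_add_of_le h
      rw [hd, Nat.add_sub_cancel_left]
      ring
    rw [e, pow_add]
    ring
  · rw [mul_zero]

theorem gr_int {Γ : Type} [Group Γ] {M : ℕ} (p r : ℕ) (φ : Rec Γ (Fin M) → ℚ)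
    (h : ∀ μ, ∃ z : ℤ, φ μ = z) (x : Rec Γ (Fin M) × Multiplicative ℕ) :
    ∃ z : ℤ, gr p r φ x = z := by
  unfold gr
  split_ifs
  · obtain ⟨z, hz⟩ := h x.1
    refine ⟨(p : ℤ) ^ (r * (Multiplicative.toAdd x.2 - 2)) * z, ?_⟩
    rw [hz]
    push_cast
    ring
  · exact ⟨0, by simp⟩

theorem gr_comm {Γ : Type} [Group Γ] {M : ℕ} (p r : ℕ) (φ : Rec Γ (Fin M) → ℚ)
    (h : ∀ μ ∈ Bal Γ (Fin M), ∀ ν ∈ Bal Γ (Fin M), φ (μ * ν) = φ (ν * μ)) :
    ∀ x ∈ (Bal Γ (Fin M)).prod (⊤ : Submonoid (Multiplicative ℕ)),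
      ∀ y ∈ (Bal Γ (Fin M)).prod (⊤ : Submonoid (Multiplicative ℕ)),
        gr p r φ (x * y) = gr p r φ (y * x) := by
  rintro x ⟨hx, -⟩ y ⟨hy, -⟩
  unfold gr
  rw [Prod.snd_mul, Prod.snd_mul, Prod.fst_mul, Prod.fst_mul, mul_comm y.2 x.2, h x.1 hx y.1 hy]

end GRA

open GRA in
/-- GRA: the divisibility with a grading. -/
theorem t_GRA (hgas : S_GAS) : S_GRA := by
  intro Γ _ b hb p _ B hB k hk M r φ htr hsup hint ι _ _ U hU hS
  have hp : p.Prime := Fact.out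
  have hone : (0 : ℕ) < 1 := one_pos
  set S : Submonoid (Rec Γ (Fin M) × Multiplicative ℕ) := (Bal Γ (Fin M)).prod ⊤ with hSdef
  have htr' := gr_comm p r φ htr
  have hS' : ∀ a b x, (U a b).coeff x ≠ 0 → x ∈ S := fun a b x h => ⟨hS a b x h, trivial⟩
  set a : ℕ → ℚ_[p] := fun i => lin ℚ_[p] (fun x => gr p r φ (x ^ p ^ i))
    (Matrix.trace (U ^ p ^ (k - i))) with ha
  have hp1 : (1 : ℝ) ≤ p := by exact_mod_cast hp.one_lt.le
  have hstep : ∀ i < B, ‖a i - a (i + 1)‖ ≤ (p : ℝ) ^ (-((k : ℤ) - B)) := by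
    intro i hi
    have h1 := hgas p (Rec Γ (Fin M) × Multiplicative ℕ) S ι
      (fun x => gr p r φ (x ^ p ^ i)) 1
      (DIV.tr_pow _ _ htr' (p ^ i) (pow_pos hp.pos i).ne') hone
      (fun x => by
        obtain ⟨z, hz⟩ := gr_int p r φ hint (x ^ p ^ i)
        exact ⟨z, by rw [Nat.cast_one, one_mul]; exact hz⟩) U hU hS' (k - i - 1)
    have e1 : k - i - 1 + 1 = k - i := by omega
    have e2 : k - (i + 1) = k - i - 1 := by omega
    have e3 : (fun x : Rec Γ (Fin M) × Multiplicative ℕ => gr p r φ ((x ^ p) ^ p ^ i)) =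
        fun x => gr p r φ (x ^ p ^ (i + 1)) := by
      funext x
      rw [← pow_mul, ← pow_succ']
    rw [e1, e3, Nat.cast_one, one_mul] at h1
    have h2 : a i - a (i + 1) =
        lin ℚ_[p] (fun x => gr p r φ (x ^ p ^ i)) (Matrix.trace (U ^ p ^ (k - i))) -
        lin ℚ_[p] (fun x => gr p r φ (x ^ p ^ (i + 1))) (Matrix.trace (U ^ p ^ (k - i - 1))) := by
      rw [ha]
      simp only
      rw [e2]
    rw [h2]
    refine h1.trans (zpow_le_zpow_right₀ hp1 ?_)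
    omega
  have hlast : a B = 0 := by
    have h0 : (fun x : Rec Γ (Fin M) × Multiplicative ℕ => gr p r φ (x ^ p ^ B)) =
        fun _ => 0 := by
      funext x
      by_contra hne
      have h1 : φ (x.1 ^ p ^ B) ≠ 0 := by
        intro h
        apply hne
        unfold gr
        rw [Prod.pow_fst, h, mul_zero, ite_self]
      obtain ⟨h2, h3⟩ := hsup _ h1
      have h4 : (x.1 ^ p ^ B).val = x.1.val ^ p ^ B := map_pow Rec.valHom x.1 (p ^ B)
      rw [h4] at h2 h3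
      exact DIV.no_order hb hB x.1.val h2 h3
    rw [ha]
    simp only
    rw [h0, lin_apply]
    simp
  have hall : ∀ t, t ≤ B → ‖a (B - t)‖ ≤ (p : ℝ) ^ (-((k : ℤ) - B)) := by
    intro t
    induction t with
    | zero =>
      intro _
      rw [Nat.sub_zero, hlast, norm_zero]
      positivity
    | succ t ih =>
      intro ht
      have h1 := hstep (B - (t + 1)) (by omega)
      have e1 : B - (t + 1) + 1 = B - t := by omega
      rw [e1] at h1
      have h2 : a (B - (t + 1)) = (a (B - (t + 1)) - a (B - t)) + a (B - t) := by ring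
      rw [h2]
      exact (Padic.nonarchimedean _ _).trans (max_le h1 (ih (by omega)))
  have hfin := hall B le_rfl
  rw [Nat.sub_self] at hfin
  have ha0 : a 0 = lin ℚ_[p] (gr p r φ) (Matrix.trace (U ^ p ^ k)) := by
    rw [ha]
    simp only [pow_zero, pow_one, Nat.sub_zero]
  have hfun : (fun x : Rec Γ (Fin M) × Multiplicative ℕ => if 2 ≤ Multiplicative.toAdd x.2 then
      (p : ℚ) ^ (r * Multiplicative.toAdd x.2) * φ x.1 else 0) =
      fun x => (p : ℚ) ^ (2 * r) * gr p r φ x := funext fun x => gr_eq p r φ x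
  rw [hfun, DIV.lin_mul]
  have hcast : (((p : ℚ) ^ (2 * r) : ℚ) : ℚ_[p]) = (p : ℚ_[p]) ^ (2 * r) := by push_cast; rfl
  rw [hcast, norm_mul, Padic.norm_p_pow]
  have hsplit : (p : ℝ) ^ (-(2 * r + k - B : ℤ)) =
      (p : ℝ) ^ (-((2 * r : ℕ) : ℤ)) * (p : ℝ) ^ (-((k : ℤ) - B)) := by
    rw [← zpow_add₀ (by exact_mod_cast hp.ne_zero)]
    congr 1
    push_cast
    ring
  rw [hsplit]
  rw [ha0] at hfin
  exact mul_le_mul_of_nonneg_left hfin (by positivity)

end Pool.Agent.FJA
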