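import Pool.Agent.FJA.St6

/-!
# LIM: the limit is the logarithm, uniformly in the markings
-/

set_option autoImplicit false

open Matrix Pool.Agent.WhK Pool.Agent.Lib25

noncomputable section

namespace Pool.Agent.FJA

namespace LIM

/-- the coefficients of `uZ` -/
theorem coeff_uZ (p : ℕ) [Fact p.Prime] {C : Type} [Group C] (u : (MonoidAlgebra ℤ C)ˣ) (c : C) :
    ((uZ p u : (MonoidAlgebra ℚ_[p] C)ˣ) : MonoidAlgebra ℚ_[p] C).coeff c =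
      (((u : MonoidAlgebra ℤ C).coeff c : ℤ) : ℚ_[p]) := by
  have h : ((uZ p u : (MonoidAlgebra ℚ_[p] C)ˣ) : MonoidAlgebra ℚ_[p] C) =
      MonoidAlgebra.mapRingHom C (Int.castRingHom ℚ_[p]) (u : MonoidAlgebra ℤ C) := rfl
  rw [h, MonoidAlgebra.coeff_mapRingHom]
  rfl

/-- `uZ p u` is integral -/
theorem ni_uZ (p : ℕ) [Fact p.Prime] {C : Type} [Group C] (u : (MonoidAlgebra ℤ C)ˣ) :
    NI ((uZ p u : (MonoidAlgebra ℚ_[p] C)ˣ) : MonoidAlgebra ℚ_[p] C) := by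
  intro c
  rw [coeff_uZ]
  exact Padic.norm_int_le_one _

/-- the inverse of `uZ p u` is integral -/
theorem ni_uZ_inv (p : ℕ) [Fact p.Prime] {C : Type} [Group C] (u : (MonoidAlgebra ℤ C)ˣ) :
    NI (((uZ p u)⁻¹ : (MonoidAlgebra ℚ_[p] C)ˣ) : MonoidAlgebra ℚ_[p] C) := by
  rw [← map_inv]
  exact ni_uZ p u⁻¹

/-- division of the coefficients -/
theorem exists_div {C : Type} [Monoid C] (q : ℤ) (x : MonoidAlgebra ℤ C)
    (h : ∀ c, q ∣ x.coeff c) : ∃ y : MonoidAlgebra ℤ C, x = q • y := by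
  classical
  refine ⟨⟨x.coeff.mapRange (fun z => z / q) (Int.zero_ediv q)⟩, ?_⟩
  ext c
  have h1 : (q • (⟨x.coeff.mapRange (fun z => z / q) (Int.zero_ediv q)⟩ :
      MonoidAlgebra ℤ C)).coeff c = q * (x.coeff c / q) := rfl
  rw [h1, Int.mul_ediv_cancel' (h c)]

/-- the powers are close to one -/
theorem exists_pow (p : ℕ) {C : Type} [CommGroup C] (u : MonoidAlgebra ℤ C) (E : ℕ)
    (h : ∀ c : C, (p : ℤ) ∣ (u ^ E - 1).coeff c) (a : ℕ) :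
    ∃ y : MonoidAlgebra ℤ C, u ^ (E * p ^ a) - 1 = ((p : ℤ) ^ (a + 1)) • y := by
  obtain ⟨x, hx⟩ := exists_div (p : ℤ) _ h
  have h1 : ((p : ℕ) : MonoidAlgebra ℤ C) ∣ u ^ E - 1 := by
    refine ⟨x, ?_⟩
    rw [hx, zsmul_eq_mul, Int.cast_natCast]
  have h2 := dvd_sub_pow_of_dvd_sub h1 a
  obtain ⟨y, hy⟩ := h2
  refine ⟨y, ?_⟩
  rw [pow_mul, zsmul_eq_mul, Int.cast_pow, Int.cast_natCast, ← hy, one_pow]

/-- small numbers -/
theorem small (p : ℕ) [hp : Fact p.Prime] (D ε : ℝ) (hε : 0 < ε) :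
    ∃ a1 : ℕ, ∀ a : ℕ, a1 ≤ a → D * ((p : ℝ)⁻¹) ^ a ≤ ε := by
  have hp1 : (1 : ℝ) < p := by exact_mod_cast hp.out.one_lt
  have h0 : (0 : ℝ) ≤ (p : ℝ)⁻¹ := by positivity
  have h1 : (p : ℝ)⁻¹ < 1 := inv_lt_one_of_one_lt₀ hp1
  have h2 := (tendsto_pow_atTop_nhds_zero_of_lt_one h0 h1).const_mul D
  rw [mul_zero] at h2
  have h3 := h2.eventually (eventually_le_nhds hε)
  rw [Filter.eventually_atTop] at h3
  exact h3

end LIM

open LIM in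
theorem t_LIM (hadd : S_ADD) (hfst : S_FST) : S_LIM := by
  intro C _ b hb p hp B hB u l hl c hc hpc ε hε
  obtain ⟨E, hE, hdiv, hlim⟩ := hl
  have hp0 : (0 : ℝ) < p := by exact_mod_cast hp.out.pos
  have hp1 : (1 : ℝ) ≤ p := by exact_mod_cast hp.out.one_lt.le
  have hE0 : (0 : ℝ) < ‖((E : ℕ) : ℚ_[p])‖ := by
    rw [norm_pos_iff]
    exact_mod_cast hE.ne'
  obtain ⟨a1, ha1⟩ := Metric.tendsto_atTop.1 (hlim c) ε hε
  obtain ⟨a2, ha2⟩ := small p (‖((E : ℕ) : ℚ_[p])‖⁻¹ * (p : ℝ) ^ B) ε hε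
  set a : ℕ := max a1 a2 with ha
  have hA1 := ha1 a (le_max_left _ _)
  have hA2 := ha2 a (le_max_right _ _)
  obtain ⟨K0, hK0⟩ := small p (‖((E : ℕ) : ℚ_[p])‖⁻¹ * (p : ℝ) ^ (a + 2 * B)) ε hε
  refine ⟨max K0 (B + 1), lt_of_lt_of_le (Nat.lt_succ_self B) (le_max_right _ _), ?_⟩
  intro k hk j hj
  have hk0 := hK0 k (le_trans (le_max_left _ _) hk)
  have hBk : B < k := lt_of_lt_of_le (Nat.lt_succ_self B) (le_trans (le_max_right _ _) hk)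
  -- the functional
  set T : (MonoidAlgebra ℚ_[p] C)ˣ → ℚ_[p] := fun v => TX (lamM p k B j c) (p ^ k) ![1, sc v]
    with hT
  have hTadd : ∀ v v' : (MonoidAlgebra ℤ C)ˣ,
      ‖T (uZ p (v * v')) - T (uZ p v) - T (uZ p v')‖ ≤ (p : ℝ) ^ (-(2 * k - 2 * B : ℤ)) := by
    intro v v'
    rw [map_mul]
    exact hadd C b hb p B hB k hBk.le j hj c hc hpc (uZ p v) (uZ p v') (ni_uZ p v)
      (ni_uZ_inv p v) (ni_uZ p v') (ni_uZ_inv p v')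
  have hTpow : ∀ n : ℕ, ‖T (uZ p (u ^ n)) - (n : ℚ_[p]) * T (uZ p u)‖ ≤
      (p : ℝ) ^ (-(2 * k - 2 * B : ℤ)) := by
    intro n
    induction n with
    | zero =>
      have h1 := hTadd 1 1
      rw [mul_one, sub_self, zero_sub, norm_neg] at h1
      rw [pow_zero, Nat.cast_zero, zero_mul, sub_zero]
      exact h1
    | succ n ih =>
      have h1 := hTadd (u ^ n) u
      have h2 : T (uZ p (u ^ (n + 1))) - ((n + 1 : ℕ) : ℚ_[p]) * T (uZ p u) =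
          (T (uZ p (u ^ n * u)) - T (uZ p (u ^ n)) - T (uZ p u)) +
            (T (uZ p (u ^ n)) - (n : ℚ_[p]) * T (uZ p u)) := by
        rw [pow_succ]
        push_cast
        ring
      rw [h2]
      exact (IsUltrametricDist.norm_add_le_max _ _).trans (max_le h1 ih)
  -- the first order term
  obtain ⟨y, hy⟩ := exists_pow p (u : MonoidAlgebra ℤ C) E hdiv a
  set n : ℕ := E * p ^ a with hn
  set x : MonoidAlgebra ℚ_[p] C := MonoidAlgebra.mapRingHom C (Int.castRingHom ℚ_[p]) y with hx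
  have hxc : ∀ d : C, x.coeff d = ((y.coeff d : ℤ) : ℚ_[p]) := by
    intro d
    rw [hx, MonoidAlgebra.coeff_mapRingHom]
    rfl
  have hxn : NI x := by
    intro d
    rw [hxc]
    exact Padic.norm_int_le_one _
  have hval : ((uZ p (u ^ n) : (MonoidAlgebra ℚ_[p] C)ˣ) : MonoidAlgebra ℚ_[p] C) =
      1 + (p : ℚ_[p]) ^ (a + 1) • x := by
    have h1 : ((uZ p (u ^ n) : (MonoidAlgebra ℚ_[p] C)ˣ) : MonoidAlgebra ℚ_[p] C) =
        MonoidAlgebra.mapRingHom C (Int.castRingHom ℚ_[p]) ((u : MonoidAlgebra ℤ C) ^ n) := rfl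
    have h2 : (u : MonoidAlgebra ℤ C) ^ n = 1 + ((p : ℤ) ^ (a + 1)) • y := by
      rw [← hy]
      ring
    rw [h1, h2, map_add, map_one]
    congr 1
    ext d
    rw [MonoidAlgebra.coeff_mapRingHom]
    have h3 : (((p : ℤ) ^ (a + 1)) • y).coeff d = ((p : ℤ) ^ (a + 1)) * y.coeff d := rfl
    have h4 : ((p : ℚ_[p]) ^ (a + 1) • x).coeff d = (p : ℚ_[p]) ^ (a + 1) * x.coeff d := rfl
    rw [h3, h4, hxc, eq_intCast]
    push_cast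
    ring
  have hfst1 := hfst C b hb p B hB k hBk j hj c hc hpc (uZ p (u ^ n)) (a + 1) x hxn
    (ni_uZ_inv p (u ^ n)) hval
  set w : ℚ_[p] := ((((u : MonoidAlgebra ℤ C) ^ n - 1).coeff c : ℤ) : ℚ_[p]) with hw
  have hw1 : w = (p : ℚ_[p]) ^ (a + 1) * x.coeff c := by
    have h3 : (((p : ℤ) ^ (a + 1)) • y).coeff c = ((p : ℤ) ^ (a + 1)) * y.coeff c := rfl
    rw [hw, hy, h3, hxc]
    push_cast
    ring
  have hfst2 : ‖T (uZ p (u ^ n)) - (p : ℚ_[p]) ^ k * w‖ ≤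
      (p : ℝ) ^ (-(2 * (a + 1 : ℕ) + k - B : ℤ)) := by
    have h3 : (p : ℚ_[p]) ^ k * w = (p : ℚ_[p]) ^ (k + (a + 1)) * x.coeff c := by
      rw [hw1, pow_add]
      ring
    rw [h3]
    exact hfst1
  have hmid : ‖(n : ℚ_[p]) * T (uZ p u) - (p : ℚ_[p]) ^ k * w‖ ≤
      max ((p : ℝ) ^ (-(2 * k - 2 * B : ℤ))) ((p : ℝ) ^ (-(2 * (a + 1 : ℕ) + k - B : ℤ))) := by
    have h3 : (n : ℚ_[p]) * T (uZ p u) - (p : ℚ_[p]) ^ k * w =
        -(T (uZ p (u ^ n)) - (n : ℚ_[p]) * T (uZ p u)) +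
          (T (uZ p (u ^ n)) - (p : ℚ_[p]) ^ k * w) := by
      ring
    rw [h3]
    refine (IsUltrametricDist.norm_add_le_max _ _).trans ?_
    rw [norm_neg]
    exact max_le_max (hTpow n) hfst2
  -- division
  have hpk : (p : ℚ_[p]) ^ k ≠ 0 := by
    have : (p : ℚ_[p]) ≠ 0 := by exact_mod_cast hp.out.ne_zero
    exact pow_ne_zero _ this
  have hn0 : (n : ℚ_[p]) ≠ 0 := by
    have : n ≠ 0 := Nat.mul_ne_zero hE.ne' (pow_ne_zero _ hp.out.ne_zero)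
    exact_mod_cast this
  have hnormn : ‖(n : ℚ_[p])‖ = ‖((E : ℕ) : ℚ_[p])‖ * (p : ℝ) ^ (-(a : ℤ)) := by
    rw [hn, Nat.cast_mul, norm_mul, Nat.cast_pow, Padic.norm_p_pow]
  have hnormk : ‖(p : ℚ_[p]) ^ k‖ = (p : ℝ) ^ (-(k : ℤ)) := Padic.norm_p_pow k
  have hdivn : ((p : ℚ_[p]) ^ k)⁻¹ * T (uZ p u) - w / (n : ℚ_[p]) =
      ((n : ℚ_[p]) * T (uZ p u) - (p : ℚ_[p]) ^ k * w) / ((p : ℚ_[p]) ^ k * (n : ℚ_[p])) := by
    field_simp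
  have hden : ‖(p : ℚ_[p]) ^ k * (n : ℚ_[p])‖⁻¹ =
      ‖((E : ℕ) : ℚ_[p])‖⁻¹ * (p : ℝ) ^ ((a : ℤ) + k) := by
    rw [norm_mul, hnormk, hnormn, mul_inv, mul_inv, ← _root_.zpow_neg, ← _root_.zpow_neg, neg_neg, neg_neg,
      zpow_add₀ hp0.ne']
    ring
  have hb1 : (p : ℝ) ^ (-(2 * k - 2 * B : ℤ)) * ‖(p : ℚ_[p]) ^ k * (n : ℚ_[p])‖⁻¹ ≤ ε := by
    refine le_trans (le_of_eq ?_) hk0
    rw [hden, inv_pow, ← zpow_natCast (p : ℝ) (a + 2 * B), ← zpow_natCast (p : ℝ) k, ← _root_.zpow_neg,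
      mul_assoc, ← zpow_add₀ hp0.ne', ← mul_assoc, mul_comm ((p : ℝ) ^ _) (‖((E : ℕ) : ℚ_[p])‖⁻¹),
      mul_assoc, ← zpow_add₀ hp0.ne']
    congr 2
    push_cast
    ring
  have hb2 : (p : ℝ) ^ (-(2 * (a + 1 : ℕ) + k - B : ℤ)) * ‖(p : ℚ_[p]) ^ k * (n : ℚ_[p])‖⁻¹ ≤
      ε := by
    refine le_trans ?_ hA2
    rw [hden, inv_pow, ← zpow_natCast (p : ℝ) B, ← zpow_natCast (p : ℝ) a, ← _root_.zpow_neg,
      mul_assoc (‖((E : ℕ) : ℚ_[p])‖⁻¹), ← zpow_add₀ hp0.ne', ← mul_assoc,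
      mul_comm ((p : ℝ) ^ _) (‖((E : ℕ) : ℚ_[p])‖⁻¹), mul_assoc, ← zpow_add₀ hp0.ne']
    refine mul_le_mul_of_nonneg_left ?_ (inv_nonneg.2 (norm_nonneg _))
    refine zpow_le_zpow_right₀ hp1 ?_
    push_cast
    linarith
  have hL : ‖((p : ℚ_[p]) ^ k)⁻¹ * T (uZ p u) - w / (n : ℚ_[p])‖ ≤ ε := by
    rw [hdivn, norm_div, div_eq_mul_inv]
    refine le_trans (mul_le_mul_of_nonneg_right hmid (inv_nonneg.2 (norm_nonneg _))) ?_
    rcases max_cases ((p : ℝ) ^ (-(2 * k - 2 * B : ℤ)))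
      ((p : ℝ) ^ (-(2 * (a + 1 : ℕ) + k - B : ℤ))) with h | h
    · rw [h.1]
      exact hb1
    · rw [h.1]
      exact hb2
  have hfin : ((p : ℚ_[p]) ^ k)⁻¹ * T (uZ p u) - l c =
      (((p : ℚ_[p]) ^ k)⁻¹ * T (uZ p u) - w / (n : ℚ_[p])) + (w / (n : ℚ_[p]) - l c) := by
    ring
  have hA3 : ‖w / (n : ℚ_[p]) - l c‖ ≤ ε := by
    rw [dist_eq_norm] at hA1
    exact hA1.le
  show ‖((p : ℚ_[p]) ^ k)⁻¹ * T (uZ p u) - l c‖ ≤ ε
  rw [hfin]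
  exact (IsUltrametricDist.norm_add_le_max _ _).trans (max_le hL hA3)

end Pool.Agent.FJA
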