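import Pool.Agent.FJA.St5
import Pool.Agent.FJA.P_SEC

/-!
# FJA: the module MRK

The marking of a pair is the shift between its sequence (see `P_SEC.lean`) and the representative of
the class of this sequence.
-/

set_option autoImplicit false

namespace Pool.Agent.FJA

namespace MRK

open SEC

variable {Γ : Type} [Group Γ]

lemma key {b : ℕ} (hb : TorBd Γ b) {p : ℕ} [hp : Fact p.Prime] {B k : ℕ} (hB : b < p ^ B)
    {A : ℤ → Γ} {y : Γ} (hA : ∀ n, A (n + ((p ^ k : ℕ) : ℤ)) = y * A n)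
    (hy : IsOfFinOrder y) (hpy : p ∣ orderOf y) {δ : Γ} {d : ℤ}
    (h : ∀ n, A n = δ * A (n + d)) : ((p ^ (k - B) : ℕ) : ℤ) ∣ d := by
  have hp' : p.Prime := hp.out
  have m1 : ((δ, Multiplicative.ofAdd d) : Γ × Multiplicative ℤ) ∈ stab A := fun n => h n
  have m2 : ((y⁻¹, Multiplicative.ofAdd ((p ^ k : ℕ) : ℤ)) : Γ × Multiplicative ℤ) ∈ stab A := by
    intro n
    change A n = y⁻¹ * A (n + ((p ^ k : ℕ) : ℤ))
    rw [hA, inv_mul_cancel_left]
  -- a common divisor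
  have hg : Int.gcd d ((p ^ k : ℕ) : ℤ) ∣ p ^ k := by
    have := Int.gcd_dvd_right d ((p ^ k : ℕ) : ℤ)
    exact_mod_cast this
  obtain ⟨i, hik, hi⟩ := (Nat.dvd_prime_pow hp').1 hg
  have hbez := Int.gcd_eq_gcd_ab d ((p ^ k : ℕ) : ℤ)
  obtain ⟨u, hu⟩ : ∃ u, u = Int.gcdA d ((p ^ k : ℕ) : ℤ) := ⟨_, rfl⟩
  obtain ⟨v, hv⟩ : ∃ v, v = Int.gcdB d ((p ^ k : ℕ) : ℤ) := ⟨_, rfl⟩
  rw [← hu, ← hv, hi] at hbez
  have m3 := (stab A).mul_mem ((stab A).zpow_mem m1 u) ((stab A).zpow_mem m2 v)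
  obtain ⟨ε, hε⟩ : ∃ ε, ε = δ ^ u * y⁻¹ ^ v := ⟨_, rfl⟩
  have m4 : ((ε, Multiplicative.ofAdd ((p ^ i : ℕ) : ℤ)) : Γ × Multiplicative ℤ) ∈ stab A := by
    have e : ((δ, Multiplicative.ofAdd d) : Γ × Multiplicative ℤ) ^ u *
        (y⁻¹, Multiplicative.ofAdd ((p ^ k : ℕ) : ℤ)) ^ v =
        (ε, Multiplicative.ofAdd ((p ^ i : ℕ) : ℤ)) := by
      refine Prod.ext ?_ ?_
      · simp [hε]
      · change Multiplicative.ofAdd d ^ u * Multiplicative.ofAdd ((p ^ k : ℕ) : ℤ) ^ v = _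
        rw [← ofAdd_zsmul, ← ofAdd_zsmul, ← ofAdd_add, hbez, smul_eq_mul, smul_eq_mul]
        congr 1
        ring
    rw [← e]
    exact m3
  have m5 := (stab A).pow_mem m4 (p ^ (k - i))
  have h5 : ∀ n, A n = ε ^ p ^ (k - i) * A (n + ((p ^ k : ℕ) : ℤ)) := by
    intro n
    have h6 := m5 n
    have e1 : (p ^ (k - i)) • ((p ^ i : ℕ) : ℤ) = ((p ^ k : ℕ) : ℤ) := by
      rw [nsmul_eq_mul]
      rw [← Nat.cast_mul, ← pow_add, Nat.sub_add_cancel hik]
    rw [Prod.pow_mk, ← ofAdd_nsmul, e1] at h6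
    exact h6
  have h7 : ε ^ p ^ (k - i) = y⁻¹ := by
    have h8 := h5 0
    rw [hA, ← mul_assoc] at h8
    have h9 : ε ^ p ^ (k - i) * y = 1 := by
      have := mul_right_cancel (a := (1 : Γ)) (b := A 0) (c := ε ^ p ^ (k - i) * y)
        (by rw [one_mul]; exact h8)
      exact this.symm
    exact eq_inv_of_mul_eq_one_left h9
  have hfin : IsOfFinOrder ε := by
    have : IsOfFinOrder (ε ^ p ^ (k - i)) := by
      rw [h7]
      exact hy.inv
    exact (isOfFinOrder_pow.1 this).resolve_right (pow_pos hp'.pos _).ne'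
  have hord : p ^ (k - i + 1) ∣ orderOf ε := by
    have h8 : p ∣ orderOf (ε ^ p ^ (k - i)) := by
      rw [h7, orderOf_inv]
      exact hpy
    rw [orderOf_pow' _ (pow_pos hp'.pos _).ne'] at h8
    by_contra hcon
    obtain ⟨m, hm, hm'⟩ := (Nat.dvd_prime_pow hp').1 (Nat.gcd_dvd_right (orderOf ε) (p ^ (k - i)))
    rw [hm'] at h8
    have h9 : p ^ m ∣ orderOf ε := by
      rw [← hm']
      exact Nat.gcd_dvd_left _ _
    have h10 : p ^ (m + 1) ∣ orderOf ε := by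
      rw [pow_succ]
      exact Nat.mul_dvd_of_dvd_div h9 h8
    rcases Nat.lt_or_ge m (k - i) with hlt | hge
    · have h11 : p ^ (m + 1) ∣ p ^ m := by
        rw [← hm']
        exact Nat.dvd_gcd h10 (pow_dvd_pow p hlt)
      exact absurd (Nat.le_of_dvd (pow_pos hp'.pos _) h11)
        (not_le.2 (Nat.pow_lt_pow_right hp'.one_lt (Nat.lt_succ_self m)))
    · have : m = k - i := le_antisymm hm hge
      rw [this] at h10
      exact hcon h10
  have h12 : p ^ (k - i + 1) < p ^ B :=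
    lt_of_le_of_lt ((Nat.le_of_dvd hfin.orderOf_pos hord).trans (hb ε hfin)) hB
  have h13 := (Nat.pow_lt_pow_iff_right hp'.one_lt).1 h12
  have h14 : p ^ (k - B) ∣ p ^ i := pow_dvd_pow p (by omega)
  have h15 : ((p ^ i : ℕ) : ℤ) ∣ d := by
    rw [← hi]
    exact Int.gcd_dvd_left d _
  exact (Int.natCast_dvd_natCast.2 h14).trans h15

/-- the domain of the marking -/
def Dom (p k : ℕ) (Y : List Γ) (y : Γ) : Prop :=
  Y.length = p ^ k ∧ IsOfFinOrder y ∧ p ∣ orderOf y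

open Classical in
/-- the marking -/
noncomputable def mrk (p k B : ℕ) (Y : List Γ) (y : Γ) : ZMod (p ^ (k - B)) :=
  if Dom p k Y y then (((rep_spec (sq Y y)).choose_spec.choose : ℤ) : ZMod (p ^ (k - B))) else 0

lemma mrk_eq {b : ℕ} (hb : TorBd Γ b) {p : ℕ} [hp : Fact p.Prime] {B k : ℕ} (hB : b < p ^ B)
    {Y : List Γ} {y : Γ} (hD : Dom p k Y y) {γ : Γ} {m : ℤ}
    (h : ∀ n, sq Y y n = γ * rep (sq Y y) (n + m)) : mrk p k B Y y = (m : ZMod (p ^ (k - B))) := by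
  classical
  rw [mrk, if_pos hD]
  obtain ⟨m', hm'⟩ : ∃ m', m' = (rep_spec (sq Y y)).choose_spec.choose := ⟨_, rfl⟩
  have h' := (rep_spec (sq Y y)).choose_spec.choose_spec
  rw [← hm'] at h' ⊢
  obtain ⟨γ', hγ'⟩ : ∃ γ', γ' = (rep_spec (sq Y y)).choose := ⟨_, rfl⟩
  rw [← hγ'] at h'
  have hY : Y ≠ [] := by
    rintro rfl
    have := hD.1
    rw [List.length_nil] at this
    exact (pow_pos hp.out.pos k).ne this
  have hA : ∀ n, sq Y y (n + ((p ^ k : ℕ) : ℤ)) = y * sq Y y n := by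
    intro n
    rw [← hD.1]
    exact sq_add hY y n
  have h1 : ∀ n, sq Y y n = γ * γ'⁻¹ * sq Y y (n + (m - m')) := by
    intro n
    rw [h n, h' (n + (m - m')), show n + (m - m') + m' = n + m by ring]
    group
  have h2 := key hb hB hA hD.2.1 hD.2.2 h1
  have h3 := (ZMod.intCast_zmod_eq_zero_iff_dvd (m - m') (p ^ (k - B))).2 h2
  rw [Int.cast_sub, sub_eq_zero] at h3
  exact h3.symm

lemma rep_congr {A B : ℤ → Γ} (δ : Γ) (l : ℤ) (h : ∀ n, B n = δ * A (n + l)) : rep B = rep A := by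
  unfold rep
  have : (Quotient.mk rel B) = Quotient.mk rel A := Quotient.sound (s := rel) ⟨δ, l, h⟩
  rw [this]

end MRK

open MRK SEC in
/-- MODULE MRK -/
theorem t_MRK : S_MRK := by
  classical
  intro Γ _ b hb p hp B hB k hk
  refine ⟨mrk p k B, ?_, ?_⟩
  · intro γ Y y
    have hiff : Dom p k (Y.map (γ * ·)) (γ * y * γ⁻¹) ↔ Dom p k Y y := by
      have e2 : orderOf (γ * y * γ⁻¹) = orderOf y := by
        have := (MulAut.conj γ).orderOf_eq y
        simpa using this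
      have e1 : IsOfFinOrder (γ * y * γ⁻¹) ↔ IsOfFinOrder y := by
        rw [← orderOf_pos_iff, ← orderOf_pos_iff, e2]
      unfold Dom
      rw [List.length_map, e1, e2]
    by_cases hD : Dom p k Y y
    · have hY : Y ≠ [] := by
        rintro rfl
        have := hD.1
        rw [List.length_nil] at this
        exact (pow_pos hp.out.pos k).ne this
      obtain ⟨δ, m, h⟩ := rep_spec (sq Y y)
      rw [mrk_eq hb hB hD h]
      have hc := sq_conj hY γ y
      have hr : rep (sq (Y.map (γ * ·)) (γ * y * γ⁻¹)) = rep (sq Y y) :=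
        rep_congr γ 0 fun n => by rw [hc, add_zero]
      refine mrk_eq hb hB (hiff.2 hD) (γ := γ * δ) (m := m) fun n => ?_
      rw [hc, hr, h n, mul_assoc]
    · rw [mrk, mrk, if_neg hD, if_neg (fun h => hD (hiff.1 h))]
  · intro a Y y hl hf hpo
    have hD1 : Dom p k (Y ++ [y * a]) y := ⟨by simpa using hl, hf, hpo⟩
    have hD2 : Dom p k (a :: Y) y := ⟨by simpa using hl, hf, hpo⟩
    obtain ⟨δ, m, h⟩ := rep_spec (sq (a :: Y) y)
    rw [mrk_eq hb hB hD2 h]
    have hc := sq_rot a Y y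
    have hr : rep (sq (Y ++ [y * a]) y) = rep (sq (a :: Y) y) :=
      rep_congr 1 1 fun n => by rw [hc, one_mul]
    have h1 := mrk_eq hb hB hD1 (γ := δ) (m := m + 1) fun n => by
      rw [hc, hr, h (n + 1)]
      congr 2
      ring
    rw [h1]
    push_cast
    rfl

end Pool.Agent.FJA
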