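import Pool.Agent.FJA.St5
import Pool.Agent.FJA.P_EVS
import Pool.Agent.FJA.P_MEX
import Pool.Agent.FJA.P_SCH

/-!
# PSB: `psiM` is a null function with bounded denominators
-/

set_option autoImplicit false

noncomputable section

namespace Pool.Agent.FJA

namespace PSB

variable {Γ : Type} [Group Γ]

/-- the condition in the definition of `psiM` -/
def Cond {V : Type} (p k : ℕ) (μ : Rec Γ V) : Prop :=
  (∀ i, (μ.lst i).length = p ^ k) ∧ IsOfFinOrder μ.val ∧ p ∣ orderOf μ.val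

theorem psi_pos {M : ℕ} (p k B : ℕ) (F : (Fin (M + 1) → Γ) → Γ → ℚ)
    (s : List Γ → Γ → (Γ →₀ ℚ)) (j : List Γ → Γ → ZMod (p ^ (k - B))) (μ : Rec Γ (Fin (M + 2)))
    (h : Cond p k μ) : psiM p k B F s j μ = evs F s (Rec.res Fin.castSucc μ) *
      (((j (μ.lst (Fin.last (M + 1))) μ.val - j (μ.lst (Fin.last M).castSucc) μ.val).val : ℕ) :
        ℚ) := by
  unfold psiM
  exact if_pos h

theorem psi_neg {M : ℕ} (p k B : ℕ) (F : (Fin (M + 1) → Γ) → Γ → ℚ)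
    (s : List Γ → Γ → (Γ →₀ ℚ)) (j : List Γ → Γ → ZMod (p ^ (k - B))) (μ : Rec Γ (Fin (M + 2)))
    (h : ¬ Cond p k μ) : psiM p k B F s j μ = 0 := by
  unfold psiM
  exact if_neg h

theorem order_conj (γ y : Γ) : orderOf (γ * y * γ⁻¹) = orderOf y :=
  orderOf_injective (MulAut.conj γ).toMonoidHom (MulAut.conj γ).injective y

theorem evs_cj {σ : Γ →* Multiplicative ℤ} {M c : ℕ} {F : (Fin (M + 1) → Γ) → Γ → ℚ}
    {s : List Γ → Γ → (Γ →₀ ℚ)} (hF : Coch σ M F) (hs : SecR c s) (γ : Γ)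
    (ν : Rec Γ (Fin (M + 1))) : evs F s (Rec.inc γ * ν) = evs F s (ν * Rec.inc γ) :=
  (t_EVS t_MEX Γ σ M F s hF hs.sec).1 hs.rot _ _

theorem evs_flat {σ : Γ →* Multiplicative ℤ} {M : ℕ} {F : (Fin (M + 1) → Γ) → Γ → ℚ}
    {s : List Γ → Γ → (Γ →₀ ℚ)} (hF : Coch σ M F) (hs : Sec s) (ν : Rec Γ (Fin (M + 1)))
    (hν : IsOfFinOrder ν.val) (hfl : Flat σ ν) : evs F s ν = 0 := by
  by_cases hc : ∀ i, ν.lst i ≠ []
  · rw [EVS.evs_pos F s _ hc]
    refine (t_MEX Γ (M + 1)).2.2.2.2.2 _ _ fun x hx => ?_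
    apply hF.flat
    have hσ : σ ν.val = 1 := SCH.sigma_one hν
    have hm : ∀ i, ∃ a ∈ ν.lst i, σ (x i) = σ a := by
      intro i
      obtain ⟨t, a, ha, hba⟩ := hs.supp _ _ hν (x i) (hx i)
      exact ⟨a, ha, by rw [hba, map_mul, map_zpow, hσ, _root_.one_zpow, one_mul]⟩
    intro i i'
    obtain ⟨a, ha, h1⟩ := hm i
    obtain ⟨a', ha', h2⟩ := hm i'
    rw [h1, h2]
    exact hfl i i' a a' ha ha'
  · exact EVS.evs_neg F s _ hc

theorem null {σ : Γ →* Multiplicative ℤ} {p B M c : ℕ} {F : (Fin (M + 1) → Γ) → Γ → ℚ}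
    {s : List Γ → Γ → (Γ →₀ ℚ)} (hF : Coch σ M F) (hs : SecR c s) (k : ℕ)
    (j : List Γ → Γ → ZMod (p ^ (k - B))) (hj : Mrk Γ p k B j) :
    NullFun σ (psiM p k B F s j) := by
  refine ⟨?_, ?_, ?_⟩
  · intro γ μ
    have hl1 : ∀ i, (Rec.inc γ * μ).lst i = (μ.lst i).map (γ * ·) := by
      intro i
      simp
    have hl2 : ∀ i, (μ * Rec.inc γ).lst i = μ.lst i := by
      intro i
      simp
    have hv1 : (Rec.inc γ * μ).val = γ * (μ.val * γ) * γ⁻¹ := by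
      simp [mul_assoc]
    have hv2 : (μ * Rec.inc γ).val = μ.val * γ := by simp
    have hiff : Cond p k (Rec.inc γ * μ) ↔ Cond p k (μ * Rec.inc γ) := by
      unfold Cond
      rw [hv1, hv2, SCH.conj_fin, order_conj]
      simp only [hl1, hl2, List.length_map]
    by_cases h : Cond p k (μ * Rec.inc γ)
    · rw [psi_pos _ _ _ _ _ _ _ h, psi_pos _ _ _ _ _ _ _ (hiff.2 h), map_mul, map_mul,
        Rec.res_inc, evs_cj hF hs]
      simp only [hl1, hl2, hv1, hv2, hj.cj]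
    · rw [psi_neg _ _ _ _ _ _ _ h, psi_neg _ _ _ _ _ _ _ (mt hiff.1 h)]
  · intro μ h
    by_contra hf
    exact h (psi_neg _ _ _ _ _ _ _ fun h' => hf h'.2.1)
  · intro μ hfl
    by_cases h : Cond p k μ
    · rw [psi_pos _ _ _ _ _ _ _ h, evs_flat hF hs.sec (Rec.res Fin.castSucc μ) h.2.1, zero_mul]
      intro i i' a a' ha ha'
      exact hfl _ _ a a' ha ha'
    · exact psi_neg _ _ _ _ _ _ _ h

end PSB

open PSB in
theorem t_PSB : S_PSB := by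
  intro Γ _ σ p B M c F s hF hs
  refine ⟨fun k j hj => null hF hs k j hj, fun hc => ?_⟩
  obtain ⟨D, hD⟩ := (t_EVS t_MEX Γ σ M F s hF hs.sec).2.1 c hs.den
  obtain ⟨hD0, hDz⟩ := hD hc
  refine ⟨D, hD0, hDz, fun k j μ => ?_⟩
  by_cases h : Cond p k μ
  · obtain ⟨z, hz⟩ := hDz (Rec.res Fin.castSucc μ)
    refine ⟨z * (((j (μ.lst (Fin.last (M + 1))) μ.val -
      j (μ.lst (Fin.last M).castSucc) μ.val).val : ℕ) : ℤ), ?_⟩
    rw [psi_pos _ _ _ _ _ _ _ h, ← mul_assoc, hz]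
    push_cast
    rfl
  · exact ⟨0, by rw [psi_neg _ _ _ _ _ _ _ h]; simp⟩

end Pool.Agent.FJA
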