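import Pool.Agent.FJA.St6

/-!
# Module TWI: twists of recorded paths
-/

set_option autoImplicit false

open Matrix

noncomputable section

namespace Pool.Agent.FJA

namespace TWI

variable {k : Type} [Field k] {Γ' Γ : Type} [Group Γ'] [Group Γ] (f : Γ' →* Γ) (ι : Type)
  [Fintype ι] [DecidableEq ι] {V : Type} (γ : V → Γ)

/-- the twist as a homomorphism -/
def twH (hγ : ∀ i x, Commute (γ i) (f x)) : Rec Γ' V →* Rec Γ V where
  toFun := twR f γ
  map_one' := by
    apply Rec.ext
    · funext i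
      rfl
    · exact map_one f
  map_mul' μ ν := by
    apply Rec.ext
    · funext i
      change (μ.lst i ++ (ν.lst i).map (μ.val * ·)).map (fun x => γ i * f x) =
        (μ.lst i).map (fun x => γ i * f x) ++
          ((ν.lst i).map (fun x => γ i * f x)).map (f μ.val * ·)
      rw [List.map_append, List.map_map, List.map_map]
      congr 2
      funext x
      change γ i * f (μ.val * x) = f μ.val * (γ i * f x)
      rw [map_mul, ← mul_assoc, ← mul_assoc, (hγ i μ.val).eq]
    · exact map_mul f _ _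

/-- the homomorphism of matrices over `k[Γ']` induced by `f` -/
def mG : Matrix ι ι (MonoidAlgebra k Γ') →+* Matrix ι ι (MonoidAlgebra k Γ) :=
  (MonoidAlgebra.mapDomainRingHom k f).mapMatrix

/-- the homomorphism of matrices over recorded paths induced by the twist -/
def mT (hγ : ∀ i x, Commute (γ i) (f x)) : Matrix ι ι (MonoidAlgebra k (Rec Γ' V)) →+*
    Matrix ι ι (MonoidAlgebra k (Rec Γ V)) :=
  (MonoidAlgebra.mapDomainRingHom k (twH f γ hγ)).mapMatrix

theorem jm_mG (hγ : ∀ i x, Commute (γ i) (f x)) (x : Matrix ι ι (MonoidAlgebra k Γ')) :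
    jm k V (mG f ι x) = mT f ι γ hγ (jm k V x) := by
  ext i j : 1
  show MonoidAlgebra.mapDomainRingHom k (Rec.inc (Γ := Γ) (V := V))
      (MonoidAlgebra.mapDomainRingHom k f (x i j)) =
    MonoidAlgebra.mapDomainRingHom k (twH f γ hγ)
      (MonoidAlgebra.mapDomainRingHom k (Rec.inc (Γ := Γ') (V := V)) (x i j))
  rw [← RingHom.comp_apply, ← RingHom.comp_apply]
  congr 1
  refine MonoidAlgebra.ringHom_ext ?_ ?_
  · intro r
    simp
  · intro g
    simp only [RingHom.comp_apply, MonoidAlgebra.mapDomainRingHom_apply,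
      MonoidAlgebra.mapDomain_single]
    rfl

/-- the scalar matrix of an element of the monoid of recorded paths -/
def dg (μ : Rec Γ V) : Matrix ι ι (MonoidAlgebra k (Rec Γ V)) :=
  Matrix.diagonal fun _ => MonoidAlgebra.single μ 1

theorem dg_mul (μ ν : Rec Γ V) : (dg ι μ * dg ι ν : Matrix ι ι (MonoidAlgebra k (Rec Γ V))) =
    dg ι (μ * ν) := by
  unfold dg
  rw [Matrix.diagonal_mul_diagonal]
  congr 1
  funext _
  rw [MonoidAlgebra.single_mul_single, one_mul]

theorem jm_scl (g : Γ) : jm k V ((sclU k ι g : (Matrix ι ι (MonoidAlgebra k Γ))ˣ) :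
    Matrix ι ι (MonoidAlgebra k Γ)) = dg ι (Rec.inc g) := by
  have h1 : ((sclU k ι g : (Matrix ι ι (MonoidAlgebra k Γ))ˣ) : Matrix ι ι (MonoidAlgebra k Γ)) =
      Matrix.diagonal fun _ => MonoidAlgebra.single g 1 := rfl
  rw [h1]
  unfold jm dg
  rw [RingHom.mapMatrix_apply, Matrix.diagonal_map (map_zero _)]
  congr 1
  funext _
  rw [MonoidAlgebra.mapDomainRingHom_apply, MonoidAlgebra.mapDomain_single]

theorem wm_mT [DecidableEq V] (hγ : ∀ i x, Commute (γ i) (f x)) (v : V) :
    (dg ι (Rec.inc (γ v)) * wm k ι v * dg ι (Rec.inc (γ v)⁻¹) :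
      Matrix ι ι (MonoidAlgebra k (Rec Γ V))) = mT f ι γ hγ (wm k ι v) := by
  have h0 : (wm k ι v : Matrix ι ι (MonoidAlgebra k (Rec Γ V))) = dg ι (Rec.om v) := rfl
  rw [h0, dg_mul, dg_mul]
  unfold mT wm dg
  rw [RingHom.mapMatrix_apply, Matrix.diagonal_map (map_zero _)]
  congr 1
  funext _
  rw [MonoidAlgebra.mapDomainRingHom_apply, MonoidAlgebra.mapDomain_single]
  congr 1
  apply Rec.ext
  · funext i
    change ([] ++ (if i = v then [(1 : Γ)] else []).map (γ v * ·)) ++ [].map _ =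
      (if i = v then [(1 : Γ')] else []).map (fun x => γ i * f x)
    split_ifs with h
    · subst h
      simp
    · rfl
  · change γ v * 1 * (γ v)⁻¹ = f 1
    rw [mul_one, mul_inv_cancel, map_one]

theorem comm_single (g : Γ) (hg : ∀ x, Commute g (f x)) (x : MonoidAlgebra k Γ') :
    MonoidAlgebra.single g 1 * MonoidAlgebra.mapDomainRingHom k f x =
      MonoidAlgebra.mapDomainRingHom k f x * MonoidAlgebra.single g 1 := by
  induction x using MonoidAlgebra.induction_linear with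
  | zero => simp
  | add a b ha hb => rw [map_add, mul_add, add_mul, ha, hb]
  | single y c =>
    rw [MonoidAlgebra.mapDomainRingHom_apply, MonoidAlgebra.mapDomain_single,
      MonoidAlgebra.single_mul_single, MonoidAlgebra.single_mul_single, (hg y).eq, one_mul,
      mul_one]

theorem comm_scl (g : Γ) (hg : ∀ x, Commute g (f x)) (X : (Matrix ι ι (MonoidAlgebra k Γ'))ˣ) :
    sclU k ι g * glG f X = glG f X * sclU k ι g := by
  apply Units.ext
  rw [Units.val_mul, Units.val_mul]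
  have h1 : ((sclU k ι g : (Matrix ι ι (MonoidAlgebra k Γ))ˣ) : Matrix ι ι (MonoidAlgebra k Γ)) =
      Matrix.diagonal fun _ => MonoidAlgebra.single g 1 := rfl
  have h2 : ((glG f X : (Matrix ι ι (MonoidAlgebra k Γ))ˣ) : Matrix ι ι (MonoidAlgebra k Γ)) =
      mG f ι (X : Matrix ι ι (MonoidAlgebra k Γ')) := rfl
  rw [h1, h2]
  ext i j : 1
  rw [Matrix.diagonal_mul, Matrix.mul_diagonal]
  exact comm_single f g hg _

theorem UX_mT {M : ℕ} (γ : Fin M → Γ) (hγ : ∀ i x, Commute (γ i) (f x))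
    (X : Fin M → (Matrix ι ι (MonoidAlgebra k Γ'))ˣ) :
    UX (fun i => sclU k ι (γ i) * glG f (X i)) = mT f ι γ hγ (UX X) := by
  unfold UX
  rw [map_list_prod, List.map_ofFn]
  congr 2
  funext i
  have h1 : ((glG f (X i) : (Matrix ι ι (MonoidAlgebra k Γ))ˣ) : Matrix ι ι (MonoidAlgebra k Γ)) =
      mG f ι (X i : Matrix ι ι (MonoidAlgebra k Γ')) := rfl
  have h2 : (((glG f (X i))⁻¹ : (Matrix ι ι (MonoidAlgebra k Γ))ˣ) :
      Matrix ι ι (MonoidAlgebra k Γ)) =
      mG f ι (((X i)⁻¹ : (Matrix ι ι (MonoidAlgebra k Γ'))ˣ) : Matrix ι ι (MonoidAlgebra k Γ')) := rfl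
  have h3 : (sclU k ι (γ i) * glG f (X i))⁻¹ = sclU k ι (γ i)⁻¹ * (glG f (X i))⁻¹ := by
    rw [comm_scl f ι (γ i) (hγ i), _root_.mul_inv_rev, map_inv]
  have h4 : (fun i => sclU k ι (γ i) * glG f (X i)) i = glG f (X i) * sclU k ι (γ i) :=
    comm_scl f ι (γ i) (hγ i) (X i)
  rw [h3, h4, Units.val_mul, Units.val_mul, map_mul, map_mul, h1, h2,
    jm_scl, jm_scl, jm_mG f ι γ hγ, jm_mG f ι γ hγ, Function.comp_apply, map_mul, map_mul,
    ← wm_mT f ι γ hγ]
  simp only [mul_assoc]

theorem lin_twH (hγ : ∀ i x, Commute (γ i) (f x)) (φ : Rec Γ V → ℚ)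
    (x : MonoidAlgebra k (Rec Γ' V)) :
    lin k φ (MonoidAlgebra.mapDomainRingHom k (twH f γ hγ) x) =
      lin k (fun μ => φ (twR f γ μ)) x := by
  induction x using MonoidAlgebra.induction_linear with
  | zero => simp
  | add a b ha hb => rw [map_add, map_add, map_add, ha, hb]
  | single μ c =>
    rw [MonoidAlgebra.mapDomainRingHom_apply, MonoidAlgebra.mapDomain_single, lin_single,
      lin_single]
    rfl

end TWI

theorem t_TWI : S_TWI := by
  intro k _ _ Γ' Γ _ _ f ι _ _ M N φ γ hγ X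
  unfold TX
  rw [TWI.UX_mT f ι γ hγ, ← map_pow, ← TWI.lin_twH f γ hγ]
  congr 1
  rw [Matrix.trace, Matrix.trace, map_sum]
  rfl

end Pool.Agent.FJA
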