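import Pool.Agent.FJA.St6
import Pool.Agent.FJA.P_SEC
import Pool.Agent.FJA.P_RLP
import Pool.Agent.FJA.P_LAU
import Pool.Agent.FJA.P_KIL

/-!
# Module CON: the conclusion for the units
-/

set_option autoImplicit false

open Matrix Pool.Agent.WhK Pool.Agent.Lib25

noncomputable section

namespace Pool.Agent.FJA

namespace CON

/-- Every element of the cyclic group is a power of the generator. -/
theorem mem_gen {N : ℕ} (c : Cyc N) : c ∈ Subgroup.zpowers (gen N) := by
  obtain ⟨k, hk⟩ := ZMod.intCast_surjective (Multiplicative.toAdd c)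
  refine ⟨k, ?_⟩
  apply Multiplicative.toAdd.injective
  simp [← hk]

theorem mem_zp {N : ℕ} {G : Type} [Group G] (φ : Cyc N →* G) (c : Cyc N) :
    φ c ∈ Subgroup.zpowers (φ (gen N)) := by
  obtain ⟨k, hk⟩ := mem_gen c
  refine ⟨k, ?_⟩
  rw [← hk]
  exact (map_zpow φ _ _).symm

/-- The functional vanishes for the zero function. -/
theorem TX_zero (k : Type) [Field k] {Γ : Type} [Group Γ] {ι : Type} [Fintype ι]
    [DecidableEq ι] {M N : ℕ} (X : Fin M → (Matrix ι ι (MonoidAlgebra k Γ))ˣ) :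
    TX (fun _ : Rec Γ (Fin M) => (0 : ℚ)) N X = 0 := by
  unfold TX
  rw [lin_apply]
  simp [Finsupp.sum]

/-- The simplices of `Γ` do not contribute. -/
theorem TX_mon (htwi : S_TWI) {G : Type} [Group G] (p : ℕ) [Fact p.Prime] (k B M N : ℕ)
    (F : (Fin (M + 1) → G × Multiplicative ℤ) → G × Multiplicative ℤ → ℚ)
    (s : List (G × Multiplicative ℤ) → G × Multiplicative ℤ → (G × Multiplicative ℤ →₀ ℚ))
    (j : List (G × Multiplicative ℤ) → G × Multiplicative ℤ → ZMod (p ^ (k - B)))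
    (X : Fin (M + 2) → G × Multiplicative ℤ) :
    TX (psiM p k B F s j) N (fun i => cvt ℚ_[p] 1 (gl1 (mon (G := G)) (X i))) = 0 := by
  have h1 := htwi ℚ_[p] (Multiplicative (Fin 1)) (G × Multiplicative ℤ) 1 (Fin 1) (M + 2) N
    (psiM p k B F s j) X (fun i x => by
      rw [MonoidHom.one_apply]
      exact Commute.one_right _) (fun _ => 1)
  have h2 : (fun i => cvt ℚ_[p] 1 (gl1 (mon (G := G)) (X i))) =
      fun i : Fin (M + 2) => sclU ℚ_[p] (Fin 1) (X i) * glG (k := ℚ_[p]) (Γ' :=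
        Multiplicative (Fin 1)) (Γ := G × Multiplicative ℤ) (ι := Fin 1) 1 1 := by
    funext i
    rw [map_one, mul_one]
    apply Units.ext
    refine Matrix.ext fun a b => ?_
    change lauZ ℚ_[p] G ((Matrix.diagonal fun _ => mon (X i)) a b) =
      (Matrix.diagonal fun _ => MonoidAlgebra.of ℚ_[p] (G × Multiplicative ℤ) (X i)) a b
    have hab : a = b := Subsingleton.elim _ _
    subst hab
    rw [Matrix.diagonal_apply_eq, Matrix.diagonal_apply_eq]
    have h3 : mon (X i) = (AddMonoidAlgebra.single (Multiplicative.toAdd (X i).2)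
      (MonoidAlgebra.single (X i).1 1) : LaurentPolynomial (MonoidAlgebra ℤ G)) := rfl
    rw [h3, LAU.lauZ_single]
    simp
  rw [h2, h1]
  have h4 : (fun μ : Rec (Multiplicative (Fin 1)) (Fin (M + 2)) =>
      psiM p k B F s j (twR 1 X μ)) = fun _ => 0 := by
    funext μ
    unfold psiM
    rw [if_neg]
    rintro ⟨-, -, h5⟩
    have h6 : (twR (1 : Multiplicative (Fin 1) →* G × Multiplicative ℤ) X μ).val = 1 := rfl
    rw [h6, orderOf_one] at h5
    exact (Fact.out : p.Prime).one_lt.ne' (Nat.dvd_one.1 h5)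
  rw [h4]
  exact TX_zero _ _

theorem TS_mon (htwi : S_TWI) {G : Type} [Group G] (p : ℕ) [Fact p.Prime] (k B M N : ℕ)
    (F : (Fin (M + 1) → G × Multiplicative ℤ) → G × Multiplicative ℤ → ℚ)
    (s : List (G × Multiplicative ℤ) → G × Multiplicative ℤ → (G × Multiplicative ℤ →₀ ℚ))
    (j : List (G × Multiplicative ℤ) → G × Multiplicative ℤ → ZMod (p ^ (k - B)))
    (w : (Fin (M + 2) → G × Multiplicative ℤ) →₀ ℚ) :
    TS ℚ_[p] (psiM p k B F s j) N (kinS (LaurentPolynomial (MonoidAlgebra ℤ G)) (M + 2) 1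
      (hmap ℚ (gl1 mon) (M + 2) w)) = 0 := by
  induction w using Finsupp.induction_linear with
  | zero => rw [map_zero, map_zero, map_zero]
  | add x y hx hy => rw [map_add, map_add, map_add, hx, hy, add_zero]
  | single X c =>
    have h1 : hmap ℚ (gl1 (mon (G := G))) (M + 2) (Finsupp.single X c) =
        Finsupp.single (fun i => gl1 mon (X i)) c := Finsupp.mapDomain_single
    have h2 : kinS (LaurentPolynomial (MonoidAlgebra ℤ G)) (M + 2) 1
        (Finsupp.single (fun i => gl1 mon (X i)) c) =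
        Finsupp.single ⟨1, fun i => gl1 mon (X i)⟩ c := Finsupp.mapDomain_single
    rw [h1, h2]
    unfold TS
    rw [Finsupp.linearCombination_single, TX_mon htwi, smul_zero]

/-- The restriction of a marking is a marking. -/
theorem mrk_rsJ {C G : Type} [Group C] [Group G] {p k B : ℕ} (φ : C →* G)
    (hφ : Function.Injective φ)
    {j : List (G × Multiplicative ℤ) → G × Multiplicative ℤ → ZMod (p ^ (k - B))}
    (hj : Mrk (G × Multiplicative ℤ) p k B j) : Mrk C p k B (rsJ φ j) := by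
  have hinj : Function.Injective ((MonoidHom.inl G (Multiplicative ℤ)).comp φ) := by
    intro a b hab
    exact hφ (congrArg Prod.fst hab)
  constructor
  · intro γ Y y
    have h1 := hj.cj (φ γ, 1) (Y.map fun x => (φ x, 1)) (φ y, 1)
    unfold rsJ
    rw [← h1]
    congr 1
    · rw [List.map_map, List.map_map]
      apply List.map_congr_left
      intro x _
      apply Prod.ext
      · simp
      · simp
    · apply Prod.ext
      · simp
      · simp
  · intro a Y y hY hy hpy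
    have h1 := hj.rot (φ a, 1) (Y.map fun x => (φ x, 1)) (φ y, 1)
      (by rw [List.length_map]; exact hY)
      (((MonoidHom.inl G (Multiplicative ℤ)).comp φ).isOfFinOrder hy)
      (by
        have h2 := orderOf_injective ((MonoidHom.inl G (Multiplicative ℤ)).comp φ) hinj y
        have h3 : ((MonoidHom.inl G (Multiplicative ℤ)).comp φ) y = (φ y, 1) := rfl
        rw [h3] at h2
        rw [h2]
        exact hpy)
    unfold rsJ
    rw [List.map_append, List.map_cons, List.map_nil, List.map_cons, ← h1]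
    congr 3
    · simp

theorem evc_zero {G : Type} [Group G] {m : ℕ} {S : G → Prop} {F : (Fin (m + 1) → G) → G → ℚ}
    (hF : GCoch m S F) {P : Type} (j : P → G) (w : (Fin (m + 1) → P) →₀ ℚ) {y : G}
    (hy : ¬ S y) : evc j F w y = 0 := by
  unfold evc
  refine Finset.sum_eq_zero fun z _ => ?_
  have h1 : F (fun i => j (z i)) y = 0 := by
    by_contra h
    exact hy (hF.supp _ _ h)
  simp only [h1, mul_zero]

theorem zpowers_top {N N1 : ℕ} [NeZero N] (hN : N ≤ N1) {c : Cyc N} (hc : orderOf c = N1) :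
    Subgroup.zpowers c = ⊤ := by
  apply Subgroup.eq_top_of_le_card
  rw [Nat.card_zpowers, hc]
  have h1 : Nat.card (Cyc N) = N := by
    rw [Nat.card_congr (Multiplicative.toAdd : Multiplicative (ZMod N) ≃ ZMod N), Nat.card_zmod]
  rw [h1]
  exact hN

end CON

open CON in
/-- **Module CON** -/
theorem t_CON (hlam : S_LAM) (hev1 : S_EV1) (hlim : S_LIM) (hbas : S_BAS) (hmrk : S_MRK)
    (htwi : S_TWI) : S_CON := by
  intro G _ bG hG p _ m N1 hN1 hpN1 S F0 hS hF0 D e v hloc w0 I t q N _ φ u l w hN hinj hlog hw hrel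
  obtain ⟨F, hF, hB, hev⟩ := hbas G m N1 hN1 S F0 hS hF0
  have hgoal : ∀ i, ∀ c : Cyc (N i),
      evc (fun z : Cen (φ i (gen (N i))) => (z : G)) F0 (w i) (φ i c) =
      evc (fun z : Cen (φ i (gen (N i))) => (z : G)) F (w i) (φ i c) := fun i c =>
    (hev (φ i (gen (N i))) (φ i c) (mem_zp (φ i) c) (w i) (hw i)).symm
  simp only [hgoal]
  obtain ⟨s, hs1, hs2, hs3⟩ := t_SEC (G × Multiplicative ℤ) bG (RLP.torBd hG)
  have hs : SecR bG.factorial s := ⟨hs1, hs2, hs3⟩
  have hp : p.Prime := Fact.out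
  have hpB : bG < p ^ bG := Nat.lt_pow_self hp.one_lt
  have hSf : ∀ y, S y → IsOfFinOrder y := fun y hy => by
    rw [← orderOf_pos_iff, hS y hy]
    exact hN1
  have hSp : ∀ y, S y → IsOfFinOrder y ∧ p ∣ orderOf y := fun y hy =>
    ⟨hSf y hy, by rw [hS y hy]; exact hpN1⟩
  obtain ⟨C, hC⟩ := hlam G bG hG p bG hpB m bG.factorial (Nat.factorial_pos _) S F hSf hF s hs
    D e v hloc _ hrel
  have hord : ∀ i, ∀ c : Cyc (N i), orderOf (φ i c) = orderOf c := fun i c =>
    orderOf_injective (φ i) (hinj i) c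
  have htop : ∀ i, ∀ c : Cyc (N i), S (φ i c) → Subgroup.zpowers c = ⊤ := fun i c hc =>
    zpowers_top (hN i) (by rw [← hord i c]; exact hS _ hc)
  -- the value on the chains of the units
  set a : ∀ i, Cyc (N i) → ℚ_[p] := fun i c =>
    ((evc (fun z : Cen (φ i (gen (N i))) => (z : G)) F (w i) (φ i c) : ℚ) : ℚ_[p]) with ha
  have hval : ∀ k, bG ≤ k →
      ∀ j : List (G × Multiplicative ℤ) → G × Multiplicative ℤ → ZMod (p ^ (k - bG)),
      Mrk (G × Multiplicative ℤ) p k bG j →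
      ‖∑ i ∈ t, (q i : ℚ_[p]) * ∑ c : Cyc (N i), a i c *
        TX (lamM p k bG (rsJ (φ i) j) c) (p ^ k) ![1, sc (uZ p (u i))]‖ ≤
        C * (p : ℝ) ^ (-(2 * k : ℤ)) := by
    intro k hk j hj
    have h1 := hC k hk j hj
    rw [map_add, TS_mon htwi, zero_add, map_sum] at h1
    have h2 : ∑ i ∈ t, TS ℚ_[p] (psiM p k bG (cup F) s j) (p ^ k)
        (q i • E1 m (φ i) (u i) (w i)) = ∑ i ∈ t, (q i : ℚ_[p]) * ∑ c : Cyc (N i), a i c *
        TX (lamM p k bG (rsJ (φ i) j) c) (p ^ k) ![1, sc (uZ p (u i))] := by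
      refine Finset.sum_congr rfl fun i _ => ?_
      rw [map_smul, hev1 G p k bG m bG.factorial (N i) (φ i) (hinj i) S F hSp (htop i) hF hB s hs
        j hj (u i) (w i), Rat.smul_def]
    rw [h2] at h1
    exact h1
  -- the limits
  have hK : ∀ ε : ℝ, 0 < ε → ∀ i, ∃ K : ℕ, ∀ k, K ≤ k → ∀ c : Cyc (N i), S (φ i c) →
      ∀ j : List (G × Multiplicative ℤ) → G × Multiplicative ℤ → ZMod (p ^ (k - bG)),
      Mrk (G × Multiplicative ℤ) p k bG j →
      ‖((p : ℚ_[p]) ^ k)⁻¹ * TX (lamM p k bG (rsJ (φ i) j) c) (p ^ k)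
        ![1, sc (uZ p (u i))] - l i c‖ ≤ ε := by
    intro ε hε i
    have h1 : ∀ c : Cyc (N i), ∃ K : ℕ, ∀ k, K ≤ k → S (φ i c) →
        ∀ j : List (G × Multiplicative ℤ) → G × Multiplicative ℤ → ZMod (p ^ (k - bG)),
        Mrk (G × Multiplicative ℤ) p k bG j →
        ‖((p : ℚ_[p]) ^ k)⁻¹ * TX (lamM p k bG (rsJ (φ i) j) c) (p ^ k)
          ![1, sc (uZ p (u i))] - l i c‖ ≤ ε := by
      intro c
      by_cases hc : S (φ i c)
      · have hTB : TorBd (Cyc (N i)) bG := by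
          intro γ hγ
          rw [← hord i γ]
          exact hG _ ((φ i).isOfFinOrder hγ)
        have hc1 : IsOfFinOrder c := by
          rw [← orderOf_pos_iff, ← hord i c, hS _ hc]
          exact hN1
        have hc2 : p ∣ orderOf c := by
          rw [← hord i c, hS _ hc]
          exact hpN1
        obtain ⟨K, -, hK⟩ := hlim (Cyc (N i)) bG hTB p bG hpB (u i) (l i) (hlog i) c hc1 hc2 ε hε
        exact ⟨K, fun k hk _ j hj => hK k hk (rsJ (φ i) j) (mrk_rsJ (φ i) (hinj i) hj)⟩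
      · exact ⟨0, fun _ _ h => absurd h hc⟩
    choose K hK using h1
    refine ⟨∑ c, K c, fun k hk c hc j hj => hK c k (le_trans ?_ hk) hc j hj⟩
    exact Finset.single_le_sum (f := K) (fun _ _ => Nat.zero_le _) (Finset.mem_univ c)
  set M : ℝ := ∑ i ∈ t, ‖(q i : ℚ_[p])‖ * ∑ c : Cyc (N i), ‖a i c‖ with hM
  have hM0 : 0 ≤ M := Finset.sum_nonneg fun i _ =>
    mul_nonneg (norm_nonneg _) (Finset.sum_nonneg fun c _ => norm_nonneg _)
  have hp1 : (1 : ℝ) < p := by exact_mod_cast hp.one_lt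
  have hmain : ∀ ε : ℝ, 0 < ε →
      ‖∑ i ∈ t, (q i : ℚ_[p]) * ∑ c : Cyc (N i), a i c * l i c‖ ≤ ε * (1 + M) := by
    intro ε hε
    choose K hK using hK ε hε
    -- a large level
    have h1 : ∃ k0 : ℕ, ∀ k, k0 ≤ k → C * (p : ℝ) ^ (-(k : ℤ)) ≤ ε := by
      have h2 : Filter.Tendsto (fun k : ℕ => C * (p : ℝ) ^ (-(k : ℤ))) Filter.atTop
          (nhds (C * 0)) := by
        apply Filter.Tendsto.const_mul
        have h3 : (fun k : ℕ => (p : ℝ) ^ (-(k : ℤ))) = fun k : ℕ => ((p : ℝ)⁻¹) ^ k := by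
          funext k
          rw [_root_.zpow_neg, zpow_natCast, inv_pow]
        rw [h3]
        exact tendsto_pow_atTop_nhds_zero_of_lt_one (by positivity)
          (inv_lt_one_of_one_lt₀ hp1)
      rw [mul_zero] at h2
      have h3 := (h2.eventually (gt_mem_nhds hε)).exists_forall_of_atTop
      obtain ⟨k0, hk0⟩ := h3
      exact ⟨k0, fun k hk => (hk0 k hk).le⟩
    obtain ⟨k0, hk0⟩ := h1
    set k := k0 + bG + ∑ i ∈ t, K i with hk
    have hkb : bG ≤ k := by omega
    have hkK : ∀ i ∈ t, K i ≤ k := fun i hi => by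
      have := Finset.single_le_sum (f := K) (fun _ _ => Nat.zero_le _) hi
      omega
    obtain ⟨j, hj⟩ := hmrk (G × Multiplicative ℤ) bG (RLP.torBd hG) p bG hpB k hkb
    have h2 := hval k hkb j hj
    set A : ℚ_[p] := ∑ i ∈ t, (q i : ℚ_[p]) * ∑ c : Cyc (N i), a i c *
        TX (lamM p k bG (rsJ (φ i) j) c) (p ^ k) ![1, sc (uZ p (u i))] with hA
    have h3 : ‖((p : ℚ_[p]) ^ k)⁻¹ * A‖ ≤ ε := by
      rw [norm_mul, norm_inv, norm_pow, Padic.norm_p]
      have h4 : ((p : ℝ)⁻¹ ^ k)⁻¹ = (p : ℝ) ^ (k : ℤ) := by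
        rw [inv_pow, inv_inv, zpow_natCast]
      rw [h4]
      calc (p : ℝ) ^ (k : ℤ) * ‖A‖ ≤ (p : ℝ) ^ (k : ℤ) * (C * (p : ℝ) ^ (-(2 * k : ℤ))) := by
            apply mul_le_mul_of_nonneg_left h2
            positivity
        _ = C * (p : ℝ) ^ (-(k : ℤ)) := by
            rw [mul_left_comm, ← zpow_add₀ (by positivity)]
            congr 2
            ring
        _ ≤ ε := hk0 k (by omega)
    have h5 : ‖((p : ℚ_[p]) ^ k)⁻¹ * A -
        ∑ i ∈ t, (q i : ℚ_[p]) * ∑ c : Cyc (N i), a i c * l i c‖ ≤ ε * M := by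
      have h6 : ((p : ℚ_[p]) ^ k)⁻¹ * A -
          ∑ i ∈ t, (q i : ℚ_[p]) * ∑ c : Cyc (N i), a i c * l i c =
          ∑ i ∈ t, (q i : ℚ_[p]) * ∑ c : Cyc (N i), a i c *
            (((p : ℚ_[p]) ^ k)⁻¹ * TX (lamM p k bG (rsJ (φ i) j) c) (p ^ k)
              ![1, sc (uZ p (u i))] - l i c) := by
        rw [hA, Finset.mul_sum, ← Finset.sum_sub_distrib]
        refine Finset.sum_congr rfl fun i _ => ?_
        rw [mul_left_comm, ← mul_sub, Finset.mul_sum, ← Finset.sum_sub_distrib]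
        congr 1
        refine Finset.sum_congr rfl fun c _ => ?_
        ring
      rw [h6, hM, Finset.mul_sum]
      refine (norm_sum_le _ _).trans (Finset.sum_le_sum fun i hi => ?_)
      rw [norm_mul, mul_left_comm]
      refine mul_le_mul_of_nonneg_left ?_ (norm_nonneg _)
      rw [Finset.mul_sum]
      refine (norm_sum_le _ _).trans (Finset.sum_le_sum fun c _ => ?_)
      rw [norm_mul]
      by_cases hc : S (φ i c)
      · rw [mul_comm ε]
        exact mul_le_mul_of_nonneg_left (hK i k (hkK i hi) c hc j hj) (norm_nonneg _)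
      · have h7 : a i c = 0 := by
          simp only [ha]
          rw [evc_zero hF _ _ hc, Rat.cast_zero]
        rw [h7, norm_zero, zero_mul, mul_zero]
    calc ‖∑ i ∈ t, (q i : ℚ_[p]) * ∑ c : Cyc (N i), a i c * l i c‖
        = ‖((p : ℚ_[p]) ^ k)⁻¹ * A - (((p : ℚ_[p]) ^ k)⁻¹ * A -
            ∑ i ∈ t, (q i : ℚ_[p]) * ∑ c : Cyc (N i), a i c * l i c)‖ := by
          rw [sub_sub_cancel]
      _ ≤ ‖((p : ℚ_[p]) ^ k)⁻¹ * A‖ + ‖((p : ℚ_[p]) ^ k)⁻¹ * A -
            ∑ i ∈ t, (q i : ℚ_[p]) * ∑ c : Cyc (N i), a i c * l i c‖ := norm_sub_le _ _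
      _ ≤ ε + ε * M := add_le_add h3 h5
      _ = ε * (1 + M) := by ring
  have hz : ‖∑ i ∈ t, (q i : ℚ_[p]) * ∑ c : Cyc (N i), a i c * l i c‖ ≤ 0 := by
    by_contra hcon
    push Not at hcon
    have h2 : (0 : ℝ) < 1 + M := by positivity
    have h1 := hmain (‖∑ i ∈ t, (q i : ℚ_[p]) * ∑ c : Cyc (N i), a i c * l i c‖ / (2 * (1 + M)))
      (by positivity)
    have h3 : ‖∑ i ∈ t, (q i : ℚ_[p]) * ∑ c : Cyc (N i), a i c * l i c‖ / (2 * (1 + M)) *
        (1 + M) = ‖∑ i ∈ t, (q i : ℚ_[p]) * ∑ c : Cyc (N i), a i c * l i c‖ / 2 := by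
      field_simp
    rw [h3] at h1
    linarith
  exact norm_le_zero_iff.1 hz

end Pool.Agent.FJA
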