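import Pool.Agent.FJA.Core7
import Pool.Agent.FJA.St4

/-!
# Phase 3, first part: the `ℓ`-adic theorem without a bound on the torsion in low degrees

Notation: `Z' = Multiplicative ℤ`, `Γ` a group (often `G × Z'`), `n = Y.length`, `Y e` (`e ∈ ℤ`) the extended
list: `Y (e + n) = y * Y e` (`SEC.sq` in P_SEC.lean).
-/

set_option autoImplicit false

open Matrix Pool.Agent.WhK Pool.Agent.Lib25 CategoryTheory

noncomputable section

namespace Pool.Agent.FJA

/-! ## Modules PNT, AVS, PER, SUP -/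

/-- PNT: the points of a vertex.

Proof (compare P_SEC.lean, whose lemmas on the sequences `SEC.sq Y y : ℤ → Γ`, `SEC.sq_conj`, `SEC.sq_rot`,
`SEC.rel`, `SEC.rep`, `SEC.pos`, `SEC.stab` can be used).  For a vertex `(Y, y)` (`Y ≠ []`, `y` of finite order)
let `A = sq Y y`.  `Stb Y y δ e` iff `δ * y = y * δ` and `A a = δ * A (a + e)` for all `a`; in fact the second
condition implies the first one (`A (a + n) = y A a`: `y = A n * (A 0)⁻¹` and `δ y = A(n) A(e)⁻¹ .. `; simply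
compute `δ * A (a + e + n)` in two ways) and a list is determined by its sequence and its length.
The set of the `e ∈ ℤ` for which some (unique, as `A a = δ A (a + e)`) `δ` exists is a subgroup `d ℤ` which
contains `n` (`δ = y⁻¹`), `d > 0`; let `dl Y y` be the `δ` which belongs to `d` (e.g. by choice: the `δ` with
`Stb Y y δ e` for the smallest `e > 0`, `Nat.find`); `dl Y y = 1` and `Pt Y y = ∅` if `(Y, y)` is not a vertex.
`gen`: `δ` with exponent `e = d m` is `dl^m`.  `fin`: `dl^(n/d) = y⁻¹` has finite order.  `dinv`, `drot`: by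
uniqueness (`Stb (γ Y) (γ y γ⁻¹) (γ δ γ⁻¹) e ↔ Stb Y y δ e`, `Stb (rotL y Y) y δ e ↔ Stb Y y δ e`).
`Pt Y y = { γ * rep A 0 : A a = γ * rep A (a + m) for all a, for some m ∈ ℤ }` (`SEC.pos`), where `rep A` is a
representative of the class of the sequence `A` modulo translation by `Γ` and shifts.  It is nonempty; if `x`,
`x'` are in it, from `(γ, m)`, `(γ', m')`, then `δ = γ' γ⁻¹` satisfies `A a = δ A (a + e)` for all `a`, with
`e = m' - m`, and conversely `δ x ∈ Pt` for such a `δ`: so `Pt Y y` is an orbit of the finite cyclic group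
generated by `dl Y y`, which acts freely by left multiplication: `card`, `orb`, `trans`.  `supp`: `x = A (-m)`.
`inv`, `rot`: `SEC.pos_translate`. -/
def S_PNT : Prop := ∀ (Γ : Type) [Group Γ],
    ∃ (Pt : List Γ → Γ → Finset Γ) (dl : List Γ → Γ → Γ), Pnt Pt dl

/-- AVS: the averages form a rotation invariant section; homomorphisms to `Z'` are constant on `Pt Y y`.

Proof: `Sec.inv`: `Pt (γ Y) (γ y γ⁻¹) = γ Pt Y y` (`Pnt.inv`, and `Pnt.nil` for `Y = []`), reindex the sum, the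
cardinalities are the same; `aug`: `Pt Y y` is nonempty; `supp`: `Pnt.supp`; `RotS`: `rotL y (a :: Y)` is
`Y ++ [y * a]` by definition.  The last item: `x' = dl^t * x` and `σ (dl) = 1` because `dl` has finite order
(compare `RLP.snd_eq_one` in P_RLP.lean). -/
def S_AVS : Prop := ∀ (Γ : Type) [Group Γ] (Pt : List Γ → Γ → Finset Γ) (dl : List Γ → Γ → Γ),
    Pnt Pt dl → Sec (avS Pt) ∧ RotS (avS Pt) ∧
    ∀ (σ : Γ →* Multiplicative ℤ) (Y : List Γ) (y : Γ), Y ≠ [] → IsOfFinOrder y →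
      ∀ x ∈ Pt Y y, ∀ x' ∈ Pt Y y, σ x = σ x'

/-- PER: for `k` large the stabilisers are small, if the increments are in a given finite set.

Proof.  Let `Y` have length `ℓ^k` and `y^n0 = 1`.  The exponents `e ∈ ℤ` of the stabiliser of `(Y, y)` (see PNT)
form the group `ℓ^i ℤ` for some `i ≤ k` (it contains `ℓ^k`), let `δ0` be the element with exponent `ℓ^i`:
`δ0^(ℓ^(k-i)) = y⁻¹`, so `δ0^(ℓ^(k-i) n0) = 1`, and `δ = δ0^m` for every `δ` with `Stb Y y δ e`, `e = m ℓ^i`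
(`e ∈ ℕ`, so `m ∈ ℕ`).  If `i ≥ i0` then `δ^(n0 ℓ^(k-i0)) = 1` and `ℓ^i0 ∣ e`.
Let `i < i0`.  `Y 0 = δ0 * Y (ℓ^i)`, so `(Y 0)⁻¹ δ0⁻¹ (Y 0) = (Y 0)⁻¹ Y (ℓ^i)` is a product of `ℓ^i` elements
of `L` (`Inc`, `(rotL y)^[e] Y` has the head `Y e`).  The elements of finite order in the finite set of the
products of at most `ℓ^i0` elements of `L` have orders `≤ b` for some `b` (depending on `L`, `i0`).  Choose `k0` with
`b < ℓ^(k0 - i0)`, `k0 ≥ i0`.  The order of `δ0` is `≤ b < ℓ^(k-i0)` and divides `ℓ^(k-i) n0`; write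
`n0 = ℓ^v n2`, `ℓ ∤ n2`: it is `ℓ^c n''` with `n'' ∣ n2`, and `ℓ^c ≤ b < ℓ^(k-i0)` gives `c < k - i0`, so it divides
`ℓ^(k-i0) n0`.  If moreover `ℓ ∣ orderOf y` then this case is impossible: `δ0^(ℓ^(k-i)) = y⁻¹` has order
divisible by `ℓ`, so `ℓ^(k-i+1)` divides the order of `δ0` (compare `DIV.no_order`, `RLP.not_dvd`), which is
`< ℓ^(k-i0)`. -/
def S_PER : Prop := ∀ (Γ : Type) [Group Γ] (ℓ : ℕ) [Fact ℓ.Prime] (n0 : ℕ), 0 < n0 →
    ∀ (L : Finset Γ) (i0 : ℕ), ∃ k0 : ℕ, i0 ≤ k0 ∧ ∀ k : ℕ, k0 ≤ k → ∀ (Y : List Γ) (y : Γ),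
    Y.length = ℓ ^ k → y ^ n0 = 1 → Inc L Y y →
    Good (n0 * ℓ ^ (k - i0)) Y y ∧ (ℓ ∣ orderOf y → GoodP (ℓ ^ i0) Y y)

/-- SUP: supports.

Proof.  (a) An element `μ` of the closure is a product `t_1 ⋯ t_r` of elements of `T`
(`Submonoid.exists_list_of_mem_closure`), all its lists have length `r`.  If they are nonempty, `r ≥ 1`,
`t_e.lst i = [a_e]`, `t_e.val = v_e`: the extended list is `Y (e - 1) = v_1 ⋯ v_(e-1) a_e`, so
`(Y (e-1))⁻¹ Y e = a_e⁻¹ v_e a_(e+1)` (indices modulo `r`: `Y (r-1)⁻¹ (y * Y 0) = a_r⁻¹ v_r a_1`), and for all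
`e ∈ ℕ` by periodicity (`Y (e + r) = y * Y e`).  `L` = the finite set of the `a⁻¹ v a'`, `a ∈ t.lst i`, `v = t.val`,
`a' ∈ t'.lst i`, `t, t' ∈ T`, `i` a label.
(b) The union of the supports of the entries of the matrix; the lists have length one: `TXD.spM_UX`
(P_TXD.lean).
(c) The entries of `(UX X)^N` are supported in the `μ ∈ S` all of whose lists have length `N` (induction on
`N`, as in P_TXD.lean: `TXlen`, `TXsup`), `lin φ` only depends on the values of `φ` on the support. -/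
def S_SUP : Prop := (∀ (Γ : Type) [Group Γ] (M : ℕ) (T : Finset (Rec Γ (Fin M))),
      (∀ t ∈ T, ∀ i, (t.lst i).length = 1) →
      ∃ L : Finset Γ, ∀ μ ∈ Submonoid.closure (T : Set (Rec Γ (Fin M))),
        μ ∈ Bal Γ (Fin M) ∧ ((∀ i, μ.lst i ≠ []) → ∀ i, Inc L (μ.lst i) μ.val)) ∧
    (∀ (k : Type) [Field k] [CharZero k] (Γ : Type) [Group Γ] (ι : Type) [Fintype ι]
      [DecidableEq ι] (M : ℕ) (X : Fin M → (Matrix ι ι (MonoidAlgebra k Γ))ˣ),
      ∃ T : Finset (Rec Γ (Fin M)), (∀ t ∈ T, ∀ i, (t.lst i).length = 1) ∧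
        ∀ a b μ, (UX X a b).coeff μ ≠ 0 → μ ∈ T) ∧
    ∀ (k : Type) [Field k] [CharZero k] (Γ : Type) [Group Γ] (ι : Type) [Fintype ι]
      [DecidableEq ι] (M N : ℕ) (X : Fin M → (Matrix ι ι (MonoidAlgebra k Γ))ˣ)
      (S : Submonoid (Rec Γ (Fin M))) (φ φ' : Rec Γ (Fin M) → ℚ),
      (∀ a b μ, (UX X a b).coeff μ ≠ 0 → μ ∈ S) →
      (∀ μ ∈ S, (∀ i, (μ.lst i).length = N) → φ μ = φ' μ) → TX φ N X = TX φ' N X

/-! ## Modules DNA, KAP, CY3, DNB, DNC: reduction of denominators -/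

/-- DNA (uses MEX, AVS): degrees `0` and `1`: there are no denominators.

Proof.  Let `D * F a y` be integers.  Claim: `F a y = F a' y` if `a i, a' i ∈ Pt (Y i) y` for all `i`, `y` of finite
order.  Then `mA Pt F Y y = F a y` for any such `a` (`mex` of a function which is constant on the product of the
supports, augmentations `1`; compare P_EV0.lean, MEX (b), (c)).
Degree `0`: the cocycle identity `F [a1] y - F [a0] y = 0` says that `F · y` is constant.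
Degree `1`: for `δ` of finite order with `δ y = y δ`: `F (δ a0, a0) = 0`, where `F (b0, b1) = F ![b0, b1] y`: by
`inv`, `F (δ^(t+1) a0, δ^t a0; y) = F (δ a0, a0; δ^(-t) y δ^t) = F (δ a0, a0; y)`, and the sum over `t < orderOf δ`
is `F (a0, a0) = 0` by the cocycle identity (`F (b0, b1) + F (b1, b2) = F (b0, b2)`).  So `F (δ a0, a1) =
F (δ a0, a0) + F (a0, a1) = F (a0, a1)` and `F (a0, δ a1) = F (a0, a1)`.  Two elements of `Pt Y y` differ by a power
of `dl Y y` from the left, which commutes with `y` and has finite order. -/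
def S_DNA : Prop := ∀ m : ℕ, m ≤ 1 → ∀ (Γ : Type) [Group Γ] (Pt : List Γ → Γ → Finset Γ)
    (dl : List Γ → Γ → Γ), Pnt Pt dl → ∀ (S : Γ → Prop) (F : (Fin (m + 1) → Γ) → Γ → ℚ),
    (∀ y, S y → IsOfFinOrder y) → GCoch m S F →
    ∃ D : ℕ, 0 < D ∧ ∀ (Y : Fin (m + 1) → List Γ) (y : Γ), (∀ i, Y i ≠ []) → IsOfFinOrder y →
      (∃ z : ℤ, (D : ℚ) * mA Pt F Y y = z) ∧
      ∀ a : Fin (m + 1) → Γ, (∀ i, a i ∈ Pt (Y i) y) → mA Pt F Y y = F a y

/-- KAP: alignment of the orbits.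

Proof.  Consider the quadruples `q = (Y, y, a, b)` with `(Y, y)` a vertex and `a ∈ Pt Y y`, `b ∈ Γ`, and the
relation: `q' = (Y', y', a', b')` is related to `q` iff `Y' = γ rot^e Y`, `y' = γ y γ⁻¹`, `a' = γ δ^i a`,
`b' = γ δ^j b`, `δ = dl Y y`, for some `γ ∈ Γ`, `e, i, j ∈ ℕ` (`rot = rotL y`).  It is an equivalence relation
(`dl` is equivariant, has finite order; some power of `rot` fixes `Y`, as `rot^n Y = y Y`).  For a
representative `q` of the class put `kp q' = (i - j) mod orderOf δ`, in `{0, …, orderOf δ - 1}`.  Well defined: if also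
`(γ', e', i', j')` then `γ⁻¹ γ'` maps `rot^(e') Y` to `rot^e Y` and commutes with `y`, so it is in the group
generated by `δ` (`Pnt.gen`; use that a power of `rot` is the identity on `Y` to write it as `Stb Y y (γ⁻¹ γ') _`),
`γ' = γ δ^t`, and as `δ` commutes with itself and acts freely: `i = t + i'`, `j = t + j'` modulo `orderOf δ`.
The four properties follow from the definition.  (Outside of the quadruples `kp = 0`.) -/
def S_KAP : Prop := ∀ (Γ : Type) [Group Γ] (Pt : List Γ → Γ → Finset Γ) (dl : List Γ → Γ → Γ),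
    Pnt Pt dl → ∃ kp : List Γ → Γ → Γ → Γ → ℤ,
    ∀ (Y : List Γ) (y : Γ), Y ≠ [] → IsOfFinOrder y → ∀ a ∈ Pt Y y, ∀ b : Γ,
      (∀ γ : Γ, kp (Y.map (γ * ·)) (γ * y * γ⁻¹) (γ * a) (γ * b) = kp Y y a b) ∧
      kp (rotL y Y) y a b = kp Y y a b ∧
      (∃ z : ℤ, kp Y y (dl Y y * a) b = kp Y y a b + 1 + orderOf (dl Y y) * z) ∧
      ∃ z : ℤ, kp Y y a (dl Y y * b) = kp Y y a b - 1 + orderOf (dl Y y) * z

/-- CY3 (uses KAP): the third cohomology of a cyclic group with integral coefficients vanishes,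
equivariantly.  All `b`'s are in `Γ`.

Proof.  Let `D F` be integral; replacing `F` by `D F` (and dividing `c2` by `D` at the end) let `F` be
integral valued, `F (b0, …, b3)` for the fixed `y` (of finite order).  Let `δ = dl Y y` (it commutes with `y`, so
`F (δ b0, …) = F (b0, …)`), `m = orderOf δ`, `a ∈ Pt Y y`.
(1) `u_a (b0, b1) = F (δ a, a, b0, b1)`.  The cocycle identity for `(δ a, a, b0, b1, b2)` says
`F (δ a, b0, b1, b2) - F (a, b0, b1, b2) = (d u_a) (b0, b1, b2) = u_a (b1, b2) - u_a (b0, b2) + u_a (b0, b1)`.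
So `(1/m) ∑_(t<m) F (δ^t a, b0, b1, b2) = F (a, b0, b1, b2) + (d v_a) (b0, b1, b2)` with
`v_a (b0, b1) = (1/m) ∑_(t<m) ∑_(s<t) u_(δ^s a) (b0, b1)`.
(2) `Nu (b0, b1) = ∑_(s<m) F (δ^(s+1) a, δ^s a, b0, b1)`: independent of `a ∈ Pt Y y` (the sum is cyclic, `δ^m = 1`),
`d Nu = 0` (sum of (1) over the cycle), so `Nu (b0, b1) = Nu (a, b1) - Nu (a, b0)` and `Nu (b, b) = 0`.
`Nu (δ b0, δ b1) = Nu (b0, b1)` (invariance of `F` under `δ`, cyclic sum).  Hence `m * Nu (a, δ a) =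
∑_(t<m) Nu (δ^t a, δ^(t+1) a) = Nu (a, δ^m a) = 0`: `Nu (a, δ a) = 0`.  So `w b = Nu (a, b)` does not depend on
`a ∈ Pt Y y`, it is an integer, `Nu (b0, b1) = w b1 - w b0`.
(3) `v_(δ a) - v_a = (1/m) ∑_(t<m) (u_(δ^t a) - u_a) = (1/m) Nu - u_a`.
(4) `x_a (b0, b1) = v_a (b0, b1) - (1/m) (kp a b1 * w b1 - kp a b0 * w b0)`, `kp a b = kp Y y a b`.  By (3) and KAP
`x_(δ a) - x_a` is an integer.  So `X (b0, b1) = Int.fract (x_a (b0, b1))` does not depend on `a ∈ Pt Y y`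
(`Pnt.trans`).
(5) `c2 (b0, b1, b2) = (1/m) ∑_(a ∈ Pt) F (a, b0, b1, b2) - (d X) (b0, b1, b2)`.  The first term is
`F (a, b0, b1, b2) + (d v_a)` by (1), and `d v_a = d x_a` (`d` of `(b0, b1) ↦ f b1 - f b0` is zero), so
`c2 = F (a, b0, b1, b2) + d ⌊x_a⌋` is an integer.  And `d (c2) (b0, …, b3) = d ((1/m) ∑ F (a, ·)) = F (b0, …, b3)`
(cocycle identity for `(a, b0, …, b3)`, `|Pt| = m`), as `d d X = 0`.
(6) Equivariance: replacing `(Y, y, b)` by `(γ Y, γ y γ⁻¹, γ b)`, use `γ a` for `a`: `dl` becomes `γ δ γ⁻¹`, every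
value of `F` is unchanged (`GCoch.inv`), `kp` is unchanged; so `v`, `w`, `x`, `X`, `c2` are.  Rotation: `Pt`,
`dl`, `kp` are unchanged.  If `F · y = 0` then everything is `0`.  (`c2 = 0` if `(Y, y)` is not a vertex.) -/
def S_CY3 : Prop := ∀ (Γ : Type) [Group Γ] (Pt : List Γ → Γ → Finset Γ) (dl : List Γ → Γ → Γ),
    Pnt Pt dl → ∀ (S : Γ → Prop) (F : (Fin 4 → Γ) → Γ → ℚ),
    (∀ y, S y → IsOfFinOrder y) → GCoch 3 S F →
    ∃ (D : ℕ) (c2 : List Γ → Γ → (Fin 3 → Γ) → ℚ), 0 < D ∧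
      ∀ (Y : List Γ) (y : Γ), Y ≠ [] → IsOfFinOrder y →
        (∀ b, ∃ z : ℤ, (D : ℚ) * c2 Y y b = z) ∧
        (∀ (γ : Γ) (b : Fin 3 → Γ),
          c2 (Y.map (γ * ·)) (γ * y * γ⁻¹) (fun i => γ * b i) = c2 Y y b) ∧
        (∀ b, c2 (rotL y Y) y b = c2 Y y b) ∧
        (∀ b : Fin 4 → Γ, F b y = ∑ i : Fin 4, (-1 : ℚ) ^ (i : ℕ) *
          c2 Y y (fun j => b (i.succAbove j))) ∧
        ((∀ a, F a y = 0) → ∀ b, c2 Y y b = 0)

/-- DNB (uses MEX, AVS): degree `2`.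

Proof.  `D F` integral, `F (b0, b1, b2)` for fixed `y`; `|Pt Y|` divides `mm` if `Good mm Y y` (`Pnt.card`,
`Pnt.stb`).  For vertices with the same `y` define (`b`'s in `Γ`):
`c01 (Y | b0, b1) = (mm / |Pt Y|) ∑_(a ∈ Pt Y) F (a, b0, b1)`;
`e11 (Y0, Y1 | b0, b1) = c01 (Y1 | b0, b1) - c01 (Y0 | b0, b1)`;
`g (Y0, Y1 | b) = (1 / |Pt Y0|) ∑_(a ∈ Pt Y0) e11 (Y0, Y1 | a, b)`, `c10 (Y0, Y1 | b) = (1/D) ⌊D * g (Y0, Y1 | b)⌋`.
In the second variable these functions are extended linearly to the averages `A = avS Pt Y y`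
(`c01 (Y | A0, A1)` is the average over `Pt Y0 × Pt Y1`).  Put
`L (Y0, Y1) = (1/mm) (c01 (Y0 | A0, A1) + c10 (Y0, Y1 | A1))` if `Y0`, `Y1` are nonempty, `y` has finite order and
`Good mm (Yi) y`, and `L = 0` otherwise.
* By the cocycle identity `c01 (Y | b1, b2) - c01 (Y | b0, b2) + c01 (Y | b0, b1) = mm F (b0, b1, b2)`.  So
  `e11 (b1, b2) - e11 (b0, b2) + e11 (b0, b1) = 0`, hence `g (b1) - g (b0) = e11 (b0, b1)`, and `D e11` is an integer
  for good vertices, so `c10 (b1) - c10 (b0) = e11 (b0, b1)` too.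
* `Φ (Y0, Y1, Y2 | b) = c10 (Y1, Y2 | b) - c10 (Y0, Y2 | b) + c10 (Y0, Y1 | b)` does not depend on `b` (the
  differences are sums of `e11`, which telescope), and `D Φ` is an integer.
* `mm (mA F (Y0, Y1, Y2) - (L (Y1, Y2) - L (Y0, Y2) + L (Y0, Y1))) = - Φ (Y0, Y1, Y2 | A2)`:
  `mm F (A0, A1, A2) = c01 (Y0 | A1, A2) - c01 (Y0 | A0, A2) + c01 (Y0 | A0, A1)`, so the left side is
  `- e11 (Y0, Y1 | A1, A2) - c10 (Y1, Y2 | A2) + c10 (Y0, Y2 | A2) - c10 (Y0, Y1 | A1)`, and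
  `e11 (Y0, Y1 | A1, A2) = c10 (Y0, Y1 | A2) - c10 (Y0, Y1 | A1)`.
* Invariance under `Γ` (`Good`, `Pt` are equivariant, `F` is invariant) and rotation (`Good`, `Pt` are
  invariant): clear; note that `⌊·⌋` is applied to invariant quantities.  `supp`: if `F · y = 0` then `L = 0`. -/
def S_DNB : Prop := DNP 2

/-- DNC (uses CY3, MEX, AVS): degree `3`.

Proof.  `c2` and a common denominator `D` (of `F` and `c2`) from CY3; notation as in DNB.
`e12 (Y0, Y1 | b0, b1, b2) = c2 (Y1 | b0, b1, b2) - c2 (Y0 | b0, b1, b2)`, which satisfies `d e12 = F - F = 0`;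
`c11 (Y0, Y1 | b0, b1) = (mm / |Pt Y0|) ∑_(a ∈ Pt Y0) e12 (Y0, Y1 | a, b0, b1)`: `d c11 = mm e12`
(`c11 (b1, b2) - c11 (b0, b2) + c11 (b0, b1) = mm e12 (b0, b1, b2)`);
`e21 (Y0, Y1, Y2 | b0, b1) = c11 (Y1, Y2 | ..) - c11 (Y0, Y2 | ..) + c11 (Y0, Y1 | ..)`: `D e21` integral for good
vertices, `d e21 = 0`;
`c20 (Y0, Y1, Y2 | b) = (1/D) ⌊D * (1 / |Pt Y0|) ∑_(a ∈ Pt Y0) e21 (Y0, Y1, Y2 | a, b)⌋`:
`c20 (b1) - c20 (b0) = e21 (b0, b1)`;
`Φ (Y0, …, Y3 | b) = c20 (Y1,Y2,Y3 | b) - c20 (Y0,Y2,Y3 | b) + c20 (Y0,Y1,Y3 | b) - c20 (Y0,Y1,Y2 | b)`: independent of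
`b` (the alternating sum of the `e21` of the four faces is zero), `D Φ` integral.
`L (Y0, Y1, Y2) = c2 (Y0 | A0, A1, A2) + (1/mm) (c11 (Y0, Y1 | A1, A2) - c20 (Y0, Y1, Y2 | A2))` for good vertices,
`0` otherwise.  Then `mm (F (A0, …, A3) - (d L) (Y0, …, Y3)) = Φ (Y0, …, Y3 | A3)`:
* the first terms give `F (A0, …, A3) + e12 (Y0, Y1 | A1, A2, A3)` (by `d c2 = F` at `Y0` and the definition of
  `e12`);
* the terms `c11`: `c11 (Y1,Y2 | A2,A3) - c11 (Y0,Y2 | A2,A3) + c11 (Y0,Y1 | A1,A3) - c11 (Y0,Y1 | A1,A2) =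
  e21 (Y0,Y1,Y2 | A2,A3) - mm e12 (Y0,Y1 | A1,A2,A3)`;
* the terms `c20`: `Φ (.. | A3) + c20 (Y0,Y1,Y2 | A3) - c20 (Y0,Y1,Y2 | A2) = Φ + e21 (Y0,Y1,Y2 | A2,A3)`.
Everything else as in DNB. -/
def S_DNC : Prop := DNP 3

/-! ## Module CUL -/

/-- CUL (uses AVS, MEX): the reduction of the denominators for `cup F`.

Proof.  `Γ = G × Z'`.  `F̂ a y = if y.2 = 1 then F (fun i => (a i).1) y.1 else 0` is a `GCoch m Ŝ` on `Γ`,
`Ŝ y = (S y.1 ∧ y.2 = 1)`, whose elements have finite order.  DNP gives `D` and, for `mm`, `L'`.  Let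
`τ Y y = toAdd (x.2)` for any `x ∈ Pt Y y` (AVS: independent of `x`; `0` if `Pt Y y` is empty), an integer, and
`L μ = L' (fun i => μ.lst i.castSucc) μ.val * (τ (μ.lst (last)) - τ (μ.lst (last - 1)))` for
`μ : Rec Γ (Fin (m + 1))` if all lists are nonempty and `μ.val` has finite order, `0` otherwise; the labels of `L'`
are `0, …, m - 1` and the two labels of `τ` are `m` and `m - 1` (`1 ≤ m`).
* `evs (cup F) (avS Pt) μ = mA Pt F̂ (μ.lst ∘ castSucc) μ.val * (τ (μ.lst (m+1)) - τ (μ.lst m))` for nonempty lists: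
  on the product of the supports of the averages `cup F a y = F̂ (a ∘ castSucc) y * (t_(m+1) - t_m)` with the constants
  `t_j = τ (μ.lst j) y` (MEX (b), (c), (a); compare P_EV0.lean).
* `cobR L μ = (d L') (μ.lst 0, …, μ.lst m) * (τ (μ.lst (m+1)) - τ (μ.lst m))`: for the faces `i ≤ m - 1` the last two
  labels are `m, m + 1`; the faces `i = m` and `i = m + 1` contribute `(-1)^m L' (0, …, m-1) ((τ_(m+1) - τ_(m-1)) -
  (τ_m - τ_(m-1))) = (-1)^m L' (0, …, m-1) (τ_(m+1) - τ_m)`.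
So the last claim is `StrL.int` times the integer `τ_(m+1) - τ_m`.
* `NullFun`: `L' (γ Y) (γ y γ⁻¹) = L' Y y`, `τ (γ Y) (γ y γ⁻¹) = τ Y y + t(γ)` (`Pnt.inv`), so the difference is
  invariant: `CjInv` (for `inc γ * μ` and `μ * inc γ`: the lists `γ Y` and `Y`, the values `γ y`, `y γ`, conjugate by
  `γ`).  `fin`: by definition.  `flat`: if all positions have the same second component `t` then `τ = t` on all
  the lists (`x = y^j * a` with `a ∈ Y`, `y.2 = 1` for `y` of finite order).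
* Trace property: let `μ, ν ∈ Bal`, `y = μ.val * ν.val`.  The lists of `μ * ν` are `Y_i ++ μ.val Y'_i`, those of
  `ν * μ` are `Y'_i ++ ν.val Y_i` with value `μ.val⁻¹ y μ.val`; conjugating by `μ.val` gives
  `(μ.val Y'_i ++ y Y_i, y)`, which is the rotation by `|Y_i|` steps (the same number for all `i`) of
  `(Y_i ++ μ.val Y'_i, y)`.  `L'` and `τ` are invariant under (simultaneous) rotations (`StrL.rot`,
  `Pnt.rot`).  (Compare P_PSA.lean.)
* `L μ ≠ 0` implies `F̂ a y ≠ 0` for some `a` (`StrL.supp`), and then `cup F a' y ≠ 0` for `a' = (a, (1, t))` with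
  `t` different from the second component of the last `a`. -/
def S_CUL : Prop := ∀ m : ℕ, 1 ≤ m → DNP m → CULP m

/-! ## Module PDG -/

/-- PDG (uses PNT, AVS, PER, SUP, CUP, GAS, GAUint, SCH, EVS, TXfst, TXlin, TXfac, TXlen): the `ℓ`-adic
theorem.

Proof (compare S_PAD in St1.lean, P_PAD.lean, and P_PDK.lean for the translation between sums over `B.support`
and `TK`).  `Γ = G × Z'`.  (0) It is enough to treat `e = 1`, for all `n0` and `F`: induction on `e`, since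
`powF (ℓ^e) (cup F) = cup F_e` with `F_e a y = F a (y^(ℓ^e))` (`(y.2)^(ℓ^e) = 1` iff `y.2 = 1`), which is a
`GCoch (n+1) (fun y => y^(n0 ℓ^e) = 1)`.
(1) `cup F` is a `Coch (sg2 G) (n + 2)` (CUP (b); `y^n0 = 1` implies finite order).  `Pt`, `dl` from PNT for `Γ`,
`s = avS Pt` (AVS: `Sec s`, `RotS s`); `D` from CULP, independent of `mm`.  `T` = the union over `x ∈ B.support` of the
finite sets of SUP (b) for `X = x.2`; `Sb = Submonoid.closure T ≤ Bal`, `L1` from SUP (a).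
(2) Let `i0 : ℕ`; `k0` from PER for `Γ`, `ℓ`, `n0`, `L1`, `i0`; `k = k0 + 1`, `mm = n0 * ℓ^(k - i0)`; `L` from CULP.
For `μ ∈ Sb` with all lists of length `ℓ^k` and `μ.val^n0 = 1` all lists are good (`Good mm`), so
`D mm (evs (cup F) s μ - cobR L μ)` is an integer; if not `μ.val^n0 = 1` then `cup F · μ.val = 0`, so both terms
vanish (`L μ' ≠ 0` implies `cup F a μ'.val ≠ 0`).  Let `φ μ` be this number for `μ ∈ Sb` with all lists of length
`ℓ^k`, `0` otherwise.  It is a trace function on `Sb`: `evs (cup F) s` is one (EVS (a)), `L` is one on `Bal` and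
`Rec.res` is a homomorphism which preserves `Bal`.
(3) GAS (for `Sb`, `D = 1`, `U = UX X`, level `k = k0 + 1`): `‖lin φ (tr U^(ℓ^k)) - lin (φ (·^ℓ)) (tr U^(ℓ^k0))‖ ≤
ℓ^(-k)`, i.e. for `TX φ (ℓ^k) X - TX (φ (·^ℓ)) (ℓ^(k-1)) X`.
(4) By SUP (c) (and TXlin, TXfac) `TX φ (ℓ^k) X = D mm (TX (evs (cup F) s) (ℓ^k) X - ∑_i (-1)^i TX L (ℓ^k) (X ∘
i.succAbove))`.  Summing over `B` the terms with `L` give `TK L (ℓ^k) (bdK B) = 0` (`L` is a null function), and
`TK (evs (cup F) s) (ℓ^k) B = TK (fst (cup F)) (ℓ^k) B = TK (fst (cup F)) 1 B` (SCH and the hypothesis on `B`;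
TXfst with EVS (f)).
(5) `μ ↦ φ (μ^ℓ)` at level `ℓ^(k-1)`: the lists of `μ^ℓ` have length `ℓ^k` if those of `μ` have length `ℓ^(k-1)`.
`cobR L (μ^ℓ) = cobR (L (·^ℓ)) μ`, and `μ ↦ L (μ^ℓ)` is a null function (conjugation: `(inc γ * μ)^ℓ` and
`(μ * inc γ)^ℓ` are `inc γ * ν` and `ν * inc γ` with `ν = (μ * inc γ)^(ℓ-1) * μ`; `fin`: `μ.val^ℓ` of finite order;
`flat`: the positions of `μ^ℓ` are `μ.val^j * x`, and `μ.val.2 = 1` if `L (μ^ℓ) ≠ 0`).  `evs (cup F) s (μ^ℓ) =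
evs (powF ℓ (cup F)) s' μ` (EVS (d)) with a section `s'` (EVS (e)), and `powF ℓ (cup F)` is a `Coch` (EVS (c)), so as
in (4) one gets `TK (fst (powF ℓ (cup F))) 1 B`.
(6) So `‖D n0 ℓ^(k-i0) Δ‖ ≤ C ℓ^(-k)` for the difference `Δ` of the two sides of the theorem, `C = max ‖B x‖`:
`‖Δ‖ ≤ C ‖D n0‖⁻¹ ℓ^(-i0)` for all `i0`, hence `Δ = 0`. -/
def S_PDG : Prop := ∀ n : ℕ, CULP (n + 1) → ∀ (G : Type) [Group G], Pdg G n

/-- PDT (uses PDK, CUP): with bounded torsion the theorem holds in all degrees.  Proof: `cup F` is a `Coch`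
(CUP (b)), `TorBd (G × Z') bG` (`RLP.torBd`), PDK. -/
def S_PDT : Prop := ∀ (G : Type) [Group G] (bG : ℕ), TorBd G bG → ∀ n : ℕ, Pdg G n

/-! ## Modules RPB, RGB, RLB, FNB2, ADB: the theorems of block 3 with `Pdg G n` instead of `TorBd G bG` -/

/-- RPB (uses REA, NIB, SUP): RLP with `Pdg G n`.

Proof: as P_RLP.lean, with the following change.  `F` is also a `GCoch (n + 1) (fun y => y ^ n0 = 1)`
(`pow_orderOf_eq_one`).  By `Pdg` (with REA and NIB for the hypotheses on `B = BT ..`), `TK (fst (cup F)) 1 B =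
TK (fst (powF (p^E) (cup F))) 1 B` for all `E`.  The records in the supports of the entries of `UX x.2`,
`x ∈ B.support`, have finitely many endpoints (SUP (b)); let `b` be a bound for the orders of those endpoints `y`
which have finite order, and `b < p^E`.  For such an endpoint `y` one has `powF (p^E) (cup F) a y = 0` (the proof of
`RLP.powF_zero`; if `y` has infinite order then `(y.1)^(p^E)` does not have order `n0` or `y.2 ≠ 1`).  So by SUP (c)
(with `S` the closure of the supports; at level `N = 1`, or directly) `TX (fst (powF ..)) 1 x.2 = TX 0 1 x.2 = 0`.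
For this use: the coefficients of `(UX X)^1` are those of `UX X`; `lin φ` only depends on `φ` on the support. -/
def S_RPB : Prop := ∀ (G : Type) [Group G] (n n0 : ℕ), 0 < n0 → Pdg G n →
    ∀ (p : ℕ) [Fact p.Prime], p ∣ n0 → ∀ (D : Dat G n)
      (e : ∀ j, IdemMat (LaurentPolynomial (MonoidAlgebra ℤ (Cyc (D.N j)))))
      (d : ∀ j, Fin (e j).n → Bool)
      (T : ∀ j, (Matrix (Fin (e j).n) (Fin (e j).n)
        (MonoidAlgebra ℚ_[p] (Cyc (D.N j) × Multiplicative ℤ)))ˣ),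
    (∀ j, Trv ℚ_[p] (e j) (d j) (T j)) → (∀ j, NIU (T j)) →
    ∀ (b : SCh (LaurentPolynomial (MonoidAlgebra ℤ G)) (n + 3))
      (κ : SCh (LaurentPolynomial (MonoidAlgebra ℤ G)) (n + 2)),
    κ ∈ Kil (MonoidAlgebra ℤ G) (n + 2) →
    D.ch e = bdS (LaurentPolynomial (MonoidAlgebra ℤ G)) (n + 2) b + κ →
    ∀ F : (Fin (n + 2) → G) → G → ℚ, GCoch (n + 1) (fun y => orderOf y = n0) F →
    TK ℚ_[p] (fst (cup F)) 1 (BT ℚ_[p] D e b T) = 0

/-- RGB (uses REA, NIB, MPB, INT, SUP): RLG with `Pdg G n`.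

Proof: as P_RLG.lean, with the following change.  Let `b` be a bound for the orders of the endpoints of
finite order of the records in the supports of the entries of `UX x.2`, `x ∈ (BT ℚ D e b X).support` (finitely
many, SUP (b) over `ℚ`), and choose `ℓ > b` (INT).  As in RLG, `Pdg` with `e = 1` over `ℚ_ℓ` for the matrices
`mapU X`, and MPB (a) (for `φ = fst (cup F)` and for `φ = fst (powF ℓ (cup F))`) together with the injectivity of
`ℚ → ℚ_ℓ` give `TK ℚ (fst (cup F)) 1 (BT ℚ ..) = TK ℚ (fst (powF ℓ (cup F))) 1 (BT ℚ ..)`.  On the records in the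
supports (level `1`) `powF ℓ (cup F) = cup (twF n0 a F)`: their endpoints `y` have infinite order or order `< ℓ`, and
the argument of RLG applies.  So the two functions have the same `TX .. 1 x.2` (see RPB). -/
def S_RGB : Prop := ∀ (G : Type) [Group G] (n n0 : ℕ), 0 < n0 → Pdg G n →
    ∀ (a : ℕ), a.Coprime n0 → ∀ (D : Dat G n)
      (e : ∀ j, IdemMat (LaurentPolynomial (MonoidAlgebra ℤ (Cyc (D.N j)))))
      (d : ∀ j, Fin (e j).n → Bool)
      (X : ∀ j, (Matrix (Fin (e j).n) (Fin (e j).n)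
        (MonoidAlgebra ℚ (Cyc (D.N j) × Multiplicative ℤ)))ˣ),
    (∀ j, Trv ℚ (e j) (d j) (X j)) →
    ∀ (b : SCh (LaurentPolynomial (MonoidAlgebra ℤ G)) (n + 3))
      (κ : SCh (LaurentPolynomial (MonoidAlgebra ℤ G)) (n + 2)),
    κ ∈ Kil (MonoidAlgebra ℤ G) (n + 2) →
    D.ch e = bdS (LaurentPolynomial (MonoidAlgebra ℤ G)) (n + 2) b + κ →
    ∀ F : (Fin (n + 2) → G) → G → ℚ, GCoch (n + 1) (fun y => orderOf y = n0) F →
    TK ℚ (fst (cup (twF n0 a F))) 1 (BT ℚ D e b X) = TK ℚ (fst (cup F)) 1 (BT ℚ D e b X)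

/-- RLB (uses RPB, RLD, RGB, MPB): REL3 with `Pdg G n`.  Proof: copy of `t_REL3` in P_REL.lean. -/
def S_RLB : Prop := ∀ (G : Type) [Group G] (n n0 : ℕ), 0 < n0 → Pdg G n →
    ∀ (D : Dat G n) (e : ∀ j, IdemMat (LaurentPolynomial (MonoidAlgebra ℤ (Cyc (D.N j)))))
      (v : ∀ (j : D.J) (p : ℕ), [Fact p.Prime] → Cyc (D.N j) → ℚ_[p]),
    (∀ j, LocE (e j) (fun p _ => v j p)) →
    D.ch e ∈ LinearMap.range (bdS (LaurentPolynomial (MonoidAlgebra ℤ G)) (n + 2)) ⊔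
      Kil (MonoidAlgebra ℤ G) (n + 2) →
    ∃ Q : ((Fin (n + 2) → G) → G → ℚ) → ℚ, QF D v n0 Q

/-- ADB (uses BRG, RST, FCH, RLB, FNB, FNC): the core theorem in the form of `StF.lean`, with `Pdg G n`.

Proof: first FINC with `Pdg G n` instead of `TorBd G bG`: copy of `t_FIN` in P_FIN.lean with RLB instead of
REL3.  Then copy of `t_ADP` in P_ADP.lean. -/
def S_ADB : Prop :=
    ∀ (ε : ∀ N : ℕ, ℕ → IdemMat (LaurentPolynomial (MonoidAlgebra ℤ (Cyc N))))
      (v : ∀ (N : ℕ) (_ : ℕ) (q : ℕ), [Fact q.Prime] → Cyc N → ℚ_[q]) (K : ℕ → ℕ), NodeD ε v K →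
    ∀ (G : Type) [Group G] (n : ℕ), Pdg G n →
    ∀ (L : ∀ (_ : ℕ) (h : G), HQ (n + 1) (Cen h) →ₗ[ℚ] ℚ), AdmL n G L →
    ∀ (J : Type) (s : Finset J) (q : J → ℚ) (N p : J → ℕ) (φ : ∀ j, Cyc (N j) →* G)
      (c : ∀ j, HQ (n + 1) (Cen (φ j (gen (N j))))),
    (∀ j, 0 < N j) → (∀ j, (p j).Prime) → (∀ j, p j ∣ N j) → (∀ j, Function.Injective (φ j)) →
    ∑ j ∈ s, q j • KB.mk n (MonoidAlgebra ℤ G) (ε (N j) (p j)).n
      (HQ.map (n + 1) (rhoC (ε (N j) (p j)) (φ j)) (c j)) = 0 →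
    ∑ j ∈ s, q j * L (p j) (φ j (gen (N j))) (c j) = 0

end Pool.Agent.FJA
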