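import Pool.Agent.FJA.St9
import Pool.Agent.FJA.P_TWI
import Pool.Agent.FJA.P_LAU
import Pool.Agent.FJA.P_EV0
import Pool.Agent.FJA.P_EV1

/-!
# Module EPN: the terms which vanish
-/

set_option autoImplicit false

open Matrix Pool.Agent.WhK Pool.Agent.Lib25

noncomputable section

namespace Pool.Agent.FJA

namespace EPN

/-- The functional vanishes for the zero function. -/
theorem TX_zero (k : Type) [Field k] {Γ : Type} [Group Γ] {ι : Type} [Fintype ι]
    [DecidableEq ι] {M N : ℕ} (X : Fin M → (Matrix ι ι (MonoidAlgebra k Γ))ˣ) :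
    TX (fun _ : Rec Γ (Fin M) => (0 : ℚ)) N X = 0 := by
  unfold TX
  rw [lin_apply]
  simp [Finsupp.sum]

theorem evs_zero {Γ : Type} [Group Γ] {M : ℕ} {F : (Fin M → Γ) → Γ → ℚ}
    (s : List Γ → Γ → (Γ →₀ ℚ)) (μ : Rec Γ (Fin M)) (h : ∀ a, F a μ.val = 0) :
    evs F s μ = 0 := by
  unfold evs
  split_ifs
  · unfold mex
    refine Finset.sum_eq_zero fun x _ => ?_
    have h1 := h x
    dsimp only
    rw [h1, mul_zero]
  · rfl

/-- `psiN` vanishes at the paths where the cochain vanishes. -/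
theorem psiN_zero {Γ : Type} [Group Γ] {M : ℕ} (p k r : ℕ) (F : (Fin (M + 1) → Γ) → Γ → ℚ)
    (s : List Γ → Γ → (Γ →₀ ℚ)) (j : List Γ → Γ → ZMod (p ^ r)) (μ : Rec Γ (Fin (M + 2)))
    (h : ∀ a, F a μ.val = 0) : psiN p k r F s j μ = 0 := by
  unfold psiN
  split_ifs
  · rw [evs_zero s (Rec.res Fin.castSucc μ) h, zero_mul]
  · rfl

/-- `psiN` vanishes at the paths with endpoint of order prime to `p`. -/
theorem psiN_zero' {Γ : Type} [Group Γ] {M : ℕ} (p k r : ℕ) (F : (Fin (M + 1) → Γ) → Γ → ℚ)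
    (s : List Γ → Γ → (Γ →₀ ℚ)) (j : List Γ → Γ → ZMod (p ^ r)) (μ : Rec Γ (Fin (M + 2)))
    (h : ¬ p ∣ orderOf μ.val) : psiN p k r F s j μ = 0 := by
  unfold psiN
  rw [if_neg]
  rintro ⟨-, -, h1, -⟩
  exact h h1

/-- `psiN` composed with a power -/
def psE {Γ : Type} [Group Γ] {M : ℕ} (p k r : ℕ) (F : (Fin (M + 1) → Γ) → Γ → ℚ)
    (s : List Γ → Γ → (Γ →₀ ℚ)) (j : List Γ → Γ → ZMod (p ^ r)) (e : ℕ)
    (μ : Rec Γ (Fin (M + 2))) : ℚ := psiN p k r F s j (μ ^ e)

theorem val_pow {Γ V : Type} [Group Γ] (μ : Rec Γ V) (e : ℕ) : (μ ^ e).val = μ.val ^ e :=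
  map_pow Rec.valHom μ e

theorem order_pow {N N1 p : ℕ} [NeZero N] (hp : p.Prime) (hN : N ≤ N1) (hpN : p ∣ N1)
    (hN1 : 0 < N1) (c : Cyc N) : orderOf (c ^ p) ≠ N1 := by
  intro h
  have hfin : Finite (Cyc N) := inferInstanceAs (Finite (ZMod N))
  have h1 : orderOf (c ^ p) ∣ orderOf c := orderOf_pow_dvd p
  have h2 : orderOf c ≤ N := by
    have h3 := orderOf_le_card (x := c)
    rwa [Nat.card_congr (Multiplicative.toAdd : Multiplicative (ZMod N) ≃ ZMod N),
      Nat.card_zmod] at h3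
  have h0 : 0 < orderOf c := orderOf_pos c
  have h3 : orderOf c = N1 := by
    have h4 := Nat.le_of_dvd h0 h1
    omega
  have h4 := orderOf_pow c (n := p)
  rw [h, h3, Nat.gcd_eq_right hpN] at h4
  have h5 : N1 / p < N1 := Nat.div_lt_self hN1 hp.one_lt
  omega

/-- the function of the part (a) vanishes on the twisted paths -/
theorem psi_tw {G : Type} [Group G] {p : ℕ} (hp : p.Prime) (k r m : ℕ) {N N1 : ℕ} [NeZero N]
    (φ : Cyc N →* G) (hφ : Function.Injective φ) (hN : N ≤ N1) (hpN : p ∣ N1) (hN1 : 0 < N1)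
    {S : G → Prop} {F : (Fin (m + 1) → G) → G → ℚ} (hS : ∀ y, S y → orderOf y = N1)
    (hF : GCoch m S F)
    (s : List (G × Multiplicative ℤ) → G × Multiplicative ℤ → (G × Multiplicative ℤ →₀ ℚ))
    (j : List (G × Multiplicative ℤ) → G × Multiplicative ℤ → ZMod (p ^ r))
    (γ : Fin (m + 3) → G × Multiplicative ℤ) (μ : Rec (Cyc N) (Fin (m + 3))) :
    psE p k r (cup F) s j p (twR (EV0.ff φ) γ μ) = 0 := by
  unfold psE
  refine psiN_zero p k r (cup F) s j _ fun a => ?_
  rw [val_pow]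
  have h1 : ((twR (EV0.ff φ) γ μ).val ^ p : G × Multiplicative ℤ).1 = φ (μ.val ^ p) := by
    rw [Prod.pow_fst, map_pow]
    rfl
  unfold cup
  split_ifs
  · rw [h1]
    by_cases h2 : F (fun i => (a i.castSucc).1) (φ (μ.val ^ p)) = 0
    · rw [h2, zero_mul]
    · exfalso
      have h3 := hS _ (hF.supp _ _ h2)
      rw [orderOf_injective φ hφ] at h3
      exact order_pow hp hN hpN hN1 _ h3
  · rfl

/-- The simplices of `Γ` do not contribute. -/
theorem TX_mon {G : Type} [Group G] (p : ℕ) [Fact p.Prime] (k r M K e : ℕ)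
    (F : (Fin (M + 1) → G × Multiplicative ℤ) → G × Multiplicative ℤ → ℚ)
    (s : List (G × Multiplicative ℤ) → G × Multiplicative ℤ → (G × Multiplicative ℤ →₀ ℚ))
    (j : List (G × Multiplicative ℤ) → G × Multiplicative ℤ → ZMod (p ^ r))
    (X : Fin (M + 2) → G × Multiplicative ℤ) :
    TX (psE p k r F s j e) K (fun i => cvt ℚ_[p] 1 (gl1 (mon (G := G)) (X i))) = 0 := by
  have h1 := t_TWI ℚ_[p] (Multiplicative (Fin 1)) (G × Multiplicative ℤ) 1 (Fin 1) (M + 2) K
    (psE p k r F s j e) X (fun i x => by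
      rw [MonoidHom.one_apply]
      exact Commute.one_right _) (fun _ => 1)
  have h2 : (fun i => cvt ℚ_[p] 1 (gl1 (mon (G := G)) (X i))) =
      fun i : Fin (M + 2) => sclU ℚ_[p] (Fin 1) (X i) * glG (k := ℚ_[p]) (Γ' :=
        Multiplicative (Fin 1)) (Γ := G × Multiplicative ℤ) (ι := Fin 1) 1 1 := by
    funext i
    rw [map_one, mul_one]
    apply Units.ext
    refine Matrix.ext fun a b => ?_
    change lauZ ℚ_[p] G ((Matrix.diagonal fun _ => mon (X i)) a b) =
      (Matrix.diagonal fun _ => MonoidAlgebra.of ℚ_[p] (G × Multiplicative ℤ) (X i)) a b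
    have hab : a = b := Subsingleton.elim _ _
    subst hab
    rw [Matrix.diagonal_apply_eq, Matrix.diagonal_apply_eq]
    have h3 : mon (X i) = (AddMonoidAlgebra.single (Multiplicative.toAdd (X i).2)
      (MonoidAlgebra.single (X i).1 1) : LaurentPolynomial (MonoidAlgebra ℤ G)) := rfl
    rw [h3, LAU.lauZ_single]
    simp
  rw [h2, h1]
  have h4 : (fun μ : Rec (Multiplicative (Fin 1)) (Fin (M + 2)) =>
      psE p k r F s j e (twR 1 X μ)) = fun _ => 0 := by
    funext μ
    unfold psE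
    refine psiN_zero' p k r F s j _ fun h5 => ?_
    rw [val_pow] at h5
    have h6 : (twR (1 : Multiplicative (Fin 1) →* G × Multiplicative ℤ) X μ).val = 1 := rfl
    rw [h6, one_pow, orderOf_one] at h5
    exact (Fact.out : p.Prime).one_lt.ne' (Nat.dvd_one.1 h5)
  rw [h4]
  exact TX_zero _ _

theorem TS_mon {G : Type} [Group G] (p : ℕ) [Fact p.Prime] (k r M K e : ℕ)
    (F : (Fin (M + 1) → G × Multiplicative ℤ) → G × Multiplicative ℤ → ℚ)
    (s : List (G × Multiplicative ℤ) → G × Multiplicative ℤ → (G × Multiplicative ℤ →₀ ℚ))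
    (j : List (G × Multiplicative ℤ) → G × Multiplicative ℤ → ZMod (p ^ r))
    (w : (Fin (M + 2) → G × Multiplicative ℤ) →₀ ℚ) :
    TS ℚ_[p] (psE p k r F s j e) K
      (kinS (LaurentPolynomial (MonoidAlgebra ℤ G)) (M + 2) 1
        (hmap ℚ (gl1 mon) (M + 2) w)) = 0 := by
  induction w using Finsupp.induction_linear with
  | zero => rw [map_zero, map_zero, map_zero]
  | add x y hx hy => rw [map_add, map_add, map_add, hx, hy, add_zero]
  | single X c =>
    have h1 : hmap ℚ (gl1 (mon (G := G))) (M + 2) (Finsupp.single X c) =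
        Finsupp.single (fun i => gl1 mon (X i)) c := Finsupp.mapDomain_single
    have h2 : kinS (LaurentPolynomial (MonoidAlgebra ℤ G)) (M + 2) 1
        (Finsupp.single (fun i => gl1 mon (X i)) c) =
        Finsupp.single ⟨1, fun i => gl1 mon (X i)⟩ c := Finsupp.mapDomain_single
    rw [h1, h2]
    unfold TS
    rw [Finsupp.linearCombination_single, TX_mon, smul_zero]

end EPN

open EV1 EPN in
/-- EPN: the terms which vanish. -/
theorem t_EPN : S_EPN := by
  classical
  refine ⟨?_, ?_⟩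
  · intro G _ p _ k r m N N1 K _ φ hφ hN hpN hN1 S F hS hF s j u w
    change TS ℚ_[p] (psE p k r (cup F) s j p) K (E1 m φ u w) = 0
    have key : ∀ (Z : Fin (m + 1) → Cen (φ (gen N))) (i : Fin (m + 1)) (i' : Fin (m + 2)),
        TX (psE p k r (cup F) s j p) K (fun l : Fin (m + 3) => cvt ℚ_[p] 1
          (mix id (fun x => x * sEl G)
            (mix (fun z : Cen (φ (gen N)) => gl1 elt (z : G))
              (fun z : Cen (φ (gen N)) => gl1 elt (z : G) * uEl φ u) Z i) i' l)) = 0 := by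
      intro Z i i'
      have h1 : (fun l : Fin (m + 3) => cvt ℚ_[p] 1
          (mix id (fun x => x * sEl G)
            (mix (fun z : Cen (φ (gen N)) => gl1 elt (z : G))
              (fun z : Cen (φ (gen N)) => gl1 elt (z : G) * uEl φ u) Z i) i' l)) =
          fun l : Fin (m + 3) => sclU ℚ_[p] (Fin 1) ((Z (i.predAbove (i'.predAbove l)) : G),
            Multiplicative.ofAdd (bb (l ≤ i'.castSucc))) *
          glG (EV0.ff φ) (sc (vv (uZ p u) (i'.predAbove l ≤ i.castSucc))) := by
        funext l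
        rw [vert p m φ u Z i i' l, ← EV0.glG_comp]
        rfl
      rw [h1, t_TWI ℚ_[p] (Cyc N) (G × Multiplicative ℤ) (EV0.ff φ) (Fin 1) (m + 3) K
        (psE p k r (cup F) s j p)
        (fun l => ((Z (i.predAbove (i'.predAbove l)) : G),
            Multiplicative.ofAdd (bb (l ≤ i'.castSucc))))
        (fun l x => EV0.comm φ _ _ x)
        (fun l => sc (vv (uZ p u) (i'.predAbove l ≤ i.castSucc)))]
      have h4 : (fun μ : Rec (Cyc N) (Fin (m + 3)) => psE p k r (cup F) s j p
          (twR (EV0.ff φ) (fun l => ((Z (i.predAbove (i'.predAbove l)) : G),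
            Multiplicative.ofAdd (bb (l ≤ i'.castSucc)))) μ)) = fun _ => 0 := by
        funext μ
        exact psi_tw (Fact.out : p.Prime) k r m φ hφ hN hpN hN1 hS hF s j _ μ
      rw [h4]
      exact TX_zero _ _
    induction w using Finsupp.induction_linear with
    | zero => rw [E1_zero, map_zero]
    | add w w' hw hw' => rw [E1_add, map_add, hw, hw', add_zero]
    | single Z q =>
      rw [E1_single, map_smul, map_sum, Finset.sum_eq_zero, smul_zero]
      intro i _
      rw [map_smul, map_sum, Finset.sum_eq_zero, smul_zero]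
      intro i' _
      have h8 := key Z i i'
      unfold TS
      rw [map_smul, Finsupp.linearCombination_single, one_smul]
      refine Eq.trans (congrArg _ h8) (smul_zero _)
  · intro G _ p _ k r m K e _ F s j w0
    exact TS_mon p k r (m + 1) K e (cup F) s j w0

end Pool.Agent.FJA
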