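import Pool.Agent.FJA.St9
import Pool.Agent.FJA.P_FST
import Pool.Agent.FJA.P_GRA
import Pool.Agent.FJA.P_GAS
import Pool.Agent.FJA.P_ADN

/-!
# Module FSN: the functional on units close to one (markings modulo `p ^ r`)
-/

set_option autoImplicit false

open Matrix

noncomputable section

namespace Pool.Agent.FJA

namespace FSN

open FST

variable {p : ℕ} [Fact p.Prime] {C : Type} [CommGroup C]

open Classical in
theorem lam_m1 {k r : ℕ} {j : List C → C → ZMod (p ^ r)} (hj : MrkR C p k r j)
    (hr : 0 < r) {c : C} (hc : IsOfFinOrder c) (hp : p ∣ orderOf c) (t s : ℕ)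
    (hts : t + s + 1 = p ^ k) (g : C) : lamN p k r j c (m1 t s g) = if g = c then 1 else 0 := by
  classical
  split_ifs with hg
  · subst hg
    have hlen : ∀ i, ((m1 t s g).lst i).length = p ^ k := by
      intro i
      fin_cases i
      · change ((m1 t s g).lst 0).length = _
        rw [m1_lst0, List.length_cons, List.length_append, List.length_replicate,
          List.length_replicate, hts]
      · change ((m1 t s g).lst 1).length = _
        rw [m1_lst1, List.length_append, List.length_append, List.length_replicate,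
          List.length_replicate, List.length_singleton, hts]
    have hrot : j ((List.replicate t 1 ++ List.replicate s g) ++ [g * 1]) g =
        j (1 :: (List.replicate t 1 ++ List.replicate s g)) g + 1 :=
      hj.rot (1 :: (List.replicate t 1 ++ List.replicate s g)) g (by
        rw [List.length_cons, List.length_append, List.length_replicate, List.length_replicate,
          hts]) hc hp
    rw [ADN.lam_pos _ _ _ _ _ _ ⟨hlen, m1_val t s g⟩, m1_lst0, m1_lst1, hrot,
      add_sub_cancel_left]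
    have h1 : 1 < p ^ r := Nat.one_lt_pow hr.ne' (Fact.out : p.Prime).one_lt
    have : Fact (1 < p ^ r) := ⟨h1⟩
    rw [ZMod.val_one, Nat.cast_one]
  · exact ADN.lam_neg _ _ _ _ _ _ fun h => hg (by rw [← m1_val t s g]; exact h.2)

theorem lam_m2 {k r : ℕ} (j : List C → C → ZMod (p ^ r)) (c : C) (t s : ℕ) (g : C) :
    lamN p k r j c (m2 t s g) = 0 := by
  by_cases h : (∀ i, ((m2 t s g).lst i).length = p ^ k) ∧ (m2 t s g).val = c
  · have : NeZero (p ^ r) := ⟨(pow_pos (Fact.out : p.Prime).pos _).ne'⟩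
    rw [ADN.lam_pos _ _ _ _ _ _ h, m2_lst, sub_self, ZMod.val_zero, Nat.cast_zero]
  · exact ADN.lam_neg _ _ _ _ _ _ h

theorem term1 {k r : ℕ} {j : List C → C → ZMod (p ^ r)} (hj : MrkR C p k r j)
    (hr : 0 < r) {c : C} (hc : IsOfFinOrder c) (hp : p ∣ orderOf c) (a t s : ℕ)
    (hts : t + s + 1 = p ^ k) (x : MonoidAlgebra ℚ_[p] C) :
    lin ℚ_[p] (lo p a (lamN p k r j c)) (T p C * ((w p C 0 * w p C 1) ^ t *
      (w p C 0 * J p C x * w p C 1) * (w p C 0 * w p C 1) ^ s)) =
      (p : ℚ_[p]) ^ a * x.coeff c := by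
  classical
  induction x using MonoidAlgebra.induction_linear with
  | zero => simp
  | add x y hx hy =>
    simp only [map_add, mul_add, add_mul] at hx hy ⊢
    rw [hx, hy, MonoidAlgebra.coeff_add, Finsupp.add_apply, mul_add]
  | single g e =>
    have h : T p C * ((w p C 0 * w p C 1) ^ t * (w p C 0 * J p C (MonoidAlgebra.single g e) *
        w p C 1) * (w p C 0 * w p C 1) ^ s) =
        MonoidAlgebra.single (m1 t s g, Multiplicative.ofAdd 1) e := by
      rw [w_pow, w_pow, J_single]
      unfold w T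
      simp only [MonoidAlgebra.single_mul_single, one_mul, mul_one]
      congr 1
      refine Prod.ext ?_ rfl
      change 1 * (q C ^ t * (Rec.om 0 * Rec.inc g * Rec.om 1) * q C ^ s) = _
      rw [one_mul]
      rfl
    rw [h, lin_single, lo_one, lam_m1 hj hr hc hp t s hts, MonoidAlgebra.coeff_single,
      Finsupp.single_apply]
    split_ifs <;> push_cast <;> ring

theorem term2 {k r : ℕ} (j : List C → C → ZMod (p ^ r)) (c : C) (a t s : ℕ)
    (x : MonoidAlgebra ℚ_[p] C) :
    lin ℚ_[p] (lo p a (lamN p k r j c)) (T p C * ((w p C 0 * w p C 1) ^ t *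
      (w p C 0 * w p C 1 * J p C x) * (w p C 0 * w p C 1) ^ s)) = 0 := by
  induction x using MonoidAlgebra.induction_linear with
  | zero => simp
  | add x y hx hy =>
    simp only [map_add, mul_add, add_mul] at hx hy ⊢
    rw [hx, hy, add_zero]
  | single g e =>
    have h : T p C * ((w p C 0 * w p C 1) ^ t * (w p C 0 * w p C 1 *
        J p C (MonoidAlgebra.single g e)) * (w p C 0 * w p C 1) ^ s) =
        MonoidAlgebra.single (m2 t s g, Multiplicative.ofAdd 1) e := by
      rw [w_pow, w_pow, J_single]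
      unfold w T
      simp only [MonoidAlgebra.single_mul_single, one_mul, mul_one]
      congr 1
      refine Prod.ext ?_ rfl
      change 1 * (q C ^ t * (Rec.om 0 * Rec.om 1 * Rec.inc g) * q C ^ s) = _
      rw [one_mul]
      rfl
    rw [h, lin_single, lo_one, lam_m2, mul_zero, Rat.cast_zero, mul_zero]

theorem lin_lo {k r : ℕ} {j : List C → C → ZMod (p ^ r)} (hj : MrkR C p k r j)
    (hr : 0 < r) {c : C} (hc : IsOfFinOrder c) (hp : p ∣ orderOf c) (a : ℕ)
    (x x' : MonoidAlgebra ℚ_[p] C) :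
    lin ℚ_[p] (lo p a (lamN p k r j c)) (U x x' ^ p ^ k) =
      (p : ℚ_[p]) ^ (k + a) * x.coeff c := by
  obtain ⟨Z, hZ⟩ := U_split x x'
  obtain ⟨Z', hZ'⟩ := pow_split _ _ _ _ hZ (p ^ k)
  have hc1 : (1 : C) ≠ c := by
    rintro rfl
    rw [orderOf_one] at hp
    exact (Fact.out : p.Prime).one_lt.ne' (Nat.dvd_one.1 hp)
  have h0 : lin ℚ_[p] (lo p a (lamN p k r j c)) ((w p C 0 * w p C 1) ^ p ^ k) = 0 := by
    rw [w_pow, lin_single, lo_zero, ADN.lam_neg, Rat.cast_zero, mul_zero]
    rintro ⟨-, h⟩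
    rw [q_val] at h
    exact hc1 h
  have h1 : lin ℚ_[p] (lo p a (lamN p k r j c)) (T p C * S1 (w p C 0 * w p C 1) (B0 x x')
      (p ^ k)) = (p : ℚ_[p]) ^ (k + a) * x.coeff c := by
    unfold S1
    rw [Finset.mul_sum, map_sum]
    have h2 : ∀ t ∈ Finset.range (p ^ k), lin ℚ_[p] (lo p a (lamN p k r j c))
        (T p C * ((w p C 0 * w p C 1) ^ t * B0 x x' * (w p C 0 * w p C 1) ^ (p ^ k - 1 - t))) =
        (p : ℚ_[p]) ^ a * x.coeff c := by
      intro t ht
      rw [Finset.mem_range] at ht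
      have hts : t + (p ^ k - 1 - t) + 1 = p ^ k := by omega
      unfold B0
      rw [mul_add, add_mul, mul_add, map_add, term1 hj hr hc hp a t _ hts, term2, add_zero]
    rw [Finset.sum_congr rfl h2, Finset.sum_const, Finset.card_range, nsmul_eq_mul, pow_add]
    push_cast
    ring
  rw [hZ', map_add, map_add, h0, h1, lin_lo_TT, zero_add, add_zero]

end FSN

open FST in
theorem t_FSN : S_FSN := by
  classical
  intro C _ b hb p _ B hB k r hk hr j hj c hc hpc v a x hx hv hvx
  have hgra : S_GRA := t_GRA t_GAS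
  set x' : MonoidAlgebra ℚ_[p] C := -(x * ((v⁻¹ : (MonoidAlgebra ℚ_[p] C)ˣ) :
    MonoidAlgebra ℚ_[p] C)) with hx'
  have hx'i : NI x' := by
    have h := ADD.ni_mul hx hv
    rw [GAU.ni_iff] at h ⊢
    exact Subring.neg_mem _ h
  have hvx' : ((v⁻¹ : (MonoidAlgebra ℚ_[p] C)ˣ) : MonoidAlgebra ℚ_[p] C) =
      1 + (p : ℚ_[p]) ^ a • x' := by
    have h1 : (v : MonoidAlgebra ℚ_[p] C) * ((v⁻¹ : (MonoidAlgebra ℚ_[p] C)ˣ) :
        MonoidAlgebra ℚ_[p] C) = 1 := by
      rw [← Units.val_mul, mul_inv_cancel, Units.val_one]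
    rw [hvx, add_mul, one_mul, smul_mul_assoc] at h1
    rw [hx', smul_neg, ← h1]
    abel
  rw [TX_eq v a x x' hvx hvx']
  have hsplit : (fun y : Rg C => (p : ℚ) ^ (a * Multiplicative.toAdd y.2) * lamN p k r j c y.1) =
      fun y : Rg C => (if 2 ≤ Multiplicative.toAdd y.2 then
        (p : ℚ) ^ (a * Multiplicative.toAdd y.2) * lamN p k r j c y.1 else 0) +
        lo p a (lamN p k r j c) y := by
    funext y
    unfold lo
    split_ifs
    · rw [add_zero]
    · rw [zero_add]
  rw [hsplit, lin_fadd, FSN.lin_lo hj hr hc hpc, add_sub_cancel_right]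
  have h := hgra C b hb p B hB k hk.le 2 a (lamN p k r j c)
    (fun μ hμ ν _ => ADN.lam_tr hj hc hpc hμ) (by
      intro μ hμ
      by_cases h : (∀ i, (μ.lst i).length = p ^ k) ∧ μ.val = c
      · rw [h.2]
        exact ⟨hc, hpc⟩
      · exact absurd (ADN.lam_neg _ _ _ _ _ _ h) hμ) (by
      intro μ
      by_cases h : (∀ i, (μ.lst i).length = p ^ k) ∧ μ.val = c
      · exact ⟨((j (μ.lst 1) c - j (μ.lst 0) c).val : ℕ), by rw [ADN.lam_pos _ _ _ _ _ _ h]; simp⟩
      · exact ⟨0, by rw [ADN.lam_neg _ _ _ _ _ _ h]; simp⟩)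
    (Fin 1) (Matrix.scalar (Fin 1) (U x x')) (by
      intro i i'
      have hii : i = i' := Subsingleton.elim i i'
      subst hii
      rw [Matrix.scalar_apply, Matrix.diagonal_apply_eq]
      exact ni_U hx hx'i) (by
      intro i i' y hy
      have hii : i = i' := Subsingleton.elim i i'
      subst hii
      rw [Matrix.scalar_apply, Matrix.diagonal_apply_eq] at hy
      exact sp_U x x' y hy)
  rw [← map_pow, Matrix.scalar_apply, Matrix.trace_diagonal, Fin.sum_univ_one] at h
  exact h

end Pool.Agent.FJA
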