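import Pool.Agent.FJA.St9
import Pool.Agent.FJA.P_LIM

/-!
# LIN: the limit is the logarithm, for markings modulo `p ^ r`
-/

set_option autoImplicit false

open Matrix Pool.Agent.WhK Pool.Agent.Lib25

noncomputable section

namespace Pool.Agent.FJA

open LIM in
theorem t_LIN (hadn : S_ADN) (hfsn : S_FSN) : S_LIN := by
  intro C _ b hb p hp B hB u l hl c hc hpc ε hε
  obtain ⟨E, hE, hdiv, hlim⟩ := hl
  have hp0 : (0 : ℝ) < p := by exact_mod_cast hp.out.pos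
  have hp1 : (1 : ℝ) ≤ p := by exact_mod_cast hp.out.one_lt.le
  have hE0 : (0 : ℝ) < ‖((E : ℕ) : ℚ_[p])‖ := by
    rw [norm_pos_iff]
    exact_mod_cast hE.ne'
  obtain ⟨a1, ha1⟩ := Metric.tendsto_atTop.1 (hlim c) ε hε
  obtain ⟨a2, ha2⟩ := small p (‖((E : ℕ) : ℚ_[p])‖⁻¹ * (p : ℝ) ^ B) ε hε
  set a : ℕ := max a1 a2 with ha
  have hA1 := ha1 a (le_max_left _ _)
  have hA2 := ha2 a (le_max_right _ _)
  obtain ⟨K0, hK0⟩ := small p (‖((E : ℕ) : ℚ_[p])‖⁻¹ * (p : ℝ) ^ (a + B)) ε hε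
  refine ⟨max K0 1, lt_of_lt_of_le Nat.one_pos (le_max_right _ _), ?_⟩
  intro r hr k hBk j hj
  have hr0 := hK0 r (le_trans (le_max_left _ _) hr)
  have hrp : 0 < r := lt_of_lt_of_le Nat.one_pos (le_trans (le_max_right _ _) hr)
  -- the functional
  set T : (MonoidAlgebra ℚ_[p] C)ˣ → ℚ_[p] := fun v => TX (lamN p k r j c) (p ^ k) ![1, sc v]
    with hT
  have hTadd : ∀ v v' : (MonoidAlgebra ℤ C)ˣ,
      ‖T (uZ p (v * v')) - T (uZ p v) - T (uZ p v')‖ ≤ (p : ℝ) ^ (-(k + r - B : ℤ)) := by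
    intro v v'
    rw [map_mul]
    exact hadn C b hb p B hB k r hBk.le j hj c hc hpc (uZ p v) (uZ p v') (ni_uZ p v)
      (ni_uZ_inv p v) (ni_uZ p v') (ni_uZ_inv p v')
  have hTpow : ∀ n : ℕ, ‖T (uZ p (u ^ n)) - (n : ℚ_[p]) * T (uZ p u)‖ ≤
      (p : ℝ) ^ (-(k + r - B : ℤ)) := by
    intro n
    induction n with
    | zero =>
      have h1 := hTadd 1 1
      rw [mul_one, sub_self, zero_sub, norm_neg] at h1
      rw [pow_zero, Nat.cast_zero, zero_mul, sub_zero]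
      exact h1
    | succ n ih =>
      have h1 := hTadd (u ^ n) u
      have h2 : T (uZ p (u ^ (n + 1))) - ((n + 1 : ℕ) : ℚ_[p]) * T (uZ p u) =
          (T (uZ p (u ^ n * u)) - T (uZ p (u ^ n)) - T (uZ p u)) +
            (T (uZ p (u ^ n)) - (n : ℚ_[p]) * T (uZ p u)) := by
        rw [pow_succ]
        push_cast
        ring
      rw [h2]
      exact (IsUltrametricDist.norm_add_le_max _ _).trans (max_le h1 ih)
  -- the first order term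
  obtain ⟨y, hy⟩ := exists_pow p (u : MonoidAlgebra ℤ C) E hdiv a
  set n : ℕ := E * p ^ a with hn
  set x : MonoidAlgebra ℚ_[p] C := MonoidAlgebra.mapRingHom C (Int.castRingHom ℚ_[p]) y with hx
  have hxc : ∀ d : C, x.coeff d = ((y.coeff d : ℤ) : ℚ_[p]) := by
    intro d
    rw [hx, MonoidAlgebra.coeff_mapRingHom]
    rfl
  have hxn : NI x := by
    intro d
    rw [hxc]
    exact Padic.norm_int_le_one _
  have hval : ((uZ p (u ^ n) : (MonoidAlgebra ℚ_[p] C)ˣ) : MonoidAlgebra ℚ_[p] C) =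
      1 + (p : ℚ_[p]) ^ (a + 1) • x := by
    have h1 : ((uZ p (u ^ n) : (MonoidAlgebra ℚ_[p] C)ˣ) : MonoidAlgebra ℚ_[p] C) =
        MonoidAlgebra.mapRingHom C (Int.castRingHom ℚ_[p]) ((u : MonoidAlgebra ℤ C) ^ n) := rfl
    have h2 : (u : MonoidAlgebra ℤ C) ^ n = 1 + ((p : ℤ) ^ (a + 1)) • y := by
      rw [← hy]
      ring
    rw [h1, h2, map_add, map_one]
    congr 1
    ext d
    rw [MonoidAlgebra.coeff_mapRingHom]
    have h3 : (((p : ℤ) ^ (a + 1)) • y).coeff d = ((p : ℤ) ^ (a + 1)) * y.coeff d := rfl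
    have h4 : ((p : ℚ_[p]) ^ (a + 1) • x).coeff d = (p : ℚ_[p]) ^ (a + 1) * x.coeff d := rfl
    rw [h3, h4, hxc, eq_intCast]
    push_cast
    ring
  have hfst1 := hfsn C b hb p B hB k r hBk hrp j hj c hc hpc (uZ p (u ^ n)) (a + 1) x hxn
    (ni_uZ_inv p (u ^ n)) hval
  set w : ℚ_[p] := ((((u : MonoidAlgebra ℤ C) ^ n - 1).coeff c : ℤ) : ℚ_[p]) with hw
  have hw1 : w = (p : ℚ_[p]) ^ (a + 1) * x.coeff c := by
    have h3 : (((p : ℤ) ^ (a + 1)) • y).coeff c = ((p : ℤ) ^ (a + 1)) * y.coeff c := rfl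
    rw [hw, hy, h3, hxc]
    push_cast
    ring
  have hfst2 : ‖T (uZ p (u ^ n)) - (p : ℚ_[p]) ^ k * w‖ ≤
      (p : ℝ) ^ (-(2 * (a + 1 : ℕ) + k - B : ℤ)) := by
    have h3 : (p : ℚ_[p]) ^ k * w = (p : ℚ_[p]) ^ (k + (a + 1)) * x.coeff c := by
      rw [hw1, pow_add]
      ring
    rw [h3]
    exact hfst1
  have hmid : ‖(n : ℚ_[p]) * T (uZ p u) - (p : ℚ_[p]) ^ k * w‖ ≤
      max ((p : ℝ) ^ (-(k + r - B : ℤ))) ((p : ℝ) ^ (-(2 * (a + 1 : ℕ) + k - B : ℤ))) := by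
    have h3 : (n : ℚ_[p]) * T (uZ p u) - (p : ℚ_[p]) ^ k * w =
        -(T (uZ p (u ^ n)) - (n : ℚ_[p]) * T (uZ p u)) +
          (T (uZ p (u ^ n)) - (p : ℚ_[p]) ^ k * w) := by
      ring
    rw [h3]
    refine (IsUltrametricDist.norm_add_le_max _ _).trans ?_
    rw [norm_neg]
    exact max_le_max (hTpow n) hfst2
  -- division
  have hpk : (p : ℚ_[p]) ^ k ≠ 0 := by
    have : (p : ℚ_[p]) ≠ 0 := by exact_mod_cast hp.out.ne_zero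
    exact pow_ne_zero _ this
  have hn0 : (n : ℚ_[p]) ≠ 0 := by
    have : n ≠ 0 := Nat.mul_ne_zero hE.ne' (pow_ne_zero _ hp.out.ne_zero)
    exact_mod_cast this
  have hnormn : ‖(n : ℚ_[p])‖ = ‖((E : ℕ) : ℚ_[p])‖ * (p : ℝ) ^ (-(a : ℤ)) := by
    rw [hn, Nat.cast_mul, norm_mul, Nat.cast_pow, Padic.norm_p_pow]
  have hnormk : ‖(p : ℚ_[p]) ^ k‖ = (p : ℝ) ^ (-(k : ℤ)) := Padic.norm_p_pow k
  have hdivn : ((p : ℚ_[p]) ^ k)⁻¹ * T (uZ p u) - w / (n : ℚ_[p]) =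
      ((n : ℚ_[p]) * T (uZ p u) - (p : ℚ_[p]) ^ k * w) / ((p : ℚ_[p]) ^ k * (n : ℚ_[p])) := by
    field_simp
  have hden : ‖(p : ℚ_[p]) ^ k * (n : ℚ_[p])‖⁻¹ =
      ‖((E : ℕ) : ℚ_[p])‖⁻¹ * (p : ℝ) ^ ((a : ℤ) + k) := by
    rw [norm_mul, hnormk, hnormn, mul_inv, mul_inv, ← _root_.zpow_neg, ← _root_.zpow_neg, neg_neg, neg_neg,
      zpow_add₀ hp0.ne']
    ring
  have hb1 : (p : ℝ) ^ (-(k + r - B : ℤ)) * ‖(p : ℚ_[p]) ^ k * (n : ℚ_[p])‖⁻¹ ≤ ε := by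
    refine le_trans (le_of_eq ?_) hr0
    rw [hden, inv_pow, ← zpow_natCast (p : ℝ) (a + B), ← zpow_natCast (p : ℝ) r, ← _root_.zpow_neg,
      mul_assoc, ← zpow_add₀ hp0.ne', ← mul_assoc, mul_comm ((p : ℝ) ^ _) (‖((E : ℕ) : ℚ_[p])‖⁻¹),
      mul_assoc, ← zpow_add₀ hp0.ne']
    congr 2
    push_cast
    ring
  have hb2 : (p : ℝ) ^ (-(2 * (a + 1 : ℕ) + k - B : ℤ)) * ‖(p : ℚ_[p]) ^ k * (n : ℚ_[p])‖⁻¹ ≤
      ε := by
    refine le_trans ?_ hA2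
    rw [hden, inv_pow, ← zpow_natCast (p : ℝ) B, ← zpow_natCast (p : ℝ) a, ← _root_.zpow_neg,
      mul_assoc (‖((E : ℕ) : ℚ_[p])‖⁻¹), ← zpow_add₀ hp0.ne', ← mul_assoc,
      mul_comm ((p : ℝ) ^ _) (‖((E : ℕ) : ℚ_[p])‖⁻¹), mul_assoc, ← zpow_add₀ hp0.ne']
    refine mul_le_mul_of_nonneg_left ?_ (inv_nonneg.2 (norm_nonneg _))
    refine zpow_le_zpow_right₀ hp1 ?_
    push_cast
    linarith
  have hL : ‖((p : ℚ_[p]) ^ k)⁻¹ * T (uZ p u) - w / (n : ℚ_[p])‖ ≤ ε := by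
    rw [hdivn, norm_div, div_eq_mul_inv]
    refine le_trans (mul_le_mul_of_nonneg_right hmid (inv_nonneg.2 (norm_nonneg _))) ?_
    rcases max_cases ((p : ℝ) ^ (-(k + r - B : ℤ)))
      ((p : ℝ) ^ (-(2 * (a + 1 : ℕ) + k - B : ℤ))) with h | h
    · rw [h.1]
      exact hb1
    · rw [h.1]
      exact hb2
  have hfin : ((p : ℚ_[p]) ^ k)⁻¹ * T (uZ p u) - l c =
      (((p : ℚ_[p]) ^ k)⁻¹ * T (uZ p u) - w / (n : ℚ_[p])) + (w / (n : ℚ_[p]) - l c) := by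
    ring
  have hA3 : ‖w / (n : ℚ_[p]) - l c‖ ≤ ε := by
    rw [dist_eq_norm] at hA1
    exact hA1.le
  show ‖((p : ℚ_[p]) ^ k)⁻¹ * T (uZ p u) - l c‖ ≤ ε
  rw [hfin]
  exact (IsUltrametricDist.norm_add_le_max _ _).trans (max_le hL hA3)

end Pool.Agent.FJA
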