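import Pool.Agent.FJA.St8
import Pool.Agent.FJA.P_RLP
import Pool.Agent.FJA.CoreAll

/-!
# PDT: with bounded torsion the adic theorem holds in all degrees
-/

set_option autoImplicit false

open Matrix Pool.Agent.WhK Pool.Agent.Lib25

noncomputable section

namespace Pool.Agent.FJA

theorem t_PDT : S_PDT := by
  intro G _ bG hb n n0 hn0 ℓ _ F hF B hB hη e
  have hF' : Coch (sg2 G) (n + 2) (cup F) :=
    (t_CUP G (n + 1) F).2 (fun y => y ^ n0 = 1)
      (fun y hy => isOfFinOrder_iff_pow_eq_one.2 ⟨n0, hn0, hy⟩) hF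
  exact h_PDK (G × Multiplicative ℤ) (sg2 G) bG (RLP.torBd hb) ℓ (n + 2) (cup F) hF' B hB hη e

end Pool.Agent.FJA
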