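import Pool.Agent.FJA.P_SEC
import Pool.Agent.FJA.St8

/-!
# FJA: the module PER

For `k` large the stabilisers of the vertices of length `ℓ ^ k` are small, if the increments of the
extended list are in a given finite set.
-/

set_option autoImplicit false

open Pool.Agent.WhK Pool.Agent.Lib25

namespace Pool.Agent.FJA

namespace PER

variable {Γ : Type} [Group Γ]

lemma rotL_ne {Y : List Γ} (hY : Y ≠ []) (y : Γ) : rotL y Y ≠ [] := by
  cases Y with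
  | nil => exact absurd rfl hY
  | cons a Y => simp [rotL]

lemma sq_rotL {Y : List Γ} (hY : Y ≠ []) (y : Γ) (n : ℤ) :
    SEC.sq (rotL y Y) y n = SEC.sq Y y (n + 1) := by
  cases Y with
  | nil => exact absurd rfl hY
  | cons a Y => exact SEC.sq_rot a Y y n

lemma iter (y : Γ) (e : ℕ) : ∀ {Y : List Γ}, Y ≠ [] →
    (rotL y)^[e] Y ≠ [] ∧ ∀ n : ℤ, SEC.sq ((rotL y)^[e] Y) y n = SEC.sq Y y (n + e) := by
  induction e with
  | zero => intro Y hY; exact ⟨hY, fun n => by simp⟩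
  | succ e ih =>
    intro Y hY
    obtain ⟨h1, h2⟩ := ih (rotL_ne hY y)
    refine ⟨h1, fun n => ?_⟩
    rw [Function.iterate_succ_apply, h2, sq_rotL hY]
    congr 1
    push_cast
    ring

lemma head_eq {Y : List Γ} (hY : Y ≠ []) (y : Γ) : Y.headD 1 = SEC.sq Y y 0 := by
  cases Y with
  | nil => exact absurd rfl hY
  | cons a Y => simp [SEC.sq]

lemma head_iter {Y : List Γ} (hY : Y ≠ []) (y : Γ) (e : ℕ) :
    ((rotL y)^[e] Y).headD 1 = SEC.sq Y y e := by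
  obtain ⟨h1, h2⟩ := iter y e hY
  rw [head_eq h1 y, h2, zero_add]

/-- A stabiliser in terms of the extended list. -/
lemma stb {Y : List Γ} (hY : Y ≠ []) {y δ : Γ} {e : ℕ} (h : Stb Y y δ e) (n : ℤ) :
    SEC.sq Y y n = δ * SEC.sq Y y (n + e) := by
  obtain ⟨h1, h2⟩ := iter y e hY
  have h3 : δ * y * δ⁻¹ = y := by rw [h.1]; group
  have h4 := SEC.sq_conj h1 δ y n
  rw [h3, h.2, h2] at h4
  exact h4

lemma pow_shift {A : ℤ → Γ} {δ : Γ} {d : ℕ} (h : ∀ n, A n = δ * A (n + d)) (q : ℕ) (n : ℤ) :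
    A n = δ ^ q * A (n + q * d) := by
  induction q generalizing n with
  | zero => simp
  | succ q ih =>
    rw [ih n, h (n + q * d), pow_succ, mul_assoc]
    push_cast
    rw [show n + (q : ℤ) * d + d = n + ((q : ℤ) + 1) * d by ring]

/-- The smallest period. -/
lemma exists_min {A : ℤ → Γ} (hA : ∃ N : ℕ, 0 < N ∧ ∃ δ : Γ, ∀ n, A n = δ * A (n + N)) :
    ∃ (d : ℕ) (δ0 : Γ), 0 < d ∧ (∀ n, A n = δ0 * A (n + d)) ∧
      ∀ (δ : Γ) (e : ℕ), (∀ n, A n = δ * A (n + e)) → ∃ m : ℕ, e = m * d ∧ δ = δ0 ^ m := by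
  classical
  obtain ⟨hd, δ0, hδ⟩ := Nat.find_spec hA
  refine ⟨Nat.find hA, δ0, hd, hδ, fun δ e h => ?_⟩
  generalize hdd : Nat.find hA = d at hd hδ
  have hmin : ∀ r : ℕ, r < d → ¬ (0 < r ∧ ∃ δ : Γ, ∀ n, A n = δ * A (n + r)) := by
    intro r hr
    exact Nat.find_min hA (by rw [hdd]; exact hr)
  have h1 : e = e / d * d + e % d := (Nat.div_add_mod' e d).symm
  have h2 : ∀ n, A n = (δ0 ^ (e / d))⁻¹ * δ * A (n + (e % d : ℕ)) := by
    intro n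
    have h3 := pow_shift hδ (e / d) (n - (e / d : ℕ) * d)
    rw [sub_add_cancel] at h3
    have h4 := h (n - (e / d : ℕ) * d)
    have h5 : n - ((e / d : ℕ) : ℤ) * d + e = n + (e % d : ℕ) := by
      have h6 : (e : ℤ) = ((e / d : ℕ) : ℤ) * d + (e % d : ℕ) := by exact_mod_cast h1
      omega
    rw [h5, h3] at h4
    rw [mul_assoc, ← h4, inv_mul_cancel_left]
  have h3 : e % d = 0 := by
    by_contra h4
    exact hmin _ (Nat.mod_lt _ hd) ⟨Nat.pos_of_ne_zero h4, _, h2⟩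
  refine ⟨e / d, ?_, ?_⟩
  · rw [h3, add_zero] at h1
    exact h1
  · have h4 := h2 0
    rw [h3, Nat.cast_zero, add_zero] at h4
    have h5 : (δ0 ^ (e / d))⁻¹ * δ = 1 := by
      have := mul_right_cancel (a := (1 : Γ)) (b := A 0) (c := (δ0 ^ (e / d))⁻¹ * δ)
        (by rw [one_mul]; exact h4)
      exact this.symm
    exact (inv_mul_eq_one.mp h5).symm

open scoped Pointwise in
lemma mem_pow [DecidableEq Γ] {A : ℤ → Γ} {L : Finset Γ}
    (h : ∀ e : ℕ, (A e)⁻¹ * A ((e + 1 : ℕ) : ℤ) ∈ L) (j : ℕ) : (A 0)⁻¹ * A j ∈ L ^ j := by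
  induction j with
  | zero => simp
  | succ j ih =>
    have h1 : (A 0)⁻¹ * A ((j + 1 : ℕ) : ℤ) = ((A 0)⁻¹ * A j) * ((A j)⁻¹ * A ((j + 1 : ℕ) : ℤ)) := by
      group
    rw [h1, pow_succ]
    exact Finset.mul_mem_mul ih (h j)

open scoped Pointwise in
/-- A bound for the orders of the products of at most `B` elements. -/
lemma exists_bd (L : Finset Γ) (B : ℕ) : ∃ b : ℕ, ∀ A : ℤ → Γ,
    (∀ e : ℕ, (A e)⁻¹ * A ((e + 1 : ℕ) : ℤ) ∈ L) → ∀ j : ℕ, j ≤ B →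
      orderOf ((A 0)⁻¹ * A j) ≤ b := by
  classical
  refine ⟨(Finset.range (B + 1)).sup fun j => (L ^ j).sup orderOf, fun A hA j hj => ?_⟩
  refine le_trans ?_ (Finset.le_sup (f := fun j => (L ^ j).sup orderOf)
    (Finset.mem_range.mpr (Nat.lt_succ_of_le hj)))
  exact Finset.le_sup (f := orderOf) (mem_pow hA j)

lemma dvd_aux {ℓ : ℕ} (hℓ : ℓ.Prime) {o a c n0 : ℕ} (h0 : o ≠ 0) (h1 : o ∣ ℓ ^ a * n0)
    (h2 : o < ℓ ^ c) : ∃ v n' : ℕ, o = ℓ ^ v * n' ∧ v < c ∧ ¬ ℓ ∣ n' ∧ n' ∣ n0 := by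
  obtain ⟨v, n', hn, ho⟩ := Nat.exists_eq_pow_mul_and_not_dvd h0 ℓ hℓ.ne_one
  refine ⟨v, n', ho, ?_, hn, ?_⟩
  · by_contra h
    have h3 : ℓ ^ c ∣ o := by
      rw [ho]
      exact (pow_dvd_pow ℓ (not_lt.mp h)).mul_right _
    exact absurd (Nat.le_of_dvd (Nat.pos_of_ne_zero h0) h3) (not_le.mpr h2)
  · have h3 : n' ∣ ℓ ^ a * n0 := (Dvd.intro_left _ ho.symm).trans h1
    exact ((hℓ.coprime_iff_not_dvd.mpr hn).symm.pow_right a).dvd_of_dvd_mul_left h3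

end PER

open PER in
theorem t_PER : S_PER := by
  intro Γ _ ℓ hℓ' n0 hn0 L i0
  have hℓ : ℓ.Prime := hℓ'.out
  obtain ⟨b, hb⟩ := exists_bd L (ℓ ^ i0)
  refine ⟨i0 + b, Nat.le_add_right _ _, fun k hk Y y hlen hy hInc => ?_⟩
  have hpos : 0 < ℓ ^ k := pow_pos hℓ.pos k
  have hY : Y ≠ [] := by
    rw [← List.length_pos_iff, hlen]
    exact hpos
  have hA : ∀ n, SEC.sq Y y n = y⁻¹ * SEC.sq Y y (n + (ℓ ^ k : ℕ)) := by
    intro n
    have := SEC.sq_add hY y n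
    rw [hlen] at this
    rw [this, inv_mul_cancel_left]
  obtain ⟨d, δ0, hd, hδ, hgen⟩ := exists_min ⟨ℓ ^ k, hpos, y⁻¹, hA⟩
  obtain ⟨m0, hm0, hym⟩ := hgen _ _ hA
  obtain ⟨i, hik, rfl⟩ := (Nat.dvd_prime_pow hℓ).mp (Dvd.intro_left _ hm0.symm)
  have hm0' : m0 = ℓ ^ (k - i) := by
    have h1 : ℓ ^ k = ℓ ^ (k - i) * ℓ ^ i := by rw [← pow_add, Nat.sub_add_cancel hik]
    rw [h1] at hm0
    exact (Nat.eq_of_mul_eq_mul_right (pow_pos hℓ.pos i) hm0).symm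
  subst hm0'
  have hord : δ0 ^ (ℓ ^ (k - i) * n0) = 1 := by
    rw [pow_mul, ← hym, inv_pow, hy, inv_one]
  have hdv : orderOf δ0 ∣ ℓ ^ (k - i) * n0 := orderOf_dvd_of_pow_eq_one hord
  have hne : orderOf δ0 ≠ 0 := fun h => by
    rw [h, zero_dvd_iff] at hdv
    exact absurd hdv (Nat.mul_pos (pow_pos hℓ.pos _) hn0).ne'
  have hInc' : ∀ e : ℕ, (SEC.sq Y y e)⁻¹ * SEC.sq Y y ((e + 1 : ℕ) : ℤ) ∈ L := by
    intro e
    have := hInc e
    rwa [head_iter hY, head_iter hY] at this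
  have hsm : i < i0 → orderOf δ0 < ℓ ^ (k - i0) := by
    intro hi
    have h1 := hb _ hInc' (ℓ ^ i) (Nat.pow_le_pow_right hℓ.pos hi.le)
    have h2 : (SEC.sq Y y 0)⁻¹ * SEC.sq Y y ((ℓ ^ i : ℕ) : ℤ) =
        (SEC.sq Y y 0)⁻¹ * δ0⁻¹ * ((SEC.sq Y y 0)⁻¹)⁻¹ := by
      have h3 := hδ 0
      rw [zero_add] at h3
      have h4 : SEC.sq Y y ((ℓ ^ i : ℕ) : ℤ) = δ0⁻¹ * SEC.sq Y y 0 := by
        rw [h3, inv_mul_cancel_left]
      rw [h4, inv_inv, mul_assoc]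
    have h5 : orderOf ((SEC.sq Y y 0)⁻¹ * δ0⁻¹ * ((SEC.sq Y y 0)⁻¹)⁻¹) = orderOf δ0⁻¹ :=
      orderOf_injective (MulAut.conj (SEC.sq Y y 0)⁻¹).toMonoidHom
        (MulAut.conj (SEC.sq Y y 0)⁻¹).injective δ0⁻¹
    rw [h2, h5, orderOf_inv] at h1
    calc orderOf δ0 ≤ b := h1
      _ < ℓ ^ b := Nat.lt_pow_self hℓ.one_lt
      _ ≤ ℓ ^ (k - i0) := Nat.pow_le_pow_right hℓ.pos (by omega)
  refine ⟨fun δ e h => ?_, fun hly δ e h => ?_⟩
  · obtain ⟨m, -, rfl⟩ := hgen δ e (stb hY h)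
    rw [← pow_mul, mul_comm m, pow_mul]
    have h1 : orderOf δ0 ∣ n0 * ℓ ^ (k - i0) := by
      rcases Nat.lt_or_ge i i0 with hi | hi
      · obtain ⟨v, n', ho, hv, -, hn'⟩ := dvd_aux hℓ hne hdv (hsm hi)
        rw [ho, mul_comm]
        exact mul_dvd_mul hn' (pow_dvd_pow ℓ hv.le)
      · refine hdv.trans ?_
        rw [mul_comm]
        exact mul_dvd_mul_left _ (pow_dvd_pow ℓ (by omega))
    rw [orderOf_dvd_iff_pow_eq_one.mp h1, one_pow]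
  · obtain ⟨m, hm, rfl⟩ := hgen δ e (stb hY h)
    rcases Nat.lt_or_ge i i0 with hi | hi
    · exfalso
      obtain ⟨v, n', ho, hv, hn, -⟩ := dvd_aux hℓ hne hdv (hsm hi)
      have h1 : orderOf δ0 ∣ ℓ ^ (k - i) * n' := by
        rw [ho]
        exact mul_dvd_mul_right (pow_dvd_pow ℓ (by omega)) _
      have h2 : y ^ n' = 1 := by
        have h3 := orderOf_dvd_iff_pow_eq_one.mp h1
        rw [pow_mul, ← hym, inv_pow, inv_eq_one] at h3
        exact h3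
      exact hn (hly.trans (orderOf_dvd_of_pow_eq_one h2))
    · rw [hm]
      exact (pow_dvd_pow ℓ hi).mul_left _

end Pool.Agent.FJA
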