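import Pool.Agent.FJA.St8
import Pool.Agent.FJA.P_LAU
import Pool.Agent.FJA.P_KIL
import Pool.Agent.FJA.P_HTP
import Pool.Agent.FJA.P_FVX
import Pool.Agent.FJA.P_KCB
import Pool.Agent.FJA.P_REA
import Pool.Agent.FJA.P_NIB
import Pool.Agent.FJA.P_MPB
import Pool.Agent.FJA.P_INT
import Pool.Agent.FJA.P_RLG

/-!
# RGB: the Galois symmetry of the value on `BT` over `ℚ`, without a bound on the torsion
-/

set_option autoImplicit false

open Matrix Pool.Agent.WhK Pool.Agent.Lib25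

noncomputable section

namespace Pool.Agent.FJA

namespace RGB

theorem powF_cup_at {G : Type} [Group G] {m n0 a ℓ : ℕ} (hn0 : 0 < n0)
    (hℓ : ℓ.Prime) (hmod : ℓ % n0 = a % n0) (F : (Fin (m + 1) → G) → G → ℚ)
    (hF : ∀ (x : Fin (m + 1) → G) (y : G), F x y ≠ 0 → orderOf y = n0)
    (y : G × Multiplicative ℤ) (hy : orderOf y.1 < ℓ) (x : Fin (m + 2) → G × Multiplicative ℤ) :
    powF (ℓ ^ 1) (cup F) x y = cup (twF n0 a F) x y := by
  rw [pow_one]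
  unfold powF cup
  by_cases h2 : y.2 = 1
  · have h3 : (y ^ ℓ).2 = 1 := by rw [Prod.pow_snd, h2, one_pow]
    rw [if_pos h2, if_pos h3, Prod.pow_fst]
    congr 1
    unfold twF
    by_cases h4 : orderOf y.1 = n0
    · rw [if_pos h4, ← pow_mod_orderOf y.1 ℓ, ← pow_mod_orderOf y.1 a, h4, hmod]
    · rw [if_neg h4]
      by_contra h5
      have h6 := hF _ _ h5
      have h7 : IsOfFinOrder (y.1 ^ ℓ) := orderOf_pos_iff.1 (by rw [h6]; exact hn0)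
      have h8 : IsOfFinOrder y.1 := by
        obtain ⟨k, hk, h9⟩ := isOfFinOrder_iff_pow_eq_one.1 h7
        exact isOfFinOrder_iff_pow_eq_one.2 ⟨ℓ * k, Nat.mul_pos hℓ.pos hk, by rw [pow_mul, h9]⟩
      have h10 : (orderOf y.1).Coprime ℓ :=
        (Nat.coprime_of_lt_prime (orderOf_pos_iff.2 h8).ne' hy hℓ).symm
      exact h4 (by rw [← h10.orderOf_pow, h6])
  · have h3 : ¬ (y ^ ℓ).2 = 1 := fun h => h2 (RLG.mz_one hℓ.pos (by rw [← Prod.pow_snd, h]))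
    rw [if_neg h2, if_neg h3]

theorem lin_congr {k : Type} [Field k] {M : Type} (φ φ' : M → ℚ) (x : MonoidAlgebra k M)
    (h : ∀ μ, x.coeff μ ≠ 0 → φ μ = φ' μ) : lin k φ x = lin k φ' x := by
  rw [lin_apply, lin_apply]
  refine Finsupp.sum_congr fun μ hμ => ?_
  rw [h μ (Finsupp.mem_support_iff.1 hμ)]

theorem TX_congr {k : Type} [Field k] [CharZero k] {Γ : Type} [Group Γ] {ι : Type} [Fintype ι]
    [DecidableEq ι] {M : ℕ} (φ φ' : Rec Γ (Fin M) → ℚ)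
    (X : Fin M → (Matrix ι ι (MonoidAlgebra k Γ))ˣ)
    (h : ∀ a b μ, (UX X a b).coeff μ ≠ 0 → φ μ = φ' μ) : TX φ 1 X = TX φ' 1 X := by
  unfold TX
  rw [pow_one, Matrix.trace, map_sum, map_sum]
  exact Finset.sum_congr rfl fun a _ => lin_congr φ φ' _ (h a a)

theorem TK_congr {k : Type} [Field k] [CharZero k] {Γ : Type} [Group Γ] {M : ℕ}
    (φ φ' : Rec Γ (Fin M) → ℚ) (B : KCh k Γ M)
    (h : ∀ x ∈ B.support, TX φ 1 x.2 = TX φ' 1 x.2) : TK k φ 1 B = TK k φ' 1 B := by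
  unfold TK
  rw [Finsupp.linearCombination_apply, Finsupp.linearCombination_apply]
  refine Finsupp.sum_congr fun x hx => ?_
  rw [h x hx]

end RGB

theorem t_RGB (hsup : S_SUP) : S_RGB := by
  intro G _ n n0 hn0 hpdg a ha D e d X hX b κ hκ hch F hF
  obtain ⟨-, hsb, -⟩ := hsup
  choose B1 hB1 using fun j => t_INT.1 (Cyc (D.N j) × Multiplicative ℤ) (Fin (e j).n) (Fin (e j).n)
    (X j).val
  choose B2 hB2 using fun j => t_INT.1 (Cyc (D.N j) × Multiplicative ℤ) (Fin (e j).n) (Fin (e j).n)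
    ((X j)⁻¹).val
  choose T hT1 hT2 using fun x : (Σ r : ℕ, (Fin (n + 3) → (Matrix (Fin r) (Fin r)
    (MonoidAlgebra ℚ (G × Multiplicative ℤ)))ˣ)) =>
      hsb ℚ (G × Multiplicative ℤ) (Fin x.1) (n + 3) x.2
  obtain ⟨ℓ, hℓ, hb, hmod⟩ := t_INT.2 n0 a
    (max ((BT ℚ D e b X).support.sup fun x => (T x).sup fun μ => orderOf μ.val.1)
      (D.s.sup fun j => max (B1 j) (B2 j))) hn0 ha
  have : Fact ℓ.Prime := ⟨hℓ⟩
  have hord : ∀ x ∈ (BT ℚ D e b X).support, ∀ μ ∈ T x, orderOf μ.val.1 < ℓ := by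
    intro x hx μ hμ
    refine lt_of_le_of_lt ?_ (lt_of_le_of_lt (le_max_left _ _) hb)
    refine le_trans ?_ (Finset.le_sup (f := fun x => (T x).sup fun μ => orderOf μ.val.1) hx)
    exact Finset.le_sup (f := fun μ : Rec (G × Multiplicative ℤ) (Fin (n + 3)) =>
      orderOf μ.val.1) hμ
  have hbj : ∀ j ∈ D.s, max (B1 j) (B2 j) < ℓ := fun j hj =>
    lt_of_le_of_lt (Finset.le_sup (f := fun j => max (B1 j) (B2 j)) hj)
      (lt_of_le_of_lt (le_max_right _ _) hb)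
  have hNIU : ∀ j ∈ D.s, NIU (mapU (algebraMap ℚ ℚ_[ℓ]) (X j)) := fun j hj =>
    RLG.niu (X j) (hB1 j ℓ (lt_of_le_of_lt (le_max_left _ _) (hbj j hj)))
      (hB2 j ℓ (lt_of_le_of_lt (le_max_right _ _) (hbj j hj)))
  obtain ⟨hm1, hm2, -⟩ := t_MPB t_LAU ℚ ℚ_[ℓ] (algebraMap ℚ ℚ_[ℓ])
  have hT : ∀ j, Trv ℚ_[ℓ] (e j) (d j) (mapU (algebraMap ℚ ℚ_[ℓ]) (X j)) := fun j =>
    hm2 (D.N j) (e j) (d j) (X j) (hX j)
  have hF' : GCoch (n + 1) (fun y : G => y ^ n0 = 1) F :=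
    ⟨hF.inv, hF.coc, fun a y h => by
      have h1 : orderOf y = n0 := hF.supp a y h
      show y ^ n0 = 1
      rw [← h1]
      exact pow_orderOf_eq_one y, hF.den⟩
  have h1 := hpdg n0 hn0 ℓ F hF'
    (BT ℚ_[ℓ] D e b fun j => mapU (algebraMap ℚ ℚ_[ℓ]) (X j))
    (t_NIB t_LAUint ℓ G n D e _ b hNIU)
    (fun η hη N _ => t_REA t_KCB (t_KIL t_LAU) t_HTP (t_FVX t_LAU) ℚ_[ℓ] G n D e d _ hT b κ hκ hch
      η N hη) 1
  rw [hm1 G n D e X b, hm1 G n D e X b] at h1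
  rw [(algebraMap ℚ ℚ_[ℓ]).injective h1]
  refine (RGB.TK_congr _ _ _ fun x hx => RGB.TX_congr _ _ _ fun i j μ hμ => ?_).symm
  have h2 : orderOf μ.val.1 < ℓ := hord x hx μ (hT2 x i j μ hμ)
  unfold fst
  by_cases h3 : ∀ i, μ.lst i ≠ []
  · rw [if_pos h3, if_pos h3]
    exact RGB.powF_cup_at hn0 hℓ hmod F hF.supp μ.val h2 _
  · rw [if_neg h3, if_neg h3]

end Pool.Agent.FJA
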