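import Pool.Agent.FJA.St3
import Pool.Agent.FJA.P_TXA

/-!
# REL: the relation theorem
-/

set_option autoImplicit false

open Matrix Pool.Agent.WhK Pool.Agent.Lib25

noncomputable section

namespace Pool.Agent.FJA

namespace REL

theorem TK_add {k : Type} [Field k] [CharZero k] {Γ : Type} [Group Γ] {M : ℕ}
    (φ φ' : Rec Γ (Fin M) → ℚ) (N : ℕ) (B : KCh k Γ M) :
    TK k (fun μ => φ μ + φ' μ) N B = TK k φ N B + TK k φ' N B := by
  unfold TK
  rw [Finsupp.linearCombination_apply, Finsupp.linearCombination_apply,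
    Finsupp.linearCombination_apply]
  unfold Finsupp.sum
  rw [← Finset.sum_add_distrib]
  refine Finset.sum_congr rfl fun x _ => ?_
  have h := (t_TXlin k Γ (Fin x.1) M N x.2).1 φ φ'
  change B x • TX (fun μ => φ μ + φ' μ) N x.2 = B x • TX φ N x.2 + B x • TX φ' N x.2
  rw [h, smul_add]

theorem TK_smul {k : Type} [Field k] [CharZero k] {Γ : Type} [Group Γ] {M : ℕ}
    (c : ℚ) (φ : Rec Γ (Fin M) → ℚ) (N : ℕ) (B : KCh k Γ M) :
    TK k (fun μ => c * φ μ) N B = (c : k) * TK k φ N B := by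
  unfold TK
  rw [Finsupp.linearCombination_apply, Finsupp.linearCombination_apply]
  unfold Finsupp.sum
  rw [Finset.mul_sum]
  refine Finset.sum_congr rfl fun x _ => ?_
  have h := (t_TXlin k Γ (Fin x.1) M N x.2).2 c φ
  change B x • TX (fun μ => c * φ μ) N x.2 = (c : k) * (B x • TX φ N x.2)
  rw [h, mul_smul_comm]

theorem fst_cup_add {G : Type} [Group G] {m : ℕ} (F F' : (Fin (m + 1) → G) → G → ℚ) :
    fst (cup (fun a y => F a y + F' a y)) = fun μ => fst (cup F) μ + fst (cup F') μ := by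
  funext μ
  unfold fst cup
  split_ifs
  · ring
  · ring
  · ring

theorem fst_cup_smul {G : Type} [Group G] {m : ℕ} (c : ℚ) (F : (Fin (m + 1) → G) → G → ℚ) :
    fst (cup (fun a y => c * F a y)) = fun μ => c * fst (cup F) μ := by
  funext μ
  unfold fst cup
  split_ifs
  · ring
  · ring
  · ring

end REL

open REL

/-- REL: the relation theorem. -/
theorem t_REL3 (hrlp : S_RLP) (hrld : S_RLD) (hrlg : S_RLG) (hmpb : S_MPB) : S_REL3 := by
  intro G _ bG hbG n n0 hn0 D e v hv hch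
  choose d X hX hY using hv
  obtain ⟨b, κ, hκ, hb⟩ : ∃ (b : SCh (LaurentPolynomial (MonoidAlgebra ℤ G)) (n + 3))
      (κ : SCh (LaurentPolynomial (MonoidAlgebra ℤ G)) (n + 2)),
      κ ∈ Kil (MonoidAlgebra ℤ G) (n + 2) ∧
        D.ch e = bdS (LaurentPolynomial (MonoidAlgebra ℤ G)) (n + 2) b + κ := by
    rw [Submodule.mem_sup] at hch
    obtain ⟨y, ⟨b, rfl⟩, κ, hκ, h⟩ := hch
    exact ⟨b, κ, hκ, h.symm⟩
  refine ⟨QB D e b X, ?_, ?_, ?_, ?_⟩
  · intro F F'
    unfold QB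
    rw [fst_cup_add, TK_add, mul_add]
  · intro c F
    unfold QB
    rw [fst_cup_smul, TK_smul, Rat.cast_id]
    ring
  · intro F hF p _ hp
    have hYp := fun j => hY j p
    choose Y hYi hYt hYc using hYp
    obtain ⟨hm1, hm2, hm3⟩ := hmpb ℚ ℚ_[p] (algebraMap ℚ ℚ_[p])
    have h1 := hrlp G bG hbG n n0 hn0 p hp D e d Y hYt hYi b κ hκ hb F hF
    have h2 := hrld ℚ_[p] G n D e d (fun j => mapU (algebraMap ℚ ℚ_[p]) (X j)) Y
      (fun j => hm2 _ (e j) (d j) (X j) (hX j)) hYt b (fun y => orderOf y = n0) F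
      (fun y hy => orderOf_pos_iff.1 (by rw [hy]; exact hn0)) hF
    rw [h1, sub_zero, hm1 G n D e X b (fst (cup F)) 1] at h2
    have h3 : ((QB D e b X F : ℚ) : ℚ_[p]) = (-1 : ℚ_[p]) ^ (n + 1) *
        (algebraMap ℚ ℚ_[p]) (TK ℚ (fst (cup F)) 1 (BT ℚ D e b X)) := by
      unfold QB
      rw [Rat.cast_mul, Rat.cast_pow, Rat.cast_neg, Rat.cast_one, eq_ratCast]
    rw [h3, h2, ← mul_assoc, ← pow_add, ← two_mul, pow_mul, neg_one_sq, one_pow, one_mul]
    refine Finset.sum_congr rfl fun j _ => ?_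
    congr 1
    refine Finset.sum_congr rfl fun c _ => ?_
    congr 1
    refine (hYc j c).symm.trans ?_
    refine Finset.sum_congr rfl fun a _ => ?_
    congr 1
    rw [hm3, eq_ratCast]
  · intro F hF a ha
    unfold QB
    rw [hrlg G bG hbG n n0 hn0 a ha D e d X hX b κ hκ hb F hF]

end Pool.Agent.FJA
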