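import Pool.Agent.FJA.St8
import Pool.Agent.FJA.P_REL
import Pool.Agent.FJA.CoreAll

/-!
# RLB: the relation theorem with `Pdg G n`
-/

set_option autoImplicit false

open Matrix Pool.Agent.WhK Pool.Agent.Lib25

noncomputable section

namespace Pool.Agent.FJA

open REL

/-- RLB: the relation theorem with `Pdg G n`. -/
theorem t_RLB (hrpb : S_RPB) (hrgb : S_RGB) : S_RLB := by
  intro G _ n n0 hn0 hpd D e v hv hch
  choose d X hX hY using hv
  obtain ⟨b, κ, hκ, hb⟩ : ∃ (b : SCh (LaurentPolynomial (MonoidAlgebra ℤ G)) (n + 3))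
      (κ : SCh (LaurentPolynomial (MonoidAlgebra ℤ G)) (n + 2)),
      κ ∈ Kil (MonoidAlgebra ℤ G) (n + 2) ∧
        D.ch e = bdS (LaurentPolynomial (MonoidAlgebra ℤ G)) (n + 2) b + κ := by
    rw [Submodule.mem_sup] at hch
    obtain ⟨y, ⟨b, rfl⟩, κ, hκ, h⟩ := hch
    exact ⟨b, κ, hκ, h.symm⟩
  refine ⟨QB D e b X, ?_, ?_, ?_, ?_⟩
  · intro F F'
    unfold QB
    rw [fst_cup_add, TK_add, mul_add]
  · intro c F
    unfold QB
    rw [fst_cup_smul, TK_smul, Rat.cast_id]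
    ring
  · intro F hF p _ hp
    have hYp := fun j => hY j p
    choose Y hYi hYt hYc using hYp
    obtain ⟨hm1, hm2, hm3⟩ := h_MPB ℚ ℚ_[p] (algebraMap ℚ ℚ_[p])
    have h1 := hrpb G n n0 hn0 hpd p hp D e d Y hYt hYi b κ hκ hb F hF
    have h2 := h_RLD ℚ_[p] G n D e d (fun j => mapU (algebraMap ℚ ℚ_[p]) (X j)) Y
      (fun j => hm2 _ (e j) (d j) (X j) (hX j)) hYt b (fun y => orderOf y = n0) F
      (fun y hy => orderOf_pos_iff.1 (by rw [hy]; exact hn0)) hF
    rw [h1, sub_zero, hm1 G n D e X b (fst (cup F)) 1] at h2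
    have h3 : ((QB D e b X F : ℚ) : ℚ_[p]) = (-1 : ℚ_[p]) ^ (n + 1) *
        (algebraMap ℚ ℚ_[p]) (TK ℚ (fst (cup F)) 1 (BT ℚ D e b X)) := by
      unfold QB
      rw [Rat.cast_mul, Rat.cast_pow, Rat.cast_neg, Rat.cast_one, eq_ratCast]
    rw [h3, h2, ← mul_assoc, ← pow_add, ← two_mul, pow_mul, neg_one_sq, one_pow, one_mul]
    refine Finset.sum_congr rfl fun j _ => ?_
    congr 1
    refine Finset.sum_congr rfl fun c _ => ?_
    congr 1
    refine (hYc j c).symm.trans ?_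
    refine Finset.sum_congr rfl fun a _ => ?_
    congr 1
    rw [hm3, eq_ratCast]
  · intro F hF a ha
    unfold QB
    rw [hrgb G n n0 hn0 hpd a ha D e d X hX b κ hκ hb F hF]

end Pool.Agent.FJA
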