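import Pool.Agent.FJA.St8
import Pool.Agent.FJA.P_TXD

/-!
# SUP: supports
-/

set_option autoImplicit false

open Matrix

noncomputable section

namespace Pool.Agent.FJA

namespace SUP

section

variable {Γ : Type} [Group Γ]

/-- The relation: the quotient is in `L`. -/
def Rl (L : Set Γ) (a b : Γ) : Prop := a⁻¹ * b ∈ L

theorem chain_map {L : Set Γ} (g : Γ) {Y : List Γ} (h : List.IsChain (Rl L) Y) :
    List.IsChain (Rl L) (Y.map (g * ·)) := by
  refine List.isChain_map_of_isChain _ ?_ h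
  intro a b hab
  change (g * a)⁻¹ * (g * b) ∈ L
  have e : (g * a)⁻¹ * (g * b) = a⁻¹ * b := by group
  rw [e]
  exact hab

/-- The chain condition for the closed list. -/
def Cl (L : Set Γ) (Y : List Γ) (y : Γ) : Prop :=
  Y ≠ [] ∧ List.IsChain (Rl L) (Y ++ [y * Y.headD 1])

theorem cl_rot {L : Set Γ} {Y : List Γ} {y : Γ} (h : Cl L Y y) : Cl L (rotL y Y) y := by
  obtain ⟨h0, h1⟩ := h
  match Y, h0, h1 with
  | [], h0, _ => exact absurd rfl h0
  | [a], _, h1 =>
    refine ⟨by simp [rotL], ?_⟩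
    change List.IsChain (Rl L) [y * a, y * (y * a)]
    change List.IsChain (Rl L) [a, y * a] at h1
    rw [List.isChain_pair] at h1 ⊢
    change (y * a)⁻¹ * (y * (y * a)) ∈ L
    have e : (y * a)⁻¹ * (y * (y * a)) = a⁻¹ * (y * a) := by group
    rw [e]
    exact h1
  | a :: b :: Y, _, h1 =>
    refine ⟨by simp [rotL], ?_⟩
    change List.IsChain (Rl L) (((b :: Y) ++ [y * a]) ++ [y * b])
    change List.IsChain (Rl L) (a :: b :: (Y ++ [y * a])) at h1
    rw [List.isChain_cons_cons] at h1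
    have e : ((b :: Y) ++ [y * a]) ++ [y * b] = (b :: Y) ++ (y * a) :: [y * b] := by simp
    rw [e, List.isChain_split]
    refine ⟨h1.2, ?_⟩
    rw [List.isChain_pair]
    change (y * a)⁻¹ * (y * b) ∈ L
    have e : (y * a)⁻¹ * (y * b) = a⁻¹ * b := by group
    rw [e]
    exact h1.1

theorem cl_iter {L : Set Γ} {Y : List Γ} {y : Γ} (h : Cl L Y y) (e : ℕ) :
    Cl L ((rotL y)^[e] Y) y := by
  induction e with
  | zero => exact h
  | succ e ih =>
    rw [Function.iterate_succ_apply']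
    exact cl_rot ih

theorem cl_step {L : Set Γ} {Y : List Γ} {y : Γ} (h : Cl L Y y) :
    (Y.headD 1)⁻¹ * (rotL y Y).headD 1 ∈ L := by
  obtain ⟨h0, h1⟩ := h
  match Y, h0, h1 with
  | [], h0, _ => exact absurd rfl h0
  | [a], _, h1 =>
    change List.IsChain (Rl L) [a, y * a] at h1
    rw [List.isChain_pair] at h1
    exact h1
  | a :: b :: Y, _, h1 =>
    change List.IsChain (Rl L) (a :: b :: (Y ++ [y * a])) at h1
    rw [List.isChain_cons_cons] at h1
    exact h1.1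

theorem cl_inc {L : Finset Γ} {Y : List Γ} {y : Γ} (h : Cl (L : Set Γ) Y y) : Inc L Y y := by
  intro e
  rw [Function.iterate_succ_apply']
  have := cl_step (cl_iter h e)
  exact_mod_cast this

/-- The condition for the products. -/
def Rd (L A : Set Γ) (Y : List Γ) (v : Γ) : Prop :=
  Y ≠ [] ∧ Y.headD 1 ∈ A ∧ ∀ a ∈ A, List.IsChain (Rl L) (Y ++ [v * a])

theorem rd_mul {L A : Set Γ} {Y Y' : List Γ} {v v' : Γ} (h : Rd L A Y v) (h' : Rd L A Y' v') :
    Rd L A (Y ++ Y'.map (v * ·)) (v * v') := by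
  obtain ⟨h0, h1, h2⟩ := h
  obtain ⟨h0', h1', h2'⟩ := h'
  obtain ⟨b, Z, rfl⟩ : ∃ b Z, Y' = b :: Z := List.exists_cons_of_ne_nil h0'
  obtain ⟨c, W, rfl⟩ : ∃ c W, Y = c :: W := List.exists_cons_of_ne_nil h0
  refine ⟨by simp, h1, fun a ha => ?_⟩
  have k1 := h2 b h1'
  have k2 := chain_map v (h2' a ha)
  have e : (c :: W ++ (b :: Z).map (v * ·)) ++ [v * v' * a] =
      (c :: W) ++ (v * b) :: (Z.map (v * ·) ++ [v * (v' * a)]) := by
    simp [mul_assoc]
  rw [e, List.isChain_split]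
  refine ⟨k1, ?_⟩
  have e2 : ((b :: Z) ++ [v' * a]).map (v * ·) = (v * b) :: (Z.map (v * ·) ++ [v * (v' * a)]) := by
    simp
  rw [← e2]
  exact k2

theorem rd_cl {L A : Set Γ} {Y : List Γ} {v : Γ} (h : Rd L A Y v) : Cl L Y v :=
  ⟨h.1, h.2.2 _ h.2.1⟩

end

theorem partA (Γ : Type) [Group Γ] (M : ℕ) (T : Finset (Rec Γ (Fin M)))
    (hT : ∀ t ∈ T, ∀ i, (t.lst i).length = 1) :
    ∃ L : Finset Γ, ∀ μ ∈ Submonoid.closure (T : Set (Rec Γ (Fin M))),
      μ ∈ Bal Γ (Fin M) ∧ ((∀ i, μ.lst i ≠ []) → ∀ i, Inc L (μ.lst i) μ.val) := by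
  classical
  let A : Finset Γ := T.biUnion fun t => Finset.univ.image fun i => (t.lst i).headD 1
  let B : Finset Γ := T.biUnion fun t => Finset.univ.image fun i => ((t.lst i).headD 1)⁻¹ * t.val
  let L : Finset Γ := Finset.image₂ (· * ·) B A
  refine ⟨L, fun μ hμ => ?_⟩
  have hle : Submonoid.closure (T : Set (Rec Γ (Fin M))) ≤ Bal Γ (Fin M) :=
    Submonoid.closure_le.2 fun t ht => ⟨1, hT t ht⟩
  refine ⟨hle hμ, ?_⟩
  have key : μ = 1 ∨ ∀ i, Rd (L : Set Γ) (A : Set Γ) (μ.lst i) μ.val := by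
    induction hμ using Submonoid.closure_induction with
    | mem t ht =>
      right
      intro i
      obtain ⟨a0, ha0⟩ := List.length_eq_one_iff.1 (hT t ht i)
      have hA : (t.lst i).headD 1 ∈ A :=
        Finset.mem_biUnion.2 ⟨t, ht, Finset.mem_image.2 ⟨i, Finset.mem_univ i, rfl⟩⟩
      have hB : ((t.lst i).headD 1)⁻¹ * t.val ∈ B :=
        Finset.mem_biUnion.2 ⟨t, ht, Finset.mem_image.2 ⟨i, Finset.mem_univ i, rfl⟩⟩
      refine ⟨by rw [ha0]; simp, by exact_mod_cast hA, fun a ha => ?_⟩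
      rw [ha0] at hB ⊢
      change List.IsChain (Rl (L : Set Γ)) [a0, t.val * a]
      rw [List.isChain_pair]
      change a0⁻¹ * (t.val * a) ∈ (L : Set Γ)
      rw [← mul_assoc]
      have ha' : a ∈ A := by exact_mod_cast ha
      have := Finset.mem_image₂_of_mem (f := (· * ·)) hB ha'
      exact_mod_cast this
    | one => exact Or.inl rfl
    | mul μ ν _ _ h1 h2 =>
      rcases h1 with rfl | h1
      · rw [one_mul]
        exact h2
      · rcases h2 with rfl | h2
        · rw [mul_one]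
          exact Or.inr h1
        · exact Or.inr fun i => rd_mul (h1 i) (h2 i)
  intro hne i
  rcases key with rfl | key
  · exact absurd rfl (hne i)
  · exact cl_inc (rd_cl (key i))

end SUP

open SUP TXD

theorem t_SUP : S_SUP := by
  refine ⟨partA, ?_, ?_⟩
  · intro k _ _ Γ _ ι _ _ M X
    classical
    refine ⟨Finset.univ.biUnion fun a => Finset.univ.biUnion fun b => (UX X a b).coeff.support,
      ?_, ?_⟩
    · intro t ht i
      obtain ⟨a, -, ht⟩ := Finset.mem_biUnion.1 ht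
      obtain ⟨b, -, ht⟩ := Finset.mem_biUnion.1 ht
      exact spM_UX X a b t (Finsupp.mem_support_iff.1 ht) i
    · intro a b μ hμ
      exact Finset.mem_biUnion.2 ⟨a, Finset.mem_univ a, Finset.mem_biUnion.2
        ⟨b, Finset.mem_univ b, Finsupp.mem_support_iff.2 hμ⟩⟩
  · intro k _ _ Γ _ ι _ _ M N X S φ φ' hS hφ
    have hF : Fam (fun n : ℕ => {μ : Rec Γ (Fin M) | μ ∈ S ∧ ∀ i, (μ.lst i).length = n}) := by
      refine ⟨⟨S.one_mem, fun i => rfl⟩, ?_⟩
      rintro a b μ ν ⟨h1, h2⟩ ⟨h3, h4⟩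
      refine ⟨S.mul_mem h1 h3, fun i => ?_⟩
      rw [Rec.mul_lst, List.length_append, List.length_map, h2 i, h4 i]
    have hU : SpM ((fun n : ℕ => {μ : Rec Γ (Fin M) | μ ∈ S ∧ ∀ i, (μ.lst i).length = n}) 1)
        (UX X) := fun a b μ hμ => ⟨hS a b μ hμ, fun i => spM_UX X a b μ hμ i⟩
    have hP := hF.pow hU N
    unfold TX
    refine lin_congr (sp_trace hP) fun μ hμ => ?_
    refine hφ μ hμ.1 fun i => ?_
    have := hμ.2 i
    rwa [smul_eq_mul, mul_one] at this

end Pool.Agent.FJA
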