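import Pool.Agent.FJA.Core7
import Pool.Agent.FJA.St6

/-!
# Phase 3, second part: the functional side of the part with coefficients `K_1`, without a bound on the
torsion, in the degrees `m ≤ 1`

The statements are those of St5.lean and St6.lean with a marking modulo `p ^ r` which is only defined on the
lists all of whose periods are divisible by `p ^ r` (`GoodP`, Core7.lean), and the section `s = avS Pt`.
-/

set_option autoImplicit false

open Matrix Pool.Agent.WhK Pool.Agent.Lib25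

noncomputable section

namespace Pool.Agent.FJA

/-! ## Definitions -/

/-- A marking modulo `p ^ r` of the lists of length `p ^ k` with periods divisible by `p ^ r`. -/
structure MrkG (Γ : Type) [Group Γ] (p k r : ℕ) (j : List Γ → Γ → ZMod (p ^ r)) : Prop where
  cj : ∀ (γ : Γ) (Y : List Γ) (y : Γ), j (Y.map (γ * ·)) (γ * y * γ⁻¹) = j Y y
  rot : ∀ (Y : List Γ) (y : Γ), Y.length = p ^ k → IsOfFinOrder y → p ∣ orderOf y →
    GoodP (p ^ r) Y y → j (rotL y Y) y = j Y y + 1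

/-- A marking modulo `p ^ r` of all lists of length `p ^ k`. -/
structure MrkR (Γ : Type) [Group Γ] (p k r : ℕ) (j : List Γ → Γ → ZMod (p ^ r)) : Prop where
  cj : ∀ (γ : Γ) (Y : List Γ) (y : Γ), j (Y.map (γ * ·)) (γ * y * γ⁻¹) = j Y y
  rot : ∀ (Y : List Γ) (y : Γ), Y.length = p ^ k → IsOfFinOrder y → p ∣ orderOf y →
    j (rotL y Y) y = j Y y + 1

/-- The function `ψ` for a marking modulo `p ^ r`. -/
def psiN {Γ : Type} [Group Γ] {M : ℕ} (p k r : ℕ) (F : (Fin (M + 1) → Γ) → Γ → ℚ)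
    (s : List Γ → Γ → (Γ →₀ ℚ)) (j : List Γ → Γ → ZMod (p ^ r)) (μ : Rec Γ (Fin (M + 2))) : ℚ := by
  classical
  exact if (∀ i, (μ.lst i).length = p ^ k) ∧ IsOfFinOrder μ.val ∧ p ∣ orderOf μ.val ∧
      ∀ i, GoodP (p ^ r) (μ.lst i) μ.val then
    evs F s (Rec.res Fin.castSucc μ) *
      (((j (μ.lst (Fin.last (M + 1))) μ.val - j (μ.lst (Fin.last M).castSucc) μ.val).val : ℕ) : ℚ)
  else 0

/-- The function `(μ ↦ j (μ.lst 1) - j (μ.lst 0))` on the paths with endpoint `c` and lists of length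
`p ^ k`. -/
def lamN {C : Type} [Group C] (p k r : ℕ) (j : List C → C → ZMod (p ^ r)) (c : C)
    (μ : Rec C (Fin 2)) : ℚ := by
  classical
  exact if (∀ i, (μ.lst i).length = p ^ k) ∧ μ.val = c then
    (((j (μ.lst 1) c - j (μ.lst 0) c).val : ℕ) : ℚ) else 0

/-! ## Modules MRN, PSN, PTN, PCN: the function `psiN` -/

/-- MRN: existence of markings.

Proof (compare P_MRK.lean; it is simpler here).  Let `P` be the set of the pairs `(Y, y)` with `Y.length = p ^ k`,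
`y` of finite order divisible by `p`, `GoodP (p ^ r) Y y`; it is invariant under `Γ` and the rotation
(`Stb (γ Y) (γ y γ⁻¹) (γ δ γ⁻¹) e ↔ Stb Y y δ e`, `Stb (rotL y Y) y δ e ↔ Stb Y y δ e`).  For a representative `q` of
every class of the relation `(Y', y') = γ rot^e (Y, y)` put `j (γ rot^e q) = e` modulo `p ^ r`, `j = 0` outside of `P`.
If `γ rot^e q = γ' rot^e' q` with `e ≤ e'` then `δ rot^(e' - e) q' = q'` for `q' = rot^e q`, `δ = γ⁻¹ γ'`, which commutes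
with `y`: `Stb`, so `p ^ r ∣ e' - e` by `GoodP`. -/
def S_MRN : Prop := ∀ (Γ : Type) [Group Γ] (p : ℕ) [Fact p.Prime] (k r : ℕ),
    ∃ j : List Γ → Γ → ZMod (p ^ r), MrkG Γ p k r j

/-- PSN: `psiN` is a trace function on the balanced paths.  Proof: as P_PSA.lean; the condition `GoodP` is
invariant under `Γ` and the rotation. -/
def S_PSN : Prop := ∀ (Γ : Type) [Group Γ] (σ : Γ →* Multiplicative ℤ) (p k r M : ℕ)
    (F : (Fin (M + 1) → Γ) → Γ → ℚ) (s : List Γ → Γ → (Γ →₀ ℚ))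
    (j : List Γ → Γ → ZMod (p ^ r)), Coch σ M F → Sec s → RotS s → MrkG Γ p k r j →
    ∀ μ ∈ Bal Γ (Fin (M + 2)), ∀ ν ∈ Bal Γ (Fin (M + 2)),
      psiN p k r F s j (μ * ν) = psiN p k r F s j (ν * μ)

/-- PTN: `psiN` is a null function, also composed with `μ ↦ μ ^ e`, `e ≥ 1`.

Proof: as P_PSB.lean.  For `μ ↦ psiN (μ ^ e)`: conjugation: `(inc γ * μ)^e = inc γ * ν`, `(μ * inc γ)^e = ν * inc γ`,
`ν = (μ * inc γ)^(e-1) * μ`; `fin`: `μ.val^e` of finite order; `flat`: the positions of `μ^e` are the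
`μ.val^t * x`, `x` a position of `μ`, and `σ μ.val = 1` if `μ.val` has finite order. -/
def S_PTN : Prop := ∀ (Γ : Type) [Group Γ] (σ : Γ →* Multiplicative ℤ) (p k r M : ℕ)
    (F : (Fin (M + 1) → Γ) → Γ → ℚ) (s : List Γ → Γ → (Γ →₀ ℚ))
    (j : List Γ → Γ → ZMod (p ^ r)), Coch σ M F → Sec s → MrkG Γ p k r j →
    ∀ e : ℕ, 0 < e → NullFun σ (fun μ => psiN p k r F s j (μ ^ e))

/-- PCN: the coboundary of `psiN` is divisible by `p ^ r` on the paths all of whose lists satisfy `GoodP`.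

Proof: as P_PSC.lean.  If the lists do not have length `p ^ k`, or if `μ.val` is not of finite order divisible by
`p`, all the terms vanish.  Otherwise all the faces satisfy the condition in `psiN`, and the computation is the
same, with `p ^ r` instead of `p ^ (k - B)`. -/
def S_PCN : Prop := ∀ (Γ : Type) [Group Γ] (σ : Γ →* Multiplicative ℤ) (p : ℕ) [Fact p.Prime]
    (k r M D : ℕ) (F : (Fin (M + 1) → Γ) → Γ → ℚ) (s : List Γ → Γ → (Γ →₀ ℚ)), Coch σ M F → Sec s →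
    (∀ μ : Rec Γ (Fin (M + 1)), ∃ z : ℤ, (D : ℚ) * evs F s μ = z) →
    ∀ j : List Γ → Γ → ZMod (p ^ r), MrkG Γ p k r j →
    ∀ μ ∈ Bal Γ (Fin (M + 3)), (∀ i, GoodP (p ^ r) (μ.lst i) μ.val) → ∃ z : ℤ,
      (D : ℚ) * cobR (psiN p k r F s j) μ = (p : ℚ) ^ r * z

/-! ## Modules BNN, LMN -/

/-- BNN (uses GAS, GAUint, PER, SUP, PSN, PCN, TXlin, TXfac): the values on boundaries.

Proof (compare P_BND.lean, P_DIV.lean).  `T` = the union over `x ∈ Bc.support` of the finite sets of SUP (b) for the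
matrices `x.2` (`Fin (M + 3)`), `Sb = Submonoid.closure T ≤ Bal`, `L1` from SUP (a).  Let `r` be given; `k0` from PER
for `ℓ = p`, `n0 = N1`, `L = L1`, `i0 = r`; replace it by `k0 + 1`.  Let `k ≥ k0`, `j` a marking, `ψ = psiN p k r F s j`.  For
`μ ∈ Sb` with all lists of length `p ^ k` put `φ μ = D * cobR ψ μ / p ^ r`, and `φ μ = 0` otherwise.  It is an integer:
if all the values `ψ (Rec.res i.succAbove μ)` vanish this is clear; otherwise some `F a μ.val ≠ 0`, so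
`μ.val^N1 = 1`, and `p ∣ orderOf μ.val`, and PER (second part) with SUP (a) gives `GoodP (p^r)` for all the lists:
PCN.  `φ` is a trace function on `Sb` (PSN; `Rec.res` is a homomorphism which preserves `Bal`).  By GAS (level
`n + 1 = k`) `‖TX φ (p^k) X - TX (φ (·^p)) (p^(k-1)) X‖ ≤ p^(-k)` for `X = x.2`, and by SUP (c), TXlin, TXfac
`TX φ (p^k) X = (D / p^r) ∑_i (-1)^i TX ψ (p^k) (X ∘ i.succAbove)`,
`TX (φ (·^p)) (p^(k-1)) X = (D / p^r) ∑_i (-1)^i TX (ψ (·^p)) (p^(k-1)) (X ∘ i.succAbove)` (`cobR ψ (μ^p) =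
cobR (ψ (·^p)) μ`).  The alternating sum over the faces is the term of `x` in `TK .. (bdK Bc)`.
`C = ‖D‖⁻¹ max ‖Bc x‖`. -/
def S_BNN : Prop := ∀ (Γ : Type) [Group Γ] (σ : Γ →* Multiplicative ℤ) (p : ℕ) [Fact p.Prime]
    (N1 M : ℕ), 0 < N1 → ∀ (F : (Fin (M + 1) → Γ) → Γ → ℚ) (s : List Γ → Γ → (Γ →₀ ℚ)), Coch σ M F →
    (∀ a y, F a y ≠ 0 → y ^ N1 = 1) → Sec s → RotS s → ∀ D : ℕ, 0 < D →
    (∀ μ : Rec Γ (Fin (M + 1)), ∃ z : ℤ, (D : ℚ) * evs F s μ = z) →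
    ∀ Bc : KCh ℚ_[p] Γ (M + 3), (∀ x ∈ Bc.support, ∀ i, NIU (x.2 i)) →
    ∃ C : ℝ, ∀ r : ℕ, ∃ k0 : ℕ, ∀ k : ℕ, k0 ≤ k → 0 < k ∧
      ∀ j : List Γ → Γ → ZMod (p ^ r), MrkG Γ p k r j →
      ‖TK ℚ_[p] (psiN p k r F s j) (p ^ k) (bdK _ _ (M + 2) Bc) -
        TK ℚ_[p] (fun μ => psiN p k r F s j (μ ^ p)) (p ^ (k - 1)) (bdK _ _ (M + 2) Bc)‖ ≤
        C * (p : ℝ) ^ (-(k + r : ℤ))

/-- LMN (uses BNN, REB, NIB, CUP, PTN, DNA, AVS, MEX): the conclusion of the functional side.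

Proof: as P_LAM in CoreAll2.lean (`t_LAMx`).  `s = avS Pt` (AVS).  The values `D * evs (cup F) s μ` are integers: for
nonempty lists and `y = μ.val` of finite order `evs (cup F) s μ = mA Pt F̂ (..) y * (τ_(m+1) - τ_m)` with the integers
`τ_i` = the second component of the elements of `Pt (μ.lst i) y` (AVS), `F̂ a y = if y.2 = 1 then F (fst ∘ a) y.1
else 0`, a `GCoch m` on `Γ = G × Z'` (see S_CUL in St8.lean), and DNA gives `D` (`m ≤ 1`); it is `0` otherwise.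
BNN with `M = m + 1`, `Γ = G × Z'`, `N1`, for `Bc = BT ℚ_p D e b T`; REB (twice, for `psiN ..` and for
`μ ↦ psiN .. (μ ^ p)`, null functions by PTN) identifies the two terms with `TS .. E`. -/
def S_LMN : Prop := ∀ (G : Type) [Group G] (p : ℕ) [Fact p.Prime] (m N1 : ℕ), m ≤ 1 → 0 < N1 →
    ∀ (S : G → Prop) (F : (Fin (m + 1) → G) → G → ℚ), (∀ y, S y → orderOf y = N1) → GCoch m S F →
    ∀ (Pt : List (G × Multiplicative ℤ) → G × Multiplicative ℤ → Finset (G × Multiplicative ℤ))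
      (dl : List (G × Multiplicative ℤ) → G × Multiplicative ℤ → G × Multiplicative ℤ), Pnt Pt dl →
    ∀ (D : Dat G (m + 1)) (e : ∀ j, IdemMat (LaurentPolynomial (MonoidAlgebra ℤ (Cyc (D.N j)))))
      (v : ∀ (j : D.J) (q : ℕ), [Fact q.Prime] → Cyc (D.N j) → ℚ_[q]),
    (∀ j, LocE (e j) (fun q _ => v j q)) →
    ∀ E : SCh (LaurentPolynomial (MonoidAlgebra ℤ G)) (m + 3),
    D.ch e + E ∈ LinearMap.range (bdS (LaurentPolynomial (MonoidAlgebra ℤ G)) (m + 3)) ⊔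
      Kil (MonoidAlgebra ℤ G) (m + 3) →
    ∃ C : ℝ, ∀ r : ℕ, ∃ k0 : ℕ, ∀ k : ℕ, k0 ≤ k → 0 < k ∧
      ∀ j : List (G × Multiplicative ℤ) → G × Multiplicative ℤ → ZMod (p ^ r),
      MrkG (G × Multiplicative ℤ) p k r j →
      ‖TS ℚ_[p] (psiN p k r (cup F) (avS Pt) j) (p ^ k) E -
        TS ℚ_[p] (fun μ => psiN p k r (cup F) (avS Pt) j (μ ^ p)) (p ^ (k - 1)) E‖ ≤
        C * (p : ℝ) ^ (-(k + r : ℤ))

/-! ## Modules RSN, EVN, EWN, EPN: evaluation on the chains of the units -/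

/-- RSN: the restriction of a marking to a finite cyclic subgroup.

Proof.  (a) Let `Y` be a list in `C = Cyc N` of length `p ^ k`, `c ∈ C` of order divisible by `p`, `z ∈ Γ` an element
which commutes with the image of `f : C →* Γ` (injective), `Y' = Y.map (z * f ·)`, `y = f c`.  If `Stb Y' y δ e` then
(heads, `e`-th elements) `z f(Y 0) = δ z f(Y e)`, so `δ = z f (Y 0 (Y e)⁻¹) z⁻¹ = f c'` with `c' = Y 0 (Y e)⁻¹ ∈ C`, and
`Stb Y c c' e` in `C` (`z`, `f` can be cancelled).  As in PER the exponents `e ∈ ℤ` in `C` form the group `p^i ℤ`,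
`i ≤ k`, and the element `c0` with exponent `p^i` satisfies `c0^(p^(k-i)) = c⁻¹`, so `p^(k-i+1)` divides the order of
`c0`, `≤ N < p^B`: `k - i + 1 ≤ B`, and `r + B ≤ k` gives `r ≤ i`, so `p^r ∣ e`.
(b) `cj`: `(φ ·, 1)` is a homomorphism, `Y.map (γ * ·)` and `MrkG.cj`; `rot`: `rotL` commutes with `map` of a
homomorphism, (a) with `z = 1`, `f x = (φ x, 1)`, and `orderOf (φ c, 1) = orderOf c`. -/
def S_RSN : Prop := (∀ (Γ : Type) [Group Γ] (N p : ℕ) [NeZero N] [Fact p.Prime] (B k r : ℕ),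
      N < p ^ B → r + B ≤ k → ∀ f : Cyc N →* Γ, Function.Injective f →
      ∀ z : Γ, (∀ x, Commute z (f x)) → ∀ (Y : List (Cyc N)) (c : Cyc N), Y.length = p ^ k →
      p ∣ orderOf c → GoodP (p ^ r) (Y.map fun x => z * f x) (f c)) ∧
    ∀ (G : Type) [Group G] (N p : ℕ) [NeZero N] [Fact p.Prime] (B k r : ℕ), N < p ^ B → r + B ≤ k →
      ∀ φ : Cyc N →* G, Function.Injective φ →
      ∀ j : List (G × Multiplicative ℤ) → G × Multiplicative ℤ → ZMod (p ^ r),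
      MrkG (G × Multiplicative ℤ) p k r j → MrkR (Cyc N) p k r (rsJ φ j)

/-- EVN (uses TWI, TXR, TXlen, TXlin, MEX, RSN): EV0 for `psiN`.

Proof: as P_EV0.lean (`t_EV0`).  The only differences: `psiN` contains the condition `GoodP (p^r)` for all lists,
which holds by RSN (a) for the lists `(μ.lst i).map fun x => γ i * f x` of length `p^k` with endpoint `f c`,
`f x = (φ x, 1)`, `γ i = (z i, b i)`, when `p ∣ orderOf c`; and `s` is only required to be a rotation invariant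
section. -/
def S_EVN : Prop := ∀ (G : Type) [Group G] (p : ℕ) [Fact p.Prime] (k B r m N : ℕ) [NeZero N]
    (φ : Cyc N →* G), Function.Injective φ → N < p ^ B → r + B ≤ k →
    ∀ (S : G → Prop) (F : (Fin (m + 1) → G) → G → ℚ),
    (∀ y, S y → IsOfFinOrder y ∧ p ∣ orderOf y) → (∀ c : Cyc N, S (φ c) → Subgroup.zpowers c = ⊤) →
    GCoch m S F → Basic F →
    ∀ s : List (G × Multiplicative ℤ) → G × Multiplicative ℤ → (G × Multiplicative ℤ →₀ ℚ),
    Sec s → RotS s →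
    ∀ j : List (G × Multiplicative ℤ) → G × Multiplicative ℤ → ZMod (p ^ r),
    MrkG (G × Multiplicative ℤ) p k r j →
    ∀ (z : Fin (m + 3) → Cen (φ (gen N))) (b : Fin (m + 3) → ℤ)
      (v : Fin (m + 3) → (MonoidAlgebra ℚ_[p] (Cyc N))ˣ),
    TX (psiN p k r (cup F) s j) (p ^ k) (fun i => sclU ℚ_[p] (Fin 1) ((z i : G),
        Multiplicative.ofAdd (b i)) * glG (MonoidHom.inl G (Multiplicative ℤ))
          (glG φ (sc (v i)))) =
      ∑ c : Cyc N, (F (fun i : Fin (m + 1) => (z (Fin.castAdd 2 i) : G)) (φ c) : ℚ_[p]) *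
        ((b (Fin.last (m + 1)).castSucc - b (Fin.last m).castSucc.castSucc : ℤ) : ℚ_[p]) *
        TX (lamN p k r (rsJ φ j) c) (p ^ k)
          ![sc (v (Fin.last (m + 1)).castSucc), sc (v (Fin.last (m + 2)))]

/-- EWN (uses EVN, TXinv, TXsup, LAU): LM0 for `lamN` and EV1 for `psiN`.

Proof: as P_LM0.lean and P_EV1.lean (RSN (b) for the marking `rsJ φ j`). -/
def S_EWN : Prop := (∀ (k : Type) [Field k] [CharZero k] (C : Type) [CommGroup C] (p κ r : ℕ)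
      (j : List C → C → ZMod (p ^ r)), MrkR C p κ r j → ∀ (c : C) (N : ℕ),
      (∀ g X Y : (Matrix (Fin 1) (Fin 1) (MonoidAlgebra k C))ˣ,
        TX (lamN p κ r j c) N ![g * X, g * Y] = TX (lamN p κ r j c) N ![X, Y]) ∧
      (c ≠ 1 → TX (lamN p κ r j c) N
        ![(1 : (Matrix (Fin 1) (Fin 1) (MonoidAlgebra k C))ˣ), 1] = 0)) ∧
    ∀ (G : Type) [Group G] (p : ℕ) [Fact p.Prime] (k B r m N : ℕ) [NeZero N]
    (φ : Cyc N →* G), Function.Injective φ → N < p ^ B → r + B ≤ k →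
    ∀ (S : G → Prop) (F : (Fin (m + 1) → G) → G → ℚ),
    (∀ y, S y → IsOfFinOrder y ∧ p ∣ orderOf y) → (∀ c : Cyc N, S (φ c) → Subgroup.zpowers c = ⊤) →
    GCoch m S F → Basic F →
    ∀ s : List (G × Multiplicative ℤ) → G × Multiplicative ℤ → (G × Multiplicative ℤ →₀ ℚ),
    Sec s → RotS s →
    ∀ j : List (G × Multiplicative ℤ) → G × Multiplicative ℤ → ZMod (p ^ r),
    MrkG (G × Multiplicative ℤ) p k r j →
    ∀ (u : (MonoidAlgebra ℤ (Cyc N))ˣ) (w : (Fin (m + 1) → Cen (φ (gen N))) →₀ ℚ),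
    TS ℚ_[p] (psiN p k r (cup F) s j) (p ^ k) (E1 m φ u w) =
      ∑ c : Cyc N, ((evc (fun z : Cen (φ (gen N)) => (z : G)) F w (φ c) : ℚ) : ℚ_[p]) *
        TX (lamN p k r (rsJ φ j) c) (p ^ k) ![1, sc (uZ p u)]

/-- EPN (uses TWI, LAU, CUP, CON): the terms which vanish.

Proof.  (a) As in P_EV1.lean every simplex of the chain `E1 m φ u w` has, after `cvt`, the vertices
`sclU (z i, t^(b i)) * glG (inl) (glG φ (sc (v i)))`; by TWI (`f x = (φ x, 1)`) its value is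
`TX (η ∘ twR f γ) (p^(k-1)) (sc ∘ v)` with `η μ = psiN .. (μ ^ p)`, and `η (twR f γ μ) = 0` for all `μ`: its endpoint is
`(φ c, 1)`, `c = μ.val`, and if `psiN .. ((twR f γ μ)^p) ≠ 0` then `cup F a (φ (c^p), 1) ≠ 0` for some `a`, so
`S (φ (c^p))` and `orderOf (c^p) = N1`; but `orderOf (c^p) ≤ orderOf c ≤ N ≤ N1`, so `orderOf (c^p) = orderOf c = N1`,
which is divisible by `p`: a contradiction (`orderOf_pow`).
(b) The chain of `w0`: the vertices are `sclU (Z i)` (see P_CON.lean, where the same term is treated for `psiM`):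
TWI with the trivial group for `Γ'` (or `Γ' = Γ`, `f = 1`), the endpoint is `1`, the order of `1` (and of `1^e`) is not
divisible by `p`, so `psiN` vanishes.  (`η = psiN ..` and `η μ = psiN .. (μ^p)`: take `e ≥ 1` arbitrary.) -/
def S_EPN : Prop := (∀ (G : Type) [Group G] (p : ℕ) [Fact p.Prime] (k r m N N1 K : ℕ) [NeZero N]
    (φ : Cyc N →* G), Function.Injective φ → N ≤ N1 → p ∣ N1 → 0 < N1 →
    ∀ (S : G → Prop) (F : (Fin (m + 1) → G) → G → ℚ), (∀ y, S y → orderOf y = N1) → GCoch m S F →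
    ∀ (s : List (G × Multiplicative ℤ) → G × Multiplicative ℤ → (G × Multiplicative ℤ →₀ ℚ))
      (j : List (G × Multiplicative ℤ) → G × Multiplicative ℤ → ZMod (p ^ r))
      (u : (MonoidAlgebra ℤ (Cyc N))ˣ) (w : (Fin (m + 1) → Cen (φ (gen N))) →₀ ℚ),
    TS ℚ_[p] (fun μ => psiN p k r (cup F) s j (μ ^ p)) K (E1 m φ u w) = 0) ∧
    ∀ (G : Type) [Group G] (p : ℕ) [Fact p.Prime] (k r m K e : ℕ), 0 < e →
    ∀ (F : (Fin (m + 1) → G) → G → ℚ)
      (s : List (G × Multiplicative ℤ) → G × Multiplicative ℤ → (G × Multiplicative ℤ →₀ ℚ))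
      (j : List (G × Multiplicative ℤ) → G × Multiplicative ℤ → ZMod (p ^ r))
      (w0 : (Fin (m + 3) → G × Multiplicative ℤ) →₀ ℚ),
    TS ℚ_[p] (fun μ => psiN p k r (cup F) s j (μ ^ e)) K
      (kinS (LaurentPolynomial (MonoidAlgebra ℤ G)) (m + 3) 1 (hmap ℚ (gl1 mon) (m + 3) w0)) = 0

/-! ## Modules ADN, FSN, LIN: the logarithm -/

/-- ADN (uses DIV, EWN (first part), TXlin, TXfac, TXlen): the functional is additive up to `p ^ (k + r - B)`.
Proof: as P_ADD.lean, DIV with `e = r`. -/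
def S_ADN : Prop := ∀ (C : Type) [CommGroup C] (b : ℕ), TorBd C b → ∀ (p : ℕ) [Fact p.Prime]
    (B : ℕ), b < p ^ B → ∀ k r : ℕ, B ≤ k → ∀ j : List C → C → ZMod (p ^ r), MrkR C p k r j →
    ∀ c : C, IsOfFinOrder c → p ∣ orderOf c → ∀ v v' : (MonoidAlgebra ℚ_[p] C)ˣ,
    NI (v : MonoidAlgebra ℚ_[p] C) → NI ((v⁻¹ : (MonoidAlgebra ℚ_[p] C)ˣ) : MonoidAlgebra ℚ_[p] C) →
    NI (v' : MonoidAlgebra ℚ_[p] C) →
    NI ((v'⁻¹ : (MonoidAlgebra ℚ_[p] C)ˣ) : MonoidAlgebra ℚ_[p] C) →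
    ‖TX (lamN p k r j c) (p ^ k) ![1, sc (v * v')] - TX (lamN p k r j c) (p ^ k) ![1, sc v] -
      TX (lamN p k r j c) (p ^ k) ![1, sc v']‖ ≤ (p : ℝ) ^ (-(k + r - B : ℤ))

/-- FSN (uses GRA): the functional on units close to one.  Proof: as P_FST.lean (`p ^ r > 1` is used to see
that the difference of the markings of a list and its rotation has the value `1`). -/
def S_FSN : Prop := ∀ (C : Type) [CommGroup C] (b : ℕ), TorBd C b → ∀ (p : ℕ) [Fact p.Prime]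
    (B : ℕ), b < p ^ B → ∀ k r : ℕ, B < k → 0 < r → ∀ j : List C → C → ZMod (p ^ r), MrkR C p k r j →
    ∀ c : C, IsOfFinOrder c → p ∣ orderOf c → ∀ (v : (MonoidAlgebra ℚ_[p] C)ˣ) (a : ℕ)
      (x : MonoidAlgebra ℚ_[p] C), NI x →
    NI ((v⁻¹ : (MonoidAlgebra ℚ_[p] C)ˣ) : MonoidAlgebra ℚ_[p] C) →
    (v : MonoidAlgebra ℚ_[p] C) = 1 + (p : ℚ_[p]) ^ a • x →
    ‖TX (lamN p k r j c) (p ^ k) ![1, sc v] - (p : ℚ_[p]) ^ (k + a) * x.coeff c‖ ≤
      (p : ℝ) ^ (-(2 * a + k - B : ℤ))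

/-- LIN (uses ADN, FSN): the limit is the logarithm.

Proof: as P_LIM.lean.  With `L = (p^k)⁻¹ TX lamN ![1, sc (uZ p u)]` and `E` as in `IsPlog`: by ADN
`‖E p^a L - (p^k)⁻¹ TX lamN ![1, sc (uZ p u)^(E p^a)]‖ ≤ p^(-(r - B))`, by FSN (with `a + 1` for `a`) the second term
differs from `(u^(E p^a) - 1)_c` by at most `p^(-(2a + 2 - B))`.  Dividing by `E p^a`:
`‖L - (u^(E p^a) - 1)_c / (E p^a)‖ ≤ ‖E‖⁻¹ max (p^(a + B - r), p^(B - a - 2))`; take `a = r / 2`. -/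
def S_LIN : Prop := ∀ (C : Type) [CommGroup C] (b : ℕ), TorBd C b → ∀ (p : ℕ) [Fact p.Prime]
    (B : ℕ), b < p ^ B → ∀ (u : (MonoidAlgebra ℤ C)ˣ) (l : C → ℚ_[p]),
    IsPlog p (u : MonoidAlgebra ℤ C) l → ∀ c : C, IsOfFinOrder c → p ∣ orderOf c →
    ∀ ε : ℝ, 0 < ε → ∃ R : ℕ, 0 < R ∧ ∀ r : ℕ, R ≤ r → ∀ k : ℕ, B < k →
      ∀ j : List C → C → ZMod (p ^ r), MrkR C p k r j →
      ‖((p : ℚ_[p]) ^ k)⁻¹ * TX (lamN p k r j c) (p ^ k) ![1, sc (uZ p u)] - l c‖ ≤ ε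

/-! ## Module CNN -/

/-- CNN (uses LMN, EWN, EPN, LIN, BAS, MRN, PNT, AVS, RSN): CON in the degrees `m ≤ 1`, without a bound on the
torsion.

Proof (compare P_CON.lean).  By BAS we may assume that `F` is basic.  `Pt`, `dl` from PNT for `Γ = G × Z'`, `s = avS Pt`
(AVS).  LMN for `E = kinS 1 (hmap (gl1 mon) w0) + ∑ q_i E1 ..` gives `C`.  Choose `B` with `N i < p^B` for `i ∈ t`
(`N i ≤ N1`, so `N1 < p^B` suffices) and let `r` be large; `k0` from LMN, `k ≥ k0`, `k ≥ r + B + 1`, a marking `j` from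
MRN.  `ψ = psiN p k r (cup F) s j`.  By EPN all the terms with `ψ (·^p)` vanish and the term of `w0` for `ψ = ψ (·^1)`
vanishes.  So `‖∑ q_i TS ψ (p^k) (E1 ..)‖ ≤ C p^(-(k+r))`, and by EWN
`‖∑_i q_i ∑_c evc F (w i) (φ i c) (p^k)⁻¹ TX (lamN (rsJ (φ i) j) c) ![1, sc (uZ p (u i))]‖ ≤ C p^(-r)`.
`rsJ (φ i) j` is a `MrkR` (RSN).  Only the `c` with `S (φ i c)` contribute, their order is `N1`, divisible by `p`
(so `N i = N1` and `c` generates `Cyc (N i)`).  By LIN (`TorBd (Cyc (N i)) (N i)`) the left side tends to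
`∑_i q_i ∑_c evc .. * l i c` as `r → ∞`. -/
def S_CNN : Prop := ∀ (G : Type) [Group G] (p : ℕ) [Fact p.Prime]
    (m N1 : ℕ), m ≤ 1 → 0 < N1 → p ∣ N1 → ∀ (S : G → Prop) (F : (Fin (m + 1) → G) → G → ℚ),
    (∀ y, S y → orderOf y = N1) → GCoch m S F →
    ∀ (D : Dat G (m + 1)) (e : ∀ j, IdemMat (LaurentPolynomial (MonoidAlgebra ℤ (Cyc (D.N j)))))
      (v : ∀ (j : D.J) (q : ℕ), [Fact q.Prime] → Cyc (D.N j) → ℚ_[q]),
    (∀ j, LocE (e j) (fun q _ => v j q)) →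
    ∀ (w0 : (Fin (m + 3) → G × Multiplicative ℤ) →₀ ℚ)
      (I : Type) (t : Finset I) (q : I → ℚ) (N : I → ℕ) [∀ i, NeZero (N i)]
      (φ : ∀ i, Cyc (N i) →* G) (u : ∀ i, (MonoidAlgebra ℤ (Cyc (N i)))ˣ)
      (l : ∀ i, Cyc (N i) → ℚ_[p]) (w : ∀ i, (Fin (m + 1) → Cen (φ i (gen (N i)))) →₀ ℚ),
    (∀ i, N i ≤ N1) → (∀ i, Function.Injective (φ i)) →
    (∀ i, IsPlog p (u i : MonoidAlgebra ℤ (Cyc (N i))) (l i)) →
    (∀ i, w i ∈ cyc ℚ (Cen (φ i (gen (N i)))) m) →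
    D.ch e + (kinS (LaurentPolynomial (MonoidAlgebra ℤ G)) (m + 3) 1
        (hmap ℚ (gl1 mon) (m + 3) w0) + ∑ i ∈ t, q i • E1 m (φ i) (u i) (w i)) ∈
      LinearMap.range (bdS (LaurentPolynomial (MonoidAlgebra ℤ G)) (m + 3)) ⊔
        Kil (MonoidAlgebra ℤ G) (m + 3) →
    ∑ i ∈ t, (q i : ℚ_[p]) * ∑ c : Cyc (N i),
      ((evc (fun z : Cen (φ i (gen (N i))) => (z : G)) F (w i) (φ i c) : ℚ) : ℚ_[p]) * l i c = 0

end Pool.Agent.FJA
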