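import Pool.Agent.FJA.St10
import Pool.Agent.FJA.St9
import Pool.Agent.FJA.St8
import Pool.Agent.FJA.P_CUL
import Pool.Agent.FJA.P_CUP
import Pool.Agent.FJA.P_LAU
import Pool.Agent.FJA.P_KIL
import Pool.Agent.FJA.P_FVX
import Pool.Agent.FJA.P_HTP
import Pool.Agent.FJA.P_KCB
import Pool.Agent.FJA.P_NIB
import Pool.Agent.FJA.P_REB

/-!
# Module LMQ: the conclusion of the functional side, with bounded `p`-torsion
-/

set_option autoImplicit false

noncomputable section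

open Pool.Agent.WhK Pool.Agent.Lib25

namespace Pool.Agent.FJA

namespace LMQ

theorem cup_pow {G : Type} [Group G] {m N1 : ℕ} {S : G → Prop}
    {F : (Fin (m + 1) → G) → G → ℚ} (hS : ∀ y, S y → orderOf y = N1) (hF : GCoch m S F)
    (a : Fin (m + 2) → G × Multiplicative ℤ) (y : G × Multiplicative ℤ) (h : cup F a y ≠ 0) :
    y ^ N1 = 1 := by
  unfold cup at h
  split_ifs at h with h1
  · have h2 : S y.1 := hF.supp _ _ (left_ne_zero_of_mul h)
    have h3 : y.1 ^ N1 = 1 := by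
      rw [← hS _ h2]
      exact pow_orderOf_eq_one _
    refine Prod.ext h3 ?_
    change y.2 ^ N1 = 1
    rw [h1, one_pow]
  · exact absurd rfl h

end LMQ

open LMQ in
/-- LMQ. -/
theorem t_LMQ (hbnq : S_BNQ) (hevq : S_EVQ) (hptn : S_PTN) (havs : S_AVS) : S_LMQ := by
  intro G _ p _ m N1 htor hN1 S F hS hF Pt dl hP D e v hloc E hE
  have hSf : ∀ y, S y → IsOfFinOrder y := fun y hy => by
    rw [← orderOf_pos_iff, hS y hy]
    exact hN1
  have hREB : S_REB := t_REB t_KCB (t_KIL t_LAU) t_HTP (t_FVX t_LAU)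
  have hNIB : S_NIB := t_NIB t_LAUint
  have hF' : Coch (sg2 G) (m + 1) (cup F) := (t_CUP G m F).2 S hSf hF
  obtain ⟨hsec, hrot, -⟩ := havs _ Pt dl hP
  obtain ⟨c, hc⟩ := hevq G m S F hSf hF p htor Pt dl hP
  choose d X hX hq using hloc
  choose T hTN hTT _ using fun j => hq j p
  obtain ⟨y, hy, κ, hκ, hyk⟩ := Submodule.mem_sup.1 hE
  obtain ⟨b, rfl⟩ := hy
  obtain ⟨C, hC⟩ := hbnq (G × Multiplicative ℤ) (sg2 G) p N1 (m + 1) c hN1 (cup F) (avS Pt) hF'
    (fun a y h => cup_pow hS hF a y h) hsec hrot hc (BT ℚ_[p] D e b T)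
    (hNIB p G (m + 1) D e T b (fun j _ => hTN j))
  refine ⟨C, fun r => ?_⟩
  obtain ⟨k0, hk0⟩ := hC r
  refine ⟨k0, fun k hk => ?_⟩
  obtain ⟨hk1, hk2⟩ := hk0 k hk
  refine ⟨hk1, fun j hj => ?_⟩
  have h1 := hk2 j hj
  have hn1 : NullFun (sg2 G) (psiN p k r (cup F) (avS Pt) j) := by
    have h := hptn (G × Multiplicative ℤ) (sg2 G) p k r (m + 1) (cup F) (avS Pt) j hF' hsec hj 1
      Nat.one_pos
    simpa only [pow_one] using h
  have hp0 : 0 < p := (Fact.out : p.Prime).pos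
  have hn2 := hptn (G × Multiplicative ℤ) (sg2 G) p k r (m + 1) (cup F) (avS Pt) j hF' hsec hj p
    hp0
  rw [hREB ℚ_[p] G (m + 1) D e d T hTT b κ E hκ hyk.symm _ (p ^ k) hn1,
    hREB ℚ_[p] G (m + 1) D e d T hTT b κ E hκ hyk.symm _ (p ^ (k - 1)) hn2] at h1
  exact h1

end Pool.Agent.FJA
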