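import Pool.Agent.FJA.St9

/-!
# Phase 4: bounded `p`-torsion for every prime `p` instead of bounded torsion, in all degrees

All the `ℓ`-adic estimates of phases 2 and 3 only need that the values of the functions have bounded
`ℓ`-adic norm.
-/

set_option autoImplicit false

open Matrix Pool.Agent.WhK Pool.Agent.Lib25 CategoryTheory

noncomputable section

namespace Pool.Agent.FJA

/-- The `p`-torsion of `Γ` is bounded. -/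
def TorP (Γ : Type) [Group Γ] (p : ℕ) : Prop :=
  ∃ c : ℕ, ∀ γ : Γ, IsOfFinOrder γ → ¬ p ^ c ∣ orderOf γ

/-- GAQ: one step of the Gauss congruence, for a function with bounded `ℓ`-adic norm.

Proof.  `φ1 = Step7.rstr S (ℓ ^ (k + 1)) φ` (Step7.lean) has norm `≤ ℓ ^ c` everywhere.  Let `g : ℚ → ℚ` be the
function with `ℓ ^ c * g x` the natural number `PadicInt.appr ⟨ℓ ^ c * x, _⟩ (k + 1 + c)` if `‖x‖ ≤ ℓ ^ c`,
`g x = 0` otherwise: `ℓ ^ c * g x` is an integer and `‖x - g x‖ ≤ ℓ ^ (-(k + 1))` if `‖x‖ ≤ ℓ ^ c`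
(`PadicInt.appr_spec`, `PadicInt.norm_le_pow_iff_mem_span_pow`).  `φ2 μ = g (φ1 μ)` is again a trace function on
`S`; GAS (`t_GAS`) with `D = ℓ ^ c` gives the estimate for `φ2`, with `ℓ ^ (c - (k + 1))` on the right.  Both
`lin φ1` and `lin φ2` of an integral element differ by at most `ℓ ^ (-(k + 1))` (ultrametric sum), the same for
`φ1 (μ ^ ℓ)`, `φ2 (μ ^ ℓ)`.  Conclude as in `Step7.step`. -/
def S_GAQ : Prop := ∀ (Γ : Type) [Group Γ] (M : ℕ) (ℓ : ℕ) [Fact ℓ.Prime]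
    (S : Submonoid (Rec Γ (Fin M))) (k c : ℕ) (φ : Rec Γ (Fin M) → ℚ),
    (∀ μ ∈ S, ∀ ν ∈ S, φ (μ * ν) = φ (ν * μ)) →
    (∀ μ ∈ S, (∀ i, (μ.lst i).length = ℓ ^ (k + 1)) → ‖((φ μ : ℚ) : ℚ_[ℓ])‖ ≤ (ℓ : ℝ) ^ c) →
    ∀ (ι : Type) [Fintype ι] [DecidableEq ι] (X : Fin M → (Matrix ι ι (MonoidAlgebra ℚ_[ℓ] Γ))ˣ),
    (∀ i, NIU (X i)) → (∀ a b μ, (UX X a b).coeff μ ≠ 0 → μ ∈ S) →
    ‖TX φ (ℓ ^ (k + 1)) X - TX (fun μ => φ (μ ^ ℓ)) (ℓ ^ k) X‖ ≤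
      (ℓ : ℝ) ^ ((c : ℤ) - (k + 1 : ℤ))

/-- EVQ (uses MEX): the averages have bounded `p`-adic norm if the `p`-torsion is bounded.

Proof.  Let `D F` be integral, `c0` with `¬ p ^ c0 ∣ orderOf g` for `g ∈ G` of finite order; the same holds for
`G × Z'` (an element `(g, t)` of finite order has `t = 1`, `CUL.snd_one` in P_CUL.lean).  For nonempty lists
`evs (cup F) (avS Pt) μ = ∑ x, (∏ i, avS Pt (μ.lst i) y (x i)) * cup F x y`, `y = μ.val`.  If `y` has finite order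
the coefficient `avS Pt Y y x` is `1 / |Pt Y y|` or `0`, and `|Pt Y y| = orderOf (dl Y y)` (`Pnt.card`, `Pnt.fin`) is
not divisible by `p ^ c0`: its norm is `≥ p ^ (- c0)`.  If `y` does not have finite order then `cup F x y = 0`
(`cup F x y ≠ 0` implies `y.2 = 1` and `S y.1`).  So the norm is `≤ p ^ (c0 * (m + 2)) * ‖D‖⁻¹` (ultrametric
inequality, `padicNormE`/`Padic` is ultrametric), and `‖D‖⁻¹ ≤ p ^ v` for some `v`. -/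
def S_EVQ : Prop := ∀ (G : Type) [Group G] (m : ℕ) (S : G → Prop) (F : (Fin (m + 1) → G) → G → ℚ),
    (∀ y, S y → IsOfFinOrder y) → GCoch m S F → ∀ (p : ℕ) [Fact p.Prime], TorP G p →
    ∀ (Pt : List (G × Multiplicative ℤ) → G × Multiplicative ℤ → Finset (G × Multiplicative ℤ))
      (dl : List (G × Multiplicative ℤ) → G × Multiplicative ℤ → G × Multiplicative ℤ), Pnt Pt dl →
    ∃ c : ℕ, ∀ μ : Rec (G × Multiplicative ℤ) (Fin (m + 2)),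
      ‖((evs (cup F) (avS Pt) μ : ℚ) : ℚ_[p])‖ ≤ (p : ℝ) ^ c

/-- PDQ (uses GAQ, EVQ, PNT, AVS, SUP): the `ℓ`-adic theorem, if the `p`-torsion is bounded for every prime
`p`.  Proof: as `t_PDG` in P_PDG.lean, with `L = 0` and GAQ. -/
def S_PDQ : Prop := ∀ (G : Type) [Group G], (∀ p : ℕ, p.Prime → TorP G p) → ∀ n : ℕ, Pdg G n

/-- PCQ: PCN in norm form.  Proof: as `t_PCN` in P_PCN.lean: there `cobR (psiN ..) μ = (-1) ^ M * α * p ^ r * q`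
with an integer `q` and a value `α` of `evs F s`. -/
def S_PCQ : Prop := ∀ (Γ : Type) [Group Γ] (σ : Γ →* Multiplicative ℤ) (p : ℕ) [Fact p.Prime]
    (k r M c : ℕ) (F : (Fin (M + 1) → Γ) → Γ → ℚ) (s : List Γ → Γ → (Γ →₀ ℚ)), Coch σ M F → Sec s →
    (∀ μ : Rec Γ (Fin (M + 1)), ‖((evs F s μ : ℚ) : ℚ_[p])‖ ≤ (p : ℝ) ^ c) →
    ∀ j : List Γ → Γ → ZMod (p ^ r), MrkG Γ p k r j →
    ∀ μ ∈ Bal Γ (Fin (M + 3)), (∀ i, GoodP (p ^ r) (μ.lst i) μ.val) →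
      ‖((cobR (psiN p k r F s j) μ : ℚ) : ℚ_[p])‖ ≤ (p : ℝ) ^ ((c : ℤ) - r)

/-- BNQ (uses GAQ, PER, SUP, PSN, PCQ): BNN in norm form.

Proof: as S_BNN in St9.lean, with `φ μ = cobR ψ μ / p ^ r` for `μ ∈ Sb` with all lists of length `p ^ k`; its norm
is `≤ p ^ c` by PCQ (and `φ μ = 0` if all the values `ψ (Rec.res i.succAbove μ)` vanish).  By GAQ
`‖TX φ (p^k) X - TX (φ (·^p)) (p^(k-1)) X‖ ≤ p^(c - k)`.  `C = p ^ c * max ‖Bc x‖`. -/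
def S_BNQ : Prop := ∀ (Γ : Type) [Group Γ] (σ : Γ →* Multiplicative ℤ) (p : ℕ) [Fact p.Prime]
    (N1 M c : ℕ), 0 < N1 → ∀ (F : (Fin (M + 1) → Γ) → Γ → ℚ) (s : List Γ → Γ → (Γ →₀ ℚ)),
    Coch σ M F → (∀ a y, F a y ≠ 0 → y ^ N1 = 1) → Sec s → RotS s →
    (∀ μ : Rec Γ (Fin (M + 1)), ‖((evs F s μ : ℚ) : ℚ_[p])‖ ≤ (p : ℝ) ^ c) →
    ∀ Bc : KCh ℚ_[p] Γ (M + 3), (∀ x ∈ Bc.support, ∀ i, NIU (x.2 i)) →
    ∃ C : ℝ, ∀ r : ℕ, ∃ k0 : ℕ, ∀ k : ℕ, k0 ≤ k → 0 < k ∧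
      ∀ j : List Γ → Γ → ZMod (p ^ r), MrkG Γ p k r j →
      ‖TK ℚ_[p] (psiN p k r F s j) (p ^ k) (bdK _ _ (M + 2) Bc) -
        TK ℚ_[p] (fun μ => psiN p k r F s j (μ ^ p)) (p ^ (k - 1)) (bdK _ _ (M + 2) Bc)‖ ≤
        C * (p : ℝ) ^ (-(k + r : ℤ))

/-- LMQ (uses BNQ, EVQ, REB, NIB, CUP, PTN, AVS): LMN for all `m`, with bounded `p`-torsion.

Proof: as `t_LMN` in P_LMN.lean, with EVQ and BNQ instead of DNA and BNN. -/
def S_LMQ : Prop := ∀ (G : Type) [Group G] (p : ℕ) [Fact p.Prime] (m N1 : ℕ), TorP G p → 0 < N1 →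
    ∀ (S : G → Prop) (F : (Fin (m + 1) → G) → G → ℚ), (∀ y, S y → orderOf y = N1) → GCoch m S F →
    ∀ (Pt : List (G × Multiplicative ℤ) → G × Multiplicative ℤ → Finset (G × Multiplicative ℤ))
      (dl : List (G × Multiplicative ℤ) → G × Multiplicative ℤ → G × Multiplicative ℤ), Pnt Pt dl →
    ∀ (D : Dat G (m + 1)) (e : ∀ j, IdemMat (LaurentPolynomial (MonoidAlgebra ℤ (Cyc (D.N j)))))
      (v : ∀ (j : D.J) (q : ℕ), [Fact q.Prime] → Cyc (D.N j) → ℚ_[q]),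
    (∀ j, LocE (e j) (fun q _ => v j q)) →
    ∀ E : SCh (LaurentPolynomial (MonoidAlgebra ℤ G)) (m + 3),
    D.ch e + E ∈ LinearMap.range (bdS (LaurentPolynomial (MonoidAlgebra ℤ G)) (m + 3)) ⊔
      Kil (MonoidAlgebra ℤ G) (m + 3) →
    ∃ C : ℝ, ∀ r : ℕ, ∃ k0 : ℕ, ∀ k : ℕ, k0 ≤ k → 0 < k ∧
      ∀ j : List (G × Multiplicative ℤ) → G × Multiplicative ℤ → ZMod (p ^ r),
      MrkG (G × Multiplicative ℤ) p k r j →
      ‖TS ℚ_[p] (psiN p k r (cup F) (avS Pt) j) (p ^ k) E -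
        TS ℚ_[p] (fun μ => psiN p k r (cup F) (avS Pt) j (μ ^ p)) (p ^ (k - 1)) E‖ ≤
        C * (p : ℝ) ^ (-(k + r : ℤ))

/-- CNQ (uses LMQ, EWN, EPN, LIN, MRN, PNT, AVS, RSN): CNN for all `m`, with bounded `p`-torsion.

Proof: as `t_CNN` in P_CNN.lean, with LMQ instead of LMN. -/
def S_CNQ : Prop := ∀ (G : Type) [Group G] (p : ℕ) [Fact p.Prime]
    (m N1 : ℕ), TorP G p → 0 < N1 → p ∣ N1 → ∀ (S : G → Prop) (F : (Fin (m + 1) → G) → G → ℚ),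
    (∀ y, S y → orderOf y = N1) → GCoch m S F →
    ∀ (D : Dat G (m + 1)) (e : ∀ j, IdemMat (LaurentPolynomial (MonoidAlgebra ℤ (Cyc (D.N j)))))
      (v : ∀ (j : D.J) (q : ℕ), [Fact q.Prime] → Cyc (D.N j) → ℚ_[q]),
    (∀ j, LocE (e j) (fun q _ => v j q)) →
    ∀ (w0 : (Fin (m + 3) → G × Multiplicative ℤ) →₀ ℚ)
      (I : Type) (t : Finset I) (q : I → ℚ) (N : I → ℕ) [∀ i, NeZero (N i)]
      (φ : ∀ i, Cyc (N i) →* G) (u : ∀ i, (MonoidAlgebra ℤ (Cyc (N i)))ˣ)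
      (l : ∀ i, Cyc (N i) → ℚ_[p]) (w : ∀ i, (Fin (m + 1) → Cen (φ i (gen (N i)))) →₀ ℚ),
    (∀ i, N i ≤ N1) → (∀ i, Function.Injective (φ i)) →
    (∀ i, IsPlog p (u i : MonoidAlgebra ℤ (Cyc (N i))) (l i)) →
    (∀ i, w i ∈ cyc ℚ (Cen (φ i (gen (N i)))) m) →
    D.ch e + (kinS (LaurentPolynomial (MonoidAlgebra ℤ G)) (m + 3) 1
        (hmap ℚ (gl1 mon) (m + 3) w0) + ∑ i ∈ t, q i • E1 m (φ i) (u i) (w i)) ∈
      LinearMap.range (bdS (LaurentPolynomial (MonoidAlgebra ℤ G)) (m + 3)) ⊔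
        Kil (MonoidAlgebra ℤ G) (m + 3) →
    ∑ i ∈ t, (q i : ℚ_[p]) * ∑ c : Cyc (N i),
      ((evc (fun z : Cen (φ i (gen (N i))) => (z : G)) F (w i) (φ i c) : ℚ) : ℚ_[p]) * l i c = 0

end Pool.Agent.FJA
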