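import Pool.Agent.FJA.CoreAll3
import Pool.Agent.FJA.St10
import Pool.Agent.FJA.P_GAQ
import Pool.Agent.FJA.P_EVQ
import Pool.Agent.FJA.P_PDQ
import Pool.Agent.FJA.P_PCQ
import Pool.Agent.FJA.P_BNQ
import Pool.Agent.FJA.P_LMQ
import Pool.Agent.FJA.P_CNQ

/-!
# Phase 4: the theorems of the modules, composed
-/

set_option autoImplicit false

noncomputable section

namespace Pool.Agent.FJA

theorem h_EVQ : S_EVQ := t_EVQ h_AVS
theorem h_PDQ : S_PDQ := t_PDQ t_GAQ h_EVQ t_PNT h_AVS t_SUP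
theorem h_BNQ : S_BNQ := t_BNQ t_GAQ t_PER t_SUP t_PSN t_PCQ
theorem h_LMQ : S_LMQ := t_LMQ h_BNQ h_EVQ t_PTN h_AVS
theorem h_CNQ : S_CNQ := t_CNQ h_LMQ h_EWN t_EPN h_LIN t_MRN t_PNT h_AVS t_RSN

end Pool.Agent.FJA
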