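import Pool.Agent.FJA.StL

/-!
# LME: lifting idempotent matrices

An idempotent matrix over the group ring of `G` lifts to every group over `G` to which a sufficiently large finite part
of the multiplication table of `G` lifts.
-/

set_option autoImplicit false

open Matrix Pool.Agent.WhK Pool.Agent.Lib25

noncomputable section

namespace Pool.Agent.FJA

namespace LME

open MonoidAlgebra

variable {R : Type} [CommRing R] {G Q : Type} [Group G] [Group Q]

/-- The additive map of group rings of a map of sets. -/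
def lsg (R : Type) [CommRing R] {G Q : Type} [Group G] [Group Q] (s : G → Q) :
    MonoidAlgebra R G →+ MonoidAlgebra R Q where
  toFun := MonoidAlgebra.mapDomain s
  map_zero' := MonoidAlgebra.mapDomain_zero s
  map_add' := MonoidAlgebra.mapDomain_add s

theorem lsg_single (s : G → Q) (g : G) (a : R) :
    lsg R s (MonoidAlgebra.single g a) = MonoidAlgebra.single (s g) a :=
  MonoidAlgebra.mapDomain_single

theorem sum_single (x : MonoidAlgebra R G) :
    x = ∑ g ∈ x.coeff.support, MonoidAlgebra.single g (x.coeff g) :=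
  (MonoidAlgebra.sum_coeff_single x).symm

theorem lsg_eq (s : G → Q) (x : MonoidAlgebra R G) :
    lsg R s x = ∑ g ∈ x.coeff.support, MonoidAlgebra.single (s g) (x.coeff g) := by
  conv_lhs => rw [sum_single x]
  rw [map_sum]
  exact Finset.sum_congr rfl fun g _ => lsg_single s g _

theorem lsg_mul (s : G → Q) (x y : MonoidAlgebra R G)
    (h : ∀ g ∈ x.coeff.support, ∀ k ∈ y.coeff.support, s (g * k) = s g * s k) :
    lsg R s (x * y) = lsg R s x * lsg R s y := by
  rw [lsg_eq s x, lsg_eq s y]
  conv_lhs => rw [sum_single x, sum_single y]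
  rw [Finset.sum_mul_sum, Finset.sum_mul_sum, map_sum]
  refine Finset.sum_congr rfl fun g hg => ?_
  rw [map_sum]
  refine Finset.sum_congr rfl fun k hk => ?_
  rw [MonoidAlgebra.single_mul_single, MonoidAlgebra.single_mul_single, lsg_single, h g hg k hk]

theorem map_lsg (π : Q →* G) (s : G → Q) (x : MonoidAlgebra R G)
    (h : ∀ g ∈ x.coeff.support, π (s g) = g) :
    MonoidAlgebra.mapDomainRingHom R π (lsg R s x) = x := by
  rw [lsg_eq, map_sum]
  conv_rhs => rw [sum_single x]
  refine Finset.sum_congr rfl fun g hg => ?_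
  show MonoidAlgebra.mapDomain π (MonoidAlgebra.single (s g) (x.coeff g)) = _
  rw [MonoidAlgebra.mapDomain_single, h g hg]

end LME

open LME in
/-- **LME**: lifting idempotent matrices. -/
theorem t_LME : S_LME := by
  classical
  intro R _ G _ r e he
  obtain ⟨T, hT⟩ : ∃ T : Finset G, ∀ a b, ∀ g ∈ (e a b).coeff.support, g ∈ T := by
    refine ⟨Finset.univ.biUnion fun a => Finset.univ.biUnion fun b => (e a b).coeff.support, ?_⟩
    intro a b g hg
    exact Finset.mem_biUnion.2 ⟨a, Finset.mem_univ a, Finset.mem_biUnion.2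
      ⟨b, Finset.mem_univ b, hg⟩⟩
  refine ⟨T ∪ (T ×ˢ T).image fun x => x.1 * x.2, ?_⟩
  intro Q _ π s hs
  have hTS : ∀ g ∈ T, g ∈ T ∪ (T ×ˢ T).image fun x => x.1 * x.2 := fun g hg =>
    Finset.mem_union_left _ hg
  have hmul : ∀ g ∈ T, ∀ k ∈ T, s (g * k) = s g * s k := fun g hg k hk =>
    hs.mul g (hTS g hg) k (hTS k hk) (Finset.mem_union_right _
      (Finset.mem_image.2 ⟨(g, k), Finset.mem_product.2 ⟨hg, hk⟩, rfl⟩))
  refine ⟨Matrix.of fun a b => lsg R s (e a b), ?_, ?_⟩
  · ext1 a b
    rw [Matrix.mul_apply]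
    simp only [Matrix.of_apply]
    have h1 : ∀ c, lsg R s (e a c) * lsg R s (e c b) = lsg R s (e a c * e c b) := fun c =>
      (lsg_mul s _ _ fun g hg k hk => hmul g (hT a c g hg) k (hT c b k hk)).symm
    simp only [h1]
    rw [← map_sum, ← Matrix.mul_apply, he]
  · ext1 a b
    show MonoidAlgebra.mapDomainRingHom R π (lsg R s (e a b)) = e a b
    exact map_lsg π s _ fun g hg => hs.sec g (hTS g (hT a b g hg))

end Pool.Agent.FJA
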