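import Pool.Agent.FJA.StL

/-!
# Naturality of `cvalS`
-/

set_option autoImplicit false

open Matrix Pool.Agent.WhK Pool.Agent.Lib25

noncomputable section

namespace Pool.Agent.FJA

namespace LNA

open Classical in
/-- coefficients of the image of an element of the group ring -/
theorem coeff_map {R : Type} [CommRing R] {Q G : Type} [Group Q] [Group G] (π : Q →* G)
    (x : MonoidAlgebra R Q) (U : Finset Q) (hU : x.coeff.support ⊆ U) (g : G) :
    ((MonoidAlgebra.mapDomainRingHom R π) x).coeff g =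
      ∑ q ∈ U, if π q = g then x.coeff q else 0 := by
  rw [MonoidAlgebra.mapDomainRingHom_apply]
  change (Finsupp.mapDomain π x.coeff) g = _
  rw [Finsupp.mapDomain, Finsupp.sum, Finsupp.finsetSum_apply]
  refine Finset.sum_subset_zero_on_sdiff hU ?_ ?_
  · intro q hq
    have h0 : x.coeff q = 0 := by
      rw [Finset.mem_sdiff] at hq
      exact Finsupp.notMem_support_iff.1 hq.2
    rw [h0, ite_self]
  · intro q _
    rw [Finsupp.single_apply]

/-- the elements which occur in the matrices `h j` -/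
def supp {R : Type} [CommRing R] {Q : Type} [Group Q] {n r : ℕ}
    (h : Fin (n + 1) → Matrix (Fin r) (Fin r) (MonoidAlgebra R Q)) : Finset Q :=
  @Finset.biUnion _ _ (Classical.decEq _) (Finset.univ : Finset (Fin (n + 1) × Fin r × Fin r))
    (fun p => (h p.1 p.2.1 p.2.2).coeff.support)

theorem supp_le {R : Type} [CommRing R] {Q : Type} [Group Q] {n r : ℕ}
    (h : Fin (n + 1) → Matrix (Fin r) (Fin r) (MonoidAlgebra R Q)) (j : Fin (n + 1)) (a b : Fin r) :
    (h j a b).coeff.support ⊆ supp h := by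
  classical
  intro q hq
  unfold supp
  rw [Finset.mem_biUnion]
  exact ⟨(j, a, b), Finset.mem_univ _, hq⟩

theorem hcoef_zero {R : Type} [CommRing R] {Q : Type} [Group Q] {n r : ℕ}
    (h : Fin (n + 1) → Matrix (Fin r) (Fin r) (MonoidAlgebra R Q)) (γ : Fin (n + 1) → Q)
    (hγ : γ ∉ Fintype.piFinset (fun _ : Fin (n + 1) => supp h)) : hcoef h γ = 0 := by
  classical
  rw [Fintype.mem_piFinset] at hγ
  push Not at hγ
  obtain ⟨j, hj⟩ := hγ
  unfold hcoef
  refine Finset.sum_eq_zero fun a _ => ?_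
  refine Finset.prod_eq_zero (Finset.mem_univ j) ?_
  by_contra hne
  exact hj (supp_le h j (a j) (a (j + 1)) (Finsupp.mem_support_iff.2 hne))

open Classical in
theorem hcoef_map {R : Type} [CommRing R] {Q G : Type} [Group Q] [Group G] (π : Q →* G) {n r : ℕ}
    (h : Fin (n + 1) → Matrix (Fin r) (Fin r) (MonoidAlgebra R Q)) (γ : Fin (n + 1) → G) :
    hcoef (fun j => ((MonoidAlgebra.mapDomainRingHom R π).mapMatrix :
      Matrix (Fin r) (Fin r) (MonoidAlgebra R Q) →+* Matrix (Fin r) (Fin r) (MonoidAlgebra R G)) (h j))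
      γ = ∑ γ' ∈ Fintype.piFinset (fun _ : Fin (n + 1) => supp h),
        if (fun j => π (γ' j)) = γ then hcoef h γ' else 0 := by
  have h1 : hcoef (fun j => ((MonoidAlgebra.mapDomainRingHom R π).mapMatrix :
      Matrix (Fin r) (Fin r) (MonoidAlgebra R Q) →+* Matrix (Fin r) (Fin r) (MonoidAlgebra R G)) (h j))
      γ = ∑ a : Fin (n + 1) → Fin r, ∑ γ' ∈ Fintype.piFinset (fun _ : Fin (n + 1) => supp h),
        ∏ j : Fin (n + 1), if π (γ' j) = γ j then (h j (a j) (a (j + 1))).coeff (γ' j) else 0 := by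
    unfold hcoef
    refine Finset.sum_congr rfl fun a _ => ?_
    refine Eq.trans ?_ (Finset.prod_univ_sum (fun _ : Fin (n + 1) => supp h)
      (fun j q => if π q = γ j then (h j (a j) (a (j + 1))).coeff q else 0))
    refine Finset.prod_congr rfl fun j _ => ?_
    exact coeff_map π (h j (a j) (a (j + 1))) (supp h) (supp_le h j _ _) (γ j)
  rw [h1, Finset.sum_comm]
  refine Finset.sum_congr rfl fun γ' _ => ?_
  by_cases hc : (fun j => π (γ' j)) = γ
  · rw [if_pos hc]
    unfold hcoef
    refine Finset.sum_congr rfl fun a _ => ?_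
    refine Finset.prod_congr rfl fun j _ => ?_
    rw [if_pos (congrFun hc j)]
  · rw [if_neg hc]
    refine Finset.sum_eq_zero fun a _ => ?_
    have hc2 : ∃ j, π (γ' j) ≠ γ j := by
      by_contra hall
      push Not at hall
      exact hc (funext hall)
    obtain ⟨j, hj⟩ := hc2
    exact Finset.prod_eq_zero (Finset.mem_univ j) (if_neg hj)

theorem fpr_map {Q G : Type} [Group Q] [Group G] (π : Q →* G) {n : ℕ} (γ : Fin (n + 1) → Q) :
    fpr (fun j => π (γ j)) = fun i => π (fpr γ i) := by
  funext i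
  unfold fpr
  rw [map_list_prod, List.map_take, List.map_ofFn]
  rfl

theorem prod_map {Q G : Type} [Group Q] [Group G] (π : Q →* G) {n : ℕ} (γ : Fin (n + 1) → Q) :
    (List.ofFn (fun j => π (γ j))).prod = π ((List.ofFn γ).prod) := by
  rw [map_list_prod, List.map_ofFn]
  rfl

theorem cvalS_map {R : Type} [CommRing R] (k : Type) [Field k] [Algebra R k] {Q G : Type} [Group Q]
    [Group G] (π : Q →* G) (n r : ℕ) (F : (Fin (n + 1) → G) → G → ℚ)
    (h : Fin (n + 1) → Matrix (Fin r) (Fin r) (MonoidAlgebra R Q)) :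
    cvalS k F (fun j => ((MonoidAlgebra.mapDomainRingHom R π).mapMatrix :
      Matrix (Fin r) (Fin r) (MonoidAlgebra R Q) →+* Matrix (Fin r) (Fin r) (MonoidAlgebra R G)) (h j)) =
      cvalS k (fun (a : Fin (n + 1) → Q) (y : Q) => F (fun i => π (a i)) (π y)) h := by
  classical
  unfold cvalS
  set P : Finset (Fin (n + 1) → Q) := Fintype.piFinset (fun _ : Fin (n + 1) => supp h) with hP
  set w : (Fin (n + 1) → G) → k := fun γ => ((F (fpr γ) (List.ofFn γ).prod : ℚ) : k) with hw
  have hR : (∑ᶠ γ : Fin (n + 1) → Q, algebraMap R k (hcoef h γ) *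
      ((F (fun i => π (fpr γ i)) (π (List.ofFn γ).prod) : ℚ) : k)) =
      ∑ γ ∈ P, algebraMap R k (hcoef h γ) * w (fun j => π (γ j)) := by
    rw [finsum_eq_sum_of_support_subset (s := P)]
    · refine Finset.sum_congr rfl fun γ _ => ?_
      rw [hw]
      beta_reduce
      rw [fpr_map, prod_map]
    · intro γ hγ
      rw [Function.mem_support] at hγ
      by_contra hn
      apply hγ
      rw [hcoef_zero h γ (by simpa [hP] using hn), map_zero, zero_mul]
  have hL : ∀ γ : Fin (n + 1) → G, algebraMap R k (hcoef (fun j =>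
      ((MonoidAlgebra.mapDomainRingHom R π).mapMatrix :
      Matrix (Fin r) (Fin r) (MonoidAlgebra R Q) →+* Matrix (Fin r) (Fin r) (MonoidAlgebra R G)) (h j))
      γ) * w γ = ∑ γ' ∈ P, if (fun j => π (γ' j)) = γ then algebraMap R k (hcoef h γ') *
        w (fun j => π (γ' j)) else 0 := by
    intro γ
    rw [hcoef_map, map_sum, Finset.sum_mul]
    refine Finset.sum_congr rfl fun γ' _ => ?_
    by_cases hc : (fun j => π (γ' j)) = γ
    · rw [if_pos hc, if_pos hc, hc]
    · rw [if_neg hc, if_neg hc, map_zero, zero_mul]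
  have hL2 : (∑ᶠ γ : Fin (n + 1) → G, algebraMap R k (hcoef (fun j =>
      ((MonoidAlgebra.mapDomainRingHom R π).mapMatrix :
      Matrix (Fin r) (Fin r) (MonoidAlgebra R Q) →+* Matrix (Fin r) (Fin r) (MonoidAlgebra R G)) (h j))
      γ) * w γ) = ∑ γ ∈ P.image (fun γ' j => π (γ' j)), ∑ γ' ∈ P,
        if (fun j => π (γ' j)) = γ then algebraMap R k (hcoef h γ') *
        w (fun j => π (γ' j)) else 0 := by
    rw [finsum_congr hL]
    refine finsum_eq_sum_of_support_subset _ ?_
    intro γ hγ
    rw [Function.mem_support] at hγ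
    rw [Finset.mem_coe, Finset.mem_image]
    by_contra hn
    apply hγ
    refine Finset.sum_eq_zero fun γ' hγ' => ?_
    refine if_neg fun hc => hn ⟨γ', hγ', hc⟩
  rw [hL2, Finset.sum_comm]
  refine Eq.trans ?_ hR.symm
  refine Finset.sum_congr rfl fun γ' hγ' => ?_
  rw [Finset.sum_ite_eq, if_pos (Finset.mem_image_of_mem _ hγ')]

end LNA

theorem t_LNA : S_LNA := by
  intro R _ k _ _ Q G _ _ π n r F h
  exact LNA.cvalS_map k π n r F h

end Pool.Agent.FJA
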