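import Pool.Agent.FJA.StL

/-!
# Idempotent matrices over `R[G]`, direct limits (module LTE)   (helper50)
-/

set_option autoImplicit false

open Matrix Pool.Agent.WhK Pool.Agent.Lib25

noncomputable section

namespace Pool.Agent.FJA

namespace LTE

/-- Restriction of the conditions to a subgroup. -/
theorem res {R : Type} [CommRing R] {Q : Type} [Group Q] {n : ℕ} (H : Subgroup Q) (y : H)
    {f : (Fin (n + 1) → Q) → ℚ} (h : AdmSY R n (y : Q) f) :
    AdmSY R n y (fun a : Fin (n + 1) → H => f (fun i => (a i : Q))) := by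
  obtain ⟨f', E, h1, h2, h3, h4, h5, h6, h7⟩ := h
  refine ⟨fun a => f' (fun i => (a i : Q)), fun a => E (fun i => (a i : Q)), ?_, ?_, ?_, ?_, ?_, ?_, ?_⟩
  · intro g a hg
    exact h1 (g : Q) (fun i => (a i : Q)) (congrArg Subtype.val hg)
  · intro g a hg
    exact h2 (g : Q) (fun i => (a i : Q)) (congrArg Subtype.val hg)
  · exact ⟨fun σ a => h3.alt σ (fun i => (a i : Q)), fun t a => h3.bas t (fun i => (a i : Q))⟩
  · exact ⟨fun σ a => h4.alt σ (fun i => (a i : Q)), fun t a => h4.bas t (fun i => (a i : Q))⟩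
  · intro a
    exact h5 (fun i => (a i : Q))
  · intro a
    exact h6 (fun i => (a i : Q))
  · rcases h7 with h7 | h7 | h7
    · left
      funext a
      rw [h7]
      rfl
    · right
      left
      obtain ⟨p, b, c, hp, hu, hd, hr⟩ := h7
      refine ⟨p, b, c, hp, hu, fun a => hd _, ?_⟩
      intro δ hδ
      exact hr (δ : Q) (by rw [← hδ]; rfl)
    · right
      right
      classical
      intro V
      refine (h7 (V.image Subtype.val)).mono ?_
      rintro p ⟨hp, hd, hz⟩
      refine ⟨hp, fun a => hd _, ?_⟩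
      intro z hzV hc
      have hc' : IsConj ((z : Q) ^ p) (y : Q) := by
        have := MonoidHom.map_isConj H.subtype hc
        simpa using this
      obtain ⟨k, hk⟩ := hz (z : Q) (Finset.mem_image.2 ⟨z, hzV, rfl⟩) hc'
      refine ⟨k, ?_⟩
      apply Subtype.ext
      simpa using hk

/-- The pulled back family is admissible. -/
theorem admS {R : Type} [CommRing R] {Q G : Type} [Group Q] [Group G] (π : Q →* G) {n : ℕ}
    {F : (Fin (n + 1) → G) → G → ℚ}
    (hinv : ∀ (g : G) (a : Fin (n + 1) → G) (y : G), F (fun i => g * a i) (g * y * g⁻¹) = F a y)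
    (hF : ∀ y : Q, AdmSY R n y (fun a : Fin (n + 1) → Q => F (fun i => π (a i)) (π y))) :
    AdmS R n (fun (a : Fin (n + 1) → Q) (y : Q) => F (fun i => π (a i)) (π y)) := by
  refine ⟨?_, ?_⟩
  · intro g a y
    have := hinv (π g) (fun i => π (a i)) (π y)
    simpa using this
  · intro H _ y
    exact res H y (hF (y : Q))

end LTE

/-- LTE: idempotent matrices. -/
theorem t_LTE (hrte : S_RTE) (hlme : S_LME) (hlna : S_LNA) : S_LTE := by
  intro R _ k _ _ _ hinj G _ i r hi e he F hF
  obtain ⟨S, hS⟩ := hlme R G r e he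
  obtain ⟨Q, _, π, s, hs, hQ⟩ := hF.adm S
  obtain ⟨e', he', hπ⟩ := hS Q π s hs
  have h1 := hlna R k Q G π (2 * i) r F (fun _ => e')
  have h2 := hrte R k hinj Q i r hi e' he' _ (LTE.admS π hF.inv hQ)
  rw [h2] at h1
  rw [← h1]
  congr 1
  funext j
  exact hπ.symm

end Pool.Agent.FJA
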