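import Pool.Agent.FJA.StW

/-!
# HTH: the theorem for cycles
-/

set_option autoImplicit false

open Matrix Pool.Agent.WhK Pool.Agent.Lib25

noncomputable section

namespace Pool.Agent.FJA

namespace HTH

/-- naturality of the linear extension -/
theorem lT_map {T : ∀ V : Type, ℕ → List V → (List V →₀ ℚ)} (hT : NatLift T) {V W : Type}
    (f : V → W) (i : ℕ) (c : List V →₀ ℚ) :
    lT T W i (c.mapDomain (List.map f)) = (lT T V i c).mapDomain (List.map f) := by
  induction c using Finsupp.induction_linear with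
  | zero => simp
  | add a b ha hb => rw [Finsupp.mapDomain_add, map_add, map_add, Finsupp.mapDomain_add, ha, hb]
  | single X q =>
    rw [Finsupp.mapDomain_single, lT, lT, Finsupp.linearCombination_single,
      Finsupp.linearCombination_single, hT.nat, Finsupp.mapDomain_smul]

/-- the lists which occur in the lift have the expected length -/
theorem lT_len {T : ∀ V : Type, ℕ → List V → (List V →₀ ℚ)} (hT : NatLift T) {V : Type}
    (i L : ℕ) (c : List V →₀ ℚ) (hc : ∀ X ∈ c.support, X.length = L) :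
    ∀ Y ∈ (lT T V i c).support, Y.length = L + 2 * i := by
  classical
  intro Y hY
  rw [lT, Finsupp.linearCombination_apply] at hY
  have h1 := Finsupp.support_sum hY
  rw [Finset.mem_biUnion] at h1
  obtain ⟨X, hX, hY2⟩ := h1
  rw [hT.deg V i X Y (Finsupp.support_smul hY2), hc X hX]

theorem ofFn_len {V : Type} (n : ℕ) (z : (Fin n → V) →₀ ℚ) :
    ∀ X ∈ (z.mapDomain List.ofFn).support, X.length = n := by
  classical
  intro X hX
  have h1 := Finsupp.mapDomain_support hX
  rw [Finset.mem_image] at h1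
  obtain ⟨Y, -, rfl⟩ := h1
  exact List.length_ofFn

/-- the sum over the tuples -/
theorem sum_tpL {V : Type} {k : Type} [Field k] [CharZero k] (L : ℕ) (c : List V →₀ ℚ)
    (hc : ∀ Y ∈ c.support, Y.length = L) (g : List V → k) (g' : (Fin L → V) → k)
    (hg : ∀ (Y : List V) (h : Y.length = L), g Y = g' (fun j => Y.get (j.cast h.symm))) :
    (c.sum fun Y q => (q : k) * g Y) = (tpL V L c).sum fun X q => (q : k) * g' X := by
  classical
  rw [tpL, Finsupp.linearCombination_apply, Finsupp.sum_sum_index]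
  · rw [Finsupp.sum, Finsupp.sum]
    refine Finset.sum_congr rfl fun Y hY => ?_
    rw [dif_pos (hc Y hY), Finsupp.smul_single, smul_eq_mul, mul_one, Finsupp.sum_single_index,
      hg Y (hc Y hY)]
    simp
  · intro X
    simp
  · intro X a b
    push_cast
    ring

end HTH

open HTH in
theorem t_HTH (hhfg : S_HFG) (hhna : S_HNA) (hhnl : S_HNL) (hhun : S_HUN) (hhtx : S_HTX)
    (hhde : S_HDE) : S_HTH := by
  classical
  intro T hT k _ _ G _ n i r hn hi z hz F hF
  obtain ⟨H, hHf, z', hz', hzz⟩ := hhfg.1 k G n r hn z hz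
  obtain ⟨M, hM⟩ : ∃ M, n + 2 * i = M + 1 := ⟨n + 2 * i - 1, by omega⟩
  have hM1 : 1 ≤ M := by omega
  obtain ⟨hrep, hbd⟩ := hhnl T hT ((Matrix (Fin r) (Fin r) (MonoidAlgebra k H))ˣ) n i M hn hi hM z' hz'
  set f := glG (k := k) (ι := Fin r) H.subtype with hf
  set c' := lT T ((Matrix (Fin r) (Fin r) (MonoidAlgebra k H))ˣ) i (z'.mapDomain List.ofFn) with hc'
  have hlen : ∀ Y ∈ c'.support, Y.length = M + 2 := by
    intro Y hY
    have h1 := lT_len hT i (n + 1) (z'.mapDomain List.ofFn) (ofFn_len (n + 1) z') Y hY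
    omega
  have e1 : lT T ((Matrix (Fin r) (Fin r) (MonoidAlgebra k G))ˣ) i (z.mapDomain List.ofFn) =
      c'.mapDomain (List.map f) := by
    rw [hc', ← lT_map hT]
    congr 1
    rw [← hzz, hmap, Finsupp.lmapDomain_apply, ← Finsupp.mapDomain_comp, ← Finsupp.mapDomain_comp]
    congr 1
    funext X
    simp only [Function.comp]
    rw [List.map_ofFn]
    rfl
  rw [e1]
  generalize n + 2 * i = m at F hF hM ⊢
  subst hM
  set F' : (Fin (M + 1 + 1) → H) → H → ℚ := fun a y => F (fun j => (a j : G)) (y : G) with hF'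
  have hinv : ∀ (g : H) (a : Fin (M + 1 + 1) → H) (y : H),
      F' (fun i => g * a i) (g * y * g⁻¹) = F' a y := by
    intro g a y
    exact hF.inv (g : G) (fun j => (a j : G)) (y : G)
  have e2 : ∀ Y : List ((Matrix (Fin r) (Fin r) (MonoidAlgebra k H))ˣ),
      cval F (hseq (M + 1) (Y.map f)) = cval F' (hseq (M + 1) Y) := by
    intro Y
    have h1 := hhna k G H (M + 1) r F (hseq (M + 1) Y)
    rw [← h1]
    congr 1
    funext j
    have h2 : ∀ a : ℕ, (Y.map f).getD a 1 = f (Y.getD a 1) := by
      intro a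
      have h3 := List.getD_map (l := Y) (d := 1) (n := a) f
      rw [map_one] at h3
      exact h3
    unfold hseq
    rw [h2, h2, ← map_inv, ← map_mul]
    rfl
  rw [Finsupp.sum_mapDomain_index (by intro b; simp) (by intro b m₁ m₂; push_cast; ring)]
  simp only [e2]
  rw [sum_tpL (k := k) (M + 2) c' hlen (fun Y => cval F' (hseq (M + 1) Y))
    (fun X => TG (fst F') 1 (fun j => pU (X j)))]
  · have hB := hhun k H (Fin r) M hM1 _ hbd
    have hR : ∀ X ∈ ((tpL ((Matrix (Fin r) (Fin r) (MonoidAlgebra k H))ˣ) (M + 2) c').mapDomain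
        fun X j => pU (X j)).support, ∃ a b, a ≠ b ∧ X a = X b := by
      intro X hX
      have h2 := Finsupp.mapDomain_support hX
      rw [Finset.mem_image] at h2
      obtain ⟨Y, hY, rfl⟩ := h2
      obtain ⟨a, b, hab, hYab⟩ := hrep Y hY
      exact ⟨a, b, hab, congrArg pU hYab⟩
    have hA : ∀ y : H, AdmY (M + 1) y (fun a => F' a y) := fun y => hF.adm H hHf y
    have h1 := hhtx k H (Fin r) (1 : Matrix (Fin r) (Fin r) (MonoidAlgebra k H)) M F' hinv
      hA _ hB hR
    rw [Finsupp.sum_mapDomain_index (by intro b; simp) (by intro b m₁ m₂; push_cast; ring)] at h1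
    exact h1
  · intro Y hY
    rw [hhde k H (Fin r) 1 (M + 1) F' hinv]
    congr 1
    funext j
    have h3 : ∀ a : Fin (M + 1 + 1), Y.getD a 1 = Y.get (a.cast hY.symm) := by
      intro a
      rw [List.getD_eq_getElem _ _ (by rw [hY]; exact a.isLt)]
      rfl
    unfold hseq
    rw [h3, h3]
    rfl

end Pool.Agent.FJA
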