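import Pool.Agent.FJA.StT

/-!
# The elements of finite order
-/

set_option autoImplicit false

open Matrix Pool.Agent.WhK Pool.Agent.Lib25

noncomputable section

namespace Pool.Agent.FJA

namespace TFI

theorem hmap_single {V V' : Type} (f : V → V') (m : ℕ) (v : Fin m → V) (c : ℚ) :
    hmap ℚ f m (Finsupp.single v c) = Finsupp.single (fun i => f (v i)) c :=
  Finsupp.mapDomain_single

theorem bd_hmap {V V' : Type} (f : V → V') (m : ℕ) (w : (Fin (m + 1) → V) →₀ ℚ) :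
    bd ℚ V' m (hmap ℚ f (m + 1) w) = hmap ℚ f m (bd ℚ V m w) := by
  induction w using Finsupp.induction_linear with
  | zero => simp only [map_zero]
  | add a b ha hb => simp only [map_add, ha, hb]
  | single X q =>
    rw [hmap_single, bd_single, bd_single, map_sum]
    refine Finset.sum_congr rfl fun i _ => ?_
    rw [map_smul, hmap_single]

theorem cyc_hmap {P Q : Type} [Group P] [Group Q] (f : P →* Q) (m : ℕ)
    {w : (Fin (m + 1 + 1) → P) →₀ ℚ} (hw : w ∈ cyc ℚ P (m + 1)) :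
    hmap ℚ f (m + 1 + 1) w ∈ cyc ℚ Q (m + 1) := by
  change bd ℚ Q (m + 1) (hmap ℚ f (m + 1 + 1) w) ∈ hdeg ℚ Q m
  rw [bd_hmap]
  exact hmap_hdeg m f hw

theorem gcoch {G : Type} [Group G] {n n0 : ℕ} {F : (Fin (n + 2) → G) → G → ℤ}
    (hF : CocFam (n + 1) F) (h : ∀ a y, F a y ≠ 0 → orderOf y = n0) :
    GCoch (n + 1) (fun y => orderOf y = n0) (qF F) where
  inv γ a y := by
    unfold qF
    rw [hF.inv]
  coc a y := by
    have h1 := hF.coc a y
    unfold qF
    exact_mod_cast h1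
  supp a y hy := by
    refine h a y fun h0 => hy ?_
    unfold qF
    rw [h0, Int.cast_zero]
  den := by
    refine ⟨1, one_pos, fun a y => ⟨F a y, ?_⟩⟩
    unfold qF
    rw [Nat.cast_one, one_mul]

theorem niM {G : Type} [Group G] {p : ℕ} [Fact p.Prime] {r : ℕ}
    (A : Matrix (Fin r) (Fin r) (MonoidAlgebra ℤ G)) :
    NIM ((MonoidAlgebra.mapRingHom G (Int.castRingHom ℚ_[p])).mapMatrix A) := by
  intro a b μ
  change ‖((MonoidAlgebra.mapRingHom G (Int.castRingHom ℚ_[p])) (A a b)).coeff μ‖ ≤ 1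
  rw [MonoidAlgebra.coeff_mapRingHom]
  exact Padic.norm_int_le_one _

theorem niU {G : Type} [Group G] {p : ℕ} [Fact p.Prime] {r : ℕ}
    (A : (Matrix (Fin r) (Fin r) (MonoidAlgebra ℤ G))ˣ) : NIU (zU ℚ_[p] A) := by
  refine ⟨niM A.val, ?_⟩
  rw [← map_inv]
  exact niM (A⁻¹ : (Matrix (Fin r) (Fin r) (MonoidAlgebra ℤ G))ˣ).val

end TFI

theorem t_TFI (hden : S_DEN) (hdez : S_DEZ) (hshf : S_SHF) (hvan : S_VAN) : S_TFI := by
  intro G _ n n0 hn0 p hpp hp hpd F hF hFo r z hz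
  obtain ⟨ha, hb, hc⟩ := hshf
  set k := ℚ_[p] with hk
  set c := hmap ℚ (zU k (G := G) (r := r)) (n + 1 + 1) z with hcdef
  have hcyc : c ∈ cyc ℚ ((Matrix (Fin r) (Fin r) (MonoidAlgebra k G))ˣ) (n + 1) :=
    TFI.cyc_hmap (zU k) n hz
  have h1 := hvan G n n0 hn0 p hp hpd (qF F) (TFI.gcoch hF hFo) (tP k (n + 1) r c)
    (hc p G (n + 1) r c (by
      intro X hX j
      classical
      obtain ⟨Y, -, hY⟩ := Finset.mem_image.1 (Finsupp.mapDomain_support hX)
      rw [← hY]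
      exact TFI.niU _))
    (fun η hη N _ => ha k G (n + 1) r (by omega) c hcyc η hη N)
  rw [hb k G (n + 1) r c (qF F)] at h1
  have h2 : (c.sum fun X q => (q : k) * TX (fst (qF F)) 1 X) = 0 := by
    rcases mul_eq_zero.1 h1 with h3 | h3
    · exact absurd h3 (pow_ne_zero _ (neg_ne_zero.2 one_ne_zero))
    · exact h3
  have h3 : (c.sum fun X q => (q : k) * TX (fst (qF F)) 1 X) =
      z.sum fun X q => (q : k) * TX (fst (qF F)) 1 (fun i => zU k (X i)) := by
    rw [hcdef]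
    exact Finsupp.sum_mapDomain_index (fun X => by rw [Rat.cast_zero, zero_mul])
      (fun X q q' => by rw [Rat.cast_add, add_mul])
  have hinv : ∀ (g : G) (a : Fin (n + 1 + 1) → G) (y : G),
      qF F (fun i => g * a i) (g * y * g⁻¹) = qF F a y := (TFI.gcoch hF hFo).inv
  have h4 : ∀ X : Fin (n + 1 + 1) → (Matrix (Fin r) (Fin r) (MonoidAlgebra ℤ G))ˣ,
      TX (fst (qF F)) 1 (fun i => zU k (X i)) = (((dennis F X : ℤ) : ℚ) : k) := by
    intro X
    rw [hden k G (n + 1) r (qF F) hinv, (hdez.2.1 k G (n + 1) r F X).1, Rat.cast_intCast]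
  have h5 : (((z.sum fun X q => q * ((dennis F X : ℤ) : ℚ)) : ℚ) : k) = 0 := by
    rw [← h2, h3, Finsupp.sum, Finsupp.sum, Rat.cast_sum]
    refine Finset.sum_congr rfl fun X _ => ?_
    rw [h4, Rat.cast_mul]
  exact_mod_cast h5

end Pool.Agent.FJA
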