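import Pool.Agent.FJA.StL
import Pool.Agent.FJA.P_TFI
import Pool.Agent.FJA.P_HTH

/-!
# LTH: cycles of `GL_r(R[G])`, direct limits of groups
-/

set_option autoImplicit false

open Matrix Pool.Agent.WhK Pool.Agent.Lib25

noncomputable section

namespace Pool.Agent.FJA

namespace LTH

/-- The conditions restrict to subgroups. -/
theorem admSY_restrict {R : Type} [CommRing R] {Q : Type} [Group Q] {n : ℕ} (H : Subgroup Q) (y : H)
    (f : (Fin (n + 1) → Q) → ℚ) (h : AdmSY R n (y : Q) f) :
    AdmSY R n y (fun a : Fin (n + 1) → H => f (fun i => (a i : Q))) := by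
  classical
  obtain ⟨f', E, hf', hE, haf, haE, hc, hfe, hr⟩ := h
  refine ⟨fun a => f' (fun i => (a i : Q)), fun a => E (fun i => (a i : Q)), ?_, ?_, ?_, ?_, ?_, ?_, ?_⟩
  · intro g a hg
    exact hf' (g : Q) (fun i => (a i : Q)) (congrArg Subtype.val hg)
  · intro g a hg
    exact hE (g : Q) (fun i => (a i : Q)) (congrArg Subtype.val hg)
  · exact ⟨fun σ a => haf.alt σ (fun i => (a i : Q)), fun t a => haf.bas t (fun i => (a i : Q))⟩
  · exact ⟨fun σ a => haE.alt σ (fun i => (a i : Q)), fun t a => haE.bas t (fun i => (a i : Q))⟩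
  · intro a
    exact hc (fun i => (a i : Q))
  · intro a
    exact hfe (fun i => (a i : Q))
  · rcases hr with h0 | h1 | h2
    · left
      funext a
      rw [h0]
      rfl
    · right
      left
      obtain ⟨p, b, c, hp, hu, hd, hδ⟩ := h1
      exact ⟨p, b, c, hp, hu, fun a => hd _, fun δ hδ' => hδ (δ : Q) (by rw [← hδ']; rfl)⟩
    · right
      right
      intro V
      refine (h2 (V.image Subtype.val)).mono ?_
      rintro p ⟨hp, hd, hz⟩
      refine ⟨hp, fun a => hd _, ?_⟩
      intro z hzV hconj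
      have h4 : IsConj ((z : Q) ^ p) (y : Q) := by
        have h5 := (H.subtype : H →* Q).map_isConj hconj
        exact h5
      have h3 := hz (z : Q) (Finset.mem_image_of_mem _ hzV) h4
      rw [Subgroup.mem_zpowers_iff] at h3 ⊢
      obtain ⟨k, hk⟩ := h3
      exact ⟨k, Subtype.ext hk⟩

/-- The pulled back family satisfies the conditions. -/
theorem admS_pull {R : Type} [CommRing R] {Q G : Type} [Group Q] [Group G] (π : Q →* G) {m : ℕ}
    (F : (Fin (m + 1) → G) → G → ℚ)
    (hinv : ∀ (g : G) (a : Fin (m + 1) → G) (y : G), F (fun i => g * a i) (g * y * g⁻¹) = F a y)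
    (h : ∀ y : Q, AdmSY R m y (fun a : Fin (m + 1) → Q => F (fun i => π (a i)) (π y))) :
    AdmS R m (fun (a : Fin (m + 1) → Q) (y : Q) => F (fun i => π (a i)) (π y)) where
  inv := by
    intro g a y
    have h1 := hinv (π g) (fun i => π (a i)) (π y)
    rw [← h1]
    simp only [map_mul, map_inv]
  adm := by
    intro H _ y
    exact admSY_restrict H y _ (h (y : Q))

/-- naturality of `hseq` -/
theorem hseq_map {R : Type} [CommRing R] {Q G : Type} [Group Q] [Group G] (π : Q →* G) {r : ℕ}
    (m : ℕ) (Y : List ((Matrix (Fin r) (Fin r) (MonoidAlgebra R Q))ˣ)) :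
    hseq m (Y.map (glR R (r := r) π)) =
      fun j => ((MonoidAlgebra.mapDomainRingHom R π).mapMatrix :
      Matrix (Fin r) (Fin r) (MonoidAlgebra R Q) →+* Matrix (Fin r) (Fin r) (MonoidAlgebra R G))
        (hseq m Y j) := by
  funext j
  have h2 : ∀ a : ℕ, (Y.map (glR R (r := r) π)).getD a 1 = glR R (r := r) π (Y.getD a 1) := by
    intro a
    have h3 := List.getD_map (l := Y) (d := 1) (n := a) (glR R (r := r) π)
    rw [map_one] at h3
    exact h3
  unfold hseq
  rw [h2, h2, ← map_inv, ← map_mul]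
  rfl

end LTH

open LTH in
theorem t_LTH (hrth : S_RTH) (hlmf : S_LMF) (hlna : S_LNA) : S_LTH := by
  classical
  intro T hT R _ k _ _ _ hinj G _ n i r hn hi z hz F hF
  obtain ⟨S, hS⟩ := hlmf R G n r z hz
  obtain ⟨Q, hQ, π, s, hps, hadm⟩ := hF.adm S
  obtain ⟨z', hz', hzz⟩ := hS Q π s hps
  have h1 := hrth T hT R k hinj Q n i r hn hi z' hz'
    (fun (a : Fin (n + 2 * i + 1) → Q) (y : Q) => F (fun j => π (a j)) (π y))
    (admS_pull π F hF.inv hadm)
  have e1 : z.mapDomain List.ofFn =
      (z'.mapDomain List.ofFn).mapDomain (List.map (glR R (r := r) π)) := by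
    rw [← hzz, hmap, Finsupp.lmapDomain_apply, ← Finsupp.mapDomain_comp, ← Finsupp.mapDomain_comp]
    congr 1
    funext X
    simp only [Function.comp]
    rw [List.map_ofFn]
    rfl
  rw [e1, HTH.lT_map hT,
    Finsupp.sum_mapDomain_index (by intro b; simp) (by intro b m₁ m₂; push_cast; ring)]
  rw [← h1]
  refine Finsupp.sum_congr fun Y _ => ?_
  rw [hseq_map, hlna R k Q G π (n + 2 * i) r F (hseq (n + 2 * i) Y)]

end Pool.Agent.FJA
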