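import Pool.Agent.FJA.StW

/-!
# Module HLI: integral families are admissible at the elements of finite order, and on linear groups
-/

set_option autoImplicit false

noncomputable section

namespace Pool.Agent.FJA

namespace HLI

theorem cinv {G : Type} [Group G] {n : ℕ} {F : (Fin (n + 1) → G) → G → ℤ} (hF : CocFam n F)
    (H : Subgroup G) (y : H) :
    CInv y (fun a : Fin (n + 1) → H => ((F (fun i => (a i : G)) (y : G) : ℤ) : ℚ)) := by
  intro g a hg
  have h1 : (g : G) * (y : G) * (g : G)⁻¹ = (y : G) := by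
    have h2 : (g : G) * (y : G) = (y : G) * (g : G) := congrArg (fun x : H => (x : G)) hg
    rw [h2, mul_inv_cancel_right]
  have h3 := hF.inv (g : G) (fun i => (a i : G)) (y : G)
  rw [h1] at h3
  have h4 : (fun i => ((g * a i : H) : G)) = fun i => (g : G) * (a i : G) := by
    funext i
    exact Subgroup.coe_mul H g (a i)
  show ((F (fun i => ((g * a i : H) : G)) (y : G) : ℤ) : ℚ) = _
  rw [h4, h3]

theorem cobE_zero {G : Type} {n : ℕ} (a : Fin (n + 1) → G) :
    cobE (0 : (Fin n → G) → ℚ) a = 0 := by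
  unfold cobE
  simp

theorem coc {G : Type} [Group G] {n : ℕ} {F : (Fin (n + 1) → G) → G → ℤ} (hF : CocFam n F)
    (H : Subgroup G) (y : H) (a : Fin (n + 2) → H) :
    cobE (fun a : Fin (n + 1) → H => ((F (fun i => (a i : G)) (y : G) : ℤ) : ℚ)) a = 0 := by
  unfold cobE
  have h := hF.coc (fun i => (a i : G)) (y : G)
  have h2 := congrArg (fun x : ℤ => (x : ℚ)) h
  simp only [Int.cast_sum, Int.cast_mul, Int.cast_pow, Int.cast_neg, Int.cast_one,
    Int.cast_zero] at h2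
  exact h2

theorem altb_res {G : Type} [Group G] {n : ℕ} {F : (Fin (n + 1) → G) → G → ℤ}
    (hF : ∀ y : G, AltB y (fun a => (F a y : ℚ))) (H : Subgroup G) (y : H) :
    AltB y (fun a : Fin (n + 1) → H => ((F (fun i => (a i : G)) (y : G) : ℤ) : ℚ)) := by
  refine ⟨fun σ a => (hF (y : G)).alt σ (fun i => (a i : G)), fun t a => ?_⟩
  have h := (hF (y : G)).bas t (fun i => (a i : G))
  have h4 : (fun i => ((y ^ t i * a i : H) : G)) = fun i => (y : G) ^ t i * (a i : G) := by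
    funext i
    rw [Subgroup.coe_mul, Subgroup.coe_zpow]
  show ((F (fun i => ((y ^ t i * a i : H) : G)) (y : G) : ℤ) : ℚ) = _
  rw [h4]
  exact h

theorem altb_zero {G : Type} [Group G] {n : ℕ} (y : G) : AltB y (0 : (Fin n → G) → ℚ) :=
  ⟨fun _ _ => (mul_zero _).symm, fun _ _ => rfl⟩

theorem mem_zpowers_pow {Γ : Type} [Group Γ] {z : Γ} {p : ℕ} (hp : p.Prime)
    (h : ¬ p ∣ orderOf z) : z ∈ Subgroup.zpowers (z ^ p) := by
  have hc : Nat.Coprime p (orderOf z) := (Nat.Prime.coprime_iff_not_dvd hp).2 h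
  have hg := Nat.gcd_eq_gcd_ab p (orderOf z)
  rw [Nat.coprime_iff_gcd_eq_one.1 hc] at hg
  rw [Subgroup.mem_zpowers_iff]
  refine ⟨Nat.gcdA p (orderOf z), ?_⟩
  have h1 : z ^ ((p : ℤ) * Nat.gcdA p (orderOf z) +
      (orderOf z : ℤ) * Nat.gcdB p (orderOf z)) = z := by
    rw [← hg]
    simp
  rw [zpow_add, zpow_mul z (orderOf z : ℤ), zpow_natCast, pow_orderOf_eq_one, one_zpow, mul_one,
    zpow_mul, zpow_natCast] at h1
  exact h1

theorem isOfFinOrder_of_conj {Γ : Type} [Group Γ] {x y : Γ} (h : IsConj x y)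
    (hx : IsOfFinOrder x) : IsOfFinOrder y := by
  obtain ⟨c, hc⟩ := isConj_iff.1 h
  rw [← hc]
  rw [isOfFinOrder_iff_pow_eq_one] at hx ⊢
  obtain ⟨m, hm, hm1⟩ := hx
  exact ⟨m, hm, by rw [conj_pow, hm1, mul_one, mul_inv_cancel]⟩

theorem fin_of_pow_conj {Γ : Type} [Group Γ] {z y : Γ} {p : ℕ} (hp : p ≠ 0)
    (h : IsConj (z ^ p) y) (hy : IsOfFinOrder y) : IsOfFinOrder z := by
  have h1 : IsOfFinOrder (z ^ p) := isOfFinOrder_of_conj h.symm hy
  rw [isOfFinOrder_iff_pow_eq_one] at h1 ⊢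
  obtain ⟨m, hm, hm1⟩ := h1
  exact ⟨p * m, Nat.mul_pos (Nat.pos_of_ne_zero hp) hm, by rw [pow_mul, hm1]⟩

theorem fin_conj_of_fin {Γ : Type} [Group Γ] {z y : Γ} {p : ℕ}
    (h : IsConj (z ^ p) y) (hz : IsOfFinOrder z) : IsOfFinOrder y :=
  isOfFinOrder_of_conj h hz.pow

/-- the case of finite order -/
theorem inf_fin {Γ : Type} [Group Γ] {y : Γ} (hy : IsOfFinOrder y) {ι : Type} (f : ι → ℤ)
    (V : Finset Γ) : {p : ℕ | p.Prime ∧ (∀ a, ¬ p ∣ ((f a : ℤ) : ℚ).den) ∧
      ∀ z ∈ V, IsConj (z ^ p) y → z ∈ Subgroup.zpowers (z ^ p)}.Infinite := by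
  classical
  have hbad : (⋃ z ∈ V.filter (fun z => IsOfFinOrder z), {p : ℕ | p ∣ orderOf z}).Finite := by
    apply Set.Finite.biUnion (Finset.finite_toSet _)
    intro z hz
    have hz2 : IsOfFinOrder z := (Finset.mem_filter.1 hz).2
    refine (Set.finite_le_nat (orderOf z)).subset ?_
    intro p hp
    exact Nat.le_of_dvd hz2.orderOf_pos hp
  refine (Nat.infinite_setOfPred_prime.sdiff hbad).mono ?_
  rintro p ⟨hp, hpn⟩
  have hp' : p.Prime := hp
  refine ⟨hp', ?_, ?_⟩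
  · intro a
    rw [Rat.den_intCast]
    exact hp'.one_lt.ne' ∘ Nat.dvd_one.1
  · intro z hz hconj
    have hzf : IsOfFinOrder z := fin_of_pow_conj hp'.ne_zero hconj hy
    apply mem_zpowers_pow hp'
    intro hdvd
    apply hpn
    rw [Set.mem_iUnion₂]
    exact ⟨z, Finset.mem_filter.2 ⟨hz, hzf⟩, hdvd⟩

theorem adm_of {G : Type} [Group G] {n : ℕ} {F : (Fin (n + 1) → G) → G → ℤ} (hF : IntFam n F)
    (hinf : ∀ H : Subgroup G, H.FG → ∀ y : H, ¬ IsOfFinOrder y →
      (fun a : Fin (n + 1) → H => ((F (fun i => (a i : G)) (y : G) : ℤ) : ℚ)) = 0 ∨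
      ∀ V : Finset H, {p : ℕ | p.Prime ∧
        (∀ a : Fin (n + 1) → H, ¬ p ∣ ((F (fun i => (a i : G)) (y : G) : ℤ) : ℚ).den) ∧
        ∀ z ∈ V, IsConj (z ^ p) y → z ∈ Subgroup.zpowers (z ^ p)}.Infinite) :
    AdmT n (fun a y => (F a y : ℚ)) := by
  refine ⟨?_, ?_⟩
  · intro g a y
    show ((F (fun i => g * a i) (g * y * g⁻¹) : ℤ) : ℚ) = ((F a y : ℤ) : ℚ)
    rw [hF.fam.inv]
  · intro H hH y
    refine ⟨fun a : Fin (n + 1) → H => ((F (fun i => (a i : G)) (y : G) : ℤ) : ℚ), 0,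
      cinv hF.fam H y, fun _ _ _ => rfl, altb_res hF.altb H y, altb_zero y, coc hF.fam H y,
      ?_, ?_⟩
    · intro a
      rw [cobE_zero, add_zero]
    · by_cases hfin : IsOfFinOrder y
      · right
        intro V
        exact inf_fin hfin _ V
      · exact hinf H hH y hfin

end HLI

open HLI in
theorem t_HLI (hljk : S_LJK) : S_HLI := by
  refine ⟨?_, ?_⟩
  · intro G _ n F hF h0
    refine adm_of hF ?_
    intro H hH y hy
    left
    funext a
    show ((F (fun i => (a i : G)) (y : G) : ℤ) : ℚ) = 0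
    by_contra hne
    have h1 : F (fun i => (a i : G)) (y : G) ≠ 0 := by
      intro h2
      apply hne
      rw [h2, Int.cast_zero]
    have h2 := h0 _ _ h1
    exact hy (Submonoid.isOfFinOrder_coe.1 h2)
  · intro G _ K _ _ n N ρ hρ F hF
    refine adm_of hF ?_
    intro H hH y hy
    right
    intro V
    classical
    have hfg : Group.FG H := (Group.fg_iff_subgroup_fg H).2 hH
    have hinj : Function.Injective (ρ.comp H.subtype) := by
      intro a b hab
      exact Subtype.ext (hρ hab)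
    have hbad : (⋃ z ∈ V.filter (fun z => ¬ IsOfFinOrder z),
        {p : ℕ | p.Prime ∧ IsConj y (z ^ p)}).Finite := by
      apply Set.Finite.biUnion (Finset.finite_toSet _)
      intro z hz
      exact hljk H K N (ρ.comp H.subtype) hinj z (Finset.mem_filter.1 hz).2 y
    refine (Nat.infinite_setOfPred_prime.sdiff hbad).mono ?_
    rintro p ⟨hp, hpn⟩
    have hp' : p.Prime := hp
    refine ⟨hp', ?_, ?_⟩
    · intro a
      rw [Rat.den_intCast]
      exact hp'.one_lt.ne' ∘ Nat.dvd_one.1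
    · intro z hz hconj
      exfalso
      have hzn : ¬ IsOfFinOrder z := fun h => hy (fin_conj_of_fin hconj h)
      apply hpn
      rw [Set.mem_iUnion₂]
      exact ⟨z, Finset.mem_filter.2 ⟨hz, hzn⟩, hp', hconj.symm⟩

end Pool.Agent.FJA
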