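import Pool.Agent.FJA.StL
import Pool.Agent.FJA.P_HLI

/-!
# Module LXB: integral families on direct limits of groups without divisible elements of infinite order
-/

set_option autoImplicit false

noncomputable section

namespace Pool.Agent.FJA

namespace LXB

/-- the family on `Q` -/
theorem cinv {Q G : Type} [Group Q] [Group G] {n : ℕ} {F : (Fin (n + 1) → G) → G → ℤ}
    (hF : CocFam n F) (π : Q →* G) (y : Q) :
    CInv y (fun a : Fin (n + 1) → Q => ((F (fun i => π (a i)) (π y) : ℤ) : ℚ)) := by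
  intro g a hg
  have h1 : π g * π y * (π g)⁻¹ = π y := by
    rw [← map_mul, hg, map_mul, mul_inv_cancel_right]
  have h3 := hF.inv (π g) (fun i => π (a i)) (π y)
  rw [h1] at h3
  have h4 : (fun i => π (g * a i)) = fun i => π g * π (a i) := by
    funext i
    exact map_mul π g (a i)
  show ((F (fun i => π (g * a i)) (π y) : ℤ) : ℚ) = _
  rw [h4, h3]

theorem coc {Q G : Type} [Group Q] [Group G] {n : ℕ} {F : (Fin (n + 1) → G) → G → ℤ}
    (hF : CocFam n F) (π : Q →* G) (y : Q) (a : Fin (n + 2) → Q) :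
    cobE (fun a : Fin (n + 1) → Q => ((F (fun i => π (a i)) (π y) : ℤ) : ℚ)) a = 0 := by
  unfold cobE
  have h := hF.coc (fun i => π (a i)) (π y)
  have h2 := congrArg (fun x : ℤ => (x : ℚ)) h
  simp only [Int.cast_sum, Int.cast_mul, Int.cast_pow, Int.cast_neg, Int.cast_one,
    Int.cast_zero] at h2
  exact h2

theorem altb_res {Q G : Type} [Group Q] [Group G] {n : ℕ} {F : (Fin (n + 1) → G) → G → ℤ}
    (hF : ∀ y : G, AltB y (fun a => (F a y : ℚ))) (π : Q →* G) (y : Q) :
    AltB y (fun a : Fin (n + 1) → Q => ((F (fun i => π (a i)) (π y) : ℤ) : ℚ)) := by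
  refine ⟨fun σ a => (hF (π y)).alt σ (fun i => π (a i)), fun t a => ?_⟩
  have h := (hF (π y)).bas t (fun i => π (a i))
  have h4 : (fun i => π (y ^ t i * a i)) = fun i => (π y) ^ t i * π (a i) := by
    funext i
    rw [map_mul, map_zpow]
  show ((F (fun i => π (y ^ t i * a i)) (π y) : ℤ) : ℚ) = _
  rw [h4]
  exact h

end LXB

theorem t_LXB : S_LXB := by
  intro R _ hR G _ hG n F hF
  refine ⟨?_, ?_⟩
  · intro g a y
    show ((F (fun i => g * a i) (g * y * g⁻¹) : ℤ) : ℚ) = ((F a y : ℤ) : ℚ)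
    rw [hF.fam.inv]
  · intro S
    obtain ⟨Q, instQ, π, s, hs, hQ⟩ := hG S
    refine ⟨Q, instQ, π, s, hs, ?_⟩
    intro y
    refine ⟨fun a : Fin (n + 1) → Q => ((F (fun i => π (a i)) (π y) : ℤ) : ℚ), 0,
      LXB.cinv hF.fam π y, fun _ _ _ => rfl, LXB.altb_res hF.altb π y, HLI.altb_zero y,
      LXB.coc hF.fam π y, ?_, ?_⟩
    · intro a
      rw [HLI.cobE_zero, add_zero]
    · by_cases hfin : IsOfFinOrder y
      · refine Or.inr (Or.inr ?_)
        intro V
        exact HLI.inf_fin hfin _ V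
      · refine Or.inr (Or.inl ?_)
        have h1 : ¬ Dvb y := fun h => hfin (hQ y h)
        unfold Dvb at h1
        push Not at h1
        obtain ⟨p, c, hp, hδ⟩ := h1
        refine ⟨p, 1, c, hp, hR p hp, ?_, hδ⟩
        intro a h
        rw [pow_one] at h
        have h2 : (((F (fun i => π (a i)) (π y) : ℤ) : ℚ)).den = 1 := Rat.den_intCast _
        rw [h2] at h
        exact hp.ne_one (Nat.dvd_one.1 h)

end Pool.Agent.FJA
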