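import Pool.Agent.FJA.CoreAllY
import Pool.Agent.FJA.P_LMF
import Pool.Agent.FJA.P_LME
import Pool.Agent.FJA.P_LNA
import Pool.Agent.FJA.P_LTH
import Pool.Agent.FJA.P_LTE
import Pool.Agent.FJA.P_LXA
import Pool.Agent.FJA.P_LXB
import Pool.Agent.FJA.P_RML

/-!
# The higher components of the Chern character, direct limits: the theorems of the modules, composed
-/

set_option autoImplicit false

noncomputable section

namespace Pool.Agent.FJA

theorem h_LTH : S_LTH := t_LTH h_RTH t_LMF t_LNA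
theorem h_LTE : S_LTE := t_LTE h_RTE t_LME t_LNA

theorem ndvb_of_resFin (G : Type) [Group G] (h : ResFin G) : NDvb G := by
  intro y hy
  by_contra hne
  obtain ⟨p, c, hp, hc⟩ := t_RRF.1 G h y hne
  obtain ⟨δ, hδ⟩ := hy p c hp
  exact hc δ hδ

theorem tdvb_of_ndvb (G : Type) [Group G] (h : NDvb G) : TDvb G := by
  intro y hy
  rw [h y hy]
  exact IsOfFinOrder.one

theorem lim_ndvb (G : Type) [Group G] (h : ∀ H : Subgroup G, H.FG → ResFin H) : LimOf NDvb G :=
  t_LXA.2.2 NDvb G fun H hH => ndvb_of_resFin H (h H hH)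

theorem lim_tdvb (G : Type) [Group G] (h : ∀ H : Subgroup G, H.FG → ResFin H) : LimOf TDvb G :=
  t_LXA.2.2 TDvb G fun H hH => tdvb_of_ndvb H (ndvb_of_resFin H (h H hH))

end Pool.Agent.FJA
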