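import Pool.Agent.FJA.StT
import Pool.Agent.FJA.P_SUP
import Pool.Agent.FJA.P_PER
import Pool.Agent.FJA.P_RGB
import Pool.Agent.FJA.P_TXA
import Pool.Agent.FJA.P_TXB
import Pool.Agent.FJA.P_TXD
import Pool.Agent.FJA.Step7

/-!
# BFL: the Dennis trace at the classes of the elements of infinite order
-/

set_option autoImplicit false

open Matrix Pool.Agent.WhK Pool.Agent.Lib25

noncomputable section

namespace Pool.Agent.FJA

namespace BFL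

/-- The functional of an invariant function vanishes on the degenerate chains. -/
theorem sum_faces {k : Type} [Field k] [CharZero k] {G : Type} [Group G] {n r : ℕ}
    (η : Rec G (Fin (n + 1)) → ℚ) (hη : CjInv η) (N : ℕ)
    (z : (Fin (n + 2) → (Matrix (Fin r) (Fin r) (MonoidAlgebra ℤ G))ˣ) →₀ ℚ)
    (hz : z ∈ cyc ℚ ((Matrix (Fin r) (Fin r) (MonoidAlgebra ℤ G))ˣ) (n + 1)) :
    (z.sum fun X q => (q : k) * ∑ i : Fin (n + 2), (-1 : k) ^ (i : ℕ) *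
      TX η N (fun t => zU k (X (i.succAbove t)))) = 0 := by
  classical
  obtain ⟨Λ, hΛ⟩ : ∃ Λ : ((Fin (n + 1) → (Matrix (Fin r) (Fin r) (MonoidAlgebra ℤ G))ˣ) →₀ ℚ) →ₗ[ℚ] k,
      ∀ Y q, Λ (Finsupp.single Y q) = (q : k) * TX η N (fun t => zU k (Y t)) := by
    refine ⟨Finsupp.linearCombination ℚ fun Y => TX η N (fun t => zU k (Y t)), fun Y q => ?_⟩
    rw [Finsupp.linearCombination_single, Algebra.smul_def]
    rfl
  have h1 : bd ℚ ((Matrix (Fin r) (Fin r) (MonoidAlgebra ℤ G))ˣ) (n + 1) z ∈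
      hdeg ℚ ((Matrix (Fin r) (Fin r) (MonoidAlgebra ℤ G))ˣ) n := hz
  have h2 : ∀ x ∈ hdeg ℚ ((Matrix (Fin r) (Fin r) (MonoidAlgebra ℤ G))ˣ) n, Λ x = 0 := by
    intro x hx
    unfold hdeg at hx
    refine Submodule.span_induction (p := fun x _ => Λ x = 0) ?_ ?_ ?_ ?_ hx
    · rintro x ⟨g, Y, rfl⟩
      rw [map_sub, hΛ, hΛ]
      have h3 : (fun t => zU k (g * Y t)) = fun t => zU k g * zU k (Y t) := by
        funext t
        rw [map_mul]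
      rw [h3, t_TXinv k G (Fin r) (n + 1) N η hη (zU k g) (fun t => zU k (Y t)), sub_self]
    · exact map_zero Λ
    · intro x y _ _ hx hy
      rw [map_add, hx, hy, add_zero]
    · intro a x _ hx
      rw [map_smul, hx, smul_zero]
  have h3 := h2 _ h1
  unfold bd at h3
  rw [Finsupp.linearCombination_apply, Finsupp.sum, map_sum] at h3
  rw [Finsupp.sum, ← h3]
  refine Finset.sum_congr rfl fun X _ => ?_
  rw [map_smul, map_sum, Algebra.smul_def]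
  congr 1
  refine Finset.sum_congr rfl fun i _ => ?_
  rw [hΛ]
  push_cast
  rfl

theorem evN_zero {Γ : Type} [Group Γ] {M : ℕ} (N : ℕ) (F : (Fin M → Γ) → Γ → ℚ)
    (s : List Γ → Γ → Γ) (μ : Rec Γ (Fin M)) (h : ∀ a, F a μ.val = 0) : evN N F s μ = 0 := by
  unfold evN
  split_ifs
  · exact h _
  · rfl

/-- The entries of `UX` after the base change from `ℤ` to `ℚ_ℓ`. -/
theorem supp_bc {G : Type} [Group G] {ℓ : ℕ} [Fact ℓ.Prime] {M r : ℕ}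
    (X : Fin M → (Matrix (Fin r) (Fin r) (MonoidAlgebra ℤ G))ˣ) (a b : Fin r) (μ : Rec G (Fin M))
    (h : (UX (fun j => zU ℚ_[ℓ] (X j)) a b).coeff μ ≠ 0) :
    (UX (fun j => zU ℚ (X j)) a b).coeff μ ≠ 0 := by
  have h1 : (fun j => zU ℚ_[ℓ] (X j)) = fun j =>
      Units.map (TXB.bc (algebraMap ℚ ℚ_[ℓ]) (Fin r) G).toMonoidHom (zU ℚ (X j)) := by
    funext j
    apply Units.ext
    ext1 a b
    apply MonoidAlgebra.coeff_injective
    ext γ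
    change ((MonoidAlgebra.mapRingHom G (Int.castRingHom ℚ_[ℓ])) ((X j).val a b)).coeff γ =
      ((MonoidAlgebra.mapRingHom G (algebraMap ℚ ℚ_[ℓ]))
        ((MonoidAlgebra.mapRingHom G (Int.castRingHom ℚ)) ((X j).val a b))).coeff γ
    rw [MonoidAlgebra.coeff_mapRingHom, MonoidAlgebra.coeff_mapRingHom,
      MonoidAlgebra.coeff_mapRingHom]
    simp
  rw [h1, TXB.UX_bc] at h
  intro h2
  apply h
  change ((MonoidAlgebra.mapRingHom (Rec G (Fin M)) (algebraMap ℚ ℚ_[ℓ]))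
    (UX (fun j => zU ℚ (X j)) a b)).coeff μ = 0
  rw [MonoidAlgebra.coeff_mapRingHom]
  simp only [h2, map_zero]

theorem niu_zU {G : Type} [Group G] {ℓ : ℕ} [Fact ℓ.Prime] {r : ℕ}
    (X : (Matrix (Fin r) (Fin r) (MonoidAlgebra ℤ G))ˣ) : NIU (zU ℚ_[ℓ] X) := by
  constructor
  · intro a b μ
    change ‖((MonoidAlgebra.mapRingHom G (Int.castRingHom ℚ_[ℓ])) (X.val a b)).coeff μ‖ ≤ 1
    rw [MonoidAlgebra.coeff_mapRingHom]
    exact Padic.norm_int_le_one _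
  · intro a b μ
    change ‖((MonoidAlgebra.mapRingHom G (Int.castRingHom ℚ_[ℓ])) ((X⁻¹).val a b)).coeff μ‖ ≤ 1
    rw [MonoidAlgebra.coeff_mapRingHom]
    exact Padic.norm_int_le_one _

/-- The periods of the lists of prime length `ℓ`. -/
theorem goodP {G : Type} [Group G] {y0 : G} {ℓ : ℕ} (hℓ : ℓ.Prime) (L : Finset G)
    (hL : ∀ u ∈ L, ¬ IsConj (u ^ ℓ) y0) {Y : List G} {y : G} (hl : Y.length = ℓ)
    (hy : IsConj y y0) (hInc : Inc L Y y) : GoodP ℓ Y y := by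
  have hY : Y ≠ [] := by
    rintro rfl
    rw [List.length_nil] at hl
    exact hℓ.pos.ne hl
  intro δ e he
  by_contra hd
  have hA : ∀ n, SEC.sq Y y n = y⁻¹ * SEC.sq Y y (n + (ℓ : ℕ)) := by
    intro n
    have := SEC.sq_add hY y n
    rw [hl] at this
    rw [this, inv_mul_cancel_left]
  obtain ⟨d, δ0, hd0, hδ, hgen⟩ := PER.exists_min ⟨ℓ, hℓ.pos, y⁻¹, hA⟩
  obtain ⟨m0, hm0, hym⟩ := hgen _ _ hA
  obtain ⟨m, hm, -⟩ := hgen _ _ (PER.stb hY he)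
  rcases (Nat.dvd_prime hℓ).1 (Dvd.intro_left _ hm0.symm : d ∣ ℓ) with h1 | h1
  · subst h1
    rw [mul_one] at hm0
    subst hm0
    have h2 := hInc 0
    rw [Function.iterate_zero_apply, PER.head_iter hY, PER.head_eq hY y] at h2
    have h3 : SEC.sq Y y ((0 + 1 : ℕ) : ℤ) = δ0⁻¹ * SEC.sq Y y 0 := by
      rw [hδ 0, inv_mul_cancel_left]
      norm_num
    rw [h3] at h2
    refine hL _ h2 ?_
    have h4 : ((SEC.sq Y y 0)⁻¹ * (δ0⁻¹ * SEC.sq Y y 0)) ^ ℓ =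
        (SEC.sq Y y 0)⁻¹ * y * ((SEC.sq Y y 0)⁻¹)⁻¹ := by
      have h5 : (SEC.sq Y y 0)⁻¹ * (δ0⁻¹ * SEC.sq Y y 0) =
          (SEC.sq Y y 0)⁻¹ * δ0⁻¹ * ((SEC.sq Y y 0)⁻¹)⁻¹ := by
        group
      rw [h5, conj_pow, inv_pow, ← hym, inv_inv]
    rw [h4]
    refine IsConj.trans ?_ hy
    exact (isConj_iff.2 ⟨(SEC.sq Y y 0)⁻¹, rfl⟩ : IsConj y _).symm
  · apply hd
    rw [← h1, hm]
    exact Dvd.intro_left _ rfl

theorem fst_first {Γ : Type} [Group Γ] {M : ℕ} (F : (Fin M → Γ) → Γ → ℚ) (μ ν : Rec Γ (Fin M))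
    (h : ∀ i, μ.lst i ≠ []) : fst F (μ * ν) = fst F (μ * Rec.inc ν.val) := by
  have h1 : ∀ ν' : Rec Γ (Fin M), ∀ i, (μ * ν').lst i ≠ [] := by
    intro ν' i h2
    rw [Rec.mul_lst, List.append_eq_nil_iff] at h2
    exact h i h2.1
  have h2 : ∀ ν' : Rec Γ (Fin M), ∀ i, ((μ * ν').lst i).headD 1 = (μ.lst i).headD 1 := by
    intro ν' i
    obtain ⟨a, Y, hY⟩ := List.exists_cons_of_ne_nil (h i)
    rw [Rec.mul_lst, hY]
    rfl
  unfold fst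
  rw [if_pos (h1 _), if_pos (h1 _)]
  simp only [h2]
  rfl

end BFL

open BFL

/-- MODULE BFL -/
theorem t_BFL (hden : S_DEN) (hdez : S_DEZ) (hsef : S_SEF) (htrf : S_TRF) (hscf : S_SCF) :
    S_BFL := by
  classical
  intro G _ n y0 hfin F hF hsupp hb r z hz
  obtain ⟨hsa, hsb, -⟩ := t_SUP
  have hsup : S_SUP := t_SUP
  -- the finite data
  choose T hT1 hT2 using fun X : (Fin (n + 2) → (Matrix (Fin r) (Fin r) (MonoidAlgebra ℤ G))ˣ) =>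
    hsb ℚ G (Fin r) (n + 2) (fun j => zU ℚ (X j))
  obtain ⟨T0, hT0⟩ : ∃ T0 : Finset (Rec G (Fin (n + 2))), T0 = z.support.biUnion T := ⟨_, rfl⟩
  obtain ⟨L, hL⟩ := hsa G (n + 2) T0 (by
    intro t ht i
    rw [hT0] at ht
    obtain ⟨x, _, hx⟩ := Finset.mem_biUnion.1 ht
    exact hT1 x t hx i)
  obtain ⟨Sb, hSb⟩ : ∃ Sb : Submonoid (Rec G (Fin (n + 2))),
      Sb = Submonoid.closure (T0 : Set (Rec G (Fin (n + 2)))) := ⟨_, rfl⟩
  obtain ⟨D, hD⟩ : ∃ D : ℚ, D = z.sum fun X q => q * ((dennis F X : ℤ) : ℚ) := ⟨_, rfl⟩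
  rw [← hD]
  by_contra hD0
  -- the prime
  obtain ⟨ℓ, hℓ, hLu, hTu, hden1, hcard, hnum⟩ : ∃ ℓ : ℕ, ℓ.Prime ∧ (∀ u ∈ L, ¬ IsConj (u ^ ℓ) y0) ∧
      (∀ μ ∈ T0, ¬ IsConj (μ.val ^ ℓ) y0) ∧ (∀ X ∈ z.support, (z X).den < ℓ) ∧
      z.support.card < ℓ ∧ D.num.natAbs < ℓ := by
    have hB1 : (⋃ u ∈ L, {p : ℕ | p.Prime ∧ IsConj (u ^ p) y0}).Finite :=
      Set.Finite.biUnion (Finset.finite_toSet L) fun u _ => hfin u
    have hB2 : (⋃ μ ∈ T0, {p : ℕ | p.Prime ∧ IsConj (μ.val ^ p) y0}).Finite :=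
      Set.Finite.biUnion (Finset.finite_toSet T0) fun μ _ => hfin μ.val
    have hB3 : {p : ℕ | p ≤ (∑ X ∈ z.support, (z X).den) + z.support.card + D.num.natAbs}.Finite :=
      Set.finite_le_nat _
    obtain ⟨ℓ, hℓ, hn⟩ := (Nat.infinite_setOfPred_prime.sdiff ((hB1.union hB2).union hB3)).nonempty
    rw [Set.mem_union, Set.mem_union, not_or, not_or] at hn
    obtain ⟨⟨hn1, hn2⟩, hn3⟩ := hn
    have hn3' : (∑ X ∈ z.support, (z X).den) + z.support.card + D.num.natAbs < ℓ :=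
      not_le.1 hn3
    refine ⟨ℓ, hℓ, fun u hu hc => hn1 (Set.mem_biUnion hu ⟨hℓ, hc⟩),
      fun μ hμ hc => hn2 (Set.mem_biUnion hμ ⟨hℓ, hc⟩), fun X hX => ?_, by omega, by omega⟩
    have := Finset.single_le_sum (f := fun X => (z X).den) (fun _ _ => Nat.zero_le _) hX
    omega
  have : Fact ℓ.Prime := ⟨hℓ⟩
  have hF'inv : ∀ (g : G) (a : Fin (n + 2) → G) (y : G),
      qF F (fun i => g * a i) (g * y * g⁻¹) = qF F a y := by
    intro g a y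
    unfold qF
    rw [hF.inv]
  have hF'coc : ∀ (a : Fin (n + 3) → G) (y : G),
      ∑ i : Fin (n + 3), (-1 : ℚ) ^ (i : ℕ) * qF F (fun j => a (i.succAbove j)) y = 0 := by
    intro a y
    have h := congrArg (Int.cast : ℤ → ℚ) (hF.coc a y)
    push_cast at h
    exact h
  have hF'b : ∀ (t : Fin (n + 2) → ℤ) (a : Fin (n + 2) → G) (y : G),
      qF F (fun i => y ^ t i * a i) y = qF F a y := by
    intro t a y
    unfold qF
    rw [hb]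
  have hF's : ∀ a y, qF F a y ≠ 0 → IsConj y y0 := by
    intro a y h
    refine hsupp a y fun h1 => h ?_
    unfold qF
    rw [h1, Int.cast_zero]
  obtain ⟨s, hs⟩ := hsef G ℓ
  obtain ⟨φ, hφ⟩ : ∃ φ, φ = evN ℓ (qF F) s := ⟨_, rfl⟩
  have hSbB : Sb ≤ Bal G (Fin (n + 2)) := fun μ hμ => (hL μ (by rw [← hSb]; exact hμ)).1
  have hgood : ∀ μ ∈ Sb, (∀ i, (μ.lst i).length = ℓ) → (∃ a, qF F a μ.val ≠ 0) →
      ∀ i, GoodP ℓ (μ.lst i) μ.val := by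
    rintro μ hμ hl ⟨a, ha⟩ i
    refine BFL.goodP hℓ L hLu (hl i) (hF's a _ ha) ?_
    refine (hL μ (by rw [← hSb]; exact hμ)).2 (fun j h => ?_) i
    have := hl j
    rw [h, List.length_nil] at this
    exact hℓ.pos.ne this
  have htr := htrf G (n + 2) ℓ (qF F) s hℓ.pos hF'inv hF'b hs Sb hSbB hgood
  rw [← hφ] at htr
  have hint : ∀ μ ∈ Sb, (∀ i, (μ.lst i).length = ℓ ^ (0 + 1)) → ∃ z : ℤ, φ μ = z := by
    intro μ _ _
    rw [hφ]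
    unfold evN
    split_ifs
    · exact ⟨_, rfl⟩
    · exact ⟨0, by simp⟩
  have hUS : ∀ X ∈ z.support, ∀ a b μ, (UX (fun j => zU ℚ_[ℓ] (X j)) a b).coeff μ ≠ 0 →
      μ ∈ T0 := by
    intro X hX a b μ hμ
    rw [hT0]
    exact Finset.mem_biUnion.2 ⟨X, hX, hT2 X a b μ (supp_bc X a b μ hμ)⟩
  have hzero : ∀ X ∈ z.support,
      TX (fun μ => φ (μ ^ ℓ)) (ℓ ^ 0) (fun j => zU ℚ_[ℓ] (X j)) = 0 := by
    intro X hX
    rw [pow_zero, RGB.TX_congr _ (fun _ => 0) _ fun a b μ hμ => ?_]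
    · exact BND.TX_zero _ _
    · rw [hφ]
      refine evN_zero _ _ _ _ fun a' => ?_
      by_contra h
      have h1 := hF's _ _ h
      have h2 : (μ ^ ℓ).val = μ.val ^ ℓ := map_pow Rec.valHom μ ℓ
      rw [h2] at h1
      exact hTu μ (hUS X hX a b μ hμ) h1
  have hstep : ∀ X ∈ z.support, ‖TX φ ℓ (fun j => zU ℚ_[ℓ] (X j))‖ ≤ (ℓ : ℝ)⁻¹ := by
    intro X hX
    have h1 := Step7.step hsup Sb 0 φ htr hint (fun j => zU ℚ_[ℓ] (X j)) (fun i => niu_zU (X i))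
      (fun a b μ hμ => by
        rw [hSb]
        exact Submonoid.subset_closure (Finset.mem_coe.2 (hUS X hX a b μ hμ)))
    rw [hzero X hX, sub_zero, zero_add, pow_one] at h1
    simpa using h1
  -- the sum
  obtain ⟨η, hη, hηs⟩ := hscf G (n + 1) ℓ (qF F) s hℓ.pos hF'inv hF'coc hF'b hs
  have hval : ∀ X : Fin (n + 2) → (Matrix (Fin r) (Fin r) (MonoidAlgebra ℤ G))ˣ,
      TX (fst (qF F)) ℓ (fun j => zU ℚ_[ℓ] (X j)) = ((dennis F X : ℤ) : ℚ_[ℓ]) := by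
    intro X
    rw [t_TXfst ℚ_[ℓ] G (Fin r) (n + 2) ℓ (fst (qF F)) (fun j => zU ℚ_[ℓ] (X j)) hℓ.pos
      (fun μ ν h => fst_first _ μ ν h), hden ℚ_[ℓ] G (n + 1) r (qF F) hF'inv]
    exact (hdez.2.1 ℚ_[ℓ] G (n + 1) r F X).1
  have hsum : (D : ℚ_[ℓ]) = ∑ X ∈ z.support, ((z X : ℚ) : ℚ_[ℓ]) *
      TX φ ℓ (fun j => zU ℚ_[ℓ] (X j)) := by
    have h1 := sum_faces (k := ℚ_[ℓ]) η hη ℓ z hz
    rw [Finsupp.sum] at h1
    have h2 : ∑ X ∈ z.support, ((z X : ℚ) : ℚ_[ℓ]) * TX φ ℓ (fun j => zU ℚ_[ℓ] (X j)) -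
        ∑ X ∈ z.support, ((z X : ℚ) : ℚ_[ℓ]) * TX (fst (qF F)) ℓ (fun j => zU ℚ_[ℓ] (X j)) =
        ∑ X ∈ z.support, ((z X : ℚ) : ℚ_[ℓ]) * ∑ i : Fin (n + 2), (-1 : ℚ_[ℓ]) ^ (i : ℕ) *
          TX η ℓ (fun t => zU ℚ_[ℓ] (X (i.succAbove t))) := by
      rw [← Finset.sum_sub_distrib]
      refine Finset.sum_congr rfl fun X _ => ?_
      rw [← mul_sub, hφ, hηs ℚ_[ℓ] (Fin r) (fun j => zU ℚ_[ℓ] (X j))]
    rw [h1, sub_eq_zero] at h2
    rw [h2, hD, Finsupp.sum]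
    push_cast
    refine Finset.sum_congr rfl fun X _ => ?_
    rw [hval]
  have hℓ0 : (0 : ℝ) < ℓ := by exact_mod_cast hℓ.pos
  have hnorm : ‖(D : ℚ_[ℓ])‖ < 1 := by
    rw [hsum]
    refine (norm_sum_le _ _).trans_lt ?_
    have h1 : ∀ X ∈ z.support, ‖((z X : ℚ) : ℚ_[ℓ]) * TX φ ℓ (fun j => zU ℚ_[ℓ] (X j))‖ ≤
        (ℓ : ℝ)⁻¹ := by
      intro X hX
      rw [norm_mul]
      have h2 := INT.norm_cast_le_one (ℓ := ℓ) (z X) (hden1 X hX)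
      calc _ ≤ 1 * (ℓ : ℝ)⁻¹ := mul_le_mul h2 (hstep X hX) (norm_nonneg _) zero_le_one
        _ = _ := one_mul _
    refine (Finset.sum_le_sum h1).trans_lt ?_
    rw [Finset.sum_const, nsmul_eq_mul, ← div_eq_mul_inv, div_lt_one hℓ0]
    exact_mod_cast hcard
  have h3 : ‖((D.num : ℤ) : ℚ_[ℓ])‖ < 1 := by
    have h4 : ((D.num : ℤ) : ℚ_[ℓ]) = (D : ℚ_[ℓ]) * ((D.den : ℕ) : ℚ_[ℓ]) := by
      have h5 := Rat.mul_den_eq_num D
      have h6 := congrArg (Rat.cast : ℚ → ℚ_[ℓ]) h5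
      push_cast at h6
      exact h6.symm
    rw [h4, norm_mul]
    have h5 : ‖((D.den : ℕ) : ℚ_[ℓ])‖ ≤ 1 := by
      have := Padic.norm_int_le_one (p := ℓ) (D.den : ℤ)
      exact_mod_cast this
    calc ‖(D : ℚ_[ℓ])‖ * ‖((D.den : ℕ) : ℚ_[ℓ])‖ ≤ ‖(D : ℚ_[ℓ])‖ * 1 :=
          mul_le_mul_of_nonneg_left h5 (norm_nonneg _)
      _ < 1 := by rw [mul_one]; exact hnorm
  rw [Padic.norm_intCast_lt_one_iff] at h3
  have h4 : (ℓ : ℕ) ∣ D.num.natAbs := Int.natCast_dvd.1 h3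
  have h5 : D.num.natAbs = 0 := Nat.eq_zero_of_dvd_of_lt h4 hnum
  exact hD0 (Rat.num_eq_zero.1 (Int.natAbs_eq_zero.1 h5))

end Pool.Agent.FJA
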