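import Pool.Agent.FJA.StU
import Pool.Agent.FJA.P_BFL

/-!
# BFM: the Dennis trace at the classes of the elements of infinite order, rational families
-/

set_option autoImplicit false

open Matrix Pool.Agent.WhK Pool.Agent.Lib25

noncomputable section

namespace Pool.Agent.FJA

open BFL

/-- MODULE BFM -/
theorem t_BFM (hden : S_DEN) (hdeq : S_DEQ) (hsef : S_SEF) (htrf : S_TRF) (hscf : S_SCF)
    (hstq : S_STQ) : S_BFM := by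
  classical
  intro G _ n y0 F hFinv hFcoc hFs hinf hFb r z hz
  obtain ⟨hsa, hsb, -⟩ := t_SUP
  have hsup : S_SUP := t_SUP
  -- the finite data
  choose T hT1 hT2 using fun X : (Fin (n + 2) → (Matrix (Fin r) (Fin r) (MonoidAlgebra ℤ G))ˣ) =>
    hsb ℚ G (Fin r) (n + 2) (fun j => zU ℚ (X j))
  obtain ⟨T0, hT0⟩ : ∃ T0 : Finset (Rec G (Fin (n + 2))), T0 = z.support.biUnion T := ⟨_, rfl⟩
  obtain ⟨L, hL⟩ := hsa G (n + 2) T0 (by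
    intro t ht i
    rw [hT0] at ht
    obtain ⟨x, _, hx⟩ := Finset.mem_biUnion.1 ht
    exact hT1 x t hx i)
  obtain ⟨Sb, hSb⟩ : ∃ Sb : Submonoid (Rec G (Fin (n + 2))),
      Sb = Submonoid.closure (T0 : Set (Rec G (Fin (n + 2)))) := ⟨_, rfl⟩
  obtain ⟨D, hD⟩ : ∃ D : ℚ, D = z.sum fun X q => q * dtr F X := ⟨_, rfl⟩
  rw [← hD]
  by_contra hD0
  -- the prime
  obtain ⟨ℓ, hℓ, hFd, hLu, hTu, hden1, hcard, hnum⟩ : ∃ ℓ : ℕ, ℓ.Prime ∧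
      (∀ a y, ¬ ℓ ∣ (F a y).den) ∧ (∀ u ∈ L, ¬ IsConj (u ^ ℓ) y0) ∧
      (∀ μ ∈ T0, ¬ IsConj (μ.val ^ ℓ) y0) ∧ (∀ X ∈ z.support, (z X).den < ℓ) ∧
      z.support.card < ℓ ∧ D.num.natAbs < ℓ := by
    have hB3 : {p : ℕ | p ≤ (∑ X ∈ z.support, (z X).den) + z.support.card + D.num.natAbs}.Finite :=
      Set.finite_le_nat _
    obtain ⟨ℓ, ⟨hℓ, hFd, hV⟩, hn3⟩ :=
      ((hinf (L ∪ T0.image fun μ => μ.val)).sdiff hB3).nonempty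
    have hn3' : (∑ X ∈ z.support, (z X).den) + z.support.card + D.num.natAbs < ℓ :=
      not_le.1 hn3
    refine ⟨ℓ, hℓ, hFd, fun u hu => hV u (Finset.mem_union_left _ hu),
      fun μ hμ => hV _ (Finset.mem_union_right _ (Finset.mem_image_of_mem _ hμ)),
      fun X hX => ?_, by omega, by omega⟩
    have := Finset.single_le_sum (f := fun X => (z X).den) (fun _ _ => Nat.zero_le _) hX
    omega
  have : Fact ℓ.Prime := ⟨hℓ⟩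
  obtain ⟨s, hs⟩ := hsef G ℓ
  obtain ⟨φ, hφ⟩ : ∃ φ, φ = evN ℓ F s := ⟨_, rfl⟩
  have hSbB : Sb ≤ Bal G (Fin (n + 2)) := fun μ hμ => (hL μ (by rw [← hSb]; exact hμ)).1
  have hgood : ∀ μ ∈ Sb, (∀ i, (μ.lst i).length = ℓ) → (∃ a, F a μ.val ≠ 0) →
      ∀ i, GoodP ℓ (μ.lst i) μ.val := by
    rintro μ hμ hl ⟨a, ha⟩ i
    refine BFL.goodP hℓ L hLu (hl i) (hFs a _ ha) ?_
    refine (hL μ (by rw [← hSb]; exact hμ)).2 (fun j h => ?_) i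
    have := hl j
    rw [h, List.length_nil] at this
    exact hℓ.pos.ne this
  have htr := htrf G (n + 2) ℓ F s hℓ.pos hFinv hFb hs Sb hSbB hgood
  rw [← hφ] at htr
  have hint : ∀ μ, ¬ ℓ ∣ (φ μ).den := by
    intro μ
    rw [hφ]
    unfold evN
    split_ifs
    · exact hFd _ _
    · rw [Rat.den_zero, Nat.dvd_one]
      exact hℓ.one_lt.ne'
  have hUS : ∀ X ∈ z.support, ∀ a b μ, (UX (fun j => zU ℚ_[ℓ] (X j)) a b).coeff μ ≠ 0 →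
      μ ∈ T0 := by
    intro X hX a b μ hμ
    rw [hT0]
    exact Finset.mem_biUnion.2 ⟨X, hX, hT2 X a b μ (supp_bc X a b μ hμ)⟩
  have hzero : ∀ X ∈ z.support,
      TX (fun μ => φ (μ ^ ℓ)) 1 (fun j => zU ℚ_[ℓ] (X j)) = 0 := by
    intro X hX
    rw [RGB.TX_congr _ (fun _ => 0) _ fun a b μ hμ => ?_]
    · exact BND.TX_zero _ _
    · rw [hφ]
      refine evN_zero _ _ _ _ fun a' => ?_
      by_contra h
      have h1 := hFs _ _ h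
      have h2 : (μ ^ ℓ).val = μ.val ^ ℓ := map_pow Rec.valHom μ ℓ
      rw [h2] at h1
      exact hTu μ (hUS X hX a b μ hμ) h1
  have hT0len : ∀ t ∈ T0, ∀ i, (t.lst i).length = 1 := by
    intro t ht i
    rw [hT0] at ht
    obtain ⟨x, _, hx⟩ := Finset.mem_biUnion.1 ht
    exact hT1 x t hx i
  have hstep : ∀ X ∈ z.support, ‖TX φ ℓ (fun j => zU ℚ_[ℓ] (X j))‖ ≤ (ℓ : ℝ)⁻¹ := by
    intro X hX
    have h1 := hstq G (n + 1) ℓ T0 hT0len φ (by rw [← hSb]; exact htr) hint (Fin r)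
      (fun j => zU ℚ_[ℓ] (X j)) (fun i => niu_zU (X i)) (hUS X hX)
    rw [hzero X hX, sub_zero] at h1
    exact h1
  -- the sum
  obtain ⟨η, hη, hηs⟩ := hscf G (n + 1) ℓ F s hℓ.pos hFinv hFcoc hFb hs
  have hval : ∀ X : Fin (n + 2) → (Matrix (Fin r) (Fin r) (MonoidAlgebra ℤ G))ˣ,
      TX (fst F) ℓ (fun j => zU ℚ_[ℓ] (X j)) = ((dtr F X : ℚ) : ℚ_[ℓ]) := by
    intro X
    rw [t_TXfst ℚ_[ℓ] G (Fin r) (n + 2) ℓ (fst F) (fun j => zU ℚ_[ℓ] (X j)) hℓ.pos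
      (fun μ ν h => fst_first _ μ ν h), hden ℚ_[ℓ] G (n + 1) r F hFinv]
    exact hdeq.1 ℚ_[ℓ] G (n + 1) r F X
  have hsum : (D : ℚ_[ℓ]) = ∑ X ∈ z.support, ((z X : ℚ) : ℚ_[ℓ]) *
      TX φ ℓ (fun j => zU ℚ_[ℓ] (X j)) := by
    have h1 := sum_faces (k := ℚ_[ℓ]) η hη ℓ z hz
    rw [Finsupp.sum] at h1
    have h2 : ∑ X ∈ z.support, ((z X : ℚ) : ℚ_[ℓ]) * TX φ ℓ (fun j => zU ℚ_[ℓ] (X j)) -
        ∑ X ∈ z.support, ((z X : ℚ) : ℚ_[ℓ]) * TX (fst F) ℓ (fun j => zU ℚ_[ℓ] (X j)) =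
        ∑ X ∈ z.support, ((z X : ℚ) : ℚ_[ℓ]) * ∑ i : Fin (n + 2), (-1 : ℚ_[ℓ]) ^ (i : ℕ) *
          TX η ℓ (fun t => zU ℚ_[ℓ] (X (i.succAbove t))) := by
      rw [← Finset.sum_sub_distrib]
      refine Finset.sum_congr rfl fun X _ => ?_
      rw [← mul_sub, hφ, hηs ℚ_[ℓ] (Fin r) (fun j => zU ℚ_[ℓ] (X j))]
    rw [h1, sub_eq_zero] at h2
    rw [h2, hD, Finsupp.sum]
    push_cast
    refine Finset.sum_congr rfl fun X _ => ?_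
    rw [hval]
  have hℓ0 : (0 : ℝ) < ℓ := by exact_mod_cast hℓ.pos
  have hnorm : ‖(D : ℚ_[ℓ])‖ < 1 := by
    rw [hsum]
    refine (norm_sum_le _ _).trans_lt ?_
    have h1 : ∀ X ∈ z.support, ‖((z X : ℚ) : ℚ_[ℓ]) * TX φ ℓ (fun j => zU ℚ_[ℓ] (X j))‖ ≤
        (ℓ : ℝ)⁻¹ := by
      intro X hX
      rw [norm_mul]
      have h2 := INT.norm_cast_le_one (ℓ := ℓ) (z X) (hden1 X hX)
      calc _ ≤ 1 * (ℓ : ℝ)⁻¹ := mul_le_mul h2 (hstep X hX) (norm_nonneg _) zero_le_one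
        _ = _ := one_mul _
    refine (Finset.sum_le_sum h1).trans_lt ?_
    rw [Finset.sum_const, nsmul_eq_mul, ← div_eq_mul_inv, div_lt_one hℓ0]
    exact_mod_cast hcard
  have h3 : ‖((D.num : ℤ) : ℚ_[ℓ])‖ < 1 := by
    have h4 : ((D.num : ℤ) : ℚ_[ℓ]) = (D : ℚ_[ℓ]) * ((D.den : ℕ) : ℚ_[ℓ]) := by
      have h5 := Rat.mul_den_eq_num D
      have h6 := congrArg (Rat.cast : ℚ → ℚ_[ℓ]) h5
      push_cast at h6
      exact h6.symm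
    rw [h4, norm_mul]
    have h5 : ‖((D.den : ℕ) : ℚ_[ℓ])‖ ≤ 1 := by
      have := Padic.norm_int_le_one (p := ℓ) (D.den : ℤ)
      exact_mod_cast this
    calc ‖(D : ℚ_[ℓ])‖ * ‖((D.den : ℕ) : ℚ_[ℓ])‖ ≤ ‖(D : ℚ_[ℓ])‖ * 1 :=
          mul_le_mul_of_nonneg_left h5 (norm_nonneg _)
      _ < 1 := by rw [mul_one]; exact hnorm
  rw [Padic.norm_intCast_lt_one_iff] at h3
  have h4 : (ℓ : ℕ) ∣ D.num.natAbs := Int.natCast_dvd.1 h3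
  have h5 : D.num.natAbs = 0 := Nat.eq_zero_of_dvd_of_lt h4 hnum
  exact hD0 (Rat.num_eq_zero.1 (Int.natAbs_eq_zero.1 h5))

end Pool.Agent.FJA
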