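import Pool.Agent.FJA.StT
import Pool.Agent.FJA.P_TXA
import Pool.Agent.FJA.P_TXD
import Pool.Agent.FJA.P_BND

/-!
# WON: the part of the Dennis trace at the class of `1`
-/

set_option autoImplicit false

open Matrix Pool.Agent.WhK Pool.Agent.Lib25

noncomputable section

namespace Pool.Agent.FJA

namespace WON

/-- The linear form with values `f` on the basis elements. -/
def Lf {V : Type} (f : V → ℚ) : (V →₀ ℚ) →ₗ[ℚ] ℚ := Finsupp.linearCombination ℚ f

theorem Lf_single {V : Type} (f : V → ℚ) (a : V) (c : ℚ) : Lf f (Finsupp.single a c) = c * f a := by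
  unfold Lf
  rw [Finsupp.linearCombination_single, smul_eq_mul]

theorem Lf_apply {V : Type} (f : V → ℚ) (w : V →₀ ℚ) : Lf f w = w.sum fun a q => q * f a := rfl

theorem Lf_bd {V : Type} {m : ℕ} (f : (Fin m → V) → ℚ) (w : (Fin (m + 1) → V) →₀ ℚ) :
    Lf f (bd ℚ V m w) =
      Lf (fun a => ∑ i : Fin (m + 1), (-1 : ℚ) ^ (i : ℕ) * f (fun j => a (i.succAbove j))) w := by
  have h : (Lf f) ∘ₗ (bd ℚ V m) =
      Lf (fun a => ∑ i : Fin (m + 1), (-1 : ℚ) ^ (i : ℕ) * f (fun j => a (i.succAbove j))) := by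
    apply Finsupp.lhom_ext
    intro a c
    rw [LinearMap.comp_apply, Lf_single]
    unfold bd
    rw [Finsupp.linearCombination_single, map_smul, map_sum, smul_eq_mul]
    congr 1
    exact Finset.sum_congr rfl fun i _ => Lf_single _ _ _
  exact LinearMap.congr_fun h w

/-- A chain on which all the invariant linear forms vanish. -/
theorem mem_hdeg {Γ : Type} [Group Γ] {m : ℕ} (x : HCh ℚ Γ m)
    (h : ∀ f : (Fin (m + 1) → Γ) → ℚ, (∀ (g : Γ) (a : Fin (m + 1) → Γ), f (fun i => g * a i) = f a) →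
      Lf f x = 0) : x ∈ hdeg ℚ Γ m := by
  by_contra hx
  obtain ⟨φ, h1, h2⟩ := Submodule.exists_dual_map_eq_bot_of_notMem hx inferInstance
  have h3 : ∀ y ∈ hdeg ℚ Γ m, φ y = 0 := by
    intro y hy
    have h4 : φ y ∈ (hdeg ℚ Γ m).map φ := ⟨y, hy, rfl⟩
    rw [h2] at h4
    exact (Submodule.mem_bot ℚ).1 h4
  apply h1
  have h4 : φ = Lf (fun a => φ (Finsupp.single a 1)) := by
    apply Finsupp.lhom_ext
    intro a c
    rw [Lf_single, ← smul_eq_mul, ← map_smul, Finsupp.smul_single, smul_eq_mul, mul_one]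
  rw [h4]
  apply h
  intro g a
  have h5 := h3 _ (Submodule.subset_span ⟨g, a, rfl⟩)
  rw [map_sub, sub_eq_zero] at h5
  exact h5

theorem Lf_hdeg {Γ : Type} [Group Γ] {m : ℕ} (f : (Fin (m + 1) → Γ) → ℚ)
    (hf : ∀ (g : Γ) (a : Fin (m + 1) → Γ), f (fun i => g * a i) = f a) (x : HCh ℚ Γ m)
    (hx : x ∈ hdeg ℚ Γ m) : Lf f x = 0 := by
  have h : hdeg ℚ Γ m ≤ LinearMap.ker (Lf f) := by
    unfold hdeg
    rw [Submodule.span_le]
    rintro y ⟨g, X, rfl⟩
    rw [SetLike.mem_coe, LinearMap.mem_ker, map_sub, Lf_single, Lf_single, hf, sub_self]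
  exact LinearMap.mem_ker.1 (h hx)

theorem fst_pos {Γ : Type} [Group Γ] {M : ℕ} (F : (Fin M → Γ) → Γ → ℚ) (μ : Rec Γ (Fin M))
    (h : ∀ i, μ.lst i ≠ []) : fst F μ = F (fun i => (μ.lst i).headD 1) μ.val := by
  unfold fst
  exact if_pos h

theorem fst_neg {Γ : Type} [Group Γ] {M : ℕ} (F : (Fin M → Γ) → Γ → ℚ) (μ : Rec Γ (Fin M))
    (h : ¬ ∀ i, μ.lst i ≠ []) : fst F μ = 0 := by
  unfold fst
  exact if_neg h

theorem headD_map {Γ : Type} [Group Γ] (γ : Γ) (l : List Γ) (h : l ≠ []) :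
    (l.map (γ * ·)).headD 1 = γ * l.headD 1 := by
  cases l with
  | nil => exact absurd rfl h
  | cons a t => rfl

theorem cjInv_fst {Γ : Type} [Group Γ] {M : ℕ} (F : (Fin M → Γ) → Γ → ℚ)
    (hF : ∀ (g : Γ) (a : Fin M → Γ) (y : Γ), F (fun i => g * a i) (g * y * g⁻¹) = F a y) :
    CjInv (fst F) := by
  intro γ μ
  by_cases h : ∀ i, μ.lst i ≠ []
  · have h1 : ∀ i, (Rec.inc γ * μ).lst i ≠ [] := by
      intro i
      rw [Rec.mul_lst, Rec.inc_lst, List.nil_append, Rec.inc_val]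
      exact fun hc => h i (List.map_eq_nil_iff.1 hc)
    have h2 : ∀ i, (μ * Rec.inc γ).lst i ≠ [] := by
      intro i
      rw [Rec.mul_lst, Rec.inc_lst, List.map_nil, List.append_nil]
      exact h i
    rw [fst_pos F _ h1, fst_pos F _ h2]
    have e1 : ∀ i, ((Rec.inc γ * μ).lst i).headD 1 = γ * (μ.lst i).headD 1 := by
      intro i
      rw [Rec.mul_lst, Rec.inc_lst, List.nil_append, Rec.inc_val]
      exact headD_map γ _ (h i)
    have e2 : ∀ i, ((μ * Rec.inc γ).lst i).headD 1 = (μ.lst i).headD 1 := by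
      intro i
      rw [Rec.mul_lst, Rec.inc_lst, List.map_nil, List.append_nil]
    simp only [e1, e2, Rec.mul_val, Rec.inc_val]
    have h3 := hF γ (fun i => (μ.lst i).headD 1) (μ.val * γ)
    have h4 : γ * (μ.val * γ) * γ⁻¹ = γ * μ.val := by group
    rw [h4] at h3
    exact h3
  · have h1 : ¬ ∀ i, (Rec.inc γ * μ).lst i ≠ [] := by
      intro hc
      apply h
      intro i h0
      apply hc i
      rw [Rec.mul_lst, Rec.inc_lst, List.nil_append, h0, List.map_nil]
    have h2 : ¬ ∀ i, (μ * Rec.inc γ).lst i ≠ [] := by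
      intro hc
      apply h
      intro i h0
      apply hc i
      rw [Rec.mul_lst, Rec.inc_lst, List.map_nil, List.append_nil, h0]
    rw [fst_neg F _ h1, fst_neg F _ h2]

open Classical in
/-- The restriction of a function to `y = 1`. -/
def at1 {G : Type} [Group G] {M : ℕ} (f : (Fin M → G) → ℚ) : (Fin M → G) → G → ℚ :=
  fun a y => if y = 1 then f a else 0

theorem at1_inv {G : Type} [Group G] {M : ℕ} (f : (Fin M → G) → ℚ)
    (hf : ∀ (g : G) (a : Fin M → G), f (fun i => g * a i) = f a) (g : G) (a : Fin M → G) (y : G) :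
    at1 f (fun i => g * a i) (g * y * g⁻¹) = at1 f a y := by
  unfold at1
  by_cases h : y = 1
  · subst h
    have h1 : g * 1 * g⁻¹ = 1 := by group
    rw [if_pos h1, if_pos rfl, hf]
  · have h1 : g * y * g⁻¹ ≠ 1 := by
      intro hc
      apply h
      have h2 : y = g⁻¹ * (g * y * g⁻¹) * g := by group
      rw [h2, hc]
      group
    rw [if_neg h1, if_neg h]

/-- The sum of the faces. -/
def cob {G : Type} {M : ℕ} (f : (Fin M → G) → ℚ) (a : Fin (M + 1) → G) : ℚ :=
  ∑ i : Fin (M + 1), (-1 : ℚ) ^ (i : ℕ) * f (fun j => a (i.succAbove j))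

theorem cob_inv {G : Type} [Group G] {M : ℕ} (f : (Fin M → G) → ℚ)
    (hf : ∀ (g : G) (a : Fin M → G), f (fun i => g * a i) = f a) (g : G) (a : Fin (M + 1) → G) :
    cob f (fun i => g * a i) = cob f a := by
  unfold cob
  refine Finset.sum_congr rfl fun i _ => ?_
  rw [hf g (fun j => a (i.succAbove j))]

theorem fst_cob {G : Type} [Group G] {M : ℕ} (f : (Fin M → G) → ℚ) (μ : Rec G (Fin (M + 1)))
    (h : ∀ i, μ.lst i ≠ []) : fst (at1 (cob f)) μ = cobR (fst (at1 f)) μ := by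
  rw [fst_pos _ _ h]
  unfold cobR at1 cob
  by_cases h1 : μ.val = 1
  · rw [if_pos h1]
    refine Finset.sum_congr rfl fun i _ => ?_
    rw [fst_pos _ _ (fun j => h (i.succAbove j))]
    simp only [Rec.res_val, Rec.res_lst]
    rw [if_pos h1]
  · rw [if_neg h1]
    symm
    refine Finset.sum_eq_zero fun i _ => ?_
    rw [fst_pos _ _ (fun j => h (i.succAbove j))]
    simp only [Rec.res_val]
    rw [if_neg h1, mul_zero]

/-- The value of the coboundary. -/
theorem TX_cob {G : Type} [Group G] {M r : ℕ} (f : (Fin M → G) → ℚ)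
    (X : Fin (M + 1) → (Matrix (Fin r) (Fin r) (MonoidAlgebra ℚ G))ˣ) :
    TX (fst (at1 (cob f))) 1 X =
      ∑ i : Fin (M + 1), (-1 : ℚ) ^ (i : ℕ) * TX (fst (at1 f)) 1 (fun t => X (i.succAbove t)) := by
  have h1 : TX (fst (at1 (cob f))) 1 X = TX (cobR (fst (at1 f))) 1 X := by
    refine t_TXlen ℚ G (Fin r) (M + 1) 1 _ _ X fun μ hμ => ?_
    apply fst_cob
    intro i h0
    have h2 := hμ i
    rw [h0] at h2
    simp at h2
  rw [h1, BND.TX_cobR]
  refine Finset.sum_congr rfl fun i _ => ?_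
  rw [Rat.cast_id]

end WON

open WON in
theorem t_WON (hden : S_DEN) (hdez : S_DEZ) : S_WON := by
  classical
  intro G _ n r z hz
  obtain ⟨hfin, hbc, -⟩ := hdez
  obtain ⟨S, hS⟩ : ∃ S : (Fin (n + 2) → (Matrix (Fin r) (Fin r) (MonoidAlgebra ℤ G))ˣ) →
      Finset (Fin (n + 2) → G), ∀ X γ, dcoef X γ ≠ 0 → γ ∈ S X :=
    ⟨fun X => (hfin ℤ G (n + 1) r X).toFinset, fun X γ h => by
      rw [Set.Finite.mem_toFinset]
      exact h⟩
  obtain ⟨c, hc⟩ : ∃ c : (Fin (n + 2) → (Matrix (Fin r) (Fin r) (MonoidAlgebra ℤ G))ˣ) →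
      (Fin (n + 2) → G) → ℚ, ∀ X γ, c X γ =
        if (List.ofFn γ).prod = 1 then ((dcoef X γ : ℤ) : ℚ) else 0 := ⟨_, fun X γ => rfl⟩
  obtain ⟨w, hw⟩ : ∃ w : HCh ℚ G (n + 1),
      w = ∑ X ∈ z.support, z X • ∑ γ ∈ S X, Finsupp.single (fpr γ) (c X γ) := ⟨_, rfl⟩
  have hLw : ∀ f : (Fin (n + 2) → G) → ℚ,
      Lf f w = ∑ X ∈ z.support, z X * ∑ γ ∈ S X, c X γ * f (fpr γ) := by
    intro f
    rw [hw, map_sum]
    refine Finset.sum_congr rfl fun X _ => ?_
    rw [map_smul, map_sum, smul_eq_mul]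
    congr 1
    exact Finset.sum_congr rfl fun γ _ => Lf_single _ _ _
  refine ⟨w, ?_, ?_⟩
  · change bd ℚ G (n + 1) w ∈ hdeg ℚ G n
    apply mem_hdeg
    intro f hf
    rw [Lf_bd]
    change Lf (cob f) w = 0
    rw [hLw]
    have key : ∀ X : Fin (n + 2) → (Matrix (Fin r) (Fin r) (MonoidAlgebra ℤ G))ˣ,
        ∑ γ ∈ S X, c X γ * cob f (fpr γ) =
          cob (fun Y : Fin (n + 1) → (Matrix (Fin r) (Fin r) (MonoidAlgebra ℤ G))ˣ =>
            TX (fst (at1 f)) 1 (fun t => zU ℚ (Y t))) X := by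
      intro X
      have h1 := hden ℚ G (n + 1) r (at1 (cob f)) (at1_inv _ (cob_inv f hf))
        (fun j => zU ℚ (X j))
      have h2 := fun γ => (hbc ℚ G (n + 1) r (fun _ _ => 0) X).2 γ
      have h3 : dennisQ (at1 (cob f)) (fun j => zU ℚ (X j)) =
          ∑ γ ∈ S X, c X γ * cob f (fpr γ) := by
        unfold dennisQ
        rw [finsum_eq_sum_of_support_subset (s := S X)]
        · refine Finset.sum_congr rfl fun γ _ => ?_
          rw [h2, hc, Rat.cast_id]
          unfold at1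
          by_cases hp : (List.ofFn γ).prod = 1
          · rw [if_pos hp, if_pos hp]
          · rw [if_neg hp, if_neg hp, mul_zero, zero_mul]
        · intro γ hγ
          apply hS
          intro h0
          apply hγ
          change dcoef (fun j => zU ℚ (X j)) γ * _ = 0
          rw [h2, h0, Int.cast_zero, zero_mul]
      rw [← h3, ← h1, TX_cob]
      rfl
    have h4 : ∑ X ∈ z.support, z X * ∑ γ ∈ S X, c X γ * cob f (fpr γ) =
        Lf (fun Y : Fin (n + 1) → (Matrix (Fin r) (Fin r) (MonoidAlgebra ℤ G))ˣ =>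
            TX (fst (at1 f)) 1 (fun t => zU ℚ (Y t))) (bd ℚ _ (n + 1) z) := by
      rw [Lf_bd, Lf_apply, Finsupp.sum]
      refine Finset.sum_congr rfl fun X _ => ?_
      rw [key X]
      rfl
    rw [h4]
    apply Lf_hdeg
    · intro g Y
      simp only [map_mul]
      exact t_TXinv ℚ G (Fin r) (n + 1) 1 (fst (at1 f)) (cjInv_fst _ (at1_inv _ hf)) (zU ℚ g)
        (fun t => zU ℚ (Y t))
    · exact hz
  · intro F hF
    have h1 : ∀ X, ((dennis F X : ℤ) : ℚ) = ∑ γ ∈ S X, c X γ * ((F (fpr γ) 1 : ℤ) : ℚ) := by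
      intro X
      unfold dennis
      rw [finsum_eq_sum_of_support_subset (s := S X)]
      · rw [Int.cast_sum]
        refine Finset.sum_congr rfl fun γ _ => ?_
        rw [hc, Int.cast_mul]
        by_cases hp : (List.ofFn γ).prod = 1
        · rw [if_pos hp, hp]
          simp
        · rw [if_neg hp, zero_mul]
          have h2 : F (fpr γ) (List.ofFn γ).prod = 0 := by
            by_contra h3
            exact hp (hF _ _ h3)
          rw [h2]
          simp
      · intro γ hγ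
        apply hS
        intro h0
        apply hγ
        change dcoef X γ * _ = 0
        rw [h0, zero_mul]
    have h2 := hLw (fun a => ((F a 1 : ℤ) : ℚ))
    rw [Lf_apply] at h2
    rw [h2, Finsupp.sum]
    refine Finset.sum_congr rfl fun X _ => ?_
    rw [h1 X]

end Pool.Agent.FJA
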