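import Pool.Agent.FJA.StU
import Pool.Agent.FJA.P_WON
import Pool.Agent.FJA.P_BFL
import Pool.Agent.FJA.P_BND
import Pool.Agent.FJA.P_TXD

/-!
# COB: coboundaries
-/

set_option autoImplicit false

open Matrix Pool.Agent.WhK Pool.Agent.Lib25

noncomputable section

namespace Pool.Agent.FJA

namespace COB

/-- The family of the coboundaries. -/
def cobF {G : Type} {M : ℕ} (E : (Fin M → G) → G → ℚ) : (Fin (M + 1) → G) → G → ℚ :=
  fun a y => cobE (fun b => E b y) a

theorem cobF_inv {G : Type} [Group G] {M : ℕ} (E : (Fin M → G) → G → ℚ)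
    (hE : ∀ (g : G) (a : Fin M → G) (y : G), E (fun i => g * a i) (g * y * g⁻¹) = E a y)
    (g : G) (a : Fin (M + 1) → G) (y : G) :
    cobF E (fun i => g * a i) (g * y * g⁻¹) = cobF E a y := by
  unfold cobF cobE
  refine Finset.sum_congr rfl fun i _ => ?_
  exact congrArg (fun q => (-1 : ℚ) ^ (i : ℕ) * q) (hE g (fun j => a (i.succAbove j)) y)

theorem fst_cobF {G : Type} [Group G] {M : ℕ} (E : (Fin M → G) → G → ℚ) (μ : Rec G (Fin (M + 1)))
    (h : ∀ i, μ.lst i ≠ []) : fst (cobF E) μ = cobR (fst E) μ := by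
  rw [WON.fst_pos _ _ h]
  unfold cobR cobF cobE
  refine Finset.sum_congr rfl fun i _ => ?_
  rw [WON.fst_pos _ _ (fun j => h (i.succAbove j))]
  simp only [Rec.res_val, Rec.res_lst]

/-- The value of the coboundary. -/
theorem TX_cobF {G : Type} [Group G] {M r : ℕ} (E : (Fin M → G) → G → ℚ)
    (X : Fin (M + 1) → (Matrix (Fin r) (Fin r) (MonoidAlgebra ℚ G))ˣ) :
    TX (fst (cobF E)) 1 X =
      ∑ i : Fin (M + 1), (-1 : ℚ) ^ (i : ℕ) * TX (fst E) 1 (fun t => X (i.succAbove t)) := by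
  have h1 : TX (fst (cobF E)) 1 X = TX (cobR (fst E)) 1 X := by
    refine t_TXlen ℚ G (Fin r) (M + 1) 1 _ _ X fun μ hμ => ?_
    apply fst_cobF
    intro i h0
    have h2 := hμ i
    rw [h0] at h2
    simp at h2
  rw [h1, BND.TX_cobR]
  refine Finset.sum_congr rfl fun i _ => ?_
  rw [Rat.cast_id]

end COB

open COB in
theorem t_COB (hden : S_DEN) (hdeq : S_DEQ) : S_COB := by
  intro G _ n E hE r z hz
  obtain ⟨hbc, -⟩ := hdeq
  have key : ∀ X : Fin (n + 2) → (Matrix (Fin r) (Fin r) (MonoidAlgebra ℤ G))ˣ,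
      dtr (cobF E) X = ∑ i : Fin (n + 2), (-1 : ℚ) ^ (i : ℕ) *
        TX (fst E) 1 (fun t => zU ℚ (X (i.succAbove t))) := by
    intro X
    have h1 := hden ℚ G (n + 1) r (cobF E) (cobF_inv E hE) (fun j => zU ℚ (X j))
    have h2 := hbc ℚ G (n + 1) r (cobF E) X
    rw [Rat.cast_id] at h2
    rw [← h2, ← h1, TX_cobF]
  have h3 := BFL.sum_faces (k := ℚ) (fst E) (WON.cjInv_fst E hE) 1 z hz
  change (z.sum fun X q => q * dtr (cobF E) X) = 0
  simp only [key]
  exact h3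

end Pool.Agent.FJA
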