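import Pool.Agent.FJA.StT
import Pool.Agent.FJA.P_TXA

/-!
# Module DEN: the Dennis trace formula
-/

set_option autoImplicit false

open Matrix Pool.Agent.WhK Pool.Agent.Lib25

noncomputable section

namespace Pool.Agent.FJA

namespace DEN

/-! ## Regrouping -/

theorem rgp {R : Type*} [Monoid R] : ∀ (N : ℕ) (A W B : Fin (N + 1) → R),
    (List.ofFn fun i => A i * W i * B i).prod =
      A 0 * ((List.ofFn fun i : Fin N => W i.castSucc * (B i.castSucc * A i.succ)).prod *
        (W (Fin.last N) * B (Fin.last N))) := by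
  intro N
  induction N with
  | zero =>
    intro A W B
    simp [mul_assoc]
  | succ N ih =>
    intro A W B
    rw [List.ofFn_succ, List.prod_cons, ih (fun i => A i.succ) (fun i => W i.succ)
      (fun i => B i.succ), List.ofFn_succ, List.prod_cons]
    simp only [Fin.castSucc_zero, Fin.succ_castSucc, Fin.succ_last, mul_assoc]

theorem rgp' {R : Type*} [Monoid R] (N : ℕ) (A W B : Fin (N + 1) → R) :
    (List.ofFn fun i : Fin (N + 1) => W i * (B i * A (i + 1))).prod =
      (List.ofFn fun i : Fin N => W i.castSucc * (B i.castSucc * A i.succ)).prod *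
        (W (Fin.last N) * B (Fin.last N)) * A 0 := by
  rw [List.ofFn_succ', List.prod_concat]
  simp only [Fin.coeSucc_eq_succ, Fin.last_add_one, mul_assoc]

/-! ## Entries of ordered products of matrices -/

theorem entry {R : Type*} [Semiring R] {ι : Type*} [Fintype ι] [DecidableEq ι] :
    ∀ (N : ℕ) (M : Fin (N + 1) → Matrix ι ι R) (x y : ι),
    (List.ofFn M).prod x y = ∑ a : Fin N → ι,
      (List.ofFn fun j : Fin (N + 1) => M j ((Fin.cons x a : Fin (N + 1) → ι) j)
        ((Fin.snoc a y : Fin (N + 1) → ι) j)).prod := by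
  intro N
  induction N with
  | zero =>
    intro M x y
    simp [Fin.snoc]
  | succ N ih =>
    intro M x y
    rw [List.ofFn_succ, List.prod_cons, Matrix.mul_apply,
      ← (Fin.consEquiv fun _ : Fin (N + 1) => ι).sum_comp, Fintype.sum_prod_type]
    refine Finset.sum_congr rfl fun z _ => ?_
    rw [ih, Finset.mul_sum]
    refine Finset.sum_congr rfl fun a _ => ?_
    have h1 : (Fin.snoc ((Fin.consEquiv fun _ : Fin (N + 1) => ι) (z, a)) y : Fin (N + 2) → ι) =
        Fin.cons z (Fin.snoc a y : Fin (N + 1) → ι) := by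
      rw [Fin.cons_snoc_eq_snoc_cons]
      rfl
    rw [h1]
    conv_rhs => rw [List.ofFn_succ, List.prod_cons]
    simp only [Fin.cons_zero, Fin.cons_succ]
    rfl

theorem trace_prod {R : Type*} [Semiring R] {ι : Type*} [Fintype ι] [DecidableEq ι]
    (N : ℕ) (M : Fin (N + 1) → Matrix ι ι R) :
    Matrix.trace (List.ofFn M).prod = ∑ a : Fin (N + 1) → ι,
      (List.ofFn fun j : Fin (N + 1) => M j (a j) (a (j + 1))).prod := by
  rw [← (Fin.consEquiv fun _ : Fin (N + 1) => ι).sum_comp, Fintype.sum_prod_type, Matrix.trace]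
  refine Finset.sum_congr rfl fun x _ => ?_
  rw [Matrix.diag_apply, entry]
  refine Finset.sum_congr rfl fun a _ => ?_
  have h1 : (Fin.snoc a x : Fin (N + 1) → ι) =
      fun j => (Fin.consEquiv fun _ : Fin (N + 1) => ι) (x, a) (j + 1) := by
    funext j
    induction j using Fin.lastCases with
    | last =>
      rw [Fin.snoc_last, Fin.last_add_one]
      rfl
    | cast j =>
      rw [Fin.snoc_castSucc, Fin.coeSucc_eq_succ]
      rfl
  rw [h1]
  rfl

/-! ## Ordered products in a monoid algebra -/

theorem prod_single {k : Type*} [CommRing k] {M : Type*} [Monoid M] : ∀ (N : ℕ) (m : Fin N → M)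
    (c : Fin N → k),
    (List.ofFn fun j => (MonoidAlgebra.single (m j) (c j) : MonoidAlgebra k M)).prod =
      MonoidAlgebra.single (List.ofFn m).prod (∏ j, c j) := by
  intro N
  induction N with
  | zero =>
    intro m c
    simp [MonoidAlgebra.one_def]
  | succ N ih =>
    intro m c
    rw [List.ofFn_succ, List.prod_cons, ih, MonoidAlgebra.single_mul_single, List.ofFn_succ,
      List.prod_cons, Fin.prod_univ_succ]

theorem prod_expand {k : Type*} [CommRing k] {G M : Type*} [Monoid M] (N : ℕ)
    (f : Fin N → G → M) (x : Fin N → MonoidAlgebra k G) (S : Finset G)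
    (hS : ∀ j, (x j).coeff.support ⊆ S) :
    (List.ofFn fun j => MonoidAlgebra.mapDomain (f j) (x j)).prod =
      ∑ γ ∈ Fintype.piFinset fun _ : Fin N => S,
        MonoidAlgebra.single (List.ofFn fun j => f j (γ j)).prod (∏ j, (x j).coeff (γ j)) := by
  have h1 : ∀ j, MonoidAlgebra.mapDomain (f j) (x j) =
      ∑ γ ∈ S, (MonoidAlgebra.single (f j γ) ((x j).coeff γ) : MonoidAlgebra k M) := by
    intro j
    conv_lhs => rw [← MonoidAlgebra.sum_coeff_single (x j)]
    rw [MonoidAlgebra.mapDomain_sum]
    simp only [MonoidAlgebra.mapDomain_single]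
    exact Finsupp.sum_of_support_subset _ (hS j) _ (fun _ _ => MonoidAlgebra.single_zero _)
  have h2 : (List.ofFn fun j => MonoidAlgebra.mapDomain (f j) (x j)).prod =
      MultilinearMap.mkPiAlgebraFin k N (MonoidAlgebra k M)
        (fun j => ∑ γ ∈ S, (MonoidAlgebra.single (f j γ) ((x j).coeff γ) : MonoidAlgebra k M)) := by
    rw [MultilinearMap.mkPiAlgebraFin_apply]
    simp only [h1]
  rw [h2, MultilinearMap.map_sum_finset]
  refine Finset.sum_congr rfl fun γ _ => ?_
  rw [MultilinearMap.mkPiAlgebraFin_apply, prod_single]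

theorem mul_mapDomain {k : Type*} [CommRing k] {G : Type*} [Group G] {V : Type*} (ρ : Rec G V)
    (x : MonoidAlgebra k G) :
    MonoidAlgebra.single ρ 1 * MonoidAlgebra.mapDomain (Rec.inc (Γ := G) (V := V)) x =
      MonoidAlgebra.mapDomain (fun g => ρ * Rec.inc g) x := by
  induction x using MonoidAlgebra.induction_linear with
  | zero => simp only [MonoidAlgebra.mapDomain_zero, mul_zero]
  | add a b ha hb => rw [MonoidAlgebra.mapDomain_add, MonoidAlgebra.mapDomain_add, mul_add, ha, hb]
  | single γ r =>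
    rw [MonoidAlgebra.mapDomain_single, MonoidAlgebra.mapDomain_single,
      MonoidAlgebra.single_mul_single, one_mul]

/-! ## The records -/

theorem prod_lst_nil {Γ : Type*} [Group Γ] {V : Type*} (i : V) (L : List (Rec Γ V))
    (h : ∀ μ ∈ L, μ.lst i = []) : L.prod.lst i = [] := by
  induction L with
  | nil => rfl
  | cons μ L ih =>
    rw [List.prod_cons, Rec.mul_lst, h μ (by simp), ih fun ν hν => h ν (by simp [hν])]
    rfl

theorem prod_val {Γ : Type*} [Group Γ] {V : Type*} (L : List (Rec Γ V)) :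
    L.prod.val = (L.map Rec.val).prod :=
  map_list_prod (Rec.valHom (Γ := Γ) (V := V)) L

/-- The record of the product of the steps `γ j`. -/
def rc {G : Type} [Group G] {n : ℕ} (γ : Fin (n + 1) → G) : Rec G (Fin (n + 1)) :=
  (List.ofFn fun j => Rec.om j * Rec.inc (γ j)).prod

theorem rc_val {G : Type} [Group G] {n : ℕ} (γ : Fin (n + 1) → G) :
    (rc γ).val = (List.ofFn γ).prod := by
  rw [rc, prod_val, List.map_ofFn]
  congr 2
  funext j
  simp

theorem rc_lst {G : Type} [Group G] {n : ℕ} (γ : Fin (n + 1) → G) (i : Fin (n + 1)) :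
    (rc γ).lst i = [fpr γ i] := by
  set L : List (Rec G (Fin (n + 1))) := List.ofFn fun j => Rec.om j * Rec.inc (γ j) with hL
  have hlen : L.length = n + 1 := by rw [hL, List.length_ofFn]
  have hi : (i : ℕ) < L.length := by rw [hlen]; exact i.2
  have hget : ∀ (j : ℕ) (hj : j < L.length), L[j] =
      Rec.om (⟨j, by omega⟩ : Fin (n + 1)) * Rec.inc (γ ⟨j, by omega⟩) := by
    intro j hj
    simp only [hL, List.getElem_ofFn]
  have h1 : L.prod = (L.take i).prod * (L[(i : ℕ)] * (L.drop (i + 1)).prod) := by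
    rw [← List.prod_cons, ← List.drop_eq_getElem_cons, ← List.prod_append,
      List.take_append_drop]
  have h2 : (L.take i).prod.lst i = [] := by
    refine prod_lst_nil _ _ fun μ hμ => ?_
    obtain ⟨j, hj, rfl⟩ := List.mem_take_iff_getElem.1 hμ
    rw [hget]
    have : i ≠ (⟨j, by omega⟩ : Fin (n + 1)) := by
      intro h
      have := congrArg Fin.val h
      simp at this
      omega
    simp [this]
  have h3 : (L.drop (i + 1)).prod.lst i = [] := by
    refine prod_lst_nil _ _ fun μ hμ => ?_
    obtain ⟨j, hj, rfl⟩ := List.mem_drop_iff_getElem.1 hμ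
    rw [hget]
    have : i ≠ (⟨i + 1 + j, by omega⟩ : Fin (n + 1)) := by
      intro h
      have := congrArg Fin.val h
      simp at this
      omega
    simp [this]
  have h4 : (L.take i).prod.val = fpr γ i := by
    rw [prod_val, List.map_take, hL, List.map_ofFn, fpr]
    congr 3
    funext j
    simp
  change L.prod.lst i = _
  rw [h1, Rec.mul_lst, Rec.mul_lst, h2, h3, h4, hget]
  simp

theorem fst_rc {G : Type} [Group G] {n : ℕ} (F : (Fin (n + 1) → G) → G → ℚ)
    (γ : Fin (n + 1) → G) : fst F (rc γ) = F (fpr γ) (List.ofFn γ).prod := by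
  rw [fst, if_pos (fun i => by rw [rc_lst]; simp), rc_val]
  simp only [rc_lst, List.headD_cons]

theorem fst_cj {G : Type} [Group G] {M : ℕ} (F : (Fin M → G) → G → ℚ)
    (hF : ∀ (g : G) (a : Fin M → G) (y : G), F (fun i => g * a i) (g * y * g⁻¹) = F a y) :
    CjInv (fst F) := by
  intro γ μ
  unfold fst
  by_cases h : ∀ i, μ.lst i ≠ []
  · rw [if_pos (fun i => by simpa using h i), if_pos (fun i => by simpa using h i)]
    have h1 : ∀ i, ((Rec.inc γ * μ).lst i).headD 1 = γ * ((μ * Rec.inc γ).lst i).headD 1 := by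
      intro i
      rcases hl : μ.lst i with _ | ⟨b, l⟩
      · exact absurd hl (h i)
      · simp [hl]
    simp only [h1]
    refine Eq.trans ?_ (hF γ (fun i => ((μ * Rec.inc γ).lst i).headD 1) (μ * Rec.inc γ).val)
    congr 1
    simp [mul_assoc]
  · rw [if_neg (fun h' => h fun i => by simpa using h' i),
      if_neg (fun h' => h fun i => by simpa using h' i)]

end DEN

open DEN

theorem t_DEN : S_DEN := by
  intro k _ _ G _ n r F hF X
  classical
  set φ : Rec G (Fin (n + 1)) → ℚ := fst F with hφdef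
  have hφ : CjInv φ := fst_cj F hF
  set h : Fin (n + 1) → (Matrix (Fin r) (Fin r) (MonoidAlgebra k G))ˣ :=
    fun j => (X j)⁻¹ * X (j + 1) with hh
  -- regrouping
  have h1 : TX φ 1 X = lin k φ (Matrix.trace (List.ofFn fun j : Fin (n + 1) =>
      wm k (Fin r) j * jm k (Fin (n + 1)) (h j).val).prod) := by
    unfold TX UX
    rw [pow_one, rgp, TXA.lin_trace_comm φ hφ]
    have e1 : (fun j : Fin (n + 1) => wm k (Fin r) j * jm k (Fin (n + 1)) (h j).val) =
        fun j : Fin (n + 1) => wm k (Fin r) j * (jm k (Fin (n + 1)) ((X j)⁻¹).val *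
          jm k (Fin (n + 1)) (X (j + 1)).val) := by
      funext j
      rw [hh, ← map_mul]
      rfl
    rw [e1, rgp' n (fun j => jm k (Fin (n + 1)) (X j).val)
      (fun j => wm k (Fin r) j) (fun j => jm k (Fin (n + 1)) ((X j)⁻¹).val)]
  -- the finite set
  set S : Finset G := Finset.univ.biUnion fun t : Fin (n + 1) × Fin r × Fin r =>
    ((h t.1).val t.2.1 t.2.2).coeff.support with hSdef
  have hS : ∀ j a b, ((h j).val a b).coeff.support ⊆ S := by
    intro j a b x hx
    exact Finset.mem_biUnion.2 ⟨(j, a, b), Finset.mem_univ _, hx⟩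
  have h2 : dennisQ F X = ∑ γ ∈ Fintype.piFinset fun _ : Fin (n + 1) => S,
      dcoef X γ * ((F (fpr γ) (List.ofFn γ).prod : ℚ) : k) := by
    unfold dennisQ
    refine finsum_eq_sum_of_support_subset _ ?_
    intro γ hγ
    rw [Function.mem_support] at hγ
    have h3 : dcoef X γ ≠ 0 := left_ne_zero_of_mul hγ
    obtain ⟨a, -, ha⟩ := Finset.exists_ne_zero_of_sum_ne_zero h3
    rw [Finset.mem_coe, Fintype.mem_piFinset]
    intro j
    exact hS j (a j) (a (j + 1)) (Finsupp.mem_support_iff.2
      (Finset.prod_ne_zero_iff.1 ha j (Finset.mem_univ j)))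
  rw [h1, h2, trace_prod, map_sum]
  have h3 : ∀ a : Fin (n + 1) → Fin r,
      lin k φ (List.ofFn fun j : Fin (n + 1) =>
        (wm k (Fin r) j * jm k (Fin (n + 1)) (h j).val : Matrix (Fin r) (Fin r)
          (MonoidAlgebra k (Rec G (Fin (n + 1))))) (a j) (a (j + 1))).prod =
      ∑ γ ∈ Fintype.piFinset fun _ : Fin (n + 1) => S,
        (∏ j, ((h j).val (a j) (a (j + 1))).coeff (γ j)) *
          ((F (fpr γ) (List.ofFn γ).prod : ℚ) : k) := by
    intro a
    have e1 : (fun j : Fin (n + 1) =>
        (wm k (Fin r) j * jm k (Fin (n + 1)) (h j).val : Matrix (Fin r) (Fin r)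
          (MonoidAlgebra k (Rec G (Fin (n + 1))))) (a j) (a (j + 1))) =
        fun j => MonoidAlgebra.mapDomain (fun g => Rec.om j * Rec.inc g)
          ((h j).val (a j) (a (j + 1))) := by
      funext j
      rw [wm, Matrix.diagonal_mul]
      exact mul_mapDomain _ _
    rw [e1, prod_expand _ _ _ S (fun j => hS j _ _), map_sum]
    refine Finset.sum_congr rfl fun γ _ => ?_
    rw [lin_single]
    congr 2
    exact fst_rc F γ
  simp only [h3]
  rw [Finset.sum_comm]
  refine Finset.sum_congr rfl fun γ _ => ?_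
  rw [← Finset.sum_mul]
  rfl

end Pool.Agent.FJA
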