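import Pool.Agent.FJA.StU

/-!
# Module DEQ: the functional `dtr`: base change, linearity, dependence on finitely many values
-/

set_option autoImplicit false

open Matrix Pool.Agent.WhK Pool.Agent.Lib25

noncomputable section

namespace Pool.Agent.FJA

namespace DEQ

theorem fin_term (hdez : S_DEZ) (G : Type) [Group G] (n r : ℕ)
    (X : Fin (n + 1) → (Matrix (Fin r) (Fin r) (MonoidAlgebra ℤ G))ˣ)
    (c : (Fin (n + 1) → G) → ℚ) :
    (Function.support fun γ : Fin (n + 1) → G => ((dcoef X γ : ℤ) : ℚ) * c γ).Finite := by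
  refine (hdez.1 ℤ G n r X).subset ?_
  intro γ hγ h0
  apply hγ
  change ((dcoef X γ : ℤ) : ℚ) * c γ = 0
  rw [h0, Int.cast_zero, zero_mul]

theorem fin_term_int (hdez : S_DEZ) (G : Type) [Group G] (n r : ℕ)
    (X : Fin (n + 1) → (Matrix (Fin r) (Fin r) (MonoidAlgebra ℤ G))ˣ)
    (c : (Fin (n + 1) → G) → ℤ) :
    (Function.support fun γ : Fin (n + 1) → G => (dcoef X γ : ℤ) * c γ).Finite := by
  refine (hdez.1 ℤ G n r X).subset ?_
  intro γ hγ h0
  apply hγ
  change (dcoef X γ : ℤ) * c γ = 0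
  rw [h0, zero_mul]

theorem base (hdez : S_DEZ) (k : Type) [Field k] [CharZero k] (G : Type) [Group G] (n r : ℕ)
    (F : (Fin (n + 1) → G) → G → ℚ)
    (X : Fin (n + 1) → (Matrix (Fin r) (Fin r) (MonoidAlgebra ℤ G))ˣ) :
    dennisQ F (fun j => zU k (X j)) = ((dtr F X : ℚ) : k) := by
  unfold dennisQ dtr
  have h := (Rat.castHom k).toAddMonoidHom.map_finsum
    (fin_term hdez G n r X (fun γ => F (fpr γ) (List.ofFn γ).prod))
  change _ = (Rat.castHom k).toAddMonoidHom _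
  refine Eq.trans ?_ h.symm
  refine finsum_congr fun γ => ?_
  rw [(hdez.2.1 k G n r (fun _ _ => 0) X).2 γ]
  change _ = ((((dcoef X γ : ℤ) : ℚ) * F (fpr γ) (List.ofFn γ).prod : ℚ) : k)
  push_cast
  rfl

theorem addi (hdez : S_DEZ) (G : Type) [Group G] (n r : ℕ) (I : Type) (s : Finset I)
    (F : I → (Fin (n + 1) → G) → G → ℚ)
    (X : Fin (n + 1) → (Matrix (Fin r) (Fin r) (MonoidAlgebra ℤ G))ˣ) :
    dtr (fun a y => ∑ i ∈ s, F i a y) X = ∑ i ∈ s, dtr (F i) X := by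
  unfold dtr
  rw [← finsum_sum_comm s _ (fun i _ => fin_term hdez G n r X
    (fun γ => F i (fpr γ) (List.ofFn γ).prod))]
  refine finsum_congr fun γ => ?_
  rw [Finset.mul_sum]

theorem scal (G : Type) [Group G] (n r : ℕ) (c : ℚ)
    (F : (Fin (n + 1) → G) → G → ℚ)
    (X : Fin (n + 1) → (Matrix (Fin r) (Fin r) (MonoidAlgebra ℤ G))ˣ) :
    dtr (fun a y => c * F a y) X = c * dtr F X := by
  unfold dtr
  rw [mul_finsum]
  refine finsum_congr fun γ => ?_
  ring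

theorem inte (hdez : S_DEZ) (G : Type) [Group G] (n r : ℕ) (F : (Fin (n + 1) → G) → G → ℤ)
    (X : Fin (n + 1) → (Matrix (Fin r) (Fin r) (MonoidAlgebra ℤ G))ˣ) :
    dtr (qF F) X = ((dennis F X : ℤ) : ℚ) := by
  unfold dtr dennis
  have h := (Int.castRingHom ℚ).toAddMonoidHom.map_finsum
    (fin_term_int hdez G n r X (fun γ => ((F (fpr γ) (List.ofFn γ).prod : ℤ) : ℤ)))
  change _ = (Int.castRingHom ℚ).toAddMonoidHom _
  refine Eq.trans ?_ h.symm
  refine finsum_congr fun γ => ?_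
  change _ = (((dcoef X γ * (F (fpr γ) (List.ofFn γ).prod : ℤ) : ℤ)) : ℚ)
  unfold qF
  push_cast
  rfl

theorem fini (hdez : S_DEZ) (G : Type) [Group G] (n r : ℕ)
    (z : (Fin (n + 1) → (Matrix (Fin r) (Fin r) (MonoidAlgebra ℤ G))ˣ) →₀ ℚ) :
    ∃ E : Finset G, ∀ F F' : (Fin (n + 1) → G) → G → ℚ, (∀ y ∈ E, ∀ a, F a y = F' a y) →
      ∀ X ∈ z.support, dtr F X = dtr F' X := by
  classical
  refine ⟨z.support.biUnion fun X => (hdez.1 ℤ G n r X).toFinset.image
    (fun γ => (List.ofFn γ).prod), ?_⟩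
  intro F F' hFF X hX
  unfold dtr
  refine finsum_congr fun γ => ?_
  by_cases h0 : dcoef X γ = 0
  · rw [h0, Int.cast_zero, zero_mul, zero_mul]
  · rw [hFF (List.ofFn γ).prod]
    rw [Finset.mem_biUnion]
    refine ⟨X, hX, ?_⟩
    rw [Finset.mem_image]
    exact ⟨γ, (hdez.1 ℤ G n r X).mem_toFinset.mpr h0, rfl⟩

end DEQ

theorem t_DEQ (hdez : S_DEZ) : S_DEQ :=
  ⟨fun k _ _ G _ n r F X => DEQ.base hdez k G n r F X,
    fun G _ n r I s F X => DEQ.addi hdez G n r I s F X,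
    fun G _ n r c F X => DEQ.scal G n r c F X,
    fun G _ n r F X => DEQ.inte hdez G n r F X,
    fun G _ n r z => DEQ.fini hdez G n r z⟩

end Pool.Agent.FJA
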