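import Pool.Agent.FJA.StT

/-!
# Module DEZ: base change, additivity and finiteness of the Dennis trace coefficients
-/

set_option autoImplicit false

open Matrix Pool.Agent.WhK Pool.Agent.Lib25

noncomputable section

namespace Pool.Agent.FJA

namespace DEZ

theorem fin_dcoef (k : Type) [CommRing k] (G : Type) [Group G] (n r : ℕ)
    (X : Fin (n + 1) → (Matrix (Fin r) (Fin r) (MonoidAlgebra k G))ˣ) :
    {γ : Fin (n + 1) → G | dcoef X γ ≠ 0}.Finite := by
  classical
  let S : Fin (n + 1) → Finset G := fun j => Finset.univ.biUnion fun a : Fin r =>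
    Finset.univ.biUnion fun b : Fin r =>
      ((((X j)⁻¹ * X (j + 1) : (Matrix (Fin r) (Fin r) (MonoidAlgebra k G))ˣ).val a b).coeff).support
  refine (Finset.finite_toSet (Fintype.piFinset S)).subset ?_
  intro γ hγ
  rw [Finset.mem_coe, Fintype.mem_piFinset]
  intro j
  by_contra hj
  apply hγ
  unfold dcoef
  apply Finset.sum_eq_zero
  intro a _
  apply Finset.prod_eq_zero (Finset.mem_univ j)
  by_contra hne
  apply hj
  simp only [S, Finset.mem_biUnion, Finset.mem_univ, true_and, Finsupp.mem_support_iff]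
  exact ⟨a j, a (j + 1), hne⟩

theorem dcoef_zU (k : Type) [Field k] (G : Type) [Group G] (n r : ℕ)
    (X : Fin (n + 1) → (Matrix (Fin r) (Fin r) (MonoidAlgebra ℤ G))ˣ) (γ : Fin (n + 1) → G) :
    dcoef (fun j => zU k (X j)) γ = ((dcoef X γ : ℤ) : k) := by
  unfold dcoef
  rw [Int.cast_sum]
  refine Finset.sum_congr rfl fun a _ => ?_
  rw [Int.cast_prod]
  refine Finset.prod_congr rfl fun j _ => ?_
  have h : ((zU k (X j))⁻¹ * zU k (X (j + 1))) = zU k ((X j)⁻¹ * X (j + 1)) := by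
    rw [map_mul, map_inv]
  rw [h]
  change (MonoidAlgebra.mapRingHom G (Int.castRingHom k)
    (((X j)⁻¹ * X (j + 1) : (Matrix (Fin r) (Fin r) (MonoidAlgebra ℤ G))ˣ).val (a j)
      (a (j + 1)))).coeff (γ j) = _
  rw [MonoidAlgebra.coeff_mapRingHom]
  rfl

theorem fin_term (k : Type) [CommRing k] (G : Type) [Group G] (n r : ℕ)
    (X : Fin (n + 1) → (Matrix (Fin r) (Fin r) (MonoidAlgebra k G))ˣ)
    (c : (Fin (n + 1) → G) → k) :
    (Function.support fun γ : Fin (n + 1) → G => dcoef X γ * c γ).Finite := by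
  refine (fin_dcoef k G n r X).subset ?_
  intro γ hγ h0
  apply hγ
  change dcoef X γ * c γ = 0
  rw [h0, zero_mul]

theorem dennis_sum (k : Type) [CommRing k] (G : Type) [Group G] (n r : ℕ) (I : Type) (s : Finset I)
    (F : I → (Fin (n + 1) → G) → G → ℤ)
    (X : Fin (n + 1) → (Matrix (Fin r) (Fin r) (MonoidAlgebra k G))ˣ) :
    (dennis (fun a y => ∑ i ∈ s, F i a y) X : k) = ∑ i ∈ s, dennis (F i) X := by
  classical
  unfold dennis
  rw [← finsum_sum_comm s _ (fun i _ => fin_term k G n r X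
    (fun γ => (F i (fpr γ) (List.ofFn γ).prod : k)))]
  refine finsum_congr fun γ => ?_
  push_cast
  rw [Finset.mul_sum]

theorem dennis_zU (k : Type) [Field k] (G : Type) [Group G] (n r : ℕ)
    (F : (Fin (n + 1) → G) → G → ℤ)
    (X : Fin (n + 1) → (Matrix (Fin r) (Fin r) (MonoidAlgebra ℤ G))ˣ) :
    dennisQ (qF F) (fun j => zU k (X j)) = ((dennis F X : ℤ) : k) := by
  unfold dennisQ dennis
  have h := (Int.castRingHom k).toAddMonoidHom.map_finsum
    (fin_term ℤ G n r X (fun γ => ((F (fpr γ) (List.ofFn γ).prod : ℤ) : ℤ)))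
  change _ = (Int.castRingHom k).toAddMonoidHom _
  refine Eq.trans ?_ h.symm
  refine finsum_congr fun γ => ?_
  rw [dcoef_zU]
  change _ = (((dcoef X γ * (F (fpr γ) (List.ofFn γ).prod : ℤ) : ℤ)) : k)
  unfold qF
  push_cast
  rfl

end DEZ

theorem t_DEZ : S_DEZ :=
  ⟨fun k _ G _ n r X => DEZ.fin_dcoef k G n r X,
    fun k _ _ G _ n r F X => ⟨DEZ.dennis_zU k G n r F X, fun γ => DEZ.dcoef_zU k G n r X γ⟩,
    fun k _ G _ n r I s F X => DEZ.dennis_sum k G n r I s F X⟩

end Pool.Agent.FJA
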