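import Pool.Agent.FJA.StU

/-!
# FGS: cycles come from finitely generated subgroups
-/

set_option autoImplicit false

open Matrix Pool.Agent.WhK Pool.Agent.Lib25

noncomputable section

namespace Pool.Agent.FJA

namespace FGS

theorem hmap_single {V V' : Type} (f : V → V') (m : ℕ) (v : Fin m → V) (c : ℚ) :
    hmap ℚ f m (Finsupp.single v c) = Finsupp.single (fun i => f (v i)) c :=
  Finsupp.mapDomain_single

theorem bd_hmap {V V' : Type} (f : V → V') (m : ℕ) (w : (Fin (m + 1) → V) →₀ ℚ) :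
    bd ℚ V' m (hmap ℚ f (m + 1) w) = hmap ℚ f m (bd ℚ V m w) := by
  induction w using Finsupp.induction_linear with
  | zero => simp only [map_zero]
  | add a b ha hb => simp only [map_add, ha, hb]
  | single X q =>
    rw [hmap_single, bd_single, bd_single, map_sum]
    refine Finset.sum_congr rfl fun i _ => ?_
    rw [map_smul, hmap_single]

theorem hmap_inj {V V' : Type} (f : V → V') (hf : Function.Injective f) (m : ℕ) :
    Function.Injective (hmap ℚ f m) := by
  have h : Function.Injective (fun (X : Fin m → V) i => f (X i)) :=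
    fun X Y h => funext fun i => hf (congrFun h i)
  exact Finsupp.mapDomain_injective h

/-- A chain only involves finitely many elements. -/
theorem lift_chain {Γ : Type} (m : ℕ) (z : (Fin m → Γ) →₀ ℚ) :
    ∃ E : Finset Γ, ∀ (Δ : Type) (f : Δ → Γ), (∀ x ∈ E, ∃ x', f x' = x) →
      ∃ z' : (Fin m → Δ) →₀ ℚ, hmap ℚ f m z' = z := by
  classical
  induction z using Finsupp.induction_linear with
  | zero => exact ⟨∅, fun Δ f _ => ⟨0, map_zero _⟩⟩
  | add a b ha hb =>
    obtain ⟨E, hE⟩ := ha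
    obtain ⟨E', hE'⟩ := hb
    refine ⟨E ∪ E', fun Δ f h => ?_⟩
    obtain ⟨a', ha'⟩ := hE Δ f fun x hx => h x (Finset.mem_union_left _ hx)
    obtain ⟨b', hb'⟩ := hE' Δ f fun x hx => h x (Finset.mem_union_right _ hx)
    exact ⟨a' + b', by rw [map_add, ha', hb']⟩
  | single X q =>
    refine ⟨Finset.univ.image X, fun Δ f h => ?_⟩
    have h1 : ∀ i, ∃ x', f x' = X i :=
      fun i => h _ (Finset.mem_image_of_mem X (Finset.mem_univ i))
    choose X' hX' using h1
    refine ⟨Finsupp.single X' q, ?_⟩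
    rw [hmap_single]
    congr 1
    funext i
    exact hX' i

/-- A degenerate chain only involves finitely many elements. -/
theorem lift_hdeg {Γ : Type} [Group Γ] (m : ℕ) {y : HCh ℚ Γ m} (hy : y ∈ hdeg ℚ Γ m) :
    ∃ E : Finset Γ, ∀ (Δ : Type) [Group Δ] (f : Δ →* Γ), (∀ x ∈ E, ∃ x', f x' = x) →
      ∃ y' ∈ hdeg ℚ Δ m, hmap ℚ f (m + 1) y' = y := by
  classical
  unfold hdeg at hy
  induction hy using Submodule.span_induction with
  | mem x hx =>
    obtain ⟨g, X, rfl⟩ := hx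
    refine ⟨insert g (Finset.univ.image X), fun Δ _ f h => ?_⟩
    obtain ⟨g', hg'⟩ := h g (Finset.mem_insert_self _ _)
    have h1 : ∀ i, ∃ x', f x' = X i := fun i =>
      h _ (Finset.mem_insert_of_mem (Finset.mem_image_of_mem X (Finset.mem_univ i)))
    choose X' hX' using h1
    refine ⟨_, Submodule.subset_span ⟨g', X', rfl⟩, ?_⟩
    rw [map_sub, hmap_single, hmap_single]
    have e1 : (fun i => f (g' * X' i)) = fun i => g * X i := by
      funext i; rw [map_mul, hg', hX']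
    have e2 : (fun i => f (X' i)) = X := funext hX'
    rw [e1, e2]
  | zero => exact ⟨∅, fun Δ _ f _ => ⟨0, zero_mem _, map_zero _⟩⟩
  | add a b _ _ ha hb =>
    obtain ⟨E, hE⟩ := ha
    obtain ⟨E', hE'⟩ := hb
    refine ⟨E ∪ E', fun Δ _ f h => ?_⟩
    obtain ⟨a', ha1, ha2⟩ := hE Δ f fun x hx => h x (Finset.mem_union_left _ hx)
    obtain ⟨b', hb1, hb2⟩ := hE' Δ f fun x hx => h x (Finset.mem_union_right _ hx)
    exact ⟨a' + b', add_mem ha1 hb1, by rw [map_add, ha2, hb2]⟩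
  | smul q a _ ha =>
    obtain ⟨E, hE⟩ := ha
    refine ⟨E, fun Δ _ f h => ?_⟩
    obtain ⟨a', ha1, ha2⟩ := hE Δ f h
    exact ⟨q • a', Submodule.smul_mem _ _ ha1, by rw [map_smul, ha2]⟩

section

variable {G : Type} [Group G] (H : Subgroup G) {r : ℕ}

theorem exists_lift (M : Matrix (Fin r) (Fin r) (MonoidAlgebra ℤ G))
    (hM : ∀ a b, ∀ g ∈ (M a b).coeff.support, g ∈ H) :
    ∃ M' : Matrix (Fin r) (Fin r) (MonoidAlgebra ℤ H),
      (MonoidAlgebra.mapDomainRingHom ℤ H.subtype).mapMatrix M' = M := by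
  refine ⟨fun a b => MonoidAlgebra.comapDomain H.subtype H.subtype_injective (M a b), ?_⟩
  funext a b
  exact MonoidAlgebra.mapDomain_comapDomain
    (fun g hg => ⟨⟨g, hM a b g hg⟩, rfl⟩) H.subtype_injective

theorem mat_inj : Function.Injective ((MonoidAlgebra.mapDomainRingHom ℤ H.subtype).mapMatrix :
    Matrix (Fin r) (Fin r) (MonoidAlgebra ℤ H) →+* Matrix (Fin r) (Fin r) (MonoidAlgebra ℤ G)) := by
  intro A B h
  funext a b
  exact MonoidAlgebra.mapDomain_injective H.subtype_injective (congrFun (congrFun h a) b)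

theorem glZ_inj : Function.Injective (glZ (r := r) H.subtype) :=
  Units.map_injective (mat_inj H)

/-- The elements of the group which occur in a matrix and its inverse. -/
def sp (X : (Matrix (Fin r) (Fin r) (MonoidAlgebra ℤ G))ˣ) : Set G :=
  {g | ∃ a b, g ∈ (X.val a b).coeff.support ∨ g ∈ ((X⁻¹).val a b).coeff.support}

theorem sp_finite (X : (Matrix (Fin r) (Fin r) (MonoidAlgebra ℤ G))ˣ) : (sp X).Finite := by
  classical
  refine Set.Finite.subset (Finset.finite_toSet (Finset.univ.biUnion fun a =>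
    Finset.univ.biUnion fun b => (X.val a b).coeff.support ∪ ((X⁻¹).val a b).coeff.support)) ?_
  rintro g ⟨a, b, h⟩
  simp only [Finset.coe_biUnion, Set.mem_iUnion, Finset.mem_coe, Finset.mem_union]
  exact ⟨a, Finset.mem_univ a, b, Finset.mem_univ b, h⟩

theorem exists_glZ (X : (Matrix (Fin r) (Fin r) (MonoidAlgebra ℤ G))ˣ) (hX : sp X ⊆ H) :
    ∃ X', glZ (r := r) H.subtype X' = X := by
  obtain ⟨A, hA⟩ := exists_lift H X.val fun a b g hg => hX ⟨a, b, Or.inl hg⟩
  obtain ⟨B, hB⟩ := exists_lift H (X⁻¹).val fun a b g hg => hX ⟨a, b, Or.inr hg⟩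
  have h1 : A * B = 1 := by
    apply mat_inj H
    rw [map_mul, hA, hB, map_one, ← Units.val_mul, mul_inv_cancel, Units.val_one]
  have h2 : B * A = 1 := by
    apply mat_inj H
    rw [map_mul, hA, hB, map_one, ← Units.val_mul, inv_mul_cancel, Units.val_one]
  exact ⟨⟨A, B, h1, h2⟩, Units.ext hA⟩

end

end FGS

open FGS in
theorem t_FGS : S_FGS := by
  intro G _ n r z hz
  have hz' : bd ℚ ((Matrix (Fin r) (Fin r) (MonoidAlgebra ℤ G))ˣ) (n + 1) z ∈
      hdeg ℚ ((Matrix (Fin r) (Fin r) (MonoidAlgebra ℤ G))ˣ) n := hz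
  obtain ⟨E1, hE1⟩ := lift_chain (n + 2) z
  obtain ⟨E2, hE2⟩ := lift_hdeg n hz'
  have hfin : ((⋃ X ∈ E1, sp X) ∪ ⋃ X ∈ E2, sp X).Finite :=
    (E1.finite_toSet.biUnion fun X _ => sp_finite X).union
      (E2.finite_toSet.biUnion fun X _ => sp_finite X)
  refine ⟨Subgroup.closure ((⋃ X ∈ E1, sp X) ∪ ⋃ X ∈ E2, sp X),
    ⟨hfin.toFinset, by rw [Set.Finite.coe_toFinset]⟩, ?_⟩
  set H := Subgroup.closure ((⋃ X ∈ E1, sp X) ∪ ⋃ X ∈ E2, sp X) with hH
  have hs : ((⋃ X ∈ E1, sp X) ∪ ⋃ X ∈ E2, sp X) ⊆ (H : Set G) := Subgroup.subset_closure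
  obtain ⟨z', hz1⟩ := hE1 _ (glZ (r := r) H.subtype) fun X hX => exists_glZ H X
    (fun g hg => hs (Or.inl (Set.mem_biUnion hX hg)))
  obtain ⟨y', hy1, hy2⟩ := hE2 _ (glZ (r := r) H.subtype) fun X hX => exists_glZ H X
    (fun g hg => hs (Or.inr (Set.mem_biUnion hX hg)))
  refine ⟨z', ?_, hz1⟩
  have h1 : bd ℚ _ (n + 1) z' = y' := by
    apply hmap_inj _ (glZ_inj H)
    rw [← bd_hmap, hy2, hz1]
  show bd ℚ _ (n + 1) z' ∈ hdeg ℚ _ n
  rw [h1]
  exact hy1

end Pool.Agent.FJA
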