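import Pool.Agent.FJA.StU
import Pool.Agent.FJA.P_BFL

/-!
# FWD: the Dennis trace at the classes of the elements of infinite order, forwards   (helper69)
-/

set_option autoImplicit false

open Matrix Pool.Agent.WhK Pool.Agent.Lib25

noncomputable section

namespace Pool.Agent.FJA

namespace FWD

variable {G : Type} [Group G]

theorem conj_form {y w : G} : IsConj y w ↔ ∃ g : G, g * w * g⁻¹ = y :=
  isConj_comm.trans isConj_iff

/-- The root of `y` in the class of `y0`, if `y` is conjugate to `y0 ^ ℓ`. -/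
def rtY (y0 : G) (ℓ : ℕ) (y : G) : G := by
  classical
  exact if h : ∃ g : G, g * y0 ^ ℓ * g⁻¹ = y then h.choose * y0 * h.choose⁻¹ else y

theorem rtY_eq {y0 : G} {ℓ : ℕ} (hc : ∀ g : G, g * y0 ^ ℓ = y0 ^ ℓ * g → g * y0 = y0 * g) (g : G) :
    rtY y0 ℓ (g * y0 ^ ℓ * g⁻¹) = g * y0 * g⁻¹ := by
  have h : ∃ g' : G, g' * y0 ^ ℓ * g'⁻¹ = g * y0 ^ ℓ * g⁻¹ := ⟨g, rfl⟩
  have h1 : rtY y0 ℓ (g * y0 ^ ℓ * g⁻¹) = h.choose * y0 * h.choose⁻¹ := dif_pos h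
  rw [h1]
  have h2 := h.choose_spec
  generalize h.choose = g' at h2 ⊢
  have h3 : (g⁻¹ * g') * y0 ^ ℓ = y0 ^ ℓ * (g⁻¹ * g') := by
    have := congrArg (fun x => g⁻¹ * x * g') h2
    simpa [mul_assoc] using this
  have h4 := hc _ h3
  calc g' * y0 * g'⁻¹ = g * (g⁻¹ * g' * y0) * g'⁻¹ := by group
    _ = g * (y0 * (g⁻¹ * g')) * g'⁻¹ := by rw [h4]
    _ = g * y0 * g⁻¹ := by group

theorem rtY_not {y0 : G} {ℓ : ℕ} {y : G} (h : ¬ ∃ g : G, g * y0 ^ ℓ * g⁻¹ = y) :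
    rtY y0 ℓ y = y := dif_neg h

theorem rtY_conj {y0 : G} {ℓ : ℕ} (hc : ∀ g : G, g * y0 ^ ℓ = y0 ^ ℓ * g → g * y0 = y0 * g)
    (γ y : G) : rtY y0 ℓ (γ * y * γ⁻¹) = γ * rtY y0 ℓ y * γ⁻¹ := by
  by_cases h : ∃ g : G, g * y0 ^ ℓ * g⁻¹ = y
  · obtain ⟨g, rfl⟩ := h
    have h1 : ∀ w : G, γ * (g * w * g⁻¹) * γ⁻¹ = (γ * g) * w * (γ * g)⁻¹ := by
      intro w
      group
    rw [h1, rtY_eq hc, rtY_eq hc, h1]
  · rw [rtY_not h, rtY_not]
    rintro ⟨g, hg⟩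
    refine h ⟨γ⁻¹ * g, ?_⟩
    have h1 : (γ⁻¹ * g) * y0 ^ ℓ * (γ⁻¹ * g)⁻¹ = γ⁻¹ * (g * y0 ^ ℓ * g⁻¹) * γ := by
      generalize y0 ^ ℓ = w
      group
    rw [h1, hg]
    group

theorem rtY_pow {y0 : G} {ℓ : ℕ} (hc : ∀ g : G, g * y0 ^ ℓ = y0 ^ ℓ * g → g * y0 = y0 * g)
    {y : G} (hy : IsConj y (y0 ^ ℓ)) : rtY y0 ℓ y ^ ℓ = y := by
  obtain ⟨g, rfl⟩ := conj_form.1 hy
  rw [rtY_eq hc, conj_pow]

/-- The stabilisers of the lists of prime length `ℓ`. -/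
theorem goodR {y0 : G} {ℓ : ℕ} (hℓ : ℓ.Prime)
    (hc : ∀ g : G, g * y0 ^ ℓ = y0 ^ ℓ * g → g * y0 = y0 * g) (L : Finset G)
    (hL : ∀ u ∈ L, IsConj (u ^ ℓ) (y0 ^ ℓ) → IsConj u y0) {Y : List G} {y : G}
    (hl : Y.length = ℓ) (hy : IsConj y (y0 ^ ℓ)) (hInc : Inc L Y y) :
    GoodR (rtY y0 ℓ) Y y := by
  have hY : Y ≠ [] := by
    rintro rfl
    rw [List.length_nil] at hl
    exact hℓ.pos.ne hl
  intro δ e he
  have hA : ∀ n, SEC.sq Y y n = y⁻¹ * SEC.sq Y y (n + (ℓ : ℕ)) := by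
    intro n
    have := SEC.sq_add hY y n
    rw [hl] at this
    rw [this, inv_mul_cancel_left]
  obtain ⟨d, δ0, hd0, hδ, hgen⟩ := PER.exists_min ⟨ℓ, hℓ.pos, y⁻¹, hA⟩
  obtain ⟨m0, hm0, hym⟩ := hgen _ _ hA
  obtain ⟨m, hm, hδm⟩ := hgen _ _ (PER.stb hY he)
  rcases (Nat.dvd_prime hℓ).1 (Dvd.intro_left _ hm0.symm : d ∣ ℓ) with h1 | h1
  · subst h1
    rw [mul_one] at hm0 hm
    subst hm0
    subst hm
    have h2 := hInc 0
    rw [Function.iterate_zero_apply, PER.head_iter hY, PER.head_eq hY y] at h2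
    have h3 : SEC.sq Y y ((0 + 1 : ℕ) : ℤ) = δ0⁻¹ * SEC.sq Y y 0 := by
      rw [hδ 0, inv_mul_cancel_left]
      norm_num
    rw [h3] at h2
    have h5 : (SEC.sq Y y 0)⁻¹ * (δ0⁻¹ * SEC.sq Y y 0) =
        (SEC.sq Y y 0)⁻¹ * δ0⁻¹ * ((SEC.sq Y y 0)⁻¹)⁻¹ := by
      group
    have h4 : ((SEC.sq Y y 0)⁻¹ * (δ0⁻¹ * SEC.sq Y y 0)) ^ ℓ =
        (SEC.sq Y y 0)⁻¹ * y * ((SEC.sq Y y 0)⁻¹)⁻¹ := by
      rw [h5, conj_pow, inv_pow, ← hym, inv_inv]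
    have h6 : IsConj ((SEC.sq Y y 0)⁻¹ * (δ0⁻¹ * SEC.sq Y y 0)) y0 := by
      refine hL _ h2 ?_
      rw [h4]
      refine IsConj.trans ?_ hy
      exact (isConj_iff.2 ⟨(SEC.sq Y y 0)⁻¹, rfl⟩ : IsConj y _).symm
    have h7 : IsConj δ0⁻¹ y0 := by
      rw [h5] at h6
      exact (isConj_iff.2 ⟨(SEC.sq Y y 0)⁻¹, rfl⟩ : IsConj δ0⁻¹ _).trans h6
    obtain ⟨g, hg⟩ := conj_form.1 h7
    have h8 : y = g * y0 ^ ℓ * g⁻¹ := by
      rw [← conj_pow, hg, inv_pow, ← hym, inv_inv]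
    have h9 : rtY y0 ℓ y = δ0⁻¹ := by
      rw [h8, rtY_eq hc, hg]
    rw [h9, hδm, inv_pow, mul_inv_cancel]
  · subst h1
    have h2 : m0 = 1 := by
      have h3 : m0 * d = 1 * d := by rw [one_mul]; exact hm0.symm
      exact Nat.eq_of_mul_eq_mul_right hd0 h3
    rw [h2, pow_one] at hym
    rw [hδm, hm, mul_comm m d, pow_mul, rtY_pow hc hy, ← hym, inv_pow, inv_mul_cancel]

/-- The transported family. -/
def F1 (y0 : G) (ℓ : ℕ) {m : ℕ} (F : (Fin m → G) → G → ℚ) (a : Fin m → G) (y : G) : ℚ := by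
  classical
  exact if IsConj y (y0 ^ ℓ) then F a (rtY y0 ℓ y) else 0

theorem F1_pos {y0 : G} {ℓ : ℕ} {m : ℕ} (F : (Fin m → G) → G → ℚ) (a : Fin m → G) {y : G}
    (h : IsConj y (y0 ^ ℓ)) : F1 y0 ℓ F a y = F a (rtY y0 ℓ y) := if_pos h

theorem F1_neg {y0 : G} {ℓ : ℕ} {m : ℕ} (F : (Fin m → G) → G → ℚ) (a : Fin m → G) {y : G}
    (h : ¬ IsConj y (y0 ^ ℓ)) : F1 y0 ℓ F a y = 0 := if_neg h

theorem conj_left_iff (g y w : G) : IsConj (g * y * g⁻¹) w ↔ IsConj y w := by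
  have h : IsConj y (g * y * g⁻¹) := isConj_iff.2 ⟨g, rfl⟩
  exact ⟨fun h1 => h.trans h1, fun h1 => h.symm.trans h1⟩

/-- The lists of the powers of a record with lists of length one. -/
theorem pow_lst {M : ℕ} (μ : Rec G (Fin M)) (i : Fin M) (a : G) (h : μ.lst i = [a]) (k : ℕ) :
    (μ ^ k).lst i = (List.range k).map fun t => μ.val ^ t * a := by
  induction k with
  | zero => rfl
  | succ k ih =>
    have hv : (μ ^ k).val = μ.val ^ k := map_pow Rec.valHom μ k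
    rw [pow_succ, Rec.mul_lst, ih, h, hv, List.range_succ, List.map_append]
    rfl

theorem rot_range (h a : G) (k : ℕ) :
    rotL (h ^ (k + 1)) ((List.range (k + 1)).map fun t => h ^ t * a) =
      ((List.range (k + 1)).map fun t => h ^ t * a).map (h * ·) := by
  have e1 : (List.range (k + 1)).map (fun t => h ^ t * a) =
      (h ^ 0 * a) :: (List.range k).map (fun t => h ^ (t + 1) * a) := by
    rw [List.range_succ_eq_map, List.map_cons, List.map_map]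
    rfl
  have e2 : ((List.range (k + 1)).map fun t => h ^ t * a).map (h * ·) =
      (List.range k).map (fun t => h ^ (t + 1) * a) ++ [h ^ (k + 1) * a] := by
    rw [List.range_succ, List.map_append, List.map_append, List.map_map]
    congr 1
    · refine List.map_congr_left fun t _ => ?_
      change h * (h ^ t * a) = h ^ (t + 1) * a
      rw [pow_succ', mul_assoc]
    · change [h * (h ^ k * a)] = _
      rw [pow_succ', mul_assoc]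
  rw [e2, e1]
  change _ ++ [h ^ (k + 1) * (h ^ 0 * a)] = _
  rw [pow_zero, one_mul]

end FWD

open FWD

/-- MODULE FWD -/
theorem t_FWD (hden : S_DEN) (hdeq : S_DEQ) (hstq : S_STQ) (hseg : S_SEG) (hscg : S_SCG)
    (htrg : S_TRG) : S_FWD := by
  classical
  intro G _ n y0 F hinv hcoc hsupp hinf r z hz
  obtain ⟨hsa, hsb, -⟩ := t_SUP
  -- the finite data
  choose T hT1 hT2 using fun X : (Fin (n + 2) → (Matrix (Fin r) (Fin r) (MonoidAlgebra ℤ G))ˣ) =>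
    hsb ℚ G (Fin r) (n + 2) (fun j => zU ℚ (X j))
  obtain ⟨T0, hT0⟩ : ∃ T0 : Finset (Rec G (Fin (n + 2))), T0 = z.support.biUnion T := ⟨_, rfl⟩
  have hT01 : ∀ t ∈ T0, ∀ i, (t.lst i).length = 1 := by
    intro t ht i
    rw [hT0] at ht
    obtain ⟨x, _, hx⟩ := Finset.mem_biUnion.1 ht
    exact hT1 x t hx i
  obtain ⟨L, hL⟩ := hsa G (n + 2) T0 hT01
  obtain ⟨Sb, hSb⟩ : ∃ Sb : Submonoid (Rec G (Fin (n + 2))),
      Sb = Submonoid.closure (T0 : Set (Rec G (Fin (n + 2)))) := ⟨_, rfl⟩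
  obtain ⟨D, hD⟩ : ∃ D : ℚ, D = z.sum fun X q => q * dtr F X := ⟨_, rfl⟩
  rw [← hD]
  by_contra hD0
  -- the prime
  obtain ⟨ℓ, ⟨hℓ, hFden, hc, hV⟩, hbig⟩ := (hinf (L ∪ T0.image Rec.val)).exists_gt
    ((∑ X ∈ z.support, (z X).den) + z.support.card + D.num.natAbs)
  have hden1 : ∀ X ∈ z.support, (z X).den < ℓ := by
    intro X hX
    have := Finset.single_le_sum (f := fun X => (z X).den) (fun _ _ => Nat.zero_le _) hX
    omega
  have hcard : z.support.card < ℓ := by omega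
  have hnum : D.num.natAbs < ℓ := by omega
  have hLV : ∀ u ∈ L, IsConj (u ^ ℓ) (y0 ^ ℓ) → IsConj u y0 := fun u hu =>
    (hV u (Finset.mem_union_left _ hu)).2
  have hTV : ∀ μ ∈ T0, ¬ IsConj μ.val (y0 ^ ℓ) ∧
      (IsConj (μ.val ^ ℓ) (y0 ^ ℓ) → IsConj μ.val y0) := fun μ hμ =>
    hV μ.val (Finset.mem_union_right _ (Finset.mem_image_of_mem _ hμ))
  have : Fact ℓ.Prime := ⟨hℓ⟩
  obtain ⟨ρ, hρ⟩ : ∃ ρ : G → G, ρ = rtY y0 ℓ := ⟨_, rfl⟩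
  have hρc : ∀ γ y : G, ρ (γ * y * γ⁻¹) = γ * ρ y * γ⁻¹ := by
    rw [hρ]
    exact rtY_conj hc
  obtain ⟨E, hE⟩ : ∃ E : (Fin (n + 2) → G) → G → ℚ, E = F1 y0 ℓ F := ⟨_, rfl⟩
  have hEinv : ∀ (g : G) (a : Fin (n + 2) → G) (y : G),
      E (fun i => g * a i) (g * y * g⁻¹) = E a y := by
    intro g a y
    rw [hE]
    by_cases h : IsConj y (y0 ^ ℓ)
    · rw [F1_pos F _ h, F1_pos F _ ((conj_left_iff g y _).2 h), rtY_conj hc, hinv]
    · rw [F1_neg F _ h, F1_neg F _ fun h1 => h ((conj_left_iff g y _).1 h1)]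
  have hEcoc : ∀ (a : Fin (n + 3) → G) (y : G),
      ∑ i : Fin (n + 3), (-1 : ℚ) ^ (i : ℕ) * E (fun j => a (i.succAbove j)) y = 0 := by
    intro a y
    rw [hE]
    by_cases h : IsConj y (y0 ^ ℓ)
    · simp only [F1_pos F _ h]
      exact hcoc a _
    · simp only [F1_neg F _ h, mul_zero, Finset.sum_const_zero]
  have hEs : ∀ a y, E a y ≠ 0 → IsConj y (y0 ^ ℓ) := by
    intro a y h
    by_contra h1
    apply h
    rw [hE]
    exact F1_neg F _ h1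
  have hEden : ∀ a y, ¬ ℓ ∣ (E a y).den := by
    intro a y
    rw [hE]
    by_cases h : IsConj y (y0 ^ ℓ)
    · rw [F1_pos F _ h]
      exact hFden _ _
    · rw [F1_neg F _ h, Rat.den_zero, Nat.dvd_one]
      exact hℓ.ne_one
  obtain ⟨s, hs⟩ := hseg G ρ hρc
  obtain ⟨φ, hφ⟩ : ∃ φ, φ = evN ℓ E s := ⟨_, rfl⟩
  have hSbB : Sb ≤ Bal G (Fin (n + 2)) := fun μ hμ => (hL μ (by rw [← hSb]; exact hμ)).1
  have hgood0 : ∀ μ ∈ Sb, (∀ i, (μ.lst i).length = ℓ) → IsConj μ.val (y0 ^ ℓ) →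
      ∀ i, GoodR ρ (μ.lst i) μ.val := by
    intro μ hμ hl hy i
    rw [hρ]
    refine goodR hℓ hc L hLV (hl i) hy ?_
    refine (hL μ (by rw [← hSb]; exact hμ)).2 (fun j h => ?_) i
    have := hl j
    rw [h, List.length_nil] at this
    exact hℓ.pos.ne this
  have hgood : ∀ μ ∈ Sb, (∀ i, (μ.lst i).length = ℓ) → (∃ a, E a μ.val ≠ 0) →
      ∀ i, GoodR ρ (μ.lst i) μ.val := by
    rintro μ hμ hl ⟨a, ha⟩
    exact hgood0 μ hμ hl (hEs a _ ha)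
  have htr := htrg G (n + 2) ℓ E ρ s hℓ.pos hEinv hρc hs Sb hSbB hgood
  rw [← hφ] at htr
  have hφden : ∀ μ, ¬ ℓ ∣ (φ μ).den := by
    intro μ
    rw [hφ]
    unfold evN
    split_ifs
    · exact hEden _ _
    · rw [Rat.den_zero, Nat.dvd_one]
      exact hℓ.ne_one
  have hUS : ∀ X ∈ z.support, ∀ a b μ, (UX (fun j => zU ℚ_[ℓ] (X j)) a b).coeff μ ≠ 0 →
      μ ∈ T0 := by
    intro X hX a b μ hμ
    rw [hT0]
    exact Finset.mem_biUnion.2 ⟨X, hX, hT2 X a b μ (BFL.supp_bc X a b μ hμ)⟩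
  -- the values at the powers
  have hpow : ∀ μ ∈ T0, φ (μ ^ ℓ) = fst F μ := by
    intro μ hμ
    have hμS : μ ^ ℓ ∈ Sb := by
      rw [hSb]
      exact pow_mem (Submonoid.subset_closure (Finset.mem_coe.2 hμ)) ℓ
    have hval : (μ ^ ℓ).val = μ.val ^ ℓ := map_pow Rec.valHom μ ℓ
    have hlst1 : ∀ i, ∃ a, μ.lst i = [a] := fun i => List.length_eq_one_iff.1 (hT01 μ hμ i)
    choose a ha using hlst1
    have hlst : ∀ i, (μ ^ ℓ).lst i = (List.range ℓ).map fun t => μ.val ^ t * a i := fun i =>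
      pow_lst μ i (a i) (ha i) ℓ
    have hlen : ∀ i, ((μ ^ ℓ).lst i).length = ℓ := by
      intro i
      rw [hlst, List.length_map, List.length_range]
    have hfst : fst F μ = F a μ.val := by
      unfold fst
      rw [if_pos fun i => by rw [ha]; exact List.cons_ne_nil _ _]
      simp only [ha, List.headD_cons]
    have hev : φ (μ ^ ℓ) = E (fun i => s ((μ ^ ℓ).lst i) (μ ^ ℓ).val) (μ ^ ℓ).val := by
      rw [hφ]
      unfold evN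
      rw [if_pos hlen]
    rw [hev, hfst]
    by_cases h : IsConj (μ.val ^ ℓ) (y0 ^ ℓ)
    · have h1 : IsConj μ.val y0 := (hTV μ hμ).2 h
      obtain ⟨g, hg⟩ := conj_form.1 h1
      have h2 : ρ (μ.val ^ ℓ) = μ.val := by
        rw [hρ, ← hg, conj_pow, rtY_eq hc]
      have h3 : ∀ i, s ((μ ^ ℓ).lst i) (μ ^ ℓ).val = a i := by
        intro i
        have h4 := hgood0 (μ ^ ℓ) hμS hlen (by rw [hval]; exact h) i
        obtain ⟨k, hk⟩ : ∃ k, ℓ = k + 1 := ⟨ℓ - 1, by have := hℓ.pos; omega⟩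
        have h5 : rotL (μ ^ ℓ).val ((μ ^ ℓ).lst i) = ((μ ^ ℓ).lst i).map (ρ (μ ^ ℓ).val * ·) := by
          rw [hval, h2, hlst, hk]
          exact rot_range μ.val (a i) k
        have h6 : (μ ^ ℓ).lst i ≠ [] := by
          intro h7
          have := hlen i
          rw [h7, List.length_nil] at this
          exact hℓ.pos.ne this
        rw [hs.per _ _ h6 h4 h5, hlst, hk, List.range_succ_eq_map, List.map_cons,
          List.headD_cons, pow_zero, one_mul]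
      rw [hE]
      simp only [h3]
      rw [hval, F1_pos F _ h, ← hρ, h2]
    · rw [hval, hE, F1_neg F _ h]
      by_contra h1
      obtain ⟨g, hg⟩ := conj_form.1 (hsupp a μ.val (Ne.symm h1))
      exact h (conj_form.2 ⟨g, by rw [← conj_pow, hg]⟩)
  have hstep : ∀ X ∈ z.support, ‖TX φ ℓ (fun j => zU ℚ_[ℓ] (X j)) -
      ((dtr F X : ℚ) : ℚ_[ℓ])‖ ≤ (ℓ : ℝ)⁻¹ := by
    intro X hX
    have h1 := hstq G (n + 1) ℓ T0 hT01 φ (by rw [← hSb]; exact htr) hφden (Fin r)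
      (fun j => zU ℚ_[ℓ] (X j)) (fun i => BFL.niu_zU (X i)) (hUS X hX)
    have h2 : TX (fun μ => φ (μ ^ ℓ)) 1 (fun j => zU ℚ_[ℓ] (X j)) = ((dtr F X : ℚ) : ℚ_[ℓ]) := by
      rw [RGB.TX_congr (fun μ => φ (μ ^ ℓ)) (fst F) _ fun a b μ hμ =>
        hpow μ (hUS X hX a b μ hμ), hden ℚ_[ℓ] G (n + 1) r F hinv]
      exact hdeq.1 ℚ_[ℓ] G (n + 1) r F X
    rw [h2] at h1
    exact h1
  -- the sum
  obtain ⟨η, hη, hηs⟩ := hscg G (n + 1) ℓ E s hℓ.pos hEinv hEcoc hs.inv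
  have hval0 : ∀ X ∈ z.support, TX (fst E) ℓ (fun j => zU ℚ_[ℓ] (X j)) = 0 := by
    intro X hX
    rw [t_TXfst ℚ_[ℓ] G (Fin r) (n + 2) ℓ (fst E) (fun j => zU ℚ_[ℓ] (X j)) hℓ.pos
      (fun μ ν h => BFL.fst_first _ μ ν h), RGB.TX_congr _ (fun _ => 0) _ fun a b μ hμ => ?_]
    · exact BND.TX_zero _ _
    · unfold fst
      split_ifs
      · by_contra h
        exact (hTV μ (hUS X hX a b μ hμ)).1 (hEs _ _ h)
      · rfl
  have hsum0 : ∑ X ∈ z.support, ((z X : ℚ) : ℚ_[ℓ]) * TX φ ℓ (fun j => zU ℚ_[ℓ] (X j)) = 0 := by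
    have h1 := BFL.sum_faces (k := ℚ_[ℓ]) η hη ℓ z hz
    rw [Finsupp.sum] at h1
    rw [← h1]
    refine Finset.sum_congr rfl fun X hX => ?_
    rw [← hηs ℚ_[ℓ] (Fin r) (fun j => zU ℚ_[ℓ] (X j)), ← hφ, hval0 X hX, sub_zero]
  have hsum : (D : ℚ_[ℓ]) = -∑ X ∈ z.support, ((z X : ℚ) : ℚ_[ℓ]) *
      (TX φ ℓ (fun j => zU ℚ_[ℓ] (X j)) - ((dtr F X : ℚ) : ℚ_[ℓ])) := by
    simp only [mul_sub, Finset.sum_sub_distrib, hsum0, zero_sub, neg_neg]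
    rw [hD, Finsupp.sum]
    push_cast
    rfl
  have hℓ0 : (0 : ℝ) < ℓ := by exact_mod_cast hℓ.pos
  have hnorm : ‖(D : ℚ_[ℓ])‖ < 1 := by
    rw [hsum, norm_neg]
    refine (norm_sum_le _ _).trans_lt ?_
    have h1 : ∀ X ∈ z.support, ‖((z X : ℚ) : ℚ_[ℓ]) *
        (TX φ ℓ (fun j => zU ℚ_[ℓ] (X j)) - ((dtr F X : ℚ) : ℚ_[ℓ]))‖ ≤ (ℓ : ℝ)⁻¹ := by
      intro X hX
      rw [norm_mul]
      have h2 := INT.norm_cast_le_one (ℓ := ℓ) (z X) (hden1 X hX)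
      calc _ ≤ 1 * (ℓ : ℝ)⁻¹ := mul_le_mul h2 (hstep X hX) (norm_nonneg _) zero_le_one
        _ = _ := one_mul _
    refine (Finset.sum_le_sum h1).trans_lt ?_
    rw [Finset.sum_const, nsmul_eq_mul, ← div_eq_mul_inv, div_lt_one hℓ0]
    exact_mod_cast hcard
  have h3 : ‖((D.num : ℤ) : ℚ_[ℓ])‖ < 1 := by
    have h4 : ((D.num : ℤ) : ℚ_[ℓ]) = (D : ℚ_[ℓ]) * ((D.den : ℕ) : ℚ_[ℓ]) := by
      have h5 := Rat.mul_den_eq_num D
      have h6 := congrArg (Rat.cast : ℚ → ℚ_[ℓ]) h5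
      push_cast at h6
      exact h6.symm
    rw [h4, norm_mul]
    have h5 : ‖((D.den : ℕ) : ℚ_[ℓ])‖ ≤ 1 := by
      have := Padic.norm_int_le_one (p := ℓ) (D.den : ℤ)
      exact_mod_cast this
    calc ‖(D : ℚ_[ℓ])‖ * ‖((D.den : ℕ) : ℚ_[ℓ])‖ ≤ ‖(D : ℚ_[ℓ])‖ * 1 :=
          mul_le_mul_of_nonneg_left h5 (norm_nonneg _)
      _ < 1 := by rw [mul_one]; exact hnorm
  rw [Padic.norm_intCast_lt_one_iff] at h3
  have h4 : (ℓ : ℕ) ∣ D.num.natAbs := Int.natCast_dvd.1 h3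
  have h5 : D.num.natAbs = 0 := Nat.eq_zero_of_dvd_of_lt h4 hnum
  exact hD0 (Rat.num_eq_zero.1 (Int.natAbs_eq_zero.1 h5))

end Pool.Agent.FJA
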