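import Pool.Agent.FJA.StU

/-!
# LCJ: conjugate powers in finitely generated linear groups over `ℚ`
-/

set_option autoImplicit false

open Matrix Pool.Agent.WhK Pool.Agent.Lib25

noncomputable section

namespace Pool.Agent.FJA

namespace LCJ

/-- the eigenvalues are roots of unity -/
lemma root_unity {N : ℕ} (A B : Matrix (Fin N) (Fin N) ℂ) (hA : IsUnit A) (S : Set ℕ)
    (hS : S.Infinite)
    (h : ∀ p ∈ S, ∃ g : (Matrix (Fin N) (Fin N) ℂ)ˣ,
      B = (g : Matrix (Fin N) (Fin N) ℂ) * A ^ p *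
        ((g⁻¹ : (Matrix (Fin N) (Fin N) ℂ)ˣ) : Matrix (Fin N) (Fin N) ℂ))
    (a : ℂ) (ha : a ∈ spectrum ℂ A) : ∃ m : ℕ, 0 < m ∧ a ^ m = 1 := by
  have hfin : (spectrum ℂ B).Finite := by
    have h1 : spectrum ℂ B ⊆ (B.charpoly.roots.toFinset : Set ℂ) := by
      intro r hr
      rw [Matrix.mem_spectrum_iff_isRoot_charpoly] at hr
      simp only [Finset.mem_coe, Multiset.mem_toFinset]
      exact (Polynomial.mem_roots (Matrix.charpoly_monic B).ne_zero).2 hr
    exact (Finset.finite_toSet _).subset h1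
  have hmap : Set.MapsTo (fun p : ℕ => a ^ p) S (spectrum ℂ B) := by
    intro p hp
    obtain ⟨g, hg⟩ := h p hp
    rw [hg, spectrum.units_conjugate]
    have h1 := spectrum.subset_polynomial_aeval A (Polynomial.X ^ p : Polynomial ℂ)
    have h2 := h1 ⟨a, ha, rfl⟩
    simpa using h2
  obtain ⟨p, hp, q, hq, hpq, he⟩ := hS.exists_ne_map_eq_of_mapsTo hmap hfin
  have ha0 : a ≠ 0 := by
    rintro rfl
    exact spectrum.zero_notMem ℂ hA ha
  rcases lt_or_gt_of_ne hpq with hlt | hlt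
  · refine ⟨q - p, by omega, ?_⟩
    have h3 : a ^ p * a ^ (q - p) = a ^ p * 1 := by
      rw [← pow_add, mul_one, he]
      congr 1
      omega
    exact mul_left_cancel₀ (pow_ne_zero _ ha0) h3
  · refine ⟨p - q, by omega, ?_⟩
    have h3 : a ^ q * a ^ (p - q) = a ^ q * 1 := by
      rw [← pow_add, mul_one, ← he]
      congr 1
      omega
    exact mul_left_cancel₀ (pow_ne_zero _ ha0) h3

/-- a power is unipotent -/
lemma unipC {N : ℕ} (A : Matrix (Fin N) (Fin N) ℂ)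
    (h : ∀ a ∈ spectrum ℂ A, ∃ m : ℕ, 0 < m ∧ a ^ m = 1) :
    ∃ M : ℕ, 0 < M ∧ (A ^ M - 1) ^ N = 0 := by
  classical
  have hmon := Matrix.charpoly_monic A
  have hroots : ∀ a ∈ A.charpoly.roots.toFinset, ∃ m : ℕ, 0 < m ∧ a ^ m = 1 := by
    intro a ha
    refine h a ?_
    rw [Matrix.mem_spectrum_iff_isRoot_charpoly]
    exact (Polynomial.mem_roots hmon.ne_zero).1 (Multiset.mem_toFinset.1 ha)
  choose! m hm0 hm1 using hroots
  refine ⟨∏ a ∈ A.charpoly.roots.toFinset, m a, Finset.prod_pos hm0, ?_⟩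
  set M := ∏ a ∈ A.charpoly.roots.toFinset, m a with hM
  have hone : ∀ a ∈ A.charpoly.roots, a ^ M = 1 := by
    intro a ha
    have ha' := Multiset.mem_toFinset.2 ha
    obtain ⟨d, hd⟩ := Finset.dvd_prod_of_mem m ha'
    rw [hM, hd, pow_mul, hm1 a ha', one_pow]
  have hdvd : A.charpoly ∣ (Polynomial.X ^ M - 1 : Polynomial ℂ) ^ N := by
    have h1 := (IsAlgClosed.splits A.charpoly).eq_prod_roots_of_monic hmon
    have h2 : ((A.charpoly.roots).map fun a => Polynomial.X - Polynomial.C a).prod ∣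
        ((A.charpoly.roots).map fun _ => (Polynomial.X ^ M - 1 : Polynomial ℂ)).prod := by
      refine Multiset.prod_dvd_prod_of_dvd _ _ fun a ha => ?_
      rw [Polynomial.dvd_iff_isRoot]
      simp [Polynomial.IsRoot, hone a ha]
    have h3 : (Multiset.card A.charpoly.roots) = N := by
      rw [← (IsAlgClosed.splits A.charpoly).natDegree_eq_card_roots,
        Matrix.charpoly_natDegree_eq_dim, Fintype.card_fin]
    rw [Multiset.map_const', Multiset.prod_replicate, h3, ← h1] at h2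
    exact h2
  obtain ⟨Q, hQ⟩ := hdvd
  have h4 := congrArg (Polynomial.aeval A) hQ
  rw [map_mul, Matrix.aeval_self_charpoly, zero_mul] at h4
  simpa using h4

lemma unip {N : ℕ} (A B : Matrix (Fin N) (Fin N) ℚ) (hA : IsUnit A) (S : Set ℕ)
    (hS : S.Infinite)
    (h : ∀ p ∈ S, ∃ g : (Matrix (Fin N) (Fin N) ℚ)ˣ,
      B = (g : Matrix (Fin N) (Fin N) ℚ) * A ^ p *
        ((g⁻¹ : (Matrix (Fin N) (Fin N) ℚ)ˣ) : Matrix (Fin N) (Fin N) ℚ)) :
    ∃ M : ℕ, 0 < M ∧ (A ^ M - 1) ^ N = 0 := by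
  let φ : Matrix (Fin N) (Fin N) ℚ →+* Matrix (Fin N) (Fin N) ℂ :=
    (algebraMap ℚ ℂ).mapMatrix
  have hinj : Function.Injective φ := by
    intro X Y hXY
    ext i j
    have h1 := congrFun (congrFun hXY i) j
    simp only [φ, RingHom.mapMatrix_apply, Matrix.map_apply] at h1
    exact (algebraMap ℚ ℂ).injective h1
  obtain ⟨M, hM, h1⟩ := unipC (φ A) (root_unity (φ A) (φ B) (hA.map φ) S hS (by
    intro p hp
    obtain ⟨g, hg⟩ := h p hp
    refine ⟨Units.map φ.toMonoidHom g, ?_⟩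
    rw [hg, map_mul, map_mul, map_pow]
    rfl))
  refine ⟨M, hM, hinj ?_⟩
  rw [map_pow, map_sub, map_pow, map_one, map_zero]
  exact h1

/-- the `p`-integral rational numbers -/
def RR (p : ℕ) [Fact p.Prime] : Subring ℚ := (PadicInt.subring p).comap (Rat.castHom ℚ_[p])

lemma mem_RR {p : ℕ} [Fact p.Prime] (x : ℚ) : x ∈ RR p ↔ ‖(x : ℚ_[p])‖ ≤ 1 := Iff.rfl

lemma den_RR {p : ℕ} [Fact p.Prime] (x : ℚ) (h : ¬ p ∣ x.den) : x ∈ RR p :=
  (mem_RR x).2 (Padic.norm_rat_le_one h)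

lemma dvd_num {p : ℕ} [Fact p.Prime] (x : ℚ) (w : ℚ) (hw : w ∈ RR p) (h : x = p * w) :
    (p : ℤ) ∣ x.num := by
  rw [← Padic.norm_intCast_lt_one_iff]
  have h1 : ((x.num : ℤ) : ℚ_[p]) = (x : ℚ_[p]) * ((x.den : ℤ) : ℚ_[p]) := by
    have h2 : (x.num : ℚ) = x * (x.den : ℤ) := by
      have := Rat.mul_den_eq_num x
      push_cast
      exact this.symm
    exact_mod_cast congrArg (Rat.cast : ℚ → ℚ_[p]) h2
  rw [h1, norm_mul, h]
  push_cast
  rw [norm_mul]
  have h3 : ‖((p : ℕ) : ℚ_[p])‖ < 1 := Padic.norm_p_lt_one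
  have h4 : ‖((w : ℚ) : ℚ_[p])‖ ≤ 1 := (mem_RR w).1 hw
  have h5 : ‖((x.den : ℕ) : ℚ_[p])‖ ≤ 1 := by
    have := Padic.norm_int_le_one (p := p) (x.den : ℤ)
    simpa using this
  subst h
  calc ‖((p : ℕ) : ℚ_[p])‖ * ‖((w : ℚ) : ℚ_[p])‖ * ‖((((p : ℚ) * w).den : ℕ) : ℚ_[p])‖
      ≤ ‖((p : ℕ) : ℚ_[p])‖ * 1 * 1 := by
        refine mul_le_mul (mul_le_mul_of_nonneg_left h4 (norm_nonneg _)) h5 (norm_nonneg _)
          (by positivity)
    _ < 1 := by rw [mul_one, mul_one]; exact h3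

/-- the congruence for the powers of a unipotent matrix -/
lemma cong {N p : ℕ} [hp : Fact p.Prime] (hNp : N ≤ p) (U : Matrix (Fin N) (Fin N) ℚ)
    (hU : U ∈ (RR p).matrix (n := Fin N)) (hn : (U - 1) ^ N = 0) :
    ∃ W ∈ (RR p).matrix (n := Fin N), U ^ p = 1 + (p : Matrix (Fin N) (Fin N) ℚ) * W := by
  let R := (RR p).matrix (n := Fin N)
  let u : R := ⟨U, hU⟩
  have h1 : Commute (u - 1) (1 : R) := Commute.one_right _
  obtain ⟨r, hr⟩ := h1.exists_add_pow_prime_eq hp.out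
  have h2 : (u - 1) ^ p = 0 := by
    apply Subtype.ext
    have h3 : (U - 1) ^ p = 0 := by
      obtain ⟨k, rfl⟩ := Nat.exists_eq_add_of_le hNp
      rw [pow_add, hn, zero_mul]
    exact h3
  rw [sub_add_cancel, h2, one_pow, zero_add, mul_one, mul_assoc] at hr
  refine ⟨(((u - 1) * r : R) : Matrix (Fin N) (Fin N) ℚ), Subtype.property _, ?_⟩
  have h4 := congrArg (Subtype.val) hr
  exact h4

end LCJ

open LCJ in
theorem t_LCJ : S_LCJ := by
  classical
  intro Γ _ hfg N ρ hρ y hy z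
  by_contra hinf
  have hinf' : {p : ℕ | p.Prime ∧ IsConj z (y ^ p)}.Infinite := hinf
  obtain ⟨M, hM, hU⟩ := unip (ρ y : Matrix (Fin N) (Fin N) ℚ) (ρ z : Matrix (Fin N) (Fin N) ℚ)
    (ρ y).isUnit _ hinf' (by
      rintro p ⟨-, hc⟩
      obtain ⟨c, hc⟩ := isConj_iff.1 hc.symm
      refine ⟨ρ c, ?_⟩
      rw [← hc, map_mul, map_mul, map_pow, map_inv]
      rfl)
  -- integrality
  obtain ⟨S, hS1, hS2⟩ := Group.fg_iff.1 hfg
  set D : ℕ := ∏ s ∈ hS2.toFinset, ∏ i : Fin N, ∏ j : Fin N,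
    ((ρ s : Matrix (Fin N) (Fin N) ℚ) i j).den *
      ((ρ s⁻¹ : Matrix (Fin N) (Fin N) ℚ) i j).den with hD
  have hD0 : 0 < D := by
    refine Finset.prod_pos fun s _ => Finset.prod_pos fun i _ => Finset.prod_pos fun j _ => ?_
    exact Nat.mul_pos (Rat.den_pos _) (Rat.den_pos _)
  have hint : ∀ p : ℕ, ∀ hp : Fact p.Prime, D < p → ∀ g : Γ,
      (ρ g : Matrix (Fin N) (Fin N) ℚ) ∈ (RR p).matrix (n := Fin N) := by
    intro p hp hDp
    let H : Subgroup Γ :=
      { carrier := {g | (ρ g : Matrix (Fin N) (Fin N) ℚ) ∈ (RR p).matrix (n := Fin N) ∧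
          (ρ g⁻¹ : Matrix (Fin N) (Fin N) ℚ) ∈ (RR p).matrix (n := Fin N)}
        mul_mem' := by
          rintro a b ⟨ha1, ha2⟩ ⟨hb1, hb2⟩
          refine ⟨?_, ?_⟩
          · rw [map_mul]
            exact Subring.mul_mem _ ha1 hb1
          · rw [_root_.mul_inv_rev, map_mul]
            exact Subring.mul_mem _ hb2 ha2
        one_mem' := by
          refine ⟨?_, ?_⟩
          · rw [map_one]
            exact Subring.one_mem _
          · rw [inv_one, map_one]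
            exact Subring.one_mem _
        inv_mem' := by
          rintro a ⟨ha1, ha2⟩
          refine ⟨ha2, ?_⟩
          rw [inv_inv]
          exact ha1 }
    have hH : H = ⊤ := by
      rw [eq_top_iff, ← hS1, Subgroup.closure_le]
      intro s hs
      have key : ∀ i j, ¬ p ∣ ((ρ s : Matrix (Fin N) (Fin N) ℚ) i j).den *
          ((ρ s⁻¹ : Matrix (Fin N) (Fin N) ℚ) i j).den := by
        intro i j hdv
        have h1 : p ∣ D := by
          refine hdv.trans ?_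
          refine (Finset.dvd_prod_of_mem (fun j => ((ρ s : Matrix (Fin N) (Fin N) ℚ) i j).den *
            ((ρ s⁻¹ : Matrix (Fin N) (Fin N) ℚ) i j).den) (Finset.mem_univ j)).trans ?_
          refine (Finset.dvd_prod_of_mem (fun i => ∏ j : Fin N,
            ((ρ s : Matrix (Fin N) (Fin N) ℚ) i j).den *
            ((ρ s⁻¹ : Matrix (Fin N) (Fin N) ℚ) i j).den) (Finset.mem_univ i)).trans ?_
          exact Finset.dvd_prod_of_mem (fun s => ∏ i : Fin N, ∏ j : Fin N,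
            ((ρ s : Matrix (Fin N) (Fin N) ℚ) i j).den *
            ((ρ s⁻¹ : Matrix (Fin N) (Fin N) ℚ) i j).den) (hS2.mem_toFinset.2 hs)
        exact absurd (Nat.le_of_dvd hD0 h1) (by omega)
      refine ⟨fun i j => den_RR _ fun h => key i j (h.mul_right _),
        fun i j => den_RR _ fun h => key i j (h.mul_left _)⟩
    intro g
    have : g ∈ H := by rw [hH]; trivial
    exact this.1
  -- the matrix of `z ^ M` is `1`
  have hz : (ρ z : Matrix (Fin N) (Fin N) ℚ) ^ M = 1 := by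
    have hz' : (ρ z : Matrix (Fin N) (Fin N) ℚ) ^ M - 1 = 0 := by
      ext i j
      by_contra hne
      set e : ℚ := ((ρ z : Matrix (Fin N) (Fin N) ℚ) ^ M - 1) i j with he
      have hne' : e ≠ 0 := hne
      obtain ⟨p, ⟨hp, hc⟩, hlt⟩ := hinf'.exists_gt (D + N + e.num.natAbs)
      have : Fact p.Prime := ⟨hp⟩
      have hI := hint p ⟨hp⟩ (by omega)
      obtain ⟨c, hc⟩ := isConj_iff.1 hc.symm
      have hUm : (ρ y : Matrix (Fin N) (Fin N) ℚ) ^ M ∈ (RR p).matrix (n := Fin N) :=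
        Subring.pow_mem _ (hI y) M
      obtain ⟨W, hW, hWp⟩ := cong (by omega) _ hUm hU
      have h1 : (ρ z : Matrix (Fin N) (Fin N) ℚ) ^ M =
          (ρ c : Matrix (Fin N) (Fin N) ℚ) * ((ρ y : Matrix (Fin N) (Fin N) ℚ) ^ M) ^ p *
            (ρ c⁻¹ : Matrix (Fin N) (Fin N) ℚ) := by
        have h2 : z ^ M = c * (y ^ M) ^ p * c⁻¹ := by
          rw [← hc, conj_pow, ← pow_mul, ← pow_mul, mul_comm p M]
        have h3 := congrArg (fun g : Γ => (ρ g : Matrix (Fin N) (Fin N) ℚ)) h2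
        simp only [map_pow, map_mul, Units.val_pow_eq_pow_val, Units.val_mul] at h3
        exact h3
      have hcc : (ρ c : Matrix (Fin N) (Fin N) ℚ) * (ρ c⁻¹ : Matrix (Fin N) (Fin N) ℚ) = 1 := by
        rw [← Units.val_mul, ← map_mul, mul_inv_cancel, map_one, Units.val_one]
      have h4 : (ρ z : Matrix (Fin N) (Fin N) ℚ) ^ M - 1 =
          (p : Matrix (Fin N) (Fin N) ℚ) * ((ρ c : Matrix (Fin N) (Fin N) ℚ) * W *
            (ρ c⁻¹ : Matrix (Fin N) (Fin N) ℚ)) := by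
        have hcomm : (ρ c : Matrix (Fin N) (Fin N) ℚ) * (p : Matrix (Fin N) (Fin N) ℚ) =
            (p : Matrix (Fin N) (Fin N) ℚ) * (ρ c : Matrix (Fin N) (Fin N) ℚ) :=
          (Nat.cast_commute p _).symm
        rw [h1, hWp, mul_add, add_mul, mul_one, hcc, add_sub_cancel_left, ← mul_assoc, hcomm]
        simp only [mul_assoc]
      have h5 : (ρ c : Matrix (Fin N) (Fin N) ℚ) * W * (ρ c⁻¹ : Matrix (Fin N) (Fin N) ℚ) ∈
          (RR p).matrix (n := Fin N) :=
        Subring.mul_mem _ (Subring.mul_mem _ (hI c) hW) (hI c⁻¹)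
      have h6 : e = p * ((ρ c : Matrix (Fin N) (Fin N) ℚ) * W *
          (ρ c⁻¹ : Matrix (Fin N) (Fin N) ℚ)) i j := by
        rw [he, h4, ← nsmul_eq_mul, Matrix.smul_apply, nsmul_eq_mul]
      have h7 := dvd_num e _ (h5 i j) h6
      have h8 : p ≤ e.num.natAbs := by
        refine Nat.le_of_dvd (Int.natAbs_pos.2 (Rat.num_ne_zero.2 hne')) ?_
        exact Int.natCast_dvd.1 h7
      omega
    exact sub_eq_zero.1 hz'
  -- conclusion
  have hzM : z ^ M = 1 := by
    apply hρ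
    rw [map_one, map_pow]
    apply Units.ext
    rw [Units.val_pow_eq_pow_val, hz, Units.val_one]
  obtain ⟨p, hp, hc⟩ := hinf'.nonempty
  obtain ⟨c, hc⟩ := isConj_iff.1 hc
  apply hy
  rw [isOfFinOrder_iff_pow_eq_one]
  refine ⟨p * M, Nat.mul_pos hp.pos hM, ?_⟩
  rw [pow_mul, ← hc, conj_pow, hzM, mul_one, mul_inv_cancel]

end Pool.Agent.FJA
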