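import Pool.Agent.FJA.StV

/-!
# Commuting with a `p`-th power in a group of matrices over a field of characteristic zero
-/

set_option autoImplicit false

open Matrix Polynomial

noncomputable section

namespace Pool.Agent.FJA.LCK

variable {K : Type} [Field K]

/-- Conjugation by an invertible matrix. -/
def conj {N : ℕ} (Y : GL (Fin N) K) : Module.End K (Matrix (Fin N) (Fin N) K) :=
  LinearMap.mulLeft K (Y : Matrix (Fin N) (Fin N) K) *
    LinearMap.mulRight K ((Y⁻¹ : GL (Fin N) K) : Matrix (Fin N) (Fin N) K)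

theorem conj_apply {N : ℕ} (Y : GL (Fin N) K) (A : Matrix (Fin N) (Fin N) K) :
    conj Y A = (Y : Matrix (Fin N) (Fin N) K) * (A * ((Y⁻¹ : GL (Fin N) K) : Matrix (Fin N) (Fin N) K)) := rfl

theorem conj_gl {N : ℕ} (Y A : GL (Fin N) K) :
    conj Y (A : Matrix (Fin N) (Fin N) K) = ((Y * (A * Y⁻¹) : GL (Fin N) K) : Matrix (Fin N) (Fin N) K) := by
  rw [conj_apply, Units.val_mul, Units.val_mul]

theorem conj_pow {N : ℕ} (Y : GL (Fin N) K) (n : ℕ) (A : GL (Fin N) K) :
    (conj Y ^ n) (A : Matrix (Fin N) (Fin N) K) =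
      ((Y ^ n * (A * (Y ^ n)⁻¹) : GL (Fin N) K) : Matrix (Fin N) (Fin N) K) := by
  induction n with
  | zero => simp
  | succ n ih =>
    rw [pow_succ', Module.End.mul_apply, ih, conj_gl]
    congr 1
    rw [pow_succ']
    group

theorem key [CharZero K] {N : ℕ} (p : ℕ) (hp : p.Prime)
    (T : Module.End K (Matrix (Fin N) (Fin N) K)) (A : Matrix (Fin N) (Fin N) K)
    (h : (T ^ p) A = A) (hne : T A ≠ A) :
    ∃ ζ : AlgebraicClosure K, aeval ζ (minpoly K T) = 0 ∧ ζ ^ p = 1 ∧ ζ ≠ 1 := by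
  set P : K[X] := ∑ i ∈ Finset.range p, X ^ i with hP
  have h3 : P * (X - 1) = X ^ p - 1 := by
    rw [hP]
    exact geom_sum_mul X p
  have hnc : ¬ IsCoprime P (minpoly K T) := by
    rintro ⟨a, b, hab⟩
    apply hne
    have hPhi : (aeval T P) (T A - A) = 0 := by
      have h4 : (aeval T (P * (X - 1))) A = (aeval T (X ^ p - 1 : K[X])) A := by rw [h3]
      rw [map_mul, Module.End.mul_apply] at h4
      simp only [map_sub, map_pow, aeval_X, map_one, LinearMap.sub_apply, Module.End.one_apply] at h4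
      rw [h, sub_self] at h4
      rw [← h4, map_sub]
    have h5 : (aeval T (a * P + b * minpoly K T)) (T A - A) = T A - A := by
      rw [hab, map_one, Module.End.one_apply]
    rw [map_add, map_mul, map_mul, minpoly.aeval, mul_zero, add_zero, Module.End.mul_apply, hPhi,
      map_zero] at h5
    exact (sub_eq_zero.1 h5.symm)
  rw [isCoprime_iff_aeval_ne_zero_of_isAlgClosed K (AlgebraicClosure K)] at hnc
  push Not at hnc
  obtain ⟨ζ, h1, h2⟩ := hnc
  refine ⟨ζ, h2, ?_, ?_⟩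
  · have h6 : aeval ζ (P * (X - 1)) = aeval ζ (X ^ p - 1 : K[X]) := by rw [h3]
    rw [map_mul, h1, zero_mul, map_sub, map_pow, aeval_X, map_one] at h6
    exact (sub_eq_zero.1 h6.symm)
  · rintro rfl
    rw [hP, map_sum] at h1
    simp only [map_pow, aeval_X, one_pow, Finset.sum_const, Finset.card_range, nsmul_eq_mul,
      mul_one] at h1
    have : CharZero (AlgebraicClosure K) := charZero_of_injective_algebraMap (algebraMap K _).injective
    exact hp.ne_zero (Nat.cast_eq_zero.1 h1)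

end Pool.Agent.FJA.LCK

namespace Pool.Agent.FJA

open LCK in
theorem t_LCK : S_LCK := by
  intro Γ _ K _ _ N ρ hρ y
  have hint : IsIntegral K (conj (ρ y)) := Algebra.IsIntegral.isIntegral _
  have hmu0 : minpoly K (conj (ρ y)) ≠ 0 := minpoly.ne_zero hint
  have hfin : (⋃ ζ ∈ (minpoly K (conj (ρ y))).rootSet (AlgebraicClosure K),
      {p : ℕ | p.Prime ∧ ζ ^ p = 1 ∧ ζ ≠ 1}).Finite := by
    refine Set.Finite.biUnion (rootSet_finite _ _) fun ζ _ => ?_
    apply Set.Subsingleton.finite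
    rintro p ⟨hp, hp1, hz⟩ q ⟨hq, hq1, -⟩
    by_contra hpq
    apply hz
    have hc : Nat.Coprime p q := (Nat.coprime_primes hp hq).2 hpq
    have h1 : orderOf ζ ∣ 1 := by
      rw [← hc]
      exact Nat.dvd_gcd (orderOf_dvd_of_pow_eq_one hp1) (orderOf_dvd_of_pow_eq_one hq1)
    exact orderOf_eq_one_iff.1 (Nat.dvd_one.1 h1)
  refine hfin.subset ?_
  rintro p ⟨hp, g, hg1, hg2⟩
  have h1 : (conj (ρ y) ^ p) ((ρ g : GL (Fin N) K) : Matrix (Fin N) (Fin N) K) =
      ((ρ g : GL (Fin N) K) : Matrix (Fin N) (Fin N) K) := by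
    rw [LCK.conj_pow, ← map_pow, ← map_inv, ← map_mul, ← map_mul]
    congr 2
    rw [← mul_assoc, ← hg1]
    group
  have h2 : conj (ρ y) ((ρ g : GL (Fin N) K) : Matrix (Fin N) (Fin N) K) ≠
      ((ρ g : GL (Fin N) K) : Matrix (Fin N) (Fin N) K) := by
    intro h2
    apply hg2
    apply hρ
    rw [conj_gl] at h2
    have h3 : ρ y * (ρ g * (ρ y)⁻¹) = ρ g := Units.ext h2
    rw [map_mul, map_mul]
    calc ρ g * ρ y = (ρ y * (ρ g * (ρ y)⁻¹)) * ρ y := by rw [h3]
      _ = ρ y * ρ g := by group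
  obtain ⟨ζ, hz1, hz2, hz3⟩ := key p hp (conj (ρ y)) _ h1 h2
  refine Set.mem_biUnion (x := ζ) ?_ ⟨hp, hz2, hz3⟩
  rw [mem_rootSet]
  exact ⟨hmu0, hz1⟩

end Pool.Agent.FJA
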