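import Pool.Agent.FJA.StV

/-!
# Module LNK: families of integral cocycles on linear groups over fields of characteristic
zero are admissible
-/

set_option autoImplicit false

noncomputable section

namespace Pool.Agent.FJA

namespace LNK

theorem cinv {G : Type} [Group G] {n : ℕ} {F : (Fin (n + 1) → G) → G → ℤ} (hF : CocFam n F)
    (H : Subgroup G) (y : H) :
    CInv y (fun a : Fin (n + 1) → H => ((F (fun i => (a i : G)) (y : G) : ℤ) : ℚ)) := by
  intro g a hg
  have h1 : (g : G) * (y : G) * (g : G)⁻¹ = (y : G) := by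
    have h2 : (g : G) * (y : G) = (y : G) * (g : G) := congrArg (fun x : H => (x : G)) hg
    rw [h2, mul_inv_cancel_right]
  have h3 := hF.inv (g : G) (fun i => (a i : G)) (y : G)
  rw [h1] at h3
  have h4 : (fun i => ((g * a i : H) : G)) = fun i => (g : G) * (a i : G) := by
    funext i
    exact Subgroup.coe_mul H g (a i)
  show ((F (fun i => ((g * a i : H) : G)) (y : G) : ℤ) : ℚ) = _
  rw [h4, h3]

theorem cobE_zero {G : Type} {n : ℕ} (a : Fin (n + 1) → G) :
    cobE (0 : (Fin n → G) → ℚ) a = 0 := by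
  unfold cobE
  simp

theorem coc {G : Type} [Group G] {n : ℕ} {F : (Fin (n + 1) → G) → G → ℤ} (hF : CocFam n F)
    (H : Subgroup G) (y : H) (a : Fin (n + 2) → H) :
    cobE (fun a : Fin (n + 1) → H => ((F (fun i => (a i : G)) (y : G) : ℤ) : ℚ)) a = 0 := by
  unfold cobE
  have h := hF.coc (fun i => (a i : G)) (y : G)
  have h2 := congrArg (fun x : ℤ => (x : ℚ)) h
  simp only [Int.cast_sum, Int.cast_mul, Int.cast_pow, Int.cast_neg, Int.cast_one,
    Int.cast_zero] at h2
  exact h2

/-- equal `p`-th powers for large `p` -/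
theorem eq_of_pow {Γ : Type} [Group Γ] {p : ℕ} {y : Γ}
    (hc : ∀ g : Γ, g * y ^ p = y ^ p * g → g * y = y * g)
    (ht : ∀ x : Γ, x ^ p = 1 → x = 1) {z : Γ} (h : z ^ p = y ^ p) : z = y := by
  have h1 : z * y = y * z := by
    apply hc
    rw [← h]
    exact (Commute.refl z).pow_right p
  have h2 : (z * y⁻¹) ^ p = 1 := by
    have hcom : Commute z y⁻¹ := (show Commute z y from h1).inv_right
    rw [hcom.mul_pow, inv_pow, h, mul_inv_cancel]
  exact mul_inv_eq_one.1 (ht _ h2)

theorem conj_of_pow {Γ : Type} [Group Γ] {p : ℕ} {y : Γ}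
    (hc : ∀ g : Γ, g * y ^ p = y ^ p * g → g * y = y * g)
    (ht : ∀ x : Γ, x ^ p = 1 → x = 1) {z : Γ} (h : IsConj (z ^ p) (y ^ p)) : IsConj z y := by
  rw [isConj_iff] at h ⊢
  obtain ⟨c, hc'⟩ := h
  refine ⟨c, eq_of_pow hc ht ?_⟩
  rw [conj_pow, hc']

end LNK

open LNK in
theorem t_LNK (hltk : S_LTK) (hlck : S_LCK) (hljk : S_LJK) : S_LNK := by
  intro G _ K _ _ n N ρ hρ F hF
  refine ⟨?_, ?_⟩
  · intro g a y
    show ((F (fun i => g * a i) (g * y * g⁻¹) : ℤ) : ℚ) = ((F a y : ℤ) : ℚ)
    rw [hF.inv]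
  · intro H hH y hy
    have hfg : Group.FG H := (Group.fg_iff_subgroup_fg H).2 hH
    have hinj : Function.Injective (ρ.comp H.subtype) := by
      intro a b hab
      exact Subtype.ext (hρ hab)
    obtain ⟨hbdd, htor⟩ := hltk H K N (ρ.comp H.subtype) hinj
    have hcen := hlck H K N (ρ.comp H.subtype) hinj y
    refine ⟨fun a : Fin (n + 1) → H => ((F (fun i => (a i : G)) (y : G) : ℤ) : ℚ), 0, cinv hF H y,
      fun _ _ _ => rfl, coc hF H y, ?_, ?_⟩
    · intro a
      rw [cobE_zero, add_zero]
    · by_cases hfin : IsOfFinOrder y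
      · right; left
        refine ⟨hfin, ⟨1, one_ne_zero, fun a => ?_⟩, Or.inr ?_⟩
        · rw [Rat.den_intCast]
        · have h1 : orderOf y ≠ 1 := fun h => hy (orderOf_eq_one_iff.1 h)
          obtain ⟨p, hp, hpd⟩ := Nat.exists_prime_and_dvd h1
          exact ⟨p, hp, hpd, hbdd p hp⟩
      · right; right; left
        intro V
        have hbad : (⋃ z ∈ V, {p : ℕ | p.Prime ∧ IsConj z (y ^ p)}).Finite := by
          apply Set.Finite.biUnion (Finset.finite_toSet V)
          intro z _
          exact hljk H K N (ρ.comp H.subtype) hinj y hfin z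
        have hinf := Nat.infinite_setOfPred_prime.sdiff (hbad.union (htor.union hcen))
        refine hinf.mono ?_
        rintro p ⟨hp, hpn⟩
        rw [Set.mem_union, not_or, Set.mem_union, not_or] at hpn
        obtain ⟨hpn1, hpn2, hpn3⟩ := hpn
        have hp' : p.Prime := hp
        have hc : ∀ g : H, g * y ^ p = y ^ p * g → g * y = y * g := by
          intro g hg
          by_contra hne
          exact hpn3 ⟨hp', g, hg, hne⟩
        have ht : ∀ x : H, x ^ p = 1 → x = 1 := by
          intro x hx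
          by_contra hne
          exact hpn2 ⟨hp', x, hx, hne⟩
        refine ⟨hp', ?_, hc, ?_⟩
        · intro a
          rw [Rat.den_intCast]
          exact hp'.one_lt.ne' ∘ Nat.dvd_one.1
        · intro z hz
          refine ⟨fun hconj => hpn1 ?_, fun h => conj_of_pow hc ht h⟩
          rw [Set.mem_iUnion₂]
          exact ⟨z, hz, hp', hconj⟩

end Pool.Agent.FJA
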