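import Pool.Agent.FJA.StU

/-!
LTB: torsion in `GL_N(ℚ)`.
-/

set_option autoImplicit false

open scoped BigOperators
open Polynomial

namespace Pool.Agent.FJA

namespace LTB

theorem key {N : ℕ} (A : Matrix (Fin N) (Fin N) ℚ) (p k : ℕ) (hp : p.Prime)
    (h1 : A ^ p ^ (k + 1) = 1) (h2 : A ^ p ^ k ≠ 1) : p ^ k * (p - 1) ≤ N := by
  haveI : Fact p.Prime := ⟨hp⟩
  have hm : minpoly ℚ A ∣ cyclotomic (p ^ (k + 1)) ℚ * (X ^ p ^ k - 1) := by
    rw [cyclotomic_prime_pow_mul_X_pow_sub_one]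
    apply minpoly.dvd
    simp [h1]
  have hirr : Irreducible (cyclotomic (p ^ (k + 1)) ℚ) :=
    cyclotomic.irreducible_rat (pow_pos hp.pos _)
  have hd : cyclotomic (p ^ (k + 1)) ℚ ∣ minpoly ℚ A := by
    by_contra hn
    have hc : IsCoprime (cyclotomic (p ^ (k + 1)) ℚ) (minpoly ℚ A) :=
      hirr.coprime_iff_not_dvd.2 hn
    have h3 : minpoly ℚ A ∣ X ^ p ^ k - 1 := hc.symm.dvd_of_dvd_mul_left hm
    obtain ⟨q, hq⟩ := h3
    have h4 : aeval A (X ^ p ^ k - 1 : ℚ[X]) = 0 := by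
      rw [hq, map_mul, minpoly.aeval, zero_mul]
    apply h2
    rw [map_sub, map_pow, aeval_X, map_one] at h4
    exact sub_eq_zero.1 h4
  have hd2 := hd.trans (Matrix.minpoly_dvd_charpoly A)
  have hle := natDegree_le_of_dvd hd2 (Matrix.charpoly_monic A).ne_zero
  rw [natDegree_cyclotomic, Nat.totient_prime_pow hp (Nat.succ_pos k),
    Matrix.charpoly_natDegree_eq_dim, Fintype.card_fin] at hle
  simpa using hle

theorem keyG {Γ : Type} [Group Γ] {N : ℕ} (ρ : Γ →* Matrix.GeneralLinearGroup (Fin N) ℚ)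
    (hρ : Function.Injective ρ) (x : Γ) (p k : ℕ) (hp : p.Prime)
    (h1 : x ^ p ^ (k + 1) = 1) (h2 : x ^ p ^ k ≠ 1) : p ^ k * (p - 1) ≤ N := by
  apply key ((ρ x : Matrix.GeneralLinearGroup (Fin N) ℚ) : Matrix (Fin N) (Fin N) ℚ) p k hp
  · have h3 : (ρ x) ^ p ^ (k + 1) = 1 := by rw [← map_pow, h1, map_one]
    have h4 := congrArg (fun u : Matrix.GeneralLinearGroup (Fin N) ℚ =>
      (u : Matrix (Fin N) (Fin N) ℚ)) h3
    simpa using h4
  · intro h3
    apply h2
    apply hρ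
    rw [map_one, map_pow]
    apply Units.ext
    simpa using h3

end LTB

theorem t_LTB : S_LTB := by
  intro Γ _ N ρ hρ
  constructor
  · intro p hp
    refine ⟨N + 1, ?_⟩
    intro g hg hdvd
    obtain ⟨d, hd⟩ := hdvd
    have hpos : 0 < orderOf g := hg.orderOf_pos
    have hd0 : d ≠ 0 := by
      rintro rfl
      rw [mul_zero] at hd
      omega
    have h1 : (g ^ d) ^ p ^ (N + 1) = 1 := by
      rw [← pow_mul, mul_comm, ← hd, pow_orderOf_eq_one]
    have h2 : (g ^ d) ^ p ^ N ≠ 1 := by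
      intro h
      rw [← pow_mul] at h
      have h3 := orderOf_dvd_of_pow_eq_one h
      rw [hd, pow_succ] at h3
      have h4 : p ^ N * p * d ≤ d * p ^ N :=
        Nat.le_of_dvd (Nat.mul_pos (Nat.pos_of_ne_zero hd0) (pow_pos hp.pos _)) h3
      have h5 : 0 < p ^ N * d := Nat.mul_pos (pow_pos hp.pos _) (Nat.pos_of_ne_zero hd0)
      have h6 := hp.two_le
      nlinarith
    have h3 := LTB.keyG ρ hρ (g ^ d) p N hp h1 h2
    have h4 : N < p ^ N := Nat.lt_pow_self hp.one_lt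
    have h5 : 1 ≤ p - 1 := by have := hp.two_le; omega
    have h6 : p ^ N * 1 ≤ p ^ N * (p - 1) := Nat.mul_le_mul_left _ h5
    omega
  · intro p hp hN x hx
    by_contra hne
    have h3 := LTB.keyG ρ hρ x p 0 hp (by simpa using hx) (by simpa using hne)
    rw [pow_zero, one_mul] at h3
    omega

end Pool.Agent.FJA
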