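import Pool.Agent.FJA.StV

/-!
# Module LTK: torsion in finitely generated linear groups over fields of characteristic zero
-/

set_option autoImplicit false

open Matrix

noncomputable section

namespace Pool.Agent.FJA

namespace LTK

/-- The order of an element of finite order is not changed by a map whose kernel has no torsion. -/
lemma orderOf_eq {Γ Γ' : Type} [Group Γ] [Group Γ'] (f : Γ →* Γ')
    (hf : ∀ x : Γ, IsOfFinOrder x → f x = 1 → x = 1) (x : Γ) (hx : IsOfFinOrder x) :
    orderOf (f x) = orderOf x := by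
  apply Nat.dvd_antisymm
  · exact orderOf_map_dvd f x
  · apply orderOf_dvd_of_pow_eq_one
    apply hf _ (IsOfFinOrder.pow hx)
    rw [map_pow, pow_orderOf_eq_one]

end LTK

open LTK in
/-- LTK: torsion in finitely generated linear groups. -/
theorem t_LTK (hltb : S_LTB) (hspc : S_SPC) : S_LTK := by
  intro Γ _ _ K _ _ N ρ hρ
  by_cases htriv : ∀ h : Γ, h = 1
  · constructor
    · intro p hp
      refine ⟨1, ?_⟩
      intro g _ hdvd
      rw [htriv g, orderOf_one, pow_one] at hdvd
      exact hp.one_lt.ne' (Nat.dvd_one.1 hdvd)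
    · convert Set.finite_empty
      ext p
      simp only [Set.mem_ofPred_eq, Set.mem_empty_iff_false, iff_false]
      rintro ⟨_, x, _, hx⟩
      exact hx (htriv x)
  · push Not at htriv
    obtain ⟨h, hh⟩ := htriv
    obtain ⟨N', ψ, _, hker, _⟩ := hspc Γ K N ρ hρ h hh
    obtain ⟨hA, hB⟩ := hltb ψ.range N' ψ.range.subtype (Subgroup.subtype_injective _)
    have hker' : ∀ x : Γ, IsOfFinOrder x → ψ.rangeRestrict x = 1 → x = 1 := by
      intro x hx h1
      apply hker x hx
      have h2 := congrArg (fun u : ψ.range => (u : GL (Fin N') ℚ)) h1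
      simpa using h2
    constructor
    · intro p hp
      obtain ⟨c, hc⟩ := hA p hp
      refine ⟨c, ?_⟩
      intro g hg hdvd
      apply hc (ψ.rangeRestrict g) (MonoidHom.isOfFinOrder _ hg)
      rwa [orderOf_eq ψ.rangeRestrict hker' g hg]
    · apply (Set.finite_le_nat (N' + 1)).subset
      rintro p ⟨hp, x, hx, hx1⟩
      by_contra hlt
      have hlt' : N' + 1 < p := not_le.1 hlt
      apply hx1
      have hfo : IsOfFinOrder x := isOfFinOrder_iff_pow_eq_one.2 ⟨p, hp.pos, hx⟩
      apply hker' x hfo
      apply hB p hp hlt'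
      rw [← map_pow, hx, map_one]

end Pool.Agent.FJA
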