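import Pool.Agent.FJA.StU
import Pool.Agent.FJA.P_TFI

/-!
# Naturality of `dtr` and of cycles
-/

set_option autoImplicit false

open Matrix Pool.Agent.WhK Pool.Agent.Lib25

noncomputable section

namespace Pool.Agent.FJA

namespace NAT

/-- coefficients of the image of an element of the group ring -/
theorem coeff_map {G : Type} [Group G] (H : Subgroup G) (x : MonoidAlgebra ℤ H) (h : H) :
    ((MonoidAlgebra.mapDomainRingHom ℤ H.subtype) x).coeff (h : G) = x.coeff h := by
  rw [MonoidAlgebra.mapDomainRingHom_apply]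
  exact Finsupp.mapDomain_apply Subtype.val_injective x.coeff h

theorem coeff_map_of_notMem {G : Type} [Group G] (H : Subgroup G) (x : MonoidAlgebra ℤ H) (g : G)
    (hg : g ∉ H) : ((MonoidAlgebra.mapDomainRingHom ℤ H.subtype) x).coeff g = 0 := by
  rw [MonoidAlgebra.mapDomainRingHom_apply]
  refine Finsupp.mapDomain_of_notMem_range x.coeff g ?_
  rintro ⟨h, rfl⟩
  exact hg h.2

theorem quo_glZ {G : Type} [Group G] (H : Subgroup G) {r : ℕ}
    (A B : (Matrix (Fin r) (Fin r) (MonoidAlgebra ℤ H))ˣ) (a b : Fin r) :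
    ((glZ H.subtype A)⁻¹ * glZ H.subtype B : (Matrix (Fin r) (Fin r) (MonoidAlgebra ℤ G))ˣ).val a b =
      (MonoidAlgebra.mapDomainRingHom ℤ H.subtype)
        ((A⁻¹ * B : (Matrix (Fin r) (Fin r) (MonoidAlgebra ℤ H))ˣ).val a b) := by
  rw [← map_inv, ← map_mul]
  rfl

theorem dcoef_map {G : Type} [Group G] (H : Subgroup G) {n r : ℕ}
    (X : Fin (n + 1) → (Matrix (Fin r) (Fin r) (MonoidAlgebra ℤ H))ˣ) (γ : Fin (n + 1) → H) :
    dcoef (fun j => glZ H.subtype (X j)) (fun j => (γ j : G)) = dcoef X γ := by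
  unfold dcoef
  refine Finset.sum_congr rfl fun a _ => ?_
  refine Finset.prod_congr rfl fun j _ => ?_
  rw [quo_glZ, coeff_map]

theorem dcoef_map_zero {G : Type} [Group G] (H : Subgroup G) {n r : ℕ}
    (X : Fin (n + 1) → (Matrix (Fin r) (Fin r) (MonoidAlgebra ℤ H))ˣ) (γ : Fin (n + 1) → G)
    (j : Fin (n + 1)) (hj : γ j ∉ H) :
    dcoef (fun j => glZ H.subtype (X j)) γ = 0 := by
  unfold dcoef
  refine Finset.sum_eq_zero fun a _ => ?_
  refine Finset.prod_eq_zero (Finset.mem_univ j) ?_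
  rw [quo_glZ, coeff_map_of_notMem H _ _ hj]

theorem fpr_map {G : Type} [Group G] (H : Subgroup G) {n : ℕ} (γ : Fin (n + 1) → H) :
    fpr (fun j => (γ j : G)) = fun i => ((fpr γ i : H) : G) := by
  funext i
  unfold fpr
  rw [← Subgroup.coe_subtype, map_list_prod, List.map_take, List.map_ofFn]
  rfl

theorem prod_map {G : Type} [Group G] (H : Subgroup G) {n : ℕ} (γ : Fin (n + 1) → H) :
    (List.ofFn (fun j => (γ j : G))).prod = (((List.ofFn γ).prod : H) : G) := by
  rw [← Subgroup.coe_subtype, map_list_prod, List.map_ofFn]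
  rfl

theorem dtr_map {G : Type} [Group G] (H : Subgroup G) (n r : ℕ) (F : (Fin (n + 1) → G) → G → ℚ)
    (X : Fin (n + 1) → (Matrix (Fin r) (Fin r) (MonoidAlgebra ℤ H))ˣ) :
    dtr F (fun j => glZ H.subtype (X j)) =
      dtr (fun (a : Fin (n + 1) → H) (y : H) => F (fun i => (a i : G)) (y : G)) X := by
  unfold dtr
  set f : (Fin (n + 1) → G) → ℚ := fun γ =>
    ((dcoef (fun j => glZ H.subtype (X j)) γ : ℤ) : ℚ) * F (fpr γ) (List.ofFn γ).prod with hf
  have hinj : Function.Injective (fun (γ : Fin (n + 1) → H) (j : Fin (n + 1)) => (γ j : G)) := by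
    intro a b h
    funext j
    exact Subtype.ext (congrFun h j)
  have h1 : ∑ᶠ γ : Fin (n + 1) → G, f γ =
      ∑ᶠ γ ∈ Set.range (fun (γ : Fin (n + 1) → H) (j : Fin (n + 1)) => (γ j : G)), f γ := by
    rw [← finsum_mem_univ]
    refine finsum_mem_inter_support_eq f _ _ ?_
    ext γ
    simp only [Set.mem_inter_iff, Set.mem_univ, true_and, Function.mem_support]
    constructor
    · intro h
      refine ⟨?_, h⟩
      have h2 : ∀ j, γ j ∈ H := by
        intro j
        by_contra hj
        apply h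
        rw [hf]
        simp only
        rw [dcoef_map_zero H X γ j hj, Int.cast_zero, zero_mul]
      exact ⟨fun j => ⟨γ j, h2 j⟩, rfl⟩
    · exact fun h => h.2
  rw [h1, finsum_mem_range hinj]
  refine finsum_congr fun γ => ?_
  rw [hf]
  simp only
  rw [dcoef_map, fpr_map, prod_map]

end NAT

theorem t_NAT : S_NAT := by
  refine ⟨fun G _ H n r F X => NAT.dtr_map H n r F X, ?_⟩
  intro G _ H n w hw
  cases n with
  | zero => exact Submodule.mem_top
  | succ m => exact TFI.cyc_hmap H.subtype m hw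

end Pool.Agent.FJA
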