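import Pool.Agent.FJA.StT
import Pool.Agent.FJA.P_PDQ

/-!
# PDL: the `p`-adic theorem with bounded `p`-torsion, for one prime `p`
-/

set_option autoImplicit false

open Matrix Pool.Agent.WhK Pool.Agent.Lib25

noncomputable section

namespace Pool.Agent.FJA

open PDG in
theorem t_PDL (hgaq : S_GAQ) (hevq : S_EVQ) (hpnt : S_PNT) (havs : S_AVS) (hsup : S_SUP) :
    S_PDL := by
  intro G _ p _ hT n n0 hn0 F hF B hB hnull e
  have hprime : p.Prime := Fact.out
  induction e with
  | zero =>
    have h1 : powF (p ^ 0) (cup F) = cup F := by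
      funext a y
      unfold powF
      rw [pow_zero, pow_one]
    rw [h1]
  | succ e ih =>
    rw [ih]
    have hp : 0 < p ^ e := pow_pos hprime.pos _
    have h1 := PDQ.one hgaq hevq hpnt havs hsup (Nat.mul_pos hp hn0) hT
      (gcoch_pow hF (p ^ e)) B hB hnull
    rw [← powF_cup F hp, powF_powF] at h1
    rw [h1, pow_succ']

end Pool.Agent.FJA
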