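import Pool.Agent.FJA.StU
import Pool.Agent.FJA.P_SCF

/-!
# SCG: the section and the first recorded positions, strictly equivariant sections
-/

set_option autoImplicit false

open Matrix

namespace Pool.Agent.FJA

namespace SCG

open SCF

variable {Γ : Type} [Group Γ]

theorem eta_cj {M N : ℕ} (hN : 0 < N) {F : (Fin (M + 1) → Γ) → Γ → ℚ} {s : List Γ → Γ → Γ}
    (hinv : ∀ (g : Γ) (a : Fin (M + 1) → Γ) (y : Γ), F (fun i => g * a i) (g * y * g⁻¹) = F a y)
    (hs : ∀ (γ : Γ) (Y : List Γ) (y : Γ), Y ≠ [] →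
      s (Y.map (γ * ·)) (γ * y * γ⁻¹) = γ * s Y y) : CjInv (eta N F s) := by
  classical
  intro γ μ
  have hl1 : ∀ i, (Rec.inc γ * μ).lst i = (μ.lst i).map (γ * ·) := by
    intro i
    simp
  have hl2 : ∀ i, (μ * Rec.inc γ).lst i = μ.lst i := by
    intro i
    simp
  have hv1 : (Rec.inc γ * μ).val = γ * (μ.val * γ) * γ⁻¹ := by
    simp [mul_assoc]
  have hv2 : (μ * Rec.inc γ).val = μ.val * γ := by simp
  unfold eta
  have hiff : (∀ i, ((Rec.inc γ * μ).lst i).length = N) ↔
      (∀ i, ((μ * Rec.inc γ).lst i).length = N) := by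
    simp only [hl1, hl2, List.length_map]
  by_cases h : ∀ i, ((μ * Rec.inc γ).lst i).length = N
  · rw [if_pos h, if_pos (hiff.2 h)]
    have hne : ∀ i, μ.lst i ≠ [] := fun i h0 => by
      have := h i
      rw [hl2, h0, List.length_nil] at this
      omega
    unfold EE
    refine Finset.sum_congr rfl fun j _ => ?_
    congr 1
    have h1 : ∀ l, (vv s (Rec.inc γ * μ) l).2 = γ * (vv s (μ * Rec.inc γ) l).2 := by
      intro l
      unfold vv
      rw [hl1, hl2]
      obtain ⟨a, t, hat⟩ := List.exists_cons_of_ne_nil (hne l)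
      rw [hat]
      rfl
    have h2 : ∀ l, (vv s (Rec.inc γ * μ) l).1 = γ * (vv s (μ * Rec.inc γ) l).1 := by
      intro l
      unfold vv
      rw [hl1, hl2, hv1, hv2]
      exact hs γ (μ.lst l) (μ.val * γ) (hne l)
    have h3 : ∀ i, mix Prod.snd Prod.fst (vv s (Rec.inc γ * μ)) j i =
        γ * mix Prod.snd Prod.fst (vv s (μ * Rec.inc γ)) j i := by
      intro i
      unfold mix
      split_ifs
      · exact h1 _
      · exact h2 _
    have h4 : mix Prod.snd Prod.fst (vv s (Rec.inc γ * μ)) j =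
        fun i => γ * mix Prod.snd Prod.fst (vv s (μ * Rec.inc γ)) j i := funext h3
    rw [h4, hv1, hv2, hinv γ (fun i => mix Prod.snd Prod.fst (vv s (μ * Rec.inc γ)) j i)]
  · rw [if_neg h, if_neg (mt hiff.1 h)]

end SCG

open SCF in
theorem t_SCG : S_SCG := by
  intro Γ _ M N F s hN hinv hF hs
  refine ⟨eta N F s, SCG.eta_cj hN hinv hs, ?_⟩
  intro k _ _ ι _ _ X
  have h1 : TX (evN N F s) N X = TX (fun μ => fst F μ +
      ∑ i : Fin (M + 1), (-1 : ℚ) ^ (i : ℕ) * eta N F s (Rec.res i.succAbove μ)) N X := by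
    refine t_TXlen k Γ ι (M + 1) N _ _ X fun μ hμ => ?_
    exact step hN s hF μ hμ
  have h2 : ∀ S : Finset (Fin (M + 1)), TX (fun μ : Rec Γ (Fin (M + 1)) =>
      ∑ i ∈ S, (-1 : ℚ) ^ (i : ℕ) * eta N F s (Rec.res i.succAbove μ)) N X =
      ∑ i ∈ S, (-1 : k) ^ (i : ℕ) * TX (eta N F s) N (fun t => X (i.succAbove t)) := by
    intro S
    induction S using Finset.induction_on with
    | empty =>
      have h3 := (t_TXlin k Γ ι (M + 1) N X).2 0 (fun _ => 0)
      simp only [Finset.sum_empty]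
      simpa using h3
    | insert a S ha ih =>
      simp only [Finset.sum_insert ha]
      rw [(t_TXlin k Γ ι (M + 1) N X).1, ih, (t_TXlin k Γ ι (M + 1) N X).2,
        t_TXfac k Γ ι M N (eta N F s) a X]
      push_cast
      rfl
  rw [h1, (t_TXlin k Γ ι (M + 1) N X).1, h2 Finset.univ]
  ring

end Pool.Agent.FJA
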