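import Pool.Agent.FJA.StT
import Pool.Agent.FJA.P_MRN

/-!
# FJA: the module SEF

For a pair whose periods are divisible by the length, the section is `γ * rep A 0`, where `A` is the sequence of the
pair (see `P_SEC.lean`), `rep A` the representative of its class, and `A n = γ * rep A (n + m)`.
-/

set_option autoImplicit false

noncomputable section

namespace Pool.Agent.FJA

namespace SEF

open SEC MRN

variable {Γ : Type} [Group Γ]

/-- the domain of the section -/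
def Dom (N : ℕ) (Y : List Γ) (y : Γ) : Prop := Y ≠ [] ∧ Y.length = N ∧ GoodP N Y y

open Classical in
/-- the section -/
def sec (N : ℕ) (Y : List Γ) (y : Γ) : Γ :=
  if Dom N Y y then (rep_spec (sq Y y)).choose * rep (sq Y y) 0 else Y.headD 1

lemma sec_dom {N : ℕ} {Y : List Γ} {y : Γ} (hD : Dom N Y y) :
    ∃ (γ : Γ) (m : ℤ), (∀ n, sq Y y n = γ * rep (sq Y y) (n + m)) ∧
      sec N Y y = γ * rep (sq Y y) 0 := by
  classical
  refine ⟨(rep_spec (sq Y y)).choose, (rep_spec (sq Y y)).choose_spec.choose,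
    (rep_spec (sq Y y)).choose_spec.choose_spec, ?_⟩
  rw [sec, if_pos hD]

lemma sec_eq {N : ℕ} {Y : List Γ} {y : Γ} (hD : Dom N Y y) {γ : Γ} {m : ℤ}
    (h : ∀ n, sq Y y n = γ * rep (sq Y y) (n + m)) :
    ∃ t : ℤ, sec N Y y = y ^ t * (γ * rep (sq Y y) 0) := by
  obtain ⟨γ', m', h', hs⟩ := sec_dom hD
  obtain ⟨hY, hl, hg⟩ := hD
  have h1 : PNT.St (sq Y y) (γ * γ'⁻¹) (m - m') := by
    intro n
    rw [h n, h' (n + (m - m')), show n + (m - m') + m' = n + m by ring]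
    group
  obtain ⟨j, hj⟩ := (goodP_iff hY y).1 hg _ _ h1
  have h2 := h1 0
  have h3 := sq_add_mul hY y 0 j
  rw [hl] at h3
  rw [hj, show (0 : ℤ) + (N : ℤ) * j = 0 + j * (N : ℤ) by ring, h3, ← mul_assoc] at h2
  have h4 : γ * γ'⁻¹ * y ^ j = 1 := by
    have := mul_right_cancel (a := (1 : Γ)) (b := sq Y y 0) (c := γ * γ'⁻¹ * y ^ j)
      (by rw [one_mul]; exact h2)
    exact this.symm
  have h5 : γ' = y ^ j * γ := by
    have h6 : γ * γ'⁻¹ = (y ^ j)⁻¹ := eq_inv_of_mul_eq_one_left h4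
    have h7 : γ = (y ^ j)⁻¹ * γ' := by
      rw [← h6]
      group
    rw [h7]
    group
  exact ⟨j, by rw [hs, h5, mul_assoc]⟩

lemma dom_conj {N : ℕ} {Y : List Γ} (γ y : Γ) :
    Dom N (Y.map (γ * ·)) (γ * y * γ⁻¹) ↔ Dom N Y y := by
  by_cases hY : Y = []
  · subst hY
    simp [Dom]
  · have hY' : Y.map (γ * ·) ≠ [] := by simpa using hY
    unfold Dom
    rw [List.length_map, goodP_conj hY]
    exact ⟨fun h => ⟨hY, h.2⟩, fun h => ⟨hY', h.2⟩⟩

end SEF

open SEF SEC MRN in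
/-- MODULE SEF -/
theorem t_SEF : S_SEF := by
  classical
  intro Γ _ N
  refine ⟨sec N, ⟨?_, ?_⟩⟩
  · intro γ Y y hY
    by_cases hD : Dom N Y y
    · have hD' : Dom N (Y.map (γ * ·)) (γ * y * γ⁻¹) := (dom_conj γ y).2 hD
      obtain ⟨δ, m, h, hs⟩ := sec_dom hD
      have hc := sq_conj hY γ y
      have hr : rep (sq (Y.map (γ * ·)) (γ * y * γ⁻¹)) = rep (sq Y y) :=
        rep_congr γ 0 fun n => by rw [hc, add_zero]
      obtain ⟨t, ht⟩ := sec_eq hD' (γ := γ * δ) (m := m) fun n => by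
        rw [hc, hr, h n, mul_assoc]
      refine ⟨t, ?_⟩
      rw [ht, hr, hs, conj_zpow]
      group
    · have hD' : ¬ Dom N (Y.map (γ * ·)) (γ * y * γ⁻¹) := fun h => hD ((dom_conj γ y).1 h)
      refine ⟨0, ?_⟩
      rw [sec, sec, if_neg hD, if_neg hD', zpow_zero, one_mul]
      obtain ⟨a, Z, rfl⟩ := List.exists_cons_of_ne_nil hY
      rfl
  · intro Y y hl hg
    by_cases hY : Y = []
    · subst hY
      exact ⟨0, by rw [zpow_zero, one_mul]; rfl⟩
    · have hD : Dom N Y y := ⟨hY, hl, hg⟩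
      have hD' : Dom N (rotL y Y) y :=
        ⟨PNT.rotL_ne hY y, by rw [PNT.rotL_length, hl], goodP_rot hY y hg⟩
      obtain ⟨δ, m, h, hs⟩ := sec_dom hD
      have hc := PNT.sq_rotL hY y
      have hr : rep (sq (rotL y Y) y) = rep (sq Y y) :=
        rep_congr 1 1 fun n => by rw [hc, one_mul]
      obtain ⟨t, ht⟩ := sec_eq hD' (γ := δ) (m := m + 1) fun n => by
        rw [hc, hr, h (n + 1), show n + 1 + m = n + (m + 1) by ring]
      exact ⟨t, by rw [ht, hr, hs]⟩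

end Pool.Agent.FJA
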