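import Pool.Agent.FJA.StU
import Pool.Agent.FJA.P_MRN

/-!
# FJA: the module SEG

The section is `(ρ y) ^ m * (γ * rep A 0)`, where `A` is the sequence of the pair, `rep A` the representative of its
class, and `A n = γ * rep A (n + m)`.
-/

set_option autoImplicit false

noncomputable section

namespace Pool.Agent.FJA

namespace SEG

open SEC MRN

variable {Γ : Type} [Group Γ]

lemma goodR_iff {ρ : Γ → Γ} {Y : List Γ} (hY : Y ≠ []) (y : Γ) :
    GoodR ρ Y y ↔ ∀ (δ : Γ) (e : ℤ), PNT.St (sq Y y) δ e → δ * ρ y ^ e = 1 := by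
  constructor
  · intro h δ e he
    rcases le_total 0 e with h0 | h0
    · have h1 : ((e.toNat : ℕ) : ℤ) = e := Int.toNat_of_nonneg h0
      have h2 := h δ e.toNat ((PNT.stb_iff hY y δ _).2 (by rw [h1]; exact he))
      rw [← h1, zpow_natCast]
      exact h2
    · have h1 : (((-e).toNat : ℕ) : ℤ) = -e := Int.toNat_of_nonneg (by omega)
      have h2 := h δ⁻¹ (-e).toNat ((PNT.stb_iff hY y _ _).2 (by rw [h1]; exact PNT.st_inv he))
      rw [← zpow_natCast, h1, zpow_neg, ← mul_inv_rev, inv_eq_one] at h2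
      have h3 : δ = (ρ y ^ e)⁻¹ := eq_inv_of_mul_eq_one_right h2
      rw [h3, inv_mul_cancel]
  · intro h δ e he
    have h1 := h δ e ((PNT.stb_iff hY y δ e).1 he)
    rwa [zpow_natCast] at h1

lemma goodR_conj {ρ : Γ → Γ} (hρ : ∀ γ y : Γ, ρ (γ * y * γ⁻¹) = γ * ρ y * γ⁻¹) {Y : List Γ}
    (hY : Y ≠ []) (γ y : Γ) : GoodR ρ (Y.map (γ * ·)) (γ * y * γ⁻¹) ↔ GoodR ρ Y y := by
  have hY' : Y.map (γ * ·) ≠ [] := by simpa using hY
  rw [goodR_iff hY', goodR_iff hY]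
  constructor
  · intro h δ e he
    have h1 := h (γ * δ * γ⁻¹) e fun a => by
      rw [sq_conj hY, sq_conj hY, he a]
      group
    rw [hρ, conj_zpow] at h1
    have h2 : γ * (δ * ρ y ^ e) * γ⁻¹ = 1 := by
      rw [← h1]
      group
    exact conj_eq_one_iff.1 h2
  · intro h δ e he
    have h1 := h (γ⁻¹ * δ * γ) e fun a => by
      have h1 := he a
      rw [sq_conj hY, sq_conj hY] at h1
      rw [mul_assoc, mul_assoc, ← h1, inv_mul_cancel_left]
    rw [hρ, conj_zpow]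
    have h2 : δ * (γ * ρ y ^ e * γ⁻¹) = γ * (γ⁻¹ * δ * γ * ρ y ^ e) * γ⁻¹ := by group
    rw [h2, h1]
    group

lemma goodR_rot {ρ : Γ → Γ} {Y : List Γ} (hY : Y ≠ []) (y : Γ) (h : GoodR ρ Y y) :
    GoodR ρ (rotL y Y) y := by
  rw [goodR_iff hY] at h
  rw [goodR_iff (PNT.rotL_ne hY y)]
  intro δ e he
  refine h δ e fun a => ?_
  have h1 := he (a - 1)
  rw [PNT.sq_rotL hY, PNT.sq_rotL hY, sub_add_cancel,
    show a - 1 + e + 1 = a + e by ring] at h1
  exact h1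

/-- the domain of the section -/
def Dom (ρ : Γ → Γ) (Y : List Γ) (y : Γ) : Prop := Y ≠ [] ∧ GoodR ρ Y y

open Classical in
/-- the section -/
def sec (ρ : Γ → Γ) (Y : List Γ) (y : Γ) : Γ :=
  if Dom ρ Y y then
    ρ y ^ (rep_spec (sq Y y)).choose_spec.choose * ((rep_spec (sq Y y)).choose * rep (sq Y y) 0)
  else Y.headD 1

lemma sec_dom {ρ : Γ → Γ} {Y : List Γ} {y : Γ} (hD : Dom ρ Y y) :
    ∃ (γ : Γ) (m : ℤ), (∀ n, sq Y y n = γ * rep (sq Y y) (n + m)) ∧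
      sec ρ Y y = ρ y ^ m * (γ * rep (sq Y y) 0) := by
  classical
  refine ⟨(rep_spec (sq Y y)).choose, (rep_spec (sq Y y)).choose_spec.choose,
    (rep_spec (sq Y y)).choose_spec.choose_spec, ?_⟩
  rw [sec, if_pos hD]

lemma sec_eq {ρ : Γ → Γ} {Y : List Γ} {y : Γ} (hD : Dom ρ Y y) {γ : Γ} {m : ℤ}
    (h : ∀ n, sq Y y n = γ * rep (sq Y y) (n + m)) :
    sec ρ Y y = ρ y ^ m * (γ * rep (sq Y y) 0) := by
  obtain ⟨γ', m', h', hs⟩ := sec_dom hD
  obtain ⟨hY, hg⟩ := hD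
  have h1 : PNT.St (sq Y y) (γ * γ'⁻¹) (m - m') := by
    intro n
    rw [h n, h' (n + (m - m')), show n + (m - m') + m' = n + m by ring]
    group
  have h2 := (goodR_iff hY y).1 hg _ _ h1
  have h3 : γ * γ'⁻¹ = ρ y ^ (m' - m) := by
    rw [show m' - m = -(m - m') by ring, zpow_neg]
    exact eq_inv_of_mul_eq_one_left h2
  have h4 : γ = ρ y ^ (m' - m) * γ' := by
    rw [← h3]
    group
  rw [hs, h4, ← mul_assoc, ← mul_assoc, ← mul_assoc, ← zpow_add]
  congr 3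
  ring

lemma dom_conj {ρ : Γ → Γ} (hρ : ∀ γ y : Γ, ρ (γ * y * γ⁻¹) = γ * ρ y * γ⁻¹) {Y : List Γ}
    (γ y : Γ) : Dom ρ (Y.map (γ * ·)) (γ * y * γ⁻¹) ↔ Dom ρ Y y := by
  by_cases hY : Y = []
  · subst hY
    simp [Dom]
  · have hY' : Y.map (γ * ·) ≠ [] := by simpa using hY
    unfold Dom
    rw [goodR_conj hρ hY]
    exact ⟨fun h => ⟨hY, h.2⟩, fun h => ⟨hY', h.2⟩⟩

end SEG

open SEG SEC MRN in
/-- MODULE SEG -/
theorem t_SEG : S_SEG := by
  classical
  intro Γ _ ρ hρ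
  refine ⟨sec ρ, ⟨?_, ?_, ?_⟩⟩
  · intro γ Y y hY
    by_cases hD : Dom ρ Y y
    · have hD' : Dom ρ (Y.map (γ * ·)) (γ * y * γ⁻¹) := (dom_conj hρ γ y).2 hD
      obtain ⟨δ, m, h, hs⟩ := sec_dom hD
      have hc := sq_conj hY γ y
      have hr : rep (sq (Y.map (γ * ·)) (γ * y * γ⁻¹)) = rep (sq Y y) :=
        rep_congr γ 0 fun n => by rw [hc, add_zero]
      have ht := sec_eq hD' (γ := γ * δ) (m := m) fun n => by
        rw [hc, hr, h n, mul_assoc]
      rw [ht, hr, hs, hρ, conj_zpow]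
      group
    · have hD' : ¬ Dom ρ (Y.map (γ * ·)) (γ * y * γ⁻¹) := fun h => hD ((dom_conj hρ γ y).1 h)
      rw [sec, sec, if_neg hD, if_neg hD']
      obtain ⟨a, Z, rfl⟩ := List.exists_cons_of_ne_nil hY
      rfl
  · intro Y y hY hg
    have hD : Dom ρ Y y := ⟨hY, hg⟩
    have hD' : Dom ρ (rotL y Y) y := ⟨PNT.rotL_ne hY y, goodR_rot hY y hg⟩
    obtain ⟨δ, m, h, hs⟩ := sec_dom hD
    have hc := PNT.sq_rotL hY y
    have hr : rep (sq (rotL y Y) y) = rep (sq Y y) :=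
      rep_congr 1 1 fun n => by rw [hc, one_mul]
    have ht := sec_eq hD' (γ := δ) (m := m + 1) fun n => by
      rw [hc, hr, h (n + 1), show n + 1 + m = n + (m + 1) by ring]
    rw [ht, hr, hs, ← mul_assoc (ρ y), mul_self_zpow]
  · intro Y y hY hg hp
    have hD : Dom ρ Y y := ⟨hY, hg⟩
    obtain ⟨δ, m, h, hs⟩ := sec_dom hD
    have hcm : ρ y * y = y * ρ y := by
      have h1 := hρ y y
      rw [mul_inv_cancel_right] at h1
      have h2 : ρ y * y = y * ρ y * y⁻¹ * y := by rw [← h1]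
      rw [h2, inv_mul_cancel_right]
    have h1 : ∀ n, sq Y y (n + 1) = ρ y * sq Y y n := by
      intro n
      rw [← PNT.sq_rotL hY y n, hp, PNT.sq_map hY hcm]
    have h2 : ∀ n : ℤ, sq Y y n = ρ y ^ n * sq Y y 0 := by
      intro n
      induction n using Int.induction_on with
      | zero => simp
      | succ i ih => rw [h1, ih, ← mul_assoc, mul_self_zpow]
      | pred i ih =>
        have h3 := h1 (-(i : ℤ) - 1)
        rw [sub_add_cancel, ih] at h3
        have h4 : sq Y y (-(i : ℤ) - 1) = (ρ y)⁻¹ * (ρ y ^ (-(i : ℤ)) * sq Y y 0) := by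
          rw [h3, inv_mul_cancel_left]
        rw [h4, ← mul_assoc, zpow_sub_one]
        congr 1
        exact (Commute.zpow_right (Commute.inv_left (Commute.refl (ρ y))) _).eq
    have h3 : sq Y y 0 = Y.headD 1 := by
      obtain ⟨a, Z, rfl⟩ := List.exists_cons_of_ne_nil hY
      simp [SEC.sq]
    have h4 := h (-m)
    rw [neg_add_cancel] at h4
    rw [hs, ← h4, h2 (-m), ← mul_assoc, ← zpow_add, add_neg_cancel, zpow_zero, one_mul, h3]

end Pool.Agent.FJA
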