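import Pool.Agent.FJA.StT
import Pool.Agent.FJA.P_TXA
import Pool.Agent.FJA.P_PRI
import Pool.Agent.FJA.P_TWI
import Pool.Agent.FJA.P_TXR
import Pool.Agent.FJA.P_TXD
import Pool.Agent.FJA.P_NIB

/-!
# Module SHF: the product with the loop
-/

set_option autoImplicit false

open Matrix Pool.Agent.WhK Pool.Agent.Lib25

noncomputable section

namespace Pool.Agent.FJA

namespace SHF

section Lin

variable (k : Type) [Field k] [CharZero k] {Γ : Type} [Group Γ] {M r : ℕ}

/-- The functional on the chains of matrices of size `r`. -/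
def T (φ : Rec Γ (Fin M) → ℚ) (N : ℕ) :
    ((Fin M → (Matrix (Fin r) (Fin r) (MonoidAlgebra k Γ))ˣ) →₀ ℚ) →ₗ[ℚ] k :=
  Finsupp.linearCombination ℚ fun X => TX φ N X

theorem T_single (φ : Rec Γ (Fin M) → ℚ) (N : ℕ)
    (X : Fin M → (Matrix (Fin r) (Fin r) (MonoidAlgebra k Γ))ˣ) (q : ℚ) :
    T k φ N (Finsupp.single X q) = q • TX φ N X := by
  unfold T
  rw [Finsupp.linearCombination_single]

theorem TK_kinK (φ : Rec Γ (Fin M) → ℚ) (N : ℕ)
    (x : (Fin M → (Matrix (Fin r) (Fin r) (MonoidAlgebra k Γ))ˣ) →₀ ℚ) :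
    TK k φ N (kinK k Γ M r x) = T k φ N x := by
  induction x using Finsupp.induction_linear with
  | zero => rw [map_zero, map_zero, map_zero]
  | add f g hf hg => rw [map_add, map_add, map_add, hf, hg]
  | single X q =>
    unfold kinK TK T
    rw [Finsupp.lmapDomain_apply, Finsupp.mapDomain_single, Finsupp.linearCombination_single,
      Finsupp.linearCombination_single]

theorem bdK_kinK (x : (Fin (M + 1) → (Matrix (Fin r) (Fin r) (MonoidAlgebra k Γ))ˣ) →₀ ℚ) :
    bdK k Γ M (kinK k Γ (M + 1) r x) = kinK k Γ M r (bd ℚ _ M x) := by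
  induction x using Finsupp.induction_linear with
  | zero => rw [map_zero, map_zero, map_zero, map_zero]
  | add f g hf hg => rw [map_add, map_add, map_add, map_add, hf, hg]
  | single X q =>
    unfold kinK bdK bd
    rw [Finsupp.lmapDomain_apply, Finsupp.mapDomain_single, Finsupp.linearCombination_single,
      Finsupp.linearCombination_single, map_smul, map_sum]
    congr 1
    refine Finset.sum_congr rfl fun i _ => ?_
    rw [Finsupp.lmapDomain_apply, Finsupp.mapDomain_single]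

theorem T_hmap_mul (φ : Rec Γ (Fin M) → ℚ) (hφ : CjInv φ) (N : ℕ)
    (g : (Matrix (Fin r) (Fin r) (MonoidAlgebra k Γ))ˣ)
    (x : (Fin M → (Matrix (Fin r) (Fin r) (MonoidAlgebra k Γ))ˣ) →₀ ℚ) :
    T k φ N (hmap ℚ (fun A => g * A) M x) = T k φ N x := by
  induction x using Finsupp.induction_linear with
  | zero => rw [map_zero, map_zero]
  | add f g hf hg => rw [map_add, map_add, map_add, hf, hg]
  | single X q =>
    unfold hmap
    rw [Finsupp.lmapDomain_apply, Finsupp.mapDomain_single, T_single, T_single,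
      t_TXinv k Γ (Fin r) M N φ hφ g X]

end Lin

section Loop

variable (k : Type) [Field k] [CharZero k] (G : Type) [Group G] (r : ℕ)

/-- The inclusion. -/
def f0 (A : (Matrix (Fin r) (Fin r) (MonoidAlgebra k G))ˣ) :
    (Matrix (Fin r) (Fin r) (MonoidAlgebra k (G × Multiplicative ℤ)))ˣ :=
  glG (MonoidHom.inl G (Multiplicative ℤ)) A

/-- The loop. -/
def tt : (Matrix (Fin r) (Fin r) (MonoidAlgebra k (G × Multiplicative ℤ)))ˣ :=
  sclU k (Fin r) (((1 : G), Multiplicative.ofAdd 1) : G × Multiplicative ℤ)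

/-- The inclusion times the loop. -/
def f1 (A : (Matrix (Fin r) (Fin r) (MonoidAlgebra k G))ˣ) :
    (Matrix (Fin r) (Fin r) (MonoidAlgebra k (G × Multiplicative ℤ)))ˣ :=
  tt k G r * f0 k G r A

theorem tP_eq (n : ℕ) (c : (Fin (n + 1) → (Matrix (Fin r) (Fin r) (MonoidAlgebra k G))ˣ) →₀ ℚ) :
    tP k n r c = kinK k (G × Multiplicative ℤ) (n + 2) r
      (prism ℚ (f0 k G r) (f1 k G r) (n + 1) c) := rfl

theorem scl_comm (g : (Matrix (Fin r) (Fin r) (MonoidAlgebra k G))ˣ) :
    tt k G r * f0 k G r g = f0 k G r g * tt k G r := by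
  apply Units.ext
  change (Matrix.scalar (Fin r)) (MonoidAlgebra.of k (G × Multiplicative ℤ)
      ((1 : G), Multiplicative.ofAdd 1)) * (f0 k G r g).val = (f0 k G r g).val *
    (Matrix.scalar (Fin r)) (MonoidAlgebra.of k (G × Multiplicative ℤ)
      ((1 : G), Multiplicative.ofAdd 1))
  refine Matrix.ext fun i j => ?_
  rw [Matrix.scalar_apply, Matrix.diagonal_mul, Matrix.mul_diagonal]
  change _ * MonoidAlgebra.mapDomainRingHom k (MonoidHom.inl G (Multiplicative ℤ)) (g.val i j) =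
    MonoidAlgebra.mapDomainRingHom k (MonoidHom.inl G (Multiplicative ℤ)) (g.val i j) * _
  generalize g.val i j = x
  induction x using MonoidAlgebra.induction_linear with
  | zero => rw [map_zero, mul_zero, zero_mul]
  | add x y hx hy => rw [map_add, mul_add, add_mul, hx, hy]
  | single g c =>
    have h1 : MonoidAlgebra.mapDomainRingHom k (MonoidHom.inl G (Multiplicative ℤ))
        (MonoidAlgebra.single g c) = MonoidAlgebra.single (g, 1) c := by
      change MonoidAlgebra.mapDomain _ (MonoidAlgebra.single g c) = _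
      rw [MonoidAlgebra.mapDomain_single]
      rfl
    rw [h1, MonoidAlgebra.of_apply, MonoidAlgebra.single_mul_single,
      MonoidAlgebra.single_mul_single, mul_one, one_mul]
    congr 1
    ext
    · simp
    · simp

theorem f0_mul (g A : (Matrix (Fin r) (Fin r) (MonoidAlgebra k G))ˣ) :
    f0 k G r (g * A) = f0 k G r g * f0 k G r A := by
  unfold f0
  rw [map_mul]

theorem f1_mul (g A : (Matrix (Fin r) (Fin r) (MonoidAlgebra k G))ˣ) :
    f1 k G r (g * A) = f0 k G r g * f1 k G r A := by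
  unfold f1
  rw [f0_mul, ← mul_assoc, scl_comm, mul_assoc]

/-- The functional vanishes on the prism over the degenerate chains. -/
theorem T_prism_hdeg (m N : ℕ) (φ : Rec (G × Multiplicative ℤ) (Fin (m + 2)) → ℚ) (hφ : CjInv φ)
    (x : (Fin (m + 1) → (Matrix (Fin r) (Fin r) (MonoidAlgebra k G))ˣ) →₀ ℚ)
    (hx : x ∈ hdeg ℚ ((Matrix (Fin r) (Fin r) (MonoidAlgebra k G))ˣ) m) :
    T k φ N (prism ℚ (f0 k G r) (f1 k G r) (m + 1) x) = 0 := by
  unfold hdeg at hx
  induction hx using Submodule.span_induction with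
  | mem x hx =>
    obtain ⟨g, X, rfl⟩ := hx
    rw [map_sub, map_sub, sub_eq_zero]
    have h1 : (Finsupp.single (fun i => g * X i) (1 : ℚ) :
        (Fin (m + 1) → (Matrix (Fin r) (Fin r) (MonoidAlgebra k G))ˣ) →₀ ℚ) =
        hmap ℚ (fun A => g * A) (m + 1) (Finsupp.single X 1) := by
      unfold hmap
      rw [Finsupp.lmapDomain_apply, Finsupp.mapDomain_single]
    rw [h1, (t_BD ℚ ((Matrix (Fin r) (Fin r) (MonoidAlgebra k G))ˣ) (m + 1)).2.2
      ((Matrix (Fin r) (Fin r) (MonoidAlgebra k (G × Multiplicative ℤ)))ˣ) (f0 k G r) (f1 k G r)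
      (fun A => g * A) (fun A => f0 k G r g * A) (Finsupp.single X 1)
      (fun v => f0_mul k G r g v) (fun v => f1_mul k G r g v)]
    exact T_hmap_mul k φ hφ N _ _
  | zero => rw [map_zero, map_zero]
  | add x y _ _ hx hy => rw [map_add, map_add, hx, hy, add_zero]
  | smul a x _ hx => rw [map_smul, map_smul, hx, smul_zero]

theorem part_a (n N : ℕ) (hn : 1 ≤ n)
    (c : (Fin (n + 1) → (Matrix (Fin r) (Fin r) (MonoidAlgebra k G))ˣ) →₀ ℚ)
    (hc : c ∈ cyc ℚ ((Matrix (Fin r) (Fin r) (MonoidAlgebra k G))ˣ) n)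
    (η : Rec (G × Multiplicative ℤ) (Fin (n + 1)) → ℚ) (hη : CjInv η) :
    TK k η N (bdK _ _ (n + 1) (tP k n r c)) = 0 := by
  obtain ⟨m, rfl⟩ : ∃ m, n = m + 1 := ⟨n - 1, by omega⟩
  rw [tP_eq, bdK_kinK, TK_kinK, t_PRI, map_sub, map_sub]
  have h1 : T k η N (hmap ℚ (f1 k G r) (m + 1 + 1) c) =
      T k η N (hmap ℚ (f0 k G r) (m + 1 + 1) c) := by
    have h2 : hmap ℚ (f1 k G r) (m + 1 + 1) c =
        hmap ℚ (fun A => tt k G r * A) (m + 1 + 1) (hmap ℚ (f0 k G r) (m + 1 + 1) c) := by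
      unfold hmap
      rw [Finsupp.lmapDomain_apply, Finsupp.lmapDomain_apply, Finsupp.lmapDomain_apply,
        ← Finsupp.mapDomain_comp]
      rfl
    rw [h2]
    exact T_hmap_mul k η hη N _ _
  rw [h1, sub_self, zero_sub, neg_eq_zero]
  exact T_prism_hdeg k G r m N η hη _ hc

end Loop

section Val

variable {k : Type} [Field k] [CharZero k] {G : Type} [Group G] {r : ℕ}

theorem TX_zero {Γ : Type} [Group Γ] {M : ℕ} (N : ℕ)
    (X : Fin M → (Matrix (Fin r) (Fin r) (MonoidAlgebra k Γ))ˣ) :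
    TX (fun _ => 0) N X = 0 := by
  unfold TX
  rw [lin_apply]
  refine Finset.sum_eq_zero fun μ _ => ?_
  simp

/-- The twist of the `i`-th simplex of the prism. -/
def gam (G : Type) [Group G] (n : ℕ) (i : Fin (n + 1)) (j : Fin (n + 2)) : G × Multiplicative ℤ :=
  if j ≤ i.castSucc then 1 else ((1 : G), Multiplicative.ofAdd 1)

theorem mix_eq (n : ℕ) (X : Fin (n + 1) → (Matrix (Fin r) (Fin r) (MonoidAlgebra k G))ˣ)
    (i : Fin (n + 1)) :
    mix (f0 k G r) (f1 k G r) X i = fun j => sclU k (Fin r) (gam G n i j) *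
      glG (MonoidHom.inl G (Multiplicative ℤ)) (X (i.predAbove j)) := by
  funext j
  unfold mix gam
  split_ifs with h
  · rw [map_one, one_mul]
    rfl
  · rfl

theorem gam_comm (n : ℕ) (i : Fin (n + 1)) (j : Fin (n + 2)) (x : G) :
    Commute (gam G n i j) (MonoidHom.inl G (Multiplicative ℤ) x) := by
  unfold gam
  split_ifs
  · exact Commute.one_left _
  · apply Prod.ext
    · simp
    · simp

theorem gam_fst (n : ℕ) (i : Fin (n + 1)) (j : Fin (n + 2)) : (gam G n i j).1 = 1 := by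
  unfold gam
  split_ifs <;> rfl

theorem gam_snd (n : ℕ) (i : Fin (n + 1)) (j : Fin (n + 2)) :
    Multiplicative.toAdd (gam G n i j).2 = if j ≤ i.castSucc then 0 else 1 := by
  unfold gam
  split_ifs <;> rfl

theorem val_len (n : ℕ) (F : (Fin (n + 1) → G) → G → ℚ) (i : Fin (n + 1))
    (μ : Rec G (Fin (n + 2))) (hμ : ∀ j, (μ.lst j).length = 1) :
    fst (cup F) (twR (MonoidHom.inl G (Multiplicative ℤ)) (gam G n i) μ) =
      if i = Fin.last n then fst F (Rec.res Fin.castSucc μ) else 0 := by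
  classical
  have h0 : ∀ j, ∃ x, μ.lst j = [x] := fun j => List.length_eq_one_iff.1 (hμ j)
  choose x hx using h0
  have h1 : ∀ j, (twR (MonoidHom.inl G (Multiplicative ℤ)) (gam G n i) μ).lst j =
      [gam G n i j * (x j, 1)] := by
    intro j
    change (μ.lst j).map _ = _
    rw [hx j]
    rfl
  have h2 : fst (cup F) (twR (MonoidHom.inl G (Multiplicative ℤ)) (gam G n i) μ) =
      cup F (fun j => gam G n i j * (x j, 1)) (μ.val, 1) := by
    unfold fst
    rw [if_pos (fun j => by rw [h1 j]; simp)]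
    congr 1
    funext j
    rw [h1 j]
    rfl
  have h3 : fst F (Rec.res Fin.castSucc μ) = F (fun j => x j.castSucc) μ.val := by
    unfold fst
    rw [if_pos (fun j => by rw [Rec.res_lst, hx]; simp)]
    congr 1
    funext j
    rw [Rec.res_lst, hx]
    rfl
  rw [h2, h3]
  unfold cup
  rw [if_pos rfl]
  have h4 : (fun j : Fin (n + 1) => (gam G n i j.castSucc * (x j.castSucc, (1 : Multiplicative ℤ))).1) =
      fun j => x j.castSucc := by
    funext j
    rw [Prod.fst_mul, gam_fst, one_mul]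
  have h5 : ∀ j, Multiplicative.toAdd (gam G n i j * (x j, (1 : Multiplicative ℤ))).2 =
      if j ≤ i.castSucc then 0 else 1 := by
    intro j
    rw [Prod.snd_mul, mul_one, gam_snd]
  rw [h4, h5, h5]
  have h6 : ¬ (Fin.last (n + 1) ≤ i.castSucc) := by
    rw [not_le]
    exact Fin.castSucc_lt_last i
  rw [if_neg h6]
  by_cases hi : i = Fin.last n
  · rw [if_pos hi, hi, if_pos le_rfl]
    norm_num
  · have h7 : ¬ ((Fin.last n).castSucc ≤ i.castSucc) := by
      rw [Fin.castSucc_le_castSucc_iff, not_le]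
      exact lt_of_le_of_ne (Fin.le_last i) hi
    rw [if_neg hi, if_neg h7]
    norm_num

theorem val_mix (n : ℕ) (F : (Fin (n + 1) → G) → G → ℚ)
    (X : Fin (n + 1) → (Matrix (Fin r) (Fin r) (MonoidAlgebra k G))ˣ) (i : Fin (n + 1)) :
    TX (fst (cup F)) 1 (mix (f0 k G r) (f1 k G r) X i) =
      if i = Fin.last n then TX (fst F) 1 X else 0 := by
  rw [mix_eq, t_TWI k G (G × Multiplicative ℤ) (MonoidHom.inl G (Multiplicative ℤ)) (Fin r)
    (n + 2) 1 (fst (cup F)) (gam G n i) (gam_comm n i) (fun j => X (i.predAbove j))]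
  split_ifs with hi
  · rw [t_TXlen k G (Fin r) (n + 2) 1 _ (fun μ => fst F (Rec.res Fin.castSucc μ)) _
      (fun μ hμ => by rw [val_len n F i μ hμ, if_pos hi])]
    rw [t_TXR k G (Fin r) (n + 2) (n + 1) 1 Fin.castSucc (Fin.strictMono_castSucc) (fst F)
      (fun j => X (i.predAbove j))]
    congr 1
    funext t
    rw [hi]
    congr 1
    exact Fin.predAbove_last_castSucc
  · rw [t_TXlen k G (Fin r) (n + 2) 1 _ (fun _ => 0) _
      (fun μ hμ => by rw [val_len n F i μ hμ, if_neg hi])]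
    exact TX_zero _ _

theorem part_b (n : ℕ) (c : (Fin (n + 1) → (Matrix (Fin r) (Fin r) (MonoidAlgebra k G))ˣ) →₀ ℚ)
    (F : (Fin (n + 1) → G) → G → ℚ) :
    TK k (fst (cup F)) 1 (tP k n r c) =
        (-1 : k) ^ n * c.sum fun X q => (q : k) * TX (fst F) 1 X := by
  rw [tP_eq, TK_kinK]
  induction c using Finsupp.induction_linear with
  | zero => rw [map_zero, map_zero, Finsupp.sum_zero_index, mul_zero]
  | add f g hf hg =>
    rw [map_add, map_add, hf, hg, Finsupp.sum_add_index' (fun X => by simp)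
      (fun X q q' => by push_cast; ring), mul_add]
  | single X q =>
    unfold prism
    rw [Finsupp.linearCombination_single, map_smul, map_sum, Finsupp.sum_single_index (by simp)]
    have h1 : ∀ i : Fin (n + 1), T k (fst (cup F)) 1
        (Finsupp.single (mix (f0 k G r) (f1 k G r) X i) ((-1 : ℚ) ^ (i : ℕ))) =
        if i = Fin.last n then (-1 : k) ^ n * TX (fst F) 1 X else 0 := by
      intro i
      rw [T_single, val_mix]
      split_ifs with hi
      · rw [hi, Rat.smul_def]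
        push_cast
        rfl
      · rw [smul_zero]
    rw [Finset.sum_congr rfl (fun i _ => h1 i), Finset.sum_ite_eq' Finset.univ (Fin.last n),
      if_pos (Finset.mem_univ _), Rat.smul_def]
    ring

end Val

section Int

theorem niu_scl {ℓ : ℕ} [Fact ℓ.Prime] {Γ : Type} [Group Γ] {r : ℕ} (γ : Γ) :
    NIU (sclU ℚ_[ℓ] (Fin r) γ) := by
  have h1 : ∀ γ : Γ, NIM (sclU ℚ_[ℓ] (Fin r) γ).val := by
    intro γ a b
    change NI ((Matrix.scalar (Fin r)) (MonoidAlgebra.of ℚ_[ℓ] Γ γ) a b)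
    rw [Matrix.scalar_apply, Matrix.diagonal_apply]
    split_ifs
    · exact GAU.ni_single γ (by simp)
    · intro μ
      simp
  refine ⟨h1 γ, ?_⟩
  rw [← map_inv]
  exact h1 γ⁻¹

theorem part_c (ℓ : ℕ) [Fact ℓ.Prime] (G : Type) [Group G] (n r : ℕ)
    (c : (Fin (n + 1) → (Matrix (Fin r) (Fin r) (MonoidAlgebra ℚ_[ℓ] G))ˣ) →₀ ℚ)
    (hc : ∀ X ∈ c.support, ∀ j, NIU (X j)) :
    ∀ x ∈ (tP ℚ_[ℓ] n r c).support, ∀ i, NIU (x.2 i) := by
  classical
  intro x hx i
  rw [tP_eq] at hx
  unfold kinK at hx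
  rw [Finsupp.lmapDomain_apply] at hx
  have h1 := Finsupp.mapDomain_support hx
  rw [Finset.mem_image] at h1
  obtain ⟨Y, hY, rfl⟩ := h1
  unfold prism at hY
  rw [Finsupp.linearCombination_apply] at hY
  have h2 := Finsupp.support_sum hY
  rw [Finset.mem_biUnion] at h2
  obtain ⟨X, hX, hY2⟩ := h2
  have h3 := Finsupp.support_smul hY2
  have h4 := Finsupp.support_finsetSum h3
  rw [Finset.mem_biUnion] at h4
  obtain ⟨a, -, ha⟩ := h4
  have h5 := Finsupp.support_single_subset ha
  rw [Finset.mem_singleton] at h5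
  subst h5
  change NIU (mix (f0 ℚ_[ℓ] G r) (f1 ℚ_[ℓ] G r) X a i)
  unfold mix
  split_ifs
  · exact NIB.niu_glG _ (hc X hX _)
  · exact NIB.niu_mul (niu_scl _) (NIB.niu_glG _ (hc X hX _))

end Int

end SHF

theorem t_SHF : S_SHF := by
  refine ⟨?_, ?_, ?_⟩
  · intro k _ _ G _ n r hn c hc η hη N
    exact SHF.part_a k G r n N hn c hc η hη.cj
  · intro k _ _ G _ n r c F
    exact SHF.part_b n c F
  · intro ℓ _ G _ n r c hc
    exact SHF.part_c ℓ G n r c hc

end Pool.Agent.FJA
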