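import Pool.Agent.FJA.StV

/-!
# Linear groups over fields of characteristic zero: specialisation (module SPC)   (helper61)

A finitely generated linear group over a field of characteristic zero maps to `GL_N'(ℚ)` with a
torsion-free kernel which does not contain a given element.
-/

set_option autoImplicit false

open Matrix

namespace Pool.Agent.FJA

namespace SPC

/-- an injective ring homomorphism from matrices over a finite extension to rational matrices -/
theorem restr (N : ℕ) (L : Type) [Field L] [Algebra ℚ L] [Module.Finite ℚ L] :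
    ∃ (N' : ℕ) (φ : Matrix (Fin N) (Fin N) L →+* Matrix (Fin N') (Fin N') ℚ),
      Function.Injective φ := by
  classical
  let b := Module.finBasis ℚ L
  let f1 : Matrix (Fin N) (Fin N) L →+*
      Matrix (Fin N) (Fin N) (Matrix (Fin (Module.finrank ℚ L)) (Fin (Module.finrank ℚ L)) ℚ) :=
    (Algebra.leftMulMatrix b : L →ₐ[ℚ] _).toRingHom.mapMatrix
  have hf1 : Function.Injective f1 :=
    Matrix.map_injective (Algebra.leftMulMatrix_injective b)
  let e2 := Matrix.compRingEquiv (Fin N) (Fin (Module.finrank ℚ L)) ℚ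
  let e3 := Matrix.reindexRingEquiv (m := Fin N × Fin (Module.finrank ℚ L))
    (n := Fin (N * Module.finrank ℚ L)) ℚ finProdFinEquiv
  refine ⟨N * Module.finrank ℚ L, e3.toRingHom.comp (e2.toRingHom.comp f1), ?_⟩
  intro x y hxy
  apply hf1
  apply e2.injective
  apply e3.injective
  exact hxy

/-- an element not in a maximal ideal -/
theorem maxi (B : Type) [CommRing B] [IsDomain B] [Algebra ℚ B] [Algebra.FiniteType ℚ B] (c : B)
    (hc : c ≠ 0) : ∃ 𝔪 : Ideal B, 𝔪.IsMaximal ∧ c ∉ 𝔪 := by
  have : IsJacobsonRing B := isJacobsonRing_of_finiteType (A := ℚ)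
  have h1 : (⊥ : Ideal B).jacobson = ⊥ := by
    rw [← Ideal.radical_eq_jacobson]
    exact (Ideal.isPrime_bot (α := B)).radical
  by_contra hcon
  push Not at hcon
  have h2 : c ∈ (⊥ : Ideal B).jacobson := by
    rw [Ideal.jacobson, Submodule.mem_sInf]
    intro J hJ
    exact hcon J hJ.2
  rw [h1] at h2
  exact hc (by simpa using h2)

/-- binomial expansion of the first order -/
theorem bino {R : Type} [Ring R] (A : R) (m : ℕ) :
    ∃ C : R, (1 + A) ^ m = 1 + (m : R) * A + A * A * C := by
  induction m with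
  | zero => exact ⟨0, by simp⟩
  | succ m ih =>
    obtain ⟨C, hC⟩ := ih
    refine ⟨m + C + C * A, ?_⟩
    have hm : (m : R) * A * A = A * A * m := by
      rw [mul_assoc, (Nat.cast_commute m (A * A)).eq]
    rw [pow_succ, hC]
    push_cast
    simp only [mul_add, add_mul, one_mul, mul_one, mul_assoc]
    rw [← mul_assoc (m : R) A A, hm]
    simp only [mul_assoc]
    abel

theorem mul_entries {B : Type} [CommRing B] {N : ℕ} {I J : Ideal B}
    {X Y : Matrix (Fin N) (Fin N) B} (hX : ∀ i j, X i j ∈ I) (hY : ∀ i j, Y i j ∈ J) (i j : Fin N) :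
    (X * Y) i j ∈ I * J := by
  rw [Matrix.mul_apply]
  exact Ideal.sum_mem _ fun k _ => Ideal.mul_mem_mul (hX i k) (hY k j)

end SPC

open SPC in
theorem t_SPC : S_SPC := by
  classical
  intro Γ _ hFG K _ _ N ρ hρ h hh
  obtain ⟨S, hS⟩ := (Group.fg_def (G := Γ)).1 hFG
  -- the finite set of entries
  let E : Finset K := S.biUnion fun s => (Finset.univ : Finset (Fin N × Fin N)).biUnion fun p =>
    {(ρ s).val p.1 p.2, (ρ s⁻¹).val p.1 p.2}
  let B : Subalgebra ℚ K := Algebra.adjoin ℚ (E : Set K)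
  have : Algebra.FiniteType ℚ B := (Subalgebra.fg_iff_finiteType B).1 (Subalgebra.fg_adjoin_finset E)
  have hmul : ∀ x y : Γ, (∀ i j, (ρ x).val i j ∈ B) → (∀ i j, (ρ y).val i j ∈ B) →
      ∀ i j, (ρ (x * y)).val i j ∈ B := by
    intro x y hx hy i j
    rw [map_mul, Units.val_mul, Matrix.mul_apply]
    exact Subalgebra.sum_mem _ fun k _ => Subalgebra.mul_mem _ (hx i k) (hy k j)
  have hone : ∀ i j, (ρ (1 : Γ)).val i j ∈ B := by
    intro i j
    rw [map_one, Units.val_one, Matrix.one_apply]
    split_ifs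
    · exact Subalgebra.one_mem _
    · exact Subalgebra.zero_mem _
  have hall : ∀ x : Γ, (∀ i j, (ρ x).val i j ∈ B) ∧ ∀ i j, (ρ x⁻¹).val i j ∈ B := by
    intro x
    have hx : x ∈ Subgroup.closure (S : Set Γ) := by rw [hS]; trivial
    induction hx using Subgroup.closure_induction with
    | mem s hs =>
      refine ⟨fun i j => Algebra.subset_adjoin ?_, fun i j => Algebra.subset_adjoin ?_⟩
      · exact Finset.mem_coe.2 (Finset.mem_biUnion.2 ⟨s, hs, Finset.mem_biUnion.2
          ⟨(i, j), Finset.mem_univ _, Finset.mem_insert_self _ _⟩⟩)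
      · exact Finset.mem_coe.2 (Finset.mem_biUnion.2 ⟨s, hs, Finset.mem_biUnion.2
          ⟨(i, j), Finset.mem_univ _, Finset.mem_insert_of_mem (Finset.mem_singleton_self _)⟩⟩)
    | one => exact ⟨hone, by rw [inv_one]; exact hone⟩
    | mul x y _ _ ihx ihy =>
      refine ⟨hmul x y ihx.1 ihy.1, ?_⟩
      rw [_root_.mul_inv_rev]
      exact hmul _ _ ihy.2 ihx.2
    | inv x _ ih => exact ⟨ih.2, by rw [inv_inv]; exact ih.1⟩
  -- the matrices over `B`
  let MB : Γ → Matrix (Fin N) (Fin N) B := fun x => Matrix.of fun i j => ⟨(ρ x).val i j, (hall x).1 i j⟩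
  have hinj : Function.Injective
      ((B.val.toRingHom.mapMatrix : Matrix (Fin N) (Fin N) B →+* Matrix (Fin N) (Fin N) K)) :=
    Matrix.map_injective Subtype.val_injective
  have hMB : ∀ x, (B.val.toRingHom.mapMatrix : Matrix (Fin N) (Fin N) B →+* _) (MB x) = (ρ x).val := by
    intro x
    ext i j
    rfl
  let MBh : Γ →* Matrix (Fin N) (Fin N) B :=
    { toFun := MB
      map_one' := by
        apply hinj
        rw [hMB, map_one, map_one, Units.val_one]
      map_mul' := by
        intro x y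
        apply hinj
        rw [hMB, map_mul, map_mul, Units.val_mul, hMB, hMB] }
  -- a nonzero entry
  obtain ⟨i₀, j₀, hij⟩ : ∃ i j, MB h i j ≠ (1 : Matrix (Fin N) (Fin N) B) i j := by
    by_contra hcon
    push Not at hcon
    apply hh
    apply hρ
    rw [map_one]
    apply Units.ext
    rw [← hMB h, Units.val_one]
    have : MB h = 1 := by
      ext i j
      exact congrArg Subtype.val (hcon i j)
    rw [this, map_one]
  obtain ⟨𝔪, h𝔪, hc⟩ := maxi B (MB h i₀ j₀ - (1 : Matrix (Fin N) (Fin N) B) i₀ j₀)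
    (sub_ne_zero.2 hij)
  let : Field (B ⧸ 𝔪) := Ideal.Quotient.field 𝔪
  have : Algebra.FiniteType ℚ (B ⧸ 𝔪) := inferInstance
  have : Module.Finite ℚ (B ⧸ 𝔪) := finite_of_finite_type_of_isJacobsonRing ℚ (B ⧸ 𝔪)
  obtain ⟨N', φ2, hφ2⟩ := restr N (B ⧸ 𝔪)
  let θ : Matrix (Fin N) (Fin N) B →+* Matrix (Fin N) (Fin N) (B ⧸ 𝔪) :=
    (Ideal.Quotient.mk 𝔪).mapMatrix
  let φ : Matrix (Fin N) (Fin N) B →+* Matrix (Fin N') (Fin N') ℚ := φ2.comp θ
  let ψ : Γ →* GL (Fin N') ℚ := ((φ : _ →* _).comp MBh).toHomUnits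
  have hψ : ∀ x, (ψ x).val = φ (MB x) := fun x => rfl
  have hker : ∀ x, ψ x = 1 → ∀ i j, (MB x - 1) i j ∈ 𝔪 := by
    intro x hx i j
    have h1 : φ (MB x) = 1 := by rw [← hψ, hx, Units.val_one]
    have h2 : θ (MB x - 1) = 0 := by
      apply hφ2
      rw [map_zero, map_sub, map_sub, map_one, map_one]
      exact sub_eq_zero.2 h1
    have h3 := congrFun (congrFun h2 i) j
    exact Ideal.Quotient.eq_zero_iff_mem.1 h3
  refine ⟨N', ψ, ?_, ?_, ?_⟩
  · intro h1
    exact hc (hker h h1 i₀ j₀)
  · intro x hx hx1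
    have h0 := hker x hx1
    obtain ⟨m, hm, hxm⟩ := isOfFinOrder_iff_pow_eq_one.1 hx
    set A : Matrix (Fin N) (Fin N) B := MB x - 1 with hA
    have hAm : (1 + A) ^ m = 1 := by
      have h1 : (1 : Matrix (Fin N) (Fin N) B) + A = MBh x := by
        rw [hA, add_sub_cancel]
        rfl
      rw [h1, ← map_pow, hxm, map_one]
    obtain ⟨C, hC⟩ := bino A m
    have hstep : (m : Matrix (Fin N) (Fin N) B) * A = -(A * A * C) := by
      rw [hAm] at hC
      have h2 : (m : Matrix (Fin N) (Fin N) B) * A + A * A * C = 0 := by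
        have h3 : (1 : Matrix (Fin N) (Fin N) B) = 1 + ((m : Matrix (Fin N) (Fin N) B) * A +
          A * A * C) := by rw [← add_assoc]; exact hC
        exact (add_eq_left.1 h3.symm)
      exact eq_neg_of_add_eq_zero_left h2
    have hall' : ∀ k : ℕ, ∀ i j, A i j ∈ 𝔪 ^ (k + 1) := by
      intro k
      induction k with
      | zero => rw [zero_add, pow_one]; exact h0
      | succ k ih =>
        intro i j
        have h4 : (A * A * C) i j ∈ 𝔪 ^ (k + 1 + 1) := by
          have h5 := mul_entries (X := A * A) (Y := C) (I := 𝔪 ^ (k + 1) * 𝔪 ^ (k + 1)) (J := ⊤)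
            (fun i j => mul_entries ih ih i j) (fun _ _ => Submodule.mem_top) i j
          rw [Ideal.mul_top, ← pow_add] at h5
          exact Ideal.pow_le_pow_right (by omega) h5
        have h6 : (m : B) * A i j = -(A * A * C) i j := by
          have h7 := congrFun (congrFun hstep i) j
          rw [Matrix.neg_apply] at h7
          rw [← h7, ← nsmul_eq_mul, ← nsmul_eq_mul, Matrix.smul_apply]
        have h8 : (algebraMap ℚ B (m : ℚ)⁻¹) * ((m : B) * A i j) = A i j := by
          rw [← mul_assoc]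
          have h9 : (algebraMap ℚ B (m : ℚ)⁻¹) * (m : B) = 1 := by
            rw [show (m : B) = algebraMap ℚ B (m : ℚ) by simp, ← map_mul,
              inv_mul_cancel₀ (by exact_mod_cast hm.ne'), map_one]
          rw [h9, one_mul]
        rw [← h8, h6]
        exact Ideal.mul_mem_left _ _ (neg_mem h4)
    have : IsNoetherianRing B := Algebra.FiniteType.isNoetherianRing ℚ B
    have hkrull := Ideal.iInf_pow_eq_bot_of_isDomain 𝔪 h𝔪.ne_top
    have hA0 : A = 0 := by
      ext i j
      have h10 : A i j ∈ ⨅ k : ℕ, 𝔪 ^ k := by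
        rw [Submodule.mem_iInf]
        intro k
        exact Ideal.pow_le_pow_right (Nat.le_succ k) (hall' k i j)
      rw [hkrull] at h10
      exact congrArg Subtype.val ((Submodule.mem_bot B).1 h10)
    apply hρ
    rw [map_one]
    apply Units.ext
    rw [← hMB x, Units.val_one]
    rw [sub_eq_zero.1 hA0, map_one]
  · intro x hx
    have h1 : (MB x - 1) ^ N = 0 := by
      apply hinj
      rw [map_pow, map_sub, hMB, map_one, hx, map_zero]
    rw [hψ, ← map_one φ, ← map_sub, ← map_pow, h1, map_zero]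

end Pool.Agent.FJA
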