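import Pool.Agent.FJA.StU
import Pool.Agent.FJA.Step7
import Pool.Agent.FJA.P_SUP

/-!
# STQ: the Gauss congruence for functions with integral values at a prime
-/

set_option autoImplicit false

open Matrix Pool.Agent.WhK Pool.Agent.Lib25

noncomputable section

namespace Pool.Agent.FJA

namespace STQ

/-- The lists of a product of elements with lists of length one. -/
theorem len_prod {Γ : Type} [Group Γ] {M : ℕ} (l : List (Rec Γ (Fin M)))
    (h : ∀ t ∈ l, ∀ i, (t.lst i).length = 1) (i : Fin M) : (l.prod.lst i).length = l.length := by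
  induction l with
  | nil => simp
  | cons a l ih =>
    rw [List.prod_cons, Rec.mul_lst, List.length_append, List.length_map,
      h a List.mem_cons_self, ih fun t ht => h t (List.mem_cons_of_mem _ ht), List.length_cons]
    ring

/-- The product of the elements of a function. -/
def pf {Γ : Type} [Group Γ] {M : ℕ} (T : Finset (Rec Γ (Fin M))) (n : ℕ) (f : Fin n → T) :
    Rec Γ (Fin M) := (List.ofFn fun i => ((f i : T) : Rec Γ (Fin M))).prod

theorem exists_pf {Γ : Type} [Group Γ] {M : ℕ} (T : Finset (Rec Γ (Fin (M + 1))))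
    (hT : ∀ t ∈ T, ∀ i, (t.lst i).length = 1) (n : ℕ) (μ : Rec Γ (Fin (M + 1)))
    (hμ : μ ∈ Submonoid.closure (T : Set (Rec Γ (Fin (M + 1)))))
    (hl : ∀ i, (μ.lst i).length = n) : ∃ f : Fin n → T, pf T n f = μ := by
  obtain ⟨l, hl1, rfl⟩ := Submonoid.exists_list_of_mem_closure hμ
  have h1 : l.length = n := by
    rw [← hl 0]
    exact (len_prod l (fun t ht => hT t (Finset.mem_coe.1 (hl1 t ht))) 0).symm
  subst h1
  refine ⟨fun i => ⟨l.get i, Finset.mem_coe.1 (hl1 _ (List.get_mem l i))⟩, ?_⟩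
  unfold pf
  simp only [List.ofFn_get]

/-- A common denominator. -/
theorem exists_den {Γ : Type} [Group Γ] {M ℓ : ℕ} (hℓ : ℓ.Prime)
    (T : Finset (Rec Γ (Fin (M + 1))))
    (hT : ∀ t ∈ T, ∀ i, (t.lst i).length = 1) (n : ℕ) (φ : Rec Γ (Fin (M + 1)) → ℚ)
    (hφ : ∀ μ, ¬ ℓ ∣ (φ μ).den) : ∃ D : ℕ, ¬ ℓ ∣ D ∧
      ∀ μ ∈ Submonoid.closure (T : Set (Rec Γ (Fin (M + 1)))), (∀ i, (μ.lst i).length = n) →
        ∃ z : ℤ, (D : ℚ) * φ μ = z := by
  classical
  refine ⟨∏ f : Fin n → T, (φ (pf T n f)).den, ?_, fun μ hμ hl => ?_⟩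
  · intro h
    obtain ⟨f, _, hf⟩ := (hℓ.prime.dvd_finsetProd_iff _).1 h
    exact hφ _ hf
  · obtain ⟨f, rfl⟩ := exists_pf T hT n μ hμ hl
    have h1 : (φ (pf T n f)).den ∣ ∏ f : Fin n → T, (φ (pf T n f)).den :=
      Finset.dvd_prod_of_mem (fun f => (φ (pf T n f)).den) (Finset.mem_univ f)
    obtain ⟨c, hc⟩ := h1
    refine ⟨c * (φ (pf T n f)).num, ?_⟩
    rw [hc]
    have h2 : ((φ (pf T n f)).den : ℚ) * φ (pf T n f) = (φ (pf T n f)).num :=
      Rat.den_mul_eq_num _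
    push_cast
    rw [mul_comm ((φ (pf T n f)).den : ℚ) (c : ℚ), mul_assoc, h2]

/-- The linearity of `TX`. -/
theorem TX_smul {k : Type} [Field k] [CharZero k] {Γ : Type} [Group Γ] {ι : Type} [Fintype ι]
    [DecidableEq ι] {M : ℕ} (N : ℕ) (X : Fin M → (Matrix ι ι (MonoidAlgebra k Γ))ˣ) (c : ℚ)
    (φ : Rec Γ (Fin M) → ℚ) : TX (fun μ => c * φ μ) N X = (c : k) * TX φ N X :=
  (t_TXlin k Γ ι M N X).2 c φ

end STQ

open STQ Step7

theorem t_STQ : S_STQ := by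
  intro Γ _ M ℓ _ T hT φ htr hint ι _ _ X hX hS
  have hℓ : ℓ.Prime := Fact.out
  obtain ⟨D, hD, hDz⟩ := exists_den hℓ T hT ℓ φ hint
  have hst := step t_SUP (Submonoid.closure (T : Set (Rec Γ (Fin (M + 1))))) 0
    (fun μ => (D : ℚ) * φ μ) (fun μ hμ ν hν => by rw [htr μ hμ ν hν])
    (fun μ hμ hl => hDz μ hμ (by simpa using hl)) X hX
    (fun a b μ h => Submonoid.subset_closure (Finset.mem_coe.2 (hS a b μ h)))
  rw [TX_smul, TX_smul (k := ℚ_[ℓ]) (ℓ ^ 0) X (D : ℚ) (fun μ => φ (μ ^ ℓ)), ← mul_sub, norm_mul]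
    at hst
  have h1 : ‖(((D : ℚ) : ℚ) : ℚ_[ℓ])‖ = 1 := by
    rw [Rat.cast_natCast]
    exact Padic.norm_natCast_eq_one_iff.2 (hℓ.coprime_iff_not_dvd.2 hD)
  rw [h1, one_mul] at hst
  simpa using hst

end Pool.Agent.FJA
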