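import Pool.Agent.FJA.StU

/-!
# Rational families at the elements of finite order
-/

set_option autoImplicit false

open Matrix Pool.Agent.WhK Pool.Agent.Lib25

noncomputable section

namespace Pool.Agent.FJA

namespace TFQ

theorem cocFam {G : Type} [Group G] {n : ℕ} {D : ℕ} {F : (Fin (n + 1) → G) → G → ℚ}
    {F' : (Fin (n + 1) → G) → G → ℤ}
    (hinv : ∀ (g : G) (a : Fin (n + 1) → G) (y : G), F (fun i => g * a i) (g * y * g⁻¹) = F a y)
    (hcoc : ∀ (a : Fin (n + 2) → G) (y : G),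
      ∑ i : Fin (n + 2), (-1 : ℚ) ^ (i : ℕ) * F (fun j => a (i.succAbove j)) y = 0)
    (h : ∀ a y, (D : ℚ) * F a y = (F' a y : ℚ)) : CocFam n F' where
  inv g a y := by
    have h1 : ((F' (fun i => g * a i) (g * y * g⁻¹) : ℤ) : ℚ) = (F' a y : ℤ) := by
      rw [← h, ← h, hinv]
    exact_mod_cast h1
  coc a y := by
    have h1 : ((∑ i : Fin (n + 2), (-1 : ℤ) ^ (i : ℕ) * F' (fun j => a (i.succAbove j)) y : ℤ) : ℚ)
        = 0 := by
      rw [Int.cast_sum]
      calc (∑ i : Fin (n + 2), (((-1 : ℤ) ^ (i : ℕ) * F' (fun j => a (i.succAbove j)) y : ℤ) : ℚ))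
          = ∑ i : Fin (n + 2), (D : ℚ) * ((-1 : ℚ) ^ (i : ℕ) *
            F (fun j => a (i.succAbove j)) y) := by
            refine Finset.sum_congr rfl fun i _ => ?_
            rw [Int.cast_mul, ← h]
            push_cast
            ring
        _ = 0 := by rw [← Finset.mul_sum, hcoc, mul_zero]
    exact_mod_cast h1

end TFQ

theorem t_TFQ (hdeq : S_DEQ) (htfi : S_TFI) : S_TFQ := by
  intro G _ n n0 hn0 p hpp hp hpd F hF r z hz
  obtain ⟨-, -, hc, hd, -⟩ := hdeq
  obtain ⟨D, hD0, hD⟩ := hF.den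
  choose F' hF' using hD
  have hcoc : CocFam (n + 1) F' := TFQ.cocFam hF.inv hF.coc hF'
  have hsup : ∀ a y, F' a y ≠ 0 → orderOf y = n0 := by
    intro a y hy
    refine hF.supp a y fun h0 => hy ?_
    have h1 := hF' a y
    rw [h0, mul_zero] at h1
    exact_mod_cast h1.symm
  have h1 := htfi G n n0 hn0 p hp hpd F' hcoc hsup r z hz
  have h2 : ∀ X : Fin (n + 1 + 1) → (Matrix (Fin r) (Fin r) (MonoidAlgebra ℤ G))ˣ,
      ((dennis F' X : ℤ) : ℚ) = (D : ℚ) * dtr F X := by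
    intro X
    rw [← hd, ← hc]
    congr 1
    funext a y
    exact (hF' a y).symm
  have h3 : (z.sum fun X q => q * ((dennis F' X : ℤ) : ℚ)) =
      (D : ℚ) * (z.sum fun X q => q * dtr F X) := by
    rw [Finsupp.sum, Finsupp.sum, Finset.mul_sum]
    refine Finset.sum_congr rfl fun X _ => ?_
    rw [h2]
    ring
  rw [h3] at h1
  have hD1 : (D : ℚ) ≠ 0 := by exact_mod_cast hD0.ne'
  exact (mul_eq_zero.1 h1).resolve_left hD1

end Pool.Agent.FJA
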