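import Pool.Agent.FJA.StU

/-!
# Module TRB: the Dennis trace and the class of `1`, rational families
-/

set_option autoImplicit false

open Matrix Pool.Agent.WhK Pool.Agent.Lib25

noncomputable section

namespace Pool.Agent.FJA

namespace TRB

variable {G : Type} [Group G]

open Classical in
/-- The invariant family at the class of `y0` with the value `f` at `y0`. -/
def fam (y0 : G) {M : ℕ} (f : (Fin M → G) → ℚ) : (Fin M → G) → G → ℚ :=
  fun a x => if h : ∃ g : G, g * y0 * g⁻¹ = x then f (fun i => h.choose⁻¹ * a i) else 0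

lemma fam_conj (y0 : G) {M : ℕ} {f : (Fin M → G) → ℚ} (hf : CInv y0 f) (a : Fin M → G) (g : G) :
    fam y0 f a (g * y0 * g⁻¹) = f (fun i => g⁻¹ * a i) := by
  have h : ∃ g' : G, g' * y0 * g'⁻¹ = g * y0 * g⁻¹ := ⟨g, rfl⟩
  unfold fam
  rw [dif_pos h]
  have hs := h.choose_spec
  set g' := h.choose with hg'
  have hc : (g⁻¹ * g') * y0 = y0 * (g⁻¹ * g') := by
    have h1 : g' * y0 = g * y0 * g⁻¹ * g' := by rw [← hs]; group
    calc (g⁻¹ * g') * y0 = g⁻¹ * (g' * y0) := by group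
      _ = g⁻¹ * (g * y0 * g⁻¹ * g') := by rw [h1]
      _ = y0 * (g⁻¹ * g') := by group
  rw [← hf (g⁻¹ * g') (fun i => g'⁻¹ * a i) hc]
  congr 1
  funext i
  group

lemma fam_neg (y0 : G) {M : ℕ} (f : (Fin M → G) → ℚ) (a : Fin M → G) {x : G}
    (h : ¬ ∃ g : G, g * y0 * g⁻¹ = x) : fam y0 f a x = 0 := by
  unfold fam
  rw [dif_neg h]

lemma fam_ne {y0 : G} {M : ℕ} {f : (Fin M → G) → ℚ} {a : Fin M → G} {x : G}
    (h : fam y0 f a x ≠ 0) : ∃ g : G, g * y0 * g⁻¹ = x := by
  by_contra hn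
  exact h (fam_neg y0 f a hn)

/-- The values of the family are values of `f` or zero. -/
lemma fam_val (y0 : G) {M : ℕ} (f : (Fin M → G) → ℚ) (a : Fin M → G) (x : G) :
    fam y0 f a x = 0 ∨ ∃ b, fam y0 f a x = f b := by
  by_cases h : ∃ g : G, g * y0 * g⁻¹ = x
  · right
    unfold fam
    rw [dif_pos h]
    exact ⟨_, rfl⟩
  · exact Or.inl (fam_neg y0 f a h)

lemma fam_inv (y0 : G) {M : ℕ} {f : (Fin M → G) → ℚ} (hf : CInv y0 f) (γ : G) (a : Fin M → G)
    (x : G) : fam y0 f (fun i => γ * a i) (γ * x * γ⁻¹) = fam y0 f a x := by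
  by_cases h : ∃ g : G, g * y0 * g⁻¹ = x
  · obtain ⟨g, rfl⟩ := h
    have e : γ * (g * y0 * g⁻¹) * γ⁻¹ = (γ * g) * y0 * (γ * g)⁻¹ := by group
    rw [e, fam_conj y0 hf, fam_conj y0 hf]
    congr 1
    funext i
    group
  · rw [fam_neg y0 f _ h, fam_neg]
    rintro ⟨g, hg⟩
    apply h
    refine ⟨γ⁻¹ * g, ?_⟩
    have : x = γ⁻¹ * (γ * x * γ⁻¹) * γ := by group
    rw [this, ← hg]
    group

lemma fam_coc (y0 : G) {n : ℕ} {f : (Fin (n + 1) → G) → ℚ} (hf : CInv y0 f)
    (hc : ∀ a : Fin (n + 2) → G, cobE f a = 0) (a : Fin (n + 2) → G) (x : G) :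
    ∑ i : Fin (n + 2), (-1 : ℚ) ^ (i : ℕ) * fam y0 f (fun j => a (i.succAbove j)) x = 0 := by
  by_cases h : ∃ g : G, g * y0 * g⁻¹ = x
  · obtain ⟨g, rfl⟩ := h
    rw [← hc (fun i => g⁻¹ * a i)]
    unfold cobE
    exact Finset.sum_congr rfl fun i _ => by rw [fam_conj y0 hf]
  · exact Finset.sum_eq_zero fun i _ => by rw [fam_neg y0 f _ h, mul_zero]

lemma cob_fam (y0 : G) {n : ℕ} {E : (Fin n → G) → ℚ} (hE : CInv y0 E) (a : Fin (n + 1) → G)
    (g : G) : cobE (fun b => fam y0 E b (g * y0 * g⁻¹)) a = cobE E (fun i => g⁻¹ * a i) := by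
  unfold cobE
  exact Finset.sum_congr rfl fun i _ => by
    beta_reduce
    rw [fam_conj y0 hE]

lemma cob_fam_neg (y0 : G) {n : ℕ} (E : (Fin n → G) → ℚ) (a : Fin (n + 1) → G) {x : G}
    (h : ¬ ∃ g : G, g * y0 * g⁻¹ = x) : cobE (fun b => fam y0 E b x) a = 0 := by
  unfold cobE
  exact Finset.sum_eq_zero fun i _ => by
    beta_reduce
    rw [fam_neg y0 E _ h, mul_zero]

/-- The value of the family `F` on the chain `z`. -/
def val {n r : ℕ} (z : (Fin (n + 1) → (Matrix (Fin r) (Fin r) (MonoidAlgebra ℤ G))ˣ) →₀ ℚ)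
    (F : (Fin (n + 1) → G) → G → ℚ) : ℚ :=
  z.sum fun X q => q * dtr F X

lemma val_zero {n r : ℕ}
    (z : (Fin (n + 1) → (Matrix (Fin r) (Fin r) (MonoidAlgebra ℤ G))ˣ) →₀ ℚ)
    {F : (Fin (n + 1) → G) → G → ℚ} (h : ∀ a y, F a y = 0) : val z F = 0 := by
  unfold val
  refine Finset.sum_eq_zero fun X _ => ?_
  have : dtr F X = 0 := by
    unfold dtr
    refine finsum_eq_zero_of_forall_eq_zero fun γ => ?_
    rw [h, mul_zero]
  simp only [this, mul_zero]

lemma val_sum (hdeq : S_DEQ) {n r : ℕ}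
    (z : (Fin (n + 1) → (Matrix (Fin r) (Fin r) (MonoidAlgebra ℤ G))ˣ) →₀ ℚ)
    {I : Type} (s : Finset I) (F : I → (Fin (n + 1) → G) → G → ℚ) :
    val z (fun a y => ∑ i ∈ s, F i a y) = ∑ i ∈ s, val z (F i) := by
  unfold val Finsupp.sum
  rw [Finset.sum_comm]
  refine Finset.sum_congr rfl fun X _ => ?_
  beta_reduce
  rw [hdeq.2.1 G n r I s F X, Finset.mul_sum]

lemma val_add (hdeq : S_DEQ) {n r : ℕ}
    (z : (Fin (n + 1) → (Matrix (Fin r) (Fin r) (MonoidAlgebra ℤ G))ˣ) →₀ ℚ)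
    (F F' : (Fin (n + 1) → G) → G → ℚ) :
    val z (fun a y => F a y + F' a y) = val z F + val z F' := by
  have h := val_sum hdeq z (Finset.univ : Finset Bool) (fun b => if b = true then F else F')
  simp only [Fintype.sum_bool, if_true] at h
  simpa using h

/-- A cocycle of the centralizer of `y0` which satisfies the conditions has the value zero. -/
lemma val_fam (htfq : S_TFQ) (hbfm : S_BFM) (hfwd : S_FWD) (hpdl : S_PDL)
    (hpdg : ∀ n : ℕ, n ≤ 2 → ∀ (G : Type) [Group G], Pdg G n) {m r : ℕ}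
    (z : (Fin (m + 1 + 1) → (Matrix (Fin r) (Fin r) (MonoidAlgebra ℤ G))ˣ) →₀ ℚ)
    (hz : z ∈ cyc ℚ ((Matrix (Fin r) (Fin r) (MonoidAlgebra ℤ G))ˣ) (m + 1))
    (y0 : G) (hy0 : y0 ≠ 1) {f : (Fin (m + 1 + 1) → G) → ℚ} (hf : CInv y0 f)
    (hc : ∀ a : Fin (m + 1 + 2) → G, cobE f a = 0) (hadm : AdmC (m + 1) y0 f) :
    val z (fam y0 f) = 0 := by
  have hinv := fun g a x => fam_inv y0 hf g a x
  have hcoc := fun a x => fam_coc y0 hf hc a x
  have hsup : ∀ a y, fam y0 f a y ≠ 0 → IsConj y y0 := by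
    intro a y h
    exact (isConj_iff.2 (fam_ne h)).symm
  have hden : ∀ p : ℕ, p.Prime → (∀ a, ¬ p ∣ (f a).den) → ∀ a y, ¬ p ∣ (fam y0 f a y).den := by
    intro p hp h a y
    rcases fam_val y0 f a y with h0 | ⟨b, hb⟩
    · rw [h0]
      simpa using hp.one_lt.ne'
    · rw [hb]; exact h b
  rcases hadm with h0 | ⟨hfo, ⟨D, hD0, hD⟩, hp⟩ | hfw | ⟨hpow, hbm⟩
  · refine val_zero z fun a y => ?_
    rcases fam_val y0 f a y with h1 | ⟨b, hb⟩
    · exact h1
    · rw [hb, h0]; rfl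
  · have hpos : 0 < orderOf y0 := hfo.orderOf_pos
    have hne1 : orderOf y0 ≠ 1 := fun h => hy0 (orderOf_eq_one_iff.1 h)
    have hG : GCoch (m + 1) (fun y => orderOf y = orderOf y0) (fam y0 f) := by
      refine ⟨hinv, hcoc, ?_, ?_⟩
      · intro a y h
        obtain ⟨g, rfl⟩ := fam_ne h
        have := orderOf_injective (MulAut.conj g).toMonoidHom (MulAut.conj g).injective y0
        simpa using this
      · refine ⟨D, Nat.pos_of_ne_zero hD0, ?_⟩
        intro a y
        rcases fam_val y0 f a y with h1 | ⟨b, hb⟩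
        · exact ⟨0, by rw [h1]; simp⟩
        · obtain ⟨k, hk⟩ := hD b
          refine ⟨(k : ℤ) * (f b).num, ?_⟩
          rw [hb, hk]
          push_cast
          have h2 : ((f b).den : ℚ) * f b = (f b).num := by
            rw [mul_comm]; exact Rat.mul_den_eq_num (f b)
          rw [mul_comm ((f b).den : ℚ) (k : ℚ), mul_assoc, h2]
    rcases hp with h3 | ⟨p, hp, hpd, hpb⟩
    · have hF2 : Fact (Nat.minFac (orderOf y0)).Prime := ⟨Nat.minFac_prime hne1⟩
      refine htfq G m (orderOf y0) hpos (Nat.minFac (orderOf y0)) (Nat.minFac_dvd _) ?_ _ hG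
        r z hz
      intro n0 hn0 F' hF' B hB hB' e
      exact hpdg m (by omega) G n0 hn0 _ F' hF' B hB hB' e
    · have hF2 : Fact p.Prime := ⟨hp⟩
      exact htfq G m (orderOf y0) hpos p hpd (hpdl G p hpb m) _ hG r z hz
  · refine hfwd G m y0 _ hinv hcoc hsup ?_ r z hz
    intro V
    refine (hfw V).mono ?_
    rintro p ⟨hp, h1, h2, h3⟩
    exact ⟨hp, hden p hp h1, h2, h3⟩
  · refine hbfm G m y0 _ hinv hcoc hsup ?_ ?_ r z hz
    · intro V
      refine (hbm V).mono ?_
      rintro p ⟨hp, h1, h2⟩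
      exact ⟨hp, hden p hp h1, h2⟩
    · intro t a y
      by_cases hy : ∃ g : G, g * y0 * g⁻¹ = y
      · obtain ⟨g, rfl⟩ := hy
        rw [fam_conj y0 hf, fam_conj y0 hf, ← hpow t (fun i => g⁻¹ * a i)]
        congr 1
        funext i
        rw [conj_zpow]
        simp only [mul_assoc, inv_mul_cancel_left]
      · rw [fam_neg y0 f _ hy, fam_neg y0 f _ hy]

end TRB

open TRB in
open Classical in
/-- TRB: the Dennis trace of a cycle of matrices over `ℤ[G]` is the trace of a cycle of `G`, for rational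
families. -/
theorem t_TRB (hdeq : S_DEQ) (htfq : S_TFQ) (hcob : S_COB) (hwoq : S_WOQ) (hbfm : S_BFM)
    (hfwd : S_FWD) (hpdl : S_PDL)
    (hpdg : ∀ n : ℕ, n ≤ 2 → ∀ (G : Type) [Group G], Pdg G n) : S_TRB := by
  intro G _ n r hn z hz
  obtain ⟨m, rfl⟩ : ∃ m, n = m + 1 := ⟨n - 1, by omega⟩
  obtain ⟨w, hw, hwF⟩ := hwoq G m r z hz
  refine ⟨w, hw, ?_⟩
  intro F hinv hadm
  obtain ⟨E0, hE0⟩ := hdeq.2.2.2.2 G (m + 1) r z
  -- representatives and decompositions
  let rp : ConjClasses G → G := fun C => (ConjClasses.exists_rep C).choose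
  have hrp : ∀ C, ConjClasses.mk (rp C) = C := fun C => (ConjClasses.exists_rep C).choose_spec
  have hrp1 : ∀ C, C ≠ ConjClasses.mk (1 : G) → rp C ≠ 1 := by
    intro C hC h
    apply hC
    rw [← hrp C, h]
  have hex : ∀ C : ConjClasses G, ∃ (f' : (Fin (m + 1 + 1) → G) → ℚ) (E : (Fin (m + 1) → G) → ℚ),
      C ≠ ConjClasses.mk (1 : G) → (CInv (rp C) f' ∧ CInv (rp C) E ∧
        (∀ a : Fin (m + 1 + 2) → G, cobE f' a = 0) ∧ (∀ a, F a (rp C) = f' a + cobE E a) ∧
        AdmC (m + 1) (rp C) f') := by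
    intro C
    by_cases hC : C = ConjClasses.mk (1 : G)
    · exact ⟨0, 0, fun h => absurd hC h⟩
    · obtain ⟨f', E, h⟩ := hadm (rp C) (hrp1 C hC)
      exact ⟨f', E, fun _ => h⟩
  choose f' E hfE using hex
  -- the restriction to the class of `1`
  let F1 : (Fin (m + 1 + 1) → G) → G → ℚ := fun a y => if y = 1 then F a y else 0
  let s : Finset (ConjClasses G) :=
    insert (ConjClasses.mk (1 : G)) (E0.image fun y => ConjClasses.mk y)
  have h1s : ConjClasses.mk (1 : G) ∈ s := Finset.mem_insert_self _ _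
  let T : ConjClasses G → (Fin (m + 1 + 1) → G) → G → ℚ := fun C a y =>
    if C = ConjClasses.mk (1 : G) then F1 a y
    else fam (rp C) (f' C) a y + cobE (fun b => fam (rp C) (E C) b y) a
  have hT1 : T (ConjClasses.mk (1 : G)) = F1 := by
    funext a y
    exact if_pos rfl
  have hT2 : ∀ C, C ≠ ConjClasses.mk (1 : G) → T C = fun a y =>
      fam (rp C) (f' C) a y + cobE (fun b => fam (rp C) (E C) b y) a := by
    intro C hC
    funext a y
    exact if_neg hC
  have hcj : ∀ (C : ConjClasses G) (y : G), ConjClasses.mk y = C ↔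
      ∃ g : G, g * rp C * g⁻¹ = y := by
    intro C y
    constructor
    · intro h
      rw [← hrp C] at h
      exact isConj_iff.1 (ConjClasses.mk_eq_mk_iff_isConj.1 h).symm
    · intro h
      rw [← hrp C]
      exact (ConjClasses.mk_eq_mk_iff_isConj.2 (isConj_iff.2 h)).symm
  have hmk1 : ∀ y : G, ConjClasses.mk y = ConjClasses.mk (1 : G) ↔ y = 1 := by
    intro y
    constructor
    · intro h
      exact isConj_one_left.1 (ConjClasses.mk_eq_mk_iff_isConj.1 h)
    · rintro rfl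
      rfl
  have hTneg : ∀ (C : ConjClasses G) (a : Fin (m + 1 + 1) → G) (y : G),
      ConjClasses.mk y ≠ C → T C a y = 0 := by
    intro C a y hy
    by_cases hC : C = ConjClasses.mk (1 : G)
    · rw [hC, hT1]
      have : y ≠ 1 := fun h => hy (by rw [hC]; exact (hmk1 y).2 h)
      exact if_neg this
    · rw [hT2 C hC]
      have h : ¬ ∃ g : G, g * rp C * g⁻¹ = y := fun h => hy ((hcj C y).2 h)
      simp only [fam_neg (rp C) (f' C) a h, cob_fam_neg (rp C) (E C) a h, add_zero]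
  have hTpos : ∀ (a : Fin (m + 1 + 1) → G) (y : G), T (ConjClasses.mk y) a y = F a y := by
    intro a y
    by_cases hC : ConjClasses.mk y = ConjClasses.mk (1 : G)
    · rw [hC, hT1]
      exact if_pos ((hmk1 y).1 hC)
    · obtain ⟨hf, hE, hc, hFE, _⟩ := hfE _ hC
      rw [hT2 _ hC]
      obtain ⟨g, hg⟩ := (hcj (ConjClasses.mk y) y).1 rfl
      have e1 : fam (rp (ConjClasses.mk y)) (f' (ConjClasses.mk y)) a y =
          f' (ConjClasses.mk y) (fun i => g⁻¹ * a i) := by
        have h := fam_conj _ hf a g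
        rw [hg] at h
        exact h
      have e2 : cobE (fun b => fam (rp (ConjClasses.mk y)) (E (ConjClasses.mk y)) b y) a =
          cobE (E (ConjClasses.mk y)) (fun i => g⁻¹ * a i) := by
        rw [← cob_fam _ hE a g, hg]
      have e3 : F a y = F (fun i => g⁻¹ * a i) (rp (ConjClasses.mk y)) := by
        rw [← hinv g (fun i => g⁻¹ * a i) (rp (ConjClasses.mk y)), hg]
        congr 1
        funext i
        rw [mul_inv_cancel_left]
      show fam (rp (ConjClasses.mk y)) (f' (ConjClasses.mk y)) a y +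
        cobE (fun b => fam (rp (ConjClasses.mk y)) (E (ConjClasses.mk y)) b y) a = F a y
      rw [e1, e2, e3, hFE]
  have key : val z F = ∑ C ∈ s, val z (T C) := by
    rw [← val_sum hdeq z s T]
    unfold val
    refine Finset.sum_congr rfl fun X hX => ?_
    have h := hE0 F (fun a y => ∑ C ∈ s, T C a y) ?_ X hX
    · simp only [h]
    · intro y hy a
      have hmem : ConjClasses.mk y ∈ s :=
        Finset.mem_insert_of_mem (Finset.mem_image_of_mem _ hy)
      rw [Finset.sum_eq_single_of_mem _ hmem fun C _ hC => hTneg C a y (fun h => hC h.symm)]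
      exact (hTpos a y).symm
  have hzero : ∀ C ∈ s, C ≠ ConjClasses.mk (1 : G) → val z (T C) = 0 := by
    intro C _ hC
    obtain ⟨hf, hE, hc, hFE, had⟩ := hfE _ hC
    rw [hT2 C hC, val_add hdeq z (fam (rp C) (f' C))
      (fun a y => cobE (fun b => fam (rp C) (E C) b y) a)]
    have e1 := val_fam htfq hbfm hfwd hpdl hpdg z hz (rp C) (hrp1 C hC) hf hc had
    have e2 : val z (fun a y => cobE (fun b => fam (rp C) (E C) b y) a) = 0 :=
      hcob G m (fam (rp C) (E C)) (fun g a x => fam_inv (rp C) hE g a x) r z hz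
    rw [e1, e2, add_zero]
  have h1 : val z F = val z F1 := by
    rw [key, Finset.sum_eq_single_of_mem _ h1s hzero, hT1]
  have h2 := hwF F1 (fun a y h => by
    by_contra hy
    exact h (if_neg hy))
  have h3 : (w.sum fun a q => q * F1 a 1) = w.sum fun a q => q * F a 1 :=
    Finset.sum_congr rfl fun a _ => by
      have : F1 a 1 = F a 1 := if_pos rfl
      simp only [this]
  exact (h1.trans h2).trans h3

end Pool.Agent.FJA
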