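import Pool.Agent.FJA.StT
import Pool.Agent.FJA.P_PSN

/-!
# Module TRF: `evN` is a trace function on the balanced records
-/

set_option autoImplicit false

namespace Pool.Agent.FJA

namespace TRF

variable {Γ : Type} [Group Γ]

theorem rotL_length (y : Γ) (Y : List Γ) : (rotL y Y).length = Y.length := by
  cases Y with
  | nil => rfl
  | cons a Y => simp [rotL]

theorem iter_length (y : Γ) (Y : List Γ) (n : ℕ) : ((rotL y)^[n] Y).length = Y.length := by
  induction n with
  | zero => rfl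
  | succ n ih => rw [Function.iterate_succ_apply', rotL_length, ih]

/-- the section at a rotated list -/
theorem sec_iter {N : ℕ} {s : List Γ → Γ → Γ} (hs : SecF N s) {Y : List Γ} {y : Γ}
    (hl : Y.length = N) (hg : GoodP N Y y) (n : ℕ) :
    ∃ t : ℤ, s ((rotL y)^[n] Y) y = y ^ t * s Y y := by
  induction n with
  | zero => exact ⟨0, by simp⟩
  | succ n ih =>
    obtain ⟨t, ht⟩ := ih
    obtain ⟨t', ht'⟩ := hs.rot ((rotL y)^[n] Y) y (by rw [iter_length, hl])
      (PSN.goodP_rot_iter hg n)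
    refine ⟨t' + t, ?_⟩
    rw [Function.iterate_succ_apply', ht', ht, zpow_add, mul_assoc]

/-- the section at the lists of the product in the other order -/
theorem sec_mul {V : Type} {N : ℕ} (hN : 0 < N) {s : List Γ → Γ → Γ} (hs : SecF N s)
    {μ ν : Rec Γ V} (i : V) (hl : ((μ * ν).lst i).length = N)
    (hl' : ((ν * μ).lst i).length = N) (hg : GoodP N ((μ * ν).lst i) (μ * ν).val) :
    ∃ t : ℤ, μ.val * s ((ν * μ).lst i) (ν * μ).val =
      (μ * ν).val ^ t * s ((μ * ν).lst i) (μ * ν).val := by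
  have hne : (ν * μ).lst i ≠ [] := by
    intro h
    rw [h, List.length_nil] at hl'
    exact hN.ne hl'
  obtain ⟨t, ht⟩ := hs.inv μ.val ((ν * μ).lst i) (ν * μ).val hne
  obtain ⟨t', ht'⟩ := sec_iter hs hl hg (μ.lst i).length
  have h0 : μ.val * (ν * μ).val * μ.val⁻¹ = (μ * ν).val := by
    rw [Rec.mul_val, Rec.mul_val]
    group
  rw [PSN.mul_lst_conj, h0, ht'] at ht
  have h1 : μ.val * ((ν * μ).val ^ t * s ((ν * μ).lst i) (ν * μ).val) =
      (μ * ν).val ^ t * (μ.val * s ((ν * μ).lst i) (ν * μ).val) := by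
    rw [← h0, conj_zpow]
    group
  rw [h1] at ht
  refine ⟨-t + t', ?_⟩
  rw [zpow_add, mul_assoc, ht, zpow_neg, inv_mul_cancel_left]

end TRF

theorem t_TRF : S_TRF := by
  intro Γ _ M N F s hN hinv hb hs Sb _ hgood μ hμ ν hν
  have h0 : μ.val * (ν * μ).val * μ.val⁻¹ = (μ * ν).val := by
    rw [Rec.mul_val, Rec.mul_val]
    group
  by_cases hl : ∀ i, ((μ * ν).lst i).length = N
  · have hl' : ∀ i, ((ν * μ).lst i).length = N := PSA.len_symm hl
    unfold evN
    rw [if_pos hl, if_pos hl']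
    by_cases hF : ∃ a, F a (μ * ν).val ≠ 0
    · have hg := hgood (μ * ν) (Sb.mul_mem hμ hν) hl hF
      choose t ht using fun i => TRF.sec_mul hN hs (μ := μ) (ν := ν) i (hl i) (hl' i) (hg i)
      rw [← hinv μ.val (fun i => s ((ν * μ).lst i) (ν * μ).val) (ν * μ).val, h0,
        ← hb t (fun i => s ((μ * ν).lst i) (μ * ν).val) (μ * ν).val]
      exact congrArg (fun a => F a (μ * ν).val) (funext fun i => (ht i).symm)
    · have h1 : ∀ a, F a (μ * ν).val = 0 := fun a => by
        by_contra h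
        exact hF ⟨a, h⟩
      rw [← hinv μ.val (fun i => s ((ν * μ).lst i) (ν * μ).val) (ν * μ).val, h0, h1, h1]
  · have hl' : ¬ ∀ i, ((ν * μ).lst i).length = N := fun h => hl (PSA.len_symm h)
    unfold evN
    rw [if_neg hl, if_neg hl']

end Pool.Agent.FJA
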