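import Pool.Agent.FJA.StU
import Pool.Agent.FJA.P_PSN

/-!
# Module TRG: `evN` for a section with roots is a trace function on the balanced records
-/

set_option autoImplicit false

namespace Pool.Agent.FJA

namespace TRG

variable {Γ : Type} [Group Γ]

theorem rotL_ne {y : Γ} {Y : List Γ} (hY : Y ≠ []) : rotL y Y ≠ [] := by
  cases Y with
  | nil => exact (hY rfl).elim
  | cons a Y =>
    intro h
    have h1 : Y ++ [y * a] = [] := h
    simp at h1

theorem iter_ne {y : Γ} {Y : List Γ} (hY : Y ≠ []) (n : ℕ) : (rotL y)^[n] Y ≠ [] := by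
  induction n with
  | zero => exact hY
  | succ n ih =>
    rw [Function.iterate_succ_apply']
    exact rotL_ne ih

theorem goodR_rot {ρ : Γ → Γ} {Y : List Γ} {y : Γ} (h : GoodR ρ Y y) : GoodR ρ (rotL y Y) y :=
  fun δ e hs => h δ e (PSN.stb_rot hs)

theorem goodR_rot_iter {ρ : Γ → Γ} {Y : List Γ} {y : Γ} (h : GoodR ρ Y y) (n : ℕ) :
    GoodR ρ ((rotL y)^[n] Y) y := by
  induction n with
  | zero => exact h
  | succ n ih =>
    rw [Function.iterate_succ_apply']
    exact goodR_rot ih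

/-- the section at a rotated list -/
theorem sec_iter {ρ : Γ → Γ} {s : List Γ → Γ → Γ} (hs : SecG ρ s) {Y : List Γ} {y : Γ}
    (hY : Y ≠ []) (hg : GoodR ρ Y y) (n : ℕ) :
    s ((rotL y)^[n] Y) y = ρ y ^ n * s Y y := by
  induction n with
  | zero => simp
  | succ n ih =>
    rw [Function.iterate_succ_apply', hs.rot ((rotL y)^[n] Y) y (iter_ne hY n)
      (goodR_rot_iter hg n), ih, pow_succ', mul_assoc]

/-- the section at the lists of the product in the other order -/
theorem sec_mul {V : Type} {ρ : Γ → Γ} {s : List Γ → Γ → Γ} (hs : SecG ρ s)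
    {μ ν : Rec Γ V} (i : V) (hne : (μ * ν).lst i ≠ []) (hne' : (ν * μ).lst i ≠ [])
    (hg : GoodR ρ ((μ * ν).lst i) (μ * ν).val) :
    μ.val * s ((ν * μ).lst i) (ν * μ).val =
      ρ (μ * ν).val ^ (μ.lst i).length * s ((μ * ν).lst i) (μ * ν).val := by
  have h0 : μ.val * (ν * μ).val * μ.val⁻¹ = (μ * ν).val := by
    rw [Rec.mul_val, Rec.mul_val]
    group
  have ht := hs.inv μ.val ((ν * μ).lst i) (ν * μ).val hne'
  rw [PSN.mul_lst_conj, h0, sec_iter hs hne hg] at ht
  exact ht.symm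

/-- the root commutes with the element -/
theorem rho_comm {ρ : Γ → Γ} (hρ : ∀ γ y : Γ, ρ (γ * y * γ⁻¹) = γ * ρ y * γ⁻¹) (y : Γ) (n : ℕ) :
    ρ y ^ n * y * (ρ y ^ n)⁻¹ = y := by
  have h1 := hρ y y
  rw [mul_inv_cancel_right] at h1
  have h2 : Commute y (ρ y) := by
    change y * ρ y = ρ y * y
    calc y * ρ y = y * ρ y * y⁻¹ * y := by group
      _ = ρ y * y := by rw [← h1]
  have h3 : Commute (ρ y ^ n) y := (h2.pow_right n).symm
  rw [h3.eq, mul_inv_cancel_right]

end TRG

theorem t_TRG : S_TRG := by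
  intro Γ _ M N F ρ s hN hinv hρ hs Sb hB hgood μ hμ ν hν
  have h0 : μ.val * (ν * μ).val * μ.val⁻¹ = (μ * ν).val := by
    rw [Rec.mul_val, Rec.mul_val]
    group
  by_cases hl : ∀ i, ((μ * ν).lst i).length = N
  · have hl' : ∀ i, ((ν * μ).lst i).length = N := PSA.len_symm hl
    have hne : ∀ i, (μ * ν).lst i ≠ [] := fun i h => by
      have h1 := hl i
      rw [h, List.length_nil] at h1
      exact hN.ne h1
    have hne' : ∀ i, (ν * μ).lst i ≠ [] := fun i h => by
      have h1 := hl' i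
      rw [h, List.length_nil] at h1
      exact hN.ne h1
    unfold evN
    rw [if_pos hl, if_pos hl']
    by_cases hF : ∃ a, F a (μ * ν).val ≠ 0
    · have hg := hgood (μ * ν) (Sb.mul_mem hμ hν) hl hF
      obtain ⟨c, hc⟩ := hB hμ
      rw [← hinv μ.val (fun i => s ((ν * μ).lst i) (ν * μ).val) (ν * μ).val, h0]
      have h2 := hinv (ρ (μ * ν).val ^ c) (fun i => s ((μ * ν).lst i) (μ * ν).val) (μ * ν).val
      rw [TRG.rho_comm hρ] at h2
      rw [← h2]
      refine congrArg (fun a => F a (μ * ν).val) (funext fun i => ?_)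
      rw [TRG.sec_mul hs i (hne i) (hne' i) (hg i), hc i]
    · have h1 : ∀ a, F a (μ * ν).val = 0 := fun a => by
        by_contra h
        exact hF ⟨a, h⟩
      rw [← hinv μ.val (fun i => s ((ν * μ).lst i) (ν * μ).val) (ν * μ).val, h0, h1, h1]
  · have hl' : ¬ ∀ i, ((ν * μ).lst i).length = N := fun h => hl (PSA.len_symm h)
    unfold evN
    rw [if_neg hl, if_neg hl']

end Pool.Agent.FJA
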