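import Pool.Agent.FJA.StT
import Pool.Agent.FJA.P_RPB
import Pool.Agent.FJA.P_SUP

/-!
# VAN: the functionals of the families at elements of order divisible by `p` vanish
-/

set_option autoImplicit false

open Matrix Pool.Agent.WhK Pool.Agent.Lib25

noncomputable section

namespace Pool.Agent.FJA

theorem t_VAN : S_VAN := by
  intro G _ n n0 hn0 p hpp hp hpdg F hF B hB hbd
  obtain ⟨-, hsupb, -⟩ := t_SUP
  have hsb : ∀ x : (Σ r : ℕ, (Fin (n + 3) → (Matrix (Fin r) (Fin r)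
      (MonoidAlgebra ℚ_[p] (G × Multiplicative ℤ)))ˣ)),
      ∃ m : ℕ, ∀ a b μ, (UX x.2 a b).coeff μ ≠ 0 → orderOf μ.val ≤ m := by
    intro x
    obtain ⟨Tx, -, hTx⟩ := hsupb ℚ_[p] (G × Multiplicative ℤ) (Fin x.1) (n + 3) x.2
    refine ⟨Tx.sup fun μ => orderOf μ.val, fun a b μ hμ => ?_⟩
    exact Finset.le_sup (f := fun μ : Rec (G × Multiplicative ℤ) (Fin (n + 3)) => orderOf μ.val)
      (hTx a b μ hμ)
  choose m hm using hsb
  obtain ⟨E, hE⟩ : ∃ E, B.support.sup m < p ^ E :=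
    ⟨B.support.sup m, Nat.lt_pow_self hpp.out.one_lt⟩
  have h1 := hpdg n0 hn0 F (RPB.gcoch hF) B hB hbd E
  rw [h1]
  unfold TK
  rw [Finsupp.linearCombination_apply]
  refine Finset.sum_eq_zero fun x hx => ?_
  have h2 : TX (fst (powF (p ^ E) (cup F))) 1 x.2 = 0 := by
    unfold TX
    rw [pow_one]
    refine TXD.lin_zero (T := {μ | orderOf μ.val ≤ m x}) ?_ ?_
    · exact TXD.sp_trace fun a b μ hμ => hm x a b μ hμ
    · intro μ hμ
      refine RPB.fst_congr fun a => ?_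
      refine RPB.powF_zero hn0 hpp.out hp F hF a μ.val ?_
      exact lt_of_le_of_lt (le_trans hμ (Finset.le_sup (f := m) hx)) hE
  change B x • TX (fst (powF (p ^ E) (cup F))) 1 x.2 = 0
  rw [h2, smul_zero]

end Pool.Agent.FJA
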