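import Pool.Agent.FJA.StU

/-!
# WOQ: the class of `1` for rational functions
-/

set_option autoImplicit false

open Matrix Pool.Agent.WhK Pool.Agent.Lib25

noncomputable section

namespace Pool.Agent.FJA

namespace WOQ

open Classical in
/-- The indicator function of `(a0, 1)`. -/
def ind {G : Type} [Group G] {m : ℕ} (a0 : Fin m → G) : (Fin m → G) → G → ℤ :=
  fun a y => if a = a0 ∧ y = 1 then 1 else 0

theorem ind_ne {G : Type} [Group G] {m : ℕ} (a0 a : Fin m → G) (y : G) (h : ind a0 a y ≠ 0) :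
    y = 1 := by
  unfold ind at h
  by_contra hy
  apply h
  rw [if_neg (fun h1 => hy h1.2)]

theorem ind_one_self {G : Type} [Group G] {m : ℕ} (a : Fin m → G) : ind a a 1 = 1 := by
  unfold ind
  rw [if_pos ⟨rfl, rfl⟩]

theorem ind_one_ne {G : Type} [Group G] {m : ℕ} (a0 a : Fin m → G) (h : a ≠ a0) :
    ind a0 a 1 = 0 := by
  unfold ind
  rw [if_neg (fun h1 => h h1.1)]

theorem ind_y_ne {G : Type} [Group G] {m : ℕ} (a0 a : Fin m → G) (y : G) (h : y ≠ 1) :
    ind a0 a y = 0 := by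
  by_contra hc
  exact h (ind_ne a0 a y hc)

theorem sum_ind_mem {G : Type} [Group G] {m : ℕ} (A : Finset (Fin m → G))
    (f : (Fin m → G) → ℚ) (a : Fin m → G) (ha : a ∈ A) :
    ∑ a0 ∈ A, f a0 * qF (ind a0) a 1 = f a := by
  rw [Finset.sum_eq_single_of_mem a ha]
  · unfold qF
    rw [ind_one_self, Int.cast_one, mul_one]
  · intro b _ hb
    unfold qF
    rw [ind_one_ne b a (Ne.symm hb), Int.cast_zero, mul_zero]

theorem sum_ind_ne {G : Type} [Group G] {m : ℕ} (A : Finset (Fin m → G))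
    (f : (Fin m → G) → ℚ) (a : Fin m → G) (y : G) (hy : y ≠ 1) :
    ∑ a0 ∈ A, f a0 * qF (ind a0) a y = 0 := by
  apply Finset.sum_eq_zero
  intro b _
  unfold qF
  rw [ind_y_ne b a y hy, Int.cast_zero, mul_zero]

/-- `dtr F X` only depends on the values of `F` at the paths which occur. -/
theorem dtr_congr {G : Type} [Group G] {n r : ℕ} {F F' : (Fin (n + 1) → G) → G → ℚ}
    {X : Fin (n + 1) → (Matrix (Fin r) (Fin r) (MonoidAlgebra ℤ G))ˣ}
    (h : ∀ γ : Fin (n + 1) → G, dcoef X γ ≠ 0 →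
      F (fpr γ) (List.ofFn γ).prod = F' (fpr γ) (List.ofFn γ).prod) :
    dtr F X = dtr F' X := by
  unfold dtr
  apply finsum_congr
  intro γ
  by_cases h0 : dcoef X γ = 0
  · rw [h0, Int.cast_zero, zero_mul, zero_mul]
  · rw [h γ h0]

end WOQ

open WOQ in
theorem t_WOQ (hdeq : S_DEQ) (hdez : S_DEZ) (hwon : S_WON) : S_WOQ := by
  classical
  intro G _ n r z hz
  obtain ⟨hfin, -, -⟩ := hdez
  obtain ⟨-, hadd, hmul, hint, -⟩ := hdeq
  obtain ⟨w, hw, hwF⟩ := hwon G n r z hz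
  refine ⟨w, hw, fun F hF => ?_⟩
  obtain ⟨S, hS⟩ : ∃ S : (Fin (n + 2) → (Matrix (Fin r) (Fin r) (MonoidAlgebra ℤ G))ˣ) →
      Finset (Fin (n + 2) → G), ∀ X γ, dcoef X γ ≠ 0 → γ ∈ S X :=
    ⟨fun X => (hfin ℤ G (n + 1) r X).toFinset, fun X γ h => by
      rw [Set.Finite.mem_toFinset]
      exact h⟩
  obtain ⟨A, hA1, hA2⟩ : ∃ A : Finset (Fin (n + 2) → G),
      (∀ X ∈ z.support, ∀ γ, dcoef X γ ≠ 0 → fpr γ ∈ A) ∧ w.support ⊆ A := by
    refine ⟨(z.support.biUnion fun X => (S X).image fpr) ∪ w.support, ?_, ?_⟩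
    · intro X hX γ hγ
      apply Finset.mem_union_left
      rw [Finset.mem_biUnion]
      exact ⟨X, hX, Finset.mem_image_of_mem _ (hS X γ hγ)⟩
    · exact Finset.subset_union_right
  have h1 : ∀ X ∈ z.support, dtr F X = ∑ a0 ∈ A, F a0 1 * ((dennis (ind a0) X : ℤ) : ℚ) := by
    intro X hX
    have h2 : dtr F X =
        dtr (fun a y => ∑ a0 ∈ A, (fun a y => F a0 1 * qF (ind a0) a y) a y) X := by
      apply dtr_congr
      intro γ hγ
      by_cases hp : (List.ofFn γ).prod = 1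
      · rw [hp]
        exact (sum_ind_mem A (fun a => F a 1) (fpr γ) (hA1 X hX γ hγ)).symm
      · have h3 : F (fpr γ) (List.ofFn γ).prod = 0 := by
          by_contra h4
          exact hp (hF _ _ h4)
        rw [h3]
        exact (sum_ind_ne A (fun a => F a 1) (fpr γ) _ hp).symm
    rw [h2, hadd G (n + 1) r _ A (fun a0 a y => F a0 1 * qF (ind a0) a y) X]
    refine Finset.sum_congr rfl fun a0 _ => ?_
    rw [hmul G (n + 1) r (F a0 1) (qF (ind a0)) X, hint]
  have h2 : (z.sum fun X q => q * dtr F X) =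
      ∑ a0 ∈ A, F a0 1 * (z.sum fun X q => q * ((dennis (ind a0) X : ℤ) : ℚ)) := by
    unfold Finsupp.sum
    calc ∑ X ∈ z.support, z X * dtr F X
        = ∑ X ∈ z.support, ∑ a0 ∈ A, F a0 1 * (z X * ((dennis (ind a0) X : ℤ) : ℚ)) := by
          refine Finset.sum_congr rfl fun X hX => ?_
          rw [h1 X hX, Finset.mul_sum]
          refine Finset.sum_congr rfl fun a0 _ => ?_
          ring
      _ = ∑ a0 ∈ A, ∑ X ∈ z.support, F a0 1 * (z X * ((dennis (ind a0) X : ℤ) : ℚ)) :=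
          Finset.sum_comm
      _ = _ := by
          refine Finset.sum_congr rfl fun a0 _ => ?_
          rw [Finset.mul_sum]
  rw [h2]
  have h3 : ∀ a0 ∈ A, (z.sum fun X q => q * ((dennis (ind a0) X : ℤ) : ℚ)) = w a0 := by
    intro a0 _
    rw [hwF (ind a0) (ind_ne a0)]
    unfold Finsupp.sum
    by_cases h4 : a0 ∈ w.support
    · rw [Finset.sum_eq_single_of_mem a0 h4]
      · change w a0 * ((ind a0 a0 1 : ℤ) : ℚ) = w a0
        rw [ind_one_self, Int.cast_one, mul_one]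
      · intro b _ hb
        change w b * ((ind a0 b 1 : ℤ) : ℚ) = 0
        rw [ind_one_ne a0 b hb, Int.cast_zero, mul_zero]
    · rw [Finsupp.notMem_support_iff.1 h4]
      apply Finset.sum_eq_zero
      intro b hb
      have hb' : b ≠ a0 := by
        rintro rfl
        exact h4 hb
      change w b * ((ind a0 b 1 : ℤ) : ℚ) = 0
      rw [ind_one_ne a0 b hb', Int.cast_zero, mul_zero]
  rw [Finset.sum_congr rfl fun a0 ha0 => by rw [h3 a0 ha0]]
  rw [Finsupp.sum, Finset.sum_subset hA2]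
  · refine Finset.sum_congr rfl fun a _ => ?_
    ring
  · intro a _ ha
    rw [Finsupp.notMem_support_iff.1 ha, zero_mul]

end Pool.Agent.FJA
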