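import Pool.Agent.FJA.CoreAll4
import Pool.Agent.FJA.P_PDL
import Pool.Agent.FJA.P_DEN
import Pool.Agent.FJA.P_DEZ
import Pool.Agent.FJA.P_SHF
import Pool.Agent.FJA.P_VAN
import Pool.Agent.FJA.P_TFI
import Pool.Agent.FJA.P_SEF
import Pool.Agent.FJA.P_TRF
import Pool.Agent.FJA.P_SCF
import Pool.Agent.FJA.P_WON
import Pool.Agent.FJA.P_DEQ
import Pool.Agent.FJA.P_TFQ
import Pool.Agent.FJA.P_COB
import Pool.Agent.FJA.P_WOQ
import Pool.Agent.FJA.P_GMQ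
import Pool.Agent.FJA.P_STQ
import Pool.Agent.FJA.P_BFM
import Pool.Agent.FJA.P_SEG
import Pool.Agent.FJA.P_SCG
import Pool.Agent.FJA.P_TRG
import Pool.Agent.FJA.P_FWD
import Pool.Agent.FJA.P_FGS
import Pool.Agent.FJA.P_NAT
import Pool.Agent.FJA.P_TRB
import Pool.Agent.FJA.P_TRC
import Pool.Agent.FJA.P_LTB
import Pool.Agent.FJA.P_LCJ
import Pool.Agent.FJA.P_SPC
import Pool.Agent.FJA.P_LTK
import Pool.Agent.FJA.P_LCK
import Pool.Agent.FJA.P_LJK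
import Pool.Agent.FJA.P_LNK

/-!
# The Dennis trace: the theorems of the modules, composed
-/

set_option autoImplicit false

noncomputable section

namespace Pool.Agent.FJA

theorem h_PDL : S_PDL := t_PDL t_GAQ h_EVQ t_PNT h_AVS t_SUP
theorem h_TFI : S_TFI := t_TFI t_DEN t_DEZ t_SHF t_VAN
theorem h_WON : S_WON := t_WON t_DEN t_DEZ
theorem h_DEQ : S_DEQ := t_DEQ t_DEZ
theorem h_TFQ : S_TFQ := t_TFQ h_DEQ h_TFI
theorem h_COB : S_COB := t_COB t_DEN h_DEQ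
theorem h_WOQ : S_WOQ := t_WOQ h_DEQ t_DEZ h_WON
theorem h_BFM : S_BFM := t_BFM t_DEN h_DEQ t_SEF t_TRF t_SCF t_STQ
theorem h_FWD : S_FWD := t_FWD t_DEN h_DEQ t_STQ t_SEG t_SCG t_TRG
theorem h_TRB : S_TRB := t_TRB h_DEQ h_TFQ h_COB h_WOQ h_BFM h_FWD h_PDL fun n hn G _ => h_PDG n hn G
theorem h_TRC : S_TRC := t_TRC t_FGS t_NAT h_TRB
theorem h_LTK : S_LTK := t_LTK t_LTB t_SPC
theorem h_LJK : S_LJK := t_LJK t_SPC t_LCJ
theorem h_LNK : S_LNK := t_LNK h_LTK t_LCK h_LJK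

end Pool.Agent.FJA
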