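import Pool.Agent.FJA.StW

/-!
# The higher components of the Chern character: module HAL   (helper37)

Antisymmetrization.
-/

set_option autoImplicit false

namespace Pool.Agent.FJA

namespace HAL

open Equiv

/-- the permutation with `0 ↦ i`, `succ j ↦ i.succAbove (π j)` -/
def rho {M : ℕ} (q : Fin (M + 1) × Perm (Fin M)) : Perm (Fin (M + 1)) :=
  q.1.cycleRange.symm * Equiv.Perm.decomposeFin.symm (0, q.2)

theorem rho_zero {M : ℕ} (q : Fin (M + 1) × Perm (Fin M)) : rho q 0 = q.1 := by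
  simp [rho]

theorem rho_succ {M : ℕ} (q : Fin (M + 1) × Perm (Fin M)) (j : Fin M) :
    rho q j.succ = q.1.succAbove (q.2 j) := by
  simp [rho]

theorem sign_rho {M : ℕ} (q : Fin (M + 1) × Perm (Fin M)) :
    ((Perm.sign (rho q) : ℤ) : ℚ) = (-1 : ℚ) ^ (q.1 : ℕ) * ((Perm.sign q.2 : ℤ) : ℚ) := by
  have h1 : Perm.sign (rho q) = (-1) ^ (q.1 : ℕ) * Perm.sign q.2 := by
    unfold rho
    rw [Perm.sign_mul, Perm.sign_symm, Fin.sign_cycleRange]
    congr 1
    simp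
  rw [h1]
  push_cast
  ring

theorem rho_bij {M : ℕ} : Function.Bijective (rho (M := M)) := by
  rw [Fintype.bijective_iff_injective_and_card]
  refine ⟨?_, ?_⟩
  · intro q q' h
    have h0 : q.1 = q'.1 := by rw [← rho_zero q, ← rho_zero q', h]
    have h1 : q.2 = q'.2 := by
      ext j
      have h2 := rho_succ q j
      rw [h, rho_succ, h0] at h2
      exact congrArg Fin.val (Fin.succAbove_right_injective h2).symm
    exact Prod.ext h0 h1
  · simp [Fintype.card_perm, Nat.factorial_succ]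

theorem main {α : Type} {M : ℕ} (g : (Fin (M + 1) → α) → ℚ) (h : (Fin M → α) → ℚ)
    (hg : ∀ (σ : Perm (Fin (M + 1))) (Y : Fin (M + 1) → α),
      g (fun j => Y (σ j)) = ((Perm.sign σ : ℤ) : ℚ) * g Y)
    (hh : ∀ Y : Fin (M + 1) → α, g Y = ∑ i : Fin (M + 1), (-1 : ℚ) ^ (i : ℕ) *
      h (fun j => Y (i.succAbove j))) (Y : Fin (M + 1) → α) :
    ((M.factorial : ℚ)) * g Y = ∑ σ : Perm (Fin (M + 1)), ((Perm.sign σ : ℤ) : ℚ) *
      h (fun j => Y (σ j.succ)) := by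
  have h1 : ((M + 1).factorial : ℚ) * g Y = ∑ σ : Perm (Fin (M + 1)),
      ((Perm.sign σ : ℤ) : ℚ) * g (fun j => Y (σ j)) := by
    have e : ∀ σ : Perm (Fin (M + 1)),
        ((Perm.sign σ : ℤ) : ℚ) * g (fun j => Y (σ j)) = g Y := by
      intro σ
      rw [hg, ← mul_assoc, ← Int.cast_mul, ← Units.val_mul, ← sq, Int.units_sq]
      simp
    rw [Finset.sum_congr rfl fun σ _ => e σ, Finset.sum_const, Finset.card_univ,
      Fintype.card_perm, Fintype.card_fin, nsmul_eq_mul]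
  have h2 : ∀ i : Fin (M + 1), ∑ σ : Perm (Fin (M + 1)), ((Perm.sign σ : ℤ) : ℚ) *
      ((-1 : ℚ) ^ (i : ℕ) * h (fun j => Y (σ (i.succAbove j)))) =
      ∑ σ : Perm (Fin (M + 1)), ((Perm.sign σ : ℤ) : ℚ) * h (fun j => Y (σ j.succ)) := by
    intro i
    refine Fintype.sum_equiv (Equiv.mulRight i.cycleRange⁻¹) _ _ fun σ => ?_
    have e1 : ((Perm.sign (σ * i.cycleRange⁻¹) : ℤ) : ℚ) =
        ((Perm.sign σ : ℤ) : ℚ) * (-1 : ℚ) ^ (i : ℕ) := by
      rw [Perm.sign_mul, Perm.sign_inv, Fin.sign_cycleRange]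
      push_cast
      ring
    have e2 : ∀ j : Fin M, (σ * i.cycleRange⁻¹) j.succ = σ (i.succAbove j) := by
      intro j
      rw [Perm.mul_apply]
      congr 1
      exact Fin.cycleRange_symm_succ i j
    rw [Equiv.coe_mulRight, e1]
    simp only [e2]
    ring
  have h3 : ((M + 1).factorial : ℚ) * g Y = (M + 1 : ℚ) * ∑ σ : Perm (Fin (M + 1)),
      ((Perm.sign σ : ℤ) : ℚ) * h (fun j => Y (σ j.succ)) := by
    rw [h1]
    have e : ∀ σ : Perm (Fin (M + 1)), ((Perm.sign σ : ℤ) : ℚ) * g (fun j => Y (σ j)) =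
        ∑ i : Fin (M + 1), ((Perm.sign σ : ℤ) : ℚ) *
          ((-1 : ℚ) ^ (i : ℕ) * h (fun j => Y (σ (i.succAbove j)))) := by
      intro σ
      rw [hh, Finset.mul_sum]
    rw [Finset.sum_congr rfl fun σ _ => e σ, Finset.sum_comm, Finset.sum_congr rfl fun i _ => h2 i,
      Finset.sum_const, Finset.card_univ, Fintype.card_fin, nsmul_eq_mul]
    push_cast
    ring
  have h4 : (M + 1 : ℚ) ≠ 0 := by positivity
  have h5 : ((M + 1).factorial : ℚ) = (M + 1 : ℚ) * (M.factorial : ℚ) := by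
    rw [Nat.factorial_succ]
    push_cast
    ring
  rw [h5, mul_assoc] at h3
  exact mul_left_cancel₀ h4 h3

theorem fin {α : Type} {M : ℕ} (g : (Fin (M + 1) → α) → ℚ) (h : (Fin M → α) → ℚ)
    (hg : ∀ (σ : Perm (Fin (M + 1))) (Y : Fin (M + 1) → α),
      g (fun j => Y (σ j)) = ((Perm.sign σ : ℤ) : ℚ) * g Y)
    (hh : ∀ Y : Fin (M + 1) → α, g Y = ∑ i : Fin (M + 1), (-1 : ℚ) ^ (i : ℕ) *
      h (fun j => Y (i.succAbove j))) (Y : Fin (M + 1) → α) :
    g Y = ∑ i : Fin (M + 1), (-1 : ℚ) ^ (i : ℕ) *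
      (((M.factorial : ℚ))⁻¹ * ∑ π : Perm (Fin M), ((Perm.sign π : ℤ) : ℚ) *
        h (fun j => Y (i.succAbove (π j)))) := by
  have h0 : (M.factorial : ℚ) ≠ 0 := by positivity
  have h1 := main g h hg hh Y
  have h2 : ∑ σ : Perm (Fin (M + 1)), ((Perm.sign σ : ℤ) : ℚ) * h (fun j => Y (σ j.succ)) =
      ∑ q : Fin (M + 1) × Perm (Fin M), (-1 : ℚ) ^ (q.1 : ℕ) * (((Perm.sign q.2 : ℤ) : ℚ) *
        h (fun j => Y (q.1.succAbove (q.2 j)))) := by
    symm
    refine Fintype.sum_equiv (Equiv.ofBijective _ rho_bij) _ _ fun q => ?_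
    rw [Equiv.ofBijective_apply, sign_rho]
    simp only [rho_succ]
    ring
  rw [h2, Fintype.sum_prod_type] at h1
  have h3 : g Y = ((M.factorial : ℚ))⁻¹ * ∑ i : Fin (M + 1), ∑ π : Perm (Fin M),
      (-1 : ℚ) ^ (i : ℕ) * (((Perm.sign π : ℤ) : ℚ) * h (fun j => Y (i.succAbove (π j)))) := by
    rw [← h1, ← mul_assoc, inv_mul_cancel₀ h0, one_mul]
  rw [h3, Finset.mul_sum]
  refine Finset.sum_congr rfl fun i _ => ?_
  rw [Finset.mul_sum, Finset.mul_sum, Finset.mul_sum]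
  refine Finset.sum_congr rfl fun π _ => ?_
  ring

end HAL

theorem t_HAL : S_HAL := fun _ _ g h hg hh Y => HAL.fin g h hg hh Y

end Pool.Agent.FJA
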