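import Pool.Agent.FJA.StW

/-!
# Degenerate chains and the operator of Connes
-/

set_option autoImplicit false

namespace Pool.Agent.FJA

namespace HB2

variable {V : Type}

/-- Lists with two equal consecutive entries. -/
def Dup (Y : List V) : Prop := ∃ (A B : List V) (v : V), Y = A ++ v :: v :: B

lemma mem_degL {Y : List V} (h : Dup Y) (q : ℚ) : Finsupp.single Y q ∈ degL V := by
  obtain ⟨A, B, v, rfl⟩ := h
  have h1 : Finsupp.single (A ++ v :: v :: B) q = q • Finsupp.single (A ++ v :: v :: B) (1 : ℚ) := by
    rw [Finsupp.smul_single, smul_eq_mul, mul_one]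
  rw [h1]
  exact Submodule.smul_mem _ _ (Submodule.subset_span ⟨A, B, v, rfl⟩)

lemma Dup.append_right {Y : List V} (h : Dup Y) (Z : List V) : Dup (Y ++ Z) := by
  obtain ⟨A, B, v, rfl⟩ := h
  exact ⟨A, B ++ Z, v, by simp⟩

lemma Dup.append_left {Y : List V} (h : Dup Y) (Z : List V) : Dup (Z ++ Y) := by
  obtain ⟨A, B, v, rfl⟩ := h
  exact ⟨Z ++ A, B, v, by simp⟩

lemma dup_mid (A B : List V) (v : V) : Dup (A ++ v :: v :: B) := ⟨A, B, v, rfl⟩

lemma conB_single (X : List V) (q : ℚ) : conB V (Finsupp.single X q) =
    ∑ j ∈ Finset.range X.length,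
      Finsupp.single (X.rotate j ++ (X.rotate j).take 1) (q * (-1 : ℚ) ^ ((X.length + 1) * (j + 1))) := by
  unfold conB
  rw [Finsupp.linearCombination_single, Finset.smul_sum]
  refine Finset.sum_congr rfl fun j _ => ?_
  rw [Finsupp.smul_single, smul_eq_mul]

/-- every term of `B` is degenerate: the image is degenerate -/
lemma conB_mem {X : List V} (h : ∀ j < X.length, Dup (X.rotate j ++ (X.rotate j).take 1)) (q : ℚ) :
    conB V (Finsupp.single X q) ∈ degL V := by
  rw [conB_single]
  exact Submodule.sum_mem _ fun j hj => mem_degL (h j (Finset.mem_range.1 hj)) _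

/-- lists which start and end with the same entry -/
lemma dup_ends (Z : List V) (v : V) (i : ℕ) (hi : i < (v :: (Z ++ [v])).length) :
    Dup ((v :: (Z ++ [v])).rotate i ++ ((v :: (Z ++ [v])).rotate i).take 1) := by
  rcases Nat.eq_zero_or_pos i with rfl | hpos
  · rw [List.rotate_zero]
    have : v :: (Z ++ [v]) ++ List.take 1 (v :: (Z ++ [v])) = (v :: Z) ++ v :: v :: [] := by simp
    rw [this]
    exact dup_mid _ _ _
  · obtain ⟨m, rfl⟩ : ∃ m, i = m + 1 := ⟨i - 1, by omega⟩
    have hm : m ≤ Z.length := by
      simp only [List.length_cons, List.length_append, List.length_nil] at hi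
      omega
    refine Dup.append_right ?_ _
    rw [List.rotate_eq_drop_append_take hi.le, List.drop_succ_cons, List.take_succ_cons,
      List.drop_append_of_le_length hm, List.append_assoc]
    exact dup_mid _ _ _

lemma dup_rot (A C : List V) (v : V) (j : ℕ) (hj : j < (A ++ v :: v :: C).length) :
    Dup ((A ++ v :: v :: C).rotate j ++ ((A ++ v :: v :: C).rotate j).take 1) := by
  rcases Nat.lt_or_ge A.length j with h1 | h1
  · rcases Nat.lt_or_ge (A.length + 1) j with h2 | h2
    · refine Dup.append_right ?_ _
      rw [List.rotate_eq_drop_append_take hj.le]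
      refine Dup.append_left ?_ _
      obtain ⟨m, rfl⟩ : ∃ m, j = A.length + (m + 2) := ⟨j - A.length - 2, by omega⟩
      rw [List.take_length_add_append, List.take_succ_cons, List.take_succ_cons]
      exact dup_mid _ _ _
    · have h3 : j = A.length + 1 := by omega
      rw [List.rotate_eq_drop_append_take hj.le, h3, List.drop_length_add_append,
        List.take_length_add_append]
      have : List.drop 1 (v :: v :: C) ++ (A ++ List.take 1 (v :: v :: C)) ++
          List.take 1 (List.drop 1 (v :: v :: C) ++ (A ++ List.take 1 (v :: v :: C))) =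
          (v :: (C ++ A)) ++ v :: v :: [] := by simp
      rw [this]
      exact dup_mid _ _ _
  · refine Dup.append_right ?_ _
    rw [List.rotate_eq_drop_append_take hj.le, List.drop_append_of_le_length h1]
    exact Dup.append_right (dup_mid _ _ _) _

end HB2

open HB2 in
theorem t_HB2 : S_HB2 := by
  intro V
  refine ⟨fun c => ?_, fun c hc => ?_, fun x c hc => ?_⟩
  · induction c using Finsupp.induction_linear with
    | zero => rw [map_zero, map_zero]; exact Submodule.zero_mem _
    | add f g hf hg => rw [map_add, map_add]; exact Submodule.add_mem _ hf hg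
    | single X q =>
      rw [conB_single, map_sum]
      refine Submodule.sum_mem _ fun j hj => ?_
      have hj' := Finset.mem_range.1 hj
      have hne : X.rotate j ≠ [] := by
        intro h
        have h1 := congrArg List.length h
        rw [List.length_rotate, List.length_nil] at h1
        omega
      obtain ⟨v, Z, hZ⟩ := List.exists_cons_of_ne_nil hne
      rw [hZ]
      have h2 : v :: Z ++ List.take 1 (v :: Z) = v :: (Z ++ [v]) := by simp
      rw [h2]
      exact conB_mem (fun i hi => dup_ends Z v i hi) _
  · induction hc using Submodule.span_induction with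
    | mem x hx =>
      obtain ⟨A, C, v, rfl⟩ := hx
      exact conB_mem (fun j hj => dup_rot A C v j hj) _
    | zero => rw [map_zero]; exact Submodule.zero_mem _
    | add f g _ _ hf hg => rw [map_add]; exact Submodule.add_mem _ hf hg
    | smul a f _ hf => rw [map_smul]; exact Submodule.smul_mem _ _ hf
  · induction hc using Submodule.span_induction with
    | mem y hy =>
      obtain ⟨A, C, v, rfl⟩ := hy
      rw [Finsupp.mapDomain_single]
      exact mem_degL ⟨x :: A, C, v, rfl⟩ _
    | zero => rw [Finsupp.mapDomain_zero]; exact Submodule.zero_mem _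
    | add f g _ _ hf hg => rw [Finsupp.mapDomain_add]; exact Submodule.add_mem _ hf hg
    | smul a f _ hf => rw [Finsupp.mapDomain_smul]; exact Submodule.smul_mem _ _ hf

end Pool.Agent.FJA
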