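import Pool.Agent.FJA.StW

/-!
# Module HBB: `∂ B + B ∂ = 0`
-/

set_option autoImplicit false

noncomputable section

namespace Pool.Agent.FJA

namespace HBB

variable {V : Type}

lemma sgn_neg {m n : ℕ} (h : Odd (m + n)) : (-1 : ℚ) ^ m = -(-1 : ℚ) ^ n := by
  rcases Nat.even_or_odd m with hm | hm <;> rcases Nat.even_or_odd n with hn | hn
  · exact absurd (hm.add hn) (Nat.not_even_iff_odd.mpr h)
  · rw [hm.neg_one_pow, hn.neg_one_pow]; norm_num
  · rw [hm.neg_one_pow, hn.neg_one_pow]
  · exact absurd (hm.add_odd hn) (Nat.not_even_iff_odd.mpr h)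

lemma sgn_eq {m n : ℕ} (h : Even (m + n)) : (-1 : ℚ) ^ m = (-1 : ℚ) ^ n := by
  rcases Nat.even_or_odd m with hm | hm <;> rcases Nat.even_or_odd n with hn | hn
  · rw [hm.neg_one_pow, hn.neg_one_pow]
  · exact absurd h (Nat.not_even_iff_odd.mpr (hm.add_odd hn))
  · exact absurd h (Nat.not_even_iff_odd.mpr (hm.add_even hn))
  · rw [hm.neg_one_pow, hn.neg_one_pow]

/-- The list of a term of `B X`. -/
def wl (X : List V) (j : ℕ) : List V := X.rotate j ++ (X.rotate j).take 1

lemma wl_length (X : List V) (hX : X ≠ []) (j : ℕ) : (wl X j).length = X.length + 1 := by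
  have : 1 ≤ X.length := List.length_pos_of_ne_nil hX
  simp [wl]; omega

lemma case1' (A B C : List V) (b v : V) :
    (wl (A ++ ((b :: B) ++ (v :: C))) A.length).eraseIdx (B.length + 1) =
      wl (A ++ ((b :: B) ++ C)) A.length := by
  unfold wl
  rw [List.rotate_append_length_eq, List.rotate_append_length_eq]
  have e : (b :: B ++ v :: C ++ A) ++ (b :: B ++ v :: C ++ A).take 1 =
      (b :: B) ++ (v :: (C ++ A ++ [b])) := by simp
  rw [e, List.eraseIdx_append_of_length_le (by simp)]
  simp

lemma case2' (A B C : List V) (b v : V) :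
    (wl ((A ++ v :: C) ++ (b :: B)) (A ++ v :: C).length).eraseIdx ((b :: B) ++ A).length =
      wl ((A ++ C) ++ (b :: B)) (A ++ C).length := by
  unfold wl
  rw [List.rotate_append_length_eq, List.rotate_append_length_eq]
  have e : (b :: B ++ (A ++ v :: C)) ++ (b :: B ++ (A ++ v :: C)).take 1 =
      (b :: B ++ A) ++ (v :: (C ++ [b])) := by simp
  rw [e, List.eraseIdx_append_of_length_le le_rfl]
  simp

lemma erase_first (X : List V) (hX : X ≠ []) (j : ℕ) :
    (wl X j).eraseIdx 0 = X.rotate (j + 1) := by
  have h1 : X.rotate (j + 1) = (X.rotate j).rotate 1 := by rw [List.rotate_rotate]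
  rw [h1]
  unfold wl
  rcases h : X.rotate j with _ | ⟨b, Y⟩
  · exact absurd (List.rotate_eq_nil_iff.mp h) hX
  · simp

lemma erase_last (X : List V) (hX : X ≠ []) (j : ℕ) :
    (wl X j).eraseIdx X.length = X.rotate j := by
  unfold wl
  rw [List.eraseIdx_append_of_length_le (by simp)]
  rcases h : X.rotate j with _ | ⟨b, Y⟩
  · exact absurd (List.rotate_eq_nil_iff.mp h) hX
  · have : X.length = (b :: Y).length := by rw [← h, List.length_rotate]
    simp [this]

lemma case1 (X : List V) (j a : ℕ) (h : j + (a + 1) < X.length) :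
    (wl X j).eraseIdx (a + 1) = wl (X.eraseIdx (j + (a + 1))) j := by
  obtain ⟨A, b, B, v, C, hX, hA, hB⟩ : ∃ (A : List V) (b : V) (B : List V) (v : V) (C : List V),
      X = A ++ ((b :: B) ++ (v :: C)) ∧ A.length = j ∧ B.length = a := by
    have h1 : X = X.take j ++ X.drop j := (List.take_append_drop j X).symm
    have h2 : (X.drop j).length = X.length - j := by simp
    rcases h3 : X.drop j with _ | ⟨b, Y⟩
    · rw [h3] at h2; simp at h2; omega
    · rw [h3] at h2; simp at h2
      have h4 : Y = Y.take a ++ Y.drop a := (List.take_append_drop a Y).symm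
      have h5 : (Y.drop a).length = Y.length - a := by simp
      rcases h6 : Y.drop a with _ | ⟨v, C⟩
      · rw [h6] at h5; simp at h5; omega
      · refine ⟨X.take j, b, Y.take a, v, C, ?_, ?_, ?_⟩
        · rw [← h6, List.cons_append, List.take_append_drop, ← h3, List.take_append_drop]
        · simp; omega
        · simp; omega
  subst hX hA hB
  rw [case1']
  congr 1
  rw [List.eraseIdx_append_of_length_le (by omega)]
  congr 1
  rw [Nat.add_sub_cancel_left, List.eraseIdx_append_of_length_le (by simp)]
  simp

lemma case2 (X : List V) (j a : ℕ) (hj : j < X.length) (ha : a + 1 < X.length)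
    (h : X.length ≤ j + (a + 1)) :
    (wl X j).eraseIdx (a + 1) = wl (X.eraseIdx (j + (a + 1) - X.length)) (j - 1) := by
  obtain ⟨A, b, B, v, C, hX, hA, hB⟩ : ∃ (A : List V) (b : V) (B : List V) (v : V) (C : List V),
      X = (A ++ v :: C) ++ (b :: B) ∧ (A ++ v :: C).length = j ∧
        A.length = j + (a + 1) - X.length := by
    have h1 : X = X.take j ++ X.drop j := (List.take_append_drop j X).symm
    have h2 : (X.drop j).length = X.length - j := by simp
    rcases h3 : X.drop j with _ | ⟨b, Y⟩
    · rw [h3] at h2; simp at h2; omega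
    · rw [h3] at h2; simp at h2
      have h7 : (X.take j).length = j := by simp; omega
      have h5 : ((X.take j).drop (j + (a + 1) - X.length)).length =
        j - (j + (a + 1) - X.length) := by rw [List.length_drop, h7]
      rcases h6 : (X.take j).drop (j + (a + 1) - X.length) with _ | ⟨v, C⟩
      · rw [h6] at h5; simp at h5; omega
      · refine ⟨(X.take j).take (j + (a + 1) - X.length), b, Y, v, C, ?_, ?_, ?_⟩
        · rw [← h6, ← h3, List.take_append_drop, List.take_append_drop]
        · rw [← h6, List.take_append_drop, h7]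
        · rw [List.length_take, h7]; omega
  have e0 : X.length = (A ++ v :: C ++ b :: B).length := by rw [← hX]
  have e1 : a + 1 = ((b :: B) ++ A).length := by
    simp only [List.length_append, List.length_cons] at e0 hA ⊢
    omega
  have e2 : j - 1 = (A ++ C).length := by
    rw [← hA]; simp only [List.length_append, List.length_cons]; omega
  rw [← hB, e2, e1, ← hA, hX, case2']
  congr 1
  rw [List.append_assoc A (v :: C), List.eraseIdx_append_of_length_le le_rfl]
  simp

lemma conB_single (X : List V) : conB V (Finsupp.single X 1) =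
    ∑ j ∈ Finset.range X.length,
      Finsupp.single (wl X j) ((-1 : ℚ) ^ ((X.length + 1) * (j + 1))) := by
  unfold conB wl
  rw [Finsupp.linearCombination_single, one_smul]

lemma bdL_single (X : List V) (c : ℚ) : bdL V (Finsupp.single X c) =
    c • ∑ j ∈ Finset.range X.length, Finsupp.single (X.eraseIdx j) ((-1 : ℚ) ^ j) := by
  unfold bdL
  rw [Finsupp.linearCombination_single]

lemma conB_single' (X : List V) (c : ℚ) : conB V (Finsupp.single X c) =
    c • ∑ j ∈ Finset.range X.length,
      Finsupp.single (wl X j) ((-1 : ℚ) ^ ((X.length + 1) * (j + 1))) := by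
  unfold conB wl
  rw [Finsupp.linearCombination_single]

lemma main (X : List V) (q : ℕ) (hq : X.length = q + 1) :
    bdL V (conB V (Finsupp.single X 1)) + conB V (bdL V (Finsupp.single X 1)) = 0 := by
  have hX : X ≠ [] := by intro h; rw [h] at hq; simp at hq
  have L1 : bdL V (conB V (Finsupp.single X 1)) =
      (∑ j ∈ Finset.range (q + 1), ∑ a ∈ Finset.range q,
        Finsupp.single ((wl X j).eraseIdx (a + 1))
          ((-1 : ℚ) ^ ((q + 2) * (j + 1)) * (-1 : ℚ) ^ (a + 1))) +
      ∑ j ∈ Finset.range (q + 1), (Finsupp.single (X.rotate (j + 1)) ((-1 : ℚ) ^ ((q + 2) * (j + 1))) -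
        Finsupp.single (X.rotate j) ((-1 : ℚ) ^ ((q + 2) * j))) := by
    rw [conB_single, map_sum, hq, ← Finset.sum_add_distrib]
    refine Finset.sum_congr rfl fun j hj => ?_
    rw [bdL_single, wl_length X hX, hq, Finset.sum_range_succ, Finset.sum_range_succ', smul_add,
      smul_add, Finset.smul_sum, add_assoc]
    congr 1
    · refine Finset.sum_congr rfl fun a _ => ?_
      rw [Finsupp.smul_single, smul_eq_mul]
    · rw [erase_first X hX j, ← hq, erase_last X hX, Finsupp.smul_single, Finsupp.smul_single, pow_zero, smul_eq_mul, mul_one, smul_eq_mul,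
        ← pow_add, sub_eq_add_neg, ← Finsupp.single_neg, hq]
      congr 2
      refine sgn_neg ?_
      have : (q + 1 + 1) * (j + 1) + (q + 1) + (q + 2) * j = 2 * ((q + 2) * j + q + 1) + 1 := by ring
      rw [this]
      exact odd_two_mul_add_one _
  have L2 : conB V (bdL V (Finsupp.single X 1)) =
      ∑ p ∈ Finset.range (q + 1), ∑ j ∈ Finset.range q,
        Finsupp.single (wl (X.eraseIdx p) j) ((-1 : ℚ) ^ p * (-1 : ℚ) ^ ((q + 1) * (j + 1))) := by
    rw [bdL_single, one_smul, map_sum, hq]
    refine Finset.sum_congr rfl fun p hp => ?_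
    have hl : (X.eraseIdx p).length = q := by
      rw [List.length_eraseIdx_of_lt (by rw [hq]; exact Finset.mem_range.mp hp), hq]; rfl
    rw [conB_single', hl, Finset.smul_sum]
    refine Finset.sum_congr rfl fun j _ => ?_
    rw [Finsupp.smul_single, smul_eq_mul]
  rw [L1, L2, Finset.sum_range_sub (fun j => Finsupp.single (X.rotate j) ((-1 : ℚ) ^ ((q + 2) * j)))]
  have h3 : Finsupp.single (X.rotate (q + 1)) ((-1 : ℚ) ^ ((q + 2) * (q + 1))) -
      Finsupp.single (X.rotate 0) ((-1 : ℚ) ^ ((q + 2) * 0)) = 0 := by
    have h4 : X.rotate (q + 1) = X := by rw [← hq, List.rotate_length]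
    have h5 : Even ((q + 2) * (q + 1) + 0) := by
      rw [add_zero, mul_comm]; exact Nat.even_mul_succ_self (q + 1)
    rw [h4, List.rotate_zero, mul_zero, sgn_eq h5, sub_self]
  rw [h3, add_zero, ← Finset.sum_product', ← Finset.sum_product', add_eq_zero_iff_eq_neg,
    ← Finset.sum_neg_distrib]
  refine Finset.sum_nbij'
    (fun x => if x.1 + (x.2 + 1) < q + 1 then (x.1 + (x.2 + 1), x.1)
      else (x.1 + (x.2 + 1) - (q + 1), x.1 - 1))
    (fun x => if x.2 < x.1 then (x.2, x.1 - x.2 - 1) else (x.2 + 1, x.1 + q - x.2 - 1)) ?_ ?_ ?_ ?_ ?_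
  · rintro ⟨j, a⟩ h
    simp only [Finset.mem_product, Finset.mem_range] at h
    dsimp only
    split_ifs with hc
    · simp only [Finset.mem_product, Finset.mem_range]; omega
    · simp only [Finset.mem_product, Finset.mem_range]; omega
  · rintro ⟨p, j⟩ h
    simp only [Finset.mem_product, Finset.mem_range] at h
    dsimp only
    split_ifs with hc
    · simp only [Finset.mem_product, Finset.mem_range]; omega
    · simp only [Finset.mem_product, Finset.mem_range]; omega
  · rintro ⟨j, a⟩ h
    simp only [Finset.mem_product, Finset.mem_range] at h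
    dsimp only
    split_ifs with hc hd hd
    · refine Prod.ext ?_ ?_ <;> dsimp only <;> omega
    · exfalso; simp only at hd; omega
    · exfalso; simp only at hd; omega
    · refine Prod.ext ?_ ?_ <;> dsimp only <;> omega
  · rintro ⟨p, j⟩ h
    simp only [Finset.mem_product, Finset.mem_range] at h
    dsimp only
    split_ifs with hc hd hd
    · refine Prod.ext ?_ ?_ <;> dsimp only <;> omega
    · exfalso; simp only at hd; omega
    · exfalso; simp only at hd; omega
    · refine Prod.ext ?_ ?_ <;> dsimp only <;> omega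
  · rintro ⟨j, a⟩ h
    simp only [Finset.mem_product, Finset.mem_range] at h
    dsimp only
    split_ifs with hc
    · rw [case1 X j a (by omega), ← Finsupp.single_neg, ← pow_add, ← pow_add]
      congr 1
      refine sgn_neg ?_
      have : (q + 2) * (j + 1) + (a + 1) + (j + (a + 1) + (q + 1) * (j + 1)) =
        2 * ((q + 2) * (j + 1) + a) + 1 := by ring
      rw [this]
      exact odd_two_mul_add_one _
    · have h6 := case2 X j a (by omega) (by omega) (by omega)
      rw [hq] at h6
      rw [h6, ← Finsupp.single_neg, ← pow_add, ← pow_add]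
      congr 1
      refine sgn_neg ?_
      obtain ⟨i, rfl⟩ : ∃ i, j = i + 1 := ⟨j - 1, by omega⟩
      obtain ⟨p, hp⟩ : ∃ p, i + 1 + (a + 1) = p + (q + 1) :=
        ⟨i + 1 + (a + 1) - (q + 1), (Nat.sub_add_cancel (Nat.le_of_not_lt hc)).symm⟩
      rw [hp, Nat.add_sub_cancel, Nat.add_sub_cancel]
      have ha : a + 1 + (i + 1) = p + (q + 1) := by rw [← hp]; ring
      have : (q + 2) * (i + 1 + 1) + (a + 1) + (p + (q + 1) * (i + 1)) =
        2 * ((q + 1) * (i + 1) + p + q + 1) + 1 := by
        nlinarith [ha]
      rw [this]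
      exact odd_two_mul_add_one _

end HBB

theorem t_HBB : S_HBB := by
  intro V X
  rcases h : X.length with _ | q
  · have : X = [] := List.length_eq_zero_iff.mp h
    subst this
    rw [HBB.conB_single, HBB.bdL_single]
    simp
  · exact HBB.main X q h

end Pool.Agent.FJA
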