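import Pool.Agent.FJA.StW

/-!
# Module HCB: coboundaries
-/

set_option autoImplicit false

open Matrix Pool.Agent.WhK Pool.Agent.Lib25

noncomputable section

namespace Pool.Agent.FJA

namespace HCB

variable {Γ : Type} [Group Γ]

/-- The function on tuples of lists which evaluates `E` on the first entries. -/
def hd {L : ℕ} (E : (Fin L → Γ) → Γ → ℚ) (Y : Fin L → List Γ) (y : Γ) : ℚ :=
  E (fun j => (Y j).headD 1) y

theorem headD_map (γ : Γ) (Y : List Γ) (h : Y.length = 1) :
    (Y.map (γ * ·)).headD 1 = γ * Y.headD 1 := by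
  obtain ⟨a, rfl⟩ := List.length_eq_one_iff.1 h
  rfl

theorem headD_rotL (y : Γ) (Y : List Γ) (h : Y.length = 1) :
    (rotL y Y).headD 1 = y * Y.headD 1 := by
  obtain ⟨a, rfl⟩ := List.length_eq_one_iff.1 h
  rfl

theorem xi {L : ℕ} (E : (Fin L → Γ) → Γ → ℚ)
    (hinv : ∀ (g : Γ) (a : Fin L → Γ) (y : Γ), E (fun i => g * a i) (g * y * g⁻¹) = E a y)
    (halt : ∀ y : Γ, AltB y (fun a => E a y)) (T : Finset (Rec Γ (Fin L))) :
    XiT 1 T (hd E) where
  inv γ Y y hY := by
    unfold hd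
    rw [← hinv γ (fun j => (Y j).headD 1) y]
    congr 1
    funext j
    exact headD_map γ (Y j) (hY j)
  alt σ Y y := (halt y).alt σ (fun j => (Y j).headD 1)
  rot μ _ hμ i := by
    unfold hd
    have h := (halt μ.val).bas (Pi.single i 1) (fun j => (μ.lst j).headD 1)
    refine Eq.trans ?_ h
    show E _ μ.val = E _ μ.val
    congr 1
    funext j
    by_cases hj : j = i
    · subst hj
      rw [Function.update_self, Pi.single_eq_same, zpow_one]
      exact headD_rotL μ.val (μ.lst j) (hμ j)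
    · rw [Function.update_of_ne hj, Pi.single_eq_of_ne hj, zpow_zero, one_mul]

end HCB

/-- HCB. -/
theorem t_HCB (hhtg : S_HTG) (hhfa : S_HFA) : S_HCB := by
  intro k _ _ Γ _ ι _ _ ε M E hinv halt w hw
  obtain ⟨T, _, hB⟩ := hw
  have h0 := hB 1 one_pos (HCB.hd E) (HCB.xi E hinv halt T)
  rw [← h0]
  apply Finsupp.sum_congr
  intro X _
  congr 1
  have h1 : TG (fst fun (a : Fin (M + 2) → Γ) y => cobE (fun b => E b y) a) 1 X =
      TG (fun μ => ∑ i ∈ (Finset.univ : Finset (Fin (M + 2))),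
        ((-1 : ℚ) ^ (i : ℕ)) * lf (HCB.hd E) (Rec.res i.succAbove μ)) 1 X := by
    apply hhtg.2.2 k Γ ι ε (M + 2) 1 X ⊤
    · intro a b μ _
      exact Submonoid.mem_top μ
    · intro μ _ hμ
      have hne : ∀ i, μ.lst i ≠ [] := by
        intro i h
        have := hμ i
        rw [h] at this
        simp at this
      unfold fst
      rw [if_pos hne]
      rfl
  rw [h1, hhtg.1 k Γ ι ε (M + 2) 1 X (Fin (M + 2)) Finset.univ (fun i => (-1 : ℚ) ^ (i : ℕ))
    (fun i μ => lf (HCB.hd E) (Rec.res i.succAbove μ))]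
  apply Finset.sum_congr rfl
  intro i _
  rw [hhfa k Γ ι ε M 1 (lf (HCB.hd E)) i X]
  push_cast
  rfl

end Pool.Agent.FJA
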