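import Pool.Agent.FJA.StW

/-!
# Module HCM: exchange of two factors
-/

set_option autoImplicit false

open Matrix

noncomputable section

namespace Pool.Agent.FJA

namespace HCM

theorem exch {k : Type} [Field k] {M : Type} [Monoid M] (x y : MonoidAlgebra k M)
    (TA TB : Set M) (hx : ∀ μ, x.coeff μ ≠ 0 → μ ∈ TA) (hy : ∀ μ, y.coeff μ ≠ 0 → μ ∈ TB)
    (φ φ' : M → ℚ) (h : ∀ κ ∈ TA, ∀ p ∈ TB, φ (κ * p) = φ' (p * κ)) :
    lin k φ (x * y) = lin k φ' (y * x) := by
  rw [MonoidAlgebra.mul_def, MonoidAlgebra.mul_def, Finsupp.sum, Finsupp.sum, map_sum, map_sum]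
  have e1 : ∀ m ∈ x.coeff.support, lin k φ (y.coeff.sum fun m₂ r₂ =>
      MonoidAlgebra.single (m * m₂) (x.coeff m * r₂)) =
      ∑ p ∈ y.coeff.support, x.coeff m * y.coeff p * ((φ (m * p) : ℚ) : k) := by
    intro m _
    rw [Finsupp.sum, map_sum]
    exact Finset.sum_congr rfl fun p _ => lin_single k φ _ _
  have e2 : ∀ p ∈ y.coeff.support, lin k φ' (x.coeff.sum fun m₂ r₂ =>
      MonoidAlgebra.single (p * m₂) (y.coeff p * r₂)) =
      ∑ m ∈ x.coeff.support, y.coeff p * x.coeff m * ((φ' (p * m) : ℚ) : k) := by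
    intro m _
    rw [Finsupp.sum, map_sum]
    exact Finset.sum_congr rfl fun p _ => lin_single k φ' _ _
  rw [Finset.sum_congr rfl e1, Finset.sum_congr rfl e2, Finset.sum_comm]
  refine Finset.sum_congr rfl fun p hp => Finset.sum_congr rfl fun m hm => ?_
  rw [h m (hx m (Finsupp.mem_support_iff.1 hm)) p (hy p (Finsupp.mem_support_iff.1 hp)),
    mul_comm (x.coeff m)]

end HCM

theorem t_HCM : S_HCM := by
  intro k _ _ M _ ι _ _ A B TA TB hA hB φ φ' h
  rw [Matrix.trace, Matrix.trace, map_sum, map_sum]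
  have e1 : ∀ a ∈ (Finset.univ : Finset ι), lin k φ (Matrix.diag (A * B) a) =
      ∑ b, lin k φ (A a b * B b a) := by
    intro a _
    rw [Matrix.diag_apply, Matrix.mul_apply, map_sum]
  have e2 : ∀ b ∈ (Finset.univ : Finset ι), lin k φ' (Matrix.diag (B * A) b) =
      ∑ a, lin k φ' (B b a * A a b) := by
    intro a _
    rw [Matrix.diag_apply, Matrix.mul_apply, map_sum]
  rw [Finset.sum_congr rfl e1, Finset.sum_congr rfl e2, Finset.sum_comm]
  exact Finset.sum_congr rfl fun b _ => Finset.sum_congr rfl fun a _ =>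
    HCM.exch (A a b) (B b a) TA TB (hA a b) (hB b a) φ φ' h

end Pool.Agent.FJA
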