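import Pool.Agent.FJA.StW
import Pool.Agent.FJA.P_SUP

/-!
# HCO: the value on a cyclic cycle is the value on its antisymmetrization
-/

set_option autoImplicit false

open Matrix Pool.Agent.WhK Pool.Agent.Lib25

noncomputable section

namespace Pool.Agent.FJA

namespace HCO

section

variable {k : Type} [Field k] {Γ : Type} [Group Γ] {ι : Type} [Fintype ι]
  [DecidableEq ι] {ε : Matrix ι ι (MonoidAlgebra k Γ)} {M : ℕ}

/-- The finite set of the nonzero coefficients of the entries of the matrices of the chain `w`. -/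
def cf (w : (Fin M → RPair ε) →₀ ℚ) : Finset k := by
  classical
  exact w.support.biUnion fun X => (Finset.univ : Finset (Fin M)).biUnion fun i =>
    (Finset.univ : Finset (ι × ι)).biUnion fun p =>
      (((X i).a p.1 p.2).coeff.support.image fun γ => ((X i).a p.1 p.2).coeff γ) ∪
      (((X i).b p.1 p.2).coeff.support.image fun γ => ((X i).b p.1 p.2).coeff γ)

theorem cf_a (w : (Fin M → RPair ε) →₀ ℚ) (X : Fin M → RPair ε) (hX : X ∈ w.support) (i : Fin M)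
    (a b : ι) (γ : Γ) : ((X i).a a b).coeff γ ∈ Subring.closure (cf w : Set k) := by
  classical
  by_cases h : ((X i).a a b).coeff γ = 0
  · rw [h]
    exact zero_mem _
  · apply Subring.subset_closure
    rw [Finset.mem_coe, cf, Finset.mem_biUnion]
    refine ⟨X, hX, ?_⟩
    rw [Finset.mem_biUnion]
    refine ⟨i, Finset.mem_univ _, ?_⟩
    rw [Finset.mem_biUnion]
    refine ⟨(a, b), Finset.mem_univ _, ?_⟩
    rw [Finset.mem_union]
    left
    rw [Finset.mem_image]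
    exact ⟨γ, Finsupp.mem_support_iff.2 h, rfl⟩

theorem cf_b (w : (Fin M → RPair ε) →₀ ℚ) (X : Fin M → RPair ε) (hX : X ∈ w.support) (i : Fin M)
    (a b : ι) (γ : Γ) : ((X i).b a b).coeff γ ∈ Subring.closure (cf w : Set k) := by
  classical
  by_cases h : ((X i).b a b).coeff γ = 0
  · rw [h]
    exact zero_mem _
  · apply Subring.subset_closure
    rw [Finset.mem_coe, cf, Finset.mem_biUnion]
    refine ⟨X, hX, ?_⟩
    rw [Finset.mem_biUnion]
    refine ⟨i, Finset.mem_univ _, ?_⟩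
    rw [Finset.mem_biUnion]
    refine ⟨(a, b), Finset.mem_univ _, ?_⟩
    rw [Finset.mem_union]
    right
    rw [Finset.mem_image]
    exact ⟨γ, Finsupp.mem_support_iff.2 h, rfl⟩

end

/-- Sums of products with denominators prime to `ℓ`. -/
theorem int_sum {k : Type} [Field k] [CharZero k] (A : Subring k) (ℓ : ℕ) (hℓ : ℓ.Prime) {I : Type}
    (s : Finset I) (q : I → ℚ) (x : I → k) (hq : ∀ i ∈ s, ¬ ℓ ∣ (q i).den)
    (hx : ∀ i ∈ s, ∃ d : ℤ, ¬ (ℓ : ℤ) ∣ d ∧ (d : k) * x i ∈ A) :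
    ∃ d : ℤ, ¬ (ℓ : ℤ) ∣ d ∧ (d : k) * ∑ i ∈ s, (q i : k) * x i ∈ A := by
  classical
  have hp : Prime (ℓ : ℤ) := Nat.prime_iff_prime_int.1 hℓ
  induction s using Finset.induction_on with
  | empty =>
    refine ⟨1, ?_, ?_⟩
    · intro h
      exact hp.not_isUnit (isUnit_of_dvd_one h)
    · rw [Finset.sum_empty, mul_zero]
      exact zero_mem _
  | insert i s his ih =>
    obtain ⟨d, hd, hdA⟩ := ih (fun j hj => hq j (Finset.mem_insert_of_mem hj))
      (fun j hj => hx j (Finset.mem_insert_of_mem hj))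
    obtain ⟨e, he, heA⟩ := hx i (Finset.mem_insert_self _ _)
    refine ⟨d * (e * ((q i).den : ℤ)), ?_, ?_⟩
    · intro h
      rcases hp.dvd_or_dvd h with h | h
      · exact hd h
      rcases hp.dvd_or_dvd h with h | h
      · exact he h
      · exact hq i (Finset.mem_insert_self _ _) (Int.natCast_dvd_natCast.1 h)
    · rw [Finset.sum_insert his]
      have hqi : ((q i).den : k) * (q i : k) = ((q i).num : k) := by
        have h0 : ((q i).den : ℚ) * q i = ((q i).num : ℚ) := by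
          rw [mul_comm]
          exact Rat.mul_den_eq_num (q i)
        exact_mod_cast congrArg (fun t : ℚ => (t : k)) h0
      have e1 : ((d * (e * ((q i).den : ℤ)) : ℤ) : k) * ((q i : k) * x i + ∑ j ∈ s, (q j : k) * x j) =
          ((d * (q i).num : ℤ) : k) * ((e : k) * x i) +
            ((e * ((q i).den : ℤ) : ℤ) : k) * ((d : k) * ∑ j ∈ s, (q j : k) * x j) := by
        push_cast
        rw [← hqi]
        ring
      rw [e1]
      exact A.add_mem (A.mul_mem (intCast_mem A _) heA) (A.mul_mem (intCast_mem A _) hdA)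

section

variable {k : Type} [Field k] [CharZero k] {Γ : Type} [Group Γ] {ι : Type} [Fintype ι]
  [DecidableEq ι] {ε : Matrix ι ι (MonoidAlgebra k Γ)} {M : ℕ}

/-- The value of `φ = F ∘ s` on a simplex. -/
theorem val_phi (hhtg : S_HTG) (hhfa : S_HFA) (hhev : S_HEV)
    (F : (Fin (M + 2) → Γ) → Γ → ℚ) (y0 : Γ) (hF : FamY F y0) (s : List Γ → Γ → Γ) (ℓ : ℕ)
    (ξ : (Fin (M + 1) → List Γ) → Γ → ℚ)
    (hξ : ∀ (Y : Fin (M + 2) → List Γ) (y : Γ),
        F (fun j => s (Y j) y) y -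
          ((ℓ : ℚ) ^ (M + 2))⁻¹ * ∑ t : Fin (M + 2) → Fin ℓ, F (fun j => (Y j).getD (t j) 1) y =
          ∑ i : Fin (M + 2), (-1 : ℚ) ^ (i : ℕ) * ξ (fun j => Y (i.succAbove j)) y)
    (X : Fin (M + 2) → RPair ε) :
    TG (fun μ : Rec Γ (Fin (M + 2)) => F (fun j => s (μ.lst j) μ.val) μ.val) ℓ X =
      ((ℓ : k) ^ (M + 2))⁻¹ * ∑ t : Fin (M + 2) → Fin ℓ, ((Equiv.Perm.sign (Tuple.sort t) : ℤ) : k) *
        TG (fst F) 1 (fun a => X (Tuple.sort t a)) +
      ∑ i : Fin (M + 2), (-1 : k) ^ (i : ℕ) * TG (lf ξ) ℓ (fun t => X (i.succAbove t)) := by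
  classical
  let c : (Fin (M + 2) → Fin ℓ) ⊕ Fin (M + 2) → ℚ :=
    Sum.elim (fun _ => ((ℓ : ℚ) ^ (M + 2))⁻¹) (fun i => (-1 : ℚ) ^ (i : ℕ))
  let ph : (Fin (M + 2) → Fin ℓ) ⊕ Fin (M + 2) → Rec Γ (Fin (M + 2)) → ℚ :=
    Sum.elim (fun t => evT F t) (fun i μ => lf ξ (Rec.res i.succAbove μ))
  have e1 : (fun μ : Rec Γ (Fin (M + 2)) => F (fun j => s (μ.lst j) μ.val) μ.val) =
      fun μ => ∑ i ∈ (Finset.univ : Finset ((Fin (M + 2) → Fin ℓ) ⊕ Fin (M + 2))), c i * ph i μ := by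
    funext μ
    have h := hξ μ.lst μ.val
    rw [Fintype.sum_sum_type]
    change _ = ∑ t : Fin (M + 2) → Fin ℓ, ((ℓ : ℚ) ^ (M + 2))⁻¹ * evT F t μ +
      ∑ i : Fin (M + 2), (-1 : ℚ) ^ (i : ℕ) * lf ξ (Rec.res i.succAbove μ)
    rw [← Finset.mul_sum]
    change _ = ((ℓ : ℚ) ^ (M + 2))⁻¹ * ∑ t : Fin (M + 2) → Fin ℓ,
      F (fun j => (μ.lst j).getD (t j) 1) μ.val +
      ∑ i : Fin (M + 2), (-1 : ℚ) ^ (i : ℕ) * ξ (fun j => μ.lst (i.succAbove j)) μ.val
    rw [← h]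
    ring
  rw [e1, hhtg.1 k Γ ι ε (M + 2) ℓ X _ Finset.univ c ph, Fintype.sum_sum_type]
  congr 1
  · rw [Finset.mul_sum]
    refine Finset.sum_congr rfl fun t _ => ?_
    change ((((ℓ : ℚ) ^ (M + 2))⁻¹ : ℚ) : k) * TG (evT F t) ℓ X = _
    rw [hhev k Γ ι ε (M + 1) ℓ F (fun σ a y => (hF.altb y).alt σ a) t X]
    push_cast
    rfl
  · refine Finset.sum_congr rfl fun i _ => ?_
    change (((-1 : ℚ) ^ (i : ℕ) : ℚ) : k) * TG (fun μ => lf ξ (Rec.res i.succAbove μ)) ℓ X = _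
    rw [hhfa k Γ ι ε M ℓ (lf ξ) i X]
    push_cast
    rfl

/-- The main step: divisibility of the value of the polynomial at a good prime. -/
theorem step (hhxi : S_HXI) (hhtg : S_HTG) (hhfa : S_HFA) (hhev : S_HEV) (hhin : S_HIN)
    (F : (Fin (M + 2) → Γ) → Γ → ℚ) (y0 : Γ) (hF : FamY F y0) (w : (Fin (M + 2) → RPair ε) →₀ ℚ)
    (T : Finset (Rec Γ (Fin (M + 1))))
    (hT : ∀ N : ℕ, 0 < N → ∀ ξ : (Fin (M + 1) → List Γ) → Γ → ℚ, XiT N T ξ →
      (w.sum fun X q => (q : k) * ∑ i : Fin (M + 2), (-1 : k) ^ (i : ℕ) *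
        TG (lf ξ) N (fun t => X (i.succAbove t))) = 0)
    (LL : Finset Γ)
    (hLL : ∀ μ ∈ Submonoid.closure (T : Set (Rec Γ (Fin (M + 1)))), (∀ i, μ.lst i ≠ []) →
      ∀ i, Inc LL (μ.lst i) μ.val)
    (s : List Γ → Γ → Γ) (hs : SecQ s) (r : k) (ℓ : ℕ)
    (hr : r = ∑ t : Fin (M + 2) → Fin ℓ, ((Equiv.Perm.sign (Tuple.sort t) : ℤ) : k) *
      (w.sum fun X q => (q : k) * TG (fst F) 1 (fun a => X (Tuple.sort t a))))
    (hℓ : ℓ.Prime)
    (hden : ∀ a y, ¬ ℓ ∣ (F a y).den)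
    (hz : ∀ u ∈ LL, IsConj (u ^ ℓ) y0 → u ∈ Subgroup.zpowers (u ^ ℓ))
    (hw : ∀ X ∈ w.support, ¬ ℓ ∣ (w X).den) :
    ∃ d : ℤ, ¬ (ℓ : ℤ) ∣ d ∧ ∃ a ∈ Subring.closure (cf w : Set k),
      (d : k) * r = (ℓ : k) ^ (M + 2) * a := by
  classical
  obtain ⟨ξ, hξ1, hξ2⟩ := hhxi Γ (M + 1) F y0 hF s hs T LL hLL ℓ hℓ hz
  obtain ⟨d, hd, hdA⟩ := int_sum (Subring.closure (cf w : Set k)) ℓ hℓ w.support (fun X => w X)
    (fun X => TG (fun μ : Rec Γ (Fin (M + 2)) => F (fun j => s (μ.lst j) μ.val) μ.val) ℓ X) hw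
    (fun X hX => hhin k Γ ι ε (M + 2) ℓ (Subring.closure (cf w : Set k)) X (cf_a w X hX) (cf_b w X hX) ℓ
      hℓ _ (fun μ => hden _ _))
  refine ⟨d, hd, _, hdA, ?_⟩
  have hl0 : ((ℓ : k) ^ (M + 2)) ≠ 0 := pow_ne_zero _ (Nat.cast_ne_zero.2 hℓ.pos.ne')
  have e1 : ∑ X ∈ w.support, ((w X : ℚ) : k) *
      TG (fun μ : Rec Γ (Fin (M + 2)) => F (fun j => s (μ.lst j) μ.val) μ.val) ℓ X =
      ((ℓ : k) ^ (M + 2))⁻¹ * r := by
    have e2 := hT ℓ hℓ.pos ξ hξ1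
    rw [Finsupp.sum] at e2
    have e3 : ∑ X ∈ w.support, ((w X : ℚ) : k) *
        TG (fun μ : Rec Γ (Fin (M + 2)) => F (fun j => s (μ.lst j) μ.val) μ.val) ℓ X =
        ∑ X ∈ w.support, (((w X : ℚ) : k) * (((ℓ : k) ^ (M + 2))⁻¹ *
          ∑ t : Fin (M + 2) → Fin ℓ, ((Equiv.Perm.sign (Tuple.sort t) : ℤ) : k) *
          TG (fst F) 1 (fun a => X (Tuple.sort t a))) +
        ((w X : ℚ) : k) * ∑ i : Fin (M + 2), (-1 : k) ^ (i : ℕ) *
          TG (lf ξ) ℓ (fun t => X (i.succAbove t))) := by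
      refine Finset.sum_congr rfl fun X _ => ?_
      rw [val_phi hhtg hhfa hhev F y0 hF s ℓ ξ hξ2 X, mul_add]
    rw [e3, Finset.sum_add_distrib, e2, add_zero, hr, Finset.mul_sum]
    simp only [Finsupp.sum, Finset.mul_sum]
    rw [Finset.sum_comm]
    refine Finset.sum_congr rfl fun t _ => Finset.sum_congr rfl fun X _ => ?_
    ring
  rw [e1]
  field_simp

/-- The antisymmetrization of a simplex with a repeated vertex. -/
theorem rep (F : (Fin M → Γ) → Γ → ℚ) (X : Fin M → RPair ε) (a b : Fin M) (hab : a ≠ b)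
    (hX : X a = X b) :
    ∑ σ : Equiv.Perm (Fin M), ((Equiv.Perm.sign σ : ℤ) : k) *
      TG (fst F) 1 (fun c => X (σ c)) = 0 := by
  classical
  refine Finset.sum_involution (fun σ _ => Equiv.swap a b * σ) ?_ ?_ ?_ ?_
  · intro σ _
    have e : (fun c => X ((Equiv.swap a b * σ) c)) = fun c => X (σ c) := by
      funext c
      rw [Equiv.Perm.mul_apply]
      by_cases h1 : σ c = a
      · rw [h1, Equiv.swap_apply_left, hX]
      · by_cases h2 : σ c = b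
        · rw [h2, Equiv.swap_apply_right, hX]
        · rw [Equiv.swap_apply_of_ne_of_ne h1 h2]
    rw [e, Equiv.Perm.sign_mul, Equiv.Perm.sign_swap hab]
    push_cast
    ring
  · intro σ _ _ h
    have h1 : Equiv.swap a b = 1 := by
      have := congrArg (fun τ => τ * σ⁻¹) h
      simpa using this
    have h2 := congrArg (fun τ => τ a) h1
    simp only [Equiv.swap_apply_left, Equiv.Perm.one_apply] at h2
    exact hab h2.symm
  · intro σ _
    exact Finset.mem_univ _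
  · intro σ _
    rw [← mul_assoc, Equiv.swap_mul_self, one_mul]

end

end HCO

theorem t_HCO (hhse : S_HSE) (hhxi : S_HXI) (hhtg : S_HTG) (hhfa : S_HFA) (hhev : S_HEV)
    (hhin : S_HIN) (hhcp : S_HCP) (hhpo : S_HPO) : S_HCO := by
  intro k _ _ Γ _ ι _ _ ε M F y0 hF w hw
  classical
  obtain ⟨T, hT1, hT2⟩ := hw
  obtain ⟨LL, hLL⟩ := t_SUP.1 Γ (M + 1) T hT1
  obtain ⟨s, hs⟩ := hhse Γ
  obtain ⟨R, hRd, hRL, hR1, hRN⟩ := hhcp k (M + 2) (by omega)
    (fun σ => ((Equiv.Perm.sign σ : ℤ) : k) *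
      (w.sum fun X q => (q : k) * TG (fst F) 1 (fun a => X (σ a))))
  have hfin : {ℓ : ℕ | ∃ X ∈ w.support, ℓ ∣ (w X).den}.Finite := by
    have : {ℓ : ℕ | ∃ X ∈ w.support, ℓ ∣ (w X).den} =
        ⋃ X ∈ w.support, {ℓ : ℕ | ℓ ∣ (w X).den} := by
      ext ℓ
      simp
    rw [this]
    refine Set.Finite.biUnion (Finset.finite_toSet _) fun X _ => ?_
    refine (Finset.finite_toSet ((w X).den.divisors)).subset ?_
    intro ℓ hℓ
    rw [Finset.mem_coe, Nat.mem_divisors]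
    exact ⟨hℓ, (w X).den_ne_zero⟩
  have hinf : {ℓ : ℕ | ℓ.Prime ∧ ∃ d : ℤ, ¬ (ℓ : ℤ) ∣ d ∧
      ∃ a ∈ Subring.closure (HCO.cf w : Set k),
      (d : k) * R.eval (ℓ : k) = (ℓ : k) ^ (M + 2) * a}.Infinite := by
    refine ((hF.prm LL).sdiff hfin).mono ?_
    rintro ℓ ⟨⟨hℓ, hden, hz⟩, hnot⟩
    refine ⟨hℓ, ?_⟩
    refine HCO.step hhxi hhtg hhfa hhev hhin F y0 hF w T hT2 LL (fun μ hμ => (hLL μ hμ).2) s hs
      (R.eval (ℓ : k)) ℓ (hRN ℓ) hℓ hden hz ?_
    intro X hX hd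
    exact hnot ⟨X, hX, hd⟩
  have hkey := hhpo k (HCO.cf w) (M + 2) R hRd hinf
  have ha : (((M + 2).factorial : k) * (w.sum fun X q => (q : k) * TG (fst F) 1 X) =
      ∑ σ : Equiv.Perm (Fin (M + 2)), ((Equiv.Perm.sign σ : ℤ) : k) *
        (w.sum fun X q => (q : k) * TG (fst F) 1 (fun a => X (σ a)))) := by
    rw [← hRL, ← hkey, hR1]
    simp only [Equiv.Perm.sign_one, Equiv.Perm.one_apply]
    push_cast
    ring
  refine ⟨ha, ?_⟩
  intro hrep
  have hz : ∑ σ : Equiv.Perm (Fin (M + 2)), ((Equiv.Perm.sign σ : ℤ) : k) *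
      (w.sum fun X q => (q : k) * TG (fst F) 1 (fun a => X (σ a))) = 0 := by
    have e : ∑ σ : Equiv.Perm (Fin (M + 2)), ((Equiv.Perm.sign σ : ℤ) : k) *
        (w.sum fun X q => (q : k) * TG (fst F) 1 (fun a => X (σ a))) =
        ∑ X ∈ w.support, ((w X : ℚ) : k) * ∑ σ : Equiv.Perm (Fin (M + 2)),
          ((Equiv.Perm.sign σ : ℤ) : k) * TG (fst F) 1 (fun a => X (σ a)) := by
      simp only [Finsupp.sum, Finset.mul_sum]
      rw [Finset.sum_comm]
      refine Finset.sum_congr rfl fun X _ => Finset.sum_congr rfl fun σ _ => ?_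
      ring
    rw [e]
    refine Finset.sum_eq_zero fun X hX => ?_
    obtain ⟨a, b, hab, hXab⟩ := hrep X hX
    rw [HCO.rep F X a b hab hXab, mul_zero]
  rw [hz] at ha
  rcases mul_eq_zero.1 ha with h | h
  · exact absurd h (Nat.cast_ne_zero.2 (Nat.factorial_ne_zero _))
  · exact h

end Pool.Agent.FJA
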