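import Pool.Agent.FJA.StW

/-!
# HCP: the sum over all the functions is a polynomial in their number of values
-/

set_option autoImplicit false

noncomputable section

namespace Pool.Agent.FJA

namespace HCP

open Finset

theorem sort_comp {L b N : ℕ} (e : Fin b ↪o Fin N) (c : Fin L → Fin b) :
    Tuple.sort (fun i => e (c i)) = Tuple.sort c := by
  symm
  have h := (Tuple.eq_sort_iff (f := c) (σ := Tuple.sort c)).1 rfl
  refine (Tuple.eq_sort_iff (f := fun i => e (c i)) (σ := Tuple.sort c)).2 ⟨?_, ?_⟩
  · intro i j hij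
    exact e.monotone (h.1 hij)
  · intro i j hij he
    exact h.2 i j hij (e.injective he)

variable {k : Type} [Field k]

/-- The sum over the surjective functions with `b` values. -/
def rho {L : ℕ} (f : Equiv.Perm (Fin L) → k) (b : ℕ) : k :=
  ∑ c : Fin L → Fin b with Function.Surjective c, f (Tuple.sort c)

theorem inner {L N : ℕ} (f : Equiv.Perm (Fin L) → k) (S : Finset (Fin N)) :
    ∑ t : Fin L → Fin N with Finset.image t Finset.univ = S, f (Tuple.sort t) = rho f S.card := by
  classical
  symm
  unfold rho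
  refine Finset.sum_bij (fun c _ i => S.orderEmbOfFin rfl (c i)) ?_ ?_ ?_ ?_
  · intro c hc
    rw [Finset.mem_filter] at hc ⊢
    refine ⟨Finset.mem_univ _, ?_⟩
    ext x
    rw [Finset.mem_image]
    constructor
    · rintro ⟨i, -, rfl⟩
      exact Finset.orderEmbOfFin_mem _ _ _
    · intro hx
      have : x ∈ Set.range (S.orderEmbOfFin rfl) := by
        rw [Finset.range_orderEmbOfFin]; exact hx
      obtain ⟨y, rfl⟩ := this
      obtain ⟨i, rfl⟩ := hc.2 y
      exact ⟨i, Finset.mem_univ _, rfl⟩
  · intro c _ c' _ h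
    funext i
    exact (S.orderEmbOfFin rfl).injective (congrFun h i)
  · intro t ht
    rw [Finset.mem_filter] at ht
    have h1 : ∀ i, ∃ y, S.orderEmbOfFin rfl y = t i := by
      intro i
      have : t i ∈ Set.range (S.orderEmbOfFin rfl) := by
        rw [Finset.range_orderEmbOfFin, Finset.mem_coe, ← ht.2]
        exact Finset.mem_image_of_mem _ (Finset.mem_univ _)
      exact this
    choose c hc using h1
    refine ⟨c, ?_, funext hc⟩
    rw [Finset.mem_filter]
    refine ⟨Finset.mem_univ _, ?_⟩
    intro x
    have : S.orderEmbOfFin rfl x ∈ Finset.image t Finset.univ := by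
      rw [ht.2]; exact Finset.orderEmbOfFin_mem _ _ _
    rw [Finset.mem_image] at this
    obtain ⟨i, -, hi⟩ := this
    refine ⟨i, (S.orderEmbOfFin rfl).injective ?_⟩
    rw [hc i, hi]
  · intro c _
    rw [sort_comp]

theorem total {L N : ℕ} (f : Equiv.Perm (Fin L) → k) :
    ∑ t : Fin L → Fin N, f (Tuple.sort t) = ∑ b ∈ Finset.range (N + 1), (N.choose b : k) * rho f b := by
  classical
  rw [← Finset.sum_fiberwise_of_maps_to (s := Finset.univ)
    (t := (Finset.univ : Finset (Fin N)).powerset)
    (g := fun t : Fin L → Fin N => Finset.image t Finset.univ)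
    (fun t _ => Finset.mem_powerset.2 (Finset.subset_univ _))]
  rw [Finset.sum_congr rfl (fun S _ => inner f S)]
  rw [Finset.sum_powerset_apply_card (fun b => rho f b)]
  simp [nsmul_eq_mul]

theorem rho_zero_of_lt {L b : ℕ} (f : Equiv.Perm (Fin L) → k) (h : L < b) : rho f b = 0 := by
  unfold rho
  apply Finset.sum_eq_zero
  intro c hc
  rw [Finset.mem_filter] at hc
  have := Fintype.card_le_of_surjective c hc.2
  simp at this
  omega

theorem rho_top {L : ℕ} (f : Equiv.Perm (Fin L) → k) : rho f L = ∑ σ, f σ := by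
  classical
  unfold rho
  symm
  rw [← Equiv.sum_comp (Equiv.inv (Equiv.Perm (Fin L))) f]
  refine Finset.sum_bij (fun σ _ => (σ : Fin L → Fin L)) ?_ ?_ ?_ ?_
  · intro σ _
    rw [Finset.mem_filter]
    exact ⟨Finset.mem_univ _, σ.surjective⟩
  · intro σ _ τ _ h
    exact Equiv.ext (congrFun h)
  · intro c hc
    rw [Finset.mem_filter] at hc
    exact ⟨Equiv.ofBijective c (Finite.injective_iff_bijective.1
      (Finite.injective_iff_surjective.2 hc.2)), Finset.mem_univ _, rfl⟩
  · intro σ _
    rw [Tuple.sort_perm]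
    rfl

/-- The polynomial. -/
def pol {L : ℕ} (f : Equiv.Perm (Fin L) → k) : Polynomial k :=
  ∑ b ∈ Finset.range (L + 1), Polynomial.C (rho f b * ((b.factorial : k))⁻¹) * descPochhammer k b

theorem pol_eval [CharZero k] {L : ℕ} (f : Equiv.Perm (Fin L) → k) (N : ℕ) :
    (pol f).eval (N : k) = ∑ t : Fin L → Fin N, f (Tuple.sort t) := by
  have h1 : (pol f).eval (N : k) = ∑ b ∈ Finset.range (L + 1), (N.choose b : k) * rho f b := by
    unfold pol
    rw [Polynomial.eval_finsetSum]
    apply Finset.sum_congr rfl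
    intro b _
    rw [Polynomial.eval_mul, Polynomial.eval_C, descPochhammer_eval_eq_descFactorial,
      Nat.descFactorial_eq_factorial_mul_choose]
    have hb : (b.factorial : k) ≠ 0 := by exact_mod_cast b.factorial_ne_zero
    push_cast
    field_simp
  rw [h1, total]
  have h2 : ∀ M : ℕ, L ≤ M → N ≤ M → ∑ b ∈ Finset.range (L + 1), (N.choose b : k) * rho f b =
      ∑ b ∈ Finset.range (M + 1), (N.choose b : k) * rho f b := by
    intro M hM _
    apply Finset.sum_subset
    · intro x hx
      rw [Finset.mem_range] at hx ⊢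
      omega
    · intro x _ hx
      rw [Finset.mem_range] at hx
      rw [rho_zero_of_lt f (by omega), mul_zero]
  have h3 : ∀ M : ℕ, L ≤ M → N ≤ M → ∑ b ∈ Finset.range (N + 1), (N.choose b : k) * rho f b =
      ∑ b ∈ Finset.range (M + 1), (N.choose b : k) * rho f b := by
    intro M _ hM
    apply Finset.sum_subset
    · intro x hx
      rw [Finset.mem_range] at hx ⊢
      omega
    · intro x _ hx
      rw [Finset.mem_range] at hx
      rw [Nat.choose_eq_zero_of_lt (by omega), Nat.cast_zero, zero_mul]
  rw [h2 (max L N) (le_max_left _ _) (le_max_right _ _),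
    h3 (max L N) (le_max_left _ _) (le_max_right _ _)]

theorem pol_natDegree {L : ℕ} (f : Equiv.Perm (Fin L) → k) : (pol f).natDegree ≤ L := by
  unfold pol
  apply Polynomial.natDegree_sum_le_of_forall_le
  intro b hb
  rw [Finset.mem_range] at hb
  refine (Polynomial.natDegree_C_mul_le _ _).trans ?_
  rw [descPochhammer_natDegree]
  omega

theorem pol_coeff [CharZero k] {L : ℕ} (f : Equiv.Perm (Fin L) → k) :
    (pol f).coeff L * (L.factorial : k) = ∑ σ, f σ := by
  unfold pol
  rw [Polynomial.finsetSum_coeff, Finset.sum_range_succ, Finset.sum_eq_zero, zero_add,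
    Polynomial.coeff_C_mul]
  · have h : (descPochhammer k L).coeff L = 1 := by
      have := monic_descPochhammer k L
      rw [Polynomial.Monic, Polynomial.leadingCoeff, descPochhammer_natDegree] at this
      exact this
    have hb : (L.factorial : k) ≠ 0 := by exact_mod_cast L.factorial_ne_zero
    rw [h, mul_one, rho_top]
    field_simp
  · intro b hb
    rw [Finset.mem_range] at hb
    rw [Polynomial.coeff_C_mul, Polynomial.coeff_eq_zero_of_natDegree_lt, mul_zero]
    rw [descPochhammer_natDegree]
    exact hb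

end HCP

/-- HCP. -/
theorem t_HCP : S_HCP := by
  intro k _ _ L _ f
  refine ⟨HCP.pol f, HCP.pol_natDegree f, HCP.pol_coeff f, ?_, HCP.pol_eval f⟩
  have h := HCP.pol_eval f 1
  rw [Nat.cast_one] at h
  rw [h, Fintype.sum_unique]
  congr 1
  rw [Equiv.Perm.one_def]
  rw [Tuple.sort_eq_refl_iff_monotone]
  intro i j _
  exact le_of_eq (Subsingleton.elim _ _)

end Pool.Agent.FJA
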