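import Pool.Agent.FJA.StW
import Pool.Agent.FJA.P_DEN

/-!
# Module HDE: the trace formula for pairs of matrices
-/

set_option autoImplicit false

open Matrix Pool.Agent.WhK Pool.Agent.Lib25

noncomputable section

namespace Pool.Agent.FJA

open DEN

theorem t_HDE : S_HDE := by
  intro k _ _ G _ ι _ _ ε n F hF X
  classical
  set φ : Rec G (Fin (n + 1)) → ℚ := fst F with hφdef
  have hφ : CjInv φ := fst_cj F hF
  set h : Fin (n + 1) → Matrix ι ι (MonoidAlgebra k G) :=
    fun j => (X j).b * (X (j + 1)).a with hh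
  -- regrouping
  have h1 : TG φ 1 X = lin k φ (Matrix.trace (List.ofFn fun j : Fin (n + 1) =>
      wm k ι j * jm k (Fin (n + 1)) (h j)).prod) := by
    unfold TG UG
    rw [pow_one, rgp, TXA.lin_trace_comm φ hφ]
    have e1 : (fun j : Fin (n + 1) => wm k ι j * jm k (Fin (n + 1)) (h j)) =
        fun j : Fin (n + 1) => wm k ι j * (jm k (Fin (n + 1)) (X j).b *
          jm k (Fin (n + 1)) (X (j + 1)).a) := by
      funext j
      rw [hh, ← map_mul]
    rw [e1, rgp' n (fun j => jm k (Fin (n + 1)) (X j).a)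
      (fun j => wm k ι j) (fun j => jm k (Fin (n + 1)) (X j).b)]
  -- the finite set
  set S : Finset G := Finset.univ.biUnion fun t : Fin (n + 1) × ι × ι =>
    (h t.1 t.2.1 t.2.2).coeff.support with hSdef
  have hS : ∀ j a b, (h j a b).coeff.support ⊆ S := by
    intro j a b x hx
    exact Finset.mem_biUnion.2 ⟨(j, a, b), Finset.mem_univ _, hx⟩
  have h2 : cval (k := k) F h = ∑ γ ∈ Fintype.piFinset fun _ : Fin (n + 1) => S,
      hcoef h γ * ((F (fpr γ) (List.ofFn γ).prod : ℚ) : k) := by
    unfold cval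
    refine finsum_eq_sum_of_support_subset _ ?_
    intro γ hγ
    rw [Function.mem_support] at hγ
    have h3 : hcoef h γ ≠ 0 := left_ne_zero_of_mul hγ
    obtain ⟨a, -, ha⟩ := Finset.exists_ne_zero_of_sum_ne_zero h3
    rw [Finset.mem_coe, Fintype.mem_piFinset]
    intro j
    exact hS j (a j) (a (j + 1)) (Finsupp.mem_support_iff.2
      (Finset.prod_ne_zero_iff.1 ha j (Finset.mem_univ j)))
  rw [h1, h2, trace_prod, map_sum]
  have h3 : ∀ a : Fin (n + 1) → ι,
      lin k φ (List.ofFn fun j : Fin (n + 1) =>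
        (wm k ι j * jm k (Fin (n + 1)) (h j) : Matrix ι ι
          (MonoidAlgebra k (Rec G (Fin (n + 1))))) (a j) (a (j + 1))).prod =
      ∑ γ ∈ Fintype.piFinset fun _ : Fin (n + 1) => S,
        (∏ j, (h j (a j) (a (j + 1))).coeff (γ j)) *
          ((F (fpr γ) (List.ofFn γ).prod : ℚ) : k) := by
    intro a
    have e1 : (fun j : Fin (n + 1) =>
        (wm k ι j * jm k (Fin (n + 1)) (h j) : Matrix ι ι
          (MonoidAlgebra k (Rec G (Fin (n + 1))))) (a j) (a (j + 1))) =
        fun j => MonoidAlgebra.mapDomain (fun g => Rec.om j * Rec.inc g)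
          (h j (a j) (a (j + 1))) := by
      funext j
      rw [wm, Matrix.diagonal_mul]
      exact mul_mapDomain _ _
    rw [e1, prod_expand _ _ _ S (fun j => hS j _ _), map_sum]
    refine Finset.sum_congr rfl fun γ _ => ?_
    rw [lin_single]
    congr 2
    exact fst_rc F γ
  simp only [h3]
  rw [Finset.sum_comm]
  refine Finset.sum_congr rfl fun γ _ => ?_
  rw [← Finset.sum_mul]
  rfl

end Pool.Agent.FJA
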