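import Pool.Agent.FJA.StW
import Pool.Agent.FJA.P_DEN

/-!
# Module HEV: the value at chosen positions
-/

set_option autoImplicit false

open Matrix Pool.Agent.WhK Pool.Agent.Lib25

noncomputable section

namespace Pool.Agent.FJA

namespace HEV

/-- Keep the lists whose labels satisfy `p`, forget the others. -/
def kp {Γ : Type} [Group Γ] {V : Type} (p : V → Prop) [DecidablePred p] : Rec Γ V →* Rec Γ V where
  toFun μ := ⟨fun i => if p i then μ.lst i else [], μ.val⟩
  map_one' := by
    apply Rec.ext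
    · funext i
      by_cases h : p i
      · simp [h]
      · simp [h]
    · rfl
  map_mul' μ ν := by
    apply Rec.ext
    · funext i
      by_cases h : p i
      · simp [h]
      · simp [h]
    · rfl

theorem kp_lst {Γ : Type} [Group Γ] {V : Type} (p : V → Prop) [DecidablePred p] (μ : Rec Γ V)
    (i : V) : (kp p μ).lst i = if p i then μ.lst i else [] := rfl

theorem kp_val {Γ : Type} [Group Γ] {V : Type} (p : V → Prop) [DecidablePred p] (μ : Rec Γ V) :
    (kp p μ).val = μ.val := rfl

theorem prod_lst_len {Γ : Type} [Group Γ] {V : Type} (i : V) (L : List (Rec Γ V))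
    (h : ∀ μ ∈ L, (μ.lst i).length = 1) : (L.prod.lst i).length = L.length := by
  induction L with
  | nil => rfl
  | cons μ L ih =>
    rw [List.prod_cons, Rec.mul_lst, List.length_append, List.length_map, h μ (by simp),
      ih fun ν hν => h ν (by simp [hν]), List.length_cons]
    ring

/-- the list of one label of a product -/
theorem prod_lst {Γ : Type} [Group Γ] {V : Type} (i : V) : ∀ (N : ℕ) (μ ν : Fin N → Rec Γ V)
    (s0 : Fin N), (∀ s, ((μ s).lst i).length = 1) → (∀ s, (ν s).val = (μ s).val) →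
    (∀ s, (ν s).lst i = if s = s0 then (μ s).lst i else []) →
    (List.ofFn ν).prod.lst i = [((List.ofFn μ).prod.lst i).getD s0 1] := by
  intro N
  induction N with
  | zero => intro μ ν s0; exact s0.elim0
  | succ N ih =>
    intro μ ν s0 hμ hv hν
    rw [List.ofFn_succ, List.ofFn_succ, List.prod_cons, List.prod_cons, Rec.mul_lst, Rec.mul_lst]
    obtain ⟨a, ha⟩ := List.length_eq_one_iff.1 (hμ 0)
    induction s0 using Fin.cases with
    | zero =>
      rw [hν 0, if_pos rfl, ha]
      rw [DEN.prod_lst_nil i (List.ofFn fun s : Fin N => ν s.succ)]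
      · simp
      · intro ρ hρ
        obtain ⟨s, rfl⟩ := (List.mem_ofFn' _ _).1 hρ
        rw [hν, if_neg (Fin.succ_ne_zero s)]
    | succ s0 =>
      rw [hν 0, if_neg (Fin.succ_ne_zero s0).symm, ha, List.nil_append,
        ih (fun s => μ s.succ) (fun s => ν s.succ) s0 (fun s => hμ s.succ) (fun s => hv s.succ)
          (fun s => by rw [hν]; simp only [Fin.succ_inj]), hv 0]
      have hl : ((List.ofFn fun s : Fin N => μ s.succ).prod.lst i).length = N := by
        rw [prod_lst_len i _ fun ρ hρ => ?_, List.length_ofFn]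
        obtain ⟨s, rfl⟩ := (List.mem_ofFn' _ _).1 hρ
        exact hμ s.succ
      have h1 : (s0 : ℕ) < ((List.ofFn fun s : Fin N => μ s.succ).prod.lst i).length := by
        rw [hl]; exact s0.2
      rw [List.map_singleton]
      congr 1
      rw [List.getD_eq_getElem _ _ h1, List.getD_eq_getElem _ _ (by
        rw [List.length_append, List.length_map, hl, Fin.val_succ, List.length_singleton]
        have := s0.2
        omega)]
      simp only [Fin.val_succ, List.singleton_append, List.getElem_cons_succ, List.getElem_map]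

/-- step (1) on records -/
theorem ev_eq {Γ : Type} [Group Γ] {M N : ℕ} (F : (Fin (M + 1) → Γ) → Γ → ℚ)
    (t : Fin (M + 1) → Fin N) (μ : Fin N → Rec Γ (Fin (M + 1)))
    (hμ : ∀ s i, ((μ s).lst i).length = 1) :
    evT F t (List.ofFn μ).prod = fst F (List.ofFn fun s => kp (fun j => t j = s) (μ s)).prod := by
  have h1 : ∀ i, (List.ofFn fun s => kp (fun j => t j = s) (μ s)).prod.lst i =
      [((List.ofFn μ).prod.lst i).getD (t i) 1] := by
    intro i
    refine prod_lst i N μ _ (t i) (fun s => hμ s i) (fun s => rfl) fun s => ?_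
    rw [kp_lst]
    by_cases h : t i = s
    · rw [if_pos h, if_pos h.symm]
    · rw [if_neg h, if_neg (Ne.symm h)]
  have h2 : (List.ofFn fun s => kp (fun j => t j = s) (μ s)).prod.val = (List.ofFn μ).prod.val := by
    rw [DEN.prod_val, DEN.prod_val, List.map_ofFn, List.map_ofFn]
    rfl
  rw [evT, fst, if_pos (fun i => by rw [h1]; simp), h2]
  simp only [h1, List.headD_cons]

section

variable {k : Type} [Field k] {Γ : Type} [Group Γ] {ι : Type} [Fintype ι] [DecidableEq ι]

/-- a factor -/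
def Pf {ε : Matrix ι ι (MonoidAlgebra k Γ)} {M : ℕ} (X : Fin M → RPair ε) (j : Fin M) :
    Matrix ι ι (MonoidAlgebra k (Rec Γ (Fin M))) :=
  jm k (Fin M) (X j).a * wm k ι j * jm k (Fin M) (X j).b

/-- the induced homomorphism of matrices -/
def Th {V V' : Type} (θ : Rec Γ V →* Rec Γ V') : Matrix ι ι (MonoidAlgebra k (Rec Γ V)) →+*
    Matrix ι ι (MonoidAlgebra k (Rec Γ V')) :=
  (MonoidAlgebra.mapDomainRingHom k θ).mapMatrix

theorem Th_jm {V V' : Type} (θ : Rec Γ V →* Rec Γ V') (hθ : ∀ γ, θ (Rec.inc γ) = Rec.inc γ)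
    (A : Matrix ι ι (MonoidAlgebra k Γ)) : Th θ (jm k V A) = jm k V' A := by
  ext1 a b
  change MonoidAlgebra.mapDomainRingHom k θ (MonoidAlgebra.mapDomainRingHom k Rec.inc (A a b)) =
    MonoidAlgebra.mapDomainRingHom k Rec.inc (A a b)
  rw [← RingHom.comp_apply, ← MonoidAlgebra.mapDomainRingHom_comp]
  congr 2
  ext1 γ
  exact hθ γ

theorem Th_wm {V V' : Type} [DecidableEq V] (θ : Rec Γ V →* Rec Γ V') (v : V) :
    Th (k := k) (ι := ι) θ (wm k ι v) =
      Matrix.diagonal fun _ => MonoidAlgebra.single (θ (Rec.om v)) 1 := by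
  rw [Th, RingHom.mapMatrix_apply, wm, Matrix.diagonal_map (map_zero _)]
  congr 1
  funext _
  exact MonoidAlgebra.mapDomain_single

theorem Th_tr {V V' : Type} (θ : Rec Γ V →* Rec Γ V') (Z : Matrix ι ι (MonoidAlgebra k (Rec Γ V))) :
    MonoidAlgebra.mapDomain θ (Matrix.trace Z) = Matrix.trace (Th θ Z) := by
  change MonoidAlgebra.mapDomainRingHom k θ (Matrix.trace Z) = _
  simp only [Matrix.trace, Matrix.diag_apply, map_sum]
  rfl

/-- step (2): the images of the factors -/
theorem Th_kp {ε : Matrix ι ι (MonoidAlgebra k Γ)} {M : ℕ} (X : Fin M → RPair ε) (p : Fin M → Prop)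
    [DecidablePred p] (j : Fin M) :
    Th (kp p) (Pf X j) = if p j then Pf X j else jm k (Fin M) ε := by
  have hJ : ∀ A : Matrix ι ι (MonoidAlgebra k Γ), Th (kp p) (jm k (Fin M) A) = jm k (Fin M) A := by
    refine Th_jm _ fun γ => ?_
    apply Rec.ext
    · funext i
      rw [kp_lst]
      simp
    · rfl
  rw [Pf, map_mul, map_mul, hJ, hJ, Th_wm]
  by_cases h : p j
  · rw [if_pos h]
    congr 2
    rw [wm]
    congr 1
    funext _
    congr 1
    apply Rec.ext
    · funext i
      rw [kp_lst, Rec.om_lst]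
      by_cases hi : i = j
      · rw [hi, if_pos h]
      · rw [if_neg hi, ite_self]
    · rfl
  · rw [if_neg h]
    have h1 : kp p (Rec.om j : Rec Γ (Fin M)) = 1 := by
      apply Rec.ext
      · funext i
        rw [kp_lst, Rec.om_lst]
        by_cases hi : i = j
        · rw [hi, if_neg h]
          rfl
        · rw [if_neg hi, ite_self]
          rfl
      · rfl
    rw [h1]
    have h2 : (Matrix.diagonal fun _ : ι => MonoidAlgebra.single (1 : Rec Γ (Fin M)) (1 : k)) = 1 :=
      rfl
    rw [h2, mul_one, ← map_mul, (X j).ab]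

/-- step (3): the images of the factors under a permutation of the labels -/
theorem Th_res {ε : Matrix ι ι (MonoidAlgebra k Γ)} {M : ℕ} (X : Fin M → RPair ε)
    (σ : Equiv.Perm (Fin M)) (a : Fin M) :
    Th (Rec.res σ) (Pf X (σ a)) = Pf (fun a => X (σ a)) a := by
  rw [Pf, map_mul, map_mul, Th_jm _ (fun γ => Rec.res_inc _ _), Th_jm _ (fun γ => Rec.res_inc _ _),
    Th_wm, Rec.res_om _ σ.injective]
  rfl

end

theorem fst_res {Γ : Type} [Group Γ] {M : ℕ} (F : (Fin M → Γ) → Γ → ℚ)
    (hF : ∀ (σ : Equiv.Perm (Fin M)) (a : Fin M → Γ) (y : Γ),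
      F (fun j => a (σ j)) y = ((Equiv.Perm.sign σ : ℤ) : ℚ) * F a y)
    (σ : Equiv.Perm (Fin M)) (μ : Rec Γ (Fin M)) :
    fst F (Rec.res σ μ) = ((Equiv.Perm.sign σ : ℤ) : ℚ) * fst F μ := by
  unfold fst
  by_cases h : ∀ i, μ.lst i ≠ []
  · rw [if_pos (fun i => by simpa using h (σ i)), if_pos h]
    exact hF σ (fun i => (μ.lst i).headD 1) μ.val
  · rw [if_neg h, if_neg (fun h' => h fun i => by simpa using h' (σ.symm i)), mul_zero]

end HEV

open HEV in
theorem t_HEV (hhex : S_HEX) (hhlx : S_HLX) (hhtg : S_HTG) : S_HEV := by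
  intro k _ _ Γ _ ι _ _ ε M N F hF t X
  obtain ⟨-, hsup, -⟩ := hhtg
  obtain ⟨T, hT1, hT⟩ := hsup k Γ ι ε (M + 1) X
  set σ := Tuple.sort t with hσ
  set Z : Matrix ι ι (MonoidAlgebra k (Rec Γ (Fin (M + 1)))) :=
    (List.ofFn fun a : Fin (M + 1) => Pf X (σ a)).prod with hZ
  have hUG : UG X = (List.ofFn fun j => Pf X j).prod := rfl
  -- (1)
  have h1 : TG (evT F t) N X = lin k (fst F) (Matrix.trace (List.ofFn fun s : Fin N =>
      Th (k := k) (ι := ι) (kp fun j => t j = s) (UG X)).prod) := by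
    refine hhex k (Rec Γ (Fin (M + 1))) (Rec Γ (Fin (M + 1))) ι (UG X) (T : Set _)
      (fun a b μ h => hT a b μ h) N (fun s => kp fun j => t j = s) (evT F t) (fst F) ?_
    intro μ hμ
    exact ev_eq F t μ fun s i => hT1 _ (hμ s) i
  -- (2)
  have hεε : ε * ε = ε := by
    have h := (X 0).ab
    calc ε * ε = (ε * (X 0).a) * (X 0).b := by rw [mul_assoc, h]
      _ = ε := by rw [(X 0).ea, h]
  have h2 : (List.ofFn fun s : Fin N => Th (k := k) (ι := ι) (kp fun j => t j = s) (UG X)).prod =
      Z := by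
    rw [hZ, ← hhlx (Matrix ι ι (MonoidAlgebra k (Rec Γ (Fin (M + 1))))) M N (Pf X)
      (jm k (Fin (M + 1)) ε) (by rw [← map_mul, hεε])
      (fun j => by rw [Pf, ← mul_assoc, ← mul_assoc, ← map_mul, (X j).ea])
      (fun j => by rw [Pf, mul_assoc, ← map_mul, (X j).be]) t]
    congr 2
    funext s
    rw [hUG, map_list_prod, List.map_ofFn]
    congr 2
    funext j
    exact Th_kp X (fun j => t j = s) j
  -- (3)
  have h3 : TG (fst F) 1 (fun a => X (σ a)) =
      ((Equiv.Perm.sign σ : ℤ) : k) * lin k (fst F) (Matrix.trace Z) := by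
    have h4 : UG (fun a => X (σ a)) = Th (Rec.res σ) Z := by
      rw [hZ, map_list_prod, List.map_ofFn]
      change (List.ofFn fun a => Pf (fun a => X (σ a)) a).prod = _
      congr 2
      funext a
      exact (Th_res X σ a).symm
    rw [TG, pow_one, h4, ← Th_tr, ← TXA.lin_comp]
    have h5 : (fun μ : Rec Γ (Fin (M + 1)) => fst F (Rec.res σ μ)) =
        fun μ => ((Equiv.Perm.sign σ : ℤ) : ℚ) * fst F μ := by
      funext μ
      exact fst_res F hF σ μ
    rw [h5, TXA.lin_smul_fun]
    push_cast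
    rfl
  rw [h1, h2, h3, ← mul_assoc]
  have h6 : ((Equiv.Perm.sign σ : ℤ) : k) * ((Equiv.Perm.sign σ : ℤ) : k) = 1 := by
    rw [← Int.cast_mul, ← Units.val_mul, Int.units_mul_self]
    simp
  rw [h6, one_mul]

end Pool.Agent.FJA
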