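import Pool.Agent.FJA.StW

/-!
# HEX: expansion of the trace of a power
-/

set_option autoImplicit false

open Matrix

noncomputable section

namespace Pool.Agent.FJA

namespace HEX

variable {k : Type} [Field k] {M M' : Type} [Monoid M] [Monoid M']

theorem lin_single_mul (φ : M → ℚ) (μ : M) (c : k) (y : MonoidAlgebra k M) :
    lin k φ (MonoidAlgebra.single μ c * y) = c * lin k (fun ν => φ (μ * ν)) y := by
  induction y using MonoidAlgebra.induction_linear with
  | zero => rw [mul_zero, map_zero, map_zero, mul_zero]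
  | add x y hx hy => rw [mul_add, map_add, map_add, hx, hy, mul_add]
  | single ν c' =>
    rw [MonoidAlgebra.single_mul_single, lin_single, lin_single, mul_assoc]

theorem lin_map_mul (g : M →* M') (ψ : M' → ℚ) (x : MonoidAlgebra k M) (y : MonoidAlgebra k M') :
    lin k ψ (MonoidAlgebra.mapDomainRingHom k g x * y) =
      x.coeff.sum fun μ c => c * lin k (fun ν => ψ (g μ * ν)) y := by
  induction x using MonoidAlgebra.induction_linear with
  | zero =>
    rw [map_zero, zero_mul, map_zero]
    exact (Finsupp.sum_zero_index).symm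
  | add x x' hx hx' =>
    rw [map_add, add_mul, map_add, hx, hx', MonoidAlgebra.coeff_add,
      Finsupp.sum_add_index' (fun _ => zero_mul _) (fun _ _ _ => add_mul _ _ _)]
  | single μ c =>
    rw [MonoidAlgebra.mapDomainRingHom_apply, MonoidAlgebra.mapDomain_single, lin_single_mul,
      MonoidAlgebra.coeff_single, Finsupp.sum_single_index (zero_mul _)]

theorem lin_mul' (φ : M → ℚ) (x y : MonoidAlgebra k M) :
    lin k φ (x * y) = x.coeff.sum fun μ c => c * lin k (fun ν => φ (μ * ν)) y := by
  have h := lin_map_mul (k := k) (MonoidHom.id M) φ x y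
  rw [MonoidAlgebra.mapDomainRingHom_id] at h
  exact h

variable {ι : Type} [Fintype ι] [DecidableEq ι]

theorem key (A : Matrix ι ι (MonoidAlgebra k M)) (T : Set M)
    (hT : ∀ a b μ, (A a b).coeff μ ≠ 0 → μ ∈ T) :
    ∀ (N : ℕ) (g : Fin N → (M →* M')) (φ : M → ℚ) (ψ : M' → ℚ),
    (∀ μ : Fin N → M, (∀ s, μ s ∈ T) →
      φ (List.ofFn μ).prod = ψ (List.ofFn fun s => g s (μ s)).prod) →
    ∀ a b, lin k φ ((A ^ N) a b) =
      lin k ψ ((List.ofFn fun s =>
        ((MonoidAlgebra.mapDomainRingHom k (g s)).mapMatrix :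
          Matrix ι ι (MonoidAlgebra k M) →+* Matrix ι ι (MonoidAlgebra k M')) A).prod a b) := by
  intro N
  induction N with
  | zero =>
    intro g φ ψ h a b
    have h0 := h (fun s => 1) (fun s => s.elim0)
    simp only [List.ofFn_zero, List.prod_nil] at h0 ⊢
    rw [pow_zero]
    by_cases hab : a = b
    · subst hab
      rw [Matrix.one_apply_eq, Matrix.one_apply_eq, MonoidAlgebra.one_def, MonoidAlgebra.one_def,
        lin_single, lin_single, h0]
    · rw [Matrix.one_apply_ne hab, Matrix.one_apply_ne hab, map_zero, map_zero]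
  | succ N ih =>
    intro g φ ψ h a b
    rw [pow_succ', List.ofFn_succ, List.prod_cons, Matrix.mul_apply, Matrix.mul_apply, map_sum,
      map_sum]
    refine Finset.sum_congr rfl fun c _ => ?_
    rw [RingHom.mapMatrix_apply, Matrix.map_apply, lin_mul', lin_map_mul]
    refine Finset.sum_congr rfl fun μ hμ => ?_
    have hμT : μ ∈ T := hT a c μ (Finsupp.mem_support_iff.mp hμ)
    simp only
    rw [ih (fun s => g s.succ) (fun ν => φ (μ * ν)) (fun ν => ψ (g 0 μ * ν)) ?_ c b]
    intro ν hν
    have h1 := h (Fin.cons μ ν) (fun s => Fin.cases hμT (fun i => by simpa using hν i) s)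
    simp only [List.ofFn_succ, Fin.cons_zero, Fin.cons_succ, List.prod_cons] at h1
    exact h1

end HEX

theorem t_HEX : S_HEX := by
  intro k _ _ M M' _ _ ι _ _ A T hT N g φ ψ h
  rw [Matrix.trace, Matrix.trace, map_sum, map_sum]
  exact Finset.sum_congr rfl fun a _ => HEX.key A T hT N g φ ψ h a a

end Pool.Agent.FJA
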