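import Pool.Agent.FJA.StW
import Pool.Agent.FJA.P_TXA

/-!
# HFA: faces of the simplices of pairs of matrices
-/

set_option autoImplicit false

open Matrix Pool.Agent.WhK Pool.Agent.Lib25

noncomputable section

namespace Pool.Agent.FJA

namespace HFA

/-- A factor which is absorbed by its neighbours can be omitted. -/
theorem prod_absorb {R : Type*} [Monoid R] (e : R) : ∀ {M : ℕ} (f : Fin (M + 2) → R)
    (i : Fin (M + 2)), f i = e → (∀ t : Fin (M + 1), e * f (i.succAbove t) = f (i.succAbove t)) →
    (∀ t : Fin (M + 1), f (i.succAbove t) * e = f (i.succAbove t)) →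
    (List.ofFn f).prod = (List.ofFn fun t => f (i.succAbove t)).prod := by
  intro M
  induction M with
  | zero =>
    intro f i hi hl hr
    induction i using Fin.cases with
    | zero =>
      have h1 := hl 0
      simp only [Fin.zero_succAbove] at h1
      simp only [List.ofFn_succ, List.ofFn_zero, List.prod_cons, List.prod_nil, mul_one,
        Fin.zero_succAbove]
      rw [hi]
      exact h1
    | succ i =>
      have hi0 : i = 0 := Fin.ext (by omega)
      subst hi0
      have h1 := hr 0
      simp only [Fin.succ_succAbove_zero] at h1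
      simp only [List.ofFn_succ, List.ofFn_zero, List.prod_cons, List.prod_nil, mul_one,
        Fin.succ_succAbove_zero]
      rw [hi]
      exact h1
  | succ M ih =>
    intro f i hi hl hr
    induction i using Fin.cases with
    | zero =>
      simp only [Fin.zero_succAbove] at hl ⊢
      rw [List.ofFn_succ, List.prod_cons, hi, List.ofFn_succ, List.prod_cons, ← mul_assoc, hl 0]
    | succ i =>
      rw [List.ofFn_succ, List.prod_cons, ih (fun t => f t.succ) i hi ?_ ?_,
        List.ofFn_succ (f := fun t => f (i.succ.succAbove t)), List.prod_cons]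
      · simp only [Fin.succ_succAbove_zero, Fin.succ_succAbove_succ]
      · intro t
        have h1 := hl t.succ
        rwa [Fin.succ_succAbove_succ] at h1
      · intro t
        have h1 := hr t.succ
        rwa [Fin.succ_succAbove_succ] at h1

end HFA

theorem t_HFA : S_HFA := by
  intro k _ _ Γ _ ι _ _ ε M N φ i X
  unfold TG
  rw [TXA.lin_comp]
  set θ : Rec Γ (Fin (M + 2)) →* Rec Γ (Fin (M + 1)) := Rec.res i.succAbove with hθ
  set Θ : Matrix ι ι (MonoidAlgebra k (Rec Γ (Fin (M + 2)))) →+*
    Matrix ι ι (MonoidAlgebra k (Rec Γ (Fin (M + 1)))) :=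
      (MonoidAlgebra.mapDomainRingHom k θ).mapMatrix with hΘ
  have htr : ∀ Z : Matrix ι ι (MonoidAlgebra k (Rec Γ (Fin (M + 2)))),
      MonoidAlgebra.mapDomain θ (Matrix.trace Z) = Matrix.trace (Θ Z) := by
    intro Z
    change MonoidAlgebra.mapDomainRingHom k θ (Matrix.trace Z) = _
    simp only [Matrix.trace, Matrix.diag_apply, map_sum]
    rfl
  have hJ : ∀ A : Matrix ι ι (MonoidAlgebra k Γ),
      Θ (jm k (Fin (M + 2)) A) = jm k (Fin (M + 1)) A := by
    intro A
    ext1 a b
    change MonoidAlgebra.mapDomainRingHom k θ (MonoidAlgebra.mapDomainRingHom k Rec.inc (A a b)) =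
      MonoidAlgebra.mapDomainRingHom k Rec.inc (A a b)
    rw [← RingHom.comp_apply, ← MonoidAlgebra.mapDomainRingHom_comp]
    rfl
  have hw : ∀ v : Fin (M + 2), Θ (wm k ι v) =
      Matrix.diagonal fun _ => MonoidAlgebra.single (θ (Rec.om v)) 1 := by
    intro v
    rw [hΘ, RingHom.mapMatrix_apply, wm, Matrix.diagonal_map (map_zero _)]
    congr 1
    funext _
    exact MonoidAlgebra.mapDomain_single
  have hwi : Θ (wm k ι i) = 1 := by
    rw [hw, hθ, Rec.res_om_of_ne _ _ (fun t => Fin.succAbove_ne i t)]
    rfl
  have hwt : ∀ t : Fin (M + 1), Θ (wm k ι (i.succAbove t)) = wm k ι t := by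
    intro t
    rw [hw, hθ, Rec.res_om _ Fin.succAbove_right_injective]
    rfl
  have hU : Θ (UG X) = UG (fun t => X (i.succAbove t)) := by
    unfold UG
    rw [map_list_prod, List.map_ofFn, HFA.prod_absorb (jm k (Fin (M + 1)) ε) _ i]
    · congr 2
      funext t
      simp only [Function.comp_apply, map_mul, hJ, hwt]
    · simp only [Function.comp_apply, map_mul, hJ, hwi, mul_one]
      rw [← map_mul, (X i).ab]
    · intro t
      simp only [Function.comp_apply, map_mul, hJ]
      rw [← mul_assoc, ← mul_assoc, ← map_mul, (X (i.succAbove t)).ea]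
    · intro t
      simp only [Function.comp_apply, map_mul, hJ]
      rw [mul_assoc, ← map_mul, (X (i.succAbove t)).be]
  have h2 := htr (UG X ^ N)
  rw [map_pow, hU] at h2
  rw [h2]

end Pool.Agent.FJA
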