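import Pool.Agent.FJA.StW

/-!
# FJA: the module HFD (divisibility by infinitely many primes)
-/

set_option autoImplicit false

noncomputable section

namespace Pool.Agent.FJA

namespace HFD

/-- the denominators of the ring generated by a finite set only contain finitely many primes -/
theorem core (k : Type) [Field k] [CharZero k] (s : Finset k) :
    ∃ g : ℤ, g ≠ 0 ∧ ∀ c ∈ Subring.closure (s : Set k), ∀ d ℓ : ℤ, ℓ ≠ 0 → (ℓ : k) * c = d →
      ∃ e : ℕ, ℓ ∣ g ^ e * d := by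
  classical
  let B : Subalgebra ℚ k := Algebra.adjoin ℚ (s : Set k)
  have hle : Subring.closure (s : Set k) ≤ B.toSubring :=
    Subring.closure_le.2 fun _ ha => Algebra.subset_adjoin ha
  haveI : Algebra.FiniteType ℚ B :=
    (Subalgebra.fg_iff_finiteType B).1 (Subalgebra.fg_adjoin_finset s)
  obtain ⟨𝔪, h𝔪⟩ := Ideal.exists_maximal B
  haveI hnt : Nontrivial (B ⧸ 𝔪) := Ideal.Quotient.nontrivial_iff.2 h𝔪.ne_top
  have hfin : Module.Finite ℚ (B ⧸ 𝔪) := by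
    letI : Field (B ⧸ 𝔪) := Ideal.Quotient.field 𝔪
    exact finite_of_finite_type_of_isJacobsonRing ℚ (B ⧸ 𝔪)
  haveI : Algebra.IsAlgebraic ℚ (B ⧸ 𝔪) := inferInstance
  haveI hal : Algebra.IsAlgebraic ℤ (B ⧸ 𝔪) :=
    (IsFractionRing.comap_isAlgebraic_iff (A := ℤ) (K := ℚ)).2 inferInstance
  have hmem : ∀ a ∈ s, a ∈ B := fun a ha => Algebra.subset_adjoin ha
  obtain ⟨g, hg0, hg⟩ := Algebra.IsAlgebraic.exists_integral_multiples ℤ
    (s.attach.image fun a : {a // a ∈ s} =>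
      Ideal.Quotient.mk 𝔪 (⟨a.1, hmem a.1 a.2⟩ : B))
  have hkey : ∀ b ∈ Subring.closure (s : Set k), ∃ hb : b ∈ B, ∃ e : ℕ,
      IsIntegral ℤ (g ^ e • (Ideal.Quotient.mk 𝔪 (⟨b, hb⟩ : B))) := by
    intro b hb
    induction hb using Subring.closure_induction with
    | mem a ha =>
      refine ⟨hmem a ha, 1, ?_⟩
      rw [pow_one]
      exact hg _ (Finset.mem_image.2 ⟨⟨a, ha⟩, Finset.mem_attach _ _, rfl⟩)
    | zero =>
      refine ⟨B.zero_mem, 0, ?_⟩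
      have h3 : (⟨0, B.zero_mem⟩ : B) = 0 := rfl
      rw [h3, map_zero, smul_zero]
      exact isIntegral_zero
    | one =>
      refine ⟨B.one_mem, 0, ?_⟩
      have h3 : (⟨1, B.one_mem⟩ : B) = 1 := rfl
      rw [h3, map_one, pow_zero, one_smul]
      exact isIntegral_one
    | add a b _ _ iha ihb =>
      obtain ⟨ha, e1, h1⟩ := iha
      obtain ⟨hb, e2, h2⟩ := ihb
      refine ⟨B.add_mem ha hb, e1 + e2, ?_⟩
      have h3 : (⟨a + b, B.add_mem ha hb⟩ : B) = ⟨a, ha⟩ + ⟨b, hb⟩ := rfl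
      rw [h3, map_add, smul_add, pow_add]
      refine IsIntegral.add ?_ ?_
      · rw [mul_comm, mul_smul]
        exact h1.smul _
      · rw [mul_smul]
        exact h2.smul _
    | neg a _ iha =>
      obtain ⟨ha, e1, h1⟩ := iha
      refine ⟨B.neg_mem ha, e1, ?_⟩
      have h3 : (⟨-a, B.neg_mem ha⟩ : B) = -⟨a, ha⟩ := rfl
      rw [h3, map_neg, smul_neg]
      exact h1.neg
    | mul a b _ _ iha ihb =>
      obtain ⟨ha, e1, h1⟩ := iha
      obtain ⟨hb, e2, h2⟩ := ihb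
      refine ⟨B.mul_mem ha hb, e1 + e2, ?_⟩
      have h3 : (⟨a * b, B.mul_mem ha hb⟩ : B) = ⟨a, ha⟩ * ⟨b, hb⟩ := rfl
      rw [h3, map_mul, pow_add, ← smul_mul_smul_comm]
      exact h1.mul h2
  refine ⟨g, hg0, fun c hc d ℓ hℓ hlc => ?_⟩
  obtain ⟨hcB, e, he⟩ := hkey c hc
  refine ⟨e, ?_⟩
  have hℓ' : (ℓ : ℚ) ≠ 0 := by exact_mod_cast hℓ
  have h1 : algebraMap ℚ (B ⧸ 𝔪) ((g : ℚ) ^ e * d / ℓ) =
      g ^ e • Ideal.Quotient.mk 𝔪 (⟨c, hcB⟩ : B) := by
    have h2 : (⟨c, hcB⟩ : B) = algebraMap ℚ B (d / ℓ) := by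
      apply Subtype.ext
      change c = algebraMap ℚ k (d / ℓ)
      rw [eq_ratCast, Rat.cast_div, Rat.cast_intCast, Rat.cast_intCast, eq_div_iff (by
        exact_mod_cast hℓ), mul_comm]
      exact hlc
    rw [h2, mul_div_assoc, map_mul, zsmul_eq_mul]
    congr 1
    rw [map_pow, map_intCast]
    push_cast
    rfl
  have h5 : IsIntegral ℤ ((g : ℚ) ^ e * d / ℓ) := by
    rw [← isIntegral_algebraMap_iff (A := ℚ) (B := B ⧸ 𝔪) (algebraMap ℚ (B ⧸ 𝔪)).injective, h1]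
    exact he
  obtain ⟨y, hy⟩ := IsIntegrallyClosed.isIntegral_iff.1 h5
  refine ⟨y, ?_⟩
  have h6 : ((g : ℚ) ^ e * d) = ℓ * y := by
    rw [eq_div_iff hℓ'] at hy
    rw [← hy, eq_intCast, mul_comm]
  exact_mod_cast h6

end HFD

open HFD in
/-- MODULE HFD -/
theorem t_HFD : S_HFD := by
  classical
  intro k _ _ s x hx hinf
  by_contra hx0
  obtain ⟨g, hg0, hg⟩ := core k (insert x⁻¹ s)
  obtain ⟨ℓ, ⟨hℓ, d, hd, a, ha, hda⟩, hlt⟩ := hinf.exists_gt g.natAbs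
  have hℓ0 : (ℓ : ℤ) ≠ 0 := by exact_mod_cast hℓ.ne_zero
  have hmono : Subring.closure (s : Set k) ≤ Subring.closure ((insert x⁻¹ s : Finset k) : Set k) :=
    Subring.closure_mono (by
      rw [Finset.coe_insert]
      exact Set.subset_insert _ _)
  obtain ⟨e, he⟩ := hg (a * x⁻¹) (Subring.mul_mem _ (hmono ha)
    (Subring.subset_closure (by simp))) d ℓ hℓ0 (by
      rw [← mul_assoc, Int.cast_natCast, ← hda, mul_assoc, mul_inv_cancel₀ hx0, mul_one])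
  have hp := Nat.prime_iff_prime_int.1 hℓ
  rcases hp.dvd_or_dvd he with h1 | h1
  · have h2 := hp.dvd_of_dvd_pow h1
    have h3 : ℓ ∣ g.natAbs := Int.natCast_dvd.1 h2
    have h4 := Nat.le_of_dvd (Int.natAbs_pos.2 hg0) h3
    omega
  · exact hd h1

end Pool.Agent.FJA
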