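import Pool.Agent.FJA.StW
import Pool.Agent.FJA.P_FGS

/-!
# HFG: cycles and idempotent matrices come from finitely generated subgroups
-/

set_option autoImplicit false

open Matrix Pool.Agent.WhK Pool.Agent.Lib25

noncomputable section

namespace Pool.Agent.FJA

namespace HFG

open FGS

section

variable {k : Type} [Field k] {G : Type} [Group G] (H : Subgroup G) {r : ℕ}

theorem exists_lift (M : Matrix (Fin r) (Fin r) (MonoidAlgebra k G))
    (hM : ∀ a b, ∀ g ∈ (M a b).coeff.support, g ∈ H) :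
    ∃ M' : Matrix (Fin r) (Fin r) (MonoidAlgebra k H),
      (MonoidAlgebra.mapDomainRingHom k H.subtype).mapMatrix M' = M := by
  refine ⟨fun a b => MonoidAlgebra.comapDomain H.subtype H.subtype_injective (M a b), ?_⟩
  funext a b
  exact MonoidAlgebra.mapDomain_comapDomain
    (fun g hg => ⟨⟨g, hM a b g hg⟩, rfl⟩) H.subtype_injective

theorem mat_inj : Function.Injective ((MonoidAlgebra.mapDomainRingHom k H.subtype).mapMatrix :
    Matrix (Fin r) (Fin r) (MonoidAlgebra k H) →+* Matrix (Fin r) (Fin r) (MonoidAlgebra k G)) := by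
  intro A B h
  funext a b
  exact MonoidAlgebra.mapDomain_injective H.subtype_injective (congrFun (congrFun h a) b)

theorem glG_inj : Function.Injective (glG (k := k) (ι := Fin r) H.subtype) :=
  Units.map_injective (mat_inj H)

/-- The elements of the group which occur in a matrix and its inverse. -/
def sp (X : (Matrix (Fin r) (Fin r) (MonoidAlgebra k G))ˣ) : Set G :=
  {g | ∃ a b, g ∈ (X.val a b).coeff.support ∨ g ∈ ((X⁻¹).val a b).coeff.support}

theorem sp_finite (X : (Matrix (Fin r) (Fin r) (MonoidAlgebra k G))ˣ) : (sp X).Finite := by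
  classical
  refine Set.Finite.subset (Finset.finite_toSet (Finset.univ.biUnion fun a =>
    Finset.univ.biUnion fun b => (X.val a b).coeff.support ∪ ((X⁻¹).val a b).coeff.support)) ?_
  rintro g ⟨a, b, h⟩
  simp only [Finset.coe_biUnion, Set.mem_iUnion, Finset.mem_coe, Finset.mem_union]
  exact ⟨a, Finset.mem_univ a, b, Finset.mem_univ b, h⟩

theorem exists_glG (X : (Matrix (Fin r) (Fin r) (MonoidAlgebra k G))ˣ) (hX : sp X ⊆ H) :
    ∃ X', glG (k := k) (ι := Fin r) H.subtype X' = X := by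
  obtain ⟨A, hA⟩ := exists_lift H X.val fun a b g hg => hX ⟨a, b, Or.inl hg⟩
  obtain ⟨B, hB⟩ := exists_lift H (X⁻¹).val fun a b g hg => hX ⟨a, b, Or.inr hg⟩
  have h1 : A * B = 1 := by
    apply mat_inj H
    rw [map_mul, hA, hB, map_one, ← Units.val_mul, mul_inv_cancel, Units.val_one]
  have h2 : B * A = 1 := by
    apply mat_inj H
    rw [map_mul, hA, hB, map_one, ← Units.val_mul, inv_mul_cancel, Units.val_one]
  exact ⟨⟨A, B, h1, h2⟩, Units.ext hA⟩

end

end HFG

open FGS HFG in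
theorem t_HFG : S_HFG := by
  refine ⟨?_, ?_⟩
  · intro k _ _ G _ n r hn z hz
    obtain ⟨n, rfl⟩ : ∃ m, n = m + 1 := ⟨n - 1, by omega⟩
    have hz' : bd ℚ ((Matrix (Fin r) (Fin r) (MonoidAlgebra k G))ˣ) (n + 1) z ∈
        hdeg ℚ ((Matrix (Fin r) (Fin r) (MonoidAlgebra k G))ˣ) n := hz
    obtain ⟨E1, hE1⟩ := lift_chain (n + 2) z
    obtain ⟨E2, hE2⟩ := lift_hdeg n hz'
    have hfin : ((⋃ X ∈ E1, HFG.sp X) ∪ ⋃ X ∈ E2, HFG.sp X).Finite :=
      (E1.finite_toSet.biUnion fun X _ => HFG.sp_finite X).union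
        (E2.finite_toSet.biUnion fun X _ => HFG.sp_finite X)
    refine ⟨Subgroup.closure ((⋃ X ∈ E1, HFG.sp X) ∪ ⋃ X ∈ E2, HFG.sp X),
      ⟨hfin.toFinset, by rw [Set.Finite.coe_toFinset]⟩, ?_⟩
    set H := Subgroup.closure ((⋃ X ∈ E1, HFG.sp X) ∪ ⋃ X ∈ E2, HFG.sp X) with hH
    have hs : ((⋃ X ∈ E1, HFG.sp X) ∪ ⋃ X ∈ E2, HFG.sp X) ⊆ (H : Set G) := Subgroup.subset_closure
    obtain ⟨z', hz1⟩ := hE1 _ (glG (k := k) (ι := Fin r) H.subtype) fun X hX => HFG.exists_glG H X
      (fun g hg => hs (Or.inl (Set.mem_biUnion hX hg)))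
    obtain ⟨y', hy1, hy2⟩ := hE2 _ (glG (k := k) (ι := Fin r) H.subtype) fun X hX =>
      HFG.exists_glG H X (fun g hg => hs (Or.inr (Set.mem_biUnion hX hg)))
    refine ⟨z', ?_, hz1⟩
    have h1 : bd ℚ _ (n + 1) z' = y' := by
      apply hmap_inj _ (HFG.glG_inj H)
      rw [← bd_hmap, hy2, hz1]
    show bd ℚ _ (n + 1) z' ∈ hdeg ℚ _ n
    rw [h1]
    exact hy1
  · intro k _ _ G _ r e he
    classical
    have hfin : {g : G | ∃ a b, g ∈ (e a b).coeff.support}.Finite := by
      refine Set.Finite.subset (Finset.finite_toSet (Finset.univ.biUnion fun a =>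
        Finset.univ.biUnion fun b => (e a b).coeff.support)) ?_
      rintro g ⟨a, b, h⟩
      simp only [Finset.coe_biUnion, Set.mem_iUnion, Finset.mem_coe]
      exact ⟨a, Finset.mem_univ a, b, Finset.mem_univ b, h⟩
    refine ⟨Subgroup.closure {g : G | ∃ a b, g ∈ (e a b).coeff.support},
      ⟨hfin.toFinset, by rw [Set.Finite.coe_toFinset]⟩, ?_⟩
    obtain ⟨e', he'⟩ := HFG.exists_lift
      (Subgroup.closure {g : G | ∃ a b, g ∈ (e a b).coeff.support}) e
      fun a b g hg => Subgroup.subset_closure ⟨a, b, hg⟩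
    refine ⟨e', ?_, he'⟩
    apply HFG.mat_inj
    rw [map_mul, he', he]

end Pool.Agent.FJA
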