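import Pool.Agent.FJA.StW
import Pool.Agent.FJA.P_PER

/-!
# FJA: the module HGD

The lists of prime length are good.
-/

set_option autoImplicit false

open Pool.Agent.WhK Pool.Agent.Lib25

namespace Pool.Agent.FJA

/-- MODULE HGD -/
theorem t_HGD : S_HGD := by
  intro Γ _ y0 ℓ hℓ L hL Y y hl hy hInc δ e he
  have hY : Y ≠ [] := by
    rintro rfl
    rw [List.length_nil] at hl
    exact hℓ.pos.ne hl
  have hA : ∀ n, SEC.sq Y y n = y⁻¹ * SEC.sq Y y (n + (ℓ : ℕ)) := by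
    intro n
    have := SEC.sq_add hY y n
    rw [hl] at this
    rw [this, inv_mul_cancel_left]
  obtain ⟨d, δ0, hd0, hδ, hgen⟩ := PER.exists_min ⟨ℓ, hℓ.pos, y⁻¹, hA⟩
  obtain ⟨m0, hm0, hym⟩ := hgen _ _ hA
  obtain ⟨m, -, hm⟩ := hgen _ _ (PER.stb hY he)
  suffices h0 : δ0 ∈ Subgroup.zpowers y by
    rw [hm]
    exact Subgroup.pow_mem _ h0 m
  rcases (Nat.dvd_prime hℓ).1 (Dvd.intro_left _ hm0.symm : d ∣ ℓ) with h1 | h1
  · subst h1
    rw [mul_one] at hm0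
    subst hm0
    have h2 := hInc 0
    rw [Function.iterate_zero_apply, PER.head_iter hY, PER.head_eq hY y] at h2
    have h3 : SEC.sq Y y ((0 + 1 : ℕ) : ℤ) = δ0⁻¹ * SEC.sq Y y 0 := by
      rw [hδ 0, inv_mul_cancel_left]
      norm_num
    rw [h3] at h2
    have h5 : (SEC.sq Y y 0)⁻¹ * (δ0⁻¹ * SEC.sq Y y 0) =
        (SEC.sq Y y 0)⁻¹ * δ0⁻¹ * ((SEC.sq Y y 0)⁻¹)⁻¹ := by
      group
    have h4 : ((SEC.sq Y y 0)⁻¹ * (δ0⁻¹ * SEC.sq Y y 0)) ^ ℓ =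
        (SEC.sq Y y 0)⁻¹ * y * ((SEC.sq Y y 0)⁻¹)⁻¹ := by
      rw [h5, conj_pow, inv_pow, ← hym, inv_inv]
    have h6 := hL _ h2 (by
      rw [h4]
      refine IsConj.trans ?_ hy
      exact (isConj_iff.2 ⟨(SEC.sq Y y 0)⁻¹, rfl⟩ : IsConj y _).symm)
    obtain ⟨k, hk⟩ := Subgroup.mem_zpowers_iff.1 h6
    rw [h4, conj_zpow, h5] at hk
    have h7 : y ^ k = δ0⁻¹ := mul_left_cancel (mul_right_cancel hk)
    refine Subgroup.mem_zpowers_iff.2 ⟨-k, ?_⟩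
    rw [zpow_neg, h7, inv_inv]
  · subst h1
    have h2 : m0 = 1 := by
      have : 1 * d = m0 * d := by rw [one_mul]; exact hm0
      exact (Nat.eq_of_mul_eq_mul_right hd0 this).symm
    rw [h2, pow_one] at hym
    rw [← hym]
    exact Subgroup.inv_mem _ (Subgroup.mem_zpowers y)

end Pool.Agent.FJA
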