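import Pool.Agent.FJA.StW

/-!
# HID: idempotent matrices

All the faces of the constant simplex are equal, and the functional changes its sign under the cyclic rotation.
-/

set_option autoImplicit false

open Matrix Pool.Agent.WhK Pool.Agent.Lib25

noncomputable section

namespace Pool.Agent.FJA

/-- HID: the functionals vanish on the boundary of the constant simplex of an idempotent matrix. -/
theorem t_HID (hhki : S_HKI) (hhtg : S_HTG) : S_HID := by
  intro k _ _ Γ _ ι _ _ e he M hM
  obtain ⟨T, hT1, hT2⟩ := hhtg.2.1 k Γ ι e (M + 1) (fun _ => pE e he)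
  refine ⟨T, hT1, fun N hN ξ hξ => ?_⟩
  rw [Finsupp.sum_single_index (by simp)]
  have h1 := (hhki k Γ ι e).1 M N T ξ hN hξ (fun _ => pE e he) hT2
  rw [hM.neg_one_pow] at h1
  set c : k := TG (lf ξ) N (fun _ : Fin (M + 1) => pE e he) with hc
  have h2 : c = 0 := by
    have h3 : c = -1 * c := h1
    have h4 : (2 : k) * c = 0 := by linear_combination h3
    exact (mul_eq_zero.1 h4).resolve_left two_ne_zero
  have h5 : ∀ i : Fin (M + 2), (-1 : k) ^ (i : ℕ) *
      TG (lf ξ) N (fun t : Fin (M + 1) => (fun _ : Fin (M + 2) => pE e he) (i.succAbove t)) = 0 := by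
    intro i
    have h6 : TG (lf ξ) N (fun t : Fin (M + 1) =>
        (fun _ : Fin (M + 2) => pE e he) (i.succAbove t)) = c := rfl
    rw [h6, h2, mul_zero]
  rw [Finset.sum_eq_zero fun i _ => h5 i, mul_zero]

end Pool.Agent.FJA
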