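import Pool.Agent.FJA.StW

/-!
# HIN: integrality of the functionals `TG`
-/

set_option autoImplicit false

open Matrix Pool.Agent.WhK Pool.Agent.Lib25

namespace Pool.Agent.FJA

namespace HIN

section CA

variable {k : Type} [Field k] (A : Subring k) {M : Type} [Monoid M]

/-- The ring homomorphism which extends the scalars from the subring. -/
noncomputable def ext (M : Type) [Monoid M] : MonoidAlgebra A M →+* MonoidAlgebra k M :=
  MonoidAlgebra.mapRingHom M A.subtype

theorem coeff_ext (x : MonoidAlgebra A M) (μ : M) :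
    (ext A M x).coeff μ = ((x.coeff μ : A) : k) := by
  unfold ext
  rw [MonoidAlgebra.coeff_mapRingHom]
  rfl

theorem exists_lift (x : MonoidAlgebra k M) (hx : ∀ c, x.coeff c ∈ A) :
    ∃ y : MonoidAlgebra A M, ext A M y = x := by
  classical
  have hF : ∀ z : k, ∃ y : A, z ∈ A → (y : k) = z := by
    intro z
    by_cases hz : z ∈ A
    · exact ⟨⟨z, hz⟩, fun _ => rfl⟩
    · exact ⟨0, fun h => absurd h hz⟩
  choose F hF using hF
  have hF0 : F 0 = 0 := by
    apply Subtype.ext
    rw [hF 0 (Subring.zero_mem A)]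
    rfl
  refine ⟨⟨x.coeff.mapRange F hF0⟩, ?_⟩
  ext c
  rw [coeff_ext]
  exact hF _ (hx c)

/-- All the coefficients are in the subring. -/
def CI (x : MonoidAlgebra k M) : Prop := ∀ μ, x.coeff μ ∈ A

theorem ci_iff (x : MonoidAlgebra k M) : CI A x ↔ x ∈ (ext A M).range := by
  constructor
  · intro h
    obtain ⟨y, hy⟩ := exists_lift A x h
    exact ⟨y, hy⟩
  · rintro ⟨y, rfl⟩ μ
    rw [coeff_ext]
    exact (y.coeff μ).2

variable {ι : Type} [Fintype ι] [DecidableEq ι]

/-- All the coefficients of all the entries are in the subring. -/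
def CIM (X : Matrix ι ι (MonoidAlgebra k M)) : Prop := ∀ a b, CI A (X a b)

omit [DecidableEq ι] in
theorem cim_mul {X Y : Matrix ι ι (MonoidAlgebra k M)} (hX : CIM A X) (hY : CIM A Y) :
    CIM A (X * Y) := by
  intro a b
  rw [ci_iff, Matrix.mul_apply]
  exact Subring.sum_mem _ fun c _ =>
    Subring.mul_mem _ ((ci_iff A _).1 (hX a c)) ((ci_iff A _).1 (hY c b))

omit [Fintype ι] in
theorem cim_one : CIM A (1 : Matrix ι ι (MonoidAlgebra k M)) := by
  intro a b
  rw [ci_iff, Matrix.one_apply]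
  split_ifs
  · exact Subring.one_mem _
  · exact Subring.zero_mem _

theorem cim_list (l : List (Matrix ι ι (MonoidAlgebra k M))) (h : ∀ X ∈ l, CIM A X) :
    CIM A l.prod := by
  induction l with
  | nil => exact cim_one A
  | cons X l ih =>
    rw [List.prod_cons]
    exact cim_mul A (h X (by simp)) (ih fun B hB => h B (by simp [hB]))

theorem cim_pow {X : Matrix ι ι (MonoidAlgebra k M)} (hX : CIM A X) (N : ℕ) : CIM A (X ^ N) := by
  induction N with
  | zero => rw [pow_zero]; exact cim_one A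
  | succ N ih => rw [pow_succ]; exact cim_mul A ih hX

theorem cim_jm {Γ : Type} [Group Γ] (V : Type) {X : Matrix ι ι (MonoidAlgebra k Γ)}
    (hX : CIM A X) : CIM A (jm k V X) := by
  intro a b
  obtain ⟨y, hy⟩ := (ci_iff A _).1 (hX a b)
  have h2 : (jm k V X) a b =
      MonoidAlgebra.mapDomainRingHom k (Rec.inc (Γ := Γ) (V := V)) (X a b) := rfl
  have h3 : (ext A (Rec Γ V)).comp
      (MonoidAlgebra.mapDomainRingHom A (Rec.inc (Γ := Γ) (V := V))) =
      (MonoidAlgebra.mapDomainRingHom k (Rec.inc (Γ := Γ) (V := V))).comp (ext A Γ) :=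
    MonoidAlgebra.mapRingHom_comp_mapDomainRingHom _ _
  have h4 : ext A (Rec Γ V) (MonoidAlgebra.mapDomainRingHom A (Rec.inc (Γ := Γ) (V := V)) y) =
      MonoidAlgebra.mapDomainRingHom k (Rec.inc (Γ := Γ) (V := V)) (ext A Γ y) :=
    congrArg (fun f => f y) h3
  rw [ci_iff, h2, ← hy, ← h4]
  exact ⟨_, rfl⟩

theorem cim_wm {Γ : Type} [Group Γ] {V : Type} [DecidableEq V] (v : V) :
    CIM A (wm k ι v : Matrix ι ι (MonoidAlgebra k (Rec Γ V))) := by
  classical
  intro a b
  unfold wm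
  rw [Matrix.diagonal_apply]
  split_ifs
  · intro μ
    rw [MonoidAlgebra.coeff_single, Finsupp.single_apply]
    split_ifs
    · exact Subring.one_mem _
    · exact Subring.zero_mem _
  · exact (ci_iff A _).2 (Subring.zero_mem _)

theorem cim_UG {Γ : Type} [Group Γ] {ε : Matrix ι ι (MonoidAlgebra k Γ)} {m : ℕ}
    (X : Fin m → RPair ε) (ha : ∀ i, CIM A (X i).a) (hb : ∀ i, CIM A (X i).b) :
    CIM A (UG X) := by
  refine cim_list A _ fun Y hY => ?_
  rw [List.mem_ofFn] at hY
  obtain ⟨i, rfl⟩ := hY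
  exact cim_mul A (cim_mul A (cim_jm A _ (ha i)) (cim_wm A i)) (cim_jm A _ (hb i))

end CA

end HIN

open HIN in
theorem t_HIN : S_HIN := by
  intro k _ _ Γ _ ι _ _ ε M N A X ha hb ℓ hℓ φ hφ
  classical
  have h1 : CIM A (UG X ^ N) :=
    cim_pow A (cim_UG A X (fun i a b γ => ha i a b γ) fun i a b γ => hb i a b γ) N
  set x : MonoidAlgebra k (Rec Γ (Fin M)) := Matrix.trace (UG X ^ N) with hx
  have h2 : CI A x := by
    rw [ci_iff, hx, Matrix.trace]
    exact Subring.sum_mem _ fun c _ => (ci_iff A _).1 (h1 c c)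
  refine ⟨((∏ μ ∈ x.coeff.support, (φ μ).den : ℕ) : ℤ), ?_, ?_⟩
  · intro h
    rw [Int.natCast_dvd_natCast] at h
    obtain ⟨μ, _, hμ⟩ := (Prime.dvd_finsetProd_iff hℓ.prime _).1 h
    exact hφ μ hμ
  · have h3 : TG φ N X = ∑ μ ∈ x.coeff.support, x.coeff μ * ((φ μ : ℚ) : k) := by
      show lin k φ x = _
      rw [lin_apply]
      rfl
    rw [h3, Finset.mul_sum]
    refine Subring.sum_mem _ fun μ hμ => ?_
    have h4 : (∏ ν ∈ x.coeff.support, (φ ν).den) =
        (φ μ).den * ∏ ν ∈ x.coeff.support.erase μ, (φ ν).den :=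
      (Finset.mul_prod_erase _ _ hμ).symm
    have h5 : (((φ μ).den : ℕ) : k) * ((φ μ : ℚ) : k) = (((φ μ).num : ℤ) : k) := by
      have h6 : ((φ μ).den : ℚ) * (φ μ) = ((φ μ).num : ℚ) := Rat.den_mul_eq_num (φ μ)
      have h7 := congrArg (fun q : ℚ => (q : k)) h6
      push_cast at h7
      exact h7
    have h8 : ((((∏ ν ∈ x.coeff.support, (φ ν).den : ℕ) : ℤ) : k)) *
        (x.coeff μ * ((φ μ : ℚ) : k)) =
        x.coeff μ * ((((∏ ν ∈ x.coeff.support.erase μ, (φ ν).den : ℕ) : ℤ) * (φ μ).num : ℤ) : k) := by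
      rw [h4]
      push_cast
      rw [← h5]
      ring
    rw [h8]
    exact Subring.mul_mem _ (h2 μ) (intCast_mem A _)

end Pool.Agent.FJA
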