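import Pool.Agent.FJA.StW

/-!
# Module HKI: chains on whose boundary the functionals vanish
-/

set_option autoImplicit false

open Matrix Pool.Agent.WhK Pool.Agent.Lib25

noncomputable section

namespace Pool.Agent.FJA

namespace HKI

variable {k : Type} [Field k] [CharZero k] {Γ : Type} [Group Γ] {ι : Type} [Fintype ι] [DecidableEq ι]

theorem TG_mul (hhtg : S_HTG) (ε : Matrix ι ι (MonoidAlgebra k Γ)) (M N : ℕ) (X : Fin M → RPair ε)
    (c : ℚ) (φ : Rec Γ (Fin M) → ℚ) :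
    TG (fun μ => c * φ μ) N X = (c : k) * TG φ N X := by
  have h := hhtg.1 k Γ ι ε M N X Unit {()} (fun _ => c) (fun _ => φ)
  simpa using h

theorem partA (hhro : S_HRO) (hhtg : S_HTG) (ε : Matrix ι ι (MonoidAlgebra k Γ)) (M N : ℕ)
    (T : Finset (Rec Γ (Fin (M + 1)))) (ξ : (Fin (M + 1) → List Γ) → Γ → ℚ) (hN : 0 < N)
    (hξ : XiT N T ξ) (X : Fin (M + 1) → RPair ε) (hT : ∀ a b μ, (UG X a b).coeff μ ≠ 0 → μ ∈ T) :
    TG (lf ξ) N (fun j => X (j + 1)) = (-1 : k) ^ M * TG (lf ξ) N X := by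
  have h1 := hhro k Γ ι ε M N hN (lf ξ) (fun γ μ hμ => by
    have h := hξ.inv γ μ.lst μ.val hμ
    have e1 : (Rec.inc γ * μ * Rec.inc γ⁻¹ : Rec Γ (Fin (M + 1))).lst =
        fun i => (μ.lst i).map (γ * ·) := by
      funext i
      simp
    have e2 : (Rec.inc γ * μ * Rec.inc γ⁻¹ : Rec Γ (Fin (M + 1))).val = γ * μ.val * γ⁻¹ := by
      simp
    unfold lf
    rw [e1, e2]
    exact h) X
  rw [h1]
  have h2 : TG (fun μ => lf ξ (rotR μ)) N X = TG (fun μ => (-1 : ℚ) ^ M * lf ξ μ) N X := by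
    refine hhtg.2.2 k Γ ι ε (M + 1) N X (Submonoid.closure (T : Set (Rec Γ (Fin (M + 1))))) _ _
      (fun a b μ h => Submonoid.subset_closure (hT a b μ h)) ?_
    intro μ hμ hlen
    have h3 := hξ.alt (finRotate (M + 1))
      (Function.update μ.lst 0 (rotL μ.val (μ.lst 0))) μ.val
    have h4 := hξ.rot μ hμ hlen 0
    rw [h4, sign_finRotate] at h3
    have h5 : lf ξ (rotR μ) = ξ (fun i => Function.update μ.lst 0 (rotL μ.val (μ.lst 0))
        (finRotate (M + 1) i)) μ.val := by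
      unfold lf rotR
      simp only [finRotate_apply]
    rw [h5, h3]
    unfold lf
    push_cast
    ring
  rw [h2, TG_mul hhtg]
  push_cast
  ring

theorem partB (hhsw : S_HSW) (hhtg : S_HTG) (ε : Matrix ι ι (MonoidAlgebra k Γ)) (M N : ℕ)
    (T : Finset (Rec Γ (Fin (M + 2)))) (ξ : (Fin (M + 2) → List Γ) → Γ → ℚ)
    (hξ : XiT N T ξ) (X : Fin (M + 2) → RPair ε) (j : Fin (M + 1)) (hj : X j.castSucc = X j.succ)
    (hb : (X j.succ).b * (X j.succ).a = 1) : TG (lf ξ) N X = 0 := by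
  have h1 := hhsw k Γ ι ε M N (lf ξ) j X hj hb
  have hne : j.castSucc ≠ j.succ := by
    intro h
    have := congrArg Fin.val h
    simp at this
  have h2 : (fun μ : Rec Γ (Fin (M + 2)) => lf ξ (Rec.res (Equiv.swap j.castSucc j.succ) μ)) =
      fun μ => (-1 : ℚ) * lf ξ μ := by
    funext μ
    have h3 := hξ.alt (Equiv.swap j.castSucc j.succ) μ.lst μ.val
    rw [Equiv.Perm.sign_swap hne] at h3
    have h4 : lf ξ (Rec.res (Equiv.swap j.castSucc j.succ) μ) =
        ξ (fun i => μ.lst (Equiv.swap j.castSucc j.succ i)) μ.val := rfl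
    rw [h4, h3]
    unfold lf
    push_cast
    ring
  rw [h2, TG_mul hhtg] at h1
  push_cast at h1
  have h5 : (2 : k) * TG (lf ξ) N X = 0 := by
    linear_combination -h1
  exact (mul_eq_zero.mp h5).resolve_left two_ne_zero

theorem partC (hhro : S_HRO) (hhsw : S_HSW) (hhtg : S_HTG) (ε : Matrix ι ι (MonoidAlgebra k Γ))
    (M N : ℕ) (T : Finset (Rec Γ (Fin (M + 2)))) (ξ : (Fin (M + 2) → List Γ) → Γ → ℚ) (hN : 0 < N)
    (hξ : XiT N T ξ) (X : Fin (M + 2) → RPair ε)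
    (hT : ∀ a b μ, (UG X a b).coeff μ ≠ 0 → μ ∈ T)
    (hX : X (Fin.last (M + 1)) = X 0) (hb : (X 0).b * (X 0).a = 1) : TG (lf ξ) N X = 0 := by
  have h1 := partA hhro hhtg ε (M + 1) N T ξ hN hξ X hT
  have e1 : (Fin.last M).castSucc + 1 = Fin.last (M + 1) := by
    rw [Fin.coeSucc_eq_succ, Fin.succ_last]
  have e2 : (Fin.last M).succ + 1 = (0 : Fin (M + 2)) := by
    rw [Fin.succ_last]
    exact Fin.last_add_one _
  have h2 := partB hhsw hhtg ε M N T ξ hξ (fun j => X (j + 1)) (Fin.last M)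
    (by
      change X ((Fin.last M).castSucc + 1) = X ((Fin.last M).succ + 1)
      rw [e1, e2]
      exact hX)
    (by
      change (X ((Fin.last M).succ + 1)).b * (X ((Fin.last M).succ + 1)).a = 1
      rw [e2]
      exact hb)
  rw [h2] at h1
  have h3 : ((-1 : k) ^ (M + 1)) ≠ 0 := pow_ne_zero _ (by simp)
  exact ((mul_eq_zero.mp h1.symm).resolve_left h3)

end HKI

theorem t_HKI (hhro : S_HRO) (hhsw : S_HSW) (hhtg : S_HTG) : S_HKI := by
  intro k _ _ Γ _ ι _ _ ε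
  refine ⟨?_, ?_, ?_⟩
  · intro M N T ξ hN hξ X hT
    exact HKI.partA hhro hhtg ε M N T ξ hN hξ X hT
  · intro M N T ξ hξ X j hj hb
    exact HKI.partB hhsw hhtg ε M N T ξ hξ X j hj hb
  · intro M N T ξ hN hξ X hT hX hb
    exact HKI.partC hhro hhsw hhtg ε M N T ξ hN hξ X hT hX hb

end Pool.Agent.FJA
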