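import Pool.Agent.FJA.StW

/-!
# Module HLE: existence of natural lifts
-/

set_option autoImplicit false

noncomputable section

namespace Pool.Agent.FJA

namespace HLE

/-- The linear extension of `List.cons x`. -/
def cs {V : Type} (x : V) : (List V →₀ ℚ) →ₗ[ℚ] (List V →₀ ℚ) := Finsupp.lmapDomain ℚ ℚ (List.cons x)

theorem cs_single {V : Type} (x : V) (Y : List V) (q : ℚ) :
    cs x (Finsupp.single Y q) = Finsupp.single (x :: Y) q := by
  simp [cs]

theorem bdL_single (V : Type) (X : List V) :
    bdL V (Finsupp.single X 1) =
      ∑ j ∈ Finset.range X.length, Finsupp.single (X.eraseIdx j) ((-1 : ℚ) ^ j) := by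
  simp [bdL]

theorem conB_single (V : Type) (X : List V) :
    conB V (Finsupp.single X 1) = ∑ j ∈ Finset.range X.length,
      Finsupp.single (X.rotate j ++ (X.rotate j).take 1) ((-1 : ℚ) ^ ((X.length + 1) * (j + 1))) := by
  simp [conB]

/-- Equality of linear maps on chains. -/
theorem ext_ch {V : Type} {E : Type} [AddCommGroup E] [Module ℚ E] {f g : (List V →₀ ℚ) →ₗ[ℚ] E}
    (h : ∀ X : List V, f (Finsupp.single X 1) = g (Finsupp.single X 1)) : f = g := by
  apply Finsupp.lhom_ext'
  intro X
  apply LinearMap.ext_ring
  simpa using h X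

theorem bdL_cons_basis {V : Type} (x : V) (Y : List V) :
    bdL V (Finsupp.single (x :: Y) 1) = Finsupp.single Y 1 - cs x (bdL V (Finsupp.single Y 1)) := by
  rw [bdL_single, bdL_single, List.length_cons, Finset.sum_range_succ', map_sum, add_comm, sub_eq_add_neg]
  have h0 : Finsupp.single ((x :: Y).eraseIdx 0) ((-1 : ℚ) ^ 0) = Finsupp.single Y 1 := by simp
  rw [h0, ← Finset.sum_neg_distrib]
  congr 1
  apply Finset.sum_congr rfl
  intro j _
  rw [cs_single, List.eraseIdx_cons_succ, pow_succ, mul_neg_one, Finsupp.single_neg]

theorem bdL_cs {V : Type} (x : V) (c : List V →₀ ℚ) : bdL V (cs x c) = c - cs x (bdL V c) := by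
  have : (bdL V) ∘ₗ (cs x) = LinearMap.id - (cs x) ∘ₗ (bdL V) := by
    apply ext_ch
    intro X
    simp only [LinearMap.comp_apply, LinearMap.sub_apply, LinearMap.id_apply, cs_single]
    exact bdL_cons_basis x X
  have h := LinearMap.congr_fun this c
  simpa using h

theorem bdL_bdL {V : Type} (c : List V →₀ ℚ) : bdL V (bdL V c) = 0 := by
  have : (bdL V) ∘ₗ (bdL V) = 0 := by
    apply ext_ch
    intro X
    simp only [LinearMap.comp_apply, LinearMap.zero_apply]
    induction X with
    | nil => simp [bdL_single]
    | cons x Y ih => rw [bdL_cons_basis, map_sub, bdL_cs, ih]; simp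
  exact LinearMap.congr_fun this c

/-! ## The recursion -/

/-- The next level, with fuel. -/
def Qn {V : Type} (P : List V → (List V →₀ ℚ)) : ℕ → List V → (List V →₀ ℚ)
  | 0, _ => 0
  | _ + 1, [] => 0
  | n + 1, (x :: X) => cs x ((∑ j ∈ Finset.range (X.length + 1),
      ((-1 : ℚ) ^ j) • Qn P n ((x :: X).eraseIdx j)) - conB V (P (x :: X)))

/-- The next level. -/
def Q {V : Type} (P : List V → (List V →₀ ℚ)) (X : List V) : List V →₀ ℚ := Qn P X.length X

theorem Q_nil {V : Type} (P : List V → (List V →₀ ℚ)) : Q P ([] : List V) = 0 := rfl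

theorem Q_cons {V : Type} (P : List V → (List V →₀ ℚ)) (x : V) (X : List V) :
    Q P (x :: X) = cs x ((∑ j ∈ Finset.range (X.length + 1),
      ((-1 : ℚ) ^ j) • Q P ((x :: X).eraseIdx j)) - conB V (P (x :: X))) := by
  have h : ∀ j ∈ Finset.range (X.length + 1), ((-1 : ℚ) ^ j) • Qn P X.length ((x :: X).eraseIdx j) =
      ((-1 : ℚ) ^ j) • Q P ((x :: X).eraseIdx j) := by
    intro j hj
    have hl : ((x :: X).eraseIdx j).length = X.length := by
      rw [List.length_eraseIdx, List.length_cons, if_pos (Finset.mem_range.mp hj)]
      rfl
    rw [Q, hl]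
  rw [← Finset.sum_congr rfl h]
  rfl

theorem Q_cons' {V : Type} (P : List V → (List V →₀ ℚ)) (x : V) (X : List V) :
    Q P (x :: X) = cs x (Finsupp.linearCombination ℚ (Q P) (bdL V (Finsupp.single (x :: X) 1)) -
      conB V (P (x :: X))) := by
  rw [Q_cons, bdL_single, map_sum, List.length_cons]
  simp only [Finsupp.linearCombination_single]

/-- The lifts. -/
def TT (V : Type) : ℕ → List V → (List V →₀ ℚ)
  | 0 => fun X => Finsupp.single X 1
  | i + 1 => Q (TT V i)

/-! ## Naturality -/

theorem cs_map {V W : Type} (f : V → W) (x : V) (c : List V →₀ ℚ) :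
    cs (f x) (c.mapDomain (List.map f)) = (cs x c).mapDomain (List.map f) := by
  simp only [cs, Finsupp.lmapDomain_apply]
  rw [← Finsupp.mapDomain_comp, ← Finsupp.mapDomain_comp]
  rfl

theorem conB_map {V W : Type} (f : V → W) (c : List V →₀ ℚ) :
    conB W (c.mapDomain (List.map f)) = (conB V c).mapDomain (List.map f) := by
  have : (conB W) ∘ₗ (Finsupp.lmapDomain ℚ ℚ (List.map f)) =
      (Finsupp.lmapDomain ℚ ℚ (List.map f)) ∘ₗ (conB V) := by
    apply ext_ch
    intro X
    simp only [LinearMap.comp_apply]
    rw [Finsupp.lmapDomain_apply, Finsupp.mapDomain_single, conB_single, conB_single, map_sum]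
    simp only [List.length_map, Finsupp.lmapDomain_apply, Finsupp.mapDomain_single, List.map_append,
      List.map_take, List.map_rotate]
  exact LinearMap.congr_fun this c

theorem Q_map {V W : Type} (f : V → W) (P : List V → (List V →₀ ℚ)) (P' : List W → (List W →₀ ℚ))
    (h : ∀ X, P' (X.map f) = (P X).mapDomain (List.map f)) :
    ∀ (n : ℕ) (X : List V), X.length = n → Q P' (X.map f) = (Q P X).mapDomain (List.map f) := by
  intro n
  induction n with
  | zero =>
    intro X hX
    rw [List.length_eq_zero_iff] at hX
    subst hX
    simp [Q_nil]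
  | succ n ih =>
    intro X hX
    cases X with
    | nil => simp at hX
    | cons x X =>
      have hX' : X.length = n := by simpa using hX
      rw [List.map_cons, Q_cons, Q_cons, ← cs_map]
      congr 1
      rw [← Finsupp.lmapDomain_apply ℚ ℚ, map_sub, map_sum]
      congr 1
      · rw [List.length_map]
        apply Finset.sum_congr rfl
        intro j hj
        rw [map_smul, Finsupp.lmapDomain_apply, ← ih, ← List.map_cons, ← List.eraseIdx_map]
        rw [List.length_eraseIdx, List.length_cons, if_pos (Finset.mem_range.mp hj), hX']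
        rfl
      · rw [← List.map_cons, h, conB_map, Finsupp.lmapDomain_apply]

theorem TT_map (V W : Type) (f : V → W) (i : ℕ) :
    ∀ X : List V, TT W i (X.map f) = (TT V i X).mapDomain (List.map f) := by
  induction i with
  | zero => intro X; simp [TT, Finsupp.mapDomain_single]
  | succ i ih => intro X; exact Q_map f _ _ ih _ X rfl

/-! ## Degrees -/

/-- Chains of lists of length `L`. -/
abbrev lenS (V : Type) (L : ℕ) : Submodule ℚ (List V →₀ ℚ) :=
  Finsupp.supported ℚ ℚ {Y : List V | Y.length = L}

theorem cs_len {V : Type} (x : V) (L : ℕ) (c : List V →₀ ℚ) (hc : c ∈ lenS V L) :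
    cs x c ∈ lenS V (L + 1) := by
  classical
  rw [Finsupp.mem_supported] at hc ⊢
  intro Y hY
  have hY' : Y ∈ c.support.image (List.cons x) := by
    apply Finsupp.mapDomain_support
    simpa [cs] using hY
  rw [Finset.mem_image] at hY'
  obtain ⟨Z, hZ, rfl⟩ := hY'
  have : Z.length = L := hc hZ
  simp [this]

theorem conB_len {V : Type} (L : ℕ) (c : List V →₀ ℚ) (hc : c ∈ lenS V L) :
    conB V c ∈ lenS V (L + 1) := by
  rw [Finsupp.mem_supported] at hc
  rw [conB, Finsupp.linearCombination_apply, Finsupp.sum]
  apply Submodule.sum_mem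
  intro Y hY
  apply Submodule.smul_mem
  have hYL : Y.length = L := hc hY
  apply Submodule.sum_mem
  intro j hj
  apply Finsupp.single_mem_supported
  have hpos : 0 < L := by
    rw [hYL] at hj
    exact lt_of_le_of_lt (Nat.zero_le j) (Finset.mem_range.mp hj)
  simp only [Set.mem_ofPred_eq, List.length_append, List.length_take, List.length_rotate, hYL]
  omega

theorem Q_len {V : Type} (P : List V → (List V →₀ ℚ)) (m : ℕ)
    (h : ∀ X, P X ∈ lenS V (X.length + m)) :
    ∀ (n : ℕ) (X : List V), X.length = n → Q P X ∈ lenS V (n + (m + 2)) := by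
  intro n
  induction n with
  | zero =>
    intro X hX
    rw [List.length_eq_zero_iff] at hX
    subst hX
    rw [Q_nil]
    exact Submodule.zero_mem _
  | succ n ih =>
    intro X hX
    cases X with
    | nil => simp at hX
    | cons x X =>
      have hX' : X.length = n := by simpa using hX
      rw [Q_cons]
      have e : n + 1 + (m + 2) = (n + (m + 2)) + 1 := by omega
      rw [e]
      apply cs_len
      apply Submodule.sub_mem
      · apply Submodule.sum_mem
        intro j hj
        apply Submodule.smul_mem
        apply ih
        rw [List.length_eraseIdx, List.length_cons, if_pos (Finset.mem_range.mp hj), hX']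
        rfl
      · have e2 : n + (m + 2) = (n + 1 + m) + 1 := by omega
        rw [e2]
        apply conB_len
        have := h (x :: X)
        rw [List.length_cons, hX'] at this
        exact this

theorem TT_len (V : Type) (i : ℕ) : ∀ X : List V, TT V i X ∈ lenS V (X.length + 2 * i) := by
  induction i with
  | zero =>
    intro X
    apply Finsupp.single_mem_supported
    simp
  | succ i ih =>
    intro X
    have := Q_len (TT V i) (2 * i) ih X.length X rfl
    have e : X.length + 2 * (i + 1) = X.length + (2 * i + 2) := by ring
    rw [e]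
    exact this

/-! ## Boundaries -/

theorem hbb_all (hhbb : S_HBB) (V : Type) (c : List V →₀ ℚ) :
    bdL V (conB V c) + conB V (bdL V c) = 0 := by
  have : (bdL V) ∘ₗ (conB V) + (conB V) ∘ₗ (bdL V) = 0 := by
    apply ext_ch
    intro X
    simpa using hhbb V X
  exact LinearMap.congr_fun this c

theorem TT_nil_conB (V : Type) (i : ℕ) : conB V (TT V i ([] : List V)) = 0 := by
  cases i with
  | zero => simp [TT, conB_single]
  | succ i => simp [TT, Q_nil]

theorem lT_zero (V : Type) (c : List V →₀ ℚ) : lT TT V 0 c = c := by
  have : lT TT V 0 = LinearMap.id := by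
    apply ext_ch
    intro X
    simp [lT, TT]
  rw [this]
  rfl

theorem claim (hhbb : S_HBB) (hhb2 : S_HB2) (V : Type) (i : ℕ) : ∀ (n : ℕ) (X : List V), X.length = n →
    bdL V (TT V (i + 1) X) - lT TT V (i + 1) (bdL V (Finsupp.single X 1)) + conB V (TT V i X) ∈
      degL V := by
  induction i with
  | zero =>
    intro n
    induction n with
    | zero =>
      intro X hX
      rw [List.length_eq_zero_iff] at hX
      subst hX
      have h1 : TT V (0 + 1) ([] : List V) = 0 := rfl
      rw [h1, TT_nil_conB, bdL_single]
      simp
    | succ n ih =>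
      intro X hX
      cases X with
      | nil => simp at hX
      | cons x X =>
        have hX' : X.length = n := by simpa using hX
        set e := Finsupp.single (x :: X) (1 : ℚ) with he
        have hT : TT V (0 + 1) (x :: X) = cs x (lT TT V (0 + 1) (bdL V e) - conB V (TT V 0 (x :: X))) :=
          Q_cons' _ x X
        set c := lT TT V (0 + 1) (bdL V e) - conB V (TT V 0 (x :: X)) with hc
        have h1 : bdL V (TT V (0 + 1) (x :: X)) - lT TT V (0 + 1) (bdL V e) +
            conB V (TT V 0 (x :: X)) = - cs x (bdL V c) := by
          rw [hT, bdL_cs, hc]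
          abel
        rw [h1]
        apply Submodule.neg_mem
        apply (hhb2 V).2.2 x
        have h2 : bdL V (lT TT V (0 + 1) (bdL V e)) - lT TT V (0 + 1) (bdL V (bdL V e)) +
            conB V (lT TT V 0 (bdL V e)) ∈ degL V := by
          have h3 : bdL V e = ∑ j ∈ Finset.range (X.length + 1),
              ((-1 : ℚ) ^ j) • Finsupp.single ((x :: X).eraseIdx j) (1 : ℚ) := by
            rw [he, bdL_single, List.length_cons]
            simp only [Finsupp.smul_single, smul_eq_mul, mul_one]
          rw [h3]
          simp only [map_sum, map_smul]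
          rw [← Finset.sum_sub_distrib, ← Finset.sum_add_distrib]
          apply Submodule.sum_mem
          intro j hj
          rw [← smul_sub, ← smul_add]
          apply Submodule.smul_mem
          have hl : ((x :: X).eraseIdx j).length = n := by
            rw [List.length_eraseIdx, List.length_cons, if_pos (Finset.mem_range.mp hj), hX']
            rfl
          have := ih _ hl
          simpa [lT] using this
        rw [bdL_bdL, map_zero, sub_zero, lT_zero] at h2
        have h4 : bdL V c = bdL V (lT TT V (0 + 1) (bdL V e)) + conB V (bdL V e) := by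
          have h5 := hhbb V (x :: X)
          rw [hc, map_sub]
          have h6 : TT V 0 (x :: X) = e := rfl
          rw [h6, sub_eq_add_neg]
          congr 1
          rw [← he] at h5
          rw [neg_eq_iff_add_eq_zero]
          exact h5
        rw [h4]
        exact h2
  | succ i ihi =>
    intro n
    induction n with
    | zero =>
      intro X hX
      rw [List.length_eq_zero_iff] at hX
      subst hX
      have h1 : TT V (i + 1 + 1) ([] : List V) = 0 := rfl
      rw [h1, TT_nil_conB, bdL_single]
      simp
    | succ n ih =>
      intro X hX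
      cases X with
      | nil => simp at hX
      | cons x X =>
        have hX' : X.length = n := by simpa using hX
        set e := Finsupp.single (x :: X) (1 : ℚ) with he
        have hT : TT V (i + 1 + 1) (x :: X) =
            cs x (lT TT V (i + 1 + 1) (bdL V e) - conB V (TT V (i + 1) (x :: X))) :=
          Q_cons' _ x X
        set c := lT TT V (i + 1 + 1) (bdL V e) - conB V (TT V (i + 1) (x :: X)) with hc
        have h1 : bdL V (TT V (i + 1 + 1) (x :: X)) - lT TT V (i + 1 + 1) (bdL V e) +
            conB V (TT V (i + 1) (x :: X)) = - cs x (bdL V c) := by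
          rw [hT, bdL_cs, hc]
          abel
        rw [h1]
        apply Submodule.neg_mem
        apply (hhb2 V).2.2 x
        have h2 : bdL V (lT TT V (i + 1 + 1) (bdL V e)) - lT TT V (i + 1 + 1) (bdL V (bdL V e)) +
            conB V (lT TT V (i + 1) (bdL V e)) ∈ degL V := by
          have h3 : bdL V e = ∑ j ∈ Finset.range (X.length + 1),
              ((-1 : ℚ) ^ j) • Finsupp.single ((x :: X).eraseIdx j) (1 : ℚ) := by
            rw [he, bdL_single, List.length_cons]
            simp only [Finsupp.smul_single, smul_eq_mul, mul_one]
          rw [h3]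
          simp only [map_sum, map_smul]
          rw [← Finset.sum_sub_distrib, ← Finset.sum_add_distrib]
          apply Submodule.sum_mem
          intro j hj
          rw [← smul_sub, ← smul_add]
          apply Submodule.smul_mem
          have hl : ((x :: X).eraseIdx j).length = n := by
            rw [List.length_eraseIdx, List.length_cons, if_pos (Finset.mem_range.mp hj), hX']
            rfl
          have := ih _ hl
          simpa [lT] using this
        rw [bdL_bdL, map_zero, sub_zero] at h2
        -- the claim for `i`
        have h7 := ihi _ (x :: X) rfl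
        rw [← he] at h7
        have h8 : conB V (bdL V (TT V (i + 1) (x :: X))) - conB V (lT TT V (i + 1) (bdL V e)) ∈ degL V := by
          have h9 := (hhb2 V).2.1 _ h7
          have h10 := (hhb2 V).1 (TT V i (x :: X))
          rw [map_add, map_sub] at h9
          have := Submodule.sub_mem _ h9 h10
          simpa using this
        have h4 : bdL V c = bdL V (lT TT V (i + 1 + 1) (bdL V e)) +
            conB V (bdL V (TT V (i + 1) (x :: X))) := by
          have h5 := hbb_all hhbb V (TT V (i + 1) (x :: X))
          rw [hc, map_sub, sub_eq_add_neg]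
          congr 1
          rw [neg_eq_iff_add_eq_zero]
          exact h5
        rw [h4]
        have := Submodule.add_mem _ h2 h8
        have e9 : bdL V (lT TT V (i + 1 + 1) (bdL V e)) + conB V (lT TT V (i + 1) (bdL V e)) +
            (conB V (bdL V (TT V (i + 1) (x :: X))) - conB V (lT TT V (i + 1) (bdL V e))) =
            bdL V (lT TT V (i + 1 + 1) (bdL V e)) + conB V (bdL V (TT V (i + 1) (x :: X))) := by abel
        rw [e9] at this
        exact this

end HLE

theorem t_HLE (hhbb : S_HBB) (hhb2 : S_HB2) : S_HLE := by
  refine ⟨HLE.TT, ?_, ?_, ?_, ?_⟩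
  · intro V X
    rfl
  · intro V W f i X
    exact HLE.TT_map V W f i X
  · intro V i X Y hY
    have h := HLE.TT_len V i X
    rw [Finsupp.mem_supported] at h
    exact h hY
  · intro V i X _
    exact HLE.claim hhbb hhb2 V i _ X rfl

end Pool.Agent.FJA
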