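import Pool.Agent.FJA.StW

/-!
# FJW_HLX: products in lexicographic order   (helper4)
-/

set_option autoImplicit false
namespace Pool.Agent.FJA

namespace HLX

/-- dropping the factors `ε` -/
theorem drop {R ι : Type} [Monoid R] (p : ι → Bool) (f : ι → R) (ε : R) (h0 : ε * ε = ε)
    (h1 : ∀ j, ε * f j = f j) (h2 : ∀ j, f j * ε = f j) (L : List ι) :
    (L.filter p ≠ [] → (L.map fun z => if p z then f z else ε).prod = ((L.filter p).map f).prod) ∧
    (L.filter p = [] → (L.map fun z => if p z then f z else ε).prod = 1 ∨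
      (L.map fun z => if p z then f z else ε).prod = ε) := by
  induction L with
  | nil => exact ⟨fun h => absurd rfl h, fun _ => Or.inl rfl⟩
  | cons z L ih =>
    by_cases hz : p z = true
    · refine ⟨fun _ => ?_, fun h => ?_⟩
      · rw [List.filter_cons_of_pos hz, List.map_cons, List.map_cons, List.prod_cons, List.prod_cons,
          if_pos hz]
        by_cases hL : L.filter p = []
        · rw [hL, List.map_nil, List.prod_nil, mul_one]
          rcases ih.2 hL with h | h
          · rw [h, mul_one]
          · rw [h, h2]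
        · rw [ih.1 hL]
      · rw [List.filter_cons_of_pos hz] at h
        exact absurd h (List.cons_ne_nil _ _)
    · refine ⟨fun h => ?_, fun h => ?_⟩
      · rw [List.filter_cons_of_neg hz] at h ⊢
        rw [List.map_cons, List.prod_cons, if_neg hz, ih.1 h]
        obtain ⟨a, l, hal⟩ := List.exists_cons_of_ne_nil h
        rw [hal, List.map_cons, List.prod_cons, ← mul_assoc, h1]
      · rw [List.filter_cons_of_neg hz] at h
        rw [List.map_cons, List.prod_cons, if_neg hz]
        rcases ih.2 h with h' | h'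
        · rw [h', mul_one]; exact Or.inr rfl
        · rw [h', h0]; exact Or.inr rfl

/-- the strict lexicographic order of `(t j, j)` -/
def lt' {M N : ℕ} (t : Fin M → Fin N) (i j : Fin M) : Prop := t i < t j ∨ (t i = t j ∧ i < j)

theorem lt'_asymm {M N : ℕ} (t : Fin M → Fin N) (i j : Fin M) (h : lt' t i j) (h' : lt' t j i) : False := by
  rcases h with h | ⟨h, h2⟩ <;> rcases h' with h' | ⟨h', h3⟩
  · exact absurd h (lt_asymm h')
  · rw [h'] at h; exact absurd h (lt_irrefl _)
  · rw [h] at h'; exact absurd h' (lt_irrefl _)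
  · exact absurd h2 (lt_asymm h3)

end HLX

open HLX in
theorem t_HLX : S_HLX := by
  intro R _ M N P ε h0 h1 h2 t
  classical
  let Λ : List (Fin N × Fin (M + 1)) :=
    (List.finRange N).flatMap fun s => (List.finRange (M + 1)).map fun j => (s, j)
  let p : Fin N × Fin (M + 1) → Bool := fun z => decide (t z.2 = z.1)
  have e1 : (List.ofFn fun s : Fin N => (List.ofFn fun j : Fin (M + 1) =>
      if t j = s then P j else ε).prod).prod = (Λ.map fun z => if p z then P z.2 else ε).prod := by
    rw [List.map_flatMap, List.flatMap_def, List.prod_flatten, List.map_map, List.ofFn_eq_map]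
    congr 1
    refine List.map_congr_left fun s _ => ?_
    simp only [Function.comp, List.map_map, List.ofFn_eq_map, p, decide_eq_true_eq]
    rfl
  have hmem : ∀ j, j ∈ (Λ.filter p).map Prod.snd := by
    intro j
    refine List.mem_map.2 ⟨(t j, j), List.mem_filter.2 ⟨?_, by simp [p]⟩, rfl⟩
    refine List.mem_flatMap.2 ⟨t j, List.mem_finRange _, List.mem_map.2 ⟨j, List.mem_finRange _, rfl⟩⟩
  have hne : Λ.filter p ≠ [] := by
    intro h
    have := hmem 0
    rw [h] at this
    simp at this
  rw [e1, (drop p (fun z : Fin N × Fin (M + 1) => P z.2) ε h0 (fun _ => h1 _) (fun _ => h2 _) Λ).1 hne]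
  -- the sorted list
  have hΛ : Λ.Pairwise fun x y => x.1 < y.1 ∨ (x.1 = y.1 ∧ x.2 < y.2) := by
    refine List.pairwise_flatMap.2 ⟨fun s _ => ?_, ?_⟩
    · rw [List.pairwise_map]
      exact (List.pairwise_lt_finRange _).imp fun h => Or.inr ⟨rfl, h⟩
    · refine (List.pairwise_lt_finRange _).imp fun {a b} hab x hx y hy => ?_
      obtain ⟨j, _, rfl⟩ := List.mem_map.1 hx
      obtain ⟨k, _, rfl⟩ := List.mem_map.1 hy
      exact Or.inl hab
  have hs : ((Λ.filter p).map Prod.snd).Pairwise (lt' t) := by
    rw [List.pairwise_map]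
    refine List.Pairwise.imp_of_mem (fun {x y} hx hy hxy => ?_) (hΛ.filter p)
    have hx' : t x.2 = x.1 := by simpa [p] using (List.mem_filter.1 hx).2
    have hy' : t y.2 = y.1 := by simpa [p] using (List.mem_filter.1 hy).2
    unfold lt'
    rw [hx', hy']
    exact hxy
  have hσ : (List.ofFn (Tuple.sort t)).Pairwise (lt' t) := by
    obtain ⟨ha, hb⟩ := Tuple.eq_sort_iff.1 (rfl : Tuple.sort t = Tuple.sort t)
    rw [List.pairwise_ofFn]
    intro i j hij
    rcases (ha hij.le).lt_or_eq with h | h
    · exact Or.inl h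
    · exact Or.inr ⟨h, hb i j hij h⟩
  have hnd : ∀ l : List (Fin (M + 1)), l.Pairwise (lt' t) → l.Nodup := fun l hl =>
    hl.imp fun {a b} hab hne => by
      subst hne
      exact lt'_asymm t _ _ hab hab
  have hperm : ((Λ.filter p).map Prod.snd).Perm (List.ofFn (Tuple.sort t)) := by
    refine (List.perm_ext_iff_of_nodup (hnd _ hs) (hnd _ hσ)).2 fun j => ?_
    refine ⟨fun _ => ?_, fun _ => hmem j⟩
    rw [List.mem_ofFn]
    exact ⟨(Tuple.sort t).symm j, Equiv.apply_symm_apply _ _⟩
  have heq : (Λ.filter p).map Prod.snd = List.ofFn (Tuple.sort t) := by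
    refine List.Perm.eq_of_pairwise (le := lt' t) (fun a b _ _ h h' => (lt'_asymm t a b h h').elim) hs hσ hperm
  have e2 : (Λ.filter p).map (fun z => P z.2) = ((Λ.filter p).map Prod.snd).map P := by
    rw [List.map_map]
    rfl
  rw [e2, heq, List.map_ofFn]
  rfl

end Pool.Agent.FJA
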