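import Pool.Agent.FJA.StW

/-!
# Naturality of `cval`
-/

set_option autoImplicit false

open Matrix Pool.Agent.WhK Pool.Agent.Lib25

noncomputable section

namespace Pool.Agent.FJA

namespace HNA

variable {k : Type} [Field k]

/-- coefficients of the image of an element of the group algebra -/
theorem coeff_map {G : Type} [Group G] (H : Subgroup G) (x : MonoidAlgebra k H) (h : H) :
    ((MonoidAlgebra.mapDomainRingHom k H.subtype) x).coeff (h : G) = x.coeff h := by
  rw [MonoidAlgebra.mapDomainRingHom_apply]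
  exact Finsupp.mapDomain_apply Subtype.val_injective x.coeff h

theorem coeff_map_of_notMem {G : Type} [Group G] (H : Subgroup G) (x : MonoidAlgebra k H) (g : G)
    (hg : g ∉ H) : ((MonoidAlgebra.mapDomainRingHom k H.subtype) x).coeff g = 0 := by
  rw [MonoidAlgebra.mapDomainRingHom_apply]
  refine Finsupp.mapDomain_of_notMem_range x.coeff g ?_
  rintro ⟨h, rfl⟩
  exact hg h.2

theorem hcoef_map {G : Type} [Group G] (H : Subgroup G) {n r : ℕ}
    (h : Fin (n + 1) → Matrix (Fin r) (Fin r) (MonoidAlgebra k H)) (γ : Fin (n + 1) → H) :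
    hcoef (fun j => ((MonoidAlgebra.mapDomainRingHom k H.subtype).mapMatrix :
      Matrix (Fin r) (Fin r) (MonoidAlgebra k H) →+* Matrix (Fin r) (Fin r) (MonoidAlgebra k G)) (h j))
      (fun j => (γ j : G)) = hcoef h γ := by
  unfold hcoef
  refine Finset.sum_congr rfl fun a _ => ?_
  refine Finset.prod_congr rfl fun j _ => ?_
  exact coeff_map H (h j (a j) (a (j + 1))) (γ j)

theorem hcoef_map_zero {G : Type} [Group G] (H : Subgroup G) {n r : ℕ}
    (h : Fin (n + 1) → Matrix (Fin r) (Fin r) (MonoidAlgebra k H)) (γ : Fin (n + 1) → G)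
    (j : Fin (n + 1)) (hj : γ j ∉ H) :
    hcoef (fun j => ((MonoidAlgebra.mapDomainRingHom k H.subtype).mapMatrix :
      Matrix (Fin r) (Fin r) (MonoidAlgebra k H) →+* Matrix (Fin r) (Fin r) (MonoidAlgebra k G)) (h j))
      γ = 0 := by
  unfold hcoef
  refine Finset.sum_eq_zero fun a _ => ?_
  refine Finset.prod_eq_zero (Finset.mem_univ j) ?_
  exact coeff_map_of_notMem H (h j (a j) (a (j + 1))) _ hj

theorem fpr_map {G : Type} [Group G] (H : Subgroup G) {n : ℕ} (γ : Fin (n + 1) → H) :
    fpr (fun j => (γ j : G)) = fun i => ((fpr γ i : H) : G) := by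
  funext i
  unfold fpr
  rw [← Subgroup.coe_subtype, map_list_prod, List.map_take, List.map_ofFn]
  rfl

theorem prod_map {G : Type} [Group G] (H : Subgroup G) {n : ℕ} (γ : Fin (n + 1) → H) :
    (List.ofFn (fun j => (γ j : G))).prod = (((List.ofFn γ).prod : H) : G) := by
  rw [← Subgroup.coe_subtype, map_list_prod, List.map_ofFn]
  rfl

theorem cval_map {G : Type} [Group G] (H : Subgroup G) (n r : ℕ) (F : (Fin (n + 1) → G) → G → ℚ)
    (h : Fin (n + 1) → Matrix (Fin r) (Fin r) (MonoidAlgebra k H)) :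
    cval F (fun j => ((MonoidAlgebra.mapDomainRingHom k H.subtype).mapMatrix :
      Matrix (Fin r) (Fin r) (MonoidAlgebra k H) →+* Matrix (Fin r) (Fin r) (MonoidAlgebra k G)) (h j)) =
      cval (fun (a : Fin (n + 1) → H) (y : H) => F (fun i => (a i : G)) (y : G)) h := by
  unfold cval
  set f : (Fin (n + 1) → G) → k := fun γ =>
    hcoef (fun j => ((MonoidAlgebra.mapDomainRingHom k H.subtype).mapMatrix :
      Matrix (Fin r) (Fin r) (MonoidAlgebra k H) →+* Matrix (Fin r) (Fin r) (MonoidAlgebra k G)) (h j))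
      γ * ((F (fpr γ) (List.ofFn γ).prod : ℚ) : k) with hf
  have hinj : Function.Injective (fun (γ : Fin (n + 1) → H) (j : Fin (n + 1)) => (γ j : G)) := by
    intro a b h
    funext j
    exact Subtype.ext (congrFun h j)
  have h1 : ∑ᶠ γ : Fin (n + 1) → G, f γ =
      ∑ᶠ γ ∈ Set.range (fun (γ : Fin (n + 1) → H) (j : Fin (n + 1)) => (γ j : G)), f γ := by
    rw [← finsum_mem_univ]
    refine finsum_mem_inter_support_eq f _ _ ?_
    ext γ
    simp only [Set.mem_inter_iff, Set.mem_univ, true_and, Function.mem_support]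
    constructor
    · intro h
      refine ⟨?_, h⟩
      have h2 : ∀ j, γ j ∈ H := by
        intro j
        by_contra hj
        apply h
        rw [hf]
        simp only
        rw [hcoef_map_zero H _ γ j hj, zero_mul]
      exact ⟨fun j => ⟨γ j, h2 j⟩, rfl⟩
    · exact fun h => h.2
  rw [h1, finsum_mem_range hinj]
  refine finsum_congr fun γ => ?_
  rw [hf]
  simp only
  rw [hcoef_map, fpr_map, prod_map]

end HNA

theorem t_HNA : S_HNA := by
  intro k _ _ G _ H n r F h
  exact HNA.cval_map H n r F h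

end Pool.Agent.FJA
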