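import Pool.Agent.FJA.StW

/-!
# The lift of a cycle is a cyclic cycle with repeated vertices
-/

set_option autoImplicit false

noncomputable section

namespace Pool.Agent.FJA

namespace HNL

open Finsupp

theorem tpL_single_of_length {V : Type} {L : ℕ} (X : Fin L → V) (q : ℚ) :
    tpL V L (single (List.ofFn X) q) = single X q := by
  unfold tpL
  rw [linearCombination_single, dif_pos (List.length_ofFn), smul_single, smul_eq_mul, mul_one]
  congr 1
  funext j
  simp

theorem tpL_single_of_ne {V : Type} {L : ℕ} {Y : List V} (h : Y.length ≠ L) (q : ℚ) :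
    tpL V L (single Y q) = 0 := by
  unfold tpL
  rw [linearCombination_single, dif_neg h, smul_zero]

theorem exists_ofFn {V : Type} {L : ℕ} {Y : List V} (h : Y.length = L) :
    ∃ X : Fin L → V, Y = List.ofFn X := by
  subst h
  exact ⟨Y.get, (List.ofFn_get Y).symm⟩

theorem eraseIdx_ofFn {V : Type} {m : ℕ} (X : Fin (m + 1) → V) (j : Fin (m + 1)) :
    (List.ofFn X).eraseIdx j = List.ofFn fun t => X (j.succAbove t) := by
  apply List.ext_getElem
  · rw [List.length_eraseIdx_of_lt (by rw [List.length_ofFn]; exact j.2), List.length_ofFn,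
      List.length_ofFn]
    rfl
  · intro k h1 h2
    rw [List.getElem_eraseIdx]
    rw [List.length_ofFn] at h2
    split_ifs with h
    · rw [List.getElem_ofFn, List.getElem_ofFn]
      congr 1
      rw [Fin.succAbove_of_castSucc_lt _ _ (by simpa [Fin.lt_def] using h)]
      rfl
    · rw [List.getElem_ofFn, List.getElem_ofFn]
      congr 1
      rw [Fin.succAbove_of_le_castSucc _ _ (by simpa [Fin.le_def] using h)]
      rfl

theorem bdL_ofFn {V : Type} {m : ℕ} (X : Fin (m + 1) → V) :
    bdL V (single (List.ofFn X) 1) =
      ∑ i : Fin (m + 1), single (List.ofFn fun t => X (i.succAbove t)) ((-1 : ℚ) ^ (i : ℕ)) := by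
  unfold bdL
  rw [linearCombination_single, one_smul, List.length_ofFn, Finset.sum_range]
  exact Finset.sum_congr rfl fun i _ => by rw [eraseIdx_ofFn]

theorem bd_single {V : Type} {m : ℕ} (X : Fin (m + 1) → V) :
    bd ℚ V m (single X 1) =
      ∑ i : Fin (m + 1), single (fun j => X (i.succAbove j)) ((-1 : ℚ) ^ (i : ℕ)) := by
  unfold bd
  rw [linearCombination_single, one_smul]

theorem single_smul {α : Type} (a : α) (q : ℚ) : (single a q : α →₀ ℚ) = q • single a 1 := by
  rw [smul_single, smul_eq_mul, mul_one]

theorem bd_tpL {V : Type} (M : ℕ) (c : List V →₀ ℚ) :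
    bd ℚ V (M + 1) (tpL V (M + 2) c) = tpL V (M + 1) (bdL V c) := by
  induction c using Finsupp.induction_linear with
  | zero => simp
  | add f g hf hg => rw [map_add, map_add, map_add, map_add, hf, hg]
  | single Y q =>
    rw [single_smul, map_smul, map_smul, map_smul, map_smul]
    congr 1
    by_cases h : Y.length = M + 2
    · obtain ⟨X, rfl⟩ := exists_ofFn h
      rw [tpL_single_of_length, bd_single, bdL_ofFn, map_sum]
      exact Finset.sum_congr rfl fun i _ => by rw [tpL_single_of_length]
    · rw [tpL_single_of_ne h, map_zero]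
      unfold bdL
      rw [linearCombination_single, one_smul, map_sum]
      refine (Finset.sum_eq_zero fun j hj => ?_).symm
      rw [Finset.mem_range] at hj
      apply tpL_single_of_ne
      rw [List.length_eraseIdx_of_lt hj]
      omega

theorem bdL_mapDomain {V : Type} {m : ℕ} (z : (Fin (m + 1) → V) →₀ ℚ) :
    bdL V (z.mapDomain List.ofFn) = (bd ℚ V m z).mapDomain List.ofFn := by
  induction z using Finsupp.induction_linear with
  | zero => simp
  | add f g hf hg => rw [mapDomain_add, map_add, map_add, mapDomain_add, hf, hg]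
  | single X q =>
    rw [single_smul, mapDomain_smul, map_smul, map_smul, mapDomain_smul]
    congr 1
    rw [mapDomain_single, bdL_ofFn, bd_single, mapDomain_finsetSum]
    exact Finset.sum_congr rfl fun i _ => by rw [mapDomain_single]

/-- degenerate lists go to degenerate tuples -/
theorem tpL_degL {V : Type} (M : ℕ) {c : List V →₀ ℚ} (hc : c ∈ degL V) :
    tpL V (M + 1) c ∈ cdg V M := by
  have h : degL V ≤ (cdg V M).comap (tpL V (M + 1)) := by
    unfold degL
    rw [Submodule.span_le]
    rintro x ⟨A, B, v, rfl⟩
    rw [SetLike.mem_coe, Submodule.mem_comap]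
    by_cases h : (A ++ v :: v :: B).length = M + 1
    · have hlen : A.length + 1 < M + 1 := by
        simp only [List.length_append, List.length_cons] at h
        omega
      obtain ⟨X, hX⟩ := exists_ofFn h
      rw [hX, tpL_single_of_length]
      refine Submodule.subset_span (Or.inl ⟨X, ⟨A.length, by omega⟩, ?_, rfl⟩)
      have hs : (⟨A.length, by omega⟩ : Fin (M + 1)) + 1 = ⟨A.length + 1, hlen⟩ := by
        apply Fin.ext
        rw [Fin.val_add]
        have h1 : ((1 : Fin (M + 1)) : ℕ) = 1 := by
          rw [Fin.val_one']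
          exact Nat.mod_eq_of_lt (by omega)
        rw [h1]
        exact Nat.mod_eq_of_lt hlen
      rw [hs]
      have h1 : X ⟨A.length, by omega⟩ = (A ++ v :: v :: B)[A.length]'(by omega) := by
        have := List.getElem_of_eq hX.symm (i := A.length) (by rw [List.length_ofFn]; omega)
        rw [List.getElem_ofFn] at this
        exact this
      have h2 : X ⟨A.length + 1, hlen⟩ = (A ++ v :: v :: B)[A.length + 1]'(by omega) := by
        have := List.getElem_of_eq hX.symm (i := A.length + 1) (by rw [List.length_ofFn]; omega)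
        rw [List.getElem_ofFn] at this
        exact this
      rw [h1, h2]
      simp [List.getElem_append_right]
    · rw [tpL_single_of_ne h]
      exact Submodule.zero_mem _
  exact h hc

/-- the lists in the image of the operator of Connes go to degenerate tuples -/
theorem tpL_conB {V : Type} (M : ℕ) (c : List V →₀ ℚ) :
    tpL V (M + 1) (conB V c) ∈ cdg V M := by
  induction c using Finsupp.induction_linear with
  | zero => simp
  | add f g hf hg => rw [map_add, map_add]; exact Submodule.add_mem _ hf hg
  | single Y q =>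
    rw [single_smul, map_smul, map_smul]
    refine Submodule.smul_mem _ _ ?_
    unfold conB
    rw [linearCombination_single, one_smul, map_sum]
    refine Submodule.sum_mem _ fun j hj => ?_
    rw [Finset.mem_range] at hj
    rw [single_smul, map_smul]
    refine Submodule.smul_mem _ _ ?_
    set Z := Y.rotate j with hZ
    have hZl : Z.length = Y.length := List.length_rotate _ _
    by_cases h : (Z ++ Z.take 1).length = M + 1
    · have hl : Z.length = M := by
        rw [List.length_append, List.length_take] at h
        omega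
      obtain ⟨X, hX⟩ := exists_ofFn h
      rw [hX, tpL_single_of_length]
      refine Submodule.subset_span (Or.inl ⟨X, Fin.last M, ?_, rfl⟩)
      rw [Fin.last_add_one]
      have h1 : X (Fin.last M) = (Z ++ Z.take 1)[M]'(by omega) := by
        have := List.getElem_of_eq hX.symm (i := M) (by rw [List.length_ofFn]; omega)
        rw [List.getElem_ofFn] at this
        exact this
      have h2 : X 0 = (Z ++ Z.take 1)[0]'(by omega) := by
        have := List.getElem_of_eq hX.symm (i := 0) (by rw [List.length_ofFn]; omega)
        rw [List.getElem_ofFn] at this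
        exact this
      rw [h1, h2, List.getElem_append_right (by omega), List.getElem_append_left (by omega)]
      simp [hl]
    · rw [tpL_single_of_ne h]
      exact Submodule.zero_mem _

theorem tpL_map {V : Type} [Group V] (M : ℕ) (g : V) (c : List V →₀ ℚ) :
    tpL V (M + 1) (c.mapDomain (List.map (g * ·))) - tpL V (M + 1) c ∈ hdeg ℚ V M := by
  induction c using Finsupp.induction_linear with
  | zero => simp
  | add f f' hf hf' =>
    rw [mapDomain_add, map_add, map_add, add_sub_add_comm]
    exact Submodule.add_mem _ hf hf'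
  | single Y q =>
    rw [mapDomain_single, single_smul, single_smul Y, map_smul, map_smul, ← smul_sub]
    refine Submodule.smul_mem _ _ ?_
    by_cases h : Y.length = M + 1
    · obtain ⟨X, rfl⟩ := exists_ofFn h
      rw [List.map_ofFn, tpL_single_of_length, tpL_single_of_length]
      exact Submodule.subset_span ⟨g, X, rfl⟩
    · rw [tpL_single_of_ne h, tpL_single_of_ne (by rwa [List.length_map]), sub_zero]
      exact Submodule.zero_mem _

theorem lT_single {T : ∀ V : Type, ℕ → List V → (List V →₀ ℚ)} {V : Type} (i : ℕ) (Y : List V) :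
    lT T V i (single Y 1) = T V i Y := by
  unfold lT
  rw [linearCombination_single, one_smul]

theorem lT_hdeg {T : ∀ V : Type, ℕ → List V → (List V →₀ ℚ)} (hT : NatLift T) {V : Type} [Group V]
    (n i M : ℕ) {z : (Fin (n + 1) → V) →₀ ℚ} (hz : z ∈ hdeg ℚ V n) :
    tpL V (M + 1) (lT T V i (z.mapDomain List.ofFn)) ∈ hdeg ℚ V M := by
  have h : hdeg ℚ V n ≤ (hdeg ℚ V M).comap
      ((tpL V (M + 1)).comp ((lT T V i).comp (lmapDomain ℚ ℚ List.ofFn))) := by
    conv_lhs => unfold hdeg
    rw [Submodule.span_le]
    rintro x ⟨g, X, rfl⟩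
    rw [SetLike.mem_coe, Submodule.mem_comap]
    simp only [LinearMap.comp_apply, lmapDomain_apply, map_sub]
    rw [mapDomain_single, mapDomain_single, lT_single, lT_single]
    have h2 : (List.ofFn fun i => g * X i) = (List.ofFn X).map (g * ·) := by
      rw [List.map_ofFn]; rfl
    rw [h2, hT.nat]
    exact tpL_map M g _
  exact h hz

/-- the entries of the lists of a natural lift -/
theorem entries {T : ∀ V : Type, ℕ → List V → (List V →₀ ℚ)} (hT : NatLift T) {V : Type}
    {m i : ℕ} (hi : 1 ≤ i) (X : Fin m → V) {Y : List V} (hY : Y ∈ (T V i (List.ofFn X)).support) :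
    ∃ a b : Fin Y.length, a ≠ b ∧ Y.get a = Y.get b := by
  classical
  have h1 : List.ofFn X = (List.finRange m).map X := List.ofFn_eq_map
  rw [h1, hT.nat] at hY
  obtain ⟨L, hL, hLY⟩ := Finset.mem_image.1 (mapDomain_support hY)
  have hlen := hT.deg _ _ _ L hL
  rw [List.length_finRange] at hlen
  subst hLY
  have hcard : Fintype.card (Fin m) < Fintype.card (Fin L.length) := by
    rw [Fintype.card_fin, Fintype.card_fin]; omega
  obtain ⟨a, b, hab, hLab⟩ := Fintype.exists_ne_map_eq_of_card_lt L.get hcard
  refine ⟨a.cast (List.length_map X).symm, b.cast (List.length_map X).symm, ?_, ?_⟩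
  · intro h
    exact hab (Fin.cast_injective _ h)
  · simp only [List.get_eq_getElem] at hLab ⊢
    rw [List.getElem_map, List.getElem_map]
    simp only [Fin.val_cast]
    rw [hLab]

theorem tpL_rep {T : ∀ V : Type, ℕ → List V → (List V →₀ ℚ)} (hT : NatLift T) {V : Type}
    {m i L : ℕ} (hi : 1 ≤ i) (X : Fin m → V) :
    tpL V L (T V i (List.ofFn X)) ∈
      Finsupp.supported ℚ ℚ {Z : Fin L → V | ∃ a b, a ≠ b ∧ Z a = Z b} := by
  have h1 : T V i (List.ofFn X) = (T V i (List.ofFn X)).sum single := (sum_single _).symm
  rw [h1, Finsupp.sum, map_sum]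
  refine Submodule.sum_mem _ fun Y hY => ?_
  obtain ⟨a, b, hab, he⟩ := entries hT hi X hY
  by_cases h : Y.length = L
  · subst h
    conv in single Y _ => rw [← List.ofFn_get Y]
    rw [tpL_single_of_length]
    exact single_mem_supported ℚ _ ⟨a, b, hab, he⟩
  · rw [tpL_single_of_ne h]
    exact Submodule.zero_mem _

theorem sum_bd {T : ∀ V : Type, ℕ → List V → (List V →₀ ℚ)} (hT : NatLift T) {V : Type}
    {m : ℕ} (i : ℕ) (z : (Fin (m + 1) → V) →₀ ℚ) :
    bdL V (lT T V (i + 1) (z.mapDomain List.ofFn)) -
      lT T V (i + 1) (bdL V (z.mapDomain List.ofFn)) +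
      conB V (lT T V i (z.mapDomain List.ofFn)) ∈ degL V := by
  induction z using Finsupp.induction_linear with
  | zero => simp
  | add f g hf hg =>
    simp only [mapDomain_add, map_add]
    have := Submodule.add_mem _ hf hg
    convert this using 1
    abel
  | single X q =>
    rw [mapDomain_single, single_smul]
    simp only [map_smul]
    rw [← smul_sub, ← smul_add]
    refine Submodule.smul_mem _ _ ?_
    rw [lT_single, lT_single]
    exact hT.bd V i (List.ofFn X) (by
      intro h
      have := congrArg List.length h
      simp at this)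

end HNL

open HNL in
theorem t_HNL : S_HNL := by
  intro T hT V _ n i M hn hi hM z hz
  constructor
  · intro X hX
    have h1 : tpL V (M + 2) (lT T V i (z.mapDomain List.ofFn)) ∈
        Finsupp.supported ℚ ℚ {Z : Fin (M + 2) → V | ∃ a b, a ≠ b ∧ Z a = Z b} := by
      unfold lT
      rw [Finsupp.linearCombination_mapDomain, Finsupp.linearCombination_apply, Finsupp.sum,
        map_sum]
      refine Submodule.sum_mem _ fun X hX => ?_
      rw [map_smul]
      exact Submodule.smul_mem _ _ (tpL_rep hT hi X)
    exact (Finsupp.mem_supported _ _).1 h1 hX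
  · obtain ⟨n', rfl⟩ : ∃ n', n = n' + 1 := ⟨n - 1, by omega⟩
    obtain ⟨i', rfl⟩ : ∃ i', i = i' + 1 := ⟨i - 1, by omega⟩
    have hz' : bd ℚ V (n' + 1) z ∈ hdeg ℚ V n' := hz
    rw [bd_tpL]
    have h1 := sum_bd hT i' z
    rw [bdL_mapDomain] at h1
    have h2 := tpL_degL M h1
    rw [map_add, map_sub] at h2
    have h3 := tpL_conB M (lT T V i' (z.mapDomain List.ofFn))
    have h4 := lT_hdeg hT n' (i' + 1) M hz'
    have h5 : tpL V (M + 1) (bdL V (lT T V (i' + 1) (z.mapDomain List.ofFn))) =
        tpL V (M + 1) (lT T V (i' + 1) ((bd ℚ V (n' + 1) z).mapDomain List.ofFn)) +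
        ((tpL V (M + 1) (bdL V (lT T V (i' + 1) (z.mapDomain List.ofFn))) -
          tpL V (M + 1) (lT T V (i' + 1) ((bd ℚ V (n' + 1) z).mapDomain List.ofFn)) +
          tpL V (M + 1) (conB V (lT T V i' (z.mapDomain List.ofFn)))) -
          tpL V (M + 1) (conB V (lT T V i' (z.mapDomain List.ofFn)))) := by abel
    rw [h5]
    exact Submodule.add_mem_sup h4 (Submodule.sub_mem _ h2 h3)

end Pool.Agent.FJA
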