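import Pool.Agent.FJA.StW

/-!
# HPO: polynomials whose values at infinitely many primes are divisible by a large power
-/

set_option autoImplicit false

noncomputable section

namespace Pool.Agent.FJA

theorem t_HPO (hhfd : S_HFD) : S_HPO := by
  intro k _ _ s L R hR hinf
  classical
  set S : Finset k := s ∪ (Finset.range (L + 1)).image R.coeff with hS
  have hcoef : ∀ i, R.coeff i ∈ Subring.closure (S : Set k) := by
    intro i
    by_cases h : i ≤ L
    · apply Subring.subset_closure
      rw [hS, Finset.mem_coe, Finset.mem_union]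
      exact Or.inr (Finset.mem_image.2 ⟨i, Finset.mem_range.2 (Nat.lt_succ_of_le h), rfl⟩)
    · rw [Polynomial.coeff_eq_zero_of_natDegree_lt (by omega)]
      exact Subring.zero_mem _
  have hmono : Subring.closure (s : Set k) ≤ Subring.closure (S : Set k) :=
    Subring.closure_mono (by rw [hS, Finset.coe_union]; exact Set.subset_union_left)
  have hev : ∀ x : k, R.eval x = ∑ i ∈ Finset.range (L + 1), R.coeff i * x ^ i := fun x =>
    Polynomial.eval_eq_sum_range' (Nat.lt_succ_of_le hR) x
  have key : ∀ j, j < L → R.coeff j = 0 := by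
    intro j
    induction j using Nat.strong_induction_on with
    | _ j ih =>
      intro hj
      apply hhfd k S (R.coeff j) (hcoef j)
      refine hinf.mono ?_
      rintro ℓ ⟨hℓ, d, hd, a, ha, he⟩
      obtain ⟨m, hm⟩ : ∃ m, L = j + 1 + m := ⟨L - (j + 1), by omega⟩
      set q : k := ∑ x ∈ Finset.range (m + 1), R.coeff (j + 1 + x) * (ℓ : k) ^ x with hq
      have hℓ0 : (ℓ : k) ≠ 0 := Nat.cast_ne_zero.2 hℓ.ne_zero
      have hℓm : (ℓ : k) ∈ Subring.closure (S : Set k) := natCast_mem _ _
      have hqm : q ∈ Subring.closure (S : Set k) := by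
        rw [hq]
        exact Subring.sum_mem _ fun x _ => Subring.mul_mem _ (hcoef _) (Subring.pow_mem _ hℓm x)
      refine ⟨hℓ, d, hd, (ℓ : k) ^ m * a - d * q, ?_, ?_⟩
      · exact Subring.sub_mem _ (Subring.mul_mem _ (Subring.pow_mem _ hℓm m) (hmono ha))
          (Subring.mul_mem _ (intCast_mem _ _) hqm)
      · have h1 : R.eval (ℓ : k) = (ℓ : k) ^ j * (R.coeff j + ℓ * q) := by
          rw [hev, hm, show j + 1 + m + 1 = (j + 1) + (m + 1) from by ring,
            Finset.sum_range_add, Finset.sum_range_succ]
          have h2 : ∑ i ∈ Finset.range j, R.coeff i * (ℓ : k) ^ i = 0 :=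
            Finset.sum_eq_zero fun i hi => by
              have := Finset.mem_range.1 hi
              rw [ih i this (by omega), zero_mul]
          have h3 : ∑ x ∈ Finset.range (m + 1), R.coeff (j + 1 + x) * (ℓ : k) ^ (j + 1 + x) =
              (ℓ : k) ^ j * (ℓ * q) := by
            rw [hq, Finset.mul_sum, Finset.mul_sum]
            refine Finset.sum_congr rfl fun x _ => ?_
            ring
          rw [h2, h3]
          ring
        rw [h1, hm] at he
        have h4 : (ℓ : k) ^ j * (d * (R.coeff j + ℓ * q)) =
            (ℓ : k) ^ j * ((ℓ : k) * ((ℓ : k) ^ m * a)) := by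
          calc (ℓ : k) ^ j * (d * (R.coeff j + ℓ * q)) = d * ((ℓ : k) ^ j * (R.coeff j + ℓ * q)) := by
                ring
            _ = (ℓ : k) ^ (j + 1 + m) * a := he
            _ = _ := by ring
        have h5 := mul_left_cancel₀ (pow_ne_zero j hℓ0) h4
        linear_combination h5
  rw [hev 1, Finset.sum_range_succ, Finset.sum_eq_zero fun i hi => by
    rw [key i (Finset.mem_range.1 hi), zero_mul]]
  simp

end Pool.Agent.FJA
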