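import Pool.Agent.FJA.StW
import Pool.Agent.FJA.P_SCF

/-!
# HPR: the prism between the section and the positions
-/

set_option autoImplicit false

namespace Pool.Agent.FJA

namespace HPR

variable {Γ : Type} [Group Γ]

/-- The pairs (section, entry at the position `t i`). -/
def vt {M N : ℕ} (s : List Γ → Γ → Γ) (Y : Fin M → List Γ) (y : Γ) (t : Fin M → Fin N) (i : Fin M) :
    Γ × Γ :=
  (s (Y i) y, (Y i).getD (t i) 1)

/-- The average of the prism function over the positions. -/
noncomputable def hh {M : ℕ} (N : ℕ) (F : (Fin (M + 1) → Γ) → Γ → ℚ) (s : List Γ → Γ → Γ)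
    (Y : Fin M → List Γ) (y : Γ) : ℚ :=
  ((N : ℚ) ^ M)⁻¹ * ∑ t : Fin M → Fin N, SCF.EE F y (vt s Y y t)

/-- invariance of the prism function -/
theorem EE_cg {M : ℕ} {F : (Fin (M + 1) → Γ) → Γ → ℚ}
    (hinv : ∀ (g : Γ) (a : Fin (M + 1) → Γ) (y : Γ), F (fun i => g * a i) (g * y * g⁻¹) = F a y)
    (hb : ∀ (t : Fin (M + 1) → ℤ) (a : Fin (M + 1) → Γ) (y : Γ),
      F (fun i => y ^ t i * a i) y = F a y)
    (γ y : Γ) (v v' : Fin M → Γ × Γ)
    (h1 : ∀ i, ∃ t : ℤ, (v' i).1 = γ * (y ^ t * (v i).1))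
    (h2 : ∀ i, ∃ t : ℤ, (v' i).2 = γ * (y ^ t * (v i).2)) :
    SCF.EE F (γ * y * γ⁻¹) v' = SCF.EE F y v := by
  unfold SCF.EE
  refine Finset.sum_congr rfl fun j _ => ?_
  congr 1
  have h3 : ∀ i, ∃ t : ℤ, mix Prod.snd Prod.fst v' j i =
      γ * (y ^ t * mix Prod.snd Prod.fst v j i) := by
    intro i
    unfold mix
    split_ifs
    · exact h2 _
    · exact h1 _
  choose t ht using h3
  have h4 : mix Prod.snd Prod.fst v' j =
      fun i => γ * (y ^ t i * mix Prod.snd Prod.fst v j i) := funext ht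
  rw [h4, hinv γ (fun i => y ^ t i * mix Prod.snd Prod.fst v j i), hb t]

/-- the sum over all the positions of a function which does not depend on one of them -/
theorem sum_succAbove {M N : ℕ} (i : Fin (M + 1)) (g : (Fin M → Fin N) → ℚ) :
    ∑ t : Fin (M + 1) → Fin N, g (fun j => t (i.succAbove j)) =
      (N : ℚ) * ∑ t : Fin M → Fin N, g t := by
  rw [← (Fin.insertNthEquiv (fun _ : Fin (M + 1) => Fin N) i).sum_comp, Fintype.sum_prod_type]
  have h : ∀ (x : Fin N) (t : Fin M → Fin N),
      g (fun j => (Fin.insertNthEquiv (fun _ : Fin (M + 1) => Fin N) i) (x, t) (i.succAbove j)) =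
        g t := by
    intro x t
    congr 1
    funext j
    simp [Fin.insertNthEquiv]
  simp only [h]
  rw [Finset.sum_const, Finset.card_univ, Fintype.card_fin, nsmul_eq_mul]

/-- entries of the rotated list -/
theorem rotL_getD {N : ℕ} (y : Γ) (Y : List Γ) (hY : Y.length = N + 1) (τ : Fin (N + 1)) :
    ∃ b : ℤ, (rotL y Y).getD τ 1 = y ^ b * Y.getD (finRotate (N + 1) τ) 1 := by
  obtain ⟨a, Z, rfl⟩ : ∃ a Z, Y = a :: Z :=
    List.exists_cons_of_ne_nil (by rintro rfl; simp at hY)
  have hZ : Z.length = N := by simpa using hY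
  obtain ⟨τ, hτ⟩ := τ
  rcases Nat.lt_or_ge τ N with h | h
  · refine ⟨0, ?_⟩
    rw [finRotate_of_lt h, zpow_zero, one_mul]
    simp only [rotL, List.getD_cons_succ]
    rw [List.getD_append _ _ _ _ (by omega)]
  · have e : τ = N := by omega
    subst e
    refine ⟨1, ?_⟩
    rw [finRotate_last', zpow_one]
    simp only [rotL, List.getD_cons_zero]
    rw [List.getD_append_right _ _ _ _ (by omega), hZ]
    simp

end HPR

open HPR in
theorem t_HPR : S_HPR := by
  intro Γ _ M N F s hN hinv hF hb hs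
  refine ⟨hh N F s, ?_, ?_, ?_, ?_⟩
  · intro Y y
    have hN0 : (N : ℚ) ≠ 0 := by exact_mod_cast hN.ne'
    have h1 : ∀ t : Fin (M + 1) → Fin N, F (fun j => s (Y j) y) y -
        F (fun j => (Y j).getD (t j) 1) y =
        ∑ i : Fin (M + 1), (-1 : ℚ) ^ (i : ℕ) *
          SCF.EE F y (vt s (fun j => Y (i.succAbove j)) y (fun j => t (i.succAbove j))) :=
      fun t => SCF.prism_coc y (fun a => hF a y) (vt s Y y t)
    have h2 := Finset.sum_congr rfl fun (t : Fin (M + 1) → Fin N) (_ : t ∈ Finset.univ) => h1 t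
    rw [Finset.sum_sub_distrib, Finset.sum_const, Finset.card_univ, Fintype.card_fun,
      Fintype.card_fin, Fintype.card_fin, nsmul_eq_mul, Finset.sum_comm] at h2
    have h3 : ∀ i : Fin (M + 1), ∑ t : Fin (M + 1) → Fin N, (-1 : ℚ) ^ (i : ℕ) *
        SCF.EE F y (vt s (fun j => Y (i.succAbove j)) y (fun j => t (i.succAbove j))) =
        (N : ℚ) ^ (M + 1) * ((-1 : ℚ) ^ (i : ℕ) * hh N F s (fun j => Y (i.succAbove j)) y) := by
      intro i
      rw [← Finset.mul_sum, sum_succAbove i fun t =>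
        SCF.EE F y (vt s (fun j => Y (i.succAbove j)) y t)]
      unfold hh
      field_simp
      ring
    rw [Finset.sum_congr rfl fun i _ => h3 i, ← Finset.mul_sum] at h2
    push_cast at h2
    have h4 : (N : ℚ) ^ (M + 1) ≠ 0 := pow_ne_zero _ hN0
    have h5 : F (fun j => s (Y j) y) y -
        ((N : ℚ) ^ (M + 1))⁻¹ * ∑ t : Fin (M + 1) → Fin N, F (fun j => (Y j).getD (t j) 1) y =
        ((N : ℚ) ^ (M + 1))⁻¹ * ((N : ℚ) ^ (M + 1) * F (fun j => s (Y j) y) y -
          ∑ t : Fin (M + 1) → Fin N, F (fun j => (Y j).getD (t j) 1) y) := by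
      rw [mul_sub, ← mul_assoc, inv_mul_cancel₀ h4, one_mul]
    rw [h5, h2, ← mul_assoc, inv_mul_cancel₀ h4, one_mul]
  · intro γ Y y hY
    unfold hh
    congr 1
    refine Finset.sum_congr rfl fun t _ => ?_
    refine EE_cg hinv hb γ y _ _ (fun i => ?_) (fun i => ?_)
    · unfold vt
      refine hs.inv γ (Y i) y fun h0 => ?_
      have := hY i
      rw [h0, List.length_nil] at this
      omega
    · refine ⟨0, ?_⟩
      unfold vt
      have h1 : ((t i : Fin N) : ℕ) < (Y i).length := by rw [hY i]; exact (t i).2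
      rw [zpow_zero, one_mul, List.getD_eq_getElem _ _ (by rwa [List.length_map]),
        List.getD_eq_getElem _ _ h1, List.getElem_map]
  · intro Y y hY i hi
    obtain ⟨N, rfl⟩ : ∃ N', N = N' + 1 := ⟨N - 1, by omega⟩
    unfold hh
    congr 1
    set e : (Fin M → Fin (N + 1)) ≃ (Fin M → Fin (N + 1)) :=
      Equiv.piCongrRight fun j => if j = i then finRotate (N + 1) else Equiv.refl _ with he
    refine Eq.trans (Finset.sum_congr rfl fun t _ => ?_)
      (e.sum_comp fun t => SCF.EE F y (vt s Y y t))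
    have key := EE_cg hinv hb 1 y (vt s Y y (e t)) (vt s (Function.update Y i (rotL y (Y i))) y t)
      (fun j => ?_) (fun j => ?_)
    · rw [one_mul, inv_one, mul_one] at key
      exact key
    · unfold vt
      by_cases hj : j = i
      · subst hj
        obtain ⟨m, hm⟩ := hs.rot (Y j) y hi
        exact ⟨m, by rw [Function.update_self, one_mul]; exact hm⟩
      · exact ⟨0, by rw [Function.update_of_ne hj, one_mul, zpow_zero, one_mul]⟩
    · unfold vt
      by_cases hj : j = i
      · subst hj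
        obtain ⟨m, hm⟩ := rotL_getD y (Y j) (hY j) (t j)
        refine ⟨m, ?_⟩
        rw [Function.update_self, one_mul]
        simp only [he, Equiv.piCongrRight_apply, Pi.map_apply, if_true]
        exact hm
      · refine ⟨0, ?_⟩
        rw [Function.update_of_ne hj, one_mul, zpow_zero, one_mul]
        simp only [he, Equiv.piCongrRight_apply, Pi.map_apply, if_neg hj, Equiv.refl_apply]
  · intro y h0 Y
    unfold hh SCF.EE
    simp [h0]

end Pool.Agent.FJA
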