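import Pool.Agent.FJA.StW
import Pool.Agent.FJA.P_TXA
import Pool.Agent.FJA.P_TXD

/-!
# Module HRO: cyclic rotation of the simplex
-/

set_option autoImplicit false

open Matrix Pool.Agent.WhK Pool.Agent.Lib25

noncomputable section

namespace Pool.Agent.FJA

namespace HRO

open TXD

theorem rec_rot {Γ : Type} [Group Γ] {M : ℕ} (p κ : Rec Γ (Fin (M + 1)))
    (hp0 : (p.lst 0).length = 1) (hp : ∀ j, j ≠ 0 → p.lst j = []) :
    rotR (p * κ) = Rec.inc p.val * Rec.res (fun j : Fin (M + 1) => j + 1) (κ * p) *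
      Rec.inc p.val⁻¹ := by
  obtain ⟨x, hx⟩ := List.length_eq_one_iff.1 hp0
  apply Rec.ext
  · funext j
    simp only [rotR, Rec.mul_lst, Rec.mul_val, Rec.inc_lst, Rec.inc_val, Rec.res_lst,
      List.nil_append, List.map_nil, List.append_nil]
    by_cases hj : j + 1 = 0
    · rw [hj, Function.update_self, hx]
      simp only [List.cons_append, List.nil_append, rotL, List.map_cons, List.map_nil,
        List.map_append, mul_assoc]
    · rw [Function.update_of_ne hj, Rec.mul_lst, hp _ hj]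
      simp only [List.nil_append, List.map_nil, List.append_nil]
  · simp only [rotR, Rec.mul_val, Rec.inc_val, Rec.res_val]
    group

theorem sum_single (M : ℕ) :
    (∑ i : Fin M, Pi.single i.succ 1 : Fin (M + 1) → ℕ) + Pi.single 0 1 = fun _ => 1 := by
  have e : ∑ i : Fin (M + 1), (Pi.single i 1 : Fin (M + 1) → ℕ) = fun _ => 1 := by
    funext j
    rw [Finset.sum_apply]
    simp [Pi.single_apply]
  rw [Fin.sum_univ_succ] at e
  rw [← e]
  exact add_comm _ _

end HRO

open HRO TXD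

theorem t_HRO (hhcm : S_HCM) : S_HRO := by
  intro k _ _ Γ _ ι _ _ ε M N hN φ hφ X
  obtain ⟨n, rfl⟩ : ∃ n, N = n + 1 := ⟨N - 1, by omega⟩
  unfold TG
  set θ : Rec Γ (Fin (M + 1)) →* Rec Γ (Fin (M + 1)) :=
    Rec.res (fun j : Fin (M + 1) => j + 1) with hθ
  set Θ : Matrix ι ι (MonoidAlgebra k (Rec Γ (Fin (M + 1)))) →+*
    Matrix ι ι (MonoidAlgebra k (Rec Γ (Fin (M + 1)))) :=
      (MonoidAlgebra.mapDomainRingHom k θ).mapMatrix with hΘ
  have htr : ∀ Z : Matrix ι ι (MonoidAlgebra k (Rec Γ (Fin (M + 1)))),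
      MonoidAlgebra.mapDomain θ (Matrix.trace Z) = Matrix.trace (Θ Z) := by
    intro Z
    change MonoidAlgebra.mapDomainRingHom k θ (Matrix.trace Z) = _
    simp only [Matrix.trace, Matrix.diag_apply, map_sum]
    rfl
  have hJ : ∀ A : Matrix ι ι (MonoidAlgebra k Γ),
      Θ (jm k (Fin (M + 1)) A) = jm k (Fin (M + 1)) A := by
    intro A
    ext1 a b
    change MonoidAlgebra.mapDomainRingHom k θ (MonoidAlgebra.mapDomainRingHom k Rec.inc (A a b)) =
      MonoidAlgebra.mapDomainRingHom k Rec.inc (A a b)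
    rw [← RingHom.comp_apply, ← MonoidAlgebra.mapDomainRingHom_comp]
    rfl
  have hw : ∀ v : Fin (M + 1), Θ (wm k ι (v + 1)) = wm k ι v := by
    intro v
    have h2 : θ (Rec.om (v + 1)) = Rec.om v :=
      Rec.res_om (Γ := Γ) (fun j : Fin (M + 1) => j + 1) (add_left_injective 1) v
    rw [hΘ, RingHom.mapMatrix_apply, wm, Matrix.diagonal_map (map_zero _)]
    unfold wm
    congr 1
    funext _
    rw [← h2]
    exact MonoidAlgebra.mapDomain_single
  set P : Fin (M + 1) → Matrix ι ι (MonoidAlgebra k (Rec Γ (Fin (M + 1)))) := fun i =>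
    jm k (Fin (M + 1)) (X i).a * wm k ι i * jm k (Fin (M + 1)) (X i).b with hP
  set Q : Matrix ι ι (MonoidAlgebra k (Rec Γ (Fin (M + 1)))) :=
    (List.ofFn fun i : Fin M => P i.succ).prod with hQ
  have hU : UG X = P 0 * Q := by
    change (List.ofFn P).prod = _
    rw [List.ofFn_succ, List.prod_cons]
  have hV : UG (fun j => X (j + 1)) = Θ (Q * P 0) := by
    have h1 : ∀ v : Fin (M + 1), jm k (Fin (M + 1)) (X (v + 1)).a * wm k ι v *
        jm k (Fin (M + 1)) (X (v + 1)).b = Θ (P (v + 1)) := by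
      intro v
      rw [hP]
      simp only [map_mul, hJ, hw]
    unfold UG
    simp only [h1]
    rw [List.ofFn_succ', List.concat_eq_append, List.prod_append, List.prod_singleton,
      Fin.last_add_one, map_mul Θ Q (P 0), hQ, map_list_prod, List.map_ofFn]
    congr 3
    funext i
    simp only [Function.comp_apply, Fin.coeSucc_eq_succ]
  rw [hV, hU, ← map_pow, ← htr, ← TXA.lin_comp]
  have hK1 : (Q * P 0) ^ (n + 1) = ((Q * P 0) ^ n * Q) * P 0 := by
    rw [pow_succ, mul_assoc]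
  have hK2 : (P 0 * Q) ^ (n + 1) = P 0 * ((Q * P 0) ^ n * Q) := by
    rw [pow_succ, ← mul_assoc, mul_pow_mul, mul_assoc]
  rw [hK1, hK2]
  have hPi : ∀ i, SpM (Ln (Pi.single i 1)) (P i) := by
    intro i
    have h := (fam_Ln (Γ := Γ) (V := Fin (M + 1))).mulM (fam_Ln.mulM
      (spM_jm (k := k) (A := (X i).a) (T := Ln 0) fun _ _ _ _ _ => rfl)
      (spM_diag (k := k) (ι := ι) (T := Ln (Pi.single i 1)) (μ := Rec.om i) ?_))
      (spM_jm (k := k) (A := (X i).b) (T := Ln 0) fun _ _ _ _ _ => rfl)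
    · rw [zero_add, add_zero] at h
      exact h
    · intro j
      rw [Rec.om_lst, Pi.single_apply]
      split_ifs <;> rfl
  have hQs : SpM (Ln (∑ i : Fin M, Pi.single i.succ 1)) Q :=
    fam_Ln.prod _ _ fun i => hPi i.succ
  have hKs := fam_Ln.mulM (fam_Ln.pow (fam_Ln.mulM hQs (hPi 0)) n) hQs
  refine hhcm k (Rec Γ (Fin (M + 1))) ι _ _ _ _ hKs (hPi 0) (fun μ => φ (θ μ))
    (fun μ => φ (rotR μ)) ?_
  intro κ hκ p hp
  have hp0 : (p.lst 0).length = 1 := by
    have := hp 0
    rwa [Pi.single_eq_same] at this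
  have hpj : ∀ j, j ≠ 0 → p.lst j = [] := by
    intro j hj
    have := hp j
    rw [Pi.single_eq_of_ne hj] at this
    exact List.length_eq_zero_iff.1 this
  beta_reduce
  rw [rec_rot p κ hp0 hpj, hφ]
  intro i
  have h1 := fam_Ln.mul _ _ _ _ hκ hp (i + 1)
  rw [add_assoc, sum_single] at h1
  rw [Rec.res_lst, h1]
  simp

end Pool.Agent.FJA
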