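import Pool.Agent.FJA.StW

/-!
# Module HSW: two equal consecutive vertices
-/

set_option autoImplicit false

open Matrix Pool.Agent.WhK Pool.Agent.Lib25

noncomputable section

namespace Pool.Agent.FJA

namespace HSW

theorem lin_comp (k : Type) [Field k] {M N : Type} (φ : N → ℚ) (f : M → N)
    (z : MonoidAlgebra k M) :
    lin k (fun μ => φ (f μ)) z = lin k φ (MonoidAlgebra.mapDomain f z) := by
  induction z using MonoidAlgebra.induction_linear with
  | zero => simp only [map_zero, MonoidAlgebra.mapDomain_zero]
  | add a b ha hb =>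
    rw [MonoidAlgebra.mapDomain_add, map_add, map_add, ha, hb]
  | single m r =>
    rw [MonoidAlgebra.mapDomain_single, lin_single, lin_single]

theorem prod_ofFn_pair {R : Type*} [Monoid R] : ∀ {M : ℕ} (j : Fin (M + 1))
    (f g : Fin (M + 2) → R), (∀ i, i ≠ j.castSucc → i ≠ j.succ → f i = g i) →
    f j.castSucc * f j.succ = g j.castSucc * g j.succ →
    (List.ofFn f).prod = (List.ofFn g).prod := by
  intro M
  induction M with
  | zero =>
    intro j f g _ h
    have hj : j = 0 := Fin.ext (by omega)
    subst hj
    rw [List.ofFn_succ, List.ofFn_succ, List.ofFn_succ, List.ofFn_succ]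
    simp only [List.prod_cons, List.ofFn_zero, List.prod_nil, mul_one]
    exact h
  | succ M ih =>
    intro j f g hne h
    induction j using Fin.cases with
    | zero =>
      rw [List.ofFn_succ, List.ofFn_succ (f := fun i => f i.succ), List.ofFn_succ (f := g),
        List.ofFn_succ (f := fun i => g i.succ)]
      simp only [List.prod_cons]
      rw [← mul_assoc, ← mul_assoc]
      have h0 : f 0 * f (Fin.succ 0) = g 0 * g (Fin.succ 0) := h
      rw [h0]
      congr 3
      funext i
      refine hne _ ?_ ?_
      · intro h1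
        have := congrArg Fin.val h1
        simp at this
      · intro h1
        have := congrArg Fin.val h1
        simp at this
    | succ j =>
      rw [List.ofFn_succ, List.ofFn_succ (f := g), List.prod_cons, List.prod_cons]
      have h0 : f 0 = g 0 := by
        refine hne _ ?_ ?_
        · intro h1
          have := congrArg Fin.val h1
          simp at this
        · intro h1
          have := congrArg Fin.val h1
          simp at this
      rw [h0]
      congr 1
      refine ih j (fun i => f i.succ) (fun i => g i.succ) ?_ ?_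
      · intro i h1 h2
        refine hne _ ?_ ?_
        · intro h3
          exact h1 (Fin.succ_injective _ h3)
        · intro h3
          exact h2 (Fin.succ_injective _ h3)
      · exact h

theorem om_comm {Γ : Type} [Group Γ] {V : Type} [DecidableEq V] {a b : V} (hab : a ≠ b) :
    (Rec.om a * Rec.om b : Rec Γ V) = Rec.om b * Rec.om a := by
  apply Rec.ext
  · funext i
    simp only [Rec.mul_lst, Rec.om_lst, Rec.om_val, one_mul]
    by_cases h1 : i = a
    · have h2 : i ≠ b := fun h => hab (h1.symm.trans h)
      simp [h1, hab]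
    · simp [h1]
  · rfl

theorem wm_comm (k : Type) [Field k] {Γ : Type} [Group Γ] (ι : Type) [Fintype ι] [DecidableEq ι]
    {V : Type} [DecidableEq V] {a b : V} (hab : a ≠ b) :
    (wm k ι a * wm k ι b : Matrix ι ι (MonoidAlgebra k (Rec Γ V))) = wm k ι b * wm k ι a := by
  unfold wm
  rw [Matrix.diagonal_mul_diagonal, Matrix.diagonal_mul_diagonal]
  congr 1
  funext _
  rw [MonoidAlgebra.single_mul_single, MonoidAlgebra.single_mul_single, om_comm hab]

end HSW

open HSW

theorem t_HSW : S_HSW := by
  intro k _ _ Γ _ ι _ _ ε M N φ j X hX h1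
  unfold TG
  rw [HSW.lin_comp]
  set sw : Equiv.Perm (Fin (M + 2)) := Equiv.swap j.castSucc j.succ with hsw
  set θ : Rec Γ (Fin (M + 2)) →* Rec Γ (Fin (M + 2)) := Rec.res sw with hθ
  set Θ : Matrix ι ι (MonoidAlgebra k (Rec Γ (Fin (M + 2)))) →+*
    Matrix ι ι (MonoidAlgebra k (Rec Γ (Fin (M + 2)))) :=
      (MonoidAlgebra.mapDomainRingHom k θ).mapMatrix with hΘ
  have htr : ∀ Z : Matrix ι ι (MonoidAlgebra k (Rec Γ (Fin (M + 2)))),
      MonoidAlgebra.mapDomain θ (Matrix.trace Z) = Matrix.trace (Θ Z) := by
    intro Z
    change MonoidAlgebra.mapDomainRingHom k θ (Matrix.trace Z) = _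
    simp only [Matrix.trace, Matrix.diag_apply, map_sum]
    rfl
  have hJ : ∀ A : Matrix ι ι (MonoidAlgebra k Γ),
      Θ (jm k (Fin (M + 2)) A) = jm k (Fin (M + 2)) A := by
    intro A
    ext1 a b
    change MonoidAlgebra.mapDomainRingHom k θ (MonoidAlgebra.mapDomainRingHom k Rec.inc (A a b)) =
      MonoidAlgebra.mapDomainRingHom k Rec.inc (A a b)
    rw [← RingHom.comp_apply, ← MonoidAlgebra.mapDomainRingHom_comp]
    rfl
  have hw : ∀ v : Fin (M + 2), Θ (wm k ι v) = wm k ι (sw v) := by
    intro v
    have h2 : θ (Rec.om v) = Rec.om (sw v) := by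
      have h3 := Rec.res_om (Γ := Γ) (sw : Fin (M + 2) → Fin (M + 2)) sw.injective (sw v)
      rw [hsw, Equiv.swap_apply_self] at h3
      exact h3
    rw [hΘ, RingHom.mapMatrix_apply, wm, Matrix.diagonal_map (map_zero _)]
    unfold wm
    congr 1
    funext _
    rw [← h2]
    exact MonoidAlgebra.mapDomain_single
  have hne : j.castSucc ≠ j.succ := by
    intro h
    have := congrArg Fin.val h
    simp at this
  have hU : Θ (UG X) = UG X := by
    unfold UG
    rw [map_list_prod, List.map_ofFn]
    refine prod_ofFn_pair j _ _ ?_ ?_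
    · intro i hi1 hi2
      simp only [Function.comp_apply, map_mul, hJ, hw]
      rw [hsw, Equiv.swap_apply_of_ne_of_ne hi1 hi2]
    · simp only [Function.comp_apply, map_mul, hJ, hw]
      rw [hsw, Equiv.swap_apply_left, Equiv.swap_apply_right, hX]
      have key : ∀ (u v : Matrix ι ι (MonoidAlgebra k (Rec Γ (Fin (M + 2))))),
          jm k (Fin (M + 2)) (X j.succ).a * u * jm k (Fin (M + 2)) (X j.succ).b *
            (jm k (Fin (M + 2)) (X j.succ).a * v * jm k (Fin (M + 2)) (X j.succ).b) =
          jm k (Fin (M + 2)) (X j.succ).a * (u * v) * jm k (Fin (M + 2)) (X j.succ).b := by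
        intro u v
        have h2 : jm k (Fin (M + 2)) (X j.succ).b * jm k (Fin (M + 2)) (X j.succ).a = 1 := by
          rw [← map_mul, h1, map_one]
        calc _ = jm k (Fin (M + 2)) (X j.succ).a * u * (jm k (Fin (M + 2)) (X j.succ).b *
              jm k (Fin (M + 2)) (X j.succ).a) * v * jm k (Fin (M + 2)) (X j.succ).b := by
              simp only [mul_assoc]
          _ = _ := by
              rw [h2, mul_one]
              simp only [mul_assoc]
      rw [key, key, wm_comm k ι hne.symm]
  have h2 := htr (UG X ^ N)
  rw [map_pow, hU] at h2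
  rw [h2]

end Pool.Agent.FJA
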