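import Pool.Agent.FJA.StW
import Pool.Agent.FJA.P_TXA
import Pool.Agent.FJA.P_TXD

/-!
# Module HTG: linearity and supports of the functionals `TG`
-/

set_option autoImplicit false

open Matrix

noncomputable section

namespace Pool.Agent.FJA

namespace HTG

open TXA TXD

section

variable {k : Type} [Field k] {Γ : Type} [Group Γ] {ι : Type} [Fintype ι] [DecidableEq ι]
  {ε : Matrix ι ι (MonoidAlgebra k Γ)}

theorem lin_sum_fun [CharZero k] {M : Type*} {I : Type} (s : Finset I) (c : I → ℚ) (φ : I → M → ℚ)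
    (z : MonoidAlgebra k M) :
    lin k (fun μ => ∑ i ∈ s, c i * φ i μ) z = ∑ i ∈ s, (c i : k) * lin k (φ i) z := by
  classical
  induction s using Finset.induction_on with
  | empty =>
    simp only [Finset.sum_empty]
    rw [lin_apply]
    refine Finset.sum_eq_zero fun μ _ => ?_
    beta_reduce
    rw [Rat.cast_zero, mul_zero]
  | insert a s ha ih =>
    rw [Finset.sum_insert ha, ← ih, ← lin_smul_fun, ← lin_add_fun]
    have e : (fun μ => ∑ i ∈ insert a s, c i * φ i μ) =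
        fun μ => c a * φ a μ + ∑ i ∈ s, c i * φ i μ := by
      funext μ
      exact Finset.sum_insert ha
    rw [e]

theorem fam_UG {m : ℕ} {I : Type*} [AddCommMonoid I] {T : I → Set (Rec Γ (Fin m))} (hT : Fam T)
    (X : Fin m → RPair ε) (f : Fin m → I) (h0 : ∀ i, Rec.om i ∈ T (f i))
    (h1 : ∀ i a b γ, ((X i).a a b).coeff γ ≠ 0 → Rec.inc γ ∈ T 0)
    (h2 : ∀ i a b γ, ((X i).b a b).coeff γ ≠ 0 → Rec.inc γ ∈ T 0) :
    SpM (T (∑ i, f i)) (UG X) := by
  have h := hT.prod (fun i => jm k (Fin m) (X i).a * wm k ι i * jm k (Fin m) (X i).b)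
    (fun i => 0 + f i + 0) fun i =>
      hT.mulM (hT.mulM (spM_jm (h1 i)) (spM_diag (h0 i))) (spM_jm (h2 i))
  have e : ∑ i, (0 + f i + 0) = ∑ i, f i :=
    Finset.sum_congr rfl fun i _ => by rw [zero_add, add_zero]
  rw [e] at h
  exact h

theorem spM_UG {m : ℕ} (X : Fin m → RPair ε) : SpM (Ln (fun _ => 1)) (UG X) := by
  have h := fam_UG (fam_Ln (Γ := Γ)) X (fun i => Pi.single i 1) ?_ ?_ ?_
  · have e : ∑ i : Fin m, (Pi.single i 1 : Fin m → ℕ) = fun _ => 1 := by
      funext j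
      rw [Finset.sum_apply]
      simp [Pi.single_apply]
    rw [e] at h
    exact h
  · intro i j
    rw [Rec.om_lst, Pi.single_apply]
    split_ifs <;> rfl
  · intro i a b γ _ j
    rfl
  · intro i a b γ _ j
    rfl

end

end HTG

open HTG TXD

theorem t_HTG : S_HTG := by
  refine ⟨?_, ?_, ?_⟩
  · intro k _ _ Γ _ ι _ _ ε M N X I s c φ
    exact lin_sum_fun s c φ _
  · intro k _ _ Γ _ ι _ _ ε M X
    classical
    refine ⟨Finset.univ.biUnion fun a => Finset.univ.biUnion fun b => (UG X a b).coeff.support,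
      ?_, ?_⟩
    · intro t ht i
      obtain ⟨a, -, ht⟩ := Finset.mem_biUnion.1 ht
      obtain ⟨b, -, ht⟩ := Finset.mem_biUnion.1 ht
      exact spM_UG X a b t (Finsupp.mem_support_iff.1 ht) i
    · intro a b μ hμ
      exact Finset.mem_biUnion.2 ⟨a, Finset.mem_univ a, Finset.mem_biUnion.2
        ⟨b, Finset.mem_univ b, Finsupp.mem_support_iff.2 hμ⟩⟩
  · intro k _ _ Γ _ ι _ _ ε M N X S φ φ' hS hφ
    have hF : Fam (fun n : ℕ => {μ : Rec Γ (Fin M) | μ ∈ S ∧ ∀ i, (μ.lst i).length = n}) := by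
      refine ⟨⟨S.one_mem, fun i => rfl⟩, ?_⟩
      rintro a b μ ν ⟨h1, h2⟩ ⟨h3, h4⟩
      refine ⟨S.mul_mem h1 h3, fun i => ?_⟩
      rw [Rec.mul_lst, List.length_append, List.length_map, h2 i, h4 i]
    have hU : SpM ((fun n : ℕ => {μ : Rec Γ (Fin M) | μ ∈ S ∧ ∀ i, (μ.lst i).length = n}) 1)
        (UG X) := fun a b μ hμ => ⟨hS a b μ hμ, fun i => spM_UG X a b μ hμ i⟩
    have hP := hF.pow hU N
    unfold TG
    refine lin_congr (sp_trace hP) fun μ hμ => ?_
    refine hφ μ hμ.1 fun i => ?_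
    have := hμ.2 i
    rwa [smul_eq_mul, mul_one] at this

end Pool.Agent.FJA
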