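import Pool.Agent.FJA.StW
import Pool.Agent.FJA.P_TRB

/-!
# Module HTX: admissible families
-/

set_option autoImplicit false

open Matrix Pool.Agent.WhK Pool.Agent.Lib25

noncomputable section

namespace Pool.Agent.FJA

namespace HTX

variable {Γ : Type} [Group Γ]

/-- An element of the closure of a set of records with lists of length one whose lists have length one belongs to
the set. -/
lemma mem_of_closure {L : ℕ} {T : Set (Rec Γ (Fin (L + 1)))} (hT : ∀ t ∈ T, ∀ i, (t.lst i).length = 1)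
    {μ : Rec Γ (Fin (L + 1))} (hμ : μ ∈ Submonoid.closure T) (h1 : ∀ i, (μ.lst i).length = 1) :
    μ ∈ T := by
  have key : ∃ n, (∀ i, (μ.lst i).length = n) ∧ (n = 0 → μ = 1) ∧ (n = 1 → μ ∈ T) := by
    clear h1
    refine Submonoid.closure_induction
      (motive := fun μ _ => ∃ n, (∀ i, (μ.lst i).length = n) ∧ (n = 0 → μ = 1) ∧ (n = 1 → μ ∈ T))
      ?_ ?_ ?_ hμ
    · intro x hx
      exact ⟨1, hT x hx, fun h => absurd h (by norm_num), fun _ => hx⟩
    · exact ⟨0, fun i => rfl, fun _ => rfl, fun h => absurd h (by norm_num)⟩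
    · rintro x y _ _ ⟨n, hn, hn0, hn1⟩ ⟨m, hm, hm0, hm1⟩
      refine ⟨n + m, ?_, ?_, ?_⟩
      · intro i
        rw [Rec.mul_lst, List.length_append, List.length_map, hn, hm]
      · intro h
        rw [hn0 (by omega), hm0 (by omega), one_mul]
      · intro h
        rcases Nat.eq_zero_or_pos n with h0 | h0
        · rw [hn0 h0, one_mul]
          exact hm1 (by omega)
        · rw [hm0 (by omega), mul_one]
          exact hn1 (by omega)
  obtain ⟨n, hn, _, hn1⟩ := key
  have := hn 0
  rw [h1 0] at this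
  exact hn1 this.symm

/-- The family at the class of `y0` is alternating and invariant. -/
lemma fam_altb (y0 : Γ) {M : ℕ} {f : (Fin M → Γ) → ℚ} (hf : CInv y0 f) (hb : AltB y0 f) (y : Γ) :
    AltB y (fun a => TRB.fam y0 f a y) := by
  by_cases hy : ∃ g : Γ, g * y0 * g⁻¹ = y
  · obtain ⟨g, rfl⟩ := hy
    constructor
    · intro σ a
      rw [TRB.fam_conj y0 hf, TRB.fam_conj y0 hf]
      exact hb.alt σ fun i => g⁻¹ * a i
    · intro t a
      rw [TRB.fam_conj y0 hf, TRB.fam_conj y0 hf, ← hb.bas t (fun i => g⁻¹ * a i)]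
      congr 1
      funext i
      rw [conj_zpow]
      simp only [mul_assoc, inv_mul_cancel_left]
  · constructor
    · intro σ a
      rw [TRB.fam_neg y0 f _ hy, TRB.fam_neg y0 f _ hy, mul_zero]
    · intro t a
      rw [TRB.fam_neg y0 f _ hy, TRB.fam_neg y0 f _ hy]

/-- `fst` of a sum -/
lemma fst_sum {M : ℕ} {I : Type} (s : Finset I) (F : I → (Fin M → Γ) → Γ → ℚ) (μ : Rec Γ (Fin M)) :
    fst (fun a y => ∑ i ∈ s, F i a y) μ = ∑ i ∈ s, fst (F i) μ := by
  unfold fst
  split_ifs with h
  · rfl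
  · simp

/-- `fst` of a sum of two families -/
lemma fst_add {M : ℕ} (F F' : (Fin M → Γ) → Γ → ℚ) (μ : Rec Γ (Fin M)) :
    fst (fun a y => F a y + F' a y) μ = fst F μ + fst F' μ := by
  unfold fst
  split_ifs with h
  · rfl
  · simp

section val

variable {k : Type} [Field k] [CharZero k] {ι : Type} [Fintype ι] [DecidableEq ι]
  {ε : Matrix ι ι (MonoidAlgebra k Γ)} {L : ℕ}

/-- The value on the chain `w`. -/
def val (w : (Fin L → RPair ε) →₀ ℚ) (φ : Rec Γ (Fin L) → ℚ) : k :=
  w.sum fun X q => (q : k) * TG φ 1 X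

lemma val_sum (hhtg : S_HTG) (w : (Fin L → RPair ε) →₀ ℚ) {I : Type} (s : Finset I)
    (φ : I → Rec Γ (Fin L) → ℚ) : val w (fun μ => ∑ i ∈ s, φ i μ) = ∑ i ∈ s, val w (φ i) := by
  unfold val Finsupp.sum
  rw [Finset.sum_comm]
  refine Finset.sum_congr rfl fun X _ => ?_
  have h := hhtg.1 k Γ ι ε L 1 X I s (fun _ => 1) φ
  simp only [one_mul, Rat.cast_one] at h
  beta_reduce
  rw [h, Finset.mul_sum]

lemma val_add (hhtg : S_HTG) (w : (Fin L → RPair ε) →₀ ℚ) (φ φ' : Rec Γ (Fin L) → ℚ) :
    val w (fun μ => φ μ + φ' μ) = val w φ + val w φ' := by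
  have h := val_sum hhtg w (Finset.univ : Finset Bool) (fun b => if b = true then φ else φ')
  simp only [Fintype.sum_bool, if_true] at h
  simpa using h

lemma val_zero (hhtg : S_HTG) (w : (Fin L → RPair ε) →₀ ℚ) {φ : Rec Γ (Fin L) → ℚ}
    (h : ∀ μ, φ μ = 0) : val w φ = 0 := by
  have e : φ = fun μ => ∑ i ∈ (∅ : Finset Unit), (fun _ _ => 0 : Unit → Rec Γ (Fin L) → ℚ) i μ := by
    funext μ
    rw [h μ, Finset.sum_empty]
  rw [e, val_sum hhtg, Finset.sum_empty]

/-- the value only depends on a finite set of endpoints -/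
lemma exists_E0 (hhtg : S_HTG) (w : (Fin (L + 1) → RPair ε) →₀ ℚ) :
    ∃ E0 : Finset Γ, ∀ φ φ' : Rec Γ (Fin (L + 1)) → ℚ,
      (∀ μ : Rec Γ (Fin (L + 1)), μ.val ∈ E0 → φ μ = φ' μ) → val w φ = val w φ' := by
  classical
  choose T hT1 hT2 using fun X : Fin (L + 1) → RPair ε => hhtg.2.1 k Γ ι ε (L + 1) X
  refine ⟨w.support.biUnion fun X => (T X).image Rec.val, fun φ φ' h => ?_⟩
  unfold val
  refine Finset.sum_congr rfl fun X hX => ?_
  beta_reduce
  rw [hhtg.2.2 k Γ ι ε (L + 1) 1 X (Submonoid.closure (T X : Set (Rec Γ (Fin (L + 1))))) φ φ'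
    (fun a b μ hμ => Submonoid.subset_closure (hT2 X a b μ hμ)) ?_]
  intro μ hμ h1
  refine h μ (Finset.mem_biUnion.2 ⟨X, hX, Finset.mem_image_of_mem _ ?_⟩)
  exact mem_of_closure (hT1 X) hμ h1

end val

end HTX

open HTX in
open Classical in
/-- HTX: admissible families. -/
theorem t_HTX (hhco : S_HCO) (hhcb : S_HCB) (hhtg : S_HTG) : S_HTX := by
  intro k _ _ Γ _ ι _ _ ε M F hinv hadm w hw hrep
  obtain ⟨E0, hE0⟩ := exists_E0 hhtg w
  let rp : ConjClasses Γ → Γ := fun C => (ConjClasses.exists_rep C).choose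
  have hrp : ∀ C, ConjClasses.mk (rp C) = C := fun C => (ConjClasses.exists_rep C).choose_spec
  choose f' E hf hE hfb hEb hc hFE had using fun C : ConjClasses Γ => hadm (rp C)
  have hcj : ∀ (C : ConjClasses Γ) (y : Γ), ConjClasses.mk y = C ↔
      ∃ g : Γ, g * rp C * g⁻¹ = y := by
    intro C y
    constructor
    · intro h
      rw [← hrp C] at h
      exact isConj_iff.1 (ConjClasses.mk_eq_mk_iff_isConj.1 h).symm
    · intro h
      rw [← hrp C]
      exact (ConjClasses.mk_eq_mk_iff_isConj.2 (isConj_iff.2 h)).symm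
  let s : Finset (ConjClasses Γ) := E0.image fun y => ConjClasses.mk y
  let T1 : ConjClasses Γ → (Fin (M + 2) → Γ) → Γ → ℚ := fun C a y => TRB.fam (rp C) (f' C) a y
  let T2 : ConjClasses Γ → (Fin (M + 2) → Γ) → Γ → ℚ := fun C a y =>
    cobE (fun b => TRB.fam (rp C) (E C) b y) a
  have hTneg : ∀ (C : ConjClasses Γ) (a : Fin (M + 2) → Γ) (y : Γ),
      ConjClasses.mk y ≠ C → T1 C a y + T2 C a y = 0 := by
    intro C a y hy
    have h : ¬ ∃ g : Γ, g * rp C * g⁻¹ = y := fun h => hy ((hcj C y).2 h)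
    simp only [T1, T2, TRB.fam_neg (rp C) (f' C) a h, TRB.cob_fam_neg (rp C) (E C) a h, add_zero]
  have hTpos : ∀ (a : Fin (M + 2) → Γ) (y : Γ),
      T1 (ConjClasses.mk y) a y + T2 (ConjClasses.mk y) a y = F a y := by
    intro a y
    obtain ⟨g, hg⟩ := (hcj (ConjClasses.mk y) y).1 rfl
    have e1 : TRB.fam (rp (ConjClasses.mk y)) (f' (ConjClasses.mk y)) a y =
        f' (ConjClasses.mk y) (fun i => g⁻¹ * a i) := by
      have h := TRB.fam_conj _ (hf (ConjClasses.mk y)) a g
      rw [hg] at h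
      exact h
    have e2 : cobE (fun b => TRB.fam (rp (ConjClasses.mk y)) (E (ConjClasses.mk y)) b y) a =
        cobE (E (ConjClasses.mk y)) (fun i => g⁻¹ * a i) := by
      rw [← TRB.cob_fam _ (hE (ConjClasses.mk y)) a g, hg]
    have e3 : F a y = F (fun i => g⁻¹ * a i) (rp (ConjClasses.mk y)) := by
      rw [← hinv g (fun i => g⁻¹ * a i) (rp (ConjClasses.mk y)), hg]
      congr 1
      funext i
      rw [mul_inv_cancel_left]
    show TRB.fam (rp (ConjClasses.mk y)) (f' (ConjClasses.mk y)) a y +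
      cobE (fun b => TRB.fam (rp (ConjClasses.mk y)) (E (ConjClasses.mk y)) b y) a = F a y
    rw [e1, e2, e3]
    exact (hFE (ConjClasses.mk y) _).symm
  have key : val w (fst F) = ∑ C ∈ s, val w (fst fun a y => T1 C a y + T2 C a y) := by
    rw [← val_sum hhtg w s fun C => fst fun a y => T1 C a y + T2 C a y]
    refine hE0 _ _ fun μ hμ => ?_
    have e : (fst F μ : ℚ) = fst (fun a y => ∑ C ∈ s, (T1 C a y + T2 C a y)) μ := by
      have hmem : ConjClasses.mk μ.val ∈ s := Finset.mem_image_of_mem _ hμ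
      have h1 : ∀ a, F a μ.val = ∑ C ∈ s, (T1 C a μ.val + T2 C a μ.val) := by
        intro a
        rw [Finset.sum_eq_single_of_mem _ hmem fun C _ hC => hTneg C a μ.val (fun h => hC h.symm)]
        exact (hTpos a μ.val).symm
      unfold fst
      split_ifs with h
      · exact h1 _
      · rfl
    rw [e]
    exact fst_sum s (fun C a y => T1 C a y + T2 C a y) μ
  have hzero : ∀ C ∈ s, val w (fst fun a y => T1 C a y + T2 C a y) = 0 := by
    intro C _
    have e0 : (fst fun a y => T1 C a y + T2 C a y) = fun μ => fst (T1 C) μ + fst (T2 C) μ := by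
      funext μ
      exact fst_add (T1 C) (T2 C) μ
    rw [e0, val_add hhtg]
    have e2 : val w (fst (T2 C)) = 0 :=
      hhcb k Γ ι ε M (TRB.fam (rp C) (E C)) (fun g a y => TRB.fam_inv (rp C) (hE C) g a y)
        (fun y => fam_altb (rp C) (hE C) (hEb C) y) w hw
    have e1 : val w (fst (T1 C)) = 0 := by
      rcases had C with h0 | hp
      · refine val_zero hhtg w fun μ => ?_
        have h1 : ∀ a y, T1 C a y = 0 := by
          intro a y
          rcases TRB.fam_val (rp C) (f' C) a y with h1 | ⟨b, hb⟩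
          · exact h1
          · show TRB.fam (rp C) (f' C) a y = 0
            rw [hb, h0]
            rfl
        unfold fst
        split_ifs with h
        · exact h1 _ _
        · rfl
      · have hF : FamY (T1 C) (rp C) := by
          refine ⟨fun g a y => TRB.fam_inv (rp C) (hf C) g a y,
            fun a y => TRB.fam_coc (rp C) (hf C) (hc C) a y,
            fun y => fam_altb (rp C) (hf C) (hfb C) y, ?_, ?_⟩
          · intro a y h
            exact (isConj_iff.2 (TRB.fam_ne h)).symm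
          · intro V
            refine (hp V).mono ?_
            rintro p ⟨hpp, h1, h2⟩
            refine ⟨hpp, fun a y => ?_, h2⟩
            show ¬ p ∣ (TRB.fam (rp C) (f' C) a y).den
            rcases TRB.fam_val (rp C) (f' C) a y with h0 | ⟨b, hb⟩
            · rw [h0]
              simpa using hpp.one_lt.ne'
            · rw [hb]
              exact h1 b
        exact (hhco k Γ ι ε M (T1 C) (rp C) hF w hw).2 hrep
    rw [e1, e2, add_zero]
  exact key.trans (Finset.sum_eq_zero hzero)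

end Pool.Agent.FJA
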