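import Pool.Agent.FJA.StW
import Pool.Agent.FJA.P_TXA

/-!
# Module HUN: cyclic cycles of the general linear groups
-/

set_option autoImplicit false

open Matrix Pool.Agent.WhK Pool.Agent.Lib25

noncomputable section

namespace Pool.Agent.FJA

namespace HUN

/-- `XiT` for a smaller set of generators. -/
theorem xi_mono {Γ : Type} [Group Γ] {L N : ℕ} {T T' : Finset (Rec Γ (Fin L))}
    {ξ : (Fin L → List Γ) → Γ → ℚ} (h : T ⊆ T') (hξ : XiT N T' ξ) : XiT N T ξ :=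
  ⟨hξ.inv, hξ.alt, fun μ hμ => hξ.rot μ (Submonoid.closure_mono (Finset.coe_subset.2 h) hμ)⟩

section

variable {k : Type} [Field k] [CharZero k] {Γ : Type} [Group Γ] {ι : Type} [Fintype ι] [DecidableEq ι]

/-- The functional of `φ` on the chains of invertible matrices. -/
def LG {L : ℕ} (φ : Rec Γ (Fin L) → ℚ) (N : ℕ) :
    ((Fin L → (Matrix ι ι (MonoidAlgebra k Γ))ˣ) →₀ ℚ) →ₗ[ℚ] k :=
  Finsupp.linearCombination ℚ fun X => TG φ N fun j => pU (X j)

theorem LG_single {L : ℕ} (φ : Rec Γ (Fin L) → ℚ) (N : ℕ)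
    (X : Fin L → (Matrix ι ι (MonoidAlgebra k Γ))ˣ) (q : ℚ) :
    LG φ N (Finsupp.single X q) = (q : k) * TG φ N fun j => pU (X j) := by
  unfold LG
  rw [Finsupp.linearCombination_single, Algebra.smul_def]
  rfl

/-- The functionals vanish on the degenerate chains of a group. -/
theorem LG_hdeg (hhtg : S_HTG) {M N : ℕ} {T : Finset (Rec Γ (Fin (M + 1)))}
    {ξ : (Fin (M + 1) → List Γ) → Γ → ℚ} (hξ : XiT N T ξ) :
    ∀ x ∈ hdeg ℚ ((Matrix ι ι (MonoidAlgebra k Γ))ˣ) M, LG (lf ξ) N x = (0 : k) := by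
  classical
  obtain ⟨φ, hφ⟩ : ∃ φ : Rec Γ (Fin (M + 1)) → ℚ,
      φ = fun μ => if ∀ i, (μ.lst i).length = N then lf ξ μ else 0 := ⟨_, rfl⟩
  have hcj : CjInv φ := by
    intro γ μ
    rw [hφ]
    have e1 : (Rec.inc γ * μ : Rec Γ (Fin (M + 1))).lst = fun i => (μ.lst i).map (γ * ·) := by
      funext i
      simp
    have e2 : (μ * Rec.inc γ : Rec Γ (Fin (M + 1))).lst = μ.lst := by
      funext i
      simp
    have e3 : (Rec.inc γ * μ : Rec Γ (Fin (M + 1))).val = γ * (μ.val * γ) * γ⁻¹ := by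
      rw [Rec.mul_val, Rec.inc_val]
      group
    have e4 : (μ * Rec.inc γ : Rec Γ (Fin (M + 1))).val = μ.val * γ := by
      rw [Rec.mul_val, Rec.inc_val]
    have e5 : (∀ i, ((Rec.inc γ * μ : Rec Γ (Fin (M + 1))).lst i).length = N) ↔
        ∀ i, (μ.lst i).length = N := by
      rw [e1]
      simp only [List.length_map]
    have e6 : (∀ i, ((μ * Rec.inc γ : Rec Γ (Fin (M + 1))).lst i).length = N) ↔
        ∀ i, (μ.lst i).length = N := by
      rw [e2]
    change (if ∀ i, ((Rec.inc γ * μ : Rec Γ (Fin (M + 1))).lst i).length = N then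
      lf ξ (Rec.inc γ * μ) else 0) = if ∀ i, ((μ * Rec.inc γ : Rec Γ (Fin (M + 1))).lst i).length = N then
      lf ξ (μ * Rec.inc γ) else 0
    by_cases h : ∀ i, (μ.lst i).length = N
    · rw [if_pos (e5.2 h), if_pos (e6.2 h)]
      unfold lf
      rw [e1, e2, e3, e4]
      exact hξ.inv γ μ.lst (μ.val * γ) h
    · rw [if_neg (fun h' => h (e5.1 h')), if_neg (fun h' => h (e6.1 h'))]
  have hTG : ∀ X : Fin (M + 1) → (Matrix ι ι (MonoidAlgebra k Γ))ˣ,
      TG (lf ξ) N (fun j => pU (X j)) = TX φ N X := by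
    intro X
    have h1 : TG φ N (fun j => pU (X j)) = TX φ N X := rfl
    rw [← h1]
    refine hhtg.2.2 k Γ ι 1 (M + 1) N (fun j => pU (X j)) ⊤ _ _ (fun _ _ _ _ => Submonoid.mem_top _) ?_
    intro μ _ hμ
    rw [hφ]
    exact (if_pos hμ).symm
  intro x hx
  unfold hdeg at hx
  refine Submodule.span_induction (p := fun x _ => LG (lf ξ) N x = (0 : k)) ?_ ?_ ?_ ?_ hx
  · rintro x ⟨g, Y, rfl⟩
    rw [map_sub, LG_single, LG_single, hTG, hTG, t_TXinv k Γ ι (M + 1) N φ hcj g Y, sub_self]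
  · exact map_zero _
  · intro x y _ _ hx hy
    rw [map_add, hx, hy, add_zero]
  · intro a x _ hx
    rw [map_smul, hx, smul_zero]

/-- The functionals vanish on the chains of `cdg`. -/
theorem LG_cdg (hhki : S_HKI) (hhtg : S_HTG) {M : ℕ} (hM : 1 ≤ M) :
    ∀ x ∈ cdg ((Matrix ι ι (MonoidAlgebra k Γ))ˣ) M,
      ∃ T : Finset (Rec Γ (Fin (M + 1))), (∀ t ∈ T, ∀ i, (t.lst i).length = 1) ∧
        ∀ N : ℕ, 0 < N → ∀ ξ : (Fin (M + 1) → List Γ) → Γ → ℚ, XiT N T ξ →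
          LG (lf ξ) N x = (0 : k) := by
  classical
  intro x hx
  unfold cdg at hx
  refine Submodule.span_induction (p := fun x _ =>
      ∃ T : Finset (Rec Γ (Fin (M + 1))), (∀ t ∈ T, ∀ i, (t.lst i).length = 1) ∧
        ∀ N : ℕ, 0 < N → ∀ ξ : (Fin (M + 1) → List Γ) → Γ → ℚ, XiT N T ξ →
          LG (lf ξ) N x = (0 : k)) ?_ ?_ ?_ ?_ hx
  · rintro x (⟨X, j, hj, rfl⟩ | ⟨X, rfl⟩)
    · obtain ⟨T, hT1, hT2⟩ := hhtg.2.1 k Γ ι 1 (M + 1) (fun j => pU (X j))
      refine ⟨T, hT1, fun N hN ξ hξ => ?_⟩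
      rw [LG_single]
      obtain ⟨M', rfl⟩ : ∃ M', M = M' + 1 := ⟨M - 1, by omega⟩
      have hinv : ∀ A : (Matrix ι ι (MonoidAlgebra k Γ))ˣ, (pU A).b * (pU A).a = 1 :=
        fun A => A.inv_mul
      have h0 : TG (lf ξ) N (fun j => pU (X j)) = (0 : k) := by
        rcases Fin.eq_castSucc_or_eq_last j with ⟨j', rfl⟩ | rfl
        · refine (hhki k Γ ι 1).2.1 M' N T ξ hξ (fun j => pU (X j)) j' ?_ (hinv _)
          have h1 : j'.castSucc + 1 = j'.succ := Fin.coeSucc_eq_succ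
          rw [h1] at hj
          exact congrArg pU hj
        · refine (hhki k Γ ι 1).2.2 M' N T ξ hN hξ (fun j => pU (X j)) hT2 ?_ (hinv _)
          have h1 : Fin.last (M' + 1) + 1 = 0 := Fin.last_add_one _
          rw [h1] at hj
          exact congrArg pU hj
      rw [h0, mul_zero]
    · obtain ⟨T, hT1, hT2⟩ := hhtg.2.1 k Γ ι 1 (M + 1) (fun j => pU (X j))
      refine ⟨T, hT1, fun N hN ξ hξ => ?_⟩
      rw [map_sub, LG_single, LG_single]
      have h1 := (hhki k Γ ι 1).1 M N T ξ hN hξ (fun j => pU (X j)) hT2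
      rw [h1]
      push_cast
      ring
  · exact ⟨∅, fun t ht => absurd ht (Finset.notMem_empty t), fun N _ ξ _ => map_zero _⟩
  · rintro x y _ _ ⟨T, hT1, hT2⟩ ⟨T', hT1', hT2'⟩
    refine ⟨T ∪ T', fun t ht => ?_, fun N hN ξ hξ => ?_⟩
    · rcases Finset.mem_union.1 ht with h | h
      · exact hT1 t h
      · exact hT1' t h
    · rw [map_add, hT2 N hN ξ (xi_mono Finset.subset_union_left hξ),
        hT2' N hN ξ (xi_mono Finset.subset_union_right hξ), add_zero]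
  · rintro a x _ ⟨T, hT1, hT2⟩
    refine ⟨T, hT1, fun N hN ξ hξ => ?_⟩
    rw [map_smul, hT2 N hN ξ hξ, smul_zero]

end

end HUN

open HUN

/-- MODULE HUN -/
theorem t_HUN (hhki : S_HKI) (hhtg : S_HTG) : S_HUN := by
  classical
  intro k _ _ Γ _ ι _ _ M hM w hw
  obtain ⟨h, hh, c, hc, hhc⟩ := Submodule.mem_sup.1 hw
  obtain ⟨T, hT1, hT2⟩ := LG_cdg hhki hhtg hM c hc
  refine ⟨T, hT1, fun N hN ξ hξ => ?_⟩
  have h1 : LG (lf ξ) N (bd ℚ ((Matrix ι ι (MonoidAlgebra k Γ))ˣ) (M + 1) w) = (0 : k) := by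
    rw [← hhc, map_add, LG_hdeg hhtg hξ h hh, hT2 N hN ξ hξ, add_zero]
  rw [Finsupp.sum_mapDomain_index (fun _ => by rw [Rat.cast_zero, zero_mul])
    (fun _ _ _ => by rw [Rat.cast_add, add_mul])]
  unfold bd at h1
  rw [Finsupp.linearCombination_apply, Finsupp.sum, map_sum] at h1
  rw [Finsupp.sum, ← h1]
  refine Finset.sum_congr rfl fun X _ => ?_
  rw [map_smul, map_sum, Algebra.smul_def]
  congr 1
  refine Finset.sum_congr rfl fun i _ => ?_
  rw [LG_single]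
  push_cast
  rfl

end Pool.Agent.FJA
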