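import Pool.Agent.FJA.StW

/-!
# The higher components of the Chern character: module HXI, the function `ξ`
-/

set_option autoImplicit false

open Matrix Pool.Agent.WhK Pool.Agent.Lib25

noncomputable section

namespace Pool.Agent.FJA

namespace HXI

variable {α : Type} {M : ℕ}

/-- the antisymmetrization of a function -/
def asym (h : (Fin M → α) → ℚ) (Y : Fin M → α) : ℚ :=
  ((M.factorial : ℚ))⁻¹ * ∑ π : Equiv.Perm (Fin M), ((Equiv.Perm.sign π : ℤ) : ℚ) *
    h (fun j => Y (π j))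

theorem sign_sq (σ : Equiv.Perm (Fin M)) :
    ((Equiv.Perm.sign σ : ℤ) : ℚ) * ((Equiv.Perm.sign σ : ℤ) : ℚ) = 1 := by
  have h : ((Equiv.Perm.sign σ : ℤ)) * ((Equiv.Perm.sign σ : ℤ)) = 1 := by
    rw [← Units.val_mul, Int.units_mul_self, Units.val_one]
  exact_mod_cast h

theorem asym_alt (h : (Fin M → α) → ℚ) (σ : Equiv.Perm (Fin M)) (Y : Fin M → α) :
    asym h (fun j => Y (σ j)) = ((Equiv.Perm.sign σ : ℤ) : ℚ) * asym h Y := by
  unfold asym
  rw [mul_left_comm]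
  congr 1
  rw [Finset.mul_sum]
  refine Fintype.sum_equiv (Equiv.mulLeft σ) _ _ fun π => ?_
  have e1 : ((Equiv.Perm.sign (σ * π) : ℤ) : ℚ) =
      ((Equiv.Perm.sign σ : ℤ) : ℚ) * ((Equiv.Perm.sign π : ℤ) : ℚ) := by
    rw [Equiv.Perm.sign_mul]
    push_cast
    rfl
  change ((Equiv.Perm.sign π : ℤ) : ℚ) * h (fun j => Y (σ (π j))) =
    ((Equiv.Perm.sign σ : ℤ) : ℚ) * (((Equiv.Perm.sign (σ * π) : ℤ) : ℚ) *
      h (fun j => Y ((σ * π) j)))
  rw [e1]
  simp only [Equiv.Perm.mul_apply]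
  rw [← mul_assoc, ← mul_assoc, sign_sq, one_mul]

theorem asym_congr (h h' : (Fin M → α) → ℚ) (Y Y' : Fin M → α)
    (H : ∀ π : Equiv.Perm (Fin M), h (fun j => Y (π j)) = h' (fun j => Y' (π j))) :
    asym h Y = asym h' Y' := by
  unfold asym
  congr 1
  exact Finset.sum_congr rfl fun π _ => by rw [H π]

/-- the average over the positions is alternating -/
theorem sum_alt {β γ : Type} [Fintype γ] {L : ℕ} (f : (Fin L → β) → ℚ) (v : α → γ → β)
    (hf : ∀ (σ : Equiv.Perm (Fin L)) (a : Fin L → β),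
      f (fun j => a (σ j)) = ((Equiv.Perm.sign σ : ℤ) : ℚ) * f a)
    (σ : Equiv.Perm (Fin L)) (Y : Fin L → α) :
    ∑ t : Fin L → γ, f (fun j => v (Y (σ j)) (t j)) =
      ((Equiv.Perm.sign σ : ℤ) : ℚ) * ∑ t : Fin L → γ, f (fun j => v (Y j) (t j)) := by
  rw [Finset.mul_sum]
  refine Fintype.sum_equiv (Equiv.arrowCongr σ (Equiv.refl γ)) _ _ fun t => ?_
  have h1 := hf σ (fun j => v (Y j) (t (σ.symm j)))
  simp only [Equiv.symm_apply_apply] at h1
  rw [h1]
  rfl

end HXI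

open HXI in
theorem t_HXI (hhpr : S_HPR) (hhal : S_HAL) (hhgd : S_HGD) : S_HXI := by
  intro Γ _ M F y0 hF s hs T L hL ℓ hℓ hu
  obtain ⟨h, ha, hb, hc, hd⟩ := hhpr Γ M ℓ F s hℓ.pos hF.inv hF.coc
    (fun t a y => (hF.altb y).bas t a) hs
  refine ⟨fun Y y => asym (fun Z => h Z y) Y, ⟨?_, ?_, ?_⟩, ?_⟩
  · intro γ Y y hY
    exact asym_congr _ _ _ _ fun π => hb γ (fun j => Y (π j)) y fun i => hY (π i)
  · intro σ Y y
    exact asym_alt _ σ Y
  · intro μ hμ hlen i
    refine asym_congr _ _ _ _ fun π => ?_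
    change h (fun j => Function.update μ.lst i (rotL μ.val (μ.lst i)) (π j)) μ.val =
      h (fun j => μ.lst (π j)) μ.val
    by_cases h0 : ∀ a, F a μ.val = 0
    · rw [hd μ.val h0, hd μ.val h0]
    · push Not at h0
      obtain ⟨a, ha0⟩ := h0
      have hcj := hF.supp a μ.val ha0
      have hne : ∀ i, μ.lst i ≠ [] := fun i hi => by
        have := hlen i
        rw [hi, List.length_nil] at this
        exact hℓ.ne_zero this.symm
      have hgood : ∀ i, GoodQ (μ.lst i) μ.val := fun i =>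
        hhgd Γ y0 ℓ hℓ L hu (μ.lst i) μ.val (hlen i) hcj (hL μ hμ hne i)
      have h1 := hc (fun j => μ.lst (π j)) μ.val (fun j => hlen (π j)) (π.symm i) (hgood _)
      rw [← h1]
      congr 1
      have h2 := Function.update_comp_equiv μ.lst π i (rotL μ.val (μ.lst i))
      simp only [Equiv.apply_symm_apply]
      exact h2
  · intro Y y
    refine hhal (List Γ) M (fun Y => F (fun j => s (Y j) y) y -
      ((ℓ : ℚ) ^ (M + 1))⁻¹ * ∑ t : Fin (M + 1) → Fin ℓ, F (fun j => (Y j).getD (t j) 1) y)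
      (fun Y => h Y y) ?_ (fun Y => ha Y y) Y
    intro σ Y
    have h1 := (hF.altb y).alt σ (fun j => s (Y j) y)
    have h2 := sum_alt (γ := Fin ℓ) (fun a => F a y) (fun (Z : List Γ) (t : Fin ℓ) => Z.getD t 1)
      (hF.altb y).alt σ Y
    simp only at h1 h2 ⊢
    rw [h1, h2]
    ring

end Pool.Agent.FJA
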