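import Pool.Agent.FJA.P_LJK
import Pool.Agent.FJA.P_SPC
import Pool.Agent.FJA.P_LCJ
import Pool.Agent.FJA.P_HEX
import Pool.Agent.FJA.P_HCM
import Pool.Agent.FJA.P_HTG
import Pool.Agent.FJA.P_HFA
import Pool.Agent.FJA.P_HRO
import Pool.Agent.FJA.P_HSW
import Pool.Agent.FJA.P_HLX
import Pool.Agent.FJA.P_HEV
import Pool.Agent.FJA.P_HDE
import Pool.Agent.FJA.P_HIN
import Pool.Agent.FJA.P_HCP
import Pool.Agent.FJA.P_HFD
import Pool.Agent.FJA.P_HPO
import Pool.Agent.FJA.P_HSE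
import Pool.Agent.FJA.P_HGD
import Pool.Agent.FJA.P_HPR
import Pool.Agent.FJA.P_HAL
import Pool.Agent.FJA.P_HXI
import Pool.Agent.FJA.P_HKI
import Pool.Agent.FJA.P_HUN
import Pool.Agent.FJA.P_HID
import Pool.Agent.FJA.P_HCO
import Pool.Agent.FJA.P_HCB
import Pool.Agent.FJA.P_HTX
import Pool.Agent.FJA.P_HBB
import Pool.Agent.FJA.P_HB2
import Pool.Agent.FJA.P_HLE
import Pool.Agent.FJA.P_HNL
import Pool.Agent.FJA.P_HFG
import Pool.Agent.FJA.P_HNA
import Pool.Agent.FJA.P_HTH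
import Pool.Agent.FJA.P_HTE
import Pool.Agent.FJA.P_HLI

/-!
# The higher components of the Chern character: the theorems of the modules, composed
-/

set_option autoImplicit false

noncomputable section

namespace Pool.Agent.FJA

theorem h_HRO : S_HRO := t_HRO t_HCM
theorem h_HEV : S_HEV := t_HEV t_HEX t_HLX t_HTG
theorem h_HPO : S_HPO := t_HPO t_HFD
theorem h_HXI : S_HXI := t_HXI t_HPR t_HAL t_HGD
theorem h_HKI : S_HKI := t_HKI h_HRO t_HSW t_HTG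
theorem h_HUN : S_HUN := t_HUN h_HKI t_HTG
theorem h_HID : S_HID := t_HID h_HKI t_HTG
theorem h_HCO : S_HCO := t_HCO t_HSE h_HXI t_HTG t_HFA h_HEV t_HIN t_HCP h_HPO
theorem h_HCB : S_HCB := t_HCB t_HTG t_HFA
theorem h_HTX : S_HTX := t_HTX h_HCO h_HCB t_HTG
theorem h_HLE : S_HLE := t_HLE t_HBB t_HB2
theorem h_HTH : S_HTH := t_HTH t_HFG t_HNA t_HNL h_HUN h_HTX t_HDE
theorem h_HTE : S_HTE := t_HTE t_HFG t_HNA h_HID h_HTX t_HDE
theorem h_HLI : S_HLI := t_HLI (t_LJK t_SPC t_LCJ)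

end Pool.Agent.FJA
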