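import Pool.Agent.FJA.StX
import Pool.Agent.FJA.P_TXA
import Pool.Agent.FJA.P_TXD
import Pool.Agent.FJA.P_BND
import Pool.Agent.FJA.P_WON
import Pool.Agent.FJA.P_SUP
import Pool.Agent.FJA.P_DEN

/-!
# The Dennis trace of group algebras over fields: module DZB   (helper37)

The functional `DZ`.
-/

set_option autoImplicit false

open Matrix Pool.Agent.WhK Pool.Agent.Lib25

noncomputable section

namespace Pool.Agent.FJA

namespace DZB

theorem lin_congr {k : Type} [Field k] {M : Type} (φ φ' : M → ℚ) (x : MonoidAlgebra k M)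
    (h : ∀ μ, x.coeff μ ≠ 0 → φ μ = φ' μ) : lin k φ x = lin k φ' x := by
  rw [lin_apply, lin_apply]
  refine Finsupp.sum_congr fun μ hμ => ?_
  rw [h μ (Finsupp.mem_support_iff.1 hμ)]

theorem TX_congr {k : Type} [Field k] [CharZero k] {Γ : Type} [Group Γ] {ι : Type} [Fintype ι]
    [DecidableEq ι] {M : ℕ} (φ φ' : Rec Γ (Fin M) → ℚ)
    (X : Fin M → (Matrix ι ι (MonoidAlgebra k Γ))ˣ)
    (h : ∀ a b μ, (UX X a b).coeff μ ≠ 0 → φ μ = φ' μ) : TX φ 1 X = TX φ' 1 X := by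
  unfold TX
  rw [pow_one, Matrix.trace, map_sum, map_sum]
  exact Finset.sum_congr rfl fun a _ => lin_congr φ φ' _ (h a a)

theorem fst_congr {Γ : Type} [Group Γ] {M : ℕ} (F F' : (Fin M → Γ) → Γ → ℚ) (μ : Rec Γ (Fin M))
    (h : ∀ a, F a μ.val = F' a μ.val) : fst F μ = fst F' μ := by
  by_cases hl : ∀ i, μ.lst i ≠ []
  · rw [WON.fst_pos _ _ hl, WON.fst_pos _ _ hl, h]
  · rw [WON.fst_neg _ _ hl, WON.fst_neg _ _ hl]

theorem fst_sum {Γ : Type} [Group Γ] {M : ℕ} {I : Type} (J : Finset I) (c : I → ℚ)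
    (F : I → (Fin M → Γ) → Γ → ℚ) (μ : Rec Γ (Fin M)) :
    fst (fun a y => ∑ i ∈ J, c i * F i a y) μ = ∑ i ∈ J, c i * fst (F i) μ := by
  by_cases hl : ∀ i, μ.lst i ≠ []
  · rw [WON.fst_pos _ _ hl]
    exact Finset.sum_congr rfl fun i _ => by rw [WON.fst_pos _ _ hl]
  · rw [WON.fst_neg _ _ hl]
    symm
    refine Finset.sum_eq_zero fun i _ => ?_
    rw [WON.fst_neg _ _ hl, mul_zero]

theorem TX_lin {k : Type} [Field k] [CharZero k] {Γ : Type} [Group Γ] {ι : Type} [Fintype ι]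
    [DecidableEq ι] {M : ℕ} (N : ℕ) {I : Type} (J : Finset I) (c : I → ℚ)
    (φ : I → Rec Γ (Fin M) → ℚ) (X : Fin M → (Matrix ι ι (MonoidAlgebra k Γ))ˣ) :
    TX (fun μ => ∑ i ∈ J, c i * φ i μ) N X = ∑ i ∈ J, (c i : k) * TX (φ i) N X := by
  classical
  induction J using Finset.induction_on with
  | empty =>
    have h := (t_TXlin k Γ ι M N X).2 0 (fun _ => 0)
    simp only [Finset.sum_empty]
    simp only [zero_mul, Rat.cast_zero] at h
    exact h
  | insert a S ha ih =>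
    simp only [Finset.sum_insert ha]
    rw [(t_TXlin k Γ ι M N X).1 (fun μ => c a * φ a μ) (fun μ => ∑ i ∈ S, c i * φ i μ), ih,
      (t_TXlin k Γ ι M N X).2 (c a) (φ a)]

/-- The functional of an invariant function vanishes on the degenerate chains. -/
theorem sum_faces {k : Type} [Field k] [CharZero k] {G : Type} [Group G] {n r : ℕ}
    (η : Rec G (Fin (n + 1)) → ℚ) (hη : CjInv η) (N : ℕ)
    (z : (Fin (n + 2) → (Matrix (Fin r) (Fin r) (MonoidAlgebra k G))ˣ) →₀ ℚ)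
    (hz : z ∈ cyc ℚ ((Matrix (Fin r) (Fin r) (MonoidAlgebra k G))ˣ) (n + 1)) :
    (z.sum fun X q => (q : k) * ∑ i : Fin (n + 2), (-1 : k) ^ (i : ℕ) *
      TX η N (fun t => X (i.succAbove t))) = 0 := by
  classical
  obtain ⟨Λ, hΛ⟩ : ∃ Λ : ((Fin (n + 1) → (Matrix (Fin r) (Fin r) (MonoidAlgebra k G))ˣ) →₀ ℚ) →ₗ[ℚ] k,
      ∀ Y q, Λ (Finsupp.single Y q) = (q : k) * TX η N Y := by
    refine ⟨Finsupp.linearCombination ℚ fun Y => TX η N Y, fun Y q => ?_⟩
    rw [Finsupp.linearCombination_single, Algebra.smul_def]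
    rfl
  have h1 : bd ℚ ((Matrix (Fin r) (Fin r) (MonoidAlgebra k G))ˣ) (n + 1) z ∈
      hdeg ℚ ((Matrix (Fin r) (Fin r) (MonoidAlgebra k G))ˣ) n := hz
  have h2 : ∀ x ∈ hdeg ℚ ((Matrix (Fin r) (Fin r) (MonoidAlgebra k G))ˣ) n, Λ x = 0 := by
    intro x hx
    unfold hdeg at hx
    refine Submodule.span_induction (p := fun x _ => Λ x = 0) ?_ ?_ ?_ ?_ hx
    · rintro x ⟨g, Y, rfl⟩
      rw [map_sub, hΛ, hΛ, t_TXinv k G (Fin r) (n + 1) N η hη g Y, sub_self]
    · exact map_zero Λ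
    · intro x y _ _ hx hy
      rw [map_add, hx, hy, add_zero]
    · intro a x _ hx
      rw [map_smul, hx, smul_zero]
  have h3 := h2 _ h1
  unfold bd at h3
  rw [Finsupp.linearCombination_apply, Finsupp.sum, map_sum] at h3
  rw [Finsupp.sum, ← h3]
  refine Finset.sum_congr rfl fun X _ => ?_
  rw [map_smul, map_sum, Algebra.smul_def]
  change ((z X : ℚ) : k) * _ = ((z X : ℚ) : k) * _
  congr 1
  refine Finset.sum_congr rfl fun i _ => ?_
  rw [hΛ]
  push_cast
  rfl

/-- The value of the coboundary. -/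
theorem TX_cobF {k : Type} [Field k] [CharZero k] {G : Type} [Group G] {M r : ℕ}
    (E : (Fin M → G) → G → ℚ)
    (X : Fin (M + 1) → (Matrix (Fin r) (Fin r) (MonoidAlgebra k G))ˣ) :
    TX (fst (fun (a : Fin (M + 1) → G) y => cobE (fun b => E b y) a)) 1 X =
      ∑ i : Fin (M + 1), (-1 : k) ^ (i : ℕ) * TX (fst E) 1 (fun t => X (i.succAbove t)) := by
  have h1 : TX (fst (fun (a : Fin (M + 1) → G) y => cobE (fun b => E b y) a)) 1 X =
      TX (cobR (fst E)) 1 X := by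
    refine t_TXlen k G (Fin r) (M + 1) 1 _ _ X fun μ hμ => ?_
    have h : ∀ i, μ.lst i ≠ [] := by
      intro i h0
      have h2 := hμ i
      rw [h0] at h2
      simp at h2
    rw [WON.fst_pos _ _ h]
    unfold cobR cobE
    refine Finset.sum_congr rfl fun i _ => ?_
    rw [WON.fst_pos _ _ (fun j => h (i.succAbove j))]
    simp only [Rec.res_val, Rec.res_lst]
  rw [h1, BND.TX_cobR]
  refine Finset.sum_congr rfl fun i _ => ?_
  push_cast
  rfl

end DZB

open DZB in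
theorem t_DZB : S_DZB := by
  classical
  refine ⟨?_, ?_, ?_, ?_⟩
  · intro k _ _ G _ n r z
    obtain ⟨-, hs, -⟩ := t_SUP
    choose T _ hT using fun X : Fin (n + 1) → (Matrix (Fin r) (Fin r) (MonoidAlgebra k G))ˣ =>
      hs k G (Fin r) (n + 1) X
    refine ⟨z.support.biUnion fun X => (T X).image Rec.val, fun F F' hF => ?_⟩
    unfold DZ
    refine Finsupp.sum_congr fun X hX => ?_
    congr 1
    refine TX_congr _ _ X fun a b μ hμ => fst_congr F F' μ ?_
    exact hF μ.val (Finset.mem_biUnion.2 ⟨X, hX, Finset.mem_image_of_mem _ (hT X a b μ hμ)⟩)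
  · intro k _ _ G _ n r z I J c F
    unfold DZ
    have e : ∀ X : Fin (n + 1) → (Matrix (Fin r) (Fin r) (MonoidAlgebra k G))ˣ,
        TX (fst (fun a y => ∑ i ∈ J, c i * F i a y)) 1 X =
          ∑ i ∈ J, (c i : k) * TX (fst (F i)) 1 X := by
      intro X
      rw [← TX_lin]
      congr 1
      funext μ
      exact fst_sum J c F μ
    simp only [e]
    rw [Finsupp.sum]
    simp only [Finset.mul_sum]
    rw [Finset.sum_comm]
    refine Finset.sum_congr rfl fun i _ => ?_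
    rw [Finsupp.sum, Finset.mul_sum]
    refine Finset.sum_congr rfl fun X _ => ?_
    ring
  · intro k _ _ G _ n r E hE z hz
    unfold DZ
    have h := sum_faces (k := k) (fst E) (WON.cjInv_fst E hE) 1 z hz
    rw [← h]
    refine Finsupp.sum_congr fun X _ => ?_
    rw [TX_cobF]
  · intro k _ _ G _ n r F hF z
    unfold DZ
    refine Finsupp.sum_congr fun X _ => ?_
    rw [t_DEN k G n r F hF X]
    rfl

end Pool.Agent.FJA
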