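import Pool.Agent.FJA.StX
import Pool.Agent.FJA.P_FWD
import Pool.Agent.FJA.P_SEG
import Pool.Agent.FJA.P_SCG
import Pool.Agent.FJA.P_TRG

/-!
# FWK: the Dennis trace over fields at the classes of the elements of infinite order, forwards
-/

set_option autoImplicit false

open Matrix Pool.Agent.WhK Pool.Agent.Lib25

noncomputable section

namespace Pool.Agent.FJA

namespace FWK

/-- The functional of an invariant function vanishes on the degenerate chains. -/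
theorem sum_faces {k : Type} [Field k] [CharZero k] {G : Type} [Group G] {n r : ℕ}
    (η : Rec G (Fin (n + 1)) → ℚ) (hη : CjInv η) (N : ℕ)
    (z : (Fin (n + 2) → (Matrix (Fin r) (Fin r) (MonoidAlgebra k G))ˣ) →₀ ℚ)
    (hz : z ∈ cyc ℚ ((Matrix (Fin r) (Fin r) (MonoidAlgebra k G))ˣ) (n + 1)) :
    (z.sum fun X q => (q : k) * ∑ i : Fin (n + 2), (-1 : k) ^ (i : ℕ) *
      TX η N (fun t => X (i.succAbove t))) = 0 := by
  classical
  obtain ⟨Λ, hΛ⟩ : ∃ Λ : ((Fin (n + 1) → (Matrix (Fin r) (Fin r) (MonoidAlgebra k G))ˣ) →₀ ℚ) →ₗ[ℚ] k,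
      ∀ Y q, Λ (Finsupp.single Y q) = (q : k) * TX η N Y := by
    refine ⟨Finsupp.linearCombination ℚ fun Y => TX η N Y, fun Y q => ?_⟩
    rw [Finsupp.linearCombination_single, Algebra.smul_def]
    rfl
  have h1 : bd ℚ ((Matrix (Fin r) (Fin r) (MonoidAlgebra k G))ˣ) (n + 1) z ∈
      hdeg ℚ ((Matrix (Fin r) (Fin r) (MonoidAlgebra k G))ˣ) n := hz
  have h2 : ∀ x ∈ hdeg ℚ ((Matrix (Fin r) (Fin r) (MonoidAlgebra k G))ˣ) n, Λ x = 0 := by
    intro x hx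
    unfold hdeg at hx
    refine Submodule.span_induction (p := fun x _ => Λ x = 0) ?_ ?_ ?_ ?_ hx
    · rintro x ⟨g, Y, rfl⟩
      rw [map_sub, hΛ, hΛ]
      rw [t_TXinv k G (Fin r) (n + 1) N η hη g Y, sub_self]
    · exact map_zero Λ
    · intro x y _ _ hx hy
      rw [map_add, hx, hy, add_zero]
    · intro a x _ hx
      rw [map_smul, hx, smul_zero]
  have h3 := h2 _ h1
  unfold bd at h3
  rw [Finsupp.linearCombination_apply, Finsupp.sum, map_sum] at h3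
  rw [Finsupp.sum, ← h3]
  refine Finset.sum_congr rfl fun X _ => ?_
  rw [map_smul, map_sum, Algebra.smul_def]
  congr 1
  refine Finset.sum_congr rfl fun i _ => ?_
  rw [hΛ]
  push_cast
  rfl

/-- The finite set of the nonzero coefficients of the entries of the matrices `UX X`. -/
def cf {k : Type} [Field k] {G : Type} [Group G] {n r : ℕ}
    (z : (Fin n → (Matrix (Fin r) (Fin r) (MonoidAlgebra k G))ˣ) →₀ ℚ) : Finset k := by
  classical
  exact z.support.biUnion fun X => (Finset.univ : Finset (Fin r × Fin r)).biUnion fun p =>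
    (UX X p.1 p.2).coeff.support.image fun μ => (UX X p.1 p.2).coeff μ

theorem mem_cf {k : Type} [Field k] {G : Type} [Group G] {n r : ℕ}
    (z : (Fin n → (Matrix (Fin r) (Fin r) (MonoidAlgebra k G))ˣ) →₀ ℚ)
    (X : Fin n → (Matrix (Fin r) (Fin r) (MonoidAlgebra k G))ˣ) (hX : X ∈ z.support)
    (a b : Fin r) (μ : Rec G (Fin n)) :
    (UX X a b).coeff μ ∈ Subring.closure (cf z : Set k) := by
  classical
  by_cases h : (UX X a b).coeff μ = 0
  · rw [h]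
    exact zero_mem _
  · apply Subring.subset_closure
    rw [Finset.mem_coe, cf, Finset.mem_biUnion]
    refine ⟨X, hX, ?_⟩
    rw [Finset.mem_biUnion]
    refine ⟨(a, b), Finset.mem_univ _, ?_⟩
    rw [Finset.mem_image]
    exact ⟨μ, Finsupp.mem_support_iff.2 h, rfl⟩

theorem li_mem {k : Type} [Field k] (s : Finset k) (ℓ : ℕ) (hℓ : ℓ.Prime) (x : k)
    (hx : x ∈ Subring.closure (s : Set k)) : LI s ℓ x := by
  refine ⟨1, ?_, ?_⟩
  · intro h
    exact (Nat.prime_iff_prime_int.1 hℓ).not_isUnit (isUnit_of_dvd_one h)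
  · rw [Int.cast_one, one_mul]
    exact hx

theorem li_sum {k : Type} [Field k] [CharZero k] (hlda : S_LDA) (s : Finset k) (ℓ : ℕ)
    (hℓ : ℓ.Prime) {I : Type} (J : Finset I) (x : I → k) (hx : ∀ i ∈ J, LI s ℓ (x i)) :
    LI s ℓ (∑ i ∈ J, x i) := by
  classical
  induction J using Finset.induction_on with
  | empty =>
    rw [Finset.sum_empty]
    exact li_mem s ℓ hℓ 0 (zero_mem _)
  | insert i J hi ih =>
    rw [Finset.sum_insert hi]
    exact ((hlda k s ℓ hℓ).1.2.2.1 _ _ (hx i (Finset.mem_insert_self _ _))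
      (ih fun j hj => hx j (Finset.mem_insert_of_mem hj))).1

theorem li_TX {k : Type} [Field k] [CharZero k] (hlda : S_LDA) {G : Type} [Group G] {n r : ℕ}
    (z : (Fin n → (Matrix (Fin r) (Fin r) (MonoidAlgebra k G))ˣ) →₀ ℚ)
    (X : Fin n → (Matrix (Fin r) (Fin r) (MonoidAlgebra k G))ˣ) (hX : X ∈ z.support)
    (ℓ : ℕ) (hℓ : ℓ.Prime) (φ : Rec G (Fin n) → ℚ) (hφ : ∀ μ, ¬ ℓ ∣ (φ μ).den) :
    LI (cf z) ℓ (TX φ 1 X) := by
  unfold TX
  rw [pow_one, Matrix.trace, map_sum]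
  refine li_sum hlda _ ℓ hℓ _ _ fun a _ => ?_
  rw [lin_apply, Finsupp.sum]
  refine li_sum hlda _ ℓ hℓ _ _ fun μ _ => ?_
  exact ((hlda k (cf z) ℓ hℓ).1.2.2.1 _ _ (li_mem _ ℓ hℓ _ (mem_cf z X hX a a μ))
    ((hlda k (cf z) ℓ hℓ).1.2.1 _ (hφ μ))).2.2

end FWK

open FWD in
theorem t_FWK (hgac : S_GAC) (hlda : S_LDA) (hhfe : S_HFE) (hdzb : S_DZB) (hhin : S_HIN) :
    S_FWK := by
  classical
  intro k _ _ G _ n' r hn' z hz y0 F hinv hcoc hsupp hinf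
  obtain ⟨n, rfl⟩ : ∃ n, n' = n + 1 := ⟨n' - 1, by omega⟩
  obtain ⟨hsa, hsb, -⟩ := t_SUP
  -- the finite data
  choose T hT1 hT2 using fun X : (Fin (n + 2) → (Matrix (Fin r) (Fin r) (MonoidAlgebra k G))ˣ) =>
    hsb k G (Fin r) (n + 2) X
  obtain ⟨T0, hT0⟩ : ∃ T0 : Finset (Rec G (Fin (n + 2))), T0 = z.support.biUnion T := ⟨_, rfl⟩
  have hT01 : ∀ t ∈ T0, ∀ i, (t.lst i).length = 1 := by
    intro t ht i
    rw [hT0] at ht
    obtain ⟨x, _, hx⟩ := Finset.mem_biUnion.1 ht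
    exact hT1 x t hx i
  obtain ⟨L, hL⟩ := hsa G (n + 2) T0 hT01
  obtain ⟨Sb, hSb⟩ : ∃ Sb : Submonoid (Rec G (Fin (n + 2))),
      Sb = Submonoid.closure (T0 : Set (Rec G (Fin (n + 2)))) := ⟨_, rfl⟩
  obtain ⟨D, hD⟩ : ∃ D : k, D = DZ F z := ⟨_, rfl⟩
  rw [← hD]
  have hDs : D = ∑ X ∈ z.support, ((z X : ℚ) : k) * TX (fst F) 1 X := by
    rw [hD]
    rfl
  have hmem : D ∈ Subring.closure ((insert D (FWK.cf z) : Finset k) : Set k) := by
    apply Subring.subset_closure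
    rw [Finset.mem_coe]
    exact Finset.mem_insert_self _ _
  refine hhfe k (insert D (FWK.cf z)) D hmem ?_
  have hfin : {ℓ : ℕ | ℓ ≤ ∑ X ∈ z.support, (z X).den}.Finite := Set.finite_Iic _
  refine ((hinf (L ∪ T0.image Rec.val)).sdiff hfin).mono ?_
  rintro ℓ ⟨⟨hℓ, hFden, hc, hV⟩, hbig⟩
  have hbig' : ∑ X ∈ z.support, (z X).den < ℓ := by
    by_contra h
    exact hbig (not_lt.1 h)
  refine ⟨hℓ, ?_⟩
  have hden1 : ∀ X ∈ z.support, ¬ ℓ ∣ (z X).den := by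
    intro X hX h
    have h1 := Nat.le_of_dvd (z X).den_pos h
    have h2 := Finset.single_le_sum (f := fun X => (z X).den) (fun _ _ => Nat.zero_le _) hX
    omega
  have hLV : ∀ u ∈ L, IsConj (u ^ ℓ) (y0 ^ ℓ) → IsConj u y0 := fun u hu =>
    (hV u (Finset.mem_union_left _ hu)).2
  have hTV : ∀ μ ∈ T0, ¬ IsConj μ.val (y0 ^ ℓ) ∧
      (IsConj (μ.val ^ ℓ) (y0 ^ ℓ) → IsConj μ.val y0) := fun μ hμ =>
    hV μ.val (Finset.mem_union_right _ (Finset.mem_image_of_mem _ hμ))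
  obtain ⟨ρ, hρ⟩ : ∃ ρ : G → G, ρ = rtY y0 ℓ := ⟨_, rfl⟩
  have hρc : ∀ γ y : G, ρ (γ * y * γ⁻¹) = γ * ρ y * γ⁻¹ := by
    rw [hρ]
    exact rtY_conj hc
  obtain ⟨E, hE⟩ : ∃ E : (Fin (n + 2) → G) → G → ℚ, E = F1 y0 ℓ F := ⟨_, rfl⟩
  have hEinv : ∀ (g : G) (a : Fin (n + 2) → G) (y : G),
      E (fun i => g * a i) (g * y * g⁻¹) = E a y := by
    intro g a y
    rw [hE]
    by_cases h : IsConj y (y0 ^ ℓ)
    · rw [F1_pos F _ h, F1_pos F _ ((conj_left_iff g y _).2 h), rtY_conj hc, hinv]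
    · rw [F1_neg F _ h, F1_neg F _ fun h1 => h ((conj_left_iff g y _).1 h1)]
  have hEcoc : ∀ (a : Fin (n + 3) → G) (y : G),
      ∑ i : Fin (n + 3), (-1 : ℚ) ^ (i : ℕ) * E (fun j => a (i.succAbove j)) y = 0 := by
    intro a y
    rw [hE]
    by_cases h : IsConj y (y0 ^ ℓ)
    · simp only [F1_pos F _ h]
      exact hcoc a _
    · simp only [F1_neg F _ h, mul_zero, Finset.sum_const_zero]
  have hEs : ∀ a y, E a y ≠ 0 → IsConj y (y0 ^ ℓ) := by
    intro a y h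
    by_contra h1
    apply h
    rw [hE]
    exact F1_neg F _ h1
  have hEden : ∀ a y, ¬ ℓ ∣ (E a y).den := by
    intro a y
    rw [hE]
    by_cases h : IsConj y (y0 ^ ℓ)
    · rw [F1_pos F _ h]
      exact hFden _ _
    · rw [F1_neg F _ h, Rat.den_zero, Nat.dvd_one]
      exact hℓ.ne_one
  obtain ⟨s, hs⟩ := t_SEG G ρ hρc
  obtain ⟨φ, hφ⟩ : ∃ φ, φ = evN ℓ E s := ⟨_, rfl⟩
  have hSbB : Sb ≤ Bal G (Fin (n + 2)) := fun μ hμ => (hL μ (by rw [← hSb]; exact hμ)).1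
  have hgood0 : ∀ μ ∈ Sb, (∀ i, (μ.lst i).length = ℓ) → IsConj μ.val (y0 ^ ℓ) →
      ∀ i, GoodR ρ (μ.lst i) μ.val := by
    intro μ hμ hl hy i
    rw [hρ]
    refine goodR hℓ hc L hLV (hl i) hy ?_
    refine (hL μ (by rw [← hSb]; exact hμ)).2 (fun j h => ?_) i
    have := hl j
    rw [h, List.length_nil] at this
    exact hℓ.pos.ne this
  have hgood : ∀ μ ∈ Sb, (∀ i, (μ.lst i).length = ℓ) → (∃ a, E a μ.val ≠ 0) →
      ∀ i, GoodR ρ (μ.lst i) μ.val := by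
    rintro μ hμ hl ⟨a, ha⟩
    exact hgood0 μ hμ hl (hEs a _ ha)
  have htr := t_TRG G (n + 2) ℓ E ρ s hℓ.pos hEinv hρc hs Sb hSbB hgood
  rw [← hφ] at htr
  have hφden : ∀ μ, ¬ ℓ ∣ (φ μ).den := by
    intro μ
    rw [hφ]
    unfold evN
    split_ifs
    · exact hEden _ _
    · rw [Rat.den_zero, Nat.dvd_one]
      exact hℓ.ne_one
  have hUS : ∀ X ∈ z.support, ∀ a b μ, (UX X a b).coeff μ ≠ 0 → μ ∈ T0 := by
    intro X hX a b μ hμ
    rw [hT0]
    exact Finset.mem_biUnion.2 ⟨X, hX, hT2 X a b μ hμ⟩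
  -- the values at the powers
  have hpow : ∀ μ ∈ T0, φ (μ ^ ℓ) = fst F μ := by
    intro μ hμ
    have hμS : μ ^ ℓ ∈ Sb := by
      rw [hSb]
      exact pow_mem (Submonoid.subset_closure (Finset.mem_coe.2 hμ)) ℓ
    have hval : (μ ^ ℓ).val = μ.val ^ ℓ := map_pow Rec.valHom μ ℓ
    have hlst1 : ∀ i, ∃ a, μ.lst i = [a] := fun i => List.length_eq_one_iff.1 (hT01 μ hμ i)
    choose a ha using hlst1
    have hlst : ∀ i, (μ ^ ℓ).lst i = (List.range ℓ).map fun t => μ.val ^ t * a i := fun i =>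
      pow_lst μ i (a i) (ha i) ℓ
    have hlen : ∀ i, ((μ ^ ℓ).lst i).length = ℓ := by
      intro i
      rw [hlst, List.length_map, List.length_range]
    have hfst : fst F μ = F a μ.val := by
      unfold fst
      rw [if_pos fun i => by rw [ha]; exact List.cons_ne_nil _ _]
      simp only [ha, List.headD_cons]
    have hev : φ (μ ^ ℓ) = E (fun i => s ((μ ^ ℓ).lst i) (μ ^ ℓ).val) (μ ^ ℓ).val := by
      rw [hφ]
      unfold evN
      rw [if_pos hlen]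
    rw [hev, hfst]
    by_cases h : IsConj (μ.val ^ ℓ) (y0 ^ ℓ)
    · have h1 : IsConj μ.val y0 := (hTV μ hμ).2 h
      obtain ⟨g, hg⟩ := conj_form.1 h1
      have h2 : ρ (μ.val ^ ℓ) = μ.val := by
        rw [hρ, ← hg, conj_pow, rtY_eq hc]
      have h3 : ∀ i, s ((μ ^ ℓ).lst i) (μ ^ ℓ).val = a i := by
        intro i
        have h4 := hgood0 (μ ^ ℓ) hμS hlen (by rw [hval]; exact h) i
        obtain ⟨m, hm⟩ : ∃ m, ℓ = m + 1 := ⟨ℓ - 1, by have := hℓ.pos; omega⟩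
        have h5 : rotL (μ ^ ℓ).val ((μ ^ ℓ).lst i) = ((μ ^ ℓ).lst i).map (ρ (μ ^ ℓ).val * ·) := by
          rw [hval, h2, hlst, hm]
          exact rot_range μ.val (a i) m
        have h6 : (μ ^ ℓ).lst i ≠ [] := by
          intro h7
          have := hlen i
          rw [h7, List.length_nil] at this
          exact hℓ.pos.ne this
        rw [hs.per _ _ h6 h4 h5, hlst, hm, List.range_succ_eq_map, List.map_cons,
          List.headD_cons, pow_zero, one_mul]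
      rw [hE]
      simp only [h3]
      rw [hval, F1_pos F _ h, ← hρ, h2]
    · rw [hval, hE, F1_neg F _ h]
      by_contra h1
      obtain ⟨g, hg⟩ := conj_form.1 (hsupp a μ.val (Ne.symm h1))
      exact h (conj_form.2 ⟨g, by rw [← conj_pow, hg]⟩)
  have hstep : ∀ X ∈ z.support, LD (FWK.cf z) ℓ (TX φ ℓ X - TX (fst F) 1 X ^ ℓ) := by
    intro X hX
    have h1 := hgac k (FWK.cf z) ℓ hℓ (Rec G (Fin (n + 2))) Sb φ hφden htr (Fin r) (UX X)
      (fun a b μ => FWK.mem_cf z X hX a b μ) (fun a b μ hμ => by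
        rw [hSb]
        exact Submonoid.subset_closure (Finset.mem_coe.2 (hUS X hX a b μ hμ)))
    have h2 : lin k (fun μ => φ (μ ^ ℓ)) (Matrix.trace (UX X)) = TX (fst F) 1 X := by
      rw [← RGB.TX_congr (fun μ => φ (μ ^ ℓ)) (fst F) _ fun a b μ hμ =>
        hpow μ (hUS X hX a b μ hμ)]
      unfold TX
      rw [pow_one]
    rw [h2] at h1
    exact h1
  -- the sum
  obtain ⟨η, hη, hηs⟩ := t_SCG G (n + 1) ℓ E s hℓ.pos hEinv hEcoc hs.inv
  have hval0 : ∀ X ∈ z.support, TX (fst E) ℓ X = 0 := by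
    intro X hX
    rw [t_TXfst k G (Fin r) (n + 2) ℓ (fst E) X hℓ.pos
      (fun μ ν h => BFL.fst_first _ μ ν h), RGB.TX_congr _ (fun _ => 0) _ fun a b μ hμ => ?_]
    · exact BND.TX_zero _ _
    · unfold fst
      split_ifs
      · by_contra h
        exact (hTV μ (hUS X hX a b μ hμ)).1 (hEs _ _ h)
      · rfl
  have hsum0 : ∑ X ∈ z.support, ((z X : ℚ) : k) * TX φ ℓ X = 0 := by
    have h1 := FWK.sum_faces (k := k) η hη ℓ z hz
    rw [Finsupp.sum] at h1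
    rw [← h1]
    refine Finset.sum_congr rfl fun X hX => ?_
    rw [← hηs k (Fin r) X, ← hφ, hval0 X hX, sub_zero]
  have hFl : ∀ μ : Rec G (Fin (n + 2)), ¬ ℓ ∣ (fst F μ).den := by
    intro μ
    unfold fst
    split_ifs
    · exact hFden _ _
    · rw [Rat.den_zero, Nat.dvd_one]
      exact hℓ.ne_one
  obtain ⟨⟨-, hl2, hl3, hl4⟩, ⟨hg1, hg2, hg3⟩, hlc, hld, -, hlf, -⟩ := hlda k (FWK.cf z) ℓ hℓ
  have hLI : ∀ X ∈ z.support, LI (FWK.cf z) ℓ (TX (fst F) 1 X) := fun X hX =>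
    FWK.li_TX hlda z X hX ℓ hℓ (fst F) hFl
  have hA := hlc _ z.support (fun X => ((z X : ℚ) : k) * TX (fst F) 1 X) fun X hX =>
    (hl3 _ _ (hl2 _ (hden1 X hX)) (hLI X hX)).2.2
  have hB := hg3 _ z.support (fun X => TX (fst F) 1 X ^ ℓ * (((z X : ℚ) : k) ^ ℓ - ((z X : ℚ) : k)))
    fun X hX => hg2 _ _ (hl4 _ (hLI X hX) ℓ) (hld _ (hden1 X hX))
  have hC := hg3 _ z.support (fun X => ((z X : ℚ) : k) * (TX φ ℓ X - TX (fst F) 1 X ^ ℓ))
    fun X hX => hg2 _ _ (hl2 _ (hden1 X hX)) (hstep X hX)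
  have hfinal : D ^ ℓ = ((∑ X ∈ z.support, ((z X : ℚ) : k) * TX (fst F) 1 X) ^ ℓ -
      ∑ X ∈ z.support, (((z X : ℚ) : k) * TX (fst F) 1 X) ^ ℓ) +
      ∑ X ∈ z.support, TX (fst F) 1 X ^ ℓ * (((z X : ℚ) : k) ^ ℓ - ((z X : ℚ) : k)) -
      ∑ X ∈ z.support, ((z X : ℚ) : k) * (TX φ ℓ X - TX (fst F) 1 X ^ ℓ) := by
    rw [← hDs]
    have e1 : ∑ X ∈ z.support, ((z X : ℚ) : k) * (TX φ ℓ X - TX (fst F) 1 X ^ ℓ) =
        0 - ∑ X ∈ z.support, ((z X : ℚ) : k) * TX (fst F) 1 X ^ ℓ := by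
      rw [← hsum0, ← Finset.sum_sub_distrib]
      refine Finset.sum_congr rfl fun X _ => ?_
      ring
    have e2 : ∑ X ∈ z.support, TX (fst F) 1 X ^ ℓ * (((z X : ℚ) : k) ^ ℓ - ((z X : ℚ) : k)) =
        ∑ X ∈ z.support, (((z X : ℚ) : k) * TX (fst F) 1 X) ^ ℓ -
        ∑ X ∈ z.support, ((z X : ℚ) : k) * TX (fst F) 1 X ^ ℓ := by
      rw [← Finset.sum_sub_distrib]
      refine Finset.sum_congr rfl fun X _ => ?_
      rw [mul_pow]
      ring
    rw [e1, e2]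
    ring
  rw [hfinal]
  exact (hlf _ (Finset.subset_insert _ _) _).2 ((hg1 _ _ ((hg1 _ _ hA hB).1) hC).2)

end Pool.Agent.FJA
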