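import Pool.Agent.FJA.StX
import Pool.Agent.FJA.P_GAU
import Pool.Agent.FJA.P_GAS

/-!
# GAC: the Gauss congruence modulo a prime over a commutative ring
-/

set_option autoImplicit false

open Matrix Pool.Agent.WhK Pool.Agent.Lib25

noncomputable section

namespace Pool.Agent.FJA

namespace GAC

section ring

variable {k : Type} [Field k] [CharZero k]

/-- The localization at `ℓ` of the ring generated by `s`. -/
def Rl (hlda : S_LDA) (s : Finset k) (ℓ : ℕ) (hℓ : ℓ.Prime) : Subring k where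
  carrier := {x | LI s ℓ x}
  mul_mem' := fun {a b} ha hb => ((hlda k s ℓ hℓ).1.2.2.1 a b ha hb).2.2
  one_mem' := by
    have h := (hlda k s ℓ hℓ).1.2.1 1 (by
      rw [Rat.den_one]
      exact fun h => hℓ.one_lt.ne' (Nat.dvd_one.1 h))
    simpa using h
  add_mem' := fun {a b} ha hb => ((hlda k s ℓ hℓ).1.2.2.1 a b ha hb).1
  zero_mem' := by
    have h := (hlda k s ℓ hℓ).1.2.1 0 (by
      rw [Rat.den_zero]
      exact fun h => hℓ.one_lt.ne' (Nat.dvd_one.1 h))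
    simpa using h
  neg_mem' := fun {a} ha => by
    have h := (hlda k s ℓ hℓ).1.2.1 (-1) (by
      rw [Rat.den_neg_eq_den, Rat.den_one]
      exact fun h => hℓ.one_lt.ne' (Nat.dvd_one.1 h))
    have h2 := ((hlda k s ℓ hℓ).1.2.2.1 _ a h ha).2.2
    change LI s ℓ (-a)
    simpa using h2

theorem mem_Rl (hlda : S_LDA) (s : Finset k) (ℓ : ℕ) (hℓ : ℓ.Prime) (x : k) :
    x ∈ Rl hlda s ℓ hℓ ↔ LI s ℓ x := Iff.rfl

theorem ld_of_dvd (hlda : S_LDA) (s : Finset k) (ℓ : ℕ) (hℓ : ℓ.Prime) (x : Rl hlda s ℓ hℓ)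
    (h : (ℓ : Rl hlda s ℓ hℓ) ∣ x) : LD s ℓ (x : k) := by
  obtain ⟨⟨y, d, hd, hy⟩, rfl⟩ := h
  refine ⟨d, hd, _, hy, ?_⟩
  push_cast
  ring

omit [CharZero k] in
theorem closure_le (s : Finset k) (ℓ : ℕ) (hℓ : ℓ.Prime) {x : k}
    (hx : x ∈ Subring.closure (s : Set k)) : LI s ℓ x :=
  ⟨1, fun h => hℓ.one_lt.ne' (by
    have := Int.natCast_dvd_natCast.1 (by simpa using h : (ℓ : ℤ) ∣ ((1 : ℕ) : ℤ))
    exact Nat.dvd_one.1 this), by simpa using hx⟩

end ring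

/-! ### words of prime length -/

section words

open Pool.Agent.Lib25.H2

theorem card_orbit {ℓ : ℕ} (hℓ : ℓ.Prime) [NeZero ℓ] {J : Type*} (v : ZMod ℓ → J)
    (hv : ¬ ∃ j, v = fun _ => j) :
    letI := rotAction ℓ J
    Nat.card (MulAction.orbit (Multiplicative (ZMod ℓ)) v) = ℓ := by
  classical
  let _ := rotAction ℓ J
  have h1 : (MulAction.stabilizer (Multiplicative (ZMod ℓ)) v).index =
      Nat.card (MulAction.orbit (Multiplicative (ZMod ℓ)) v) :=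
    MulAction.index_stabilizer _ v
  have h2 : (MulAction.stabilizer (Multiplicative (ZMod ℓ)) v).index ∣ ℓ := by
    have h3 : Nat.card (Multiplicative (ZMod ℓ)) = ℓ := by simp
    conv_rhs => rw [← h3]
    exact Subgroup.index_dvd_card _
  rcases (Nat.dvd_prime hℓ).1 h2 with h | h
  · exfalso
    apply hv
    rw [Subgroup.index_eq_one] at h
    refine ⟨v 0, ?_⟩
    funext t
    have h4 : Multiplicative.ofAdd t ∈ MulAction.stabilizer (Multiplicative (ZMod ℓ)) v := by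
      rw [h]
      exact Subgroup.mem_top _
    have h5 := congrFun (MulAction.mem_stabilizer_iff.1 h4) 0
    have h6 : (Multiplicative.ofAdd t • v) 0 = v (0 + t) := rfl
    rw [h6, zero_add] at h5
    exact h5
  · exact h1.symm.trans h

theorem smul_inv {ℓ : ℕ} [NeZero ℓ] {J : Type*} {X : Type*} (f : (ZMod ℓ → J) → X)
    (hf : ∀ v, f (fun t => v (t + 1)) = f v) (g : Multiplicative (ZMod ℓ)) (v : ZMod ℓ → J) :
    letI := rotAction ℓ J
    f (g • v) = f v := by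
  let _ := rotAction ℓ J
  obtain ⟨d, hd⟩ : ∃ d : ℕ, (d : ZMod ℓ) = Multiplicative.toAdd g :=
    ⟨(Multiplicative.toAdd g).val, by simp⟩
  have h0 : g • v = fun t => v (t + (d : ZMod ℓ)) := by
    rw [hd]
    rfl
  rw [h0]
  clear h0 hd
  induction d with
  | zero => simp
  | succ d ih =>
    rw [← ih, ← hf fun t => v (t + (d : ZMod ℓ))]
    congr 1
    funext t
    congr 1
    push_cast
    ring

/-- The sum over the words is congruent to the sum over the constant words. -/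
theorem dvd_words {R : Type*} [CommRing R] {ℓ : ℕ} (hℓ : ℓ.Prime) [NeZero ℓ] {J : Type*}
    [Fintype J] (f : (ZMod ℓ → J) → R) (hf : ∀ v, f (fun t => v (t + 1)) = f v) :
    (ℓ : R) ∣ ∑ v, f v - ∑ j, f fun _ => j := by
  classical
  let _ := rotAction ℓ J
  have h1 : ∑ v, f v - ∑ j, f (fun _ => j) =
      ∑ v : ZMod ℓ → J, if ∃ j, v = fun _ => j then 0 else f v := by
    rw [sub_eq_iff_eq_add]
    have h2 : ∑ j, f (fun _ => j) = ∑ v : ZMod ℓ → J, if ∃ j, v = fun _ => j then f v else 0 := by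
      rw [← Finset.sum_filter]
      refine Finset.sum_nbij (fun j _ => j) ?_ ?_ ?_ (fun _ _ => rfl)
      · intro j _
        exact Finset.mem_filter.2 ⟨Finset.mem_univ _, j, rfl⟩
      · intro i _ j _ h
        exact congrFun h 0
      · intro v hv
        obtain ⟨j, hj⟩ := (Finset.mem_filter.1 (Finset.mem_coe.1 hv)).2
        exact ⟨j, Finset.mem_coe.2 (Finset.mem_univ _), hj.symm⟩
    rw [h2, ← Finset.sum_add_distrib]
    refine Finset.sum_congr rfl fun v _ => ?_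
    split_ifs <;> simp
  rw [h1]
  apply sum_orbit_dvd (α := Multiplicative (ZMod ℓ))
  · intro g v
    refine smul_inv (fun v : ZMod ℓ → J => if ∃ j, v = fun _ => j then (0 : R) else f v) ?_ g v
    intro v
    have e : (∃ j, (fun t => v (t + 1)) = fun _ : ZMod ℓ => j) ↔ ∃ j, v = fun _ => j := by
      constructor
      · rintro ⟨j, hj⟩
        refine ⟨j, ?_⟩
        funext t
        have := congrFun hj (t - 1)
        change v (t - 1 + 1) = j at this
        rwa [sub_add_cancel] at this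
      · rintro ⟨j, rfl⟩
        exact ⟨j, rfl⟩
    change (if _ then _ else _) = (if _ then _ else _)
    by_cases h : ∃ j, v = fun _ => j
    · rw [if_pos h, if_pos (e.2 h)]
    · rw [if_neg h, if_neg fun h' => h (e.1 h'), hf]
  · intro v
    by_cases h : ∃ j, v = fun _ => j
    · rw [if_pos h, mul_zero]
      exact dvd_zero _
    · rw [card_orbit hℓ v h]
      exact dvd_mul_right _ _

end words

/-! ### the congruence for a trace function -/

section main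

open GAU

variable {k : Type} [Field k] [CharZero k]

theorem main (hlda : S_LDA) (s : Finset k) (ℓ : ℕ) (hℓ : ℓ.Prime) (M : Type) [Monoid M]
    (φ : M → ℚ) (hden : ∀ μ, ¬ ℓ ∣ (φ μ).den) (hφ : IsTr φ)
    (ι : Type) [Fintype ι] [DecidableEq ι] (U : Matrix ι ι (MonoidAlgebra k M))
    (hU : ∀ a b μ, (U a b).coeff μ ∈ Subring.closure (s : Set k)) :
    LD s ℓ (lin k φ (Matrix.trace (U ^ ℓ)) -
      (lin k (fun μ => φ (μ ^ ℓ)) (Matrix.trace U)) ^ ℓ) := by
  classical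
  obtain ⟨⟨hI1, hIq, hIr, hIp⟩, ⟨hDa, hDm, hDs⟩, hbin, hfer, hpw, hmono, hDI⟩ := hlda k s ℓ hℓ
  have hℓ0 : NeZero ℓ := ⟨hℓ.ne_zero⟩
  obtain ⟨S, hS⟩ := exists_expand U
  let c : ι × ι × S → k := fun j => (U j.1 j.2.1).coeff j.2.2
  have hc : ∀ j, LI s ℓ (c j) := fun j => closure_le s ℓ hℓ (hU _ _ _)
  let x : ι × ι × S → Matrix ι ι (MonoidAlgebra k M) := fun j => em k (j.1, j.2.1, (j.2.2 : M))
  have hx : ∀ j, IsEm (x j) := fun j => Or.inr ⟨_, rfl⟩
  -- the values on monomial matrices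
  have hval : ∀ (ψ : M → ℚ) (A : Matrix ι ι (MonoidAlgebra k M)), IsEm A →
      ∃ q : ℚ, Lt k ι ψ A = (q : k) ∧ (q = 0 ∨ ∃ μ, q = ψ μ) := by
    intro ψ A hA
    rcases hA with hA | ⟨⟨a, b, μ⟩, hA⟩
    · exact ⟨0, by rw [hA, map_zero, Rat.cast_zero], Or.inl rfl⟩
    · rw [hA, Lt_em]
      by_cases h : a = b
      · rw [if_pos h]
        exact ⟨ψ μ, rfl, Or.inr ⟨μ, rfl⟩⟩
      · rw [if_neg h]
        exact ⟨0, Rat.cast_zero.symm, Or.inl rfl⟩
  have hden0 : ∀ q : ℚ, (q = 0 ∨ ∃ μ, q = φ μ) → ¬ ℓ ∣ q.den := by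
    rintro q (rfl | ⟨μ, rfl⟩)
    · rw [Rat.den_zero]
      exact fun h => hℓ.one_lt.ne' (Nat.dvd_one.1 h)
    · exact hden μ
  have hden1 : ∀ q : ℚ, (q = 0 ∨ ∃ μ, q = φ (μ ^ ℓ)) → ¬ ℓ ∣ q.den := by
    rintro q (rfl | ⟨μ, rfl⟩)
    · exact hden0 0 (Or.inl rfl)
    · exact hden _
  -- expansion
  have hexp : Lt k ι φ (U ^ ℓ) = ∑ v : ZMod ℓ → ι × ι × S, (∏ t, c (v t)) *
      Lt k ι φ (pr (fun i => x (v (i : ZMod ℓ))) ℓ) := by
    have h1 : U ^ ℓ = ∑ v : ZMod ℓ → ι × ι × S, (∏ t, c (v t)) •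
        pr (fun i => x (v (i : ZMod ℓ))) ℓ := by
      conv_lhs => rw [hS]
      exact sum_pow_zmod c x ℓ
    rw [h1, map_sum]
    refine Finset.sum_congr rfl fun v _ => ?_
    rw [map_smul, smul_eq_mul]
  have hpr : ∀ v : ZMod ℓ → ι × ι × S, IsEm (pr (fun i => x (v (i : ZMod ℓ))) ℓ) := fun v =>
    isEm_pr x hx _ hℓ.pos fun i => v i
  have hLI : ∀ v : ZMod ℓ → ι × ι × S, LI s ℓ ((∏ t, c (v t)) *
      Lt k ι φ (pr (fun i => x (v (i : ZMod ℓ))) ℓ)) := by
    intro v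
    refine (hIr _ _ ?_ ?_).2.2
    · exact (Rl hlda s ℓ hℓ).prod_mem fun t _ => hc _
    · obtain ⟨q, hq, hq'⟩ := hval φ _ (hpr v)
      rw [hq]
      exact hIq q (hden0 q hq')
  let f : (ZMod ℓ → ι × ι × S) → Rl hlda s ℓ hℓ := fun v => ⟨_, hLI v⟩
  have hf : ∀ v, f (fun t => v (t + 1)) = f v := by
    intro v
    apply Subtype.ext
    change (∏ t, c (v (t + 1))) * _ = (∏ t, c (v t)) * _
    congr 1
    · exact Equiv.prod_comp (Equiv.addRight (1 : ZMod ℓ)) fun t => c (v t)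
    · exact Lt_rot hφ ℓ fun t => x (v t)
  have h1 := ld_of_dvd hlda s ℓ hℓ _ (dvd_words hℓ f hf)
  -- the constant words
  let ψ : M → ℚ := fun μ => φ (μ ^ ℓ)
  choose q hq hq' using fun j => hval ψ (x j) (hx j)
  have hqden : ∀ j, ¬ ℓ ∣ (q j).den := fun j => hden1 _ (hq' j)
  have hconst : ∀ j, ((f fun _ => j : Rl hlda s ℓ hℓ) : k) = c j ^ ℓ * (q j : k) := by
    intro j
    change (∏ _t : ZMod ℓ, c j) * Lt k ι φ (pr (fun _ => x j) ℓ) = _
    congr 1
    · rw [Finset.prod_const, Finset.card_univ, ZMod.card]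
    · have h2 : pr (fun _ : ℕ => x j) ℓ = x j ^ ℓ := by
        unfold pr
        rw [List.map_const', List.length_range, List.prod_replicate]
      rw [h2, ← hq]
      obtain ⟨r, hr⟩ : ∃ r, ℓ = r + 2 := ⟨ℓ - 2, by have := hℓ.two_le; omega⟩
      have h4 := Lt_pow φ r (hx j)
      rw [← hr] at h4
      exact h4
  have hUψ : Lt k ι ψ U = ∑ j, c j * (q j : k) := by
    conv_lhs => rw [hS]
    rw [map_sum]
    refine Finset.sum_congr rfl fun j _ => ?_
    rw [map_smul, smul_eq_mul]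
    congr 1
    exact hq j
  have h2 : LD s ℓ ((∑ j, c j * (q j : k)) ^ ℓ - ∑ j, (c j * (q j : k)) ^ ℓ) :=
    hbin _ Finset.univ (fun j => c j * (q j : k)) fun j _ =>
      (hIr _ _ (hc j) (hIq _ (hqden j))).2.2
  have h3 : LD s ℓ (∑ j, c j ^ ℓ * ((q j : k) ^ ℓ - q j)) :=
    hDs _ Finset.univ _ fun j _ => hDm _ _ (hIp _ (hc j) ℓ) (hfer _ (hqden j))
  change LD s ℓ (Lt k ι φ (U ^ ℓ) - (Lt k ι ψ U) ^ ℓ)
  have h4 : Lt k ι φ (U ^ ℓ) - (Lt k ι ψ U) ^ ℓ =
      ((∑ v, f v - ∑ j, f fun _ => j : Rl hlda s ℓ hℓ) : k) -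
      (((∑ j, c j * (q j : k)) ^ ℓ - ∑ j, (c j * (q j : k)) ^ ℓ) +
        ∑ j, c j ^ ℓ * ((q j : k) ^ ℓ - q j)) := by
    rw [hexp, hUψ]
    have e1 : ((∑ v, f v - ∑ j, f fun _ => j : Rl hlda s ℓ hℓ) : k) =
        ∑ v : ZMod ℓ → ι × ι × S, (∏ t, c (v t)) *
          Lt k ι φ (pr (fun i => x (v (i : ZMod ℓ))) ℓ) - ∑ j, c j ^ ℓ * (q j : k) := by
      rw [AddSubgroupClass.coe_sub, AddSubmonoidClass.coe_finsetSum, AddSubmonoidClass.coe_finsetSum]
      congr 1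
      exact Finset.sum_congr rfl fun j _ => hconst j
    have e2 : ∑ j, c j ^ ℓ * ((q j : k) ^ ℓ - q j) =
        ∑ j, (c j * (q j : k)) ^ ℓ - ∑ j, c j ^ ℓ * (q j : k) := by
      rw [← Finset.sum_sub_distrib]
      refine Finset.sum_congr rfl fun j _ => ?_
      rw [mul_pow]
      ring
    rw [e1, e2]
    ring
  rw [h4]
  exact (hDa _ _ h1 (hDa _ _ h2 h3).1).2

end main

end GAC

open GAC in
/-- GAC: the Gauss congruence modulo `ℓ` over a commutative ring. -/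
theorem t_GAC (hlda : S_LDA) : S_GAC := by
  intro k _ _ s ℓ hℓ M _ S φ hden hφ ι _ _ U hU hS
  obtain ⟨U', h1, h2⟩ := GAS.exists_lift_mat S U hS
  have h3 : ∀ m : ℕ, ∀ ψ : M → ℚ, lin k ψ (Matrix.trace (U ^ m)) =
      lin k (fun μ : S => ψ μ) (Matrix.trace (U' ^ m)) := by
    intro m ψ
    have h4 : U ^ m = (GAS.sub k S).mapMatrix (U' ^ m) := by
      rw [map_pow]
      congr 1
      exact h1.symm
    rw [h4, ← GAS.lin_sub]
    congr 1
    rw [RingHom.mapMatrix_apply]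
    exact (AddMonoidHom.map_trace (GAS.sub k S).toAddMonoidHom (U' ^ m)).symm
  have h5 := h3 1 (fun μ => φ (μ ^ ℓ))
  rw [pow_one, pow_one] at h5
  rw [h3, h5]
  have h6 := main hlda s ℓ hℓ S (fun μ => φ μ) (fun μ => hden μ)
    (fun μ ν => hφ μ μ.2 ν ν.2) ι U' (fun a b μ => by rw [h2]; exact hU a b μ)
  simpa using h6

end Pool.Agent.FJA
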