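import Pool.Agent.FJA.StX

/-!
# Module HBR: families with few denominators
-/

set_option autoImplicit false

open Matrix Pool.Agent.WhK Pool.Agent.Lib25 NumberField

noncomputable section

namespace Pool.Agent.FJA

namespace HBR

variable {G : Type} [Group G]

theorem twF_mod {M : ℕ} (m j : ℕ) (F : (Fin M → G) → G → ℚ) : twF m j F = twF m (j % m) F := by
  funext x y
  unfold twF
  split_ifs with h
  · rw [← h, pow_mod_orderOf]
  · rfl

theorem twF_congr {M : ℕ} {m i j : ℕ} (h : i ≡ j [MOD m]) (F : (Fin M → G) → G → ℚ) :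
    twF m i F = twF m j F := by
  have h' : i % m = j % m := h
  rw [twF_mod m i, twF_mod m j, h']

theorem mem_zp {u : G} {ℓ : ℕ} (h : Nat.Coprime ℓ (orderOf u)) :
    u ∈ Subgroup.zpowers (u ^ ℓ) := by
  obtain ⟨e, he⟩ := exists_pow_eq_self_of_coprime h
  exact ⟨(e : ℤ), by simpa using he⟩

theorem orderOf_cj (g y : G) : orderOf (g * y * g⁻¹) = orderOf y := by
  have h := orderOf_injective (MulAut.conj g).toMonoidHom (MulAut.conj g).injective y
  simpa using h

/-- the congruence between the twisted families -/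
theorem key (hhmc : S_HMC) (hdzb : S_DZB) {k : Type} [Field k] [CharZero k] {n r m : ℕ}
    (hn : 1 ≤ n) (hm : 1 ≤ m)
    (z : (Fin (n + 1) → (Matrix (Fin r) (Fin r) (MonoidAlgebra k G))ˣ) →₀ ℚ)
    (hz : z ∈ cyc ℚ ((Matrix (Fin r) (Fin r) (MonoidAlgebra k G))ˣ) n)
    (F : (Fin (n + 1) → G) → G → ℚ)
    (hinv : ∀ (g : G) (a : Fin (n + 1) → G) (y : G), F (fun i => g * a i) (g * y * g⁻¹) = F a y)
    (hcoc : ∀ (a : Fin (n + 2) → G) (y : G),
      ∑ i : Fin (n + 2), (-1 : ℚ) ^ (i : ℕ) * F (fun j => a (i.succAbove j)) y = 0)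
    (hbas : ∀ (t : Fin (n + 1) → ℤ) (a : Fin (n + 1) → G) (y : G),
      F (fun i => y ^ t i * a i) y = F a y)
    (hden : ∃ D : ℕ, 0 < D ∧ ∀ a y (p : ℕ), p.Prime → p ∣ (F a y).den → p ∣ D) :
    ∃ (s : Finset k) (B : ℕ), m ≤ B ∧ ∀ ℓ : ℕ, ℓ.Prime → B < ℓ → ∀ j : ℕ, Nat.Coprime j m →
      LD s ℓ (DZ (twF m j F) z - DZ (twF m (ℓ * j) F) z ^ ℓ) := by
  classical
  obtain ⟨s, VV, B, hM⟩ := hhmc k G n r hn z hz
  obtain ⟨E0, hE0⟩ := hdzb.1 k G n r z
  obtain ⟨D, hD, hdD⟩ := hden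
  refine ⟨s, B + D + m + ∑ u ∈ VV ∪ E0, orderOf u, by omega, fun ℓ hℓ hBℓ j hj => ?_⟩
  have hlt : ∀ u ∈ VV ∪ E0, orderOf u < ℓ := by
    intro u hu
    have h1 : orderOf u ≤ ∑ u ∈ VV ∪ E0, orderOf u :=
      Finset.single_le_sum (f := fun u : G => orderOf u) (fun _ _ => Nat.zero_le _) hu
    omega
  -- the hypotheses of HMC
  have h1 : ∀ (g : G) (a : Fin (n + 1) → G) (y : G),
      twF m j F (fun i => g * a i) (g * y * g⁻¹) = twF m j F a y := by
    intro g a y
    unfold twF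
    rw [orderOf_cj]
    split_ifs with h
    · rw [conj_pow]
      exact hinv g a (y ^ j)
    · rfl
  have h2 : ∀ (a : Fin (n + 2) → G) (y : G),
      ∑ i : Fin (n + 2), (-1 : ℚ) ^ (i : ℕ) * twF m j F (fun l => a (i.succAbove l)) y = 0 := by
    intro a y
    unfold twF
    by_cases h : orderOf y = m
    · simp only [h, if_true]
      exact hcoc a (y ^ j)
    · simp only [h, if_false, mul_zero, Finset.sum_const_zero]
  have h3 : ∀ (t : Fin (n + 1) → ℤ) (a : Fin (n + 1) → G) (y : G),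
      twF m j F (fun i => y ^ t i * a i) y = twF m j F a y := by
    intro t a y
    unfold twF
    by_cases h : orderOf y = m
    · simp only [h, if_true]
      have hc : Nat.Coprime j (orderOf y) := by rw [h]; exact hj
      obtain ⟨e, he⟩ := exists_pow_eq_self_of_coprime hc
      have h4 : ∀ i, y ^ t i = (y ^ j) ^ ((e : ℤ) * t i) := by
        intro i
        rw [_root_.zpow_mul, zpow_natCast, he]
      simp only [h4]
      exact hbas (fun i => (e : ℤ) * t i) a (y ^ j)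
    · simp only [h, if_false]
  have h4 : ∀ a y, ¬ ℓ ∣ (twF m j F a y).den := by
    intro a y hdv
    unfold twF at hdv
    split_ifs at hdv with h
    · have := Nat.le_of_dvd hD (hdD a (y ^ j) ℓ hℓ hdv)
      omega
    · have h5 : ℓ ∣ 1 := by simpa using hdv
      exact hℓ.one_lt.ne' (Nat.dvd_one.mp h5)
  have h5 : ∀ u ∈ VV, ∀ a, twF m j F a (u ^ ℓ) ≠ 0 → u ∈ Subgroup.zpowers (u ^ ℓ) := by
    intro u hu a ha
    apply mem_zp
    have h6 : orderOf (u ^ ℓ) = m := by
      by_contra h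
      apply ha
      unfold twF
      rw [if_neg h]
    have h7 : orderOf u ≠ 0 := by
      intro h0
      have h8 : ¬ IsOfFinOrder u := orderOf_eq_zero_iff.mp h0
      have h9 : ¬ IsOfFinOrder (u ^ ℓ) := by
        intro h10
        exact h8 (isOfFinOrder_pow.mp h10 |>.resolve_right hℓ.ne_zero)
      rw [← orderOf_eq_zero_iff] at h9
      omega
    exact Nat.coprime_of_lt_prime h7 (hlt u (Finset.mem_union_left _ hu)) hℓ
  obtain ⟨-, -, hLD⟩ := hM ℓ hℓ (by omega) (twF m j F) h1 h2 h3 h4 h5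
  have h6 : DZ (powF ℓ (twF m j F)) z = DZ (twF m (ℓ * j) F) z := by
    refine hE0 _ _ fun y hy a => ?_
    unfold powF twF
    by_cases h0 : orderOf y = 0
    · have h8 : ¬ IsOfFinOrder y := orderOf_eq_zero_iff.mp h0
      have h9 : ¬ IsOfFinOrder (y ^ ℓ) := by
        intro h10
        exact h8 (isOfFinOrder_pow.mp h10 |>.resolve_right hℓ.ne_zero)
      rw [← orderOf_eq_zero_iff] at h9
      rw [if_neg (by omega), if_neg (by omega)]
    · have hc := Nat.coprime_of_lt_prime h0 (hlt y (Finset.mem_union_right _ hy)) hℓ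
      rw [hc.symm.orderOf_pow, pow_mul]
  rw [h6] at hLD
  exact hLD

/-- push forward along a homomorphism of fields -/
theorem LD_map {k K : Type} [Field k] [Field K] (φ : k →+* K) (s : Finset k) [DecidableEq K]
    (ℓ : ℕ) (x : k) (h : LD s ℓ x) : LD (s.image φ) ℓ (φ x) := by
  obtain ⟨d, hd, a, ha, hda⟩ := h
  refine ⟨d, hd, φ a, ?_, ?_⟩
  · have h1 : φ a ∈ (Subring.closure (s : Set k)).map φ := ⟨a, ha, rfl⟩
    rw [RingHom.map_closure] at h1
    simpa using h1
  · have := congrArg φ hda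
    simpa using this

end HBR

open HBR

theorem t_HBR (hhmc : S_HMC) (hntl : S_NTL) (hlda : S_LDA) (hdzb : S_DZB) : S_HBR := by
  intro k _ _ G _ n r m hn hm z hz F hinv hcoc hbas hord hden K _ _ _ ζ hζ
  classical
  have : NeZero m := ⟨by omega⟩
  obtain ⟨s, B, hmB, hkey⟩ := key hhmc hdzb hn hm z hz F hinv hcoc hbas hden
  set φ : k →+* K := algebraMap k K with hφ
  -- the values
  set X : (ZMod m)ˣ → K := fun u => φ (DZ (twF m (u : ZMod m).val F) z) with hX
  set s' : Finset K := s.image φ ∪ ({ζ} ∪ Finset.univ.image X) with hs'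
  have hζm : ζ ^ m = 1 := hζ.pow_eq_one
  set ψ : AddChar (ZMod m) K := AddChar.zmodChar m hζm with hψ
  have hprim : ψ.IsPrimitive := AddChar.zmodChar_primitive_of_primitive_root m hζ
  have hXmem : ∀ u, X u ∈ Subring.closure (s' : Set K) := by
    intro u
    refine Subring.subset_closure ?_
    simp [hs']
  have hζmem : ζ ∈ Subring.closure (s' : Set K) := by
    refine Subring.subset_closure ?_
    simp [hs']
  have hψmem : ∀ a : ZMod m, ψ a ∈ Subring.closure (s' : Set K) := by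
    intro a
    rw [hψ, AddChar.zmodChar_apply]
    exact Subring.pow_mem _ hζmem _
  -- the number w_c
  set w : ZMod m → K := fun c => ∑ u : (ZMod m)ˣ, ψ (c * ((u⁻¹ : (ZMod m)ˣ) : ZMod m)) * X u
    with hw
  have hwq : ∀ c, ∃ q : ℚ, w c = q := by
    intro c
    refine hntl K s' (w c) ?_ ⟨B, fun ℓ hℓ hBℓ => ?_⟩
    · exact Subring.sum_mem _ fun u _ => Subring.mul_mem _ (hψmem _) (hXmem _)
    · obtain ⟨hL1, hL2, hL3, -, -, hL6, -⟩ := hlda K s' ℓ hℓ
      have hLI : ∀ x ∈ Subring.closure (s' : Set K), LI s' ℓ x := by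
        intro x hx
        refine ⟨1, ?_, by simpa using hx⟩
        intro h
        have := Int.eq_one_of_dvd_one (by positivity) h
        have := hℓ.one_lt
        omega
      have hcop : Nat.Coprime ℓ m := Nat.coprime_of_lt_prime (by omega) (by omega) hℓ
      set L : (ZMod m)ˣ := ZMod.unitOfCoprime ℓ hcop with hL
      have hLv : (L : ZMod m) = (ℓ : ZMod m) := ZMod.coe_unitOfCoprime ℓ hcop
      -- the congruence
      have hc1 : ∀ u : (ZMod m)ˣ, LD s' ℓ (X u - X (L * u) ^ ℓ) := by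
        intro u
        have h1 := hkey ℓ hℓ hBℓ (u : ZMod m).val (ZMod.val_coe_unit_coprime u)
        have h2 : twF m ((L * u : (ZMod m)ˣ) : ZMod m).val F =
            twF m (ℓ * (u : ZMod m).val) F := by
          refine twF_congr ?_ F
          rw [← ZMod.natCast_eq_natCast_iff]
          simp [hLv]
        have h3 := LD_map φ s ℓ _ h1
        have h4 : φ (DZ (twF m (u : ZMod m).val F) z -
            DZ (twF m (ℓ * (u : ZMod m).val) F) z ^ ℓ) = X u - X (L * u) ^ ℓ := by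
          simp only [hX, map_sub, map_pow, h2]
        rw [h4] at h3
        exact ((hlda K (s.image φ) ℓ hℓ).2.2.2.2.2.1 s'
          (by rw [hs']; exact Finset.subset_union_left) _).2 h3
      -- w ^ ℓ
      have hc2 : LD s' ℓ ((w c) ^ ℓ -
          ∑ u : (ZMod m)ˣ, (ψ (c * ((u⁻¹ : (ZMod m)ˣ) : ZMod m)) * X u) ^ ℓ) :=
        hL3 _ Finset.univ _ fun u _ => hLI _ (Subring.mul_mem _ (hψmem _) (hXmem _))
      have hc3 : ∑ u : (ZMod m)ˣ, (ψ (c * ((u⁻¹ : (ZMod m)ˣ) : ZMod m)) * X u) ^ ℓ =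
          ∑ u : (ZMod m)ˣ, ψ (c * ((u⁻¹ : (ZMod m)ˣ) : ZMod m)) * X (L * u) ^ ℓ := by
        rw [← Equiv.sum_comp (Equiv.mulLeft L)]
        refine Finset.sum_congr rfl fun u _ => ?_
        rw [Equiv.coe_mulLeft, mul_pow, ← AddChar.map_nsmul_eq_pow]
        congr 2
        rw [nsmul_eq_mul, ← hLv, _root_.mul_inv_rev]
        have hLL : (L : ZMod m) * ((L⁻¹ : (ZMod m)ˣ) : ZMod m) = 1 := by simp
        push_cast
        linear_combination (c * ((u⁻¹ : (ZMod m)ˣ) : ZMod m)) * hLL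
      have hc4 : LD s' ℓ (∑ u : (ZMod m)ˣ,
          ψ (c * ((u⁻¹ : (ZMod m)ˣ) : ZMod m)) * (X u - X (L * u) ^ ℓ)) :=
        hL2.2.2 _ Finset.univ _ fun u _ => hL2.2.1 _ _ (hLI _ (hψmem _)) (hc1 u)
      have hc5 : w c ^ ℓ - w c = (w c ^ ℓ -
          ∑ u : (ZMod m)ˣ, (ψ (c * ((u⁻¹ : (ZMod m)ˣ) : ZMod m)) * X u) ^ ℓ) -
          ∑ u : (ZMod m)ˣ,
            ψ (c * ((u⁻¹ : (ZMod m)ˣ) : ZMod m)) * (X u - X (L * u) ^ ℓ) := by
        rw [hc3]
        simp only [mul_sub, Finset.sum_sub_distrib, hw]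
        ring
      rw [hc5]
      exact (hL2.1 _ _ hc2 hc4).2
  choose q hq using hwq
  -- orthogonality
  have horth : ∀ v : (ZMod m)ˣ, (m : K) * X v =
      ∑ c : ZMod m, ψ (-c * ((v⁻¹ : (ZMod m)ˣ) : ZMod m)) * w c := by
    intro v
    have h1 : ∑ c : ZMod m, ψ (-c * ((v⁻¹ : (ZMod m)ˣ) : ZMod m)) * w c =
        ∑ u : (ZMod m)ˣ, (∑ c : ZMod m,
          ψ (c * (((u⁻¹ : (ZMod m)ˣ) : ZMod m) - ((v⁻¹ : (ZMod m)ˣ) : ZMod m)))) * X u := by
      simp only [hw, Finset.mul_sum, Finset.sum_mul]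
      rw [Finset.sum_comm]
      refine Finset.sum_congr rfl fun u _ => Finset.sum_congr rfl fun c _ => ?_
      rw [← mul_assoc, ← AddChar.map_add_eq_mul]
      congr 2
      ring
    rw [h1, Finset.sum_eq_single v]
    · rw [AddChar.sum_mulShift _ hprim]
      simp [ZMod.card]
    · intro u _ huv
      rw [AddChar.sum_mulShift _ hprim, if_neg, Nat.cast_zero, zero_mul]
      intro h
      apply huv
      have h2 : ((u⁻¹ : (ZMod m)ˣ) : ZMod m) = ((v⁻¹ : (ZMod m)ˣ) : ZMod m) := sub_eq_zero.mp h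
      have h3 : u⁻¹ = v⁻¹ := Units.ext h2
      exact inv_injective h3
    · intro h
      exact absurd (Finset.mem_univ v) h
  -- the polynomial
  refine ⟨∑ c : ZMod m, Polynomial.C ((m : ℚ)⁻¹ * q c) * Polynomial.X ^ (-c).val,
    fun j j' hjj => ?_⟩
  have hjm : Nat.Coprime j m := by
    rw [← ZMod.isUnit_iff_coprime]
    refine IsUnit.of_mul_eq_one (j' : ZMod m) ?_
    have h := (ZMod.natCast_eq_natCast_iff (j * j') 1 m).mpr hjj
    simpa using h
  set v : (ZMod m)ˣ := ZMod.unitOfCoprime j hjm with hv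
  have hvv : (v : ZMod m) = (j : ZMod m) := ZMod.coe_unitOfCoprime j hjm
  have hvi : ((v⁻¹ : (ZMod m)ˣ) : ZMod m) = (j' : ZMod m) := by
    rw [Units.inv_eq_of_mul_eq_one_right]
    rw [hvv]
    have h := (ZMod.natCast_eq_natCast_iff (j * j') 1 m).mpr hjj
    simpa using h
  have hXv : φ (DZ (twF m j F) z) = X v := by
    simp only [hX]
    congr 2
    refine twF_congr ?_ F
    rw [← ZMod.natCast_eq_natCast_iff]
    simp [hvv]
  rw [hXv]
  have hm0 : (m : K) ≠ 0 := by
    have : m ≠ 0 := by omega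
    exact_mod_cast this
  apply mul_left_cancel₀ hm0
  rw [horth v, map_sum, Finset.mul_sum]
  refine Finset.sum_congr rfl fun c _ => ?_
  rw [hvi, hq c]
  have h1 : -c * (j' : ZMod m) = (((-c).val * j' : ℕ) : ZMod m) := by simp
  rw [h1, hψ, AddChar.zmodChar_apply', map_mul, Polynomial.aeval_C, map_pow, Polynomial.aeval_X,
    ← pow_mul, mul_comm j']
  simp only [map_mul, map_inv₀, map_natCast, eq_ratCast]
  field_simp

end Pool.Agent.FJA
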