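import Pool.Agent.FJA.StX

/-!
# Module HBT: the elements of order `m`   (helper71)
-/

set_option autoImplicit false

open Matrix Pool.Agent.WhK Pool.Agent.Lib25 NumberField

noncomputable section

namespace Pool.Agent.FJA

theorem HBT.twF_restr {G : Type} [Group G] (H : Subgroup G) (n m j : ℕ)
    (F : (Fin (n + 1) → G) → G → ℚ) :
    (fun (a : Fin (n + 1) → H) (y : H) => twF m j F (fun i => (a i : G)) (y : G)) =
      twF m j (fun (a : Fin (n + 1) → H) (y : H) => F (fun i => (a i : G)) (y : G)) := by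
  funext a y
  unfold twF
  rw [Subgroup.orderOf_coe]
  rfl

theorem HBT.twF_inv {G : Type} [Group G] (n m j : ℕ) (F : (Fin (n + 1) → G) → G → ℚ)
    (hinv : ∀ (g : G) (a : Fin (n + 1) → G) (y : G), F (fun i => g * a i) (g * y * g⁻¹) = F a y)
    (g : G) (a : Fin (n + 1) → G) (y : G) :
    twF m j F (fun i => g * a i) (g * y * g⁻¹) = twF m j F a y := by
  unfold twF
  have h1 : orderOf (g * y * g⁻¹) = orderOf y := by
    have := MulEquiv.orderOf_eq (MulAut.conj g) y
    rwa [MulAut.conj_apply] at this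
  rw [h1, conj_pow, hinv]

/-- HBT: the theorem at the elements of order `m`. -/
theorem t_HBT (hhbg : S_HBG) (hdzb : S_DZB) (hhfg : S_HFG) (hhna : S_HNA) : S_HBT := by
  intro k _ _ G _ n r m hn hm z hz F hinv hord hadm K _ _ _ ζ hζ
  obtain ⟨H, hH, z', hz', rfl⟩ := hhfg.1 k G n r hn z hz
  have hinv' : ∀ (g : H) (a : Fin (n + 1) → H) (y : H),
      (fun (a : Fin (n + 1) → H) (y : H) => F (fun i => (a i : G)) (y : G))
        (fun i => g * a i) (g * y * g⁻¹) =
      (fun (a : Fin (n + 1) → H) (y : H) => F (fun i => (a i : G)) (y : G)) a y := by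
    intro g a y
    have := hinv (g : G) (fun i => (a i : G)) (y : G)
    simpa using this
  obtain ⟨P, hP⟩ := hhbg k H n r m hn hm z' hz'
    (fun (a : Fin (n + 1) → H) (y : H) => F (fun i => (a i : G)) (y : G)) hinv'
    (fun a y h => by
      rw [← Subgroup.orderOf_coe]
      exact hord _ _ h)
    (fun y hy => hadm H hH y hy) K ζ hζ
  refine ⟨P, fun j j' hj => ?_⟩
  rw [← hP j j' hj]
  congr 1
  rw [hdzb.2.2.2 k H n r
    (twF m j (fun (a : Fin (n + 1) → H) (y : H) => F (fun i => (a i : G)) (y : G)))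
    (HBT.twF_inv n m j _ hinv') z']
  have hmapeq : hmap ℚ (glG (k := k) (ι := Fin r) H.subtype) (n + 1) z' =
      z'.mapDomain fun X i => glG (k := k) (ι := Fin r) H.subtype (X i) := rfl
  rw [hmapeq, Finsupp.sum_mapDomain_index]
  · refine Finsupp.sum_congr fun X _ => ?_
    congr 1
    rw [← HBT.twF_restr H n m j F, ← hhna k G H n r (twF m j F) (fun l =>
      ((X l)⁻¹ * X (l + 1) : (Matrix (Fin r) (Fin r) (MonoidAlgebra k H))ˣ).val)]
    congr 1
    funext l
    rw [← map_inv, ← map_mul]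
    rfl
  · intro X
    simp
  · intro X q q'
    push_cast
    ring

end Pool.Agent.FJA
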