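import Pool.Agent.FJA.StX
import Pool.Agent.FJA.P_TRB

/-!
# Module HCG: the elements of infinite order, with the conditions in the group
-/

set_option autoImplicit false

open Matrix Pool.Agent.WhK Pool.Agent.Lib25

noncomputable section

namespace Pool.Agent.FJA

namespace HCG

open TRB

variable {G : Type} [Group G]

lemma not_fin_cj {g y : G} (h : ¬ IsOfFinOrder (g * y * g⁻¹)) : ¬ IsOfFinOrder y := by
  intro hy
  exact h (by simpa using (MulAut.conj g).toMonoidHom.isOfFinOrder hy)

lemma fin_cj {g y : G} (h : ¬ IsOfFinOrder y) : ¬ IsOfFinOrder (g * y * g⁻¹) := by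
  intro hy
  apply h
  have h1 := (MulAut.conj g⁻¹).toMonoidHom.isOfFinOrder hy
  have h2 : (MulAut.conj g⁻¹).toMonoidHom (g * y * g⁻¹) = y := by
    simp [MulAut.conj_apply, mul_assoc]
  rwa [h2] at h1

/-- A cocycle of the centralizer of the element `y0` of infinite order which satisfies the conditions has the
value zero. -/
lemma dz_fam (hhci : S_HCI) (hfwk : S_FWK) (hdzb : S_DZB) {k : Type} [Field k] [CharZero k]
    {m r : ℕ} (z : (Fin (m + 1 + 1) → (Matrix (Fin r) (Fin r) (MonoidAlgebra k G))ˣ) →₀ ℚ)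
    (hz : z ∈ cyc ℚ ((Matrix (Fin r) (Fin r) (MonoidAlgebra k G))ˣ) (m + 1))
    (y0 : G) (hy0 : ¬ IsOfFinOrder y0) {f : (Fin (m + 1 + 1) → G) → ℚ} (hf : CInv y0 f)
    (hc : ∀ a : Fin (m + 1 + 2) → G, cobE f a = 0) (hadm : AdmC (m + 1) y0 f) :
    DZ (fam y0 f) z = 0 := by
  have hinv := fun g a x => fam_inv y0 hf g a x
  have hcoc := fun a x => fam_coc y0 hf hc a x
  have hsup : ∀ a y, fam y0 f a y ≠ 0 → IsConj y y0 := by
    intro a y h
    exact (isConj_iff.2 (fam_ne h)).symm
  have hden : ∀ p : ℕ, p.Prime → (∀ a, ¬ p ∣ (f a).den) → ∀ a y, ¬ p ∣ (fam y0 f a y).den := by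
    intro p hp h a y
    rcases fam_val y0 f a y with h0 | ⟨b, hb⟩
    · rw [h0]
      simpa using hp.one_lt.ne'
    · rw [hb]; exact h b
  rcases hadm with h0 | ⟨hfo, -⟩ | hfw | ⟨hpow, hbm⟩
  · obtain ⟨E0, hE0⟩ := hdzb.1 k G (m + 1) r z
    have h1 := hdzb.2.1 k G (m + 1) r z Empty ∅ (fun _ => 0) (fun _ _ _ => 0)
    simp only [Finset.sum_empty] at h1
    rw [← h1]
    refine hE0 _ _ fun y _ a => ?_
    rcases fam_val y0 f a y with h2 | ⟨b, hb⟩
    · exact h2
    · rw [hb, h0]; rfl
  · exact absurd hfo hy0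
  · refine hfwk k G (m + 1) r (by omega) z hz y0 _ hinv hcoc hsup ?_
    intro V
    refine (hfw V).mono ?_
    rintro p ⟨hp, h1, h2, h3⟩
    exact ⟨hp, hden p hp h1, h2, h3⟩
  · refine hhci k G (m + 1) r (by omega) z hz y0 _ hinv hcoc hsup ?_ ?_
    · intro V
      refine (hbm V).mono ?_
      rintro p ⟨hp, h1, h2⟩
      exact ⟨hp, hden p hp h1, h2⟩
    · intro t a y
      by_cases hy : ∃ g : G, g * y0 * g⁻¹ = y
      · obtain ⟨g, rfl⟩ := hy
        rw [fam_conj y0 hf, fam_conj y0 hf, ← hpow t (fun i => g⁻¹ * a i)]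
        congr 1
        funext i
        rw [conj_zpow]
        simp only [mul_assoc, inv_mul_cancel_left]
      · rw [fam_neg y0 f _ hy, fam_neg y0 f _ hy]

end HCG

open TRB HCG in
open Classical in
/-- HCG: the theorem at the elements of infinite order, with the conditions in `G`. -/
theorem t_HCG (hhci : S_HCI) (hfwk : S_FWK) (hdzb : S_DZB) : S_HCG := by
  intro k _ _ G _ n r hn z hz F hinv hord hadm
  obtain ⟨q, rfl⟩ : ∃ q, n = q + 1 := ⟨n - 1, by omega⟩
  obtain ⟨E0, hE0⟩ := hdzb.1 k G (q + 1) r z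
  let rp : ConjClasses G → G := fun C => (ConjClasses.exists_rep C).choose
  have hrp : ∀ C, ConjClasses.mk (rp C) = C := fun C => (ConjClasses.exists_rep C).choose_spec
  have hcj : ∀ (C : ConjClasses G) (y : G), ConjClasses.mk y = C ↔
      ∃ g : G, g * rp C * g⁻¹ = y := by
    intro C y
    constructor
    · intro h
      rw [← hrp C] at h
      exact isConj_iff.1 (ConjClasses.mk_eq_mk_iff_isConj.1 h).symm
    · intro h
      rw [← hrp C]
      exact (ConjClasses.mk_eq_mk_iff_isConj.2 (isConj_iff.2 h)).symm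
  have hex : ∀ C : ConjClasses G, ∃ (f' : (Fin (q + 1 + 1) → G) → ℚ) (E : (Fin (q + 1) → G) → ℚ),
      ¬ IsOfFinOrder (rp C) → (CInv (rp C) f' ∧ CInv (rp C) E ∧
        (∀ a : Fin (q + 1 + 2) → G, cobE f' a = 0) ∧ (∀ a, F a (rp C) = f' a + cobE E a) ∧
        AdmC (q + 1) (rp C) f') := by
    intro C
    by_cases hC : IsOfFinOrder (rp C)
    · exact ⟨0, 0, fun h => absurd hC h⟩
    · obtain ⟨f', E, h⟩ := hadm (rp C) hC
      exact ⟨f', E, fun _ => h⟩
  choose f' E hfE using hex
  let s : Finset (ConjClasses G) :=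
    (E0.image fun v => ConjClasses.mk v).filter fun C => ¬ IsOfFinOrder (rp C)
  let H : ConjClasses G × Bool → (Fin (q + 1 + 1) → G) → G → ℚ := fun v a y =>
    if v.2 = true then fam (rp v.1) (f' v.1) a y
    else cobE (fun b => fam (rp v.1) (E v.1) b y) a
  have hHt : ∀ C, H (C, true) = fam (rp C) (f' C) := by
    intro C
    funext a y
    exact if_pos rfl
  have hHf : ∀ C, H (C, false) = fun a y =>
      cobE (fun b => fam (rp C) (E C) b y) a := by
    intro C
    funext a y
    exact if_neg (by simp)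
  have hpt : ∀ y ∈ E0, ∀ a, F a y =
      ∑ v ∈ s ×ˢ (Finset.univ : Finset Bool), (1 : ℚ) * H v a y := by
    intro y hy a
    rw [Finset.sum_product]
    simp only [one_mul, Fintype.sum_bool, hHt, hHf]
    by_cases ho : IsOfFinOrder y
    · have hF0 : F a y = 0 := by
        by_contra h
        exact hord a y h ho
      rw [hF0]
      refine (Finset.sum_eq_zero fun C hC => ?_).symm
      have h : ¬ ∃ g : G, g * rp C * g⁻¹ = y := by
        rintro ⟨g, hg⟩
        apply fin_cj (g := g) (Finset.mem_filter.1 hC).2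
        rw [hg]; exact ho
      simp only [fam_neg (rp C) (f' C) a h, cob_fam_neg (rp C) (E C) a h, add_zero]
    · obtain ⟨g, hg⟩ := (hcj (ConjClasses.mk y) y).1 rfl
      have hmem : ConjClasses.mk y ∈ s := by
        refine Finset.mem_filter.2 ⟨Finset.mem_image_of_mem _ hy, ?_⟩
        rw [← hg] at ho
        exact not_fin_cj ho
      rw [Finset.sum_eq_single_of_mem _ hmem]
      · obtain ⟨hf, hE, hc, hFE, _⟩ := hfE _ (Finset.mem_filter.1 hmem).2
        have e1 : fam (rp (ConjClasses.mk y)) (f' (ConjClasses.mk y)) a y =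
            f' (ConjClasses.mk y) (fun i => g⁻¹ * a i) := by
          have h := fam_conj _ hf a g
          rw [hg] at h
          exact h
        have e2 : cobE (fun b => fam (rp (ConjClasses.mk y))
            (E (ConjClasses.mk y)) b y) a =
            cobE (E (ConjClasses.mk y)) (fun i => g⁻¹ * a i) := by
          rw [← cob_fam _ hE a g, hg]
        have e3 : F a y = F (fun i => g⁻¹ * a i) (rp (ConjClasses.mk y)) := by
          rw [← hinv g (fun i => g⁻¹ * a i) (rp (ConjClasses.mk y)), hg]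
          congr 1
          funext i
          rw [mul_inv_cancel_left]
        rw [e1, e2, e3, hFE]
      · intro C _ hC
        have h : ¬ ∃ g : G, g * rp C * g⁻¹ = y := fun h => hC ((hcj C y).2 h).symm
        simp only [fam_neg (rp C) (f' C) a h, cob_fam_neg (rp C) (E C) a h, add_zero]
  rw [hE0 _ _ hpt, hdzb.2.1 k G (q + 1) r z (ConjClasses G × Bool)
    (s ×ˢ (Finset.univ : Finset Bool)) (fun _ => 1) H, Finset.sum_product]
  refine Finset.sum_eq_zero fun C hC => ?_
  obtain ⟨hf, hE, hc, hFE, had⟩ := hfE C (Finset.mem_filter.1 hC).2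
  have h0 : DZ (H (C, false)) z = 0 := by
    rw [hHf C]
    exact hdzb.2.2.1 k G q r (fam (rp C) (E C)) (fun g a x => fam_inv (rp C) hE g a x) z hz
  have h1 : DZ (H (C, true)) z = 0 := by
    rw [hHt C]
    exact dz_fam hhci hfwk hdzb z hz (rp C) (Finset.mem_filter.1 hC).2 hf hc had
  rw [Fintype.sum_bool, h0, h1]
  simp

end Pool.Agent.FJA
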