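import Pool.Agent.FJA.StX

/-!
# Module HCI: backwards
-/

set_option autoImplicit false

open Matrix Pool.Agent.WhK Pool.Agent.Lib25 NumberField

noncomputable section

namespace Pool.Agent.FJA

namespace HCI

/-- the value of the zero family -/
theorem DZ_zero (hdzb : S_DZB) {k : Type} [Field k] [CharZero k] {G : Type} [Group G] {n r : ℕ}
    (z : (Fin (n + 1) → (Matrix (Fin r) (Fin r) (MonoidAlgebra k G))ˣ) →₀ ℚ) :
    DZ (fun (_ : Fin (n + 1) → G) (_ : G) => (0 : ℚ)) z = 0 := by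
  have h := hdzb.2.1 k G n r z Unit ∅ (fun _ => 0) (fun _ _ _ => 0)
  simpa using h

end HCI

open HCI

theorem t_HCI (hhmc : S_HMC) (hhfd : S_HFD) (hdzb : S_DZB) : S_HCI := by
  intro k _ _ G _ n r hn z hz y0 F hinv hcoc hsupp hprm hbas
  classical
  obtain ⟨s, VV, B, hM⟩ := hhmc k G n r hn z hz
  obtain ⟨E0, hE0⟩ := hdzb.1 k G n r z
  refine hhfd k (insert (DZ F z) s) (DZ F z)
    (Subring.subset_closure (by simp)) ?_
  have hinf := (hprm (VV ∪ E0)).sdiff (Set.finite_le_nat B)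
  refine hinf.mono ?_
  rintro ℓ ⟨⟨hℓ, hden, hV⟩, hB⟩
  refine ⟨hℓ, ?_⟩
  have hB' : B < ℓ := by
    by_contra h
    exact hB (by simpa using h)
  have h0 : ∀ u ∈ VV ∪ E0, ∀ a, F a (u ^ ℓ) = 0 := by
    intro u hu a
    by_contra h
    exact hV u hu (hsupp a _ h)
  obtain ⟨-, -, hLD⟩ := hM ℓ hℓ hB' F hinv hcoc hbas hden fun u hu a ha =>
    absurd (h0 u (Finset.mem_union_left _ hu) a) ha
  have hp : DZ (powF ℓ F) z = 0 := by
    rw [← DZ_zero hdzb z]
    refine hE0 _ _ fun y hy a => ?_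
    exact h0 y (Finset.mem_union_right _ hy) a
  rw [hp, zero_pow hℓ.ne_zero, sub_zero] at hLD
  obtain ⟨d, hd, a, ha, hda⟩ := hLD
  refine ⟨d, hd, a, ?_, hda⟩
  refine Subring.closure_mono ?_ ha
  intro x hx
  simp only [Finset.coe_insert]
  exact Set.mem_insert_of_mem _ hx

end Pool.Agent.FJA
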