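import Pool.Agent.FJA.StX

/-!
# Module HCT: the elements of infinite order (adapted from P_HBT.lean by helper71)
-/

set_option autoImplicit false

open Matrix Pool.Agent.WhK Pool.Agent.Lib25 NumberField

noncomputable section

namespace Pool.Agent.FJA

theorem HCT.fin_iff {G : Type} [Group G] (H : Subgroup G) (y : H) :
    IsOfFinOrder (y : G) ↔ IsOfFinOrder y := by
  rw [← orderOf_pos_iff, ← orderOf_pos_iff, Subgroup.orderOf_coe]

/-- HCT: the theorem at the elements of infinite order. -/
theorem t_HCT (hhcg : S_HCG) (hdzb : S_DZB) (hhfg : S_HFG) (hhna : S_HNA) : S_HCT := by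
  intro k _ _ G _ n r hn z hz F hinv hord hadm
  obtain ⟨H, hH, z', hz', rfl⟩ := hhfg.1 k G n r hn z hz
  have hinv' : ∀ (g : H) (a : Fin (n + 1) → H) (y : H),
      (fun (a : Fin (n + 1) → H) (y : H) => F (fun i => (a i : G)) (y : G))
        (fun i => g * a i) (g * y * g⁻¹) =
      (fun (a : Fin (n + 1) → H) (y : H) => F (fun i => (a i : G)) (y : G)) a y := by
    intro g a y
    have := hinv (g : G) (fun i => (a i : G)) (y : G)
    simpa using this
  have h0 := hhcg k H n r hn z' hz'
    (fun (a : Fin (n + 1) → H) (y : H) => F (fun i => (a i : G)) (y : G)) hinv'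
    (fun a y h => by
      rw [← HCT.fin_iff]
      exact hord _ _ h)
    (fun y hy => hadm H hH y hy)
  rw [hdzb.2.2.2 k H n r
    (fun (a : Fin (n + 1) → H) (y : H) => F (fun i => (a i : G)) (y : G)) hinv' z'] at h0
  rw [← h0]
  have hmapeq : hmap ℚ (glG (k := k) (ι := Fin r) H.subtype) (n + 1) z' =
      z'.mapDomain fun X i => glG (k := k) (ι := Fin r) H.subtype (X i) := rfl
  rw [hmapeq, Finsupp.sum_mapDomain_index]
  · refine Finsupp.sum_congr fun X _ => ?_
    congr 1
    rw [← hhna k G H n r F (fun l =>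
      ((X l)⁻¹ * X (l + 1) : (Matrix (Fin r) (Fin r) (MonoidAlgebra k H))ˣ).val)]
    congr 1
    funext l
    rw [← map_inv, ← map_mul]
    rfl
  · intro X
    simp
  · intro X q q'
    push_cast
    ring

end Pool.Agent.FJA
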