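import Pool.Agent.FJA.StX

/-!
# Powers divisible by infinitely many primes (module HFE)   (helper30)

An element `x` of a finitely generated domain of characteristic zero is zero if `x ^ ℓ` is divisible
by `ℓ` for infinitely many primes `ℓ`.
-/

set_option autoImplicit false

namespace Pool.Agent.FJA

namespace HFE

/-- denominators -/
theorem denoms (k : Type) [Field k] [CharZero k] (T : Finset k) (F : Type) [Field F] [CharZero F]
    [Algebra ℚ F] [Module.Finite ℚ F] (θ : Algebra.adjoin ℚ (T : Set k) →+* F) :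
    ∃ (n : ℤ), n ≠ 0 ∧
      (∀ c (hc : c ∈ T), IsIntegral ℤ ((n : F) * θ ⟨c, Algebra.subset_adjoin hc⟩)) ∧
      ∀ c ∈ Subring.closure (T : Set k), ∃ (h : c ∈ Algebra.adjoin ℚ (T : Set k)) (e : ℕ),
        IsIntegral ℤ ((n : F) ^ e * θ ⟨c, h⟩) := by
  classical
  let B : Subalgebra ℚ k := Algebra.adjoin ℚ (T : Set k)
  have : Algebra.IsAlgebraic ℚ F := Algebra.IsAlgebraic.of_finite ℚ _
  have halg : Algebra.IsAlgebraic ℤ F :=
    (IsFractionRing.comap_isAlgebraic_iff (A := ℤ) (K := ℚ) (C := F)).2 this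
  obtain ⟨n, hn, hint⟩ := Algebra.IsAlgebraic.exists_integral_multiples ℤ
    (T.attach.image fun c : {x // x ∈ T} =>
      θ ⟨(c : k), Algebra.subset_adjoin (Finset.mem_coe.2 c.2)⟩)
  have hT : ∀ c (hc : c ∈ T), IsIntegral ℤ ((n : F) * θ ⟨c, Algebra.subset_adjoin hc⟩) := by
    intro c hc
    have h1 := hint (θ ⟨c, Algebra.subset_adjoin hc⟩)
      (Finset.mem_image.2 ⟨⟨c, hc⟩, Finset.mem_attach _ _, rfl⟩)
    rwa [zsmul_eq_mul] at h1
  have hn' : IsIntegral ℤ (n : F) := by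
    have := isIntegral_algebraMap (R := ℤ) (A := F) (x := n)
    simpa using this
  refine ⟨n, hn, hT, ?_⟩
  intro c hc
  induction hc using Subring.closure_induction with
  | mem c hc =>
    refine ⟨Algebra.subset_adjoin hc, 1, ?_⟩
    rw [pow_one]
    exact hT c hc
  | zero =>
    refine ⟨B.zero_mem, 0, ?_⟩
    have : (⟨0, B.zero_mem⟩ : B) = 0 := rfl
    rw [this, map_zero, mul_zero]
    exact isIntegral_zero
  | one =>
    refine ⟨B.one_mem, 0, ?_⟩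
    have : (⟨1, B.one_mem⟩ : B) = 1 := rfl
    rw [this, map_one, mul_one, pow_zero]
    exact isIntegral_one
  | add x y _ _ hx hy =>
    obtain ⟨h1, e1, i1⟩ := hx
    obtain ⟨h2, e2, i2⟩ := hy
    refine ⟨B.add_mem h1 h2, e1 + e2, ?_⟩
    have : (⟨x + y, B.add_mem h1 h2⟩ : B) = ⟨x, h1⟩ + ⟨y, h2⟩ := rfl
    rw [this, map_add]
    have h3 : (n : F) ^ (e1 + e2) * (θ ⟨x, h1⟩ + θ ⟨y, h2⟩) =
        (n : F) ^ e2 * ((n : F) ^ e1 * θ ⟨x, h1⟩) +
        (n : F) ^ e1 * ((n : F) ^ e2 * θ ⟨y, h2⟩) := by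
      rw [pow_add]; ring
    rw [h3]
    exact ((hn'.pow e2).mul i1).add ((hn'.pow e1).mul i2)
  | neg x _ hx =>
    obtain ⟨h1, e1, i1⟩ := hx
    refine ⟨B.neg_mem h1, e1, ?_⟩
    have : (⟨-x, B.neg_mem h1⟩ : B) = -⟨x, h1⟩ := rfl
    rw [this, map_neg, mul_neg]
    exact i1.neg
  | mul x y _ _ hx hy =>
    obtain ⟨h1, e1, i1⟩ := hx
    obtain ⟨h2, e2, i2⟩ := hy
    refine ⟨B.mul_mem h1 h2, e1 + e2, ?_⟩
    have : (⟨x * y, B.mul_mem h1 h2⟩ : B) = ⟨x, h1⟩ * ⟨y, h2⟩ := rfl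
    rw [this, map_mul]
    have h3 : (n : F) ^ (e1 + e2) * (θ ⟨x, h1⟩ * θ ⟨y, h2⟩) =
        ((n : F) ^ e1 * θ ⟨x, h1⟩) * ((n : F) ^ e2 * θ ⟨y, h2⟩) := by
      rw [pow_add]; ring
    rw [h3]
    exact i1.mul i2

/-- specialization to a field which is finite over the rational numbers, with denominators -/
theorem special (k : Type) [Field k] [CharZero k] (T : Finset k) :
    ∃ (F : Type) (_ : Field F) (_ : CharZero F) (θ : Algebra.adjoin ℚ (T : Set k) →+* F) (n : ℤ),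
      n ≠ 0 ∧ (∀ c (hc : c ∈ T), IsIntegral ℤ ((n : F) * θ ⟨c, Algebra.subset_adjoin hc⟩)) ∧
      ∀ c ∈ Subring.closure (T : Set k), ∃ (h : c ∈ Algebra.adjoin ℚ (T : Set k)) (e : ℕ),
        IsIntegral ℤ ((n : F) ^ e * θ ⟨c, h⟩) := by
  classical
  let B : Subalgebra ℚ k := Algebra.adjoin ℚ (T : Set k)
  have : Algebra.FiniteType ℚ B :=
    (Subalgebra.fg_iff_finiteType B).1 (Subalgebra.fg_adjoin_finset T)
  obtain ⟨𝔪, h𝔪⟩ := Ideal.exists_maximal B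
  let θ : B →+* B ⧸ 𝔪 := Ideal.Quotient.mk 𝔪
  let I1 : Field (B ⧸ 𝔪) := Ideal.Quotient.field 𝔪
  have h1 : Algebra.FiniteType ℚ (B ⧸ 𝔪) := inferInstance
  have h2 : @Module.Finite ℚ (B ⧸ 𝔪) _ _ (Ideal.Quotient.algebra ℚ).toModule :=
    finite_of_finite_type_of_isJacobsonRing ℚ (B ⧸ 𝔪)
  have hc0 : CharZero (B ⧸ 𝔪) := algebraRat.charZero _
  exact ⟨B ⧸ 𝔪, I1, hc0, θ, @denoms k _ _ T (B ⧸ 𝔪) I1 hc0 (Ideal.Quotient.algebra ℚ) h2 θ⟩

/-- an integer which is `ℓ` times an algebraic integer is divisible by `ℓ` -/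
theorem dvd_of_integral {F : Type} [Field F] [CharZero F] {ℓ : ℕ} (hℓ : ℓ ≠ 0) {m : ℤ} {y : F}
    (hy : IsIntegral ℤ y) (h : (m : F) = (ℓ : F) * y) : (ℓ : ℤ) ∣ m := by
  have hℓF : (ℓ : F) ≠ 0 := by exact_mod_cast hℓ
  have h1 : y = algebraMap ℚ F ((m : ℚ) / ℓ) := by
    rw [map_div₀, map_intCast, map_natCast]
    field_simp
    rw [h]; ring
  rw [h1] at hy
  have h2 : IsIntegral ℤ ((m : ℚ) / ℓ) :=
    (isIntegral_algebraMap_iff (algebraMap ℚ F).injective).1 hy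
  obtain ⟨z, hz⟩ := IsIntegrallyClosed.isIntegral_iff.1 h2
  refine ⟨z, ?_⟩
  have hℓQ : (ℓ : ℚ) ≠ 0 := by exact_mod_cast hℓ
  have h3 : (m : ℚ) = ℓ * z := by
    have : (z : ℚ) = (m : ℚ) / ℓ := by simpa using hz
    rw [this]; field_simp
  exact_mod_cast h3

end HFE

open HFE in
theorem t_HFE : S_HFE := by
  classical
  intro k _ _ s x hx hinf
  by_contra hx0
  obtain ⟨F, _, _, θ, n, hn, hT, hA⟩ := special k (insert x⁻¹ s)
  obtain ⟨ℓ, ⟨hℓ, d, hd, a, ha, hda⟩, hlt⟩ := hinf.exists_gt n.natAbs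
  obtain ⟨ha', e, hi⟩ := hA a (Subring.closure_mono (by simp) ha)
  have hi2 := hT x⁻¹ (Finset.mem_insert_self _ _)
  have hxB : x⁻¹ ∈ Algebra.adjoin ℚ ((insert x⁻¹ s : Finset k) : Set k) :=
    Algebra.subset_adjoin (Finset.mem_coe.2 (Finset.mem_insert_self _ _))
  have h1 : (d : k) = (ℓ : k) * a * x⁻¹ ^ ℓ := by
    rw [← hda, mul_assoc, ← mul_pow, mul_inv_cancel₀ hx0, one_pow, mul_one]
  have h2 : ((d : ℤ) : Algebra.adjoin ℚ ((insert x⁻¹ s : Finset k) : Set k)) =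
      (ℓ : Algebra.adjoin ℚ ((insert x⁻¹ s : Finset k) : Set k)) * ⟨a, ha'⟩ * ⟨x⁻¹, hxB⟩ ^ ℓ := by
    apply Subtype.ext
    push_cast
    exact h1
  have h3 := congrArg θ h2
  rw [map_intCast, map_mul, map_mul, map_natCast, map_pow] at h3
  have h4 : ((n ^ (e + ℓ) * d : ℤ) : F) = (ℓ : F) *
      (((n : F) ^ e * θ ⟨a, ha'⟩) * ((n : F) * θ ⟨x⁻¹, hxB⟩) ^ ℓ) := by
    push_cast
    rw [h3, pow_add, mul_pow]
    ring
  have h5 := dvd_of_integral hℓ.ne_zero (hi.mul (hi2.pow ℓ)) h4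
  have hp : Prime (ℓ : ℤ) := Nat.prime_iff_prime_int.1 hℓ
  rcases hp.dvd_or_dvd h5 with h6 | h6
  · have h7 := hp.dvd_of_dvd_pow h6
    have h8 := Int.natAbs_dvd_natAbs.2 h7
    rw [Int.natAbs_natCast] at h8
    have h9 := Nat.le_of_dvd (Int.natAbs_pos.2 hn) h8
    omega
  · exact hd h6

end Pool.Agent.FJA
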