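import Pool.Agent.FJA.StX
import Pool.Agent.FJA.P_SUP
import Pool.Agent.FJA.P_RGB
import Pool.Agent.FJA.P_TXA
import Pool.Agent.FJA.P_TXD
import Pool.Agent.FJA.P_HIN

/-!
# HMC: the main congruence
-/

set_option autoImplicit false

open Matrix Pool.Agent.WhK Pool.Agent.Lib25

noncomputable section

namespace Pool.Agent.FJA

namespace HMC

/-- The functional of an invariant function vanishes on the degenerate chains. -/
theorem sum_faces {k : Type} [Field k] [CharZero k] {G : Type} [Group G] {n r : ℕ}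
    (η : Rec G (Fin (n + 1)) → ℚ) (hη : CjInv η) (N : ℕ)
    (z : (Fin (n + 2) → (Matrix (Fin r) (Fin r) (MonoidAlgebra k G))ˣ) →₀ ℚ)
    (hz : z ∈ cyc ℚ ((Matrix (Fin r) (Fin r) (MonoidAlgebra k G))ˣ) (n + 1)) :
    (z.sum fun X q => (q : k) * ∑ i : Fin (n + 2), (-1 : k) ^ (i : ℕ) *
      TX η N (fun t => X (i.succAbove t))) = 0 := by
  classical
  obtain ⟨Λ, hΛ⟩ : ∃ Λ : ((Fin (n + 1) → (Matrix (Fin r) (Fin r) (MonoidAlgebra k G))ˣ) →₀ ℚ) →ₗ[ℚ] k,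
      ∀ Y q, Λ (Finsupp.single Y q) = (q : k) * TX η N Y := by
    refine ⟨Finsupp.linearCombination ℚ fun Y => TX η N Y, fun Y q => ?_⟩
    rw [Finsupp.linearCombination_single, Algebra.smul_def]
    rfl
  have h1 : bd ℚ ((Matrix (Fin r) (Fin r) (MonoidAlgebra k G))ˣ) (n + 1) z ∈
      hdeg ℚ ((Matrix (Fin r) (Fin r) (MonoidAlgebra k G))ˣ) n := hz
  have h2 : ∀ x ∈ hdeg ℚ ((Matrix (Fin r) (Fin r) (MonoidAlgebra k G))ˣ) n, Λ x = 0 := by
    intro x hx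
    unfold hdeg at hx
    refine Submodule.span_induction (p := fun x _ => Λ x = 0) ?_ ?_ ?_ ?_ hx
    · rintro x ⟨g, Y, rfl⟩
      rw [map_sub, hΛ, hΛ]
      rw [t_TXinv k G (Fin r) (n + 1) N η hη g Y, sub_self]
    · exact map_zero Λ
    · intro x y _ _ hx hy
      rw [map_add, hx, hy, add_zero]
    · intro a x _ hx
      rw [map_smul, hx, smul_zero]
  have h3 := h2 _ h1
  unfold bd at h3
  rw [Finsupp.linearCombination_apply, Finsupp.sum, map_sum] at h3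
  rw [Finsupp.sum, ← h3]
  refine Finset.sum_congr rfl fun X _ => ?_
  rw [map_smul, map_sum, Algebra.smul_def]
  congr 1
  refine Finset.sum_congr rfl fun i _ => ?_
  rw [hΛ]
  push_cast
  rfl

/-- `fst F` only depends on the first visit. -/
theorem fst_first {Γ : Type} [Group Γ] {M : ℕ} (F : (Fin M → Γ) → Γ → ℚ) (μ ν : Rec Γ (Fin M))
    (h : ∀ i, μ.lst i ≠ []) : fst F (μ * ν) = fst F (μ * Rec.inc ν.val) := by
  have h1 : ∀ ν' : Rec Γ (Fin M), ∀ i, (μ * ν').lst i ≠ [] := by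
    intro ν' i h2
    rw [Rec.mul_lst, List.append_eq_nil_iff] at h2
    exact h i h2.1
  have h2 : ∀ ν' : Rec Γ (Fin M), ∀ i, ((μ * ν').lst i).headD 1 = (μ.lst i).headD 1 := by
    intro ν' i
    obtain ⟨a, Y, hY⟩ := List.exists_cons_of_ne_nil (h i)
    rw [Rec.mul_lst, hY]
    rfl
  unfold fst
  rw [if_pos (h1 _), if_pos (h1 _)]
  simp only [h2]
  rfl

theorem UG_pU {k : Type} [Field k] {Γ : Type} [Group Γ] {ι : Type} [Fintype ι] [DecidableEq ι]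
    {M : ℕ} (X : Fin M → (Matrix ι ι (MonoidAlgebra k Γ))ˣ) : UG (fun i => pU (X i)) = UX X := rfl

theorem TG_pU {k : Type} [Field k] {Γ : Type} [Group Γ] {ι : Type} [Fintype ι] [DecidableEq ι]
    {M : ℕ} (φ : Rec Γ (Fin M) → ℚ) (N : ℕ)
    (X : Fin M → (Matrix ι ι (MonoidAlgebra k Γ))ˣ) : TG φ N (fun i => pU (X i)) = TX φ N X := rfl

/-- The values of the functions `evN`, `fst` are values of the family or zero. -/
theorem den_evN {Γ : Type} [Group Γ] {M : ℕ} (N ℓ : ℕ) (hℓ : ℓ.Prime) (F : (Fin M → Γ) → Γ → ℚ)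
    (s : List Γ → Γ → Γ) (hF : ∀ a y, ¬ ℓ ∣ (F a y).den) (μ : Rec Γ (Fin M)) :
    ¬ ℓ ∣ (evN N F s μ).den := by
  unfold evN
  split_ifs
  · exact hF _ _
  · rw [Rat.den_zero, Nat.dvd_one]
    exact hℓ.one_lt.ne'

theorem den_fst {Γ : Type} [Group Γ] {M : ℕ} (ℓ : ℕ) (hℓ : ℓ.Prime) (F : (Fin M → Γ) → Γ → ℚ)
    (hF : ∀ a y, ¬ ℓ ∣ (F a y).den) (μ : Rec Γ (Fin M)) : ¬ ℓ ∣ (fst F μ).den := by
  unfold fst
  split_ifs
  · exact hF _ _
  · rw [Rat.den_zero, Nat.dvd_one]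
    exact hℓ.one_lt.ne'

/-- The set of the coefficients of the entries of a matrix. -/
theorem exists_coeffs {k : Type} [Field k] {Γ : Type} {ι : Type} [Fintype ι]
    (X : Matrix ι ι (MonoidAlgebra k Γ)) : ∃ s : Finset k, ∀ a b γ, (X a b).coeff γ ≠ 0 →
      (X a b).coeff γ ∈ s := by
  classical
  refine ⟨Finset.univ.biUnion fun a => Finset.univ.biUnion fun b =>
    (X a b).coeff.support.image (X a b).coeff, fun a b γ h => ?_⟩
  exact Finset.mem_biUnion.2 ⟨a, Finset.mem_univ _, Finset.mem_biUnion.2 ⟨b, Finset.mem_univ _,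
    Finset.mem_image.2 ⟨γ, Finsupp.mem_support_iff.2 h, rfl⟩⟩⟩

theorem li_sum {k : Type} [Field k] [CharZero k] (hlda : S_LDA) (s : Finset k) (ℓ : ℕ)
    (hℓ : ℓ.Prime) {I : Type} (J : Finset I) (x : I → k) (h : ∀ i ∈ J, LI s ℓ (x i)) :
    LI s ℓ (∑ i ∈ J, x i) := by
  classical
  obtain ⟨⟨-, hq, hadd, -⟩, -⟩ := hlda k s ℓ hℓ
  induction J using Finset.induction_on with
  | empty =>
    rw [Finset.sum_empty]
    have := hq 0 (by
      rw [Rat.den_zero, Nat.dvd_one]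
      exact hℓ.one_lt.ne')
    rwa [Rat.cast_zero] at this
  | insert a J ha ih =>
    rw [Finset.sum_insert ha]
    exact (hadd _ _ (h a (Finset.mem_insert_self _ _))
      (ih fun i hi => h i (Finset.mem_insert_of_mem hi))).1

end HMC

open HMC

/-- MODULE HMC -/
theorem t_HMC (hlda : S_LDA) (hgac : S_GAC) (hhsp : S_HSP) (htrq : S_TRQ) (hscq : S_SCQ)
    (hpwq : S_PWQ) (hhgd : S_HGD) (hhin : S_HIN) : S_HMC := by
  classical
  intro k _ _ G _ n r hn z hz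
  obtain ⟨m, rfl⟩ : ∃ m, n = m + 1 := ⟨n - 1, by omega⟩
  obtain ⟨hsa, hsb, -⟩ := t_SUP
  -- the finite data
  choose T hT1 hT2 using fun X : (Fin (m + 2) → (Matrix (Fin r) (Fin r) (MonoidAlgebra k G))ˣ) =>
    hsb k G (Fin r) (m + 2) X
  obtain ⟨T0, hT0⟩ : ∃ T0 : Finset (Rec G (Fin (m + 2))), T0 = z.support.biUnion T := ⟨_, rfl⟩
  have hT0l : ∀ t ∈ T0, ∀ i, (t.lst i).length = 1 := by
    intro t ht i
    rw [hT0] at ht
    obtain ⟨x, _, hx⟩ := Finset.mem_biUnion.1 ht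
    exact hT1 x t hx i
  obtain ⟨L, hL⟩ := hsa G (m + 2) T0 hT0l
  obtain ⟨Sb, hSb⟩ : ∃ Sb : Submonoid (Rec G (Fin (m + 2))),
      Sb = Submonoid.closure (T0 : Set (Rec G (Fin (m + 2)))) := ⟨_, rfl⟩
  choose cf hcf using fun X : Matrix (Fin r) (Fin r) (MonoidAlgebra k G) => exists_coeffs X
  obtain ⟨s, hs⟩ : ∃ s : Finset k, s = z.support.biUnion fun X => Finset.univ.biUnion fun j =>
    cf (X j).val ∪ cf ((X j)⁻¹).val := ⟨_, rfl⟩
  have hsA : ∀ X ∈ z.support, ∀ j, (∀ a b γ, ((X j).val a b).coeff γ ∈ Subring.closure (s : Set k)) ∧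
      ∀ a b γ, (((X j)⁻¹).val a b).coeff γ ∈ Subring.closure (s : Set k) := by
    intro X hX j
    constructor
    · intro a b γ
      by_cases h : ((X j).val a b).coeff γ = 0
      · rw [h]
        exact Subring.zero_mem _
      · refine Subring.subset_closure (Finset.mem_coe.2 ?_)
        rw [hs]
        exact Finset.mem_biUnion.2 ⟨X, hX, Finset.mem_biUnion.2 ⟨j, Finset.mem_univ _,
          Finset.mem_union_left _ (hcf _ a b γ h)⟩⟩
    · intro a b γ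
      by_cases h : (((X j)⁻¹).val a b).coeff γ = 0
      · rw [h]
        exact Subring.zero_mem _
      · refine Subring.subset_closure (Finset.mem_coe.2 ?_)
        rw [hs]
        exact Finset.mem_biUnion.2 ⟨X, hX, Finset.mem_biUnion.2 ⟨j, Finset.mem_univ _,
          Finset.mem_union_right _ (hcf _ a b γ h)⟩⟩
  refine ⟨s, L ∪ T0.image Rec.val, ∑ X ∈ z.support, (z X).den, ?_⟩
  intro ℓ hℓ hBℓ F hinv hcoc hbas hden hVV
  obtain ⟨⟨-, hq, hadd, hpow⟩, ⟨hDadd, hDmul, hDsum⟩, hFrob, hFermat, -, -, -⟩ := hlda k s ℓ hℓ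
  -- the section
  obtain ⟨sec, hsec, hsec2⟩ := hhsp G
  obtain ⟨φ, hφ⟩ : ∃ φ, φ = evN ℓ F sec := ⟨_, rfl⟩
  have hSbB : Sb ≤ Bal G (Fin (m + 2)) := fun μ hμ => (hL μ (by rw [← hSb]; exact hμ)).1
  have hgood : ∀ μ ∈ Sb, (∀ i, (μ.lst i).length = ℓ) → (∃ a, F a μ.val ≠ 0) →
      ∀ i, GoodQ (μ.lst i) μ.val := by
    rintro μ hμ hl ⟨a, ha⟩ i
    refine hhgd G μ.val ℓ hℓ L ?_ (μ.lst i) μ.val (hl i) (IsConj.refl _) ?_
    · intro u hu hc
      obtain ⟨c, hc⟩ := isConj_iff.1 hc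
      refine hVV u (Finset.mem_union_left _ hu) (fun i => c⁻¹ * a i) ?_
      have h1 : u ^ ℓ = c⁻¹ * μ.val * (c⁻¹)⁻¹ := by
        rw [← hc]
        group
      rw [h1, hinv]
      exact ha
    · refine (hL μ (by rw [← hSb]; exact hμ)).2 (fun j h => ?_) i
      have := hl j
      rw [h, List.length_nil] at this
      exact hℓ.pos.ne this
  have htr := htrq G (m + 2) ℓ F sec hℓ.pos hinv hbas hsec Sb hSbB hgood
  rw [← hφ] at htr
  have hφden : ∀ μ, ¬ ℓ ∣ (φ μ).den := by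
    intro μ
    rw [hφ]
    exact den_evN ℓ ℓ hℓ F sec hden μ
  have hPden : ∀ a y, ¬ ℓ ∣ (powF ℓ F a y).den := fun a y => hden a (y ^ ℓ)
  have hUS : ∀ X ∈ z.support, ∀ a b μ, (UX X a b).coeff μ ≠ 0 → μ ∈ T0 := by
    intro X hX a b μ hμ
    rw [hT0]
    exact Finset.mem_biUnion.2 ⟨X, hX, hT2 X a b μ hμ⟩
  -- integrality
  have hLI : ∀ X ∈ z.support, ∀ ψ : Rec G (Fin (m + 2)) → ℚ, (∀ μ, ¬ ℓ ∣ (ψ μ).den) → ∀ N,
      LI s ℓ (TX ψ N X) := by
    intro X hX ψ hψ N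
    obtain ⟨d, hd, h⟩ := hhin k G (Fin r) 1 (m + 2) N (Subring.closure (s : Set k))
      (fun i => pU (X i)) (fun i => (hsA X hX i).1) (fun i => (hsA X hX i).2) ℓ hℓ ψ hψ
    exact ⟨d, hd, h⟩
  have hzden : ∀ X ∈ z.support, ¬ ℓ ∣ (z X).den := by
    intro X hX hdv
    have h1 := Nat.le_of_dvd (z X).den_pos hdv
    have h2 := Finset.single_le_sum (f := fun X => (z X).den) (fun _ _ => Nat.zero_le _) hX
    have h3 : (z X).den ≤ ∑ X ∈ z.support, (z X).den := h2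
    omega
  have hzLI : ∀ X ∈ z.support, LI s ℓ ((z X : ℚ) : k) := fun X hX => hq _ (hzden X hX)
  have hLIZ : ∀ F' : (Fin (m + 2) → G) → G → ℚ, (∀ a y, ¬ ℓ ∣ (F' a y).den) →
      LI s ℓ (DZ F' z) := by
    intro F' hF'
    unfold DZ
    rw [Finsupp.sum]
    refine li_sum hlda s ℓ hℓ _ _ fun X hX => ?_
    exact (hadd _ _ (hzLI X hX) (hLI X hX _ (den_fst ℓ hℓ F' hF') 1)).2.2
  refine ⟨hLIZ F hden, hLIZ _ hPden, ?_⟩
  -- the Gauss congruence
  obtain ⟨y, hy⟩ : ∃ y : (Fin (m + 2) → (Matrix (Fin r) (Fin r) (MonoidAlgebra k G))ˣ) → k,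
      ∀ X, y X = TX (fst (powF ℓ F)) 1 X := ⟨_, fun _ => rfl⟩
  have hyLI : ∀ X ∈ z.support, LI s ℓ (y X) := by
    intro X hX
    rw [hy]
    exact hLI X hX _ (den_fst ℓ hℓ _ hPden) 1
  have hpowX : ∀ X ∈ z.support, TX (fun μ => φ (μ ^ ℓ)) 1 X = y X := by
    intro X hX
    rw [hy]
    refine RGB.TX_congr _ _ _ fun a b μ hμ => ?_
    have hμT := hUS X hX a b μ hμ
    rw [hφ]
    exact hpwq G (m + 2) ℓ F sec hℓ.pos hbas hsec2 μ (hT0l μ hμT) fun a' ha' =>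
      hVV μ.val (Finset.mem_union_right _ (Finset.mem_image.2 ⟨μ, hμT, rfl⟩)) a' ha'
  have hGauss : ∀ X ∈ z.support, LD s ℓ (TX φ ℓ X - y X ^ ℓ) := by
    intro X hX
    have h1 := hgac k s ℓ hℓ (Rec G (Fin (m + 2))) Sb φ hφden htr (Fin r) (UX X)
      (fun a b μ => HIN.cim_UG (Subring.closure (s : Set k)) (fun i => pU (X i))
        (fun i => (hsA X hX i).1) (fun i => (hsA X hX i).2) a b μ)
      (fun a b μ hμ => by
        rw [hSb]
        exact Submonoid.subset_closure (Finset.mem_coe.2 (hUS X hX a b μ hμ)))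
    have h2 : lin k (fun μ => φ (μ ^ ℓ)) (Matrix.trace (UX X)) = y X := by
      rw [← hpowX X hX]
      unfold TX
      rw [pow_one]
    rw [h2] at h1
    exact h1
  -- the value on the cycle
  have hsumF : DZ F z = ∑ X ∈ z.support, ((z X : ℚ) : k) * TX φ ℓ X := by
    obtain ⟨η, hη, hηs⟩ := hscq G (m + 1) ℓ F sec hℓ.pos hinv hcoc hbas hsec
    have h1 := sum_faces η hη ℓ z hz
    rw [Finsupp.sum] at h1
    have h2 : ∑ X ∈ z.support, ((z X : ℚ) : k) * TX φ ℓ X -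
        ∑ X ∈ z.support, ((z X : ℚ) : k) * TX (fst F) ℓ X =
        ∑ X ∈ z.support, ((z X : ℚ) : k) * ∑ i : Fin (m + 2), (-1 : k) ^ (i : ℕ) *
          TX η ℓ (fun t => X (i.succAbove t)) := by
      rw [← Finset.sum_sub_distrib]
      refine Finset.sum_congr rfl fun X _ => ?_
      rw [← mul_sub, hφ, hηs k (Fin r) X]
    rw [h1, sub_eq_zero] at h2
    rw [h2]
    unfold DZ
    rw [Finsupp.sum]
    refine Finset.sum_congr rfl fun X _ => ?_
    rw [t_TXfst k G (Fin r) (m + 2) ℓ (fst F) X hℓ.pos (fun μ ν h => fst_first _ μ ν h)]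
  have hsumP : DZ (powF ℓ F) z = ∑ X ∈ z.support, ((z X : ℚ) : k) * y X := by
    unfold DZ
    rw [Finsupp.sum]
    refine Finset.sum_congr rfl fun X _ => ?_
    rw [hy]
  have e1 : LD s ℓ (∑ X ∈ z.support, ((z X : ℚ) : k) * (TX φ ℓ X - y X ^ ℓ)) :=
    hDsum _ _ _ fun X hX => hDmul _ _ (hzLI X hX) (hGauss X hX)
  have e2 : LD s ℓ (∑ X ∈ z.support, y X ^ ℓ * (((z X : ℚ) : k) ^ ℓ - (z X : ℚ))) :=
    hDsum _ _ _ fun X hX => hDmul _ _ (hpow _ (hyLI X hX) ℓ) (hFermat _ (hzden X hX))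
  have e3 : LD s ℓ ((∑ X ∈ z.support, ((z X : ℚ) : k) * y X) ^ ℓ -
      ∑ X ∈ z.support, (((z X : ℚ) : k) * y X) ^ ℓ) :=
    hFrob _ _ _ fun X hX => (hadd _ _ (hzLI X hX) (hyLI X hX)).2.2
  have e4 := (hDadd _ _ (hDadd _ _ e1 e2).2 e3).2
  rw [hsumF, hsumP]
  have e5 : ∑ X ∈ z.support, ((z X : ℚ) : k) * TX φ ℓ X -
      (∑ X ∈ z.support, ((z X : ℚ) : k) * y X) ^ ℓ =
      ∑ X ∈ z.support, ((z X : ℚ) : k) * (TX φ ℓ X - y X ^ ℓ) -
        ∑ X ∈ z.support, y X ^ ℓ * (((z X : ℚ) : k) ^ ℓ - (z X : ℚ)) -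
        ((∑ X ∈ z.support, ((z X : ℚ) : k) * y X) ^ ℓ -
          ∑ X ∈ z.support, (((z X : ℚ) : k) * y X) ^ ℓ) := by
    have h1 : ∑ X ∈ z.support, ((z X : ℚ) : k) * (TX φ ℓ X - y X ^ ℓ) =
        ∑ X ∈ z.support, ((z X : ℚ) : k) * TX φ ℓ X -
          ∑ X ∈ z.support, ((z X : ℚ) : k) * y X ^ ℓ := by
      rw [← Finset.sum_sub_distrib]
      exact Finset.sum_congr rfl fun X _ => by ring
    have h2 : ∑ X ∈ z.support, y X ^ ℓ * (((z X : ℚ) : k) ^ ℓ - (z X : ℚ)) =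
        ∑ X ∈ z.support, (((z X : ℚ) : k) * y X) ^ ℓ -
          ∑ X ∈ z.support, ((z X : ℚ) : k) * y X ^ ℓ := by
      rw [← Finset.sum_sub_distrib]
      exact Finset.sum_congr rfl fun X _ => by ring
    rw [h1, h2]
    ring
  rw [e5]
  exact e4

end Pool.Agent.FJA
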