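import Pool.Agent.FJA.StW
import Pool.Agent.FJA.P_MRN

/-!
# FJA: the module HSE

For a pair all of whose stabilising elements are powers of `y`, the section is `γ * rep A 0`, where `A` is the
sequence of the pair (see `P_SEC.lean`), `rep A` the representative of its class, and `A n = γ * rep A (n + m)`.
-/

set_option autoImplicit false

noncomputable section

namespace Pool.Agent.FJA

namespace HSE

open SEC MRN

variable {Γ : Type} [Group Γ]

lemma goodQ_iff {Y : List Γ} (hY : Y ≠ []) (y : Γ) :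
    GoodQ Y y ↔ ∀ (δ : Γ) (e : ℤ), PNT.St (sq Y y) δ e → δ ∈ Subgroup.zpowers y := by
  constructor
  · intro h δ e he
    rcases le_total 0 e with h0 | h0
    · have h1 : ((e.toNat : ℕ) : ℤ) = e := Int.toNat_of_nonneg h0
      exact h δ e.toNat ((PNT.stb_iff hY y δ _).2 (by rw [h1]; exact he))
    · have h1 : (((-e).toNat : ℕ) : ℤ) = -e := Int.toNat_of_nonneg (by omega)
      have h2 := h δ⁻¹ (-e).toNat ((PNT.stb_iff hY y _ _).2 (by rw [h1]; exact PNT.st_inv he))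
      exact inv_mem_iff.1 h2
  · intro h δ e he
    exact h δ e ((PNT.stb_iff hY y δ e).1 he)

lemma mem_conj {γ y δ : Γ} :
    γ * δ * γ⁻¹ ∈ Subgroup.zpowers (γ * y * γ⁻¹) ↔ δ ∈ Subgroup.zpowers y := by
  rw [Subgroup.mem_zpowers_iff, Subgroup.mem_zpowers_iff]
  refine exists_congr fun t => ?_
  rw [conj_zpow, mul_left_inj, mul_right_inj]

lemma goodQ_conj {Y : List Γ} (hY : Y ≠ []) (γ y : Γ) :
    GoodQ (Y.map (γ * ·)) (γ * y * γ⁻¹) ↔ GoodQ Y y := by
  have hY' : Y.map (γ * ·) ≠ [] := by simpa using hY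
  rw [goodQ_iff hY', goodQ_iff hY]
  constructor
  · intro h δ e he
    refine mem_conj.1 (h (γ * δ * γ⁻¹) e fun a => ?_)
    rw [sq_conj hY, sq_conj hY, he a]
    group
  · intro h δ e he
    have h2 : γ⁻¹ * δ * γ ∈ Subgroup.zpowers y := by
      refine h (γ⁻¹ * δ * γ) e fun a => ?_
      have h1 := he a
      rw [sq_conj hY, sq_conj hY] at h1
      rw [mul_assoc, mul_assoc, ← h1, inv_mul_cancel_left]
    have h3 := (mem_conj (γ := γ)).2 h2
    have h4 : γ * (γ⁻¹ * δ * γ) * γ⁻¹ = δ := by group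
    rwa [h4] at h3

lemma goodQ_rot {Y : List Γ} (hY : Y ≠ []) (y : Γ) (h : GoodQ Y y) :
    GoodQ (rotL y Y) y := by
  rw [goodQ_iff hY] at h
  rw [goodQ_iff (PNT.rotL_ne hY y)]
  intro δ e he
  refine h δ e fun a => ?_
  have h1 := he (a - 1)
  rw [PNT.sq_rotL hY, PNT.sq_rotL hY, sub_add_cancel,
    show a - 1 + e + 1 = a + e by ring] at h1
  exact h1

/-- the domain of the section -/
def Dom (Y : List Γ) (y : Γ) : Prop := Y ≠ [] ∧ GoodQ Y y

open Classical in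
/-- the section -/
def sec (Y : List Γ) (y : Γ) : Γ :=
  if Dom Y y then (rep_spec (sq Y y)).choose * rep (sq Y y) 0 else Y.headD 1

lemma sec_dom {Y : List Γ} {y : Γ} (hD : Dom Y y) :
    ∃ (γ : Γ) (m : ℤ), (∀ n, sq Y y n = γ * rep (sq Y y) (n + m)) ∧
      sec Y y = γ * rep (sq Y y) 0 := by
  classical
  refine ⟨(rep_spec (sq Y y)).choose, (rep_spec (sq Y y)).choose_spec.choose,
    (rep_spec (sq Y y)).choose_spec.choose_spec, ?_⟩
  rw [sec, if_pos hD]

lemma sec_eq {Y : List Γ} {y : Γ} (hD : Dom Y y) {γ : Γ} {m : ℤ}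
    (h : ∀ n, sq Y y n = γ * rep (sq Y y) (n + m)) :
    ∃ t : ℤ, sec Y y = y ^ t * (γ * rep (sq Y y) 0) := by
  obtain ⟨γ', m', h', hs⟩ := sec_dom hD
  obtain ⟨hY, hg⟩ := hD
  have h1 : PNT.St (sq Y y) (γ * γ'⁻¹) (m - m') := by
    intro n
    rw [h n, h' (n + (m - m')), show n + (m - m') + m' = n + m by ring]
    group
  obtain ⟨j, hj⟩ := Subgroup.mem_zpowers_iff.1 ((goodQ_iff hY y).1 hg _ _ h1)
  have h5 : γ' = y ^ (-j) * γ := by
    rw [zpow_neg, hj]
    group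
  exact ⟨-j, by rw [hs, h5, mul_assoc]⟩

lemma dom_conj {Y : List Γ} (γ y : Γ) :
    Dom (Y.map (γ * ·)) (γ * y * γ⁻¹) ↔ Dom Y y := by
  by_cases hY : Y = []
  · subst hY
    simp [Dom]
  · have hY' : Y.map (γ * ·) ≠ [] := by simpa using hY
    unfold Dom
    rw [goodQ_conj hY]
    exact ⟨fun h => ⟨hY, h.2⟩, fun h => ⟨hY', h.2⟩⟩

end HSE

open HSE SEC MRN in
/-- MODULE HSE -/
theorem t_HSE : S_HSE := by
  classical
  intro Γ _
  refine ⟨HSE.sec, ⟨?_, ?_⟩⟩
  · intro γ Y y hY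
    by_cases hD : HSE.Dom Y y
    · have hD' : HSE.Dom (Y.map (γ * ·)) (γ * y * γ⁻¹) := (HSE.dom_conj γ y).2 hD
      obtain ⟨δ, m, h, hs⟩ := HSE.sec_dom hD
      have hc := sq_conj hY γ y
      have hr : rep (sq (Y.map (γ * ·)) (γ * y * γ⁻¹)) = rep (sq Y y) :=
        rep_congr γ 0 fun n => by rw [hc, add_zero]
      obtain ⟨t, ht⟩ := HSE.sec_eq hD' (γ := γ * δ) (m := m) fun n => by
        rw [hc, hr, h n, mul_assoc]
      refine ⟨t, ?_⟩
      rw [ht, hr, hs, conj_zpow]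
      group
    · have hD' : ¬ HSE.Dom (Y.map (γ * ·)) (γ * y * γ⁻¹) := fun h => hD ((HSE.dom_conj γ y).1 h)
      refine ⟨0, ?_⟩
      rw [HSE.sec, HSE.sec, if_neg hD, if_neg hD', zpow_zero, one_mul]
      obtain ⟨a, Z, rfl⟩ := List.exists_cons_of_ne_nil hY
      rfl
  · intro Y y hg
    by_cases hY : Y = []
    · subst hY
      exact ⟨0, by rw [zpow_zero, one_mul]; rfl⟩
    · have hD : HSE.Dom Y y := ⟨hY, hg⟩
      have hD' : HSE.Dom (rotL y Y) y := ⟨PNT.rotL_ne hY y, goodQ_rot hY y hg⟩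
      obtain ⟨δ, m, h, hs⟩ := HSE.sec_dom hD
      have hc := PNT.sq_rotL hY y
      have hr : rep (sq (rotL y Y) y) = rep (sq Y y) :=
        rep_congr 1 1 fun n => by rw [hc, one_mul]
      obtain ⟨t, ht⟩ := HSE.sec_eq hD' (γ := δ) (m := m + 1) fun n => by
        rw [hc, hr, h (n + 1), show n + 1 + m = n + (m + 1) by ring]
      exact ⟨t, by rw [ht, hr, hs]⟩

end Pool.Agent.FJA
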