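import Pool.Agent.FJA.StX
import Pool.Agent.FJA.P_HSE

/-!
# FJA: the module HSP

The section of `P_HSE.lean` has values in the positions: `γ * rep A 0 = A (-m)` for the sequence `A` of the pair, and the
values of `A` are powers of `y` times entries of the list (`SEC.sq_mem`).
-/

set_option autoImplicit false

noncomputable section

namespace Pool.Agent.FJA

namespace HSP

open SEC MRN

variable {Γ : Type} [Group Γ]

/-- The section of `P_HSE.lean` satisfies `SecQ`. -/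
lemma secQ : SecQ (HSE.sec (Γ := Γ)) := by
  classical
  refine ⟨?_, ?_⟩
  · intro γ Y y hY
    by_cases hD : HSE.Dom Y y
    · have hD' : HSE.Dom (Y.map (γ * ·)) (γ * y * γ⁻¹) := (HSE.dom_conj γ y).2 hD
      obtain ⟨δ, m, h, hs⟩ := HSE.sec_dom hD
      have hc := sq_conj hY γ y
      have hr : rep (sq (Y.map (γ * ·)) (γ * y * γ⁻¹)) = rep (sq Y y) :=
        rep_congr γ 0 fun n => by rw [hc, add_zero]
      obtain ⟨t, ht⟩ := HSE.sec_eq hD' (γ := γ * δ) (m := m) fun n => by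
        rw [hc, hr, h n, mul_assoc]
      refine ⟨t, ?_⟩
      rw [ht, hr, hs, conj_zpow]
      group
    · have hD' : ¬ HSE.Dom (Y.map (γ * ·)) (γ * y * γ⁻¹) := fun h => hD ((HSE.dom_conj γ y).1 h)
      refine ⟨0, ?_⟩
      rw [HSE.sec, HSE.sec, if_neg hD, if_neg hD', zpow_zero, one_mul]
      obtain ⟨a, Z, rfl⟩ := List.exists_cons_of_ne_nil hY
      rfl
  · intro Y y hg
    by_cases hY : Y = []
    · subst hY
      exact ⟨0, by rw [zpow_zero, one_mul]; rfl⟩
    · have hD : HSE.Dom Y y := ⟨hY, hg⟩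
      have hD' : HSE.Dom (rotL y Y) y := ⟨PNT.rotL_ne hY y, HSE.goodQ_rot hY y hg⟩
      obtain ⟨δ, m, h, hs⟩ := HSE.sec_dom hD
      have hc := PNT.sq_rotL hY y
      have hr : rep (sq (rotL y Y) y) = rep (sq Y y) :=
        rep_congr 1 1 fun n => by rw [hc, one_mul]
      obtain ⟨t, ht⟩ := HSE.sec_eq hD' (γ := δ) (m := m + 1) fun n => by
        rw [hc, hr, h (n + 1), show n + 1 + m = n + (m + 1) by ring]
      exact ⟨t, by rw [ht, hr, hs]⟩

/-- Its values are powers of `y` times entries of the list. -/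
lemma sec_mem (Y : List Γ) (y : Γ) (hY : Y ≠ []) :
    ∃ (t : ℤ), ∃ a ∈ Y, HSE.sec Y y = y ^ t * a := by
  classical
  by_cases hD : HSE.Dom Y y
  · obtain ⟨γ, m, h, hs⟩ := HSE.sec_dom hD
    obtain ⟨t, a, ha, hta⟩ := sq_mem hY y (-m)
    refine ⟨t, a, ha, ?_⟩
    rw [← hta, hs, h (-m), neg_add_cancel]
  · obtain ⟨a, Z, rfl⟩ := List.exists_cons_of_ne_nil hY
    refine ⟨0, a, List.mem_cons_self, ?_⟩
    rw [HSE.sec, if_neg hD, zpow_zero, one_mul]
    rfl

end HSP

/-- MODULE HSP -/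
theorem t_HSP : S_HSP := by
  intro Γ _
  exact ⟨HSE.sec, HSP.secQ, fun Y y hY => HSP.sec_mem Y y hY⟩

end Pool.Agent.FJA
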