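import Pool.Agent.FJA.StX

/-!
# LDA: rules for `LI` and `LD`
-/

set_option autoImplicit false

noncomputable section

namespace Pool.Agent.FJA

namespace LDA

variable {k : Type} [Field k]

theorem int_mem (s : Finset k) (n : ℤ) : (n : k) ∈ Subring.closure (s : Set k) :=
  intCast_mem _ n

theorem ndvd_mul {ℓ : ℕ} (hℓ : ℓ.Prime) {a b : ℤ} (ha : ¬ (ℓ : ℤ) ∣ a) (hb : ¬ (ℓ : ℤ) ∣ b) :
    ¬ (ℓ : ℤ) ∣ a * b := fun h =>
  ((Nat.prime_iff_prime_int.1 hℓ).dvd_or_dvd h).elim ha hb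

theorem ndvd_one {ℓ : ℕ} (hℓ : ℓ.Prime) : ¬ (ℓ : ℤ) ∣ 1 := fun h =>
  (Nat.prime_iff_prime_int.1 hℓ).not_isUnit (isUnit_of_dvd_one h)

theorem ndvd_pow {ℓ : ℕ} (hℓ : ℓ.Prime) {a : ℤ} (ha : ¬ (ℓ : ℤ) ∣ a) (m : ℕ) :
    ¬ (ℓ : ℤ) ∣ a ^ m := fun h =>
  ha ((Nat.prime_iff_prime_int.1 hℓ).dvd_of_dvd_pow h)

theorem li_of_mem {s : Finset k} {ℓ : ℕ} (hℓ : ℓ.Prime) {x : k}
    (h : x ∈ Subring.closure (s : Set k)) : LI s ℓ x :=
  ⟨1, ndvd_one hℓ, by simpa using h⟩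

/-- The ring of the elements which are integral at the prime. -/
def RR (s : Finset k) {ℓ : ℕ} (hℓ : ℓ.Prime) : Subring k where
  carrier := {x | LI s ℓ x}
  mul_mem' := by
    rintro x y ⟨d, hd, hx⟩ ⟨e, he, hy⟩
    refine ⟨d * e, ndvd_mul hℓ hd he, ?_⟩
    have h : ((d * e : ℤ) : k) * (x * y) = ((d : k) * x) * ((e : k) * y) := by
      push_cast
      ring
    rw [h]
    exact Subring.mul_mem _ hx hy
  one_mem' := li_of_mem hℓ (Subring.one_mem _)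
  add_mem' := by
    rintro x y ⟨d, hd, hx⟩ ⟨e, he, hy⟩
    refine ⟨d * e, ndvd_mul hℓ hd he, ?_⟩
    have h : ((d * e : ℤ) : k) * (x + y) = (e : k) * ((d : k) * x) + (d : k) * ((e : k) * y) := by
      push_cast
      ring
    rw [h]
    exact Subring.add_mem _ (Subring.mul_mem _ (int_mem s e) hx) (Subring.mul_mem _ (int_mem s d) hy)
  zero_mem' := li_of_mem hℓ (Subring.zero_mem _)
  neg_mem' := by
    rintro x ⟨d, hd, hx⟩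
    refine ⟨d, hd, ?_⟩
    have h : (d : k) * (-x) = -((d : k) * x) := by ring
    rw [h]
    exact Subring.neg_mem _ hx

theorem mem_RR {s : Finset k} {ℓ : ℕ} (hℓ : ℓ.Prime) {x : k} : x ∈ RR s hℓ ↔ LI s ℓ x := Iff.rfl

variable [CharZero k]

theorem ld_iff {s : Finset k} {ℓ : ℕ} (hℓ : ℓ.Prime) {x : k} :
    LD s ℓ x ↔ ∃ y, LI s ℓ y ∧ x = (ℓ : k) * y := by
  have h0 : (ℓ : k) ≠ 0 := by exact_mod_cast hℓ.ne_zero
  constructor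
  · rintro ⟨d, hd, a, ha, h⟩
    refine ⟨x / ℓ, ⟨d, hd, ?_⟩, ?_⟩
    · have : (d : k) * (x / ℓ) = a := by
        rw [mul_div_assoc', h, mul_div_cancel_left₀ _ h0]
      rw [this]; exact ha
    · rw [mul_div_cancel₀ _ h0]
  · rintro ⟨y, ⟨d, hd, hy⟩, rfl⟩
    exact ⟨d, hd, _, hy, by ring⟩

theorem ld_add {s : Finset k} {ℓ : ℕ} (hℓ : ℓ.Prime) {x y : k} (hx : LD s ℓ x) (hy : LD s ℓ y) :
    LD s ℓ (x + y) := by
  obtain ⟨a, ha, rfl⟩ := (ld_iff hℓ).1 hx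
  obtain ⟨b, hb, rfl⟩ := (ld_iff hℓ).1 hy
  exact (ld_iff hℓ).2 ⟨a + b, (RR s hℓ).add_mem ha hb, by ring⟩

theorem ld_sub {s : Finset k} {ℓ : ℕ} (hℓ : ℓ.Prime) {x y : k} (hx : LD s ℓ x) (hy : LD s ℓ y) :
    LD s ℓ (x - y) := by
  obtain ⟨a, ha, rfl⟩ := (ld_iff hℓ).1 hx
  obtain ⟨b, hb, rfl⟩ := (ld_iff hℓ).1 hy
  exact (ld_iff hℓ).2 ⟨a - b, (RR s hℓ).sub_mem ha hb, by ring⟩

theorem ld_mul {s : Finset k} {ℓ : ℕ} (hℓ : ℓ.Prime) {x y : k} (hx : LI s ℓ x) (hy : LD s ℓ y) :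
    LD s ℓ (x * y) := by
  obtain ⟨b, hb, rfl⟩ := (ld_iff hℓ).1 hy
  exact (ld_iff hℓ).2 ⟨x * b, (RR s hℓ).mul_mem hx hb, by ring⟩

theorem ld_zero {s : Finset k} {ℓ : ℕ} (hℓ : ℓ.Prime) : LD s ℓ 0 :=
  (ld_iff hℓ).2 ⟨0, (RR s hℓ).zero_mem, by ring⟩

theorem ld_sum {s : Finset k} {ℓ : ℕ} (hℓ : ℓ.Prime) (I : Type) (J : Finset I) (x : I → k)
    (h : ∀ i ∈ J, LD s ℓ (x i)) : LD s ℓ (∑ i ∈ J, x i) := by
  classical
  induction J using Finset.induction_on with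
  | empty => simpa using ld_zero hℓ
  | insert a J ha ih =>
    rw [Finset.sum_insert ha]
    exact ld_add hℓ (h a (Finset.mem_insert_self _ _))
      (ih fun i hi => h i (Finset.mem_insert_of_mem hi))

omit [CharZero k] in
theorem li_sum {s : Finset k} {ℓ : ℕ} (hℓ : ℓ.Prime) (I : Type) (J : Finset I) (x : I → k)
    (h : ∀ i ∈ J, LI s ℓ (x i)) : LI s ℓ (∑ i ∈ J, x i) :=
  (RR s hℓ).sum_mem h

theorem add_pow {s : Finset k} {ℓ : ℕ} (hℓ : ℓ.Prime) {x y : k} (hx : LI s ℓ x) (hy : LI s ℓ y) :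
    LD s ℓ ((x + y) ^ ℓ - (x ^ ℓ + y ^ ℓ)) := by
  obtain ⟨r, hr⟩ := exists_add_pow_prime_eq hℓ (⟨x, hx⟩ : RR s hℓ) ⟨y, hy⟩
  refine (ld_iff hℓ).2 ⟨x * y * r.1, (RR s hℓ).mul_mem ((RR s hℓ).mul_mem hx hy) r.2, ?_⟩
  have := congrArg Subtype.val hr
  push_cast at this
  rw [this]
  ring

theorem sum_pow {s : Finset k} {ℓ : ℕ} (hℓ : ℓ.Prime) (I : Type) (J : Finset I) (x : I → k)
    (h : ∀ i ∈ J, LI s ℓ (x i)) : LD s ℓ ((∑ i ∈ J, x i) ^ ℓ - ∑ i ∈ J, x i ^ ℓ) := by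
  classical
  induction J using Finset.induction_on with
  | empty => simpa [hℓ.ne_zero] using ld_zero hℓ
  | insert a J ha ih =>
    rw [Finset.sum_insert ha, Finset.sum_insert ha]
    have h1 := add_pow hℓ (h a (Finset.mem_insert_self _ _))
      (li_sum hℓ I J x fun i hi => h i (Finset.mem_insert_of_mem hi))
    have h2 := ld_add hℓ h1 (ih fun i hi => h i (Finset.mem_insert_of_mem hi))
    have h3 : (x a + ∑ i ∈ J, x i) ^ ℓ - (x a ^ ℓ + ∑ i ∈ J, x i ^ ℓ) =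
        (x a + ∑ i ∈ J, x i) ^ ℓ - (x a ^ ℓ + (∑ i ∈ J, x i) ^ ℓ) +
          ((∑ i ∈ J, x i) ^ ℓ - ∑ i ∈ J, x i ^ ℓ) := by ring
    rw [h3]
    exact h2

theorem fermat {ℓ : ℕ} (hℓ : ℓ.Prime) (a : ℤ) : ∃ m : ℤ, a ^ ℓ = a + ℓ * m := by
  have := Fact.mk hℓ
  have h : ((a ^ ℓ - a : ℤ) : ZMod ℓ) = 0 := by
    push_cast
    rw [ZMod.pow_card, sub_self]
  rw [ZMod.intCast_zmod_eq_zero_iff_dvd] at h
  obtain ⟨m, hm⟩ := h
  exact ⟨m, by rw [← hm]; ring⟩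

theorem rat_pow {s : Finset k} {ℓ : ℕ} (hℓ : ℓ.Prime) (q : ℚ) (hq : ¬ ℓ ∣ q.den) :
    LD s ℓ ((q : k) ^ ℓ - q) := by
  have hb : ¬ (ℓ : ℤ) ∣ (q.den : ℤ) := fun h => hq (Int.natCast_dvd_natCast.1 h)
  have hb0 : ((q.den : ℤ) : k) ≠ 0 := by exact_mod_cast q.den_ne_zero
  obtain ⟨m, hm⟩ := fermat hℓ q.num
  obtain ⟨n, hn⟩ := fermat hℓ (q.den : ℤ)
  have h1 : ((q.den : ℤ) : k) * (q : k) = (q.num : k) := by
    have := Rat.den_mul_eq_num q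
    exact_mod_cast congrArg (Rat.cast : ℚ → k) this
  refine ⟨(q.den : ℤ) ^ (ℓ + 1), ndvd_pow hℓ hb _,
    ((q.den : ℤ) * m - n * q.num : ℤ), int_mem s _, ?_⟩
  have h2 : ((q.den : ℤ) : k) ^ ℓ * (q : k) ^ ℓ = (q.num : k) ^ ℓ := by
    rw [← mul_pow, h1]
  have h3 : (q.num : k) ^ ℓ = (q.num : k) + ℓ * m := by exact_mod_cast congrArg (Int.cast : ℤ → k) hm
  have h4 : ((q.den : ℤ) : k) ^ ℓ = ((q.den : ℤ) : k) + ℓ * n := by
    exact_mod_cast congrArg (Int.cast : ℤ → k) hn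
  have h5 : (((q.den : ℤ) ^ (ℓ + 1) : ℤ) : k) * ((q : k) ^ ℓ - q) =
      ((q.den : ℤ) : k) * (((q.den : ℤ) : k) ^ ℓ * (q : k) ^ ℓ) -
        ((q.den : ℤ) : k) ^ ℓ * (((q.den : ℤ) : k) * (q : k)) := by
    push_cast
    ring
  rw [h5, h2, h1, h3, h4]
  push_cast
  ring

end LDA

/-- LDA. -/
theorem t_LDA : S_LDA := by
  intro k _ _ s ℓ hℓ
  refine ⟨⟨?_, ?_, ?_, ?_⟩, ⟨?_, ?_, ?_⟩, ?_, ?_, ?_, ?_, ?_⟩
  · intro x hx
    exact LDA.li_of_mem hℓ (Subring.subset_closure hx)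
  · intro q hq
    refine ⟨q.den, fun h => hq (Int.natCast_dvd_natCast.1 h), ?_⟩
    have : ((q.den : ℤ) : k) * (q : k) = (q.num : k) := by
      have := Rat.den_mul_eq_num q
      exact_mod_cast congrArg (Rat.cast : ℚ → k) this
    rw [this]
    exact LDA.int_mem s _
  · intro x y hx hy
    exact ⟨(LDA.RR s hℓ).add_mem hx hy, (LDA.RR s hℓ).sub_mem hx hy, (LDA.RR s hℓ).mul_mem hx hy⟩
  · intro x hx m
    exact (LDA.RR s hℓ).pow_mem hx m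
  · intro x y hx hy
    exact ⟨LDA.ld_add hℓ hx hy, LDA.ld_sub hℓ hx hy⟩
  · intro x y hx hy
    exact LDA.ld_mul hℓ hx hy
  · intro I J x h
    exact LDA.ld_sum hℓ I J x h
  · intro I J x h
    exact LDA.sum_pow hℓ I J x h
  · intro q hq
    exact LDA.rat_pow hℓ q hq
  · intro x y hx hy h
    obtain ⟨c, hc⟩ := sub_dvd_pow_sub_pow (⟨x, hx⟩ : LDA.RR s hℓ) ⟨y, hy⟩ ℓ
    have := congrArg Subtype.val hc
    push_cast at this
    rw [this, mul_comm]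
    exact LDA.ld_mul hℓ c.2 h
  · intro s' hs x
    have hm : Subring.closure (s : Set k) ≤ Subring.closure (s' : Set k) :=
      Subring.closure_mono (by exact_mod_cast hs)
    constructor
    · rintro ⟨d, hd, h⟩
      exact ⟨d, hd, hm h⟩
    · rintro ⟨d, hd, a, ha, h⟩
      exact ⟨d, hd, a, hm ha, h⟩
  · rintro x ⟨d, hd, a, ha, h⟩
    refine ⟨d, hd, ?_⟩
    rw [h]
    exact Subring.mul_mem _ (natCast_mem _ ℓ) ha

end Pool.Agent.FJA
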