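import Pool.Agent.FJA.StX

/-!
# FJA: the module NTA (specialization)
-/

set_option autoImplicit false

noncomputable section

namespace Pool.Agent.FJA

namespace NTA

open Polynomial

/-- `2 c ^ 2` is not a square of a rational number -/
theorem not_sq (c : ℕ) (hc : 0 < c) (q : ℚ) : q ^ 2 ≠ 2 * (c : ℚ) ^ 2 := by
  intro h
  have hc' : (c : ℚ) ≠ 0 := by exact_mod_cast hc.ne'
  have h1 : |q / c| * |q / c| = 2 := by
    rw [← sq, sq_abs, div_pow, h]
    field_simp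
  have h2 : √(2 : ℝ) = ((|q / c| : ℚ) : ℝ) := by
    rw [Real.sqrt_eq_iff_mul_self_eq (by norm_num) (by exact_mod_cast abs_nonneg _)]
    exact_mod_cast h1.symm
  exact irrational_sqrt_two ⟨|q / c|, h2.symm⟩

/-- the main point: not all the elements `X ^ 2 - 2 c ^ 2` are units in a finitely generated algebra -/
theorem core (k : Type) [Field k] [CharZero k] [Algebra ℚ[X] k] [FaithfulSMul ℚ[X] k]
    (s : Finset k)
    (h : ∀ c : ℕ, 0 < c → ∃ b ∈ Algebra.adjoin ℚ (s : Set k),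
      algebraMap ℚ[X] k (X ^ 2 - C (2 * (c : ℚ) ^ 2)) * b = 1) : False := by
  classical
  letI : Algebra (FractionRing ℚ[X]) k := FractionRing.liftAlgebra ℚ[X] k
  haveI : IsScalarTower ℚ[X] (FractionRing ℚ[X]) k := FractionRing.isScalarTower_liftAlgebra ℚ[X] k
  let B' : Subalgebra (FractionRing ℚ[X]) k := Algebra.adjoin (FractionRing ℚ[X]) (s : Set k)
  haveI hft : Algebra.FiniteType (FractionRing ℚ[X]) B' :=
    (Subalgebra.fg_iff_finiteType B').1 (Subalgebra.fg_adjoin_finset s)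
  obtain ⟨𝔫, h𝔫⟩ := Ideal.exists_maximal B'
  letI : Field (B' ⧸ 𝔫) := Ideal.Quotient.field 𝔫
  haveI : Algebra.FiniteType (FractionRing ℚ[X]) (B' ⧸ 𝔫) := inferInstance
  haveI : Module.Finite (FractionRing ℚ[X]) (B' ⧸ 𝔫) :=
    finite_of_finite_type_of_isJacobsonRing (FractionRing ℚ[X]) (B' ⧸ 𝔫)
  haveI : Algebra.IsAlgebraic (FractionRing ℚ[X]) (B' ⧸ 𝔫) := inferInstance
  haveI hal : Algebra.IsAlgebraic ℚ[X] (B' ⧸ 𝔫) :=
    (IsFractionRing.comap_isAlgebraic_iff (A := ℚ[X]) (K := FractionRing ℚ[X])).2 inferInstance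
  have hmem : ∀ a ∈ s, a ∈ B' := fun a ha => Algebra.subset_adjoin ha
  obtain ⟨g, hg0, hg⟩ := Algebra.IsAlgebraic.exists_integral_multiples ℚ[X]
    (s.attach.image fun a : {a // a ∈ s} =>
      Ideal.Quotient.mk 𝔫 (⟨a.1, hmem a.1 a.2⟩ : B'))
  have hkey : ∀ b ∈ Algebra.adjoin ℚ (s : Set k), ∃ hb : b ∈ B', ∃ e : ℕ,
      IsIntegral ℚ[X] (g ^ e • (Ideal.Quotient.mk 𝔫 (⟨b, hb⟩ : B'))) := by
    intro b hb
    induction hb using Algebra.adjoin_induction with
    | mem a ha =>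
      refine ⟨hmem a ha, 1, ?_⟩
      rw [pow_one]
      exact hg _ (Finset.mem_image.2 ⟨⟨a, ha⟩, Finset.mem_attach _ _, rfl⟩)
    | algebraMap r =>
      have h1 : algebraMap ℚ k r = algebraMap (FractionRing ℚ[X]) k
          (algebraMap ℚ (FractionRing ℚ[X]) r) := by
        rw [eq_ratCast, eq_ratCast, map_ratCast]
      have hb : algebraMap ℚ k r ∈ B' := by
        rw [h1]
        exact B'.algebraMap_mem _
      refine ⟨hb, 0, ?_⟩
      rw [pow_zero, one_smul]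
      have h3 : (⟨algebraMap ℚ k r, hb⟩ : B') = algebraMap ℚ[X] B' (C r) := by
        apply Subtype.ext
        change algebraMap ℚ k r = algebraMap ℚ[X] k (C r)
        exact congrFun (congrArg DFunLike.coe (RingHom.ext_rat (algebraMap ℚ k)
          ((algebraMap ℚ[X] k).comp (C : ℚ →+* ℚ[X])))) r
      rw [h3]
      exact isIntegral_algebraMap (R := ℚ[X]) (A := B' ⧸ 𝔫) (x := C r)
    | add a b _ _ iha ihb =>
      obtain ⟨ha, e1, h1⟩ := iha
      obtain ⟨hb, e2, h2⟩ := ihb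
      refine ⟨B'.add_mem ha hb, e1 + e2, ?_⟩
      have h3 : (⟨a + b, B'.add_mem ha hb⟩ : B') = ⟨a, ha⟩ + ⟨b, hb⟩ := rfl
      rw [h3, map_add, smul_add, pow_add]
      refine IsIntegral.add ?_ ?_
      · rw [mul_comm, mul_smul]
        exact h1.smul _
      · rw [mul_smul]
        exact h2.smul _
    | mul a b _ _ iha ihb =>
      obtain ⟨ha, e1, h1⟩ := iha
      obtain ⟨hb, e2, h2⟩ := ihb
      refine ⟨B'.mul_mem ha hb, e1 + e2, ?_⟩
      have h3 : (⟨a * b, B'.mul_mem ha hb⟩ : B') = ⟨a, ha⟩ * ⟨b, hb⟩ := rfl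
      rw [h3, map_mul, pow_add, ← smul_mul_smul_comm]
      exact h1.mul h2
  -- every `c * √2` is a root of `g`
  have hroot : ∀ c : ℕ, 0 < c → (g.map (algebraMap ℚ ℝ)).IsRoot ((c : ℝ) * √2) := by
    intro c hc
    obtain ⟨b, hb, hpb⟩ := h c hc
    obtain ⟨hb', e, he⟩ := hkey b hb
    set p : ℚ[X] := X ^ 2 - C (2 * (c : ℚ) ^ 2) with hp
    have h1 : algebraMap ℚ[X] (B' ⧸ 𝔫) p * Ideal.Quotient.mk 𝔫 (⟨b, hb'⟩ : B') = 1 := by
      have h2 : algebraMap ℚ[X] B' p * (⟨b, hb'⟩ : B') = 1 := Subtype.ext hpb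
      have h3 := congrArg (Ideal.Quotient.mk 𝔫) h2
      rw [map_mul, map_one] at h3
      exact h3
    have hpn : algebraMap ℚ[X] (FractionRing ℚ[X]) p ≠ 0 := by
      intro h0
      rw [IsScalarTower.algebraMap_apply ℚ[X] (FractionRing ℚ[X]) (B' ⧸ 𝔫), h0, map_zero,
        zero_mul] at h1
      exact zero_ne_one h1
    have h4 : algebraMap (FractionRing ℚ[X]) (B' ⧸ 𝔫)
        (algebraMap ℚ[X] (FractionRing ℚ[X]) (g ^ e) / algebraMap ℚ[X] (FractionRing ℚ[X]) p) =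
        g ^ e • Ideal.Quotient.mk 𝔫 (⟨b, hb'⟩ : B') := by
      rw [map_div₀, ← IsScalarTower.algebraMap_apply, ← IsScalarTower.algebraMap_apply,
        Algebra.smul_def, div_eq_iff (by
          intro h0
          rw [h0, zero_mul] at h1
          exact zero_ne_one h1), mul_assoc, mul_comm (Ideal.Quotient.mk 𝔫 _), h1, mul_one]
    have h5 : IsIntegral ℚ[X] (algebraMap ℚ[X] (FractionRing ℚ[X]) (g ^ e) /
        algebraMap ℚ[X] (FractionRing ℚ[X]) p) := by
      rw [← isIntegral_algebraMap_iff (A := FractionRing ℚ[X]) (B := B' ⧸ 𝔫)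
        (algebraMap (FractionRing ℚ[X]) (B' ⧸ 𝔫)).injective, h4]
      exact he
    obtain ⟨y, hy⟩ := IsIntegrallyClosed.isIntegral_iff.1 h5
    have h6 : y * p = g ^ e := by
      apply IsFractionRing.injective ℚ[X] (FractionRing ℚ[X])
      rw [map_mul, hy, div_mul_cancel₀ _ hpn]
    have h7 : (p.map (algebraMap ℚ ℝ)).eval ((c : ℝ) * √2) = 0 := by
      rw [hp, Polynomial.map_sub, Polynomial.map_pow, Polynomial.map_X, Polynomial.map_C, eval_sub,
        eval_pow, eval_X, eval_C, mul_pow, Real.sq_sqrt (by norm_num), eq_ratCast]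
      push_cast
      ring
    have h8 : ((g.map (algebraMap ℚ ℝ)).eval ((c : ℝ) * √2)) ^ e = 0 := by
      rw [← eval_pow, ← Polynomial.map_pow, ← h6, Polynomial.map_mul, eval_mul, h7, mul_zero]
    rcases Nat.eq_zero_or_pos e with he0 | he0
    · rw [he0, pow_zero] at h8
      exact absurd h8 one_ne_zero
    · exact (pow_eq_zero_iff he0.ne').1 h8
  have hzero : g.map (algebraMap ℚ ℝ) = 0 := by
    apply Polynomial.eq_zero_of_infinite_isRoot
    refine Set.Infinite.mono (s := Set.range fun c : ℕ => ((c + 1 : ℕ) : ℝ) * √2) ?_ ?_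
    · rintro _ ⟨c, rfl⟩
      exact hroot (c + 1) (Nat.succ_pos c)
    · refine Set.infinite_range_of_injective fun c d hcd => ?_
      have h2 : √(2 : ℝ) ≠ 0 := by positivity
      have h3 := mul_right_cancel₀ h2 hcd
      have h4 : c + 1 = d + 1 := by exact_mod_cast h3
      omega
  exact hg0 ((Polynomial.map_eq_zero_iff (algebraMap ℚ ℝ).injective).1 hzero)

/-- number fields from maximal ideals -/
theorem fin_quot (k : Type) [Field k] [CharZero k] (s : Finset k)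
    (𝔪 : Ideal (Algebra.adjoin ℚ (s : Set k))) (h : 𝔪.IsMaximal) (x : k)
    (hx : x ∈ Subring.closure (s : Set k))
    (hxB : x ∈ Algebra.adjoin ℚ (s : Set k))
    (hq : ∀ q : ℚ, (⟨x, hxB⟩ : Algebra.adjoin ℚ (s : Set k)) - algebraMap ℚ _ q ∉ 𝔪) :
    ∃ (L : Type) (_ : Field L) (_ : NumberField L) (θ : Subring.closure (s : Set k) →+* L),
      ∀ q : ℚ, θ ⟨x, hx⟩ ≠ q := by
  let B : Subalgebra ℚ k := Algebra.adjoin ℚ (s : Set k)
  have hle : Subring.closure (s : Set k) ≤ B.toSubring :=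
    Subring.closure_le.2 fun _ ha => Algebra.subset_adjoin ha
  haveI : Algebra.FiniteType ℚ B := (Subalgebra.fg_iff_finiteType B).1 (Subalgebra.fg_adjoin_finset s)
  have hfin : Module.Finite ℚ (B ⧸ 𝔪) := by
    letI : Field (B ⧸ 𝔪) := Ideal.Quotient.field 𝔪
    exact finite_of_finite_type_of_isJacobsonRing ℚ (B ⧸ 𝔪)
  have hf1 : ((Ideal.Quotient.mk 𝔪).comp (algebraMap ℚ B)).Finite :=
    RingHom.finite_algebraMap.2 hfin
  letI : Field (B ⧸ 𝔪) := Ideal.Quotient.field 𝔪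
  haveI : CharZero (B ⧸ 𝔪) := algebraRat.charZero _
  have hf2 : @Module.Finite ℚ (B ⧸ 𝔪) _ _ (DivisionRing.toRatAlgebra (R := B ⧸ 𝔪)).toModule := by
    letI : Algebra ℚ (B ⧸ 𝔪) := DivisionRing.toRatAlgebra
    refine RingHom.finite_algebraMap.1 ?_
    have h3 : (algebraMap ℚ (B ⧸ 𝔪)) = (Ideal.Quotient.mk 𝔪).comp (algebraMap ℚ B) :=
      RingHom.ext_rat _ _
    rw [h3]
    exact hf1
  haveI : NumberField (B ⧸ 𝔪) := { to_charZero := inferInstance, to_finiteDimensional := hf2 }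
  refine ⟨B ⧸ 𝔪, inferInstance, inferInstance,
    (Ideal.Quotient.mk 𝔪).comp (Subring.inclusion hle), fun q hcon => ?_⟩
  apply hq q
  have h1 : ((Ideal.Quotient.mk 𝔪).comp (algebraMap ℚ B)) q = (q : B ⧸ 𝔪) := eq_ratCast _ q
  exact Ideal.Quotient.eq.1 (hcon.trans h1.symm)

end NTA

open NTA Polynomial in
/-- MODULE NTA -/
theorem t_NTA : S_NTA := by
  classical
  intro k _ _ s x hx
  obtain ⟨x, hxm⟩ := x
  have hx' : ∀ q : ℚ, x ≠ q := hx
  let B : Subalgebra ℚ k := Algebra.adjoin ℚ (s : Set k)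
  have hle : Subring.closure (s : Set k) ≤ B.toSubring :=
    Subring.closure_le.2 fun _ ha => Algebra.subset_adjoin ha
  have hxB : x ∈ B := hle hxm
  by_cases hal : IsAlgebraic ℚ x
  · obtain ⟨𝔪, h𝔪⟩ := Ideal.exists_maximal B
    refine fin_quot k s 𝔪 h𝔪 x hxm hxB fun q hq => ?_
    have h1 : IsAlgebraic ℚ (x - q) := hal.sub (by
      rw [← eq_ratCast (algebraMap ℚ k) q]
      exact isAlgebraic_algebraMap q)
    have h2 : x - q ≠ 0 := sub_ne_zero.2 (hx' q)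
    have h3 : ((x - q)⁻¹ : k) ∈ B := by
      have h4 : x - q ∈ B := B.sub_mem hxB (by
        rw [← eq_ratCast (algebraMap ℚ k) q]
        exact B.algebraMap_mem q)
      exact Subalgebra.inv_mem_of_algebraic (A := B) (x := ⟨x - q, h4⟩) h1
    apply h𝔪.ne_top
    rw [Ideal.eq_top_iff_one]
    have h5 := 𝔪.mul_mem_left (⟨(x - q)⁻¹, h3⟩ : B) hq
    convert h5
    apply Subtype.ext
    change (1 : k) = (x - q)⁻¹ * (x - algebraMap ℚ k q)
    rw [eq_ratCast, inv_mul_cancel₀ h2]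
  · have htr : Transcendental ℚ x := hal
    obtain ⟨c, hc, hcu⟩ : ∃ c : ℕ, 0 < c ∧ ∀ b ∈ B, (x ^ 2 - 2 * (c : k) ^ 2) * b ≠ 1 := by
      by_contra hcon
      push Not at hcon
      letI : Algebra ℚ[X] k := (aeval x : ℚ[X] →ₐ[ℚ] k).toRingHom.toAlgebra
      have hmap : ∀ p : ℚ[X], algebraMap ℚ[X] k p = aeval x p := fun p => rfl
      haveI : FaithfulSMul ℚ[X] k := (faithfulSMul_iff_algebraMap_injective ℚ[X] k).2
        (transcendental_iff_injective.1 htr)
      refine core k s fun c hc => ?_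
      obtain ⟨b, hb, hb2⟩ := hcon c hc
      refine ⟨b, hb, ?_⟩
      rw [hmap]
      rw [← hb2]
      simp
    have hyB : x ^ 2 - 2 * (c : k) ^ 2 ∈ B :=
      B.sub_mem (B.pow_mem hxB 2) (B.mul_mem (ofNat_mem B 2) (B.pow_mem (natCast_mem B c) 2))
    have hnu : ¬ IsUnit (⟨x ^ 2 - 2 * (c : k) ^ 2, hyB⟩ : B) := by
      intro hu
      obtain ⟨b, hb⟩ := hu.exists_right_inv
      exact hcu b.1 b.2 (congrArg Subtype.val hb)
    obtain ⟨𝔪, h𝔪, hy⟩ := exists_max_ideal_of_mem_nonunits hnu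
    refine fin_quot k s 𝔪 h𝔪 x hxm hxB fun q hq => ?_
    -- then `q ^ 2 - 2 c ^ 2` is in the ideal
    have h1 : algebraMap ℚ B (q ^ 2 - 2 * (c : ℚ) ^ 2) ∈ 𝔪 := by
      have h2 := 𝔪.mul_mem_left ((⟨x, hxB⟩ : B) + algebraMap ℚ B q) hq
      have h3 := 𝔪.sub_mem hy h2
      convert h3 using 1
      apply Subtype.ext
      change algebraMap ℚ k (q ^ 2 - 2 * (c : ℚ) ^ 2) =
        (x ^ 2 - 2 * (c : k) ^ 2) - (x + algebraMap ℚ k q) * (x - algebraMap ℚ k q)
      simp only [eq_ratCast, Rat.cast_sub, Rat.cast_pow, Rat.cast_mul, Rat.cast_ofNat,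
        Rat.cast_natCast]
      ring
    have h4 : q ^ 2 - 2 * (c : ℚ) ^ 2 ≠ 0 := sub_ne_zero.2 (not_sq c hc q)
    apply h𝔪.ne_top
    refine Ideal.eq_top_of_isUnit_mem 𝔪 h1 ?_
    exact (IsUnit.mk0 _ h4).map (algebraMap ℚ B)

end Pool.Agent.FJA
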