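import Pool.Agent.FJA.StX

/-!
# NTB: two primes of degree one

If `α` is an algebraic integer of degree at least two with `α ^ ℓ ≡ α` modulo `ℓ`, for a prime `ℓ` which does not divide
the index, then `𝓞 / ℓ 𝓞` is a reduced ring which is not a field, in which every element is its own `ℓ`-th power;
so it has two different maximal ideals, both of norm `ℓ`.
-/

set_option autoImplicit false

open NumberField

noncomputable section

namespace Pool.Agent.FJA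

namespace NTB

theorem card_dom (κ : Type) [CommRing κ] [IsDomain κ] [Finite κ] (ℓ : ℕ) (hℓ : ℓ.Prime) (h0 : (ℓ : κ) = 0)
    (h : ∀ y : κ, y ^ ℓ = y) : Nat.card κ = ℓ := by
  classical
  have : Fintype κ := Fintype.ofFinite κ
  rw [Nat.card_eq_fintype_card]
  apply le_antisymm
  · have hne : (Polynomial.X ^ ℓ - Polynomial.X : Polynomial κ) ≠ 0 := by
      intro hh
      have := congrArg (fun p : Polynomial κ => p.coeff ℓ) hh
      simp only [Polynomial.coeff_sub, Polynomial.coeff_X_pow, if_true, Polynomial.coeff_zero] at this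
      rw [Polynomial.coeff_X_of_ne_one hℓ.one_lt.ne'] at this
      simp at this
    have hdeg : (Polynomial.X ^ ℓ - Polynomial.X : Polynomial κ).natDegree ≤ ℓ := by
      refine (Polynomial.natDegree_sub_le _ _).trans ?_
      rw [Polynomial.natDegree_X_pow, Polynomial.natDegree_X]
      exact max_le le_rfl hℓ.one_lt.le
    have hsub : (Finset.univ : Finset κ) ⊆ (Polynomial.X ^ ℓ - Polynomial.X : Polynomial κ).roots.toFinset := by
      intro y _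
      rw [Multiset.mem_toFinset, Polynomial.mem_roots hne]
      simp [Polynomial.IsRoot, h y]
    calc Fintype.card κ = (Finset.univ : Finset κ).card := rfl
      _ ≤ _ := Finset.card_le_card hsub
      _ ≤ (Polynomial.X ^ ℓ - Polynomial.X : Polynomial κ).roots.card := Multiset.toFinset_card_le _
      _ ≤ _ := Polynomial.card_roots' _
      _ ≤ ℓ := hdeg
  · have : CharP κ ℓ := (CharP.charP_iff_prime_eq_zero hℓ).mpr h0
    have h1 : ((Fintype.card κ : ℕ) : κ) = 0 := Nat.cast_card_eq_zero κ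
    have h2 : ℓ ∣ Fintype.card κ := (CharP.cast_eq_zero_iff κ ℓ _).1 h1
    exact Nat.le_of_dvd Fintype.card_pos h2

theorem den_mem {K : Type} [Field K] [NumberField K] (α : 𝓞 K) (y : K)
    (hy : y ∈ Algebra.adjoin ℚ {(α : K)}) :
    ∃ m : ℕ, 0 < m ∧ ∃ z ∈ Algebra.adjoin ℤ {α}, algebraMap (𝓞 K) K z = m * y := by
  induction hy using Algebra.adjoin_induction with
  | mem x hx =>
    rw [Set.mem_singleton_iff] at hx
    subst hx
    exact ⟨1, one_pos, α, Algebra.subset_adjoin rfl, by rw [Nat.cast_one, one_mul]⟩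
  | algebraMap r =>
    refine ⟨r.den, r.den_pos, (r.num : 𝓞 K), ?_, ?_⟩
    · exact intCast_mem _ _
    · have h1 : (r.den : ℚ) * r = r.num := Rat.den_mul_eq_num r
      have h2 := congrArg (algebraMap ℚ K) h1
      rw [map_mul, map_natCast, map_intCast] at h2
      rw [map_intCast]
      exact h2.symm
  | add x y _ _ hx hy =>
    obtain ⟨m, hm, z, hz, hzx⟩ := hx
    obtain ⟨n, hn, w, hw, hwy⟩ := hy
    refine ⟨m * n, Nat.mul_pos hm hn, (n : 𝓞 K) * z + (m : 𝓞 K) * w, ?_, ?_⟩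
    · exact add_mem (mul_mem (natCast_mem _ _) hz) (mul_mem (natCast_mem _ _) hw)
    · rw [map_add, map_mul, map_mul, map_natCast, map_natCast, hzx, hwy]
      push_cast
      ring
  | mul x y _ _ hx hy =>
    obtain ⟨m, hm, z, hz, hzx⟩ := hx
    obtain ⟨n, hn, w, hw, hwy⟩ := hy
    refine ⟨m * n, Nat.mul_pos hm hn, z * w, mul_mem hz hw, ?_⟩
    rw [map_mul, hzx, hwy]
    push_cast
    ring

theorem exists_exp {K : Type} [Field K] [NumberField K] (α : 𝓞 K)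
    (h : ∀ y : K, y ∈ Algebra.adjoin ℚ {(α : K)}) :
    ∃ e : ℕ, 0 < e ∧ ∀ y : 𝓞 K, (e : 𝓞 K) * y ∈ Algebra.adjoin ℤ {α} := by
  classical
  let b := RingOfIntegers.basis K
  have h1 : ∀ i, ∃ m : ℕ, 0 < m ∧ (m : 𝓞 K) * b i ∈ Algebra.adjoin ℤ {α} := by
    intro i
    obtain ⟨m, hm, z, hz, hzy⟩ := den_mem α (b i : K) (h _)
    refine ⟨m, hm, ?_⟩
    have : (m : 𝓞 K) * b i = z := by
      apply RingOfIntegers.coe_injective
      rw [map_mul, map_natCast, hzy]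
    rw [this]
    exact hz
  choose m hm hmem using h1
  refine ⟨∏ i, m i, Finset.prod_pos fun i _ => hm i, ?_⟩
  intro y
  rw [← b.sum_repr y, Finset.mul_sum]
  refine Subalgebra.sum_mem _ fun i _ => ?_
  obtain ⟨c, hc⟩ := Finset.dvd_prod_of_mem m (Finset.mem_univ i)
  rw [hc]
  have : ((m i * c : ℕ) : 𝓞 K) * (b.repr y i • b i) = (b.repr y i) • ((c : 𝓞 K) * ((m i : 𝓞 K) * b i)) := by
    push_cast
    rw [zsmul_eq_mul, zsmul_eq_mul]
    ring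
  rw [this]
  exact Subalgebra.smul_mem _ (mul_mem (natCast_mem _ _) (hmem i)) _

theorem main_l {K : Type} [Field K] [NumberField K] (α : 𝓞 K) (e : ℕ)
    (he : ∀ y : 𝓞 K, (e : 𝓞 K) * y ∈ Algebra.adjoin ℤ {α}) (h2 : 2 ≤ Module.finrank ℤ (𝓞 K)) (ℓ : ℕ)
    (hℓ : ℓ.Prime) (hle : ¬ ℓ ∣ e) (hα : ∃ β : 𝓞 K, α ^ ℓ - α = ℓ * β) :
    ∃ 𝔭 𝔮 : Ideal (𝓞 K), 𝔭 ≠ 𝔮 ∧ 𝔭.IsPrime ∧ 𝔮.IsPrime ∧ Ideal.absNorm 𝔭 = ℓ ∧ Ideal.absNorm 𝔮 = ℓ := by
  classical
  set I : Ideal (𝓞 K) := Ideal.span {(ℓ : 𝓞 K)} with hIdef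
  have hIn : Ideal.absNorm I = ℓ ^ Module.finrank ℤ (𝓞 K) := Ideal.absNorm_span_natCast ℓ
  have hI : I ≠ ⊤ := by
    intro h
    rw [h, Ideal.absNorm_top] at hIn
    have := (Nat.pow_eq_one.mp hIn.symm)
    rcases this with h | h
    · exact hℓ.one_lt.ne' h
    · omega
  have hℓI : (ℓ : 𝓞 K) ∈ I := Ideal.subset_span rfl
  have : Nontrivial (𝓞 K ⧸ I) := Ideal.Quotient.nontrivial_iff.mpr hI
  have hℓ0 : (ℓ : 𝓞 K ⧸ I) = 0 := by
    rw [← map_natCast (Ideal.Quotient.mk I)]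
    exact Ideal.Quotient.eq_zero_iff_mem.mpr hℓI
  have : CharP (𝓞 K ⧸ I) ℓ := (CharP.charP_iff_prime_eq_zero hℓ).mpr hℓ0
  have : Fact ℓ.Prime := ⟨hℓ⟩
  set g : 𝓞 K →+* 𝓞 K ⧸ I := Ideal.Quotient.mk I with hg
  set f : 𝓞 K →+* 𝓞 K ⧸ I := (frobenius (𝓞 K ⧸ I) ℓ).comp g with hf
  have hfg : ∀ y, f y = (g y) ^ ℓ := fun y => by
    rw [hf, RingHom.comp_apply, frobenius_def]
  have hfα : f α = g α := by
    obtain ⟨β, hβ⟩ := hα
    rw [hfg, ← map_pow, ← sub_eq_zero, ← map_sub, hβ, map_mul, map_natCast, hℓ0, zero_mul]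
  have hadj : ∀ z ∈ Algebra.adjoin ℤ {α}, f z = g z := by
    intro z hz
    have hle : Algebra.adjoin ℤ {α} ≤ AlgHom.equalizer f.toIntAlgHom g.toIntAlgHom := by
      apply Algebra.adjoin_le
      intro w hw
      rw [Set.mem_singleton_iff] at hw
      subst hw
      exact hfα
    exact hle hz
  have hall : ∀ y : 𝓞 K, (g y) ^ ℓ = g y := by
    intro y
    have h1 := hadj _ (he y)
    rw [map_mul, map_mul, map_natCast, map_natCast] at h1
    have hco : IsCoprime (ℓ : ℤ) (e : ℤ) := by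
      rw [Nat.isCoprime_iff_coprime]
      exact (Nat.Prime.coprime_iff_not_dvd hℓ).mpr hle
    obtain ⟨u, v, huv⟩ := hco
    have h3 : (v : 𝓞 K ⧸ I) * (e : 𝓞 K ⧸ I) = 1 := by
      have := congrArg (fun t : ℤ => (t : 𝓞 K ⧸ I)) huv
      push_cast at this
      rw [hℓ0, mul_zero, zero_add] at this
      exact this
    rw [← hfg]
    calc f y = ((v : 𝓞 K ⧸ I) * (e : 𝓞 K ⧸ I)) * f y := by rw [h3, one_mul]
      _ = (v : 𝓞 K ⧸ I) * ((e : 𝓞 K ⧸ I) * g y) := by rw [mul_assoc, h1]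
      _ = g y := by rw [← mul_assoc, h3, one_mul]
  have hall' : ∀ y : 𝓞 K, y ^ ℓ - y ∈ I := by
    intro y
    rw [← Ideal.Quotient.eq_zero_iff_mem, map_sub, map_pow, sub_eq_zero]
    exact hall y
  have hI0 : I ≠ ⊥ := by
    intro h
    rw [h] at hℓI
    have : (ℓ : 𝓞 K) = 0 := (Submodule.mem_bot _).mp hℓI
    exact hℓ.ne_zero (by exact_mod_cast this)
  have hnorm : ∀ 𝔭 : Ideal (𝓞 K), 𝔭.IsPrime → I ≤ 𝔭 → Ideal.absNorm 𝔭 = ℓ := by
    intro 𝔭 hp hle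
    have hp0 : 𝔭 ≠ ⊥ := fun h => hI0 (le_bot_iff.mp (h ▸ hle))
    have := Ideal.finiteQuotientOfFreeOfNeBot 𝔭 hp0
    have : IsDomain (𝓞 K ⧸ 𝔭) := Ideal.Quotient.isDomain 𝔭
    rw [Ideal.absNorm_apply, Submodule.cardQuot_apply]
    refine card_dom (𝓞 K ⧸ 𝔭) ℓ hℓ ?_ ?_
    · rw [← map_natCast (Ideal.Quotient.mk 𝔭)]
      exact Ideal.Quotient.eq_zero_iff_mem.mpr (hle hℓI)
    · intro y
      obtain ⟨y, rfl⟩ := Ideal.Quotient.mk_surjective y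
      rw [← sub_eq_zero, ← map_pow, ← map_sub]
      exact Ideal.Quotient.eq_zero_iff_mem.mpr (hle (hall' y))
  obtain ⟨𝔭, hpm, hIp⟩ := Ideal.exists_le_maximal I hI
  have hp1 := hnorm 𝔭 hpm.isPrime hIp
  have hne : I ≠ 𝔭 := by
    intro h
    rw [← h, hIn] at hp1
    have : ℓ ^ 1 < ℓ ^ Module.finrank ℤ (𝓞 K) := Nat.pow_lt_pow_right hℓ.one_lt (by omega)
    rw [hp1, pow_one] at this
    exact lt_irrefl _ this
  obtain ⟨z, hz, hzI⟩ := Set.exists_of_ssubset (lt_of_le_of_ne hIp hne : I < 𝔭)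
  set w : 𝓞 K := 1 - z ^ (ℓ - 1) with hw
  have hzw : z * w ∈ I := by
    have h1 : z * w = - (z ^ ℓ - z) := by
      rw [hw, mul_sub, mul_one, ← pow_succ', Nat.sub_add_cancel hℓ.one_lt.le]
      ring
    rw [h1]
    exact I.neg_mem (hall' z)
  have hwp : w ∉ 𝔭 := by
    intro h
    apply hpm.ne_top
    rw [Ideal.eq_top_iff_one]
    have h1 : (1 : 𝓞 K) = w + z ^ (ℓ - 1) := by rw [hw]; ring
    rw [h1]
    exact 𝔭.add_mem h (Ideal.pow_mem_of_mem _ hz _ (by have := hℓ.one_lt; omega))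
  have hJ : I ⊔ Ideal.span {w} ≠ ⊤ := by
    intro h
    apply hzI
    have h1 : (1 : 𝓞 K) ∈ I ⊔ Ideal.span {w} := by rw [h]; trivial
    obtain ⟨i, hi, j, hj, hij⟩ := Submodule.mem_sup.mp h1
    obtain ⟨c, rfl⟩ := Ideal.mem_span_singleton'.mp hj
    have h2 : z = z * i + c * (z * w) := by
      calc z = z * 1 := (mul_one z).symm
        _ = z * (i + c * w) := by rw [hij]
        _ = _ := by ring
    rw [h2]
    exact I.add_mem (I.mul_mem_left _ hi) (I.mul_mem_left _ hzw)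
  obtain ⟨𝔮, hqm, hIq⟩ := Ideal.exists_le_maximal _ hJ
  refine ⟨𝔭, 𝔮, ?_, hpm.isPrime, hqm.isPrime, hp1, hnorm 𝔮 hqm.isPrime (le_sup_left.trans hIq)⟩
  intro h
  apply hwp
  rw [h]
  exact hIq (Submodule.mem_sup_right (Ideal.subset_span rfl))

/-- The congruence for `α = N x`. -/
theorem congr_l {K : Type} [Field K] [NumberField K] (x : K) (N : ℕ) (α : 𝓞 K) (hα : algebraMap (𝓞 K) K α = N * x)
    (ℓ : ℕ) (hℓ : ℓ.Prime) (hN : ¬ ℓ ∣ N) (d : ℤ) (hd : ¬ (ℓ : ℤ) ∣ d) (a : K) (ha : IsIntegral ℤ a)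
    (h : (d : K) * (x ^ ℓ - x) = (ℓ : K) * a) : ∃ β : 𝓞 K, α ^ ℓ - α = ℓ * β := by
  -- `N ^ (ℓ - 1) = 1 + ℓ c`
  have hc : ∃ c : ℤ, (N : ℤ) ^ (ℓ - 1) = 1 + ℓ * c := by
    have h1 : IsCoprime (N : ℤ) (ℓ : ℤ) := by
      rw [Nat.isCoprime_iff_coprime]
      exact ((Nat.Prime.coprime_iff_not_dvd hℓ).mpr hN).symm
    have h2 := Int.ModEq.pow_card_sub_one_eq_one hℓ h1
    obtain ⟨c, hc⟩ := h2.symm.dvd
    exact ⟨c, by linarith⟩
  obtain ⟨c, hc⟩ := hc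
  have hco : IsCoprime (ℓ : ℤ) d := by
    rw [Int.isCoprime_iff_gcd_eq_one]
    have h3 : IsCoprime (ℓ : ℤ) d := (Nat.prime_iff_prime_int.mp hℓ).irreducible.coprime_iff_not_dvd.mpr hd
    exact Int.isCoprime_iff_gcd_eq_one.mp h3
  obtain ⟨u, v, huv⟩ := hco
  let a' : 𝓞 K := ⟨a, ha⟩
  refine ⟨u * (α ^ ℓ - α) + v * ((N : 𝓞 K) ^ ℓ * a' + d * c * α), ?_⟩
  apply RingOfIntegers.coe_injective
  have hℓK : (N : K) ^ ℓ = (1 + ℓ * c) * N := by
    have h4 := congrArg (fun t : ℤ => (t : K)) hc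
    push_cast at h4
    rw [← h4, ← pow_succ, Nat.sub_add_cancel hℓ.one_lt.le]
  have h5 : (u : K) * ℓ + v * d = 1 := by
    have := congrArg (fun t : ℤ => (t : K)) huv
    push_cast at this
    exact this
  have ha' : algebraMap (𝓞 K) K a' = a := rfl
  simp only [map_sub, map_add, map_mul, map_pow, map_natCast, map_intCast, ha', hα]
  have h6 : (d : K) * ((N * x) ^ ℓ - N * x) = ℓ * (N ^ ℓ * a + d * c * (N * x)) := by
    calc (d : K) * ((N * x) ^ ℓ - N * x) = N ^ ℓ * (d * (x ^ ℓ - x)) + d * x * (N ^ ℓ - N) := by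
          rw [mul_pow]; ring
      _ = N ^ ℓ * (ℓ * a) + d * x * ((1 + ℓ * c) * N - N) := by rw [h, hℓK]
      _ = _ := by ring
  calc ((N : K) * x) ^ ℓ - N * x = ((u : K) * ℓ + v * d) * (((N : K) * x) ^ ℓ - N * x) := by
        rw [h5, one_mul]
    _ = ℓ * (u * ((N * x) ^ ℓ - N * x)) + v * (d * ((N * x) ^ ℓ - N * x)) := by ring
    _ = ℓ * (u * ((N * x) ^ ℓ - N * x)) + v * (ℓ * (N ^ ℓ * a + d * c * (N * x))) := by rw [h6]
    _ = _ := by ring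

theorem exists_int {K : Type} [Field K] [NumberField K] (x : K) :
    ∃ (N : ℕ) (α : 𝓞 K), 0 < N ∧ algebraMap (𝓞 K) K α = N * x := by
  have hx : IsAlgebraic ℤ x :=
    (IsFractionRing.isAlgebraic_iff ℤ ℚ K).mpr (Algebra.IsAlgebraic.isAlgebraic x)
  obtain ⟨y, hy, hint⟩ := hx.exists_integral_multiple
  refine ⟨y.natAbs, ⟨(y.natAbs : K) * x, ?_⟩, Int.natAbs_pos.mpr hy, rfl⟩
  have h1 : (y.natAbs : K) * x = ((y.sign : ℤ) : K) * (y • x) := by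
    rw [zsmul_eq_mul, ← mul_assoc, ← Int.cast_mul, Int.sign_mul_self_eq_natAbs, Int.cast_natCast]
  rw [h1]
  exact (isIntegral_algebraMap (R := ℤ) (A := K) (x := y.sign)).mul hint

theorem main2 {K : Type} [Field K] [NumberField K] (x : K) (hx : ∀ y : K, y ∈ Algebra.adjoin ℚ {x})
    (h2 : 2 ≤ Module.finrank ℚ K) (B : ℕ)
    (hB : ∀ ℓ : ℕ, ℓ.Prime → B < ℓ → ∃ d : ℤ, ¬ (ℓ : ℤ) ∣ d ∧ ∃ a : K, IsIntegral ℤ a ∧
      (d : K) * (x ^ ℓ - x) = (ℓ : K) * a) :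
    ∃ B : ℕ, ∀ ℓ : ℕ, ℓ.Prime → B < ℓ →
      ∃ 𝔭 𝔮 : Ideal (𝓞 K), 𝔭 ≠ 𝔮 ∧ 𝔭.IsPrime ∧ 𝔮.IsPrime ∧ Ideal.absNorm 𝔭 = ℓ ∧ Ideal.absNorm 𝔮 = ℓ := by
  obtain ⟨N, α, hN, hα⟩ := exists_int x
  have hN0 : (N : K) ≠ 0 := Nat.cast_ne_zero.mpr hN.ne'
  have hgen : ∀ y : K, y ∈ Algebra.adjoin ℚ {(α : K)} := by
    have hx' : x ∈ Algebra.adjoin ℚ {(α : K)} := by
      have h1 : x = algebraMap ℚ K ((N : ℚ)⁻¹) * algebraMap (𝓞 K) K α := by
        rw [hα, map_inv₀, map_natCast, ← mul_assoc, inv_mul_cancel₀ hN0, one_mul]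
      have h2 : algebraMap ℚ K ((N : ℚ)⁻¹) * algebraMap (𝓞 K) K α ∈ Algebra.adjoin ℚ {(α : K)} :=
        mul_mem (Subalgebra.algebraMap_mem _ _) (Algebra.subset_adjoin rfl)
      rw [← h1] at h2
      exact h2
    intro y
    exact Algebra.adjoin_le (Set.singleton_subset_iff.mpr hx') (hx y)
  obtain ⟨e, he0, he⟩ := exists_exp α hgen
  refine ⟨max B (max N e), ?_⟩
  intro ℓ hℓ hlt
  have hB1 : B < ℓ := lt_of_le_of_lt (le_max_left _ _) hlt
  have hN1 : N < ℓ := lt_of_le_of_lt ((le_max_left _ _).trans (le_max_right _ _)) hlt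
  have he1 : e < ℓ := lt_of_le_of_lt ((le_max_right _ _).trans (le_max_right _ _)) hlt
  obtain ⟨d, hd, a, ha, hda⟩ := hB ℓ hℓ hB1
  refine main_l α e he (by rw [RingOfIntegers.rank]; exact h2) ℓ hℓ (Nat.not_dvd_of_pos_of_lt he0 he1) ?_
  exact congr_l x N α hα ℓ hℓ (Nat.not_dvd_of_pos_of_lt hN hN1) d hd a ha hda

theorem main3 {K : Type} [Field K] [NumberField K] [alg : Algebra ℚ K] (x : K)
    (hx : ∀ y : K, y ∈ Algebra.adjoin ℚ {x}) (h2 : 2 ≤ Module.finrank ℚ K) (B : ℕ)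
    (hB : ∀ ℓ : ℕ, ℓ.Prime → B < ℓ → ∃ d : ℤ, ¬ (ℓ : ℤ) ∣ d ∧ ∃ a : K, IsIntegral ℤ a ∧
      (d : K) * (x ^ ℓ - x) = (ℓ : K) * a) :
    ∃ B : ℕ, ∀ ℓ : ℕ, ℓ.Prime → B < ℓ →
      ∃ 𝔭 𝔮 : Ideal (𝓞 K), 𝔭 ≠ 𝔮 ∧ 𝔭.IsPrime ∧ 𝔮.IsPrime ∧ Ideal.absNorm 𝔭 = ℓ ∧ Ideal.absNorm 𝔮 = ℓ := by
  obtain rfl : alg = DivisionRing.toRatAlgebra := Subsingleton.elim _ _
  exact main2 x hx h2 B hB

/-- Descent of the hypothesis to a subfield. -/
theorem descend {K L : Type} [Field K] [NumberField K] [Field L] [NumberField L] (i : K →+* L) (x : K) (ℓ : ℕ)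
    (hℓ : ℓ.Prime) (d : ℤ) (a : L) (ha : IsIntegral ℤ a) (hda : (d : L) * ((i x) ^ ℓ - i x) = (ℓ : L) * a) :
    ∃ a : K, IsIntegral ℤ a ∧ (d : K) * (x ^ ℓ - x) = (ℓ : K) * a := by
  have hℓ0 : (ℓ : K) ≠ 0 := Nat.cast_ne_zero.mpr hℓ.ne_zero
  have h6 : (ℓ : L) ≠ 0 := Nat.cast_ne_zero.mpr hℓ.ne_zero
  have h1 : (d : K) * (x ^ ℓ - x) = (ℓ : K) * ((ℓ : K)⁻¹ * ((d : K) * (x ^ ℓ - x))) := by
    rw [← mul_assoc, mul_inv_cancel₀ hℓ0, one_mul]
  refine ⟨(ℓ : K)⁻¹ * ((d : K) * (x ^ ℓ - x)), ?_, h1⟩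
  have h2 : i ((ℓ : K)⁻¹ * ((d : K) * (x ^ ℓ - x))) = a := by
    apply mul_left_cancel₀ h6
    rw [← hda]
    have h7 := congrArg i h1
    rw [map_mul, map_mul, map_sub, map_pow, map_natCast, map_intCast] at h7
    exact h7.symm
  rw [← h2] at ha
  exact (isIntegral_algHom_iff i.toIntAlgHom i.injective).mp ha

end NTB

theorem t_NTB : S_NTB := by
  intro L _ _ x hx hB
  obtain ⟨B, hB⟩ := hB
  have halg : IsIntegral ℚ x := Algebra.IsIntegral.isIntegral x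
  have h3 : 0 < Module.finrank ℚ (IntermediateField.adjoin ℚ {x}) := Module.finrank_pos
  have h4 : Module.finrank ℚ (IntermediateField.adjoin ℚ {x}) ≠ 1 := by
    intro h
    have h5 := IntermediateField.finrank_adjoin_simple_eq_one_iff.mp h
    rw [IntermediateField.mem_bot] at h5
    obtain ⟨q, hq⟩ := h5
    exact hx q (by rw [← hq]; rfl)
  have h6 := (IntermediateField.adjoin.powerBasis halg).adjoin_gen_eq_top
  rw [IntermediateField.adjoin.powerBasis_gen] at h6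
  refine ⟨IntermediateField.adjoin ℚ {x}, inferInstance, inferInstance, ?_⟩
  refine NTB.main3 (alg := (IntermediateField.adjoin ℚ {x}).algebra') (IntermediateField.AdjoinSimple.gen ℚ x)
    (fun y => Algebra.eq_top_iff.mp h6 y) (by omega) B ?_
  intro ℓ hℓ hlt
  obtain ⟨d, hd, a, ha, hda⟩ := hB ℓ hℓ hlt
  exact ⟨d, hd, NTB.descend (IntermediateField.adjoin ℚ {x}).val.toRingHom
    (IntermediateField.AdjoinSimple.gen ℚ x) ℓ hℓ d a ha hda⟩

end Pool.Agent.FJA
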