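import Pool.Agent.FJA.StX

set_option autoImplicit false

open NumberField Filter

namespace Pool.Agent.FJA

namespace NTC

/-- The ideal attached to `b` and a choice of prime ideals. -/
noncomputable def J {K : Type} [Field K] [NumberField K] (p : ℕ → Ideal (𝓞 K)) (b : ℕ) : Multiset (Ideal (𝓞 K)) :=
  (b.primeFactorsList : Multiset ℕ).map p

theorem nrm {K : Type} [Field K] [NumberField K] (B : ℕ) (p : ℕ → Ideal (𝓞 K))
    (hp : ∀ ℓ : ℕ, ℓ.Prime → B < ℓ → Ideal.absNorm (p ℓ) = ℓ) (b : ℕ) (hb : ∀ ℓ ∈ b.primeFactorsList, B < ℓ) :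
    (J p b).map (fun I => Ideal.absNorm I) = (b.primeFactorsList : Multiset ℕ) := by
  unfold J
  rw [Multiset.map_map]
  conv_rhs => rw [← Multiset.map_id (b.primeFactorsList : Multiset ℕ)]
  apply Multiset.map_congr rfl
  intro ℓ hℓ
  have h1 : ℓ ∈ b.primeFactorsList := by simpa using hℓ
  simp [hp ℓ (Nat.prime_of_mem_primeFactorsList h1) (hb ℓ h1)]

theorem nrm_prod {K : Type} [Field K] [NumberField K] (B : ℕ) (p : ℕ → Ideal (𝓞 K))
    (hp : ∀ ℓ : ℕ, ℓ.Prime → B < ℓ → Ideal.absNorm (p ℓ) = ℓ) (b : ℕ) (hb0 : b ≠ 0)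
    (hb : ∀ ℓ ∈ b.primeFactorsList, B < ℓ) :
    Ideal.absNorm (J p b).prod = b := by
  rw [map_multiset_prod, nrm B p hp b hb, Multiset.prod_coe, Nat.prod_primeFactorsList hb0]

theorem inj {K : Type} [Field K] [NumberField K] (B : ℕ) (p q : ℕ → Ideal (𝓞 K))
    (hp : ∀ ℓ : ℕ, ℓ.Prime → B < ℓ → Ideal.absNorm (p ℓ) = ℓ)
    (hq : ∀ ℓ : ℕ, ℓ.Prime → B < ℓ → Ideal.absNorm (q ℓ) = ℓ)
    (hpp : ∀ ℓ : ℕ, ℓ.Prime → B < ℓ → (p ℓ).IsPrime)
    (hqp : ∀ ℓ : ℕ, ℓ.Prime → B < ℓ → (q ℓ).IsPrime)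
    (hpq : ∀ ℓ : ℕ, ℓ.Prime → B < ℓ → p ℓ ≠ q ℓ)
    (b c b' c' : ℕ) (hb0 : b ≠ 0) (hc0 : c ≠ 0) (hb0' : b' ≠ 0) (hc0' : c' ≠ 0)
    (hb : ∀ ℓ ∈ b.primeFactorsList, B < ℓ) (hc : ∀ ℓ ∈ c.primeFactorsList, B < ℓ)
    (hb' : ∀ ℓ ∈ b'.primeFactorsList, B < ℓ) (hc' : ∀ ℓ ∈ c'.primeFactorsList, B < ℓ)
    (h : (J p b).prod * (J q c).prod = (J p b').prod * (J q c').prod) : b = b' ∧ c = c' := by
  classical
  have prime_of : ∀ I : Ideal (𝓞 K), I.IsPrime → Ideal.absNorm I ≠ 0 → Prime I := by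
    intro I hI h0
    refine Ideal.prime_of_isPrime ?_ hI
    rintro rfl
    simp at h0
  have key : ∀ (b c : ℕ), (∀ ℓ ∈ b.primeFactorsList, B < ℓ) → (∀ ℓ ∈ c.primeFactorsList, B < ℓ) →
      UniqueFactorizationMonoid.normalizedFactors ((J p b).prod * (J q c).prod) = J p b + J q c := by
    intro b c hb hc
    rw [← Multiset.prod_add]
    apply UniqueFactorizationMonoid.normalizedFactors_prod_of_prime
    intro I hI
    rw [Multiset.mem_add] at hI
    rcases hI with hI | hI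
    · simp only [J, Multiset.mem_map, Multiset.mem_coe] at hI
      obtain ⟨ℓ, hℓ, rfl⟩ := hI
      have hℓp := Nat.prime_of_mem_primeFactorsList hℓ
      refine prime_of _ (hpp ℓ hℓp (hb ℓ hℓ)) ?_
      rw [hp ℓ hℓp (hb ℓ hℓ)]
      exact hℓp.ne_zero
    · simp only [J, Multiset.mem_map, Multiset.mem_coe] at hI
      obtain ⟨ℓ, hℓ, rfl⟩ := hI
      have hℓp := Nat.prime_of_mem_primeFactorsList hℓ
      refine prime_of _ (hqp ℓ hℓp (hc ℓ hℓ)) ?_
      rw [hq ℓ hℓp (hc ℓ hℓ)]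
      exact hℓp.ne_zero
  have hms : J p b + J q c = J p b' + J q c' := by
    rw [← key b c hb hc, ← key b' c' hb' hc', h]
  have hf1 : ∀ b : ℕ, (∀ ℓ ∈ b.primeFactorsList, B < ℓ) →
      (J p b).filter (fun I => I = p (Ideal.absNorm I)) = J p b := by
    intro b hb
    rw [Multiset.filter_eq_self]
    intro I hI
    simp only [J, Multiset.mem_map, Multiset.mem_coe] at hI
    obtain ⟨ℓ, hℓ, rfl⟩ := hI
    rw [hp ℓ (Nat.prime_of_mem_primeFactorsList hℓ) (hb ℓ hℓ)]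
  have hf2 : ∀ c : ℕ, (∀ ℓ ∈ c.primeFactorsList, B < ℓ) →
      (J q c).filter (fun I => I = p (Ideal.absNorm I)) = 0 := by
    intro c hc
    rw [Multiset.filter_eq_nil]
    intro I hI
    simp only [J, Multiset.mem_map, Multiset.mem_coe] at hI
    obtain ⟨ℓ, hℓ, rfl⟩ := hI
    rw [hq ℓ (Nat.prime_of_mem_primeFactorsList hℓ) (hc ℓ hℓ)]
    exact fun h1 => hpq ℓ (Nat.prime_of_mem_primeFactorsList hℓ) (hc ℓ hℓ) h1.symm
  have h1 : J p b = J p b' := by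
    have := congrArg (Multiset.filter (fun I => I = p (Ideal.absNorm I))) hms
    rwa [Multiset.filter_add, Multiset.filter_add, hf1 b hb, hf1 b' hb', hf2 c hc, hf2 c' hc', add_zero,
      add_zero] at this
  have h2 : J q c = J q c' := by
    rw [h1] at hms
    exact add_left_cancel hms
  constructor
  · rw [← nrm_prod B p hp b hb0 hb, h1, nrm_prod B p hp b' hb0' hb']
  · rw [← nrm_prod B q hq c hc0 hc, h2, nrm_prod B q hq c' hc0' hc']

/-- The integers `1 + i * B !` have no prime divisors `≤ B`. -/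
theorem big (B i : ℕ) : ∀ ℓ ∈ (1 + i * B.factorial).primeFactorsList, B < ℓ := by
  intro ℓ hℓ
  have hp := Nat.prime_of_mem_primeFactorsList hℓ
  have hd := Nat.dvd_of_mem_primeFactorsList hℓ
  by_contra hlt
  push Not at hlt
  have h1 : ℓ ∣ B.factorial := (Nat.Prime.dvd_factorial hp).2 hlt
  have h2 : ℓ ∣ 1 := by
    have h3 : ℓ ∣ i * B.factorial := Dvd.dvd.mul_left h1 i
    exact (Nat.dvd_add_left h3).1 hd
  exact hp.one_lt.ne' (Nat.dvd_one.1 h2)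

/-- The count. -/
theorem count {K : Type} [Field K] [NumberField K] (B : ℕ) (p q : ℕ → Ideal (𝓞 K))
    (hp : ∀ ℓ : ℕ, ℓ.Prime → B < ℓ → Ideal.absNorm (p ℓ) = ℓ)
    (hq : ∀ ℓ : ℕ, ℓ.Prime → B < ℓ → Ideal.absNorm (q ℓ) = ℓ)
    (hpp : ∀ ℓ : ℕ, ℓ.Prime → B < ℓ → (p ℓ).IsPrime)
    (hqp : ∀ ℓ : ℕ, ℓ.Prime → B < ℓ → (q ℓ).IsPrime)
    (hpq : ∀ ℓ : ℕ, ℓ.Prime → B < ℓ → p ℓ ≠ q ℓ) (Y : ℕ) :
    ∑ a ∈ Finset.range Y, Y / (a + 1) ≤
      Nat.card {I : Ideal (𝓞 K) // (Ideal.absNorm I : ℝ) ≤ ((Y * B.factorial ^ 2 : ℕ) : ℝ)} := by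
  classical
  set P := B.factorial with hP
  have hfin : Finite {I : Ideal (𝓞 K) // (Ideal.absNorm I : ℝ) ≤ ((Y * P ^ 2 : ℕ) : ℝ)} := by
    have : {I : Ideal (𝓞 K) | (Ideal.absNorm I : ℝ) ≤ ((Y * P ^ 2 : ℕ) : ℝ)} =
        {I : Ideal (𝓞 K) | Ideal.absNorm I ≤ Y * P ^ 2} := by
      ext I
      simp only [Set.mem_ofPred_eq]
      exact Nat.cast_le
    have h2 : Set.Finite {I : Ideal (𝓞 K) | (Ideal.absNorm I : ℝ) ≤ ((Y * P ^ 2 : ℕ) : ℝ)} := by
      rw [this]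
      exact Ideal.finite_setOfPred_absNorm_le _
    exact h2.to_subtype
  let T : Type := Σ a : Fin Y, Fin (Y / (a.1 + 1))
  have hT : Nat.card T = ∑ a ∈ Finset.range Y, Y / (a + 1) := by
    rw [Nat.card_eq_fintype_card, Fintype.card_sigma]
    simp only [Fintype.card_fin]
    exact Fin.sum_univ_eq_sum_range (fun a => Y / (a + 1)) Y
  rw [← hT]
  let F : T → {I : Ideal (𝓞 K) // (Ideal.absNorm I : ℝ) ≤ ((Y * P ^ 2 : ℕ) : ℝ)} := fun t =>
    ⟨(J p (1 + t.1.1 * P)).prod * (J q (1 + t.2.1 * P)).prod, by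
      rw [Nat.cast_le, map_mul, nrm_prod B p hp _ (by omega) (big B _), nrm_prod B q hq _ (by omega) (big B _)]
      have hP1 : 1 ≤ P := Nat.factorial_pos B
      have h1 : 1 + t.1.1 * P ≤ (t.1.1 + 1) * P := by nlinarith
      have h2 : 1 + t.2.1 * P ≤ (t.2.1 + 1) * P := by nlinarith
      have h3 : (t.2.1 + 1) ≤ Y / (t.1.1 + 1) := t.2.2
      have h4 : (t.2.1 + 1) * (t.1.1 + 1) ≤ Y := by
        rwa [Nat.le_div_iff_mul_le (by omega)] at h3
      calc (1 + t.1.1 * P) * (1 + t.2.1 * P) ≤ ((t.1.1 + 1) * P) * ((t.2.1 + 1) * P) := Nat.mul_le_mul h1 h2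
        _ = ((t.2.1 + 1) * (t.1.1 + 1)) * P ^ 2 := by ring
        _ ≤ Y * P ^ 2 := Nat.mul_le_mul_right _ h4⟩
  have hF : Function.Injective F := by
    rintro ⟨a, b⟩ ⟨a', b'⟩ hab
    have h0 : (J p (1 + a.1 * P)).prod * (J q (1 + b.1 * P)).prod =
        (J p (1 + a'.1 * P)).prod * (J q (1 + b'.1 * P)).prod := congrArg Subtype.val hab
    obtain ⟨e1, e2⟩ := inj B p q hp hq hpp hqp hpq _ _ _ _ (by omega) (by omega) (by omega) (by omega)
      (big B _) (big B _) (big B _) (big B _) h0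
    have hP1 : 0 < P := Nat.factorial_pos B
    have e1' : a.1 = a'.1 := by
      have : a.1 * P = a'.1 * P := Nat.add_left_cancel e1
      exact Nat.eq_of_mul_eq_mul_right hP1 this
    have e2' : b.1 = b'.1 := by
      have : b.1 * P = b'.1 * P := Nat.add_left_cancel e2
      exact Nat.eq_of_mul_eq_mul_right hP1 this
    have e3 : a = a' := Fin.ext e1'
    subst e3
    have e4 : b = b' := Fin.ext e2'
    rw [e4]
  exact Nat.card_le_card_of_injective F hF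

end NTC

theorem t_NTC : S_NTC := by
  intro K _ _ B h
  classical
  choose! p q hpq hpp hqp hp hq using h
  have hcount := NTC.count B p q hp hq hpp hqp hpq
  set P := B.factorial with hP
  have hP1 : 0 < P := Nat.factorial_pos B
  have hlim := NumberField.Ideal.tendsto_norm_le_div_atTop K
  have hmap : Tendsto (fun Y : ℕ => ((Y * P ^ 2 : ℕ) : ℝ)) atTop atTop := by
    apply tendsto_natCast_atTop_atTop.comp
    exact tendsto_id.atTop_mul_const' (by positivity)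
  have h1 := hlim.comp hmap
  refine not_tendsto_nhds_of_tendsto_atTop ?_ _ h1
  have h2 : Tendsto (fun Y : ℕ => (∑ i ∈ Finset.range Y, 1 / ((i : ℝ) + 1) - 1) / (P : ℝ) ^ 2) atTop atTop := by
    apply Tendsto.atTop_div_const (by positivity)
    exact tendsto_atTop_add_const_right _ _ Real.tendsto_sum_range_one_div_nat_succ_atTop
  refine tendsto_atTop_mono' atTop ?_ h2
  filter_upwards [eventually_gt_atTop 0] with Y hY
  simp only [Function.comp_apply]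
  have hY' : (0 : ℝ) < Y := by exact_mod_cast hY
  have hPr : (0 : ℝ) < (P : ℝ) ^ 2 := by positivity
  rw [Nat.cast_mul, Nat.cast_pow, div_le_div_iff₀ hPr (by positivity)]
  have h3 : (((∑ a ∈ Finset.range Y, Y / (a + 1) : ℕ)) : ℝ) ≤
      (Nat.card {I : Ideal (𝓞 K) // (Ideal.absNorm I : ℝ) ≤ ((Y * P ^ 2 : ℕ) : ℝ)} : ℝ) := by
    exact_mod_cast hcount Y
  have h4 : (Y : ℝ) * (∑ i ∈ Finset.range Y, 1 / ((i : ℝ) + 1) - 1) ≤
      (((∑ a ∈ Finset.range Y, Y / (a + 1) : ℕ)) : ℝ) := by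
    rw [Nat.cast_sum, mul_sub, mul_one, Finset.mul_sum]
    have h5 : ∀ a ∈ Finset.range Y, (Y : ℝ) * (1 / ((a : ℝ) + 1)) - 1 ≤ ((Y / (a + 1) : ℕ) : ℝ) := by
      intro a _
      have h6 : (Y : ℝ) < (((Y / (a + 1) : ℕ) : ℝ) + 1) * ((a : ℝ) + 1) := by
        have := Nat.lt_div_mul_add (a := Y) (b := a + 1) (by omega)
        have h7 : Y < (Y / (a + 1) + 1) * (a + 1) := by nlinarith
        exact_mod_cast h7
      have ha : (0 : ℝ) < (a : ℝ) + 1 := by positivity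
      have h8 : (Y : ℝ) * (1 / ((a : ℝ) + 1)) < ((Y / (a + 1) : ℕ) : ℝ) + 1 := by
        rw [mul_one_div, div_lt_iff₀ ha]
        exact h6
      linarith
    have h9 := Finset.sum_le_sum h5
    rw [Finset.sum_sub_distrib] at h9
    simpa using h9
  have h10 := h4.trans h3
  rw [Nat.cast_mul, Nat.cast_pow] at h10
  nlinarith [mul_le_mul_of_nonneg_right h10 hPr.le]

end Pool.Agent.FJA
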