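import Pool.Agent.FJA.StX

/-!
# Dennis trace of group algebras: module NTL   (helper1)

`x ^ ℓ ≡ x` modulo almost all primes implies that `x` is rational.
-/

set_option autoImplicit false

open Matrix Pool.Agent.WhK Pool.Agent.Lib25 NumberField

namespace Pool.Agent.FJA

namespace NTL

/-- a common denominator of finitely many algebraic numbers -/
theorem denom (L : Type) [Field L] [NumberField L] (t : Finset L) :
    ∃ N : ℤ, N ≠ 0 ∧ ∀ y ∈ t, IsIntegral ℤ ((N : L) * y) := by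
  classical
  induction t using Finset.induction_on with
  | empty => exact ⟨1, one_ne_zero, by simp⟩
  | insert a t ha ih =>
    obtain ⟨N, hN, hNt⟩ := ih
    have halg : IsAlgebraic ℤ a := by
      have h1 : IsAlgebraic ℚ a := Algebra.IsAlgebraic.isAlgebraic a
      exact (IsFractionRing.isAlgebraic_iff ℤ ℚ L).2 h1
    obtain ⟨M, hM, hMa⟩ := halg.exists_integral_multiple
    refine ⟨N * M, mul_ne_zero hN hM, ?_⟩
    intro y hy
    have hMint : ∀ m : ℤ, IsIntegral ℤ ((m : L)) := fun m => by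
      have := isIntegral_algebraMap (R := ℤ) (A := L) (x := m)
      simpa using this
    rcases Finset.mem_insert.1 hy with rfl | hy
    · have h2 := (hMint N).mul hMa
      have h3 : ((N * M : ℤ) : L) * y = (N : L) * (M • y) := by
        rw [zsmul_eq_mul]
        push_cast
        ring
      rw [h3]
      exact h2
    · have h2 := (hMint M).mul (hNt y hy)
      have h3 : ((N * M : ℤ) : L) * y = (M : L) * ((N : L) * y) := by
        push_cast
        ring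
      rw [h3]
      exact h2

/-- common denominators on a finitely generated ring -/
theorem denom_closure (k : Type) [Field k] (s : Finset k) (L : Type) [Field L] [NumberField L]
    (θ : Subring.closure (s : Set k) →+* L) :
    ∃ N : ℤ, N ≠ 0 ∧ ∀ a : Subring.closure (s : Set k), ∃ e : ℕ,
      IsIntegral ℤ ((N : L) ^ e * θ a) := by
  classical
  let t : Finset L := s.attach.image fun a : {y : k // y ∈ s} =>
    θ (⟨a.1, Subring.subset_closure (Finset.mem_coe.2 a.2)⟩ : Subring.closure (s : Set k))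
  obtain ⟨N, hN, hNt⟩ := denom L t
  have hMint : ∀ m : ℤ, IsIntegral ℤ ((m : L)) := fun m => by
    have := isIntegral_algebraMap (R := ℤ) (A := L) (x := m)
    simpa using this
  refine ⟨N, hN, ?_⟩
  rintro ⟨a, ha⟩
  induction ha using Subring.closure_induction with
  | mem y hy =>
    refine ⟨1, ?_⟩
    rw [pow_one]
    apply hNt
    rw [Finset.mem_image]
    exact ⟨⟨y, Finset.mem_coe.1 hy⟩, Finset.mem_attach _ _, rfl⟩
  | zero =>
    refine ⟨0, ?_⟩
    have h1 : θ ⟨0, Subring.zero_mem _⟩ = 0 := map_zero θ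
    rw [h1, mul_zero]
    exact isIntegral_zero
  | one =>
    refine ⟨0, ?_⟩
    have h1 : θ ⟨1, Subring.one_mem _⟩ = 1 := map_one θ
    rw [h1, pow_zero, mul_one]
    exact isIntegral_one
  | add y z hy hz ihy ihz =>
    obtain ⟨e, he⟩ := ihy
    obtain ⟨f, hf⟩ := ihz
    refine ⟨e + f, ?_⟩
    have h1 : θ ⟨y + z, Subring.add_mem _ hy hz⟩ = θ ⟨y, hy⟩ + θ ⟨z, hz⟩ :=
      map_add θ ⟨y, hy⟩ ⟨z, hz⟩
    rw [h1]
    have h2 : (N : L) ^ (e + f) * (θ ⟨y, hy⟩ + θ ⟨z, hz⟩) =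
        (N : L) ^ f * ((N : L) ^ e * θ ⟨y, hy⟩) + (N : L) ^ e * ((N : L) ^ f * θ ⟨z, hz⟩) := by
      ring
    rw [h2]
    exact (((hMint N).pow f).mul he).add (((hMint N).pow e).mul hf)
  | neg y hy ihy =>
    obtain ⟨e, he⟩ := ihy
    refine ⟨e, ?_⟩
    have h1 : θ ⟨-y, Subring.neg_mem _ hy⟩ = -θ ⟨y, hy⟩ := map_neg θ ⟨y, hy⟩
    rw [h1, mul_neg]
    exact he.neg
  | mul y z hy hz ihy ihz =>
    obtain ⟨e, he⟩ := ihy
    obtain ⟨f, hf⟩ := ihz
    refine ⟨e + f, ?_⟩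
    have h1 : θ ⟨y * z, Subring.mul_mem _ hy hz⟩ = θ ⟨y, hy⟩ * θ ⟨z, hz⟩ :=
      map_mul θ ⟨y, hy⟩ ⟨z, hz⟩
    rw [h1]
    have h2 : (N : L) ^ (e + f) * (θ ⟨y, hy⟩ * θ ⟨z, hz⟩) =
        ((N : L) ^ e * θ ⟨y, hy⟩) * ((N : L) ^ f * θ ⟨z, hz⟩) := by
      ring
    rw [h2]
    exact he.mul hf

end NTL

open NTL in
theorem t_NTL (hnta : S_NTA) (hntb : S_NTB) (hntc : S_NTC) : S_NTL := by
  classical
  intro k _ _ s x hx hB
  by_contra hcon
  push Not at hcon
  obtain ⟨B, hB⟩ := hB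
  obtain ⟨L, _, _, θ, hθ⟩ := hnta k s ⟨x, hx⟩ hcon
  obtain ⟨N, hN, hNt⟩ := denom_closure k s L θ
  have key : ∃ B : ℕ, ∀ ℓ : ℕ, ℓ.Prime → B < ℓ → ∃ d : ℤ, ¬ (ℓ : ℤ) ∣ d ∧ ∃ a : L, IsIntegral ℤ a ∧
      (d : L) * ((θ ⟨x, hx⟩) ^ ℓ - θ ⟨x, hx⟩) = (ℓ : L) * a := by
    refine ⟨max B N.natAbs, fun ℓ hℓ hlt => ?_⟩
    obtain ⟨d, hd, a, ha, hda⟩ := hB ℓ hℓ (lt_of_le_of_lt (le_max_left _ _) hlt)
    have hNl : ¬ (ℓ : ℤ) ∣ N := by
      intro h
      have h1 := Int.natAbs_le_of_dvd_ne_zero h hN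
      have h2 := lt_of_le_of_lt (le_max_right B N.natAbs) hlt
      simp at h1
      omega
    obtain ⟨e, he⟩ := hNt ⟨a, ha⟩
    have hℓ' : Prime (ℓ : ℤ) := Nat.prime_iff_prime_int.1 hℓ
    refine ⟨d * N ^ e, ?_, (N : L) ^ e * θ ⟨a, ha⟩, he, ?_⟩
    · intro h
      rcases hℓ'.dvd_or_dvd h with h | h
      · exact hd h
      · exact hNl (hℓ'.dvd_of_dvd_pow h)
    · have h1 : (d : Subring.closure (s : Set k)) *
          ((⟨x, hx⟩ : Subring.closure (s : Set k)) ^ ℓ - ⟨x, hx⟩) =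
          (ℓ : Subring.closure (s : Set k)) * ⟨a, ha⟩ := by
        apply Subtype.ext
        push_cast
        exact hda
      have h2 := congrArg θ h1
      rw [map_mul, map_mul, map_sub, map_pow, map_intCast, map_natCast] at h2
      push_cast
      calc (d : L) * (N : L) ^ e * ((θ ⟨x, hx⟩) ^ ℓ - θ ⟨x, hx⟩)
          = (N : L) ^ e * ((d : L) * ((θ ⟨x, hx⟩) ^ ℓ - θ ⟨x, hx⟩)) := by ring
        _ = (N : L) ^ e * ((ℓ : L) * θ ⟨a, ha⟩) := by rw [h2]
        _ = (ℓ : L) * ((N : L) ^ e * θ ⟨a, ha⟩) := by ring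
  obtain ⟨K, _, _, B', hK⟩ := hntb L (θ ⟨x, hx⟩) hθ key
  exact hntc K B' hK

end Pool.Agent.FJA
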