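import Pool.Agent.FJA.StX

/-!
# PWQ: the value of the section functional at a power
-/

set_option autoImplicit false

noncomputable section

namespace Pool.Agent.FJA

namespace PWQ

variable {Γ : Type} [Group Γ] {V : Type}

theorem val_pow (μ : Rec Γ V) (n : ℕ) : (μ ^ n).val = μ.val ^ n :=
  map_pow (Rec.valHom (Γ := Γ) (V := V)) μ n

theorem lst_pow (μ : Rec Γ V) (i : V) (a : Γ) (h : μ.lst i = [a]) (n : ℕ) :
    ((μ ^ n).lst i).length = n ∧ ∀ b ∈ (μ ^ n).lst i, ∃ j : ℕ, b = μ.val ^ j * a := by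
  induction n with
  | zero => simp
  | succ n ih =>
    rw [pow_succ, Rec.mul_lst, h, val_pow]
    refine ⟨by simp [ih.1], ?_⟩
    intro b hb
    rw [List.mem_append] at hb
    rcases hb with hb | hb
    · exact ih.2 b hb
    · simp only [List.map_cons, List.map_nil, List.mem_singleton] at hb
      exact ⟨n, hb⟩

end PWQ

open PWQ in
theorem t_PWQ : S_PWQ := by
  intro Γ _ M ℓ F s hℓ bas hs μ hμ hz
  have hne : ∀ i, ∃ a, μ.lst i = [a] := fun i => List.length_eq_one_iff.mp (hμ i)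
  choose a ha using hne
  have h1 : ∀ i, ((μ ^ ℓ).lst i).length = ℓ := fun i => (lst_pow μ i (a i) (ha i) ℓ).1
  have h2 : ∀ i, μ.lst i ≠ [] := fun i => by rw [ha i]; exact List.cons_ne_nil _ _
  unfold evN fst powF
  rw [if_pos h1, if_pos h2, val_pow]
  by_cases h0 : ∀ b, F b (μ.val ^ ℓ) = 0
  · rw [h0, h0]
  · push Not at h0
    obtain ⟨b, hb⟩ := h0
    obtain ⟨u, hu⟩ := Subgroup.mem_zpowers_iff.mp (hz b hb)
    have h3 : ∀ i, ∃ t : ℤ, s ((μ ^ ℓ).lst i) (μ.val ^ ℓ) = (μ.val ^ ℓ) ^ t * a i := by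
      intro i
      have hn : (μ ^ ℓ).lst i ≠ [] := by
        intro h
        have := h1 i
        rw [h, List.length_nil] at this
        omega
      obtain ⟨t, c, hc, e⟩ := hs _ (μ.val ^ ℓ) hn
      obtain ⟨j, hj⟩ := (lst_pow μ i (a i) (ha i) ℓ).2 c hc
      refine ⟨t + u * j, ?_⟩
      rw [e, hj, zpow_add, zpow_mul, hu, zpow_natCast, mul_assoc]
    choose t ht using h3
    have h4 : (fun i => s ((μ ^ ℓ).lst i) (μ.val ^ ℓ)) = fun i => (μ.val ^ ℓ) ^ t i * a i :=
      funext ht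
    have h5 : (fun i => (μ.lst i).headD 1) = a := by
      funext i
      rw [ha i]
      rfl
    rw [h4, h5]
    exact bas t a (μ.val ^ ℓ)

end Pool.Agent.FJA
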