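import Pool.Agent.FJA.CoreAllW
import Pool.Agent.FJA.P_LDA
import Pool.Agent.FJA.P_GAC
import Pool.Agent.FJA.P_HSP
import Pool.Agent.FJA.P_TRQ
import Pool.Agent.FJA.P_SCQ
import Pool.Agent.FJA.P_PWQ
import Pool.Agent.FJA.P_DZB
import Pool.Agent.FJA.P_HMC
import Pool.Agent.FJA.P_NTA
import Pool.Agent.FJA.P_NTB
import Pool.Agent.FJA.P_NTC
import Pool.Agent.FJA.P_NTL
import Pool.Agent.FJA.P_HFE
import Pool.Agent.FJA.P_HBR
import Pool.Agent.FJA.P_HBG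
import Pool.Agent.FJA.P_HBT
import Pool.Agent.FJA.P_RTI
import Pool.Agent.FJA.P_HCI
import Pool.Agent.FJA.P_FWK
import Pool.Agent.FJA.P_HCG
import Pool.Agent.FJA.P_HCT

/-!
# The Dennis trace of group algebras over fields: the theorems of the modules, composed
-/

set_option autoImplicit false

noncomputable section

namespace Pool.Agent.FJA

theorem h_GAC : S_GAC := t_GAC t_LDA
theorem h_HMC : S_HMC := t_HMC t_LDA h_GAC t_HSP t_TRQ t_SCQ t_PWQ t_HGD t_HIN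
theorem h_NTL : S_NTL := t_NTL t_NTA t_NTB t_NTC
theorem h_HBR : S_HBR := t_HBR h_HMC h_NTL t_LDA t_DZB
theorem h_HBG : S_HBG := t_HBG h_HBR t_DZB
theorem h_HBT : S_HBT := t_HBT h_HBG t_DZB t_HFG t_HNA
theorem h_HCI : S_HCI := t_HCI h_HMC t_HFD t_DZB
theorem h_FWK : S_FWK := t_FWK h_GAC t_LDA t_HFE t_DZB t_HIN
theorem h_HCG : S_HCG := t_HCG h_HCI h_FWK t_DZB
theorem h_HCT : S_HCT := t_HCT h_HCG t_DZB t_HFG t_HNA

end Pool.Agent.FJA
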