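import Pool.Agent.FJA.StY
import Pool.Agent.FJA.P_HLI

/-!
# Module RAD: admissible families for `R[G]`
-/

set_option autoImplicit false

noncomputable section

namespace Pool.Agent.FJA

namespace RAD

theorem of_admT {R : Type} [CommRing R] {G : Type} [Group G] {n : ℕ}
    {F : (Fin (n + 1) → G) → G → ℚ} (hF : AdmT n F) : AdmS R n F := by
  refine ⟨hF.inv, ?_⟩
  intro H hH y
  obtain ⟨f', E, h1, h2, h3, h4, h5, h6, h7⟩ := hF.adm H hH y
  refine ⟨f', E, h1, h2, h3, h4, h5, h6, ?_⟩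
  rcases h7 with h7 | h7
  · exact Or.inl h7
  · exact Or.inr (Or.inr h7)

end RAD

theorem t_RAD (hrrf : S_RRF) : S_RAD := by
  refine ⟨fun R _ G _ n F hF => RAD.of_admT hF, ?_⟩
  intro R _ hR G _ hG n F hF
  refine ⟨?_, ?_⟩
  · intro g a y
    show ((F (fun i => g * a i) (g * y * g⁻¹) : ℤ) : ℚ) = ((F a y : ℤ) : ℚ)
    rw [hF.fam.inv]
  · intro H hH y
    refine ⟨fun a : Fin (n + 1) → H => ((F (fun i => (a i : G)) (y : G) : ℤ) : ℚ), 0,
      HLI.cinv hF.fam H y, fun _ _ _ => rfl, HLI.altb_res hF.altb H y, HLI.altb_zero y,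
      HLI.coc hF.fam H y, ?_, ?_⟩
    · intro a
      rw [HLI.cobE_zero, add_zero]
    · by_cases hy : y = 1
      · refine Or.inr (Or.inr ?_)
        intro V
        have hfin : IsOfFinOrder y := by
          rw [hy]
          exact isOfFinOrder_iff_pow_eq_one.2 ⟨1, one_pos, one_pow 1⟩
        exact HLI.inf_fin hfin _ V
      · refine Or.inr (Or.inl ?_)
        obtain ⟨p, c, hp, hδ⟩ := hrrf.1 H (hG H hH) y hy
        refine ⟨p, 1, c, hp, hR p hp, ?_, hδ⟩
        intro a h
        rw [pow_one] at h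
        have h1 : (((F (fun i => (a i : G)) (y : G) : ℤ) : ℚ)).den = 1 := Rat.den_intCast _
        rw [h1] at h
        exact hp.ne_one (Nat.dvd_one.1 h)

end Pool.Agent.FJA
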