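import Pool.Agent.FJA.StY
import Pool.Agent.FJA.P_HCO

/-!
# RCO: the value on a cyclic cycle with repeated vertices is zero
-/

set_option autoImplicit false

open Matrix Pool.Agent.WhK Pool.Agent.Lib25

noncomputable section

namespace Pool.Agent.FJA

namespace RCO

theorem den_add {p : ℕ} (hp : p.Prime) {x y : ℚ} (hx : ¬ p ∣ x.den) (hy : ¬ p ∣ y.den) :
    ¬ p ∣ (x + y).den := by
  intro h
  have h1 : p ∣ x.den * y.den := h.trans (Rat.add_den_dvd x y)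
  rcases (Nat.Prime.dvd_mul hp).1 h1 with h2 | h2
  · exact hx h2
  · exact hy h2

theorem den_sum {p : ℕ} (hp : p.Prime) {ι : Type} (s : Finset ι) (f : ι → ℚ)
    (h : ∀ i ∈ s, ¬ p ∣ (f i).den) : ¬ p ∣ (∑ i ∈ s, f i).den := by
  classical
  induction s using Finset.induction_on with
  | empty =>
    rw [Finset.sum_empty]
    intro h0
    exact hp.one_lt.ne' (Nat.dvd_one.1 h0)
  | insert a s ha ih =>
    rw [Finset.sum_insert ha]
    exact den_add hp (h a (Finset.mem_insert_self a s))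
      (ih fun i hi => h i (Finset.mem_insert_of_mem hi))

/-- A power of `p` removes the powers of `p` from the denominator. -/
theorem den_pow {p : ℕ} (hp : p.Prime) (x : ℚ) : ∃ C : ℕ, ∀ D, C ≤ D → ¬ p ∣ ((p : ℚ) ^ D * x).den := by
  obtain ⟨e, m, hm, he⟩ := Nat.exists_eq_pow_mul_and_not_dvd x.den_ne_zero p hp.ne_one
  refine ⟨e, fun D hD h => hm ?_⟩
  have hp0 : (p : ℚ) ≠ 0 := Nat.cast_ne_zero.2 hp.ne_zero
  have hm0 : (m : ℚ) ≠ 0 := by
    intro h0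
    have h1 : m = 0 := by exact_mod_cast h0
    exact hm (h1 ▸ dvd_zero p)
  have hx : (p : ℚ) ^ D * x = ((p ^ (D - e) * x.num : ℤ) : ℚ) / ((m : ℤ) : ℚ) := by
    have h1 : x = (x.num : ℚ) / (x.den : ℚ) := (Rat.num_div_den x).symm
    conv_lhs => rw [h1, he]
    push_cast
    have h2 : (p : ℚ) ^ D = (p : ℚ) ^ (D - e) * (p : ℚ) ^ e := by
      rw [← pow_add]
      congr 1
      omega
    rw [h2]
    field_simp
  have h3 : ((((p : ℚ) ^ D * x).den : ℕ) : ℤ) ∣ (m : ℤ) := by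
    rw [hx, ← Rat.divInt_eq_div]
    exact Rat.den_dvd _ _
  exact h.trans (Int.natCast_dvd_natCast.1 h3)

section

variable {k : Type} [Field k] [CharZero k] {Γ : Type} [Group Γ] {ι : Type} [Fintype ι]
  [DecidableEq ι] {ε : Matrix ι ι (MonoidAlgebra k Γ)} {M : ℕ}

/-- The value of `Φ` on a simplex. -/
theorem val_phi (hhtg : S_HTG) (hhfa : S_HFA) (hhev : S_HEV)
    (F : (Fin (M + 2) → Γ) → Γ → ℚ) (halt : ∀ y : Γ, AltB y (fun a => F a y))
    (Φ : (Fin (M + 2) → List Γ) → Γ → ℚ) (N : ℕ)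
    (ξ : (Fin (M + 1) → List Γ) → Γ → ℚ)
    (hξ : ∀ (Y : Fin (M + 2) → List Γ) (y : Γ),
        Φ Y y - ((N : ℚ) ^ (M + 2))⁻¹ * ∑ t : Fin (M + 2) → Fin N, F (fun j => (Y j).getD (t j) 1) y =
          ∑ i : Fin (M + 2), (-1 : ℚ) ^ (i : ℕ) * ξ (fun j => Y (i.succAbove j)) y)
    (X : Fin (M + 2) → RPair ε) :
    TG (fun μ : Rec Γ (Fin (M + 2)) => Φ μ.lst μ.val) N X =
      ((N : k) ^ (M + 2))⁻¹ * ∑ t : Fin (M + 2) → Fin N, ((Equiv.Perm.sign (Tuple.sort t) : ℤ) : k) *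
        TG (fst F) 1 (fun a => X (Tuple.sort t a)) +
      ∑ i : Fin (M + 2), (-1 : k) ^ (i : ℕ) * TG (lf ξ) N (fun t => X (i.succAbove t)) := by
  classical
  let c : (Fin (M + 2) → Fin N) ⊕ Fin (M + 2) → ℚ :=
    Sum.elim (fun _ => ((N : ℚ) ^ (M + 2))⁻¹) (fun i => (-1 : ℚ) ^ (i : ℕ))
  let ph : (Fin (M + 2) → Fin N) ⊕ Fin (M + 2) → Rec Γ (Fin (M + 2)) → ℚ :=
    Sum.elim (fun t => evT F t) (fun i μ => lf ξ (Rec.res i.succAbove μ))
  have e1 : (fun μ : Rec Γ (Fin (M + 2)) => Φ μ.lst μ.val) =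
      fun μ => ∑ i ∈ (Finset.univ : Finset ((Fin (M + 2) → Fin N) ⊕ Fin (M + 2))), c i * ph i μ := by
    funext μ
    have h := hξ μ.lst μ.val
    rw [Fintype.sum_sum_type]
    change _ = ∑ t : Fin (M + 2) → Fin N, ((N : ℚ) ^ (M + 2))⁻¹ * evT F t μ +
      ∑ i : Fin (M + 2), (-1 : ℚ) ^ (i : ℕ) * lf ξ (Rec.res i.succAbove μ)
    rw [← Finset.mul_sum]
    change _ = ((N : ℚ) ^ (M + 2))⁻¹ * ∑ t : Fin (M + 2) → Fin N,
      F (fun j => (μ.lst j).getD (t j) 1) μ.val +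
      ∑ i : Fin (M + 2), (-1 : ℚ) ^ (i : ℕ) * ξ (fun j => μ.lst (i.succAbove j)) μ.val
    rw [← h]
    ring
  rw [e1, hhtg.1 k Γ ι ε (M + 2) N X _ Finset.univ c ph, Fintype.sum_sum_type]
  congr 1
  · rw [Finset.mul_sum]
    refine Finset.sum_congr rfl fun t _ => ?_
    change ((((N : ℚ) ^ (M + 2))⁻¹ : ℚ) : k) * TG (evT F t) N X = _
    rw [hhev k Γ ι ε (M + 1) N F (fun σ a y => (halt y).alt σ a) t X]
    push_cast
    rfl
  · refine Finset.sum_congr rfl fun i _ => ?_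
    change (((-1 : ℚ) ^ (i : ℕ) : ℚ) : k) * TG (fun μ => lf ξ (Rec.res i.succAbove μ)) N X = _
    rw [hhfa k Γ ι ε M N (lf ξ) i X]
    push_cast
    rfl

/-- Multiplication of a function by a constant. -/
theorem TG_const (hhtg : S_HTG) (N : ℕ) (φ : Rec Γ (Fin M) → ℚ) (q : ℚ) (X : Fin M → RPair ε) :
    TG (fun μ => q * φ μ) N X = (q : k) * TG φ N X := by
  have h := hhtg.1 k Γ ι ε M N X Unit Finset.univ (fun _ => q) (fun _ => φ)
  simpa using h

/-- The average over the values of the section. -/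
def av {Q : ℕ} (F : (Fin M → Γ) → Γ → ℚ) (s : List Γ → Γ → Fin Q → Γ) (Y : Fin M → List Γ)
    (y : Γ) : ℚ :=
  ((Q : ℚ) ^ M)⁻¹ * ∑ J : Fin M → Fin Q, F (fun j => s (Y j) y (J j)) y

theorem av_den {p b c : ℕ} (hp : p.Prime) (F : (Fin M → Γ) → Γ → ℚ) (hF : FDen p b F)
    (s : List Γ → Γ → Fin (p ^ c) → Γ) (Y : Fin M → List Γ) (y : Γ) :
    ¬ p ∣ ((p : ℚ) ^ (b + c * M) * av F s Y y).den := by
  have hp0 : (p : ℚ) ≠ 0 := Nat.cast_ne_zero.2 hp.ne_zero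
  have e : (p : ℚ) ^ (b + c * M) * av F s Y y =
      ∑ J : Fin M → Fin (p ^ c), (p : ℚ) ^ b * F (fun j => s (Y j) y (J j)) y := by
    rw [av, ← Finset.mul_sum]
    push_cast
    rw [← pow_mul, pow_add]
    field_simp
  rw [e]
  exact den_sum hp _ _ fun J _ => hF _ _

/-- The main step: divisibility of the value of the polynomial at a power of `p`. -/
theorem step (hrgd : S_RGD) (hrxi : S_RXI) (hhtg : S_HTG) (hhfa : S_HFA) (hhev : S_HEV)
    (hhin : S_HIN) (F : (Fin (M + 2) → Γ) → Γ → ℚ) (hinv : FInv F) (hcoc : FCoc F)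
    (halt : ∀ y : Γ, AltB y (fun a => F a y)) (p b c : ℕ) (hp : p.Prime) (hden : FDen p b F)
    (hroot : FRoot p c F) (w : (Fin (M + 2) → RPair ε) →₀ ℚ) (hw : BdT w)
    (s : List Γ → Γ → Fin (p ^ c) → Γ) (hs : SecA (p ^ c) s) (C0 : ℕ)
    (hC0 : ∀ X ∈ w.support, ¬ p ∣ ((p : ℚ) ^ C0 * w X).den) (K : ℕ) :
    ∃ d : ℤ, ¬ (p : ℤ) ∣ d ∧ ∃ a ∈ Subring.closure (HCO.cf w : Set k),
      (d : k) * (p : k) ^ (C0 + (b + c * (M + 2))) *
        (∑ t : Fin (M + 2) → Fin (p ^ K), ((Equiv.Perm.sign (Tuple.sort t) : ℤ) : k) *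
          (w.sum fun X q => (q : k) * TG (fst F) 1 (fun a => X (Tuple.sort t a)))) =
        (p : k) ^ (K * (M + 2)) * a := by
  classical
  obtain ⟨T, -, hT⟩ := hw
  have hQ : 0 < p ^ c := pow_pos hp.pos c
  have hN : 0 < p ^ K := pow_pos hp.pos K
  obtain ⟨ξ, hξ1, hξ2⟩ := hrxi Γ (M + 1) (p ^ K) (p ^ c) F s hN hQ hinv hcoc halt hs
    (fun Y y hY hF => hrgd Γ p K c hp Y y hY (by
      obtain ⟨a, ha⟩ := hF
      exact hroot a y ha))
  have hp0 : (p : k) ≠ 0 := Nat.cast_ne_zero.2 hp.ne_zero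
  -- integrality
  obtain ⟨d, hd, hdA⟩ := HCO.int_sum (Subring.closure (HCO.cf w : Set k)) p hp w.support
    (fun X => (p : ℚ) ^ C0 * w X)
    (fun X => TG (fun μ : Rec Γ (Fin (M + 2)) =>
      (p : ℚ) ^ (b + c * (M + 2)) * av F s μ.lst μ.val) (p ^ K) X) hC0
    (fun X hX => hhin k Γ ι ε (M + 2) (p ^ K) (Subring.closure (HCO.cf w : Set k)) X
      (HCO.cf_a w X hX) (HCO.cf_b w X hX) p hp _ (fun μ => av_den hp F hden s _ _))
  refine ⟨d, hd, _, hdA, ?_⟩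
  have hl0 : (((p ^ K : ℕ) : k) ^ (M + 2)) ≠ 0 :=
    pow_ne_zero _ (Nat.cast_ne_zero.2 hN.ne')
  set r : k := ∑ t : Fin (M + 2) → Fin (p ^ K), ((Equiv.Perm.sign (Tuple.sort t) : ℤ) : k) *
          (w.sum fun X q => (q : k) * TG (fst F) 1 (fun a => X (Tuple.sort t a))) with hr
  have e1 : ∑ X ∈ w.support, ((w X : ℚ) : k) *
      TG (fun μ : Rec Γ (Fin (M + 2)) => av F s μ.lst μ.val) (p ^ K) X =
      (((p ^ K : ℕ) : k) ^ (M + 2))⁻¹ * r := by
    have e2 := hT (p ^ K) hN ξ (hξ1 T)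
    rw [Finsupp.sum] at e2
    have e3 : ∑ X ∈ w.support, ((w X : ℚ) : k) *
        TG (fun μ : Rec Γ (Fin (M + 2)) => av F s μ.lst μ.val) (p ^ K) X =
        ∑ X ∈ w.support, (((w X : ℚ) : k) * ((((p ^ K : ℕ) : k) ^ (M + 2))⁻¹ *
          ∑ t : Fin (M + 2) → Fin (p ^ K), ((Equiv.Perm.sign (Tuple.sort t) : ℤ) : k) *
          TG (fst F) 1 (fun a => X (Tuple.sort t a))) +
        ((w X : ℚ) : k) * ∑ i : Fin (M + 2), (-1 : k) ^ (i : ℕ) *
          TG (lf ξ) (p ^ K) (fun t => X (i.succAbove t))) := by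
      refine Finset.sum_congr rfl fun X _ => ?_
      rw [val_phi hhtg hhfa hhev F halt (av F s) (p ^ K) ξ hξ2 X, mul_add]
    rw [e3, Finset.sum_add_distrib, e2, add_zero, hr, Finset.mul_sum]
    simp only [Finsupp.sum, Finset.mul_sum]
    rw [Finset.sum_comm]
    refine Finset.sum_congr rfl fun t _ => Finset.sum_congr rfl fun X _ => ?_
    ring
  have e4 : ∑ X ∈ w.support, (((p : ℚ) ^ C0 * w X : ℚ) : k) *
      TG (fun μ : Rec Γ (Fin (M + 2)) =>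
        (p : ℚ) ^ (b + c * (M + 2)) * av F s μ.lst μ.val) (p ^ K) X =
      (p : k) ^ C0 * (p : k) ^ (b + c * (M + 2)) * ((((p ^ K : ℕ) : k) ^ (M + 2))⁻¹ * r) := by
    rw [← e1, Finset.mul_sum]
    refine Finset.sum_congr rfl fun X _ => ?_
    rw [TG_const hhtg]
    push_cast
    ring
  rw [e4]
  have e5 : (p : k) ^ (K * (M + 2)) = ((p ^ K : ℕ) : k) ^ (M + 2) := by
    push_cast
    rw [pow_mul]
  rw [e5, pow_add]
  field_simp

end

end RCO

theorem t_RCO (hrsa : S_RSA) (hrgd : S_RGD) (hrxi : S_RXI) (hhtg : S_HTG) (hhfa : S_HFA)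
    (hhev : S_HEV) (hhin : S_HIN) (hhcp : S_HCP) (hrpo : S_RPO) : S_RCO := by
  intro k _ _ Γ _ ι _ _ ε M F hinv hcoc halt p b c hp hden hroot B hB w hw hcoef hrep
  classical
  obtain ⟨s, hs⟩ := hrsa Γ (p ^ c) (pow_pos hp.pos c)
  obtain ⟨R, hRd, hRL, hR1, hRN⟩ := hhcp k (M + 2) (by omega)
    (fun σ => ((Equiv.Perm.sign σ : ℤ) : k) *
      (w.sum fun X q => (q : k) * TG (fst F) 1 (fun a => X (σ a))))
  -- the coefficients lie in `B`
  have hcf : Subring.closure (HCO.cf w : Set k) ≤ B := by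
    rw [Subring.closure_le]
    intro x hx
    rw [Finset.mem_coe, HCO.cf, Finset.mem_biUnion] at hx
    obtain ⟨X, hX, hx⟩ := hx
    rw [Finset.mem_biUnion] at hx
    obtain ⟨i, -, hx⟩ := hx
    rw [Finset.mem_biUnion] at hx
    obtain ⟨q, -, hx⟩ := hx
    rw [Finset.mem_union, Finset.mem_image, Finset.mem_image] at hx
    rcases hx with ⟨γ, -, rfl⟩ | ⟨γ, -, rfl⟩
    · exact (hcoef X hX i q.1 q.2 γ).1
    · exact (hcoef X hX i q.1 q.2 γ).2
  have hunit : ∀ a ∈ Subring.closure (HCO.cf w : Set k), (p : k) * a ≠ 1 := by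
    intro a ha h
    apply hB
    refine IsUnit.of_mul_eq_one ⟨a, hcf ha⟩ ?_
    apply Subtype.ext
    push_cast
    exact h
  -- the exponents of `p` in the denominators of the coefficients of `w`
  obtain ⟨C0, hC0⟩ : ∃ C0 : ℕ, ∀ X ∈ w.support, ¬ p ∣ ((p : ℚ) ^ C0 * w X).den := by
    choose f hf using fun X : Fin (M + 2) → RPair ε => RCO.den_pow hp (w X)
    exact ⟨w.support.sup f, fun X hX => hf X _ (Finset.le_sup hX)⟩
  have hkey := hrpo k (HCO.cf w) p (M + 2) (C0 + (b + c * (M + 2))) R hp hunit hRd (by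
    intro K
    obtain ⟨d, hd, a, ha, h⟩ := RCO.step hrgd hrxi hhtg hhfa hhev hhin F hinv hcoc halt p b c hp
      hden hroot w hw s hs C0 hC0 K
    refine ⟨d, hd, a, ha, ?_⟩
    have e : (p : k) ^ K = ((p ^ K : ℕ) : k) := by push_cast; rfl
    rw [e, hRN (p ^ K)]
    exact h)
  have ha : (((M + 2).factorial : k) * (w.sum fun X q => (q : k) * TG (fst F) 1 X) =
      ∑ σ : Equiv.Perm (Fin (M + 2)), ((Equiv.Perm.sign σ : ℤ) : k) *
        (w.sum fun X q => (q : k) * TG (fst F) 1 (fun a => X (σ a)))) := by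
    rw [← hRL, ← hkey, hR1]
    simp only [Equiv.Perm.sign_one, Equiv.Perm.one_apply]
    push_cast
    ring
  have hz : ∑ σ : Equiv.Perm (Fin (M + 2)), ((Equiv.Perm.sign σ : ℤ) : k) *
      (w.sum fun X q => (q : k) * TG (fst F) 1 (fun a => X (σ a))) = 0 := by
    have e : ∑ σ : Equiv.Perm (Fin (M + 2)), ((Equiv.Perm.sign σ : ℤ) : k) *
        (w.sum fun X q => (q : k) * TG (fst F) 1 (fun a => X (σ a))) =
        ∑ X ∈ w.support, ((w X : ℚ) : k) * ∑ σ : Equiv.Perm (Fin (M + 2)),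
          ((Equiv.Perm.sign σ : ℤ) : k) * TG (fst F) 1 (fun a => X (σ a)) := by
      simp only [Finsupp.sum, Finset.mul_sum]
      rw [Finset.sum_comm]
      refine Finset.sum_congr rfl fun X _ => Finset.sum_congr rfl fun σ _ => ?_
      ring
    rw [e]
    refine Finset.sum_eq_zero fun X hX => ?_
    obtain ⟨a, b, hab, hXab⟩ := hrep X hX
    rw [HCO.rep F X a b hab hXab, mul_zero]
  rw [hz] at ha
  rcases mul_eq_zero.1 ha with h | h
  · exact absurd h (Nat.cast_ne_zero.2 (Nat.factorial_ne_zero _))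
  · exact h

end Pool.Agent.FJA
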