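import Pool.Agent.FJA.StY

/-!
# Module RCV: change of coefficients
-/

set_option autoImplicit false

open Matrix Pool.Agent.WhK Pool.Agent.Lib25

noncomputable section

namespace Pool.Agent.FJA

namespace RCV

/-- The coefficients of the image are the images of the coefficients. -/
theorem hcoef_map {R : Type} [CommRing R] {k : Type} [Field k] [Algebra R k] {G : Type} [Group G] {ι : Type}
    [Fintype ι] {n : ℕ} (h : Fin (n + 1) → Matrix ι ι (MonoidAlgebra R G)) (γ : Fin (n + 1) → G) :
    hcoef (fun j => (h j).map (MonoidAlgebra.mapRingHom G (algebraMap R k))) γ =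
      algebraMap R k (hcoef h γ) := by
  unfold hcoef
  rw [map_sum]
  refine Finset.sum_congr rfl fun a _ => ?_
  rw [map_prod]
  refine Finset.prod_congr rfl fun j _ => ?_
  exact MonoidAlgebra.coeff_mapRingHom (algebraMap R k) (h j (a j) (a (j + 1))) (γ j)

/-- A natural number which is a unit in the range is a unit. -/
theorem isUnit_of_range {R : Type} [CommRing R] {k : Type} [Field k] [Algebra R k]
    (hinj : Function.Injective (algebraMap R k)) (p : ℕ) (h : IsUnit (p : (algebraMap R k).range)) :
    IsUnit (p : R) := by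
  obtain ⟨u, hu⟩ := h
  have h1 : (p : (algebraMap R k).range) * (↑u⁻¹ : (algebraMap R k).range) = 1 := by
    rw [← hu]; exact Units.mul_inv u
  obtain ⟨x, hx⟩ := (↑u⁻¹ : (algebraMap R k).range).2
  refine IsUnit.of_mul_eq_one x (hinj ?_)
  rw [map_mul, map_natCast, map_one, hx]
  have h2 := congrArg (Subtype.val : (algebraMap R k).range → k) h1
  simpa using h2

theorem rootC {R : Type} [CommRing R] {k : Type} [Field k] [Algebra R k]
    (hinj : Function.Injective (algebraMap R k)) {G : Type} [Group G] {n : ℕ} (y : G)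
    (f : (Fin n → G) → ℚ) (h : RootC R y f) : RootC (algebraMap R k).range y f := by
  obtain ⟨p, b, c, hp, hu, hd, hr⟩ := h
  exact ⟨p, b, c, hp, fun h' => hu (isUnit_of_range hinj p h'), hd, hr⟩

end RCV

theorem t_RCV : S_RCV := by
  refine ⟨?_, ?_⟩
  · intro R _ k _ _ G _ ι _ n F h
    unfold cvalS cval
    refine finsum_congr fun γ => ?_
    rw [RCV.hcoef_map]
  · intro R _ k _ _ hinj G _ n F hF
    refine ⟨hF.inv, fun H hH y => ?_⟩
    obtain ⟨f', E, h1, h2, h3, h4, h5, h6, h7⟩ := hF.adm H hH y
    refine ⟨f', E, h1, h2, h3, h4, h5, h6, ?_⟩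
    rcases h7 with h7 | h7 | h7
    · exact Or.inl h7
    · exact Or.inr (Or.inl (RCV.rootC hinj y f' h7))
    · exact Or.inr (Or.inr h7)

end Pool.Agent.FJA
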