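import Pool.Agent.FJA.StY
import Pool.Agent.FJA.P_HSE
import Pool.Agent.FJA.P_PER

/-!
# FJA: the module RGD

Lists of length `p ^ k` whose endpoint is not a `p ^ c`-th power are good.
-/

set_option autoImplicit false

noncomputable section

namespace Pool.Agent.FJA

open SEC in
/-- MODULE RGD -/
theorem t_RGD : S_RGD := by
  intro Γ _ p k c hp Y y hlen hy
  have hN : 0 < p ^ k := pow_pos hp.pos k
  have hY : Y ≠ [] := by
    intro h
    rw [h, List.length_nil] at hlen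
    omega
  have hA0 : ∀ n : ℤ, sq Y y n = y⁻¹ * sq Y y (n + ((p ^ k : ℕ) : ℤ)) := by
    intro n
    rw [← hlen, sq_add hY, inv_mul_cancel_left]
  obtain ⟨d, δ0, hd, hδ0, hmin⟩ := PER.exists_min (A := sq Y y) ⟨p ^ k, hN, y⁻¹, hA0⟩
  obtain ⟨m0, hm0, hym⟩ := hmin y⁻¹ (p ^ k) hA0
  obtain ⟨j, -, hj⟩ := (Nat.dvd_prime_pow hp).1 (Dvd.intro _ hm0.symm)
  refine ⟨δ0, ⟨d, (PNT.stb_iff hY y δ0 d).2 hδ0⟩, ?_, ?_⟩
  · intro δ' e he
    obtain ⟨m, -, hm⟩ := hmin δ' e ((PNT.stb_iff hY y δ' e).1 he)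
    rw [hm]
    exact Subgroup.pow_mem _ (Subgroup.mem_zpowers δ0) m
  · rcases le_or_gt c j with hcj | hcj
    · exfalso
      apply hy (δ0⁻¹ ^ p ^ (j - c))
      rw [← pow_mul, ← pow_add, Nat.sub_add_cancel hcj, ← hj, inv_pow, ← hym, inv_inv]
    · have h1 : p ^ c = m0 * p ^ (c - j) := by
        rw [hj, ← pow_add]
        congr 1
        omega
      rw [h1, pow_mul, ← hym]
      exact Subgroup.pow_mem _ (Subgroup.inv_mem _ (Subgroup.mem_zpowers y)) _

end Pool.Agent.FJA
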