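import Pool.Agent.FJA.StY

/-!
# RPO: polynomials whose values at the powers of `p` are divisible by large powers of `p`
-/

set_option autoImplicit false

noncomputable section

namespace Pool.Agent.FJA.RPO

open Polynomial

variable {k : Type} [Field k] [CharZero k]

/-- The elements of `k` with a multiple in the subring `A`. -/
def satV (A : Subring k) : Submodule ℚ k where
  carrier := {x | ∃ D : ℤ, D ≠ 0 ∧ (D : k) * x ∈ A}
  add_mem' := by
    rintro x y ⟨D, hD, hx⟩ ⟨E, hE, hy⟩
    refine ⟨D * E, mul_ne_zero hD hE, ?_⟩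
    have h1 : ((D * E : ℤ) : k) * (x + y) = (E : k) * ((D : k) * x) + (D : k) * ((E : k) * y) := by
      push_cast; ring
    rw [h1]
    exact A.add_mem (A.mul_mem (intCast_mem A E) hx) (A.mul_mem (intCast_mem A D) hy)
  zero_mem' := ⟨1, one_ne_zero, by rw [mul_zero]; exact A.zero_mem⟩
  smul_mem' := by
    rintro q x ⟨D, hD, hx⟩
    refine ⟨D * (q.den : ℤ), mul_ne_zero hD (by exact_mod_cast q.den_ne_zero), ?_⟩
    have h2 : ((q.den : ℕ) : k) * (q : k) = ((q.num : ℤ) : k) := by
      have h3 : (q.den : ℚ) * q = q.num := by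
        rw [mul_comm]; exact Rat.mul_den_eq_num q
      have h4 : (((q.den : ℚ) * q : ℚ) : k) = ((q.num : ℚ) : k) := by rw [h3]
      rw [Rat.cast_mul, Rat.cast_natCast, Rat.cast_intCast] at h4
      exact h4
    have h1 : ((D * (q.den : ℤ) : ℤ) : k) * (q • x) = (q.num : k) * ((D : k) * x) := by
      rw [Rat.smul_def, ← h2]; push_cast; ring
    rw [h1]
    exact A.mul_mem (intCast_mem A q.num) hx

theorem mem_satV (A : Subring k) (x : k) : x ∈ satV A ↔ ∃ D : ℤ, D ≠ 0 ∧ (D : k) * x ∈ A := Iff.rfl

/-- A polynomial whose values at the powers of `p` are in a rational subspace has its coefficients there. -/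
theorem coeff_mem (V : Submodule ℚ k) (p : ℕ) (hp : p.Prime) (R : Polynomial k)
    (h : ∀ K : ℕ, R.eval ((p : k) ^ K) ∈ V) (j : ℕ) : R.coeff j ∈ V := by
  by_contra hj
  obtain ⟨φ, hφ, hV⟩ := Submodule.exists_le_ker_of_notMem hj
  have hV' : ∀ x ∈ V, φ x = 0 := fun x hx => LinearMap.mem_ker.mp (hV hx)
  set P : Polynomial ℚ := ∑ i ∈ Finset.range (R.natDegree + 1), Polynomial.C (φ (R.coeff i)) * Polynomial.X ^ i
    with hP
  have h1 : ∀ K : ℕ, P.eval ((p : ℚ) ^ K) = 0 := by
    intro K
    have h2 := hV' _ (h K)
    rw [Polynomial.eval_eq_sum_range, map_sum] at h2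
    rw [hP, Polynomial.eval_finsetSum, ← h2]
    refine Finset.sum_congr rfl fun i _ => ?_
    have h3 : R.coeff i * ((p : k) ^ K) ^ i = (((p : ℚ) ^ K) ^ i) • R.coeff i := by
      rw [Rat.smul_def]; push_cast; ring
    rw [h3, map_smul, smul_eq_mul, Polynomial.eval_mul, Polynomial.eval_C, Polynomial.eval_pow, Polynomial.eval_X,
      mul_comm]
  have h4 : P = 0 := by
    refine Polynomial.eq_zero_of_infinite_isRoot P ?_
    refine Set.Infinite.mono (s := Set.range fun K : ℕ => (p : ℚ) ^ K) ?_ ?_
    · rintro _ ⟨K, rfl⟩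
      exact h1 K
    · refine Set.infinite_range_of_injective ?_
      intro a b hab
      exact (pow_right_injective₀ (by exact_mod_cast hp.pos) (by exact_mod_cast hp.one_lt.ne')) hab
  have h5 : P.coeff j = φ (R.coeff j) := by
    rw [hP, Polynomial.finsetSum_coeff]
    simp only [Polynomial.coeff_C_mul, Polynomial.coeff_X_pow, mul_ite, mul_one, mul_zero]
    rw [Finset.sum_ite_eq]
    split_ifs with h6
    · rfl
    · have h7 : R.natDegree < j := by
        by_contra h8
        exact h6 (Finset.mem_range.mpr (by omega))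
      rw [Polynomial.coeff_eq_zero_of_natDegree_lt h7, map_zero]
  rw [h4, Polynomial.coeff_zero] at h5
  exact hφ h5.symm

omit [CharZero k] in
/-- Krull's intersection theorem in a finitely generated subring. -/
theorem krull (s : Finset k) (p : ℕ) (h : ∀ a ∈ Subring.closure (s : Set k), (p : k) * a ≠ 1) (x : k)
    (hx : ∀ K : ℕ, ∃ a ∈ Subring.closure (s : Set k), x = (p : k) ^ K * a) : x = 0 := by
  have : IsNoetherianRing (Subring.closure (s : Set k)) :=
    is_noetherian_subring_closure _ s.finite_toSet
  set A := Subring.closure (s : Set k) with hA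
  have hI : Ideal.span {((p : ℕ) : A)} ≠ ⊤ := by
    intro h1
    rw [Ideal.span_singleton_eq_top] at h1
    obtain ⟨b, hb⟩ := h1.exists_right_inv
    refine h (b : k) b.2 ?_
    have h2 := congrArg (fun z : A => (z : k)) hb
    simpa using h2
  have hK := Ideal.iInf_pow_eq_bot_of_isDomain (Ideal.span {((p : ℕ) : A)}) hI
  obtain ⟨a0, ha0, hx0⟩ := hx 0
  rw [pow_zero, one_mul] at hx0
  have hxA : x ∈ A := hx0 ▸ ha0
  have h3 : (⟨x, hxA⟩ : A) ∈ (⨅ i : ℕ, Ideal.span {((p : ℕ) : A)} ^ i) := by
    rw [Submodule.mem_iInf]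
    intro K
    rw [Ideal.span_singleton_pow, Ideal.mem_span_singleton]
    obtain ⟨a, ha, hxa⟩ := hx K
    refine ⟨⟨a, ha⟩, Subtype.ext ?_⟩
    simpa using hxa
  rw [hK, Submodule.mem_bot] at h3
  exact congrArg (fun z : A => (z : k)) h3

end Pool.Agent.FJA.RPO

namespace Pool.Agent.FJA

open Pool.Agent.FJA.RPO

theorem t_RPO : S_RPO := by
  intro k _ _ s p L C R hp hpA hdeg hR
  set A := Subring.closure (s : Set k) with hA
  have hp0 : (p : k) ≠ 0 := by exact_mod_cast hp.ne_zero
  -- the coefficients have multiples in `A`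
  have hV : ∀ j, R.coeff j ∈ satV A := by
    intro j
    refine coeff_mem (satV A) p hp R (fun K => ?_) j
    obtain ⟨d, hd, a, ha, h⟩ := hR K
    refine ⟨d * (p : ℤ) ^ C, mul_ne_zero ?_ (pow_ne_zero _ (by exact_mod_cast hp.ne_zero)), ?_⟩
    · rintro rfl
      exact hd (dvd_zero _)
    · have h1 : ((d * (p : ℤ) ^ C : ℤ) : k) * R.eval ((p : k) ^ K) = (p : k) ^ (K * L) * a := by
        rw [← h]; push_cast; ring
      rw [h1]
      exact A.mul_mem (pow_mem (natCast_mem A p) _) ha
  choose D hD0 hD using fun j => (mem_satV A _).mp (hV j)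
  set E : ℤ := ∏ j ∈ Finset.range (L + 1), D j with hE
  have hE0 : E ≠ 0 := Finset.prod_ne_zero_iff.mpr fun j _ => hD0 j
  have hEk : (E : k) ≠ 0 := by exact_mod_cast hE0
  have hER : ∀ j, (E : k) * R.coeff j ∈ A := by
    intro j
    by_cases hj : j ∈ Finset.range (L + 1)
    · rw [hE, ← Finset.mul_prod_erase _ _ hj]
      push_cast
      have h1 : (D j : k) * (∏ x ∈ (Finset.range (L + 1)).erase j, (D x : k)) * R.coeff j =
          ((∏ x ∈ (Finset.range (L + 1)).erase j, D x : ℤ) : k) * ((D j : k) * R.coeff j) := by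
        push_cast; ring
      rw [h1]
      exact A.mul_mem (intCast_mem A _) (hD j)
    · have h2 : R.natDegree < j := by
        have h3 : ¬ j < L + 1 := fun h => hj (Finset.mem_range.mpr h)
        omega
      rw [Polynomial.coeff_eq_zero_of_natDegree_lt h2, mul_zero]
      exact A.zero_mem
  -- the coefficients below `L` are zero
  have hz : ∀ j, j < L → R.coeff j = 0 := by
    intro j
    induction j using Nat.strong_induction_on with
    | _ j ih =>
      intro hj
      have hk : (p : k) ^ C * ((E : k) * R.coeff j) = 0 := by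
        refine krull s p hpA _ fun K => ?_
        obtain ⟨d, hd, a, ha, h⟩ := hR K
        have hsum : R.eval ((p : k) ^ K) = (p : k) ^ (K * j) * (R.coeff j +
            (p : k) ^ K * ∑ i ∈ Finset.range (L - j), R.coeff (i + j + 1) * (p : k) ^ (K * i)) := by
          rw [Polynomial.eval_eq_sum_range' (Nat.lt_succ_of_le hdeg)]
          have h1 : L.succ = j + (L - j + 1) := by omega
          rw [h1, Finset.sum_range_add, Finset.sum_eq_zero, zero_add, Finset.sum_range_succ']
          · rw [mul_add, Finset.mul_sum, Finset.mul_sum, add_comm]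
            congr 1
            · rw [add_zero, ← pow_mul]; ring
            · refine Finset.sum_congr rfl fun i _ => ?_
              have h2 : j + (i + 1) = i + j + 1 := by omega
              rw [h2, ← pow_mul]
              have h3 : K * (i + j + 1) = K * j + (K + K * i) := by ring
              rw [h3, pow_add, pow_add]
              ring
          · intro i hi
            rw [ih i (Finset.mem_range.mp hi) (lt_trans (Finset.mem_range.mp hi) hj), zero_mul]
        set q : k := ∑ i ∈ Finset.range (L - j), R.coeff (i + j + 1) * (p : k) ^ (K * i) with hq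
        have hqA : (E : k) * q ∈ A := by
          rw [hq, Finset.mul_sum]
          refine Subring.sum_mem _ fun i _ => ?_
          rw [← mul_assoc]
          exact A.mul_mem (hER _) (pow_mem (natCast_mem A p) _)
        have h4 : (d : k) * (p : k) ^ C * (R.coeff j + (p : k) ^ K * q) = (p : k) ^ (K * (L - j)) * a := by
          have h5 : K * L = K * j + K * (L - j) := by
            rw [← mul_add]; congr 1; omega
          rw [hsum, h5, pow_add] at h
          have h6 : (p : k) ^ (K * j) ≠ 0 := pow_ne_zero _ hp0
          apply mul_left_cancel₀ h6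
          linear_combination h
        -- the Bezout identity
        have hcop : IsCoprime d ((p : ℤ) ^ K) := by
          refine IsCoprime.pow_right ?_
          have h7 : IsCoprime (p : ℤ) d := ((Nat.prime_iff_prime_int.mp hp).coprime_iff_not_dvd).mpr hd
          exact h7.symm
        obtain ⟨u, v, huv⟩ := hcop
        have huvk : (u : k) * (d : k) + (v : k) * (p : k) ^ K = 1 := by
          exact_mod_cast congrArg (fun z : ℤ => (z : k)) huv
        have h8 : K * (L - j) = K + K * (L - j - 1) := by
          have h9 : L - j = 1 + (L - j - 1) := by omega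
          conv_lhs => rw [h9]
          ring
        refine ⟨(u : k) * ((p : k) ^ (K * (L - j - 1)) * a * (E : k) -
          (d : k) * (p : k) ^ C * ((E : k) * q)) + (v : k) * ((p : k) ^ C * ((E : k) * R.coeff j)), ?_, ?_⟩
        · refine A.add_mem (A.mul_mem (intCast_mem A u) (A.sub_mem ?_ ?_)) (A.mul_mem (intCast_mem A v) ?_)
          · exact A.mul_mem (A.mul_mem (pow_mem (natCast_mem A p) _) ha) (intCast_mem A E)
          · exact A.mul_mem (A.mul_mem (intCast_mem A d) (pow_mem (natCast_mem A p) _)) hqA
          · exact A.mul_mem (pow_mem (natCast_mem A p) _) (hER j)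
        · rw [h8, pow_add] at h4
          linear_combination (-((p : k) ^ C * ((E : k) * R.coeff j))) * huvk + (u : k) * (E : k) * h4
      rcases mul_eq_zero.mp hk with h | h
      · exact absurd h (pow_ne_zero _ hp0)
      · rcases mul_eq_zero.mp h with h' | h'
        · exact absurd h' hEk
        · exact h'
  rw [Polynomial.eval_eq_sum_range' (Nat.lt_succ_of_le hdeg), Finset.sum_range_succ, Finset.sum_eq_zero, zero_add,
    one_pow, mul_one]
  intro i hi
  rw [hz i (Finset.mem_range.mp hi), zero_mul]

end Pool.Agent.FJA
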