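import Pool.Agent.FJA.StY
import Pool.Agent.FJA.P_HPR

/-!
# RPR: the prism between the section with `Q` values and the positions
-/

set_option autoImplicit false

namespace Pool.Agent.FJA

namespace RPR

variable {Γ : Type} [Group Γ]

/-- The pairs (value of the section, entry at the position `t i`). -/
def vt {M N Q : ℕ} (s : List Γ → Γ → Fin Q → Γ) (Y : Fin M → List Γ) (y : Γ) (J : Fin M → Fin Q)
    (t : Fin M → Fin N) (i : Fin M) : Γ × Γ :=
  (s (Y i) y (J i), (Y i).getD (t i) 1)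

/-- The average of the prism function. -/
noncomputable def hh {M : ℕ} (N Q : ℕ) (F : (Fin (M + 1) → Γ) → Γ → ℚ) (s : List Γ → Γ → Fin Q → Γ)
    (Y : Fin M → List Γ) (y : Γ) : ℚ :=
  ((Q : ℚ) ^ M)⁻¹ * (((N : ℚ) ^ M)⁻¹ *
    ∑ J : Fin M → Fin Q, ∑ t : Fin M → Fin N, SCF.EE F y (vt s Y y J t))

theorem hh_congr {M N Q : ℕ} {F : (Fin (M + 1) → Γ) → Γ → ℚ} {s : List Γ → Γ → Fin Q → Γ}
    (hinv : FInv F) (hb : FBas F) (γ y : Γ) (Y Y' : Fin M → List Γ)
    (eJ : (Fin M → Fin Q) ≃ (Fin M → Fin Q)) (et : (Fin M → Fin N) ≃ (Fin M → Fin N))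
    (h1 : ∀ (J : Fin M → Fin Q) (i : Fin M), ∃ m : ℤ,
      s (Y' i) (γ * y * γ⁻¹) (J i) = γ * (y ^ m * s (Y i) y (eJ J i)))
    (h2 : ∀ (t : Fin M → Fin N) (i : Fin M), ∃ m : ℤ,
      (Y' i).getD (t i) 1 = γ * (y ^ m * (Y i).getD (et t i) 1)) :
    hh N Q F s Y' (γ * y * γ⁻¹) = hh N Q F s Y y := by
  unfold hh
  congr 2
  refine Eq.trans ?_ (eJ.sum_comp fun J => ∑ t : Fin M → Fin N, SCF.EE F y (vt s Y y J t))
  refine Finset.sum_congr rfl fun J _ => ?_
  refine Eq.trans ?_ (et.sum_comp fun t => SCF.EE F y (vt s Y y (eJ J) t))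
  refine Finset.sum_congr rfl fun t _ => ?_
  exact HPR.EE_cg hinv hb γ y _ _ (fun i => h1 J i) (fun i => h2 t i)

/-- sums over two families of indices of a function which does not depend on one index -/
theorem sum2_succAbove {M N Q : ℕ} (i : Fin (M + 1)) (g : (Fin M → Fin Q) → (Fin M → Fin N) → ℚ) :
    ∑ J : Fin (M + 1) → Fin Q, ∑ t : Fin (M + 1) → Fin N,
      g (fun j => J (i.succAbove j)) (fun j => t (i.succAbove j)) =
      (Q : ℚ) * ((N : ℚ) * ∑ J : Fin M → Fin Q, ∑ t : Fin M → Fin N, g J t) := by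
  have h1 : ∀ J : Fin M → Fin Q, ∑ t : Fin (M + 1) → Fin N, g J (fun j => t (i.succAbove j)) =
      (N : ℚ) * ∑ t : Fin M → Fin N, g J t := fun J => HPR.sum_succAbove i (g J)
  simp only [h1]
  rw [HPR.sum_succAbove i fun J : Fin M → Fin Q => (N : ℚ) * ∑ t : Fin M → Fin N, g J t,
    Finset.mul_sum Finset.univ (fun J : Fin M → Fin Q => ∑ t : Fin M → Fin N, g J t) (N : ℚ)]

end RPR

open RPR in
theorem t_RPR : S_RPR := by
  intro Γ _ M N Q F s hN hQ hinv hF hb hs
  refine ⟨hh N Q F s, ?_, ?_, ?_, ?_⟩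
  · intro Y y
    have hN0 : (N : ℚ) ≠ 0 := by exact_mod_cast hN.ne'
    have hQ0 : (Q : ℚ) ≠ 0 := by exact_mod_cast hQ.ne'
    have h1 : ∀ (J : Fin (M + 1) → Fin Q) (t : Fin (M + 1) → Fin N), F (fun j => s (Y j) y (J j)) y -
        F (fun j => (Y j).getD (t j) 1) y =
        ∑ i : Fin (M + 1), (-1 : ℚ) ^ (i : ℕ) *
          SCF.EE F y (vt s (fun j => Y (i.succAbove j)) y (fun j => J (i.succAbove j))
            (fun j => t (i.succAbove j))) :=
      fun J t => SCF.prism_coc y (fun a => hF a y) (vt s Y y J t)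
    have h2 : ∑ J : Fin (M + 1) → Fin Q, ∑ t : Fin (M + 1) → Fin N,
        (F (fun j => s (Y j) y (J j)) y - F (fun j => (Y j).getD (t j) 1) y) =
        ∑ i : Fin (M + 1), (-1 : ℚ) ^ (i : ℕ) * ∑ J : Fin (M + 1) → Fin Q, ∑ t : Fin (M + 1) → Fin N,
          SCF.EE F y (vt s (fun j => Y (i.succAbove j)) y (fun j => J (i.succAbove j))
            (fun j => t (i.succAbove j))) := by
      simp only [h1, Finset.mul_sum]
      rw [Finset.sum_comm]
      conv_rhs => rw [Finset.sum_comm]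
      rw [Finset.sum_comm]
      refine Finset.sum_congr rfl fun J _ => ?_
      rw [Finset.sum_comm]
    have h3 : ∀ i : Fin (M + 1), (-1 : ℚ) ^ (i : ℕ) * ∑ J : Fin (M + 1) → Fin Q,
        ∑ t : Fin (M + 1) → Fin N,
          SCF.EE F y (vt s (fun j => Y (i.succAbove j)) y (fun j => J (i.succAbove j))
            (fun j => t (i.succAbove j))) =
        ((Q : ℚ) ^ (M + 1) * (N : ℚ) ^ (M + 1)) *
          ((-1 : ℚ) ^ (i : ℕ) * hh N Q F s (fun j => Y (i.succAbove j)) y) := by
      intro i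
      rw [sum2_succAbove i fun J t => SCF.EE F y (vt s (fun j => Y (i.succAbove j)) y J t)]
      unfold hh
      field_simp
      ring
    rw [Finset.sum_congr rfl fun i _ => h3 i, ← Finset.mul_sum] at h2
    have h4 : ∑ J : Fin (M + 1) → Fin Q, ∑ t : Fin (M + 1) → Fin N,
        (F (fun j => s (Y j) y (J j)) y - F (fun j => (Y j).getD (t j) 1) y) =
        (N : ℚ) ^ (M + 1) * ∑ J : Fin (M + 1) → Fin Q, F (fun j => s (Y j) y (J j)) y -
        (Q : ℚ) ^ (M + 1) * ∑ t : Fin (M + 1) → Fin N, F (fun j => (Y j).getD (t j) 1) y := by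
      simp only [Finset.sum_sub_distrib, Finset.sum_const, Finset.card_univ, Fintype.card_fun,
        Fintype.card_fin, nsmul_eq_mul, Nat.cast_pow]
      rw [← Finset.mul_sum]
    rw [h4] at h2
    have h5 : (Q : ℚ) ^ (M + 1) ≠ 0 := pow_ne_zero _ hQ0
    have h6 : (N : ℚ) ^ (M + 1) ≠ 0 := pow_ne_zero _ hN0
    have h7 : ((Q : ℚ) ^ (M + 1) * (N : ℚ) ^ (M + 1)) ≠ 0 := mul_ne_zero h5 h6
    apply mul_left_cancel₀ h7
    rw [← h2]
    field_simp
  · intro γ Y y hY
    have hne : ∀ i, Y i ≠ [] := by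
      intro i h0
      have := hY i
      rw [h0, List.length_nil] at this
      omega
    choose π m hm using fun i => hs.inv γ (Y i) y (hne i)
    refine hh_congr hinv hb γ y Y (fun i => (Y i).map (γ * ·))
      (Equiv.piCongrRight fun i => π i) (Equiv.refl _) (fun J i => ?_) (fun t i => ?_)
    · refine ⟨m i (J i), ?_⟩
      have h := hm i (J i)
      rw [pow_one] at h
      exact h
    · refine ⟨0, ?_⟩
      have h1 : ((t i : Fin N) : ℕ) < (Y i).length := by rw [hY i]; exact (t i).2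
      rw [zpow_zero, one_mul, Equiv.refl_apply, List.getD_eq_getElem _ _ (by rwa [List.length_map]),
        List.getD_eq_getElem _ _ h1, List.getElem_map]
  · intro Y y hY i hi
    obtain ⟨N, rfl⟩ : ∃ N', N = N' + 1 := ⟨N - 1, by omega⟩
    obtain ⟨π, m, hm⟩ := hs.rot (Y i) y hi
    have key := hh_congr (N := N + 1) (s := s) hinv hb 1 y Y (Function.update Y i (rotL y (Y i)))
      (Equiv.piCongrRight fun j => if j = i then π else Equiv.refl _)
      (Equiv.piCongrRight fun j => if j = i then finRotate (N + 1) else Equiv.refl _)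
      (fun J j => ?_) (fun t j => ?_)
    · rw [one_mul, inv_one, mul_one] at key
      exact key
    · rw [one_mul, inv_one, mul_one]
      by_cases hj : j = i
      · subst hj
        refine ⟨m (J j), ?_⟩
        rw [Function.update_self, one_mul]
        simp only [Equiv.piCongrRight_apply, Pi.map_apply, if_true]
        exact hm (J j)
      · refine ⟨0, ?_⟩
        rw [Function.update_of_ne hj, one_mul, zpow_zero, one_mul]
        simp only [Equiv.piCongrRight_apply, Pi.map_apply, if_neg hj, Equiv.refl_apply]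
    · by_cases hj : j = i
      · subst hj
        obtain ⟨b, hb'⟩ := HPR.rotL_getD y (Y j) (hY j) (t j)
        refine ⟨b, ?_⟩
        rw [Function.update_self, one_mul]
        simp only [Equiv.piCongrRight_apply, Pi.map_apply, if_true]
        exact hb'
      · refine ⟨0, ?_⟩
        rw [Function.update_of_ne hj, one_mul, zpow_zero, one_mul]
        simp only [Equiv.piCongrRight_apply, Pi.map_apply, if_neg hj, Equiv.refl_apply]
  · intro y h0 Y
    unfold hh SCF.EE
    simp [h0]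

end Pool.Agent.FJA
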