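import Pool.Agent.FJA.StY
import Pool.Agent.FJA.P_HLI

/-!
# Module RRF: residually finite groups
-/

set_option autoImplicit false

noncomputable section

namespace Pool.Agent.FJA

namespace RRF

theorem root {G : Type} [Group G] (hG : ResFin G) (y : G) (hy : y ≠ 1) :
    ∃ p c : ℕ, p.Prime ∧ ∀ δ : G, δ ^ p ^ c ≠ y := by
  obtain ⟨N, hN, hNf, hyN⟩ := hG y hy
  have := hN
  have := hNf
  have hy1 : ((y : G) : G ⧸ N) ≠ 1 := by
    intro h
    exact hyN ((QuotientGroup.eq_one_iff y).1 h)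
  have hord : orderOf ((y : G) : G ⧸ N) ≠ 1 := by
    intro h
    exact hy1 (orderOf_eq_one_iff.1 h)
  obtain ⟨p, hp, hpd⟩ := Nat.exists_prime_and_dvd hord
  refine ⟨p, Nat.card (G ⧸ N), hp, ?_⟩
  intro δ hδ
  set c := Nat.card (G ⧸ N) with hc
  have hlt : c < p ^ c := Nat.lt_pow_self hp.one_lt
  have hδ' : ((δ : G) : G ⧸ N) ^ p ^ c = ((y : G) : G ⧸ N) := by
    rw [← QuotientGroup.mk_pow, hδ]
  have hpos : 0 < orderOf ((δ : G) : G ⧸ N) := orderOf_pos _
  obtain ⟨j, m, hm, hjm⟩ := Nat.exists_eq_pow_mul_and_not_dvd hpos.ne' p hp.ne_one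
  by_cases hj : j ≤ c
  · have h1 : (((y : G) : G ⧸ N)) ^ m = 1 := by
      rw [← hδ', ← pow_mul, ← orderOf_dvd_iff_pow_eq_one, hjm]
      exact Nat.mul_dvd_mul_right (pow_dvd_pow p hj) m
    exact hm (hpd.trans (orderOf_dvd_of_pow_eq_one h1))
  · have h2 : p ^ c ∣ orderOf ((δ : G) : G ⧸ N) := by
      rw [hjm]
      exact (pow_dvd_pow p (Nat.le_of_lt (not_le.1 hj))).trans (Nat.dvd_mul_right _ _)
    have h3 : p ^ c ∣ c := h2.trans (orderOf_dvd_natCard _)
    have hcpos : 0 < c := Nat.card_pos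
    exact absurd (Nat.le_of_dvd hcpos h3) (not_le.2 hlt)

end RRF

theorem t_RRF : S_RRF := by
  refine ⟨fun G _ hG y hy => RRF.root hG y hy, ?_⟩
  intro G _ hG n F hF hinv
  refine ⟨?_, ?_⟩
  · intro g a y
    show ((F (fun i => g * a i) (g * y * g⁻¹) : ℤ) : ℚ) = _
    rw [hF.inv g a y]
  · intro H hH y hy
    refine ⟨_, 0, HLI.cinv hF H y, fun _ _ _ => rfl, HLI.coc hF H y, ?_, ?_⟩
    · intro a
      rw [HLI.cobE_zero, add_zero]
    · refine Or.inr (Or.inl ⟨?_, ?_⟩)
      · obtain ⟨p, c, hp, hδ⟩ := RRF.root (hG H hH) y hy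
        refine ⟨p, 1, c, hp, ?_, ?_, hδ⟩
        · intro hu
          have h1 := Int.isUnit_iff_natAbs_eq.1 hu
          rw [Int.natAbs_natCast] at h1
          exact hp.ne_one h1
        · intro a h
          rw [pow_one] at h
          have h1 : (((F (fun i => (a i : G)) (y : G) : ℤ) : ℚ)).den = 1 := Rat.den_intCast _
          rw [h1] at h
          exact hp.ne_one (Nat.dvd_one.1 h)
      · by_cases hfo : IsOfFinOrder y
        · exact Or.inl hfo
        · refine Or.inr ?_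
          intro t a
          have hfo' : ¬ IsOfFinOrder (y : G) := fun h => hfo (Submonoid.isOfFinOrder_coe.1 h)
          have h4 : (fun i => ((y ^ t i * a i : H) : G)) = fun i => (y : G) ^ t i * (a i : G) := by
            funext i
            rw [Subgroup.coe_mul, Subgroup.coe_zpow]
          show ((F (fun i => ((y ^ t i * a i : H) : G)) (y : G) : ℤ) : ℚ) = _
          rw [h4, hinv (y : G) hfo' t (fun i => (a i : G))]

end Pool.Agent.FJA
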