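import Pool.Agent.FJA.StY
import Pool.Agent.FJA.P_HSE

/-!
# FJA: the module RSA

For a good pair the section is `J ↦ γ * (gen (rep A) ^ J * rep A 0)`, where `A` is the sequence of the pair (see
`P_SEC.lean`), `rep A` the representative of its class, `A n = γ * rep A (n + m)`, and `gen (rep A)` generates the
group of the rotations of `rep A` which are given by elements of the group.
-/

set_option autoImplicit false

noncomputable section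

namespace Pool.Agent.FJA

namespace RSA

open SEC MRN

variable {Γ : Type} [Group Γ]

/-- `GoodC` for sequences. -/
def SG (Q : ℕ) (A : ℤ → Γ) (y : Γ) : Prop :=
  ∃ δ : Γ, (∃ e : ℤ, PNT.St A δ e) ∧
    (∀ (δ' : Γ) (e : ℤ), PNT.St A δ' e → δ' ∈ Subgroup.zpowers δ) ∧ δ ^ Q ∈ Subgroup.zpowers y

lemma st_tr {A B : ℤ → Γ} {γ : Γ} {l : ℤ} (h : ∀ n, B n = γ * A (n + l)) {δ : Γ} {e : ℤ}
    (hA : PNT.St A δ e) : PNT.St B (γ * δ * γ⁻¹) e := by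
  intro a
  rw [h, h, hA (a + l), show a + e + l = a + l + e by ring]
  group

lemma tr_symm {A B : ℤ → Γ} {γ : Γ} {l : ℤ} (h : ∀ n, B n = γ * A (n + l)) :
    ∀ n, A n = γ⁻¹ * B (n + -l) := by
  intro n
  rw [h, neg_add_cancel_right, inv_mul_cancel_left]

lemma sg_tr {Q : ℕ} {A B : ℤ → Γ} {γ y : Γ} {l : ℤ} (h : ∀ n, B n = γ * A (n + l))
    (hA : SG Q A y) : SG Q B (γ * y * γ⁻¹) := by
  obtain ⟨δ, ⟨e, he⟩, hg, hQ⟩ := hA
  refine ⟨γ * δ * γ⁻¹, ⟨e, st_tr h he⟩, fun δ' e' h' => ?_, ?_⟩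
  · have h1 := hg _ e' (st_tr (tr_symm h) h')
    have h2 := (HSE.mem_conj (γ := γ)).2 h1
    have h4 : γ * (γ⁻¹ * δ' * γ⁻¹⁻¹) * γ⁻¹ = δ' := by group
    rwa [h4] at h2
  · rw [conj_pow]
    exact HSE.mem_conj.2 hQ

lemma goodC_iff {Q : ℕ} {Y : List Γ} (hY : Y ≠ []) (y : Γ) :
    GoodC Q Y y ↔ SG Q (sq Y y) y := by
  constructor
  · rintro ⟨δ, ⟨e, he⟩, hg, hQ⟩
    refine ⟨δ, ⟨e, (PNT.stb_iff hY y δ e).1 he⟩, fun δ' e' h' => ?_, hQ⟩
    rcases le_total 0 e' with h0 | h0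
    · have h1 : ((e'.toNat : ℕ) : ℤ) = e' := Int.toNat_of_nonneg h0
      exact hg δ' e'.toNat ((PNT.stb_iff hY y δ' _).2 (by rw [h1]; exact h'))
    · have h1 : (((-e').toNat : ℕ) : ℤ) = -e' := Int.toNat_of_nonneg (by omega)
      have h2 := hg δ'⁻¹ (-e').toNat ((PNT.stb_iff hY y _ _).2 (by rw [h1]; exact PNT.st_inv h'))
      exact inv_mem_iff.1 h2
  · rintro ⟨δ, ⟨e, he⟩, hg, hQ⟩
    rcases le_total 0 e with h0 | h0
    · have h1 : ((e.toNat : ℕ) : ℤ) = e := Int.toNat_of_nonneg h0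
      exact ⟨δ, ⟨e.toNat, (PNT.stb_iff hY y δ _).2 (by rw [h1]; exact he)⟩,
        fun δ' e' h' => hg δ' e' ((PNT.stb_iff hY y δ' e').1 h'), hQ⟩
    · have h1 : (((-e).toNat : ℕ) : ℤ) = -e := Int.toNat_of_nonneg (by omega)
      refine ⟨δ⁻¹, ⟨(-e).toNat, (PNT.stb_iff hY y _ _).2 (by rw [h1]; exact PNT.st_inv he)⟩,
        fun δ' e' h' => ?_, ?_⟩
      · rw [Subgroup.zpowers_inv]
        exact hg δ' e' ((PNT.stb_iff hY y δ' e').1 h')
      · rw [inv_pow]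
        exact inv_mem hQ

/-- `δ` generates the group of the rotations which are given by elements of the group. -/
def IsGen (R : ℤ → Γ) (δ : Γ) : Prop :=
  (∃ e : ℤ, PNT.St R δ e) ∧ ∀ (δ' : Γ) (e : ℤ), PNT.St R δ' e → δ' ∈ Subgroup.zpowers δ

open Classical in
/-- a generator -/
def gen (R : ℤ → Γ) : Γ := if h : ∃ δ, IsGen R δ then h.choose else 1

lemma gen_spec {Q : ℕ} {R : ℤ → Γ} {y : Γ} (h : SG Q R y) :
    IsGen R (gen R) ∧ gen R ^ Q ∈ Subgroup.zpowers y := by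
  obtain ⟨δ, h1, h2, h3⟩ := h
  have hex : ∃ δ, IsGen R δ := ⟨δ, h1, h2⟩
  have hs : IsGen R (gen R) := by
    rw [gen, dif_pos hex]
    exact hex.choose_spec
  refine ⟨hs, ?_⟩
  obtain ⟨⟨e, he⟩, _⟩ := hs
  obtain ⟨k, hk⟩ := Subgroup.mem_zpowers_iff.1 (h2 _ e he)
  rw [← hk, ← zpow_natCast, ← zpow_mul, mul_comm, zpow_mul, zpow_natCast]
  exact Subgroup.zpow_mem _ h3 k

/-- the domain of the section -/
def Dom (Q : ℕ) (Y : List Γ) (y : Γ) : Prop := Y ≠ [] ∧ GoodC Q Y y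

open Classical in
/-- the section -/
def sec (Q : ℕ) (Y : List Γ) (y : Γ) (J : Fin Q) : Γ :=
  if Dom Q Y y then (rep_spec (sq Y y)).choose * (gen (rep (sq Y y)) ^ (J : ℕ) * rep (sq Y y) 0)
  else Y.headD 1

lemma sec_dom {Q : ℕ} {Y : List Γ} {y : Γ} (hD : Dom Q Y y) :
    ∃ (γ : Γ) (m : ℤ), (∀ n, sq Y y n = γ * rep (sq Y y) (n + m)) ∧
      ∀ J, sec Q Y y J = γ * (gen (rep (sq Y y)) ^ (J : ℕ) * rep (sq Y y) 0) := by
  classical
  refine ⟨(rep_spec (sq Y y)).choose, (rep_spec (sq Y y)).choose_spec.choose,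
    (rep_spec (sq Y y)).choose_spec.choose_spec, fun J => ?_⟩
  rw [sec, if_pos hD]

lemma exists_perm {Q : ℕ} (hQ : 0 < Q) (l : ℤ) :
    ∃ (π : Equiv.Perm (Fin Q)) (u : Fin Q → ℤ), ∀ J : Fin Q,
      ((J : ℕ) : ℤ) - l = ((π J : ℕ) : ℤ) + Q * u J := by
  have hQ0 : (0 : ℤ) < Q := by exact_mod_cast hQ
  have h1 : ∀ x : ℤ, ((x % (Q : ℤ)).toNat : ℤ) = x % Q := fun x =>
    Int.toNat_of_nonneg (Int.emod_nonneg _ hQ0.ne')
  have h2 : ∀ x : ℤ, (x % (Q : ℤ)).toNat < Q := fun x => by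
    have := Int.emod_lt_of_pos x hQ0
    have := h1 x
    omega
  let f : Fin Q → Fin Q := fun J => ⟨((((J : ℕ) : ℤ) - l) % (Q : ℤ)).toNat, h2 _⟩
  have hf : Function.Injective f := by
    intro J J' h
    have h3 : (((((J : ℕ) : ℤ) - l) % (Q : ℤ)).toNat : ℕ) =
        ((((J' : ℕ) : ℤ) - l) % (Q : ℤ)).toNat := congrArg Fin.val h
    have h4 : (((J : ℕ) : ℤ) - l) % (Q : ℤ) = (((J' : ℕ) : ℤ) - l) % (Q : ℤ) := by
      have e1 := h1 (((J : ℕ) : ℤ) - l)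
      have e2 := h1 (((J' : ℕ) : ℤ) - l)
      rw [← e1, ← e2, h3]
    have h5 : (Q : ℤ) ∣ (((J : ℕ) : ℤ) - l) - (((J' : ℕ) : ℤ) - l) :=
      Int.dvd_of_emod_eq_zero (Int.emod_eq_emod_iff_emod_sub_eq_zero.1 h4)
    rw [sub_sub_sub_cancel_right] at h5
    have h6 : |((J : ℕ) : ℤ) - ((J' : ℕ) : ℤ)| < Q := by
      have a1 := J.2
      have a2 := J'.2
      rw [abs_lt]
      constructor <;> omega
    have h7 := Int.eq_zero_of_abs_lt_dvd h5 h6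
    exact Fin.ext (by omega)
  refine ⟨Equiv.ofBijective f (Finite.injective_iff_bijective.1 hf),
    fun J => (((J : ℕ) : ℤ) - l) / Q, fun J => ?_⟩
  show ((J : ℕ) : ℤ) - l = (((((((J : ℕ) : ℤ) - l) % (Q : ℤ)).toNat : ℕ)) : ℤ) +
    Q * ((((J : ℕ) : ℤ) - l) / Q)
  rw [h1]
  exact (Int.emod_add_mul_ediv _ _).symm

lemma sec_eq {Q : ℕ} (hQ : 0 < Q) {Y : List Γ} {y : Γ} (hD : Dom Q Y y) {γ : Γ} {m : ℤ}
    (h : ∀ n, sq Y y n = γ * rep (sq Y y) (n + m)) :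
    ∃ (π : Equiv.Perm (Fin Q)) (t : Fin Q → ℤ), ∀ J,
      sec Q Y y J = y ^ t J * (γ * (gen (rep (sq Y y)) ^ (π J : ℕ) * rep (sq Y y) 0)) := by
  obtain ⟨γ', m', h', hs⟩ := sec_dom hD
  obtain ⟨hY, hg⟩ := hD
  have hR : SG Q (rep (sq Y y)) (γ⁻¹ * y * γ⁻¹⁻¹) := sg_tr (tr_symm h) ((goodC_iff hY y).1 hg)
  obtain ⟨⟨_, hgen⟩, hp⟩ := gen_spec hR
  have h1 : PNT.St (rep (sq Y y)) (γ'⁻¹ * γ) (m - m') := by
    intro n
    have e1 := h (n - m')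
    rw [h' (n - m'), sub_add_cancel, show n - m' + m = n + (m - m') by ring] at e1
    rw [mul_assoc, ← e1, inv_mul_cancel_left]
  obtain ⟨l, hl⟩ := Subgroup.mem_zpowers_iff.1 (hgen _ _ h1)
  obtain ⟨w, hw⟩ := Subgroup.mem_zpowers_iff.1 hp
  obtain ⟨π, u, hu⟩ := exists_perm hQ l
  set g := gen (rep (sq Y y)) with hgd
  have h5 : γ' = γ * g ^ (-l) := by
    rw [zpow_neg, hl]
    group
  refine ⟨π, fun J => w * u J, fun J => ?_⟩
  have h6 : g ^ (-l) * g ^ (J : ℕ) = (γ⁻¹ * y * γ⁻¹⁻¹) ^ (w * u J) * g ^ (π J : ℕ) := by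
    rw [zpow_mul, hw, ← zpow_natCast, ← zpow_natCast, ← zpow_natCast, ← zpow_mul, ← zpow_add,
      ← zpow_add]
    congr 1
    linarith [hu J]
  rw [hs, h5, mul_assoc, ← mul_assoc (g ^ (-l)), h6, conj_zpow]
  group

lemma dom_conj {Q : ℕ} {Y : List Γ} (γ y : Γ) :
    Dom Q (Y.map (γ * ·)) (γ * y * γ⁻¹) ↔ Dom Q Y y := by
  by_cases hY : Y = []
  · subst hY
    simp [Dom]
  · have hY' : Y.map (γ * ·) ≠ [] := by simpa using hY
    unfold Dom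
    rw [goodC_iff hY', goodC_iff hY]
    have hc : ∀ n, sq (Y.map (γ * ·)) (γ * y * γ⁻¹) n = γ * sq Y y (n + 0) := fun n => by
      rw [sq_conj hY, add_zero]
    constructor
    · rintro ⟨-, h⟩
      refine ⟨hY, ?_⟩
      have h2 := sg_tr (tr_symm hc) h
      have h3 : γ⁻¹ * (γ * y * γ⁻¹) * γ⁻¹⁻¹ = y := by group
      rwa [h3] at h2
    · rintro ⟨-, h⟩
      exact ⟨hY', sg_tr hc h⟩

end RSA

open RSA SEC MRN in
/-- MODULE RSA -/
theorem t_RSA : S_RSA := by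
  classical
  intro Γ _ Q hQ
  refine ⟨RSA.sec Q, ⟨?_, ?_⟩⟩
  · intro γ Y y hY
    by_cases hD : RSA.Dom Q Y y
    · have hD' : RSA.Dom Q (Y.map (γ * ·)) (γ * y * γ⁻¹) := (RSA.dom_conj γ y).2 hD
      obtain ⟨δ, m, h, hs⟩ := RSA.sec_dom hD
      have hc := sq_conj hY γ y
      have hr : rep (sq (Y.map (γ * ·)) (γ * y * γ⁻¹)) = rep (sq Y y) :=
        rep_congr γ 0 fun n => by rw [hc, add_zero]
      obtain ⟨π, t, ht⟩ := RSA.sec_eq hQ hD' (γ := γ * δ) (m := m) fun n => by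
        rw [hc, hr, h n, mul_assoc]
      refine ⟨π, t, fun J => ?_⟩
      rw [ht, hr, hs, conj_zpow, pow_one]
      group
    · have hD' : ¬ RSA.Dom Q (Y.map (γ * ·)) (γ * y * γ⁻¹) := fun h => hD ((RSA.dom_conj γ y).1 h)
      refine ⟨1, fun _ => 0, fun J => ?_⟩
      rw [RSA.sec, RSA.sec, if_neg hD, if_neg hD', zpow_zero, one_mul]
      obtain ⟨a, Z, rfl⟩ := List.exists_cons_of_ne_nil hY
      rfl
  · intro Y y hg
    by_cases hY : Y = []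
    · subst hY
      exact ⟨1, fun _ => 0, fun J => by rw [zpow_zero, one_mul]; rfl⟩
    · have hD : RSA.Dom Q Y y := ⟨hY, hg⟩
      have hc := PNT.sq_rotL hY y
      have hY' := PNT.rotL_ne hY y
      have hD' : RSA.Dom Q (rotL y Y) y := by
        refine ⟨hY', (RSA.goodC_iff hY' y).2 ?_⟩
        have h2 := RSA.sg_tr (γ := 1) (l := 1) (B := sq (rotL y Y) y) (fun n => by
          rw [hc, one_mul]) ((RSA.goodC_iff hY y).1 hg)
        rwa [one_mul, inv_one, mul_one] at h2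
      obtain ⟨δ, m, h, hs⟩ := RSA.sec_dom hD
      have hr : rep (sq (rotL y Y) y) = rep (sq Y y) :=
        rep_congr 1 1 fun n => by rw [hc, one_mul]
      obtain ⟨π, t, ht⟩ := RSA.sec_eq hQ hD' (γ := δ) (m := m + 1) fun n => by
        rw [hc, hr, h (n + 1), show n + 1 + m = n + (m + 1) by ring]
      exact ⟨π, t, fun J => by rw [ht, hr, hs]⟩

end Pool.Agent.FJA
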