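import Pool.Agent.FJA.StY

/-!
# Idempotent matrices over `R[G]`: the components of the Chern character

The image of an idempotent matrix over `R[G]` in the matrices over `k[G]` is idempotent and its coefficients are in
the image `B` of `R` in `k`; so the statement follows from that for matrices with coefficients in `B`.
-/

set_option autoImplicit false

open Matrix Pool.Agent.WhK Pool.Agent.Lib25

noncomputable section

namespace Pool.Agent.FJA

namespace RTE

/-- The coefficients of the image of an element of `R[G]` in `k[G]`. -/
theorem coeff_map (R : Type) [CommRing R] (k : Type) [Field k] [Algebra R k] (G : Type) [Group G]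
    (x : MonoidAlgebra R G) (γ : G) :
    (MonoidAlgebra.mapRingHom G (algebraMap R k) x).coeff γ = algebraMap R k (x.coeff γ) := by
  simp

/-- The image of an idempotent matrix is idempotent. -/
theorem idem_map (R : Type) [CommRing R] (k : Type) [Field k] [Algebra R k] (G : Type) [Group G] (r : ℕ)
    (e : Matrix (Fin r) (Fin r) (MonoidAlgebra R G)) (he : e * e = e) :
    e.map (MonoidAlgebra.mapRingHom G (algebraMap R k)) * e.map (MonoidAlgebra.mapRingHom G (algebraMap R k)) =
      e.map (MonoidAlgebra.mapRingHom G (algebraMap R k)) := by
  rw [← Matrix.map_mul, he]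

end RTE

/-- RTE: idempotent matrices over `R[G]`. -/
theorem t_RTE (hrtf : S_RTF) (hrcv : S_RCV) : S_RTE := by
  intro R _ k _ _ _ hinj G _ i r hi e he F hF
  rw [hrcv.1 R k G (Fin r) (2 * i) F (fun _ => e)]
  refine hrtf k G i r hi (algebraMap R k).range (e.map (MonoidAlgebra.mapRingHom G (algebraMap R k)))
    (RTE.idem_map R k G r e he) ?_ F (hrcv.2 R k hinj G (2 * i) F hF)
  intro a b γ
  rw [Matrix.map_apply, RTE.coeff_map]
  exact ⟨_, rfl⟩

end Pool.Agent.FJA
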