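import Pool.Agent.FJA.StY

/-!
# Module RTF: idempotent matrices with coefficients in a subring   (helper36)
-/

set_option autoImplicit false

open Matrix Pool.Agent.WhK Pool.Agent.Lib25

noncomputable section

namespace Pool.Agent.FJA

namespace RTF

/-- coefficients of the image of an element of the group algebra -/
theorem coeff_map {k : Type} [Field k] {G : Type} [Group G] (H : Subgroup G) (x : MonoidAlgebra k H)
    (h : H) : ((MonoidAlgebra.mapDomainRingHom k H.subtype) x).coeff (h : G) = x.coeff h := by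
  rw [MonoidAlgebra.mapDomainRingHom_apply]
  exact Finsupp.mapDomain_apply Subtype.val_injective x.coeff h

end RTF

theorem t_RTF (hhfg : S_HFG) (hhna : S_HNA) (hhid : S_HID) (hrtx : S_RTX) (hhde : S_HDE) :
    S_RTF := by
  intro k _ _ G _ i r hi B e he heB
  obtain ⟨n, hn⟩ : ∃ n, n = 2 * i := ⟨_, rfl⟩
  rw [← hn]
  intro F hF
  obtain ⟨M, rfl⟩ : ∃ M, n = M + 1 := ⟨n - 1, by omega⟩
  have hodd : Odd M := by
    rcases Nat.even_or_odd M with h | h
    · obtain ⟨c, hc⟩ := h
      omega
    · exact h
  obtain ⟨H, hH, e', he', hee⟩ := hhfg.2 k G r e he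
  have hco : ∀ a b (γ : H), (e' a b).coeff γ ∈ B := by
    intro a b γ
    have h1 : e a b = (MonoidAlgebra.mapDomainRingHom k H.subtype) (e' a b) := by
      rw [← hee]
      rfl
    have h2 := heB a b (γ : G)
    rw [h1, RTF.coeff_map] at h2
    exact h2
  have h1 : cval F (fun _ : Fin (M + 1 + 1) => e) =
      cval (fun (a : Fin (M + 1 + 1) → H) (y : H) => F (fun i => (a i : G)) (y : G))
        (fun _ : Fin (M + 1 + 1) => e') := by
    rw [← hhna k G H (M + 1) r F (fun _ => e')]
    simp only [hee]
  have hinv : ∀ (g : H) (a : Fin (M + 2) → H) (y : H),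
      (fun (a : Fin (M + 2) → H) (y : H) => F (fun i => (a i : G)) (y : G))
        (fun i => g * a i) (g * y * g⁻¹) =
      (fun (a : Fin (M + 2) → H) (y : H) => F (fun i => (a i : G)) (y : G)) a y := by
    intro g a y
    have := hF.inv (g : G) (fun i => (a i : G)) (y : G)
    simpa using this
  have hsupp : ∀ X ∈ (Finsupp.single (fun _ : Fin (M + 2) => pE e' he') (1 : ℚ)).support,
      X = fun _ => pE e' he' :=
    fun X hX => Finset.mem_singleton.1 (Finsupp.support_single_subset hX)
  have h2 := hrtx k H (Fin r) e' M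
    (fun (a : Fin (M + 2) → H) (y : H) => F (fun i => (a i : G)) (y : G)) hinv B
    (fun y => hF.adm H hH y) (Finsupp.single (fun _ : Fin (M + 2) => pE e' he') (1 : ℚ))
    (hhid k H (Fin r) e' he' M hodd) (by
      intro X hX i a b γ
      rw [hsupp X hX]
      exact ⟨hco a b γ, hco a b γ⟩) (by
      intro X hX
      exact ⟨0, 1, by simp, by rw [hsupp X hX]⟩)
  rw [Finsupp.sum_single_index (by simp)] at h2
  have h3 := hhde k H (Fin r) e' (M + 1)
    (fun (a : Fin (M + 2) → H) (y : H) => F (fun i => (a i : G)) (y : G)) hinv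
    (fun _ : Fin (M + 2) => pE e' he')
  rw [h3] at h2
  have h4 : (fun _ : Fin (M + 1 + 1) => (pE e' he').b * (pE e' he').a) = fun _ => e' := by
    funext j
    exact he'
  rw [h1]
  rw [← h4]
  simpa using h2

end Pool.Agent.FJA
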