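import Pool.Agent.FJA.StY
import Pool.Agent.FJA.P_HTH
import Pool.Agent.FJA.P_HFG
import Pool.Agent.FJA.P_HNA

/-!
# RTG: the theorem for cycles with coefficients in a subring
-/

set_option autoImplicit false

open Matrix Pool.Agent.WhK Pool.Agent.Lib25

noncomputable section

namespace Pool.Agent.FJA

namespace RTG

/-- the entries of the lists which occur in the lift are entries of the given lists -/
theorem mem_lT {T : ∀ V : Type, ℕ → List V → (List V →₀ ℚ)} (hT : NatLift T) {V : Type}
    (i : ℕ) (c : List V →₀ ℚ) :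
    ∀ Y ∈ (lT T V i c).support, ∃ X ∈ c.support, ∀ y ∈ Y, y ∈ X := by
  classical
  intro Y hY
  rw [lT, Finsupp.linearCombination_apply] at hY
  have h1 := Finsupp.support_sum hY
  rw [Finset.mem_biUnion] at h1
  obtain ⟨X, hX, hY2⟩ := h1
  refine ⟨X, hX, ?_⟩
  have h2 : Y ∈ (T V i X).support := Finsupp.support_smul hY2
  have h3 : (List.finRange X.length).map X.get = X := by
    rw [← List.ofFn_eq_map]
    exact List.ofFn_get X
  have h4 := hT.nat (Fin X.length) V X.get i (List.finRange X.length)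
  rw [h3] at h4
  rw [h4] at h2
  have h5 := Finsupp.mapDomain_support h2
  rw [Finset.mem_image] at h5
  obtain ⟨Y', -, rfl⟩ := h5
  intro y hy
  rw [List.mem_map] at hy
  obtain ⟨t, -, rfl⟩ := hy
  exact List.get_mem X t

/-- the entries of the tuples of a chain of lists -/
theorem mem_tpL {V : Type} (L : ℕ) (c : List V →₀ ℚ) :
    ∀ X ∈ (tpL V L c).support, ∃ Y ∈ c.support, ∀ j, X j ∈ Y := by
  classical
  intro X hX
  rw [tpL, Finsupp.linearCombination_apply] at hX
  have h1 := Finsupp.support_sum hX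
  rw [Finset.mem_biUnion] at h1
  obtain ⟨Y, hY, hX2⟩ := h1
  refine ⟨Y, hY, ?_⟩
  have h2 := Finsupp.support_smul hX2
  split_ifs at h2 with h
  · have h3 := Finsupp.support_single_subset h2
    rw [Finset.mem_singleton] at h3
    subst h3
    intro j
    exact List.get_mem Y _
  · simp at h2

/-- the coefficients of a matrix over the group algebra of a subgroup -/
theorem coeff_glG {k : Type} [Field k] {G : Type} [Group G] (H : Subgroup G) {r : ℕ}
    (X : (Matrix (Fin r) (Fin r) (MonoidAlgebra k H))ˣ) (a b : Fin r) (h : H) :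
    ((glG (k := k) (ι := Fin r) H.subtype X).val a b).coeff (h : G) = (X.val a b).coeff h :=
  HNA.coeff_map H (X.val a b) h

end RTG

open HTH RTG in
theorem t_RTG (hhfg : S_HFG) (hhna : S_HNA) (hhnl : S_HNL) (hhun : S_HUN) (hrtx : S_RTX)
    (hhde : S_HDE) : S_RTG := by
  classical
  intro T hT k _ _ G _ n i r hn hi B z hz hcf F hF
  obtain ⟨H, hHf, z', hz', hzz⟩ := hhfg.1 k G n r hn z hz
  obtain ⟨M, hM⟩ : ∃ M, n + 2 * i = M + 1 := ⟨n + 2 * i - 1, by omega⟩
  have hM1 : 1 ≤ M := by omega
  obtain ⟨hrep, hbd⟩ := hhnl T hT ((Matrix (Fin r) (Fin r) (MonoidAlgebra k H))ˣ) n i M hn hi hM z' hz'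
  set f := glG (k := k) (ι := Fin r) H.subtype with hf
  set c' := lT T ((Matrix (Fin r) (Fin r) (MonoidAlgebra k H))ˣ) i (z'.mapDomain List.ofFn) with hc'
  have hlen : ∀ Y ∈ c'.support, Y.length = M + 2 := by
    intro Y hY
    have h1 := lT_len hT i (n + 1) (z'.mapDomain List.ofFn) (ofFn_len (n + 1) z') Y hY
    omega
  -- the coefficients of the entries
  have hfi : Function.Injective f := HFG.glG_inj H
  have hsup : ∀ X ∈ z'.support, (fun j => f (X j)) ∈ z.support := by
    intro X hX
    have hinj : Function.Injective (fun (X : Fin (n + 1) →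
        (Matrix (Fin r) (Fin r) (MonoidAlgebra k H))ˣ) j => f (X j)) := by
      intro X X' h
      funext j
      exact hfi (congrFun h j)
    rw [← hzz, hmap, Finsupp.lmapDomain_apply, Finsupp.mem_support_iff]
    have h1 := Finsupp.mapDomain_apply hinj z' X
    intro h2
    rw [Finsupp.mem_support_iff] at hX
    exact hX (h1.symm.trans h2)
  have hcf' : ∀ X ∈ z'.support, ∀ j a b γ,
      ((X j).val a b).coeff γ ∈ B ∧ ((X j)⁻¹.val a b).coeff γ ∈ B := by
    intro X hX j a b γ
    have h1 := hcf _ (hsup X hX) j a b (γ : G)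
    refine ⟨?_, ?_⟩
    · have h2 : ((f (X j)).val a b).coeff (γ : G) ∈ B := h1.1
      rw [hf, coeff_glG H (X j) a b γ] at h2
      exact h2
    · have h2 : (((f (X j))⁻¹).val a b).coeff (γ : G) ∈ B := h1.2
      rw [hf, ← map_inv, coeff_glG H ((X j)⁻¹) a b γ] at h2
      exact h2
  have e1 : lT T ((Matrix (Fin r) (Fin r) (MonoidAlgebra k G))ˣ) i (z.mapDomain List.ofFn) =
      c'.mapDomain (List.map f) := by
    rw [hc', ← lT_map hT]
    congr 1
    rw [← hzz, hmap, Finsupp.lmapDomain_apply, ← Finsupp.mapDomain_comp, ← Finsupp.mapDomain_comp]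
    congr 1
    funext X
    simp only [Function.comp]
    rw [List.map_ofFn]
    rfl
  rw [e1]
  generalize n + 2 * i = m at F hF hM ⊢
  subst hM
  set F' : (Fin (M + 1 + 1) → H) → H → ℚ := fun a y => F (fun j => (a j : G)) (y : G) with hF'
  have hinv : FInv F' := by
    intro g a y
    exact hF.inv (g : G) (fun j => (a j : G)) (y : G)
  have e2 : ∀ Y : List ((Matrix (Fin r) (Fin r) (MonoidAlgebra k H))ˣ),
      cval F (hseq (M + 1) (Y.map f)) = cval F' (hseq (M + 1) Y) := by
    intro Y
    have h1 := hhna k G H (M + 1) r F (hseq (M + 1) Y)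
    rw [← h1]
    congr 1
    funext j
    have h2 : ∀ a : ℕ, (Y.map f).getD a 1 = f (Y.getD a 1) := by
      intro a
      have h3 := List.getD_map (l := Y) (d := 1) (n := a) f
      rw [map_one] at h3
      exact h3
    unfold hseq
    rw [h2, h2, ← map_inv, ← map_mul]
    rfl
  rw [Finsupp.sum_mapDomain_index (by intro b; simp) (by intro b m₁ m₂; push_cast; ring)]
  simp only [e2]
  rw [sum_tpL (k := k) (M + 2) c' hlen (fun Y => cval F' (hseq (M + 1) Y))
    (fun X => TG (fst F') 1 (fun j => pU (X j)))]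
  · have hB := hhun k H (Fin r) M hM1 _ hbd
    have hR : ∀ X ∈ ((tpL ((Matrix (Fin r) (Fin r) (MonoidAlgebra k H))ˣ) (M + 2) c').mapDomain
        fun X j => pU (X j)).support, ∃ a b, a ≠ b ∧ X a = X b := by
      intro X hX
      have h2 := Finsupp.mapDomain_support hX
      rw [Finset.mem_image] at h2
      obtain ⟨Y, hY, rfl⟩ := h2
      obtain ⟨a, b, hab, hYab⟩ := hrep Y hY
      exact ⟨a, b, hab, congrArg pU hYab⟩
    have hC : ∀ X ∈ ((tpL ((Matrix (Fin r) (Fin r) (MonoidAlgebra k H))ˣ) (M + 2) c').mapDomain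
        fun X j => pU (X j)).support, ∀ i a b γ,
        ((X i).a a b).coeff γ ∈ B ∧ ((X i).b a b).coeff γ ∈ B := by
      intro X hX j a b γ
      have h2 := Finsupp.mapDomain_support hX
      rw [Finset.mem_image] at h2
      obtain ⟨Y, hY, rfl⟩ := h2
      obtain ⟨Y1, hY1, hj⟩ := mem_tpL (M + 2) c' Y hY
      obtain ⟨Y2, hY2, hj2⟩ := mem_lT hT i _ Y1 hY1
      have h3 := Finsupp.mapDomain_support hY2
      rw [Finset.mem_image] at h3
      obtain ⟨X0, hX0, rfl⟩ := h3
      have h4 := hj2 _ (hj j)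
      rw [List.mem_ofFn] at h4
      obtain ⟨t, ht⟩ := h4
      have h5 := hcf' X0 hX0 t a b γ
      rw [ht] at h5
      exact h5
    have hA : ∀ y : H, AdmSY B (M + 1) y (fun a => F' a y) := fun y => hF.adm H hHf y
    have h1 := hrtx k H (Fin r) (1 : Matrix (Fin r) (Fin r) (MonoidAlgebra k H)) M F' hinv
      B hA _ hB hC hR
    rw [Finsupp.sum_mapDomain_index (by intro b; simp) (by intro b m₁ m₂; push_cast; ring)] at h1
    exact h1
  · intro Y hY
    rw [hhde k H (Fin r) 1 (M + 1) F' hinv]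
    congr 1
    funext j
    have h3 : ∀ a : Fin (M + 1 + 1), Y.getD a 1 = Y.get (a.cast hY.symm) := by
      intro a
      rw [List.getD_eq_getElem _ _ (by rw [hY]; exact a.isLt)]
      rfl
    unfold hseq
    rw [h3, h3]
    rfl

end Pool.Agent.FJA
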