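import Pool.Agent.FJA.StY
import Pool.Agent.FJA.P_TFI
import Pool.Agent.FJA.P_HTH

/-!
# RTH: cycles of `GL_r(R[G])`
-/

set_option autoImplicit false

open Matrix Pool.Agent.WhK Pool.Agent.Lib25

noncomputable section

namespace Pool.Agent.FJA

namespace RTH

/-- The map of the general linear groups induced by `algebraMap R k`. -/
def glR (R : Type) [CommRing R] (k : Type) [Field k] [Algebra R k] (G : Type) [Group G] (r : ℕ) :
    (Matrix (Fin r) (Fin r) (MonoidAlgebra R G))ˣ →* (Matrix (Fin r) (Fin r) (MonoidAlgebra k G))ˣ :=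
  Units.map ((MonoidAlgebra.mapRingHom G (algebraMap R k)).mapMatrix (m := Fin r) : _ →+* _).toMonoidHom

theorem glR_val {R : Type} [CommRing R] {k : Type} [Field k] [Algebra R k] {G : Type} [Group G] {r : ℕ}
    (A : (Matrix (Fin r) (Fin r) (MonoidAlgebra R G))ˣ) :
    (glR R k G r A).val = A.val.map (MonoidAlgebra.mapRingHom G (algebraMap R k)) := rfl

theorem glR_coeff {R : Type} [CommRing R] {k : Type} [Field k] [Algebra R k] {G : Type} [Group G] {r : ℕ}
    (A : (Matrix (Fin r) (Fin r) (MonoidAlgebra R G))ˣ) (a b : Fin r) (γ : G) :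
    ((glR R k G r A).val a b).coeff γ ∈ (algebraMap R k).range := by
  rw [glR_val, Matrix.map_apply, MonoidAlgebra.coeff_mapRingHom]
  exact ⟨_, rfl⟩

theorem hseq_map {R : Type} [CommRing R] {k : Type} [Field k] [Algebra R k] {G : Type} [Group G] {r : ℕ}
    (m : ℕ) (Y : List ((Matrix (Fin r) (Fin r) (MonoidAlgebra R G))ˣ)) :
    hseq m (Y.map (glR R k G r)) =
      fun j => (hseq m Y j).map (MonoidAlgebra.mapRingHom G (algebraMap R k)) := by
  funext j
  have h2 : ∀ a : ℕ, (Y.map (glR R k G r)).getD a 1 = glR R k G r (Y.getD a 1) := by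
    intro a
    have h3 := List.getD_map (l := Y) (d := 1) (n := a) (glR R k G r)
    rw [map_one] at h3
    exact h3
  unfold hseq
  rw [h2, h2, ← map_inv, ← map_mul]
  rfl

end RTH

open RTH in
theorem t_RTH (hrtg : S_RTG) (hrcv : S_RCV) : S_RTH := by
  classical
  intro T hT R _ k _ _ _ hinj G _ n i r hn hi z hz F hF
  set f := glR R k G r with hf
  have hz2 : hmap ℚ f (n + 1) z ∈ cyc ℚ ((Matrix (Fin r) (Fin r) (MonoidAlgebra k G))ˣ) n := by
    obtain ⟨m, rfl⟩ : ∃ m, n = m + 1 := ⟨n - 1, by omega⟩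
    exact TFI.cyc_hmap f m hz
  have h1 := hrtg T hT k G n i r hn hi (algebraMap R k).range (hmap ℚ f (n + 1) z) hz2 (by
    intro X hX j a b γ
    obtain ⟨Y, -, rfl⟩ := Finset.mem_image.1 (Finsupp.mapDomain_support hX)
    refine ⟨glR_coeff (Y j) a b γ, ?_⟩
    rw [← map_inv]
    exact glR_coeff (Y j)⁻¹ a b γ) F (hrcv.2 R k hinj G (n + 2 * i) F hF)
  have e1 : (hmap ℚ f (n + 1) z).mapDomain List.ofFn =
      (z.mapDomain List.ofFn).mapDomain (List.map f) := by
    rw [hmap, Finsupp.lmapDomain_apply, ← Finsupp.mapDomain_comp, ← Finsupp.mapDomain_comp]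
    congr 1
    funext X
    simp only [Function.comp]
    rw [List.map_ofFn]
    rfl
  rw [e1, HTH.lT_map hT,
    Finsupp.sum_mapDomain_index (by intro b; simp) (by intro b m₁ m₂; push_cast; ring)] at h1
  rw [← h1]
  refine Finsupp.sum_congr fun Y _ => ?_
  rw [hrcv.1 R k G (Fin r) (n + 2 * i) F (hseq (n + 2 * i) Y), hf, hseq_map]

end Pool.Agent.FJA
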