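import Pool.Agent.FJA.StY
import Pool.Agent.FJA.P_HTX

/-!
# Module RTX: admissible families
-/

set_option autoImplicit false

open Matrix Pool.Agent.WhK Pool.Agent.Lib25

noncomputable section

namespace Pool.Agent.FJA

namespace RTX

variable {Γ : Type} [Group Γ]

/-- If `p ^ b` does not divide the denominator of `q` then the denominator of `p ^ b * q` is prime to `p`. -/
lemma den_pow {p b : ℕ} (hp : p.Prime) {q : ℚ} (h : ¬ p ^ b ∣ q.den) :
    ¬ p ∣ ((p : ℚ) ^ b * q).den := by
  obtain ⟨v, d, hd, hv⟩ := Nat.exists_eq_pow_mul_and_not_dvd q.den_nz p hp.ne_one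
  have hvb : v ≤ b := by
    by_contra hvb
    exact h (hv ▸ Dvd.dvd.mul_right (pow_dvd_pow p (by omega)) d)
  have hp0 : (p : ℚ) ≠ 0 := Nat.cast_ne_zero.2 hp.ne_zero
  have hd0 : (d : ℚ) ≠ 0 := by
    have : d ≠ 0 := by
      rintro rfl
      exact hd (dvd_zero p)
    exact Nat.cast_ne_zero.2 this
  have e : (p : ℚ) ^ b * q = (((p : ℤ) ^ (b - v) * q.num : ℤ) : ℚ) / ((d : ℤ) : ℚ) := by
    have h1 : q * (q.den : ℚ) = q.num := Rat.mul_den_eq_num q
    rw [hv] at h1
    push_cast at h1 ⊢
    rw [eq_div_iff hd0, ← h1]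
    have h2 : (p : ℚ) ^ b = (p : ℚ) ^ (b - v) * (p : ℚ) ^ v := by
      rw [← pow_add, Nat.sub_add_cancel hvb]
    rw [h2]
    ring
  intro hpd
  rw [e, ← Rat.divInt_eq_div] at hpd
  have h3 := Rat.den_dvd ((p : ℤ) ^ (b - v) * q.num) (d : ℤ)
  exact hd (Int.natCast_dvd_natCast.1 ((Int.natCast_dvd_natCast.2 hpd).trans h3))

/-- The denominators of the values of the family at the class of `y0`. -/
lemma fam_den (y0 : Γ) {M p b : ℕ} (hp : p.Prime) {f : (Fin M → Γ) → ℚ}
    (h : ∀ a, ¬ p ^ b ∣ (f a).den) : FDen p b (fun a y => TRB.fam y0 f a y) := by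
  intro a y
  show ¬ p ∣ ((p : ℚ) ^ b * TRB.fam y0 f a y).den
  rcases TRB.fam_val y0 f a y with h0 | ⟨a', ha'⟩
  · rw [h0, mul_zero]
    simpa using hp.one_lt.ne'
  · rw [ha']
    exact den_pow hp (h a')

/-- The elements of the class of `y0` are not `p ^ c`-th powers. -/
lemma fam_root (y0 : Γ) {M p c : ℕ} {f : (Fin M → Γ) → ℚ}
    (h : ∀ δ : Γ, δ ^ p ^ c ≠ y0) : FRoot p c (fun a y => TRB.fam y0 f a y) := by
  intro a y hy δ hδ
  obtain ⟨g, rfl⟩ := TRB.fam_ne hy
  apply h (g⁻¹ * δ * g)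
  have e : g⁻¹ * δ * g = g⁻¹ * δ * (g⁻¹)⁻¹ := by rw [inv_inv]
  rw [e, conj_pow, hδ]
  group

end RTX

open HTX in
open Classical in
/-- RTX: admissible families. -/
theorem t_RTX (hrco : S_RCO) (hhco : S_HCO) (hhcb : S_HCB) (hhtg : S_HTG) : S_RTX := by
  intro k _ _ Γ _ ι _ _ ε M F hinv B hadm w hw hco hrep
  obtain ⟨E0, hE0⟩ := exists_E0 hhtg w
  let rp : ConjClasses Γ → Γ := fun C => (ConjClasses.exists_rep C).choose
  have hrp : ∀ C, ConjClasses.mk (rp C) = C := fun C => (ConjClasses.exists_rep C).choose_spec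
  choose f' E hf hE hfb hEb hc hFE had using fun C : ConjClasses Γ => hadm (rp C)
  have hcj : ∀ (C : ConjClasses Γ) (y : Γ), ConjClasses.mk y = C ↔
      ∃ g : Γ, g * rp C * g⁻¹ = y := by
    intro C y
    constructor
    · intro h
      rw [← hrp C] at h
      exact isConj_iff.1 (ConjClasses.mk_eq_mk_iff_isConj.1 h).symm
    · intro h
      rw [← hrp C]
      exact (ConjClasses.mk_eq_mk_iff_isConj.2 (isConj_iff.2 h)).symm
  let s : Finset (ConjClasses Γ) := E0.image fun y => ConjClasses.mk y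
  let T1 : ConjClasses Γ → (Fin (M + 2) → Γ) → Γ → ℚ := fun C a y => TRB.fam (rp C) (f' C) a y
  let T2 : ConjClasses Γ → (Fin (M + 2) → Γ) → Γ → ℚ := fun C a y =>
    cobE (fun b => TRB.fam (rp C) (E C) b y) a
  have hTneg : ∀ (C : ConjClasses Γ) (a : Fin (M + 2) → Γ) (y : Γ),
      ConjClasses.mk y ≠ C → T1 C a y + T2 C a y = 0 := by
    intro C a y hy
    have h : ¬ ∃ g : Γ, g * rp C * g⁻¹ = y := fun h => hy ((hcj C y).2 h)
    simp only [T1, T2, TRB.fam_neg (rp C) (f' C) a h, TRB.cob_fam_neg (rp C) (E C) a h, add_zero]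
  have hTpos : ∀ (a : Fin (M + 2) → Γ) (y : Γ),
      T1 (ConjClasses.mk y) a y + T2 (ConjClasses.mk y) a y = F a y := by
    intro a y
    obtain ⟨g, hg⟩ := (hcj (ConjClasses.mk y) y).1 rfl
    have e1 : TRB.fam (rp (ConjClasses.mk y)) (f' (ConjClasses.mk y)) a y =
        f' (ConjClasses.mk y) (fun i => g⁻¹ * a i) := by
      have h := TRB.fam_conj _ (hf (ConjClasses.mk y)) a g
      rw [hg] at h
      exact h
    have e2 : cobE (fun b => TRB.fam (rp (ConjClasses.mk y)) (E (ConjClasses.mk y)) b y) a =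
        cobE (E (ConjClasses.mk y)) (fun i => g⁻¹ * a i) := by
      rw [← TRB.cob_fam _ (hE (ConjClasses.mk y)) a g, hg]
    have e3 : F a y = F (fun i => g⁻¹ * a i) (rp (ConjClasses.mk y)) := by
      rw [← hinv g (fun i => g⁻¹ * a i) (rp (ConjClasses.mk y)), hg]
      congr 1
      funext i
      rw [mul_inv_cancel_left]
    show TRB.fam (rp (ConjClasses.mk y)) (f' (ConjClasses.mk y)) a y +
      cobE (fun b => TRB.fam (rp (ConjClasses.mk y)) (E (ConjClasses.mk y)) b y) a = F a y
    rw [e1, e2, e3]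
    exact (hFE (ConjClasses.mk y) _).symm
  have key : val w (fst F) = ∑ C ∈ s, val w (fst fun a y => T1 C a y + T2 C a y) := by
    rw [← val_sum hhtg w s fun C => fst fun a y => T1 C a y + T2 C a y]
    refine hE0 _ _ fun μ hμ => ?_
    have e : (fst F μ : ℚ) = fst (fun a y => ∑ C ∈ s, (T1 C a y + T2 C a y)) μ := by
      have hmem : ConjClasses.mk μ.val ∈ s := Finset.mem_image_of_mem _ hμ
      have h1 : ∀ a, F a μ.val = ∑ C ∈ s, (T1 C a μ.val + T2 C a μ.val) := by
        intro a
        rw [Finset.sum_eq_single_of_mem _ hmem fun C _ hC => hTneg C a μ.val (fun h => hC h.symm)]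
        exact (hTpos a μ.val).symm
      unfold fst
      split_ifs with h
      · exact h1 _
      · rfl
    rw [e]
    exact fst_sum s (fun C a y => T1 C a y + T2 C a y) μ
  have hzero : ∀ C ∈ s, val w (fst fun a y => T1 C a y + T2 C a y) = 0 := by
    intro C _
    have e0 : (fst fun a y => T1 C a y + T2 C a y) = fun μ => fst (T1 C) μ + fst (T2 C) μ := by
      funext μ
      exact fst_add (T1 C) (T2 C) μ
    rw [e0, val_add hhtg]
    have e2 : val w (fst (T2 C)) = 0 :=
      hhcb k Γ ι ε M (TRB.fam (rp C) (E C)) (fun g a y => TRB.fam_inv (rp C) (hE C) g a y)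
        (fun y => fam_altb (rp C) (hE C) (hEb C) y) w hw
    have e1 : val w (fst (T1 C)) = 0 := by
      rcases had C with h0 | hr | hp
      · refine val_zero hhtg w fun μ => ?_
        have h1 : ∀ a y, T1 C a y = 0 := by
          intro a y
          rcases TRB.fam_val (rp C) (f' C) a y with h1 | ⟨b, hb⟩
          · exact h1
          · show TRB.fam (rp C) (f' C) a y = 0
            rw [hb, h0]
            rfl
        unfold fst
        split_ifs with h
        · exact h1 _ _
        · rfl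
      · obtain ⟨p, b, c, hp, hpB, hden, hroot⟩ := hr
        exact hrco k Γ ι ε M (T1 C) (fun g a y => TRB.fam_inv (rp C) (hf C) g a y)
          (fun a y => TRB.fam_coc (rp C) (hf C) (hc C) a y)
          (fun y => fam_altb (rp C) (hf C) (hfb C) y) p b c hp
          (RTX.fam_den (rp C) hp hden) (RTX.fam_root (rp C) hroot) B hpB w hw hco hrep
      · have hF : FamY (T1 C) (rp C) := by
          refine ⟨fun g a y => TRB.fam_inv (rp C) (hf C) g a y,
            fun a y => TRB.fam_coc (rp C) (hf C) (hc C) a y,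
            fun y => fam_altb (rp C) (hf C) (hfb C) y, ?_, ?_⟩
          · intro a y h
            exact (isConj_iff.2 (TRB.fam_ne h)).symm
          · intro V
            refine (hp V).mono ?_
            rintro p ⟨hpp, h1, h2⟩
            refine ⟨hpp, fun a y => ?_, h2⟩
            show ¬ p ∣ (TRB.fam (rp C) (f' C) a y).den
            rcases TRB.fam_val (rp C) (f' C) a y with h0 | ⟨b, hb⟩
            · rw [h0]
              simpa using hpp.one_lt.ne'
            · rw [hb]
              exact h1 b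
        exact (hhco k Γ ι ε M (T1 C) (rp C) hF w hw).2 hrep
    rw [e1, e2, add_zero]
  exact key.trans (Finset.sum_eq_zero hzero)

end Pool.Agent.FJA
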