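import Pool.Agent.FJA.StY
import Pool.Agent.FJA.P_HXI

/-!
# The condition on roots: module RXI, the function `ξ`
-/

set_option autoImplicit false

open Matrix Pool.Agent.WhK Pool.Agent.Lib25

noncomputable section

namespace Pool.Agent.FJA

open HXI in
theorem t_RXI (hrpr : S_RPR) (hhal : S_HAL) : S_RXI := by
  intro Γ _ M N Q F s hN hQ hinv hcoc halt hs hgood
  obtain ⟨h, ha, hb, hc, hd⟩ := hrpr Γ M N Q F s hN hQ hinv hcoc
    (fun t a y => (halt y).bas t a) hs
  refine ⟨fun Y y => asym (fun Z => h Z y) Y, fun T => ⟨?_, ?_, ?_⟩, ?_⟩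
  · intro γ Y y hY
    exact asym_congr _ _ _ _ fun π => hb γ (fun j => Y (π j)) y fun i => hY (π i)
  · intro σ Y y
    exact asym_alt _ σ Y
  · intro μ hμ hlen i
    refine asym_congr _ _ _ _ fun π => ?_
    change h (fun j => Function.update μ.lst i (rotL μ.val (μ.lst i)) (π j)) μ.val =
      h (fun j => μ.lst (π j)) μ.val
    by_cases h0 : ∀ a, F a μ.val = 0
    · rw [hd μ.val h0, hd μ.val h0]
    · push Not at h0
      have hg : ∀ i, GoodC Q (μ.lst i) μ.val := fun i => hgood (μ.lst i) μ.val (hlen i) h0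
      have h1 := hc (fun j => μ.lst (π j)) μ.val (fun j => hlen (π j)) (π.symm i) (hg _)
      rw [← h1]
      congr 1
      have h2 := Function.update_comp_equiv μ.lst π i (rotL μ.val (μ.lst i))
      simp only [Equiv.apply_symm_apply]
      exact h2
  · intro Y y
    refine hhal (List Γ) M (fun Y => ((Q : ℚ) ^ (M + 1))⁻¹ *
        ∑ J : Fin (M + 1) → Fin Q, F (fun j => s (Y j) y (J j)) y -
      ((N : ℚ) ^ (M + 1))⁻¹ * ∑ t : Fin (M + 1) → Fin N, F (fun j => (Y j).getD (t j) 1) y)
      (fun Y => h Y y) ?_ (fun Y => ha Y y) Y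
    intro σ Y
    have h1 := sum_alt (γ := Fin Q) (fun a => F a y) (fun (Z : List Γ) (J : Fin Q) => s Z y J)
      (halt y).alt σ Y
    have h2 := sum_alt (γ := Fin N) (fun a => F a y) (fun (Z : List Γ) (t : Fin N) => Z.getD t 1)
      (halt y).alt σ Y
    simp only at h1 h2 ⊢
    rw [h1, h2]
    ring

end Pool.Agent.FJA
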