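import Pool.Agent.FJA.CoreAllW
import Pool.Agent.FJA.P_RSA
import Pool.Agent.FJA.P_RGD
import Pool.Agent.FJA.P_RPR
import Pool.Agent.FJA.P_RXI
import Pool.Agent.FJA.P_RPO
import Pool.Agent.FJA.P_RCO
import Pool.Agent.FJA.P_RTX
import Pool.Agent.FJA.P_RTG
import Pool.Agent.FJA.P_RTF
import Pool.Agent.FJA.P_RCV
import Pool.Agent.FJA.P_RTH
import Pool.Agent.FJA.P_RTE
import Pool.Agent.FJA.P_RRF
import Pool.Agent.FJA.P_RAD

/-!
# The higher components of the Chern character, condition on roots: the theorems of the modules, composed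
-/

set_option autoImplicit false

noncomputable section

namespace Pool.Agent.FJA

theorem h_RXI : S_RXI := t_RXI t_RPR t_HAL
theorem h_RCO : S_RCO := t_RCO t_RSA t_RGD h_RXI t_HTG t_HFA h_HEV t_HIN t_HCP t_RPO
theorem h_RTX : S_RTX := t_RTX h_RCO h_HCO h_HCB t_HTG
theorem h_RTG : S_RTG := t_RTG t_HFG t_HNA t_HNL h_HUN h_RTX t_HDE
theorem h_RTF : S_RTF := t_RTF t_HFG t_HNA h_HID h_RTX t_HDE
theorem h_RTH : S_RTH := t_RTH h_RTG t_RCV
theorem h_RTE : S_RTE := t_RTE h_RTF t_RCV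
theorem h_RAD : S_RAD := t_RAD t_RRF

end Pool.Agent.FJA
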