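import Pool.Agent.FJA.StY
import Pool.Agent.FJA.P_SCF

/-!
# RAV: the average over the powers of `y`
-/

set_option autoImplicit false

noncomputable section

namespace Pool.Agent.FJA

namespace RAV

/-- the sum over all the tuples of a function which does not depend on one of the entries -/
theorem sum_succAbove {M : ℕ} {T : Type} [Fintype T] (i : Fin (M + 1)) (g : (Fin M → T) → ℚ) :
    ∑ t : Fin (M + 1) → T, g (fun j => t (i.succAbove j)) =
      (Fintype.card T : ℚ) * ∑ t : Fin M → T, g t := by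
  rw [← (Fin.insertNthEquiv (fun _ : Fin (M + 1) => T) i).sum_comp, Fintype.sum_prod_type]
  have h : ∀ (x : T) (t : Fin M → T),
      g (fun j => (Fin.insertNthEquiv (fun _ : Fin (M + 1) => T) i) (x, t) (i.succAbove j)) =
        g t := by
    intro x t
    congr 1
    funext j
    simp [Fin.insertNthEquiv]
  simp only [h]
  rw [Finset.sum_const, Finset.card_univ, nsmul_eq_mul]

/-! ### denominators -/

theorem den_add {p : ℕ} (hp : p.Prime) {x y : ℚ} (hx : ¬ p ∣ x.den) (hy : ¬ p ∣ y.den) :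
    ¬ p ∣ (x + y).den := by
  intro h
  have h1 : p ∣ x.den * y.den := h.trans (Rat.add_den_dvd x y)
  rcases hp.dvd_mul.1 h1 with h2 | h2
  · exact hx h2
  · exact hy h2

theorem den_sum {p : ℕ} (hp : p.Prime) {ι : Type} (s : Finset ι) (f : ι → ℚ)
    (h : ∀ i ∈ s, ¬ p ∣ (f i).den) : ¬ p ∣ (∑ i ∈ s, f i).den := by
  classical
  induction s using Finset.induction_on with
  | empty =>
    rw [Finset.sum_empty, Rat.den_zero, Nat.dvd_one]
    exact hp.one_lt.ne'
  | insert a s ha ih =>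
    rw [Finset.sum_insert ha]
    exact den_add hp (h a (Finset.mem_insert_self a s))
      (ih fun i hi => h i (Finset.mem_insert_of_mem hi))

/-! ### the translation of residues -/

/-- the residue of `s + z` -/
def sh (p : ℕ) (hp : 0 < p) (z : ℤ) (s : Fin p) : Fin p :=
  ⟨((s : ℤ) + z).natMod p, by
    have h1 : (0 : ℤ) < p := by exact_mod_cast hp
    have h2 := Int.emod_lt_of_pos ((s : ℤ) + z) h1
    have h3 := Int.emod_nonneg ((s : ℤ) + z) h1.ne'
    unfold Int.natMod
    omega⟩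

theorem sh_val {p : ℕ} (hp : 0 < p) (z : ℤ) (s : Fin p) :
    ((sh p hp z s : Fin p) : ℤ) = ((s : ℤ) + z) % p := by
  have h1 : (0 : ℤ) < p := by exact_mod_cast hp
  have h3 := Int.emod_nonneg ((s : ℤ) + z) h1.ne'
  unfold sh Int.natMod
  exact Int.toNat_of_nonneg h3

theorem sh_inj {p : ℕ} (hp : 0 < p) (z : ℤ) : Function.Injective (sh p hp z) := by
  intro s s' h
  have h1 := congrArg (fun x : Fin p => ((x : ℕ) : ℤ)) h
  simp only [sh_val] at h1
  have h2 : ((s : ℤ) + z) ≡ ((s' : ℤ) + z) [ZMOD p] := h1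
  have h3 : (s : ℤ) ≡ (s' : ℤ) [ZMOD p] := Int.ModEq.add_right_cancel' z h2
  have h4 : (s : ℤ) % p = (s' : ℤ) % p := h3
  rw [Int.emod_eq_of_lt (by positivity) (by exact_mod_cast s.2),
    Int.emod_eq_of_lt (by positivity) (by exact_mod_cast s'.2)] at h4
  exact Fin.ext (by exact_mod_cast h4)

/-- the translation as a bijection -/
def shE (p : ℕ) (hp : 0 < p) (z : ℤ) : Fin p ≃ Fin p :=
  Equiv.ofBijective (sh p hp z) (Finite.injective_iff_bijective.1 (sh_inj hp z))

theorem shE_apply {p : ℕ} (hp : 0 < p) (z : ℤ) (s : Fin p) :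
    (s : ℤ) + z = ((shE p hp z s : Fin p) : ℤ) + p * (((s : ℤ) + z) / p) := by
  have h1 : ((shE p hp z s : Fin p) : ℤ) = ((s : ℤ) + z) % p := sh_val hp z s
  rw [h1]
  exact (Int.emod_add_mul_ediv _ _).symm

variable {G : Type} [Group G] {M : ℕ}

theorem pow_shift {p : ℕ} (hp : 0 < p) (y : G) (z : ℤ) (s : Fin p) :
    y ^ (s : ℕ) * y ^ z = (y ^ p) ^ (((s : ℤ) + z) / p) * y ^ (shE p hp z s : ℕ) := by
  have h1 := shE_apply hp z s
  generalize ((s : ℤ) + z) / p = u at h1 ⊢
  rw [← zpow_natCast y (s : ℕ), ← zpow_add, h1, ← zpow_natCast y (shE p hp z s : ℕ),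
    ← zpow_natCast y p, ← zpow_mul, ← zpow_add, add_comm]

/-- the average -/
def av (p : ℕ) (F : (Fin M → G) → G → ℚ) (a : Fin M → G) (y : G) : ℚ :=
  ((p : ℚ) ^ M)⁻¹ * ∑ t : Fin M → Fin p, powF p F (fun i => y ^ (t i : ℕ) * a i) y

/-- the average of the prism function -/
def ev (p : ℕ) (F : (Fin (M + 1) → G) → G → ℚ) (a : Fin M → G) (y : G) : ℚ :=
  ((p : ℚ) ^ M)⁻¹ *
    ∑ t : Fin M → Fin p, SCF.EE (powF p F) y (fun i => (y ^ (t i : ℕ) * a i, a i))

theorem powF_inv {p : ℕ} {F : (Fin M → G) → G → ℚ} (hF : FInv F) (g : G) (a : Fin M → G) (y : G) :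
    powF p F (fun i => g * a i) (g * y * g⁻¹) = powF p F a y := by
  unfold powF
  rw [conj_pow]
  exact hF g a (y ^ p)

theorem powF_coc {p : ℕ} {F : (Fin M → G) → G → ℚ} (hF : FCoc F) (a : Fin (M + 1) → G) (y : G) :
    ∑ i : Fin (M + 1), (-1 : ℚ) ^ (i : ℕ) * powF p F (fun j => a (i.succAbove j)) y = 0 :=
  hF a (y ^ p)

theorem powF_bas {p : ℕ} {F : (Fin M → G) → G → ℚ} (hF : FBas F) (t : Fin M → ℤ) (a : Fin M → G)
    (y : G) : powF p F (fun i => (y ^ p) ^ t i * a i) y = powF p F a y :=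
  hF t a (y ^ p)

theorem av_inv {p : ℕ} {F : (Fin M → G) → G → ℚ} (hF : FInv F) : FInv (av p F) := by
  intro g a y
  unfold av
  congr 1
  refine Finset.sum_congr rfl fun t _ => ?_
  rw [← powF_inv hF g (fun i => y ^ (t i : ℕ) * a i) y]
  congr 1
  funext i
  rw [conj_pow]
  group

theorem ev_inv {p : ℕ} {F : (Fin (M + 1) → G) → G → ℚ} (hF : FInv F) : FInv (ev p F) := by
  intro g a y
  unfold ev
  congr 1
  refine Finset.sum_congr rfl fun t _ => ?_
  unfold SCF.EE
  refine Finset.sum_congr rfl fun j _ => ?_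
  rw [← powF_inv hF g (mix Prod.snd Prod.fst (fun i => (y ^ (t i : ℕ) * a i, a i)) j) y]
  congr 2
  funext i
  unfold mix
  split_ifs
  · rfl
  · dsimp only
    rw [conj_pow]
    group

theorem av_bas {p : ℕ} (hp : 0 < p) {F : (Fin M → G) → G → ℚ} (hF : FBas F) : FBas (av p F) := by
  intro t a y
  unfold av
  congr 1
  rw [← Equiv.sum_comp (Equiv.piCongrRight fun i => shE p hp (t i))
    fun s : Fin M → Fin p => powF p F (fun i => y ^ (s i : ℕ) * a i) y]
  refine Finset.sum_congr rfl fun s _ => ?_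
  rw [← powF_bas hF (fun i => ((s i : ℤ) + t i) / p)
    (fun i => y ^ ((Equiv.piCongrRight fun i => shE p hp (t i)) s i : ℕ) * a i) y]
  congr 1
  funext i
  have h2 : (Equiv.piCongrRight fun i => shE p hp (t i)) s i = shE p hp (t i) (s i) := rfl
  rw [h2, ← mul_assoc, ← mul_assoc, pow_shift hp y (t i) (s i)]

theorem av_coc {p : ℕ} (hp : 0 < p) {F : (Fin M → G) → G → ℚ} (hF : FCoc F) : FCoc (av p F) := by
  intro a y
  have hp0 : (p : ℚ) ≠ 0 := by exact_mod_cast hp.ne'
  have h1 : ∀ i : Fin (M + 1), (-1 : ℚ) ^ (i : ℕ) * av p F (fun j => a (i.succAbove j)) y =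
      ((p : ℚ) ^ (M + 1))⁻¹ *
        ∑ t : Fin (M + 1) → Fin p, (-1 : ℚ) ^ (i : ℕ) *
          powF p F (fun j => (fun l => y ^ (t l : ℕ) * a l) (i.succAbove j)) y := by
    intro i
    rw [← Finset.mul_sum, sum_succAbove i fun t : Fin M → Fin p =>
      powF p F (fun j => y ^ (t j : ℕ) * a (i.succAbove j)) y, Fintype.card_fin]
    unfold av
    field_simp
    ring
  rw [Finset.sum_congr rfl fun i _ => h1 i, ← Finset.mul_sum, Finset.sum_comm]
  refine mul_eq_zero_of_right _ (Finset.sum_eq_zero fun t _ => ?_)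
  exact powF_coc hF (fun l => y ^ (t l : ℕ) * a l) y

theorem av_eq {p : ℕ} (hp : 0 < p) {F : (Fin (M + 1) → G) → G → ℚ} (hF : FCoc F)
    (a : Fin (M + 1) → G) (y : G) :
    av p F a y - powF p F a y = cobE (fun b => ev p F b y) a := by
  have h1 : ∀ t : Fin (M + 1) → Fin p,
      powF p F (fun i => y ^ (t i : ℕ) * a i) y - powF p F a y =
        ∑ i : Fin (M + 1), (-1 : ℚ) ^ (i : ℕ) *
          SCF.EE (powF p F) y (fun j => (y ^ (t (i.succAbove j) : ℕ) * a (i.succAbove j),
            a (i.succAbove j))) := fun t =>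
    SCF.prism_coc y (fun b => powF_coc hF b y) (fun i => (y ^ (t i : ℕ) * a i, a i))
  have h2 := Finset.sum_congr rfl fun (t : Fin (M + 1) → Fin p)
    (_ : t ∈ Finset.univ) => h1 t
  rw [Finset.sum_sub_distrib, Finset.sum_const, Finset.card_univ, Fintype.card_fun,
    Fintype.card_fin, Fintype.card_fin, nsmul_eq_mul, Finset.sum_comm] at h2
  have hN0 : (p : ℚ) ≠ 0 := by exact_mod_cast hp.ne'
  have h3 : ∀ i : Fin (M + 1), ∑ t : Fin (M + 1) → Fin p, (-1 : ℚ) ^ (i : ℕ) *
      SCF.EE (powF p F) y (fun j => (y ^ (t (i.succAbove j) : ℕ) * a (i.succAbove j),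
        a (i.succAbove j))) =
      (p : ℚ) ^ (M + 1) *
        ((-1 : ℚ) ^ (i : ℕ) * ev p F (fun j => a (i.succAbove j)) y) := by
    intro i
    rw [← Finset.mul_sum, sum_succAbove i fun t : Fin M → Fin p =>
      SCF.EE (powF p F) y (fun j => (y ^ (t j : ℕ) * a (i.succAbove j), a (i.succAbove j))),
      Fintype.card_fin]
    unfold ev
    field_simp
    ring
  rw [Finset.sum_congr rfl fun i _ => h3 i, ← Finset.mul_sum] at h2
  push_cast at h2
  have h4 : (p : ℚ) ^ (M + 1) ≠ 0 := pow_ne_zero _ hN0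
  unfold cobE
  have h5 := congrArg (fun x => ((p : ℚ) ^ (M + 1))⁻¹ * x) h2
  rw [← mul_assoc, inv_mul_cancel₀ h4, one_mul, mul_sub, ← mul_assoc, inv_mul_cancel₀ h4,
    one_mul] at h5
  exact h5

theorem av_den {p b : ℕ} (hp : p.Prime) {F : (Fin M → G) → G → ℚ} (hF : FDen p b F) :
    FDen p (b + M) (av p F) := by
  intro a y
  have hN0 : (p : ℚ) ≠ 0 := by exact_mod_cast hp.ne_zero
  have h : (p : ℚ) ^ (b + M) * av p F a y =
      ∑ t : Fin M → Fin p, (p : ℚ) ^ b * F (fun i => y ^ (t i : ℕ) * a i) (y ^ p) := by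
    unfold av powF
    rw [← Finset.mul_sum, pow_add]
    field_simp
  rw [h]
  exact den_sum hp _ _ fun t _ => hF _ _

end RAV

open RAV in
theorem t_RAV : S_RAV := by
  intro G _ n p b hp F hinv hcoc hbas hden
  refine ⟨av p F, fun a y => - ev p F a y, av_inv hinv, av_coc hp.pos hcoc,
    av_bas hp.pos hbas, av_den hp hden, fun y hy a => ?_, fun g a y => ?_, fun a y => ?_⟩
  · unfold av powF
    simp [hy]
  · change - ev p F (fun i => g * a i) (g * y * g⁻¹) = - ev p F a y
    rw [ev_inv hinv g a y]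
  · have h1 := av_eq hp.pos hcoc a y
    have h2 : cobE (fun b => - ev p F b y) a = - cobE (fun b => ev p F b y) a := by
      unfold cobE
      rw [← Finset.sum_neg_distrib]
      exact Finset.sum_congr rfl fun i _ => by ring
    change powF p F a y = av p F a y + cobE (fun b => - ev p F b y) a
    rw [h2, ← h1]
    ring

end Pool.Agent.FJA
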