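import Pool.Agent.FJA.StY

/-!
# RCA: the conditions of StU.lean imply the new ones
-/

set_option autoImplicit false

open Matrix Pool.Agent.WhK Pool.Agent.Lib25

noncomputable section

namespace Pool.Agent.FJA

namespace RCA

/-- If the orders of the elements of finite order are not divisible by `p ^ c` and `p` divides the order of `y`, then
`y` is not a `p ^ c`-th power. -/
theorem no_root {G : Type} [Group G] {p c : ℕ} (hp : p.Prime) {y : G} (hy : IsOfFinOrder y)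
    (hd : p ∣ orderOf y) (hc : ∀ g : G, IsOfFinOrder g → ¬ p ^ c ∣ orderOf g) (δ : G) :
    δ ^ p ^ c ≠ y := by
  intro h
  have hpos : 0 < p ^ c := pow_pos hp.pos c
  have hδ : IsOfFinOrder δ := by
    rw [← h] at hy
    obtain ⟨n, hn, hn'⟩ := isOfFinOrder_iff_pow_eq_one.1 hy
    exact isOfFinOrder_iff_pow_eq_one.2 ⟨p ^ c * n, Nat.mul_pos hpos hn, by rw [pow_mul]; exact hn'⟩
  apply hc δ hδ
  have hN : 0 < orderOf δ := hδ.orderOf_pos
  have h1 : orderOf y = orderOf δ / Nat.gcd (orderOf δ) (p ^ c) := by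
    rw [← h]
    exact orderOf_pow' δ hpos.ne'
  obtain ⟨j, hj, hj'⟩ := (Nat.dvd_prime_pow hp).1 (Nat.gcd_dvd_right (orderOf δ) (p ^ c))
  rw [h1, hj'] at hd
  have h2 : p ^ j ∣ orderOf δ := by
    rw [← hj']
    exact Nat.gcd_dvd_left _ _
  have h3 : p ^ (j + 1) ∣ orderOf δ := by
    obtain ⟨k, hk⟩ := h2
    rw [hk, Nat.mul_div_cancel_left _ (pow_pos hp.pos j)] at hd
    rw [hk, pow_succ]
    exact Nat.mul_dvd_mul_left _ hd
  rcases Nat.lt_or_ge j c with h4 | h4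
  · exfalso
    have h5 : p ^ (j + 1) ∣ Nat.gcd (orderOf δ) (p ^ c) := Nat.dvd_gcd h3 (pow_dvd_pow p h4)
    rw [hj'] at h5
    have h6 := (Nat.pow_dvd_pow_iff_le_right hp.one_lt).1 h5
    omega
  · exact (pow_dvd_pow p h4).trans h2

theorem adm {G : Type} [Group G] (n : ℕ) (y : G) (f : (Fin (n + 1) → G) → ℚ) (h : AdmC n y f) :
    AdmR n y f := by
  rcases h with h | ⟨hy, ⟨m, hm, hfm⟩, h⟩ | h | h
  · exact Or.inl h
  · rcases h with h | ⟨p, hp, hpy, c, hc⟩
    · exact Or.inr (Or.inr (Or.inl ⟨h, hy, m, hm, hfm⟩))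
    · refine Or.inr (Or.inl ⟨⟨p, m, c, hp, ?_, ?_, ?_⟩, Or.inl hy⟩)
      · exact (Nat.prime_iff_prime_int.1 hp).not_unit
      · intro a ha
        have h1 : p ^ m ∣ m := ha.trans (hfm a)
        have h2 : p ^ m ≤ m := Nat.le_of_dvd (Nat.pos_of_ne_zero hm) h1
        have h3 : m < p ^ m := Nat.lt_pow_self hp.one_lt
        omega
      · exact no_root hp hy hpy hc
  · exact Or.inr (Or.inr (Or.inr (Or.inl h)))
  · exact Or.inr (Or.inr (Or.inr (Or.inr h)))

end RCA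

theorem t_RCA : S_RCA := by
  refine ⟨fun G _ n y f h => RCA.adm n y f h, fun G _ n F h => ⟨h.1, fun H hH y hy => ?_⟩⟩
  obtain ⟨f', E, h1, h2, h3, h4, h5⟩ := h.2 H hH y hy
  exact ⟨f', E, h1, h2, h3, h4, RCA.adm n y f' h5⟩

end Pool.Agent.FJA
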