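import Pool.Agent.FJA.StY
import Pool.Agent.FJA.P_BFL

/-!
# RMN: the value of a cocycle and of its composition with the `p`-th power map
-/

set_option autoImplicit false

open Matrix Pool.Agent.WhK Pool.Agent.Lib25

noncomputable section

namespace Pool.Agent.FJA

namespace RMN

theorem den_sum {p : ℕ} (hp : p.Prime) {I : Type} (s : Finset I) (f : I → ℚ)
    (h : ∀ i ∈ s, ¬ p ∣ (f i).den) : ¬ p ∣ (∑ i ∈ s, f i).den := by
  classical
  induction s using Finset.induction_on with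
  | empty =>
    rw [Finset.sum_empty, Rat.den_zero, Nat.dvd_one]
    exact hp.one_lt.ne'
  | insert a s ha ih =>
    rw [Finset.sum_insert ha]
    intro h1
    have h2 := h1.trans (Rat.add_den_dvd (f a) (∑ i ∈ s, f i))
    rcases hp.dvd_mul.1 h2 with h3 | h3
    · exact h a (Finset.mem_insert_self _ _) h3
    · exact ih (fun i hi => h i (Finset.mem_insert_of_mem hi)) h3

theorem evA_den {Γ : Type} [Group Γ] {M : ℕ} {p b c : ℕ} (hp : p.Prime) (N : ℕ)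
    (F : (Fin M → Γ) → Γ → ℚ) (hF : FDen p b F) (s : List Γ → Γ → Fin (p ^ c) → Γ)
    (μ : Rec Γ (Fin M)) : ¬ p ∣ ((p : ℚ) ^ (b + c * M) * evA N (p ^ c) F s μ).den := by
  classical
  unfold evA
  split_ifs
  · have hp0 : (p : ℚ) ≠ 0 := by exact_mod_cast hp.ne_zero
    have h1 : (p : ℚ) ^ (b + c * M) * ((((p ^ c : ℕ) : ℚ) ^ M)⁻¹ *
        ∑ J : Fin M → Fin (p ^ c), F (fun i => s (μ.lst i) μ.val (J i)) μ.val) =
        ∑ J : Fin M → Fin (p ^ c), (p : ℚ) ^ b * F (fun i => s (μ.lst i) μ.val (J i)) μ.val := by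
      rw [← Finset.mul_sum, ← mul_assoc]
      congr 1
      push_cast
      rw [pow_add, ← pow_mul, mul_assoc, mul_inv_cancel₀ (pow_ne_zero _ hp0), mul_one]
    rw [h1]
    exact den_sum hp _ _ fun J _ => hF _ _
  · rw [mul_zero, Rat.den_zero, Nat.dvd_one]
    exact hp.one_lt.ne'

theorem powF_inv {Γ : Type} [Group Γ] {M : ℕ} (p : ℕ) {F : (Fin M → Γ) → Γ → ℚ} (h : FInv F) :
    FInv (powF p F) := by
  intro g a y
  unfold powF
  rw [conj_pow]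
  exact h g a (y ^ p)

/-- The value of the family from the values of an average. -/
theorem sum_val (hden : S_DEN) (hdeq : S_DEQ) {G : Type} [Group G] {n p r : ℕ} [Fact p.Prime]
    (F : (Fin (n + 2) → G) → G → ℚ) (hF : FInv F) (N : ℕ) (hN : 0 < N)
    (φ : Rec G (Fin (n + 2)) → ℚ) (η : Rec G (Fin (n + 1)) → ℚ) (hη : CjInv η)
    (h : ∀ (k : Type) [Field k] [CharZero k] (ι : Type) [Fintype ι] [DecidableEq ι]
        (X : Fin (n + 2) → (Matrix ι ι (MonoidAlgebra k G))ˣ),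
        TX φ N X - TX (fst F) N X =
          ∑ i : Fin (n + 2), (-1 : k) ^ (i : ℕ) * TX η N (fun t => X (i.succAbove t)))
    (z : (Fin (n + 2) → (Matrix (Fin r) (Fin r) (MonoidAlgebra ℤ G))ˣ) →₀ ℚ)
    (hz : z ∈ cyc ℚ ((Matrix (Fin r) (Fin r) (MonoidAlgebra ℤ G))ˣ) (n + 1)) :
    ∑ X ∈ z.support, ((z X : ℚ) : ℚ_[p]) * TX φ N (fun j => zU ℚ_[p] (X j)) =
      ((z.sum fun X q => q * dtr F X : ℚ) : ℚ_[p]) := by
  classical
  have hval : ∀ X : Fin (n + 2) → (Matrix (Fin r) (Fin r) (MonoidAlgebra ℤ G))ˣ,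
      TX (fst F) N (fun j => zU ℚ_[p] (X j)) = ((dtr F X : ℚ) : ℚ_[p]) := by
    intro X
    rw [t_TXfst ℚ_[p] G (Fin r) (n + 2) N (fst F) (fun j => zU ℚ_[p] (X j)) hN
      (fun μ ν h => BFL.fst_first _ μ ν h), hden ℚ_[p] G (n + 1) r F hF]
    exact hdeq.1 ℚ_[p] G (n + 1) r F X
  have h1 := BFL.sum_faces (k := ℚ_[p]) η hη N z hz
  rw [Finsupp.sum] at h1
  have h2 : ∑ X ∈ z.support, ((z X : ℚ) : ℚ_[p]) * TX φ N (fun j => zU ℚ_[p] (X j)) -
      ∑ X ∈ z.support, ((z X : ℚ) : ℚ_[p]) * TX (fst F) N (fun j => zU ℚ_[p] (X j)) =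
      ∑ X ∈ z.support, ((z X : ℚ) : ℚ_[p]) * ∑ i : Fin (n + 2), (-1 : ℚ_[p]) ^ (i : ℕ) *
        TX η N (fun t => zU ℚ_[p] (X (i.succAbove t))) := by
    rw [← Finset.sum_sub_distrib]
    refine Finset.sum_congr rfl fun X _ => ?_
    rw [← mul_sub, h ℚ_[p] (Fin r) (fun j => zU ℚ_[p] (X j))]
  rw [h1, sub_eq_zero] at h2
  rw [h2, Finsupp.sum]
  push_cast
  refine Finset.sum_congr rfl fun X _ => ?_
  rw [hval]

end RMN

open RMN in
/-- MODULE RMN -/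
theorem t_RMN (hrsa : S_RSA) (hrgd : S_RGD) (hrtr : S_RTR) (hrsc : S_RSC) (hrpw : S_RPW)
    (hrsg : S_RSG) (hden : S_DEN) (hdeq : S_DEQ) : S_RMN := by
  classical
  intro G _ n p b c hpf F hFinv hFcoc hFbas hFden hFroot r z hz
  have hp : p.Prime := hpf.out
  obtain ⟨-, hsb, -⟩ := t_SUP
  -- the finite data
  choose T hT1 hT2 using fun X : (Fin (n + 2) → (Matrix (Fin r) (Fin r) (MonoidAlgebra ℤ G))ˣ) =>
    hsb ℚ G (Fin r) (n + 2) (fun j => zU ℚ (X j))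
  obtain ⟨T0, hT0⟩ : ∃ T0 : Finset (Rec G (Fin (n + 2))), T0 = z.support.biUnion T := ⟨_, rfl⟩
  have hUS : ∀ X ∈ z.support, ∀ a b μ, (UX (fun j => zU ℚ_[p] (X j)) a b).coeff μ ≠ 0 →
      μ ∈ T0 := by
    intro X hX a b μ hμ
    rw [hT0]
    exact Finset.mem_biUnion.2 ⟨X, hX, hT2 X a b μ (BFL.supp_bc X a b μ hμ)⟩
  have hT0len : ∀ t ∈ T0, ∀ i, (t.lst i).length = 1 := by
    intro t ht i
    rw [hT0] at ht
    obtain ⟨x, _, hx⟩ := Finset.mem_biUnion.1 ht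
    exact hT1 x t hx i
  obtain ⟨s, hs⟩ := hrsa G (p ^ c) (pow_pos hp.pos c)
  obtain ⟨D, hD⟩ : ∃ D : ℚ, D = z.sum fun X q => q * dtr F X := ⟨_, rfl⟩
  obtain ⟨D', hD'⟩ : ∃ D' : ℚ, D' = z.sum fun X q => q * dtr (powF p F) X := ⟨_, rfl⟩
  rw [← hD, ← hD']
  have hpR : (0 : ℝ) < p := by exact_mod_cast hp.pos
  have hp1 : (1 : ℝ) < p := by exact_mod_cast hp.one_lt
  -- the main estimate
  have key : ∀ k : ℕ, ‖((p : ℚ_[p]) ^ (b + c * (n + 2)) * ((D : ℚ_[p]) - (D' : ℚ_[p])))‖ ≤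
      (∑ X ∈ z.support, ‖((z X : ℚ) : ℚ_[p])‖) * (p : ℝ) ^ (-(k + 1 : ℤ)) := by
    intro k
    have hN : 0 < p ^ (k + 1) := pow_pos hp.pos _
    have hN' : 0 < p ^ k := pow_pos hp.pos _
    obtain ⟨φ, hφ⟩ : ∃ φ, φ = evA (p ^ (k + 1)) (p ^ c) F s := ⟨_, rfl⟩
    have htr := hrtr G (n + 2) (p ^ (k + 1)) (p ^ c) F s hN hFinv hFbas hs
      (fun Y y hY ha => by
        obtain ⟨a, ha⟩ := ha
        exact hrgd G p (k + 1) c hp Y y hY (hFroot a y ha))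
    rw [← hφ] at htr
    obtain ⟨s', hs', hpw⟩ := hrpw G (n + 2) (p ^ k) p (p ^ c) F s hp.pos hs.inv
    obtain ⟨η, hη, hηs⟩ := hrsc G (n + 1) (p ^ (k + 1)) 1 (p ^ c) F s hN (pow_pos hp.pos c)
      hFinv hFcoc (fun t a y => by
        have := hFbas t a y
        simpa only [pow_one] using this) hs.inv
    obtain ⟨η', hη', hηs'⟩ := hrsc G (n + 1) (p ^ k) p (p ^ c) (powF p F) s' hN' (pow_pos hp.pos c)
      (powF_inv p hFinv) (fun a y => hFcoc a (y ^ p)) (fun t a y => hFbas t a (y ^ p)) hs'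
    have e1 := sum_val (p := p) hden hdeq F hFinv (p ^ (k + 1)) hN _ η hη hηs z hz
    have e2 := sum_val (p := p) hden hdeq (powF p F) (powF_inv p hFinv) (p ^ k) hN' _ η' hη' hηs'
      z hz
    rw [← hD, ← hφ] at e1
    rw [← hD'] at e2
    have hφp : (fun μ : Rec G (Fin (n + 2)) => φ (μ ^ p)) = evA (p ^ k) (p ^ c) (powF p F) s' := by
      funext μ
      rw [hφ, ← hpw μ, pow_succ']
    have hstep : ∀ X ∈ z.support, ‖(p : ℚ_[p]) ^ (b + c * (n + 2)) *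
        (TX φ (p ^ (k + 1)) (fun j => zU ℚ_[p] (X j)) -
          TX (evA (p ^ k) (p ^ c) (powF p F) s') (p ^ k) (fun j => zU ℚ_[p] (X j)))‖ ≤
        (p : ℝ) ^ (-(k + 1 : ℤ)) := by
      intro X hX
      have h1 := hrsg G (n + 1) p k T0 hT0len (fun μ => (p : ℚ) ^ (b + c * (n + 2)) * φ μ)
        (fun μ ν => by
          show (p : ℚ) ^ (b + c * (n + 2)) * φ (μ * ν) = (p : ℚ) ^ (b + c * (n + 2)) * φ (ν * μ)
          rw [htr μ ν])
        (fun μ => by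
          have := evA_den hp (p ^ (k + 1)) F hFden s μ
          rw [← hφ] at this
          exact this) (Fin r)
        (fun j => zU ℚ_[p] (X j)) (fun i => BFL.niu_zU (X i)) (hUS X hX)
      rw [(t_TXlin ℚ_[p] G (Fin r) (n + 2) (p ^ (k + 1)) (fun j => zU ℚ_[p] (X j))).2,
        (t_TXlin ℚ_[p] G (Fin r) (n + 2) (p ^ k) (fun j => zU ℚ_[p] (X j))).2
          ((p : ℚ) ^ (b + c * (n + 2))) (fun μ => φ (μ ^ p)), hφp, ← mul_sub] at h1
      push_cast at h1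
      exact h1
    have e3 : (p : ℚ_[p]) ^ (b + c * (n + 2)) * ((D : ℚ_[p]) - (D' : ℚ_[p])) =
        ∑ X ∈ z.support, ((z X : ℚ) : ℚ_[p]) * ((p : ℚ_[p]) ^ (b + c * (n + 2)) *
        (TX φ (p ^ (k + 1)) (fun j => zU ℚ_[p] (X j)) -
          TX (evA (p ^ k) (p ^ c) (powF p F) s') (p ^ k) (fun j => zU ℚ_[p] (X j)))) := by
      rw [← e1, ← e2, ← Finset.sum_sub_distrib, Finset.mul_sum]
      refine Finset.sum_congr rfl fun X _ => ?_
      ring
    rw [e3]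
    refine (norm_sum_le _ _).trans ?_
    rw [Finset.sum_mul]
    refine Finset.sum_le_sum fun X hX => ?_
    rw [norm_mul]
    exact mul_le_mul_of_nonneg_left (hstep X hX) (norm_nonneg _)
  -- the limit
  have hlim : ‖((p : ℚ_[p]) ^ (b + c * (n + 2)) * ((D : ℚ_[p]) - (D' : ℚ_[p])))‖ ≤ 0 := by
    have h1 : Filter.Tendsto (fun k : ℕ => (∑ X ∈ z.support, ‖((z X : ℚ) : ℚ_[p])‖) *
        (p : ℝ) ^ (-(k + 1 : ℤ))) Filter.atTop (nhds 0) := by
      have h2 : Filter.Tendsto (fun k : ℕ => ((p : ℝ)⁻¹) ^ (k + 1)) Filter.atTop (nhds 0) :=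
        (tendsto_pow_atTop_nhds_zero_of_lt_one (inv_nonneg.2 hpR.le)
          (inv_lt_one_of_one_lt₀ hp1)).comp (Filter.tendsto_add_atTop_nat 1)
      have h3 := h2.const_mul (∑ X ∈ z.support, ‖((z X : ℚ) : ℚ_[p])‖)
      rw [mul_zero] at h3
      refine h3.congr fun k => ?_
      congr 1
      rw [inv_pow, _root_.zpow_neg]
      congr 1
    exact ge_of_tendsto' h1 key
  have h4 : (p : ℚ_[p]) ^ (b + c * (n + 2)) * ((D : ℚ_[p]) - (D' : ℚ_[p])) = 0 :=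
    norm_le_zero_iff.1 hlim
  have hp0 : (p : ℚ_[p]) ≠ 0 := by exact_mod_cast hp.ne_zero
  rcases mul_eq_zero.1 h4 with h5 | h5
  · exact absurd h5 (pow_ne_zero _ hp0)
  · exact Rat.cast_injective (sub_eq_zero.1 h5)

end Pool.Agent.FJA
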