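import Pool.Agent.FJA.StY
import Pool.Agent.FJA.P_EVS

/-!
# RPW: the average at a power
-/

set_option autoImplicit false

noncomputable section

namespace Pool.Agent.FJA

namespace RPW

theorem powL_length {Γ : Type} [Group Γ] (e : ℕ) (Y : List Γ) (y : Γ) :
    (powL e Y y).length = e * Y.length := by
  induction e with
  | zero => simp [EVS.powL_zero]
  | succ e ih =>
    rw [EVS.powL_succ, List.length_append, ih, List.length_map]
    ring

end RPW

theorem t_RPW : S_RPW := by
  intro Γ _ M N p Q F s hp hs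
  refine ⟨fun Y y J => s (powL p Y y) (y ^ p) J, ?_, ?_⟩
  · intro γ Y y hY
    obtain ⟨π, t, h⟩ := hs γ (powL p Y y) (y ^ p) ((EVS.powL_ne p hp Y y).2 hY)
    refine ⟨π, t, fun J => ?_⟩
    have h1 := h J
    rw [pow_one] at h1
    show s (powL p (Y.map (γ * ·)) (γ * y * γ⁻¹)) ((γ * y * γ⁻¹) ^ p) J = _
    rw [EVS.powL_map, conj_pow]
    exact h1
  · intro μ
    have hc : (∀ i, ((μ ^ p).lst i).length = p * N) ↔ ∀ i, (μ.lst i).length = N := by
      refine forall_congr' fun i => ?_
      rw [EVS.pow_lst, RPW.powL_length]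
      exact Nat.mul_right_inj hp.ne'
    unfold evA powF
    by_cases h : ∀ i, (μ.lst i).length = N
    · rw [if_pos (hc.2 h), if_pos h]
      simp only [EVS.pow_lst, EVS.pow_val]
    · rw [if_neg fun h' => h (hc.1 h'), if_neg h]

end Pool.Agent.FJA
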