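import Pool.Agent.FJA.StY
import Pool.Agent.FJA.P_SCQ

/-!
# RSC: the section and the first recorded positions, for sections with several values
-/

set_option autoImplicit false

open Matrix

namespace Pool.Agent.FJA

namespace RSC

open SCF

variable {Γ : Type} [Group Γ]

/-- The pairs (value of the section, first position). -/
def vj {V : Type} {Q : ℕ} (s : List Γ → Γ → Fin Q → Γ) (μ : Rec Γ V) (J : V → Fin Q) (i : V) :
    Γ × Γ :=
  (s (μ.lst i) μ.val (J i), (μ.lst i).headD 1)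

/-- The function. -/
noncomputable def eta {M : ℕ} (N Q : ℕ) (F : (Fin (M + 1) → Γ) → Γ → ℚ)
    (s : List Γ → Γ → Fin Q → Γ) (μ : Rec Γ (Fin M)) : ℚ := by
  classical
  exact if ∀ i, (μ.lst i).length = N then
    ((Q : ℚ) ^ M)⁻¹ * ∑ J : Fin M → Fin Q, EE F μ.val (vj s μ J) else 0

/-- a sum over all maps of a function which does not depend on one value -/
theorem sum_omit {M Q : ℕ} (i : Fin (M + 1)) (g : (Fin M → Fin Q) → ℚ) :
    ∑ J : Fin (M + 1) → Fin Q, g (fun j => J (i.succAbove j)) =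
      (Q : ℚ) * ∑ J : Fin M → Fin Q, g J := by
  rw [← Equiv.sum_comp (Fin.insertNthEquiv (fun _ => Fin Q) i)
    (fun J => g (fun j => J (i.succAbove j)))]
  rw [Fintype.sum_prod_type]
  simp only [Fin.insertNthEquiv_apply, Fin.insertNth_apply_succAbove]
  rw [Finset.sum_const, Finset.card_univ, Fintype.card_fin, nsmul_eq_mul]

theorem step {M N Q : ℕ} (hN : 0 < N) (hQ : 0 < Q) {F : (Fin (M + 1) → Γ) → Γ → ℚ}
    (s : List Γ → Γ → Fin Q → Γ) (hF : FCoc F)
    (μ : Rec Γ (Fin (M + 1))) (hμ : ∀ i, (μ.lst i).length = N) :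
    evA N Q F s μ = fst F μ +
      ∑ i : Fin (M + 1), (-1 : ℚ) ^ (i : ℕ) * eta N Q F s (Rec.res i.succAbove μ) := by
  classical
  have hQ0 : (Q : ℚ) ≠ 0 := by exact_mod_cast hQ.ne'
  have h1 : evA N Q F s μ = ((Q : ℚ) ^ (M + 1))⁻¹ *
      ∑ J : Fin (M + 1) → Fin Q, F (fun i => (vj s μ J i).1) μ.val := by
    unfold evA
    rw [if_pos hμ]
    rfl
  have h2 : ∀ J : Fin (M + 1) → Fin Q, fst F μ = F (fun i => (vj s μ J i).2) μ.val := by
    intro J
    unfold fst
    rw [if_pos fun i h => ?_]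
    · rfl
    · have := hμ i
      rw [h, List.length_nil] at this
      omega
  have h3 := fun J : Fin (M + 1) → Fin Q => prism_coc μ.val (fun a => hF a μ.val) (vj s μ J)
  have h4 : ∀ i : Fin (M + 1), eta N Q F s (Rec.res i.succAbove μ) =
      ((Q : ℚ) ^ (M + 1))⁻¹ * ∑ J : Fin (M + 1) → Fin Q,
        EE F μ.val (fun j => vj s μ J (i.succAbove j)) := by
    intro i
    have h5 : ∀ j, ((Rec.res i.succAbove μ).lst j).length = N := fun j => hμ _
    unfold eta
    rw [if_pos h5]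
    have h6 := sum_omit (Q := Q) i (fun J => EE F μ.val (vj s (Rec.res i.succAbove μ) J))
    have h7 : ∑ J : Fin (M + 1) → Fin Q, EE F μ.val (fun j => vj s μ J (i.succAbove j)) =
        (Q : ℚ) * ∑ J : Fin M → Fin Q, EE F μ.val (vj s (Rec.res i.succAbove μ) J) := h6
    have h8 : (Rec.res i.succAbove μ).val = μ.val := rfl
    rw [h7, h8, pow_succ, mul_inv, mul_assoc, inv_mul_cancel_left₀ hQ0]
  have h5 : ∀ J : Fin (M + 1) → Fin Q, F (fun i => (vj s μ J i).1) μ.val = fst F μ +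
      ∑ i : Fin (M + 1), (-1 : ℚ) ^ (i : ℕ) *
        EE F μ.val (fun j => vj s μ J (i.succAbove j)) := by
    intro J
    rw [← h3 J, ← h2 J]
    ring
  rw [h1, Finset.sum_congr rfl fun J _ => h5 J, Finset.sum_add_distrib, Finset.sum_const,
    Finset.card_univ, Fintype.card_fun, Fintype.card_fin, Fintype.card_fin, nsmul_eq_mul, mul_add]
  congr 1
  · rw [Nat.cast_pow, inv_mul_cancel_left₀ (pow_ne_zero _ hQ0)]
  · rw [Finset.sum_comm, Finset.mul_sum]
    refine Finset.sum_congr rfl fun i _ => ?_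
    rw [h4 i, ← Finset.mul_sum]
    ring

theorem eta_cj {M N q Q : ℕ} (hN : 0 < N) {F : (Fin (M + 1) → Γ) → Γ → ℚ}
    {s : List Γ → Γ → Fin Q → Γ} (hinv : FInv F)
    (hb : ∀ (t : Fin (M + 1) → ℤ) (a : Fin (M + 1) → Γ) (y : Γ),
      F (fun i => (y ^ q) ^ t i * a i) y = F a y)
    (hs : SecI q Q s) : CjInv (eta N Q F s) := by
  classical
  intro γ μ
  have hl1 : ∀ i, (Rec.inc γ * μ).lst i = (μ.lst i).map (γ * ·) := by
    intro i
    simp
  have hl2 : ∀ i, (μ * Rec.inc γ).lst i = μ.lst i := by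
    intro i
    simp
  have hv1 : (Rec.inc γ * μ).val = γ * (μ.val * γ) * γ⁻¹ := by
    simp [mul_assoc]
  have hv2 : (μ * Rec.inc γ).val = μ.val * γ := by simp
  unfold eta
  have hiff : (∀ i, ((Rec.inc γ * μ).lst i).length = N) ↔
      (∀ i, ((μ * Rec.inc γ).lst i).length = N) := by
    simp only [hl1, hl2, List.length_map]
  by_cases h : ∀ i, ((μ * Rec.inc γ).lst i).length = N
  · rw [if_pos h, if_pos (hiff.2 h)]
    have hne : ∀ i, μ.lst i ≠ [] := fun i h0 => by
      have := h i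
      rw [hl2, h0, List.length_nil] at this
      omega
    have hsec : ∀ i, ∃ (π : Equiv.Perm (Fin Q)) (t : Fin Q → ℤ), ∀ J,
        s ((μ.lst i).map (γ * ·)) (γ * (μ.val * γ) * γ⁻¹) J =
          γ * (((μ.val * γ) ^ q) ^ t J * s (μ.lst i) (μ.val * γ) (π J)) :=
      fun i => hs γ (μ.lst i) (μ.val * γ) (hne i)
    choose π t hπ using hsec
    congr 1
    refine Fintype.sum_equiv (Equiv.piCongrRight π) _ _ fun J => ?_
    unfold EE
    refine Finset.sum_congr rfl fun j _ => ?_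
    congr 1
    have h1 : ∀ l, ∃ e : ℤ, (vj s (Rec.inc γ * μ) J l).2 =
        γ * (((μ.val * γ) ^ q) ^ e *
          (vj s (μ * Rec.inc γ) (Equiv.piCongrRight π J) l).2) := by
      intro l
      refine ⟨0, ?_⟩
      unfold vj
      rw [hl1, hl2, zpow_zero, one_mul]
      obtain ⟨a, t, hat⟩ := List.exists_cons_of_ne_nil (hne l)
      rw [hat]
      rfl
    have h2 : ∀ l, ∃ e : ℤ, (vj s (Rec.inc γ * μ) J l).1 =
        γ * (((μ.val * γ) ^ q) ^ e *
          (vj s (μ * Rec.inc γ) (Equiv.piCongrRight π J) l).1) := by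
      intro l
      refine ⟨t l (J l), ?_⟩
      unfold vj
      rw [hl1, hl2, hv1, hv2]
      exact hπ l (J l)
    have h3 : ∀ i, ∃ e : ℤ, mix Prod.snd Prod.fst (vj s (Rec.inc γ * μ) J) j i =
        γ * (((μ.val * γ) ^ q) ^ e *
          mix Prod.snd Prod.fst (vj s (μ * Rec.inc γ) (Equiv.piCongrRight π J)) j i) := by
      intro i
      unfold mix
      split_ifs
      · exact h1 _
      · exact h2 _
    choose e he using h3
    have h4 : mix Prod.snd Prod.fst (vj s (Rec.inc γ * μ) J) j =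
        fun i => γ * (((μ.val * γ) ^ q) ^ e i *
          mix Prod.snd Prod.fst (vj s (μ * Rec.inc γ) (Equiv.piCongrRight π J)) j i) :=
      funext he
    rw [h4, hv1, hv2, hinv γ (fun i => ((μ.val * γ) ^ q) ^ e i *
      mix Prod.snd Prod.fst (vj s (μ * Rec.inc γ) (Equiv.piCongrRight π J)) j i), hb e]
  · rw [if_neg h, if_neg (mt hiff.1 h)]

end RSC

theorem t_RSC : S_RSC := by
  intro Γ _ M N q Q F s hN hQ hinv hF hb hs
  refine ⟨RSC.eta N Q F s, RSC.eta_cj hN hinv hb hs, ?_⟩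
  intro k _ _ ι _ _ X
  have h1 : TX (evA N Q F s) N X = TX (fun μ => fst F μ +
      ∑ i : Fin (M + 1), (-1 : ℚ) ^ (i : ℕ) * RSC.eta N Q F s (Rec.res i.succAbove μ)) N X := by
    refine t_TXlen k Γ ι (M + 1) N _ _ X fun μ hμ => ?_
    exact RSC.step hN hQ s hF μ hμ
  have h2 : ∀ S : Finset (Fin (M + 1)), TX (fun μ : Rec Γ (Fin (M + 1)) =>
      ∑ i ∈ S, (-1 : ℚ) ^ (i : ℕ) * RSC.eta N Q F s (Rec.res i.succAbove μ)) N X =
      ∑ i ∈ S, (-1 : k) ^ (i : ℕ) * TX (RSC.eta N Q F s) N (fun t => X (i.succAbove t)) := by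
    intro S
    induction S using Finset.induction_on with
    | empty =>
      have h3 := (t_TXlin k Γ ι (M + 1) N X).2 0 (fun _ => 0)
      simp only [Finset.sum_empty]
      simpa using h3
    | insert a S ha ih =>
      simp only [Finset.sum_insert ha]
      rw [(t_TXlin k Γ ι (M + 1) N X).1, ih, (t_TXlin k Γ ι (M + 1) N X).2,
        t_TXfac k Γ ι M N (RSC.eta N Q F s) a X]
      push_cast
      rfl
  rw [h1, (t_TXlin k Γ ι (M + 1) N X).1, h2 Finset.univ]
  ring

end Pool.Agent.FJA
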