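import Pool.Agent.FJA.StY
import Pool.Agent.FJA.P_STQ

/-!
# RSG: the Gauss congruence for all powers, for functions with integral values at a prime
-/

set_option autoImplicit false

open Matrix Pool.Agent.WhK Pool.Agent.Lib25

noncomputable section

namespace Pool.Agent.FJA

open STQ Step7

theorem t_RSG : S_RSG := by
  intro Γ _ M ℓ k _ T hT φ htr hint ι _ _ X hX hS
  have hℓ : ℓ.Prime := Fact.out
  obtain ⟨D, hD, hDz⟩ := exists_den hℓ T hT (ℓ ^ (k + 1)) φ hint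
  have hst := step t_SUP (Submonoid.closure (T : Set (Rec Γ (Fin (M + 1))))) k
    (fun μ => (D : ℚ) * φ μ) (fun μ _ ν _ => by rw [htr μ ν])
    (fun μ hμ hl => hDz μ hμ hl) X hX
    (fun a b μ h => Submonoid.subset_closure (Finset.mem_coe.2 (hS a b μ h)))
  rw [TX_smul, TX_smul (k := ℚ_[ℓ]) (ℓ ^ k) X (D : ℚ) (fun μ => φ (μ ^ ℓ)), ← mul_sub, norm_mul]
    at hst
  have h1 : ‖(((D : ℚ) : ℚ) : ℚ_[ℓ])‖ = 1 := by
    rw [Rat.cast_natCast]
    exact Padic.norm_natCast_eq_one_iff.2 (hℓ.coprime_iff_not_dvd.2 hD)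
  rw [h1, one_mul] at hst
  exact hst

end Pool.Agent.FJA
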