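import Pool.Agent.FJA.StY

/-!
# RT0: the value of an admissible family on a cycle is zero
-/

set_option autoImplicit false

open Matrix Pool.Agent.WhK Pool.Agent.Lib25

noncomputable section

namespace Pool.Agent.FJA

namespace RT0

variable {G : Type} [Group G]

/-- The functional of a sum of two families. -/
lemma dtr_add (hdeq : S_DEQ) {n r : ℕ} (F1 F2 : (Fin (n + 1) → G) → G → ℚ)
    (X : Fin (n + 1) → (Matrix (Fin r) (Fin r) (MonoidAlgebra ℤ G))ˣ) :
    dtr (fun a y => F1 a y + F2 a y) X = dtr F1 X + dtr F2 X := by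
  have h := hdeq.2.1 G n r (Fin 2) Finset.univ (fun i => if i = 0 then F1 else F2) X
  simpa [Fin.sum_univ_two] using h

/-- The functional of the zero family. -/
lemma dtr_zero {n r : ℕ} (F : (Fin (n + 1) → G) → G → ℚ) (hF : ∀ a y, F a y = 0)
    (X : Fin (n + 1) → (Matrix (Fin r) (Fin r) (MonoidAlgebra ℤ G))ˣ) : dtr F X = 0 := by
  have h : F = fun _ _ => 0 := by
    funext a y
    exact hF a y
  subst h
  simp [dtr]

end RT0

theorem t_RT0 (hrmn : S_RMN) (hrav : S_RAV) (hcob : S_COB) (hdeq : S_DEQ) : S_RT0 := by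
  intro G _ n p c
  induction c with
  | zero =>
    intro b hp F _ _ _ _ hroot r z _
    have h0 : ∀ a y, F a y = 0 := by
      intro a y
      by_contra h
      exact hroot a y h y (by simp)
    rw [Finsupp.sum]
    refine Finset.sum_eq_zero fun X _ => ?_
    rw [RT0.dtr_zero F h0 X, mul_zero]
  | succ c ih =>
    intro b hp F hinv hcoc hbas hden hroot r z hz
    haveI : Fact p.Prime := ⟨hp⟩
    rw [hrmn G n p b (c + 1) F hinv hcoc hbas hden hroot r z hz]
    obtain ⟨F', E, hinv', hcoc', hbas', hden', hzero, hE, hdec⟩ :=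
      hrav G n p b hp F hinv hcoc hbas hden
    have hF : powF p F = fun a y => F' a y + cobE (fun b => E b y) a := by
      funext a y
      exact hdec a y
    have hroot' : FRoot p c F' := by
      intro a y hne δ hδ
      have hex : ∃ a', F a' (y ^ p) ≠ 0 := by
        by_contra hno
        push Not at hno
        exact hne (hzero y hno a)
      obtain ⟨a', ha'⟩ := hex
      refine hroot a' (y ^ p) ha' δ ?_
      rw [pow_succ, pow_mul, hδ]
    have h1 := ih (b + (n + 2)) hp F' hinv' hcoc' hbas' hden' hroot' r z hz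
    have h2 := hcob G n E hE r z hz
    rw [Finsupp.sum] at h1 h2 ⊢
    have h3 : ∀ X ∈ z.support, z X * dtr (powF p F) X =
        z X * dtr F' X + z X * dtr (fun (a : Fin (n + 2) → G) y => cobE (fun b => E b y) a) X := by
      intro X _
      rw [hF, RT0.dtr_add hdeq, mul_add]
    rw [Finset.sum_congr rfl h3, Finset.sum_add_distrib, h1, h2, add_zero]

end Pool.Agent.FJA
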