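import Pool.Agent.FJA.StY
import Pool.Agent.FJA.P_TRB

/-!
# Module RTB: the Dennis trace and the class of `1`, families with the condition on roots
-/

set_option autoImplicit false

open Matrix Pool.Agent.WhK Pool.Agent.Lib25

noncomputable section

namespace Pool.Agent.FJA

namespace RTB

open TRB

variable {G : Type} [Group G]

/-- The conditions `AdmR`, with invariance under the powers of `y` in the second case. -/
def AdmR2 (n : ℕ) (y : G) (f : (Fin (n + 1) → G) → ℚ) : Prop :=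
  f = 0 ∨
  (RootC ℤ y f ∧ ∀ (t : Fin (n + 1) → ℤ) (a : Fin (n + 1) → G), f (fun i => y ^ t i * a i) = f a) ∨
  (n ≤ 3 ∧ IsOfFinOrder y ∧ ∃ m : ℕ, m ≠ 0 ∧ ∀ a, (f a).den ∣ m) ∨
  (∀ V : Finset G, {p : ℕ | p.Prime ∧ (∀ a, ¬ p ∣ (f a).den) ∧
    (∀ g : G, g * y ^ p = y ^ p * g → g * y = y * g) ∧
    ∀ z ∈ V, ¬ IsConj z (y ^ p) ∧ (IsConj (z ^ p) (y ^ p) → IsConj z y)}.Infinite) ∨
  ((∀ (t : Fin (n + 1) → ℤ) (a : Fin (n + 1) → G), f (fun i => y ^ t i * a i) = f a) ∧
    ∀ V : Finset G, {p : ℕ | p.Prime ∧ (∀ a, ¬ p ∣ (f a).den) ∧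
      ∀ z ∈ V, ¬ IsConj (z ^ p) y}.Infinite)

omit [Group G] in
lemma cobE_add {n : ℕ} (E E' : (Fin n → G) → ℚ) (a : Fin (n + 1) → G) :
    cobE (fun b => E b + E' b) a = cobE E a + cobE E' a := by
  unfold cobE
  rw [← Finset.sum_add_distrib]
  exact Finset.sum_congr rfl fun i _ => by ring

/-- One may assume the second case of `AdmR` in the form of `AdmR2`. -/
lemma adm_norm (hrba : S_RBA) {n : ℕ} {y : G} {f : (Fin (n + 1) → G) → ℚ} (h : AdmRAt n y f) :
    ∃ (f' : (Fin (n + 1) → G) → ℚ) (E : (Fin n → G) → ℚ), CInv y f' ∧ CInv y E ∧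
      (∀ a : Fin (n + 2) → G, cobE f' a = 0) ∧ (∀ a, f a = f' a + cobE E a) ∧ AdmR2 n y f' := by
  obtain ⟨f', E, hf, hE, hc, hfE, had⟩ := h
  rcases had with h0 | ⟨hR, hfo | hb⟩ | h3 | h4 | h5
  · exact ⟨f', E, hf, hE, hc, hfE, Or.inl h0⟩
  · obtain ⟨f1, E1, hf1, hE1, hc1, hfE1, hR1, hb1⟩ := hrba G n y f' hfo hf hc hR
    refine ⟨f1, fun b => E1 b + E b, hf1, ?_, hc1, ?_, Or.inr (Or.inl ⟨hR1, hb1⟩)⟩
    · intro g a hg
      show E1 _ + E _ = _
      rw [hE1 g a hg, hE g a hg]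
    · intro a
      rw [hfE, hfE1, cobE_add]
      ring
  · exact ⟨f', E, hf, hE, hc, hfE, Or.inr (Or.inl ⟨hR, hb⟩)⟩
  · exact ⟨f', E, hf, hE, hc, hfE, Or.inr (Or.inr (Or.inl h3))⟩
  · exact ⟨f', E, hf, hE, hc, hfE, Or.inr (Or.inr (Or.inr (Or.inl h4)))⟩
  · exact ⟨f', E, hf, hE, hc, hfE, Or.inr (Or.inr (Or.inr (Or.inr h5)))⟩

/-- If `p ^ b` does not divide the denominator of `q` then `p ^ b * q` has a denominator prime to `p`. -/
lemma den_pow {p b : ℕ} (hp : p.Prime) {q : ℚ} (h : ¬ p ^ b ∣ q.den) :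
    ¬ p ∣ ((p : ℚ) ^ b * q).den := by
  obtain ⟨j, d, hd, hq⟩ := Nat.exists_eq_pow_mul_and_not_dvd q.den_ne_zero p hp.ne_one
  have hj : j < b := by
    by_contra hj
    apply h
    rw [hq]
    exact Dvd.dvd.mul_right (pow_dvd_pow p (not_lt.1 hj)) d
  have hp0 : (p : ℚ) ≠ 0 := by exact_mod_cast hp.ne_zero
  have hd0 : (d : ℚ) ≠ 0 := by
    rintro h0
    have : d = 0 := by exact_mod_cast h0
    rw [this] at hd
    exact hd (dvd_zero p)
  have e : (p : ℚ) ^ b * q = (((p : ℤ) ^ (b - j) * q.num : ℤ) : ℚ) / ((d : ℤ) : ℚ) := by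
    rw [eq_div_iff (by exact_mod_cast hd0)]
    have h1 : (q.den : ℚ) = (p : ℚ) ^ j * d := by
      rw [hq]; push_cast; ring
    have h2 : q * q.den = q.num := Rat.mul_den_eq_num q
    rw [h1] at h2
    push_cast
    rw [← h2]
    have h3 : (p : ℚ) ^ b = (p : ℚ) ^ (b - j) * (p : ℚ) ^ j := by
      rw [← pow_add]; congr 1; omega
    rw [h3]; ring
  intro hdv
  have h4 : ((((p : ℚ) ^ b * q).den : ℕ) : ℤ) ∣ (d : ℤ) := by
    rw [e, ← Rat.divInt_eq_div]
    exact Rat.den_dvd _ _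
  exact hd (hdv.trans (Int.natCast_dvd_natCast.1 h4))

/-- A cocycle of the centralizer of `y0` which satisfies the conditions has the value zero. -/
lemma val_fam (htfq : S_TFQ) (hbfm : S_BFM) (hfwd : S_FWD) (hrt0 : S_RT0)
    (hpdg : ∀ n : ℕ, n ≤ 2 → ∀ (G : Type) [Group G], Pdg G n) {m r : ℕ}
    (z : (Fin (m + 1 + 1) → (Matrix (Fin r) (Fin r) (MonoidAlgebra ℤ G))ˣ) →₀ ℚ)
    (hz : z ∈ cyc ℚ ((Matrix (Fin r) (Fin r) (MonoidAlgebra ℤ G))ˣ) (m + 1))
    (y0 : G) (hy0 : y0 ≠ 1) {f : (Fin (m + 1 + 1) → G) → ℚ} (hf : CInv y0 f)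
    (hc : ∀ a : Fin (m + 1 + 2) → G, cobE f a = 0) (hadm : AdmR2 (m + 1) y0 f) :
    val z (fam y0 f) = 0 := by
  have hinv := fun g a x => fam_inv y0 hf g a x
  have hcoc := fun a x => fam_coc y0 hf hc a x
  have hsup : ∀ a y, fam y0 f a y ≠ 0 → IsConj y y0 := by
    intro a y h
    exact (isConj_iff.2 (fam_ne h)).symm
  have hden : ∀ p : ℕ, p.Prime → (∀ a, ¬ p ∣ (f a).den) → ∀ a y, ¬ p ∣ (fam y0 f a y).den := by
    intro p hp h a y
    rcases fam_val y0 f a y with h0 | ⟨b, hb⟩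
    · rw [h0]
      simpa using hp.one_lt.ne'
    · rw [hb]; exact h b
  have hbas : (∀ (t : Fin (m + 1 + 1) → ℤ) (a : Fin (m + 1 + 1) → G),
      f (fun i => y0 ^ t i * a i) = f a) → ∀ (t : Fin (m + 1 + 1) → ℤ) (a : Fin (m + 1 + 1) → G)
      (y : G), fam y0 f (fun i => y ^ t i * a i) y = fam y0 f a y := by
    intro hpow t a y
    by_cases hy : ∃ g : G, g * y0 * g⁻¹ = y
    · obtain ⟨g, rfl⟩ := hy
      rw [fam_conj y0 hf, fam_conj y0 hf, ← hpow t (fun i => g⁻¹ * a i)]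
      congr 1
      funext i
      rw [conj_zpow]
      simp only [mul_assoc, inv_mul_cancel_left]
    · rw [fam_neg y0 f _ hy, fam_neg y0 f _ hy]
  rcases hadm with h0 | ⟨⟨p, b, c, hp, _, hd, hroot⟩, hpow⟩ | ⟨hn3, hfo, D, hD0, hD⟩ | hfw | ⟨hpow, hbm⟩
  · refine val_zero z fun a y => ?_
    rcases fam_val y0 f a y with h1 | ⟨b, hb⟩
    · exact h1
    · rw [hb, h0]; rfl
  · refine hrt0 G m p c b hp (fam y0 f) hinv hcoc (hbas hpow) ?_ ?_ r z hz
    · intro a y
      rcases fam_val y0 f a y with h1 | ⟨a', hb⟩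
      · rw [h1]
        simpa using hp.one_lt.ne'
      · rw [hb]
        exact den_pow hp (hd a')
    · intro a y h δ hδ
      obtain ⟨g, rfl⟩ := fam_ne h
      apply hroot (g⁻¹ * δ * g)
      have e : (g⁻¹ * δ * g) ^ p ^ c = g⁻¹ * δ ^ p ^ c * g := by
        have := conj_pow (i := p ^ c) (a := g⁻¹) (b := δ)
        rw [inv_inv] at this
        exact this
      rw [e, hδ]
      group
  · have hpos : 0 < orderOf y0 := hfo.orderOf_pos
    have hne1 : orderOf y0 ≠ 1 := fun h => hy0 (orderOf_eq_one_iff.1 h)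
    have hG : GCoch (m + 1) (fun y => orderOf y = orderOf y0) (fam y0 f) := by
      refine ⟨hinv, hcoc, ?_, ?_⟩
      · intro a y h
        obtain ⟨g, rfl⟩ := fam_ne h
        have := orderOf_injective (MulAut.conj g).toMonoidHom (MulAut.conj g).injective y0
        simpa using this
      · refine ⟨D, Nat.pos_of_ne_zero hD0, ?_⟩
        intro a y
        rcases fam_val y0 f a y with h1 | ⟨b, hb⟩
        · exact ⟨0, by rw [h1]; simp⟩
        · obtain ⟨k, hk⟩ := hD b
          refine ⟨(k : ℤ) * (f b).num, ?_⟩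
          rw [hb, hk]
          push_cast
          have h2 : ((f b).den : ℚ) * f b = (f b).num := by
            rw [mul_comm]; exact Rat.mul_den_eq_num (f b)
          rw [mul_comm ((f b).den : ℚ) (k : ℚ), mul_assoc, h2]
    have hF2 : Fact (Nat.minFac (orderOf y0)).Prime := ⟨Nat.minFac_prime hne1⟩
    refine htfq G m (orderOf y0) hpos (Nat.minFac (orderOf y0)) (Nat.minFac_dvd _) ?_ _ hG
      r z hz
    intro n0 hn0 F' hF' B hB hB' e
    exact hpdg m (by omega) G n0 hn0 _ F' hF' B hB hB' e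
  · refine hfwd G m y0 _ hinv hcoc hsup ?_ r z hz
    intro V
    refine (hfw V).mono ?_
    rintro p ⟨hp, h1, h2, h3⟩
    exact ⟨hp, hden p hp h1, h2, h3⟩
  · refine hbfm G m y0 _ hinv hcoc hsup ?_ (hbas hpow) r z hz
    intro V
    refine (hbm V).mono ?_
    rintro p ⟨hp, h1, h2⟩
    exact ⟨hp, hden p hp h1, h2⟩

end RTB

open TRB in
open Classical in
/-- RTB: the Dennis trace of a cycle of matrices over `ℤ[G]` is the trace of a cycle of `G`, for families with the
condition on roots. -/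
theorem t_RTB (hdeq : S_DEQ) (htfq : S_TFQ) (hcob : S_COB) (hwoq : S_WOQ) (hbfm : S_BFM)
    (hfwd : S_FWD) (hrt0 : S_RT0) (hrba : S_RBA)
    (hpdg : ∀ n : ℕ, n ≤ 2 → ∀ (G : Type) [Group G], Pdg G n) : S_RTB := by
  intro G _ n r hn z hz
  obtain ⟨m, rfl⟩ : ∃ m, n = m + 1 := ⟨n - 1, by omega⟩
  obtain ⟨w, hw, hwF⟩ := hwoq G m r z hz
  refine ⟨w, hw, ?_⟩
  intro F hinv hadm
  obtain ⟨E0, hE0⟩ := hdeq.2.2.2.2 G (m + 1) r z
  -- representatives and decompositions
  let rp : ConjClasses G → G := fun C => (ConjClasses.exists_rep C).choose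
  have hrp : ∀ C, ConjClasses.mk (rp C) = C := fun C => (ConjClasses.exists_rep C).choose_spec
  have hrp1 : ∀ C, C ≠ ConjClasses.mk (1 : G) → rp C ≠ 1 := by
    intro C hC h
    apply hC
    rw [← hrp C, h]
  have hex : ∀ C : ConjClasses G, ∃ (f' : (Fin (m + 1 + 1) → G) → ℚ) (E : (Fin (m + 1) → G) → ℚ),
      C ≠ ConjClasses.mk (1 : G) → (CInv (rp C) f' ∧ CInv (rp C) E ∧
        (∀ a : Fin (m + 1 + 2) → G, cobE f' a = 0) ∧ (∀ a, F a (rp C) = f' a + cobE E a) ∧
        RTB.AdmR2 (m + 1) (rp C) f') := by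
    intro C
    by_cases hC : C = ConjClasses.mk (1 : G)
    · exact ⟨0, 0, fun h => absurd hC h⟩
    · obtain ⟨f', E, h⟩ := RTB.adm_norm hrba (hadm (rp C) (hrp1 C hC))
      exact ⟨f', E, fun _ => h⟩
  choose f' E hfE using hex
  -- the restriction to the class of `1`
  let F1 : (Fin (m + 1 + 1) → G) → G → ℚ := fun a y => if y = 1 then F a y else 0
  let s : Finset (ConjClasses G) :=
    insert (ConjClasses.mk (1 : G)) (E0.image fun y => ConjClasses.mk y)
  have h1s : ConjClasses.mk (1 : G) ∈ s := Finset.mem_insert_self _ _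
  let T : ConjClasses G → (Fin (m + 1 + 1) → G) → G → ℚ := fun C a y =>
    if C = ConjClasses.mk (1 : G) then F1 a y
    else fam (rp C) (f' C) a y + cobE (fun b => fam (rp C) (E C) b y) a
  have hT1 : T (ConjClasses.mk (1 : G)) = F1 := by
    funext a y
    exact if_pos rfl
  have hT2 : ∀ C, C ≠ ConjClasses.mk (1 : G) → T C = fun a y =>
      fam (rp C) (f' C) a y + cobE (fun b => fam (rp C) (E C) b y) a := by
    intro C hC
    funext a y
    exact if_neg hC
  have hcj : ∀ (C : ConjClasses G) (y : G), ConjClasses.mk y = C ↔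
      ∃ g : G, g * rp C * g⁻¹ = y := by
    intro C y
    constructor
    · intro h
      rw [← hrp C] at h
      exact isConj_iff.1 (ConjClasses.mk_eq_mk_iff_isConj.1 h).symm
    · intro h
      rw [← hrp C]
      exact (ConjClasses.mk_eq_mk_iff_isConj.2 (isConj_iff.2 h)).symm
  have hmk1 : ∀ y : G, ConjClasses.mk y = ConjClasses.mk (1 : G) ↔ y = 1 := by
    intro y
    constructor
    · intro h
      exact isConj_one_left.1 (ConjClasses.mk_eq_mk_iff_isConj.1 h)
    · rintro rfl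
      rfl
  have hTneg : ∀ (C : ConjClasses G) (a : Fin (m + 1 + 1) → G) (y : G),
      ConjClasses.mk y ≠ C → T C a y = 0 := by
    intro C a y hy
    by_cases hC : C = ConjClasses.mk (1 : G)
    · rw [hC, hT1]
      have : y ≠ 1 := fun h => hy (by rw [hC]; exact (hmk1 y).2 h)
      exact if_neg this
    · rw [hT2 C hC]
      have h : ¬ ∃ g : G, g * rp C * g⁻¹ = y := fun h => hy ((hcj C y).2 h)
      simp only [fam_neg (rp C) (f' C) a h, cob_fam_neg (rp C) (E C) a h, add_zero]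
  have hTpos : ∀ (a : Fin (m + 1 + 1) → G) (y : G), T (ConjClasses.mk y) a y = F a y := by
    intro a y
    by_cases hC : ConjClasses.mk y = ConjClasses.mk (1 : G)
    · rw [hC, hT1]
      exact if_pos ((hmk1 y).1 hC)
    · obtain ⟨hf, hE, hc, hFE, _⟩ := hfE _ hC
      rw [hT2 _ hC]
      obtain ⟨g, hg⟩ := (hcj (ConjClasses.mk y) y).1 rfl
      have e1 : fam (rp (ConjClasses.mk y)) (f' (ConjClasses.mk y)) a y =
          f' (ConjClasses.mk y) (fun i => g⁻¹ * a i) := by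
        have h := fam_conj _ hf a g
        rw [hg] at h
        exact h
      have e2 : cobE (fun b => fam (rp (ConjClasses.mk y)) (E (ConjClasses.mk y)) b y) a =
          cobE (E (ConjClasses.mk y)) (fun i => g⁻¹ * a i) := by
        rw [← cob_fam _ hE a g, hg]
      have e3 : F a y = F (fun i => g⁻¹ * a i) (rp (ConjClasses.mk y)) := by
        rw [← hinv g (fun i => g⁻¹ * a i) (rp (ConjClasses.mk y)), hg]
        congr 1
        funext i
        rw [mul_inv_cancel_left]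
      show fam (rp (ConjClasses.mk y)) (f' (ConjClasses.mk y)) a y +
        cobE (fun b => fam (rp (ConjClasses.mk y)) (E (ConjClasses.mk y)) b y) a = F a y
      rw [e1, e2, e3, hFE]
  have key : val z F = ∑ C ∈ s, val z (T C) := by
    rw [← val_sum hdeq z s T]
    unfold val
    refine Finset.sum_congr rfl fun X hX => ?_
    have h := hE0 F (fun a y => ∑ C ∈ s, T C a y) ?_ X hX
    · simp only [h]
    · intro y hy a
      have hmem : ConjClasses.mk y ∈ s :=
        Finset.mem_insert_of_mem (Finset.mem_image_of_mem _ hy)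
      rw [Finset.sum_eq_single_of_mem _ hmem fun C _ hC => hTneg C a y (fun h => hC h.symm)]
      exact (hTpos a y).symm
  have hzero : ∀ C ∈ s, C ≠ ConjClasses.mk (1 : G) → val z (T C) = 0 := by
    intro C _ hC
    obtain ⟨hf, hE, hc, hFE, had⟩ := hfE _ hC
    rw [hT2 C hC, val_add hdeq z (fam (rp C) (f' C))
      (fun a y => cobE (fun b => fam (rp C) (E C) b y) a)]
    have e1 := RTB.val_fam htfq hbfm hfwd hrt0 hpdg z hz (rp C) (hrp1 C hC) hf hc had
    have e2 : val z (fun a y => cobE (fun b => fam (rp C) (E C) b y) a) = 0 :=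
      hcob G m (fam (rp C) (E C)) (fun g a x => fam_inv (rp C) hE g a x) r z hz
    rw [e1, e2, add_zero]
  have h1 : val z F = val z F1 := by
    rw [key, Finset.sum_eq_single_of_mem _ h1s hzero, hT1]
  have h2 := hwF F1 (fun a y h => by
    by_contra hy
    exact h (if_neg hy))
  have h3 : (w.sum fun a q => q * F1 a 1) = w.sum fun a q => q * F a 1 :=
    Finset.sum_congr rfl fun a _ => by
      have : F1 a 1 = F a 1 := if_pos rfl
      simp only [this]
  exact (h1.trans h2).trans h3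

end Pool.Agent.FJA
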