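import Pool.Agent.FJA.StY

/-!
# Module RTC: the theorem for general families, from the theorem for finitely generated groups
-/

set_option autoImplicit false

open Matrix Pool.Agent.WhK Pool.Agent.Lib25

noncomputable section

namespace Pool.Agent.FJA

theorem RTC.sum_hmap {V V' : Type} (f : V → V') (m : ℕ) (z : (Fin m → V) →₀ ℚ)
    (φ : (Fin m → V') → ℚ) :
    ((hmap ℚ f m z).sum fun X q => q * φ X) = z.sum fun X q => q * φ (fun i => f (X i)) := by
  unfold hmap
  rw [Finsupp.lmapDomain_apply, Finsupp.sum_mapDomain_index]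
  · intro b
    rw [zero_mul]
  · intro b m1 m2
    rw [add_mul]

/-- RTC. -/
theorem t_RTC (hfgs : S_FGS) (hnat : S_NAT) (hrtb : S_RTB) : S_RTC := by
  intro G _ n r hn z hz
  obtain ⟨m, rfl⟩ : ∃ m, n = m + 1 := ⟨n - 1, by omega⟩
  obtain ⟨H, hH, z', hz', rfl⟩ := hfgs G m r z hz
  obtain ⟨w', hw', key⟩ := hrtb H (m + 1) r hn z' hz'
  refine ⟨hmap ℚ (fun h : H => (h : G)) (m + 2) w', hnat.2 G H (m + 1) w' hw', ?_⟩
  intro F hF
  have h1 := key (fun (a : Fin (m + 2) → H) (y : H) => F (fun i => (a i : G)) (y : G))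
    (fun g a y => by
      have := hF.1 (g : G) (fun i => (a i : G)) (y : G)
      simpa using this)
    (fun y hy => hF.2 H hH y hy)
  rw [RTC.sum_hmap, RTC.sum_hmap]
  have h2 : (z'.sum fun X q => q * dtr F fun i => (glZ H.subtype) (X i)) =
      z'.sum fun X q => q * dtr (fun (a : Fin (m + 2) → H) (y : H) =>
        F (fun i => (a i : G)) (y : G)) X := by
    refine Finsupp.sum_congr fun X _ => ?_
    rw [hnat.1 G H (m + 1) r F X]
  rw [h2, h1]
  rfl

end Pool.Agent.FJA
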