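import Pool.Agent.FJA.StY
import Pool.Agent.FJA.P_TRF

/-!
# Module RTR: `evA` is a trace function
-/

set_option autoImplicit false

namespace Pool.Agent.FJA

namespace RTR

variable {Γ : Type} [Group Γ]

theorem len_rot (y : Γ) (Y : List Γ) : (rotL y Y).length = Y.length := by
  cases Y with
  | nil => rfl
  | cons a Y => simp [rotL]

theorem len_iter (y : Γ) (Y : List Γ) (n : ℕ) : ((rotL y)^[n] Y).length = Y.length := by
  induction n with
  | zero => rfl
  | succ n ih => rw [Function.iterate_succ_apply', len_rot, ih]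

/-- the section at a rotated list -/
theorem sec_iter {Q N : ℕ} {s : List Γ → Γ → Fin Q → Γ} (hs : SecA Q s) {y : Γ}
    (hg : ∀ Y : List Γ, Y.length = N → GoodC Q Y y) {Y : List Γ} (hY : Y.length = N) (n : ℕ) :
    ∃ (π : Equiv.Perm (Fin Q)) (t : Fin Q → ℤ), ∀ J,
      s ((rotL y)^[n] Y) y J = y ^ t J * s Y y (π J) := by
  induction n with
  | zero => exact ⟨1, fun _ => 0, fun J => by simp⟩
  | succ n ih =>
    obtain ⟨π, t, ht⟩ := ih
    obtain ⟨π', t', ht'⟩ := hs.rot ((rotL y)^[n] Y) y (hg _ (by rw [len_iter, hY]))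
    refine ⟨π'.trans π, fun J => t' J + t (π' J), fun J => ?_⟩
    rw [Function.iterate_succ_apply', ht', ht, zpow_add, mul_assoc]
    rfl

/-- the section at the lists of the product in the other order -/
theorem sec_mul {V : Type} {N Q : ℕ} (hN : 0 < N) {s : List Γ → Γ → Fin Q → Γ} (hs : SecA Q s)
    {μ ν : Rec Γ V} (i : V) (hl : ((μ * ν).lst i).length = N)
    (hl' : ((ν * μ).lst i).length = N)
    (hg : ∀ Y : List Γ, Y.length = N → GoodC Q Y (μ * ν).val) :
    ∃ (π : Equiv.Perm (Fin Q)) (t : Fin Q → ℤ), ∀ J,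
      μ.val * s ((ν * μ).lst i) (ν * μ).val J =
        (μ * ν).val ^ t J * s ((μ * ν).lst i) (μ * ν).val (π J) := by
  have hne : (ν * μ).lst i ≠ [] := by
    intro h
    rw [h, List.length_nil] at hl'
    exact hN.ne hl'
  obtain ⟨π, t, ht⟩ := hs.inv μ.val ((ν * μ).lst i) (ν * μ).val hne
  obtain ⟨π', t', ht'⟩ := sec_iter hs hg hl (μ.lst i).length
  have h0 : μ.val * (ν * μ).val * μ.val⁻¹ = (μ * ν).val := by
    rw [Rec.mul_val, Rec.mul_val]
    group
  refine ⟨π.symm.trans π', fun J => - t (π.symm J) + t' (π.symm J), fun J => ?_⟩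
  have h2 := ht (π.symm J)
  rw [PSN.mul_lst_conj, h0, ht', pow_one, Equiv.apply_symm_apply] at h2
  have h1 : μ.val * ((ν * μ).val ^ t (π.symm J) * s ((ν * μ).lst i) (ν * μ).val J) =
      (μ * ν).val ^ t (π.symm J) * (μ.val * s ((ν * μ).lst i) (ν * μ).val J) := by
    rw [← h0, conj_zpow]
    group
  rw [h1] at h2
  change _ = (μ * ν).val ^ (- t (π.symm J) + t' (π.symm J)) *
    s ((μ * ν).lst i) (μ * ν).val (π' (π.symm J))
  rw [zpow_add, mul_assoc, h2, zpow_neg, inv_mul_cancel_left]

end RTR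

theorem t_RTR : S_RTR := by
  intro Γ _ M N Q F s hN hinv hb hs hgood μ ν
  have h0 : μ.val * (ν * μ).val * μ.val⁻¹ = (μ * ν).val := by
    rw [Rec.mul_val, Rec.mul_val]
    group
  by_cases hl : ∀ i, ((μ * ν).lst i).length = N
  · have hl' : ∀ i, ((ν * μ).lst i).length = N := PSA.len_symm hl
    unfold evA
    rw [if_pos hl, if_pos hl']
    congr 1
    by_cases hF : ∃ a, F a (μ * ν).val ≠ 0
    · have hg : ∀ Y : List Γ, Y.length = N → GoodC Q Y (μ * ν).val := fun Y hY =>
        hgood Y _ hY hF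
      choose π t ht using fun i => RTR.sec_mul hN hs (μ := μ) (ν := ν) i (hl i) (hl' i) hg
      have h1 : ∀ J : Fin M → Fin Q,
          F (fun i => s ((ν * μ).lst i) (ν * μ).val (J i)) (ν * μ).val =
          F (fun i => s ((μ * ν).lst i) (μ * ν).val (Equiv.piCongrRight π J i)) (μ * ν).val := by
        intro J
        rw [← hinv μ.val (fun i => s ((ν * μ).lst i) (ν * μ).val (J i)) (ν * μ).val, h0,
          ← hb (fun i => t i (J i)) (fun i => s ((μ * ν).lst i) (μ * ν).val
            (Equiv.piCongrRight π J i)) (μ * ν).val]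
        exact congrArg (fun a => F a (μ * ν).val) (funext fun i => ht i (J i))
      rw [Finset.sum_congr rfl fun J _ => h1 J]
      exact (Equiv.sum_comp (Equiv.piCongrRight π) fun J : Fin M → Fin Q =>
        F (fun i => s ((μ * ν).lst i) (μ * ν).val (J i)) (μ * ν).val).symm
    · have h1 : ∀ a, F a (μ * ν).val = 0 := fun a => by
        by_contra h
        exact hF ⟨a, h⟩
      refine Finset.sum_congr rfl fun J _ => ?_
      rw [h1]
      have h2 : ∀ a, F a (ν * μ).val = 0 := fun a => by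
        rw [← hinv μ.val a (ν * μ).val, h0, h1]
      rw [h2]
  · have hl' : ¬ ∀ i, ((ν * μ).lst i).length = N := fun h => hl (PSA.len_symm h)
    unfold evA
    rw [if_neg hl, if_neg hl']

end Pool.Agent.FJA
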