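import Pool.Agent.FJA.CoreAllU
import Pool.Agent.FJA.P_RSA
import Pool.Agent.FJA.P_RGD
import Pool.Agent.FJA.P_RTR
import Pool.Agent.FJA.P_RSC
import Pool.Agent.FJA.P_RPW
import Pool.Agent.FJA.P_RSG
import Pool.Agent.FJA.P_RAV
import Pool.Agent.FJA.P_RMN
import Pool.Agent.FJA.P_RT0
import Pool.Agent.FJA.P_RBA
import Pool.Agent.FJA.P_RTB
import Pool.Agent.FJA.P_RTC
import Pool.Agent.FJA.P_RCA
import Pool.Agent.FJA.P_RRF

/-!
# The Dennis trace, condition on roots: the theorems of the modules, composed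
-/

set_option autoImplicit false

noncomputable section

namespace Pool.Agent.FJA

theorem h_RMN : S_RMN := t_RMN t_RSA t_RGD t_RTR t_RSC t_RPW t_RSG t_DEN h_DEQ
theorem h_RT0 : S_RT0 := t_RT0 h_RMN t_RAV h_COB h_DEQ
theorem h_RTB : S_RTB := t_RTB h_DEQ h_TFQ h_COB h_WOQ h_BFM h_FWD h_RT0 t_RBA fun n hn G _ => h_PDG n hn G
theorem h_RTC : S_RTC := t_RTC t_FGS t_NAT h_RTB

end Pool.Agent.FJA
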