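import Pool.Agent.FJA.Avg

/-!
# The final deduction
-/

set_option autoImplicit false
set_option linter.unusedSectionVars false

open Matrix Pool.Agent.WhK Pool.Agent.Lib25 CategoryTheory

noncomputable section

namespace Pool.Agent.FJA

section

variable {n : ℕ} {G : Type} [Group G]

/-- The map `tau` kills the image of `H_{n+1}(G; ℚ)`. -/
theorem tau_inl (c : HQ (n + 1) G) :
    tau n G (HQ.map (n + 1) (MonoidHom.inl G (Multiplicative ℤ)) c) = 0 := by
  unfold tau
  rw [LinearMap.comp_apply, ← HQ.map_comp]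
  have h1 : (gl1 (mon (G := G))).comp (MonoidHom.inl G (Multiplicative ℤ)) =
      (glm (posIncl (MonoidAlgebra ℤ G)) 1).comp (gl1 (cp (MonoidAlgebra.of ℤ G))) := by
    refine MonoidHom.ext fun z => ?_
    apply Units.ext
    change (Matrix.diagonal fun _ => mon (z, 1)) =
      (Matrix.diagonal fun _ => Polynomial.C (MonoidAlgebra.of ℤ G z)).map
        (posIncl (MonoidAlgebra ℤ G))
    rw [Matrix.diagonal_map (map_zero _)]
    congr 1
    funext _
    rw [← Polynomial.monomial_zero_left, posIncl_monomial]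
    rfl
  rw [h1, HQ.map_comp]
  exact KB_mk_pos n 1 _

theorem sym_add (p : ℕ) (h : G) (c c' : HQ (n + 1) (Cen h)) :
    sym p h (c + c') = sym p h c + sym p h c' := by
  have h1 : (Submodule.span ℚ {x | Rel n G x}).mkQ (sg p h (c + c') - sg p h c - sg p h c') = 0 := by
    rw [Submodule.mkQ_apply, Submodule.Quotient.mk_eq_zero]
    exact Submodule.subset_span (Rel.add p h c c')
  rw [map_sub, map_sub, sub_sub, sub_eq_zero] at h1
  exact h1

theorem sym_smul (p : ℕ) (h : G) (q : ℚ) (c : HQ (n + 1) (Cen h)) :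
    sym p h (q • c) = q • sym p h c := by
  have h1 : (Submodule.span ℚ {x | Rel n G x}).mkQ (sg p h (q • c) - q • sg p h c) = 0 := by
    rw [Submodule.mkQ_apply, Submodule.Quotient.mk_eq_zero]
    exact Submodule.subset_span (Rel.smul p h q c)
  rw [map_sub, map_smul, sub_eq_zero] at h1
  exact h1

/-- The symbol as a linear map. -/
def symL (n : ℕ) (G : Type) [Group G] (p : ℕ) (h : G) : HQ (n + 1) (Cen h) →ₗ[ℚ] Src n G where
  toFun c := sym p h c
  map_add' := sym_add p h
  map_smul' := sym_smul p h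

theorem sym_invalid (p : ℕ) (h : G) (c : HQ (n + 1) (Cen h)) (hv : ¬ Adm p h) :
    sym p h c = 0 := by
  have h1 : (Submodule.span ℚ {x | Rel n G x}).mkQ (sg p h c) = 0 := by
    rw [Submodule.mkQ_apply, Submodule.Quotient.mk_eq_zero]
    exact Submodule.subset_span (Rel.invalid p h c hv)
  exact h1

theorem sym_conj (p : ℕ) (h x : G) (c : HQ (n + 1) (Cen h)) :
    sym p (x * h * x⁻¹) (HQ.map (n + 1) (cHom x (cHom_conj x h)) c) = sym p h c := by
  have h1 : (Submodule.span ℚ {x | Rel n G x}).mkQ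
      (sg p (x * h * x⁻¹) (HQ.map (n + 1) (cHom x (cHom_conj x h)) c) - sg p h c) = 0 := by
    rw [Submodule.mkQ_apply, Submodule.Quotient.mk_eq_zero]
    exact Submodule.subset_span (Rel.conj p h x c)
  rw [map_sub, sub_eq_zero] at h1
  exact h1

theorem sym_frob (p : ℕ) (h h' : G) (hh : h' ∈ Subgroup.zpowers h) (j k : ℕ)
    (c : HQ (n + 1) (Cen h)) (hv : Adm p h) (hz : h ∈ Subgroup.zpowers h')
    (hp : h ^ p ^ j = h' ^ p ^ k) :
    sym p h' (HQ.map (n + 1) (cHom 1 (cHom_pow h hh)) c) = sym p h c := by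
  have h1 : (Submodule.span ℚ {x | Rel n G x}).mkQ
      (sg p h' (HQ.map (n + 1) (cHom 1 (cHom_pow h hh)) c) - sg p h c) = 0 := by
    rw [Submodule.mkQ_apply, Submodule.Quotient.mk_eq_zero]
    exact Submodule.subset_span (Rel.frob p h h' hh j k c hv hz hp)
  rw [map_sub, sub_eq_zero] at h1
  exact h1

theorem sym_sum (h : G) (c : HQ (n + 1) (Cen h)) (hfin : IsOfFinOrder h) :
    ∑ p ∈ (orderOf h).primeFactors,
      ∑ a ∈ (Finset.range (orderOf h)).filter (fun a => a.Coprime (orderOf h)),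
        sym p (h ^ a) (HQ.map (n + 1) (cHom 1 (cHom_pow h (Subgroup.pow_mem _
          (Subgroup.mem_zpowers h) a))) c) = 0 := by
  have h1 : (Submodule.span ℚ {x | Rel n G x}).mkQ (∑ p ∈ (orderOf h).primeFactors,
      ∑ a ∈ (Finset.range (orderOf h)).filter (fun a => a.Coprime (orderOf h)),
        sg p (h ^ a) (HQ.map (n + 1) (cHom 1 (cHom_pow h (Subgroup.pow_mem _
          (Subgroup.mem_zpowers h) a))) c)) = 0 := by
    rw [Submodule.mkQ_apply, Submodule.Quotient.mk_eq_zero]
    exact Submodule.subset_span (Rel.sum h c hfin)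
  rw [map_sum] at h1
  simp only [map_sum] at h1
  exact h1

/-- Every element of `Src n G` is a linear combination of symbols. -/
theorem exists_rep (x : Src n G) : ∃ y : Sym n G →₀ ℚ,
    x = ∑ s ∈ y.support, y s • sym s.p s.h s.c := by
  obtain ⟨y, rfl⟩ := Submodule.Quotient.mk_surjective (Submodule.span ℚ {x | Rel n G x}) x
  refine ⟨y, ?_⟩
  have h1 : y = ∑ s ∈ y.support, Finsupp.single s (y s) := (Finsupp.sum_single y).symm
  have h2 : (Submodule.span ℚ {x | Rel n G x}).mkQ y =
      ∑ s ∈ y.support, (Submodule.span ℚ {x | Rel n G x}).mkQ (Finsupp.single s (y s)) := by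
    conv_lhs => rw [h1]
    rw [map_sum]
  refine Eq.trans h2 (Finset.sum_congr rfl fun s _ => ?_)
  unfold sym sg
  rw [← map_smul, Finsupp.smul_single, smul_eq_mul, mul_one]

open scoped Classical in
/-- The part of order `N0` of the functionals defined by a linear functional on `Src n G`. -/
def Lam (Λ : Src n G →ₗ[ℚ] ℚ) (N0 p : ℕ) (h : G) : HQ (n + 1) (Cen h) →ₗ[ℚ] ℚ :=
  if orderOf h = N0 then Λ ∘ₗ symL n G p h else 0

theorem Lam_pos (Λ : Src n G →ₗ[ℚ] ℚ) {N0 : ℕ} (p : ℕ) {h : G} (H : orderOf h = N0)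
    (c : HQ (n + 1) (Cen h)) : Lam Λ N0 p h c = Λ (sym p h c) := by
  unfold Lam
  rw [if_pos H]
  rfl

theorem Lam_neg (Λ : Src n G →ₗ[ℚ] ℚ) {N0 : ℕ} (p : ℕ) {h : G} (H : orderOf h ≠ N0)
    (c : HQ (n + 1) (Cen h)) : Lam Λ N0 p h c = 0 := by
  unfold Lam
  rw [if_neg H]
  rfl

theorem admL_Lam (hUCT : S_UCT)
    (hfg : ∀ h : G, IsOfFinOrder h → h ≠ 1 → Module.Finite ℤ (HZ (n + 1) (Cen h)))
    (Λ : Src n G →ₗ[ℚ] ℚ) (N0 : ℕ) : AdmL n G (Lam Λ N0) := by
  have hz : ∀ p h, ¬ Adm p h → Lam Λ N0 p h = 0 := by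
    intro p h hv
    apply LinearMap.ext
    intro c
    by_cases H : orderOf h = N0
    · rw [Lam_pos Λ p H, sym_invalid p h c hv, map_zero]
      rfl
    · rw [Lam_neg Λ p H]
      rfl
  refine ⟨hz, ?_, ?_, ?_, ?_⟩
  · intro p h
    by_cases hv : Adm p h
    · have h1 : h ≠ 1 := by
        rintro rfl
        have h2 := hv.2.2
        rw [orderOf_one] at h2
        exact hv.1.one_lt.ne' (Nat.dvd_one.1 h2)
      exact hUCT (Cen h) n (hfg h hv.2.1 h1) (Lam Λ N0 p h)
    · refine ⟨1, fun _ => 0, one_pos, fun y => ?_, fun x => ?_⟩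
      · unfold pair
        rw [Finsupp.linearCombination_apply]
        simp
      · rw [hz p h hv]
        unfold pair
        rw [Finsupp.linearCombination_apply]
        simp
  · intro p h x c
    by_cases H : orderOf h = N0
    · rw [Lam_pos Λ p H, Lam_pos Λ p ((orderOf_conj x h).trans H), sym_conj]
    · rw [Lam_neg Λ p H, Lam_neg Λ p (fun H' => H ((orderOf_conj x h).symm.trans H'))]
  · intro p h h' hh j k c hv hz' hp
    have hzz : Subgroup.zpowers h = Subgroup.zpowers h' := by
      apply le_antisymm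
      · rwa [Subgroup.zpowers_le]
      · rwa [Subgroup.zpowers_le]
    have hord' : orderOf h' = orderOf h := by
      rw [← Nat.card_zpowers, ← hzz, Nat.card_zpowers]
    by_cases H : orderOf h = N0
    · rw [Lam_pos Λ p H, Lam_pos Λ p (hord'.trans H), sym_frob p h h' hh j k c hv hz' hp]
    · rw [Lam_neg Λ p H, Lam_neg Λ p (fun H' => H (hord'.symm.trans H'))]
  · intro h c hfin
    have hpos : 0 < orderOf h := orderOf_pos_iff.2 hfin
    by_cases H : orderOf h = N0
    · have h1 := congrArg Λ (sym_sum h c hfin)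
      rw [map_zero, map_sum] at h1
      rw [← h1]
      refine Finset.sum_congr rfl fun p _ => ?_
      rw [map_sum]
      refine Finset.sum_congr rfl fun a ha => ?_
      rw [Finset.mem_filter] at ha
      rw [Lam_pos]
      rw [Nat.Coprime.orderOf_pow (Nat.coprime_comm.1 ha.2), H]
    · refine Finset.sum_eq_zero fun p _ => Finset.sum_eq_zero fun a ha => ?_
      rw [Finset.mem_filter] at ha
      rw [Lam_neg]
      rw [Nat.Coprime.orderOf_pow (Nat.coprime_comm.1 ha.2)]
      exact H

end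

end Pool.Agent.FJA
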