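import Pool.Agent.FJA.FinA

/-!
# The final theorem, from the core theorem
-/

set_option autoImplicit false
set_option linter.unusedSectionVars false

open Matrix Pool.Agent.WhK Pool.Agent.Lib25 CategoryTheory

noncomputable section

namespace Pool.Agent.FJA

/-- The averaged classes. -/
def kapA (ε0 : ∀ N : ℕ, ℕ → IdemMat (LaurentPolynomial (MonoidAlgebra ℤ (Cyc N)))) (N p : ℕ) :
    KNegOne (MonoidAlgebra ℤ (Cyc N)) :=
  if hN : 0 < N then
    (haveI : NeZero N := ⟨hN.ne'⟩
     H2.ak3 (Tw N) (fun q => KNegOne.of (ε0 N q)) p)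
  else 0

theorem kapA_eq (ε0 : ∀ N : ℕ, ℕ → IdemMat (LaurentPolynomial (MonoidAlgebra ℤ (Cyc N))))
    (N p : ℕ) [NeZero N] : kapA ε0 N p = H2.ak3 (Tw N) (fun q => KNegOne.of (ε0 N q)) p :=
  dif_pos (Nat.pos_of_ne_zero (NeZero.ne N))

theorem t_ALL (hPRI : S_PRI.{0, 0, 0}) (hBD : S_BD.{0, 0, 0}) (hUCT : S_UCT) (hFLC : S_FLC)
    (ε0 : ∀ N : ℕ, ℕ → IdemMat (LaurentPolynomial (MonoidAlgebra ℤ (Cyc N))))
    (hFIN : S_FIN ε0) (hT0 : S_T0 ε0) : S_ALL := by
  classical
  have hex : ∀ N p : ℕ, ∃ e : IdemMat (LaurentPolynomial (MonoidAlgebra ℤ (Cyc N))),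
      KNegOne.of e = kapA ε0 N p := fun N p => KNegOne.exists_of _
  choose ε hε using hex
  refine ⟨ε, fun n G _ => ?_⟩
  obtain ⟨A, hA⟩ := exists_A hPRI hBD n (G := G) (kapA ε0)
    (by
      intro N _ p w hw
      rw [kapA_eq]
      exact H2.T_ak3 (fun u w x => Tw_Tw u w x) p w hw)
    (by
      intro N _
      simp only [kapA_eq]
      exact H2.sum_ak3 (fun u w x => Tw_Tw u w x))
  refine ⟨A, ?_, ?_⟩
  · intro N p φ c hN hp hpN hφ
    rw [hA N p φ c hN hp hpN hφ, ← hε]
    exact prodG_rhoC hPRI hBD n (ε N p) φ c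
  · rintro ⟨b, hb⟩ hfg
    -- the values of `A` in terms of raw classes
    have hAh : ∀ (p : ℕ) (h : G) (c : HQ (n + 1) (Cen h)), Adm p h → ∀ (N : ℕ) [NeZero N]
        (φ : Cyc N →* G) (_ : φ (gen N) = h)
        (H : ∀ (z : Cen h) c, Commute ((Cen h).subtype z) (φ c)), orderOf h = N →
        A (sym p h c) = prodG hPRI hBD n φ (Cen h).subtype H
          (H2.ak3 (Tw N) (fun q => KNegOne.of (ε0 N q)) p) c := by
      intro p h c hv N _ φ e H hN
      subst e
      rw [← kapA_eq]
      have hinj : Function.Injective φ := by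
        intro a b hab
        have h1 : φ (a * b⁻¹) = 1 := by rw [map_mul, map_inv, hab, mul_inv_cancel]
        have h2 := cyc_eq_pow (a * b⁻¹)
        rw [h2, map_pow] at h1
        have h3 := orderOf_dvd_of_pow_eq_one h1
        rw [hN] at h3
        have h4 := Nat.eq_zero_of_dvd_of_lt h3 (ZMod.val_lt _)
        rw [h4, pow_zero] at h2
        exact mul_inv_eq_one.1 h2
      exact hA N p φ c (Nat.pos_of_ne_zero (NeZero.ne N)) hv.1 (by rw [← hN]; exact hv.2.2) hinj
    have hAv : ∀ (p : ℕ) (h : G) (c : HQ (n + 1) (Cen h)), Adm p h →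
        ∃ (N : ℕ) (_ : NeZero N) (φ : Cyc N →* G)
          (H : ∀ (z : Cen h) c, Commute ((Cen h).subtype z) (φ c)), φ (gen N) = h ∧
          orderOf h = N ∧ Function.Injective φ ∧
          A (sym p h c) = prodG hPRI hBD n φ (Cen h).subtype H
            (H2.ak3 (Tw N) (fun q => KNegOne.of (ε0 N q)) p) c := by
      intro p h c hv
      have hpos : 0 < orderOf h := orderOf_pos_iff.2 hv.2.1
      have hNe : NeZero (orderOf h) := ⟨hpos.ne'⟩
      obtain ⟨φ, hφ⟩ := exists_cyc (N := orderOf h) h (pow_orderOf_eq_one h)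
      refine ⟨orderOf h, hNe, φ, fun z c => commute_cyc' hφ z c, hφ, rfl, ?_,
        hAh p h c hv (orderOf h) φ hφ _ rfl⟩
      intro a b hab
      have h1 : φ (a * b⁻¹) = 1 := by rw [map_mul, map_inv, hab, mul_inv_cancel]
      have h2 := cyc_eq_pow (a * b⁻¹)
      rw [h2, map_pow, hφ] at h1
      have h3 := orderOf_dvd_of_pow_eq_one h1
      have h4 := Nat.eq_zero_of_dvd_of_lt h3 (ZMod.val_lt _)
      rw [h4, pow_zero] at h2
      exact mul_inv_eq_one.1 h2
    -- injectivity of `A`
    have hinjA : ∀ x : Src n G, A x = 0 → x = 0 := by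
      intro x hx
      rw [← Module.forall_dual_apply_eq_zero_iff ℚ x]
      intro Λ
      obtain ⟨y, hy⟩ := exists_rep x
      have hN0 : ∀ N0 : ℕ, ∑ s ∈ y.support.filter (fun s => orderOf s.h = N0),
          y s * Λ (sym s.p s.h s.c) = 0 := by
        intro N0
        have hL := admL_Lam hUCT hfg Λ N0
        obtain ⟨F, hF⟩ := exists_F hFIN (bG := b) hb hL
        have hval : ∀ s : Sym n G, F (A (sym s.p s.h s.c)) =
            (omg N0 : ℚ) * Lam Λ N0 s.p s.h s.c := by
          intro s
          by_cases hv : Adm s.p s.h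
          · obtain ⟨N, _, φ, H, hφ, hord, hinj, e⟩ := hAv s.p s.h s.c hv
            rw [e, val_ak3 hPRI hBD (Nat.mem_primeFactors.2
              ⟨hv.1, by rw [← hord]; exact hv.2.2, NeZero.ne N⟩) φ hinj hφ H s.c hL hF]
            by_cases hNN : N = N0
            · rw [hNN]
            · rw [Lam_neg Λ s.p (by rw [hord]; exact hNN), mul_zero, mul_zero]
          · rw [sym_invalid s.p s.h s.c hv, map_zero, map_zero, hL.zero s.p s.h hv,
              LinearMap.zero_apply, mul_zero]
        have h1 : (omg N0 : ℚ) * ∑ s ∈ y.support.filter (fun s => orderOf s.h = N0),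
            y s * Λ (sym s.p s.h s.c) = 0 := by
          have h2 := congrArg F hx
          rw [hy, map_sum, map_sum, map_zero] at h2
          rw [← h2, Finset.mul_sum, Finset.sum_filter]
          refine Finset.sum_congr rfl fun s _ => ?_
          rw [map_smul, map_smul, hval, smul_eq_mul]
          split_ifs with h3
          · rw [Lam_pos Λ s.p h3]
            ring
          · rw [Lam_neg Λ s.p h3, mul_zero, mul_zero]
        by_cases hex : ∃ s ∈ y.support.filter (fun s => orderOf s.h = N0), Adm s.p s.h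
        · obtain ⟨s, hs, hv⟩ := hex
          have hs' := (Finset.mem_filter.1 hs).2
          have h3 : (omg N0 : ℚ) ≠ 0 := omg_ne (p := s.p)
            (by rw [← hs']; exact orderOf_pos_iff.2 hv.2.1) hv.1 (by rw [← hs']; exact hv.2.2)
          exact (mul_eq_zero.1 h1).resolve_left h3
        · refine Finset.sum_eq_zero fun s hs => ?_
          rw [sym_invalid s.p s.h s.c (fun hv => hex ⟨s, hs, hv⟩), map_zero, mul_zero]
      rw [hy, map_sum]
      have h4 : ∑ s ∈ y.support, Λ (y s • sym s.p s.h s.c) =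
          ∑ s ∈ y.support, y s * Λ (sym s.p s.h s.c) :=
        Finset.sum_congr rfl fun s _ => by rw [map_smul, smul_eq_mul]
      rw [h4, ← Finset.sum_fiberwise_of_maps_to (t := y.support.image (fun s => orderOf s.h))
        (g := fun s => orderOf s.h) (fun s hs => Finset.mem_image_of_mem _ hs)]
      exact Finset.sum_eq_zero fun N0 _ => hN0 N0
    -- the image of `A` is spanned by the raw classes
    have hspan : ∀ x : Src n G, A x ∈ Submodule.span ℚ (Set.range (rawV ε0 n G)) := by
      intro x
      obtain ⟨y, hy⟩ := exists_rep x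
      rw [hy, map_sum]
      refine Submodule.sum_mem _ fun s _ => ?_
      rw [map_smul]
      refine Submodule.smul_mem _ _ ?_
      by_cases hv : Adm s.p s.h
      swap
      · rw [sym_invalid s.p s.h s.c hv, map_zero]
        exact Submodule.zero_mem _
      · obtain ⟨N, _, φ, H, hφ, hord, hinj, e⟩ := hAv s.p s.h s.c hv
        rw [e]
        let Θ : KNegOne (MonoidAlgebra ℤ (Cyc N)) →+
            (KB n (MonoidAlgebra ℤ G) ⧸ Submodule.span ℚ (Set.range (rawV ε0 n G))) :=
          { toFun := fun κ => (Submodule.span ℚ (Set.range (rawV ε0 n G))).mkQ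
              (prodG hPRI hBD n φ (Cen s.h).subtype H κ s.c)
            map_zero' := by rw [map_zero, LinearMap.zero_apply, map_zero]
            map_add' := fun x y => by rw [map_add, LinearMap.add_apply, map_add] }
        have h5 := H2.ak3_induct (T := Tw N) (κ := fun q => KNegOne.of (ε0 N q))
          (fun u w x => Tw_Tw u w x) Θ (fun q hq w => by
            change (Submodule.span ℚ (Set.range (rawV ε0 n G))).mkQ
              (prodG hPRI hBD n φ (Cen s.h).subtype H (Tw N w (KNegOne.of (ε0 N q))) s.c) = 0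
            rw [Submodule.mkQ_apply, Submodule.Quotient.mk_eq_zero]
            have e' : (φ.comp (pw N w)) (gen N) = s.h ^ (w : ZMod N).val := by rw [pw_gen, hφ]
            rw [tw_raw hPRI hBD q φ H s.c w (Subgroup.pow_mem _ (Subgroup.mem_zpowers s.h) _)
              (fun z c => commute_cyc' e' z c)]
            have key : ∀ (ψ : Cyc N →* G) (h' : G) (_ : ψ (gen N) = h')
                (H' : ∀ (z : Cen h') c, Commute ((Cen h').subtype z) (ψ c))
                (c' : HQ (n + 1) (Cen h')), Function.Injective ψ →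
                prodG hPRI hBD n ψ (Cen h').subtype H' (KNegOne.of (ε0 N q)) c' ∈
                  Submodule.span ℚ (Set.range (rawV ε0 n G)) := by
              intro ψ h' e H' c' hψ
              subst e
              have h6 := rawV_eq ε0 n G hPRI hBD ⟨N, q, ψ, c',
                Nat.pos_of_ne_zero (NeZero.ne N), Nat.prime_of_mem_primeFactors hq,
                Nat.dvd_of_mem_primeFactors hq, hψ⟩
              change prodG hPRI hBD n ψ (Cen (ψ (gen N))).subtype (commute_cyc ψ)
                (KNegOne.of (ε0 N q)) c' = _ at h6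
              rw [h6]
              exact Submodule.subset_span ⟨_, rfl⟩
            exact key _ _ e' _ _ (fun a b hab => inj_pw w (hinj hab))) s.p
          (Nat.mem_primeFactors.2 ⟨hv.1, by rw [← hord]; exact hv.2.2, NeZero.ne N⟩)
        change (Submodule.span ℚ (Set.range (rawV ε0 n G))).mkQ _ = 0 at h5
        rw [Submodule.mkQ_apply, Submodule.Quotient.mk_eq_zero] at h5
        exact h5
    have htau : ∀ a ∈ inG n G, tau n G a = 0 := by
      rintro _ ⟨c, rfl⟩
      exact tau_inl c
    intro a x
    constructor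
    · intro hax
      obtain ⟨z, rfl⟩ := exists_cl (k := ℚ) a
      obtain ⟨q, hq⟩ := (Finsupp.mem_span_range_iff_exists_finsupp).1 (hspan x)
      have hmem : cl ℚ (n + 1) _ z ∈ inG n G := by
        by_contra hne
        obtain ⟨lam, h1, h2⟩ := Submodule.exists_le_ker_of_notMem hne
        obtain ⟨F, hF1, hF2, hF3, hF4⟩ := hFLC G n lam (fun c => by
          have h3 : Hk.map ℚ (n + 1) (MonoidHom.inl G (Multiplicative ℤ)) c ∈ inG n G := ⟨c, rfl⟩
          exact h2 h3)
        apply h1
        rw [hF4]
        refine hT0 G n (Ix n G) q.support q (fun j => j.N) (fun j => j.p) (fun j => j.φ)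
          (fun j => j.c) (fun j => j.hN) (fun j => j.hp) (fun j => j.hpN) (fun j => j.hφ) z ?_
          F hF1 hF2 hF3
        rw [← hax, ← hq]
        rfl
      have h3 := htau _ hmem
      rw [h3, zero_add] at hax
      exact ⟨hmem, hinjA x hax⟩
    · rintro ⟨ha, rfl⟩
      rw [htau a ha, map_zero, add_zero]

end Pool.Agent.FJA
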