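import Pool.Agent.FJA.St7

/-!
# TPC: the symbols with a fixed homomorphism
-/

set_option autoImplicit false
set_option linter.unusedSectionVars false

open Matrix Pool.Agent.WhK Pool.Agent.Lib25 CategoryTheory

noncomputable section

namespace Pool.Agent.FJA

namespace TPC

theorem lin {V U Q K W : Type*} [AddCommGroup V] [Module ℚ V] [AddCommGroup Q] [Module ℚ Q]
    (S : U → V →ₗ[ℚ] ℚ) (P : U → Q) (hT : ∀ e : V, ∃ T : Q →ₗ[ℚ] ℚ, ∀ u, T (P u) = S u e)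
    (s : Finset K) (w : Finset W) (r : K → ℚ) (c : K → W → V) (σ : K → W → U)
    (h : ∀ lam : V →ₗ[ℚ] ℚ, ∑ k ∈ s, ∑ j ∈ w, (r k * lam (c k j)) • P (σ k j) = 0) :
    ∑ k ∈ s, ∑ j ∈ w, r k * S (σ k j) (c k j) = 0 := by
  classical
  let b := Module.Basis.ofVectorSpace ℚ V
  choose T hT' using hT
  let L := s.biUnion fun k => w.biUnion fun j => (b.repr (c k j)).support
  have h1 : ∀ k ∈ s, ∀ j ∈ w, S (σ k j) (c k j) =
      ∑ l ∈ L, b.coord l (c k j) * T (b l) (P (σ k j)) := by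
    intro k hk j hj
    have h2 : c k j = ∑ l ∈ L, b.coord l (c k j) • b l := by
      conv_lhs => rw [← b.linearCombination_repr (c k j), Finsupp.linearCombination_apply]
      refine Finsupp.sum_of_support_subset _ ?_ _ fun i _ => zero_smul _ _
      intro i hi
      exact Finset.mem_biUnion.2 ⟨k, hk, Finset.mem_biUnion.2 ⟨j, hj, hi⟩⟩
    conv_lhs => rw [h2, map_sum]
    refine Finset.sum_congr rfl fun l _ => ?_
    rw [map_smul, smul_eq_mul, hT']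
  have h2 : ∀ l ∈ L, T (b l) (∑ k ∈ s, ∑ j ∈ w, (r k * b.coord l (c k j)) • P (σ k j)) =
      ∑ k ∈ s, ∑ j ∈ w, r k * (b.coord l (c k j) * T (b l) (P (σ k j))) := by
    intro l _
    rw [map_sum]
    refine Finset.sum_congr rfl fun k _ => ?_
    rw [map_sum]
    refine Finset.sum_congr rfl fun j _ => ?_
    rw [map_smul, smul_eq_mul, mul_assoc]
  have h3 : ∑ l ∈ L, T (b l) (∑ k ∈ s, ∑ j ∈ w, (r k * b.coord l (c k j)) • P (σ k j)) =
      ∑ k ∈ s, ∑ j ∈ w, r k * S (σ k j) (c k j) := by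
    rw [Finset.sum_congr rfl h2, Finset.sum_comm]
    refine Finset.sum_congr rfl fun k hk => ?_
    rw [Finset.sum_comm]
    refine Finset.sum_congr rfl fun j hj => ?_
    rw [h1 k hk j hj, Finset.mul_sum]
  rw [← h3]
  refine Finset.sum_eq_zero fun l _ => ?_
  rw [h, map_zero]

variable {m : ℕ} {G : Type} [Group G] {N : ℕ} [NeZero N]

theorem t_pow (φ : Cyc N →* G) : φ (gen N) ^ N = 1 := by
  rw [← map_pow, cyc_pow, map_one]

theorem hx (φ : Cyc N →* G) (w : (ZMod N)ˣ) (x : G)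
    (h : x * φ (gen N) * x⁻¹ = φ (gen N) ^ (w : ZMod N).val) :
    ∀ z ∈ Cen (φ (gen N)), x * z * x⁻¹ ∈ Cen (φ (gen N)) := by
  intro z hz
  rw [Subgroup.mem_centralizer_singleton_iff] at hz ⊢
  have h1 : Commute (x * z * x⁻¹) (x * φ (gen N) * x⁻¹) := by
    change x * z * x⁻¹ * (x * φ (gen N) * x⁻¹) = x * φ (gen N) * x⁻¹ * (x * z * x⁻¹)
    have h2 : x * z * x⁻¹ * (x * φ (gen N) * x⁻¹) = x * (z * φ (gen N)) * x⁻¹ := by group
    have h3 : x * φ (gen N) * x⁻¹ * (x * z * x⁻¹) = x * (φ (gen N) * z) * x⁻¹ := by group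
    rw [h2, h3, hz]
  rw [h] at h1
  exact (commute_pow_val (t_pow φ) w).1 h1

end TPC

theorem t_TPC : S_TTH → S_TPA → S_TPD → S_TPC := by
  intro hTTH hTPA hTPD m G _ N _ p _ φ hφ hden K s r z v hF
  classical
  by_contra hne
  obtain ⟨Λ, h1, h2⟩ := Submodule.exists_le_ker_of_notMem hne
  apply h1
  let W : Finset (ZMod N)ˣ := Finset.univ.filter fun w =>
    ∃ x : G, x * φ (gen N) * x⁻¹ = φ (gen N) ^ (w : ZMod N).val
  have hW : ∀ w, w ∈ W ↔ ∃ x : G, x * φ (gen N) * x⁻¹ = φ (gen N) ^ (w : ZMod N).val := by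
    intro w
    rw [Finset.mem_filter]
    exact ⟨fun h => h.2, fun h => ⟨Finset.mem_univ _, h⟩⟩
  have hX : ∀ w : (ZMod N)ˣ, ∃ x : G, w ∈ W → x * φ (gen N) * x⁻¹ = φ (gen N) ^ (w : ZMod N).val := by
    intro w
    by_cases hw : w ∈ W
    · obtain ⟨x, hx⟩ := (hW w).1 hw
      exact ⟨x, fun _ => hx⟩
    · exact ⟨1, fun h => absurd h hw⟩
  choose X hX using hX
  let κ : (ZMod N)ˣ → (Cen (φ (gen N)) →* Cen (φ (gen N))) := fun w =>
    if h : w ∈ W then cHom (X w) (TPC.hx φ w (X w) (hX w h)) else 1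
  have hκ : ∀ w (h : w ∈ W), κ w = cHom (X w) (TPC.hx φ w (X w) (hX w h)) := fun w h => dif_pos h
  have hone : (1 : (ZMod N)ˣ) ∈ W := by
    rw [hW]
    refine ⟨1, ?_⟩
    rw [pow_val_one (TPC.t_pow φ), one_mul, inv_one, mul_one]
  -- opaque versions of the data
  obtain ⟨S, hS⟩ : ∃ S : (MonoidAlgebra ℤ (Cyc N))ˣ → (HQ m (Cen (φ (gen N))) →ₗ[ℚ] ℚ),
      ∀ u e, S u e = Λ (sym1 (φ (gen N)) e (uG φ u)) :=
    ⟨fun u => Λ ∘ₗ sym1L m (φ (gen N)) (uG φ u), fun _ _ => rfl⟩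
  obtain ⟨P, hP⟩ : ∃ P : (MonoidAlgebra ℤ (Cyc N))ˣ → (Cyc N → ℚ_[p]),
      ∀ u, P u = fun c => if Subgroup.zpowers c = ⊤ then plog p u c else 0 := ⟨_, fun _ => rfl⟩
  have hP1 : ∀ u c, Subgroup.zpowers c = ⊤ → P u c = plog p u c := by
    intro u c hc
    rw [hP]
    exact if_pos hc
  have hP0 : ∀ u c, ¬ Subgroup.zpowers c = ⊤ → P u c = 0 := by
    intro u c hc
    rw [hP]
    exact if_neg hc
  obtain ⟨σ, hσ⟩ : ∃ σ : K → (ZMod N)ˣ → (MonoidAlgebra ℤ (Cyc N))ˣ,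
      ∀ k w, σ k w = uG (powMonoidHom (w : ZMod N).val) (v k) := ⟨_, fun _ _ => rfl⟩
  obtain ⟨C, hC⟩ : ∃ C : K → (ZMod N)ˣ → HQ m (Cen (φ (gen N))),
      ∀ k w, C k w = Hk.map ℚ m (κ w) (cl ℚ m _ (z k)) := ⟨_, fun _ _ => rfl⟩
  have hT : ∀ e, ∃ T : (Cyc N → ℚ_[p]) →ₗ[ℚ] ℚ, ∀ u, T (P u) = S u e := by
    intro e
    obtain ⟨T, hT⟩ := hTTH m G N p φ hφ e Λ fun y hy => h2 hy
    refine ⟨T, fun u => ?_⟩
    rw [hP, hS]
    exact hT u
  have hzero : ∀ lam : HQ m (Cen (φ (gen N))) →ₗ[ℚ] ℚ,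
      ∑ k ∈ s, ∑ w ∈ W, (r k * lam (C k w)) • P (σ k w) = 0 := by
    intro lam
    have h4 := hTPD m G N p φ hφ K s r z v hF W X κ (fun w h => (hW w).2 h) hX
      (fun w hw z => by rw [hκ w hw]; rfl) lam (hden lam)
    funext c
    rw [Finset.sum_apply, Pi.zero_apply]
    by_cases hc : Subgroup.zpowers c = ⊤
    · rw [← h4 c hc]
      refine Finset.sum_congr rfl fun k _ => ?_
      rw [Finset.sum_apply, Finset.mul_sum]
      refine Finset.sum_congr rfl fun w _ => ?_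
      rw [Pi.smul_apply, hP1 _ _ hc, Rat.smul_def, hσ, hC, Rat.cast_mul, mul_assoc]
    · refine Finset.sum_eq_zero fun k _ => ?_
      rw [Finset.sum_apply]
      refine Finset.sum_eq_zero fun w _ => ?_
      rw [Pi.smul_apply, hP0 _ _ hc, smul_zero]
  have h3 := TPC.lin S P hT s W r C σ hzero
  have h5 : ∑ k ∈ s, ∑ w ∈ W, r k * S (σ k w) (C k w) =
      (W.card : ℚ) * Λ (∑ k ∈ s, r k • sym1 (φ (gen N)) (cl ℚ m _ (z k)) (uG φ (v k))) := by
    rw [map_sum, Finset.mul_sum]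
    refine Finset.sum_congr rfl fun k _ => ?_
    have h6 : ∀ w ∈ W, r k * S (σ k w) (C k w) =
        Λ (r k • sym1 (φ (gen N)) (cl ℚ m _ (z k)) (uG φ (v k))) := by
      intro w hw
      have h7 := hTPA m G N φ hφ (cl ℚ m _ (z k)) (v k) (w : ZMod N).val (X w) (hX w hw)
        (TPC.hx φ w (X w) (hX w hw))
      rw [hS, hσ, hC, hκ w hw, map_smul, smul_eq_mul, ← h7]
      rfl
    rw [Finset.sum_congr rfl h6, Finset.sum_const, nsmul_eq_mul]
  rw [h5] at h3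
  exact (mul_eq_zero.1 h3).resolve_left
    (Nat.cast_ne_zero.2 (Finset.card_pos.2 ⟨1, hone⟩).ne')

end Pool.Agent.FJA
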