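import Pool.Agent.FJA.P_SEP
import Pool.Agent.FJA.P_TPC
import Pool.Agent.FJA.P_STP
import Pool.Agent.FJA.P_IND

/-!
# IDS: the conclusion of the induction on the order, with separating integral functionals

The versions of TPC, STP and IND in which the hypothesis that all functionals are integral (up to a
multiple) is replaced by: the integral functionals separate the classes.
-/

set_option autoImplicit false
set_option linter.unusedSectionVars false

open Matrix Pool.Agent.WhK Pool.Agent.Lib25 CategoryTheory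

noncomputable section

namespace Pool.Agent.FJA

/-- The integral functionals separate the classes of degree `m`. -/
def SepG (m : ℕ) (P : Type) [Group P] : Prop := UdG m P = ⊥

theorem SepG.eq_zero {m : ℕ} {P : Type} [Group P] (h : SepG m P) {c : Hk ℚ m P}
    (hc : ∀ lam : Hk ℚ m P →ₗ[ℚ] ℚ, DenG m lam → lam c = 0) : c = 0 := by
  have h1 : c ∈ UdG m P := hc
  rw [h] at h1
  exact (Submodule.mem_bot ℚ).1 h1

/-- From the integral functionals to all functionals. -/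
theorem ids_all {V Q K W : Type*} [AddCommGroup V] [Module ℚ V] [AddCommGroup Q] [Module ℚ Q]
    (I : (V →ₗ[ℚ] ℚ) → Prop) (hI : ∀ v : V, (∀ f, I f → f v = 0) → v = 0)
    (s : Finset K) (w : Finset W) (r : K → ℚ) (c : K → W → V) (P : K → W → Q)
    (h : ∀ lam : V →ₗ[ℚ] ℚ, I lam → ∑ k ∈ s, ∑ j ∈ w, (r k * lam (c k j)) • P k j = 0)
    (lam : V →ₗ[ℚ] ℚ) : ∑ k ∈ s, ∑ j ∈ w, (r k * lam (c k j)) • P k j = 0 := by
  have hr : ∀ (ρ : Q →ₗ[ℚ] ℚ) (f : V →ₗ[ℚ] ℚ),
      ρ (∑ k ∈ s, ∑ j ∈ w, (r k * f (c k j)) • P k j) =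
        f (∑ k ∈ s, ∑ j ∈ w, (r k * ρ (P k j)) • c k j) := by
    intro ρ f
    rw [map_sum, map_sum]
    refine Finset.sum_congr rfl fun k _ => ?_
    rw [map_sum, map_sum]
    refine Finset.sum_congr rfl fun j _ => ?_
    rw [map_smul, map_smul, smul_eq_mul, smul_eq_mul]
    ring
  rw [← Module.forall_dual_apply_eq_zero_iff ℚ]
  intro ρ
  have h1 : ∑ k ∈ s, ∑ j ∈ w, (r k * ρ (P k j)) • c k j = 0 := by
    apply hI
    intro f hf
    rw [← hr, h f hf, map_zero]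
  change ρ _ = 0
  rw [hr, h1, map_zero]

theorem t_TPCs (hTTH : S_TTH) (hTPA : S_TPA) (hTPD : S_TPD) (m : ℕ) (G : Type) [Group G] (N : ℕ)
    [NeZero N] (p : ℕ) [Fact p.Prime] (φ : Cyc N →* G) (hφ : Function.Injective φ)
    (hden : SepG m (Cen (φ (gen N))))
    (K : Type) (s : Finset K) (r : K → ℚ) (z : K → ZC ℚ m (Cen (φ (gen N))))
    (v : K → (MonoidAlgebra ℤ (Cyc N))ˣ)
    (hF : ∀ F : (Fin (m + 1) → G) → G → ℚ,
      GCoch m (fun y => orderOf y = N ∧ ∃ x : G, x * y * x⁻¹ ∈ Subgroup.zpowers (φ (gen N))) F →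
      ∑ k ∈ s, (r k : ℚ_[p]) * ∑ c : Cyc N,
        ((evc (fun z : Cen (φ (gen N)) => (z : G)) F (psi ℚ m _ (ch ℚ m _ (z k))) (φ c) : ℚ) : ℚ_[p]) *
          plog p (v k) c = 0) :
    ∑ k ∈ s, r k • sym1 (φ (gen N)) (cl ℚ m _ (z k)) (uG φ (v k)) ∈ LowN m G N := by
  classical
  by_contra hne
  obtain ⟨Λ, h1, h2⟩ := Submodule.exists_le_ker_of_notMem hne
  apply h1
  let W : Finset (ZMod N)ˣ := Finset.univ.filter fun w =>
    ∃ x : G, x * φ (gen N) * x⁻¹ = φ (gen N) ^ (w : ZMod N).val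
  have hW : ∀ w, w ∈ W ↔ ∃ x : G, x * φ (gen N) * x⁻¹ = φ (gen N) ^ (w : ZMod N).val := by
    intro w
    rw [Finset.mem_filter]
    exact ⟨fun h => h.2, fun h => ⟨Finset.mem_univ _, h⟩⟩
  have hX : ∀ w : (ZMod N)ˣ, ∃ x : G, w ∈ W → x * φ (gen N) * x⁻¹ = φ (gen N) ^ (w : ZMod N).val := by
    intro w
    by_cases hw : w ∈ W
    · obtain ⟨x, hx⟩ := (hW w).1 hw
      exact ⟨x, fun _ => hx⟩
    · exact ⟨1, fun h => absurd h hw⟩
  choose X hX using hX
  let κ : (ZMod N)ˣ → (Cen (φ (gen N)) →* Cen (φ (gen N))) := fun w =>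
    if h : w ∈ W then cHom (X w) (TPC.hx φ w (X w) (hX w h)) else 1
  have hκ : ∀ w (h : w ∈ W), κ w = cHom (X w) (TPC.hx φ w (X w) (hX w h)) := fun w h => dif_pos h
  have hone : (1 : (ZMod N)ˣ) ∈ W := by
    rw [hW]
    refine ⟨1, ?_⟩
    rw [pow_val_one (TPC.t_pow φ), one_mul, inv_one, mul_one]
  -- opaque versions of the data
  obtain ⟨S, hS⟩ : ∃ S : (MonoidAlgebra ℤ (Cyc N))ˣ → (HQ m (Cen (φ (gen N))) →ₗ[ℚ] ℚ),
      ∀ u e, S u e = Λ (sym1 (φ (gen N)) e (uG φ u)) :=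
    ⟨fun u => Λ ∘ₗ sym1L m (φ (gen N)) (uG φ u), fun _ _ => rfl⟩
  obtain ⟨P, hP⟩ : ∃ P : (MonoidAlgebra ℤ (Cyc N))ˣ → (Cyc N → ℚ_[p]),
      ∀ u, P u = fun c => if Subgroup.zpowers c = ⊤ then plog p u c else 0 := ⟨_, fun _ => rfl⟩
  have hP1 : ∀ u c, Subgroup.zpowers c = ⊤ → P u c = plog p u c := by
    intro u c hc
    rw [hP]
    exact if_pos hc
  have hP0 : ∀ u c, ¬ Subgroup.zpowers c = ⊤ → P u c = 0 := by
    intro u c hc
    rw [hP]
    exact if_neg hc
  obtain ⟨σ, hσ⟩ : ∃ σ : K → (ZMod N)ˣ → (MonoidAlgebra ℤ (Cyc N))ˣ,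
      ∀ k w, σ k w = uG (powMonoidHom (w : ZMod N).val) (v k) := ⟨_, fun _ _ => rfl⟩
  obtain ⟨C, hC⟩ : ∃ C : K → (ZMod N)ˣ → HQ m (Cen (φ (gen N))),
      ∀ k w, C k w = Hk.map ℚ m (κ w) (cl ℚ m _ (z k)) := ⟨_, fun _ _ => rfl⟩
  have hT : ∀ e, ∃ T : (Cyc N → ℚ_[p]) →ₗ[ℚ] ℚ, ∀ u, T (P u) = S u e := by
    intro e
    obtain ⟨T, hT⟩ := hTTH m G N p φ hφ e Λ fun y hy => h2 hy
    refine ⟨T, fun u => ?_⟩
    rw [hP, hS]
    exact hT u
  have hzero : ∀ lam : HQ m (Cen (φ (gen N))) →ₗ[ℚ] ℚ,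
      ∑ k ∈ s, ∑ w ∈ W, (r k * lam (C k w)) • P (σ k w) = 0 := by
    refine ids_all (fun f => DenG m f) (fun c hc => hden.eq_zero hc) s W r C
      (fun k w => P (σ k w)) (fun lam hlam => ?_)
    have h4 := hTPD m G N p φ hφ K s r z v hF W X κ (fun w h => (hW w).2 h) hX
      (fun w hw z => by rw [hκ w hw]; rfl) lam hlam
    funext c
    rw [Finset.sum_apply, Pi.zero_apply]
    by_cases hc : Subgroup.zpowers c = ⊤
    · rw [← h4 c hc]
      refine Finset.sum_congr rfl fun k _ => ?_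
      rw [Finset.sum_apply, Finset.mul_sum]
      refine Finset.sum_congr rfl fun w _ => ?_
      rw [Pi.smul_apply, hP1 _ _ hc, Rat.smul_def, hσ, hC, Rat.cast_mul, mul_assoc]
    · refine Finset.sum_eq_zero fun k _ => ?_
      rw [Finset.sum_apply]
      refine Finset.sum_eq_zero fun w _ => ?_
      rw [Pi.smul_apply, hP0 _ _ hc, smul_zero]
  have h3 := TPC.lin S P hT s W r C σ hzero
  have h5 : ∑ k ∈ s, ∑ w ∈ W, r k * S (σ k w) (C k w) =
      (W.card : ℚ) * Λ (∑ k ∈ s, r k • sym1 (φ (gen N)) (cl ℚ m _ (z k)) (uG φ (v k))) := by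
    rw [map_sum, Finset.mul_sum]
    refine Finset.sum_congr rfl fun k _ => ?_
    have h6 : ∀ w ∈ W, r k * S (σ k w) (C k w) =
        Λ (r k • sym1 (φ (gen N)) (cl ℚ m _ (z k)) (uG φ (v k))) := by
      intro w hw
      have h7 := hTPA m G N φ hφ (cl ℚ m _ (z k)) (v k) (w : ZMod N).val (X w) (hX w hw)
        (TPC.hx φ w (X w) (hX w hw))
      rw [hS, hσ, hC, hκ w hw, map_smul, smul_eq_mul, ← h7]
      rfl
    rw [Finset.sum_congr rfl h6, Finset.sum_const, nsmul_eq_mul]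
  rw [h5] at h3
  exact (mul_eq_zero.1 h3).resolve_left
    (Nat.cast_ne_zero.2 (Finset.card_pos.2 ⟨1, hone⟩).ne')

open STP in
theorem t_STPs (hREP : S_REP) (hTTH : S_TTH) (hTPA : S_TPA) (hTPD : S_TPD) (m : ℕ) (G : Type)
    [Group G] (hDen : ∀ h : G, IsOfFinOrder h → h ≠ 1 → SepG m (Cen h)) (N : ℕ) (hN1 : 1 < N)
    (y : Src1 m G) (hy : y ∈ LowN m G (N + 1)) (hZ : ZRel y) : y ∈ LowN m G N := by
  classical
  have hN0 : 0 < N := by omega
  have : NeZero N := ⟨hN0.ne'⟩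
  obtain ⟨T, hT1, hT2, hT3⟩ := hREP m G N hN0
  let A : Set (Sy1 m G) := {s | orderOf (s.φ (gen s.N)) = s.N ∧
    (s.N < N ∨ (s.N = N ∧ s.φ (gen s.N) ∈ T))}
  have hy' : y ∈ Submodule.span ℚ (Sy1.val '' A) := by
    refine (Submodule.span_le.2 ?_) hy
    rintro x ⟨h, c, u, hadm, hord, rfl⟩
    obtain ⟨s, hs1, hs2, hs3⟩ := hT3 h c u hadm (Nat.lt_succ_iff.1 hord)
    exact Submodule.subset_span ⟨s, ⟨hs2, hs3⟩, hs1⟩
  obtain ⟨D, hDA, hD⟩ := (Finsupp.mem_span_image_iff_linearCombination ℚ).1 hy'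
  have hDA' : ∀ s ∈ D.support, s ∈ A := fun s hs => (Finsupp.mem_supported _ _).1 hDA hs
  have hval : y = ∑ s ∈ D.support, D s • s.val := by
    rw [← hD, Finsupp.linearCombination_apply]
    rfl
  have hle : ∀ s ∈ D.support, s.N ≤ N := by
    intro s hs
    rcases (hDA' s hs).2 with h | h
    · exact h.le
    · exact h.1.le
  rw [hval, ← Finset.sum_filter_add_sum_filter_not D.support (fun s => s.N = N)]
  refine Submodule.add_mem _ ?_ ?_
  · rw [← Finset.sum_fiberwise_of_maps_to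
      (t := (D.support.filter (fun s => s.N = N)).image (fun s => s.φ (gen s.N)))
      (g := fun s => s.φ (gen s.N)) (fun s hs => Finset.mem_image_of_mem _ hs)]
    refine Submodule.sum_mem _ fun t ht => ?_
    obtain ⟨s0, hs0, hs0t⟩ := Finset.mem_image.1 ht
    obtain ⟨hs0D, hs0N⟩ := Finset.mem_filter.1 hs0
    change s0.φ (gen s0.N) = t at hs0t
    have htT : t ∈ T := by
      rcases (hDA' s0 hs0D).2 with h | h
      · exact absurd hs0N h.ne
      · rw [← hs0t]; exact h.2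
    obtain ⟨φ, hφ, hφt⟩ := exists_phi s0 hs0N
    rw [hs0t] at hφt
    obtain ⟨p, hp, hpN⟩ := Nat.exists_prime_and_dvd hN1.ne'
    have : Fact p.Prime := ⟨hp⟩
    set S : Finset (Sy1 m G) :=
      (D.support.filter (fun s => s.N = N)).filter (fun s => s.φ (gen s.N) = t) with hS
    have hSm : ∀ s ∈ S, s ∈ D.support ∧ s.N = N ∧ s.φ (gen s.N) = φ (gen N) := by
      intro s hs
      rw [hS, Finset.mem_filter, Finset.mem_filter] at hs
      exact ⟨hs.1.1, hs.1.2, by rw [hφt]; exact hs.2⟩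
    have hzv : ∀ s : Sy1 m G, ∃ (z : ZC ℚ m (Cen (φ (gen N)))) (v : (MonoidAlgebra ℤ (Cyc N))ˣ),
        s.N = N → s.φ (gen s.N) = φ (gen N) →
        (s.val = sym1 (φ (gen N)) (cl ℚ m _ z) (uG φ v) ∧
        ∀ (p : ℕ) [Fact p.Prime] (F : (Fin (m + 1) → G) → G → ℚ),
          s.ev p F = ∑ c : Cyc N,
            ((evc (fun z : Cen (φ (gen N)) => (z : G)) F (psi ℚ m _ (ch ℚ m _ z)) (φ c) : ℚ) :
              ℚ_[p]) * plog p v c) := by
      intro s
      by_cases h : s.N = N ∧ s.φ (gen s.N) = φ (gen N)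
      · obtain ⟨z, v, h1, h2⟩ := exists_zv φ s h.1 h.2
        exact ⟨z, v, fun _ _ => ⟨h1, h2⟩⟩
      · exact ⟨0, 1, fun h1 h2 => absurd ⟨h1, h2⟩ h⟩
    choose z v hzv using hzv
    have hord : orderOf (φ (gen N)) = N := by rw [hφt]; exact hT1 t htT
    have key := t_TPCs hTTH hTPA hTPD m G N p φ hφ (hDen (φ (gen N)) (fin_gen φ) (by
      intro h1
      rw [h1, orderOf_one] at hord
      omega)) (Sy1 m G) S (fun s => D s) z v (by
      intro F hF
      have hF' : GCoch m (fun y => orderOf y = N) F :=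
        ⟨hF.inv, hF.coc, fun a y h => (hF.supp a y h).1, hF.den⟩
      have h0 := hZ D hD N hN0 hle p hpN F hF'
      have h1 : ev1 p F D = ∑ s ∈ D.support, ((D s : ℚ) : ℚ_[p]) * s.ev p F := by
        unfold ev1
        rw [Finsupp.linearCombination_apply]
        refine Finset.sum_congr rfl fun s _ => ?_
        exact Rat.smul_def _ _
      have h2 : ∑ s ∈ S, ((D s : ℚ) : ℚ_[p]) * s.ev p F =
          ∑ s ∈ D.support, ((D s : ℚ) : ℚ_[p]) * s.ev p F := by
        refine Finset.sum_subset (fun s hs => (hSm s hs).1) fun s hs hsS => ?_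
        rw [ev_zero s p F, mul_zero]
        intro c a
        by_contra hne
        obtain ⟨ho, x, hx⟩ := hF.supp a _ hne
        have hmem : s.φ c ∈ Subgroup.zpowers (s.φ (gen s.N)) := mem_zp s.φ c
        have hdvd := orderOf_dvd_of_mem_zpowers hmem
        obtain ⟨hA1, hA2⟩ := hDA' s hs
        rw [ho, hA1] at hdvd
        rcases hA2 with h | ⟨h, hsT⟩
        · exact absurd (Nat.le_of_dvd (Nat.pos_of_ne_zero (NeZero.ne s.N)) hdvd) (by omega)
        · have hfin : Finite (Subgroup.zpowers (s.φ (gen s.N))) :=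
            finite_zpowers.2 (fin_gen s.φ)
          have heq : Subgroup.zpowers (s.φ c) = Subgroup.zpowers (s.φ (gen s.N)) := by
            refine Subgroup.eq_of_le_of_card_ge (Subgroup.zpowers_le.2 hmem) ?_
            rw [Nat.card_zpowers, Nat.card_zpowers, ho, hA1, h]
          have hg : s.φ (gen s.N) ∈ Subgroup.zpowers (s.φ c) := by
            rw [heq]; exact Subgroup.mem_zpowers _
          obtain ⟨k, hk⟩ := Subgroup.mem_zpowers_iff.1 hg
          have hx2 : x * s.φ (gen s.N) * x⁻¹ ∈ Subgroup.zpowers t := by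
            rw [← hk, ← conj_zpow, ← hφt]
            exact Subgroup.zpow_mem _ hx k
          have := hT2 _ hsT t htT x hx2
          apply hsS
          rw [hS, Finset.mem_filter, Finset.mem_filter]
          exact ⟨⟨hs, h⟩, this⟩
      rw [← h1, h0] at h2
      rw [← h2]
      refine Finset.sum_congr rfl fun s hs => ?_
      rw [(hzv s (hSm s hs).2.1 (hSm s hs).2.2).2 p F])
    have h3 : ∑ s ∈ S, D s • s.val =
        ∑ k ∈ S, D k • sym1 (φ (gen N)) (cl ℚ m _ (z k)) (uG φ (v k)) :=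
      Finset.sum_congr rfl fun s hs => by rw [← (hzv s (hSm s hs).2.1 (hSm s hs).2.2).1]
    rw [h3]
    exact key
  · refine Submodule.sum_mem _ fun s hs => ?_
    obtain ⟨hsD, hsN⟩ := Finset.mem_filter.1 hs
    refine Submodule.smul_mem _ _ (val_mem s (hDA' s hsD).1 ?_)
    have := hle s hsD
    omega

theorem t_INDs (hREP : S_REP) (hTTH : S_TTH) (hTPA : S_TPA) (hTPD : S_TPD) (m : ℕ) (G : Type)
    [Group G] (hden : ∀ h : G, IsOfFinOrder h → h ≠ 1 → SepG m (Cen h)) (y : Src1 m G)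
    (hy : ZRel y) : y = 0 := by
  obtain ⟨N, hN, hyN⟩ := IND.exists_lowN y
  have key : ∀ k : ℕ, y ∈ LowN m G (k + 2) → y ∈ LowN m G 2 := by
    intro k
    induction k with
    | zero => exact id
    | succ k ih =>
      intro h
      exact ih (t_STPs hREP hTTH hTPA hTPD m G hden (k + 2) (by omega) y h hy)
  have h2 : y ∈ LowN m G 2 := by
    obtain ⟨k, rfl⟩ := Nat.exists_eq_add_of_le' hN
    exact key k hyN
  rw [IND.low2] at h2
  exact (Submodule.mem_bot ℚ).1 h2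

end Pool.Agent.FJA
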