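import Pool.Agent.FJA.FinD
import Pool.Agent.FJA.P_IDS

/-!
# The final theorem without finiteness hypotheses, from the modules
-/

set_option autoImplicit false
set_option linter.unusedSectionVars false

open Matrix Pool.Agent.WhK Pool.Agent.Lib25 CategoryTheory

noncomputable section

namespace Pool.Agent.FJA

/-- The theorem of phase 1 for `Pdg G n`, with the information that the values of `A` are combinations of the raw
classes. -/
theorem t_ALLz (hPRI : S_PRI.{0, 0, 0}) (hBD : S_BD.{0, 0, 0}) (hFLC : S_FLC)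
    (ε0 : ∀ N : ℕ, ℕ → IdemMat (LaurentPolynomial (MonoidAlgebra ℤ (Cyc N))))
    (hFIN : S_FNP ε0) (hT0 : S_T0 ε0) :
    ∃ ε : ∀ N : ℕ, ℕ → IdemMat (LaurentPolynomial (MonoidAlgebra ℤ (Cyc N))),
    ∀ (n : ℕ) (G : Type) [Group G], ∃ A : Src n G →ₗ[ℚ] KB n (MonoidAlgebra ℤ G),
      IsAssembly ε A ∧
      (∀ x : Src n G, A x ∈ Submodule.span ℚ (Set.range (rawV ε0 n G))) ∧
      (Pdg G n → ∀ (a : HQ (n + 1) (G × Multiplicative ℤ)) (x : Src n G),
          tau n G a + A x = 0 → a ∈ inG n G ∧ x ∈ UdSrc n G) := by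
  classical
  have hex : ∀ N p : ℕ, ∃ e : IdemMat (LaurentPolynomial (MonoidAlgebra ℤ (Cyc N))),
      KNegOne.of e = kapA ε0 N p := fun N p => KNegOne.exists_of _
  choose ε hε using hex
  refine ⟨ε, fun n G _ => ?_⟩
  obtain ⟨A, hA⟩ := exists_A hPRI hBD n (G := G) (kapA ε0)
    (by
      intro N _ p w hw
      rw [kapA_eq]
      exact H2.T_ak3 (fun u w x => Tw_Tw u w x) p w hw)
    (by
      intro N _
      simp only [kapA_eq]
      exact H2.sum_ak3 (fun u w x => Tw_Tw u w x))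
  -- the values of `A` in terms of raw classes
  have hAh : ∀ (p : ℕ) (h : G) (c : HQ (n + 1) (Cen h)), Adm p h → ∀ (N : ℕ) [NeZero N]
      (φ : Cyc N →* G) (_ : φ (gen N) = h)
      (H : ∀ (z : Cen h) c, Commute ((Cen h).subtype z) (φ c)), orderOf h = N →
      A (sym p h c) = prodG hPRI hBD n φ (Cen h).subtype H
        (H2.ak3 (Tw N) (fun q => KNegOne.of (ε0 N q)) p) c := by
    intro p h c hv N _ φ e H hN
    subst e
    rw [← kapA_eq]
    have hinj : Function.Injective φ := by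
      intro a b hab
      have h1 : φ (a * b⁻¹) = 1 := by rw [map_mul, map_inv, hab, mul_inv_cancel]
      have h2 := cyc_eq_pow (a * b⁻¹)
      rw [h2, map_pow] at h1
      have h3 := orderOf_dvd_of_pow_eq_one h1
      rw [hN] at h3
      have h4 := Nat.eq_zero_of_dvd_of_lt h3 (ZMod.val_lt _)
      rw [h4, pow_zero] at h2
      exact mul_inv_eq_one.1 h2
    exact hA N p φ c (Nat.pos_of_ne_zero (NeZero.ne N)) hv.1 (by rw [← hN]; exact hv.2.2) hinj
  have hAv : ∀ (p : ℕ) (h : G) (c : HQ (n + 1) (Cen h)), Adm p h →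
      ∃ (N : ℕ) (_ : NeZero N) (φ : Cyc N →* G)
        (H : ∀ (z : Cen h) c, Commute ((Cen h).subtype z) (φ c)), φ (gen N) = h ∧
        orderOf h = N ∧ Function.Injective φ ∧
        A (sym p h c) = prodG hPRI hBD n φ (Cen h).subtype H
          (H2.ak3 (Tw N) (fun q => KNegOne.of (ε0 N q)) p) c := by
    intro p h c hv
    have hpos : 0 < orderOf h := orderOf_pos_iff.2 hv.2.1
    have hNe : NeZero (orderOf h) := ⟨hpos.ne'⟩
    obtain ⟨φ, hφ⟩ := exists_cyc (N := orderOf h) h (pow_orderOf_eq_one h)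
    refine ⟨orderOf h, hNe, φ, fun z c => commute_cyc' hφ z c, hφ, rfl, ?_,
      hAh p h c hv (orderOf h) φ hφ _ rfl⟩
    intro a b hab
    have h1 : φ (a * b⁻¹) = 1 := by rw [map_mul, map_inv, hab, mul_inv_cancel]
    have h2 := cyc_eq_pow (a * b⁻¹)
    rw [h2, map_pow, hφ] at h1
    have h3 := orderOf_dvd_of_pow_eq_one h1
    have h4 := Nat.eq_zero_of_dvd_of_lt h3 (ZMod.val_lt _)
    rw [h4, pow_zero] at h2
    exact mul_inv_eq_one.1 h2
  -- the image of `A` is spanned by the raw classes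
  have hspan : ∀ x : Src n G, A x ∈ Submodule.span ℚ (Set.range (rawV ε0 n G)) := by
    intro x
    obtain ⟨y, hy⟩ := exists_rep x
    rw [hy, map_sum]
    refine Submodule.sum_mem _ fun s _ => ?_
    rw [map_smul]
    refine Submodule.smul_mem _ _ ?_
    by_cases hv : Adm s.p s.h
    swap
    · rw [sym_invalid s.p s.h s.c hv, map_zero]
      exact Submodule.zero_mem _
    · obtain ⟨N, _, φ, H, hφ, hord, hinj, e⟩ := hAv s.p s.h s.c hv
      rw [e]
      let Θ : KNegOne (MonoidAlgebra ℤ (Cyc N)) →+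
          (KB n (MonoidAlgebra ℤ G) ⧸ Submodule.span ℚ (Set.range (rawV ε0 n G))) :=
        { toFun := fun κ => (Submodule.span ℚ (Set.range (rawV ε0 n G))).mkQ
            (prodG hPRI hBD n φ (Cen s.h).subtype H κ s.c)
          map_zero' := by rw [map_zero, LinearMap.zero_apply, map_zero]
          map_add' := fun x y => by rw [map_add, LinearMap.add_apply, map_add] }
      have h5 := H2.ak3_induct (T := Tw N) (κ := fun q => KNegOne.of (ε0 N q))
        (fun u w x => Tw_Tw u w x) Θ (fun q hq w => by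
          change (Submodule.span ℚ (Set.range (rawV ε0 n G))).mkQ
            (prodG hPRI hBD n φ (Cen s.h).subtype H (Tw N w (KNegOne.of (ε0 N q))) s.c) = 0
          rw [Submodule.mkQ_apply, Submodule.Quotient.mk_eq_zero]
          have e' : (φ.comp (pw N w)) (gen N) = s.h ^ (w : ZMod N).val := by rw [pw_gen, hφ]
          rw [tw_raw hPRI hBD q φ H s.c w (Subgroup.pow_mem _ (Subgroup.mem_zpowers s.h) _)
            (fun z c => commute_cyc' e' z c)]
          have key : ∀ (ψ : Cyc N →* G) (h' : G) (_ : ψ (gen N) = h')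
              (H' : ∀ (z : Cen h') c, Commute ((Cen h').subtype z) (ψ c))
              (c' : HQ (n + 1) (Cen h')), Function.Injective ψ →
              prodG hPRI hBD n ψ (Cen h').subtype H' (KNegOne.of (ε0 N q)) c' ∈
                Submodule.span ℚ (Set.range (rawV ε0 n G)) := by
            intro ψ h' e H' c' hψ
            subst e
            have h6 := rawV_eq ε0 n G hPRI hBD ⟨N, q, ψ, c',
              Nat.pos_of_ne_zero (NeZero.ne N), Nat.prime_of_mem_primeFactors hq,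
              Nat.dvd_of_mem_primeFactors hq, hψ⟩
            change prodG hPRI hBD n ψ (Cen (ψ (gen N))).subtype (commute_cyc ψ)
              (KNegOne.of (ε0 N q)) c' = _ at h6
            rw [h6]
            exact Submodule.subset_span ⟨_, rfl⟩
          exact key _ _ e' _ _ (fun a b hab => inj_pw w (hinj hab))) s.p
        (Nat.mem_primeFactors.2 ⟨hv.1, by rw [← hord]; exact hv.2.2, NeZero.ne N⟩)
      change (Submodule.span ℚ (Set.range (rawV ε0 n G))).mkQ _ = 0 at h5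
      rw [Submodule.mkQ_apply, Submodule.Quotient.mk_eq_zero] at h5
      exact h5
  refine ⟨A, ?_, hspan, ?_⟩
  · intro N p φ c hN hp hpN hφ
    rw [hA N p φ c hN hp hpN hφ, ← hε]
    exact prodG_rhoC hPRI hBD n (ε N p) φ c
  · intro hP
    -- the kernel of `A`
    have hinjA : ∀ x : Src n G, A x = 0 → x ∈ UdSrc n G := by
      intro x hx
      obtain ⟨y, hy⟩ := exists_rep x
      refine t_SEP hPRI hBD x y hy ?_
      intro N0 L hL hsupp
      obtain ⟨F, hF⟩ := exists_FP hFIN hP hL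
      have hval : ∀ s : Sym n G, F (A (sym s.p s.h s.c)) =
          (omg N0 : ℚ) * L s.p s.h s.c := by
        intro s
        by_cases hv : Adm s.p s.h
        · obtain ⟨N, _, φ, H, hφ, hord, hinj, e⟩ := hAv s.p s.h s.c hv
          rw [e, val_ak3 hPRI hBD (Nat.mem_primeFactors.2
            ⟨hv.1, by rw [← hord]; exact hv.2.2, NeZero.ne N⟩) φ hinj hφ H s.c hL hF]
          by_cases hNN : N = N0
          · rw [hNN]
          · rw [hsupp s.p s.h (by rw [hord]; exact hNN), LinearMap.zero_apply, mul_zero, mul_zero]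
        · rw [sym_invalid s.p s.h s.c hv, map_zero, map_zero, hL.zero s.p s.h hv,
            LinearMap.zero_apply, mul_zero]
      have h1 : (omg N0 : ℚ) * ∑ s ∈ y.support, y s * L s.p s.h s.c = 0 := by
        have h2 := congrArg F hx
        rw [hy, map_sum, map_sum, map_zero] at h2
        rw [← h2, Finset.mul_sum]
        refine Finset.sum_congr rfl fun s _ => ?_
        rw [map_smul, map_smul, hval, smul_eq_mul]
        ring
      by_cases hex : ∃ s ∈ y.support, orderOf s.h = N0 ∧ Adm s.p s.h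
      · obtain ⟨s, hs, hs', hv⟩ := hex
        have h3 : (omg N0 : ℚ) ≠ 0 := omg_ne (p := s.p)
          (by rw [← hs']; exact orderOf_pos_iff.2 hv.2.1) hv.1 (by rw [← hs']; exact hv.2.2)
        exact (mul_eq_zero.1 h1).resolve_left h3
      · refine Finset.sum_eq_zero fun s hs => ?_
        by_cases hord : orderOf s.h = N0
        · rw [hL.zero s.p s.h (fun hv => hex ⟨s, hs, hord, hv⟩), LinearMap.zero_apply, mul_zero]
        · rw [hsupp s.p s.h hord, LinearMap.zero_apply, mul_zero]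
    have htau : ∀ a ∈ inG n G, tau n G a = 0 := by
      rintro _ ⟨c, rfl⟩
      exact tau_inl c
    intro a x hax
    obtain ⟨z, rfl⟩ := exists_cl (k := ℚ) a
    obtain ⟨q, hq⟩ := (Finsupp.mem_span_range_iff_exists_finsupp).1 (hspan x)
    have hmem : cl ℚ (n + 1) _ z ∈ inG n G := by
      by_contra hne
      obtain ⟨lam, h1, h2⟩ := Submodule.exists_le_ker_of_notMem hne
      obtain ⟨F, hF1, hF2, hF3, hF4⟩ := hFLC G n lam (fun c => by
        have h3 : Hk.map ℚ (n + 1) (MonoidHom.inl G (Multiplicative ℤ)) c ∈ inG n G := ⟨c, rfl⟩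
        exact h2 h3)
      apply h1
      rw [hF4]
      refine hT0 G n (Ix n G) q.support q (fun j => j.N) (fun j => j.p) (fun j => j.φ)
        (fun j => j.c) (fun j => j.hN) (fun j => j.hp) (fun j => j.hpN) (fun j => j.hφ) z ?_
        F hF1 hF2 hF3
      rw [← hax, ← hq]
      rfl
    have h3 := htau _ hmem
    rw [h3, zero_add] at hax
    exact ⟨hmem, hinjA x hax⟩

/-- The conclusion for the part with coefficients `K_1`. -/
theorem t_Y2 (hCON : S_CON) (hCNN : S_CNN) (hBRF : S_BRF) (hPLB : S_PLB)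
    (hREP : S_REP) (hTTH : S_TTH) (hTPA : S_TPA) (hTPD : S_TPD)
    (ε0 : ∀ N : ℕ, ℕ → IdemMat (LaurentPolynomial (MonoidAlgebra ℤ (Cyc N))))
    (v : ∀ (N : ℕ) (_ : ℕ) (q : ℕ), [Fact q.Prime] → Cyc N → ℚ_[q]) (K : ℕ → ℕ)
    (hND : NodeD ε0 v K) (m : ℕ) (G : Type) [Group G]
    (hb : (∃ b : ℕ, TorBd G b) ∨ m ≤ 1)
    (hsep : ∀ h : G, IsOfFinOrder h → h ≠ 1 → SepG m (Cen h))
    (A1 : Src1 m G →ₗ[ℚ] KB (m + 1) (MonoidAlgebra ℤ G)) (hA1 : IsA1 A1)
    (a : HQ (m + 2) (G × Multiplicative ℤ)) (V : KB (m + 1) (MonoidAlgebra ℤ G))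
    (hV : V ∈ Submodule.span ℚ (Set.range (rawV ε0 (m + 1) G))) (y : Src1 m G)
    (hrel : tau (m + 1) G a + V + A1 y = 0) : y = 0 := by
  classical
  refine t_INDs hREP hTTH hTPA hTPD m G hsep y ?_
  intro D hD N1 hN1 hle p _ hp F hF
  obtain ⟨D0, w0, hmem⟩ := hBRF ε0 m G A1 hA1 a V hV D (by rw [hD]; exact hrel)
  have hch : chn1 m G D = ∑ i : {s // s ∈ D.support}, D i.1 • E1 m i.1.φ i.1.u i.1.w := by
    have h1 : chn1 m G D = ∑ s ∈ D.support, D s • s.chn := rfl
    rw [h1, ← Finset.sum_coe_sort]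
    rfl
  have hev : ev1 p F D = ∑ i : {s // s ∈ D.support}, ((D i.1 : ℚ) : ℚ_[p]) *
      ∑ c : Cyc i.1.N, ((evc (fun z : Cen (i.1.φ (gen i.1.N)) => (z : G)) F i.1.w (i.1.φ c) : ℚ) :
        ℚ_[p]) * plog p i.1.u c := by
    have h1 : ev1 p F D = ∑ s ∈ D.support, D s • s.ev p F := rfl
    rw [h1, ← Finset.sum_coe_sort]
    refine Finset.sum_congr rfl fun i _ => ?_
    rw [Algebra.smul_def, eq_ratCast]
    rfl
  rw [hch] at hmem
  rw [hev]
  have hNe : ∀ i : {s // s ∈ D.support}, NeZero i.1.N := fun i => i.1.pos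
  have hw : ∀ i : {s // s ∈ D.support}, i.1.w ∈ cyc ℚ (Cen (i.1.φ (gen i.1.N))) m := fun i => by
    cases m with
    | zero => exact Submodule.mem_top
    | succ m => exact psi_ch_mem m i.1.z
  rcases hb with ⟨b, hb⟩ | hm
  · exact hCON G b hb p m N1 hN1 hp (fun y => orderOf y = N1) F (fun _ h => h) hF D0
      (fun j => ε0 (D0.N j) (D0.p j)) (fun j q _ => v (D0.N j) (D0.p j) q)
      (fun j => hND.loc (D0.N j) (D0.p j) (D0.dvd j)) w0 {s // s ∈ D.support} Finset.univ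
      (fun i => D i.1) (fun i => i.1.N) (fun i => i.1.φ) (fun i => i.1.u) (fun i => plog p i.1.u)
      (fun i => i.1.w) (fun i => hle i.1 i.2) (fun i => i.1.inj)
      (fun i => (hPLB p (Cyc i.1.N) i.1.u).1) hw hmem
  · exact hCNN G p m N1 hm hN1 hp (fun y => orderOf y = N1) F (fun _ h => h) hF D0
      (fun j => ε0 (D0.N j) (D0.p j)) (fun j q _ => v (D0.N j) (D0.p j) q)
      (fun j => hND.loc (D0.N j) (D0.p j) (D0.dvd j)) w0 {s // s ∈ D.support} Finset.univ
      (fun i => D i.1) (fun i => i.1.N) (fun i => i.1.φ) (fun i => i.1.u) (fun i => plog p i.1.u)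
      (fun i => i.1.w) (fun i => hle i.1 i.2) (fun i => i.1.inj)
      (fun i => (hPLB p (Cyc i.1.N) i.1.u).1) hw hmem

/-- The statement without finiteness hypotheses. -/
def S_ALL4 : Prop :=
  ∃ ε : ∀ N : ℕ, ℕ → IdemMat (LaurentPolynomial (MonoidAlgebra ℤ (Cyc N))),
    ∀ (G : Type) [Group G], ∃ (A : ∀ n : ℕ, Src n G →ₗ[ℚ] KB n (MonoidAlgebra ℤ G))
      (B : ∀ m : ℕ, Src1 m G →ₗ[ℚ] KB (m + 1) (MonoidAlgebra ℤ G)),
      (∀ n : ℕ, IsAssembly ε (A n)) ∧ (∀ m : ℕ, IsA1 (B m)) ∧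
      (∀ n : ℕ, ∀ a ∈ inG n G, tau n G a = 0) ∧
      ∀ n : ℕ, ((∃ b : ℕ, ∀ h : G, IsOfFinOrder h → orderOf h ≤ b) ∨ n ≤ 2) →
        (∀ (a : HQ (n + 1) (G × Multiplicative ℤ)) (x : Src n G),
          tau n G a + A n x = 0 → a ∈ inG n G ∧ x ∈ UdSrc n G) ∧
        ∀ m : ℕ, n = m + 1 → (∀ h : G, IsOfFinOrder h → h ≠ 1 → SepG m (Cen h)) →
        ∀ (a : HQ (m + 2) (G × Multiplicative ℤ)) (x : Src (m + 1) G) (y : Src1 m G),
          tau (m + 1) G a + A (m + 1) x + B m y = 0 →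
            a ∈ inG (m + 1) G ∧ x ∈ UdSrc (m + 1) G ∧ y = 0

theorem t_ALL4 (hPRI : S_PRI.{0, 0, 0}) (hBD : S_BD.{0, 0, 0}) (hFLC : S_FLC)
    (ε0 : ∀ N : ℕ, ℕ → IdemMat (LaurentPolynomial (MonoidAlgebra ℤ (Cyc N))))
    (hFIN : S_FNP ε0) (hT0 : S_T0 ε0) (hCON : S_CON) (hCNN : S_CNN) (hBRF : S_BRF) (hPLB : S_PLB)
    (hREP : S_REP) (hTTH : S_TTH) (hTPA : S_TPA) (hTPD : S_TPD) (hAS1 : S_AS1)
    (v : ∀ (N : ℕ) (_ : ℕ) (q : ℕ), [Fact q.Prime] → Cyc N → ℚ_[q]) (K : ℕ → ℕ)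
    (hND : NodeD ε0 v K) (hPDT : S_PDT) (hPD2 : ∀ (G : Type) [Group G] (n : ℕ), n ≤ 2 → Pdg G n) :
    S_ALL4 := by
  obtain ⟨ε, hε⟩ := t_ALLz hPRI hBD hFLC ε0 hFIN hT0
  refine ⟨ε, fun G _ => ?_⟩
  choose A hA hspan hinj using fun n => hε n G
  choose B hB using fun m => hAS1 m G
  refine ⟨A, B, hA, hB, ?_, ?_⟩
  · rintro n _ ⟨c, rfl⟩
    exact tau_inl c
  intro n hn
  have hP : Pdg G n := by
    rcases hn with ⟨b, hb⟩ | hn
    · exact hPDT G b hb n
    · exact hPD2 G n hn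
  refine ⟨hinj n hP, ?_⟩
  rintro m rfl hsep a x y hrel
  have hy : y = 0 := t_Y2 hCON hCNN hBRF hPLB hREP hTTH hTPA hTPD ε0 v K hND m G
    (hn.imp id fun h => Nat.le_of_succ_le_succ h)
    hsep (B m) (hB m) a (A (m + 1) x) (hspan (m + 1) x) y hrel
  subst hy
  rw [map_zero, add_zero] at hrel
  have h1 := hinj (m + 1) hP a x hrel
  exact ⟨h1.1, h1.2, rfl⟩

end Pool.Agent.FJA
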