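import Pool.Agent.FJA.St7

/-!
# UCZ: universal coefficients, including degree `0`
-/

set_option autoImplicit false

open Matrix Pool.Agent.WhK Pool.Agent.Lib25 CategoryTheory

noncomputable section

namespace Pool.Agent.FJA

namespace UCZ

/-- every chain of degree `0` is a cycle -/
theorem exists_ch_zero (P : Type) [Group P] (z : IC ℚ 0 P) : ∃ x, ch ℚ 0 P x = z := by
  have h0 : (groupHomology.inhomogeneousChains (Tk ℚ P)).d 0 0 = 0 :=
    (groupHomology.inhomogeneousChains (Tk ℚ P)).shape 0 0 (by simp)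
  have h2 : ((groupHomology.inhomogeneousChains (Tk ℚ P)).d 0 0).hom z = 0 := by
    rw [h0]
    rfl
  exact ⟨groupHomology.cyclesMk 0 0 (by simp) z h2, groupHomology.iCycles_mk _ _ _⟩

/-- the boundary of a chain of degree `1` -/
theorem dI_zero (P : Type) [Group P] (y : IC ℚ 1 P) : dI ℚ 0 P y = 0 := by
  induction y using Finsupp.induction_linear with
  | zero => exact map_zero _
  | add f g hf hg => rw [map_add, hf, hg, add_zero]
  | single g q =>
    rw [dI_single, Fin.sum_univ_one, Subsingleton.elim (Fin.contractNth 0 (· * ·) g)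
      (fun i => g i.succ)]
    simp

end UCZ

theorem t_UCZ : S_UCT → S_UCZ := by
  intro hU
  refine ⟨fun P _ z => UCZ.exists_ch_zero P z, fun P _ m hfin lam => ?_⟩
  cases m with
  | succ m => exact hU P m hfin lam
  | zero =>
    obtain ⟨z1, hz1⟩ := UCZ.exists_ch_zero P (Finsupp.single default 1)
    obtain ⟨a, D, hD, hlam⟩ : ∃ (a : ℤ) (D : ℕ), 0 < D ∧ (D : ℚ) * lam (cl ℚ 0 P z1) = a := by
      refine ⟨(lam (cl ℚ 0 P z1)).num, (lam (cl ℚ 0 P z1)).den, (lam (cl ℚ 0 P z1)).pos, ?_⟩
      exact Rat.den_mul_eq_num _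
    refine ⟨D, fun _ => a, hD, fun y => ?_, fun x => ?_⟩
    · rw [UCZ.dI_zero, map_zero]
    · obtain ⟨q, hq⟩ : ∃ q : ℚ, ch ℚ 0 P x = Finsupp.single default q :=
        ⟨ch ℚ 0 P x default, Finsupp.ext fun i => by
          rw [Subsingleton.elim i default, Finsupp.single_eq_same]⟩
      have h1 : cl ℚ 0 P x = cl ℚ 0 P (q • z1) := by
        refine cl_congr ?_
        rw [map_smul, hz1, hq, Finsupp.smul_single, smul_eq_mul, mul_one]
      rw [h1, map_smul, map_smul, smul_eq_mul, hq, pair_single, ← hlam]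
      ring

end Pool.Agent.FJA
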