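import Pool.Agent.FJA.FinG
import Pool.Agent.FJA.P_IND
import Pool.Agent.FJA.SDefsE
import Pool.Agent.FJA.P_UCT
import Pool.Agent.FJA.P_UCZ

/-!
# The statement without finiteness hypotheses in terms of the definitions of the hand-in
-/

set_option autoImplicit false
set_option linter.unusedSectionVars false

open Matrix Pool.Agent.WhK Pool.Agent.Lib25 CategoryTheory

noncomputable section

namespace Pool.Agent.FJA

section

variable {P : Type} [Group P]

/-- In degree `0` all functionals are integral up to a multiple. -/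
theorem denG_zero (lam : Hk ℚ 0 P →ₗ[ℚ] ℚ) : DenG 0 lam := by
  obtain ⟨z1, hz1⟩ := UCZ.exists_ch_zero P (Finsupp.single default 1)
  obtain ⟨a, D, hD, hlam⟩ : ∃ (a : ℤ) (D : ℕ), 0 < D ∧ (D : ℚ) * lam (cl ℚ 0 P z1) = a := by
    refine ⟨(lam (cl ℚ 0 P z1)).num, (lam (cl ℚ 0 P z1)).den, (lam (cl ℚ 0 P z1)).pos, ?_⟩
    exact Rat.den_mul_eq_num _
  refine ⟨D, fun _ => a, hD, fun y => ?_, fun x => ?_⟩
  · rw [UCZ.dI_zero, map_zero]
  · obtain ⟨q, hq⟩ : ∃ q : ℚ, ch ℚ 0 P x = Finsupp.single default q :=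
      ⟨ch ℚ 0 P x default, Finsupp.ext fun i => by
        rw [Subsingleton.elim i default, Finsupp.single_eq_same]⟩
    have h1 : cl ℚ 0 P x = cl ℚ 0 P (q • z1) := by
      refine cl_congr ?_
      rw [map_smul, hz1, hq, Finsupp.smul_single, smul_eq_mul, mul_one]
    rw [h1, map_smul, map_smul, smul_eq_mul, hq, pair_single, ← hlam]
    ring

theorem isInt_den {m : ℕ} {f : Hk ℚ m P →ₗ[ℚ] ℚ} (hf : IsInt m P f) : DenG m f := by
  cases m with
  | zero => exact denG_zero f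
  | succ m =>
    obtain ⟨μ, hμ, hμd⟩ := UCT.step1 m f
    obtain ⟨θ, g, hg⟩ := UCT.step3 m μ (by
      intro z hz
      have h1 : dI ℚ m P (UCT.bc (m + 1) P z) = 0 := by
        rw [← UCT.bc_dI, hz, map_zero]
      obtain ⟨x, hx⟩ := exists_ch _ h1
      rw [← hx, hμ]
      refine hf x fun g => ⟨z g, ?_⟩
      have h2 : ch ℚ (m + 1) P x g = UCT.bc (m + 1) P z g := by rw [hx]
      exact h2)
    have key : ∀ w : IC ℚ (m + 1) P, pair (fun x => (g x : ℚ)) w =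
        μ w - pair θ (dI ℚ m P w) := by
      intro w
      have h1 : (fun x => (g x : ℚ)) = fun x =>
          (μ - (pair θ).comp (dI ℚ m P)) (Finsupp.single x 1) := by
        funext x
        rw [hg x]
        rfl
      rw [h1, UCT.pair_eq]
      rfl
    refine ⟨1, g, one_pos, fun y => ?_, fun x => ?_⟩
    · rw [key, hμd, zero_sub, UCT.dd, map_zero, neg_zero]
    · rw [key, hμ, d_ch, map_zero, sub_zero, Nat.cast_one, one_mul]

theorem den_isInt {m : ℕ} {f : Hk ℚ m P →ₗ[ℚ] ℚ} (hf : DenG m f) :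
    ∃ D : ℕ, 0 < D ∧ IsInt m P ((D : ℚ) • f) := by
  obtain ⟨D, g, hD, -, h2⟩ := hf
  refine ⟨D, hD, fun z hz => ?_⟩
  have h3 : ((D : ℚ) • f) (hcl m P z) = pair (fun x => (g x : ℚ)) (ch ℚ m P z) := h2 z
  rw [h3]
  choose k hk using hz
  refine ⟨∑ x ∈ (ch ℚ m P z).support, k x * g x, ?_⟩
  unfold pair
  rw [Finsupp.linearCombination_apply, Finsupp.sum]
  push_cast
  refine Finset.sum_congr rfl fun x _ => ?_
  rw [smul_eq_mul]
  congr 1
  exact hk x

theorem und_iff {m : ℕ} (c : HQ m P) : Und m P c ↔ c ∈ UdG m P := by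
  constructor
  · intro h lam hlam
    obtain ⟨D, hD, h1⟩ := den_isInt hlam
    have h2 := h _ h1
    rw [LinearMap.smul_apply, smul_eq_mul] at h2
    exact (mul_eq_zero.1 h2).resolve_left (Nat.cast_ne_zero.2 hD.ne')
  · intro h f hf
    exact h f (isInt_den hf)

theorem und_fin {m : ℕ} (h : m = 0 ∨ Module.Finite ℤ (HZ m P)) (c : HQ m P) (hc : Und m P c) :
    c = 0 := by
  rw [und_iff] at hc
  rw [← Module.forall_dual_apply_eq_zero_iff ℚ c]
  intro lam
  refine hc lam ?_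
  rcases h with rfl | h
  · exact denG_zero lam
  · exact (t_UCZ t_UCT).2 P m h lam

end

theorem udSrc_le (n : ℕ) (G : Type) [Group G] (x : Src n G) (hx : x ∈ UdSrc n G) :
    (show SrcN n G from x) ∈ UndN n G := by
  unfold UdSrc at hx
  induction hx using Submodule.span_induction with
  | mem x h =>
    obtain ⟨p, h, c, hadm, hc, rfl⟩ := h
    refine Submodule.subset_span ⟨p, h, c, hadm.2.1, ?_, (und_iff c).2 hc, rfl⟩
    rintro rfl
    have h1 := hadm.2.2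
    rw [orderOf_one] at h1
    exact hadm.1.one_lt.ne' (Nat.dvd_one.1 h1)
  | zero => exact (UndN n G).zero_mem
  | add x y _ _ hx hy => exact (UndN n G).add_mem hx hy
  | smul q x _ hx => exact (UndN n G).smul_mem q hx

theorem udSrc1_le (m : ℕ) (G : Type) [Group G] : UdSrc1 m G ≤ Und1 m G := by
  unfold UdSrc1
  rw [Submodule.span_le]
  rintro _ ⟨h, c, u, hadm, hc, rfl⟩
  by_cases h1 : h = 1
  · have h2 : sym1 h c u ∈ LowN m G 2 :=
      Submodule.subset_span ⟨h, c, u, hadm, by rw [h1, orderOf_one]; norm_num, rfl⟩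
    rw [IND.low2, Submodule.mem_bot] at h2
    rw [h2]
    exact (Und1 m G).zero_mem
  · exact Submodule.subset_span ⟨h, c, u, hadm.1, h1, (und_iff c).2 hc, rfl⟩

/-- The final statement. -/
def S_ALL7 : Prop :=
  (∃ ε : ∀ N : ℕ, ℕ → IdemMat (LaurentPolynomial (MonoidAlgebra ℤ (Cyc N))),
    ∀ (G : Type) [Group G], ∃ (A : ∀ n : ℕ, SrcN n G →ₗ[ℚ] Kb n (MonoidAlgebra ℤ G))
      (B : ∀ m : ℕ, Src1 m G →ₗ[ℚ] Kb (m + 1) (MonoidAlgebra ℤ G)),
      (∀ n : ℕ, IsAsm ε (A n)) ∧ (∀ m : ℕ, IsAsm1 (B m)) ∧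
      (∀ n : ℕ, ∀ a ∈ inG n G, tauN n G a = 0) ∧
      ∀ n : ℕ, ((∀ p : ℕ, p.Prime → ∃ c : ℕ, ∀ h : G, IsOfFinOrder h → ¬ p ^ c ∣ orderOf h) ∨
          n ≤ 2) →
        (∀ (a : HQ (n + 1) (G × Multiplicative ℤ)) (x : SrcN n G),
          tauN n G a + A n x = 0 → a ∈ inG n G ∧ x ∈ UndN n G) ∧
        ∀ m : ℕ, n = m + 1 →
        ∀ (a : HQ (m + 2) (G × Multiplicative ℤ)) (x : SrcN (m + 1) G) (y : Src1 m G),
          tauN (m + 1) G a + A (m + 1) x + B m y = 0 → y ∈ Und1 m G) ∧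
  ∀ (P : Type) [Group P] (m : ℕ), (m = 0 ∨ Module.Finite ℤ (HZ m P)) → ∀ c, Und m P c → c = 0

theorem t_ALL7 (h : S_ALL6 (fun G _ => ∀ p : ℕ, p.Prime → TorP G p)) : S_ALL7 := by
  refine ⟨?_, fun P _ m h c hc => und_fin h c hc⟩
  obtain ⟨ε, hε⟩ := h
  refine ⟨ε, fun G _ => ?_⟩
  obtain ⟨A, B, hA, hB, h0, h1⟩ := hε G
  refine ⟨A, B, hA, hB, h0, fun n hn => ?_⟩
  obtain ⟨h2, h3⟩ := h1 n hn
  refine ⟨fun a x hax => ?_, ?_⟩
  · obtain ⟨h4, h5⟩ := h2 a x hax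
    exact ⟨h4, udSrc_le n G x h5⟩
  · rintro m rfl a x y hrel
    exact udSrc1_le m G (h3 m rfl a x y hrel)

end Pool.Agent.FJA
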