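import Pool.Agent.FJA.St7

/-!
# TPB: the evaluation for the conjugates of a generator
-/

set_option autoImplicit false

open Matrix Pool.Agent.WhK Pool.Agent.Lib25 CategoryTheory

noncomputable section

namespace Pool.Agent.FJA

namespace TPB

section Maps

variable {P Q : Type} [Group P] [Group Q]

theorem contractNth_comp (κ : P →* Q) {m : ℕ} (j : Fin (m + 1)) (g : Fin (m + 1) → P) :
    κ ∘ (j.contractNth (· * ·) g) = j.contractNth (· * ·) (κ ∘ g) := by
  funext i
  rw [Function.comp_apply]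
  rcases lt_trichotomy (i : ℕ) (j : ℕ) with h | h | h
  · rw [Fin.contractNth_apply_of_lt _ _ _ _ h, Fin.contractNth_apply_of_lt _ _ _ _ h,
      Function.comp_apply]
  · rw [Fin.contractNth_apply_of_eq _ _ _ _ h, Fin.contractNth_apply_of_eq _ _ _ _ h, map_mul,
      Function.comp_apply, Function.comp_apply]
  · rw [Fin.contractNth_apply_of_gt _ _ _ _ h, Fin.contractNth_apply_of_gt _ _ _ _ h,
      Function.comp_apply]

theorem map_dI (κ : P →* Q) (m : ℕ) (y : IC ℚ (m + 1) P) :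
    IC.map ℚ m κ (dI ℚ m P y) = dI ℚ m Q (IC.map ℚ (m + 1) κ y) := by
  induction y using Finsupp.induction_linear with
  | zero => simp only [map_zero]
  | add f g hf hg => simp only [map_add, hf, hg]
  | single g q =>
    rw [dI_single, IC.map_single, dI_single, map_add, map_sum, IC.map_single]
    congr 1
    refine Finset.sum_congr rfl fun j _ => ?_
    rw [map_smul, IC.map_single, contractNth_comp]

theorem pair_map {m : ℕ} (κ : P → Q) (f : (Fin m → Q) → ℚ) (y : IC ℚ m P) :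
    pair (fun g => f (κ ∘ g)) y = pair f (IC.map ℚ m κ y) := by
  induction y using Finsupp.induction_linear with
  | zero => simp only [map_zero]
  | add f g hf hg => simp only [map_add, hf, hg]
  | single g q => rw [pair_single, IC.map_single, pair_single]

theorem denG_comp {m : ℕ} (κ : P →* Q) {lam : Hk ℚ m Q →ₗ[ℚ] ℚ} (h : DenG m lam) :
    DenG m (lam ∘ₗ Hk.map ℚ m κ) := by
  obtain ⟨D, f, hD, h1, h2⟩ := h
  refine ⟨D, fun g => f (κ ∘ g), hD, fun y => ?_, fun x => ?_⟩
  · rw [pair_map κ (fun g => (f g : ℚ)), map_dI, h1]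
  · obtain ⟨y, h3, h4⟩ := Hk.map_cl κ x
    rw [LinearMap.comp_apply, h3, h2, h4, pair_map κ (fun g => (f g : ℚ))]

end Maps

end TPB

open TPB in
theorem t_TPB : S_FAV → S_TPB := by
  intro hFAV m G _ N _ φ _ lam hden c hc
  have h1 : φ (gen N) ∈ Subgroup.zpowers (φ c) := by
    have h : gen N ∈ Subgroup.zpowers c := by
      rw [hc]
      exact Subgroup.mem_top _
    obtain ⟨k, hk⟩ := Subgroup.mem_zpowers_iff.1 h
    exact Subgroup.mem_zpowers_iff.2 ⟨k, by rw [← map_zpow, hk]⟩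
  have h2 : φ c ∈ Subgroup.zpowers (φ (gen N)) := by
    rw [cyc_eq_pow c, map_pow]
    exact Subgroup.pow_mem _ (Subgroup.mem_zpowers _) _
  let κ0 : Cen (φ c) →* Cen (φ (gen N)) := cHom 1 (cHom_pow (φ c) h1)
  obtain ⟨F, hF, hval⟩ := hFAV G m (φ c) (lam ∘ₗ Hk.map ℚ m κ0) (denG_comp κ0 hden)
  refine ⟨F, hF, fun z c' x hx Hx => ?_⟩
  have Hx' : ∀ z ∈ Cen (φ (gen N)), x * z * x⁻¹ ∈ Cen (φ c) := by
    intro z hz
    have h3 := cHom_pow (φ (gen N)) h2 _ (Hx z hz)
    rwa [one_mul, inv_one, mul_one] at h3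
  let κ : Cen (φ (gen N)) →* Cen (φ c) := cHom x Hx'
  have h4 := hval (Cen (φ (gen N))) (Cen (φ (gen N))).subtype x κ (fun _ => rfl) z
  have h5 : x⁻¹ * φ c * x = φ c' := by
    rw [← hx]
    group
  have h6 : κ0.comp κ = cHom x Hx := by
    ext z
    change (1 : G) * (x * z * x⁻¹) * 1⁻¹ = x * z * x⁻¹
    rw [one_mul, inv_one, mul_one]
  rw [h5, LinearMap.comp_apply, ← Hk.map_comp, h6] at h4
  exact h4

end Pool.Agent.FJA
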