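import Pool.Agent.FJA.P_CNN
import Pool.Agent.FJA.P_EVK
import Pool.Agent.FJA.P_SEP

/-!
# CNK: the conclusion for the units, with undetected symbols of arbitrary order

As CNN, but the orders `N i` of the symbols whose classes are not detected by the families of cocycles are
arbitrary.
-/

set_option autoImplicit false

open Matrix Pool.Agent.WhK Pool.Agent.Lib25

noncomputable section

namespace Pool.Agent.FJA

/-- No family of cocycles detects the cycle `w` of the centraliser of `φ (gen N)` at the elements of the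
image of `φ`. -/
def NoEv {G : Type} [Group G] {N : ℕ} (m : ℕ) (φ : Cyc N →* G)
    (w : (Fin (m + 1) → Cen (φ (gen N))) →₀ ℚ) : Prop :=
  ∀ (S : G → Prop) (F : (Fin (m + 1) → G) → G → ℚ), GCoch m S F → ∀ c : Cyc N,
    evc (fun z : Cen (φ (gen N)) => (z : G)) F w (φ c) = 0

/-- The statement of CNN with undetected symbols. -/
def S_CNK : Prop := ∀ (G : Type) [Group G] (p : ℕ) [Fact p.Prime]
    (m N1 : ℕ), m ≤ 1 → 0 < N1 → p ∣ N1 → ∀ (S : G → Prop) (F : (Fin (m + 1) → G) → G → ℚ),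
    (∀ y, S y → orderOf y = N1) → GCoch m S F →
    ∀ (D : Dat G (m + 1)) (e : ∀ j, IdemMat (LaurentPolynomial (MonoidAlgebra ℤ (Cyc (D.N j)))))
      (v : ∀ (j : D.J) (q : ℕ), [Fact q.Prime] → Cyc (D.N j) → ℚ_[q]),
    (∀ j, LocE (e j) (fun q _ => v j q)) →
    ∀ (w0 : (Fin (m + 3) → G × Multiplicative ℤ) →₀ ℚ)
      (I : Type) (t : Finset I) (q : I → ℚ) (N : I → ℕ) [∀ i, NeZero (N i)]
      (φ : ∀ i, Cyc (N i) →* G) (u : ∀ i, (MonoidAlgebra ℤ (Cyc (N i)))ˣ)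
      (l : ∀ i, Cyc (N i) → ℚ_[p]) (w : ∀ i, (Fin (m + 1) → Cen (φ i (gen (N i)))) →₀ ℚ),
    (∀ i, N i ≤ N1 ∨ NoEv m (φ i) (w i)) → (∀ i, Function.Injective (φ i)) →
    (∀ i, IsPlog p (u i : MonoidAlgebra ℤ (Cyc (N i))) (l i)) →
    (∀ i, w i ∈ cyc ℚ (Cen (φ i (gen (N i)))) m) →
    D.ch e + (kinS (LaurentPolynomial (MonoidAlgebra ℤ G)) (m + 3) 1
        (hmap ℚ (gl1 mon) (m + 3) w0) + ∑ i ∈ t, q i • E1 m (φ i) (u i) (w i)) ∈
      LinearMap.range (bdS (LaurentPolynomial (MonoidAlgebra ℤ G)) (m + 3)) ⊔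
        Kil (MonoidAlgebra ℤ G) (m + 3) →
    ∑ i ∈ t, (q i : ℚ_[p]) * ∑ c : Cyc (N i),
      ((evc (fun z : Cen (φ i (gen (N i))) => (z : G)) F (w i) (φ i c) : ℚ) : ℚ_[p]) * l i c = 0

open CON in
/-- **Module CNK** -/
theorem t_CNK (hlmn : S_LMN) (hewn : S_EWN) (hepn : S_EPN) (hlin : S_LIN) (hmrn : S_MRN)
    (hpnt : S_PNT) (havs : S_AVS) (hrsn : S_RSN) : S_CNK := by
  classical
  intro G _ p _ m N1 hm hN1 hpN1 S F0 hS hF0 D e v hloc w0 I t q N _ φ u l w hN hinj hlog hw hrel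
  obtain ⟨F, hF, hB, hev⟩ := t_BAS G m N1 hN1 S F0 hS hF0
  have hgoal : ∀ i, ∀ c : Cyc (N i),
      evc (fun z : Cen (φ i (gen (N i))) => (z : G)) F0 (w i) (φ i c) =
      evc (fun z : Cen (φ i (gen (N i))) => (z : G)) F (w i) (φ i c) := fun i c =>
    (hev (φ i (gen (N i))) (φ i c) (mem_zp (φ i) c) (w i) (hw i)).symm
  simp only [hgoal]
  set t1 := t.filter (fun i => N i ≤ N1) with ht1
  have hred : ∑ i ∈ t, (q i : ℚ_[p]) * ∑ c : Cyc (N i),
      ((evc (fun z : Cen (φ i (gen (N i))) => (z : G)) F (w i) (φ i c) : ℚ) : ℚ_[p]) * l i c =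
      ∑ i ∈ t1, (q i : ℚ_[p]) * ∑ c : Cyc (N i),
      ((evc (fun z : Cen (φ i (gen (N i))) => (z : G)) F (w i) (φ i c) : ℚ) : ℚ_[p]) * l i c := by
    rw [ht1, Finset.sum_filter]
    refine Finset.sum_congr rfl fun i _ => ?_
    split_ifs with h
    · rfl
    · have h1 := (hN i).resolve_left h S F hF
      simp only [h1, Rat.cast_zero, zero_mul, Finset.sum_const_zero, mul_zero]
  rw [hred]
  obtain ⟨Pt, dl, hPt⟩ := hpnt (G × Multiplicative ℤ)
  obtain ⟨hs, hrs, -⟩ := havs (G × Multiplicative ℤ) Pt dl hPt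
  have hp : p.Prime := Fact.out
  have hpB : N1 < p ^ N1 := Nat.lt_pow_self hp.one_lt
  have hNB : ∀ i, N i ≤ N1 → N i < p ^ N1 := fun i hi => lt_of_le_of_lt hi hpB
  have hSf : ∀ y, S y → IsOfFinOrder y := fun y hy => by
    rw [← orderOf_pos_iff, hS y hy]
    exact hN1
  have hSp : ∀ y, S y → IsOfFinOrder y ∧ p ∣ orderOf y := fun y hy =>
    ⟨hSf y hy, by rw [hS y hy]; exact hpN1⟩
  obtain ⟨C, hC⟩ := hlmn G p m N1 hm hN1 S F hS hF Pt dl hPt D e v hloc _ hrel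
  have hord : ∀ i, ∀ c : Cyc (N i), orderOf (φ i c) = orderOf c := fun i c =>
    orderOf_injective (φ i) (hinj i) c
  have htop : ∀ i, N i ≤ N1 → ∀ c : Cyc (N i), S (φ i c) → Subgroup.zpowers c = ⊤ :=
    fun i hi c hc => zpowers_top hi (by rw [← hord i c]; exact hS _ hc)
  -- the value on the chains of the units
  set a : ∀ i, Cyc (N i) → ℚ_[p] := fun i c =>
    ((evc (fun z : Cen (φ i (gen (N i))) => (z : G)) F (w i) (φ i c) : ℚ) : ℚ_[p]) with ha
  have hval : ∀ r : ℕ, ∃ k0 : ℕ, ∀ k, k0 ≤ k → r + N1 ≤ k → (∀ i ∈ t, r + N i ≤ k) →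
      ∀ j : List (G × Multiplicative ℤ) → G × Multiplicative ℤ → ZMod (p ^ r),
      MrkG (G × Multiplicative ℤ) p k r j →
      ‖∑ i ∈ t1, (q i : ℚ_[p]) * ∑ c : Cyc (N i), a i c *
        TX (lamN p k r (rsJ (φ i) j) c) (p ^ k) ![1, sc (uZ p (u i))]‖ ≤
        C * (p : ℝ) ^ (-(k + r : ℤ)) := by
    intro r
    obtain ⟨k0, hk0⟩ := hC r
    refine ⟨k0, fun k hk hrk hkt j hj => ?_⟩
    have hk1 := (hk0 k hk).1
    have h1 := (hk0 k hk).2 j hj
    have hpk : p * p ^ (k - 1) = p ^ k := by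
      rw [← pow_succ', Nat.sub_add_cancel hk1]
    -- the undetected terms
    have z4 : ∀ i ∈ t, ¬ N i ≤ N1 → ∀ e K : ℕ, 0 < e → e * K = p ^ k →
        TS ℚ_[p] (EPN.psE p k r (cup F) (avS Pt) j e) K (E1 m (φ i) (u i) (w i)) = 0 := by
      intro i hi hni e K he heK
      rw [EVK.ewk (φ i) hrsn p k (N i) r m (hinj i) (Nat.lt_pow_self hp.one_lt) (hkt i hi) S F hSp
        hF (EVK.cbas_low (φ i) hm hF) (avS Pt) hs j hj e K he heK (u i) (w i)]
      have h5 := (hN i).resolve_left hni S F hF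
      simp only [h5, Rat.cast_zero, zero_mul, Finset.sum_const_zero]
    have z1 := hepn.2 G p k r m (p ^ k) 1 one_pos F (avS Pt) j w0
    have z2 := hepn.2 G p k r m (p ^ (k - 1)) p hp.pos F (avS Pt) j w0
    simp only [pow_one] at z1
    have z3 : ∀ i ∈ t, TS ℚ_[p] (fun μ => psiN p k r (cup F) (avS Pt) j (μ ^ p)) (p ^ (k - 1))
        (E1 m (φ i) (u i) (w i)) = 0 := by
      intro i hi
      by_cases hni : N i ≤ N1
      · exact hepn.1 G p k r m (N i) N1 (p ^ (k - 1)) (φ i) (hinj i) hni hpN1 hN1 S F hS hF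
          (avS Pt) j (u i) (w i)
      · exact z4 i hi hni p (p ^ (k - 1)) hp.pos hpk
    have h3 : TS ℚ_[p] (fun μ => psiN p k r (cup F) (avS Pt) j (μ ^ p)) (p ^ (k - 1))
        (∑ i ∈ t, q i • E1 m (φ i) (u i) (w i)) = 0 := by
      rw [map_sum]
      refine Finset.sum_eq_zero fun i hi => ?_
      rw [map_smul, z3 i hi, smul_zero]
    have h2 : TS ℚ_[p] (psiN p k r (cup F) (avS Pt) j) (p ^ k)
        (∑ i ∈ t, q i • E1 m (φ i) (u i) (w i)) = ∑ i ∈ t1, (q i : ℚ_[p]) * ∑ c : Cyc (N i), a i c *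
        TX (lamN p k r (rsJ (φ i) j) c) (p ^ k) ![1, sc (uZ p (u i))] := by
      rw [map_sum, ht1, Finset.sum_filter]
      refine Finset.sum_congr rfl fun i hi => ?_
      split_ifs with hni
      · rw [map_smul, hewn.2 G p k N1 r m (N i) (φ i) (hinj i) (hNB i hni) hrk S F hSp
          (htop i hni) hF hB (avS Pt) hs hrs j hj (u i) (w i), Rat.smul_def]
      · have h6 := z4 i hi hni 1 (p ^ k) one_pos (one_mul _)
        have h7 : EPN.psE p k r (cup F) (avS Pt) j 1 = psiN p k r (cup F) (avS Pt) j := by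
          funext μ
          unfold EPN.psE
          rw [pow_one]
        rw [h7] at h6
        rw [map_smul, h6, smul_zero]
    rw [map_add, map_add, z1, z2, zero_add, zero_add, h2, h3, sub_zero] at h1
    exact h1
  -- the limits
  have hK : ∀ ε : ℝ, 0 < ε → ∀ i, ∃ K : ℕ, N i ≤ N1 → ∀ r, K ≤ r → ∀ c : Cyc (N i), S (φ i c) →
      ∀ k, N1 < k → r + N1 ≤ k →
      ∀ j : List (G × Multiplicative ℤ) → G × Multiplicative ℤ → ZMod (p ^ r),
      MrkG (G × Multiplicative ℤ) p k r j →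
      ‖((p : ℚ_[p]) ^ k)⁻¹ * TX (lamN p k r (rsJ (φ i) j) c) (p ^ k)
        ![1, sc (uZ p (u i))] - l i c‖ ≤ ε := by
    intro ε hε i
    by_cases hni : N i ≤ N1
    swap
    · exact ⟨0, fun h => absurd h hni⟩
    have h1 : ∀ c : Cyc (N i), ∃ K : ℕ, ∀ r, K ≤ r → S (φ i c) →
        ∀ k, N1 < k → r + N1 ≤ k →
        ∀ j : List (G × Multiplicative ℤ) → G × Multiplicative ℤ → ZMod (p ^ r),
        MrkG (G × Multiplicative ℤ) p k r j →
        ‖((p : ℚ_[p]) ^ k)⁻¹ * TX (lamN p k r (rsJ (φ i) j) c) (p ^ k)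
          ![1, sc (uZ p (u i))] - l i c‖ ≤ ε := by
      intro c
      by_cases hc : S (φ i c)
      · have hTB : TorBd (Cyc (N i)) N1 := by
          intro γ _
          refine le_trans ?_ hni
          have h1 : Nat.card (Cyc (N i)) = N i := by
            rw [Nat.card_congr (Multiplicative.toAdd : Multiplicative (ZMod (N i)) ≃ ZMod (N i)),
              Nat.card_zmod]
          exact le_trans orderOf_le_card h1.le
        have hc1 : IsOfFinOrder c := by
          rw [← orderOf_pos_iff, ← hord i c, hS _ hc]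
          exact hN1
        have hc2 : p ∣ orderOf c := by
          rw [← hord i c, hS _ hc]
          exact hpN1
        obtain ⟨K, -, hK⟩ := hlin (Cyc (N i)) N1 hTB p N1 hpB (u i) (l i) (hlog i) c hc1 hc2 ε hε
        exact ⟨K, fun r hr _ k hk hrk j hj => hK r hr k hk (rsJ (φ i) j)
          (hrsn.2 G (N i) p N1 k r (hNB i hni) hrk (φ i) (hinj i) j hj)⟩
      · exact ⟨0, fun _ _ h => absurd h hc⟩
    choose K hK using h1
    refine ⟨∑ c, K c, fun _ r hr c hc k hk hrk j hj => hK c r (le_trans ?_ hr) hc k hk hrk j hj⟩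
    exact Finset.single_le_sum (f := K) (fun _ _ => Nat.zero_le _) (Finset.mem_univ c)
  set M : ℝ := ∑ i ∈ t1, ‖(q i : ℚ_[p])‖ * ∑ c : Cyc (N i), ‖a i c‖ with hM
  have hM0 : 0 ≤ M := Finset.sum_nonneg fun i _ =>
    mul_nonneg (norm_nonneg _) (Finset.sum_nonneg fun c _ => norm_nonneg _)
  have hp1 : (1 : ℝ) < p := by exact_mod_cast hp.one_lt
  have hmain : ∀ ε : ℝ, 0 < ε →
      ‖∑ i ∈ t1, (q i : ℚ_[p]) * ∑ c : Cyc (N i), a i c * l i c‖ ≤ ε * (1 + M) := by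
    intro ε hε
    choose K hK using hK ε hε
    -- a large level
    have h1 : ∃ r0 : ℕ, ∀ r, r0 ≤ r → C * (p : ℝ) ^ (-(r : ℤ)) ≤ ε := by
      have h2 : Filter.Tendsto (fun k : ℕ => C * (p : ℝ) ^ (-(k : ℤ))) Filter.atTop
          (nhds (C * 0)) := by
        apply Filter.Tendsto.const_mul
        have h3 : (fun k : ℕ => (p : ℝ) ^ (-(k : ℤ))) = fun k : ℕ => ((p : ℝ)⁻¹) ^ k := by
          funext k
          rw [_root_.zpow_neg, zpow_natCast, inv_pow]
        rw [h3]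
        exact tendsto_pow_atTop_nhds_zero_of_lt_one (by positivity)
          (inv_lt_one_of_one_lt₀ hp1)
      rw [mul_zero] at h2
      have h3 := (h2.eventually (gt_mem_nhds hε)).exists_forall_of_atTop
      obtain ⟨k0, hk0⟩ := h3
      exact ⟨k0, fun k hk => (hk0 k hk).le⟩
    obtain ⟨r0, hr0⟩ := h1
    set r := r0 + ∑ i ∈ t1, K i with hr
    have hrK : ∀ i ∈ t1, K i ≤ r := fun i hi => by
      have := Finset.single_le_sum (f := K) (fun _ _ => Nat.zero_le _) hi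
      omega
    obtain ⟨k0, hk0⟩ := hval r
    set k := k0 + r + N1 + 1 + ∑ i ∈ t, N i with hk
    have hkt : ∀ i ∈ t, r + N i ≤ k := fun i hi => by
      have := Finset.single_le_sum (f := N) (fun _ _ => Nat.zero_le _) hi
      omega
    have hkb : N1 < k := by omega
    have hrk : r + N1 ≤ k := by omega
    obtain ⟨j, hj⟩ := hmrn (G × Multiplicative ℤ) p k r
    have h2 := hk0 k (by omega) hrk hkt j hj
    set A : ℚ_[p] := ∑ i ∈ t1, (q i : ℚ_[p]) * ∑ c : Cyc (N i), a i c *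
        TX (lamN p k r (rsJ (φ i) j) c) (p ^ k) ![1, sc (uZ p (u i))] with hA
    have h3 : ‖((p : ℚ_[p]) ^ k)⁻¹ * A‖ ≤ ε := by
      rw [norm_mul, norm_inv, norm_pow, Padic.norm_p]
      have h4 : ((p : ℝ)⁻¹ ^ k)⁻¹ = (p : ℝ) ^ (k : ℤ) := by
        rw [inv_pow, inv_inv, zpow_natCast]
      rw [h4]
      calc (p : ℝ) ^ (k : ℤ) * ‖A‖ ≤ (p : ℝ) ^ (k : ℤ) * (C * (p : ℝ) ^ (-(k + r : ℤ))) := by
            apply mul_le_mul_of_nonneg_left h2
            positivity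
        _ = C * (p : ℝ) ^ (-(r : ℤ)) := by
            rw [mul_left_comm, ← zpow_add₀ (by positivity)]
            congr 2
            ring
        _ ≤ ε := hr0 r (by omega)
    have h5 : ‖((p : ℚ_[p]) ^ k)⁻¹ * A -
        ∑ i ∈ t1, (q i : ℚ_[p]) * ∑ c : Cyc (N i), a i c * l i c‖ ≤ ε * M := by
      have h6 : ((p : ℚ_[p]) ^ k)⁻¹ * A -
          ∑ i ∈ t1, (q i : ℚ_[p]) * ∑ c : Cyc (N i), a i c * l i c =
          ∑ i ∈ t1, (q i : ℚ_[p]) * ∑ c : Cyc (N i), a i c *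
            (((p : ℚ_[p]) ^ k)⁻¹ * TX (lamN p k r (rsJ (φ i) j) c) (p ^ k)
              ![1, sc (uZ p (u i))] - l i c) := by
        rw [hA, Finset.mul_sum, ← Finset.sum_sub_distrib]
        refine Finset.sum_congr rfl fun i _ => ?_
        rw [mul_left_comm, ← mul_sub, Finset.mul_sum, ← Finset.sum_sub_distrib]
        congr 1
        refine Finset.sum_congr rfl fun c _ => ?_
        ring
      rw [h6, hM, Finset.mul_sum]
      refine (norm_sum_le _ _).trans (Finset.sum_le_sum fun i hi => ?_)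
      rw [norm_mul, mul_left_comm]
      refine mul_le_mul_of_nonneg_left ?_ (norm_nonneg _)
      rw [Finset.mul_sum]
      refine (norm_sum_le _ _).trans (Finset.sum_le_sum fun c _ => ?_)
      rw [norm_mul]
      by_cases hc : S (φ i c)
      · rw [mul_comm ε]
        exact mul_le_mul_of_nonneg_left (hK i (Finset.mem_filter.1 hi).2 r (hrK i hi) c hc k hkb hrk j hj) (norm_nonneg _)
      · have h7 : a i c = 0 := by
          simp only [ha]
          rw [evc_zero hF _ _ hc, Rat.cast_zero]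
        rw [h7, norm_zero, zero_mul, mul_zero]
    calc ‖∑ i ∈ t1, (q i : ℚ_[p]) * ∑ c : Cyc (N i), a i c * l i c‖
        = ‖((p : ℚ_[p]) ^ k)⁻¹ * A - (((p : ℚ_[p]) ^ k)⁻¹ * A -
            ∑ i ∈ t1, (q i : ℚ_[p]) * ∑ c : Cyc (N i), a i c * l i c)‖ := by
          rw [sub_sub_cancel]
      _ ≤ ‖((p : ℚ_[p]) ^ k)⁻¹ * A‖ + ‖((p : ℚ_[p]) ^ k)⁻¹ * A -
            ∑ i ∈ t1, (q i : ℚ_[p]) * ∑ c : Cyc (N i), a i c * l i c‖ := norm_sub_le _ _
      _ ≤ ε + ε * M := add_le_add h3 h5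
      _ = ε * (1 + M) := by ring
  have hz : ‖∑ i ∈ t1, (q i : ℚ_[p]) * ∑ c : Cyc (N i), a i c * l i c‖ ≤ 0 := by
    by_contra hcon
    push Not at hcon
    have h2 : (0 : ℝ) < 1 + M := by positivity
    have h1 := hmain (‖∑ i ∈ t1, (q i : ℚ_[p]) * ∑ c : Cyc (N i), a i c * l i c‖ / (2 * (1 + M)))
      (by positivity)
    have h3 : ‖∑ i ∈ t1, (q i : ℚ_[p]) * ∑ c : Cyc (N i), a i c * l i c‖ / (2 * (1 + M)) *
        (1 + M) = ‖∑ i ∈ t1, (q i : ℚ_[p]) * ∑ c : Cyc (N i), a i c * l i c‖ / 2 := by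
      field_simp
    rw [h3] at h1
    linarith
  exact norm_le_zero_iff.1 hz

end Pool.Agent.FJA
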