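import Pool.Agent.FJA.P_EVG
import Pool.Agent.FJA.P_EV0
import Pool.Agent.FJA.P_EVK
import Pool.Agent.FJA.P_AVC
import Pool.Agent.FJA.P_LM0

/-!
# EVM: the value of `psiM` on the averages of the right translates of the chain of a unit
-/

set_option autoImplicit false

open Matrix Pool.Agent.WhK Pool.Agent.Lib25

noncomputable section

namespace Pool.Agent.FJA

namespace EVM

open EV0

/-- The multilinear extension and translations. -/
theorem mex_map {Γ : Type} {M : ℕ} (F : (Fin M → Γ) → ℚ) (c : Fin M → (Γ →₀ ℚ))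
    (g : Fin M → Γ → Γ) (hg : ∀ i, Function.Injective (g i)) :
    mex F (fun i => (c i).mapDomain (g i)) = mex (fun x => F (fun i => g i (x i))) c := by
  classical
  rw [MEX.mex_of_subset F (fun i => (c i).mapDomain (g i)) (fun i => (c i).support.image (g i))
    fun i => Finsupp.mapDomain_support, MEX.mex_def]
  symm
  refine Finset.sum_nbij (fun x i => g i (x i)) ?_ ?_ ?_ ?_
  · intro x hx
    rw [Fintype.mem_piFinset] at hx ⊢
    exact fun i => Finset.mem_image_of_mem (g i) (hx i)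
  · intro x _ y _ h
    funext i
    exact hg i (congrFun h i)
  · intro y hy
    have hy' := Fintype.mem_piFinset.1 hy
    choose x hx using fun i => Finset.mem_image.1 (hy' i)
    exact ⟨x, Fintype.mem_piFinset.2 fun i => (hx i).1, funext fun i => (hx i).2⟩
  · intro x _
    congr 1
    exact Finset.prod_congr rfl fun i _ => (Finsupp.mapDomain_apply (hg i) _ _).symm

/-- A sum over tuples of a function of the first entries. -/
theorem sum_append {C : Type} [Fintype C] (m n : ℕ) (h : (Fin m → C) → ℚ) :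
    ∑ x : Fin (m + n) → C, h (fun i => x (Fin.castAdd n i)) =
      (Fintype.card C : ℚ) ^ n * ∑ x : Fin m → C, h x := by
  rw [← (Fin.appendEquiv m n).sum_comp, Fintype.sum_prod_type, Finset.mul_sum]
  refine Finset.sum_congr rfl fun x _ => ?_
  have h1 : ∀ y : Fin n → C, h (fun i => (Fin.appendEquiv m n) (x, y) (Fin.castAdd n i)) = h x := by
    intro y
    congr 1
    funext i
    rw [Fin.appendEquiv_apply, Fin.append_left]
  rw [Finset.sum_congr rfl fun y _ => h1 y, Finset.sum_const, Finset.card_univ, Fintype.card_fun,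
    Fintype.card_fin, nsmul_eq_mul]
  push_cast
  ring

variable {G : Type} [Group G] {N : ℕ} [NeZero N] (φ : Cyc N →* G)

/-- The average of `F` over the translates by elements of the image of `φ`. -/
def Fb {m : ℕ} (F : (Fin (m + 1) → G) → G → ℚ) (Z : Fin (m + 1) → Cen (φ (gen N)))
    (c : Cyc N) : ℚ :=
  ((Fintype.card (Cyc N) : ℚ) ^ (m + 1))⁻¹ *
    ∑ t : Fin (m + 1) → Cyc N, F (fun i => φ (t i) * (Z i : G)) (φ c)

/-- The average of the values of `cup F` on the section. -/
theorem evs_avg {m : ℕ} (F : (Fin (m + 1) → G) → G → ℚ)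
    {s : List (G × Multiplicative ℤ) → G × Multiplicative ℤ → (G × Multiplicative ℤ →₀ ℚ)}
    (hs : Sec s) (z : Fin (m + 3) → Cen (φ (gen N))) (b : Fin (m + 3) → ℤ)
    (μ : Rec (Cyc N) (Fin (m + 3))) (hne : ∀ i, μ.lst i ≠ [])
    (hfin : IsOfFinOrder (φ μ.val)) :
    ∑ x : Fin (m + 3) → Cyc N, ((Fintype.card (Cyc N) : ℚ)⁻¹ ^ (m + 3)) *
      evs (cup F) s (Rec.res Fin.castSucc
      (twR (ff φ) (fun i => ((z i : G), Multiplicative.ofAdd (b i)) * ff φ (x i)) μ)) =
      Fb φ F (fun i => z (Fin.castAdd 2 i)) μ.val *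
        ((b (Fin.last (m + 1)).castSucc - b (Fin.last m).castSucc.castSucc : ℤ) : ℚ) := by
  classical
  have hfin' : IsOfFinOrder (ff φ μ.val) := (fin_ff φ _).2 hfin
  set A : Fin (m + 2) → (G × Multiplicative ℤ →₀ ℚ) := fun i =>
    s ((μ.lst i.castSucc).map fun a => ((z i.castSucc : G), Multiplicative.ofAdd (b i.castSucc)) *
      ff φ a) (ff φ μ.val) with hA
  have hx : ∀ x : Fin (m + 3) → Cyc N, evs (cup F) s (Rec.res Fin.castSucc
      (twR (ff φ) (fun i => ((z i : G), Multiplicative.ofAdd (b i)) * ff φ (x i)) μ)) =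
      mex (fun a => cup F (fun i : Fin (m + 2) => ff φ (x i.castSucc) * a i) (ff φ μ.val)) A := by
    intro x
    have hne' : ∀ i : Fin (m + 2), (Rec.res Fin.castSucc
        (twR (ff φ) (fun i => ((z i : G), Multiplicative.ofAdd (b i)) * ff φ (x i)) μ)).lst i ≠
          [] := by
      intro i h
      exact hne i.castSucc (List.map_eq_nil_iff.1 h)
    unfold evs
    rw [if_pos hne']
    have h1 : ∀ i : Fin (m + 2), s ((Rec.res Fin.castSucc (twR (ff φ)
        (fun i => ((z i : G), Multiplicative.ofAdd (b i)) * ff φ (x i)) μ)).lst i)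
        (Rec.res Fin.castSucc (twR (ff φ)
        (fun i => ((z i : G), Multiplicative.ofAdd (b i)) * ff φ (x i)) μ)).val =
        (A i).mapDomain (ff φ (x i.castSucc) * ·) := by
      intro i
      have h2 := hs.inv (ff φ (x i.castSucc)) ((μ.lst i.castSucc).map fun a =>
        ((z i.castSucc : G), Multiplicative.ofAdd (b i.castSucc)) * ff φ a) (ff φ μ.val) hfin'
      have h3 : ff φ (x i.castSucc) * ff φ μ.val * (ff φ (x i.castSucc))⁻¹ = ff φ μ.val := by
        rw [← map_mul, mul_comm (x i.castSucc), map_mul, mul_inv_cancel_right]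
      rw [h3, List.map_map] at h2
      rw [← h2]
      change s ((μ.lst i.castSucc).map fun a => ((z i.castSucc : G),
        Multiplicative.ofAdd (b i.castSucc)) * ff φ (x i.castSucc) * ff φ a) (ff φ μ.val) = _
      congr 1
      refine List.map_congr_left fun a _ => ?_
      change _ = ff φ (x i.castSucc) * (((z i.castSucc : G),
        Multiplicative.ofAdd (b i.castSucc)) * ff φ a)
      rw [← mul_assoc, (comm φ (z i.castSucc) (b i.castSucc) (x i.castSucc)).eq]
    rw [show (fun i => s ((Rec.res Fin.castSucc (twR (ff φ)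
        (fun i => ((z i : G), Multiplicative.ofAdd (b i)) * ff φ (x i)) μ)).lst i)
        (Rec.res Fin.castSucc (twR (ff φ)
        (fun i => ((z i : G), Multiplicative.ofAdd (b i)) * ff φ (x i)) μ)).val) =
        fun i => (A i).mapDomain (ff φ (x i.castSucc) * ·) from funext h1,
      mex_map _ _ _ fun i => mul_right_injective _]
    rfl
  rw [Finset.sum_congr rfl fun x _ => by rw [hx x]]
  rw [← MEX.linear (Fin (m + 3) → Cyc N) Finset.univ
    (fun _ => (Fintype.card (Cyc N) : ℚ)⁻¹ ^ (m + 3))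
    (fun x a => cup F (fun i : Fin (m + 2) => ff φ (x i.castSucc) * a i) (ff φ μ.val)) A]
  have haug : ∀ i, aug (A i) = 1 := by
    intro i
    refine hs.aug _ _ hfin' ?_
    intro h
    exact hne i.castSucc (List.map_eq_nil_iff.1 h)
  refine mex_const _ _ _ haug ?_
  intro a ha
  have hex : ∀ i : Fin (m + 2), ∃ x : Cyc N,
      a i = (φ x * (z i.castSucc : G), Multiplicative.ofAdd (b i.castSucc)) := fun i =>
    EVK.supp_form φ hs (z i.castSucc) (b i.castSucc) (μ.lst i.castSucc) μ.val hfin' (a i) (ha i)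
  choose t ht using hex
  have h4 : ∀ x : Fin (m + 3) → Cyc N,
      cup F (fun i : Fin (m + 2) => ff φ (x i.castSucc) * a i) (ff φ μ.val) =
      F (fun i : Fin (m + 1) => φ (x (Fin.castAdd 2 i) * t i.castSucc) *
        (z (Fin.castAdd 2 i) : G)) (φ μ.val) *
        ((b (Fin.last (m + 1)).castSucc - b (Fin.last m).castSucc.castSucc : ℤ) : ℚ) := by
    intro x
    change (if (1 : Multiplicative ℤ) = 1 then
      F (fun i : Fin (m + 1) => (ff φ (x i.castSucc.castSucc) * a i.castSucc).1) (φ μ.val) *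
        ((Multiplicative.toAdd (ff φ (x (Fin.last (m + 1)).castSucc) * a (Fin.last (m + 1))).2 -
          Multiplicative.toAdd (ff φ (x (Fin.last m).castSucc.castSucc) *
            a (Fin.last m).castSucc).2 : ℤ) : ℚ) else 0) = _
    rw [if_pos rfl, ht (Fin.last (m + 1)), ht (Fin.last m).castSucc]
    have h5 : (fun i : Fin (m + 1) => (ff φ (x i.castSucc.castSucc) * a i.castSucc).1) =
        fun i : Fin (m + 1) => φ (x (Fin.castAdd 2 i) * t i.castSucc) *
          (z (Fin.castAdd 2 i) : G) := by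
      funext i
      rw [ht i.castSucc, map_mul, mul_assoc]
      rfl
    rw [h5]
    have h6 : ∀ (y : Cyc N) (g : G) (e : ℤ), Multiplicative.toAdd (ff φ y *
        ((g, Multiplicative.ofAdd e) : G × Multiplicative ℤ)).2 = e := by
      intro y g e
      change Multiplicative.toAdd ((1 : Multiplicative ℤ) * Multiplicative.ofAdd e) = e
      rw [one_mul, toAdd_ofAdd]
    rw [h6, h6]
  rw [Finset.sum_congr rfl fun x _ => by rw [h4 x]]
  rw [← Finset.mul_sum, ← Finset.sum_mul]
  have h7 : ∑ x : Fin (m + 3) → Cyc N, F (fun i : Fin (m + 1) =>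
      φ (x (Fin.castAdd 2 i) * t i.castSucc) * (z (Fin.castAdd 2 i) : G)) (φ μ.val) =
      (Fintype.card (Cyc N) : ℚ) ^ 2 * ∑ x : Fin (m + 1) → Cyc N, F (fun i : Fin (m + 1) =>
        φ (x i * t i.castSucc) * (z (Fin.castAdd 2 i) : G)) (φ μ.val) :=
    sum_append (m + 1) 2 (fun x : Fin (m + 1) → Cyc N => F (fun i : Fin (m + 1) =>
        φ (x i * t i.castSucc) * (z (Fin.castAdd 2 i) : G)) (φ μ.val))
  have h8 : ∑ x : Fin (m + 1) → Cyc N, F (fun i : Fin (m + 1) =>
        φ (x i * t i.castSucc) * (z (Fin.castAdd 2 i) : G)) (φ μ.val) =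
      ∑ x : Fin (m + 1) → Cyc N, F (fun i : Fin (m + 1) =>
        φ (x i) * (z (Fin.castAdd 2 i) : G)) (φ μ.val) :=
    Equiv.sum_comp (Equiv.mulRight (fun i : Fin (m + 1) => t i.castSucc))
      (fun x : Fin (m + 1) → Cyc N => F (fun i : Fin (m + 1) =>
        φ (x i) * (z (Fin.castAdd 2 i) : G)) (φ μ.val))
  rw [h7, h8]
  unfold Fb
  have hc : (Fintype.card (Cyc N) : ℚ) ≠ 0 := Nat.cast_ne_zero.2 Fintype.card_ne_zero
  have h9 : (Fintype.card (Cyc N) : ℚ)⁻¹ ^ (m + 3) * (Fintype.card (Cyc N) : ℚ) ^ 2 =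
      ((Fintype.card (Cyc N) : ℚ) ^ (m + 1))⁻¹ := by
    rw [inv_pow, pow_add _ (m + 1) 2, mul_inv, mul_assoc, inv_mul_cancel₀ (pow_ne_zero 2 hc),
      mul_one]
  rw [← h9]
  ring

/-- The average over the right translates of a simplex. -/
def avT (p : ℕ) [Fact p.Prime] (m : ℕ) (ψ : Rec (G × Multiplicative ℤ) (Fin (m + 3)) → ℚ) (K : ℕ)
    (X : Fin (m + 3) → GLn (LaurentPolynomial (MonoidAlgebra ℤ G)) 1) : ℚ_[p] :=
  ∑ x : Fin (m + 3) → Cyc N, (((Fintype.card (Cyc N) : ℚ)⁻¹ ^ (m + 3) : ℚ) : ℚ_[p]) *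
    TX ψ K (fun l => cvt ℚ_[p] 1 (X l * gl1 elt (φ (x l))))

theorem TS_avR (p : ℕ) [Fact p.Prime] (m : ℕ) (ψ : Rec (G × Multiplicative ℤ) (Fin (m + 3)) → ℚ)
    (K : ℕ) (Y : (Fin (m + 3) → GLn (LaurentPolynomial (MonoidAlgebra ℤ G)) 1) →₀ ℚ) :
    TS ℚ_[p] ψ K (kinS (LaurentPolynomial (MonoidAlgebra ℤ G)) (m + 3) 1
      (TAV.avR (fun x : Cyc N => gl1 elt (φ x)) (m + 3) Y)) =
      Finsupp.linearCombination ℚ (avT φ p m ψ K) Y := by
  induction Y using Finsupp.induction_linear with
  | zero => simp only [map_zero]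
  | add x y hx hy => simp only [map_add, hx, hy]
  | single X q =>
    rw [TAV.avR_single, map_sum, map_sum, Finsupp.linearCombination_single]
    unfold avT
    rw [Finset.smul_sum]
    refine Finset.sum_congr rfl fun x _ => ?_
    rw [kinS_single]
    unfold TS
    rw [Finsupp.linearCombination_single, Rat.smul_def, Rat.smul_def, Rat.cast_mul, mul_assoc]

/-- The value of the averages of `psiM` on a simplex. -/
theorem evm (p : ℕ) [Fact p.Prime] (k B m cc : ℕ)
    (S : G → Prop) (F : (Fin (m + 1) → G) → G → ℚ)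
    (hS : ∀ y, S y → IsOfFinOrder y ∧ p ∣ orderOf y) (hF : GCoch m S F)
    (s : List (G × Multiplicative ℤ) → G × Multiplicative ℤ → (G × Multiplicative ℤ →₀ ℚ))
    (hs : SecR cc s)
    (j : List (G × Multiplicative ℤ) → G × Multiplicative ℤ → ZMod (p ^ (k - B)))
    (hj : Mrk (G × Multiplicative ℤ) p k B j)
    (X : Fin (m + 3) → GLn (LaurentPolynomial (MonoidAlgebra ℤ G)) 1)
    (z : Fin (m + 3) → Cen (φ (gen N))) (b : Fin (m + 3) → ℤ)
    (v : Fin (m + 3) → (MonoidAlgebra ℚ_[p] (Cyc N))ˣ)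
    (hX : ∀ l, cvt ℚ_[p] 1 (X l) = sclU ℚ_[p] (Fin 1) ((z l : G), Multiplicative.ofAdd (b l)) *
        glG (MonoidHom.inl G (Multiplicative ℤ)) (glG φ (sc (v l)))) :
    avT φ p m (psiM p k B (cup F) s j) (p ^ k) X =
      ∑ c : Cyc N, (Fb φ F (fun i => z (Fin.castAdd 2 i)) c : ℚ_[p]) *
        ((b (Fin.last (m + 1)).castSucc - b (Fin.last m).castSucc.castSucc : ℤ) : ℚ_[p]) *
        TX (lamM p k B (rsJ φ j) c) (p ^ k)
          ![sc (v (Fin.last (m + 1)).castSucc), sc (v (Fin.last (m + 2)))] := by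
  classical
  set γ : Fin (m + 3) → G × Multiplicative ℤ := fun i => ((z i : G), Multiplicative.ofAdd (b i))
    with hγ
  have hcomm : ∀ (x : Fin (m + 3) → Cyc N) (i : Fin (m + 3)) (a : Cyc N),
      Commute (γ i * ff φ (x i)) (ff φ a) := fun x i a => by
    refine Commute.mul_left (comm φ (z i) (b i) a) ?_
    change ff φ (x i) * ff φ a = ff φ a * ff φ (x i)
    rw [← map_mul, mul_comm, map_mul]
  have h2 : ∀ x : Fin (m + 3) → Cyc N, TX (psiM p k B (cup F) s j) (p ^ k)
      (fun l => cvt ℚ_[p] 1 (X l * gl1 elt (φ (x l)))) =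
      TX (fun μ => psiM p k B (cup F) s j (twR (ff φ) (fun i => γ i * ff φ (x i)) μ)) (p ^ k)
        (fun i => sc (v i)) := by
    intro x
    rw [← t_TWI ℚ_[p] (Cyc N) (G × Multiplicative ℤ) (ff φ) (Fin 1) (m + 3) (p ^ k)
      (psiM p k B (cup F) s j) (fun i => γ i * ff φ (x i)) (hcomm x) (fun i => sc (v i))]
    congr 1
    funext l
    rw [map_mul, hX, EV1.cvt_elt, ← glG_comp, map_mul, mul_assoc, mul_assoc]
    congr 1
    exact (TWI.comm_scl (ff φ) (Fin 1) (ff φ (x l)) (fun a => by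
      change ff φ (x l) * ff φ a = ff φ a * ff φ (x l)
      rw [← map_mul, mul_comm, map_mul]) (sc (v l))).symm
  unfold avT
  rw [Finset.sum_congr rfl fun x _ => by rw [h2 x]]
  rw [← TX_sum (p ^ k) (fun i => sc (v i)) Finset.univ
    (fun _ : Fin (m + 3) → Cyc N => (Fintype.card (Cyc N) : ℚ)⁻¹ ^ (m + 3))
    (fun x μ => psiM p k B (cup F) s j (twR (ff φ) (fun i => γ i * ff φ (x i)) μ))]
  -- the map of labels
  set fv : Fin 2 → Fin (m + 3) := ![(Fin.last (m + 1)).castSucc, Fin.last (m + 2)] with hfv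
  have hmono : StrictMono fv := by
    rw [Fin.strictMono_iff_lt_succ]
    intro i
    have hi : i = 0 := Subsingleton.elim _ _
    subst hi
    exact Fin.castSucc_lt_last _
  have hpk : 0 < p ^ k := pow_pos (Fact.out (p := p.Prime)).pos k
  have h3 := t_TXlen ℚ_[p] (Cyc N) (Fin 1) (m + 3) (p ^ k)
    (fun μ => ∑ x : Fin (m + 3) → Cyc N, ((Fintype.card (Cyc N) : ℚ)⁻¹ ^ (m + 3)) *
      psiM p k B (cup F) s j (twR (ff φ) (fun i => γ i * ff φ (x i)) μ))
    (fun μ => ∑ c : Cyc N, (Fb φ F (fun i : Fin (m + 1) => z (Fin.castAdd 2 i)) c *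
        ((b (Fin.last (m + 1)).castSucc - b (Fin.last m).castSucc.castSucc : ℤ) : ℚ)) *
        lamM p k B (rsJ φ j) c (Rec.res fv μ)) (fun i => sc (v i)) ?_
  · rw [h3, TX_sum]
    refine Finset.sum_congr rfl fun c _ => ?_
    rw [t_TXR ℚ_[p] (Cyc N) (Fin 1) (m + 3) 2 (p ^ k) fv hmono (lamM p k B (rsJ φ j) c)
      (fun i => sc (v i))]
    have h4 : (fun t => sc (v (fv t))) =
        ![sc (v (Fin.last (m + 1)).castSucc), sc (v (Fin.last (m + 2)))] := by
      funext t
      fin_cases t <;> rfl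
    rw [h4]
    push_cast
    ring
  · intro μ hμ
    have hne : ∀ i, μ.lst i ≠ [] := by
      intro i h
      have := hμ i
      rw [h, List.length_nil] at this
      omega
    -- the right side
    have hR : ∑ c : Cyc N, (Fb φ F (fun i : Fin (m + 1) => z (Fin.castAdd 2 i)) c *
        ((b (Fin.last (m + 1)).castSucc - b (Fin.last m).castSucc.castSucc : ℤ) : ℚ)) *
        lamM p k B (rsJ φ j) c (Rec.res fv μ) =
        (Fb φ F (fun i : Fin (m + 1) => z (Fin.castAdd 2 i)) μ.val *
        ((b (Fin.last (m + 1)).castSucc - b (Fin.last m).castSucc.castSucc : ℤ) : ℚ)) *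
        (((rsJ φ j (μ.lst (Fin.last (m + 2))) μ.val -
          rsJ φ j (μ.lst (Fin.last (m + 1)).castSucc) μ.val).val : ℕ) : ℚ) := by
      rw [Finset.sum_eq_single μ.val]
      · congr 1
        unfold lamM
        rw [if_pos ⟨fun i => hμ (fv i), rfl⟩]
        rfl
      · intro c _ hc
        have h5 : lamM p k B (rsJ φ j) c (Rec.res fv μ) = 0 := by
          unfold lamM
          rw [if_neg]
          rintro ⟨-, h6⟩
          exact hc h6.symm
        rw [h5, mul_zero]
      · intro h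
        exact absurd (Finset.mem_univ _) h
    rw [hR]
    by_cases hSc : S (φ μ.val)
    · obtain ⟨hfin, hdvd⟩ := hS _ hSc
      have hpsi : ∀ x : Fin (m + 3) → Cyc N,
          psiM p k B (cup F) s j (twR (ff φ) (fun i => γ i * ff φ (x i)) μ) =
          evs (cup F) s (Rec.res Fin.castSucc (twR (ff φ) (fun i => γ i * ff φ (x i)) μ)) *
          (((rsJ φ j (μ.lst (Fin.last (m + 2))) μ.val -
          rsJ φ j (μ.lst (Fin.last (m + 1)).castSucc) μ.val).val : ℕ) : ℚ) := by
        intro x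
        have hcond : (∀ i, ((twR (ff φ) (fun i => γ i * ff φ (x i)) μ).lst i).length = p ^ k) ∧
            IsOfFinOrder (twR (ff φ) (fun i => γ i * ff φ (x i)) μ).val ∧
            p ∣ orderOf (twR (ff φ) (fun i => γ i * ff φ (x i)) μ).val := by
          refine ⟨fun i => ?_, (fin_ff φ _).2 hfin, ?_⟩
          · change ((μ.lst i).map _).length = _
            rw [List.length_map, hμ i]
          · change p ∣ orderOf (ff φ μ.val)
            rw [order_ff]
            exact hdvd
        have hzx : ∀ i, γ i * ff φ (x i) = (((z i * ⟨φ (x i), Subgroup.mem_centralizer_singleton_iff.2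
            (by rw [← map_mul, mul_comm, map_mul])⟩ : Cen (φ (gen N))) : G),
            Multiplicative.ofAdd (b i)) := by
          intro i
          refine Prod.ext ?_ ?_
          · rfl
          · change Multiplicative.ofAdd (b i) * 1 = _
            rw [mul_one]
        unfold psiM
        rw [if_pos hcond]
        congr 1
        have e : ∀ i, j ((twR (ff φ) (fun i => γ i * ff φ (x i)) μ).lst i)
            (twR (ff φ) (fun i => γ i * ff φ (x i)) μ).val = rsJ φ j (μ.lst i) μ.val := by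
          intro i
          have h7 := j_tw φ hj (z i * ⟨φ (x i), Subgroup.mem_centralizer_singleton_iff.2
            (by rw [← map_mul, mul_comm, map_mul])⟩) (b i) (μ.lst i) μ.val
          rw [← hzx] at h7
          exact h7
        rw [e, e]
      rw [Finset.sum_congr rfl fun x _ => by rw [hpsi x, ← mul_assoc]]
      rw [← Finset.sum_mul, evs_avg φ F hs.sec z b μ hne hfin]
    · have h0 : ∀ a, F a (φ μ.val) = 0 := by
        intro a
        by_contra h
        exact hSc (hF.supp a _ h)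
      have h1 : Fb φ F (fun i : Fin (m + 1) => z (Fin.castAdd 2 i)) μ.val = 0 := by
        unfold Fb
        simp only [h0, Finset.sum_const_zero, mul_zero]
      rw [h1, zero_mul, zero_mul]
      refine Finset.sum_eq_zero fun x _ => ?_
      have h5 : psiM p k B (cup F) s j (twR (ff φ) (fun i => γ i * ff φ (x i)) μ) = 0 := by
        unfold psiM
        split_ifs
        · rw [evs_zero φ (c := μ.val) h0 s _ rfl, zero_mul]
        · rfl
      rw [h5, mul_zero]

/-- The value on the average of the right translates of the chain of a unit. -/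
theorem evE (p : ℕ) [Fact p.Prime] (k B m cc : ℕ) (hφ : Function.Injective φ)
    (S : G → Prop) (F : (Fin (m + 1) → G) → G → ℚ)
    (hS : ∀ y, S y → IsOfFinOrder y ∧ p ∣ orderOf y) (hF : GCoch m S F)
    (s : List (G × Multiplicative ℤ) → G × Multiplicative ℤ → (G × Multiplicative ℤ →₀ ℚ))
    (hs : SecR cc s)
    (j : List (G × Multiplicative ℤ) → G × Multiplicative ℤ → ZMod (p ^ (k - B)))
    (hj : Mrk (G × Multiplicative ℤ) p k B j) (u : (MonoidAlgebra ℤ (Cyc N))ˣ)
    (w : (Fin (m + 1) → Cen (φ (gen N))) →₀ ℚ) :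
    TS ℚ_[p] (psiM p k B (cup F) s j) (p ^ k)
      (kinS (LaurentPolynomial (MonoidAlgebra ℤ G)) (m + 3) 1
        (TAV.avR (fun x : Cyc N => gl1 elt (φ x)) (m + 3) (TAV.E1p m φ u w))) =
      ∑ c : Cyc N, ((Finsupp.linearCombination ℚ (fun Z => Fb φ F Z c) w : ℚ) : ℚ_[p]) *
        TX (lamM p k B (rsJ φ j) c) (p ^ k) ![1, sc (uZ p u)] := by
  rw [TS_avR]
  refine EVG.ewg m φ u p (avT φ p m (psiM p k B (cup F) s j) (p ^ k)) (Fb φ F)
    (fun c X => TX (lamM p k B (rsJ φ j) c) (p ^ k) X)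
    (fun X z b v hX => evm φ p k B m cc S F hS hF s hs j hj X z b v hX) ?_ w
  intro Z c hZ
  have hSc : S (φ c) := by
    by_contra h
    apply hZ
    unfold Fb
    have h0 : ∀ a, F a (φ c) = 0 := by
      intro a
      by_contra h1
      exact h (hF.supp a _ h1)
    simp only [h0, Finset.sum_const_zero, mul_zero]
  have hc1 : c ≠ 1 := by
    rintro rfl
    have h3 := (hS _ hSc).2
    rw [map_one, orderOf_one] at h3
    exact (Fact.out : p.Prime).one_lt.ne' (Nat.dvd_one.1 h3)
  obtain ⟨h4, h5⟩ := t_LM0 ℚ_[p] (Cyc N) p k B (rsJ φ j) (EV1.mrk φ hφ hj) c (p ^ k)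
  exact ⟨h4, h5 hc1⟩

end EVM

end Pool.Agent.FJA
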