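import Pool.Agent.FJA.P_CON
import Pool.Agent.FJA.P_EVM
import Pool.Agent.FJA.P_CNK

/-!
# COK: the conclusion for the units, bounded torsion, with undetected symbols of arbitrary order
-/

set_option autoImplicit false

open Matrix Pool.Agent.WhK Pool.Agent.Lib25

noncomputable section

namespace Pool.Agent.FJA

namespace COK

open EVM

variable {G : Type} [Group G] {N : ℕ} [NeZero N] (φ : Cyc N →* G)

theorem lc_evc {m : ℕ} (F : (Fin (m + 1) → G) → G → ℚ) (y : G)
    (w : (Fin (m + 1) → Cen (φ (gen N))) →₀ ℚ) :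
    evc (fun z : Cen (φ (gen N)) => (z : G)) F w y =
      Finsupp.linearCombination ℚ (fun Z : Fin (m + 1) → Cen (φ (gen N)) =>
        F (fun i => (Z i : G)) y) w := by
  unfold evc
  rw [Finsupp.linearCombination_apply]
  rfl

/-- The average has the same values on the cycles. -/
theorem fb_evc {m : ℕ} {S : G → Prop} (F : (Fin (m + 1) → G) → G → ℚ) (hF : GCoch m S F)
    (w : (Fin (m + 1) → Cen (φ (gen N))) →₀ ℚ) (hw : w ∈ cyc ℚ (Cen (φ (gen N))) m)
    (c : Cyc N) :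
    Finsupp.linearCombination ℚ (fun Z => Fb φ F Z c) w =
      evc (fun z : Cen (φ (gen N)) => (z : G)) F w (φ c) := by
  classical
  have hcard : (Fintype.card (Cyc N) : ℚ) ≠ 0 := Nat.cast_ne_zero.2 Fintype.card_ne_zero
  rw [lc_evc]
  cases m with
  | zero =>
    congr 2
    funext Z
    unfold Fb
    have h1 : ∀ t : Fin (0 + 1) → Cyc N, F (fun i => φ (t i) * (Z i : G)) (φ c) =
        F (fun i => (Z i : G)) (φ c) := fun t => EVK.cbas_zero φ hF c t Z
    rw [Finset.sum_congr rfl fun t _ => h1 t, Finset.sum_const, Finset.card_univ,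
      Fintype.card_fun, Fintype.card_fin, nsmul_eq_mul, Nat.cast_pow, ← mul_assoc,
      inv_mul_cancel₀ (pow_ne_zero _ hcard), one_mul]
  | succ m =>
    -- the group of the centraliser
    have hcm : ∀ x : Cyc N, φ x ∈ Cen (φ (gen N)) := fun x =>
      Subgroup.mem_centralizer_singleton_iff.2 (by rw [← map_mul, mul_comm, map_mul])
    let ψ : Cyc N →* Cen (φ (gen N)) := φ.codRestrict _ hcm
    let FP : (Fin (m + 2) → Cen (φ (gen N))) → Cen (φ (gen N)) → ℚ :=
      fun a y => F (fun i => (a i : G)) (y : G)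
    have hFP : GCoch (m + 1) (fun y : Cen (φ (gen N)) => S (y : G)) FP := by
      refine ⟨fun γ a y => ?_, fun a y => ?_, fun a y h => ?_, ?_⟩
      · exact hF.inv (γ : G) (fun i => (a i : G)) (y : G)
      · exact hF.coc (fun i => (a i : G)) (y : G)
      · exact hF.supp _ _ h
      · obtain ⟨D, hD, h⟩ := hF.den
        exact ⟨D, hD, fun a y => h _ _⟩
    obtain ⟨-, -, G0, hG0, -, hG2⟩ := t_AVC (Cen (φ (gen N))) (Cyc N) ψ
      (fun c p => Subtype.ext (commute_cyc φ p c).eq.symm) m _ FP hFP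
    have hFb : ∀ Z : Fin (m + 2) → Cen (φ (gen N)), Fb φ F Z c = avC ψ FP Z (ψ c) := fun Z => rfl
    have hkey : ∀ x : (Fin (m + 2) → Cen (φ (gen N))) →₀ ℚ,
        Finsupp.linearCombination ℚ (fun Z : Fin (m + 2) → Cen (φ (gen N)) =>
          F (fun i => (Z i : G)) (φ c)) x -
        Finsupp.linearCombination ℚ (fun Z => Fb φ F Z c) x =
        Finsupp.linearCombination ℚ (fun Z => G0 Z (ψ c)) (bd ℚ _ (m + 1) x) := by
      intro x
      induction x using Finsupp.induction_linear with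
      | zero => simp only [map_zero, sub_zero]
      | add x y hx hy =>
        rw [map_add, map_add, map_add, map_add, ← hx, ← hy]
        ring
      | single Z q =>
        have h1 := hG2 Z (ψ c)
        rw [bd_single, map_sum, Finsupp.linearCombination_single,
          Finsupp.linearCombination_single, ← smul_sub, hFb]
        have h2 : F (fun i => (Z i : G)) (φ c) - avC ψ FP Z (ψ c) =
            ∑ i : Fin (m + 2), (-1 : ℚ) ^ (i : ℕ) * G0 (fun j => Z (i.succAbove j)) (ψ c) := h1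
        rw [h2, Finset.smul_sum]
        refine Finset.sum_congr rfl fun i _ => ?_
        rw [map_smul, Finsupp.linearCombination_single, smul_eq_mul, smul_eq_mul, smul_eq_mul]
        ring
    have hz : Finsupp.linearCombination ℚ (fun Z => G0 Z (ψ c)) (bd ℚ _ (m + 1) w) = 0 := by
      have hbd : bd ℚ _ (m + 1) w ∈ hdeg ℚ (Cen (φ (gen N))) m := hw
      have h1 : hdeg ℚ (Cen (φ (gen N))) m ≤ LinearMap.ker
          (Finsupp.linearCombination ℚ (fun Z : Fin (m + 1) → Cen (φ (gen N)) =>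
            G0 Z (ψ c))) := by
        unfold hdeg
        rw [Submodule.span_le]
        rintro _ ⟨g, X, rfl⟩
        rw [SetLike.mem_coe, LinearMap.mem_ker, map_sub, Finsupp.linearCombination_single,
          Finsupp.linearCombination_single, one_smul, one_smul, sub_eq_zero]
        have h2 := hG0 g X (ψ c)
        have h3 : g * ψ c * g⁻¹ = ψ c := by
          have h4 : g * ψ c = ψ c * g := Subtype.ext (commute_cyc φ g c).eq
          rw [h4, mul_inv_cancel_right]
        rw [h3] at h2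
        exact h2
      exact h1 hbd
    have := hkey w
    rw [hz] at this
    linarith

end COK

/-- The statement of CON with undetected symbols. -/
def S_COK : Prop := ∀ (G : Type) [Group G] (bG : ℕ), TorBd G bG → ∀ (p : ℕ) [Fact p.Prime]
    (m N1 : ℕ), 0 < N1 → p ∣ N1 → ∀ (S : G → Prop) (F : (Fin (m + 1) → G) → G → ℚ),
    (∀ y, S y → orderOf y = N1) → GCoch m S F →
    ∀ (D : Dat G (m + 1)) (e : ∀ j, IdemMat (LaurentPolynomial (MonoidAlgebra ℤ (Cyc (D.N j)))))
      (v : ∀ (j : D.J) (q : ℕ), [Fact q.Prime] → Cyc (D.N j) → ℚ_[q]),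
    (∀ j, LocE (e j) (fun q _ => v j q)) →
    ∀ (w0 : (Fin (m + 3) → G × Multiplicative ℤ) →₀ ℚ)
      (I : Type) (t : Finset I) (q : I → ℚ) (N : I → ℕ) [∀ i, NeZero (N i)]
      (φ : ∀ i, Cyc (N i) →* G) (u : ∀ i, (MonoidAlgebra ℤ (Cyc (N i)))ˣ)
      (l : ∀ i, Cyc (N i) → ℚ_[p]) (w : ∀ i, (Fin (m + 1) → Cen (φ i (gen (N i)))) →₀ ℚ),
    (∀ i, N i ≤ N1 ∨ NoEv m (φ i) (w i)) → (∀ i, Function.Injective (φ i)) →
    (∀ i, IsPlog p (u i : MonoidAlgebra ℤ (Cyc (N i))) (l i)) →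
    (∀ i, w i ∈ cyc ℚ (Cen (φ i (gen (N i)))) m) →
    D.ch e + (kinS (LaurentPolynomial (MonoidAlgebra ℤ G)) (m + 3) 1
        (hmap ℚ (gl1 mon) (m + 3) w0) + ∑ i ∈ t, q i • E1 m (φ i) (u i) (w i)) ∈
      LinearMap.range (bdS (LaurentPolynomial (MonoidAlgebra ℤ G)) (m + 3)) ⊔
        Kil (MonoidAlgebra ℤ G) (m + 3) →
    ∑ i ∈ t, (q i : ℚ_[p]) * ∑ c : Cyc (N i),
      ((evc (fun z : Cen (φ i (gen (N i))) => (z : G)) F (w i) (φ i c) : ℚ) : ℚ_[p]) * l i c = 0

open CON in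
/-- **Module COK** -/
theorem t_COK (hPRI : S_PRI.{0, 0, 0}) (hBD : S_BD.{0, 0, 0}) (hlam : S_LAM) (hev1 : S_EV1)
    (hlim : S_LIM) (hbas : S_BAS) (hmrk : S_MRK) (htwi : S_TWI) : S_COK := by
  classical
  intro G _ bG hG p _ m N1 hN1 hpN1 S F0 hS hF0 D e v hloc w0 I t q N _ φ u l w hN hinj hlog hw hrel
  obtain ⟨F, hF, hB, hev⟩ := hbas G m N1 hN1 S F0 hS hF0
  have hgoal : ∀ i, ∀ c : Cyc (N i),
      evc (fun z : Cen (φ i (gen (N i))) => (z : G)) F0 (w i) (φ i c) =
      evc (fun z : Cen (φ i (gen (N i))) => (z : G)) F (w i) (φ i c) := fun i c =>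
    (hev (φ i (gen (N i))) (φ i c) (mem_zp (φ i) c) (w i) (hw i)).symm
  simp only [hgoal]
  set t1 := t.filter (fun i => N i ≤ N1) with ht1
  have hred : ∑ i ∈ t, (q i : ℚ_[p]) * ∑ c : Cyc (N i),
      ((evc (fun z : Cen (φ i (gen (N i))) => (z : G)) F (w i) (φ i c) : ℚ) : ℚ_[p]) * l i c =
      ∑ i ∈ t1, (q i : ℚ_[p]) * ∑ c : Cyc (N i),
      ((evc (fun z : Cen (φ i (gen (N i))) => (z : G)) F (w i) (φ i c) : ℚ) : ℚ_[p]) * l i c := by
    rw [ht1, Finset.sum_filter]
    refine Finset.sum_congr rfl fun i _ => ?_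
    split_ifs with h
    · rfl
    · have h1 := (hN i).resolve_left h S F hF
      simp only [h1, Rat.cast_zero, zero_mul, Finset.sum_const_zero, mul_zero]
  rw [hred]
  obtain ⟨s, hs1, hs2, hs3⟩ := t_SEC (G × Multiplicative ℤ) bG (RLP.torBd hG)
  have hs : SecR bG.factorial s := ⟨hs1, hs2, hs3⟩
  have hp : p.Prime := Fact.out
  have hpB : bG < p ^ bG := Nat.lt_pow_self hp.one_lt
  have hSf : ∀ y, S y → IsOfFinOrder y := fun y hy => by
    rw [← orderOf_pos_iff, hS y hy]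
    exact hN1
  have hSp : ∀ y, S y → IsOfFinOrder y ∧ p ∣ orderOf y := fun y hy =>
    ⟨hSf y hy, by rw [hS y hy]; exact hpN1⟩
  -- the undetected chains are replaced by the averages
  let R : ∀ i, SCh (LaurentPolynomial (MonoidAlgebra ℤ G)) (m + 3) := fun i =>
    kinS (LaurentPolynomial (MonoidAlgebra ℤ G)) (m + 3) 1
      (TAV.avR (fun x : Cyc (N i) => gl1 elt (φ i x)) (m + 3) (TAV.E1p m (φ i) (u i) (w i)))
  have hrel' : D.ch e + (kinS (LaurentPolynomial (MonoidAlgebra ℤ G)) (m + 3) 1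
        (hmap ℚ (gl1 mon) (m + 3) w0) + ∑ i ∈ t, q i •
          (if N i ≤ N1 then E1 m (φ i) (u i) (w i) else R i)) ∈
      LinearMap.range (bdS (LaurentPolynomial (MonoidAlgebra ℤ G)) (m + 3)) ⊔
        Kil (MonoidAlgebra ℤ G) (m + 3) := by
    have h1 : ∑ i ∈ t, q i • (E1 m (φ i) (u i) (w i) -
          (if N i ≤ N1 then E1 m (φ i) (u i) (w i) else R i)) ∈
        LinearMap.range (bdS (LaurentPolynomial (MonoidAlgebra ℤ G)) (m + 3)) ⊔
        Kil (MonoidAlgebra ℤ G) (m + 3) := by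
      refine Submodule.sum_mem _ fun i _ => Submodule.smul_mem _ _ ?_
      split_ifs with h
      · rw [sub_self]
        exact Submodule.zero_mem _
      · exact TAV.E1_sub hPRI hBD m (φ i) (u i) (w i) (hw i) _
    have h2 := Submodule.sub_mem _ hrel h1
    have h3 : ∑ i ∈ t, q i • (E1 m (φ i) (u i) (w i) -
          (if N i ≤ N1 then E1 m (φ i) (u i) (w i) else R i)) =
        ∑ i ∈ t, q i • E1 m (φ i) (u i) (w i) -
        ∑ i ∈ t, q i • (if N i ≤ N1 then E1 m (φ i) (u i) (w i) else R i) := by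
      rw [← Finset.sum_sub_distrib]
      refine Finset.sum_congr rfl fun i _ => ?_
      rw [smul_sub]
    rw [h3] at h2
    convert h2 using 1
    abel
  obtain ⟨C, hC⟩ := hlam G bG hG p bG hpB m bG.factorial (Nat.factorial_pos _) S F hSf hF s hs
    D e v hloc _ hrel'
  have hord : ∀ i, ∀ c : Cyc (N i), orderOf (φ i c) = orderOf c := fun i c =>
    orderOf_injective (φ i) (hinj i) c
  have htop : ∀ i, N i ≤ N1 → ∀ c : Cyc (N i), S (φ i c) → Subgroup.zpowers c = ⊤ :=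
    fun i hi c hc => zpowers_top hi (by rw [← hord i c]; exact hS _ hc)
  -- the value on the chains of the units
  set a : ∀ i, Cyc (N i) → ℚ_[p] := fun i c =>
    ((evc (fun z : Cen (φ i (gen (N i))) => (z : G)) F (w i) (φ i c) : ℚ) : ℚ_[p]) with ha
  have hval : ∀ k, bG ≤ k →
      ∀ j : List (G × Multiplicative ℤ) → G × Multiplicative ℤ → ZMod (p ^ (k - bG)),
      Mrk (G × Multiplicative ℤ) p k bG j →
      ‖∑ i ∈ t1, (q i : ℚ_[p]) * ∑ c : Cyc (N i), a i c *
        TX (lamM p k bG (rsJ (φ i) j) c) (p ^ k) ![1, sc (uZ p (u i))]‖ ≤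
        C * (p : ℝ) ^ (-(2 * k : ℤ)) := by
    intro k hk j hj
    have h1 := hC k hk j hj
    rw [map_add, TS_mon htwi, zero_add, map_sum] at h1
    have h2 : ∑ i ∈ t, TS ℚ_[p] (psiM p k bG (cup F) s j) (p ^ k)
        (q i • (if N i ≤ N1 then E1 m (φ i) (u i) (w i) else R i)) =
        ∑ i ∈ t1, (q i : ℚ_[p]) * ∑ c : Cyc (N i), a i c *
        TX (lamM p k bG (rsJ (φ i) j) c) (p ^ k) ![1, sc (uZ p (u i))] := by
      rw [ht1, Finset.sum_filter]
      refine Finset.sum_congr rfl fun i _ => ?_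
      split_ifs with hni
      · rw [map_smul, hev1 G p k bG m bG.factorial (N i) (φ i) (hinj i) S F hSp (htop i hni) hF hB
          s hs j hj (u i) (w i), Rat.smul_def]
      · rw [map_smul, EVM.evE (φ i) p k bG m bG.factorial (hinj i) S F hSp hF s hs j hj (u i)
          (w i)]
        have h5 : ∀ c, Finsupp.linearCombination ℚ (fun Z => EVM.Fb (φ i) F Z c) (w i) = 0 := by
          intro c
          rw [COK.fb_evc (φ i) F hF (w i) (hw i) c]
          exact (hN i).resolve_left hni S F hF c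
        simp only [h5, Rat.cast_zero, zero_mul, Finset.sum_const_zero, smul_zero]
    rw [h2] at h1
    exact h1
  -- the limits
  have hK : ∀ ε : ℝ, 0 < ε → ∀ i, ∃ K : ℕ, ∀ k, K ≤ k → ∀ c : Cyc (N i), S (φ i c) →
      ∀ j : List (G × Multiplicative ℤ) → G × Multiplicative ℤ → ZMod (p ^ (k - bG)),
      Mrk (G × Multiplicative ℤ) p k bG j →
      ‖((p : ℚ_[p]) ^ k)⁻¹ * TX (lamM p k bG (rsJ (φ i) j) c) (p ^ k)
        ![1, sc (uZ p (u i))] - l i c‖ ≤ ε := by
    intro ε hε i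
    have h1 : ∀ c : Cyc (N i), ∃ K : ℕ, ∀ k, K ≤ k → S (φ i c) →
        ∀ j : List (G × Multiplicative ℤ) → G × Multiplicative ℤ → ZMod (p ^ (k - bG)),
        Mrk (G × Multiplicative ℤ) p k bG j →
        ‖((p : ℚ_[p]) ^ k)⁻¹ * TX (lamM p k bG (rsJ (φ i) j) c) (p ^ k)
          ![1, sc (uZ p (u i))] - l i c‖ ≤ ε := by
      intro c
      by_cases hc : S (φ i c)
      · have hTB : TorBd (Cyc (N i)) bG := by
          intro γ hγ
          rw [← hord i γ]
          exact hG _ ((φ i).isOfFinOrder hγ)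
        have hc1 : IsOfFinOrder c := by
          rw [← orderOf_pos_iff, ← hord i c, hS _ hc]
          exact hN1
        have hc2 : p ∣ orderOf c := by
          rw [← hord i c, hS _ hc]
          exact hpN1
        obtain ⟨K, -, hK⟩ := hlim (Cyc (N i)) bG hTB p bG hpB (u i) (l i) (hlog i) c hc1 hc2 ε hε
        exact ⟨K, fun k hk _ j hj => hK k hk (rsJ (φ i) j) (mrk_rsJ (φ i) (hinj i) hj)⟩
      · exact ⟨0, fun _ _ h => absurd h hc⟩
    choose K hK using h1
    refine ⟨∑ c, K c, fun k hk c hc j hj => hK c k (le_trans ?_ hk) hc j hj⟩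
    exact Finset.single_le_sum (f := K) (fun _ _ => Nat.zero_le _) (Finset.mem_univ c)
  set M : ℝ := ∑ i ∈ t1, ‖(q i : ℚ_[p])‖ * ∑ c : Cyc (N i), ‖a i c‖ with hM
  have hM0 : 0 ≤ M := Finset.sum_nonneg fun i _ =>
    mul_nonneg (norm_nonneg _) (Finset.sum_nonneg fun c _ => norm_nonneg _)
  have hp1 : (1 : ℝ) < p := by exact_mod_cast hp.one_lt
  have hmain : ∀ ε : ℝ, 0 < ε →
      ‖∑ i ∈ t1, (q i : ℚ_[p]) * ∑ c : Cyc (N i), a i c * l i c‖ ≤ ε * (1 + M) := by
    intro ε hε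
    choose K hK using hK ε hε
    -- a large level
    have h1 : ∃ k0 : ℕ, ∀ k, k0 ≤ k → C * (p : ℝ) ^ (-(k : ℤ)) ≤ ε := by
      have h2 : Filter.Tendsto (fun k : ℕ => C * (p : ℝ) ^ (-(k : ℤ))) Filter.atTop
          (nhds (C * 0)) := by
        apply Filter.Tendsto.const_mul
        have h3 : (fun k : ℕ => (p : ℝ) ^ (-(k : ℤ))) = fun k : ℕ => ((p : ℝ)⁻¹) ^ k := by
          funext k
          rw [_root_.zpow_neg, zpow_natCast, inv_pow]
        rw [h3]
        exact tendsto_pow_atTop_nhds_zero_of_lt_one (by positivity)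
          (inv_lt_one_of_one_lt₀ hp1)
      rw [mul_zero] at h2
      have h3 := (h2.eventually (gt_mem_nhds hε)).exists_forall_of_atTop
      obtain ⟨k0, hk0⟩ := h3
      exact ⟨k0, fun k hk => (hk0 k hk).le⟩
    obtain ⟨k0, hk0⟩ := h1
    set k := k0 + bG + ∑ i ∈ t1, K i with hk
    have hkb : bG ≤ k := by omega
    have hkK : ∀ i ∈ t1, K i ≤ k := fun i hi => by
      have := Finset.single_le_sum (f := K) (fun _ _ => Nat.zero_le _) hi
      omega
    obtain ⟨j, hj⟩ := hmrk (G × Multiplicative ℤ) bG (RLP.torBd hG) p bG hpB k hkb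
    have h2 := hval k hkb j hj
    set A : ℚ_[p] := ∑ i ∈ t1, (q i : ℚ_[p]) * ∑ c : Cyc (N i), a i c *
        TX (lamM p k bG (rsJ (φ i) j) c) (p ^ k) ![1, sc (uZ p (u i))] with hA
    have h3 : ‖((p : ℚ_[p]) ^ k)⁻¹ * A‖ ≤ ε := by
      rw [norm_mul, norm_inv, norm_pow, Padic.norm_p]
      have h4 : ((p : ℝ)⁻¹ ^ k)⁻¹ = (p : ℝ) ^ (k : ℤ) := by
        rw [inv_pow, inv_inv, zpow_natCast]
      rw [h4]
      calc (p : ℝ) ^ (k : ℤ) * ‖A‖ ≤ (p : ℝ) ^ (k : ℤ) * (C * (p : ℝ) ^ (-(2 * k : ℤ))) := by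
            apply mul_le_mul_of_nonneg_left h2
            positivity
        _ = C * (p : ℝ) ^ (-(k : ℤ)) := by
            rw [mul_left_comm, ← zpow_add₀ (by positivity)]
            congr 2
            ring
        _ ≤ ε := hk0 k (by omega)
    have h5 : ‖((p : ℚ_[p]) ^ k)⁻¹ * A -
        ∑ i ∈ t1, (q i : ℚ_[p]) * ∑ c : Cyc (N i), a i c * l i c‖ ≤ ε * M := by
      have h6 : ((p : ℚ_[p]) ^ k)⁻¹ * A -
          ∑ i ∈ t1, (q i : ℚ_[p]) * ∑ c : Cyc (N i), a i c * l i c =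
          ∑ i ∈ t1, (q i : ℚ_[p]) * ∑ c : Cyc (N i), a i c *
            (((p : ℚ_[p]) ^ k)⁻¹ * TX (lamM p k bG (rsJ (φ i) j) c) (p ^ k)
              ![1, sc (uZ p (u i))] - l i c) := by
        rw [hA, Finset.mul_sum, ← Finset.sum_sub_distrib]
        refine Finset.sum_congr rfl fun i _ => ?_
        rw [mul_left_comm, ← mul_sub, Finset.mul_sum, ← Finset.sum_sub_distrib]
        congr 1
        refine Finset.sum_congr rfl fun c _ => ?_
        ring
      rw [h6, hM, Finset.mul_sum]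
      refine (norm_sum_le _ _).trans (Finset.sum_le_sum fun i hi => ?_)
      rw [norm_mul, mul_left_comm]
      refine mul_le_mul_of_nonneg_left ?_ (norm_nonneg _)
      rw [Finset.mul_sum]
      refine (norm_sum_le _ _).trans (Finset.sum_le_sum fun c _ => ?_)
      rw [norm_mul]
      by_cases hc : S (φ i c)
      · rw [mul_comm ε]
        exact mul_le_mul_of_nonneg_left (hK i k (hkK i hi) c hc j hj) (norm_nonneg _)
      · have h7 : a i c = 0 := by
          simp only [ha]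
          rw [evc_zero hF _ _ hc, Rat.cast_zero]
        rw [h7, norm_zero, zero_mul, mul_zero]
    calc ‖∑ i ∈ t1, (q i : ℚ_[p]) * ∑ c : Cyc (N i), a i c * l i c‖
        = ‖((p : ℚ_[p]) ^ k)⁻¹ * A - (((p : ℚ_[p]) ^ k)⁻¹ * A -
            ∑ i ∈ t1, (q i : ℚ_[p]) * ∑ c : Cyc (N i), a i c * l i c)‖ := by
          rw [sub_sub_cancel]
      _ ≤ ‖((p : ℚ_[p]) ^ k)⁻¹ * A‖ + ‖((p : ℚ_[p]) ^ k)⁻¹ * A -
            ∑ i ∈ t1, (q i : ℚ_[p]) * ∑ c : Cyc (N i), a i c * l i c‖ := norm_sub_le _ _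
      _ ≤ ε + ε * M := add_le_add h3 h5
      _ = ε * (1 + M) := by ring
  have hz : ‖∑ i ∈ t1, (q i : ℚ_[p]) * ∑ c : Cyc (N i), a i c * l i c‖ ≤ 0 := by
    by_contra hcon
    push Not at hcon
    have h2 : (0 : ℝ) < 1 + M := by positivity
    have h1 := hmain (‖∑ i ∈ t1, (q i : ℚ_[p]) * ∑ c : Cyc (N i), a i c * l i c‖ / (2 * (1 + M)))
      (by positivity)
    have h3 : ‖∑ i ∈ t1, (q i : ℚ_[p]) * ∑ c : Cyc (N i), a i c * l i c‖ / (2 * (1 + M)) *
        (1 + M) = ‖∑ i ∈ t1, (q i : ℚ_[p]) * ∑ c : Cyc (N i), a i c * l i c‖ / 2 := by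
      field_simp
    rw [h3] at h1
    linarith
  exact norm_le_zero_iff.1 hz

end Pool.Agent.FJA
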