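import Pool.Agent.FJA.P_EVM

/-!
# EVL: the value of `psiN (μ ^ e)` on the averages of the right translates of the chain of a unit
-/

set_option autoImplicit false

open Matrix Pool.Agent.WhK Pool.Agent.Lib25

noncomputable section

namespace Pool.Agent.FJA

namespace EVL

open EV0 EVM

variable {G : Type} [Group G] {N : ℕ} [NeZero N] (φ : Cyc N →* G)

/-- The value of the averages of `psiN (μ ^ e)` on a simplex. -/
theorem evl (hrsn : S_RSN) (p : ℕ) [Fact p.Prime] (k B r m : ℕ)
    (hφ : Function.Injective φ) (hcB : N < p ^ B) (hrB : r + B ≤ k)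
    (S : G → Prop) (F : (Fin (m + 1) → G) → G → ℚ)
    (hS : ∀ y, S y → IsOfFinOrder y ∧ p ∣ orderOf y) (hF : GCoch m S F)
    (s : List (G × Multiplicative ℤ) → G × Multiplicative ℤ → (G × Multiplicative ℤ →₀ ℚ))
    (hs : Sec s)
    (j : List (G × Multiplicative ℤ) → G × Multiplicative ℤ → ZMod (p ^ r))
    (hj : MrkG (G × Multiplicative ℤ) p k r j) (e K : ℕ) (heK : e * K = p ^ k)
    (X : Fin (m + 3) → GLn (LaurentPolynomial (MonoidAlgebra ℤ G)) 1)
    (z : Fin (m + 3) → Cen (φ (gen N))) (b : Fin (m + 3) → ℤ)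
    (v : Fin (m + 3) → (MonoidAlgebra ℚ_[p] (Cyc N))ˣ)
    (hX : ∀ l, cvt ℚ_[p] 1 (X l) = sclU ℚ_[p] (Fin 1) ((z l : G), Multiplicative.ofAdd (b l)) *
        glG (MonoidHom.inl G (Multiplicative ℤ)) (glG φ (sc (v l)))) :
    avT φ p m (EPN.psE p k r (cup F) s j e) K X =
      ∑ c : Cyc N, (Fb φ F (fun i => z (Fin.castAdd 2 i)) c : ℚ_[p]) *
        ((b (Fin.last (m + 1)).castSucc - b (Fin.last m).castSucc.castSucc : ℤ) : ℚ_[p]) *
        TX (EVK.lmE p k r (rsJ φ j) c e) K
          ![sc (v (Fin.last (m + 1)).castSucc), sc (v (Fin.last (m + 2)))] := by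
  classical
  set γ : Fin (m + 3) → G × Multiplicative ℤ := fun i => ((z i : G), Multiplicative.ofAdd (b i))
    with hγ
  have hcomm : ∀ (x : Fin (m + 3) → Cyc N) (i : Fin (m + 3)) (a : Cyc N),
      Commute (γ i * ff φ (x i)) (ff φ a) := fun x i a => by
    refine Commute.mul_left (comm φ (z i) (b i) a) ?_
    change ff φ (x i) * ff φ a = ff φ a * ff φ (x i)
    rw [← map_mul, mul_comm, map_mul]
  have htw : ∀ (x : Fin (m + 3) → Cyc N) (μ : Rec (Cyc N) (Fin (m + 3))),
      (twR (ff φ) (fun i => γ i * ff φ (x i)) μ) ^ e =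
        twR (ff φ) (fun i => γ i * ff φ (x i)) (μ ^ e) :=
    fun x μ => (map_pow (TWI.twH (ff φ) (fun i => γ i * ff φ (x i)) (hcomm x)) μ e).symm
  have h2 : ∀ x : Fin (m + 3) → Cyc N, TX (EPN.psE p k r (cup F) s j e) K
      (fun l => cvt ℚ_[p] 1 (X l * gl1 elt (φ (x l)))) =
      TX (fun μ => EPN.psE p k r (cup F) s j e (twR (ff φ) (fun i => γ i * ff φ (x i)) μ)) K
        (fun i => sc (v i)) := by
    intro x
    rw [← t_TWI ℚ_[p] (Cyc N) (G × Multiplicative ℤ) (ff φ) (Fin 1) (m + 3) K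
      (EPN.psE p k r (cup F) s j e) (fun i => γ i * ff φ (x i)) (hcomm x) (fun i => sc (v i))]
    congr 1
    funext l
    rw [map_mul, hX, EV1.cvt_elt, ← glG_comp, map_mul, mul_assoc, mul_assoc]
    congr 1
    exact (TWI.comm_scl (ff φ) (Fin 1) (ff φ (x l)) (fun a => by
      change ff φ (x l) * ff φ a = ff φ a * ff φ (x l)
      rw [← map_mul, mul_comm, map_mul]) (sc (v l))).symm
  unfold avT
  rw [Finset.sum_congr rfl fun x _ => by rw [h2 x]]
  rw [← TX_sum K (fun i => sc (v i)) Finset.univ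
    (fun _ : Fin (m + 3) → Cyc N => (Fintype.card (Cyc N) : ℚ)⁻¹ ^ (m + 3))
    (fun x μ => EPN.psE p k r (cup F) s j e (twR (ff φ) (fun i => γ i * ff φ (x i)) μ))]
  -- the map of labels
  set fv : Fin 2 → Fin (m + 3) := ![(Fin.last (m + 1)).castSucc, Fin.last (m + 2)] with hfv
  have hmono : StrictMono fv := by
    rw [Fin.strictMono_iff_lt_succ]
    intro i
    have hi : i = 0 := Subsingleton.elim _ _
    subst hi
    exact Fin.castSucc_lt_last _
  have hpk : 0 < p ^ k := pow_pos (Fact.out (p := p.Prime)).pos k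
  have h3 := t_TXlen ℚ_[p] (Cyc N) (Fin 1) (m + 3) K
    (fun μ => ∑ x : Fin (m + 3) → Cyc N, ((Fintype.card (Cyc N) : ℚ)⁻¹ ^ (m + 3)) *
      EPN.psE p k r (cup F) s j e (twR (ff φ) (fun i => γ i * ff φ (x i)) μ))
    (fun μ => ∑ c : Cyc N, (Fb φ F (fun i : Fin (m + 1) => z (Fin.castAdd 2 i)) c *
        ((b (Fin.last (m + 1)).castSucc - b (Fin.last m).castSucc.castSucc : ℤ) : ℚ)) *
        (EVK.lmE p k r (rsJ φ j) c e) (Rec.res fv μ)) (fun i => sc (v i)) ?_
  · rw [h3, TX_sum]
    refine Finset.sum_congr rfl fun c _ => ?_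
    rw [t_TXR ℚ_[p] (Cyc N) (Fin 1) (m + 3) 2 K fv hmono
      (EVK.lmE p k r (rsJ φ j) c e) (fun i => sc (v i))]
    have h4 : (fun t => sc (v (fv t))) =
        ![sc (v (Fin.last (m + 1)).castSucc), sc (v (Fin.last (m + 2)))] := by
      funext t
      fin_cases t <;> rfl
    rw [h4]
    push_cast
    ring
  · intro μ' hμ'
    have hres : (Rec.res fv μ') ^ e = Rec.res fv (μ' ^ e) := (map_pow (Rec.res fv) μ' e).symm
    unfold EPN.psE EVK.lmE
    rw [hres]
    have hμ : ∀ i, ((μ' ^ e).lst i).length = p ^ k := by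
      intro i
      rw [EVK.pow_length, hμ' i, heK]
    rw [Finset.sum_congr rfl fun x _ => by rw [htw x μ']]
    generalize μ' ^ e = μ at hμ ⊢
    have hne : ∀ i, μ.lst i ≠ [] := by
      intro i h
      have := hμ i
      rw [h, List.length_nil] at this
      omega
    -- the right side
    have hR : ∑ c : Cyc N, (Fb φ F (fun i : Fin (m + 1) => z (Fin.castAdd 2 i)) c *
        ((b (Fin.last (m + 1)).castSucc - b (Fin.last m).castSucc.castSucc : ℤ) : ℚ)) *
        lamN p k r (rsJ φ j) c (Rec.res fv μ) =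
        (Fb φ F (fun i : Fin (m + 1) => z (Fin.castAdd 2 i)) μ.val *
        ((b (Fin.last (m + 1)).castSucc - b (Fin.last m).castSucc.castSucc : ℤ) : ℚ)) *
        (((rsJ φ j (μ.lst (Fin.last (m + 2))) μ.val -
          rsJ φ j (μ.lst (Fin.last (m + 1)).castSucc) μ.val).val : ℕ) : ℚ) := by
      rw [Finset.sum_eq_single μ.val]
      · congr 1
        unfold lamN
        rw [if_pos ⟨fun i => hμ (fv i), rfl⟩]
        rfl
      · intro c _ hc
        have h5 : lamN p k r (rsJ φ j) c (Rec.res fv μ) = 0 := by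
          unfold lamN
          rw [if_neg]
          rintro ⟨-, h6⟩
          exact hc h6.symm
        rw [h5, mul_zero]
      · intro h
        exact absurd (Finset.mem_univ _) h
    rw [hR]
    by_cases hSc : S (φ μ.val)
    · obtain ⟨hfin, hdvd⟩ := hS _ hSc
      have hord : orderOf μ.val = orderOf (φ μ.val) := (orderOf_injective φ hφ μ.val).symm
      have hpsi : ∀ x : Fin (m + 3) → Cyc N,
          psiN p k r (cup F) s j (twR (ff φ) (fun i => γ i * ff φ (x i)) μ) =
          evs (cup F) s (Rec.res Fin.castSucc (twR (ff φ) (fun i => γ i * ff φ (x i)) μ)) *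
          (((rsJ φ j (μ.lst (Fin.last (m + 2))) μ.val -
          rsJ φ j (μ.lst (Fin.last (m + 1)).castSucc) μ.val).val : ℕ) : ℚ) := by
        intro x
        have hcond : (∀ i, ((twR (ff φ) (fun i => γ i * ff φ (x i)) μ).lst i).length = p ^ k) ∧
            IsOfFinOrder (twR (ff φ) (fun i => γ i * ff φ (x i)) μ).val ∧
            p ∣ orderOf (twR (ff φ) (fun i => γ i * ff φ (x i)) μ).val ∧
            ∀ i, GoodP (p ^ r) ((twR (ff φ) (fun i => γ i * ff φ (x i)) μ).lst i)
              (twR (ff φ) (fun i => γ i * ff φ (x i)) μ).val := by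
          refine ⟨fun i => ?_, (fin_ff φ _).2 hfin, ?_, fun i => ?_⟩
          · change ((μ.lst i).map _).length = _
            rw [List.length_map, hμ i]
          · change p ∣ orderOf (ff φ μ.val)
            rw [order_ff]
            exact hdvd
          · exact hrsn.1 (G × Multiplicative ℤ) N p B k r hcB hrB (ff φ) (EVN.ff_inj φ hφ)
              (γ i * ff φ (x i)) (hcomm x i) (μ.lst i) μ.val (hμ i) (by rw [hord]; exact hdvd)
        have hzx : ∀ i, γ i * ff φ (x i) = (((z i * ⟨φ (x i), Subgroup.mem_centralizer_singleton_iff.2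
            (by rw [← map_mul, mul_comm, map_mul])⟩ : Cen (φ (gen N))) : G),
            Multiplicative.ofAdd (b i)) := by
          intro i
          refine Prod.ext ?_ ?_
          · rfl
          · change Multiplicative.ofAdd (b i) * 1 = _
            rw [mul_one]
        unfold psiN
        rw [if_pos hcond]
        congr 1
        have e : ∀ i, j ((twR (ff φ) (fun i => γ i * ff φ (x i)) μ).lst i)
            (twR (ff φ) (fun i => γ i * ff φ (x i)) μ).val = rsJ φ j (μ.lst i) μ.val := by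
          intro i
          have h7 := EVN.j_tw φ hj (z i * ⟨φ (x i), Subgroup.mem_centralizer_singleton_iff.2
            (by rw [← map_mul, mul_comm, map_mul])⟩) (b i) (μ.lst i) μ.val
          rw [← hzx] at h7
          exact h7
        rw [e, e]
      rw [Finset.sum_congr rfl fun x _ => by rw [hpsi x, ← mul_assoc]]
      rw [← Finset.sum_mul, evs_avg φ F hs z b μ hne hfin]
    · have h0 : ∀ a, F a (φ μ.val) = 0 := by
        intro a
        by_contra h
        exact hSc (hF.supp a _ h)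
      have h1 : Fb φ F (fun i : Fin (m + 1) => z (Fin.castAdd 2 i)) μ.val = 0 := by
        unfold Fb
        simp only [h0, Finset.sum_const_zero, mul_zero]
      rw [h1, zero_mul, zero_mul]
      refine Finset.sum_eq_zero fun x _ => ?_
      have h5 : psiN p k r (cup F) s j (twR (ff φ) (fun i => γ i * ff φ (x i)) μ) = 0 := by
        unfold psiN
        split_ifs
        · rw [evs_zero φ (c := μ.val) h0 s _ rfl, zero_mul]
        · rfl
      rw [h5, mul_zero]

/-- The value on the average of the right translates of the chain of a unit. -/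
theorem evE (hrsn : S_RSN) (p : ℕ) [Fact p.Prime] (k B r m : ℕ)
    (hφ : Function.Injective φ) (hNB : N < p ^ B) (hrB : r + B ≤ k)
    (S : G → Prop) (F : (Fin (m + 1) → G) → G → ℚ)
    (hS : ∀ y, S y → IsOfFinOrder y ∧ p ∣ orderOf y) (hF : GCoch m S F)
    (s : List (G × Multiplicative ℤ) → G × Multiplicative ℤ → (G × Multiplicative ℤ →₀ ℚ))
    (hs : Sec s)
    (j : List (G × Multiplicative ℤ) → G × Multiplicative ℤ → ZMod (p ^ r))
    (hj : MrkG (G × Multiplicative ℤ) p k r j) (e K : ℕ) (he : 0 < e) (heK : e * K = p ^ k)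
    (u : (MonoidAlgebra ℤ (Cyc N))ˣ) (w : (Fin (m + 1) → Cen (φ (gen N))) →₀ ℚ) :
    TS ℚ_[p] (EPN.psE p k r (cup F) s j e) K
      (kinS (LaurentPolynomial (MonoidAlgebra ℤ G)) (m + 3) 1
        (TAV.avR (fun x : Cyc N => gl1 elt (φ x)) (m + 3) (TAV.E1p m φ u w))) =
      ∑ c : Cyc N, ((Finsupp.linearCombination ℚ (fun Z => Fb φ F Z c) w : ℚ) : ℚ_[p]) *
        TX (EVK.lmE p k r (rsJ φ j) c e) K ![1, sc (uZ p u)] := by
  rw [TS_avR]
  refine EVG.ewg m φ u p (avT φ p m (EPN.psE p k r (cup F) s j e) K) (Fb φ F)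
    (fun c X => TX (EVK.lmE p k r (rsJ φ j) c e) K X)
    (fun X z b v hX => evl φ hrsn p k B r m hφ hNB hrB S F hS hF s hs j hj e K heK X z b v hX) ?_ w
  intro Z c hZ
  have hSc : S (φ c) := by
    by_contra h
    apply hZ
    unfold Fb
    have h0 : ∀ a, F a (φ c) = 0 := by
      intro a
      by_contra h1
      exact h (hF.supp a _ h1)
    simp only [h0, Finset.sum_const_zero, mul_zero]
  have hc1 : c ≠ 1 := by
    rintro rfl
    have h3 := (hS _ hSc).2
    rw [map_one, orderOf_one] at h3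
    exact (Fact.out : p.Prime).one_lt.ne' (Nat.dvd_one.1 h3)
  have hM : MrkR (Cyc N) p k r (rsJ φ j) := hrsn.2 G N p B k r hNB hrB φ hφ j hj
  obtain ⟨h4, h5⟩ := EVK.part1e ℚ_[p] (Cyc N) p k r (rsJ φ j) hM c e K he
  exact ⟨h4, h5 hc1⟩

end EVL

end Pool.Agent.FJA
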