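import Pool.Agent.FJA.P_IDS
import Pool.Agent.FJA.P_REP
import Pool.Agent.FJA.P_CNK

/-!
# IDK: the conclusion of the induction on the order, modulo the symbols with undetected classes
-/

set_option autoImplicit false
set_option linter.unusedSectionVars false

open Matrix Pool.Agent.WhK Pool.Agent.Lib25 CategoryTheory

noncomputable section

namespace Pool.Agent.FJA

/-- The span of the symbols `[h, c, u]` with undetected classes. -/
def UdSrc1 (m : ℕ) (G : Type) [Group G] : Submodule ℚ (Src1 m G) :=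
  Submodule.span ℚ {x | ∃ (h : G) (c : HQ m (Cen h)) (u : (MonoidAlgebra ℤ G)ˣ),
    Adm1 h u ∧ c ∈ UdG m (Cen h) ∧ x = sym1 h c u}

/-- All the functionals vanish on all representations of `y`, also with undetected symbols of arbitrary
order. -/
def ZRelU {m : ℕ} {G : Type} [Group G] (y : Src1 m G) : Prop :=
  ∀ D : Sy1 m G →₀ ℚ, val1 m G D = y → ∀ (N1 : ℕ), 0 < N1 →
    (∀ s ∈ D.support, s.N ≤ N1 ∨ cl ℚ m _ s.z ∈ UdG m (Cen (s.φ (gen s.N)))) →
    ∀ (p : ℕ) [Fact p.Prime], p ∣ N1 → ∀ F : (Fin (m + 1) → G) → G → ℚ,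
    GCoch m (fun y => orderOf y = N1) F → ev1 p F D = 0

namespace IDK

/-- The families of cocycles do not detect the undetected classes. -/
theorem evu {G : Type} [Group G] {N : ℕ} {m : ℕ} (φ : Cyc N →* G)
    (z : ZC ℚ m (Cen (φ (gen N)))) (hz : cl ℚ m _ z ∈ UdG m (Cen (φ (gen N)))) :
    NoEv m φ (psi ℚ m _ (ch ℚ m _ z)) := by
  intro S F hF c
  set F' : (Fin (m + 1) → Cen (φ (gen N))) → ℚ := fun X => F (fun i => (X i : G)) (φ c) with hF'
  have hev : ∀ w : (Fin (m + 1) → Cen (φ (gen N))) →₀ ℚ,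
      evc (fun z : Cen (φ (gen N)) => (z : G)) F w (φ c) = pair F' w := by
    intro w
    unfold evc pair
    rw [Finsupp.linearCombination_apply]
    rfl
  have hbd : ∀ w : HCh ℚ (Cen (φ (gen N))) (m + 1), pair F' (bd ℚ _ (m + 1) w) = 0 := by
    intro w
    induction w using Finsupp.induction_linear with
    | zero => rw [map_zero, map_zero]
    | add x y hx hy => rw [map_add, map_add, hx, hy, add_zero]
    | single X q =>
      have h1 := hF.coc (fun i => (X i : G)) (φ c)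
      rw [bd_single, map_sum]
      have h2 : ∀ i : Fin (m + 2), pair F' ((-1 : ℚ) ^ (i : ℕ) •
          Finsupp.single (fun j => X (i.succAbove j)) q) =
          q * ((-1 : ℚ) ^ (i : ℕ) * F (fun j => (X (i.succAbove j) : G)) (φ c)) := by
        intro i
        rw [map_smul, pair_single, smul_eq_mul]
        ring
      rw [Finset.sum_congr rfl fun i _ => h2 i, ← Finset.mul_sum, h1, mul_zero]
  have hhd : ∀ w ∈ hdeg ℚ (Cen (φ (gen N))) m, pair F' w = 0 := by
    intro w hw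
    have h1 : hdeg ℚ (Cen (φ (gen N))) m ≤ LinearMap.ker (pair F') := by
      unfold hdeg
      rw [Submodule.span_le]
      rintro x ⟨g, X, rfl⟩
      change pair F' _ = 0
      rw [map_sub, pair_single, pair_single, one_mul, one_mul, sub_eq_zero]
      have h2 := hF.inv (g : G) (fun i => (X i : G)) (φ c)
      have h3 : (g : G) * φ c * (g : G)⁻¹ = φ c := by
        rw [(commute_cyc φ g c).eq, mul_inv_cancel_right]
      rw [h3] at h2
      exact h2
    exact h1 hw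
  let Φ : IC ℚ m (Cen (φ (gen N))) →ₗ[ℚ] ℚ := pair F' ∘ₗ psi ℚ m _
  have hΦ : ∀ y, Φ (dI ℚ m _ y) = 0 := by
    intro y
    have h1 := hhd _ (psi_d m y)
    rw [map_sub, hbd, zero_sub, neg_eq_zero] at h1
    exact h1
  have hlam : ∀ x, Hk.lift Φ hΦ (cl ℚ m _ x) = Φ (ch ℚ m _ x) := Hk.lift_cl Φ hΦ
  have hden : DenG m (Hk.lift Φ hΦ) := by
    obtain ⟨D, hD, hz⟩ := hF.den
    choose f hf using fun g : Fin m → Cen (φ (gen N)) =>
      hz (fun i => ((Fin.partialProd g i : Cen (φ (gen N))) : G)) (φ c)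
    have hpair : ∀ y : IC ℚ m (Cen (φ (gen N))), pair (fun g => (f g : ℚ)) y = D * Φ y := by
      intro y
      induction y using Finsupp.induction_linear with
      | zero => rw [map_zero, map_zero, mul_zero]
      | add x y hx hy => rw [map_add, map_add, hx, hy, mul_add]
      | single g q =>
        have h1 : Φ (Finsupp.single g q) =
            q * F (fun i => ((Fin.partialProd g i : Cen (φ (gen N))) : G)) (φ c) := by
          change pair F' (psi ℚ m _ (Finsupp.single g q)) = _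
          rw [psi_single, pair_single]
        rw [pair_single, h1, ← hf g]
        ring
    refine ⟨D, f, hD, fun y => ?_, fun x => ?_⟩
    · rw [hpair, hΦ, mul_zero]
    · rw [hpair, hlam]
  rw [hev]
  have h1 := hz _ hden
  rw [hlam] at h1
  exact h1

/-- From the integral functionals to one functional. -/
theorem ids_one {V Q K W : Type*} [AddCommGroup V] [Module ℚ V] [AddCommGroup Q] [Module ℚ Q]
    (I : (V →ₗ[ℚ] ℚ) → Prop) (lam : V →ₗ[ℚ] ℚ) (hI : ∀ v : V, (∀ f, I f → f v = 0) → lam v = 0)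
    (s : Finset K) (w : Finset W) (r : K → ℚ) (c : K → W → V) (P : K → W → Q)
    (h : ∀ f : V →ₗ[ℚ] ℚ, I f → ∑ k ∈ s, ∑ j ∈ w, (r k * f (c k j)) • P k j = 0) :
    ∑ k ∈ s, ∑ j ∈ w, (r k * lam (c k j)) • P k j = 0 := by
  have hr : ∀ (ρ : Q →ₗ[ℚ] ℚ) (f : V →ₗ[ℚ] ℚ),
      ρ (∑ k ∈ s, ∑ j ∈ w, (r k * f (c k j)) • P k j) =
        f (∑ k ∈ s, ∑ j ∈ w, (r k * ρ (P k j)) • c k j) := by
    intro ρ f
    rw [map_sum, map_sum]
    refine Finset.sum_congr rfl fun k _ => ?_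
    rw [map_sum, map_sum]
    refine Finset.sum_congr rfl fun j _ => ?_
    rw [map_smul, map_smul, smul_eq_mul, smul_eq_mul]
    ring
  rw [← Module.forall_dual_apply_eq_zero_iff ℚ]
  intro ρ
  change ρ _ = 0
  rw [hr]
  apply hI
  intro f hf
  rw [← hr, h f hf, map_zero]

open REP in
/-- The data of a symbol. -/
theorem exists_syU {G : Type} [Group G] (m : ℕ) (h : G) (c : HQ m (Cen h))
    (u : (MonoidAlgebra ℤ G)ˣ) (hv : Adm1 h u) (hc : c ∈ UdG m (Cen h)) : ∃ s : Sy1 m G,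
    s.val = sym1 h c u ∧ cl ℚ m _ s.z ∈ UdG m (Cen (s.φ (gen s.N))) := by
  obtain ⟨hf, hu⟩ := hv
  obtain ⟨N, hNe, φ, hφ, hN, hinj⟩ : ∃ (N : ℕ) (_ : NeZero N) (φ : Cyc N →* G),
      φ (gen N) = h ∧ N = orderOf h ∧ Function.Injective φ := by
    have hpos : 0 < orderOf h := orderOf_pos_iff.2 hf
    have hNe : NeZero (orderOf h) := ⟨hpos.ne'⟩
    obtain ⟨φ, hφ⟩ := exists_cyc (N := orderOf h) h (pow_orderOf_eq_one h)
    refine ⟨orderOf h, hNe, φ, hφ, rfl, ?_⟩
    intro a b hab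
    have h1 : φ (a * b⁻¹) = 1 := by rw [map_mul, map_inv, hab, mul_inv_cancel]
    have h2 := cyc_eq_pow (a * b⁻¹)
    rw [h2, map_pow, hφ] at h1
    have h3 := orderOf_dvd_of_pow_eq_one h1
    have h4 := Nat.eq_zero_of_dvd_of_lt h3 (ZMod.val_lt _)
    rw [h4, pow_zero] at h2
    exact mul_inv_eq_one.1 h2
  subst hφ
  obtain ⟨z, rfl⟩ := exists_cl (k := ℚ) c
  obtain ⟨v, rfl⟩ := unS_iff.1 hu
  have hmem : ∀ y : Subgroup.zpowers (φ (gen N)), ∃ a : Cyc N, φ a = y := by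
    rintro ⟨y, k, rfl⟩
    exact ⟨gen N ^ k, map_zpow φ _ _⟩
  choose ψ hψ using hmem
  let ψ' : Subgroup.zpowers (φ (gen N)) →* Cyc N :=
    { toFun := ψ
      map_one' := by
        apply hinj
        rw [hψ, map_one]
        rfl
      map_mul' := by
        intro a b
        apply hinj
        rw [hψ, map_mul, hψ, hψ]
        rfl }
  have hψ' : φ.comp ψ' = (Subgroup.zpowers (φ (gen N))).subtype := by
    refine MonoidHom.ext fun a => ?_
    exact hψ a
  refine ⟨⟨N, hNe, φ, hinj, uG ψ' v, z⟩, ?_, hc⟩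
  change sym1 (φ (gen N)) (cl ℚ m _ z) (uG φ (uG ψ' v)) = _
  rw [uG_comp, hψ']

end IDK

theorem t_TPCk (hTTH : S_TTH) (hTPA : S_TPA) (hTPD : S_TPD) (m : ℕ) (G : Type) [Group G] (N : ℕ)
    [NeZero N] (p : ℕ) [Fact p.Prime] (φ : Cyc N →* G) (hφ : Function.Injective φ)
    (K : Type) (s : Finset K) (r : K → ℚ) (z : K → ZC ℚ m (Cen (φ (gen N))))
    (v : K → (MonoidAlgebra ℤ (Cyc N))ˣ)
    (hF : ∀ F : (Fin (m + 1) → G) → G → ℚ,
      GCoch m (fun y => orderOf y = N ∧ ∃ x : G, x * y * x⁻¹ ∈ Subgroup.zpowers (φ (gen N))) F →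
      ∑ k ∈ s, (r k : ℚ_[p]) * ∑ c : Cyc N,
        ((evc (fun z : Cen (φ (gen N)) => (z : G)) F (psi ℚ m _ (ch ℚ m _ (z k))) (φ c) : ℚ) : ℚ_[p]) *
          plog p (v k) c = 0) :
    ∑ k ∈ s, r k • sym1 (φ (gen N)) (cl ℚ m _ (z k)) (uG φ (v k)) ∈
      LowN m G N ⊔ UdSrc1 m G := by
  classical
  by_contra hne
  obtain ⟨Λ, h1, h2⟩ := Submodule.exists_le_ker_of_notMem hne
  apply h1
  let W : Finset (ZMod N)ˣ := Finset.univ.filter fun w =>
    ∃ x : G, x * φ (gen N) * x⁻¹ = φ (gen N) ^ (w : ZMod N).val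
  have hW : ∀ w, w ∈ W ↔ ∃ x : G, x * φ (gen N) * x⁻¹ = φ (gen N) ^ (w : ZMod N).val := by
    intro w
    rw [Finset.mem_filter]
    exact ⟨fun h => h.2, fun h => ⟨Finset.mem_univ _, h⟩⟩
  have hX : ∀ w : (ZMod N)ˣ, ∃ x : G, w ∈ W → x * φ (gen N) * x⁻¹ = φ (gen N) ^ (w : ZMod N).val := by
    intro w
    by_cases hw : w ∈ W
    · obtain ⟨x, hx⟩ := (hW w).1 hw
      exact ⟨x, fun _ => hx⟩
    · exact ⟨1, fun h => absurd h hw⟩
  choose X hX using hX
  let κ : (ZMod N)ˣ → (Cen (φ (gen N)) →* Cen (φ (gen N))) := fun w =>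
    if h : w ∈ W then cHom (X w) (TPC.hx φ w (X w) (hX w h)) else 1
  have hκ : ∀ w (h : w ∈ W), κ w = cHom (X w) (TPC.hx φ w (X w) (hX w h)) := fun w h => dif_pos h
  have hone : (1 : (ZMod N)ˣ) ∈ W := by
    rw [hW]
    refine ⟨1, ?_⟩
    rw [pow_val_one (TPC.t_pow φ), one_mul, inv_one, mul_one]
  -- opaque versions of the data
  obtain ⟨S, hS⟩ : ∃ S : (MonoidAlgebra ℤ (Cyc N))ˣ → (HQ m (Cen (φ (gen N))) →ₗ[ℚ] ℚ),
      ∀ u e, S u e = Λ (sym1 (φ (gen N)) e (uG φ u)) :=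
    ⟨fun u => Λ ∘ₗ sym1L m (φ (gen N)) (uG φ u), fun _ _ => rfl⟩
  obtain ⟨P, hP⟩ : ∃ P : (MonoidAlgebra ℤ (Cyc N))ˣ → (Cyc N → ℚ_[p]),
      ∀ u, P u = fun c => if Subgroup.zpowers c = ⊤ then plog p u c else 0 := ⟨_, fun _ => rfl⟩
  have hP1 : ∀ u c, Subgroup.zpowers c = ⊤ → P u c = plog p u c := by
    intro u c hc
    rw [hP]
    exact if_pos hc
  have hP0 : ∀ u c, ¬ Subgroup.zpowers c = ⊤ → P u c = 0 := by
    intro u c hc
    rw [hP]
    exact if_neg hc
  obtain ⟨σ, hσ⟩ : ∃ σ : K → (ZMod N)ˣ → (MonoidAlgebra ℤ (Cyc N))ˣ,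
      ∀ k w, σ k w = uG (powMonoidHom (w : ZMod N).val) (v k) := ⟨_, fun _ _ => rfl⟩
  obtain ⟨C, hC⟩ : ∃ C : K → (ZMod N)ˣ → HQ m (Cen (φ (gen N))),
      ∀ k w, C k w = Hk.map ℚ m (κ w) (cl ℚ m _ (z k)) := ⟨_, fun _ _ => rfl⟩
  have hT : ∀ e, ∃ T : (Cyc N → ℚ_[p]) →ₗ[ℚ] ℚ, ∀ u, T (P u) = S u e := by
    intro e
    obtain ⟨T, hT⟩ := hTTH m G N p φ hφ e Λ fun y hy => h2 (Submodule.mem_sup_left hy)
    refine ⟨T, fun u => ?_⟩
    rw [hP, hS]
    exact hT u
  -- the undetected classes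
  set U : Submodule ℚ (HQ m (Cen (φ (gen N)))) := UdG m (Cen (φ (gen N))) with hUdef
  have hSU : ∀ u, ∀ e ∈ U, S u e = 0 := by
    intro u e he
    rw [hS]
    by_cases hv : Adm1 (φ (gen N)) (uG φ u)
    · exact h2 (Submodule.mem_sup_right (Submodule.subset_span ⟨_, e, _, hv, he, rfl⟩))
    · rw [sym1_invalid _ _ _ hv, map_zero]
  let S' : (MonoidAlgebra ℤ (Cyc N))ˣ → ((HQ m (Cen (φ (gen N))) ⧸ U) →ₗ[ℚ] ℚ) := fun u =>
    U.liftQ (S u) (fun e he => hSU u e he)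
  have hS' : ∀ u e, S' u (U.mkQ e) = S u e := fun u e => Submodule.liftQ_apply _ _ _
  have hT' : ∀ e, ∃ T : (Cyc N → ℚ_[p]) →ₗ[ℚ] ℚ, ∀ u, T (P u) = S' u e := by
    intro e
    obtain ⟨e, rfl⟩ := U.mkQ_surjective e
    obtain ⟨T, hT⟩ := hT e
    exact ⟨T, fun u => by rw [hT, hS']⟩
  have hzero : ∀ lam : (HQ m (Cen (φ (gen N))) ⧸ U) →ₗ[ℚ] ℚ,
      ∑ k ∈ s, ∑ w ∈ W, (r k * lam (U.mkQ (C k w))) • P (σ k w) = 0 := by
    intro lam'
    refine IDK.ids_one (fun f => DenG m f) (lam' ∘ₗ U.mkQ) (fun c hc => ?_) s W r C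
      (fun k w => P (σ k w)) (fun lam hlam => ?_)
    · have h7 : U.mkQ c = 0 := (Submodule.Quotient.mk_eq_zero U).2 hc
      rw [LinearMap.comp_apply, h7, map_zero]
    have h4 := hTPD m G N p φ hφ K s r z v hF W X κ (fun w h => (hW w).2 h) hX
      (fun w hw z => by rw [hκ w hw]; rfl) lam hlam
    funext c
    rw [Finset.sum_apply, Pi.zero_apply]
    by_cases hc : Subgroup.zpowers c = ⊤
    · rw [← h4 c hc]
      refine Finset.sum_congr rfl fun k _ => ?_
      rw [Finset.sum_apply, Finset.mul_sum]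
      refine Finset.sum_congr rfl fun w _ => ?_
      rw [Pi.smul_apply, hP1 _ _ hc, Rat.smul_def, hσ, hC, Rat.cast_mul, mul_assoc]
    · refine Finset.sum_eq_zero fun k _ => ?_
      rw [Finset.sum_apply]
      refine Finset.sum_eq_zero fun w _ => ?_
      rw [Pi.smul_apply, hP0 _ _ hc, smul_zero]
  have h3' := TPC.lin S' P hT' s W r (fun k w => U.mkQ (C k w)) σ hzero
  have h3 : ∑ k ∈ s, ∑ w ∈ W, r k * S (σ k w) (C k w) = 0 := by
    rw [← h3']
    refine Finset.sum_congr rfl fun k _ => Finset.sum_congr rfl fun w _ => ?_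
    rw [hS']
  have h5 : ∑ k ∈ s, ∑ w ∈ W, r k * S (σ k w) (C k w) =
      (W.card : ℚ) * Λ (∑ k ∈ s, r k • sym1 (φ (gen N)) (cl ℚ m _ (z k)) (uG φ (v k))) := by
    rw [map_sum, Finset.mul_sum]
    refine Finset.sum_congr rfl fun k _ => ?_
    have h6 : ∀ w ∈ W, r k * S (σ k w) (C k w) =
        Λ (r k • sym1 (φ (gen N)) (cl ℚ m _ (z k)) (uG φ (v k))) := by
      intro w hw
      have h7 := hTPA m G N φ hφ (cl ℚ m _ (z k)) (v k) (w : ZMod N).val (X w) (hX w hw)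
        (TPC.hx φ w (X w) (hX w hw))
      rw [hS, hσ, hC, hκ w hw, map_smul, smul_eq_mul, ← h7]
      rfl
    rw [Finset.sum_congr rfl h6, Finset.sum_const, nsmul_eq_mul]
  rw [h5] at h3
  exact (mul_eq_zero.1 h3).resolve_left
    (Nat.cast_ne_zero.2 (Finset.card_pos.2 ⟨1, hone⟩).ne')

open STP in
theorem t_STPk (hREP : S_REP) (hTTH : S_TTH) (hTPA : S_TPA) (hTPD : S_TPD) (m : ℕ) (G : Type)
    [Group G] (N : ℕ) (hN1 : 1 < N) (y0 : Src1 m G) (hy0 : y0 ∈ LowN m G (N + 1) ⊔ UdSrc1 m G)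
    (hZ0 : ZRelU y0) : y0 ∈ LowN m G N ⊔ UdSrc1 m G := by
  classical
  obtain ⟨y, hy, y', hy', rfl⟩ := Submodule.mem_sup.1 hy0
  refine Submodule.add_mem _ ?_ (Submodule.mem_sup_right hy')
  -- a representation of the undetected part
  obtain ⟨D', hD'A, hD'⟩ : ∃ D' : Sy1 m G →₀ ℚ,
      (∀ s ∈ D'.support, cl ℚ m _ s.z ∈ UdG m (Cen (s.φ (gen s.N)))) ∧ val1 m G D' = y' := by
    let A : Set (Sy1 m G) := {s | cl ℚ m _ s.z ∈ UdG m (Cen (s.φ (gen s.N)))}
    have h1 : y' ∈ Submodule.span ℚ (Sy1.val '' A) := by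
      refine (Submodule.span_le.2 ?_) hy'
      rintro x ⟨h, c, u, hadm, hc, rfl⟩
      obtain ⟨s, hs1, hs2⟩ := IDK.exists_syU m h c u hadm hc
      exact Submodule.subset_span ⟨s, hs2, hs1⟩
    obtain ⟨D, hDA, hD⟩ := (Finsupp.mem_span_image_iff_linearCombination ℚ).1 h1
    exact ⟨D, fun s hs => (Finsupp.mem_supported _ _).1 hDA hs, hD⟩
  have hev' : ∀ (p : ℕ) [Fact p.Prime] (S : G → Prop) (F : (Fin (m + 1) → G) → G → ℚ),
      GCoch m S F → ev1 p F D' = 0 := by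
    intro p _ S F hF
    unfold ev1
    rw [Finsupp.linearCombination_apply]
    refine Finset.sum_eq_zero fun s hs => ?_
    have h1 : s.ev p F = 0 := by
      unfold Sy1.ev
      refine Finset.sum_eq_zero fun c _ => ?_
      have h2 : evc (fun z : Cen (s.φ (gen s.N)) => (z : G)) F s.w (s.φ c) = 0 :=
        IDK.evu s.φ s.z (hD'A s hs) S F hF c
      rw [h2, Rat.cast_zero, zero_mul]
    change D' s • s.ev p F = 0
    rw [h1, smul_zero]
  have hN0 : 0 < N := by omega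
  have : NeZero N := ⟨hN0.ne'⟩
  obtain ⟨T, hT1, hT2, hT3⟩ := hREP m G N hN0
  let A : Set (Sy1 m G) := {s | orderOf (s.φ (gen s.N)) = s.N ∧
    (s.N < N ∨ (s.N = N ∧ s.φ (gen s.N) ∈ T))}
  have hy' : y ∈ Submodule.span ℚ (Sy1.val '' A) := by
    refine (Submodule.span_le.2 ?_) hy
    rintro x ⟨h, c, u, hadm, hord, rfl⟩
    obtain ⟨s, hs1, hs2, hs3⟩ := hT3 h c u hadm (Nat.lt_succ_iff.1 hord)
    exact Submodule.subset_span ⟨s, ⟨hs2, hs3⟩, hs1⟩
  obtain ⟨D, hDA, hD⟩ := (Finsupp.mem_span_image_iff_linearCombination ℚ).1 hy'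
  have hDA' : ∀ s ∈ D.support, s ∈ A := fun s hs => (Finsupp.mem_supported _ _).1 hDA hs
  have hval : y = ∑ s ∈ D.support, D s • s.val := by
    rw [← hD, Finsupp.linearCombination_apply]
    rfl
  have hle : ∀ s ∈ D.support, s.N ≤ N := by
    intro s hs
    rcases (hDA' s hs).2 with h | h
    · exact h.le
    · exact h.1.le
  rw [hval, ← Finset.sum_filter_add_sum_filter_not D.support (fun s => s.N = N)]
  refine Submodule.add_mem _ ?_ ?_
  · rw [← Finset.sum_fiberwise_of_maps_to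
      (t := (D.support.filter (fun s => s.N = N)).image (fun s => s.φ (gen s.N)))
      (g := fun s => s.φ (gen s.N)) (fun s hs => Finset.mem_image_of_mem _ hs)]
    refine Submodule.sum_mem _ fun t ht => ?_
    obtain ⟨s0, hs0, hs0t⟩ := Finset.mem_image.1 ht
    obtain ⟨hs0D, hs0N⟩ := Finset.mem_filter.1 hs0
    change s0.φ (gen s0.N) = t at hs0t
    have htT : t ∈ T := by
      rcases (hDA' s0 hs0D).2 with h | h
      · exact absurd hs0N h.ne
      · rw [← hs0t]; exact h.2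
    obtain ⟨φ, hφ, hφt⟩ := exists_phi s0 hs0N
    rw [hs0t] at hφt
    obtain ⟨p, hp, hpN⟩ := Nat.exists_prime_and_dvd hN1.ne'
    have : Fact p.Prime := ⟨hp⟩
    set S : Finset (Sy1 m G) :=
      (D.support.filter (fun s => s.N = N)).filter (fun s => s.φ (gen s.N) = t) with hS
    have hSm : ∀ s ∈ S, s ∈ D.support ∧ s.N = N ∧ s.φ (gen s.N) = φ (gen N) := by
      intro s hs
      rw [hS, Finset.mem_filter, Finset.mem_filter] at hs
      exact ⟨hs.1.1, hs.1.2, by rw [hφt]; exact hs.2⟩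
    have hzv : ∀ s : Sy1 m G, ∃ (z : ZC ℚ m (Cen (φ (gen N)))) (v : (MonoidAlgebra ℤ (Cyc N))ˣ),
        s.N = N → s.φ (gen s.N) = φ (gen N) →
        (s.val = sym1 (φ (gen N)) (cl ℚ m _ z) (uG φ v) ∧
        ∀ (p : ℕ) [Fact p.Prime] (F : (Fin (m + 1) → G) → G → ℚ),
          s.ev p F = ∑ c : Cyc N,
            ((evc (fun z : Cen (φ (gen N)) => (z : G)) F (psi ℚ m _ (ch ℚ m _ z)) (φ c) : ℚ) :
              ℚ_[p]) * plog p v c) := by
      intro s
      by_cases h : s.N = N ∧ s.φ (gen s.N) = φ (gen N)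
      · obtain ⟨z, v, h1, h2⟩ := exists_zv φ s h.1 h.2
        exact ⟨z, v, fun _ _ => ⟨h1, h2⟩⟩
      · exact ⟨0, 1, fun h1 h2 => absurd ⟨h1, h2⟩ h⟩
    choose z v hzv using hzv
    have hord : orderOf (φ (gen N)) = N := by rw [hφt]; exact hT1 t htT
    have key := t_TPCk hTTH hTPA hTPD m G N p φ hφ (Sy1 m G) S (fun s => D s) z v (by
      intro F hF
      have hF' : GCoch m (fun y => orderOf y = N) F :=
        ⟨hF.inv, hF.coc, fun a y h => (hF.supp a y h).1, hF.den⟩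
      have h0 : ev1 p F D = 0 := by
        have h01 := hZ0 (D + D') (by rw [map_add, hD', ← hD]; rfl) N hN0 (fun s hs => by
          rcases Finset.mem_union.1 (Finsupp.support_add hs) with h | h
          · exact Or.inl (hle s h)
          · exact Or.inr (hD'A s h)) p hpN F hF'
        rw [map_add, hev' p _ F hF, add_zero] at h01
        exact h01
      have h1 : ev1 p F D = ∑ s ∈ D.support, ((D s : ℚ) : ℚ_[p]) * s.ev p F := by
        unfold ev1
        rw [Finsupp.linearCombination_apply]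
        refine Finset.sum_congr rfl fun s _ => ?_
        exact Rat.smul_def _ _
      have h2 : ∑ s ∈ S, ((D s : ℚ) : ℚ_[p]) * s.ev p F =
          ∑ s ∈ D.support, ((D s : ℚ) : ℚ_[p]) * s.ev p F := by
        refine Finset.sum_subset (fun s hs => (hSm s hs).1) fun s hs hsS => ?_
        rw [ev_zero s p F, mul_zero]
        intro c a
        by_contra hne
        obtain ⟨ho, x, hx⟩ := hF.supp a _ hne
        have hmem : s.φ c ∈ Subgroup.zpowers (s.φ (gen s.N)) := mem_zp s.φ c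
        have hdvd := orderOf_dvd_of_mem_zpowers hmem
        obtain ⟨hA1, hA2⟩ := hDA' s hs
        rw [ho, hA1] at hdvd
        rcases hA2 with h | ⟨h, hsT⟩
        · exact absurd (Nat.le_of_dvd (Nat.pos_of_ne_zero (NeZero.ne s.N)) hdvd) (by omega)
        · have hfin : Finite (Subgroup.zpowers (s.φ (gen s.N))) :=
            finite_zpowers.2 (fin_gen s.φ)
          have heq : Subgroup.zpowers (s.φ c) = Subgroup.zpowers (s.φ (gen s.N)) := by
            refine Subgroup.eq_of_le_of_card_ge (Subgroup.zpowers_le.2 hmem) ?_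
            rw [Nat.card_zpowers, Nat.card_zpowers, ho, hA1, h]
          have hg : s.φ (gen s.N) ∈ Subgroup.zpowers (s.φ c) := by
            rw [heq]; exact Subgroup.mem_zpowers _
          obtain ⟨k, hk⟩ := Subgroup.mem_zpowers_iff.1 hg
          have hx2 : x * s.φ (gen s.N) * x⁻¹ ∈ Subgroup.zpowers t := by
            rw [← hk, ← conj_zpow, ← hφt]
            exact Subgroup.zpow_mem _ hx k
          have := hT2 _ hsT t htT x hx2
          apply hsS
          rw [hS, Finset.mem_filter, Finset.mem_filter]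
          exact ⟨⟨hs, h⟩, this⟩
      rw [← h1, h0] at h2
      rw [← h2]
      refine Finset.sum_congr rfl fun s hs => ?_
      rw [(hzv s (hSm s hs).2.1 (hSm s hs).2.2).2 p F])
    have h3 : ∑ s ∈ S, D s • s.val =
        ∑ k ∈ S, D k • sym1 (φ (gen N)) (cl ℚ m _ (z k)) (uG φ (v k)) :=
      Finset.sum_congr rfl fun s hs => by rw [← (hzv s (hSm s hs).2.1 (hSm s hs).2.2).1]
    rw [h3]
    exact key
  · refine Submodule.sum_mem _ fun s hs => ?_
    obtain ⟨hsD, hsN⟩ := Finset.mem_filter.1 hs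
    refine Submodule.smul_mem _ _ (Submodule.mem_sup_left (val_mem s (hDA' s hsD).1 ?_))
    have := hle s hsD
    omega


theorem t_INDk (hREP : S_REP) (hTTH : S_TTH) (hTPA : S_TPA) (hTPD : S_TPD) (m : ℕ) (G : Type)
    [Group G] (y : Src1 m G) (hy : ZRelU y) : y ∈ UdSrc1 m G := by
  obtain ⟨N, hN, hyN⟩ := IND.exists_lowN y
  have key : ∀ k : ℕ, y ∈ LowN m G (k + 2) ⊔ UdSrc1 m G → y ∈ LowN m G 2 ⊔ UdSrc1 m G := by
    intro k
    induction k with
    | zero => exact id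
    | succ k ih =>
      intro h
      exact ih (t_STPk hREP hTTH hTPA hTPD m G (k + 2) (by omega) y h hy)
  have h2 : y ∈ LowN m G 2 ⊔ UdSrc1 m G := by
    obtain ⟨k, rfl⟩ := Nat.exists_eq_add_of_le' hN
    exact key k (Submodule.mem_sup_left hyN)
  rw [IND.low2, bot_sup_eq] at h2
  exact h2

end Pool.Agent.FJA
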