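import Pool.Agent.FJA.FinE
import Pool.Agent.FJA.P_IDK
import Pool.Agent.FJA.P_CKX

/-!
# The final theorem in kernel form, from the modules
-/

set_option autoImplicit false
set_option linter.unusedSectionVars false

open Matrix Pool.Agent.WhK Pool.Agent.Lib25 CategoryTheory

noncomputable section

namespace Pool.Agent.FJA

/-- The conclusion for the part with coefficients `K_1`: `y` is a combination of symbols with undetected
classes. -/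
theorem t_Y3 (hCKX : S_CKX) (hBRF : S_BRF) (hPLB : S_PLB)
    (hREP : S_REP) (hTTH : S_TTH) (hTPA : S_TPA) (hTPD : S_TPD)
    (ε0 : ∀ N : ℕ, ℕ → IdemMat (LaurentPolynomial (MonoidAlgebra ℤ (Cyc N))))
    (v : ∀ (N : ℕ) (_ : ℕ) (q : ℕ), [Fact q.Prime] → Cyc N → ℚ_[q]) (K : ℕ → ℕ)
    (hND : NodeD ε0 v K) (m : ℕ) (G : Type) [Group G]
    (hLM : ∀ (p : ℕ) [Fact p.Prime], LMh G p m)
    (A1 : Src1 m G →ₗ[ℚ] KB (m + 1) (MonoidAlgebra ℤ G)) (hA1 : IsA1 A1)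
    (a : HQ (m + 2) (G × Multiplicative ℤ)) (V : KB (m + 1) (MonoidAlgebra ℤ G))
    (hV : V ∈ Submodule.span ℚ (Set.range (rawV ε0 (m + 1) G))) (y : Src1 m G)
    (hrel : tau (m + 1) G a + V + A1 y = 0) : y ∈ UdSrc1 m G := by
  classical
  refine t_INDk hREP hTTH hTPA hTPD m G y ?_
  intro D hD N1 hN1 hle p _ hp F hF
  obtain ⟨D0, w0, hmem⟩ := hBRF ε0 m G A1 hA1 a V hV D (by rw [hD]; exact hrel)
  have hch : chn1 m G D = ∑ i : {s // s ∈ D.support}, D i.1 • E1 m i.1.φ i.1.u i.1.w := by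
    have h1 : chn1 m G D = ∑ s ∈ D.support, D s • s.chn := rfl
    rw [h1, ← Finset.sum_coe_sort]
    rfl
  have hev : ev1 p F D = ∑ i : {s // s ∈ D.support}, ((D i.1 : ℚ) : ℚ_[p]) *
      ∑ c : Cyc i.1.N, ((evc (fun z : Cen (i.1.φ (gen i.1.N)) => (z : G)) F i.1.w (i.1.φ c) : ℚ) :
        ℚ_[p]) * plog p i.1.u c := by
    have h1 : ev1 p F D = ∑ s ∈ D.support, D s • s.ev p F := rfl
    rw [h1, ← Finset.sum_coe_sort]
    refine Finset.sum_congr rfl fun i _ => ?_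
    rw [Algebra.smul_def, eq_ratCast]
    rfl
  rw [hch] at hmem
  rw [hev]
  have hNe : ∀ i : {s // s ∈ D.support}, NeZero i.1.N := fun i => i.1.pos
  have hw : ∀ i : {s // s ∈ D.support}, i.1.w ∈ cyc ℚ (Cen (i.1.φ (gen i.1.N))) m := fun i => by
    cases m with
    | zero => exact Submodule.mem_top
    | succ m => exact psi_ch_mem m i.1.z
  exact hCKX G p m N1 (hLM p) hN1 hp (fun y => orderOf y = N1) F (fun _ h => h) hF D0
      (fun j => ε0 (D0.N j) (D0.p j)) (fun j q _ => v (D0.N j) (D0.p j) q)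
      (fun j => hND.loc (D0.N j) (D0.p j) (D0.dvd j)) w0 {s // s ∈ D.support} Finset.univ
      (fun i => D i.1) (fun i => i.1.N) (fun i => i.1.φ) (fun i => i.1.u) (fun i => plog p i.1.u)
      (fun i => i.1.w) (fun i => (hle i.1 i.2).imp id fun h => IDK.evu i.1.φ i.1.z h)
      (fun i => i.1.inj) (fun i => (hPLB p (Cyc i.1.N) i.1.u).1) hw hmem

/-- The statement in kernel form; `T` is the condition on the torsion in the degrees `n ≥ 3`. -/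
def S_ALL6 (T : ∀ (G : Type) [Group G], Prop) : Prop :=
  ∃ ε : ∀ N : ℕ, ℕ → IdemMat (LaurentPolynomial (MonoidAlgebra ℤ (Cyc N))),
    ∀ (G : Type) [Group G], ∃ (A : ∀ n : ℕ, Src n G →ₗ[ℚ] KB n (MonoidAlgebra ℤ G))
      (B : ∀ m : ℕ, Src1 m G →ₗ[ℚ] KB (m + 1) (MonoidAlgebra ℤ G)),
      (∀ n : ℕ, IsAssembly ε (A n)) ∧ (∀ m : ℕ, IsA1 (B m)) ∧
      (∀ n : ℕ, ∀ a ∈ inG n G, tau n G a = 0) ∧
      ∀ n : ℕ, (T G ∨ n ≤ 2) →
        (∀ (a : HQ (n + 1) (G × Multiplicative ℤ)) (x : Src n G),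
          tau n G a + A n x = 0 → a ∈ inG n G ∧ x ∈ UdSrc n G) ∧
        ∀ m : ℕ, n = m + 1 →
        ∀ (a : HQ (m + 2) (G × Multiplicative ℤ)) (x : Src (m + 1) G) (y : Src1 m G),
          tau (m + 1) G a + A (m + 1) x + B m y = 0 → y ∈ UdSrc1 m G

theorem t_ALL6 (T : ∀ (G : Type) [Group G], Prop) (hPRI : S_PRI.{0, 0, 0}) (hBD : S_BD.{0, 0, 0})
    (hFLC : S_FLC)
    (ε0 : ∀ N : ℕ, ℕ → IdemMat (LaurentPolynomial (MonoidAlgebra ℤ (Cyc N))))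
    (hFIN : S_FNP ε0) (hT0 : S_T0 ε0) (hCKX : S_CKX) (hBRF : S_BRF) (hPLB : S_PLB)
    (hREP : S_REP) (hTTH : S_TTH) (hTPA : S_TPA) (hTPD : S_TPD) (hAS1 : S_AS1)
    (v : ∀ (N : ℕ) (_ : ℕ) (q : ℕ), [Fact q.Prime] → Cyc N → ℚ_[q]) (K : ℕ → ℕ)
    (hND : NodeD ε0 v K) (hP : ∀ (G : Type) [Group G] (n : ℕ), (T G ∨ n ≤ 2) → Pdg G n)
    (hL : ∀ (G : Type) [Group G] (m : ℕ), (T G ∨ m + 1 ≤ 2) → ∀ (p : ℕ) [Fact p.Prime],
      LMh G p m) : S_ALL6 T := by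
  obtain ⟨ε, hε⟩ := t_ALLz hPRI hBD hFLC ε0 hFIN hT0
  refine ⟨ε, fun G _ => ?_⟩
  choose A hA hspan hinj using fun n => hε n G
  choose B hB using fun m => hAS1 m G
  refine ⟨A, B, hA, hB, ?_, ?_⟩
  · rintro n _ ⟨c, rfl⟩
    exact tau_inl c
  intro n hn
  refine ⟨hinj n (hP G n hn), ?_⟩
  rintro m rfl a x y hrel
  exact t_Y3 hCKX hBRF hPLB hREP hTTH hTPA hTPD ε0 v K hND m G (hL G m hn) (B m) (hB m) a
    (A (m + 1) x) (hspan (m + 1) x) y hrel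

end Pool.Agent.FJA
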