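import Pool.Agent.FJA.St0

/-!
# Module FLC: flat cocycles

A linear functional on the homology of `G × ℤ` which vanishes on the image of the homology of `G` is
represented by a left invariant homogeneous cocycle which vanishes on the tuples with constant second
coordinate.
-/

set_option autoImplicit false

open Matrix Pool.Agent.WhK Pool.Agent.Lib25 CategoryTheory

noncomputable section

namespace Pool.Agent.FJA

namespace FLC

universe a b

/-- A linear functional which vanishes on the kernel of a linear map factors through it. -/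
theorem exists_factor {A : Type a} {B : Type b} [AddCommGroup A] [AddCommGroup B] [Module ℚ A]
    [Module ℚ B] (φ : A →ₗ[ℚ] B) (ψ : A →ₗ[ℚ] ℚ) (h : ∀ x, φ x = 0 → ψ x = 0) :
    ∃ μ : B →ₗ[ℚ] ℚ, ∀ x, μ (φ x) = ψ x := by
  have hk : LinearMap.ker φ ≤ LinearMap.ker ψ := fun x hx => h x hx
  obtain ⟨μ, hμ⟩ := LinearMap.exists_extend
    (((LinearMap.ker φ).liftQ ψ hk).comp φ.quotKerEquivRange.symm.toLinearMap)
  refine ⟨μ, fun x => ?_⟩
  have h1 := LinearMap.congr_fun hμ ⟨φ x, LinearMap.mem_range_self φ x⟩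
  have h2 : φ.quotKerEquivRange.symm ⟨φ x, LinearMap.mem_range_self φ x⟩ =
      (LinearMap.ker φ).mkQ x := φ.quotKerEquivRange_symm_apply_image x _
  refine Eq.trans h1 ?_
  change (LinearMap.ker φ).liftQ ψ hk (φ.quotKerEquivRange.symm _) = ψ x
  rw [h2]
  rfl

section

variable {P : Type} [Group P]

theorem dd (hBD : S_BD.{0, 0, 0}) (m : ℕ) (y : IC ℚ (m + 2) P) :
    dI ℚ m P (dI ℚ (m + 1) P y) = 0 := by
  have h1 : dI ℚ (m + 1) P y = phi ℚ (m + 1) P (bd ℚ P (m + 2) (psi ℚ (m + 2) P y)) := by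
    rw [phi_bd, phi_psi]
  rw [h1, ← phi_bd, (hBD ℚ P (m + 1)).1, map_zero]

theorem pair_eq {V : Type} {m : ℕ} (μ : ((Fin m → V) →₀ ℚ) →ₗ[ℚ] ℚ) (w : (Fin m → V) →₀ ℚ) :
    pair (fun g => μ (Finsupp.single g 1)) w = μ w := by
  induction w using Finsupp.induction_linear with
  | zero => rw [map_zero, map_zero]
  | add x y hx hy => rw [map_add, map_add, hx, hy]
  | single X q =>
    rw [pair_single, ← smul_eq_mul, ← map_smul, Finsupp.smul_single, smul_eq_mul, mul_one]

/-- The first step. -/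
theorem step1 (hBD : S_BD.{0, 0, 0}) (m : ℕ) (lam : Hk ℚ (m + 1) P →ₗ[ℚ] ℚ) :
    ∃ f : (Fin (m + 1) → P) → ℚ, (∀ x : ZC ℚ (m + 1) P,
      pair f (ch ℚ (m + 1) P x) = lam (cl ℚ (m + 1) P x)) ∧
      ∀ y : IC ℚ (m + 2) P, pair f (dI ℚ (m + 1) P y) = 0 := by
  obtain ⟨μ, hμ⟩ := exists_factor (ch ℚ (m + 1) P) (lam.comp (cl ℚ (m + 1) P)) (by
    intro x hx
    have h1 : cl ℚ (m + 1) P x = 0 := by
      rw [cl_eq_zero_iff]
      exact ⟨0, by rw [map_zero]; exact hx⟩
    rw [LinearMap.comp_apply, h1, map_zero])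
  refine ⟨fun g => μ (Finsupp.single g 1), ?_, ?_⟩
  · intro x
    rw [pair_eq]
    exact hμ x
  · intro y
    rw [pair_eq]
    obtain ⟨x, hx⟩ := exists_ch (dI ℚ (m + 1) P y) (dd hBD m y)
    have h1 : cl ℚ (m + 1) P x = 0 := by
      rw [cl_eq_zero_iff]
      exact ⟨y, hx⟩
    rw [← hx, hμ, LinearMap.comp_apply, h1, map_zero]

end

section

variable {G Q : Type} [Group G] [Group Q]

theorem pair_map {m : ℕ} (f : (Fin m → Q) → ℚ) (j : G → Q) (z : IC ℚ m G) :
    pair (fun g => f (j ∘ g)) z = pair f (IC.map ℚ m j z) := by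
  induction z using Finsupp.induction_linear with
  | zero => simp only [map_zero]
  | add x y hx hy => simp only [map_add, hx, hy]
  | single X q => rw [IC.map_single, pair_single, pair_single]

/-- The third step. -/
theorem step3 {m : ℕ} (e : IC ℚ m G →ₗ[ℚ] ℚ) (f' : (Fin (m + 1) → G) → ℚ)
    (he : ∀ z, e (dI ℚ m G z) = pair f' z) (Y : Fin (m + 2) → G) :
    ∑ i : Fin (m + 2), (-1 : ℚ) ^ (i : ℕ) *
      e (Finsupp.single (quo fun j => Y (i.succAbove j)) 1) = f' (quo Y) := by
  have h1 := he (phi ℚ (m + 1) G (Finsupp.single Y 1))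
  rw [← phi_bd, bd_single, phi_single, pair_single, one_mul, map_sum, map_sum] at h1
  rw [← h1]
  refine Finset.sum_congr rfl fun i _ => ?_
  rw [map_smul, map_smul, phi_single, smul_eq_mul]

variable {Z : Type} [Group Z]

open scoped Classical in
/-- The extension of a function on tuples of `G` to tuples of `G × Z`. -/
def Eh {m : ℕ} (E : (Fin m → G) → ℚ) (X : Fin m → G × Z) : ℚ :=
  if ∀ i j, (X i).2 = (X j).2 then E (fun i => (X i).1) else 0

theorem Eh_flat {m : ℕ} (E : (Fin m → G) → ℚ) (X : Fin m → G × Z)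
    (h : ∀ i j, (X i).2 = (X j).2) : Eh E X = E (fun i => (X i).1) := by
  unfold Eh
  exact if_pos h

theorem Eh_inv {m : ℕ} (E : (Fin m → G) → ℚ) (hE : ∀ (g : G) X, E (fun i => g * X i) = E X)
    (γ : G × Z) (X : Fin m → G × Z) : Eh E (fun i => γ * X i) = Eh E X := by
  by_cases h : ∀ i j, (X i).2 = (X j).2
  · have h' : ∀ i j, (γ * X i).2 = (γ * X j).2 := by
      intro i j
      rw [Prod.snd_mul, Prod.snd_mul, h i j]
    rw [Eh_flat E X h, Eh_flat E (fun i => γ * X i) h']
    exact hE γ.1 fun i => (X i).1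
  · have h' : ¬ ∀ i j, (γ * X i).2 = (γ * X j).2 := by
      intro h2
      apply h
      intro i j
      have h3 := h2 i j
      rw [Prod.snd_mul, Prod.snd_mul] at h3
      exact mul_left_cancel h3
    unfold Eh
    rw [if_neg h, if_neg h']

theorem pair_hdeg {m : ℕ} (F : (Fin (m + 1) → G) → ℚ) (hF : ∀ (g : G) X, F (fun i => g * X i) = F X)
    {w : HCh ℚ G m} (hw : w ∈ hdeg ℚ G m) : pair F w = 0 := by
  have h1 : hdeg ℚ G m ≤ LinearMap.ker (pair F) := by
    unfold hdeg
    rw [Submodule.span_le]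
    rintro x ⟨g, X, rfl⟩
    change pair F _ = 0
    rw [map_sub, pair_single, pair_single, hF, sub_self]
  exact h1 hw

/-- The coboundary. -/
def cob {m : ℕ} (F : (Fin m → G) → ℚ) (X : Fin (m + 1) → G) : ℚ :=
  ∑ i : Fin (m + 1), (-1 : ℚ) ^ (i : ℕ) * F (fun j => X (i.succAbove j))

theorem pair_cob {m : ℕ} (F : (Fin m → G) → ℚ) (w : (Fin (m + 1) → G) →₀ ℚ) :
    pair (cob F) w = pair F (bd ℚ G m w) := by
  induction w using Finsupp.induction_linear with
  | zero => simp only [map_zero]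
  | add x y hx hy => simp only [map_add, hx, hy]
  | single X q =>
    rw [bd_single, pair_single, map_sum]
    unfold cob
    rw [Finset.mul_sum]
    refine Finset.sum_congr rfl fun i _ => ?_
    rw [map_smul, pair_single, smul_eq_mul]
    ring

theorem cob_cob (hBD : S_BD.{0, 0, 0}) {m : ℕ} (F : (Fin m → G) → ℚ) (X : Fin (m + 2) → G) :
    cob (cob F) X = 0 := by
  have h1 : cob (cob F) X = pair (cob (cob F)) (Finsupp.single X 1) := by
    rw [pair_single, one_mul]
  rw [h1, pair_cob, pair_cob, (hBD ℚ G m).1, map_zero]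

end

end FLC

/-- FLC. -/
theorem t_FLC (hBD : S_BD.{0, 0, 0}) : S_FLC := by
  intro G _ m lam hlam
  obtain ⟨f, hf1, hf2⟩ := FLC.step1 hBD m lam
  -- the restriction to `G`
  let f' : (Fin (m + 1) → G) → ℚ := fun g => f ((MonoidHom.inl G (Multiplicative ℤ)) ∘ g)
  have hf' : ∀ x : ZC ℚ (m + 1) G, pair f' (ch ℚ (m + 1) G x) = 0 := by
    intro x
    obtain ⟨y, h1, h2⟩ := Hk.map_cl (MonoidHom.inl G (Multiplicative ℤ)) x
    have h3 := FLC.pair_map f (MonoidHom.inl G (Multiplicative ℤ)) (ch ℚ (m + 1) G x)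
    rw [← h2, hf1, ← h1, hlam] at h3
    exact h3
  obtain ⟨e, he⟩ := FLC.exists_factor (dI ℚ m G) (pair f') (by
    intro z hz
    obtain ⟨x, rfl⟩ := exists_ch z hz
    exact hf' x)
  let E : (Fin (m + 1) → G) → ℚ := fun Y => e (Finsupp.single (quo Y) 1)
  have hE : ∀ (g : G) Y, E (fun i => g * Y i) = E Y := by
    intro g Y
    change e (Finsupp.single (quo fun i => g * Y i) 1) = e (Finsupp.single (quo Y) 1)
    rw [quo_mul]
  let F : (Fin (m + 2) → G × Multiplicative ℤ) → ℚ := fun X =>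
    f (quo X) - FLC.cob (FLC.Eh E) X
  refine ⟨F, ?_, ?_, ?_, ?_⟩
  · intro γ X
    change f (quo fun i => γ * X i) - FLC.cob (FLC.Eh E) (fun i => γ * X i) =
      f (quo X) - FLC.cob (FLC.Eh E) X
    rw [quo_mul]
    congr 1
    unfold FLC.cob
    refine Finset.sum_congr rfl fun i _ => ?_
    rw [FLC.Eh_inv E hE γ fun j => X (i.succAbove j)]
  · intro X
    have h1 := quo_coc f hf2 X
    have h2 := FLC.cob_cob hBD (FLC.Eh E) X
    have h3 : ∑ i : Fin (m + 3), (-1 : ℚ) ^ (i : ℕ) * F (fun j => X (i.succAbove j)) =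
        ∑ i : Fin (m + 3), (-1 : ℚ) ^ (i : ℕ) * f (quo fun j => X (i.succAbove j)) -
          FLC.cob (FLC.cob (FLC.Eh E)) X := by
      change _ = _ - ∑ i : Fin (m + 3), (-1 : ℚ) ^ (i : ℕ) *
        FLC.cob (FLC.Eh E) (fun j => X (i.succAbove j))
      rw [← Finset.sum_sub_distrib]
      refine Finset.sum_congr rfl fun i _ => ?_
      exact mul_sub _ _ _
    rw [h3, h1, h2, sub_zero]
  · intro X hX
    change f (quo X) - FLC.cob (FLC.Eh E) X = 0
    have h1 : FLC.cob (FLC.Eh E) X = f' (quo fun i => (X i).1) := by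
      rw [← FLC.step3 e f' he fun i => (X i).1]
      unfold FLC.cob
      refine Finset.sum_congr rfl fun i _ => ?_
      rw [FLC.Eh_flat E (fun j => X (i.succAbove j)) (fun a b => hX _ _)]
    have h2 : quo X = (MonoidHom.inl G (Multiplicative ℤ)) ∘ (quo fun i => (X i).1) := by
      funext i
      refine Prod.ext rfl ?_
      change ((X i.castSucc).2)⁻¹ * (X i.succ).2 = 1
      rw [hX i.castSucc i.succ, inv_mul_cancel]
    rw [h1, h2]
    exact sub_self _
  · intro x
    have h1 : ∀ w : HCh ℚ (G × Multiplicative ℤ) (m + 1), pair F w =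
        pair (fun X => f (quo X)) w - pair (FLC.cob (FLC.Eh E)) w := by
      intro w
      induction w using Finsupp.induction_linear with
      | zero => simp only [map_zero, sub_zero]
      | add x y hx hy =>
        rw [map_add, map_add, map_add, hx, hy]
        ring
      | single X q =>
        rw [pair_single, pair_single, pair_single]
        exact mul_sub _ _ _
    rw [h1, FLC.pair_cob, pair_quo, phi_psi, hf1,
      FLC.pair_hdeg (FLC.Eh E) (FLC.Eh_inv E hE) (psi_ch_mem m x), sub_zero]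

end Pool.Agent.FJA
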