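import Pool.Agent.FJA.P_ADP
import Pool.Agent.FJA.P_AVC
import Pool.Agent.FJA.P_BRG
import Pool.Agent.FJA.P_CUP
import Pool.Agent.FJA.P_DIF
import Pool.Agent.FJA.P_EVA
import Pool.Agent.FJA.P_EVS
import Pool.Agent.FJA.P_FAM
import Pool.Agent.FJA.P_FCA
import Pool.Agent.FJA.P_FCH
import Pool.Agent.FJA.P_FCW
import Pool.Agent.FJA.P_FIN
import Pool.Agent.FJA.P_FLC
import Pool.Agent.FJA.P_FNA
import Pool.Agent.FJA.P_FNB
import Pool.Agent.FJA.P_FNC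
import Pool.Agent.FJA.P_FVX
import Pool.Agent.FJA.P_GAU
import Pool.Agent.FJA.P_GRP
import Pool.Agent.FJA.P_HTP
import Pool.Agent.FJA.P_INT
import Pool.Agent.FJA.P_KCB
import Pool.Agent.FJA.P_KIL
import Pool.Agent.FJA.P_LAU
import Pool.Agent.FJA.P_MEX
import Pool.Agent.FJA.P_MPB
import Pool.Agent.FJA.P_NDA
import Pool.Agent.FJA.P_NDB
import Pool.Agent.FJA.P_NDC
import Pool.Agent.FJA.P_NIB
import Pool.Agent.FJA.P_ONE
import Pool.Agent.FJA.P_PAD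
import Pool.Agent.FJA.P_PDK
import Pool.Agent.FJA.P_PRI
import Pool.Agent.FJA.P_REA
import Pool.Agent.FJA.P_REL
import Pool.Agent.FJA.P_RLD
import Pool.Agent.FJA.P_RLG
import Pool.Agent.FJA.P_RLP
import Pool.Agent.FJA.P_RST
import Pool.Agent.FJA.P_SCH
import Pool.Agent.FJA.P_SEC
import Pool.Agent.FJA.P_T0M
import Pool.Agent.FJA.P_TXA
import Pool.Agent.FJA.P_TXB
import Pool.Agent.FJA.P_TXC
import Pool.Agent.FJA.P_TXD
import Pool.Agent.FJA.P_UCT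
import Pool.Agent.FJA.FinB

/-!
# The final theorem
-/

set_option autoImplicit false

namespace Pool.Agent.FJA

/-- The final theorem. -/
theorem s_all : S_ALL := by
  have hT0M : S_T0M := t_T0M t_BRG t_KCB
  have hMEX := t_MEX.{0}
  have hEVS := t_EVS.{0} hMEX
  have hSCH := t_SCH.{0, 0, 0} t_TXlin t_TXfac t_TXlen hMEX t_PRI
  have hPAD := t_PAD.{0, 0} t_GAU t_GAUint t_SEC hSCH hEVS t_TXfst
  have hLAU := t_LAU
  have hKIL := t_KIL hLAU
  have hFVX := t_FVX hLAU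
  have hEVA := t_EVA t_TXC
  have hDIF := t_DIF t_GRP t_HTP hFVX t_CUP t_AVC hEVA
  have hPDK := t_PDK hPAD
  have hREA := t_REA t_KCB hKIL t_HTP hFVX
  have hNIB := t_NIB t_LAUint
  have hMPB := t_MPB hLAU
  have hRLP := t_RLP hPDK hREA hNIB t_CUP
  have hRLD := t_RLD hDIF t_KCB
  have hRLG := t_RLG hPDK hREA hNIB hMPB t_INT t_CUP
  have hREL := t_REL3 hRLP hRLD hRLG hMPB
  obtain ⟨ε, v, K, hND⟩ := t_NDC (t_NDA hLAU) t_NDB
  have hFCH := t_FCH (t_FCA t_FAM t_FCW) t_FCW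
  have hFINC := t_FIN hREL (t_FNB t_FNA) (t_FNC t_FNA)
  have hADP := t_ADP t_BRG t_RST hFCH hFINC
  exact t_ALL t_PRI t_BD t_UCT (t_FLC t_BD) ε (hADP ε v K hND) (hT0M ε v K hND)

end Pool.Agent.FJA
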