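import Pool.Agent.FJA.St7

/-!
# BRF: from a relation in `K_(m+1)(ℤ[G]) ⊗ ℚ` to chains, part with coefficients `K_1`
-/

set_option autoImplicit false

open Matrix Pool.Agent.WhK Pool.Agent.Lib25 CategoryTheory

noncomputable section

namespace Pool.Agent.FJA

namespace BRF

variable {G : Type} [Group G]

theorem gen_mem {N : ℕ} (c : Cyc N) : c ∈ Subgroup.zpowers (gen N) := by
  obtain ⟨k, hk⟩ := ZMod.intCast_surjective (Multiplicative.toAdd c)
  refine ⟨k, ?_⟩
  apply Multiplicative.toAdd.injective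
  simp [← hk]

theorem uG_mem {N : ℕ} (φ : Cyc N →* G) (u : (MonoidAlgebra ℤ (Cyc N))ˣ) :
    uG φ u ∈ UnS (φ (gen N)) := by
  have hm : ∀ c, φ c ∈ Subgroup.zpowers (φ (gen N)) := by
    intro c
    obtain ⟨k, rfl⟩ := gen_mem c
    exact ⟨k, (map_zpow φ _ k).symm⟩
  let φ' : Cyc N →* Subgroup.zpowers (φ (gen N)) := φ.codRestrict _ hm
  refine ⟨uG φ' u, ?_⟩
  apply Units.ext
  change MonoidAlgebra.mapDomain _ (MonoidAlgebra.mapDomain _ u.val) =
    MonoidAlgebra.mapDomain _ u.val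
  have h1 : ∀ w : MonoidAlgebra ℤ (Cyc N),
      MonoidAlgebra.mapDomain (Subgroup.zpowers (φ (gen N))).subtype
        (MonoidAlgebra.mapDomain φ' w) = MonoidAlgebra.mapDomain φ w := by
    intro w
    induction w using MonoidAlgebra.induction_linear with
    | zero => simp
    | add x y hx hy => rw [MonoidAlgebra.mapDomain_add, MonoidAlgebra.mapDomain_add, hx, hy,
        MonoidAlgebra.mapDomain_add]
    | single g c => rw [MonoidAlgebra.mapDomain_single, MonoidAlgebra.mapDomain_single,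
        MonoidAlgebra.mapDomain_single]; rfl
  exact h1 _

theorem adm {N : ℕ} [NeZero N] (φ : Cyc N →* G) (u : (MonoidAlgebra ℤ (Cyc N))ˣ) :
    Adm1 (φ (gen N)) (uG φ u) :=
  ⟨φ.isOfFinOrder (isOfFinOrder_of_finite _), uG_mem φ u⟩

theorem comm_unit {N : ℕ} (φ : Cyc N →* G) (u : (MonoidAlgebra ℤ (Cyc N))ˣ)
    (z : Cen (φ (gen N))) : uG φ u * gU G z = gU G z * uG φ u := by
  have h1 : ∀ y : MonoidAlgebra ℤ (Cyc N),
      Commute (MonoidAlgebra.of ℤ G z) (MonoidAlgebra.mapDomainRingHom ℤ φ y) := by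
    intro y
    induction y using MonoidAlgebra.induction_on with
    | of c =>
      have h3 : MonoidAlgebra.mapDomainRingHom ℤ φ (MonoidAlgebra.of ℤ (Cyc N) c) =
          MonoidAlgebra.of ℤ G (φ c) := by
        simp
      rw [h3]
      exact (commute_cyc φ z c).map (MonoidAlgebra.of ℤ G)
    | add x y hx hy => rw [map_add]; exact hx.add_right hy
    | smul r x hx => rw [map_zsmul]; exact hx.smul_right r
  apply Units.ext
  exact (h1 u.val).eq.symm

theorem comm_t (X : GLn (LaurentPolynomial (MonoidAlgebra ℤ G)) 1) : tL G * X = X * tL G := by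
  have h1 : ∀ x : LaurentPolynomial (MonoidAlgebra ℤ G),
      mon ((1 : G), Multiplicative.ofAdd (1 : ℤ)) * x =
        x * mon ((1 : G), Multiplicative.ofAdd (1 : ℤ)) := by
    intro x
    have h2 : (mon ((1 : G), Multiplicative.ofAdd (1 : ℤ)) :
        LaurentPolynomial (MonoidAlgebra ℤ G)) = AddMonoidAlgebra.single (1 : ℤ) 1 := rfl
    rw [h2]
    induction x using AddMonoidAlgebra.induction_linear with
    | zero => rw [mul_zero, zero_mul]
    | add f g hf hg => rw [mul_add, add_mul, hf, hg]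
    | single n a =>
      rw [AddMonoidAlgebra.single_mul_single, AddMonoidAlgebra.single_mul_single, one_mul, mul_one,
        add_comm]
  apply Units.ext
  change (Matrix.diagonal fun _ : Fin 1 => (mon ((1 : G), Multiplicative.ofAdd (1 : ℤ)) :
      LaurentPolynomial (MonoidAlgebra ℤ G))) * X.val =
    X.val * (Matrix.diagonal fun _ : Fin 1 => (mon ((1 : G), Multiplicative.ofAdd (1 : ℤ)) :
      LaurentPolynomial (MonoidAlgebra ℤ G)))
  refine Matrix.ext fun i j => ?_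
  rw [Matrix.diagonal_mul, Matrix.mul_diagonal]
  exact h1 _

theorem chain_eq (hCRS : S_CRS) {N : ℕ} (m : ℕ) (φ : Cyc N →* G)
    (u : (MonoidAlgebra ℤ (Cyc N))ˣ) (x : IC ℚ m (Cen (φ (gen N)))) :
    kinS (LaurentPolynomial (MonoidAlgebra ℤ G)) (m + 3) 1
      (psi ℚ (m + 2) _ (chU (uG φ u) x)) = E1 m φ u (psi ℚ m _ x) := by
  let f : Cen (φ (gen N)) →* GLn (LaurentPolynomial (MonoidAlgebra ℤ G)) 1 :=
    (uL G).comp ((gU G).comp (Cen (φ (gen N))).subtype)
  have hf : ∀ z, uL G (uG φ u) * f z = f z * uL G (uG φ u) := by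
    intro z
    change uL G (uG φ u) * uL G (gU G z) = uL G (gU G z) * uL G (uG φ u)
    rw [← map_mul, comm_unit, map_mul]
  have h1 := (hCRS _ _ f (uL G (uG φ u)) hf m).1 x
  have h2 := (hCRS _ _ (MonoidHom.id _) (tL G) (fun z => comm_t z) (m + 1)).1
    (insL m (uL G (uG φ u)) (IC.map ℚ m f x))
  have h3 : IC.map ℚ (m + 1) (MonoidHom.id (GLn (LaurentPolynomial (MonoidAlgebra ℤ G)) 1))
      (insL m (uL G (uG φ u)) (IC.map ℚ m f x)) =
      insL m (uL G (uG φ u)) (IC.map ℚ m f x) := IC.map_id (m + 1) _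
  rw [h3, h1] at h2
  have h4 : chU (uG φ u) x =
      insL (m + 1) (tL G) (insL m (uL G (uG φ u)) (IC.map ℚ m f x)) := rfl
  rw [h4, h2]
  rfl

end BRF

open BRF in
theorem t_BRF : S_CRS → S_BRF := by
  intro hCRS ε0 m G _ A1 hA a V hV D hrel
  obtain ⟨x, rfl⟩ := exists_cl (k := ℚ) a
  rw [Finsupp.mem_span_range_iff_exists_finsupp] at hV
  obtain ⟨q, rfl⟩ := hV
  choose z hz using fun j : Ix (m + 1) G => exists_cl (k := ℚ) j.c
  refine ⟨mkDat (Ix (m + 1) G) q.support q (fun j => j.N) (fun j => j.p) (fun j => j.φ)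
    (fun j => j.hN) (fun j => j.hp) (fun j => j.hpN) (fun j => j.hφ) z,
    psi ℚ (m + 2) _ (ch ℚ (m + 2) _ x), ?_⟩
  have h1 := congrArg (bridge (MonoidAlgebra ℤ G) (m + 1)) hrel
  have h2 : bridge (MonoidAlgebra ℤ G) (m + 1) (tau (m + 1) G (cl ℚ (m + 2) _ x)) =
      (BK (MonoidAlgebra ℤ G) (m + 3)).mkQ
        (kinS (LaurentPolynomial (MonoidAlgebra ℤ G)) (m + 3) 1
          (hmap ℚ (gl1 mon) (m + 3) (psi ℚ (m + 2) _ (ch ℚ (m + 2) _ x)))) :=
    bridge_mk (MonoidAlgebra ℤ G) (m + 1) 1 (gl1 mon) x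
  have h3 : bridge (MonoidAlgebra ℤ G) (m + 1) (q.sum fun j r => r • rawV ε0 (m + 1) G j) =
      (BK (MonoidAlgebra ℤ G) (m + 3)).mkQ
        (∑ j ∈ q.support, q j • kinS (LaurentPolynomial (MonoidAlgebra ℤ G)) (m + 3)
          (ε0 j.N j.p).n (hmap ℚ (fun y => rhoC (ε0 j.N j.p) j.φ y) (m + 3)
            (psi ℚ (m + 2) _ (ch ℚ (m + 2) _ (z j))))) := by
    unfold Finsupp.sum
    rw [map_sum, map_sum]
    refine Finset.sum_congr rfl fun j _ => ?_
    rw [map_smul, map_smul]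
    congr 1
    unfold rawV
    rw [← hz j]
    exact bridge_mk (MonoidAlgebra ℤ G) (m + 1) _ (rhoC (ε0 j.N j.p) j.φ) (z j)
  have h4 : (bridge (MonoidAlgebra ℤ G) (m + 1)).comp (A1.comp (val1 m G)) =
      (BK (MonoidAlgebra ℤ G) (m + 3)).mkQ.comp (chn1 m G) := by
    refine Finsupp.lhom_ext fun s r => ?_
    have h5 : val1 m G (Finsupp.single s r) = r • s.val := Finsupp.linearCombination_single ℚ r s
    have h6 : chn1 m G (Finsupp.single s r) = r • s.chn := Finsupp.linearCombination_single ℚ r s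
    rw [LinearMap.comp_apply, LinearMap.comp_apply, LinearMap.comp_apply, h5, h6, map_smul,
      map_smul, map_smul]
    congr 1
    obtain ⟨z', hz', hA'⟩ := hA (s.φ (gen s.N)) (uG s.φ s.u) s.z (adm s.φ s.u)
    have h7 : A1 s.val = KB.mk (m + 1) (MonoidAlgebra ℤ G) 1 (cl ℚ (m + 2) _ z') := hA'
    have h8 : bridge (MonoidAlgebra ℤ G) (m + 1)
        (KB.mk (m + 1) (MonoidAlgebra ℤ G) 1 (cl ℚ (m + 2) _ z')) =
        (BK (MonoidAlgebra ℤ G) (m + 3)).mkQ
          (kinS (LaurentPolynomial (MonoidAlgebra ℤ G)) (m + 3) 1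
            (psi ℚ (m + 2) _ (ch ℚ (m + 2) _ z'))) :=
      br1_of (MonoidAlgebra ℤ G) (m + 1) 1 z'
    rw [h7, h8, hz', chain_eq hCRS]
    rfl
  have h5 := LinearMap.congr_fun h4 D
  rw [LinearMap.comp_apply, LinearMap.comp_apply, LinearMap.comp_apply] at h5
  rw [map_add, map_add, map_zero, h2, h3, h5, ← map_add, ← map_add, Submodule.mkQ_apply,
    Submodule.Quotient.mk_eq_zero] at h1
  have h6 : ∀ A B C : SCh (LaurentPolynomial (MonoidAlgebra ℤ G)) (m + 3),
      A + B + C ∈ BK (MonoidAlgebra ℤ G) (m + 3) → B + (A + C) ∈ BK (MonoidAlgebra ℤ G) (m + 3) := by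
    intro A B C h
    rwa [← add_assoc, add_comm B A]
  exact h6 _ _ _ h1

end Pool.Agent.FJA
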