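import Pool.Agent.FJA.St7

/-!
# CRS: the product with a commuting element on homology
-/

set_option autoImplicit false
set_option linter.unusedSectionVars false

open Matrix Pool.Agent.WhK Pool.Agent.Lib25 CategoryTheory

noncomputable section

namespace Pool.Agent.FJA

namespace CRS

/-! ## `insL` is linear -/

section lin

variable {Q : Type}

/-- The shuffle product with `[g]` as a linear map. -/
def ins (m : ℕ) (g : Q) : ((Fin m → Q) →₀ ℚ) →ₗ[ℚ] ((Fin (m + 1) → Q) →₀ ℚ) :=
  Finsupp.linearCombination ℚ fun a =>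
    ∑ i : Fin (m + 1), Finsupp.single (Fin.insertNth (α := fun _ => Q) i g a) ((-1 : ℚ) ^ (i : ℕ))

theorem ins_eq (m : ℕ) (g : Q) (x : (Fin m → Q) →₀ ℚ) : insL m g x = ins m g x := by
  unfold insL ins
  rw [Finsupp.linearCombination_apply]
  refine Finsupp.sum_congr fun a _ => ?_
  rw [Finset.smul_sum]
  refine Finset.sum_congr rfl fun i _ => ?_
  rw [Finsupp.smul_single, smul_eq_mul, mul_comm]

theorem ins_single (m : ℕ) (g : Q) (a : Fin m → Q) (q : ℚ) :
    ins m g (Finsupp.single a q) = ∑ i : Fin (m + 1),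
      Finsupp.single (Fin.insertNth (α := fun _ => Q) i g a) ((-1 : ℚ) ^ (i : ℕ) * q) := by
  unfold ins
  rw [Finsupp.linearCombination_single, Finset.smul_sum]
  refine Finset.sum_congr rfl fun i _ => ?_
  rw [Finsupp.smul_single, smul_eq_mul, mul_comm]

end lin

/-! ## The products of the first entries -/

section pp

variable {P Q : Type} [Group P] [Group Q]

theorem pa_le {m : ℕ} (i : Fin (m + 1)) (j : Fin (m + 2)) (h : (j : ℕ) ≤ i) :
    ((i.predAbove j : Fin (m + 1)) : ℕ) = j := by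
  rw [Fin.predAbove_of_le_castSucc i j (by rw [Fin.le_def, Fin.val_castSucc]; exact h)]
  rfl

theorem pa_gt {m : ℕ} (i : Fin (m + 1)) (j : Fin (m + 2)) (h : (i : ℕ) < j) :
    ((i.predAbove j : Fin (m + 1)) : ℕ) = j - 1 := by
  rw [Fin.predAbove_of_castSucc_lt i j (by rw [Fin.lt_def, Fin.val_castSucc]; exact h)]
  rfl

theorem mix_le {V V' : Type} (f f' : V → V') {m : ℕ} (v : Fin (m + 1) → V) (i : Fin (m + 1))
    (j : Fin (m + 2)) (j' : Fin (m + 1)) (h : (j : ℕ) ≤ i) (hj : (j' : ℕ) = j) :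
    mix f f' v i j = f (v j') := by
  unfold mix
  rw [if_pos (by rw [Fin.le_def, Fin.val_castSucc]; exact h)]
  congr 2
  apply Fin.ext
  rw [pa_le i j h, hj]

theorem mix_gt {V V' : Type} (f f' : V → V') {m : ℕ} (v : Fin (m + 1) → V) (i : Fin (m + 1))
    (j : Fin (m + 2)) (j' : Fin (m + 1)) (h : (i : ℕ) < j) (hj : (j' : ℕ) + 1 = j) :
    mix f f' v i j = f' (v j') := by
  unfold mix
  rw [if_neg (by rw [Fin.le_def, Fin.val_castSucc]; omega)]
  congr 2
  apply Fin.ext
  rw [pa_gt i j h]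
  omega

theorem pp_insert {m : ℕ} (f : P →* Q) (g : Q) (hg : ∀ z, g * f z = f z * g) (a : Fin m → P)
    (i : Fin (m + 1)) :
    Fin.partialProd (Fin.insertNth (α := fun _ => Q) i g (f ∘ a) : Fin (m + 1) → Q) =
      mix f (fun z => f z * g) (Fin.partialProd a) i := by
  funext j
  induction j using Fin.induction with
  | zero =>
    rw [Fin.partialProd_zero, mix_le _ _ _ i 0 0 (by simp) rfl, Fin.partialProd_zero, map_one]
  | succ j ih =>
    rw [Fin.partialProd_succ, ih]
    refine Fin.succAboveCases (α := fun j => mix f (fun z => f z * g) (Fin.partialProd a) i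
      j.castSucc * (Fin.insertNth (α := fun _ => Q) i g (f ∘ a) : Fin (m + 1) → Q) j =
      mix f (fun z => f z * g) (Fin.partialProd a) i j.succ) i ?_ (fun j' => ?_) j
    · rw [Fin.insertNth_apply_same, mix_le _ _ _ i i.castSucc i (by simp) (by simp),
        mix_gt _ _ _ i i.succ i (by simp) (by simp)]
    · rw [Fin.insertNth_apply_succAbove]
      rcases lt_or_ge (j' : ℕ) (i : ℕ) with h | h
      · have h1 : i.succAbove j' = j'.castSucc := Fin.succAbove_of_castSucc_lt i j'
          (by rw [Fin.lt_def, Fin.val_castSucc]; exact h)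
        rw [h1, mix_le _ _ _ i j'.castSucc.castSucc j'.castSucc (by simp; omega) (by simp),
          mix_le _ _ _ i j'.castSucc.succ j'.succ (by simp; omega) (by simp),
          Fin.partialProd_succ, map_mul]
        rfl
      · have h1 : i.succAbove j' = j'.succ := Fin.succAbove_of_le_castSucc i j'
          (by rw [Fin.le_def, Fin.val_castSucc]; exact h)
        rw [h1, mix_gt _ _ _ i j'.succ.castSucc j'.castSucc (by simp; omega) (by simp),
          mix_gt _ _ _ i j'.succ.succ j'.succ (by simp; omega) (by simp),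
          Fin.partialProd_succ, map_mul]
        change f (Fin.partialProd a j'.castSucc) * g * f (a j') =
          f (Fin.partialProd a j'.castSucc) * f (a j') * g
        rw [mul_assoc, hg, mul_assoc]

theorem prism_single (f f' : P → Q) (m : ℕ) (v : Fin m → P) (q : ℚ) :
    prism ℚ f f' m (Finsupp.single v q) =
      ∑ i : Fin m, Finsupp.single (mix f f' v i) ((-1 : ℚ) ^ (i : ℕ) * q) := by
  unfold prism
  rw [Finsupp.linearCombination_single, Finset.smul_sum]
  refine Finset.sum_congr rfl fun i _ => ?_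
  rw [Finsupp.smul_single, smul_eq_mul, mul_comm]

theorem psi_ins (m : ℕ) (f : P →* Q) (g : Q) (hg : ∀ z, g * f z = f z * g) (x : IC ℚ m P) :
    psi ℚ (m + 1) Q (ins m g (IC.map ℚ m f x)) =
      prism ℚ f (fun z => f z * g) (m + 1) (psi ℚ m P x) := by
  induction x using Finsupp.induction_linear with
  | zero => simp only [map_zero]
  | add x y hx hy => simp only [map_add, hx, hy]
  | single a q =>
    rw [IC.map_single, ins_single, map_sum, psi_single, prism_single]
    refine Finset.sum_congr rfl fun i _ => ?_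
    rw [psi_single, pp_insert f g hg]

end pp

/-! ## The identity -/

section ident

variable {P Q : Type} [Group P] [Group Q]

theorem prism_mem (hBD : S_BD.{0, 0, 0}) (m : ℕ) (f : P →* Q) (g : Q) {w : HCh ℚ P m}
    (hw : w ∈ hdeg ℚ P m) :
    prism ℚ f (fun z => f z * g) (m + 1) w ∈ hdeg ℚ Q (m + 1) := by
  have h1 : hdeg ℚ P m ≤ (hdeg ℚ Q (m + 1)).comap
      (prism ℚ f (fun z => f z * g) (m + 1)) := by
    unfold hdeg
    rw [Submodule.span_le]
    rintro x ⟨γ, X, rfl⟩
    change prism ℚ f (fun z => f z * g) (m + 1) _ ∈ hdeg ℚ Q (m + 1)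
    have h2 := (hBD ℚ P (m + 1)).2.2 Q f (fun z => f z * g) (γ * ·) (f γ * ·)
      (Finsupp.single X 1) (fun v => map_mul f γ v) (fun v => by
        show f (γ * v) * g = f γ * (f v * g)
        rw [map_mul, mul_assoc])
    have h3 : hmap ℚ (γ * ·) (m + 1) (Finsupp.single X 1) =
        Finsupp.single (fun i => γ * X i) 1 := Finsupp.mapDomain_single
    rw [h3] at h2
    rw [map_sub, h2]
    exact hmap_sub_mem (m + 1) (f γ) _
  exact h1 hw

theorem phi_hmap (m : ℕ) (f : P →* Q) (g : Q) (hg : ∀ z, g * f z = f z * g) (w : HCh ℚ P m) :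
    phi ℚ m Q (hmap ℚ (fun z => f z * g) (m + 1) w) = phi ℚ m Q (hmap ℚ f (m + 1) w) := by
  have h1 : hmap ℚ (fun z => f z * g) (m + 1) w =
      hmap ℚ (g * ·) (m + 1) (hmap ℚ f (m + 1) w) := by
    rw [hmap_hmap]
    congr 1
    congr 1
    funext z
    exact (hg z).symm
  have h2 := phi_hdeg m (hmap_sub_mem m g (hmap ℚ f (m + 1) w))
  rw [map_sub, sub_eq_zero] at h2
  rw [h1, h2]

/-- the identity (*) -/
theorem dI_ins (hPRI : S_PRI.{0, 0, 0}) (hBD : S_BD.{0, 0, 0}) (m : ℕ) (f : P →* Q) (g : Q)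
    (hg : ∀ z, g * f z = f z * g) (y : IC ℚ (m + 1) P) :
    dI ℚ (m + 1) Q (ins (m + 1) g (IC.map ℚ (m + 1) f y)) =
      - ins m g (IC.map ℚ m f (dI ℚ m P y)) := by
  have h1 := psi_ins (m + 1) f g hg y
  have h2 := hPRI ℚ P Q f (fun z => f z * g) (m + 1) (psi ℚ (m + 1) P y)
  have h3 := phi_bd (k := ℚ) (P := Q) (m + 1)
    (prism ℚ f (fun z => f z * g) (m + 2) (psi ℚ (m + 1) P y))
  have h4 := phi_hdeg (m + 1) (prism_mem hBD m f g (psi_d m y))
  rw [map_sub, map_sub, sub_eq_zero, ← psi_ins m f g hg, phi_psi] at h4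
  rw [h2, map_sub, map_sub, phi_hmap (m + 1) f g hg, sub_self, zero_sub, h4, ← h1, phi_psi] at h3
  exact h3.symm

theorem dI_ins0 (hPRI : S_PRI.{0, 0, 0}) (f : P →* Q) (g : Q)
    (hg : ∀ z, g * f z = f z * g) (y : IC ℚ 0 P) :
    dI ℚ 0 Q (ins 0 g (IC.map ℚ 0 f y)) = 0 := by
  have h1 := psi_ins 0 f g hg y
  have h2 := hPRI ℚ P Q f (fun z => f z * g) 0 (psi ℚ 0 P y)
  have h3 := phi_bd (k := ℚ) (P := Q) 0
    (prism ℚ f (fun z => f z * g) 1 (psi ℚ 0 P y))
  have h5 : ∀ c : (Fin 0 → P) →₀ ℚ, prism ℚ f (fun z => f z * g) 0 c = 0 := by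
    intro c
    induction c using Finsupp.induction_linear with
    | zero => rw [map_zero]
    | add a b ha hb => rw [map_add, ha, hb, add_zero]
    | single a q =>
      rw [prism_single, Finset.univ_eq_empty, Finset.sum_empty]
  rw [h2, h5, sub_zero, map_sub, phi_hmap 0 f g hg, sub_self, ← h1, phi_psi] at h3
  exact h3.symm

end ident

end CRS

open CRS in
theorem t_CRS : S_PRI.{0, 0, 0} → S_BD.{0, 0, 0} → S_CRS := by
  intro hPRI hBD P Q _ _ f g hg m
  refine ⟨fun x => ?_, ?_⟩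
  · rw [ins_eq]
    exact psi_ins m f g hg x
  have hcyc : ∀ z : ZC ℚ m P, dI ℚ m Q (ins m g (IC.map ℚ m f (ch ℚ m P z))) = 0 := by
    intro z
    rcases m with _ | m
    · exact dI_ins0 hPRI f g hg _
    · rw [dI_ins hPRI hBD m f g hg, d_ch, map_zero, map_zero, neg_zero]
  choose Z hZ using fun z => exists_ch _ (hcyc z)
  let Y : ZC ℚ m P →ₗ[ℚ] Hk ℚ (m + 1) Q :=
    { toFun := fun z => cl ℚ (m + 1) Q (Z z)
      map_add' := fun a b => by
        rw [← map_add]
        apply cl_congr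
        rw [hZ, (ch ℚ (m + 1) Q).map_add, hZ, hZ, map_add, map_add, map_add]
      map_smul' := fun q a => by
        rw [RingHom.id_apply, ← map_smul]
        apply cl_congr
        rw [hZ, (ch ℚ (m + 1) Q).map_smul, hZ, map_smul, map_smul, map_smul] }
  have hY0 : ∀ z, cl ℚ m P z = 0 → Y z = 0 := by
    intro z hz
    obtain ⟨y, hy⟩ := (cl_eq_zero_iff z).1 hz
    change cl ℚ (m + 1) Q (Z z) = 0
    rw [cl_eq_zero_iff]
    refine ⟨- ins (m + 1) g (IC.map ℚ (m + 1) f y), ?_⟩
    rw [map_neg, dI_ins hPRI hBD m f g hg, neg_neg, hZ, hy]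
  obtain ⟨s, hs⟩ := LinearMap.exists_rightInverse_of_surjective (cl ℚ m P)
    (LinearMap.range_eq_top.2 fun c => exists_cl c)
  refine ⟨Y ∘ₗ s, fun z => ⟨Z z, by rw [hZ, ins_eq], ?_⟩⟩
  have h1 : cl ℚ m P (s (cl ℚ m P z) - z) = 0 := by
    rw [map_sub, sub_eq_zero]
    exact LinearMap.congr_fun hs (cl ℚ m P z)
  have h2 := hY0 _ h1
  rw [map_sub, sub_eq_zero] at h2
  exact h2

end Pool.Agent.FJA
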