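import Pool.Agent.FJA.St7

/-!
# Module NRM: the norm to the group ring of a subgroup
-/

set_option autoImplicit false

open Matrix Pool.Agent.WhK Pool.Agent.Lib25 CategoryTheory

noncomputable section

namespace Pool.Agent.FJA

namespace NRM

section Mat

variable {C : Type} [CommGroup C] (D : Subgroup C)

/-- The projection of a group element to the group ring of the subgroup. -/
def tau (x : C) : MonoidAlgebra ℤ D := by
  classical exact if h : x ∈ D then MonoidAlgebra.single ⟨x, h⟩ 1 else 0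

theorem tau_mem {x : C} (h : x ∈ D) : tau D x = MonoidAlgebra.single ⟨x, h⟩ 1 := by
  unfold tau
  rw [dif_pos h]

theorem tau_not {x : C} (h : x ∉ D) : tau D x = 0 := by
  unfold tau
  rw [dif_neg h]

theorem tau_mul {x y : C} (h : y ∈ D) : tau D x * tau D y = tau D (x * y) := by
  by_cases hx : x ∈ D
  · rw [tau_mem D hx, tau_mem D h, tau_mem D (D.mul_mem hx h), MonoidAlgebra.single_mul_single]
    rfl
  · have h2 : x * y ∉ D := fun hh => hx (by simpa using D.mul_mem hh (D.inv_mem h))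
    rw [tau_not D hx, tau_not D h2, zero_mul]

theorem tau_one : tau D 1 = 1 := by
  rw [tau_mem D D.one_mem]
  rfl

variable [Fintype (C ⧸ D)] [DecidableEq (C ⧸ D)]

/-- The regular representation over the group ring of the subgroup. -/
def Mc : C →* Matrix (C ⧸ D) (C ⧸ D) (MonoidAlgebra ℤ D) where
  toFun c := Matrix.of fun i j => tau D ((Quotient.out i)⁻¹ * c * Quotient.out j)
  map_one' := by
    ext1 i j
    rw [Matrix.of_apply, mul_one]
    by_cases h : i = j
    · subst h
      rw [inv_mul_cancel, tau_one, Matrix.one_apply_eq]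
    · rw [Matrix.one_apply_ne h]
      apply tau_not
      intro h2
      apply h
      have h3 := QuotientGroup.eq.2 h2
      rwa [QuotientGroup.out_eq', QuotientGroup.out_eq'] at h3
  map_mul' c c' := by
    ext1 i j
    rw [Matrix.mul_apply]
    simp only [Matrix.of_apply]
    rw [Finset.sum_eq_single (QuotientGroup.mk (c' * Quotient.out j) : C ⧸ D)]
    · set k : C ⧸ D := QuotientGroup.mk (c' * Quotient.out j) with hk
      have h1 : (Quotient.out k)⁻¹ * c' * Quotient.out j ∈ D := by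
        rw [mul_assoc]
        apply QuotientGroup.eq.1
        rw [QuotientGroup.out_eq']
      rw [tau_mul D h1]
      congr 1
      group
    · intro k _ hk
      have h1 : (Quotient.out k)⁻¹ * c' * Quotient.out j ∉ D := by
        intro h2
        apply hk
        rw [mul_assoc] at h2
        have h3 := QuotientGroup.eq.2 h2
        rwa [QuotientGroup.out_eq'] at h3
      rw [tau_not D h1, mul_zero]
    · intro h
      exact absurd (Finset.mem_univ _) h

/-- The representation of the group ring. -/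
def MA : MonoidAlgebra ℤ C →ₐ[ℤ] Matrix (C ⧸ D) (C ⧸ D) (MonoidAlgebra ℤ D) :=
  MonoidAlgebra.lift ℤ _ C (Mc D)

theorem trace_Mc (c : C) : Matrix.trace (Mc D c) = Fintype.card (C ⧸ D) • tau D c := by
  have h : ∀ i : C ⧸ D, (Mc D c) i i = tau D c := by
    intro i
    show tau D ((Quotient.out i)⁻¹ * c * Quotient.out i) = _
    congr 1
    rw [mul_comm _ c, mul_assoc, inv_mul_cancel, mul_one]
  unfold Matrix.trace
  simp only [Matrix.diag_apply, h]
  rw [Finset.sum_const, Finset.card_univ]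

theorem trace_MA (x : MonoidAlgebra ℤ C) (c : C) (h : c ∈ D) :
    (Matrix.trace (MA D x)).coeff ⟨c, h⟩ = (Fintype.card (C ⧸ D) : ℤ) * x.coeff c := by
  have hdec : DecidableEq C := Classical.decEq C
  induction x using MonoidAlgebra.induction_linear with
  | zero => simp
  | add x y hx hy =>
    rw [map_add, Matrix.trace_add, MonoidAlgebra.coeff_add, Finsupp.add_apply, hx, hy,
      MonoidAlgebra.coeff_add, Finsupp.add_apply]
    ring
  | single c' r =>
    unfold MA
    rw [MonoidAlgebra.lift_single, Matrix.trace_smul, trace_Mc, MonoidAlgebra.coeff_smul_apply,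
      MonoidAlgebra.coeff_smul_apply, MonoidAlgebra.coeff_single]
    by_cases h1 : c' = c
    · subst h1
      rw [tau_mem D h, MonoidAlgebra.coeff_single, Finsupp.single_eq_same, Finsupp.single_eq_same]
      simp only [smul_eq_mul, nsmul_eq_mul, mul_one]
      ring
    · have h2 : (tau D c').coeff ⟨c, h⟩ = 0 := by
        by_cases h3 : c' ∈ D
        · rw [tau_mem D h3, MonoidAlgebra.coeff_single, Finsupp.single_apply, if_neg]
          intro h4
          exact h1 (congrArg Subtype.val h4)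
        · rw [tau_not D h3]
          rfl
      rw [h2, Finsupp.single_apply, if_neg h1]
      simp

/-- The determinant. -/
def dt : MonoidAlgebra ℤ C →* MonoidAlgebra ℤ D :=
  (Matrix.detMonoidHom : Matrix (C ⧸ D) (C ⧸ D) (MonoidAlgebra ℤ D) →* MonoidAlgebra ℤ D).comp
    ((MA D).toRingHom : MonoidAlgebra ℤ C →* Matrix (C ⧸ D) (C ⧸ D) (MonoidAlgebra ℤ D))

theorem dt_apply (x : MonoidAlgebra ℤ C) : dt D x = Matrix.det (MA D x) := rfl

theorem dt_one_add (N : ℕ) (x : MonoidAlgebra ℤ C) : ∃ z : MonoidAlgebra ℤ D,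
    ∀ (c : C) (h : c ∈ D), ((dt D (1 + N • x)) - 1).coeff ⟨c, h⟩ =
      (N : ℤ) * ((Fintype.card (C ⧸ D) : ℤ) * x.coeff c) + (N : ℤ) ^ 2 * z.coeff ⟨c, h⟩ := by
  have h1 : MA D (1 + N • x) = 1 + ((N : ℕ) : MonoidAlgebra ℤ D) • MA D x := by
    rw [map_add, map_one, map_nsmul, Nat.cast_smul_eq_nsmul]
  obtain ⟨z, hz⟩ : ∃ z : MonoidAlgebra ℤ D, dt D (1 + N • x) =
      1 + Matrix.trace (MA D x) * ((N : ℕ) : MonoidAlgebra ℤ D) + z * (N : MonoidAlgebra ℤ D) ^ 2 := by
    rw [dt_apply, h1, Matrix.det_one_add_smul]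
    exact ⟨_, rfl⟩
  refine ⟨z, fun c h => ?_⟩
  have h2 : dt D (1 + N • x) - 1 = N • Matrix.trace (MA D x) + (N ^ 2) • z := by
    rw [hz, nsmul_eq_mul, nsmul_eq_mul]
    push_cast
    ring
  rw [h2, MonoidAlgebra.coeff_add, Finsupp.add_apply, MonoidAlgebra.coeff_smul_apply,
    MonoidAlgebra.coeff_smul_apply, trace_MA]
  simp only [nsmul_eq_mul, Nat.cast_pow]

end Mat

theorem exists_smul {C : Type} [Group C] [Finite C] (N : ℕ) (y : MonoidAlgebra ℤ C)
    (h : ∀ c, (N : ℤ) ∣ y.coeff c) : ∃ x : MonoidAlgebra ℤ C, y = N • x := by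
  classical
  have := Fintype.ofFinite C
  choose f hf using h
  refine ⟨MonoidAlgebra.ofCoeff (Finsupp.equivFunOnFinite.symm f), ?_⟩
  apply MonoidAlgebra.coeff_injective
  ext c
  rw [MonoidAlgebra.coeff_smul_apply, hf c]
  simp

theorem coeff_map {C : Type} [CommGroup C] (D : Subgroup C) (y : MonoidAlgebra ℤ D) (c : C)
    (h : c ∈ D) : (MonoidAlgebra.mapDomainRingHom ℤ D.subtype y).coeff c = y.coeff ⟨c, h⟩ := by
  show (Finsupp.mapDomain D.subtype y.coeff) (D.subtype ⟨c, h⟩) = _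
  exact Finsupp.mapDomain_apply D.subtype_injective _ _

theorem coeff_map_not {C : Type} [CommGroup C] (D : Subgroup C) (y : MonoidAlgebra ℤ D) (c : C)
    (h : c ∉ D) : (MonoidAlgebra.mapDomainRingHom ℤ D.subtype y).coeff c = 0 := by
  show (Finsupp.mapDomain D.subtype y.coeff) c = _
  apply Finsupp.mapDomain_of_notMem_range
  rintro ⟨a, rfl⟩
  exact h a.2

end NRM

open NRM in
theorem t_NRM : S_PLB → S_PLC → S_PLA → S_NRM := by
  intro hPLB _ hPLA p hp C _ _ d v
  classical
  set D := Subgroup.zpowers d with hD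
  have := Fintype.ofFinite (C ⧸ D)
  obtain ⟨⟨E, hE0, hE1, hE2⟩, _, _⟩ := hPLB p C v
  set w0 : (MonoidAlgebra ℤ D)ˣ := Units.map (dt D) v with hw0
  set w : (MonoidAlgebra ℤ C)ˣ := Units.map (MonoidAlgebra.mapDomainRingHom ℤ D.subtype :
    MonoidAlgebra ℤ D →* MonoidAlgebra ℤ C) w0 with hw
  set κ : ℕ := Fintype.card (C ⧸ D) with hκ
  have hκ0 : 0 < κ := Fintype.card_pos
  -- powers of v
  obtain ⟨x0, hx0⟩ := exists_smul p ((v : MonoidAlgebra ℤ C) ^ E - 1) hE1
  have hv : ∀ a : ℕ, ∃ x : MonoidAlgebra ℤ C,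
      (v : MonoidAlgebra ℤ C) ^ (E * p ^ a) = 1 + (p ^ (a + 1)) • x := by
    intro a
    obtain ⟨z, hz⟩ := hPLA (MonoidAlgebra ℤ C) p 1 le_rfl x0 a
    refine ⟨x0 + z, ?_⟩
    have h1 : (v : MonoidAlgebra ℤ C) ^ E = 1 + (p : MonoidAlgebra ℤ C) ^ 1 * x0 := by
      rw [pow_one, ← nsmul_eq_mul, ← hx0]
      ring
    rw [pow_mul, h1, hz, nsmul_eq_mul]
    have h2 : a + 2 * 1 - 1 = a + 1 := by omega
    rw [h2]
    push_cast
    ring
  choose x hx using hv
  have hz : ∀ a : ℕ, ∃ z : MonoidAlgebra ℤ D, ∀ (c : C) (h : c ∈ D),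
      ((dt D ((v : MonoidAlgebra ℤ C) ^ (E * p ^ a))) - 1).coeff ⟨c, h⟩ =
      (κ : ℤ) * ((v : MonoidAlgebra ℤ C) ^ (E * p ^ a) - 1).coeff c +
        ((p ^ (a + 1) : ℕ) : ℤ) ^ 2 * z.coeff ⟨c, h⟩ := by
    intro a
    obtain ⟨z, hz⟩ := dt_one_add D (p ^ (a + 1)) (x a)
    refine ⟨z, fun c h => ?_⟩
    have h1 : (v : MonoidAlgebra ℤ C) ^ (E * p ^ a) - 1 = (p ^ (a + 1)) • x a := by
      rw [hx a]; ring
    rw [h1, hx a, hz c h, MonoidAlgebra.coeff_smul_apply]
    simp only [nsmul_eq_mul]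
    ring
  choose z hz using hz
  have hwn : ∀ n : ℕ, (w : MonoidAlgebra ℤ C) ^ n - 1 =
      MonoidAlgebra.mapDomainRingHom ℤ D.subtype (dt D ((v : MonoidAlgebra ℤ C) ^ n) - 1) := by
    intro n
    rw [map_sub, map_one, map_pow, map_pow]
    rfl
  have hin : ∀ (a : ℕ) (c : C) (h : c ∈ D),
      ((w : MonoidAlgebra ℤ C) ^ (E * p ^ a) - 1).coeff c =
      (κ : ℤ) * ((v : MonoidAlgebra ℤ C) ^ (E * p ^ a) - 1).coeff c +
        ((p ^ (a + 1) : ℕ) : ℤ) ^ 2 * (z a).coeff ⟨c, h⟩ := by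
    intro a c h
    rw [hwn, coeff_map D _ c h, hz a c h]
  have hout : ∀ (a : ℕ) (c : C), c ∉ D →
      ((w : MonoidAlgebra ℤ C) ^ (E * p ^ a) - 1).coeff c = 0 := by
    intro a c h
    rw [hwn, coeff_map_not D _ c h]
  have hp0 : (0 : ℝ) < p := by exact_mod_cast hp.out.pos
  have hp1 : (1 : ℝ) < p := by exact_mod_cast hp.out.one_lt
  have hl : IsPlog p (w : MonoidAlgebra ℤ C)
      (fun c => if c ∈ D then (κ : ℚ_[p]) * plog p v c else 0) := by
    refine ⟨E, hE0, fun c => ?_, fun c => ?_⟩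
    · by_cases h : c ∈ D
      · have h1 := hin 0 c h
        rw [pow_zero, mul_one] at h1
        rw [h1]
        apply dvd_add (Dvd.dvd.mul_left (hE1 c) _)
        apply Dvd.dvd.mul_right
        rw [zero_add, pow_one]
        exact dvd_pow_self _ two_ne_zero
      · have h1 := hout 0 c h
        rw [pow_zero, mul_one] at h1
        rw [h1]
        exact dvd_zero _
    · by_cases h : c ∈ D
      · simp only [h, if_true]
        have h1 : Filter.Tendsto (fun a : ℕ => (κ : ℚ_[p]) *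
            (((((v : MonoidAlgebra ℤ C) ^ (E * p ^ a) - 1).coeff c : ℤ) : ℚ_[p]) /
              ((E * p ^ a : ℕ) : ℚ_[p]))) Filter.atTop (nhds ((κ : ℚ_[p]) * plog p v c)) :=
          (hE2 c).const_mul _
        have h2 : Filter.Tendsto (fun a : ℕ =>
            (p : ℚ_[p]) ^ a * ((p : ℚ_[p]) ^ 2 * (((z a).coeff ⟨c, h⟩ : ℤ) : ℚ_[p]) / (E : ℚ_[p])))
            Filter.atTop (nhds 0) := by
          apply squeeze_zero_norm (a := fun a : ℕ => ((p : ℝ)⁻¹) ^ a * ‖(E : ℚ_[p])‖⁻¹)
          · intro a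
            rw [norm_mul, norm_pow, Padic.norm_p, norm_div, norm_mul, norm_pow, Padic.norm_p]
            apply mul_le_mul_of_nonneg_left _ (by positivity)
            rw [div_eq_mul_inv]
            apply mul_le_of_le_one_left (by positivity)
            have h3 := Padic.norm_int_le_one (p := p) ((z a).coeff ⟨c, h⟩)
            have h4 : ((p : ℝ)⁻¹) ^ 2 ≤ 1 := pow_le_one₀ (by positivity) (inv_le_one_of_one_le₀ hp1.le)
            calc ((p : ℝ)⁻¹) ^ 2 * ‖(((z a).coeff ⟨c, h⟩ : ℤ) : ℚ_[p])‖ ≤ 1 * 1 :=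
                  mul_le_mul h4 h3 (norm_nonneg _) zero_le_one
              _ = 1 := one_mul 1
          · have h3 : Filter.Tendsto (fun a : ℕ => ((p : ℝ)⁻¹) ^ a) Filter.atTop (nhds 0) :=
              tendsto_pow_atTop_nhds_zero_of_lt_one (by positivity) (inv_lt_one_of_one_lt₀ hp1)
            have h4 := h3.mul_const (‖(E : ℚ_[p])‖⁻¹)
            rwa [zero_mul] at h4
        have h3 := h1.add h2
        rw [add_zero] at h3
        refine h3.congr fun a => ?_
        rw [hin a c h]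
        have hE : (E : ℚ_[p]) ≠ 0 := by exact_mod_cast hE0.ne'
        have hpp : (p : ℚ_[p]) ≠ 0 := by exact_mod_cast hp.out.ne_zero
        push_cast
        field_simp
        ring
      · simp only [h, if_false]
        have h1 : (fun a : ℕ => ((((w : MonoidAlgebra ℤ C) ^ (E * p ^ a) - 1).coeff c : ℤ) : ℚ_[p]) /
            ((E * p ^ a : ℕ) : ℚ_[p])) = fun _ => 0 := by
          funext a
          rw [hout a c h]
          simp
        rw [h1]
        exact tendsto_const_nhds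
  have huniq := (hPLB p C w).2.1 _ hl
  refine ⟨w, κ, ⟨w0, rfl⟩, hκ0, fun c hc => ?_, fun c hc => ?_⟩
  · rw [← huniq]
    simp only [if_pos hc]
  · rw [← huniq]
    simp only [if_neg hc]

end Pool.Agent.FJA
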