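import Pool.Agent.FJA.St7

/-!
# PLA: binomial estimates in a commutative ring
-/

set_option autoImplicit false

namespace Pool.Agent.FJA

namespace PLA

theorem pow_one_add {R : Type} [CommRing R] (y : R) (n : ℕ) :
    ∃ w : R, (1 + y) ^ n = 1 + (n : R) * y + y ^ 2 * w := by
  induction n with
  | zero => exact ⟨0, by simp⟩
  | succ n ih =>
    obtain ⟨w, hw⟩ := ih
    refine ⟨(n : R) + w + y * w, ?_⟩
    rw [pow_succ, hw]
    push_cast
    ring

end PLA

theorem t_PLA : S_PLA := by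
  intro R _ p e he x b
  induction b with
  | zero => exact ⟨0, by simp⟩
  | succ b ih =>
    obtain ⟨z, hz⟩ := ih
    obtain ⟨e, rfl⟩ : ∃ e', e = e' + 1 := ⟨e - 1, by omega⟩
    have h1 : b + 2 * (e + 1) - 1 = b + (e + 1) + e := by omega
    have h2 : b + 1 + 2 * (e + 1) - 1 = b + 2 * (e + 1) := by omega
    rw [h1] at hz
    obtain ⟨w, hw⟩ := PLA.pow_one_add ((p : R) ^ (b + (e + 1)) * (x + (p : R) ^ e * z)) p
    refine ⟨z + (p : R) ^ b * ((x + (p : R) ^ e * z) ^ 2 * w), ?_⟩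
    have h3 : (1 + (p : R) ^ (e + 1) * x) ^ p ^ b =
        1 + (p : R) ^ (b + (e + 1)) * (x + (p : R) ^ e * z) := by
      rw [hz, pow_add _ (b + (e + 1)) e]
      ring
    have h4 : p ^ (b + 1) = p ^ b * p := pow_succ p b
    rw [h4, pow_mul, h3, hw, h2]
    ring

end Pool.Agent.FJA
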