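import Pool.Agent.FJA.St7

/-!
# Module PLC: properties of the `p`-adic logarithm
-/

set_option autoImplicit false

open Matrix Pool.Agent.WhK Pool.Agent.Lib25 CategoryTheory

noncomputable section

namespace Pool.Agent.FJA

namespace PLC

variable {p : ℕ} [Fact p.Prime] {C : Type} [CommGroup C]

lemma coeff_natCast_mul (n : ℕ) (x : MonoidAlgebra ℤ C) (c : C) :
    ((n : MonoidAlgebra ℤ C) * x).coeff c = n * x.coeff c := by
  rw [← nsmul_eq_mul, MonoidAlgebra.coeff_smul_apply, nsmul_eq_mul]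

omit [Fact p.Prime] in
lemma coeff_pow_mul (e : ℕ) (x : MonoidAlgebra ℤ C) (c : C) :
    ((p : MonoidAlgebra ℤ C) ^ e * x).coeff c = (p : ℤ) ^ e * x.coeff c := by
  have h : (p : MonoidAlgebra ℤ C) ^ e = ((p ^ e : ℕ) : MonoidAlgebra ℤ C) := by push_cast; rfl
  rw [h, coeff_natCast_mul]
  push_cast
  rfl

lemma coeff_sub' (x y : MonoidAlgebra ℤ C) (c : C) : (x - y).coeff c = x.coeff c - y.coeff c := by
  simp

/-- divisibility of all coefficients -/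
def Dv (p e : ℕ) (x : MonoidAlgebra ℤ C) : Prop := ∀ c : C, (p : ℤ) ^ e ∣ x.coeff c

omit [CommGroup C] in
lemma exists_quot (e : ℕ) (x : MonoidAlgebra ℤ C) (h : Dv p e x) :
    ∃ y : MonoidAlgebra ℤ C, ∀ c, x.coeff c = (p : ℤ) ^ e * y.coeff c := by
  have hp : (p : ℤ) ≠ 0 := by exact_mod_cast (Fact.out : p.Prime).ne_zero
  refine ⟨MonoidAlgebra.ofCoeff (x.coeff.mapRange (fun z => z / (p : ℤ) ^ e) (by simp)), fun c => ?_⟩
  rw [MonoidAlgebra.coeff_ofCoeff, Finsupp.mapRange_apply, Int.mul_ediv_cancel' (h c)]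

lemma exists_mul (e : ℕ) (x : MonoidAlgebra ℤ C) (h : Dv p e x) :
    ∃ y : MonoidAlgebra ℤ C, x = (p : MonoidAlgebra ℤ C) ^ e * y := by
  obtain ⟨y, hy⟩ := exists_quot e x h
  refine ⟨y, ?_⟩
  apply MonoidAlgebra.coeff_injective
  ext c
  rw [hy, coeff_pow_mul]

omit [Fact p.Prime] in
lemma dv_mul (e : ℕ) (y : MonoidAlgebra ℤ C) : Dv p e ((p : MonoidAlgebra ℤ C) ^ e * y) := by
  intro c
  rw [coeff_pow_mul]
  exact dvd_mul_right _ _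

omit [Fact p.Prime] in
lemma Dv.add {e : ℕ} {x y : MonoidAlgebra ℤ C} (hx : Dv p e x) (hy : Dv p e y) :
    Dv p e (x + y) := by
  intro c
  rw [MonoidAlgebra.coeff_add, Finsupp.add_apply]
  exact dvd_add (hx c) (hy c)

omit [Fact p.Prime] in
lemma Dv.mono {e e' : ℕ} {x : MonoidAlgebra ℤ C} (hx : Dv p e x) (h : e' ≤ e) : Dv p e' x :=
  fun c => (pow_dvd_pow _ h).trans (hx c)

lemma Dv.mul {e e' : ℕ} {x y : MonoidAlgebra ℤ C} (hx : Dv p e x) (hy : Dv p e' y) :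
    Dv p (e + e') (x * y) := by
  obtain ⟨a, rfl⟩ := exists_mul e x hx
  obtain ⟨b, rfl⟩ := exists_mul e' y hy
  have h : (p : MonoidAlgebra ℤ C) ^ e * a * ((p : MonoidAlgebra ℤ C) ^ e' * b) =
      (p : MonoidAlgebra ℤ C) ^ (e + e') * (a * b) := by
    rw [pow_add]
    ring
  rw [h]
  exact dv_mul _ _

lemma Dv.mul_left {e : ℕ} {x : MonoidAlgebra ℤ C} (y : MonoidAlgebra ℤ C) (hx : Dv p e x) :
    Dv p e (y * x) := by
  obtain ⟨a, rfl⟩ := exists_mul e x hx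
  have h : y * ((p : MonoidAlgebra ℤ C) ^ e * a) = (p : MonoidAlgebra ℤ C) ^ e * (y * a) := by
    ring
  rw [h]
  exact dv_mul _ _

/-- a power of a unit which is one modulo `p` -/
lemma dv_pow {e : ℕ} {u : MonoidAlgebra ℤ C} {E : ℕ} (h : Dv p e (u ^ E - 1)) (k : ℕ) :
    Dv p e (u ^ (E * k) - 1) := by
  obtain ⟨z, hz⟩ := sub_one_dvd_pow_sub_one_aux (u ^ E) k
  rw [pow_mul, hz, mul_comm]
  exact h.mul_left z
where
  sub_one_dvd_pow_sub_one_aux (x : MonoidAlgebra ℤ C) (k : ℕ) : (x - 1) ∣ (x ^ k - 1) := by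
    simpa using sub_dvd_pow_sub_pow x 1 k

lemma dv_pow_p (hA : S_PLA) {u : MonoidAlgebra ℤ C} {E : ℕ} (h : Dv p 1 (u ^ E - 1)) (b : ℕ) :
    Dv p (b + 1) (u ^ (E * p ^ b) - 1) := by
  obtain ⟨x, hx⟩ := exists_mul 1 _ h
  obtain ⟨z, hz⟩ := hA (MonoidAlgebra ℤ C) p 1 le_rfl x b
  have h1 : u ^ E = 1 + (p : MonoidAlgebra ℤ C) ^ 1 * x := by
    rw [← hx]
    ring
  have h2 : b + 2 * 1 - 1 = b + 1 := by omega
  rw [pow_mul, h1, hz, h2]
  have h3 : 1 + (p : MonoidAlgebra ℤ C) ^ (b + 1) * x + (p : MonoidAlgebra ℤ C) ^ (b + 1) * z - 1 =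
      (p : MonoidAlgebra ℤ C) ^ (b + 1) * (x + z) := by
    ring
  rw [h3]
  exact dv_mul _ _

lemma norm_le_of_dvd {e : ℕ} {k : ℤ} (h : (p : ℤ) ^ e ∣ k) :
    ‖(k : ℚ_[p])‖ ≤ (p : ℝ) ^ (-(e : ℤ)) := by
  exact (Padic.norm_int_le_pow_iff_dvd k e).2 (by exact_mod_cast h)

/-- small multiples -/
lemma eq_zero_of_small (D : ℚ_[p]) (E : ℕ) (hE : 0 < E)
    (h : ∀ b : ℕ, ‖((E * p ^ b : ℕ) : ℚ_[p]) * D‖ ≤ (p : ℝ) ^ (-(2 * b + 1 : ℤ))) : D = 0 := by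
  have hp : (1 : ℝ) < p := by exact_mod_cast (Fact.out : p.Prime).one_lt
  have hp0 : (0 : ℝ) < p := by linarith
  have hE' : (E : ℚ_[p]) ≠ 0 := by exact_mod_cast hE.ne'
  have h1 : ∀ b : ℕ, ‖(E : ℚ_[p])‖ * ‖D‖ ≤ ((p : ℝ)⁻¹) ^ b := by
    intro b
    have h2 := h b
    rw [Nat.cast_mul, Nat.cast_pow, norm_mul, norm_mul, norm_pow, Padic.norm_p] at h2
    have h3 : (p : ℝ) ^ (-(2 * b + 1 : ℤ)) = ((p : ℝ)⁻¹) ^ b * (((p : ℝ)⁻¹) ^ b * (p : ℝ)⁻¹) := by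
      rw [_root_.zpow_neg, ← _root_.inv_zpow]
      have h4 : (2 * b + 1 : ℤ) = ((b + (b + 1) : ℕ) : ℤ) := by
        push_cast
        ring
      rw [h4, zpow_natCast, pow_add, pow_succ]
    rw [h3] at h2
    have h5 : (0 : ℝ) < ((p : ℝ)⁻¹) ^ b := pow_pos (inv_pos.2 hp0) b
    have h6 : ((p : ℝ)⁻¹) ^ b * (‖(E : ℚ_[p])‖ * ‖D‖) ≤
        ((p : ℝ)⁻¹) ^ b * (((p : ℝ)⁻¹) ^ b * (p : ℝ)⁻¹) := by
      calc ((p : ℝ)⁻¹) ^ b * (‖(E : ℚ_[p])‖ * ‖D‖) = ‖(E : ℚ_[p])‖ * ((p : ℝ)⁻¹) ^ b * ‖D‖ := by ring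
        _ ≤ _ := h2
    have h7 := le_of_mul_le_mul_left h6 h5
    refine h7.trans ?_
    have h8 : (p : ℝ)⁻¹ ≤ 1 := inv_le_one_of_one_le₀ hp.le
    calc ((p : ℝ)⁻¹) ^ b * (p : ℝ)⁻¹ ≤ ((p : ℝ)⁻¹) ^ b * 1 := mul_le_mul_of_nonneg_left h8 h5.le
      _ = _ := mul_one _
  have h9 : Filter.Tendsto (fun b : ℕ => ((p : ℝ)⁻¹) ^ b) Filter.atTop (nhds 0) :=
    tendsto_pow_atTop_nhds_zero_of_lt_one (inv_nonneg.2 hp0.le) (inv_lt_one_of_one_lt₀ hp)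
  have h10 : ‖(E : ℚ_[p])‖ * ‖D‖ ≤ 0 := ge_of_tendsto' h9 h1
  have h11 : 0 < ‖(E : ℚ_[p])‖ := norm_pos_iff.2 hE'
  have h12 : ‖D‖ ≤ 0 := by
    by_contra hc
    push Not at hc
    have := mul_pos h11 hc
    linarith
  exact norm_le_zero_iff.1 h12

lemma norm_add_le' {x y : ℚ_[p]} {r : ℝ} (hx : ‖x‖ ≤ r) (hy : ‖y‖ ≤ r) : ‖x + y‖ ≤ r :=
  (Padic.nonarchimedean x y).trans (max_le hx hy)

lemma norm_sub_le' {x y : ℚ_[p]} {r : ℝ} (hx : ‖x‖ ≤ r) (hy : ‖y‖ ≤ r) : ‖x - y‖ ≤ r := by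
  rw [sub_eq_add_neg]
  exact norm_add_le' hx (by rwa [norm_neg])

variable [Finite C]

/-- the estimate along the powers `E p^b` -/
lemma est (hB : S_PLB) (hA : S_PLA) (u : (MonoidAlgebra ℤ C)ˣ) {E : ℕ} (hE : 0 < E)
    (h : Dv p 1 ((u : MonoidAlgebra ℤ C) ^ E - 1)) (b : ℕ) (c : C) :
    ‖((E * p ^ b : ℕ) : ℚ_[p]) * plog p u c -
      ((((u : MonoidAlgebra ℤ C) ^ (E * p ^ b) - 1).coeff c : ℤ) : ℚ_[p])‖ ≤
        (p : ℝ) ^ (-(2 * b + 1 : ℤ)) := by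
  obtain ⟨-, -, h3⟩ := hB p C u
  have hpp : 0 < p := (Fact.out : p.Prime).pos
  have h4 := h3 (E * p ^ b) (b + 1) (Nat.mul_pos hE (pow_pos hpp b)) (by omega)
    (dv_pow_p hA h b) c
  have h5 : (-(2 * ((b + 1 : ℕ) : ℤ) - 1) : ℤ) = -(2 * b + 1 : ℤ) := by
    push_cast
    ring
  rw [h5] at h4
  exact h4

lemma exists_E (hB : S_PLB) (p : ℕ) [Fact p.Prime] (u : (MonoidAlgebra ℤ C)ˣ) :
    ∃ E : ℕ, 0 < E ∧ Dv p 1 ((u : MonoidAlgebra ℤ C) ^ E - 1) := by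
  obtain ⟨⟨E, hE, h, -⟩, -, -⟩ := hB p C u
  exact ⟨E, hE, fun c => by simpa using h c⟩

/-- additivity -/
lemma plog_mul (hB : S_PLB) (hA : S_PLA) (u v : (MonoidAlgebra ℤ C)ˣ) (c : C) :
    plog p (u * v) c = plog p u c + plog p v c := by
  obtain ⟨E1, hE1, h1⟩ := exists_E hB p u
  obtain ⟨E2, hE2, h2⟩ := exists_E hB p v
  have hE : 0 < E1 * E2 := Nat.mul_pos hE1 hE2
  have h1' : Dv p 1 ((u : MonoidAlgebra ℤ C) ^ (E1 * E2) - 1) := dv_pow h1 E2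
  have h2' : Dv p 1 ((v : MonoidAlgebra ℤ C) ^ (E1 * E2) - 1) := by
    rw [mul_comm]
    exact dv_pow h2 E1
  have key : ∀ n : ℕ, ((u * v : (MonoidAlgebra ℤ C)ˣ) : MonoidAlgebra ℤ C) ^ n - 1 =
      ((u : MonoidAlgebra ℤ C) ^ n - 1) + ((v : MonoidAlgebra ℤ C) ^ n - 1) +
        ((u : MonoidAlgebra ℤ C) ^ n - 1) * ((v : MonoidAlgebra ℤ C) ^ n - 1) := by
    intro n
    rw [Units.val_mul, mul_pow]
    ring
  have h3' : Dv p 1 (((u * v : (MonoidAlgebra ℤ C)ˣ) : MonoidAlgebra ℤ C) ^ (E1 * E2) - 1) := by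
    rw [key]
    exact (h1'.add h2').add (h2'.mul_left _)
  rw [← sub_eq_zero]
  refine eq_zero_of_small _ (E1 * E2) hE fun b => ?_
  have e1 := est hB hA u hE h1' b c
  have e2 := est hB hA v hE h2' b c
  have e3 := est hB hA (u * v) hE h3' b c
  have e4 : ‖((((((u : MonoidAlgebra ℤ C) ^ (E1 * E2 * p ^ b) - 1) *
      ((v : MonoidAlgebra ℤ C) ^ (E1 * E2 * p ^ b) - 1)).coeff c : ℤ)) : ℚ_[p])‖ ≤
        (p : ℝ) ^ (-(2 * b + 1 : ℤ)) := by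
    have h5 := ((dv_pow_p hA h1' b).mul (dv_pow_p hA h2' b)).mono (e' := 2 * b + 1) (by omega) c
    have h6 := norm_le_of_dvd h5
    have h7 : (-((2 * b + 1 : ℕ) : ℤ)) = -(2 * b + 1 : ℤ) := by push_cast; ring
    rwa [h7] at h6
  have h8 : (((((u * v : (MonoidAlgebra ℤ C)ˣ) : MonoidAlgebra ℤ C) ^ (E1 * E2 * p ^ b) - 1).coeff c
      : ℤ) : ℚ_[p]) = ((((u : MonoidAlgebra ℤ C) ^ (E1 * E2 * p ^ b) - 1).coeff c : ℤ) : ℚ_[p]) +
        ((((v : MonoidAlgebra ℤ C) ^ (E1 * E2 * p ^ b) - 1).coeff c : ℤ) : ℚ_[p]) +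
        ((((((u : MonoidAlgebra ℤ C) ^ (E1 * E2 * p ^ b) - 1) *
      ((v : MonoidAlgebra ℤ C) ^ (E1 * E2 * p ^ b) - 1)).coeff c : ℤ)) : ℚ_[p]) := by
    rw [key, MonoidAlgebra.coeff_add, MonoidAlgebra.coeff_add, Finsupp.add_apply,
      Finsupp.add_apply]
    push_cast
    ring
  rw [h8] at e3
  have h9 := norm_add_le' (norm_sub_le' (norm_sub_le' e3 e1) e2) e4
  refine le_trans (le_of_eq ?_) h9
  congr 1
  ring

lemma plog_one (hB : S_PLB) (hA : S_PLA) (c : C) : plog p (1 : (MonoidAlgebra ℤ C)ˣ) c = 0 := by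
  have h := plog_mul (p := p) hB hA (1 : (MonoidAlgebra ℤ C)ˣ) 1 c
  rw [mul_one] at h
  exact left_eq_add.1 h

lemma plog_inv (hB : S_PLB) (hA : S_PLA) (u : (MonoidAlgebra ℤ C)ˣ) (c : C) :
    plog p u⁻¹ c = - plog p u c := by
  have h := plog_mul (p := p) hB hA u u⁻¹ c
  rw [mul_inv_cancel, plog_one hB hA] at h
  exact eq_neg_of_add_eq_zero_right h.symm

lemma plog_pow (hB : S_PLB) (hA : S_PLA) (u : (MonoidAlgebra ℤ C)ˣ) (k : ℕ) (c : C) :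
    plog p (u ^ k) c = k * plog p u c := by
  induction k with
  | zero => simp [plog_one hB hA]
  | succ k ih =>
    rw [pow_succ, plog_mul hB hA, ih]
    push_cast
    ring

/-- torsion -/
lemma torsion (hB : S_PLB) (hA : S_PLA) (u : (MonoidAlgebra ℤ C)ˣ)
    (h0 : ∀ c : C, plog p u c = 0) : ∃ K : ℕ, 0 < K ∧ u ^ K = 1 := by
  obtain ⟨E, hE, h⟩ := exists_E hB p u
  have hp : 1 < p := (Fact.out : p.Prime).one_lt
  have hE' : 0 < E * p := Nat.mul_pos hE (by omega)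
  refine ⟨E * p, hE', ?_⟩
  have h2 : Dv p 2 ((u : MonoidAlgebra ℤ C) ^ (E * p) - 1) := by
    have := dv_pow_p hA h 1
    rwa [pow_one] at this
  have key : ∀ e : ℕ, Dv p (e + 2) ((u : MonoidAlgebra ℤ C) ^ (E * p) - 1) := by
    intro e
    induction e with
    | zero => exact h2
    | succ e ih =>
      intro c
      obtain ⟨-, -, h3⟩ := hB p C u
      have h4 := h3 (E * p) (e + 2) hE' (by omega) ih c
      rw [h0 c, mul_zero, zero_sub, norm_neg] at h4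
      have h5 : (-(2 * ((e + 2 : ℕ) : ℤ) - 1) : ℤ) = -((2 * e + 3 : ℕ) : ℤ) := by
        push_cast
        ring
      rw [h5] at h4
      have h6 := (Padic.norm_int_le_pow_iff_dvd _ _).1 h4
      have h7 : ((p : ℤ) ^ (2 * e + 3)) ∣ ((u : MonoidAlgebra ℤ C) ^ (E * p) - 1).coeff c := by
        exact_mod_cast h6
      exact (pow_dvd_pow _ (by omega)).trans h7
  have hz : (u : MonoidAlgebra ℤ C) ^ (E * p) - 1 = 0 := by
    apply MonoidAlgebra.coeff_injective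
    ext c
    by_contra hc
    have hc' : ((u : MonoidAlgebra ℤ C) ^ (E * p) - 1).coeff c ≠ 0 := hc
    set y := ((u : MonoidAlgebra ℤ C) ^ (E * p) - 1).coeff c with hy
    have h8 := Int.natAbs_dvd_natAbs.2 (key y.natAbs c)
    rw [Int.natAbs_pow, Int.natAbs_natCast] at h8
    have h9 := Nat.le_of_dvd (Int.natAbs_pos.2 hc') h8
    have h10 : y.natAbs < p ^ y.natAbs := Nat.lt_pow_self hp
    have h11 : p ^ y.natAbs ≤ p ^ (y.natAbs + 2) := Nat.pow_le_pow_right (by omega) (by omega)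
    omega
  apply Units.ext
  rw [Units.val_pow_eq_pow_val, Units.val_one]
  exact sub_eq_zero.1 hz

lemma coeff_uG {C' : Type} [CommGroup C'] (ψ : C →* C') (hψ : Function.Injective ψ)
    (u : (MonoidAlgebra ℤ C)ˣ) (n : ℕ) :
    (∀ c : C, ((uG ψ u : MonoidAlgebra ℤ C') ^ n - 1).coeff (ψ c) =
      ((u : MonoidAlgebra ℤ C) ^ n - 1).coeff c) ∧
    ∀ c' : C', c' ∉ Set.range ψ → ((uG ψ u : MonoidAlgebra ℤ C') ^ n - 1).coeff c' = 0 := by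
  have h1 : ((uG ψ u : (MonoidAlgebra ℤ C')ˣ) : MonoidAlgebra ℤ C') ^ n - 1 =
      MonoidAlgebra.mapDomainRingHom ℤ ψ ((u : MonoidAlgebra ℤ C) ^ n - 1) := by
    rw [map_sub, map_pow, map_one]
    rfl
  have h2 : (MonoidAlgebra.mapDomainRingHom ℤ ψ ((u : MonoidAlgebra ℤ C) ^ n - 1)).coeff =
      Finsupp.mapDomain ψ ((u : MonoidAlgebra ℤ C) ^ n - 1).coeff := rfl
  constructor
  · intro c
    rw [h1, h2, Finsupp.mapDomain_apply hψ]
  · intro c' hc'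
    rw [h1, h2, Finsupp.mapDomain_of_notMem_range _ _ hc']

/-- functoriality for injective homomorphisms -/
lemma plog_uG (hB : S_PLB) (hA : S_PLA) {C' : Type} [CommGroup C'] [Finite C'] (ψ : C →* C')
    (hψ : Function.Injective ψ) (u : (MonoidAlgebra ℤ C)ˣ) :
    (∀ c : C, plog p (uG ψ u) (ψ c) = plog p u c) ∧
      ∀ c' : C', c' ∉ Set.range ψ → plog p (uG ψ u) c' = 0 := by
  obtain ⟨E, hE, h⟩ := exists_E hB p u
  have h' : Dv p 1 ((uG ψ u : MonoidAlgebra ℤ C') ^ E - 1) := by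
    intro c'
    obtain ⟨h1, h2⟩ := coeff_uG ψ hψ u E
    by_cases hc : c' ∈ Set.range ψ
    · obtain ⟨c, rfl⟩ := hc
      rw [h1]
      exact h c
    · rw [h2 c' hc]
      exact dvd_zero _
  constructor
  · intro c
    rw [← sub_eq_zero]
    refine eq_zero_of_small _ E hE fun b => ?_
    have e1 := est hB hA u hE h b c
    have e2 := est hB hA (uG ψ u) hE h' b (ψ c)
    rw [(coeff_uG ψ hψ u (E * p ^ b)).1 c] at e2
    refine le_trans (le_of_eq ?_) (norm_sub_le' e2 e1)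
    congr 1
    ring
  · intro c' hc'
    refine eq_zero_of_small _ E hE fun b => ?_
    have e2 := est hB hA (uG ψ u) hE h' b c'
    rw [(coeff_uG ψ hψ u (E * p ^ b)).2 c' hc', Int.cast_zero, sub_zero] at e2
    exact e2

end PLC

theorem t_PLC : S_PLB → S_PLA → S_PLC := by
  intro hB hA p _ C _ _
  exact ⟨PLC.plog_mul hB hA, PLC.plog_one hB hA, PLC.plog_inv hB hA, PLC.plog_pow hB hA,
    fun C' _ _ ψ hψ u => PLC.plog_uG hB hA ψ hψ u, PLC.torsion hB hA⟩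

end Pool.Agent.FJA
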