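import Pool.Agent.FJA.St7

/-!
# TPR: the double prism

The elementary lemmas on cones are those of the file for the module PRI.
-/

set_option autoImplicit false

namespace Pool.Agent.FJA

universe u v w x

namespace TPR

variable {k : Type w} [CommRing k] {V : Type u} {V' : Type x}

/-- putting `x` in front -/
noncomputable def K (k : Type w) [CommRing k] {V : Type u} (x : V) (m : ℕ) :
    ((Fin m → V) →₀ k) →ₗ[k] ((Fin (m + 1) → V) →₀ k) :=
  Finsupp.lmapDomain k k fun w => (Fin.cons x w : Fin (m + 1) → V)

lemma K_single (x : V) (m : ℕ) (w : Fin m → V) (c : k) :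
    K k x m (Finsupp.single w c) = Finsupp.single (Fin.cons x w : Fin (m + 1) → V) c :=
  Finsupp.mapDomain_single

lemma hmap_single (f : V → V') (m : ℕ) (v : Fin m → V) (c : k) :
    hmap k f m (Finsupp.single v c) = Finsupp.single (fun i => f (v i)) c :=
  Finsupp.mapDomain_single

lemma bd_single (m : ℕ) (X : Fin (m + 1) → V) (c : k) :
    bd k V m (Finsupp.single X c) =
      c • ∑ i : Fin (m + 1), Finsupp.single (fun j => X (i.succAbove j)) ((-1 : k) ^ (i : ℕ)) :=
  Finsupp.linearCombination_single _ _ _

lemma prism_single (f f' : V → V') (m : ℕ) (v : Fin m → V) (c : k) :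
    prism k f f' m (Finsupp.single v c) =
      c • ∑ i : Fin m, Finsupp.single (mix f f' v i) ((-1 : k) ^ (i : ℕ)) :=
  Finsupp.linearCombination_single _ _ _

/-- every chain is a sum of chains with a vertex put in front -/
lemma induct {m : ℕ} {P : ((Fin (m + 1) → V) →₀ k) → Prop} (h0 : P 0)
    (hadd : ∀ a b, P a → P b → P (a + b)) (hK : ∀ (x : V) (z : (Fin m → V) →₀ k), P (K k x m z))
    (c : (Fin (m + 1) → V) →₀ k) : P c := by
  induction c using Finsupp.induction_linear with
  | zero => exact h0
  | add a b ha hb => exact hadd a b ha hb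
  | single v c =>
    have h := hK (v 0) (Finsupp.single (fun i => v i.succ) c)
    rw [K_single] at h
    have e : (Fin.cons (v 0) (fun i => v i.succ) : Fin (m + 1) → V) = v := Fin.cons_self_tail v
    rwa [e] at h

lemma face_zero (m : ℕ) (x : V) (Y : Fin m → V) :
    (fun j : Fin m => (Fin.cons x Y : Fin (m + 1) → V) ((0 : Fin (m + 1)).succAbove j)) = Y := by
  funext j
  rw [Fin.succAbove_zero, Fin.cons_succ]

lemma face_succ (m : ℕ) (x : V) (Y : Fin (m + 1) → V) (i : Fin (m + 1)) :
    (fun j : Fin (m + 1) => (Fin.cons x Y : Fin (m + 2) → V) (i.succ.succAbove j)) =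
      (Fin.cons x (fun j : Fin m => Y (i.succAbove j)) : Fin (m + 1) → V) := by
  funext j
  refine Fin.cases ?_ (fun j => ?_) j
  · rw [Fin.succ_succAbove_zero, Fin.cons_zero, Fin.cons_zero]
  · rw [Fin.succ_succAbove_succ, Fin.cons_succ, Fin.cons_succ]

lemma bd_K_zero (x : V) (z : (Fin 0 → V) →₀ k) : bd k V 0 (K k x 0 z) = z := by
  induction z using Finsupp.induction_linear with
  | zero => simp only [map_zero]
  | add a b ha hb => rw [map_add, map_add, ha, hb]
  | single Y c =>
    rw [K_single, bd_single, Fin.sum_univ_succ, face_zero, Finset.univ_eq_empty,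
      Finset.sum_empty, add_zero, Finsupp.smul_single]
    simp

lemma bd_K (m : ℕ) (x : V) (z : (Fin (m + 1) → V) →₀ k) :
    bd k V (m + 1) (K k x (m + 1) z) = z - K k x m (bd k V m z) := by
  induction z using Finsupp.induction_linear with
  | zero => simp only [map_zero, sub_zero]
  | add a b ha hb =>
    rw [map_add, map_add, ha, hb, map_add, map_add]
    abel
  | single Y c =>
    rw [K_single, bd_single, bd_single, Fin.sum_univ_succ, face_zero, map_smul, map_sum, smul_add,
      sub_eq_add_neg, ← smul_neg, ← Finset.sum_neg_distrib]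
    congr 1
    · rw [Finsupp.smul_single]
      simp
    · congr 1
      refine Finset.sum_congr rfl fun i _ => ?_
      rw [face_succ, K_single, ← Finsupp.single_neg, Fin.val_succ, pow_succ, mul_neg_one]

lemma hmap_K (f : V → V') (m : ℕ) (x : V) (z : (Fin m → V) →₀ k) :
    hmap k f (m + 1) (K k x m z) = K k (f x) m (hmap k f m z) := by
  induction z using Finsupp.induction_linear with
  | zero => simp only [map_zero]
  | add a b ha hb => simp only [map_add, ha, hb]
  | single Y c =>
    rw [K_single, hmap_single, hmap_single, K_single]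
    congr 1
    funext j
    refine Fin.cases ?_ (fun j => ?_) j
    · rw [Fin.cons_zero, Fin.cons_zero]
    · rw [Fin.cons_succ, Fin.cons_succ]

lemma hmap_comp {V'' : Type v} (f : V → V') (g : V' → V'') (m : ℕ) (z : (Fin m → V) →₀ k) :
    hmap k g m (hmap k f m z) = hmap k (fun v => g (f v)) m z := by
  induction z using Finsupp.induction_linear with
  | zero => simp only [map_zero]
  | add a b ha hb => simp only [map_add, ha, hb]
  | single Y c => rw [hmap_single, hmap_single, hmap_single]

lemma prism_zero (f f' : V → V') (z : (Fin 0 → V) →₀ k) : prism k f f' 0 z = 0 := by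
  induction z using Finsupp.induction_linear with
  | zero => simp only [map_zero]
  | add a b ha hb => rw [map_add, ha, hb, add_zero]
  | single Y c =>
    rw [prism_single, Finset.univ_eq_empty, Finset.sum_empty, smul_zero]

lemma mix_zero (f f' : V → V') (m : ℕ) (x : V) (w : Fin m → V) :
    mix f f' (Fin.cons x w : Fin (m + 1) → V) 0 =
      (Fin.cons (f x) (fun j => f' ((Fin.cons x w : Fin (m + 1) → V) j)) :
        Fin (m + 2) → V') := by
  funext j
  refine Fin.cases ?_ (fun j => ?_) j
  · unfold mix
    rw [if_pos (Fin.zero_le _), Fin.cons_zero, Fin.predAbove_right_zero, Fin.cons_zero]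
  · unfold mix
    rw [if_neg, Fin.cons_succ]
    · congr 2
    · simp

lemma mix_succ (f f' : V → V') (m : ℕ) (x : V) (w : Fin m → V) (i : Fin m) :
    mix f f' (Fin.cons x w : Fin (m + 1) → V) i.succ =
      (Fin.cons (f x) (mix f f' w i) : Fin (m + 2) → V') := by
  funext j
  refine Fin.cases ?_ (fun j => ?_) j
  · unfold mix
    rw [if_pos (Fin.zero_le _), Fin.cons_zero, Fin.predAbove_right_zero, Fin.cons_zero]
  · unfold mix
    have h : j.succ ≤ i.succ.castSucc ↔ j ≤ i.castSucc := by
      rw [Fin.castSucc_succ, Fin.succ_le_succ_iff]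
    simp only [h, Fin.succ_predAbove_succ, Fin.cons_succ]

lemma prism_K (f f' : V → V') (m : ℕ) (x : V) (z : (Fin m → V) →₀ k) :
    prism k f f' (m + 1) (K k x m z) =
      K k (f x) (m + 1) (hmap k f' (m + 1) (K k x m z)) - K k (f x) (m + 1) (prism k f f' m z) := by
  induction z using Finsupp.induction_linear with
  | zero => simp only [map_zero, sub_zero]
  | add a b ha hb =>
    simp only [map_add, ha, hb]
    abel
  | single w c =>
    rw [K_single, prism_single, prism_single, Fin.sum_univ_succ, hmap_single, K_single, mix_zero,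
      map_smul, map_sum, smul_add, sub_eq_add_neg, ← smul_neg, ← Finset.sum_neg_distrib]
    congr 1
    · rw [Finsupp.smul_single]
      simp
    · congr 1
      refine Finset.sum_congr rfl fun i _ => ?_
      rw [mix_succ, K_single, ← Finsupp.single_neg, Fin.val_succ, pow_succ, mul_neg_one]

lemma bd_hmap (f : V → V') (m : ℕ) (c : (Fin (m + 1) → V) →₀ k) :
    bd k V' m (hmap k f (m + 1) c) = hmap k f m (bd k V m c) := by
  induction m with
  | zero =>
    induction c using induct with
    | h0 =>
      simp only [map_zero]
    | hadd a b ha hb =>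
      simp only [map_add, ha, hb]
    | hK x z =>
      rw [hmap_K, bd_K_zero, bd_K_zero]
  | succ m ih =>
    induction c using induct with
    | h0 =>
      simp only [map_zero]
    | hadd a b ha hb =>
      simp only [map_add, ha, hb]
    | hK x z =>
      rw [hmap_K, bd_K, bd_K, map_sub, hmap_K, ih]

lemma bd_bd (m : ℕ) (c : (Fin (m + 2) → V) →₀ k) : bd k V m (bd k V (m + 1) c) = 0 := by
  induction m with
  | zero =>
    induction c using induct with
    | h0 =>
      simp only [map_zero]
    | hadd a b ha hb =>
      rw [map_add, map_add, ha, hb, add_zero]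
    | hK x z =>
      rw [bd_K, map_sub, bd_K_zero, sub_self]
  | succ m ih =>
    induction c using induct with
    | h0 =>
      simp only [map_zero]
    | hadd a b ha hb =>
      rw [map_add, map_add, ha, hb, add_zero]
    | hK x z =>
      rw [bd_K, map_sub, bd_K, ih, map_zero, sub_zero, sub_self]

lemma prism_hmap (f f' : V → V') (g : V → V) (g' : V' → V') (h : ∀ v, f (g v) = g' (f v))
    (h' : ∀ v, f' (g v) = g' (f' v)) (m : ℕ) (c : (Fin m → V) →₀ k) :
    prism k f f' m (hmap k g m c) = hmap k g' (m + 1) (prism k f f' m c) := by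
  induction m with
  | zero => rw [prism_zero, prism_zero, map_zero]
  | succ m ih =>
    induction c using induct with
    | h0 =>
      simp only [map_zero]
    | hadd a b ha hb =>
      simp only [map_add, ha, hb]
    | hK x z =>
      rw [hmap_K, prism_K, prism_K, ih, map_sub]
      simp only [hmap_K, hmap_comp, h, h']

theorem main (f f' : V → V') (m : ℕ) (c : (Fin (m + 1) → V) →₀ k) :
    bd k V' (m + 1) (prism k f f' (m + 1) c) =
      hmap k f' (m + 1) c - hmap k f (m + 1) c - prism k f f' m (bd k V m c) := by
  induction m with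
  | zero =>
    induction c using induct with
    | h0 =>
      simp only [map_zero, sub_zero]
    | hadd a b ha hb =>
      simp only [map_add, ha, hb]
      abel
    | hK x z =>
      rw [prism_K, prism_zero, map_zero, sub_zero, prism_zero, sub_zero, bd_K, bd_hmap, bd_K_zero,
        hmap_K f]
      congr 2
      induction z using Finsupp.induction_linear with
      | zero => simp only [map_zero]
      | add a b ha hb => simp only [map_add, ha, hb]
      | single w c =>
        rw [hmap_single, hmap_single]
        congr 1
        exact Subsingleton.elim _ _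
  | succ m ih =>
    induction c using induct with
    | h0 =>
      simp only [map_zero, sub_zero]
    | hadd a b ha hb =>
      simp only [map_add, ha, hb]
      abel
    | hK x z =>
      rw [prism_K, map_sub, bd_K, bd_K, bd_K, map_sub, prism_K, ih, bd_hmap, bd_K, hmap_K f]
      simp only [map_sub]
      abel

/-- the double prism -/
noncomputable def T (k : Type w) [CommRing k] {V : Type u} {V' : Type x} (f f' f'' : V → V') :
    ∀ m : ℕ, ((Fin m → V) →₀ k) →ₗ[k] ((Fin (m + 2) → V') →₀ k)
  | 0 => 0
  | m + 1 => Finsupp.linearCombination k fun X : Fin (m + 1) → V =>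
      K k (f (X 0)) (m + 2) (prism k f' f'' (m + 1) (Finsupp.single X 1) +
        T k f f' f'' m (Finsupp.single (fun i => X i.succ) 1))

lemma T_zero (f f' f'' : V → V') (z : (Fin 0 → V) →₀ k) : T k f f' f'' 0 z = 0 := rfl

lemma T_K (f f' f'' : V → V') (m : ℕ) (x : V) (z : (Fin m → V) →₀ k) :
    T k f f' f'' (m + 1) (K k x m z) =
      K k (f x) (m + 2) (prism k f' f'' (m + 1) (K k x m z) + T k f f' f'' m z) := by
  induction z using Finsupp.induction_linear with
  | zero => simp only [map_zero, add_zero]
  | add a b ha hb =>
    simp only [map_add, ha, hb]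
    abel
  | single w c =>
    have e1 : ∀ (n : ℕ) (Y : Fin n → V), (Finsupp.single Y c : (Fin n → V) →₀ k) =
        c • Finsupp.single Y 1 := by
      intro n Y
      rw [Finsupp.smul_single, smul_eq_mul, mul_one]
    rw [K_single]
    have e2 : T k f f' f'' (m + 1) (Finsupp.single (Fin.cons x w : Fin (m + 1) → V) c) =
        c • K k (f x) (m + 2) (prism k f' f'' (m + 1)
          (Finsupp.single (Fin.cons x w : Fin (m + 1) → V) 1) +
            T k f f' f'' m (Finsupp.single w 1)) := by
      change Finsupp.linearCombination k _ _ = _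
      rw [Finsupp.linearCombination_single, Fin.cons_zero]
      simp only [Fin.cons_succ]
    rw [e2, e1 _ (Fin.cons x w : Fin (m + 1) → V), e1 _ w, map_smul, map_smul, ← smul_add,
      map_smul]

theorem bd_T (f f' f'' : V → V') (m : ℕ) (c : (Fin (m + 1) → V) →₀ k) :
    bd k V' (m + 2) (T k f f' f'' (m + 1) c) =
      prism k f f' (m + 1) c + prism k f' f'' (m + 1) c - prism k f f'' (m + 1) c +
        T k f f' f'' m (bd k V m c) := by
  induction m with
  | zero =>
    induction c using induct with
    | h0 =>
      simp only [map_zero, sub_zero, add_zero]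
    | hadd a b ha hb =>
      simp only [map_add, ha, hb]
      abel
    | hK x z =>
      rw [T_K, T_zero, T_zero, add_zero, add_zero, bd_K, main, prism_zero, sub_zero,
        prism_K f f', prism_K f f'', prism_zero, prism_zero, map_zero, sub_zero, sub_zero,
        map_sub]
      abel
  | succ m ih =>
    induction c using induct with
    | h0 =>
      simp only [map_zero, sub_zero, add_zero]
    | hadd a b ha hb =>
      simp only [map_add, ha, hb]
      abel
    | hK x z =>
      rw [T_K, bd_K (m + 2), map_add (bd k V' (m + 2)), main, ih, bd_K, map_sub (T k f f' f'' (m + 1)),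
        T_K f f' f'' m, prism_K f f' (m + 1), prism_K f f'' (m + 1)]
      simp only [map_sub, map_add]
      abel

theorem T_hmap (f f' f'' : V → V') (g : V → V) (g' : V' → V') (h : ∀ v, f (g v) = g' (f v))
    (h' : ∀ v, f' (g v) = g' (f' v)) (h'' : ∀ v, f'' (g v) = g' (f'' v)) (m : ℕ)
    (c : (Fin m → V) →₀ k) :
    T k f f' f'' m (hmap k g m c) = hmap k g' (m + 2) (T k f f' f'' m c) := by
  induction m with
  | zero => rw [T_zero, T_zero, map_zero]
  | succ m ih =>
    induction c using induct with
    | h0 =>
      simp only [map_zero]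
    | hadd a b ha hb =>
      simp only [map_add, ha, hb]
    | hK x z =>
      rw [hmap_K, T_K, T_K, ih, ← hmap_K, prism_hmap f' f'' g g' h' h'', ← map_add, hmap_K, h]

end TPR

theorem t_TPR : S_TPR := by
  intro V V' f f' f''
  exact ⟨TPR.T ℚ f f' f'', TPR.bd_T f f' f'', TPR.T_hmap f f' f'', TPR.T_zero f f' f''⟩

end Pool.Agent.FJA
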