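import Pool.Agent.FJA.Final
import Pool.Agent.FJA.FinC
import Pool.Agent.FJA.CoreAll2
import Pool.Agent.FJA.P_TPR
import Pool.Agent.FJA.P_CRS
import Pool.Agent.FJA.P_CRA
import Pool.Agent.FJA.P_AS1
import Pool.Agent.FJA.P_BRF
import Pool.Agent.FJA.P_PLA
import Pool.Agent.FJA.P_PLB
import Pool.Agent.FJA.P_PLC
import Pool.Agent.FJA.P_NRM
import Pool.Agent.FJA.P_KER
import Pool.Agent.FJA.P_EXT
import Pool.Agent.FJA.P_TTH
import Pool.Agent.FJA.P_UCZ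
import Pool.Agent.FJA.P_FAV
import Pool.Agent.FJA.P_TPA
import Pool.Agent.FJA.P_TPB
import Pool.Agent.FJA.P_TPD
import Pool.Agent.FJA.P_TPC
import Pool.Agent.FJA.P_REP
import Pool.Agent.FJA.P_STP
import Pool.Agent.FJA.P_IND

/-!
# The final theorem of phase 2
-/

set_option autoImplicit false

namespace Pool.Agent.FJA

/-- The final theorem of phase 2. -/
theorem s_all2 (hCON : S_CON) : S_ALL2 := by
  have hT0M : S_T0M := t_T0M t_BRG t_KCB
  have hMEX := t_MEX.{0}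
  have hEVS := t_EVS.{0} hMEX
  have hSCH := t_SCH.{0, 0, 0} t_TXlin t_TXfac t_TXlen hMEX t_PRI
  have hPAD := t_PAD.{0, 0} t_GAU t_GAUint t_SEC hSCH hEVS t_TXfst
  have hLAU := t_LAU
  have hKIL := t_KIL hLAU
  have hFVX := t_FVX hLAU
  have hEVA := t_EVA t_TXC
  have hDIF := t_DIF t_GRP t_HTP hFVX t_CUP t_AVC hEVA
  have hPDK := t_PDK hPAD
  have hREA := t_REA t_KCB hKIL t_HTP hFVX
  have hNIB := t_NIB t_LAUint
  have hMPB := t_MPB hLAU
  have hRLP := t_RLP hPDK hREA hNIB t_CUP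
  have hRLD := t_RLD hDIF t_KCB
  have hRLG := t_RLG hPDK hREA hNIB hMPB t_INT t_CUP
  have hREL := t_REL3 hRLP hRLD hRLG hMPB
  obtain ⟨ε, v, K, hND⟩ := t_NDC (t_NDA hLAU) t_NDB
  have hFCA := t_FCA t_FAM t_FCW
  have hFCH := t_FCH hFCA t_FCW
  have hFINC := t_FIN hREL (t_FNB t_FNA) (t_FNC t_FNA)
  have hADP := t_ADP t_BRG t_RST hFCH hFINC
  -- phase 2
  have hCRS := t_CRS t_PRI t_BD
  have hCRA := t_CRA t_TPR hCRS t_BD
  have hAS1 := t_AS1 hCRS hCRA t_PRI t_BD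
  have hBRF := t_BRF hCRS
  have hPLB := t_PLB t_PLA
  have hPLC := t_PLC hPLB t_PLA
  have hNRM := t_NRM hPLB hPLC t_PLA
  have hKER := t_KER hPLC hNRM
  have hTTH := t_TTH hKER hPLC t_EXT
  have hUCZ := t_UCZ t_UCT
  have hFAV := t_FAV hFCA hUCZ
  have hTPB := t_TPB hFAV
  have hTPD := t_TPD hTPB hPLC
  have hTPC := t_TPC hTTH t_TPA hTPD
  have hSTP := t_STP t_REP hTPC
  have hIND := t_IND hSTP
  exact t_ALL2 t_PRI t_BD t_UCT (t_FLC t_BD) ε (hADP ε v K hND) (hT0M ε v K hND) hCON hBRF hPLB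
    hIND hUCZ hAS1 v K hND

end Pool.Agent.FJA
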