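import Pool.Agent.FJA.FinF
import Pool.Agent.FJA.Final2
import Pool.Agent.FJA.CoreAll4

/-!
# The final theorem of phases 3 and 4
-/

set_option autoImplicit false

namespace Pool.Agent.FJA

/-- The final theorem of phases 3 and 4. -/
theorem s_all7 : S_ALL7 := by
  have hT0M : S_T0M := t_T0M t_BRG t_KCB
  have hLAU := t_LAU
  obtain ⟨ε, v, K, hND⟩ := t_NDC (t_NDA hLAU) t_NDB
  have hFCA := t_FCA t_FAM t_FCW
  have hCRS := t_CRS t_PRI t_BD
  have hCRA := t_CRA t_TPR hCRS t_BD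
  have hAS1 := t_AS1 hCRS hCRA t_PRI t_BD
  have hBRF := t_BRF hCRS
  have hPLB := t_PLB t_PLA
  have hPLC := t_PLC hPLB t_PLA
  have hNRM := t_NRM hPLB hPLC t_PLA
  have hKER := t_KER hPLC hNRM
  have hTTH := t_TTH hKER hPLC t_EXT
  have hUCZ := t_UCZ t_UCT
  have hFAV := t_FAV hFCA hUCZ
  have hTPB := t_TPB hFAV
  have hTPD := t_TPD hTPB hPLC
  have hCKX := t_CKX t_PRI t_BD h_EWN t_EPN h_LIN t_MRN t_PNT h_AVS t_RSN
  exact t_ALL7 (t_ALL6 _ t_PRI t_BD (t_FLC t_BD) ε (fnp_of_adb h_ADB ε v K hND) (hT0M ε v K hND)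
    hCKX hBRF hPLB t_REP hTTH t_TPA hTPD hAS1 v K hND
    (fun G _ n hn => hn.elim (fun h => h_PDQ G h n) (fun h => h_PDG n h G))
    (fun G _ m hm p hp => hm.elim (fun h => lmh_tor h_LMQ G p m (h p hp.out))
      (fun h => lmh_low h_LMN G p m (by omega))))

end Pool.Agent.FJA
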