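import Pool.Agent.FJA.StU

/-!
# Linear groups over fields of characteristic zero: statements of the modules

Families of integral cocycles on linear groups over fields of characteristic zero are admissible (TrDef2.lean).
-/

set_option autoImplicit false

open Matrix

noncomputable section

namespace Pool.Agent.FJA

/-- SPC: specialisation to `GL_N'(ℚ)`.

Proof.  Let `S` be a finite set of generators of `Γ`, closed under inverses, and `B` the `ℚ`-subalgebra of `K` generated
by the entries of `ρ(s)`, `s ∈ S`: a domain, finitely generated over `ℚ`, and `ρ` has values in `GL_N(B)`.  Let `c ≠ 0` be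
an entry of `ρ(h) - 1`.  `Localization.Away c` of `B` is a nonzero finitely generated `ℚ`-algebra; let `L` be its quotient
by a maximal ideal, a finite extension of `ℚ` (Zariski's lemma: `finite_of_finite_type_of_isJacobsonRing` or similar).
The map `θ : B → L` has `θ c ≠ 0`, and `𝔫 = ker θ` satisfies `⋂ 𝔫 ^ k = 0` (Krull: `B` is a noetherian domain, `𝔫 ≠ ⊤`;
`Ideal.iInf_pow_eq_bot_of_isDomain`).  Let `ψ` be the composition of `ρ : Γ → GL_N(B)`, `GL_N(θ)` and
`GL_N(L) → GL_(N d)(ℚ)` (`d = [L : ℚ]`; an injective ring homomorphism `L → M_d(ℚ)`, `Algebra.leftMulMatrix`, and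
`M_N(M_d(ℚ)) = M_(N d)(ℚ)`, `Matrix.compRingEquiv` or similar; then reindex to `Fin`).  (a) `ψ h ≠ 1` as `θ c ≠ 0`.
(b) Let `x ^ m = 1`, `m ≥ 1`, `ψ x = 1`.  `ρ x = 1 + A`, the entries of `A` are in `𝔫`.  If they are in `𝔫 ^ k`, `k ≥ 1`,
then `0 = (1 + A) ^ m - 1 = m A + A² (...)` shows that the entries of `m A` are in `𝔫 ^ (k + 1)`, and `m` is invertible
in `B`; so `A = 0`.  (c) `ψ x - 1` is the image of `ρ x - 1` under ring homomorphisms. -/
def S_SPC : Prop := ∀ (Γ : Type) [Group Γ] [Group.FG Γ] (K : Type) [Field K] [CharZero K] (N : ℕ)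
    (ρ : Γ →* GL (Fin N) K), Function.Injective ρ → ∀ h : Γ, h ≠ 1 →
    ∃ (N' : ℕ) (ψ : Γ →* GL (Fin N') ℚ), ψ h ≠ 1 ∧ (∀ x : Γ, IsOfFinOrder x → ψ x = 1 → x = 1) ∧
      ∀ x : Γ, ((ρ x).val - 1) ^ N = 0 → ((ψ x).val - 1) ^ N = 0

/-- LTK (uses LTB, SPC): torsion in finitely generated linear groups.

Proof.  If `Γ` is trivial both are clear.  Otherwise let `ψ` be as in SPC for some `h ≠ 1`.  An element `x` of finite
order has the same order as `ψ x` (`ψ (x ^ k) = 1` implies `x ^ k = 1`).  LTB for the group `ψ.range` and its inclusion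
in `GL_N'(ℚ)`. -/
def S_LTK : Prop := ∀ (Γ : Type) [Group Γ] [Group.FG Γ] (K : Type) [Field K] [CharZero K] (N : ℕ)
    (ρ : Γ →* GL (Fin N) K), Function.Injective ρ →
    (∀ p : ℕ, p.Prime → PBdd Γ p) ∧ {p : ℕ | p.Prime ∧ ∃ x : Γ, x ^ p = 1 ∧ x ≠ 1}.Finite

/-- LCK: centralizers in `GL_N(K)`.

Proof.  Let `T` be the linear endomorphism `A ↦ y A y⁻¹` of the space of `N × N` matrices over `K`, `μ` its minimal
polynomial.  Let `p` be in the set, with `g`, and the matrix `A = (T - 1) (ρ g) ≠ 0`; then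
`(1 + T + ... + T ^ (p - 1)) A = (T ^ p - 1) (ρ g) = 0`.  If the polynomial `1 + X + ... + X ^ (p - 1)` were prime to `μ` then
`A = 0`.  So they have a common root `ζ_p` in the algebraic closure of `K`; `ζ_p ^ p = 1` and `ζ_p ≠ 1` (characteristic
zero).  For primes `p ≠ q` `ζ_p ≠ ζ_q`, and `μ` has only finitely many roots. -/
def S_LCK : Prop := ∀ (Γ : Type) [Group Γ] (K : Type) [Field K] [CharZero K] (N : ℕ)
    (ρ : Γ →* GL (Fin N) K), Function.Injective ρ → ∀ y : Γ,
    {p : ℕ | p.Prime ∧ ∃ g : Γ, g * y ^ p = y ^ p * g ∧ g * y ≠ y * g}.Finite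

/-- LJK (uses SPC, LCJ): conjugate powers in finitely generated linear groups.

Proof.  Suppose that the set is infinite.  (1) Over the algebraic closure of `K`: if `λ` is an eigenvalue of `ρ y`, then
`λ ^ p` is an eigenvalue of `ρ z` for the `p` in the set, so `λ ^ p = λ ^ q` for some `p ≠ q`, and `λ` is a root of unity.
So there is `M > 0` such that all the eigenvalues of `ρ(y) ^ M` are `1` (spectral mapping) and `(ρ(y) ^ M - 1) ^ N = 0`.
(2) `y ^ M ≠ 1`; let `ψ` be as in SPC for `h = y ^ M`: `U = ψ (y ^ M) ≠ 1`, `(U - 1) ^ N = 0`.  In characteristic zero no power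
`U ^ k`, `k ≥ 1`, is `1`, so `ψ y` has infinite order.  (3) LCJ for the finitely generated group `ψ.range` and its
inclusion, `ψ y`, `ψ z`: `ψ z` is conjugate to `(ψ y) ^ p` in `ψ.range` for only finitely many `p`, a contradiction. -/
def S_LJK : Prop := ∀ (Γ : Type) [Group Γ] [Group.FG Γ] (K : Type) [Field K] [CharZero K] (N : ℕ)
    (ρ : Γ →* GL (Fin N) K), Function.Injective ρ → ∀ y : Γ, ¬ IsOfFinOrder y → ∀ z : Γ,
    {p : ℕ | p.Prime ∧ IsConj z (y ^ p)}.Finite

/-- LNK (uses LTK, LCK, LJK): families of integral cocycles on linear groups are admissible.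

Proof.  Let `H`, `y ≠ 1` be given, `Γ = H` (finitely generated), with the restriction of `ρ`; `f' = f`, `E = 0`; the
denominators are `1`.  `CInv`: if `g` commutes with `y` then `F (g a; y) = F (g a; g y g⁻¹) = F (a; y)`.  If `y` has finite
order: LTK for a prime divisor of `orderOf y`.  If `y` has infinite order: the third case of `AdmC` holds for all but
finitely many primes `p`: the second condition by LCK for `y`; `z`, `y ^ p` are not conjugate for almost all `p` by LJK
(`V` is finite); and if `p` is not in the finite sets of LTK, LCK and `y ^ p = g z^p g⁻¹ = z' ^ p`, `z' = g z g⁻¹`, then `z'`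
commutes with `y ^ p`, hence with `y`, so `(z' y⁻¹) ^ p = 1` and `z' = y`. -/
def S_LNK : Prop := ∀ (G : Type) [Group G] (K : Type) [Field K] [CharZero K] (n N : ℕ)
    (ρ : G →* GL (Fin N) K), Function.Injective ρ →
    ∀ F : (Fin (n + 1) → G) → G → ℤ, CocFam n F → AdmG n (fun a y => (F a y : ℚ))

end Pool.Agent.FJA
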