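import Pool.Agent.FJA.HcDefs
import Pool.Agent.FJA.StV

/-!
# The higher components of the Chern character: definitions for the proof

`TG` generalises `TX` (Rec.lean): the invertible matrices `X i` are replaced by pairs of matrices `A, B` with
`A * B = ε`, `ε * A = A`, `B * ε = B`.  For `ε = 1` and `B = A⁻¹` this is `TX`, for `A = B = ε` it gives the pairing
with the idempotent matrix `ε`.
-/

set_option autoImplicit false

open Matrix Pool.Agent.WhK Pool.Agent.Lib25

noncomputable section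

namespace Pool.Agent.FJA

section

variable {k : Type} [Field k] {Γ : Type} [Group Γ] {ι : Type} [Fintype ι] [DecidableEq ι]

/-- Pairs of matrices `a, b` with `a * b = ε`, `ε * a = a`, `b * ε = b`. -/
@[ext] structure RPair (ε : Matrix ι ι (MonoidAlgebra k Γ)) where
  /-- the first matrix -/
  a : Matrix ι ι (MonoidAlgebra k Γ)
  /-- the second matrix -/
  b : Matrix ι ι (MonoidAlgebra k Γ)
  ab : a * b = ε
  ea : ε * a = a
  be : b * ε = b

/-- The pair of an invertible matrix and its inverse. -/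
def pU (A : (Matrix ι ι (MonoidAlgebra k Γ))ˣ) : RPair (1 : Matrix ι ι (MonoidAlgebra k Γ)) where
  a := A.val
  b := (A⁻¹).val
  ab := A.mul_inv
  ea := one_mul _
  be := mul_one _

/-- The pair `(e, e)` of an idempotent matrix. -/
def pE (e : Matrix ι ι (MonoidAlgebra k Γ)) (he : e * e = e) : RPair e where
  a := e
  b := e
  ab := he
  ea := he
  be := he

/-- The matrix `∏ i, a_i * om i * b_i` over `k[Rec Γ (Fin M)]`. -/
def UG {ε : Matrix ι ι (MonoidAlgebra k Γ)} {M : ℕ} (X : Fin M → RPair ε) :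
    Matrix ι ι (MonoidAlgebra k (Rec Γ (Fin M))) :=
  (List.ofFn fun i => jm k (Fin M) (X i).a * wm k ι i * jm k (Fin M) (X i).b).prod

/-- The `N`-fold trace of a simplex of pairs with respect to the function `φ` on recorded paths. -/
def TG {ε : Matrix ι ι (MonoidAlgebra k Γ)} {M : ℕ} (φ : Rec Γ (Fin M) → ℚ) (N : ℕ)
    (X : Fin M → RPair ε) : k :=
  lin k φ (Matrix.trace (UG X ^ N))

end

section

variable {Γ : Type} [Group Γ]

/-- The function on recorded paths of a function on tuples of lists. -/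
def lf {L : ℕ} (ξ : (Fin L → List Γ) → Γ → ℚ) (μ : Rec Γ (Fin L)) : ℚ := ξ μ.lst μ.val

/-- Every rotation of `Y` which is given by an element of the group is given by a power of `y`. -/
def GoodQ (Y : List Γ) (y : Γ) : Prop := ∀ (δ : Γ) (e : ℕ), Stb Y y δ e → δ ∈ Subgroup.zpowers y

/-- The cyclic rotation of the labels. -/
def rotR {M : ℕ} (μ : Rec Γ (Fin (M + 1))) : Rec Γ (Fin (M + 1)) :=
  ⟨fun j => Function.update μ.lst 0 (rotL μ.val (μ.lst 0)) (j + 1), μ.val⟩

/-- The function which evaluates `F` at the `t j`-th position of the list `j`. -/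
def evT {L N : ℕ} (F : (Fin L → Γ) → Γ → ℚ) (t : Fin L → Fin N) (μ : Rec Γ (Fin L)) : ℚ :=
  F (fun j => (μ.lst j).getD (t j) 1) μ.val

/-- Invariant alternating functions of lists of length `N` which are invariant under the rotations of the lists,
on the records generated by `T`. -/
structure XiT {L : ℕ} (N : ℕ) (T : Finset (Rec Γ (Fin L))) (ξ : (Fin L → List Γ) → Γ → ℚ) : Prop where
  inv : ∀ (γ : Γ) (Y : Fin L → List Γ) (y : Γ), (∀ i, (Y i).length = N) →
    ξ (fun i => (Y i).map (γ * ·)) (γ * y * γ⁻¹) = ξ Y y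
  alt : ∀ (σ : Equiv.Perm (Fin L)) (Y : Fin L → List Γ) (y : Γ),
    ξ (fun i => Y (σ i)) y = ((Equiv.Perm.sign σ : ℤ) : ℚ) * ξ Y y
  rot : ∀ μ ∈ Submonoid.closure (T : Set (Rec Γ (Fin L))), (∀ i, (μ.lst i).length = N) →
    ∀ i, ξ (Function.update μ.lst i (rotL μ.val (μ.lst i))) μ.val = ξ μ.lst μ.val

/-- Sections with values modulo the powers of `y`. -/
structure SecQ (s : List Γ → Γ → Γ) : Prop where
  inv : ∀ (γ : Γ) (Y : List Γ) (y : Γ), Y ≠ [] →
    ∃ t : ℤ, s (Y.map (γ * ·)) (γ * y * γ⁻¹) = γ * (y ^ t * s Y y)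
  rot : ∀ (Y : List Γ) (y : Γ), GoodQ Y y → ∃ t : ℤ, s (rotL y Y) y = y ^ t * s Y y

/-- Families of cocycles supported on the conjugacy class of `y0`. -/
structure FamY {L : ℕ} (F : (Fin L → Γ) → Γ → ℚ) (y0 : Γ) : Prop where
  inv : ∀ (g : Γ) (a : Fin L → Γ) (y : Γ), F (fun i => g * a i) (g * y * g⁻¹) = F a y
  coc : ∀ (a : Fin (L + 1) → Γ) (y : Γ),
    ∑ i : Fin (L + 1), (-1 : ℚ) ^ (i : ℕ) * F (fun j => a (i.succAbove j)) y = 0
  altb : ∀ y : Γ, AltB y (fun a => F a y)
  supp : ∀ (a : Fin L → Γ) (y : Γ), F a y ≠ 0 → IsConj y y0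
  prm : ∀ V : Finset Γ, {p : ℕ | p.Prime ∧ (∀ a y, ¬ p ∣ (F a y).den) ∧
    ∀ z ∈ V, IsConj (z ^ p) y0 → z ∈ Subgroup.zpowers (z ^ p)}.Infinite

end

/-- The functionals of the functions `ξ` as in `XiT` vanish on the boundary of the chain `w` of pairs. -/
def BdT {k : Type} [Field k] {Γ : Type} [Group Γ] {ι : Type} [Fintype ι] [DecidableEq ι]
    {ε : Matrix ι ι (MonoidAlgebra k Γ)} {M : ℕ} (w : (Fin (M + 2) → RPair ε) →₀ ℚ) : Prop :=
  ∃ T : Finset (Rec Γ (Fin (M + 1))), (∀ t ∈ T, ∀ i, (t.lst i).length = 1) ∧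
    ∀ N : ℕ, 0 < N → ∀ ξ : (Fin (M + 1) → List Γ) → Γ → ℚ, XiT N T ξ →
      (w.sum fun X q => (q : k) * ∑ i : Fin (M + 2), (-1 : k) ^ (i : ℕ) *
        TG (lf ξ) N (fun t => X (i.succAbove t))) = 0

/-- Chains of degree `M` spanned by the simplices with two equal cyclically consecutive vertices and by the
differences between `(-1) ^ M` times a simplex and its cyclic rotation. -/
def cdg (V : Type) (M : ℕ) : Submodule ℚ ((Fin (M + 1) → V) →₀ ℚ) :=
  Submodule.span ℚ
    ({x | ∃ (X : Fin (M + 1) → V) (j : Fin (M + 1)), X j = X (j + 1) ∧ x = Finsupp.single X 1} ∪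
     {x | ∃ X : Fin (M + 1) → V, x = Finsupp.single (fun j => X (j + 1)) 1 -
        Finsupp.single X ((-1 : ℚ) ^ M)})

/-- From lists to tuples: the lists of length `L` go to the corresponding tuples, the others to `0`. -/
def tpL (V : Type) (L : ℕ) : (List V →₀ ℚ) →ₗ[ℚ] ((Fin L → V) →₀ ℚ) :=
  Finsupp.linearCombination ℚ fun Y =>
    if h : Y.length = L then Finsupp.single (fun j : Fin L => Y.get (j.cast h.symm)) 1 else 0

end Pool.Agent.FJA
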