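import Pool.Agent.FJA.TrDef2

/-!
# The higher components of the Chern character: definitions

* `cval F h` is the value on `tr (h 0 ⊗ ⋯ ⊗ h m)` of the cyclic cochain of a family `F` of homogeneous cochains.
* `NatLift T`: `T V 0 = id, T V 1, T V 2, …` is a natural lift of the chains of the sets `V` to the negative
  cyclic complex `(C_*(V)[[u]], ∂ + u B)`, modulo degenerate chains.  (For `V = GL_r(A)` it induces the map
  `H_n(GL_r(A)) → HN_n(A)` which defines the Chern character of `K_n(A)`; such lifts are unique up to natural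
  homotopy.)  Chains are formal rational combinations of lists of elements of `V`.
* `AdmT n F`: the conditions on the family `F`.
-/

set_option autoImplicit false

noncomputable section

namespace Pool.Agent.FJA

/-! ## Cyclic cochains of group algebras -/

/-- The coefficient of `γ 0 ⊗ ⋯ ⊗ γ n` in the trace of `h 0 ⊗ ⋯ ⊗ h n`. -/
def hcoef {k : Type} [CommRing k] {G : Type} [Group G] {ι : Type} [Fintype ι] {n : ℕ}
    (h : Fin (n + 1) → Matrix ι ι (MonoidAlgebra k G)) (γ : Fin (n + 1) → G) : k :=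
  ∑ a : Fin (n + 1) → ι, ∏ j : Fin (n + 1), (h j (a j) (a (j + 1))).coeff (γ j)

/-- The value on `tr (h 0 ⊗ ⋯ ⊗ h n)` of the cochain with the value `F (1, γ 0, …, γ 0 ⋯ γ (n - 1); γ 0 ⋯ γ n)`
on `γ 0 ⊗ ⋯ ⊗ γ n`. -/
def cval {k : Type} [Field k] {G : Type} [Group G] {ι : Type} [Fintype ι] {n : ℕ}
    (F : (Fin (n + 1) → G) → G → ℚ) (h : Fin (n + 1) → Matrix ι ι (MonoidAlgebra k G)) : k :=
  ∑ᶠ γ : Fin (n + 1) → G, hcoef h γ * ((F (fpr γ) (List.ofFn γ).prod : ℚ) : k)

/-! ## Natural lifts to the negative cyclic complex -/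

/-- The boundary: the alternating sum of the lists obtained by deleting one entry. -/
def bdL (V : Type) : (List V →₀ ℚ) →ₗ[ℚ] (List V →₀ ℚ) :=
  Finsupp.linearCombination ℚ fun X =>
    ∑ j ∈ Finset.range X.length, Finsupp.single (X.eraseIdx j) ((-1 : ℚ) ^ j)

/-- The operator `B` of Connes in homogeneous coordinates: it maps the list `(x_0, …, x_q)` to
`∑ j, (-1) ^ (q (j + 1)) (x_j, …, x_q, x_0, …, x_j)`. -/
def conB (V : Type) : (List V →₀ ℚ) →ₗ[ℚ] (List V →₀ ℚ) :=
  Finsupp.linearCombination ℚ fun X =>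
    ∑ j ∈ Finset.range X.length,
      Finsupp.single (X.rotate j ++ (X.rotate j).take 1) ((-1 : ℚ) ^ ((X.length + 1) * (j + 1)))

/-- The degenerate chains, spanned by the lists with two equal consecutive entries. -/
def degL (V : Type) : Submodule ℚ (List V →₀ ℚ) :=
  Submodule.span ℚ {x | ∃ (A B : List V) (v : V), x = Finsupp.single (A ++ v :: v :: B) 1}

/-- The linear extension of `T V i`. -/
def lT (T : ∀ V : Type, ℕ → List V → (List V →₀ ℚ)) (V : Type) (i : ℕ) :
    (List V →₀ ℚ) →ₗ[ℚ] (List V →₀ ℚ) :=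
  Finsupp.linearCombination ℚ (T V i)

/-- Natural lifts: `T V 0 = id`, `T V i` raises the degree by `2 i`, is natural in the set `V`, and
`∂ T_(i+1) - T_(i+1) ∂ = - B T_i` modulo degenerate chains. -/
structure NatLift (T : ∀ V : Type, ℕ → List V → (List V →₀ ℚ)) : Prop where
  zero : ∀ (V : Type) (X : List V), T V 0 X = Finsupp.single X 1
  nat : ∀ (V W : Type) (f : V → W) (i : ℕ) (X : List V),
    T W i (X.map f) = (T V i X).mapDomain (List.map f)
  deg : ∀ (V : Type) (i : ℕ) (X : List V), ∀ Y ∈ (T V i X).support, Y.length = X.length + 2 * i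
  bd : ∀ (V : Type) (i : ℕ) (X : List V), X ≠ [] →
    bdL V (T V (i + 1) X) - lT T V (i + 1) (bdL V (Finsupp.single X 1)) + conB V (T V i X) ∈ degL V

/-- The matrices `(Y j)⁻¹ * Y (j + 1)`, indices modulo `m + 1`, for a list `Y` of length `m + 1`. -/
def hseq {k : Type} [CommRing k] {G : Type} [Group G] {r : ℕ} (m : ℕ)
    (Y : List (Matrix (Fin r) (Fin r) (MonoidAlgebra k G))ˣ) (j : Fin (m + 1)) :
    Matrix (Fin r) (Fin r) (MonoidAlgebra k G) :=
  ((Y.getD j 1)⁻¹ * Y.getD (j + 1 : Fin (m + 1)) 1 : (Matrix (Fin r) (Fin r) (MonoidAlgebra k G))ˣ).val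

/-! ## Admissible families -/

/-- Alternating functions which do not change if one variable is multiplied by a power of `y`. -/
structure AltB {G : Type} [Group G] {n : ℕ} (y : G) (f : (Fin n → G) → ℚ) : Prop where
  alt : ∀ (σ : Equiv.Perm (Fin n)) (a : Fin n → G),
    f (fun j => a (σ j)) = ((Equiv.Perm.sign σ : ℤ) : ℚ) * f a
  bas : ∀ (t : Fin n → ℤ) (a : Fin n → G), f (fun j => y ^ t j * a j) = f a

/-- The cochain `f` is the sum of a cocycle `f'` and the coboundary of a cochain `E`, both alternating, invariant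
under the centralizer of `y` and under powers of `y` in each variable; and, if `f' ≠ 0`, for every finite set
`V` there are infinitely many primes `p` which do not occur in the denominators of `f'` such that every
`z ∈ V` for which `z ^ p` is conjugate to `y` is a power of `z ^ p`. -/
def AdmY {G : Type} [Group G] (n : ℕ) (y : G) (f : (Fin (n + 1) → G) → ℚ) : Prop :=
  ∃ (f' : (Fin (n + 1) → G) → ℚ) (E : (Fin n → G) → ℚ), CInv y f' ∧ CInv y E ∧ AltB y f' ∧ AltB y E ∧
    (∀ a : Fin (n + 2) → G, cobE f' a = 0) ∧ (∀ a, f a = f' a + cobE E a) ∧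
    (f' = 0 ∨ ∀ V : Finset G, {p : ℕ | p.Prime ∧ (∀ a, ¬ p ∣ (f' a).den) ∧
      ∀ z ∈ V, IsConj (z ^ p) y → z ∈ Subgroup.zpowers (z ^ p)}.Infinite)

/-- Admissible families `F`: `F` is invariant, and for every finitely generated subgroup `H` of `G` and `y ∈ H`
the restriction of `F (·; y)` to `H` is admissible. -/
structure AdmT {G : Type} [Group G] (n : ℕ) (F : (Fin (n + 1) → G) → G → ℚ) : Prop where
  inv : ∀ (g : G) (a : Fin (n + 1) → G) (y : G), F (fun i => g * a i) (g * y * g⁻¹) = F a y
  adm : ∀ H : Subgroup G, H.FG → ∀ y : H,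
    AdmY n y (fun a : Fin (n + 1) → H => F (fun i => (a i : G)) (y : G))

/-- Invariant families of integral cocycles `F (·; y)` which are alternating and invariant under powers of `y` in
each variable. -/
structure IntFam {G : Type} [Group G] (n : ℕ) (F : (Fin (n + 1) → G) → G → ℤ) : Prop where
  fam : CocFam n F
  altb : ∀ y : G, AltB y (fun a => (F a y : ℚ))

end Pool.Agent.FJA
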