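import Pool.Agent.FJA.Hom
import Pool.Agent.Lib_helper25.Lin0
import Pool.Agent.Lib_helper25.H2.Theta2

/-!
# Linear algebra: from the relations between the traces to the relations between the symbols
-/

set_option autoImplicit false
set_option linter.unusedSectionVars false

open Matrix Pool.Agent.WhK Pool.Agent.Lib25 CategoryTheory

noncomputable section

namespace Pool.Agent.FJA

section Functor

variable {m : ℕ} {P Q T : Type} [Group P] [Group Q] [Group T]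

theorem HQ.map_comp' (f : P →* Q) (g : Q →* T) (c : HQ m P) :
    HQ.map m g (HQ.map m f c) = HQ.map m (g.comp f) c := by
  rw [HQ_map_eq, HQ_map_eq, HQ_map_eq]
  exact (Hk.map_comp m f g c).symm

theorem HQ.map_id' (c : HQ m P) : HQ.map m (MonoidHom.id P) c = c := by
  rw [HQ_map_eq]
  exact Hk.map_id m c

end Functor

section Cen

variable {G : Type} [Group G] {m : ℕ}

theorem cHom_comp {x y h h' h'' : G} (H : ∀ z ∈ Cen h, x * z * x⁻¹ ∈ Cen h')
    (H' : ∀ z ∈ Cen h', y * z * y⁻¹ ∈ Cen h'') (H'' : ∀ z ∈ Cen h, (y * x) * z * (y * x)⁻¹ ∈ Cen h'') :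
    (cHom y H').comp (cHom x H) = cHom (y * x) H'' := by
  ext z
  simp [cHom, mul_assoc]

theorem cHom_one {h : G} (H : ∀ z ∈ Cen h, 1 * z * 1⁻¹ ∈ Cen h) :
    cHom 1 H = MonoidHom.id (Cen h) := by
  ext z
  simp [cHom]

theorem cMap_comp {x y z h h' h'' : G} (H : ∀ z ∈ Cen h, x * z * x⁻¹ ∈ Cen h')
    (H' : ∀ z ∈ Cen h', y * z * y⁻¹ ∈ Cen h'') (hz : y * x = z)
    (H'' : ∀ w ∈ Cen h, z * w * z⁻¹ ∈ Cen h'') (c : HQ m (Cen h)) :
    HQ.map m (cHom y H') (HQ.map m (cHom x H) c) = HQ.map m (cHom z H'') c := by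
  subst hz
  rw [HQ.map_comp', cHom_comp H H' H'']

/-- Inner automorphisms of the centralisers act trivially on the homology. -/
def InnerTriv (m : ℕ) (G : Type) [Group G] : Prop :=
  ∀ (h x : G) (H : ∀ z ∈ Cen h, x * z * x⁻¹ ∈ Cen h) (c : HQ m (Cen h)), x ∈ Cen h →
    HQ.map m (cHom x H) c = c

open scoped Classical in
/-- The transport of `w ∈ H_m(Z(h))` to `H_m(Z(h0))` along a conjugation which sends `h'` to `c`. -/
def trA {h0 : G} (c : G) {h : G} (h' : G) (w : HQ m (Cen h)) : HQ m (Cen h0) :=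
  if H : ∃ x : G, x * h' * x⁻¹ = c ∧ ∀ z ∈ Cen h, x * z * x⁻¹ ∈ Cen h0 then
    HQ.map m (cHom H.choose H.choose_spec.2) w else 0

/-- The value at `h'`, `w ∈ H_m(Z(h))`, of the class function supported on the conjugates of `h0`
which is given by the functional `f` on `H_m(Z(h0))`. -/
def muF {h0 : G} (f : HQ m (Cen h0) →ₗ[ℚ] ℚ) {h : G} (h' : G) (w : HQ m (Cen h)) : ℚ :=
  f (trA h0 h' w)

theorem trA_eq (hin : InnerTriv m G) {h0 c h h' : G} (hc : ∀ z, Commute z c → Commute z h0)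
    (x : G) (hx : x * h' * x⁻¹ = c) (H : ∀ z ∈ Cen h, x * z * x⁻¹ ∈ Cen h0)
    (w : HQ m (Cen h)) : trA c h' w = HQ.map m (cHom x H) w := by
  have H1 : ∃ x : G, x * h' * x⁻¹ = c ∧ ∀ z ∈ Cen h, x * z * x⁻¹ ∈ Cen h0 := ⟨x, hx, H⟩
  unfold trA
  rw [dif_pos H1]
  set y := H1.choose with hy
  have hy1 : y * h' * y⁻¹ = c := H1.choose_spec.1
  have hy2 : ∀ z ∈ Cen h, y * z * y⁻¹ ∈ Cen h0 := H1.choose_spec.2
  have hz : y * x⁻¹ ∈ Cen h0 := by
    rw [Subgroup.mem_centralizer_singleton_iff]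
    apply hc
    change y * x⁻¹ * c = c * (y * x⁻¹)
    calc y * x⁻¹ * c = y * x⁻¹ * (x * h' * x⁻¹) := by rw [hx]
      _ = y * h' * y⁻¹ * (y * x⁻¹) := by group
      _ = c * (y * x⁻¹) := by rw [hy1]
  have H2 : ∀ z ∈ Cen h0, y * x⁻¹ * z * (y * x⁻¹)⁻¹ ∈ Cen h0 := fun z hz' =>
    Subgroup.mul_mem _ (Subgroup.mul_mem _ hz hz') (Subgroup.inv_mem _ hz)
  rw [← hin h0 (y * x⁻¹) H2 (HQ.map m (cHom x H) w) hz]
  exact (cMap_comp H H2 (by group) hy2 w).symm

theorem trA_zero {h0 c h h' : G} (H : ¬ ∃ x : G, x * h' * x⁻¹ = c ∧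
    ∀ z ∈ Cen h, x * z * x⁻¹ ∈ Cen h0) (w : HQ m (Cen h)) :
    (trA c h' w : HQ m (Cen h0)) = 0 := dif_neg H

theorem muF_eq (hin : InnerTriv m G) {h0 h h' : G} (f : HQ m (Cen h0) →ₗ[ℚ] ℚ)
    (x : G) (hx : x * h' * x⁻¹ = h0) (H : ∀ z ∈ Cen h, x * z * x⁻¹ ∈ Cen h0)
    (w : HQ m (Cen h)) : muF f h' w = f (HQ.map m (cHom x H) w) := by
  unfold muF
  rw [trA_eq hin (fun _ h => h) x hx H w]

theorem muF_zero {h0 h h' : G} (f : HQ m (Cen h0) →ₗ[ℚ] ℚ) (H : ¬ ∃ x : G, x * h' * x⁻¹ = h0 ∧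
    ∀ z ∈ Cen h, x * z * x⁻¹ ∈ Cen h0) (w : HQ m (Cen h)) : muF f h' w = 0 := by
  unfold muF
  rw [trA_zero H, map_zero]

/-- The condition on the centralisers is automatic if `h'` generates `⟨h⟩` and `c` generates
`⟨h0⟩`. -/
theorem cen_conj_of {h0 c h h' x : G} (hc : ∀ z, Commute z c → Commute z h0)
    (hh : h' ∈ Subgroup.zpowers h) (hx : x * h' * x⁻¹ = c) :
    ∀ z ∈ Cen h, x * z * x⁻¹ ∈ Cen h0 := by
  intro z hz
  rw [Subgroup.mem_centralizer_singleton_iff] at hz ⊢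
  apply hc
  obtain ⟨k, rfl⟩ := hh
  have h1 : Commute z (h ^ k) := Commute.zpow_right (show Commute z h from hz) k
  change x * z * x⁻¹ * c = c * (x * z * x⁻¹)
  rw [← hx]
  calc x * z * x⁻¹ * (x * h ^ k * x⁻¹) = x * (z * h ^ k) * x⁻¹ := by group
    _ = x * (h ^ k * z) * x⁻¹ := by rw [h1.eq]
    _ = x * h ^ k * x⁻¹ * (x * z * x⁻¹) := by group

end Cen

section Source

variable {G : Type} [Group G] {m : ℕ}

theorem srcMk_eq_zero {x : Sym m G →₀ ℚ} (h : Rel m G x) :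
    (Submodule.span ℚ {x | Rel m G x}).mkQ x = 0 := by
  rw [Submodule.mkQ_apply, Submodule.Quotient.mk_eq_zero]
  exact Submodule.subset_span h

theorem sym_add (p : ℕ) (h : G) (c c' : HQ (m + 1) (Cen h)) :
    sym p h (c + c') = sym p h c + sym p h c' := by
  have h1 := srcMk_eq_zero (Rel.add p h c c')
  rw [map_sub, map_sub, sub_sub, sub_eq_zero] at h1
  exact h1

theorem sym_smul (p : ℕ) (h : G) (q : ℚ) (c : HQ (m + 1) (Cen h)) :
    sym p h (q • c) = q • sym p h c := by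
  have h1 := srcMk_eq_zero (Rel.smul p h q c)
  rw [map_sub, map_smul, sub_eq_zero] at h1
  exact h1

/-- The symbol as a linear map. -/
def symL (p : ℕ) (h : G) : HQ (m + 1) (Cen h) →ₗ[ℚ] Src m G where
  toFun := sym p h
  map_add' := sym_add p h
  map_smul' := sym_smul p h

theorem sym_conj (p : ℕ) {h h' x : G} (hx : x * h * x⁻¹ = h')
    (H : ∀ z ∈ Cen h, x * z * x⁻¹ ∈ Cen h') (c : HQ (m + 1) (Cen h)) :
    sym p h' (HQ.map (m + 1) (cHom x H) c) = sym p h c := by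
  subst hx
  have h1 := srcMk_eq_zero (Rel.conj p h x c)
  rw [map_sub, sub_eq_zero] at h1
  exact h1

theorem sym_frob {p : ℕ} {h h' : G} (hadm : Adm p h) (hh : h' ∈ Subgroup.zpowers h)
    (hh' : h ∈ Subgroup.zpowers h') (j k : ℕ) (hpw : h ^ p ^ j = h' ^ p ^ k)
    (H : ∀ z ∈ Cen h, 1 * z * 1⁻¹ ∈ Cen h') (c : HQ (m + 1) (Cen h)) :
    sym p h' (HQ.map (m + 1) (cHom 1 H) c) = sym p h c := by
  have h1 := srcMk_eq_zero (Rel.frob p h h' hh j k c hadm hh' hpw)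
  rw [map_sub, sub_eq_zero] at h1
  exact h1

theorem sym_sum {h : G} (hfin : IsOfFinOrder h) (H : ∀ a : ℕ, ∀ z ∈ Cen h, 1 * z * 1⁻¹ ∈ Cen (h ^ a))
    (c : HQ (m + 1) (Cen h)) :
    ∑ p ∈ (orderOf h).primeFactors,
      ∑ a ∈ (Finset.range (orderOf h)).filter (fun a => a.Coprime (orderOf h)),
        sym p (h ^ a) (HQ.map (m + 1) (cHom 1 (H a)) c) = 0 := by
  have h1 := srcMk_eq_zero (Rel.sum h c hfin)
  simp only [map_sum] at h1
  exact h1

theorem sum_units {M : Type*} [AddCommMonoid M] {n : ℕ} [NeZero n] (F : ℕ → M) :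
    ∑ u : (ZMod n)ˣ, F (u : ZMod n).val =
      ∑ a ∈ (Finset.range n).filter (fun a => a.Coprime n), F a := by
  refine Finset.sum_bij (fun (u : (ZMod n)ˣ) _ => (u : ZMod n).val) ?_ ?_ ?_ ?_
  · intro u _
    rw [Finset.mem_filter, Finset.mem_range]
    exact ⟨ZMod.val_lt _, ZMod.val_coe_unit_coprime u⟩
  · intro u _ v _ huv
    exact Units.ext (ZMod.val_injective n huv)
  · intro a ha
    rw [Finset.mem_filter, Finset.mem_range] at ha
    refine ⟨ZMod.unitOfCoprime a ha.2, Finset.mem_univ _, ?_⟩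
    rw [ZMod.coe_unitOfCoprime, ZMod.val_natCast, Nat.mod_eq_of_lt ha.1]
  · intro u _
    rfl

/-- Averaging over classes, in a vector space. -/
theorem sum_classes_mod {M : Type*} [AddCommGroup M] [Module ℚ M] {n : ℕ} [NeZero n] (p : ℕ)
    (Y : (ZMod n)ˣ → M) :
    ∑ a : (ZMod n)ˣ, ((ucl p a).card : ℚ)⁻¹ • ∑ u ∈ ucl p a, Y u = ∑ u, Y u := by
  classical
  have h1 : ∀ a : (ZMod n)ˣ, ((ucl p a).card : ℚ)⁻¹ • ∑ u ∈ ucl p a, Y u =
      ∑ u, if uRel n p u a then ((ucl p u).card : ℚ)⁻¹ • Y u else 0 := by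
    intro a
    rw [← Finset.sum_filter, Finset.smul_sum]
    refine Finset.sum_congr ?_ ?_
    · ext u
      rw [mem_ucl, Finset.mem_filter]
      exact ⟨fun h => ⟨Finset.mem_univ _, h⟩, fun h => h.2⟩
    · intro u hu
      rw [Finset.mem_filter] at hu
      rw [ucl_eq hu.2]
  rw [Finset.sum_congr rfl (fun a _ => h1 a), Finset.sum_comm]
  refine Finset.sum_congr rfl fun u _ => ?_
  rw [← Finset.sum_filter, Finset.sum_const]
  have h3 : (Finset.univ.filter (fun a => uRel n p u a)).card = (ucl p u).card := by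
    congr 1
    ext a
    rw [mem_ucl, Finset.mem_filter]
    exact ⟨fun h => uRel_symm h.2, fun h => ⟨Finset.mem_univ _, uRel_symm h⟩⟩
  have h4 : ((ucl p u).card : ℚ) ≠ 0 := Nat.cast_ne_zero.2 (card_ucl_pos p u).ne'
  rw [h3, ← Nat.cast_smul_eq_nsmul ℚ, smul_smul, mul_inv_cancel₀ h4, one_smul]

theorem uRel_inv {n : ℕ} [NeZero n] {p : ℕ} {x y : (ZMod n)ˣ} (h : uRel n p x y) :
    uRel n p x⁻¹ y⁻¹ := by
  have h1 := uRel_mul (uRel_symm h) (x⁻¹ * y⁻¹)
  have e1 : y * (x⁻¹ * y⁻¹) = x⁻¹ := by rw [mul_comm x⁻¹, mul_inv_cancel_left]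
  have e2 : x * (x⁻¹ * y⁻¹) = y⁻¹ := by rw [mul_inv_cancel_left]
  rwa [e1, e2] at h1

end Source

section Top

variable {G : Type} [Group G] {m : ℕ} {n : ℕ} [NeZero n]

/-- The symbol `[q, h0^a, x]` for `x` in the homology of the centraliser of `h0`. -/
def EE (h0 : G) (q : ℕ) (a : (ZMod n)ˣ) : HQ (m + 1) (Cen h0) →ₗ[ℚ] Src m G :=
  symL q (h0 ^ (a : ZMod n).val) ∘ₗ HQ.map (m + 1) (cHom 1 (cHom_pow h0
    (Subgroup.pow_mem _ (Subgroup.mem_zpowers h0) _)))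

theorem EE_apply (h0 : G) (q : ℕ) (a : (ZMod n)ˣ) (x : HQ (m + 1) (Cen h0)) :
    EE h0 q a x = sym q (h0 ^ (a : ZMod n).val) (HQ.map (m + 1) (cHom 1 (cHom_pow h0
      (Subgroup.pow_mem _ (Subgroup.mem_zpowers h0) _))) x) := rfl

theorem adm_pow_val {h0 : G} (hord : orderOf h0 = n) {q : ℕ} (hq : q ∈ n.primeFactors)
    (a : (ZMod n)ˣ) : Adm q (h0 ^ (a : ZMod n).val) := by
  have hfin0 : IsOfFinOrder h0 := by
    rw [← orderOf_pos_iff, hord]
    exact Nat.pos_of_ne_zero (NeZero.ne n)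
  refine ⟨Nat.prime_of_mem_primeFactors hq, hfin0.pow, ?_⟩
  rw [orderOf_pow_val hord]
  exact Nat.dvd_of_mem_primeFactors hq

theorem EE_eq_of_uRel {h0 : G} (hord : orderOf h0 = n) {q : ℕ} (hq : q ∈ n.primeFactors)
    {a b : (ZMod n)ˣ} (hab : uRel n q a b) (x : HQ (m + 1) (Cen h0)) :
    EE h0 q a x = EE h0 q b x := by
  have hpow : h0 ^ n = 1 := by rw [← hord]; exact pow_orderOf_eq_one _
  obtain ⟨i, k, hik⟩ := hab
  have hzp : Subgroup.zpowers (h0 ^ (a : ZMod n).val) = Subgroup.zpowers (h0 ^ (b : ZMod n).val) := by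
    rw [zpowers_pow_val hpow, zpowers_pow_val hpow]
  have ha : h0 ^ (a : ZMod n).val ∈ Subgroup.zpowers (h0 ^ (b : ZMod n).val) := by
    rw [← hzp]
    exact Subgroup.mem_zpowers _
  have hb : h0 ^ (b : ZMod n).val ∈ Subgroup.zpowers (h0 ^ (a : ZMod n).val) := by
    rw [hzp]
    exact Subgroup.mem_zpowers _
  rw [EE_apply, EE_apply, ← sym_frob (adm_pow_val hord hq b) ha hb k i ?_ (cHom_pow _ ha)]
  · rw [cMap_comp _ _ (one_mul 1) (cHom_pow h0
      (Subgroup.pow_mem _ (Subgroup.mem_zpowers h0) _))]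
  · rw [← pow_mul, ← pow_mul, pow_eq_pow_iff_modEq, hord, ← ZMod.natCast_eq_natCast_iff]
    push_cast
    rw [ZMod.natCast_zmod_val, ZMod.natCast_zmod_val]
    exact hik.symm

theorem sum_EE {h0 : G} (hord : orderOf h0 = n) (x : HQ (m + 1) (Cen h0)) :
    ∑ q ∈ n.primeFactors, ∑ a : (ZMod n)ˣ, EE h0 q a x = 0 := by
  have hfin0 : IsOfFinOrder h0 := by
    rw [← orderOf_pos_iff, hord]
    exact Nat.pos_of_ne_zero (NeZero.ne n)
  have h1 := sym_sum hfin0 (fun a => cHom_pow h0 (Subgroup.pow_mem _ (Subgroup.mem_zpowers h0) a)) x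
  rw [hord] at h1
  rw [← h1]
  refine Finset.sum_congr rfl fun q _ => ?_
  exact sum_units (fun a : ℕ => sym q (h0 ^ a) (HQ.map (m + 1) (cHom 1 (cHom_pow h0
    (Subgroup.pow_mem _ (Subgroup.mem_zpowers h0) a))) x))

theorem trA_pow (hin : InnerTriv m G) {h0 h : G} (hpow0 : h0 ^ n = 1) (hpow : h ^ n = 1)
    (v : (ZMod n)ˣ) (w : HQ m (Cen h)) :
    (trA h0 (h ^ (v : ZMod n).val) w : HQ m (Cen h0)) =
      trA (h0 ^ ((v⁻¹ : (ZMod n)ˣ) : ZMod n).val) h w := by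
  have hv : ∀ {g : G}, g ^ n = 1 →
      (g ^ (v : ZMod n).val) ^ ((v⁻¹ : (ZMod n)ˣ) : ZMod n).val = g := by
    intro g hg
    rw [← pow_val_mul hg, mul_inv_cancel, pow_val_one hg]
  have hv' : ∀ {g : G}, g ^ n = 1 →
      (g ^ ((v⁻¹ : (ZMod n)ˣ) : ZMod n).val) ^ (v : ZMod n).val = g := by
    intro g hg
    rw [← pow_val_mul hg, inv_mul_cancel, pow_val_one hg]
  have hiff : ∀ x : G, x * h ^ (v : ZMod n).val * x⁻¹ = h0 ↔
      x * h * x⁻¹ = h0 ^ ((v⁻¹ : (ZMod n)ˣ) : ZMod n).val := by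
    intro x
    constructor
    · intro hx
      rw [← hx, conj_pow, hv hpow]
    · intro hx
      rw [← conj_pow, hx, hv' hpow0]
  by_cases H : ∃ x : G, x * h ^ (v : ZMod n).val * x⁻¹ = h0 ∧ ∀ z ∈ Cen h, x * z * x⁻¹ ∈ Cen h0
  · obtain ⟨x, hx, H⟩ := H
    rw [trA_eq hin (fun _ h => h) x hx H w,
      trA_eq hin (fun z hz => (commute_pow_val hpow0 _).1 hz) x ((hiff x).1 hx) H w]
  · rw [trA_zero H, trA_zero]
    rintro ⟨x, hx, H'⟩
    exact H ⟨x, (hiff x).2 hx, H'⟩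

theorem trA_zero_of_not_conj {h0 c h : G} (hc : ¬ IsConj c h) (w : HQ m (Cen h)) :
    (trA c h w : HQ m (Cen h0)) = 0 := by
  apply trA_zero
  rintro ⟨x, hx, -⟩
  exact hc (isConj_comm.1 (isConj_iff.2 ⟨x, hx⟩))

theorem EE_trA (hin : InnerTriv (m + 1) G) {h0 h : G} (hpow0 : h0 ^ n = 1) (q : ℕ) (a : (ZMod n)ˣ)
    (hc : IsConj (h0 ^ (a : ZMod n).val) h) (w : HQ (m + 1) (Cen h)) :
    EE h0 q a (trA (h0 ^ (a : ZMod n).val) h w) = sym q h w := by
  obtain ⟨x, hx⟩ := isConj_iff.1 (isConj_comm.1 hc)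
  have hcen : ∀ z, Commute z (h0 ^ (a : ZMod n).val) → Commute z h0 :=
    fun z hz => (commute_pow_val hpow0 _).1 hz
  have H : ∀ z ∈ Cen h, x * z * x⁻¹ ∈ Cen h0 :=
    cen_conj_of hcen (Subgroup.mem_zpowers h) hx
  have H' : ∀ z ∈ Cen h, x * z * x⁻¹ ∈ Cen (h0 ^ (a : ZMod n).val) :=
    cen_conj_of (fun _ h => h) (Subgroup.mem_zpowers h) hx
  rw [EE_apply, trA_eq hin hcen x hx H w, cMap_comp H _ (one_mul x) H', sym_conj q hx H']

open scoped Classical in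
/-- The contribution of one class of cyclic subgroups of order `n` vanishes. -/
theorem top_zero (hin : InnerTriv (m + 1) G) {ι : Type*} (s : Finset ι) (p : ι → ℕ) (h : ι → G)
    (w : ∀ i, HQ (m + 1) (Cen (h i))) (c : ι → ℚ) (hv : ∀ i ∈ s, Adm (p i) (h i))
    (h0 : G) (hord : orderOf h0 = n)
    (t : ∀ (q : ℕ) [Fact q.Prime], (ZMod n)ˣ → ℚ_[q]) (K : ℚ) (hK : K ≠ 0)
    (ht : ∀ (q : ℕ) [Fact q.Prime], q ∣ n → ∀ (Y : (ZMod n)ˣ → ℚ) (y : ℚ),
      ∑ u, t q u * (Y u : ℚ_[q]) = (y : ℚ_[q]) →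
      ∀ z, K * ∑ u ∈ Finset.univ.filter (fun u => uRel n q u z), Y u =
        y * (Finset.univ.filter (fun u => uRel n q u z)).card)
    (Phi : Set (HQ (m + 1) (Cen h0) →ₗ[ℚ] ℚ)) (hdet : ∀ a, (∀ f ∈ Phi, f a = 0) → a = 0)
    (H : ∀ f ∈ Phi, ∃ y : ℚ, ∀ (q : ℕ) [Fact q.Prime], q ∣ n →
      ∑ v : (ZMod n)ˣ, t q v * ((∑ i ∈ s.filter (fun i => orderOf (h i) = n ∧ p i = q),
        c i * muF f (h i ^ (v : ZMod n).val) (w i) : ℚ) : ℚ_[q]) = (y : ℚ_[q])) :
    ∑ i ∈ s.filter (fun i => cz h0 = cz (h i)), c i • sym (p i) (h i) (w i) = 0 := by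
  have hnpos : 0 < n := Nat.pos_of_ne_zero (NeZero.ne n)
  have hpow : h0 ^ n = 1 := by rw [← hord]; exact pow_orderOf_eq_one _
  set T := s.filter (fun i => cz h0 = cz (h i)) with hT
  have hTmem : ∀ i ∈ T, i ∈ s ∧ cz h0 = cz (h i) := fun i hi => Finset.mem_filter.1 hi
  have hTp : ∀ i ∈ T, p i ∈ n.primeFactors := by
    intro i hi
    obtain ⟨h1, h2⟩ := hTmem i hi
    rw [Nat.mem_primeFactors]
    refine ⟨(hv i h1).1, ?_, hnpos.ne'⟩
    rw [← hord, orderOf_of_cz h2]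
    exact (hv i h1).2.2
  rcases T.eq_empty_or_nonempty with hTe | ⟨i0, hi0⟩
  · rw [hTe, Finset.sum_empty]
  let α : ι → (ZMod n)ˣ → HQ (m + 1) (Cen h0) := fun i a => trA (h0 ^ (a : ZMod n).val) (h i) (w i)
  let Zq : ℕ → (ZMod n)ˣ → HQ (m + 1) (Cen h0) := fun q a =>
    ∑ i ∈ T.filter (fun i => p i = q), c i • α i a
  -- the functionals
  have stepA : ∀ (f : HQ (m + 1) (Cen h0) →ₗ[ℚ] ℚ) (q : ℕ) (v : (ZMod n)ˣ),
      ∑ i ∈ s.filter (fun i => orderOf (h i) = n ∧ p i = q),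
        c i * muF f (h i ^ (v : ZMod n).val) (w i) = f (Zq q v⁻¹) := by
    intro f q v
    have h1 : ∀ i ∈ s.filter (fun i => orderOf (h i) = n ∧ p i = q),
        i ∉ T.filter (fun i => p i = q) →
        c i * muF f (h i ^ (v : ZMod n).val) (w i) = 0 := by
      intro i hi hiT
      obtain ⟨h2, h3, h4⟩ := Finset.mem_filter.1 hi
      have h5 : h i ^ n = 1 := by rw [← h3]; exact pow_orderOf_eq_one _
      unfold muF
      rw [trA_pow hin hpow h5, trA_zero_of_not_conj, map_zero, mul_zero]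
      intro hc
      apply hiT
      rw [Finset.mem_filter, hT, Finset.mem_filter]
      refine ⟨⟨h2, ?_⟩, h4⟩
      rw [← cz_pow_val hpow v⁻¹]
      exact cz_of_isConj hc
    have h2 : T.filter (fun i => p i = q) ⊆ s.filter (fun i => orderOf (h i) = n ∧ p i = q) := by
      intro i hi
      obtain ⟨h3, h4⟩ := Finset.mem_filter.1 hi
      obtain ⟨h5, h6⟩ := hTmem i h3
      rw [Finset.mem_filter]
      exact ⟨h5, by rw [← orderOf_of_cz h6, hord], h4⟩
    rw [← Finset.sum_subset h2 h1]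
    simp only [Zq]
    rw [map_sum]
    refine Finset.sum_congr rfl fun i hi => ?_
    obtain ⟨h3, h4⟩ := Finset.mem_filter.1 hi
    obtain ⟨h5, h6⟩ := hTmem i h3
    have h7 : h i ^ n = 1 := by rw [← hord, orderOf_of_cz h6]; exact pow_orderOf_eq_one _
    unfold muF
    rw [trA_pow hin hpow h7, map_smul, smul_eq_mul]
  choose! y hy using H
  have stepC : ∀ f ∈ Phi, ∀ q ∈ n.primeFactors, ∀ z : (ZMod n)ˣ,
      K * f (∑ a ∈ ucl q z, Zq q a) = y f * (ucl q z).card := by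
    intro f hf q hq z
    have : Fact q.Prime := ⟨Nat.prime_of_mem_primeFactors hq⟩
    have h1 := hy f hf q (Nat.dvd_of_mem_primeFactors hq)
    simp only [stepA] at h1
    have h2 := ht q (Nat.dvd_of_mem_primeFactors hq) (fun v => f (Zq q v⁻¹)) (y f) h1 z⁻¹
    have h3 : Finset.univ.filter (fun u => uRel n q u z⁻¹) =
        (ucl q z).map (Equiv.inv (ZMod n)ˣ).toEmbedding := by
      ext u
      rw [Finset.mem_filter, Finset.mem_map]
      constructor
      · rintro ⟨-, hu⟩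
        refine ⟨u⁻¹, mem_ucl.2 ?_, inv_inv u⟩
        have := uRel_inv hu
        rwa [inv_inv] at this
      · rintro ⟨b, hb, rfl⟩
        exact ⟨Finset.mem_univ _, uRel_inv (mem_ucl.1 hb)⟩
    rw [h3, Finset.sum_map, Finset.card_map] at h2
    rw [← h2, map_sum]
    congr 1
  set q0 := p i0 with hq0
  have hq0' : q0 ∈ n.primeFactors := hTp i0 hi0
  set card0 : ℕ := (ucl q0 (1 : (ZMod n)ˣ)).card with hcard0
  have hcard0' : (card0 : ℚ) ≠ 0 := Nat.cast_ne_zero.2 (card_ucl_pos q0 1).ne'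
  set B := (card0 : ℚ)⁻¹ • ∑ a ∈ ucl q0 (1 : (ZMod n)ˣ), Zq q0 a with hB
  have stepD : ∀ q ∈ n.primeFactors, ∀ z : (ZMod n)ˣ,
      ∑ a ∈ ucl q z, Zq q a = ((ucl q z).card : ℚ) • B := by
    intro q hq z
    rw [← sub_eq_zero]
    apply hdet
    intro f hf
    have h1 := stepC f hf q hq z
    have h2 := stepC f hf q0 hq0' 1
    rw [← hcard0] at h2
    rw [map_sub, hB, map_smul, map_smul, smul_eq_mul, smul_eq_mul, sub_eq_zero]
    apply mul_left_cancel₀ hK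
    rw [h1]
    have h3 : K * (((ucl q z).card : ℚ) * ((card0 : ℚ)⁻¹ *
        f (∑ a ∈ ucl q0 (1 : (ZMod n)ˣ), Zq q0 a))) =
        ((ucl q z).card : ℚ) * ((card0 : ℚ)⁻¹ *
          (K * f (∑ a ∈ ucl q0 (1 : (ZMod n)ˣ), Zq q0 a))) := by ring
    rw [h3, h2]
    field_simp
  -- the sum over the classes
  have stepF : ∑ q ∈ n.primeFactors, ∑ a : (ZMod n)ˣ, EE h0 q a (Zq q a) = 0 := by
    rw [← sum_EE hord B]
    refine Finset.sum_congr rfl fun q hq => ?_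
    rw [← sum_classes_mod q (fun a => EE h0 q a (Zq q a))]
    refine Finset.sum_congr rfl fun a _ => ?_
    have h1 : ∑ u ∈ ucl q a, EE h0 q u (Zq q u) = EE h0 q a (∑ u ∈ ucl q a, Zq q u) := by
      rw [map_sum]
      refine Finset.sum_congr rfl fun u hu => ?_
      exact EE_eq_of_uRel hord hq (mem_ucl.1 hu) _
    have h2 : ((ucl q a).card : ℚ) ≠ 0 := Nat.cast_ne_zero.2 (card_ucl_pos q a).ne'
    rw [h1, stepD q hq a, map_smul, smul_smul, inv_mul_cancel₀ h2, one_smul]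
  set W : ℕ := (Finset.univ.filter
    (fun a : (ZMod n)ˣ => IsConj (h0 ^ (a : ZMod n).val) h0)).card with hW
  have hW' : (W : ℚ) ≠ 0 := by
    have : (1 : (ZMod n)ˣ) ∈ Finset.univ.filter
        (fun a : (ZMod n)ˣ => IsConj (h0 ^ (a : ZMod n).val) h0) := by
      rw [Finset.mem_filter, pow_val_one hpow]
      exact ⟨Finset.mem_univ _, IsConj.refl _⟩
    exact Nat.cast_ne_zero.2 (Finset.card_pos.2 ⟨_, this⟩).ne'
  have stepE : (W : ℚ) • ∑ i ∈ T, c i • sym (p i) (h i) (w i) =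
      ∑ q ∈ n.primeFactors, ∑ a : (ZMod n)ˣ, EE h0 q a (Zq q a) := by
    rw [← Finset.sum_fiberwise_of_maps_to (t := n.primeFactors) (g := p) hTp, Finset.smul_sum]
    refine Finset.sum_congr rfl fun q hq => ?_
    have h1 : ∀ a : (ZMod n)ˣ, EE h0 q a (Zq q a) =
        ∑ i ∈ T.filter (fun i => p i = q), c i • EE h0 q a (α i a) := by
      intro a
      simp only [Zq]
      rw [map_sum]
      refine Finset.sum_congr rfl fun i _ => ?_
      rw [map_smul]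
    rw [Finset.sum_congr rfl (fun a _ => h1 a), Finset.sum_comm, Finset.smul_sum]
    refine Finset.sum_congr rfl fun i hi => ?_
    obtain ⟨hiT, hpi⟩ := Finset.mem_filter.1 hi
    obtain ⟨his, hcz⟩ := hTmem i hiT
    have h2 : ∀ a : (ZMod n)ˣ, c i • EE h0 q a (α i a) =
        if IsConj (h0 ^ (a : ZMod n).val) (h i) then c i • sym (p i) (h i) (w i) else 0 := by
      intro a
      split_ifs with hc
      · rw [EE_trA hin hpow q a hc, hpi]
      · simp only [α]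
        rw [trA_zero_of_not_conj hc, map_zero, smul_zero]
    rw [Finset.sum_congr rfl (fun a _ => h2 a), ← Finset.sum_filter, Finset.sum_const,
      card_conj hord hcz, ← hW, ← Nat.cast_smul_eq_nsmul ℚ]
  rw [stepF] at stepE
  exact (smul_eq_zero.1 stepE).resolve_left hW'

end Top

section Final

variable {G : Type} [Group G] {m : ℕ}

open scoped Classical in
/-- From the relations between the traces to the relations between the symbols.  The hypothesis `H`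
is only used for the combinations `s' ⊆ s` which have the same class as `s` and for the elements
`h i0` of maximal order in `s'`. -/
theorem src_zero (hin : InnerTriv (m + 1) G) {ι : Type*} (s : Finset ι) (p : ι → ℕ) (h : ι → G)
    (w : ∀ i, HQ (m + 1) (Cen (h i))) (c : ι → ℚ) (hv : ∀ i ∈ s, Adm (p i) (h i))
    (t : ∀ (n q : ℕ) [NeZero n] [Fact q.Prime], (ZMod n)ˣ → ℚ_[q]) (K : ℕ → ℚ)
    (hK : ∀ n, 0 < n → K n ≠ 0)
    (ht : ∀ (n q : ℕ) [NeZero n] [Fact q.Prime], q ∣ n → ∀ (Y : (ZMod n)ˣ → ℚ) (y : ℚ),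
      ∑ u, t n q u * (Y u : ℚ_[q]) = (y : ℚ_[q]) →
      ∀ z, K n * ∑ u ∈ Finset.univ.filter (fun u => uRel n q u z), Y u =
        y * (Finset.univ.filter (fun u => uRel n q u z)).card)
    (Phi : ∀ h0 : G, Set (HQ (m + 1) (Cen h0) →ₗ[ℚ] ℚ))
    (hdet : ∀ i ∈ s, ∀ a, (∀ f ∈ Phi (h i), f a = 0) → a = 0)
    (H : ∀ s' ⊆ s, ∑ i ∈ s', c i • sym (p i) (h i) (w i) =
        ∑ i ∈ s, c i • sym (p i) (h i) (w i) →
      ∀ (n : ℕ) [NeZero n], (∀ i ∈ s', orderOf (h i) ≤ n) → ∀ i0 ∈ s', orderOf (h i0) = n →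
      ∀ f ∈ Phi (h i0), ∃ y : ℚ, ∀ (q : ℕ) [Fact q.Prime], q ∣ n →
      ∑ v : (ZMod n)ˣ, t n q v * ((∑ i ∈ s'.filter (fun i => orderOf (h i) = n ∧ p i = q),
        c i * muF f (h i ^ (v : ZMod n).val) (w i) : ℚ) : ℚ_[q]) = (y : ℚ_[q])) :
    ∑ i ∈ s, c i • sym (p i) (h i) (w i) = 0 := by
  have key : ∀ (n : ℕ) (s' : Finset ι), s' ⊆ s → ∑ i ∈ s', c i • sym (p i) (h i) (w i) =
      ∑ i ∈ s, c i • sym (p i) (h i) (w i) → (∀ i ∈ s', orderOf (h i) ≤ n) →
      ∑ i ∈ s', c i • sym (p i) (h i) (w i) = 0 := by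
    intro n
    induction n with
    | zero =>
      intro s' hs' _ hn
      have h1 : s' = ∅ := by
        rw [Finset.eq_empty_iff_forall_notMem]
        intro i hi
        have h2 := orderOf_pos_iff.2 (hv i (hs' hi)).2.1
        have h3 := hn i hi
        omega
      rw [h1, Finset.sum_empty]
    | succ n ih =>
      intro s' hs' heq hn
      have hsplit := Finset.sum_filter_add_sum_filter_not s' (fun i => orderOf (h i) = n + 1)
        (fun i => c i • sym (p i) (h i) (w i))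
      have htop : ∑ i ∈ s'.filter (fun i => orderOf (h i) = n + 1),
          c i • sym (p i) (h i) (w i) = 0 := by
        rw [← Finset.sum_fiberwise_of_maps_to
          (t := (s'.filter (fun i => orderOf (h i) = n + 1)).image (fun i => cz (h i)))
          (g := fun i => cz (h i)) (fun i hi => Finset.mem_image_of_mem _ hi)]
        apply Finset.sum_eq_zero
        intro C hC
        obtain ⟨i0, hi0, rfl⟩ := Finset.mem_image.1 hC
        obtain ⟨hi0s, hi0n⟩ := Finset.mem_filter.1 hi0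
        have h1 := top_zero (n := n + 1) hin s' p h w c (fun i hi => hv i (hs' hi)) (h i0) hi0n
          (fun q _ => t (n + 1) q) (K (n + 1)) (hK _ (Nat.succ_pos n)) (fun q _ => ht (n + 1) q)
          (Phi (h i0))
          (hdet i0 (hs' hi0s)) (H s' hs' heq (n + 1) hn i0 hi0s hi0n)
        rw [← h1]
        refine Finset.sum_congr ?_ fun _ _ => rfl
        ext i
        rw [Finset.mem_filter, Finset.mem_filter, Finset.mem_filter]
        constructor
        · rintro ⟨⟨h2, -⟩, h3⟩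
          exact ⟨h2, h3.symm⟩
        · rintro ⟨h2, h3⟩
          exact ⟨⟨h2, by rw [← orderOf_of_cz h3, hi0n]⟩, h3.symm⟩
      rw [htop, zero_add] at hsplit
      rw [← hsplit]
      apply ih
      · exact (Finset.filter_subset _ _).trans hs'
      · rw [hsplit, heq]
      · intro i hi
        obtain ⟨h1, h2⟩ := Finset.mem_filter.1 hi
        have h3 := hn i h1
        omega
  exact key (s.sup fun i => orderOf (h i)) s (Finset.Subset.refl s) rfl
    (fun i hi => Finset.le_sup (f := fun i => orderOf (h i)) hi)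

end Final

section Theta

open scoped Classical in
/-- `exists_theta2` with a constant which only depends on `n`. -/
theorem exists_theta3 (n : ℕ) [NeZero n] : ∃ K : ℕ, 0 < K ∧
    ∀ (p : ℕ) [Fact p.Prime], p ∣ n →
    ∃ (ι : Type) (_ : Fintype ι) (a : ι → MonoidAlgebra ℚ (Multiplicative (ZMod n)))
      (e : ι → MonoidAlgebra ℚ_[p] (Multiplicative (ZMod n))) (M : ι → ℤ),
      (∀ i, H2.Node p (a i) (e i)) ∧
      (∀ c, Subgroup.zpowers c ≠ ⊤ → (∑ i, (M i : ℚ_[p]) • e i).coeff c = 0) ∧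
      ∀ (Y : (ZMod n)ˣ → ℚ) (y : ℚ),
        ∑ u : (ZMod n)ˣ, (∑ i, (M i : ℚ_[p]) • e i).coeff
          (Multiplicative.ofAdd (u : ZMod n)) * (Y u : ℚ_[p]) = (y : ℚ_[p]) →
        ∀ z, (K : ℚ) * ∑ u ∈ Finset.univ.filter (fun u => uRel n p u z), Y u =
          y * (Finset.univ.filter (fun u => uRel n p u z)).card := by
  have h0 : ∀ (p : ℕ), ∃ N : ℕ, 0 < N ∧ ∀ [Fact p.Prime], p ∣ n →
    ∃ (ι : Type) (_ : Fintype ι) (a : ι → MonoidAlgebra ℚ (Multiplicative (ZMod n)))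
      (e : ι → MonoidAlgebra ℚ_[p] (Multiplicative (ZMod n))) (M : ι → ℤ),
      (∀ i, H2.Node p (a i) (e i)) ∧
      (∀ c, Subgroup.zpowers c ≠ ⊤ → (∑ i, (M i : ℚ_[p]) • e i).coeff c = 0) ∧
      ∀ (Y : (ZMod n)ˣ → ℚ) (y : ℚ),
        ∑ u : (ZMod n)ˣ, (∑ i, (M i : ℚ_[p]) • e i).coeff
          (Multiplicative.ofAdd (u : ZMod n)) * (Y u : ℚ_[p]) = (y : ℚ_[p]) →
        ∀ z, (N : ℚ) * ∑ u ∈ Finset.univ.filter (fun u => uRel n p u z), Y u =
          y * (Finset.univ.filter (fun u => uRel n p u z)).card := by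
    intro p
    by_cases hp : p.Prime ∧ p ∣ n
    · have : Fact p.Prime := ⟨hp.1⟩
      obtain ⟨ι, hι, a, e, M, N, h1, h2, h3, h4⟩ := H2.exists_theta2 p n hp.2
      exact ⟨N, h2, fun _ => ⟨ι, hι, a, e, M, h1, h3, h4⟩⟩
    · exact ⟨1, one_pos, fun {hp'} hpn => absurd ⟨hp'.out, hpn⟩ hp⟩
  choose N hN hN' using h0
  refine ⟨∏ q ∈ n.primeFactors, N q, Finset.prod_pos fun q _ => hN q, ?_⟩
  intro p hp hpn
  have hmem : p ∈ n.primeFactors := Nat.mem_primeFactors.2 ⟨hp.out, hpn, NeZero.ne n⟩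
  obtain ⟨ι, hι, a, e, M, h1, h3, h4⟩ := hN' p hpn
  set R : ℕ := ∏ q ∈ n.primeFactors.erase p, N q with hR
  have hRpos : 0 < R := Finset.prod_pos fun q _ => hN q
  have hprod : ∏ q ∈ n.primeFactors, N q = N p * R := (Finset.mul_prod_erase _ _ hmem).symm
  have hsum : (∑ i, (((M i * (R : ℤ) : ℤ)) : ℚ_[p]) • e i) =
      (R : ℚ_[p]) • ∑ i, (M i : ℚ_[p]) • e i := by
    rw [Finset.smul_sum]
    refine Finset.sum_congr rfl fun i _ => ?_
    rw [smul_smul]
    push_cast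
    rw [mul_comm]
  have hco : ∀ c, (∑ i, (((M i * (R : ℤ) : ℤ)) : ℚ_[p]) • e i).coeff c =
      (R : ℚ_[p]) * (∑ i, (M i : ℚ_[p]) • e i).coeff c := by
    intro c
    rw [hsum, MonoidAlgebra.coeff_smul_apply, smul_eq_mul]
  refine ⟨ι, hι, a, e, fun i => M i * (R : ℤ), h1, ?_, ?_⟩
  · intro c hc
    rw [hco, h3 c hc, mul_zero]
  · intro Y y hy z
    simp only [hco] at hy
    have hR0 : (R : ℚ) ≠ 0 := Nat.cast_ne_zero.2 hRpos.ne'
    have h5 := h4 (fun u => (R : ℚ) * Y u) y ?_ z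
    · rw [← Finset.mul_sum] at h5
      rw [hprod, ← h5]
      push_cast
      ring
    · rw [← hy]
      refine Finset.sum_congr rfl fun u _ => ?_
      push_cast
      ring

end Theta

end Pool.Agent.FJA
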