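import Mathlib

/-!
# Direct limits of groups, divisible elements

If a group `G` is a direct limit of groups with a property, then every finite part of the multiplication table
of `G` lifts to a group `Q` with this property and a homomorphism `Q → G`. We use this weaker condition.
-/

set_option autoImplicit false

noncomputable section

namespace Pool.Agent.FJA

/-- `s` is a section of the homomorphism `π` over the finite set `S`, compatible with the products inside `S`. -/
structure PSec {Q G : Type} [Group Q] [Group G] (π : Q →* G) (s : G → Q) (S : Finset G) : Prop where
  sec : ∀ g ∈ S, π (s g) = g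
  mul : ∀ g ∈ S, ∀ h ∈ S, g * h ∈ S → s (g * h) = s g * s h

/-- Every finite part of the multiplication table of `G` lifts to a group with the property `P`; this holds if `G` is a
direct limit of groups with the property `P`. -/
def LimOf (P : ∀ (Q : Type) [Group Q], Prop) (G : Type) [Group G] : Prop :=
  ∀ S : Finset G, ∃ (Q : Type) (_ : Group Q) (π : Q →* G) (s : G → Q), PSec π s S ∧ P Q

/-- The element `y` is a `p ^ c`-th power for all primes `p` and all `c`. -/
def Dvb {G : Type} [Group G] (y : G) : Prop := ∀ p c : ℕ, p.Prime → ∃ δ : G, δ ^ p ^ c = y

/-- The only divisible element is `1`. -/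
def NDvb (G : Type) [Group G] : Prop := ∀ y : G, Dvb y → y = 1

/-- The divisible elements have finite order. -/
def TDvb (G : Type) [Group G] : Prop := ∀ y : G, Dvb y → IsOfFinOrder y

end Pool.Agent.FJA
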