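import Pool.Agent.FJA.TrDef2
import Pool.Agent.FJA.RtRoot

/-!
# Cocycles for the Dennis trace
-/

set_option autoImplicit false

noncomputable section

namespace Pool.Agent.FJA

/-- The conditions on `G`, `y ≠ 1` and a rational cocycle `f` of the centralizer of `y`. -/
def AdmR {G : Type} [Group G] (n : ℕ) (y : G) (f : (Fin (n + 1) → G) → ℚ) : Prop :=
  f = 0 ∨
  (RootC ℤ y f ∧ (IsOfFinOrder y ∨
    ∀ (t : Fin (n + 1) → ℤ) (a : Fin (n + 1) → G), f (fun i => y ^ t i * a i) = f a)) ∨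
  (n ≤ 3 ∧ IsOfFinOrder y ∧ ∃ m : ℕ, m ≠ 0 ∧ ∀ a, (f a).den ∣ m) ∨
  (∀ V : Finset G, {p : ℕ | p.Prime ∧ (∀ a, ¬ p ∣ (f a).den) ∧
    (∀ g : G, g * y ^ p = y ^ p * g → g * y = y * g) ∧
    ∀ z ∈ V, ¬ IsConj z (y ^ p) ∧ (IsConj (z ^ p) (y ^ p) → IsConj z y)}.Infinite) ∨
  ((∀ (t : Fin (n + 1) → ℤ) (a : Fin (n + 1) → G), f (fun i => y ^ t i * a i) = f a) ∧
    ∀ V : Finset G, {p : ℕ | p.Prime ∧ (∀ a, ¬ p ∣ (f a).den) ∧
      ∀ z ∈ V, ¬ IsConj (z ^ p) y}.Infinite)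

/-- The cochain `f` is the sum of the coboundary of a cochain `E` and a cocycle `f'`, both invariant under
the centralizer of `y`, and `f'` satisfies the conditions. -/
def AdmRAt {G : Type} [Group G] (n : ℕ) (y : G) (f : (Fin (n + 1) → G) → ℚ) : Prop :=
  ∃ (f' : (Fin (n + 1) → G) → ℚ) (E : (Fin n → G) → ℚ), CInv y f' ∧ CInv y E ∧
    (∀ a : Fin (n + 2) → G, cobE f' a = 0) ∧ (∀ a, f a = f' a + cobE E a) ∧ AdmR n y f'

end Pool.Agent.FJA
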