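import Pool.Agent.FJA.LmDefs
import Pool.Agent.FJA.RtDennis

/-!
# Admissible families for the Dennis trace
-/

set_option autoImplicit false

noncomputable section

namespace Pool.Agent.FJA

/-- Admissible families: `F` is invariant, and every finite part of the multiplication table of `G` lifts to a group
`Q` with a homomorphism `π : Q → G` such that the cochains `F (π a; π y)`, `π y ≠ 1`, of `Q` satisfy the conditions. -/
structure AdmLG {G : Type} [Group G] (n : ℕ) (F : (Fin (n + 1) → G) → G → ℚ) : Prop where
  inv : ∀ (g : G) (a : Fin (n + 1) → G) (y : G), F (fun i => g * a i) (g * y * g⁻¹) = F a y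
  adm : ∀ S : Finset G, ∃ (Q : Type) (_ : Group Q) (π : Q →* G) (s : G → Q), PSec π s S ∧
    ∀ y : Q, π y ≠ 1 → AdmRAt n y (fun a : Fin (n + 1) → Q => F (fun i => π (a i)) (π y))

end Pool.Agent.FJA
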