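import Pool.Agent.FJA.P_TAV
import Pool.Agent.FJA.P_EV1

/-!
# EVG: the values of a function of the simplices on the chain of a unit
-/

set_option autoImplicit false

open Matrix Pool.Agent.WhK Pool.Agent.Lib25

noncomputable section

namespace Pool.Agent.FJA

namespace EVG

open EV1

variable {G : Type} [Group G] {N : ℕ} (m : ℕ) (φ : Cyc N →* G) (u : (MonoidAlgebra ℤ (Cyc N))ˣ)

theorem E1p_zero : TAV.E1p m φ u 0 = 0 := by
  unfold TAV.E1p
  rw [map_zero, map_zero]

theorem E1p_add (w w' : (Fin (m + 1) → Cen (φ (gen N))) →₀ ℚ) :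
    TAV.E1p m φ u (w + w') = TAV.E1p m φ u w + TAV.E1p m φ u w' := by
  unfold TAV.E1p
  rw [map_add, map_add]

theorem E1p_single (Z : Fin (m + 1) → Cen (φ (gen N))) (q : ℚ) :
    TAV.E1p m φ u (Finsupp.single Z q) =
      q • ∑ i : Fin (m + 1), (-1 : ℚ) ^ (i : ℕ) • ∑ i' : Fin (m + 2), (-1 : ℚ) ^ (i' : ℕ) •
        Finsupp.single (mix id (fun x => x * sEl G)
          (mix (fun z : Cen (φ (gen N)) => gl1 elt (z : G))
            (fun z : Cen (φ (gen N)) => gl1 elt (z : G) * uEl φ u) Z i) i') (1 : ℚ) := by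
  have h1 : ∀ (V V' : Type) (f f' : V → V') (M : ℕ) (v : Fin M → V) (c : ℚ),
      prism ℚ f f' M (Finsupp.single v c) =
        c • ∑ i : Fin M, (-1 : ℚ) ^ (i : ℕ) • Finsupp.single (mix f f' v i) (1 : ℚ) := by
    intro V V' f f' M v c
    unfold prism
    rw [Finsupp.linearCombination_single]
    congr 1
    refine Finset.sum_congr rfl fun i _ => ?_
    rw [Finsupp.smul_single, smul_eq_mul, mul_one]
  unfold TAV.E1p
  rw [h1, map_smul, map_sum]
  congr 1
  refine Finset.sum_congr rfl fun i _ => ?_
  rw [map_smul, h1, one_smul]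

/-- The value of `Φ` on the chain of a unit. -/
theorem ewg (p : ℕ) [Fact p.Prime] [NeZero N]
    (Φ : (Fin (m + 3) → GLn (LaurentPolynomial (MonoidAlgebra ℤ G)) 1) → ℚ_[p])
    (Fv : (Fin (m + 1) → Cen (φ (gen N))) → Cyc N → ℚ)
    (Lm : Cyc N → (Fin 2 → (Matrix (Fin 1) (Fin 1) (MonoidAlgebra ℚ_[p] (Cyc N)))ˣ) → ℚ_[p])
    (hΦ : ∀ (X : Fin (m + 3) → GLn (LaurentPolynomial (MonoidAlgebra ℤ G)) 1)
      (z : Fin (m + 3) → Cen (φ (gen N))) (b : Fin (m + 3) → ℤ)
      (v : Fin (m + 3) → (MonoidAlgebra ℚ_[p] (Cyc N))ˣ),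
      (∀ l, cvt ℚ_[p] 1 (X l) = sclU ℚ_[p] (Fin 1) ((z l : G), Multiplicative.ofAdd (b l)) *
        glG (MonoidHom.inl G (Multiplicative ℤ)) (glG φ (sc (v l)))) →
      Φ X = ∑ c : Cyc N, (Fv (fun i => z (Fin.castAdd 2 i)) c : ℚ_[p]) *
        ((b (Fin.last (m + 1)).castSucc - b (Fin.last m).castSucc.castSucc : ℤ) : ℚ_[p]) *
        Lm c ![sc (v (Fin.last (m + 1)).castSucc), sc (v (Fin.last (m + 2)))])
    (hL : ∀ Z c, Fv Z c ≠ 0 → (∀ g X Y, Lm c ![g * X, g * Y] = Lm c ![X, Y]) ∧
      Lm c ![1, 1] = 0) (w : (Fin (m + 1) → Cen (φ (gen N))) →₀ ℚ) :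
    Finsupp.linearCombination ℚ Φ (TAV.E1p m φ u w) =
      ∑ c : Cyc N, ((Finsupp.linearCombination ℚ (fun Z => Fv Z c) w : ℚ) : ℚ_[p]) *
        Lm c ![1, sc (uZ p u)] := by
  classical
  -- the value on a simplex
  have key : ∀ (Z : Fin (m + 1) → Cen (φ (gen N))) (i : Fin (m + 1)) (i' : Fin (m + 2)),
      Φ (mix id (fun x => x * sEl G)
          (mix (fun z : Cen (φ (gen N)) => gl1 elt (z : G))
            (fun z : Cen (φ (gen N)) => gl1 elt (z : G) * uEl φ u) Z i) i') =
      if i' = (Fin.last m).castSucc ∧ i = Fin.last m then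
        ∑ c : Cyc N, (Fv Z c : ℚ_[p]) *
          Lm c ![(1 : (Matrix (Fin 1) (Fin 1) (MonoidAlgebra ℚ_[p] (Cyc N)))ˣ), sc (uZ p u)]
      else 0 := by
    intro Z i i'
    rw [hΦ _ (fun l => Z (i.predAbove (i'.predAbove l))) (fun l => bb (l ≤ i'.castSucc))
      (fun l => vv (uZ p u) (i'.predAbove l ≤ i.castSucc)) (fun l => vert p m φ u Z i i' l)]
    by_cases hi' : i' = (Fin.last m).castSucc
    · have hv' : (i' : ℕ) = m := by rw [hi']; rfl
      have hb1 : bb ((Fin.last (m + 1)).castSucc ≤ i'.castSucc) = 1 := by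
        unfold bb
        rw [if_neg]
        rw [Fin.le_def, Fin.val_castSucc, Fin.val_castSucc, Fin.val_last, hv']
        omega
      have hb2 : bb ((Fin.last m).castSucc.castSucc ≤ i'.castSucc) = 0 := by
        unfold bb
        rw [if_pos]
        rw [Fin.le_def, Fin.val_castSucc, Fin.val_castSucc, Fin.val_castSucc, Fin.val_last, hv']
      have hv2 : vv (uZ p u) (i'.predAbove (Fin.last (m + 2)) ≤ i.castSucc) = uZ p u := by
        unfold vv
        rw [if_neg]
        rw [Fin.le_def, pa_val, Fin.val_castSucc, Fin.val_last, hv']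
        have := i.2
        rw [if_pos (by omega)]
        omega
      by_cases hi : i = Fin.last m
      · have hv : (i : ℕ) = m := by rw [hi]; rfl
        rw [if_pos ⟨hi', hi⟩]
        have hv1 : vv (uZ p u) (i'.predAbove (Fin.last (m + 1)).castSucc ≤ i.castSucc) = 1 := by
          unfold vv
          rw [if_pos]
          rw [Fin.le_def, pa_val, Fin.val_castSucc, Fin.val_castSucc, Fin.val_last, hv', hv]
          rw [if_pos (by omega)]
          omega
        have hz : ∀ t : Fin (m + 1), i.predAbove (i'.predAbove (Fin.castAdd 2 t)) = t := by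
          intro t
          apply Fin.ext
          have ht := t.2
          have a1 : ((i'.predAbove (Fin.castAdd 2 t) : Fin (m + 2)) : ℕ) = t := by
            rw [pa_val, Fin.val_castAdd, hv', if_neg (by omega)]
          rw [pa_val, a1, hv, if_neg (by omega)]
        refine Finset.sum_congr rfl fun c _ => ?_
        simp only [hb1, hb2, hv1, hv2, hz, map_one, sub_zero, Int.cast_one, mul_one]
      · rw [if_neg fun h => hi h.2]
        have hv : (i : ℕ) < m := by
          have h2 := i.2
          rcases Nat.lt_or_ge (i : ℕ) m with h3 | h3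
          · exact h3
          · exact absurd (Fin.ext (by rw [Fin.val_last]; omega)) hi
        have hv1 : vv (uZ p u) (i'.predAbove (Fin.last (m + 1)).castSucc ≤ i.castSucc) =
            uZ p u := by
          unfold vv
          rw [if_neg]
          rw [Fin.le_def, pa_val, Fin.val_castSucc, Fin.val_castSucc, Fin.val_last, hv']
          rw [if_pos (by omega)]
          omega
        refine Finset.sum_eq_zero fun c _ => ?_
        simp only [hv1, hv2]
        by_cases hFc : Fv (fun t : Fin (m + 1) =>
            Z (i.predAbove (i'.predAbove (Fin.castAdd 2 t)))) c = 0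
        · rw [hFc, Rat.cast_zero, zero_mul, zero_mul]
        · obtain ⟨h4, h5⟩ := hL _ _ hFc
          have h6 := h4 (sc (uZ p u)) 1 1
          rw [mul_one, h5] at h6
          rw [h6, mul_zero]
    · rw [if_neg fun h => hi' h.1]
      have hv' : (i' : ℕ) ≠ m := by
        intro h
        exact hi' (Fin.ext h)
      have hlt := i'.2
      have hb : bb ((Fin.last (m + 1)).castSucc ≤ i'.castSucc) =
          bb ((Fin.last m).castSucc.castSucc ≤ i'.castSucc) := by
        unfold bb
        have e1 : ((Fin.last (m + 1)).castSucc ≤ i'.castSucc) ↔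
            ((Fin.last m).castSucc.castSucc ≤ i'.castSucc) := by
          rw [Fin.le_def, Fin.le_def, Fin.val_castSucc, Fin.val_castSucc, Fin.val_castSucc,
            Fin.val_castSucc, Fin.val_last, Fin.val_last]
          omega
        by_cases h7 : (Fin.last m).castSucc.castSucc ≤ i'.castSucc
        · rw [if_pos h7, if_pos (e1.2 h7)]
        · rw [if_neg h7, if_neg (fun h => h7 (e1.1 h))]
      refine Finset.sum_eq_zero fun c _ => ?_
      simp only [hb, sub_self, Int.cast_zero, mul_zero, zero_mul]
  induction w using Finsupp.induction_linear with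
  | zero =>
    rw [E1p_zero, map_zero]
    symm
    refine Finset.sum_eq_zero fun c _ => ?_
    rw [map_zero, Rat.cast_zero, zero_mul]
  | add w w' hw hw' =>
    rw [E1p_add, map_add, hw, hw', ← Finset.sum_add_distrib]
    refine Finset.sum_congr rfl fun c _ => ?_
    rw [map_add, Rat.cast_add, add_mul]
  | single Z q =>
    rw [E1p_single, map_smul, map_sum, Finset.sum_eq_single (Fin.last m)]
    · rw [map_smul, map_sum, Finset.sum_eq_single (Fin.last m).castSucc]
      · have h8 := key Z (Fin.last m) (Fin.last m).castSucc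
        rw [if_pos ⟨rfl, rfl⟩] at h8
        rw [map_smul, Finsupp.linearCombination_single, one_smul, h8, Fin.val_castSucc,
          smul_smul ((-1 : ℚ) ^ _), ← mul_pow, neg_one_mul, neg_neg, one_pow,
          one_smul, Rat.smul_def, Finset.mul_sum]
        refine Finset.sum_congr rfl fun c _ => ?_
        rw [Finsupp.linearCombination_single, smul_eq_mul, Rat.cast_mul, mul_assoc]
      · intro i' _ hi'
        have h8 := key Z (Fin.last m) i'
        rw [if_neg fun h => hi' h.1] at h8
        rw [map_smul, Finsupp.linearCombination_single, one_smul, h8, smul_zero]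
      · intro h
        exact absurd (Finset.mem_univ _) h
    · intro i _ hi
      rw [map_smul, map_sum, Finset.sum_eq_zero, smul_zero]
      intro i' _
      have h8 := key Z i i'
      rw [if_neg fun h => hi h.2] at h8
      rw [map_smul, Finsupp.linearCombination_single, one_smul, h8, smul_zero]
    · intro h
      exact absurd (Finset.mem_univ _) h

end EVG

end Pool.Agent.FJA
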