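import Pool.Agent.FJA.StT

/-!
# The Dennis trace of the simplices of the elements of the group
-/

set_option autoImplicit false

open Matrix Pool.Agent.WhK Pool.Agent.Lib25

noncomputable section

namespace Pool.Agent.FJA

namespace GMA

/-- The entry of the matrix of an element of the group. -/
theorem gMat_val {G : Type} [Group G] (g : G) (i j : Fin 1) :
    (gMat g).val i j = MonoidAlgebra.single g (1 : ℤ) := by
  have hij : i = j := Subsingleton.elim _ _
  subst hij
  change (Matrix.scalar (Fin 1) (MonoidAlgebra.of ℤ G g)) i i = _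
  rw [Matrix.scalar_apply, Matrix.diagonal_apply_eq]
  rfl

/-- The quotients of the vertices. -/
def quo {G : Type} [Group G] {n : ℕ} (a : Fin (n + 1) → G) (j : Fin (n + 1)) : G :=
  (a j)⁻¹ * a (j + 1)

theorem dcoef_gMat {G : Type} [Group G] {n : ℕ} (a : Fin (n + 1) → G) (γ : Fin (n + 1) → G) :
    (dcoef (fun j => gMat (a j)) γ : ℤ) =
      (by classical exact if γ = quo a then 1 else 0) := by
  classical
  unfold dcoef
  rw [Fintype.sum_unique]
  have h : ∀ j : Fin (n + 1),
      ((((fun j => gMat (a j)) j)⁻¹ * (fun j => gMat (a j)) (j + 1) :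
        (Matrix (Fin 1) (Fin 1) (MonoidAlgebra ℤ G))ˣ).val
          ((default : Fin (n + 1) → Fin 1) j) ((default : Fin (n + 1) → Fin 1) (j + 1))).coeff (γ j)
        = if quo a j = γ j then 1 else 0 := by
    intro j
    have e : ((gMat (a j))⁻¹ * gMat (a (j + 1)) :
        (Matrix (Fin 1) (Fin 1) (MonoidAlgebra ℤ G))ˣ) = gMat (quo a j) := by
      rw [quo, map_mul, map_inv]
    change ((((gMat (a j))⁻¹ * gMat (a (j + 1)) :
        (Matrix (Fin 1) (Fin 1) (MonoidAlgebra ℤ G))ˣ).val _ _).coeff (γ j)) = _
    rw [e, gMat_val, MonoidAlgebra.coeff_single, Finsupp.single_apply]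
  rw [Finset.prod_congr rfl (fun j _ => h j), Finset.prod_ite_zero]
  simp only [Finset.mem_univ, true_implies, Finset.prod_const_one]
  by_cases hg : γ = quo a
  · subst hg
    simp
  · have hn : ¬ ∀ j, quo a j = γ j := fun hh => hg (funext fun j => (hh j).symm)
    rw [if_neg hn, if_neg hg]

theorem take_quo {G : Type} [Group G] {n : ℕ} (a : Fin (n + 1) → G) (m : ℕ) (hm : m < n + 1) :
    ((List.ofFn (quo a)).take m).prod = (a 0)⁻¹ * a ⟨m, hm⟩ := by
  induction m with
  | zero =>
    have : (⟨0, hm⟩ : Fin (n + 1)) = 0 := rfl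
    rw [this]
    simp
  | succ m ih =>
    have hl : m < (List.ofFn (quo a)).length := by
      rw [List.length_ofFn]
      omega
    rw [List.prod_take_succ _ _ hl, ih (by omega), List.getElem_ofFn, quo]
    have e : (⟨m, by omega⟩ : Fin (n + 1)) + 1 = ⟨m + 1, hm⟩ := by
      apply Fin.ext
      rw [Fin.val_add_one_of_lt]
      rw [Fin.lt_def]
      simp
      omega
    rw [e]
    group

theorem fpr_quo {G : Type} [Group G] {n : ℕ} (a : Fin (n + 1) → G) :
    fpr (quo a) = fun j => (a 0)⁻¹ * a j := by
  funext j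
  exact take_quo a j j.2

theorem prod_quo {G : Type} [Group G] {n : ℕ} (a : Fin (n + 1) → G) :
    (List.ofFn (quo a)).prod = 1 := by
  have hl : n < (List.ofFn (quo a)).length := by
    rw [List.length_ofFn]
    omega
  have h1 : (List.ofFn (quo a)).prod = ((List.ofFn (quo a)).take (n + 1)).prod := by
    rw [List.take_of_length_le]
    rw [List.length_ofFn]
  rw [h1, List.prod_take_succ _ _ hl, take_quo a n (by omega), List.getElem_ofFn, quo]
  have e : (⟨n, by omega⟩ : Fin (n + 1)) + 1 = 0 := by
    have : (⟨n, by omega⟩ : Fin (n + 1)) = Fin.last n := rfl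
    rw [this, Fin.last_add_one]
  rw [e]
  group

end GMA

/-- GMA: the Dennis trace of the simplices of the elements of the group. -/
theorem t_GMA : S_GMA := by
  classical
  intro G _ n F hF a
  unfold dennis
  rw [finsum_eq_single _ (GMA.quo a)]
  · rw [GMA.dcoef_gMat, if_pos rfl, one_mul, GMA.fpr_quo, GMA.prod_quo, Int.cast_id]
    have h := hF.inv (a 0)⁻¹ a 1
    rw [mul_one, mul_inv_cancel] at h
    exact h
  · intro γ hγ
    rw [GMA.dcoef_gMat, if_neg hγ, zero_mul]

end Pool.Agent.FJA
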