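import Pool.Agent.FJA.StU
import Pool.Agent.FJA.P_GMA

/-!
# The rational Dennis trace of the simplices of the elements of the group
-/

set_option autoImplicit false

open Matrix Pool.Agent.WhK Pool.Agent.Lib25

noncomputable section

namespace Pool.Agent.FJA

/-- GMQ: as GMA for rational families. -/
theorem t_GMQ : S_GMQ := by
  classical
  intro G _ n F hF a
  unfold dtr
  rw [finsum_eq_single _ (GMA.quo a)]
  · rw [GMA.dcoef_gMat, if_pos rfl, Int.cast_one, one_mul, GMA.fpr_quo, GMA.prod_quo]
    have h := hF (a 0)⁻¹ a 1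
    rw [mul_one, mul_inv_cancel] at h
    exact h
  · intro γ hγ
    rw [GMA.dcoef_gMat, if_neg hγ, Int.cast_zero, zero_mul]

end Pool.Agent.FJA
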