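import Pool.Agent.FJA.StX
import Pool.Agent.FJA.P_TRB

/-!
# Module HBG: the elements of finite order, with the conditions in the group
-/

set_option autoImplicit false

open Matrix Pool.Agent.WhK Pool.Agent.Lib25

noncomputable section

namespace Pool.Agent.FJA

namespace HBG

variable {G : Type} [Group G]

lemma orderOf_cj (g y : G) : orderOf (g * y * g⁻¹) = orderOf y := by
  simpa using orderOf_injective (MulAut.conj g).toMonoidHom (MulAut.conj g).injective y

lemma twF_pos {M : ℕ} {m j : ℕ} (F : (Fin M → G) → G → ℚ) (a : Fin M → G) {y : G}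
    (h : orderOf y = m) : twF m j F a y = F a (y ^ j) := if_pos h

lemma twF_neg {M : ℕ} {m j : ℕ} (F : (Fin M → G) → G → ℚ) (a : Fin M → G) {y : G}
    (h : orderOf y ≠ m) : twF m j F a y = 0 := if_neg h

lemma twF_inv {M : ℕ} (m j : ℕ) {F : (Fin M → G) → G → ℚ}
    (h : ∀ (g : G) (a : Fin M → G) (y : G), F (fun i => g * a i) (g * y * g⁻¹) = F a y)
    (g : G) (a : Fin M → G) (y : G) :
    twF m j F (fun i => g * a i) (g * y * g⁻¹) = twF m j F a y := by
  unfold twF
  rw [orderOf_cj, conj_pow, h]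

end HBG

open TRB HBG in
open Classical in
/-- HBG: the theorem at the elements of order `m`, with the conditions in `G`. -/
theorem t_HBG (hhbr : S_HBR) (hdzb : S_DZB) : S_HBG := by
  intro k _ _ G _ n r m hn hm z hz F hinv hord hrat K _ _ _ ζ hζ
  obtain ⟨q, rfl⟩ : ∃ q, n = q + 1 := ⟨n - 1, by omega⟩
  obtain ⟨E0, hE0⟩ := hdzb.1 k G (q + 1) r z
  let rp : ConjClasses G → G := fun C => (ConjClasses.exists_rep C).choose
  have hrp : ∀ C, ConjClasses.mk (rp C) = C := fun C => (ConjClasses.exists_rep C).choose_spec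
  have hcj : ∀ (C : ConjClasses G) (y : G), ConjClasses.mk y = C ↔
      ∃ g : G, g * rp C * g⁻¹ = y := by
    intro C y
    constructor
    · intro h
      rw [← hrp C] at h
      exact isConj_iff.1 (ConjClasses.mk_eq_mk_iff_isConj.1 h).symm
    · intro h
      rw [← hrp C]
      exact (ConjClasses.mk_eq_mk_iff_isConj.2 (isConj_iff.2 h)).symm
  have hex : ∀ C : ConjClasses G, ∃ (f' : (Fin (q + 1 + 1) → G) → ℚ) (E : (Fin (q + 1) → G) → ℚ),
      orderOf (rp C) = m → (CInv (rp C) f' ∧ CInv (rp C) E ∧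
        (∀ (t : Fin (q + 1 + 1) → ℤ) (a : Fin (q + 1 + 1) → G),
          f' (fun i => (rp C) ^ t i * a i) = f' a) ∧
        (∀ a : Fin (q + 1 + 2) → G, cobE f' a = 0) ∧ (∀ a, F a (rp C) = f' a + cobE E a) ∧
        ∃ D : ℕ, 0 < D ∧
          ∀ (a : Fin (q + 1 + 1) → G) (p : ℕ), p.Prime → p ∣ (f' a).den → p ∣ D) := by
    intro C
    by_cases hC : orderOf (rp C) = m
    · obtain ⟨f', E, h⟩ := hrat (rp C) hC
      exact ⟨f', E, fun _ => h⟩
    · exact ⟨0, 0, fun h => absurd h hC⟩
  choose f' E hfE using hex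
  have hPex : ∀ C : ConjClasses G, ∃ P : Polynomial ℚ, orderOf (rp C) = m →
      ∀ j j' : ℕ, j * j' ≡ 1 [MOD m] →
      algebraMap k K (DZ (twF m j (fam (rp C) (f' C))) z) = Polynomial.aeval (ζ ^ j') P := by
    intro C
    by_cases hC : orderOf (rp C) = m
    · obtain ⟨hf, hE, hb, hc, hFE, D, hD0, hD⟩ := hfE C hC
      have hbas : ∀ (t : Fin (q + 1 + 1) → ℤ) (a : Fin (q + 1 + 1) → G) (y : G),
          fam (rp C) (f' C) (fun i => y ^ t i * a i) y = fam (rp C) (f' C) a y := by
        intro t a y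
        by_cases hy : ∃ g : G, g * rp C * g⁻¹ = y
        · obtain ⟨g, rfl⟩ := hy
          rw [fam_conj _ hf, fam_conj _ hf, ← hb t (fun i => g⁻¹ * a i)]
          congr 1
          funext i
          rw [conj_zpow]
          simp only [mul_assoc, inv_mul_cancel_left]
        · rw [fam_neg _ _ _ hy, fam_neg _ _ _ hy]
      have hsup : ∀ a y, fam (rp C) (f' C) a y ≠ 0 → orderOf y = m := by
        intro a y h
        obtain ⟨g, rfl⟩ := fam_ne h
        rw [orderOf_cj, hC]
      have hden : ∀ a y (p : ℕ), p.Prime → p ∣ (fam (rp C) (f' C) a y).den → p ∣ D := by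
        intro a y p hp h
        rcases fam_val (rp C) (f' C) a y with h0 | ⟨b, hb'⟩
        · rw [h0] at h
          exact absurd (Nat.dvd_one.1 (by simpa using h)) hp.one_lt.ne'
        · rw [hb'] at h
          exact hD b p hp h
      obtain ⟨P, hP⟩ := hhbr k G (q + 1) r m hn hm z hz (fam (rp C) (f' C))
        (fun g a x => fam_inv (rp C) hf g a x) (fun a x => fam_coc (rp C) hf hc a x) hbas hsup
        ⟨D, hD0, hden⟩ K ζ hζ
      exact ⟨P, fun _ => hP⟩
    · exact ⟨0, fun h => absurd h hC⟩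
  choose P hP using hPex
  let s : Finset (ConjClasses G) :=
    ((E0 ×ˢ Finset.range m).image fun v => ConjClasses.mk (v.1 ^ v.2)).filter
      fun C => orderOf (rp C) = m
  refine ⟨∑ C ∈ s, P C, fun j j' hj => ?_⟩
  have hcop : Nat.Coprime j m := Nat.coprime_of_mul_modEq_one j' hj
  let H : ConjClasses G × Bool → (Fin (q + 1 + 1) → G) → G → ℚ := fun v a y =>
    if v.2 = true then twF m j (fam (rp v.1) (f' v.1)) a y
    else cobE (fun b => twF m j (fam (rp v.1) (E v.1)) b y) a
  have hHt : ∀ C, H (C, true) = twF m j (fam (rp C) (f' C)) := by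
    intro C
    funext a y
    exact if_pos rfl
  have hHf : ∀ C, H (C, false) = fun a y =>
      cobE (fun b => twF m j (fam (rp C) (E C)) b y) a := by
    intro C
    funext a y
    exact if_neg (by simp)
  have hpt : ∀ y ∈ E0, ∀ a, twF m j F a y =
      ∑ v ∈ s ×ˢ (Finset.univ : Finset Bool), (1 : ℚ) * H v a y := by
    intro y hy a
    rw [Finset.sum_product]
    simp only [one_mul, Fintype.sum_bool, hHt, hHf]
    by_cases ho : orderOf y = m
    · have hmem : ConjClasses.mk (y ^ j) ∈ s := by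
        refine Finset.mem_filter.2 ⟨Finset.mem_image.2 ⟨(y, j % m), ?_, ?_⟩, ?_⟩
        · exact Finset.mem_product.2 ⟨hy, Finset.mem_range.2 (Nat.mod_lt _ (by omega))⟩
        · have : y ^ (j % m) = y ^ j := by
            rw [← ho]; exact pow_mod_orderOf y j
          simp only [this]
        · obtain ⟨g, hg⟩ := (hcj (ConjClasses.mk (y ^ j)) (y ^ j)).1 rfl
          rw [← orderOf_cj g, hg]
          rw [Nat.Coprime.orderOf_pow]
          · exact ho
          · rw [ho]; exact hcop.symm
      rw [Finset.sum_eq_single_of_mem _ hmem]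
      · obtain ⟨g, hg⟩ := (hcj (ConjClasses.mk (y ^ j)) (y ^ j)).1 rfl
        obtain ⟨hf, hE, hb, hc, hFE, _⟩ := hfE _ (Finset.mem_filter.1 hmem).2
        simp only [twF_pos _ _ ho]
        have e1 : fam (rp (ConjClasses.mk (y ^ j))) (f' (ConjClasses.mk (y ^ j))) a (y ^ j) =
            f' (ConjClasses.mk (y ^ j)) (fun i => g⁻¹ * a i) := by
          have h := fam_conj _ hf a g
          rw [hg] at h
          exact h
        have e2 : cobE (fun b => fam (rp (ConjClasses.mk (y ^ j)))
            (E (ConjClasses.mk (y ^ j))) b (y ^ j)) a =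
            cobE (E (ConjClasses.mk (y ^ j))) (fun i => g⁻¹ * a i) := by
          rw [← cob_fam _ hE a g, hg]
        have e3 : F a (y ^ j) = F (fun i => g⁻¹ * a i) (rp (ConjClasses.mk (y ^ j))) := by
          rw [← hinv g (fun i => g⁻¹ * a i) (rp (ConjClasses.mk (y ^ j))), hg]
          congr 1
          funext i
          rw [mul_inv_cancel_left]
        rw [e1, e2, e3, hFE]
      · intro C _ hC
        have h : ¬ ∃ g : G, g * rp C * g⁻¹ = y ^ j := fun h => hC ((hcj C (y ^ j)).2 h).symm
        simp only [twF_pos _ _ ho, fam_neg (rp C) (f' C) a h, cob_fam_neg (rp C) (E C) a h,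
          add_zero]
    · rw [twF_neg _ _ ho]
      refine (Finset.sum_eq_zero fun C _ => ?_).symm
      simp only [twF_neg _ _ ho, cobE, mul_zero, Finset.sum_const_zero, add_zero]
  have key : DZ (twF m j F) z = ∑ C ∈ s, DZ (twF m j (fam (rp C) (f' C))) z := by
    rw [hE0 _ _ hpt, hdzb.2.1 k G (q + 1) r z (ConjClasses G × Bool)
      (s ×ˢ (Finset.univ : Finset Bool)) (fun _ => 1) H, Finset.sum_product]
    refine Finset.sum_congr rfl fun C hC => ?_
    have hE := (hfE C (Finset.mem_filter.1 hC).2).2.1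
    have h0 : DZ (H (C, false)) z = 0 := by
      rw [hHf C]
      exact hdzb.2.2.1 k G q r (twF m j (fam (rp C) (E C)))
        (fun g a y => twF_inv m j (fun g a x => fam_inv (rp C) hE g a x) g a y) z hz
    rw [Fintype.sum_bool, h0, hHt C]
    simp
  rw [key, map_sum, map_sum]
  exact Finset.sum_congr rfl fun C hC => hP C (Finset.mem_filter.1 hC).2 j j' hj

end Pool.Agent.FJA
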