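import Pool.Agent.FJA.StU

/-!
# Commuting with a `p`-th power in a group of rational matrices
-/

set_option autoImplicit false

open Matrix Polynomial

noncomputable section

namespace Pool.Agent.FJA.LCE

/-- Conjugation by an invertible matrix. -/
def conj {N : ℕ} (Y : GL (Fin N) ℚ) : Module.End ℚ (Matrix (Fin N) (Fin N) ℚ) :=
  LinearMap.mulLeft ℚ (Y : Matrix (Fin N) (Fin N) ℚ) *
    LinearMap.mulRight ℚ ((Y⁻¹ : GL (Fin N) ℚ) : Matrix (Fin N) (Fin N) ℚ)

theorem conj_apply {N : ℕ} (Y : GL (Fin N) ℚ) (A : Matrix (Fin N) (Fin N) ℚ) :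
    conj Y A = (Y : Matrix (Fin N) (Fin N) ℚ) * (A * ((Y⁻¹ : GL (Fin N) ℚ) : Matrix (Fin N) (Fin N) ℚ)) := rfl

theorem conj_gl {N : ℕ} (Y A : GL (Fin N) ℚ) :
    conj Y (A : Matrix (Fin N) (Fin N) ℚ) = ((Y * (A * Y⁻¹) : GL (Fin N) ℚ) : Matrix (Fin N) (Fin N) ℚ) := by
  rw [conj_apply, Units.val_mul, Units.val_mul]

theorem conj_pow {N : ℕ} (Y : GL (Fin N) ℚ) (n : ℕ) (A : GL (Fin N) ℚ) :
    (conj Y ^ n) (A : Matrix (Fin N) (Fin N) ℚ) =
      ((Y ^ n * (A * (Y ^ n)⁻¹) : GL (Fin N) ℚ) : Matrix (Fin N) (Fin N) ℚ) := by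
  induction n with
  | zero => simp
  | succ n ih =>
    rw [pow_succ', Module.End.mul_apply, ih, conj_gl]
    congr 1
    rw [pow_succ']
    group

theorem key {N : ℕ} (p : ℕ) (hp : p.Prime) (hN : N ^ 2 + 1 < p)
    (T : Module.End ℚ (Matrix (Fin N) (Fin N) ℚ)) (A : Matrix (Fin N) (Fin N) ℚ)
    (h : (T ^ p) A = A) : T A = A := by
  haveI : Fact p.Prime := ⟨hp⟩
  have hirr : Irreducible (cyclotomic p ℚ) := cyclotomic.irreducible_rat hp.pos
  have hint : IsIntegral ℚ T := Algebra.IsIntegral.isIntegral T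
  have hmu0 : minpoly ℚ T ≠ 0 := minpoly.ne_zero hint
  have hdeg : (minpoly ℚ T).natDegree ≤ N ^ 2 := by
    have h1 : (minpoly ℚ T).natDegree ≤ (LinearMap.charpoly T).natDegree :=
      natDegree_le_of_dvd (LinearMap.minpoly_dvd_charpoly T) (LinearMap.charpoly_monic T).ne_zero
    rw [LinearMap.charpoly_natDegree, Module.finrank_matrix] at h1
    simp only [Fintype.card_fin, Module.finrank_self, mul_one] at h1
    rw [pow_two]
    exact h1
  have hnd : ¬ cyclotomic p ℚ ∣ minpoly ℚ T := by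
    intro hd
    have h2 := natDegree_le_of_dvd hd hmu0
    rw [natDegree_cyclotomic, Nat.totient_prime hp] at h2
    omega
  have hcop : IsCoprime (cyclotomic p ℚ) (minpoly ℚ T) := (hirr.coprime_iff_not_dvd).2 hnd
  obtain ⟨a, b, hab⟩ := hcop
  have hPhi : (aeval T (cyclotomic p ℚ)) (T A - A) = 0 := by
    have h3 : cyclotomic p ℚ * (X - 1) = X ^ p - 1 := cyclotomic_prime_mul_X_sub_one ℚ p
    have h4 : (aeval T (cyclotomic p ℚ * (X - 1))) A = (aeval T (X ^ p - 1 : ℚ[X])) A := by rw [h3]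
    rw [map_mul, Module.End.mul_apply] at h4
    simp only [map_sub, map_pow, aeval_X, map_one, LinearMap.sub_apply, Module.End.one_apply] at h4
    rw [h, sub_self] at h4
    rw [← h4, map_sub]
  have h5 : (aeval T (a * cyclotomic p ℚ + b * minpoly ℚ T)) (T A - A) = T A - A := by
    rw [hab, map_one, Module.End.one_apply]
  rw [map_add, map_mul, map_mul, minpoly.aeval, mul_zero, add_zero, Module.End.mul_apply, hPhi, map_zero] at h5
  exact (sub_eq_zero.1 h5.symm)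

end Pool.Agent.FJA.LCE

namespace Pool.Agent.FJA

open LCE in
theorem t_LCE : S_LCE := by
  intro Γ _ N ρ hρ p hp hN g y hgy
  apply hρ
  have h1 : (conj (ρ y) ^ p) ((ρ g : GL (Fin N) ℚ) : Matrix (Fin N) (Fin N) ℚ) =
      ((ρ g : GL (Fin N) ℚ) : Matrix (Fin N) (Fin N) ℚ) := by
    rw [conj_pow, ← map_pow, ← map_inv, ← map_mul, ← map_mul]
    congr 2
    rw [← mul_assoc, ← hgy]
    group
  have h2 := key p hp hN (conj (ρ y)) _ h1
  rw [conj_gl] at h2
  have h3 : ρ y * (ρ g * (ρ y)⁻¹) = ρ g := Units.ext h2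
  rw [map_mul, map_mul]
  calc ρ g * ρ y = (ρ y * (ρ g * (ρ y)⁻¹)) * ρ y := by rw [h3]
    _ = ρ y * ρ g := by group

end Pool.Agent.FJA
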