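import Pool.Agent.FJA.StV

/-!
# LJK: conjugate powers in finitely generated linear groups
-/

set_option autoImplicit false

open Matrix Polynomial

noncomputable section

namespace Pool.Agent.FJA

namespace LJK

/-- An eigenvalue has coinciding powers, so it is a root of unity. -/
lemma root_unity {L : Type} [Field L] {N : ℕ} (A B : Matrix (Fin N) (Fin N) L) (hA : IsUnit A)
    (S : Set ℕ) (hS : S.Infinite) (h : ∀ p ∈ S, spectrum L (A ^ p) = spectrum L B)
    (x : L) (hx : x ∈ spectrum L A) : ∃ m : ℕ, 0 < m ∧ x ^ m = 1 := by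
  classical
  have hx0 : x ≠ 0 := by
    rintro rfl
    exact (spectrum.zero_notMem_iff L).2 hA hx
  have hfin : (spectrum L B).Finite := by
    have h1 : spectrum L B = {r | IsRoot B.charpoly r} := by
      ext r
      exact Matrix.mem_spectrum_iff_isRoot_charpoly
    rw [h1]
    refine (B.charpoly.roots.toFinset.finite_toSet).subset fun r hr => ?_
    rw [Finset.mem_coe, Multiset.mem_toFinset, mem_roots B.charpoly_monic.ne_zero]
    exact hr
  have hmap : Set.MapsTo (fun p : ℕ => x ^ p) S (spectrum L B) := by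
    intro p hp
    rw [← h p hp]
    exact spectrum.pow_mem_pow A p hx
  obtain ⟨p, -, q, -, hpq, he⟩ := hS.exists_ne_map_eq_of_mapsTo hmap hfin
  have key : ∀ p q : ℕ, p < q → x ^ p = x ^ q → ∃ m : ℕ, 0 < m ∧ x ^ m = 1 := by
    intro p q hlt he
    refine ⟨q - p, Nat.sub_pos_of_lt hlt, ?_⟩
    have h1 : x ^ p * x ^ (q - p) = x ^ p * 1 := by
      rw [← pow_add, Nat.add_sub_cancel' hlt.le, mul_one, he]
    exact mul_left_cancel₀ (pow_ne_zero p hx0) h1
  rcases lt_or_gt_of_ne hpq with h1 | h1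
  · exact key p q h1 he
  · exact key q p h1 he.symm

/-- A power is unipotent. -/
lemma unip_alg {L : Type} [Field L] [IsAlgClosed L] {N : ℕ} (A B : Matrix (Fin N) (Fin N) L)
    (hA : IsUnit A) (S : Set ℕ) (hS : S.Infinite)
    (h : ∀ p ∈ S, spectrum L (A ^ p) = spectrum L B) :
    ∃ M : ℕ, 0 < M ∧ (A ^ M - 1) ^ N = 0 := by
  classical
  have h1 : ∀ x : L, ∃ m : ℕ, 0 < m ∧ (x ∈ A.charpoly.roots → x ^ m = 1) := by
    intro x
    by_cases hx : x ∈ A.charpoly.roots
    · rw [mem_roots A.charpoly_monic.ne_zero, ← Matrix.mem_spectrum_iff_isRoot_charpoly] at hx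
      obtain ⟨m, hm, hm'⟩ := root_unity A B hA S hS h x hx
      exact ⟨m, hm, fun _ => hm'⟩
    · exact ⟨1, one_pos, fun h => absurd h hx⟩
  choose m hm0 hm using h1
  refine ⟨∏ x ∈ A.charpoly.roots.toFinset, m x, Finset.prod_pos fun x _ => hm0 x, ?_⟩
  set M := ∏ x ∈ A.charpoly.roots.toFinset, m x with hM
  have h2 : A.charpoly ∣ (X ^ M - 1 : L[X]) ^ N := by
    have h3 := (IsAlgClosed.splits A.charpoly).eq_prod_roots_of_monic A.charpoly_monic
    have h4 : Multiset.card A.charpoly.roots = N := by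
      rw [(splits_iff_card_roots.1 (IsAlgClosed.splits A.charpoly)),
        Matrix.charpoly_natDegree_eq_dim, Fintype.card_fin]
    rw [h3]
    have h5 : (A.charpoly.roots.map fun _ : L => (X ^ M - 1 : L[X])).prod = (X ^ M - 1) ^ N := by
      rw [Multiset.map_const', Multiset.prod_replicate, h4]
    rw [← h5]
    refine Multiset.prod_dvd_prod_of_dvd _ _ fun x hx => ?_
    rw [dvd_iff_isRoot, IsRoot.def, eval_sub, eval_pow, eval_X, eval_one, sub_eq_zero]
    obtain ⟨t, ht⟩ : m x ∣ M := Finset.dvd_prod_of_mem m (Multiset.mem_toFinset.2 hx)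
    rw [ht, pow_mul, hm x hx, one_pow]
  obtain ⟨q, hq⟩ := h2
  have h6 := congrArg (aeval A) hq
  rw [map_mul, Matrix.aeval_self_charpoly, zero_mul, map_pow, map_sub, map_pow, aeval_X,
    map_one] at h6
  exact h6

lemma unip {K : Type} [Field K] {N : ℕ} (A B : GL (Fin N) K) (S : Set ℕ) (hS : S.Infinite)
    (h : ∀ p ∈ S, IsConj B (A ^ p)) : ∃ M : ℕ, 0 < M ∧ ((A ^ M).val - 1) ^ N = 0 := by
  let φ := Matrix.GeneralLinearGroup.map (n := Fin N) (algebraMap K (AlgebraicClosure K))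
  obtain ⟨M, hM, h1⟩ := unip_alg (φ A).val (φ B).val (φ A).isUnit S hS (by
    intro p hp
    have h2 : IsConj (φ B) (φ A ^ p) := by
      rw [← map_pow]
      exact φ.map_isConj (h p hp)
    obtain ⟨c, hc⟩ := isConj_iff.1 h2
    have h3 : (φ A).val ^ p = c.val * (φ B).val * (c⁻¹).val := by
      rw [← Units.val_pow_eq_pow_val, ← hc, Units.val_mul, Units.val_mul]
    rw [h3]
    exact spectrum.units_conjugate)
  refine ⟨M, hM, ?_⟩
  have h4 : (algebraMap K (AlgebraicClosure K)).mapMatrix (((A ^ M).val - 1) ^ N) = 0 := by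
    rw [map_pow, map_sub, map_one, Units.val_pow_eq_pow_val, map_pow]
    exact h1
  ext i j
  have h5 := congrFun (congrFun h4 i) j
  exact (algebraMap K (AlgebraicClosure K)).injective
    (h5.trans (map_zero (algebraMap K (AlgebraicClosure K))).symm)

/-- A unipotent matrix of finite order is `1`. -/
lemma unip_one {n : ℕ} {N : ℕ} (U : Matrix (Fin n) (Fin n) ℚ) (hU : (U - 1) ^ N = 0) (k : ℕ)
    (hk : 0 < k) (h : U ^ k = 1) : U = 1 := by
  have h1 : IsCoprime (∑ i ∈ Finset.range k, X ^ i : ℚ[X]) (X - C 1) := by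
    refine (((irreducible_X_sub_C (1 : ℚ)).coprime_iff_not_dvd).2 ?_).symm
    rw [dvd_iff_isRoot, IsRoot.def, eval_finsetSum]
    simp only [eval_pow, eval_X, one_pow, Finset.sum_const, Finset.card_range, nsmul_eq_mul,
      mul_one]
    exact_mod_cast hk.ne'
  obtain ⟨a, b, hab⟩ := h1.pow_right (n := N)
  have h2 := congrArg (fun f => aeval U f * (U - 1)) hab
  simp only [map_add, map_mul, map_pow, map_sub, aeval_X, map_one, hU, mul_zero,
    add_zero, one_mul, mul_assoc, map_sum, geom_sum_mul, h, sub_self] at h2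
  exact (sub_eq_zero.1 h2.symm)

end LJK

open LJK in
theorem t_LJK (hspc : S_SPC) (hlcj : S_LCJ) : S_LJK := by
  intro Γ _ _ K _ _ N ρ hρ y hy z
  by_contra hinf
  set S : Set ℕ := {p : ℕ | p.Prime ∧ IsConj z (y ^ p)} with hS
  have hS' : S.Infinite := hinf
  obtain ⟨M, hM, hu⟩ := unip (ρ y) (ρ z) S hS' (by
    intro p hp
    rw [← map_pow]
    exact ρ.map_isConj hp.2)
  have hyM : y ^ M ≠ 1 := fun h => hy (isOfFinOrder_iff_pow_eq_one.2 ⟨M, hM, h⟩)
  obtain ⟨N', ψ, h1, -, h3⟩ := hspc Γ K N ρ hρ (y ^ M) hyM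
  have h4 : ((ψ (y ^ M)).val - 1) ^ N = 0 := h3 _ (by rw [map_pow]; exact hu)
  have h5 : ¬ IsOfFinOrder (ψ y) := by
    intro hf
    obtain ⟨k, hk, hk'⟩ := isOfFinOrder_iff_pow_eq_one.1 hf
    apply h1
    apply Units.ext
    refine unip_one _ h4 k hk ?_
    rw [← Units.val_pow_eq_pow_val, ← map_pow, ← pow_mul, mul_comm, pow_mul, map_pow, map_pow,
      hk', one_pow, Units.val_one]
  have h6 := hlcj ψ.range N' ψ.range.subtype Subtype.val_injective (ψ.rangeRestrict y) (by
    intro hf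
    exact h5 (ψ.range.subtype.isOfFinOrder hf)) (ψ.rangeRestrict z)
  refine hS' (h6.subset fun p hp => ⟨hp.1, ?_⟩)
  rw [← map_pow]
  exact ψ.rangeRestrict.map_isConj hp.2

end Pool.Agent.FJA
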