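import Pool.Agent.FJA.StT

/-!
# Module TRA: the Dennis trace and the class of `1`
-/

set_option autoImplicit false

open Matrix Pool.Agent.WhK Pool.Agent.Lib25

noncomputable section

namespace Pool.Agent.FJA

namespace TRA

variable {G : Type} [Group G]

open Classical in
/-- The restriction of the family `F` to the conjugacy class `C`. -/
def res (C : ConjClasses G) {M : ℕ} (F : (Fin M → G) → G → ℤ) : (Fin M → G) → G → ℤ :=
  fun a y => if ConjClasses.mk y = C then F a y else 0

lemma res_pos {C : ConjClasses G} {M : ℕ} (F : (Fin M → G) → G → ℤ) (a : Fin M → G) {y : G}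
    (h : ConjClasses.mk y = C) : res C F a y = F a y := by
  unfold res
  rw [if_pos h]

lemma res_neg {C : ConjClasses G} {M : ℕ} (F : (Fin M → G) → G → ℤ) (a : Fin M → G) {y : G}
    (h : ¬ ConjClasses.mk y = C) : res C F a y = 0 := by
  unfold res
  rw [if_neg h]

lemma res_ne {C : ConjClasses G} {M : ℕ} {F : (Fin M → G) → G → ℤ} {a : Fin M → G} {y : G}
    (h : res C F a y ≠ 0) : ConjClasses.mk y = C := by
  by_contra hP
  exact h (res_neg F a hP)

lemma mk_conj (g y : G) : ConjClasses.mk (g * y * g⁻¹) = ConjClasses.mk y :=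
  ConjClasses.mk_eq_mk_iff_isConj.2 (isConj_iff.2 ⟨g, rfl⟩).symm

lemma res_coc {n : ℕ} {F : (Fin (n + 1) → G) → G → ℤ} (hF : CocFam n F) (C : ConjClasses G) :
    CocFam n (res C F) := by
  constructor
  · intro g a y
    by_cases h : ConjClasses.mk y = C
    · rw [res_pos F _ h, res_pos F _ ((mk_conj g y).trans h), hF.inv]
    · rw [res_neg F _ h, res_neg F _ (fun hh => h ((mk_conj g y).symm.trans hh))]
  · intro a y
    by_cases h : ConjClasses.mk y = C
    · rw [← hF.coc a y]
      exact Finset.sum_congr rfl fun i _ => by rw [res_pos F _ h]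
    · exact Finset.sum_eq_zero fun i _ => by rw [res_neg F _ h, mul_zero]

/-- The value of the family `F` on the chain `z`. -/
def val {n r : ℕ} (z : (Fin (n + 1) → (Matrix (Fin r) (Fin r) (MonoidAlgebra ℤ G))ˣ) →₀ ℚ)
    (F : (Fin (n + 1) → G) → G → ℤ) : ℚ :=
  ∑ X ∈ z.support, z X * ((dennis F X : ℤ) : ℚ)

lemma val_congr {n r : ℕ}
    (z : (Fin (n + 1) → (Matrix (Fin r) (Fin r) (MonoidAlgebra ℤ G))ˣ) →₀ ℚ)
    {F F' : (Fin (n + 1) → G) → G → ℤ}
    (h : ∀ X ∈ z.support, ∀ γ, dcoef X γ ≠ (0 : ℤ) →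
      F (fpr γ) (List.ofFn γ).prod = F' (fpr γ) (List.ofFn γ).prod) : val z F = val z F' := by
  unfold val
  refine Finset.sum_congr rfl fun X hX => ?_
  have : (dennis F X : ℤ) = dennis F' X := by
    unfold dennis
    refine finsum_congr fun γ => ?_
    by_cases h0 : dcoef X γ = (0 : ℤ)
    · rw [h0, zero_mul, zero_mul]
    · rw [h X hX γ h0]
  rw [this]

lemma val_zero {n r : ℕ}
    (z : (Fin (n + 1) → (Matrix (Fin r) (Fin r) (MonoidAlgebra ℤ G))ˣ) →₀ ℚ)
    {F : (Fin (n + 1) → G) → G → ℤ} (h : ∀ a y, F a y = 0) : val z F = 0 := by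
  unfold val
  refine Finset.sum_eq_zero fun X _ => ?_
  have : (dennis F X : ℤ) = 0 := by
    unfold dennis
    refine finsum_eq_zero_of_forall_eq_zero fun γ => ?_
    rw [h, Int.cast_zero, mul_zero]
  rw [this, Int.cast_zero, mul_zero]

lemma val_sum (hdez : S_DEZ) {n r : ℕ}
    (z : (Fin (n + 1) → (Matrix (Fin r) (Fin r) (MonoidAlgebra ℤ G))ˣ) →₀ ℚ)
    {I : Type} (s : Finset I) (F : I → (Fin (n + 1) → G) → G → ℤ) :
    val z (fun a y => ∑ i ∈ s, F i a y) = ∑ i ∈ s, val z (F i) := by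
  unfold val
  rw [Finset.sum_comm]
  refine Finset.sum_congr rfl fun X _ => ?_
  rw [hdez.2.2 ℤ G n r I s F X, Int.cast_sum, Finset.mul_sum]

/-- The value of an admissible family is the value of its restriction to the class of `1`. -/
lemma val_one (hdez : S_DEZ) (htfi : S_TFI) (hbfl : S_BFL) (hpdl : S_PDL)
    (hpdg : ∀ n : ℕ, n ≤ 2 → ∀ (G : Type) [Group G], Pdg G n) {m r : ℕ}
    (z : (Fin (m + 1 + 1) → (Matrix (Fin r) (Fin r) (MonoidAlgebra ℤ G))ˣ) →₀ ℚ)
    (hz : z ∈ cyc ℚ ((Matrix (Fin r) (Fin r) (MonoidAlgebra ℤ G))ˣ) (m + 1))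
    {F : (Fin (m + 1 + 1) → G) → G → ℤ} (hF : AdmF (m + 1) F) :
    val z F = val z (res (ConjClasses.mk (1 : G)) F) := by
  classical
  have hfin : ∀ X : Fin (m + 1 + 1) → (Matrix (Fin r) (Fin r) (MonoidAlgebra ℤ G))ˣ,
      {γ : Fin (m + 1 + 1) → G | dcoef X γ ≠ (0 : ℤ)}.Finite := fun X => hdez.1 ℤ G (m + 1) r X
  let s : Finset (ConjClasses G) :=
    insert (ConjClasses.mk (1 : G))
      (z.support.biUnion fun X =>
        ((hfin X).toFinset.image fun γ => ConjClasses.mk (List.ofFn γ).prod))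
  have h1s : ConjClasses.mk (1 : G) ∈ s := Finset.mem_insert_self _ _
  have hs : ∀ X ∈ z.support, ∀ γ, dcoef X γ ≠ (0 : ℤ) →
      ConjClasses.mk (List.ofFn γ).prod ∈ s := by
    intro X hX γ hγ
    refine Finset.mem_insert_of_mem (Finset.mem_biUnion.2 ⟨X, hX, Finset.mem_image.2 ⟨γ, ?_, rfl⟩⟩)
    exact (Set.Finite.mem_toFinset _).2 hγ
  have key : val z F = ∑ C ∈ s, val z (res C F) := by
    rw [← val_sum hdez z s (fun C => res C F)]
    refine val_congr z fun X hX γ hγ => ?_
    have hmem := hs X hX γ hγ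
    have h2 : ∑ C ∈ s, res C F (fpr γ) (List.ofFn γ).prod =
        res (ConjClasses.mk (List.ofFn γ).prod) F (fpr γ) (List.ofFn γ).prod :=
      Finset.sum_eq_single_of_mem _ hmem fun C _ hC => res_neg F _ (fun h => hC h.symm)
    rw [h2, res_pos F _ rfl]
  have hzero : ∀ C ∈ s, C ≠ ConjClasses.mk (1 : G) → val z (res C F) = 0 := by
    intro C _ hC
    obtain ⟨y0, rfl⟩ := ConjClasses.mk_surjective C
    have hy0 : y0 ≠ 1 := by
      rintro rfl
      exact hC rfl
    have hcj : ∀ y : G, ConjClasses.mk y = ConjClasses.mk y0 → ∃ g : G, g * y0 * g⁻¹ = y := by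
      intro y hy
      exact isConj_iff.1 (ConjClasses.mk_eq_mk_iff_isConj.1 hy).symm
    have hmv : ∀ (g : G) (a : Fin (m + 1 + 1) → G),
        F a (g * y0 * g⁻¹) = F (fun i => g⁻¹ * a i) y0 := by
      intro g a
      rw [← hF.fam.inv g (fun i => g⁻¹ * a i) y0]
      congr 1
      funext i
      rw [mul_inv_cancel_left]
    by_cases hne : ∃ a, F a y0 ≠ 0
    · have hcoc := res_coc hF.fam (ConjClasses.mk y0)
      rcases hF.adm y0 hy0 hne with ⟨hfo, hp⟩ | ⟨hinf, hpow, hroot⟩
      · have hpos : 0 < orderOf y0 := hfo.orderOf_pos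
        have hne1 : orderOf y0 ≠ 1 := fun h => hy0 (orderOf_eq_one_iff.1 h)
        have hord : ∀ a y, res (ConjClasses.mk y0) F a y ≠ 0 → orderOf y = orderOf y0 := by
          intro a y h
          obtain ⟨g, rfl⟩ := hcj y (res_ne h)
          have := orderOf_injective (MulAut.conj g).toMonoidHom (MulAut.conj g).injective y0
          simpa using this
        rcases hp with h3 | ⟨p, hp, hpd, hpb⟩
        · have hF2 : Fact (Nat.minFac (orderOf y0)).Prime := ⟨Nat.minFac_prime hne1⟩
          refine htfi G m (orderOf y0) hpos (Nat.minFac (orderOf y0)) (Nat.minFac_dvd _) ?_ _ hcoc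
            hord r z hz
          intro n0 hn0 F' hF' B hB hB' e
          exact hpdg m (by omega) G n0 hn0 _ F' hF' B hB hB' e
        · have hF2 : Fact p.Prime := ⟨hp⟩
          exact htfi G m (orderOf y0) hpos p hpd (hpdl G p hpb m) _ hcoc hord r z hz
      · refine hbfl G m y0 hroot _ hcoc ?_ ?_ r z hz
        · intro a y h
          exact ConjClasses.mk_eq_mk_iff_isConj.1 (res_ne h)
        · intro t a y
          by_cases hy : ConjClasses.mk y = ConjClasses.mk y0
          · rw [res_pos F _ hy, res_pos F _ hy]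
            obtain ⟨g, rfl⟩ := hcj y hy
            rw [hmv, hmv, ← hpow t (fun i => g⁻¹ * a i)]
            congr 1
            funext i
            rw [conj_zpow]
            simp only [mul_assoc, inv_mul_cancel_left]
          · rw [res_neg F _ hy, res_neg F _ hy]
    · push Not at hne
      refine val_zero z fun a y => ?_
      by_cases hy : ConjClasses.mk y = ConjClasses.mk y0
      · rw [res_pos F _ hy]
        obtain ⟨g, rfl⟩ := hcj y hy
        rw [hmv, hne]
      · exact res_neg F _ hy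
  rw [key]
  exact Finset.sum_eq_single_of_mem _ h1s hzero

end TRA

open TRA in
/-- TRA: the Dennis trace of a cycle of matrices over `ℤ[G]` is the trace of a cycle of `G`. -/
theorem t_TRA (hdez : S_DEZ) (htfi : S_TFI) (hbfl : S_BFL) (hwon : S_WON) (hpdl : S_PDL)
    (hpdg : ∀ n : ℕ, n ≤ 2 → ∀ (G : Type) [Group G], Pdg G n) : S_TRA := by
  intro G _ n r hn z hz
  obtain ⟨m, rfl⟩ : ∃ m, n = m + 1 := ⟨n - 1, by omega⟩
  obtain ⟨w, hw, hwF⟩ := hwon G m r z hz
  refine ⟨w, hw, ?_⟩
  intro F hF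
  have h1 := val_one hdez htfi hbfl hpdl hpdg z hz hF
  have h2 := hwF (res (ConjClasses.mk (1 : G)) F) (fun a y h =>
    isConj_one_left.1 (ConjClasses.mk_eq_mk_iff_isConj.1 (res_ne h)))
  have h3 : (w.sum fun a q => q * ((res (ConjClasses.mk (1 : G)) F a 1 : ℤ) : ℚ)) =
      w.sum fun a q => q * ((F a 1 : ℤ) : ℚ) :=
    Finset.sum_congr rfl fun a _ => by
      simp only [res_pos F a (rfl : ConjClasses.mk (1 : G) = ConjClasses.mk (1 : G))]
  exact (h1.trans h2).trans h3

end Pool.Agent.FJA
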