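import Mathlib

/-!
# Recorded paths

Let `Γ` be a group and `V` a set of labels.  A *recorded path* `μ : Rec Γ V` is an element
`μ.val` of `Γ` (the endpoint of a path which starts at `1`) together with, for every label
`v : V`, a list `μ.lst v` of elements of `Γ` (the positions which were recorded with the label
`v` on the way).  Recorded paths form a monoid under concatenation.

* `Rec.inc γ` is the step `γ` without any record; `Rec.inc : Γ →* Rec Γ V`;
* `Rec.om v` records the present position (`1`) with the label `v`;
* `Rec.res f`, for a map `f : V' → V` of labels, only keeps the lists with labels `f v'`;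
* `Rec.valHom` forgets all the records.

For `k` a field, `lin k φ : k[M] → k` is the linear extension of a function `φ : M → ℚ`.
`UX X`, for invertible matrices `X 0, …, X M` over `k[Γ]`, is the matrix
`∏ i, X i * om i * (X i)⁻¹` over `k[Rec Γ (Fin (M + 1))]`, and `TX φ N X` is the value of `lin φ`
on the trace of its `N`-th power.
-/

set_option autoImplicit false

open Matrix

namespace Pool.Agent.FJA

universe u v w x

/-- Recorded paths in the group `Γ` with labels in `V`. -/
@[ext] structure Rec (Γ : Type u) (V : Type v) where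
  /-- the recorded positions -/
  lst : V → List Γ
  /-- the endpoint -/
  val : Γ

namespace Rec

variable {Γ : Type u} [Group Γ] {V : Type v} {V' : Type w} {V'' : Type x}

instance : Monoid (Rec Γ V) where
  mul a b := ⟨fun i => a.lst i ++ (b.lst i).map (a.val * ·), a.val * b.val⟩
  one := ⟨fun _ => [], 1⟩
  mul_assoc a b c := by
    apply Rec.ext
    · funext i
      change (a.lst i ++ (b.lst i).map (a.val * ·)) ++ (c.lst i).map (a.val * b.val * ·) =
        a.lst i ++ (b.lst i ++ (c.lst i).map (b.val * ·)).map (a.val * ·)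
      rw [List.map_append, List.map_map, List.append_assoc]
      congr 3
      funext t
      exact mul_assoc _ _ _
    · exact mul_assoc _ _ _
  one_mul a := by
    apply Rec.ext
    · funext i
      change [] ++ (a.lst i).map ((1 : Γ) * ·) = a.lst i
      simp
    · exact one_mul _
  mul_one a := by
    apply Rec.ext
    · funext i
      change a.lst i ++ [] = a.lst i
      simp
    · exact mul_one _

@[simp] theorem mul_lst (a b : Rec Γ V) (i : V) :
    (a * b).lst i = a.lst i ++ (b.lst i).map (a.val * ·) := rfl

@[simp] theorem mul_val (a b : Rec Γ V) : (a * b).val = a.val * b.val := rfl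

@[simp] theorem one_lst (i : V) : (1 : Rec Γ V).lst i = [] := rfl

@[simp] theorem one_val : (1 : Rec Γ V).val = 1 := rfl

/-- A step without record. -/
def inc : Γ →* Rec Γ V where
  toFun γ := ⟨fun _ => [], γ⟩
  map_one' := rfl
  map_mul' _ _ := rfl

@[simp] theorem inc_lst (γ : Γ) (i : V) : (inc γ : Rec Γ V).lst i = [] := rfl

@[simp] theorem inc_val (γ : Γ) : (inc γ : Rec Γ V).val = γ := rfl

/-- Record the present position with the label `v`. -/
def om [DecidableEq V] (v : V) : Rec Γ V := ⟨fun i => if i = v then [1] else [], 1⟩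

@[simp] theorem om_lst [DecidableEq V] (v i : V) :
    (om v : Rec Γ V).lst i = if i = v then [1] else [] := rfl

@[simp] theorem om_val [DecidableEq V] (v : V) : (om v : Rec Γ V).val = 1 := rfl

/-- Restriction of the records along a map of labels. -/
def res (f : V' → V) : Rec Γ V →* Rec Γ V' where
  toFun μ := ⟨fun i => μ.lst (f i), μ.val⟩
  map_one' := rfl
  map_mul' _ _ := rfl

@[simp] theorem res_lst (f : V' → V) (μ : Rec Γ V) (i : V') : (res f μ).lst i = μ.lst (f i) := rfl

@[simp] theorem res_val (f : V' → V) (μ : Rec Γ V) : (res f μ).val = μ.val := rfl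

@[simp] theorem res_inc (f : V' → V) (γ : Γ) : res f (inc γ : Rec Γ V) = inc γ := rfl

theorem res_om_of_ne [DecidableEq V] (f : V' → V) (v : V) (h : ∀ i, f i ≠ v) :
    res f (om v : Rec Γ V) = 1 := by
  apply Rec.ext
  · funext i
    exact if_neg (h i)
  · rfl

theorem res_om [DecidableEq V] [DecidableEq V'] (f : V' → V) (hf : Function.Injective f) (v : V') :
    res f (om (f v) : Rec Γ V) = om v := by
  apply Rec.ext
  · funext i
    simp only [res_lst, om_lst, hf.eq_iff]
  · rfl

/-- Forget the records. -/
def valHom : Rec Γ V →* Γ where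
  toFun := val
  map_one' := rfl
  map_mul' _ _ := rfl

@[simp] theorem valHom_apply (μ : Rec Γ V) : valHom μ = μ.val := rfl

end Rec

/-- The linear extension `k[M] → k` of a function `M → ℚ`. -/
noncomputable def lin (k : Type*) [Field k] {M : Type*} (φ : M → ℚ) : MonoidAlgebra k M →ₗ[k] k :=
  (Finsupp.linearCombination k (fun μ => ((φ μ : ℚ) : k))) ∘ₗ
    (MonoidAlgebra.coeffLinearEquiv k).toLinearMap

theorem lin_apply (k : Type*) [Field k] {M : Type*} (φ : M → ℚ) (x : MonoidAlgebra k M) :
    lin k φ x = x.coeff.sum fun μ c => c * ((φ μ : ℚ) : k) := rfl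

theorem lin_single (k : Type*) [Field k] {M : Type*} (φ : M → ℚ) (μ : M) (c : k) :
    lin k φ (MonoidAlgebra.single μ c) = c * ((φ μ : ℚ) : k) := by
  rw [lin_apply, MonoidAlgebra.coeff_single, Finsupp.sum_single_index (by simp)]

section UX

variable (k : Type w) [Field k] {Γ : Type u} [Group Γ] {ι : Type x} [Fintype ι] [DecidableEq ι]

/-- Matrices over `k[Γ]` as matrices over the algebra of recorded paths. -/
noncomputable def jm (V : Type v) : Matrix ι ι (MonoidAlgebra k Γ) →+*
    Matrix ι ι (MonoidAlgebra k (Rec Γ V)) :=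
  (MonoidAlgebra.mapDomainRingHom k (Rec.inc (Γ := Γ) (V := V))).mapMatrix

/-- The scalar matrix which records the present position with the label `v`. -/
noncomputable def wm (ι : Type x) [Fintype ι] [DecidableEq ι] {V : Type v} [DecidableEq V] (v : V) :
    Matrix ι ι (MonoidAlgebra k (Rec Γ V)) :=
  Matrix.diagonal fun _ => MonoidAlgebra.single (Rec.om v) 1

variable {k}

/-- The matrix `∏ i, X i * om i * (X i)⁻¹` of the closed paths `1 → X 0 → 1 → X 1 → ⋯ → 1`. -/
noncomputable def UX {M : ℕ} (X : Fin M → (Matrix ι ι (MonoidAlgebra k Γ))ˣ) :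
    Matrix ι ι (MonoidAlgebra k (Rec Γ (Fin M))) :=
  (List.ofFn fun i => jm k (Fin M) (X i : Matrix ι ι (MonoidAlgebra k Γ)) * wm k ι i *
    jm k (Fin M) ((X i)⁻¹ : (Matrix ι ι (MonoidAlgebra k Γ))ˣ)).prod

/-- The `N`-fold trace of a simplex with respect to the function `φ` on recorded paths. -/
noncomputable def TX {M : ℕ} (φ : Rec Γ (Fin M) → ℚ) (N : ℕ)
    (X : Fin M → (Matrix ι ι (MonoidAlgebra k Γ))ˣ) : k :=
  lin k φ (Matrix.trace (UX X ^ N))

end UX

end Pool.Agent.FJA
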