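import Pool.Agent.FJA.Core5

/-!
# Relations between the symbols `[h, c, u]`
-/

set_option autoImplicit false
set_option linter.unusedSectionVars false

open Matrix Pool.Agent.WhK Pool.Agent.Lib25 CategoryTheory

noncomputable section

namespace Pool.Agent.FJA

variable {m : ℕ} {G : Type} [Group G]

theorem rel1_mk {x : Sym1 m G →₀ ℚ} (h : Rel1 m G x) : (RelT m G).mkQ x = 0 := by
  rw [Submodule.mkQ_apply, Submodule.Quotient.mk_eq_zero]
  exact Submodule.subset_span h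

theorem sym1_def (h : G) (c : HQ m (Cen h)) (u : (MonoidAlgebra ℤ G)ˣ) :
    sym1 h c u = (RelT m G).mkQ (sg1 h c u) := rfl

theorem sym1_invalid (h : G) (c : HQ m (Cen h)) (u : (MonoidAlgebra ℤ G)ˣ) (hv : ¬ Adm1 h u) :
    sym1 h c u = 0 := rel1_mk (Rel1.invalid h c u hv)

theorem sym1_add (h : G) (c c' : HQ m (Cen h)) (u : (MonoidAlgebra ℤ G)ˣ) :
    sym1 h (c + c') u = sym1 h c u + sym1 h c' u := by
  have h1 := rel1_mk (Rel1.add h c c' u)
  rw [map_sub, map_sub, sub_sub] at h1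
  exact sub_eq_zero.1 h1

theorem sym1_smul (h : G) (q : ℚ) (c : HQ m (Cen h)) (u : (MonoidAlgebra ℤ G)ˣ) :
    sym1 h (q • c) u = q • sym1 h c u := by
  have h1 := rel1_mk (Rel1.smul h q c u)
  rw [map_sub, map_smul] at h1
  exact sub_eq_zero.1 h1

/-- The symbol as a linear map in `c`. -/
def sym1L (m : ℕ) {G : Type} [Group G] (h : G) (u : (MonoidAlgebra ℤ G)ˣ) :
    HQ m (Cen h) →ₗ[ℚ] Src1 m G where
  toFun c := sym1 h c u
  map_add' c c' := sym1_add h c c' u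
  map_smul' q c := sym1_smul h q c u

theorem sym1L_apply (h : G) (u : (MonoidAlgebra ℤ G)ˣ) (c : HQ m (Cen h)) :
    sym1L m h u c = sym1 h c u := rfl

theorem sym1_mul (h : G) (c : HQ m (Cen h)) (u v : (MonoidAlgebra ℤ G)ˣ) (hu : Adm1 h u)
    (hv : Adm1 h v) : sym1 h c (u * v) = sym1 h c u + sym1 h c v := by
  have h1 := rel1_mk (Rel1.mul h c u v hu hv)
  rw [map_sub, map_sub, sub_sub] at h1
  exact sub_eq_zero.1 h1

theorem Adm1.one {h : G} (hh : IsOfFinOrder h) : Adm1 h (1 : (MonoidAlgebra ℤ G)ˣ) :=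
  ⟨hh, Subgroup.one_mem _⟩

theorem Adm1.mul {h : G} {u v : (MonoidAlgebra ℤ G)ˣ} (hu : Adm1 h u) (hv : Adm1 h v) :
    Adm1 h (u * v) := ⟨hu.1, Subgroup.mul_mem _ hu.2 hv.2⟩

theorem Adm1.inv {h : G} {u : (MonoidAlgebra ℤ G)ˣ} (hu : Adm1 h u) : Adm1 h u⁻¹ :=
  ⟨hu.1, Subgroup.inv_mem _ hu.2⟩

theorem Adm1.pow {h : G} {u : (MonoidAlgebra ℤ G)ˣ} (hu : Adm1 h u) (k : ℕ) : Adm1 h (u ^ k) :=
  ⟨hu.1, Subgroup.pow_mem _ hu.2 k⟩

theorem sym1_one (h : G) (c : HQ m (Cen h)) : sym1 h c (1 : (MonoidAlgebra ℤ G)ˣ) = 0 := by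
  by_cases hh : IsOfFinOrder h
  · have h1 := sym1_mul h c 1 1 (Adm1.one hh) (Adm1.one hh)
    rw [mul_one] at h1
    exact left_eq_add.1 h1
  · exact sym1_invalid h c 1 fun hv => hh hv.1

theorem sym1_inv (h : G) (c : HQ m (Cen h)) (u : (MonoidAlgebra ℤ G)ˣ) :
    sym1 h c u⁻¹ = - sym1 h c u := by
  by_cases hv : Adm1 h u
  · have h1 := sym1_mul h c u⁻¹ u hv.inv hv
    rw [inv_mul_cancel, sym1_one] at h1
    exact eq_neg_of_add_eq_zero_left h1.symm
  · rw [sym1_invalid h c u hv, sym1_invalid h c u⁻¹ fun h1 => hv ?_, neg_zero]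
    have h2 := h1.inv
    rwa [inv_inv] at h2

theorem sym1_pow (h : G) (c : HQ m (Cen h)) (u : (MonoidAlgebra ℤ G)ˣ) (hv : Adm1 h u) (k : ℕ) :
    sym1 h c (u ^ k) = (k : ℚ) • sym1 h c u := by
  induction k with
  | zero => rw [pow_zero, sym1_one, Nat.cast_zero, zero_smul]
  | succ k ih => rw [pow_succ, sym1_mul h c _ _ (hv.pow k) hv, ih, Nat.cast_succ, add_smul, one_smul]

theorem sym1_conj (h x : G) (c : HQ m (Cen h)) (u : (MonoidAlgebra ℤ G)ˣ) :
    sym1 (x * h * x⁻¹) (HQ.map m (cHom x (cHom_conj x h)) c) (gU G x * u * (gU G x)⁻¹) =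
      sym1 h c u := by
  have h1 := rel1_mk (Rel1.conj h x c u)
  rw [map_sub] at h1
  exact sub_eq_zero.1 h1

theorem sym1_res (h h' : G) (hh : h' ∈ Subgroup.zpowers h) (c : HQ m (Cen h))
    (u : (MonoidAlgebra ℤ G)ˣ) (hf : IsOfFinOrder h) (hv : Adm1 h' u) :
    sym1 h' (HQ.map m (cHom 1 (cHom_pow h hh)) c) u = sym1 h c u := by
  have h1 := rel1_mk (Rel1.res h h' hh c u hf hv)
  rw [map_sub] at h1
  exact sub_eq_zero.1 h1

/-- Every element of `Src1 m G` is a linear combination of symbols. -/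
theorem exists_rep1 (x : Src1 m G) : ∃ y : Sym1 m G →₀ ℚ,
    x = ∑ s ∈ y.support, y s • sym1 s.h s.c s.u := by
  obtain ⟨y, rfl⟩ := Submodule.Quotient.mk_surjective (RelT m G) x
  refine ⟨y, ?_⟩
  have h1 : y = ∑ s ∈ y.support, Finsupp.single s (y s) := (Finsupp.sum_single y).symm
  have h2 : (RelT m G).mkQ y = ∑ s ∈ y.support, (RelT m G).mkQ (Finsupp.single s (y s)) := by
    conv_lhs => rw [h1]
    rw [map_sum]
  refine Eq.trans h2 (Finset.sum_congr rfl fun s _ => ?_)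
  have h4 : Finsupp.single s (y s) = y s • Finsupp.single s (1 : ℚ) := by
    rw [Finsupp.smul_single, smul_eq_mul, mul_one]
  exact (congrArg (RelT m G).mkQ h4).trans ((RelT m G).mkQ.map_smul (y s) (Finsupp.single s 1))

/-! ## Units -/

theorem unS_mono {h h' : G} (hh : h' ∈ Subgroup.zpowers h) : UnS h' ≤ UnS h := by
  rintro _ ⟨v, rfl⟩
  have hle : Subgroup.zpowers h' ≤ Subgroup.zpowers h := Subgroup.zpowers_le.2 hh
  refine ⟨Units.map (MonoidAlgebra.mapDomainRingHom ℤ (Subgroup.inclusion hle) :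
    MonoidAlgebra ℤ (Subgroup.zpowers h') →* MonoidAlgebra ℤ (Subgroup.zpowers h)) v, ?_⟩
  apply Units.ext
  change MonoidAlgebra.mapDomain _ (MonoidAlgebra.mapDomain _ v.val) =
    MonoidAlgebra.mapDomain _ v.val
  have h1 : ∀ w : MonoidAlgebra ℤ (Subgroup.zpowers h'),
      MonoidAlgebra.mapDomain (Subgroup.zpowers h).subtype
        (MonoidAlgebra.mapDomain (Subgroup.inclusion hle) w) =
      MonoidAlgebra.mapDomain (Subgroup.zpowers h').subtype w := by
    intro w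
    induction w using MonoidAlgebra.induction_linear with
    | zero => simp
    | add x y hx hy => rw [MonoidAlgebra.mapDomain_add, MonoidAlgebra.mapDomain_add, hx, hy,
        MonoidAlgebra.mapDomain_add]
    | single g c => rw [MonoidAlgebra.mapDomain_single, MonoidAlgebra.mapDomain_single,
        MonoidAlgebra.mapDomain_single]; rfl
  exact h1 _

end Pool.Agent.FJA
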