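import Pool.Agent.FJA.RtDennis
import Pool.Agent.FJA.RtChern

/-!
# Admissible families, with conditions for the finitely generated subgroups
-/

set_option autoImplicit false

noncomputable section

namespace Pool.Agent.FJA

/-- Admissible families `F` of rational cochains: `F` is invariant, and for every finitely generated subgroup
`H` of `G` and `1 ≠ y ∈ H` the restriction of `F (·; y)` to `H` is admissible. -/
def AdmRG {G : Type} [Group G] (n : ℕ) (F : (Fin (n + 1) → G) → G → ℚ) : Prop :=
  (∀ (g : G) (a : Fin (n + 1) → G) (y : G), F (fun i => g * a i) (g * y * g⁻¹) = F a y) ∧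
  ∀ H : Subgroup G, H.FG → ∀ y : H, y ≠ 1 →
    AdmRAt n y (fun a : Fin (n + 1) → H => F (fun i => (a i : G)) (y : G))

/-- Admissible families for `R[G]`. -/
structure AdmS (R : Type) [CommRing R] {G : Type} [Group G] (n : ℕ) (F : (Fin (n + 1) → G) → G → ℚ) : Prop where
  inv : ∀ (g : G) (a : Fin (n + 1) → G) (y : G), F (fun i => g * a i) (g * y * g⁻¹) = F a y
  adm : ∀ H : Subgroup G, H.FG → ∀ y : H,
    AdmSY R n y (fun a : Fin (n + 1) → H => F (fun i => (a i : G)) (y : G))

end Pool.Agent.FJA
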