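import Pool.Agent.FJA.SDefs2

/-!
# The definitions for the statement in all degrees, with opaque types

The same definitions as in `SDefs.lean` and `SDefs2.lean`; the quotient spaces are definitions with
named instances.

* `HQ m Γ = H_m(Γ; ℚ)`, `HZ m Γ = H_m(Γ; ℤ)`: group homology (Mathlib).
* `Kq m R`, for `m ≥ 1`: the indecomposable part of `H_m(GL(R); ℚ)`, that is, the sum of the
  `H_m(GL_r(R); ℚ)` modulo `(X ⊕ Y)_* c = X_* c + Y_* c` for `c` in `H_m(GL_a(R) × GL_b(R); ℚ)`.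
* `Kb n R`, for `n ≥ 0`: the cokernel of `Kq (n+1) R[t] ⊕ Kq (n+1) R[t⁻¹] → Kq (n+1) R[t,t⁻¹]`.
* `SrcN n G`: the part with coefficients `K_{-1}` of the source of the assembly map in degree `n`.
-/

set_option autoImplicit false

open Matrix Pool.Agent.WhK Pool.Agent.Lib25 CategoryTheory

noncomputable section

namespace Pool.Agent.FJA

/-- The direct sum over `r` of the homology groups `H_m(GL_r(R); ℚ)`. -/
def Hgl (m : ℕ) (R : Type) [Ring R] : Type := DirectSum ℕ fun r => HQ m (GLn R r)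

instance Hgl.acg (m : ℕ) (R : Type) [Ring R] : AddCommGroup (Hgl m R) :=
  (inferInstance : AddCommGroup (DirectSum ℕ fun r => HQ m (GLn R r)))

instance Hgl.mod (m : ℕ) (R : Type) [Ring R] : Module ℚ (Hgl m R) :=
  (inferInstance : Module ℚ (DirectSum ℕ fun r => HQ m (GLn R r)))

/-- The class in `Hgl m R` of an element of `H_m(GL_r(R); ℚ)`. -/
def Hgl.of (m : ℕ) (R : Type) [Ring R] (r : ℕ) : HQ m (GLn R r) →ₗ[ℚ] Hgl m R :=
  DirectSum.lof ℚ ℕ (fun r => HQ m (GLn R r)) r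

/-- The relations `(X ⊕ Y)_* c = X_* c + Y_* c`, for `c` in `H_m(GL_a(R) × GL_b(R); ℚ)`. -/
def Hgl.rel (m : ℕ) (R : Type) [Ring R] : Submodule ℚ (Hgl m R) :=
  Submodule.span ℚ {x | ∃ (a b : ℕ) (c : HQ m (GLn R a × GLn R b)),
    x = Hgl.of m R (a + b) (HQ.map m (bsumHom R a b) c) -
      Hgl.of m R a (HQ.map m (MonoidHom.fst _ _) c) -
      Hgl.of m R b (HQ.map m (MonoidHom.snd _ _) c)}

/-- `K_m(R) ⊗ ℚ`, for `m ≥ 1`, as the indecomposable part of `H_m(GL(R); ℚ)`. -/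
def Kq (m : ℕ) (R : Type) [Ring R] : Type := Hgl m R ⧸ Hgl.rel m R

instance Kq.acg (m : ℕ) (R : Type) [Ring R] : AddCommGroup (Kq m R) :=
  Submodule.Quotient.addCommGroup (Hgl.rel m R)

instance Kq.mod (m : ℕ) (R : Type) [Ring R] : Module ℚ (Kq m R) :=
  Submodule.Quotient.module (Hgl.rel m R)

/-- The class in `Kq m R` of an element of `H_m(GL_r(R); ℚ)`. -/
def Kq.mk (m : ℕ) (R : Type) [Ring R] (r : ℕ) (c : HQ m (GLn R r)) : Kq m R :=
  Submodule.Quotient.mk (Hgl.of m R r c)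

/-- The subspace of `Kq m S` generated by the images of the classes of `Kq m R`. -/
def Kq.im (m : ℕ) {R S : Type} [Ring R] [Ring S] (f : R →+* S) : Submodule ℚ (Kq m S) :=
  Submodule.span ℚ {x | ∃ (r : ℕ) (c : HQ m (GLn R r)), x = Kq.mk m S r (HQ.map m (glm f r) c)}

/-- The subspace of `Kq (n+1) R[t,t⁻¹]` generated by the images of `R[t]` and `R[t⁻¹]`. -/
def Kq.im2 (n : ℕ) (R : Type) [Ring R] : Submodule ℚ (Kq (n + 1) (LaurentPolynomial R)) :=
  Kq.im (n + 1) (posIncl R) ⊔ Kq.im (n + 1) (negIncl R)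

/-- `K_n(R) ⊗ ℚ`, for `n ≥ 0`, as the cokernel of
`K_{n+1}(R[t]) ⊕ K_{n+1}(R[t⁻¹]) → K_{n+1}(R[t,t⁻¹])`, tensored with `ℚ`. -/
def Kb (n : ℕ) (R : Type) [Ring R] : Type := Kq (n + 1) (LaurentPolynomial R) ⧸ Kq.im2 n R

instance Kb.acg (n : ℕ) (R : Type) [Ring R] : AddCommGroup (Kb n R) :=
  Submodule.Quotient.addCommGroup (Kq.im2 n R)

instance Kb.mod (n : ℕ) (R : Type) [Ring R] : Module ℚ (Kb n R) :=
  Submodule.Quotient.module (Kq.im2 n R)

/-- The class in `Kb n R` of an element of `H_{n+1}(GL_r(R[t,t⁻¹]); ℚ)`. -/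
def Kb.mk (n : ℕ) (R : Type) [Ring R] (r : ℕ) (c : HQ (n + 1) (GLn (LaurentPolynomial R) r)) :
    Kb n R :=
  Submodule.Quotient.mk (Kq.mk (n + 1) (LaurentPolynomial R) r c)

/-- The subspace generated by the relations between the symbols. -/
def RelS (n : ℕ) (G : Type) [Group G] : Submodule ℚ (Sym n G →₀ ℚ) :=
  Submodule.span ℚ {x | Rel n G x}

/-- The part with coefficients `K_{-1}` of the source of the rationalised assembly map in
degree `n`. -/
def SrcN (n : ℕ) (G : Type) [Group G] : Type := (Sym n G →₀ ℚ) ⧸ RelS n G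

instance SrcN.acg (n : ℕ) (G : Type) [Group G] : AddCommGroup (SrcN n G) :=
  Submodule.Quotient.addCommGroup (RelS n G)

instance SrcN.mod (n : ℕ) (G : Type) [Group G] : Module ℚ (SrcN n G) :=
  Submodule.Quotient.module (RelS n G)

/-- The class of a symbol. -/
def symN {n : ℕ} {G : Type} [Group G] (p : ℕ) (h : G) (c : HQ (n + 1) (Cen h)) : SrcN n G :=
  Submodule.Quotient.mk (sg p h c)

/-- The linear map `A : SrcN n G → K_n(ℤ[G]) ⊗ ℚ` sends the symbol `[p, h, c]`, where `h` is the image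
of the generator of `C_N` under an injective homomorphism `φ : C_N → G`, to the image of `c` under
the homomorphism `z ↦ z φ(ε) + 1 - φ(ε)`, with `ε = ε N p`. -/
def IsAsm (ε : ∀ N : ℕ, ℕ → IdemMat (LaurentPolynomial (MonoidAlgebra ℤ (Cyc N)))) {n : ℕ}
    {G : Type} [Group G] (A : SrcN n G →ₗ[ℚ] Kb n (MonoidAlgebra ℤ G)) : Prop :=
  ∀ (N p : ℕ) (φ : Cyc N →* G) (c : HQ (n + 1) (Cen (φ (gen N)))), 0 < N → p.Prime → p ∣ N →
    Function.Injective φ →
    A (symN p (φ (gen N)) c) =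
      Kb.mk n (MonoidAlgebra ℤ G) (ε N p).n (HQ.map (n + 1) (rhoC (ε N p) φ) c)

/-- The map `H_{n+1}(G × ℤ; ℚ) → K_n(ℤ[G]) ⊗ ℚ` induced by the inclusion of `G × ℤ` in the units of
`ℤ[G][t,t⁻¹]`. -/
def tauN (n : ℕ) (G : Type) [Group G] (c : HQ (n + 1) (G × Multiplicative ℤ)) :
    Kb n (MonoidAlgebra ℤ G) :=
  Kb.mk n (MonoidAlgebra ℤ G) 1 (HQ.map (n + 1) (gl1 mon) c)

end Pool.Agent.FJA
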