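import Pool.Agent.FJA.SDefsC

/-!
# The part of the assembly map with coefficients `K_1`

`Src1 m G`, for `m = n - 1`: the part with coefficients `K_1` of the source of the rationalised
assembly map in degree `n`, and the map to `K_n(ℤ[G]) ⊗ ℚ`.
-/

set_option autoImplicit false

open Matrix Pool.Agent.WhK Pool.Agent.Lib25 CategoryTheory

noncomputable section

namespace Pool.Agent.FJA

/-- Cycles of the inhomogeneous chains of the group `P` with coefficients `ℚ`. -/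
abbrev ZQ (m : ℕ) (P : Type) [Group P] : ModuleCat ℚ := groupHomology.cycles (Rep.trivial ℚ P ℚ) m

/-- The homology class of a cycle. -/
def hcl (m : ℕ) (P : Type) [Group P] (z : ZQ m P) : HQ m P :=
  (groupHomology.π (Rep.trivial ℚ P ℚ) m).hom z

/-- The inhomogeneous chain underlying a cycle. -/
def hch (m : ℕ) (P : Type) [Group P] (z : ZQ m P) : (Fin m → P) →₀ ℚ :=
  (groupHomology.iCycles (Rep.trivial ℚ P ℚ) m).hom z

/-- The shuffle product of an inhomogeneous chain with the 1-chain `[g]`: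
`(a_1, …, a_m) ↦ ∑ i, (-1)^i (a_1, …, a_i, g, a_(i+1), …, a_m)`. -/
def insL (m : ℕ) {Q : Type} (g : Q) (x : (Fin m → Q) →₀ ℚ) : (Fin (m + 1) → Q) →₀ ℚ :=
  x.sum fun a r => ∑ i : Fin (m + 1),
    Finsupp.single (Fin.insertNth (α := fun _ => Q) i g a) ((-1 : ℚ) ^ (i : ℕ) * r)

/-- An element of `G` as a unit of `ℤ[G]`. -/
def gU (G : Type) [Group G] : G →* (MonoidAlgebra ℤ G)ˣ := (MonoidAlgebra.of ℤ G).toHomUnits

/-- The units of `ℤ[G]` which come from units of `ℤ[⟨h⟩]`. -/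
def UnS {G : Type} [Group G] (h : G) : Subgroup (MonoidAlgebra ℤ G)ˣ :=
  (Units.map (MonoidAlgebra.mapDomainRingHom ℤ (Subgroup.zpowers h).subtype :
    MonoidAlgebra ℤ (Subgroup.zpowers h) →* MonoidAlgebra ℤ G)).range

/-- The symbol is admissible: `h` has finite order and `u` is a unit of `ℤ[⟨h⟩]`. -/
def Adm1 {G : Type} [Group G] (h : G) (u : (MonoidAlgebra ℤ G)ˣ) : Prop :=
  IsOfFinOrder h ∧ u ∈ UnS h

/-- A symbol `[h, c, u]`: an element `h` of `G`, a class `c` in `H_m(Z_G(h); ℚ)` and a unit `u` of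
`ℤ[G]`. -/
structure Sym1 (m : ℕ) (G : Type) [Group G] : Type where
  h : G
  c : HQ m (Cen h)
  u : (MonoidAlgebra ℤ G)ˣ

/-- The symbol as an element of the vector space generated by the symbols. -/
def sg1 {m : ℕ} {G : Type} [Group G] (h : G) (c : HQ m (Cen h)) (u : (MonoidAlgebra ℤ G)ˣ) :
    Sym1 m G →₀ ℚ :=
  Finsupp.single ⟨h, c, u⟩ 1

/-- The relations between the symbols. -/
inductive Rel1 (m : ℕ) (G : Type) [Group G] : (Sym1 m G →₀ ℚ) → Prop
  | invalid (h : G) (c : HQ m (Cen h)) (u : (MonoidAlgebra ℤ G)ˣ) : ¬ Adm1 h u →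
      Rel1 m G (sg1 h c u)
  | add (h : G) (c c' : HQ m (Cen h)) (u : (MonoidAlgebra ℤ G)ˣ) :
      Rel1 m G (sg1 h (c + c') u - sg1 h c u - sg1 h c' u)
  | smul (h : G) (q : ℚ) (c : HQ m (Cen h)) (u : (MonoidAlgebra ℤ G)ˣ) :
      Rel1 m G (sg1 h (q • c) u - q • sg1 h c u)
  | mul (h : G) (c : HQ m (Cen h)) (u v : (MonoidAlgebra ℤ G)ˣ) : Adm1 h u → Adm1 h v →
      Rel1 m G (sg1 h c (u * v) - sg1 h c u - sg1 h c v)
  | conj (h x : G) (c : HQ m (Cen h)) (u : (MonoidAlgebra ℤ G)ˣ) :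
      Rel1 m G (sg1 (x * h * x⁻¹) (HQ.map m (cHom x (cHom_conj x h)) c)
        (gU G x * u * (gU G x)⁻¹) - sg1 h c u)
  | res (h h' : G) (hh : h' ∈ Subgroup.zpowers h) (c : HQ m (Cen h))
      (u : (MonoidAlgebra ℤ G)ˣ) : IsOfFinOrder h → Adm1 h' u →
      Rel1 m G (sg1 h' (HQ.map m (cHom 1 (cHom_pow h hh)) c) u - sg1 h c u)

/-- The subspace generated by the relations between the symbols. -/
def RelT (m : ℕ) (G : Type) [Group G] : Submodule ℚ (Sym1 m G →₀ ℚ) :=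
  Submodule.span ℚ {x | Rel1 m G x}

/-- The part with coefficients `K_1` of the source of the rationalised assembly map in degree
`m + 1`. -/
def Src1 (m : ℕ) (G : Type) [Group G] : Type := (Sym1 m G →₀ ℚ) ⧸ RelT m G

instance Src1.acg (m : ℕ) (G : Type) [Group G] : AddCommGroup (Src1 m G) :=
  Submodule.Quotient.addCommGroup (RelT m G)

instance Src1.mod (m : ℕ) (G : Type) [Group G] : Module ℚ (Src1 m G) :=
  Submodule.Quotient.module (RelT m G)

/-- The class of a symbol. -/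
def sym1 {m : ℕ} {G : Type} [Group G] (h : G) (c : HQ m (Cen h)) (u : (MonoidAlgebra ℤ G)ˣ) :
    Src1 m G :=
  Submodule.Quotient.mk (sg1 h c u)

/-- The units of `ℤ[G]` in `GL_1(ℤ[G][t,t⁻¹])`. -/
def uL (G : Type) [Group G] :
    (MonoidAlgebra ℤ G)ˣ →* GLn (LaurentPolynomial (MonoidAlgebra ℤ G)) 1 :=
  gl1 ((AddMonoidAlgebra.singleZeroRingHom (R := MonoidAlgebra ℤ G) (M := ℤ) :
    MonoidAlgebra ℤ G →* LaurentPolynomial (MonoidAlgebra ℤ G)).comp
      (Units.coeHom (MonoidAlgebra ℤ G)))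

/-- The element `t` of `GL_1(ℤ[G][t,t⁻¹])`. -/
def tL (G : Type) [Group G] : GLn (LaurentPolynomial (MonoidAlgebra ℤ G)) 1 :=
  gl1 mon ((1 : G), Multiplicative.ofAdd (1 : ℤ))

/-- The linear map `A : Src1 m G → K_(m+1)(ℤ[G]) ⊗ ℚ` sends the symbol `[h, c, u]` to the class of
the shuffle product `c × [u] × [t]`. -/
def IsAsm1 {m : ℕ} {G : Type} [Group G]
    (A : Src1 m G →ₗ[ℚ] Kb (m + 1) (MonoidAlgebra ℤ G)) : Prop :=
  ∀ (h : G) (u : (MonoidAlgebra ℤ G)ˣ) (z : ZQ m (Cen h)), Adm1 h u →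
    ∃ z' : ZQ (m + 2) (GLn (LaurentPolynomial (MonoidAlgebra ℤ G)) 1),
      hch (m + 2) _ z' = insL (m + 1) (tL G) (insL m (uL G u)
        (Finsupp.mapDomain (fun a i => uL G (gU G (a i))) (hch m _ z))) ∧
      A (sym1 h (hcl m _ z) u) = Kb.mk (m + 1) (MonoidAlgebra ℤ G) 1 (hcl (m + 2) _ z')

end Pool.Agent.FJA
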