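import Pool.Agent.FJA.Hom

/-!
# Statements of the modules of the statement side

Notation (see `Chain.lean`): `IC k m P` inhomogeneous chains, `dI` their boundary, `ZC k m P` the
cycles of Mathlib, `ch` the chain of a cycle, `cl` its class in `Hk k m P = H_m(P; k)`,
`exists_cl`, `exists_ch`, `d_ch`, `cl_eq_zero_iff`, `cl_congr`, `Hk.map_cl`; `HCh k P m` homogeneous
chains, `bd`, `hdeg`, `psi`, `phi`, `quo`, `pair`.
-/

set_option autoImplicit false

open Matrix Pool.Agent.WhK Pool.Agent.Lib25 CategoryTheory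

noncomputable section

namespace Pool.Agent.FJA

/-- UCT: if `H_(m+1)(P; ℤ)` is finitely generated then a positive multiple of every linear functional
on `H_(m+1)(P; ℚ)` is represented by an integral cocycle.

Proof (compare `exists_int_coc`, `exists_denominator` in `Pool/Agent/Lib_helper25/H2/FG.lean`,
where `m + 1 = 2`).
1. The map `ch` is injective (it is the inclusion of the cycles; or: use `cl_congr`), and its range is
the kernel of `dI ℚ m P` (`d_ch`, `exists_ch`).  So there is a linear map `μ : IC ℚ (m+1) P → ℚ` with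
`μ (ch x) = lam (cl x)` for all `x` (define it on the submodule `range ch`, which is possible because
`ch x = ch x'` implies `cl x = cl x'`, and extend it: `LinearMap.exists_extend`).  For
`y : IC ℚ (m+2) P` one has `μ (dI y) = 0`: `dI y = ch x` for some `x` (`exists_ch`, `dI (dI y) = 0`, which
follows from `groupHomology.inhomogeneousChains.d_comp_d` and `dI0_eq`) and `cl x = 0`.
2. Let `ι : IC ℤ m P → IC ℚ m P` be the base change (`Finsupp.mapRange` of `Int.cast`, an additive
map): `ι (dI z) = dI (ι z)` (check it on `single g n` with `dI_single`).  There is `D > 0` such that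
`D * μ (ι (ch z)) ∈ ℤ` for all `z : ZC ℤ (m+1) P`: take cycles `z_s` whose classes `s` generate
`Hk ℤ (m+1) P` (a finite set, `Module.Finite`) and `D` the product of the denominators of
`μ (ι (ch z_s))`; the classes `c` such that `∃ z, cl z = c ∧ D * μ (ι (ch z)) ∈ ℤ` form a submodule
(or use `Submodule.span_induction`) and contain the `s`, so every class is of this form; if
`cl z = cl z'` then `ch z - ch z' = dI y` and `μ (ι (dI y)) = μ (dI (ι y)) = 0`.
3. Let `q : ℚ → ℚ / ℤ = AddCircle (1 : ℚ)`, `ψ = q ∘ (D μ) ∘ ι : IC ℤ (m+1) P → ℚ / ℤ`.  It vanishes on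
the kernel of `dI ℤ m P` (`exists_ch` for `ℤ`), so by `Module.Baer.of_divisible` and
`extension_property_addMonoidHom` there is `χ : IC ℤ m P → ℚ / ℤ` with `χ (dI z) = ψ z`.  Choose
`θ : (Fin m → P) → ℚ` with `q (θ g) = χ (single g 1)`; then
`D * μ (single g 1) - pair θ (dI (single g 1))` is an integer `f g` for every `g : Fin (m+1) → P`.
4. Extending linearly, `pair f = D μ - pair θ ∘ dI` on `IC ℚ (m+1) P`.  On `dI y` both terms vanish, on
`ch x` the second one vanishes. -/
def S_UCT : Prop := ∀ (P : Type) [Group P] (m : ℕ), Module.Finite ℤ (Hk ℤ (m + 1) P) →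
  ∀ lam : Hk ℚ (m + 1) P →ₗ[ℚ] ℚ, ∃ (D : ℕ) (f : (Fin (m + 1) → P) → ℤ), 0 < D ∧
    (∀ y : IC ℚ (m + 2) P, pair (fun g => (f g : ℚ)) (dI ℚ (m + 1) P y) = 0) ∧
    ∀ x : ZC ℚ (m + 1) P, (D : ℚ) * lam (cl ℚ (m + 1) P x) =
      pair (fun g => (f g : ℚ)) (ch ℚ (m + 1) P x)

/-- FLC: a linear functional on `H_(m+1)(G × ℤ; ℚ)` which vanishes on the image of `H_(m+1)(G; ℚ)` is
represented by a left invariant homogeneous cocycle which vanishes on all tuples with constant
second coordinate.

Proof.  Let `Γ = G × Multiplicative ℤ`.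
1. As in step 1 of UCT there is `f : (Fin (m+1) → Γ) → ℚ` with `pair f (ch x) = lam (cl x)` for all
cycles `x` and `pair f (dI y) = 0` for all `y`.  Let `F0 X = f (quo X)` for `X : Fin (m+2) → Γ`: left
invariant (`quo_mul`), a cocycle (`quo_coc`), `pair F0 (psi (ch x)) = lam (cl x)` (`pair_quo`,
`phi_psi`).
2. Let `f' : (Fin (m+1) → G) → ℚ` be the restriction of `f` along `inl`.  For a cycle `x` of `G`,
`pair f' (ch x) = lam (Hk.map inl (cl x)) = 0` (`Hk.map_cl`).  Hence the linear map `pair f'` vanishes on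
the kernel of `dI ℚ m G` (`exists_ch`), and there is a linear map `e : IC ℚ m G → ℚ` with
`e (dI z) = pair f' z` for all `z : IC ℚ (m+1) G` (vector spaces: factor over the range of `dI` and
extend, e.g. `LinearMap.exists_extend`, or `LinearMap.exists_leftInverse_of_injective` applied to the
quotient by the kernel).
3. `E : (Fin (m+1) → G) → ℚ`, `E Y = e (single (quo Y) 1)`: left invariant, and
`∑ i, (-1)^i E (Y ∘ i.succAbove) = f' (quo Y)` for `Y : Fin (m+2) → G` (by `phi_bd`, `bd_single`,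
`phi_single` with `k = ℚ`).
4. `Ê : (Fin (m+1) → Γ) → ℚ`, `Ê X = E (fun i => (X i).1)` if all `(X i).2` are equal, `0` otherwise: left
invariant under `Γ`.  Put `F X = F0 X - ∑ i, (-1)^i Ê (X ∘ i.succAbove)`: left invariant; a cocycle
because `∂ ∂ = 0` (the hypothesis `hBD`, S_BD with `k = ℚ`, `V = Γ`: evaluate the linear map
`pair Ê` on `bd (bd (single X 1))`); `pair F w = pair F0 w - pair Ê (bd w)` for all homogeneous chains
`w`, and `pair Ê` vanishes on `hdeg`, so that `pair F (psi (ch x)) = pair F0 (psi (ch x))` by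
`psi_ch_mem`.  If all `(X i).2` are equal to `s` then `quo X = inl ∘ quo (fun i => (X i).1)`, so
`F0 X = f' (quo (fst ∘ X)) = ∑ i, (-1)^i E ((fst ∘ X) ∘ i.succAbove) = ∑ i, (-1)^i Ê (X ∘ i.succAbove)`
and `F X = 0`. -/
def S_FLC : Prop := ∀ (G : Type) [Group G] (m : ℕ)
  (lam : Hk ℚ (m + 1) (G × Multiplicative ℤ) →ₗ[ℚ] ℚ),
  (∀ c, lam (Hk.map ℚ (m + 1) (MonoidHom.inl G (Multiplicative ℤ)) c) = 0) →
  ∃ F : (Fin (m + 2) → G × Multiplicative ℤ) → ℚ,
    (∀ (γ : G × Multiplicative ℤ) (X : Fin (m + 2) → G × Multiplicative ℤ),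
      F (fun i => γ * X i) = F X) ∧
    (∀ X : Fin (m + 3) → G × Multiplicative ℤ,
      ∑ i : Fin (m + 3), (-1 : ℚ) ^ (i : ℕ) * F (fun j => X (i.succAbove j)) = 0) ∧
    (∀ X : Fin (m + 2) → G × Multiplicative ℤ, (∀ i j, (X i).2 = (X j).2) → F X = 0) ∧
    ∀ x : ZC ℚ (m + 1) (G × Multiplicative ℤ),
      lam (cl ℚ (m + 1) _ x) = pair F (psi ℚ (m + 1) _ (ch ℚ (m + 1) _ x))

end Pool.Agent.FJA
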