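import Pool.Agent.FJA.Core3
import Pool.Agent.FJA.St1
import Pool.Agent.FJA.St2
import Pool.Agent.FJA.St0

/-!
# Statements of the modules, block 3: the relation theorem, the idempotents, the final descent

Notation: `Z' = Multiplicative ℤ`, `Γ = G × Z'`, `h_j = D.φ j (gen (D.N j))`.
-/

set_option autoImplicit false

open Matrix Pool.Agent.WhK Pool.Agent.Lib25

noncomputable section

namespace Pool.Agent.FJA

/-! ## Module KCB -/

/-- KCB: compatibilities between the chains over `ℤ[G][t,t⁻¹]`, over `k[Γ]` and of fixed size: all by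
`Finsupp` extensionality on `single x 1`, (e) because `TS` and `TF` are both given by
`TX η N (fun i => cvt k r (rhoC e φ (w i)))` on the basis elements (`fV` is `cvt ∘ rhoC` by
definition). -/
def S_KCB : Prop := ∀ (k : Type) [Field k] [CharZero k] (G : Type) [Group G] (M : ℕ),
    (∀ b : SCh (LaurentPolynomial (MonoidAlgebra ℤ G)) (M + 1),
      bdK k _ M (cvS k G (M + 1) b) = cvS k G M (bdS _ M b)) ∧
    (∀ (η : Rec (G × Multiplicative ℤ) (Fin M) → ℚ) (N : ℕ)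
      (x : SCh (LaurentPolynomial (MonoidAlgebra ℤ G)) M), TK k η N (cvS k G M x) = TS k η N x) ∧
    (∀ (r : ℕ) (c : (Fin (M + 1) → (Matrix (Fin r) (Fin r)
        (MonoidAlgebra k (G × Multiplicative ℤ)))ˣ) →₀ ℚ),
      bdK k _ M (kinK k _ (M + 1) r c) = kinK k _ M r (bd ℚ _ M c)) ∧
    (∀ (η : Rec (G × Multiplicative ℤ) (Fin M) → ℚ) (N r : ℕ) (c : (Fin M → (Matrix (Fin r) (Fin r)
        (MonoidAlgebra k (G × Multiplicative ℤ)))ˣ) →₀ ℚ),
      TK k η N (kinK k _ M r c) = TF η N c) ∧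
    (∀ (η : Rec (G × Multiplicative ℤ) (Fin M) → ℚ) (N N0 : ℕ)
      (e : IdemMat (LaurentPolynomial (MonoidAlgebra ℤ (Cyc N0)))) (φ : Cyc N0 →* G)
      (w : (Fin M → Cen (φ (gen N0))) →₀ ℚ),
      TS k η N (kinS (LaurentPolynomial (MonoidAlgebra ℤ G)) M e.n
        (hmap ℚ (fun z => rhoC e φ z) M w)) = TF η N (hmap ℚ (fV k e φ) M w))

/-! ## Module PDK -/

/-- PDK: the `ℓ`-adic theorem PAD for chains.  Proof: PAD with `J` the sigma type, `S = B.support`,
`c x = B x`, `r x = x.1`, `X x = x.2`; the sums are `TK .. B` and `TK .. (bdK B)` by definition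
(`Finsupp.linearCombination_apply`, the action of `ℚ` on `ℚ_ℓ` is multiplication by the cast). -/
def S_PDK : Prop := ∀ (Γ : Type) [Group Γ] (σ : Γ →* Multiplicative ℤ) (b : ℕ), TorBd Γ b →
    ∀ (ℓ : ℕ) [Fact ℓ.Prime] (M : ℕ) (F : (Fin (M + 1) → Γ) → Γ → ℚ), Coch σ M F →
    ∀ B : KCh ℚ_[ℓ] Γ (M + 1), (∀ x ∈ B.support, ∀ i, NIU (x.2 i)) →
    (∀ η : Rec Γ (Fin M) → ℚ, NullFun σ η → ∀ N : ℕ, 0 < N → TK ℚ_[ℓ] η N (bdK _ _ M B) = 0) →
    ∀ e : ℕ, TK ℚ_[ℓ] (fst F) 1 B = TK ℚ_[ℓ] (fst (powF (ℓ ^ e) F)) 1 B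

/-! ## Module REA (uses KCB, KIL, HTP, FVX) -/

/-- REA: null functionals vanish on the boundary of `BT`.

Proof: by KCB the left side is `TS η (∂ b) + ∑ q_j TF η (∂ DX_j)`.  By FVX (a) (for `k`, `G`, `e j`,
`D.φ j`) `fV` is the function `z ↦ (XG φ X)⁻¹ * dgU z * XG φ X` and `fV z * (XG φ X)⁻¹ =
(XG φ X)⁻¹ * dgU z`, so HTP (with `P = G`, `Q = Cen h_j`, `ψ = D.φ j`, `j` the inclusion, `m = n`) says
`TF η (∂ DX_j) = - TF η (hmap fV w_j) = - TS η (kinS (hmap rhoC w_j))`.  So the sum is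
`TS η (∂ b) - TS η (D.ch e) = TS η (∂ b - ∂ b - κ) = - TS η κ = 0` by KIL. -/
def S_REA : Prop := ∀ (k : Type) [Field k] [CharZero k] (G : Type) [Group G] (n : ℕ) (D : Dat G n)
    (e : ∀ j, IdemMat (LaurentPolynomial (MonoidAlgebra ℤ (Cyc (D.N j)))))
    (d : ∀ j, Fin (e j).n → Bool)
    (T : ∀ j, (Matrix (Fin (e j).n) (Fin (e j).n)
      (MonoidAlgebra k (Cyc (D.N j) × Multiplicative ℤ)))ˣ),
    (∀ j, Trv k (e j) (d j) (T j)) →
    ∀ (b : SCh (LaurentPolynomial (MonoidAlgebra ℤ G)) (n + 3))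
      (κ : SCh (LaurentPolynomial (MonoidAlgebra ℤ G)) (n + 2)),
    κ ∈ Kil (MonoidAlgebra ℤ G) (n + 2) →
    D.ch e = bdS (LaurentPolynomial (MonoidAlgebra ℤ G)) (n + 2) b + κ →
    ∀ (η : Rec (G × Multiplicative ℤ) (Fin (n + 2)) → ℚ) (N : ℕ), NullFun (sg2 G) η →
    TK k η N (bdK k _ (n + 2) (BT k D e b T)) = 0

/-! ## Module NIB (uses LAUint) -/

/-- NIB: integrality of the vertices of `BT`.

Proof: elements of `ℚ_ℓ[Γ]` with integral coefficients form a subring (`S_GAUint` has the needed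
lemmas in P_GAU.lean, or directly with `Padic.nonarchimedean`/`IsUltrametricDist`), preserved by
`mapDomain` along homomorphisms of groups; `cvt` has integral entries (LAUint), also the inverse,
which is `cvt` of the inverse; the vertices of `cvS b` are `cvt ..`, those of `DX` are `fV z` and
`fV z * (XG φ X)⁻¹`, `fV z = cvt (rhoC z)`.  The support of a sum, of a multiple, of `lmapDomain`, of
`prism` (a `linearCombination`) is contained in the union of the supports of the terms. -/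
def S_NIB : Prop := ∀ (ℓ : ℕ) [Fact ℓ.Prime] (G : Type) [Group G] (n : ℕ) (D : Dat G n)
    (e : ∀ j, IdemMat (LaurentPolynomial (MonoidAlgebra ℤ (Cyc (D.N j)))))
    (T : ∀ j, (Matrix (Fin (e j).n) (Fin (e j).n)
      (MonoidAlgebra ℚ_[ℓ] (Cyc (D.N j) × Multiplicative ℤ)))ˣ)
    (b : SCh (LaurentPolynomial (MonoidAlgebra ℤ G)) (n + 3)),
    (∀ j ∈ D.s, NIU (T j)) → ∀ x ∈ (BT ℚ_[ℓ] D e b T).support, ∀ i, NIU (x.2 i)

/-! ## Module MPB (uses LAU, TXmap) -/

/-- MPB: change of fields along `f : k →+* k'`.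

Proof of (a): `cvt k' r A = mapU f (cvt k r A)` (LAU, last item); `XG φ (mapU f X) = mapU f (XG φ X)`
(`mapDomain` and `mapRange` commute); `mapU f` is a homomorphism; so
`BT k' .. (mapU f ∘ T)` is the image of `BT k .. T` under the map `⟨r, X⟩ ↦ ⟨r, mapU f ∘ X⟩` of the basis
elements, and TXmap.
(b) apply the entrywise map to `Trv`; `dg` is mapped to `dg`; LAU last item.
(c) `dZ` commutes with the coefficient map. -/
def S_MPB : Prop := ∀ (k k' : Type) [Field k] [CharZero k] [Field k'] [CharZero k'] (f : k →+* k'),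
    (∀ (G : Type) [Group G] (n : ℕ) (D : Dat G n)
      (e : ∀ j, IdemMat (LaurentPolynomial (MonoidAlgebra ℤ (Cyc (D.N j)))))
      (T : ∀ j, (Matrix (Fin (e j).n) (Fin (e j).n)
        (MonoidAlgebra k (Cyc (D.N j) × Multiplicative ℤ)))ˣ)
      (b : SCh (LaurentPolynomial (MonoidAlgebra ℤ G)) (n + 3))
      (φ : Rec (G × Multiplicative ℤ) (Fin (n + 3)) → ℚ) (N : ℕ),
      TK k' φ N (BT k' D e b (fun j => mapU f (T j))) = f (TK k φ N (BT k D e b T))) ∧
    (∀ (N : ℕ) (e : IdemMat (LaurentPolynomial (MonoidAlgebra ℤ (Cyc N)))) (d : Fin e.n → Bool)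
      (X : (Matrix (Fin e.n) (Fin e.n) (MonoidAlgebra k (Cyc N × Multiplicative ℤ)))ˣ),
      Trv k e d X → Trv k' e d (mapU f X)) ∧
    (∀ (P : Type) [Group P] (r : ℕ)
      (X : (Matrix (Fin r) (Fin r) (MonoidAlgebra k (P × Multiplicative ℤ)))ˣ) (a : Fin r) (c : P),
      dlog (k := k') (P := P) (r := r)
        (mapU (k := k) (k' := k') f (Γ := P × Multiplicative ℤ) (ι := Fin r) X) a c =
        f (dlog (k := k) (P := P) (r := r) X a c))

/-! ## Modules RLP, RLD, RLG, REL -/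

/-- RLP (uses PDK, REA, NIB, CUP): over `ℚ_p` with integral trivialisations the value on `BT` of a
family supported on the elements of order `n0` is zero, if `p ∣ n0`.

Proof: `F̂ = cup F`, a `Coch (sg2 G) (n + 2)` (CUP (b)); `TorBd (G × Z') bG` as `Z'` has no torsion
(`orderOf (g, 1) = orderOf g`, elements of finite order have trivial second component).  PDK for
`B = BT ..` with `p ^ e > bG`: `TK (fst F̂) 1 B = TK (fst (powF (p^e) F̂)) 1 B`, and `powF (p^e) F̂ = 0`: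
if `F̂ a (y^(p^e)) ≠ 0` then `(y^(p^e)).2 = 1` and `orderOf (y.1^(p^e)) = n0`; then `y.1` has finite
order (`n0 > 0`), `orderOf y.1 ≤ bG`, and `p ∣ n0 = orderOf y.1 / gcd (orderOf y.1, p^e)`, so that
`p^(e+1) ∣ orderOf y.1` (the `p`-part of the order of `y.1` is not killed by `p^e`), a contradiction.
`fst 0 = 0`, `TX 0 = 0` (TXlin with `c = 0`). -/
def S_RLP : Prop := ∀ (G : Type) [Group G] (bG : ℕ), TorBd G bG → ∀ (n n0 : ℕ), 0 < n0 →
    ∀ (p : ℕ) [Fact p.Prime], p ∣ n0 → ∀ (D : Dat G n)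
      (e : ∀ j, IdemMat (LaurentPolynomial (MonoidAlgebra ℤ (Cyc (D.N j)))))
      (d : ∀ j, Fin (e j).n → Bool)
      (T : ∀ j, (Matrix (Fin (e j).n) (Fin (e j).n)
        (MonoidAlgebra ℚ_[p] (Cyc (D.N j) × Multiplicative ℤ)))ˣ),
    (∀ j, Trv ℚ_[p] (e j) (d j) (T j)) → (∀ j, NIU (T j)) →
    ∀ (b : SCh (LaurentPolynomial (MonoidAlgebra ℤ G)) (n + 3))
      (κ : SCh (LaurentPolynomial (MonoidAlgebra ℤ G)) (n + 2)),
    κ ∈ Kil (MonoidAlgebra ℤ G) (n + 2) →
    D.ch e = bdS (LaurentPolynomial (MonoidAlgebra ℤ G)) (n + 2) b + κ →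
    ∀ F : (Fin (n + 2) → G) → G → ℚ, GCoch (n + 1) (fun y => orderOf y = n0) F →
    TK ℚ_[p] (fst (cup F)) 1 (BT ℚ_[p] D e b T) = 0

/-- RLD (uses DIF, KCB): two trivialisations of the same matrices.  Proof: the terms `cvS b` cancel;
KCB (d); DIF with `m = n` for every `j`. -/
def S_RLD : Prop := ∀ (k : Type) [Field k] [CharZero k] (G : Type) [Group G] (n : ℕ) (D : Dat G n)
    (e : ∀ j, IdemMat (LaurentPolynomial (MonoidAlgebra ℤ (Cyc (D.N j)))))
    (d : ∀ j, Fin (e j).n → Bool)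
    (T T' : ∀ j, (Matrix (Fin (e j).n) (Fin (e j).n)
      (MonoidAlgebra k (Cyc (D.N j) × Multiplicative ℤ)))ˣ),
    (∀ j, Trv k (e j) (d j) (T j)) → (∀ j, Trv k (e j) (d j) (T' j)) →
    ∀ (b : SCh (LaurentPolynomial (MonoidAlgebra ℤ G)) (n + 3)) (S : G → Prop)
      (F : (Fin (n + 2) → G) → G → ℚ), (∀ y, S y → IsOfFinOrder y) → GCoch (n + 1) S F →
    TK k (fst (cup F)) 1 (BT k D e b T) - TK k (fst (cup F)) 1 (BT k D e b T') =
      (-1 : k) ^ (n + 1) * ∑ j ∈ D.s, (D.q j : k) * ∑ c : Cyc (D.N j),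
        (∑ a ∈ Finset.univ.filter (fun a => d j a = true), (dlog (T j) a c - dlog (T' j) a c)) *
          ((evc (fun z : Cen (D.φ j (gen (D.N j))) => (z : G)) F (D.w j) (D.φ j c) : ℚ) : k)

/-- RLG (uses PDK, REA, NIB, MPB, INT, CUP): the Galois symmetry of the value on `BT` over `ℚ`.

Proof: let `X_j` be the trivialisations over `ℚ`.  By INT choose a prime `ℓ` with `ℓ % n0 = a % n0`,
`ℓ > bG` and `ℓ` so large that `mapU (algebraMap ℚ ℚ_ℓ) (X_j)` is integral together with its inverse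
for `j ∈ D.s` (INT (a) for the finitely many matrices `X_j`, `X_j⁻¹`).  By MPB and NIB, REA, PDK with
`e = 1` hold for `B = BT ℚ_ℓ D e b (mapU ∘ X)`: `TK (fst F̂) 1 B = TK (fst (powF ℓ F̂)) 1 B`, `F̂ = cup F`
(see RLP for `TorBd (G × Z')`).  And `powF ℓ F̂ = cup (twF n0 a F)`: `(y.2)^ℓ = 1` iff `y.2 = 1`; if
`orderOf y.1 = n0` then `y.1^ℓ = y.1^a`; if `F (·; y.1^ℓ) ≠ 0` then `orderOf (y.1^ℓ) = n0 > 0`, so `y.1`
has finite order `≤ bG < ℓ`, prime to `ℓ`, hence `orderOf y.1 = n0`.  Back to `ℚ` by MPB (a), the map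
`ℚ → ℚ_ℓ` is injective. -/
def S_RLG : Prop := ∀ (G : Type) [Group G] (bG : ℕ), TorBd G bG → ∀ (n n0 : ℕ), 0 < n0 →
    ∀ (a : ℕ), a.Coprime n0 → ∀ (D : Dat G n)
      (e : ∀ j, IdemMat (LaurentPolynomial (MonoidAlgebra ℤ (Cyc (D.N j)))))
      (d : ∀ j, Fin (e j).n → Bool)
      (X : ∀ j, (Matrix (Fin (e j).n) (Fin (e j).n)
        (MonoidAlgebra ℚ (Cyc (D.N j) × Multiplicative ℤ)))ˣ),
    (∀ j, Trv ℚ (e j) (d j) (X j)) →
    ∀ (b : SCh (LaurentPolynomial (MonoidAlgebra ℤ G)) (n + 3))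
      (κ : SCh (LaurentPolynomial (MonoidAlgebra ℤ G)) (n + 2)),
    κ ∈ Kil (MonoidAlgebra ℤ G) (n + 2) →
    D.ch e = bdS (LaurentPolynomial (MonoidAlgebra ℤ G)) (n + 2) b + κ →
    ∀ F : (Fin (n + 2) → G) → G → ℚ, GCoch (n + 1) (fun y => orderOf y = n0) F →
    TK ℚ (fst (cup (twF n0 a F))) 1 (BT ℚ D e b X) = TK ℚ (fst (cup F)) 1 (BT ℚ D e b X)

/-- REL (uses RLP, RLD, RLG, MPB, TXlin): the relation theorem.

Proof: choose the trivialisations `d j`, `X j` over `ℚ` and, for every `p`, `Y j` over `ℚ_p` from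
`LocE (e j) (v j)`, and `b`, `κ` from the hypothesis.  `Q = QB D e b X`.  `add`, `smul`:
`cup (F + F') = cup F + cup F'`, `fst` is additive and homogeneous, TXlin, and `TK` is a sum of multiples of
values of `TX`.  `loc`: `(-1)^(n+1) * value on BT ℚ_p (mapU X) = Q F` in `ℚ_p` (MPB (a)), the value on
`BT ℚ_p Y` is `0` (RLP), and by RLD the difference is `(-1)^(n+1) ∑ q_j ∑_c (∑_a (dlog (mapU X_j) a c -
dlog (Y_j) a c)) evc .. = (-1)^(n+1) ∑ q_j ∑_c v_j p c * evc ..` (MPB (b), (c); the last equation of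
`LocE`; `algebraMap ℚ ℚ_p` is the cast).  `gal`: RLG. -/
def S_REL3 : Prop := ∀ (G : Type) [Group G] (bG : ℕ), TorBd G bG → ∀ (n n0 : ℕ), 0 < n0 →
    ∀ (D : Dat G n) (e : ∀ j, IdemMat (LaurentPolynomial (MonoidAlgebra ℤ (Cyc (D.N j)))))
      (v : ∀ (j : D.J) (p : ℕ), [Fact p.Prime] → Cyc (D.N j) → ℚ_[p]),
    (∀ j, LocE (e j) (fun p _ => v j p)) →
    D.ch e ∈ LinearMap.range (bdS (LaurentPolynomial (MonoidAlgebra ℤ G)) (n + 2)) ⊔
      Kil (MonoidAlgebra ℤ G) (n + 2) →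
    ∃ Q : ((Fin (n + 2) → G) → G → ℚ) → ℚ, QF D v n0 Q

/-! ## Modules NDA, NDB, NDC -/

/-- NDA: the idempotent matrices attached to an idempotent `E` of `ℚ_p[C_N]` and their local data.

Proof: `exists_raw` (Pool/Agent/Lib_helper25/Raw.lean) with `C = Cyc N` gives the `2 × 2` matrix
`nodeMat b f` (idempotent: `nodeMat_idem b f hn`), and column/row matrices with `α β = e`, `β α = 1`,
`α' β' = 1 - e`, `β' α' = 1` over `ℚ` and over all `ℤ_q`.  Then `β α' = β (α β) (α' β') α' =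
β e (1 - e) α' = 0`, `β' α = 0`.  Put `X = (β; β')` (rows), `X⁻¹ = (α | α')` (columns), mapped to
`MonoidAlgebra k (C × Z')` by `lau` (over `ℤ_q`: first map the coefficients to `ℚ_q`), `d = (true, false)`.
Then `X e = (β e; β' e) = (β; 0) = dg d * X`; `X`, `X⁻¹` are integral if `α, β, α', β'` are over `ℤ_q`
(the coefficients of `lau` of a Laurent polynomial: LAU (a)); `dlog X 0 c` is the coefficient at
`(c, 1)` of `β * dZ α`, which is `(R.coeff 0).coeff c`, `R = trace (β * α.map DL)` (`lau` transforms `DL` into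
`dZ`; LAU (a)).  So `dlog X 0 c - dlog Y 0 c = (e q).coeff c`, where `e p = E` and `e q = 0` for
`q ≠ p`.  For `e'` use `1 - nodeMat b f`, `X' = (β'; β)`, where the difference is `- (e q).coeff c`.
(`v q c = (e q).coeff c`.) -/
def S_NDA : Prop := ∀ (p : ℕ) [Fact p.Prime] (N : ℕ) [NeZero N] (E : MonoidAlgebra ℚ_[p] (Cyc N)),
    E * E = E →
    ∃ (e e' : IdemMat (LaurentPolynomial (MonoidAlgebra ℤ (Cyc N))))
      (v : ∀ q : ℕ, [Fact q.Prime] → Cyc N → ℚ_[q]),
    LocE e (fun q _ => v q) ∧ LocE e' (fun q _ c => - v q c) ∧ (∀ c, v p c = E.coeff c) ∧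
    ∀ (q : ℕ) [Fact q.Prime], q ≠ p → ∀ c, v q c = 0

/-- NDB: local data of block sums.  Proof: `X` for `e.add e'` is the block sum of the matrices,
reindexed along `finSumFinEquiv` (see `IdemMat.add`); `d` accordingly (`Fin.addCases` or
`Sum.elim d d' ∘ finSumFinEquiv.symm`); everything is block diagonal. -/
def S_NDB : Prop := ∀ (N : ℕ) [NeZero N],
    (LocE (IdemMat.zero (LaurentPolynomial (MonoidAlgebra ℤ (Cyc N)))) (fun _ _ _ => 0)) ∧
    ∀ (e e' : IdemMat (LaurentPolynomial (MonoidAlgebra ℤ (Cyc N))))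
      (v v' : ∀ q : ℕ, [Fact q.Prime] → Cyc N → ℚ_[q]),
    LocE e (fun q _ => v q) → LocE e' (fun q _ => v' q) →
    LocE (e.add e') (fun q _ c => v q c + v' q c)

/-- NDC (uses NDA, NDB): existence of the family of idempotents.

Proof: for `p ∣ N`, `N > 0`, `exists_theta2` (Pool/Agent/Lib_helper25/H2/Theta2.lean) gives finitely many
`Node p (a i) (e i)` and integers `M i` and `K_p > 0`.  By NDA (`E = e i`, `Node.idem`) there are idempotent
matrices `ε_i`, `ε_i'` with local data `± e i` at `p` and `0` elsewhere; the block sum of `|M i|` copies of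
`ε_i` (or of `ε_i'` if `M i < 0`) has the local data `v = ∑ M i • e i` at `p`, `0` elsewhere (NDB,
induction).  Let `K N = ∏_(p ∣ N) K_p` (over the primes dividing `N`; `K N = 1` for `N = 0`) and take
`K N / K_p` copies of this matrix: `v' = (K N / K_p) v`.  If `∑ v' Y = y` then
`∑ v Y = y K_p / K N`, so `K_p * (class sum of Y) = (y K_p / K N) * card` and
`K N * (class sum) = y * card`.  For the pairs `(N, p)` which are not considered take `ε = IdemMat.zero`,
`v = 0`. -/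
def S_NDC : Prop :=
    ∃ (ε : ∀ N : ℕ, ℕ → IdemMat (LaurentPolynomial (MonoidAlgebra ℤ (Cyc N))))
      (v : ∀ (N : ℕ) (_ : ℕ) (q : ℕ), [Fact q.Prime] → Cyc N → ℚ_[q]) (K : ℕ → ℕ), NodeD ε v K

/-! ## Modules FAM, FCW, FCA, FCH -/

/-- FAM (uses PRI, BD): the family of cocycles on the conjugacy class of `y0` defined by a cocycle `f`
on the centraliser of `y0`.

Proof.  Let `C = Cen y0`.  Choose a map `π : G → C` with `π (z g) = z π(g)` for `z ∈ C` (a representative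
`g0` of every right coset `C g`, `π(g) = g g0⁻¹`; or from
`Subgroup.exists_right_transversal`/`Quotient.out`).  Put `F a y = f (fun i => π (c (a i)))` if
`c y c⁻¹ = y0` for some `c` (choose one), `0` otherwise.  Independence of `c`: another `c'` is `z c` with
`z ∈ C`.  `inv`: for `γ y γ⁻¹` use `c γ⁻¹`.  `coc`, `supp`, `den`: clear.
Values on cycles: `y = x y0 x⁻¹`, `c = x⁻¹`, `z ∈ Cen y`: `x⁻¹ z = (x⁻¹ z x) x⁻¹`, so
`π (x⁻¹ z) = (x⁻¹ z x) r` with `r = π (x⁻¹)`.  So `F (Z; y) = f (Z' r)` with `Z' = cHom x⁻¹ ∘ Z`, the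
right translation by `r`.  By PRI for `f = id`, `f' = (· * r)` on `V = C`, and as (the linear extension
of) `f` vanishes on boundaries, `f (Z' r) - f (Z')` extends to `w ↦ f (prism (∂ w'))`,
`w' = hmap (cHom x⁻¹) w`, `∂ w' ∈ hdeg`, and `f ∘ prism` is invariant under left translations (BD (c)),
so it vanishes on `hdeg`. -/
def S_FAM : Prop := ∀ (G : Type) [Group G] (m : ℕ) (y0 : G) (f : (Fin (m + 2) → Cen y0) → ℚ),
    (∀ (γ : Cen y0) (a : Fin (m + 2) → Cen y0), f (fun i => γ * a i) = f a) →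
    (∀ a : Fin (m + 3) → Cen y0,
      ∑ i : Fin (m + 3), (-1 : ℚ) ^ (i : ℕ) * f (fun j => a (i.succAbove j)) = 0) →
    (∃ D : ℕ, 0 < D ∧ ∀ a, ∃ z : ℤ, (D : ℚ) * f a = z) →
    ∃ F : (Fin (m + 2) → G) → G → ℚ, GCoch (m + 1) (fun y => ∃ x : G, y = x * y0 * x⁻¹) F ∧
      ∀ (x : G) (H : ∀ z ∈ Cen (x * y0 * x⁻¹), x⁻¹ * z * x⁻¹⁻¹ ∈ Cen y0)
        (w : (Fin (m + 2) → Cen (x * y0 * x⁻¹)) →₀ ℚ), w ∈ cyc ℚ (Cen (x * y0 * x⁻¹)) (m + 1) →
        evc (fun z : Cen (x * y0 * x⁻¹) => (z : G)) F w (x * y0 * x⁻¹) =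
          pair f (hmap ℚ (cHom x⁻¹ H) (m + 2) w)

/-- FCW: every homogeneous cycle agrees modulo `hdeg` with the chain of a cycle of Mathlib's complex;
families of cocycles vanish on `hdeg` of the centraliser; `evc` and `pair`.

Proof of (a): `phi w` is annihilated by `dI` (`phi_bd`, `phi_hdeg`), so `phi w = ch z` (`exists_ch`), and
`w - psi (phi w) ∈ hdeg`: on `single X 1` the chain `psi (phi (single X 1))` is the translate by `X 0` inverse
(`phi_single`, `psi_single`, `eq_mul_partialProd`), extend linearly.  (b): on the generators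
`single (g * X) 1 - single X 1`, by `inv`, as `g y g⁻¹ = y` for `g ∈ Cen h`, `y ∈ zpowers h`. -/
def S_FCW : Prop :=
    (∀ (P : Type) [Group P] (m : ℕ), ∀ w ∈ cyc ℚ P (m + 1), ∃ z : ZC ℚ (m + 1) P,
      w - psi ℚ (m + 1) P (ch ℚ (m + 1) P z) ∈ hdeg ℚ P (m + 1)) ∧
    (∀ (G : Type) [Group G] (m : ℕ) (S : G → Prop) (F : (Fin (m + 1) → G) → G → ℚ),
      GCoch m S F → ∀ (h y : G), y ∈ Subgroup.zpowers h → ∀ w ∈ hdeg ℚ (Cen h) m,
      evc (fun z : Cen h => (z : G)) F w y = 0) ∧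
    (∀ (G P : Type) (j : P → G) (m : ℕ) (F : (Fin m → G) → G → ℚ) (w : (Fin m → P) →₀ ℚ) (y : G),
      evc j F w y = pair (fun Z : Fin m → P => F (fun i => j (Z i)) y) w)

/-- FCA (uses FAM, FCW): the family attached to one functional, a multiple of which is represented by an
integral cocycle.

Proof: `DenL` for `P = Cen t` gives `D > 0` and an integral cocycle `f`; the homogeneous cocycle
`f̂ a = f (quo a) / D` is left invariant (`quo_mul`) and satisfies the cocycle identity (`quo_coc`, or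
evaluate on `bd (single a 1)` with `phi_bd`); denominators `D`.  FAM gives `F`.  For a cycle `z` of
`Cen (x t x⁻¹)`: `pair f̂ (hmap (cHom ..) (psi (ch z))) = pair f̂ (psi (IC.map (ch z)))` (`psi_map`)
`= (1/D) pair f (phi (psi ..)) = (1/D) pair f (ch (map z)) = lam (cl (map z)) = lam (Hk.map .. (cl z))`
(`pair_quo`, `phi_psi`, `Hk.map_cl`).  Here `psi (ch z) ∈ cyc` by `psi_ch_mem`. -/
def S_FCA : Prop := ∀ (G : Type) [Group G] (n : ℕ) (t : G)
    (lam : Hk ℚ (n + 1) (Cen t) →ₗ[ℚ] ℚ), DenL n lam →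
    ∃ F : (Fin (n + 2) → G) → G → ℚ, GCoch (n + 1) (fun y => ∃ x : G, y = x * t * x⁻¹) F ∧
      ∀ (x : G) (H : ∀ z ∈ Cen (x * t * x⁻¹), x⁻¹ * z * x⁻¹⁻¹ ∈ Cen t)
        (z : ZC ℚ (n + 1) (Cen (x * t * x⁻¹))),
        evc (fun z : Cen (x * t * x⁻¹) => (z : G)) F
          (psi ℚ (n + 1) _ (ch ℚ (n + 1) _ z)) (x * t * x⁻¹) =
          lam (Hk.map ℚ (n + 1) (cHom x⁻¹ H) (cl ℚ (n + 1) _ z))

/-- FCH (uses FCA, FCW): from functionals to families of cocycles.

Proof.  We may shrink `T` to a set of pairwise non conjugate elements (a subset `T'` which contains exactly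
one element of every conjugacy class which meets `T`).  For `t ∈ T'` and a prime `p` with `Adm p t` let
`F_(p,t)` be the family of FCA for `lam = Lam p t`; `L p = ∑ F_(p,t)` over the `t ∈ T'` with `Adm p t` (and
`L p = 0` if `p` is not prime): a `GCoch (n+1)`, supported on the `y` conjugate to such a `t`, hence of
finite order divisible by `p`.
Values: for a cycle `z` of `Cen h`, `evc .. (L p) (psi (ch z)) h = Lam p h (cl z)`: if `h` is not conjugate
to an element `t ∈ T'` with `Adm p t` then both sides are `0` (if `h = x t x⁻¹` with `¬ Adm p t` then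
`¬ Adm p h`, because the orders are the same; `FamL.adm`, `FamL.supp`); if `h = x t x⁻¹` (subst) then only the
term `t` contributes, and it is `Lam p t (Hk.map (cHom x⁻¹) (cl z))`, which is `Lam p h (cl z)` by
`FamL.conj` applied to `x`, `t`, `c = Hk.map (cHom x⁻¹) (cl z)` (`Hk.map_comp`, the composite of the two
conjugations is the identity, `Hk.map_id`, see `Hom.lean`).
`frob`: by FCW (a), (b) we may take `w = psi (ch z)` (`h' ∈ zpowers h`).  Let `z'` be the image of `z` under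
`cHom 1 : Cen h → Cen h'` (a cycle with `cl z' = Hk.map .. (cl z)`, `Hk.map_cl`); `evc .. w h' =
evc .. (psi (ch z')) h'` since `1 * z * 1⁻¹ = z` (`psi_map`), so `evc .. w h' = Lam p h' (cl z') =
Lam p h (cl z) = evc .. w h`.  `sum`: the same for all `h' = h ^ a`. -/
def S_FCH : Prop := ∀ (G : Type) [Group G] (n : ℕ) (T : Finset G),
    ∀ Lam : ∀ (_ : ℕ) (h : G), Hk ℚ (n + 1) (Cen h) →ₗ[ℚ] ℚ, FamL n T Lam →
    (∀ p : ℕ, ∀ t ∈ T, DenL n (Lam p t)) →
    ∃ L : ℕ → (Fin (n + 2) → G) → G → ℚ, FamC n L ∧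
      ∀ (p : ℕ) (h : G), p.Prime → ∀ z : ZC ℚ (n + 1) (Cen h),
        evc (fun z : Cen h => (z : G)) (L p) (psi ℚ (n + 1) _ (ch ℚ (n + 1) _ z)) h =
          Lam p h (cl ℚ (n + 1) _ z)

/-! ## Modules FNA, FNB, FNC, FINC -/

/-- FNA: the equation `QF.loc` for the idempotents of the family `NodeD`: only the `j` with
`p j = p`, `N j = n0` contribute.

Proof: in `QF.loc` the terms with `p j ≠ p` vanish (`NodeD.away`), the terms with `c` not a generator vanish
(`NodeD.top`, if `p j = p`), and if `c` generates `C_(N j)` then `D.φ j c` has order `N j` (injectivity), so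
`evc F .. = 0` by `GCoch.supp` unless `N j = n0`.  For `p j = p`, `N j = n0` the sum over the generators `c`
is the sum over the units `u` of `ZMod (N j)`, `c = ofAdd u` (`unitsGens`, `gen_iff_isUnit` in Class0.lean),
and `D.φ j (ofAdd u) = h_j ^ (u : ZMod (N j)).val`.  To avoid casts, write the term as `S (N j)` for the
function `S (N) = ∑ u : (ZMod N)ˣ, v N p p (ofAdd u) * (g (u : ZMod N).val)` of `N` (with `g : ℕ → ℚ_p`) and
substitute. -/
def S_FNA : Prop :=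
    ∀ (ε : ∀ N : ℕ, ℕ → IdemMat (LaurentPolynomial (MonoidAlgebra ℤ (Cyc N))))
      (v : ∀ (N : ℕ) (_ : ℕ) (q : ℕ), [Fact q.Prime] → Cyc N → ℚ_[q]) (K : ℕ → ℕ), NodeD ε v K →
    ∀ (G : Type) [Group G] (n n0 : ℕ) [NeZero n0] (D : Dat G n)
      (Q : ((Fin (n + 2) → G) → G → ℚ) → ℚ), QF D (fun j p _ => v (D.N j) (D.p j) p) n0 Q →
    ∀ F : (Fin (n + 2) → G) → G → ℚ, GCoch (n + 1) (fun y => orderOf y = n0) F →
    ∀ (p : ℕ) [Fact p.Prime], p ∣ n0 →
      ∑ u : (ZMod n0)ˣ, v n0 p p (Multiplicative.ofAdd (u : ZMod n0)) *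
        ((∑ j ∈ D.s with D.N j = n0 ∧ D.p j = p, D.q j *
          evc (fun z : Cen (D.φ j (gen (D.N j))) => (z : G)) F (D.w j)
            (D.φ j (gen (D.N j)) ^ (u : ZMod n0).val) : ℚ) : ℚ_[p]) = ((Q F : ℚ) : ℚ_[p])

/-- The restriction of a family to the elements of order `n0`. -/
def rsF {G : Type} [Group G] {m : ℕ} (n0 : ℕ) (F : (Fin m → G) → G → ℚ) : (Fin m → G) → G → ℚ :=
  fun a y => if orderOf y = n0 then F a y else 0

/-- FNB (uses FNA): the value of `Q` on the restriction of `L p` to the elements of order `n0`.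

Proof: `F = rsF n0 (L p)` is a `GCoch (n+1)` supported on the order `n0` (conjugate elements have the same
order).  FNA and `NodeD.cls` with `Y u = ∑_j q_j evc F w_j (h_j^u)`, `y = Q F`, `z = 1`:
`K n0 * ∑_(u ∼ 1) Y u = Q F * card`, and `Y u = Y 1` for `u ∼ 1`: `uRel n0 p u 1` says
`u p^j = p^k` in `ZMod n0`, so `(h^u)^(p^j) = h^(p^k)` for `h` of order `n0` (`orderOf h_j = N j = n0` by
injectivity), `h^u` and `h` generate the same group, `FamC.frob`; `evc F w (h^u) = evc (L p) w (h^u)` as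
`h^u` has order `n0`.  The class of `1` is not empty, so its cardinality cancels. -/
def S_FNB : Prop :=
    ∀ (ε : ∀ N : ℕ, ℕ → IdemMat (LaurentPolynomial (MonoidAlgebra ℤ (Cyc N))))
      (v : ∀ (N : ℕ) (_ : ℕ) (q : ℕ), [Fact q.Prime] → Cyc N → ℚ_[q]) (K : ℕ → ℕ), NodeD ε v K →
    ∀ (G : Type) [Group G] (n n0 : ℕ) [NeZero n0] (D : Dat G n)
      (Q : ((Fin (n + 2) → G) → G → ℚ) → ℚ), QF D (fun j p _ => v (D.N j) (D.p j) p) n0 Q →
    ∀ L : ℕ → (Fin (n + 2) → G) → G → ℚ, FamC n L → ∀ p : ℕ, p.Prime → p ∣ n0 →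
      (K n0 : ℚ) * ∑ j ∈ D.s with D.N j = n0 ∧ D.p j = p, D.q j *
          evc (fun z : Cen (D.φ j (gen (D.N j))) => (z : G)) (L p) (D.w j)
            (D.φ j (gen (D.N j))) = Q (rsF n0 (L p))

/-- FNC (uses FNA): the value of `Q` on the sum of the families is zero.

Proof: let `F = ∑_(p ∣ n0) rsF n0 (L p)` (over the prime factors of `n0`), a `GCoch (n+1)` supported on the
order `n0`, and `F' = ∑_a twF n0 a F` over the `a < n0` prime to `n0`.  By `QF.add`, `QF.smul` (`Q 0 = 0`) and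
`QF.gal`, `Q F' = φ(n0) * Q F`, `φ(n0) > 0`.  If `n0 = 1` then `F = 0` (no prime factors), `Q F = 0`.
Otherwise let `p` be a prime factor of `n0` and apply FNA to `F'` (which is a `GCoch`): it suffices to
show `evc F' w_j (h_j^u) = 0` for `N j = n0`, `u` a unit.  It is `∑_a ∑_(p ∣ n0) evc (L p) w_j (h_j^(u a))`
(as `h_j^u` and `h_j^(u a)` have order `n0`), and `a ↦ u a mod n0` permutes the residues prime to `n0`, so
this is `FamC.sum` for `h_j`. -/
def S_FNC : Prop :=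
    ∀ (ε : ∀ N : ℕ, ℕ → IdemMat (LaurentPolynomial (MonoidAlgebra ℤ (Cyc N))))
      (v : ∀ (N : ℕ) (_ : ℕ) (q : ℕ), [Fact q.Prime] → Cyc N → ℚ_[q]) (K : ℕ → ℕ), NodeD ε v K →
    ∀ (G : Type) [Group G] (n n0 : ℕ) [NeZero n0] (D : Dat G n)
      (Q : ((Fin (n + 2) → G) → G → ℚ) → ℚ), QF D (fun j p _ => v (D.N j) (D.p j) p) n0 Q →
    ∀ L : ℕ → (Fin (n + 2) → G) → G → ℚ, FamC n L →
      Q (fun a y => ∑ p ∈ n0.primeFactors, rsF n0 (L p) a y) = 0

/-- FINC (uses REL3, FNB, FNC): the final descent.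

Proof: the sum over `j` is the sum over the finitely many values `n0` of `N j`, of the sums over `j` with
`N j = n0`, and these are the sums over the primes `p ∣ n0` of the sums over `j` with `N j = n0`, `p j = p`
(`D.dvd`).  For fixed `n0` let `Q` be the functional of REL3 with `e j = ε (N j) (p j)`,
`v j p = v (N j) (p j) p` (`NodeD.loc`).  By FNB and the additivity of `Q`,
`K n0 * ∑_(p ∣ n0) ∑_(j : N j = n0, p j = p) q_j evc (L p) w_j h_j = Q (∑_p rsF n0 (L p)) = 0` (FNC), and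
`K n0 > 0`. -/
def S_FINC : Prop :=
    ∀ (ε : ∀ N : ℕ, ℕ → IdemMat (LaurentPolynomial (MonoidAlgebra ℤ (Cyc N))))
      (v : ∀ (N : ℕ) (_ : ℕ) (q : ℕ), [Fact q.Prime] → Cyc N → ℚ_[q]) (K : ℕ → ℕ), NodeD ε v K →
    ∀ (G : Type) [Group G] (bG : ℕ), TorBd G bG → ∀ (n : ℕ) (D : Dat G n),
    D.ch (fun j => ε (D.N j) (D.p j)) ∈
      LinearMap.range (bdS (LaurentPolynomial (MonoidAlgebra ℤ G)) (n + 2)) ⊔
        Kil (MonoidAlgebra ℤ G) (n + 2) →
    ∀ L : ℕ → (Fin (n + 2) → G) → G → ℚ, FamC n L →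
    ∑ j ∈ D.s, D.q j * evc (fun z : Cen (D.φ j (gen (D.N j))) => (z : G)) (L (D.p j)) (D.w j)
      (D.φ j (gen (D.N j))) = 0

end Pool.Agent.FJA
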