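import Pool.Agent.FJA.St3

/-!
# Phase 2, functional side: marked recorded paths

`p` is a prime, `Γ` a group with torsion bounded by `b < p ^ B`, `N = p ^ k`.
-/

set_option autoImplicit false

open Matrix Pool.Agent.WhK Pool.Agent.Lib25

noncomputable section

namespace Pool.Agent.FJA

/-! ## Definitions -/

/-- The balanced recorded paths: all lists have the same length. -/
def Bal (Γ V : Type) [Group Γ] : Submonoid (Rec Γ V) where
  carrier := {μ | ∃ n : ℕ, ∀ i, (μ.lst i).length = n}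
  one_mem' := ⟨0, fun _ => rfl⟩
  mul_mem' := by
    rintro μ ν ⟨n, hn⟩ ⟨m, hm⟩
    refine ⟨n + m, fun i => ?_⟩
    rw [Rec.mul_lst, List.length_append, List.length_map, hn i, hm i]

/-- A marking of level `k`: it attaches to a list of length `p ^ k` and an element `y` of finite order
divisible by `p` a residue modulo `p ^ (k - B)`, invariantly under the group, and it increases by one
under the rotation of the list. -/
structure Mrk (Γ : Type) [Group Γ] (p k B : ℕ) (j : List Γ → Γ → ZMod (p ^ (k - B))) : Prop where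
  cj : ∀ (γ : Γ) (Y : List Γ) (y : Γ), j (Y.map (γ * ·)) (γ * y * γ⁻¹) = j Y y
  rot : ∀ (a : Γ) (Y : List Γ) (y : Γ), Y.length + 1 = p ^ k → IsOfFinOrder y → p ∣ orderOf y →
    j (Y ++ [y * a]) y = j (a :: Y) y + 1

/-- The function `ψ`: the value of the family `F` on the section of the recorded positions with the
first labels, times the difference of the markings of the last two labels. -/
def psiM {Γ : Type} [Group Γ] {M : ℕ} (p k B : ℕ) (F : (Fin (M + 1) → Γ) → Γ → ℚ)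
    (s : List Γ → Γ → (Γ →₀ ℚ)) (j : List Γ → Γ → ZMod (p ^ (k - B))) (μ : Rec Γ (Fin (M + 2))) :
    ℚ := by
  classical
  exact if (∀ i, (μ.lst i).length = p ^ k) ∧ IsOfFinOrder μ.val ∧ p ∣ orderOf μ.val then
    evs F s (Rec.res Fin.castSucc μ) *
      (((j (μ.lst (Fin.last (M + 1))) μ.val - j (μ.lst (Fin.last M).castSucc) μ.val).val : ℕ) : ℚ)
  else 0

/-- The coboundary of a function on recorded paths. -/
def cobR {Γ : Type} [Group Γ] {M : ℕ} (φ : Rec Γ (Fin M) → ℚ) (μ : Rec Γ (Fin (M + 1))) : ℚ :=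
  ∑ i : Fin (M + 1), (-1 : ℚ) ^ (i : ℕ) * φ (Rec.res i.succAbove μ)

/-- A rotation invariant section with denominators dividing `c`. -/
structure SecR {Γ : Type} [Group Γ] (c : ℕ) (s : List Γ → Γ → (Γ →₀ ℚ)) : Prop where
  sec : Sec s
  rot : ∀ (a : Γ) (Y : List Γ) (y : Γ), IsOfFinOrder y → s (Y ++ [y * a]) y = s (a :: Y) y
  den : ∀ (Y : List Γ) (y x : Γ), ∃ z : ℤ, (c : ℚ) * s Y y x = z

/-! ## Module GAS -/

/-- GAS (uses GAU): the Gauss congruence for matrices supported in a submonoid `S`, on which `φ` is a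
trace function.

Proof: every element of `ℚ_ℓ[M]` supported in `S` is the image of an element of `ℚ_ℓ[S]` (`mapDomain`
along the inclusion `S → M`, coefficients `x.coeff ∘ Subtype.val`, finite support by
`Finsupp.comapDomain`); so `U` is the image of a matrix `U'` over `ℚ_ℓ[S]` with the same coefficients,
and `lin φ (tr U^n) = lin (φ ∘ Subtype.val) (tr U'^n)`.  Apply `S_GAU` to the monoid `↥S`, the
function `φ ∘ Subtype.val` and `U'`. -/
def S_GAS : Prop := ∀ (ℓ : ℕ) [Fact ℓ.Prime] (M : Type) [Monoid M] (S : Submonoid M) (ι : Type)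
    [Fintype ι] [DecidableEq ι] (φ : M → ℚ) (D : ℕ),
    (∀ μ ∈ S, ∀ ν ∈ S, φ (μ * ν) = φ (ν * μ)) → 0 < D → (∀ μ, ∃ z : ℤ, (D : ℚ) * φ μ = z) →
    ∀ (U : Matrix ι ι (MonoidAlgebra ℚ_[ℓ] M)), NIM U →
    (∀ a b μ, (U a b).coeff μ ≠ 0 → μ ∈ S) → ∀ n : ℕ,
    ‖(D : ℚ_[ℓ]) * (lin ℚ_[ℓ] φ (Matrix.trace (U ^ ℓ ^ (n + 1))) -
      lin ℚ_[ℓ] (fun μ => φ (μ ^ ℓ)) (Matrix.trace (U ^ ℓ ^ n)))‖ ≤ (ℓ : ℝ) ^ (-(n + 1 : ℤ))

/-! ## Module DIV -/

/-- DIV (uses GAS, GAUint): divisibility.  A trace function on the balanced records, supported on the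
records whose endpoint has finite order divisible by `p`, with values in `(p ^ e / D) ℤ`, has `p ^ k`-fold
traces divisible by `p ^ (e + k - B)`.

Proof: `φ = p^e φ'`, `D φ' ∈ ℤ`.  The entries of `U = UX X` are supported in `Bal` (the lists of the
paths in the support have length one, see P_TXD.lean) and integral (GAUint).  For `i = 0, …, B - 1`
the function `φ_i μ = φ' (μ^(p^i))` is again a trace function on `Bal`
(`(μ ν)^n = μ (ν μ)^(n-1) ν`) with `D φ_i ∈ ℤ`, so by GAS (level `n + 1 = k - i ≥ 1`)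
`D (lin φ_i (tr U^(p^(k-i))) - lin φ_(i+1) (tr U^(p^(k-i-1))))` has norm at most
`p^(-(k-i)) ≤ p^(-(k-B))`.  And `φ_B = 0`: if `φ' (μ^(p^B)) ≠ 0` then `μ.val^(p^B)` has finite order
divisible by `p`, so `μ.val` has finite order divisible by `p^(B+1)`, but `orderOf μ.val ≤ b < p^B`.
Sum up (ultrametric). -/
def S_DIV : Prop := ∀ (Γ : Type) [Group Γ] (b : ℕ), TorBd Γ b → ∀ (p : ℕ) [Fact p.Prime] (B : ℕ),
    b < p ^ B → ∀ (k : ℕ), B ≤ k → ∀ (M : ℕ) (φ : Rec Γ (Fin M) → ℚ) (D e : ℕ), 0 < D →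
    (∀ μ ∈ Bal Γ (Fin M), ∀ ν ∈ Bal Γ (Fin M), φ (μ * ν) = φ (ν * μ)) →
    (∀ μ, φ μ ≠ 0 → IsOfFinOrder μ.val ∧ p ∣ orderOf μ.val) →
    (∀ μ, ∃ z : ℤ, (D : ℚ) * φ μ = (p : ℚ) ^ e * z) →
    ∀ (ι : Type) [Fintype ι] [DecidableEq ι]
      (X : Fin M → (Matrix ι ι (MonoidAlgebra ℚ_[p] Γ))ˣ), (∀ i, NIU (X i)) →
    ‖(D : ℚ_[p]) * TX φ (p ^ k) X‖ ≤ (p : ℝ) ^ (-((e : ℤ) + k - B))

/-! ## Module MRK -/

/-- MRK: existence of markings.

Proof.  Let `P` be the set of pairs `(Y, y)`, `Y.length = p ^ k`, `y` of finite order divisible by `p`.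
`Γ` acts on `P` by `γ (Y, y) = (γ Y, γ y γ⁻¹)`, and `rot (a :: Y, y) = (Y ++ [y a], y)` is a bijection of
`P` which commutes with the action, with `rot^(p^k) (Y, y) = (y Y, y) = y (Y, y)`.  The relation
`(Y', y') = γ rot^r (Y, y)` for some `γ`, `r ∈ ℕ`, is an equivalence relation (see P_SEC.lean for the
same relation).  Choose a representative `q` in every class and put `j (γ rot^r q) = r`, for `r ∈ ℕ`, and
`j = 0` outside of `P`.  Well defined modulo `p^(k-B)`: if `γ rot^r q = γ' rot^r' q` with `r ≤ r'` then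
`δ rot^d q = q` with `d = r' - r`, `δ = γ⁻¹ γ'`.  CLAIM: `p^(k-B) ∣ d`.  The integers `d` for which some
`δ` with `δ rot^d q = q` exists form a subgroup of `ℤ` (take `rot` as a bijection, or stay in `ℕ` modulo
`p^k`) which contains `p^k` (`δ = y⁻¹`), so it is generated by `p^i` for some `i ≤ k`; let `i' = k - i`
and `δ rot^(p^i) q = q`.  Iterating `p^(i')` times: `δ^(p^i') rot^(p^k) q = q`, i.e. `δ^(p^i') y Y = Y`, so
`δ^(p^i') = y⁻¹` (`Y` is not empty).  So `δ` has finite order, and because `p` divides the order of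
`δ^(p^i')`, `p^(i'+1)` divides the order of `δ`, which is `≤ b < p^B`: `i' < B`, `i > k - B`. -/
def S_MRK : Prop := ∀ (Γ : Type) [Group Γ] (b : ℕ), TorBd Γ b → ∀ (p : ℕ) [Fact p.Prime] (B : ℕ),
    b < p ^ B → ∀ k : ℕ, B ≤ k → ∃ j : List Γ → Γ → ZMod (p ^ (k - B)), Mrk Γ p k B j

/-! ## Modules PSA, PSB, PSC -/

/-- PSA (uses EVS, MEX): `psiM` is a trace function on the balanced records.

Proof: let `μ, ν` be balanced with lists of lengths `n`, `n'`; if `n + n' ≠ p^k` both sides are `0`.  The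
endpoints `μ.val ν.val` and `ν.val μ.val` are conjugate, so the condition on the order is the same.  The
factor `evs F s` is a trace function (EVS (a) with `SecR.rot`; `Rec.res` is a homomorphism).  For the
markings: the lists with label `i` are `Y = μ.lst i`, `Y' = ν.lst i`: `Y ++ μ.val Y'` for `μ ν` and
`Y' ++ ν.val Y` for `ν μ`.  By `Mrk.cj` with `γ = μ.val` the marking of the second one equals that of
`(μ.val Y' ++ y Y, y)`, `y = μ.val ν.val`, which is the rotation of `(Y ++ μ.val Y', y)` by `n = length Y`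
steps: the marking increases by `n` (induction on `n` with `Mrk.rot`), the same `n` for all labels, so
the difference of two markings does not change. -/
def S_PSA : Prop := ∀ (Γ : Type) [Group Γ] (σ : Γ →* Multiplicative ℤ) (p k B : ℕ) (M c : ℕ)
    (F : (Fin (M + 1) → Γ) → Γ → ℚ) (s : List Γ → Γ → (Γ →₀ ℚ))
    (j : List Γ → Γ → ZMod (p ^ (k - B))), Coch σ M F → SecR c s → Mrk Γ p k B j →
    ∀ μ ∈ Bal Γ (Fin (M + 2)), ∀ ν ∈ Bal Γ (Fin (M + 2)),
      psiM p k B F s j (μ * ν) = psiM p k B F s j (ν * μ)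

/-- PSB (uses EVS, MEX): `psiM` is a null function with bounded denominators, uniformly in `k` and `j`.

Proof: conjugation: `inc γ * μ` and `μ * inc γ`: the lists `γ Y_i` and `Y_i`, the values `γ y` and
`y γ`, conjugate by `γ`; `Sec.inv`, `Coch.inv`, MEX (e), `Mrk.cj`.  `fin`: clear.  `flat`: if all recorded
positions have the same image under `σ` then so have the elements in the supports of the sections
(`Sec.supp`, `σ y = 1` because `y` has finite order), and `F` vanishes on tuples with constant `σ`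
(`Coch.flat`), MEX (f) (this is contained in P_SCH.lean or P_EVS.lean for `evs`).  Denominators: EVS (b)
for `evs F s`; the other factor is a natural number. -/
def S_PSB : Prop := ∀ (Γ : Type) [Group Γ] (σ : Γ →* Multiplicative ℤ) (p B : ℕ) (M c : ℕ)
    (F : (Fin (M + 1) → Γ) → Γ → ℚ) (s : List Γ → Γ → (Γ →₀ ℚ)), Coch σ M F → SecR c s →
    (∀ (k : ℕ) (j : List Γ → Γ → ZMod (p ^ (k - B))), Mrk Γ p k B j →
      NullFun σ (psiM p k B F s j)) ∧
    (0 < c → ∃ D : ℕ, 0 < D ∧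
      (∀ μ : Rec Γ (Fin (M + 1)), ∃ z : ℤ, (D : ℚ) * evs F s μ = z) ∧
      ∀ (k : ℕ) (j : List Γ → Γ → ZMod (p ^ (k - B))) (μ : Rec Γ (Fin (M + 2))),
        ∃ z : ℤ, (D : ℚ) * psiM p k B F s j μ = z)

/-- PSC (uses EVS, MEX): the coboundary of `psiM` is divisible by `p ^ (k - B)`.

Proof.  Let `μ : Rec Γ (Fin (M + 3))` have all lists of length `p^k ≥ 1` and an endpoint `y` of finite order
divisible by `p` (otherwise all terms are zero: the faces have the same endpoint; if some list, say with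
label `l`, has the wrong length, only the face `i = l` can be nonzero.  CAUTION: so restrict to balanced
records; this is why the hypothesis `μ ∈ Bal` is there: if all lists have the same length `≠ p^k` every
term vanishes).  Put `β(a, b) = ((j Y_b - j Y_a).val : ℚ)` and `α_i` (`i ≤ M + 1`) = the value of `evs F s` on
the labels `{0, …, M + 1}` without `i`.  The faces: for `i ≤ M` the term is `(-1)^i α_i β(M+1, M+2)`; for
`i = M + 1`: `(-1)^(M+1) α_(M+1) β(M, M+2)`; for `i = M + 2`: `(-1)^(M+2) α_(M+1) β(M, M+1)`.  By the cocycle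
identity for `F` (MEX (b), (c), as in SCH) `∑_(i ≤ M+1) (-1)^i α_i = 0`, so the sum is
`(-1)^M α_(M+1) (β(M+1, M+2) - β(M, M+2) + β(M, M+1))`.  With `x = j Y_(M+1) - j Y_M`,
`x' = j Y_(M+2) - j Y_(M+1)` the bracket is `x'.val + x.val - (x + x').val`, which is `0` or `p^(k-B)`
(`ZMod.val_add`, natural numbers), and `D * α_(M+1)` is an integer. -/
def S_PSC : Prop := ∀ (Γ : Type) [Group Γ] (σ : Γ →* Multiplicative ℤ) (p : ℕ) [Fact p.Prime]
    (B M c D : ℕ) (F : (Fin (M + 1) → Γ) → Γ → ℚ) (s : List Γ → Γ → (Γ →₀ ℚ)), Coch σ M F →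
    SecR c s → (∀ μ : Rec Γ (Fin (M + 1)), ∃ z : ℤ, (D : ℚ) * evs F s μ = z) →
    ∀ (k : ℕ) (j : List Γ → Γ → ZMod (p ^ (k - B))), Mrk Γ p k B j →
    ∀ μ ∈ Bal Γ (Fin (M + 3)), ∃ z : ℤ,
      (D : ℚ) * cobR (psiM p k B F s j) μ = (p : ℚ) ^ (k - B) * z

/-! ## Module BND -/

/-- BND (uses DIV, PSA, PSB, PSC, TXlin, TXfac, TXlen): the values on boundaries.

Proof: for a basis element `x = (r, X)` of `KCh`, `TK ψ N (bdK (single x 1)) =
∑ (-1)^i TX ψ N (X ∘ i.succAbove) = TX (cobR ψ) N X` (TXfac, TXlin).  Let `φ = cobR ψ` on `Bal` and `0`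
outside of `Bal`: `TX (cobR ψ) N X = TX φ N X` (TXlen, `N = p^k`).  `φ` satisfies the hypotheses of DIV with
`e = k - B` (PSC) and `D` of PSB: it is a trace function on `Bal` because `ψ` is one (PSA; `Rec.res`
preserves products and `Bal`), and if `φ μ ≠ 0` then some `ψ (res μ) ≠ 0`, so `μ.val` has finite order
divisible by `p`.  So `‖D * TX φ (p^k) X‖ ≤ p^(-(2k - 2B))`.  Sum over the support of `Bc`:
`C = p^(2B) ‖D‖⁻¹ max ‖Bc x‖`. -/
def S_BND : Prop := ∀ (Γ : Type) [Group Γ] (σ : Γ →* Multiplicative ℤ) (b : ℕ), TorBd Γ b →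
    ∀ (p : ℕ) [Fact p.Prime] (B : ℕ), b < p ^ B → ∀ (M c : ℕ), 0 < c →
    ∀ (F : (Fin (M + 1) → Γ) → Γ → ℚ) (s : List Γ → Γ → (Γ →₀ ℚ)), Coch σ M F → SecR c s →
    ∀ Bc : KCh ℚ_[p] Γ (M + 3), (∀ x ∈ Bc.support, ∀ i, NIU (x.2 i)) →
    ∃ C : ℝ, ∀ k : ℕ, B ≤ k → ∀ j : List Γ → Γ → ZMod (p ^ (k - B)), Mrk Γ p k B j →
      ‖TK ℚ_[p] (psiM p k B F s j) (p ^ k) (bdK _ _ (M + 2) Bc)‖ ≤ C * (p : ℝ) ^ (-(2 * k : ℤ))

/-! ## Module REB -/

/-- REB (uses KCB, KIL, HTP, FVX): REA with a further chain `E`.  The proof is that of REA (P_REA.lean):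
`TK η (bdK BT) = TS η (∂ b) - TS η (D.ch e) = TS η (∂ b) - TS η (∂ b + κ - E) = TS η E`. -/
def S_REB : Prop := ∀ (k : Type) [Field k] [CharZero k] (G : Type) [Group G] (n : ℕ) (D : Dat G n)
    (e : ∀ j, IdemMat (LaurentPolynomial (MonoidAlgebra ℤ (Cyc (D.N j)))))
    (d : ∀ j, Fin (e j).n → Bool)
    (T : ∀ j, (Matrix (Fin (e j).n) (Fin (e j).n)
      (MonoidAlgebra k (Cyc (D.N j) × Multiplicative ℤ)))ˣ),
    (∀ j, Trv k (e j) (d j) (T j)) →
    ∀ (b : SCh (LaurentPolynomial (MonoidAlgebra ℤ G)) (n + 3))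
      (κ E : SCh (LaurentPolynomial (MonoidAlgebra ℤ G)) (n + 2)),
    κ ∈ Kil (MonoidAlgebra ℤ G) (n + 2) →
    D.ch e + E = bdS (LaurentPolynomial (MonoidAlgebra ℤ G)) (n + 2) b + κ →
    ∀ (η : Rec (G × Multiplicative ℤ) (Fin (n + 2)) → ℚ) (N : ℕ), NullFun (sg2 G) η →
    TK k η N (bdK k _ (n + 2) (BT k D e b T)) = TS k η N E

/-! ## Module LAM -/

/-- LAM (uses BND, REB, NIB, CUP, PSB): the conclusion of the functional side.

Proof: `cup F` is a `Coch (sg2 G) (m + 1)` (CUP (b)), `TorBd (G × Z') bG` (`RLP.torBd` in P_RLP.lean).  From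
`LocE` choose the trivialisations `d j`, `T j` over `ℚ_p` (`NIU (T j)`, `Trv`), from the last hypothesis
`b`, `κ`.  `Bc = BT ℚ_p D e b T` has integral vertices (NIB), so BND (with `M = m + 1`, `Γ = G × Z'`,
`σ = sg2 G`) bounds `TK ψ (p^k) (bdK Bc)`, which is `TS ψ (p^k) E` by REB (`n = m + 1`) and PSB. -/
def S_LAM : Prop := ∀ (G : Type) [Group G] (bG : ℕ), TorBd G bG → ∀ (p : ℕ) [Fact p.Prime] (B : ℕ),
    bG < p ^ B → ∀ (m c : ℕ), 0 < c → ∀ (S : G → Prop) (F : (Fin (m + 1) → G) → G → ℚ),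
    (∀ y, S y → IsOfFinOrder y) → GCoch m S F →
    ∀ s : List (G × Multiplicative ℤ) → G × Multiplicative ℤ → (G × Multiplicative ℤ →₀ ℚ),
    SecR c s →
    ∀ (D : Dat G (m + 1)) (e : ∀ j, IdemMat (LaurentPolynomial (MonoidAlgebra ℤ (Cyc (D.N j)))))
      (v : ∀ (j : D.J) (q : ℕ), [Fact q.Prime] → Cyc (D.N j) → ℚ_[q]),
    (∀ j, LocE (e j) (fun q _ => v j q)) →
    ∀ E : SCh (LaurentPolynomial (MonoidAlgebra ℤ G)) (m + 3),
    D.ch e + E ∈ LinearMap.range (bdS (LaurentPolynomial (MonoidAlgebra ℤ G)) (m + 3)) ⊔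
      Kil (MonoidAlgebra ℤ G) (m + 3) →
    ∃ C : ℝ, ∀ k : ℕ, B ≤ k →
      ∀ j : List (G × Multiplicative ℤ) → G × Multiplicative ℤ → ZMod (p ^ (k - B)),
      Mrk (G × Multiplicative ℤ) p k B j →
      ‖TS ℚ_[p] (psiM p k B (cup F) s j) (p ^ k) E‖ ≤ C * (p : ℝ) ^ (-(2 * k : ℤ))

end Pool.Agent.FJA
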