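import Pool.Agent.FJA.StW

/-!
# The Dennis trace of group algebras over fields: statements of the modules

The component `i = 0` of the Chern character of `k[G]`, `k` a field of characteristic zero.  At an element of finite
order `m` its values on integral classes are as for characters of finite groups (`P(ζ ^ j)` with a polynomial
`P ∈ ℚ[X]`), at the elements of infinite order they vanish under the conditions of DennisTrace.

Idea of the proof.  `DZ F z` is the value of the family `F` on the cycle `z`.  The Gauss congruence for the `ℓ`-fold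
functional of a rotation invariant section gives `DZ F z ≡ (DZ (powF ℓ F) z) ^ ℓ` modulo `ℓ` for all large primes `ℓ`
(HMC).  So `x_j ≡ (x_(ℓ j)) ^ ℓ` for `x_j = DZ (twF m j F) z`, and `w_c = ∑_j ζ^(c / j) x_j` satisfies `w_c ^ ℓ ≡ w_c` modulo `ℓ`
for almost all primes `ℓ`, which implies that `w_c` is rational (NTL).
-/

set_option autoImplicit false

open Matrix Pool.Agent.WhK Pool.Agent.Lib25 NumberField

noncomputable section

namespace Pool.Agent.FJA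

/-- `x` is `ℓ`-integral over the ring generated by `s`. -/
def LI {k : Type} [Field k] (s : Finset k) (ℓ : ℕ) (x : k) : Prop :=
  ∃ d : ℤ, ¬ (ℓ : ℤ) ∣ d ∧ (d : k) * x ∈ Subring.closure (s : Set k)

/-- `x` is divisible by `ℓ` in the localization at `ℓ` of the ring generated by `s`. -/
def LD {k : Type} [Field k] (s : Finset k) (ℓ : ℕ) (x : k) : Prop :=
  ∃ d : ℤ, ¬ (ℓ : ℤ) ∣ d ∧ ∃ a ∈ Subring.closure (s : Set k), (d : k) * x = (ℓ : k) * a

/-- The value of the family `F` on the Dennis trace of the chain `z`. -/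
def DZ {k : Type} [Field k] {G : Type} [Group G] {n r : ℕ} (F : (Fin (n + 1) → G) → G → ℚ)
    (z : (Fin (n + 1) → (Matrix (Fin r) (Fin r) (MonoidAlgebra k G))ˣ) →₀ ℚ) : k :=
  z.sum fun X q => (q : k) * TX (fst F) 1 X

/-- The conditions at the elements of finite order: `f = f' + cobE E`, `f'` a cocycle which is invariant under
powers of `y` in each variable and whose denominators only contain finitely many primes. -/
def RatY {G : Type} [Group G] (n : ℕ) (y : G) (f : (Fin (n + 1) → G) → ℚ) : Prop :=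
  ∃ (f' : (Fin (n + 1) → G) → ℚ) (E : (Fin n → G) → ℚ), CInv y f' ∧ CInv y E ∧
    (∀ (t : Fin (n + 1) → ℤ) (a : Fin (n + 1) → G), f' (fun i => y ^ t i * a i) = f' a) ∧
    (∀ a : Fin (n + 2) → G, cobE f' a = 0) ∧ (∀ a, f a = f' a + cobE E a) ∧
    ∃ D : ℕ, 0 < D ∧ ∀ (a : Fin (n + 1) → G) (p : ℕ), p.Prime → p ∣ (f' a).den → p ∣ D

/-! ## Modules LDA, GAC: congruences -/

/-- LDA: rules for `LI` and `LD`.

Proof.  Let `A` be the ring generated by `s`.  (a), (b) direct (`ℓ` prime: products of integers prime to `ℓ` are prime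
to `ℓ`).  (c) The binomial coefficients `ℓ choose i`, `0 < i < ℓ`, are divisible by `ℓ`; induction on the finset.  (d) For
integers: Fermat (`ZMod.pow_card` or `Int.ModEq.pow_card_sub_one_eq_one`); for `q = a / b`, `ℓ ∤ b`:
`b ^ (ℓ + 1) * (q ^ ℓ - q) = b a ^ ℓ - b ^ ℓ a` is divisible by `ℓ`.  (e) `x ^ ℓ - y ^ ℓ` is `x - y` times an element which is `LI`.
(f), (g) clear. -/
def S_LDA : Prop := ∀ (k : Type) [Field k] [CharZero k] (s : Finset k) (ℓ : ℕ), ℓ.Prime →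
    ((∀ x ∈ s, LI s ℓ x) ∧ (∀ q : ℚ, ¬ ℓ ∣ q.den → LI s ℓ (q : k)) ∧
      (∀ x y, LI s ℓ x → LI s ℓ y → LI s ℓ (x + y) ∧ LI s ℓ (x - y) ∧ LI s ℓ (x * y)) ∧
      (∀ x, LI s ℓ x → ∀ m : ℕ, LI s ℓ (x ^ m))) ∧
    ((∀ x y, LD s ℓ x → LD s ℓ y → LD s ℓ (x + y) ∧ LD s ℓ (x - y)) ∧
      (∀ x y, LI s ℓ x → LD s ℓ y → LD s ℓ (x * y)) ∧
      (∀ (I : Type) (J : Finset I) (x : I → k), (∀ i ∈ J, LD s ℓ (x i)) → LD s ℓ (∑ i ∈ J, x i))) ∧
    (∀ (I : Type) (J : Finset I) (x : I → k), (∀ i ∈ J, LI s ℓ (x i)) →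
      LD s ℓ ((∑ i ∈ J, x i) ^ ℓ - ∑ i ∈ J, x i ^ ℓ)) ∧
    (∀ q : ℚ, ¬ ℓ ∣ q.den → LD s ℓ ((q : k) ^ ℓ - q)) ∧
    (∀ x y, LI s ℓ x → LI s ℓ y → LD s ℓ (x - y) → LD s ℓ (x ^ ℓ - y ^ ℓ)) ∧
    (∀ (s' : Finset k), s ⊆ s' → ∀ x, (LI s ℓ x → LI s' ℓ x) ∧ (LD s ℓ x → LD s' ℓ x)) ∧
    ∀ x, LD s ℓ x → LI s ℓ x

/-- GAC (uses LDA): the Gauss congruence modulo `ℓ` over a commutative ring.

Proof (compare GAU in P_GAU.lean, P_GAS.lean and Pool/Agent/Lib_helper25/H2/Gauss.lean).  Let `S0` be the finite set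
of the `μ` which occur in the entries of `U`, `J = ι × S0`, `cf (a, μ) (b, ν) = (U a b).coeff μ`.  Then
`lin φ (tr U^ℓ) = ∑_(w : ZMod ℓ → J) (∏_t cf (w t) (w (t + 1))) * φ (μ_0 ⋯ μ_(ℓ - 1))`, and the terms are invariant under the
rotation of `w` (`φ` is a trace function on `S`).  As `ℓ` is prime the orbits have `1` or `ℓ` elements; the orbits with `ℓ`
elements contribute multiples of `ℓ` (`LD`; e.g. the sum over the nonconstant words: use `MulAction` of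
`Multiplicative (ZMod ℓ)` and `Finset.sum` over orbits, or `ℓ`-fold partition by the first place, or the existing
lemmas), the constant words contribute `∑_(a, μ) (U a a).coeff μ ^ ℓ * φ (μ ^ ℓ)`, which is congruent to
`(∑_(a, μ) (U a a).coeff μ * φ (μ ^ ℓ)) ^ ℓ` by LDA (c), (d). -/
def S_GAC : Prop := ∀ (k : Type) [Field k] [CharZero k] (s : Finset k) (ℓ : ℕ), ℓ.Prime →
    ∀ (M : Type) [Monoid M] (S : Submonoid M) (φ : M → ℚ), (∀ μ, ¬ ℓ ∣ (φ μ).den) →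
    (∀ μ ∈ S, ∀ ν ∈ S, φ (μ * ν) = φ (ν * μ)) →
    ∀ (ι : Type) [Fintype ι] [DecidableEq ι] (U : Matrix ι ι (MonoidAlgebra k M)),
    (∀ a b μ, (U a b).coeff μ ∈ Subring.closure (s : Set k)) →
    (∀ a b μ, (U a b).coeff μ ≠ 0 → μ ∈ S) →
    LD s ℓ (lin k φ (Matrix.trace (U ^ ℓ)) - (lin k (fun μ => φ (μ ^ ℓ)) (Matrix.trace U)) ^ ℓ)

/-! ## Modules HSP, TRQ, SCQ, PWQ, DZB, HMC: the main congruence -/

/-- HSP: sections as in HSE with values in the sets of the positions.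

Proof: the section constructed in P_HSE.lean (or P_SEF.lean, see the doc of HSE): `s Y y = γ * head Y_q` with
`(Y, y) = γ rot^e (Y_q, y_q)`; the entries of the extended list of `rot^e Y_q` contain a multiple of `head Y_q` by a power of
`y_q` (`rot^n (Y_q, y_q) = y_q (Y_q, y_q)`, `n` the length), so `γ * head Y_q` is a power of `y` times an entry of `Y`. -/
def S_HSP : Prop := ∀ (Γ : Type) [Group Γ], ∃ s : List Γ → Γ → Γ, SecQ s ∧
    ∀ (Y : List Γ) (y : Γ), Y ≠ [] → ∃ (t : ℤ), ∃ a ∈ Y, s Y y = y ^ t * a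

/-- TRQ: `evN N F s` is a trace function (adapt P_TRF.lean, with `GoodQ`, `SecQ` instead of `GoodP N`, `SecF N`). -/
def S_TRQ : Prop := ∀ (Γ : Type) [Group Γ] (M N : ℕ) (F : (Fin M → Γ) → Γ → ℚ)
    (s : List Γ → Γ → Γ), 0 < N →
    (∀ (g : Γ) (a : Fin M → Γ) (y : Γ), F (fun i => g * a i) (g * y * g⁻¹) = F a y) →
    (∀ (t : Fin M → ℤ) (a : Fin M → Γ) (y : Γ), F (fun i => y ^ t i * a i) y = F a y) →
    SecQ s → ∀ Sb : Submonoid (Rec Γ (Fin M)), Sb ≤ Bal Γ (Fin M) →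
    (∀ μ ∈ Sb, (∀ i, (μ.lst i).length = N) → (∃ a, F a μ.val ≠ 0) →
      ∀ i, GoodQ (μ.lst i) μ.val) →
    ∀ μ ∈ Sb, ∀ ν ∈ Sb, evN N F s (μ * ν) = evN N F s (ν * μ)

/-- SCQ: as SCF (see P_SCF.lean), with `SecQ` instead of `SecF N`. -/
def S_SCQ : Prop := ∀ (Γ : Type) [Group Γ] (M N : ℕ) (F : (Fin (M + 1) → Γ) → Γ → ℚ)
    (s : List Γ → Γ → Γ), 0 < N →
    (∀ (g : Γ) (a : Fin (M + 1) → Γ) (y : Γ), F (fun i => g * a i) (g * y * g⁻¹) = F a y) →
    (∀ (a : Fin (M + 2) → Γ) (y : Γ),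
      ∑ i : Fin (M + 2), (-1 : ℚ) ^ (i : ℕ) * F (fun j => a (i.succAbove j)) y = 0) →
    (∀ (t : Fin (M + 1) → ℤ) (a : Fin (M + 1) → Γ) (y : Γ), F (fun i => y ^ t i * a i) y = F a y) →
    SecQ s →
    ∃ η : Rec Γ (Fin M) → ℚ, CjInv η ∧
      ∀ (k : Type) [Field k] [CharZero k] (ι : Type) [Fintype ι] [DecidableEq ι]
        (X : Fin (M + 1) → (Matrix ι ι (MonoidAlgebra k Γ))ˣ),
        TX (evN N F s) N X - TX (fst F) N X =
          ∑ i : Fin (M + 1), (-1 : k) ^ (i : ℕ) * TX η N (fun t => X (i.succAbove t))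

/-- PWQ: the value at a power.

Proof.  The lists of `μ ^ ℓ` are `[a_i, h a_i, ..., h^(ℓ-1) a_i]`, `h = μ.val`, with endpoint `y = h ^ ℓ`.  If `F · y = 0` both
sides are zero.  Otherwise `h` is a power of `y`, so `s` of the list `i`, which is a power of `y` times one of its
elements, is a power of `y` times `a_i`, and `bas` applies. -/
def S_PWQ : Prop := ∀ (Γ : Type) [Group Γ] (M ℓ : ℕ) (F : (Fin M → Γ) → Γ → ℚ) (s : List Γ → Γ → Γ),
    0 < ℓ → (∀ (t : Fin M → ℤ) (a : Fin M → Γ) (y : Γ), F (fun i => y ^ t i * a i) y = F a y) →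
    (∀ (Y : List Γ) (y : Γ), Y ≠ [] → ∃ (t : ℤ), ∃ a ∈ Y, s Y y = y ^ t * a) →
    ∀ μ : Rec Γ (Fin M), (∀ i, (μ.lst i).length = 1) →
    (∀ a, F a (μ.val ^ ℓ) ≠ 0 → μ.val ∈ Subgroup.zpowers (μ.val ^ ℓ)) →
    evN ℓ F s (μ ^ ℓ) = fst (powF ℓ F) μ

/-- DZB (uses SUP (b), TXlin, DEN): the functional `DZ`.

Proof.  (a) By SUP (b) there is a finite set `T` of records which contains the supports of the entries of `UX X`,
`X ∈ z.support`; `E0` is the set of their endpoints (`RGB.TX_congr` in P_RGB.lean).  (b) linearity of `TX` in `φ`; `fst` is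
linear in `F`.  (c) Let `φ = fst E`, `CjInv φ`; `fst (cobE E) = cobR φ` on records with nonempty lists; the sum over `z` vanishes as
in COB (P_COB.lean, `BFL.sum_faces` adapted to `k`: see P_HUN.lean or do it directly with TXinv).  (d) `t_DEN`. -/
def S_DZB : Prop :=
    (∀ (k : Type) [Field k] [CharZero k] (G : Type) [Group G] (n r : ℕ)
      (z : (Fin (n + 1) → (Matrix (Fin r) (Fin r) (MonoidAlgebra k G))ˣ) →₀ ℚ),
      ∃ E0 : Finset G, ∀ F F' : (Fin (n + 1) → G) → G → ℚ, (∀ y ∈ E0, ∀ a, F a y = F' a y) →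
        DZ F z = DZ F' z) ∧
    (∀ (k : Type) [Field k] [CharZero k] (G : Type) [Group G] (n r : ℕ)
      (z : (Fin (n + 1) → (Matrix (Fin r) (Fin r) (MonoidAlgebra k G))ˣ) →₀ ℚ) (I : Type)
      (J : Finset I) (c : I → ℚ) (F : I → (Fin (n + 1) → G) → G → ℚ),
      DZ (fun a y => ∑ i ∈ J, c i * F i a y) z = ∑ i ∈ J, (c i : k) * DZ (F i) z) ∧
    (∀ (k : Type) [Field k] [CharZero k] (G : Type) [Group G] (n r : ℕ)
      (E : (Fin (n + 1) → G) → G → ℚ),
      (∀ (g : G) (a : Fin (n + 1) → G) (y : G), E (fun i => g * a i) (g * y * g⁻¹) = E a y) →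
      ∀ z ∈ cyc ℚ ((Matrix (Fin r) (Fin r) (MonoidAlgebra k G))ˣ) (n + 1),
      DZ (fun (a : Fin (n + 2) → G) y => cobE (fun b => E b y) a) z = 0) ∧
    ∀ (k : Type) [Field k] [CharZero k] (G : Type) [Group G] (n r : ℕ)
      (F : (Fin (n + 1) → G) → G → ℚ),
      (∀ (g : G) (a : Fin (n + 1) → G) (y : G), F (fun i => g * a i) (g * y * g⁻¹) = F a y) →
      ∀ z : (Fin (n + 1) → (Matrix (Fin r) (Fin r) (MonoidAlgebra k G))ˣ) →₀ ℚ,
      DZ F z = z.sum fun X q => (q : k) *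
        cval F (fun j => ((X j)⁻¹ * X (j + 1) : (Matrix (Fin r) (Fin r) (MonoidAlgebra k G))ˣ).val)

/-- HMC (uses LDA, GAC, HSP, TRQ, SCQ, PWQ, HGD, SUP, TXinv, TXfst; the setting is that of P_BFL.lean): the main
congruence.

Proof.  `n = m + 1`.  `T0` a finite set of records with lists of length one which contains the supports of the entries of
all `UX X`, `X ∈ z.support` (SUP (b)), `L` from SUP (a) for `T0`, `Sb = closure T0`, `VV = L ∪ {endpoints of T0}`, `s` the finite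
set of the coefficients of the entries of the `X j`, `(X j)⁻¹`, `X ∈ z.support`, `B` a bound for the denominators of the
`z(X)`.  Let `ℓ`, `F` be given, `φ = evN ℓ F sec` with `sec` from HSP.  If `μ ∈ Sb` has lists of length `ℓ` and `F · μ.val ≠ 0`
then its lists are good, by HGD with `y0 = μ.val` (if `u ∈ L` and `u ^ ℓ` is conjugate to `μ.val` then `F · (u ^ ℓ) ≠ 0`, so `u` is
a power of `u ^ ℓ`).  So `φ` is a trace function on `Sb` (TRQ) with `ℓ`-integral values, and GAC gives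
`LD s ℓ (TX φ ℓ X - (TX (fun μ => φ (μ ^ ℓ)) 1 X) ^ ℓ)`; `TX (fun μ => φ (μ ^ ℓ)) 1 X = TX (fst (powF ℓ F)) 1 X` by PWQ
(`RGB.TX_congr`).  `∑ z(X) TX φ ℓ X = ∑ z(X) TX (fst F) ℓ X = ∑ z(X) TX (fst F) 1 X` (SCQ, TXinv as in `BFL.sum_faces`; TXfst), and
`∑ z(X) (TX (fst (powF ℓ F)) 1 X) ^ ℓ` is congruent to `(∑ z(X) TX (fst (powF ℓ F)) 1 X) ^ ℓ` (LDA (c), (d); the numbers
`TX (fst (powF ℓ F)) 1 X` are `LI`: sums of coefficients times values of `F`, HIN). -/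
def S_HMC : Prop := ∀ (k : Type) [Field k] [CharZero k] (G : Type) [Group G] (n r : ℕ), 1 ≤ n →
    ∀ z ∈ cyc ℚ ((Matrix (Fin r) (Fin r) (MonoidAlgebra k G))ˣ) n,
    ∃ (s : Finset k) (VV : Finset G) (B : ℕ), ∀ ℓ : ℕ, ℓ.Prime → B < ℓ →
    ∀ F : (Fin (n + 1) → G) → G → ℚ,
    (∀ (g : G) (a : Fin (n + 1) → G) (y : G), F (fun i => g * a i) (g * y * g⁻¹) = F a y) →
    (∀ (a : Fin (n + 2) → G) (y : G),
      ∑ i : Fin (n + 2), (-1 : ℚ) ^ (i : ℕ) * F (fun j => a (i.succAbove j)) y = 0) →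
    (∀ (t : Fin (n + 1) → ℤ) (a : Fin (n + 1) → G) (y : G), F (fun i => y ^ t i * a i) y = F a y) →
    (∀ a y, ¬ ℓ ∣ (F a y).den) →
    (∀ u ∈ VV, ∀ a, F a (u ^ ℓ) ≠ 0 → u ∈ Subgroup.zpowers (u ^ ℓ)) →
    LI s ℓ (DZ F z) ∧ LI s ℓ (DZ (powF ℓ F) z) ∧ LD s ℓ (DZ F z - DZ (powF ℓ F) z ^ ℓ)

/-! ## Modules NTA, NTB, NTC, NTL, HFE: number theory -/

/-- NTA: specialization (compare P_HFD.lean, P_SPC.lean).

Proof.  Let `B` be the `ℚ`-subalgebra of `k` generated by `s`; a quotient of `B` by a maximal ideal is a number field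
(Zariski's lemma).  (1) If `x` is algebraic over `ℚ` take any such quotient `θ`: if `θ(x) = q` then `x - q ≠ 0` is in the kernel, but
`(x - q)⁻¹ ∈ ℚ[x] ⊆ B`.  (2) Let `x` be transcendental.  Claim: for some integer `c > 0` the element `x² - 2 c²` is not a unit
of `B`; then a maximal ideal which contains it gives `θ(x)² = 2 c²`, so `θ(x)` is not rational.  Suppose that all are units,
`(x² - 2 c²) b_c = 1`.  Let `R = ℚ[x]`, `K = ℚ(x)`, `B'` the `K`-subalgebra of `k` generated by `s`, `θ' : B' → L'` a quotient by a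
maximal ideal, `L'` finite over `K`.  There is `0 ≠ g ∈ R` such that `g θ'(a)` is integral over `R` for all `a ∈ s`, hence for
every `b ∈ B` some `g^e θ'(b)` is integral over `R`.  So `g^e / (x² - 2 c²) ∈ K` is integral over `R`, hence in `R`
(`R` is integrally closed), and the irreducible polynomial `x² - 2 c²` divides `g`; for all `c > 0`: a contradiction. -/
def S_NTA : Prop := ∀ (k : Type) [Field k] [CharZero k] (s : Finset k)
    (x : Subring.closure (s : Set k)), (∀ q : ℚ, (x : k) ≠ q) →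
    ∃ (L : Type) (_ : Field L) (_ : NumberField L) (θ : Subring.closure (s : Set k) →+* L),
      ∀ q : ℚ, θ x ≠ q

/-- NTB: two primes of degree one.

Proof.  Let `K = ℚ(x) ⊆ L`, `[K : ℚ] ≥ 2`, `α = N x` integral, `N > 0` an integer, `ℚ(α) = K`.  For large primes `ℓ`:
`α ^ ℓ - α = ℓ β` with `β ∈ 𝓞 K` (`N ^ ℓ ≡ N` modulo `ℓ`; an element of `K` with `d (α^ℓ - α) = ℓ a`, `a` integral, `ℓ ∤ d`).  Let
`e = exponent` of `α` (`e 𝓞 K ⊆ ℤ[α]`), `ℓ ∤ e`, `f` the minimal polynomial of `α` over `ℤ`.  `e β = g(α)`, so `f` divides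
`e (X^ℓ - X) - ℓ g` and `f` modulo `ℓ` divides `X^ℓ - X`: it is a product of `[K : ℚ] ≥ 2` different linear factors.  The
Kummer-Dedekind theorem (Mathlib/NumberTheory/NumberField/Ideal/KummerDedekind.lean,
`primesOverSpanEquivMonicFactorsMod` and its norm / inertia degree statements), or directly: two ring homomorphisms
`ℤ[α] → ZMod ℓ`, extended to `𝓞 K` by `β ↦ e⁻¹ φ(e β)`, whose kernels are different prime ideals of norm `ℓ`. -/
def S_NTB : Prop := ∀ (L : Type) [Field L] [NumberField L] (x : L), (∀ q : ℚ, x ≠ q) →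
    (∃ B : ℕ, ∀ ℓ : ℕ, ℓ.Prime → B < ℓ → ∃ d : ℤ, ¬ (ℓ : ℤ) ∣ d ∧ ∃ a : L, IsIntegral ℤ a ∧
      (d : L) * (x ^ ℓ - x) = (ℓ : L) * a) →
    ∃ (K : Type) (_ : Field K) (_ : NumberField K) (B : ℕ), ∀ ℓ : ℕ, ℓ.Prime → B < ℓ →
      ∃ 𝔭 𝔮 : Ideal (𝓞 K), 𝔭 ≠ 𝔮 ∧ 𝔭.IsPrime ∧ 𝔮.IsPrime ∧ Ideal.absNorm 𝔭 = ℓ ∧ Ideal.absNorm 𝔮 = ℓ

/-- NTC: the primes of degree one of a number field have density one over those of `ℚ`, weak form.

Proof.  Let `P = B !`; the integers `1 + i P` are prime to all primes `≤ B`.  For `b, c` of this form let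
`I(b, c) = ∏_ℓ 𝔭_ℓ ^ v_ℓ(b) * ∏_ℓ 𝔮_ℓ ^ v_ℓ(c)`, of norm `b c`.  `(b, c) ↦ I(b, c)` is injective (the multiplicities of `𝔭_ℓ`, `𝔮_ℓ`;
these prime ideals are all different: `𝔭_ℓ ≠ 𝔮_ℓ`, and the norms are different for different `ℓ`).  So the number `N(X)`
of ideals `≠ 0` of norm `≤ X` is at least the number of `(i, j)`, `i, j ≥ 0`, with `(1 + i P) (1 + j P) ≤ X`, which is at least the
number of `(a, b)`, `a, b ≥ 1`, with `a b ≤ Y = X / P²` (`1 + i P ≤ (i + 1) P`), and this is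
`∑_(a ≤ Y) ⌊Y / a⌋ ≥ Y H_Y - Y` with the harmonic number `H_Y → ∞`.  So `N(X) / X` is not bounded, which contradicts
`NumberField.Ideal.tendsto_norm_le_div_atTop` (Mathlib/NumberTheory/NumberField/Ideal/Asymptotics.lean). -/
def S_NTC : Prop := ∀ (K : Type) [Field K] [NumberField K] (B : ℕ),
    (∀ ℓ : ℕ, ℓ.Prime → B < ℓ →
      ∃ 𝔭 𝔮 : Ideal (𝓞 K), 𝔭 ≠ 𝔮 ∧ 𝔭.IsPrime ∧ 𝔮.IsPrime ∧ Ideal.absNorm 𝔭 = ℓ ∧ Ideal.absNorm 𝔮 = ℓ) →
    False

/-- NTL (uses NTA, NTB, NTC): `x ^ ℓ ≡ x` modulo almost all primes implies that `x` is rational.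

Proof.  Otherwise let `θ : closure s → L` be as in NTA.  There is an integer `N > 0` such that for every `a ∈ closure s` some
`N ^ e * θ(a)` is integral over `ℤ` (`s` is finite).  From `d (x^ℓ - x) = ℓ a` one gets
`(d N^e) (θ(x)^ℓ - θ(x)) = ℓ (N^e θ(a))`; NTB for `θ(x)` (primes `ℓ` not dividing `N`), NTC. -/
def S_NTL : Prop := ∀ (k : Type) [Field k] [CharZero k] (s : Finset k) (x : k),
    x ∈ Subring.closure (s : Set k) →
    (∃ B : ℕ, ∀ ℓ : ℕ, ℓ.Prime → B < ℓ → LD s ℓ (x ^ ℓ - x)) → ∃ q : ℚ, x = q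

/-- HFE (compare P_HFD.lean): an element whose `ℓ`-th power is divisible by `ℓ` for infinitely many primes `ℓ` is zero.

Proof.  Suppose `x ≠ 0`; `θ : B → F`, `n` as in the proof of HFD (`θ(x) ≠ 0`, as `x⁻¹ ∈ B`), `F` a number field.  For a large prime
`ℓ` of the set `n^e d θ(x)^ℓ = ℓ b` with `b` integral, `ℓ ∤ n d`.  Take norms to `ℚ`: with `N(θ(x)) = u / v`, `v` prime to `ℓ`
(`ℓ` large, `u ≠ 0`), `ℓ` divides the numerator of `N(n^e d) (u / v)^ℓ`, so `ℓ` divides `u`: only finitely many. -/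
def S_HFE : Prop := ∀ (k : Type) [Field k] [CharZero k] (s : Finset k) (x : k),
    x ∈ Subring.closure (s : Set k) → {ℓ : ℕ | ℓ.Prime ∧ LD s ℓ (x ^ ℓ)}.Infinite → x = 0

/-! ## Modules HBR, HBG, HBT: the elements of finite order -/

/-- HBR (uses HMC, NTL, LDA, DZB): families with few denominators.

Proof.  Let `x_j = DZ (twF m j F) z`, `j` prime to `m`; it only depends on `j` modulo `m`.  `twF m j F` satisfies the hypotheses of
HMC for all large primes `ℓ`: it is invariant, a cocycle, `bas` (for `orderOf y = m` the powers of `y` are the powers of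
`y ^ j`), its denominators contain only prime divisors of `D`, and if `twF m j F a (u ^ ℓ) ≠ 0` then `u` has finite order, which
is prime to `ℓ` for large `ℓ` (`u ∈ VV`), so `u` is a power of `u ^ ℓ`.  For `u ∈ E0` (DZB (a)) and large `ℓ`
`powF ℓ (twF m j F) a u = twF m (ℓ j) F a u` (`orderOf (u ^ ℓ) = orderOf u` if `u` has finite order; otherwise both are zero).
So `LD s ℓ (x_j - x_(ℓ j) ^ ℓ)` for all `j` and all large `ℓ`.  Let `K`, `ζ` be given, `s'` the image of `s` in `K` and `ζ` and the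
images of the `x_j`, and for `c ∈ ZMod m` let `w_c = ∑_(j ∈ (ZMod m)ˣ) ζ ^ (c j⁻¹) x_j`.  By LDA (c), (e)
`w_c ^ ℓ ≡ ∑_j ζ ^ (ℓ c j⁻¹) x_j ^ ℓ ≡ ∑_j ζ ^ (ℓ c j⁻¹) x_(ℓ⁻¹ j) = w_c` (substitute `j = ℓ i`), so `w_c ∈ ℚ` by NTL.  Then
`x_j = (1 / m) ∑_c ζ ^ (- c j⁻¹) w_c` (orthogonality, `IsPrimitiveRoot.geom_sum_eq_zero` or similar), which is `P(ζ ^ j')` for
`P = (1 / m) ∑_c w_c X ^ (m - c)`. -/
def S_HBR : Prop := ∀ (k : Type) [Field k] [CharZero k] (G : Type) [Group G] (n r m : ℕ), 1 ≤ n → 1 ≤ m →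
    ∀ z ∈ cyc ℚ ((Matrix (Fin r) (Fin r) (MonoidAlgebra k G))ˣ) n,
    ∀ F : (Fin (n + 1) → G) → G → ℚ,
    (∀ (g : G) (a : Fin (n + 1) → G) (y : G), F (fun i => g * a i) (g * y * g⁻¹) = F a y) →
    (∀ (a : Fin (n + 2) → G) (y : G),
      ∑ i : Fin (n + 2), (-1 : ℚ) ^ (i : ℕ) * F (fun j => a (i.succAbove j)) y = 0) →
    (∀ (t : Fin (n + 1) → ℤ) (a : Fin (n + 1) → G) (y : G), F (fun i => y ^ t i * a i) y = F a y) →
    (∀ a y, F a y ≠ 0 → orderOf y = m) →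
    (∃ D : ℕ, 0 < D ∧ ∀ a y (p : ℕ), p.Prime → p ∣ (F a y).den → p ∣ D) →
    ∀ (K : Type) [Field K] [CharZero K] [Algebra k K] (ζ : K), IsPrimitiveRoot ζ m →
    ∃ P : Polynomial ℚ, ∀ j j' : ℕ, j * j' ≡ 1 [MOD m] →
      algebraMap k K (DZ (twF m j F) z) = Polynomial.aeval (ζ ^ j') P

/-- HBG (uses HBR, DZB): the theorem at the elements of order `m`, with the conditions in `G`.

Proof (compare P_TRB.lean, P_HTX.lean).  Let `E0` be as in DZB (a), `E1` the set of the powers `u ^ j`, `u ∈ E0`, `j < m`, `R` a finite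
set of representatives of the conjugacy classes of elements of order `m` which meet `E1`.  For `y ∈ R` let `f'_y`, `E_y` be
as in `RatY`, `F'_y (a; x) = f'_y (g⁻¹ a)` for `x = g y g⁻¹`, `0` if `x` is not conjugate to `y`, and `E'_y` in the same way (well
defined by `CInv`, invariant).  For `x ∈ E0` of order `m` and `j` prime to `m`: `F a (x ^ j) = ∑_(y ∈ R) (F'_y a (x ^ j) +
cobE (E'_y · (x ^ j)) a)`, so `DZ (twF m j F) z = ∑_y DZ (twF m j F'_y) z + ∑_y DZ (cobE of twF m j E'_y) z`, and the second sum is zero by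
DZB (c).  HBR for the `F'_y`; `P` is the sum of the polynomials. -/
def S_HBG : Prop := ∀ (k : Type) [Field k] [CharZero k] (G : Type) [Group G] (n r m : ℕ), 1 ≤ n → 1 ≤ m →
    ∀ z ∈ cyc ℚ ((Matrix (Fin r) (Fin r) (MonoidAlgebra k G))ˣ) n,
    ∀ F : (Fin (n + 1) → G) → G → ℚ,
    (∀ (g : G) (a : Fin (n + 1) → G) (y : G), F (fun i => g * a i) (g * y * g⁻¹) = F a y) →
    (∀ a y, F a y ≠ 0 → orderOf y = m) →
    (∀ y : G, orderOf y = m → RatY n y (fun a => F a y)) →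
    ∀ (K : Type) [Field K] [CharZero K] [Algebra k K] (ζ : K), IsPrimitiveRoot ζ m →
    ∃ P : Polynomial ℚ, ∀ j j' : ℕ, j * j' ≡ 1 [MOD m] →
      algebraMap k K (DZ (twF m j F) z) = Polynomial.aeval (ζ ^ j') P

/-- HBT (uses HBG, DZB (d), HFG, HNA): the theorem at the elements of order `m`.

Proof.  `H`, `z'` from HFG, `F'` the restriction of `F` to `H`; the restriction of `twF m j F` is `twF m j F'`, the order of an
element of `H` is its order in `G`.  By DZB (d) and HNA the value is `DZ (twF m j F') z'` (`Finsupp.sum_mapDomain_index`). -/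
def S_HBT : Prop := ∀ (k : Type) [Field k] [CharZero k] (G : Type) [Group G] (n r m : ℕ), 1 ≤ n → 1 ≤ m →
    ∀ z ∈ cyc ℚ ((Matrix (Fin r) (Fin r) (MonoidAlgebra k G))ˣ) n,
    ∀ F : (Fin (n + 1) → G) → G → ℚ,
    (∀ (g : G) (a : Fin (n + 1) → G) (y : G), F (fun i => g * a i) (g * y * g⁻¹) = F a y) →
    (∀ a y, F a y ≠ 0 → orderOf y = m) →
    (∀ H : Subgroup G, H.FG → ∀ y : H, orderOf y = m →
      RatY n y (fun a : Fin (n + 1) → H => F (fun i => (a i : G)) (y : G))) →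
    ∀ (K : Type) [Field K] [CharZero K] [Algebra k K] (ζ : K), IsPrimitiveRoot ζ m →
    ∃ P : Polynomial ℚ, ∀ j j' : ℕ, j * j' ≡ 1 [MOD m] →
      algebraMap k K (z.sum fun X q => (q : k) * cval (twF m j F) (fun l =>
        ((X l)⁻¹ * X (l + 1) : (Matrix (Fin r) (Fin r) (MonoidAlgebra k G))ˣ).val)) =
        Polynomial.aeval (ζ ^ j') P

/-- RTI (compare P_HPR.lean, which has the same averaged prism): integral classes at the elements of finite order.

Proof.  Let `f a = F a y`, `m = orderOf y`, `f' a = (m ^ (n + 1))⁻¹ ∑_(t : Fin (n + 1) → Fin m) f (fun i => y ^ (t i) * a i)`: `bas`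
(reindex the sum), a cocycle, `CInv` (elements which commute with `y`), its denominators divide `m ^ (n + 1)`.  PRI (`t_PRI`) for
the maps `f = Prod.snd`, `f' = Prod.fst` and the vertices `v_t i = (y ^ (t i) * a i, a i)`, averaged over `t`, gives
`f' a - f a = ∑_i (-1)^i E0 (fun j => a (i.succAbove j))`,
`E0 a = (m ^ n)⁻¹ ∑_(t : Fin n → Fin m) ∑_(j : Fin n) (-1)^j f (mix snd fst (fun i => (y ^ (t i) * a i, a i)) j)`; `E = - E0`. -/
def S_RTI : Prop := ∀ (G : Type) [Group G] (n : ℕ) (F : (Fin (n + 1) → G) → G → ℤ), CocFam n F →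
    ∀ y : G, IsOfFinOrder y → RatY n y (fun a => (F a y : ℚ))

/-! ## Modules HCI, FWK, HCG, HCT: the elements of infinite order -/

/-- HCI (uses HMC, HFD, DZB): backwards.

Proof.  `s`, `VV`, `B` from HMC, `E0` from DZB (a), `s' = s ∪ {DZ F z}`.  For a prime `ℓ > B` in the infinite set for
`V = VV ∪ E0`: `F a (u ^ ℓ) = 0` for all `u ∈ V`, so the last condition of HMC is empty and `DZ (powF ℓ F) z = DZ 0 z = 0`.  So
`LD s ℓ (DZ F z)` for infinitely many `ℓ`, and `DZ F z = 0` by HFD for `s'`. -/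
def S_HCI : Prop := ∀ (k : Type) [Field k] [CharZero k] (G : Type) [Group G] (n r : ℕ), 1 ≤ n →
    ∀ z ∈ cyc ℚ ((Matrix (Fin r) (Fin r) (MonoidAlgebra k G))ˣ) n,
    ∀ (y0 : G) (F : (Fin (n + 1) → G) → G → ℚ),
    (∀ (g : G) (a : Fin (n + 1) → G) (y : G), F (fun i => g * a i) (g * y * g⁻¹) = F a y) →
    (∀ (a : Fin (n + 2) → G) (y : G),
      ∑ i : Fin (n + 2), (-1 : ℚ) ^ (i : ℕ) * F (fun j => a (i.succAbove j)) y = 0) →
    (∀ a y, F a y ≠ 0 → IsConj y y0) →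
    (∀ V : Finset G, {p : ℕ | p.Prime ∧ (∀ a y, ¬ p ∣ (F a y).den) ∧
      ∀ u ∈ V, ¬ IsConj (u ^ p) y0}.Infinite) →
    (∀ (t : Fin (n + 1) → ℤ) (a : Fin (n + 1) → G) (y : G), F (fun i => y ^ t i * a i) y = F a y) →
    DZ F z = 0

/-- FWK (uses GAC, LDA, HFE, DZB, SEG, SCG, TRG, SUP, TXfst; adapt P_FWD.lean): forwards.

Proof: as FWD (P_FWD.lean), with GAC instead of STQ: for the primes `ℓ` of the infinite set
`LD s ℓ (TX φ ℓ X - (TX (fst F) 1 X) ^ ℓ)` for all `X ∈ z.support`, and `∑ z(X) TX φ ℓ X = 0`, so by LDA (c), (d)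
`LD s ℓ ((DZ F z) ^ ℓ)` for infinitely many `ℓ`.  HFE for `s ∪ {DZ F z}`. -/
def S_FWK : Prop := ∀ (k : Type) [Field k] [CharZero k] (G : Type) [Group G] (n r : ℕ), 1 ≤ n →
    ∀ z ∈ cyc ℚ ((Matrix (Fin r) (Fin r) (MonoidAlgebra k G))ˣ) n,
    ∀ (y0 : G) (F : (Fin (n + 1) → G) → G → ℚ),
    (∀ (g : G) (a : Fin (n + 1) → G) (y : G), F (fun i => g * a i) (g * y * g⁻¹) = F a y) →
    (∀ (a : Fin (n + 2) → G) (y : G),
      ∑ i : Fin (n + 2), (-1 : ℚ) ^ (i : ℕ) * F (fun j => a (i.succAbove j)) y = 0) →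
    (∀ a y, F a y ≠ 0 → IsConj y y0) →
    (∀ V : Finset G, {p : ℕ | p.Prime ∧ (∀ a y, ¬ p ∣ (F a y).den) ∧
      (∀ g : G, g * y0 ^ p = y0 ^ p * g → g * y0 = y0 * g) ∧
      ∀ u ∈ V, ¬ IsConj u (y0 ^ p) ∧ (IsConj (u ^ p) (y0 ^ p) → IsConj u y0)}.Infinite) →
    DZ F z = 0

/-- HCG (uses HCI, FWK, DZB): the theorem at the elements of infinite order, with the conditions in `G`.

Proof: as TRB (P_TRB.lean) for the classes of elements of infinite order: representatives `R` of the classes of the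
elements of infinite order in `E0` (DZB (a)), `F'_y`, `E'_y` for `y ∈ R`, DZB (b), (c), and HCI or FWK for `F'_y` (the case of
finite order in `AdmC` is excluded). -/
def S_HCG : Prop := ∀ (k : Type) [Field k] [CharZero k] (G : Type) [Group G] (n r : ℕ), 1 ≤ n →
    ∀ z ∈ cyc ℚ ((Matrix (Fin r) (Fin r) (MonoidAlgebra k G))ˣ) n,
    ∀ F : (Fin (n + 1) → G) → G → ℚ,
    (∀ (g : G) (a : Fin (n + 1) → G) (y : G), F (fun i => g * a i) (g * y * g⁻¹) = F a y) →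
    (∀ a y, F a y ≠ 0 → ¬ IsOfFinOrder y) →
    (∀ y : G, ¬ IsOfFinOrder y → AdmAt n y (fun a => F a y)) → DZ F z = 0

/-- HCT (uses HCG, DZB (d), HFG, HNA): the theorem at the elements of infinite order (as HBT). -/
def S_HCT : Prop := ∀ (k : Type) [Field k] [CharZero k] (G : Type) [Group G] (n r : ℕ), 1 ≤ n →
    ∀ z ∈ cyc ℚ ((Matrix (Fin r) (Fin r) (MonoidAlgebra k G))ˣ) n,
    ∀ F : (Fin (n + 1) → G) → G → ℚ,
    (∀ (g : G) (a : Fin (n + 1) → G) (y : G), F (fun i => g * a i) (g * y * g⁻¹) = F a y) →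
    (∀ a y, F a y ≠ 0 → ¬ IsOfFinOrder y) →
    (∀ H : Subgroup G, H.FG → ∀ y : H, ¬ IsOfFinOrder y →
      AdmAt n y (fun a : Fin (n + 1) → H => F (fun i => (a i : G)) (y : G))) →
    (z.sum fun X q => (q : k) * cval F (fun l =>
      ((X l)⁻¹ * X (l + 1) : (Matrix (Fin r) (Fin r) (MonoidAlgebra k G))ˣ).val)) = 0

end Pool.Agent.FJA
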