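import Pool.Agent.FJA.RtDefs
import Pool.Agent.FJA.StX

/-!
# The condition on roots: statements of the modules

Idea.  Let `p` be a prime, `y ∈ Γ` not a `p ^ c`-th power, `Q = p ^ c`.  If a list `Y` of length `p ^ k` with endpoint `y`
is invariant under a rotation by `e` steps up to an element `δ` of the group, then the group of these `δ` is cyclic and
`δ ^ Q ∈ ⟨y⟩` for all of them (RGD), for every `k`.  So there are rotation invariant sections with `Q` values (RSA), and
the averages of a cocycle `F (·; y)` over them have denominators which do not depend on `k` (`evA`).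
(R0) The Gauss congruence for the `p ^ (k + 1)`-fold functional, for all `k`, gives `D_F(z) = D_(powF p F)(z)` for the values
of `F` and of `powF p F (a; y) = F (a; y ^ p)` on the Dennis trace of a cycle `z` of `GL_r(ℤ[G])` (RMN).  The `y` with
`powF p F (·; y) ≠ 0` are not `p ^ (c - 1)`-th powers, so `D_F(z) = 0` by induction on `c` (RT0).
(R1) In the proof for the higher components of the Chern character (StW.lean) take `N = p ^ K`, `K → ∞`, instead of
primes `N`: the polynomial `R` satisfies `R(p ^ K) = p ^ (K L) * a` with `a` of bounded denominator, so `R = r_L x ^ L` (RPO).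
-/

set_option autoImplicit false

open Matrix Pool.Agent.WhK Pool.Agent.Lib25

noncomputable section

namespace Pool.Agent.FJA

section

variable {Γ : Type} [Group Γ]

/-- The rotations of `Y` which are given by elements of the group are given by the powers of one element `δ`, and
`δ ^ Q` is a power of `y`. -/
def GoodC (Q : ℕ) (Y : List Γ) (y : Γ) : Prop :=
  ∃ δ : Γ, (∃ e : ℕ, Stb Y y δ e) ∧ (∀ (δ' : Γ) (e : ℕ), Stb Y y δ' e → δ' ∈ Subgroup.zpowers δ) ∧
    δ ^ Q ∈ Subgroup.zpowers y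

/-- `s` attaches `Q` elements to a list and an element, equivariant up to permutations and powers of `y ^ q`. -/
def SecI (q Q : ℕ) (s : List Γ → Γ → Fin Q → Γ) : Prop :=
  ∀ (γ : Γ) (Y : List Γ) (y : Γ), Y ≠ [] → ∃ (π : Equiv.Perm (Fin Q)) (t : Fin Q → ℤ), ∀ J,
    s (Y.map (γ * ·)) (γ * y * γ⁻¹) J = γ * ((y ^ q) ^ t J * s Y y (π J))

/-- Sections with `Q` values, invariant under the rotations of the good lists. -/
structure SecA (Q : ℕ) (s : List Γ → Γ → Fin Q → Γ) : Prop where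
  inv : SecI 1 Q s
  rot : ∀ (Y : List Γ) (y : Γ), GoodC Q Y y → ∃ (π : Equiv.Perm (Fin Q)) (t : Fin Q → ℤ), ∀ J,
    s (rotL y Y) y J = y ^ t J * s Y y (π J)

/-- The average of `F` over the values of the section `s`, for the paths with lists of length `N`. -/
def evA {M : ℕ} (N Q : ℕ) (F : (Fin M → Γ) → Γ → ℚ) (s : List Γ → Γ → Fin Q → Γ)
    (μ : Rec Γ (Fin M)) : ℚ := by
  classical
  exact if ∀ i, (μ.lst i).length = N then
    ((Q : ℚ) ^ M)⁻¹ * ∑ J : Fin M → Fin Q, F (fun i => s (μ.lst i) μ.val (J i)) μ.val else 0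

/-- Invariant families. -/
def FInv {M : ℕ} (F : (Fin M → Γ) → Γ → ℚ) : Prop :=
  ∀ (g : Γ) (a : Fin M → Γ) (y : Γ), F (fun i => g * a i) (g * y * g⁻¹) = F a y

/-- Families of cocycles. -/
def FCoc {M : ℕ} (F : (Fin M → Γ) → Γ → ℚ) : Prop :=
  ∀ (a : Fin (M + 1) → Γ) (y : Γ), ∑ i : Fin (M + 1), (-1 : ℚ) ^ (i : ℕ) * F (fun j => a (i.succAbove j)) y = 0

/-- Families which are invariant under powers of `y` in each variable. -/
def FBas {M : ℕ} (F : (Fin M → Γ) → Γ → ℚ) : Prop :=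
  ∀ (t : Fin M → ℤ) (a : Fin M → Γ) (y : Γ), F (fun i => y ^ t i * a i) y = F a y

/-- `p ^ b * F` has values with denominators prime to `p`. -/
def FDen {M : ℕ} (p b : ℕ) (F : (Fin M → Γ) → Γ → ℚ) : Prop := ∀ a y, ¬ p ∣ ((p : ℚ) ^ b * F a y).den

/-- `F (·; y) = 0` if `y` is a `p ^ c`-th power. -/
def FRoot {M : ℕ} (p c : ℕ) (F : (Fin M → Γ) → Γ → ℚ) : Prop :=
  ∀ (a : Fin M → Γ) (y : Γ), F a y ≠ 0 → ∀ δ : Γ, δ ^ p ^ c ≠ y

end

/-! ## Modules RSA, RGD: sections -/

/-- RSA (adapt P_HSE.lean): existence of sections.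

Proof.  As in P_HSE.lean use the extended list `A = SEC.sq Y y`, the representative `rep A` of its class under
`A ↦ δ * A (· + l)`, and for `(Y, y)` with `Y ≠ []` and `GoodC Q Y y` (this is invariant under `Γ` and under rotations) a choice
of `γ`, `m` with `A n = γ * rep A (n + m)` for all `n`.  For a sequence `R` let `gen R` be an element `δ` which generates the
group of the `δ'` with `R n = δ' * R (n + e)` for some `e ∈ ℕ` and all `n` (`δ` is one of them, and they are all in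
`Subgroup.zpowers δ`), if there is one, and `1` otherwise.  Put `s Y y J = γ * (gen (rep A) ^ J * rep A 0)`; otherwise
`s Y y J = Y.headD 1`.  If also `A n = γ' * rep A (n + m')` then `γ⁻¹ * γ'` or its inverse is one of the `δ'` for `rep A`, so
`γ' = γ * gen ^ l` for some `l ∈ ℤ`, and `γ' gen ^ J rep A 0 = γ gen ^ (l + J) rep A 0`.  By `GoodC` (conjugated by `γ`, two
generators have the same powers) `gen ^ Q` is a power of `y_0 = γ⁻¹ y γ`, so with `l + J = π J + Q * u J`, `π J ∈ Fin Q`,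
`gen ^ (l + J) = y_0 ^ (t J) * gen ^ (π J)`: another choice changes `s Y y` by a permutation of `Fin Q` and powers of `y` from the
left.  `inv` and `rot` follow (`A' n = δ * A n`, `A' n = A (n + 1)` have the same `rep`); in the other cases take the identity
permutation and `t = 0`. -/
def S_RSA : Prop := ∀ (Γ : Type) [Group Γ] (Q : ℕ), 0 < Q → ∃ s : List Γ → Γ → Fin Q → Γ, SecA Q s

/-- RGD (uses `PER.exists_min`, `PER.stb` in P_PER.lean, `HSE.goodQ_iff` in P_HSE.lean): lists of length `p ^ k`.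

Proof.  Let `A = SEC.sq Y y`: `A (n + p ^ k) = y * A n`.  `PER.exists_min` gives `d > 0` and `δ0` with `A n = δ0 * A (n + d)` for
all `n` such that `A n = δ * A (n + e)` for all `n` implies `e = m * d`, `δ = δ0 ^ m`.  For `δ = y⁻¹`, `e = p ^ k` this gives
`p ^ k = m0 * d`, `y⁻¹ = δ0 ^ m0`, `m0 = p ^ j`.  If `c ≤ j` then `((δ0⁻¹) ^ (p ^ (j - c))) ^ (p ^ c) = y`, a contradiction.  So
`j ≤ c` and `δ0 ^ (p ^ c) = (y⁻¹) ^ (p ^ (c - j))` is a power of `y`.  Take `δ = δ0` (`Stb Y y δ0 d`: see `HSE.goodQ_iff`,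
`MRN.goodP_iff` for the translation between `Stb` and `A`). -/
def S_RGD : Prop := ∀ (Γ : Type) [Group Γ] (p k c : ℕ), p.Prime → ∀ (Y : List Γ) (y : Γ), Y.length = p ^ k →
    (∀ δ : Γ, δ ^ p ^ c ≠ y) → GoodC (p ^ c) Y y

/-! ## Modules RTR, RSC, RPW, RSG, RAV: the functionals -/

/-- RTR (adapt P_TRQ.lean): `evA N Q F s` is a trace function.

Proof.  The lists of `μ * ν` are `Y_i ++ μ.val Y'_i`, `y = μ.val * ν.val`; those of `ν * μ`, translated by `μ.val`, are their
rotations by `|Y_i|` steps, with the endpoint `y`.  If the lengths are not `N` both sides are zero, and also if `F · y = 0`.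
Otherwise the lists of `μ * ν` and all their rotations have length `N` and are good, and `SecA.rot`, `SecA.inv` give
`s` at the list `i` of `ν * μ`, translated by `μ.val`, as `y ^ t_i J * s Y_i y (π_i J)` with permutations `π_i`.  The powers of
`y` do not change `F` (`FBas`), `F` is invariant, and the sum over `J : Fin M → Fin Q` is reindexed by `J ↦ (i ↦ π_i (J i))`
(`Equiv.piCongrRight`, `Fintype.sum_equiv`). -/
def S_RTR : Prop := ∀ (Γ : Type) [Group Γ] (M N Q : ℕ) (F : (Fin M → Γ) → Γ → ℚ)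
    (s : List Γ → Γ → Fin Q → Γ), 0 < N → FInv F → FBas F → SecA Q s →
    (∀ (Y : List Γ) (y : Γ), Y.length = N → (∃ a, F a y ≠ 0) → GoodC Q Y y) →
    ∀ μ ν : Rec Γ (Fin M), evA N Q F s (μ * ν) = evA N Q F s (ν * μ)

/-- RSC (adapt P_SCQ.lean, P_SCF.lean): the section and the first recorded positions.

Proof.  For `v : Fin (M + 1) → Γ × Γ` and fixed `y` PRI for the maps `f = Prod.snd`, `f' = Prod.fst` and the cocycle
identity give `F (fst ∘ v) y - F (snd ∘ v) y = ∑_i (-1)^i E (v ∘ i.succAbove)` (`EE` in P_SCF.lean).  Apply this to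
`v_J i = (s (μ.lst i) y (J i), (μ.lst i).headD 1)`, `y = μ.val`, and take the average over `J : Fin (M + 1) → Fin Q`; the term
`i` does not depend on `J i`, so it is `η (Rec.res i.succAbove μ)` with `η μ` the average of `E (v_J)` over
`J : Fin M → Fin Q` if all the lists have length `N`, `0` otherwise.  `CjInv η`: by `SecI q Q s` the entries
`s (γ Y_i) (γ y γ⁻¹) J` are `γ * ((y ^ q) ^ t_i J * s Y_i y (π_i J))`, the heads change by `γ *`; reindex the sum over `J`, and
use the invariance of `F` under `γ` and under powers of `y ^ q`. -/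
def S_RSC : Prop := ∀ (Γ : Type) [Group Γ] (M N q Q : ℕ) (F : (Fin (M + 1) → Γ) → Γ → ℚ)
    (s : List Γ → Γ → Fin Q → Γ), 0 < N → 0 < Q → FInv F → FCoc F →
    (∀ (t : Fin (M + 1) → ℤ) (a : Fin (M + 1) → Γ) (y : Γ), F (fun i => (y ^ q) ^ t i * a i) y = F a y) →
    SecI q Q s →
    ∃ η : Rec Γ (Fin M) → ℚ, CjInv η ∧
      ∀ (k : Type) [Field k] [CharZero k] (ι : Type) [Fintype ι] [DecidableEq ι]
        (X : Fin (M + 1) → (Matrix ι ι (MonoidAlgebra k Γ))ˣ),
        TX (evA N Q F s) N X - TX (fst F) N X =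
          ∑ i : Fin (M + 1), (-1 : k) ^ (i : ℕ) * TX η N (fun t => X (i.succAbove t))

/-- RPW: the average at a power.

Proof.  `s' Y y J = s (powL p Y y) (y ^ p) J`.  The lists of `μ ^ p` are `powL p (μ.lst i) μ.val` and its endpoint is
`μ.val ^ p` (see P_PWQ.lean), of length `p * N` if and only if `μ.lst i` has length `N`.  `powL p (γ Y) (γ y γ⁻¹)` is
`γ powL p Y y` and `(γ y γ⁻¹) ^ p = γ y ^ p γ⁻¹`, so `SecI 1 Q s` for `y ^ p` is `SecI p Q s'` for `y`. -/
def S_RPW : Prop := ∀ (Γ : Type) [Group Γ] (M N p Q : ℕ) (F : (Fin M → Γ) → Γ → ℚ)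
    (s : List Γ → Γ → Fin Q → Γ), 0 < p → SecI 1 Q s →
    ∃ s' : List Γ → Γ → Fin Q → Γ, SecI p Q s' ∧
      ∀ μ : Rec Γ (Fin M), evA (p * N) Q F s (μ ^ p) = evA N Q (powF p F) s' μ

/-- RSG (adapt P_STQ.lean, where `k = 0`): the Gauss congruence for functions with `ℓ`-integral values.

Proof.  `STQ.exists_den` for `n = ℓ ^ (k + 1)` gives `D` prime to `ℓ` such that `D * φ μ` is an integer for all `μ` in the
closure of `T` with lists of length `ℓ ^ (k + 1)`.  `Step7.step` for `D * φ`; `TX` is linear and `‖D‖ = 1` in `ℚ_ℓ`. -/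
def S_RSG : Prop := ∀ (Γ : Type) [Group Γ] (M ℓ k : ℕ) [Fact ℓ.Prime] (T : Finset (Rec Γ (Fin (M + 1)))),
    (∀ t ∈ T, ∀ i, (t.lst i).length = 1) →
    ∀ φ : Rec Γ (Fin (M + 1)) → ℚ, (∀ μ ν, φ (μ * ν) = φ (ν * μ)) → (∀ μ, ¬ ℓ ∣ (φ μ).den) →
    ∀ (ι : Type) [Fintype ι] [DecidableEq ι] (X : Fin (M + 1) → (Matrix ι ι (MonoidAlgebra ℚ_[ℓ] Γ))ˣ),
    (∀ i, NIU (X i)) → (∀ a b μ, (UX X a b).coeff μ ≠ 0 → μ ∈ T) →
    ‖TX φ (ℓ ^ (k + 1)) X - TX (fun μ => φ (μ ^ ℓ)) (ℓ ^ k) X‖ ≤ (ℓ : ℝ) ^ (-(k + 1 : ℤ))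

/-- RAV (adapt P_RTI.lean, P_HPR.lean, which have the same averaged prism): the average over `1, y, …, y ^ (p - 1)`.

Proof.  `G0 = powF p F` is invariant, a family of cocycles, and invariant under powers of `y ^ p` in each variable.
`F' a y = (p ^ (n + 2))⁻¹ ∑_(t : Fin (n + 2) → Fin p) G0 (fun i => y ^ (t i) * a i) y` is invariant, a family of cocycles (the
average over all `t : Fin (n + 3) → Fin p` of the cocycle identity for `y ^ (t i) * a i`; each face does not depend on one of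
the `t i`), invariant under powers of `y` (reindex the sum), and `FDen p (b + (n + 2))` (a sum of numbers `x` with
`¬ p ∣ x.den`).  PRI (`t_PRI`) for the maps `f = Prod.snd`, `f' = Prod.fst` and the vertices `v_t i = (y ^ (t i) * a i, a i)`,
averaged over `t`, gives `F' a y - G0 a y = ∑_i (-1)^i E0 (a ∘ i.succAbove) y`,
`E0 a y = (p ^ (n + 1))⁻¹ ∑_(t : Fin (n + 1) → Fin p) ∑_(j : Fin (n + 1)) (-1)^j G0 (mix snd fst (fun i => (y ^ (t i) * a i, a i)) j) y`;
`E = - E0`. -/
def S_RAV : Prop := ∀ (G : Type) [Group G] (n p b : ℕ), p.Prime → ∀ F : (Fin (n + 2) → G) → G → ℚ,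
    FInv F → FCoc F → FBas F → FDen p b F →
    ∃ (F' : (Fin (n + 2) → G) → G → ℚ) (E : (Fin (n + 1) → G) → G → ℚ),
      FInv F' ∧ FCoc F' ∧ FBas F' ∧ FDen p (b + (n + 2)) F' ∧
      (∀ y : G, (∀ a, F a (y ^ p) = 0) → ∀ a, F' a y = 0) ∧ FInv E ∧
      ∀ (a : Fin (n + 2) → G) (y : G), powF p F a y = F' a y + cobE (fun b => E b y) a

/-! ## Modules RMN, RT0: the component `i = 0` -/

/-- RMN (uses RSA, RGD, RTR, RSC, RPW, RSG, DEN, DEQ, SUP, TXinv, TXfst, TXlin; the setting is that of P_BFL.lean and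
P_BFM.lean): `D_F(z) = D_(powF p F)(z)`.

Proof.  `Q = p ^ c`, `s` from RSA.  For every `k` let `φ_k = evA (p ^ (k + 1)) Q F s`.  By RGD all the lists `Y` of length
`p ^ (k + 1)` with `F · y ≠ 0` are good, so `φ_k` is a trace function by RTR, and `p ^ (b + c (n + 2)) * φ_k` has `p`-integral
values.  Let `T0` be a finite set of records with lists of length one which contains the supports of the entries of all
`UX (zU ℚ X)`, `X ∈ z.support` (SUP (b)), hence of all `UX (zU ℚ_p X)` (`BFL.supp_bc`); these matrices are integral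
(`BFL.niu_zU`).  RSG: `‖TX φ_k (p^(k+1)) X - TX (fun μ => φ_k (μ ^ p)) (p^k) X‖ ≤ p ^ (b + c (n + 2)) * p ^ (-(k + 1))` for `X = zU ℚ_p ∘ X`.
By RPW (for `N = p ^ k`) `φ_k (μ ^ p) = evA (p ^ k) Q (powF p F) s' μ` with `SecI p Q s'`.  `∑ z(X) TX φ_k (p^(k+1)) X =
∑ z(X) TX (fst F) (p^(k+1)) X` by RSC (`q = 1`) and `BFL.sum_faces`, `= ∑ z(X) TX (fst F) 1 X` by TXfst (`BFL.fst_first`)
`= D_F` in `ℚ_p` by DEN, DEQ (a).  In the same way, by RSC for `powF p F`, `q = p` (`powF p F` is invariant, a family of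
cocycles, and invariant under powers of `y ^ p`), `∑ z(X) TX (evA (p^k) Q (powF p F) s') (p^k) X = D_(powF p F)`.  So
`‖D_F - D_(powF p F)‖ ≤ C * p ^ (-(k + 1))` for all `k`, with `C = p ^ (b + c (n + 2)) * ∑ ‖z(X)‖`, and `D_F = D_(powF p F)`
in `ℚ_p`, hence in `ℚ`. -/
def S_RMN : Prop := ∀ (G : Type) [Group G] (n p b c : ℕ) [Fact p.Prime] (F : (Fin (n + 2) → G) → G → ℚ),
    FInv F → FCoc F → FBas F → FDen p b F → FRoot p c F →
    ∀ (r : ℕ), ∀ z ∈ cyc ℚ ((Matrix (Fin r) (Fin r) (MonoidAlgebra ℤ G))ˣ) (n + 1),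
    (z.sum fun X q => q * dtr F X) = z.sum fun X q => q * dtr (powF p F) X

/-- RT0 (uses RMN, RAV, COB, DEQ).

Proof by induction on `c` (for all `b`, `F`).  `c = 0`: `F = 0` (take `δ = y`).  `c + 1`: RMN; `F'`, `E` from RAV;
`dtr (powF p F) X = dtr F' X + dtr (cobE E) X` (DEQ (b)) and the value of `cobE E` is zero by COB.  `FRoot p c F'`: if
`F' a y ≠ 0` then `F a' (y ^ p) ≠ 0` for some `a'`, and `δ ^ (p ^ c) = y` would give `δ ^ (p ^ (c + 1)) = y ^ p`.  So the value of `F'` is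
zero by induction. -/
def S_RT0 : Prop := ∀ (G : Type) [Group G] (n p c b : ℕ), p.Prime → ∀ F : (Fin (n + 2) → G) → G → ℚ,
    FInv F → FCoc F → FBas F → FDen p b F → FRoot p c F →
    ∀ (r : ℕ), ∀ z ∈ cyc ℚ ((Matrix (Fin r) (Fin r) (MonoidAlgebra ℤ G))ˣ) (n + 1),
    (z.sum fun X q => q * dtr F X) = 0

/-! ## Modules RBA, RTB, RTC, RCA, RRF: the theorem for the Dennis trace -/

/-- RBA (adapt P_RTI.lean): at an element of finite order the cocycle can be made invariant under the powers of `y`.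

Proof.  `m = orderOf y`, `f' a = (m ^ (n + 1))⁻¹ ∑_(t : Fin (n + 1) → Fin m) f (fun i => y ^ (t i) * a i)` and `E` as in P_RTI.lean (there
for integral cocycles): invariant under powers of `y`, a cocycle, `CInv` (elements which commute with `y`).  The denominators
of `f'` divide `m ^ (n + 1)` times a common denominator of finitely many values of `f`; the exponent of `p` in them is
bounded: with `¬ p ^ b ∣ (f a).den` and `¬ p ^ b' ∣ m ^ (n + 1)` one has `¬ p ^ (b + b') ∣ (f' a).den`. -/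
def S_RBA : Prop := ∀ (G : Type) [Group G] (n : ℕ) (y : G) (f : (Fin (n + 1) → G) → ℚ), IsOfFinOrder y →
    CInv y f → (∀ a : Fin (n + 2) → G, cobE f a = 0) → RootC ℤ y f →
    ∃ (f' : (Fin (n + 1) → G) → ℚ) (E : (Fin n → G) → ℚ), CInv y f' ∧ CInv y E ∧
      (∀ a : Fin (n + 2) → G, cobE f' a = 0) ∧ (∀ a, f a = f' a + cobE E a) ∧ RootC ℤ y f' ∧
      ∀ (t : Fin (n + 1) → ℤ) (a : Fin (n + 1) → G), f' (fun i => y ^ t i * a i) = f' a

/-- RTB (adapt P_TRB.lean; uses RT0, RBA, DEQ, TFQ, COB, WOQ, BFM, FWD, PDG): the theorem, with the conditions in `G`.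

Proof: as TRB (StU.lean, P_TRB.lean) with the conditions `AdmR` instead of `AdmC`.  First, by RBA one may assume for
`y ∈ R` that `f'_y` is invariant under powers of `y` in the second case of `AdmR` (replace `E_y` by the sum of `E_y` and the `E`
of RBA; `cobE` is additive).  The value of `F'_y` on `z` is zero: if `f'_y = 0` clear; if `RootC ℤ y f'_y` with `p`, `b`, `c`: RT0
(`F'_y a x ≠ 0` only for `x` conjugate to `y`, and these are not `p ^ c`-th powers either; `¬ p ^ b ∣ q.den` implies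
`¬ p ∣ (p ^ b * q).den`); if `n ≤ 3` and `y` has finite order: TFQ for a prime divisor of `orderOf y`, with `PdgL G m p` from `hpdg`,
`m = n - 1 ≤ 2`; in the last two cases FWD and BFM. -/
def S_RTB : Prop := ∀ (G : Type) [Group G] (n r : ℕ), 1 ≤ n →
    ∀ z ∈ cyc ℚ ((Matrix (Fin r) (Fin r) (MonoidAlgebra ℤ G))ˣ) n,
    ∃ w ∈ cyc ℚ G n, ∀ F : (Fin (n + 1) → G) → G → ℚ, FInv F →
      (∀ y : G, y ≠ 1 → AdmRAt n y (fun a => F a y)) →
      (z.sum fun X q => q * dtr F X) = w.sum fun a q => q * F a 1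

/-- RTC (uses FGS, NAT, RTB; adapt P_TRC.lean): the theorem. -/
def S_RTC : Prop := ∀ (G : Type) [Group G] (n r : ℕ), 1 ≤ n →
    ∀ z ∈ cyc ℚ ((Matrix (Fin r) (Fin r) (MonoidAlgebra ℤ G))ˣ) n,
    ∃ w ∈ cyc ℚ G n, ∀ F : (Fin (n + 1) → G) → G → ℚ, AdmRG n F →
      (z.sum fun X q => q * dtr F X) = w.sum fun a q => q * F a 1

/-- RCA: the conditions of StU.lean imply the new ones.

Proof.  (a) If `y` has finite order, `(f a).den ∣ m`, and `p ∣ orderOf y`, `PBdd G p` with exponent `c`: `b` with `¬ p ^ b ∣ m`;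
if `δ ^ (p ^ c) = y` then `δ` has finite order and `p ^ (c + 1) ∣ orderOf δ` (`orderOf_pow`: `orderOf y = orderOf δ / gcd (orderOf δ) (p ^ c)`
is divisible by `p`), which contradicts `PBdd`.  So `RootC ℤ y f`.  If `n ≤ 3`: the third case.  The other cases are the same.
(b) from (a). -/
def S_RCA : Prop :=
    (∀ (G : Type) [Group G] (n : ℕ) (y : G) (f : (Fin (n + 1) → G) → ℚ), AdmC n y f → AdmR n y f) ∧
    ∀ (G : Type) [Group G] (n : ℕ) (F : (Fin (n + 1) → G) → G → ℚ), AdmG n F → AdmRG n F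

/-- RRF: residually finite groups.

Proof.  (a) Let `N` be a normal subgroup of finite index with `y ∉ N`, `p` a prime divisor of the order of the image
`y'` of `y` in the finite group `G / N`, and `c` with `|G / N| < p ^ c`.  If `δ ^ (p ^ c) = y`, then the order of the image `δ'` is
divisible by `p ^ (c + 1)` (`p` divides the order of `δ' ^ (p ^ c) = y'`, `orderOf_pow`), a contradiction.
(b) For `H`, `y` take `f' = f`, `E = 0` (`CInv` of `f`: if `g` commutes with `y` then `F (g a; y) = F (g a; g y g⁻¹) = F (a; y)`); the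
denominators are `1`, so `RootC ℤ y f` by (a) for the group `H` (`b = 1`). -/
def S_RRF : Prop :=
    (∀ (G : Type) [Group G], ResFin G → ∀ y : G, y ≠ 1 → ∃ p c : ℕ, p.Prime ∧ ∀ δ : G, δ ^ p ^ c ≠ y) ∧
    ∀ (G : Type) [Group G], (∀ H : Subgroup G, H.FG → ResFin H) →
      ∀ (n : ℕ) (F : (Fin (n + 1) → G) → G → ℤ), CocFam n F →
      (∀ y : G, ¬ IsOfFinOrder y → ∀ (t : Fin (n + 1) → ℤ) (a : Fin (n + 1) → G),
        F (fun i => y ^ t i * a i) y = F a y) →
      AdmRG n (fun a y => (F a y : ℚ))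

/-! ## Modules RPR, RXI, RPO, RCO, RTX: the components `i ≥ 1` -/

/-- RPR (adapt P_HPR.lean): the prism between the section and the positions.

Proof.  For `v : Fin (M + 1) → Γ × Γ` and fixed `y`, PRI (`t_PRI`) for the maps `f = Prod.snd`, `f' = Prod.fst` and the
cocycle identity give `F (fst ∘ v) y - F (snd ∘ v) y = ∑_i (-1)^i E (v ∘ i.succAbove)`.  Apply this to
`v_(J,t) j = (s (Y j) y (J j), (Y j).getD (t j) 1)` and take the average over all `J : Fin (M + 1) → Fin Q`,
`t : Fin (M + 1) → Fin N`; `h Y y` is the average of `E (j ↦ (s (Y j) y (J j), (Y j).getD (t j) 1))` over `J : Fin M → Fin Q`,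
`t : Fin M → Fin N`.  (a) is the averaged identity (the term `i` does not depend on `J i`, `t i`).  (b) `s` changes by a
permutation of `Fin Q` and `γ * y ^ m *`, the entries of the lists by `γ *`.  (c) By `GoodC` `s (rotL y (Y i)) y` is `s (Y i) y` up
to a permutation and powers of `y`; the entries of `rotL y (Y i)` at `t` are those of `Y i` at `t + 1`, and `y *` the entry at `0`
for `t = N - 1`; reindex the sums over `J i`, `t i` and use `FBas`.  (d) clear. -/
def S_RPR : Prop := ∀ (Γ : Type) [Group Γ] (M N Q : ℕ) (F : (Fin (M + 1) → Γ) → Γ → ℚ)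
    (s : List Γ → Γ → Fin Q → Γ), 0 < N → 0 < Q → FInv F → FCoc F → FBas F → SecA Q s →
    ∃ h : (Fin M → List Γ) → Γ → ℚ,
      (∀ (Y : Fin (M + 1) → List Γ) (y : Γ),
        ((Q : ℚ) ^ (M + 1))⁻¹ * ∑ J : Fin (M + 1) → Fin Q, F (fun j => s (Y j) y (J j)) y -
          ((N : ℚ) ^ (M + 1))⁻¹ * ∑ t : Fin (M + 1) → Fin N, F (fun j => (Y j).getD (t j) 1) y =
          ∑ i : Fin (M + 1), (-1 : ℚ) ^ (i : ℕ) * h (fun j => Y (i.succAbove j)) y) ∧
      (∀ (γ : Γ) (Y : Fin M → List Γ) (y : Γ), (∀ i, (Y i).length = N) →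
        h (fun i => (Y i).map (γ * ·)) (γ * y * γ⁻¹) = h Y y) ∧
      (∀ (Y : Fin M → List Γ) (y : Γ), (∀ i, (Y i).length = N) → ∀ i, GoodC Q (Y i) y →
        h (Function.update Y i (rotL y (Y i))) y = h Y y) ∧
      ∀ y : Γ, (∀ a, F a y = 0) → ∀ Y : Fin M → List Γ, h Y y = 0

/-- RXI (adapt P_HXI.lean; uses RPR, HAL): the function `ξ`.

Proof.  `FBas F` from `AltB.bas`.  `h` from RPR, `ξ Y y = (1 / M !) ∑_π sign(π) h (Y ∘ π) y`.  The identity: HAL for fixed
`y`; the left side of RPR (a) is alternating in `Y`, as `F · y` is alternating (replace `J`, `t` by `J ∘ σ`, `t ∘ σ`).  `XiT`: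
`inv` from RPR (b); `alt` clear; `rot`: `update Y i (rotL y (Y i)) ∘ π = update (Y ∘ π) (π⁻¹ i) (rotL y (Y i))`, RPR (c) if
`F · y ≠ 0` (then all the lists of length `N` are good by hypothesis), and if `F · y = 0` both sides are zero by RPR (d). -/
def S_RXI : Prop := ∀ (Γ : Type) [Group Γ] (M N Q : ℕ) (F : (Fin (M + 1) → Γ) → Γ → ℚ)
    (s : List Γ → Γ → Fin Q → Γ), 0 < N → 0 < Q → FInv F → FCoc F → (∀ y : Γ, AltB y (fun a => F a y)) →
    SecA Q s → (∀ (Y : List Γ) (y : Γ), Y.length = N → (∃ a, F a y ≠ 0) → GoodC Q Y y) →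
    ∃ ξ : (Fin M → List Γ) → Γ → ℚ, (∀ T : Finset (Rec Γ (Fin M)), XiT N T ξ) ∧
      ∀ (Y : Fin (M + 1) → List Γ) (y : Γ),
        ((Q : ℚ) ^ (M + 1))⁻¹ * ∑ J : Fin (M + 1) → Fin Q, F (fun j => s (Y j) y (J j)) y -
          ((N : ℚ) ^ (M + 1))⁻¹ * ∑ t : Fin (M + 1) → Fin N, F (fun j => (Y j).getD (t j) 1) y =
          ∑ i : Fin (M + 1), (-1 : ℚ) ^ (i : ℕ) * ξ (fun j => Y (i.succAbove j)) y

/-- RPO: polynomials whose values at the powers of `p` are divisible by large powers of `p`.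

Proof.  Let `A` be the ring generated by `s`, a noetherian domain (a quotient of a polynomial ring over `ℤ` in finitely many
variables; compare P_HFD.lean), `p` is not invertible in `A`, so `⋂_K p^K A = 0` (Krull's intersection theorem,
`Ideal.iInf_pow_eq_bot_of_isDomain` for the ideal generated by `p`).
(1) There is an integer `D > 0` with `D * R.coeff j ∈ A` for all `j`: the values of `R` at `1, p, …, p ^ L` multiplied by
integers `d * p ^ C ≠ 0` are in `A`, and `R` is the Lagrange interpolation polynomial of its values at these `L + 1` different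
points (`Lagrange.interpolate`, `Lagrange.basis`: the coefficients of the basis polynomials are rational numbers with a common
denominator).
(2) Suppose `r_j ≠ 0` for some `j < L`, `j` minimal.  For all `K`: `R(p^K) = p^(K j) (r_j + p^K q_K)` with `D * q_K ∈ A`, so
`d * p^C * (D r_j + p^K (D q_K)) = p^(K (L - j)) * (D a)` (cancel `p^(K j)`), and `d * (p^C D r_j) ∈ p^K A`; as `d` is prime to `p`,
`u d + v p^K = 1`, `p^C D r_j ∈ p^K A` for all `K`, so `r_j = 0`, a contradiction.  So `R = r_L X ^ L`. -/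
def S_RPO : Prop := ∀ (k : Type) [Field k] [CharZero k] (s : Finset k) (p L C : ℕ) (R : Polynomial k), p.Prime →
    (∀ a ∈ Subring.closure (s : Set k), (p : k) * a ≠ 1) → R.natDegree ≤ L →
    (∀ K : ℕ, ∃ d : ℤ, ¬ (p : ℤ) ∣ d ∧ ∃ a ∈ Subring.closure (s : Set k),
      (d : k) * (p : k) ^ C * R.eval ((p : k) ^ K) = (p : k) ^ (K * L) * a) →
    R.eval 1 = R.coeff L

/-- RCO (adapt P_HCO.lean; uses RSA, RGD, RXI, HTG, HFA, HEV, HIN, HCP, RPO): the value on a cyclic cycle with repeated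
vertices is zero.

Proof.  `L = M + 2`, `Q = p ^ c`, `s` from RSA, `D(w ∘ σ) = ∑ w(X) TG (fst F) 1 (X ∘ σ)`, `f σ = sign(σ) D(w ∘ σ)`, `R` the
polynomial of HCP for `f`; `S0` the finite set of the coefficients of the entries of the matrices `(X i).a`, `(X i).b`,
`X ∈ w.support`, `A` the ring generated by `S0`; `A ≤ B`, so `p * a ≠ 1` for `a ∈ A`.  For `K ∈ ℕ` let `N = p ^ K`; by RGD the
hypothesis of RXI (with `M + 1` for `M`) on the lists holds; `ξ` from RXI, `T` from `BdT w`,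
`φ μ = (Q ^ L)⁻¹ ∑_J F (fun j => s (μ.lst j) μ.val (J j)) μ.val`.  By RXI, HTG (a) and HFA
`TG φ N X - N^(-L) ∑_t TG (evT F t) N X = ∑_i (-1)^i TG (lf ξ) N (X ∘ i.succAbove)` for all `X`, and the sum over `w` of the right
side vanishes by `BdT`.  By HEV `∑_X w(X) ∑_t TG (evT F t) N X = ∑_t f (sort t) = R(N)`.  The numbers `p ^ (b + c L) * φ μ` have
denominators prime to `p`, so by HIN `d * ∑_X w(X) p ^ (b + c L + C0) TG φ N X ∈ A` for some integer `d` prime to `p` (`C0` bounds the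
exponents of `p` in the denominators of the `w(X)`).  So `d * p ^ C * R(p ^ K) = p ^ (K L) * a`, `a ∈ A`, `C = b + c L + C0`, and
RPO gives `R(1) = R.coeff L`, that is `L ! * f(1) = ∑ σ, f σ`.  If `X a = X b`, `a ≠ b`, then `X ∘ (swap a b * σ) = X ∘ σ` and the
signs are opposite, so `∑ σ, f σ = 0` (as in P_HCO.lean), and `f(1) = D(w)`. -/
def S_RCO : Prop := ∀ (k : Type) [Field k] [CharZero k] (Γ : Type) [Group Γ] (ι : Type) [Fintype ι]
    [DecidableEq ι] (ε : Matrix ι ι (MonoidAlgebra k Γ)) (M : ℕ) (F : (Fin (M + 2) → Γ) → Γ → ℚ),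
    FInv F → FCoc F → (∀ y : Γ, AltB y (fun a => F a y)) →
    ∀ p b c : ℕ, p.Prime → FDen p b F → FRoot p c F →
    ∀ B : Subring k, ¬ IsUnit (p : B) → ∀ w : (Fin (M + 2) → RPair ε) →₀ ℚ, BdT w →
    (∀ X ∈ w.support, ∀ i a b γ, ((X i).a a b).coeff γ ∈ B ∧ ((X i).b a b).coeff γ ∈ B) →
    (∀ X ∈ w.support, ∃ a b, a ≠ b ∧ X a = X b) →
    (w.sum fun X q => (q : k) * TG (fst F) 1 X) = 0

/-- RTX (adapt P_HTX.lean; uses RCO, HCO, HCB, HTG): admissible families.

Proof: as HTX (StW.lean, P_HTX.lean).  The value of `F'_y` on `w` is zero: if `f'_y = 0` clear; if `RootC B y f'_y` by RCO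
(`F'_y a x ≠ 0` only for `x` conjugate to `y`, and these are not `p ^ c`-th powers either; `¬ p ^ b ∣ q.den` implies
`¬ p ∣ (p ^ b * q).den`); in the last case by HCO (b) (`FamY F'_y y`). -/
def S_RTX : Prop := ∀ (k : Type) [Field k] [CharZero k] (Γ : Type) [Group Γ] (ι : Type) [Fintype ι]
    [DecidableEq ι] (ε : Matrix ι ι (MonoidAlgebra k Γ)) (M : ℕ) (F : (Fin (M + 2) → Γ) → Γ → ℚ), FInv F →
    ∀ B : Subring k, (∀ y : Γ, AdmSY B (M + 1) y (fun a => F a y)) →
    ∀ w : (Fin (M + 2) → RPair ε) →₀ ℚ, BdT w →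
    (∀ X ∈ w.support, ∀ i a b γ, ((X i).a a b).coeff γ ∈ B ∧ ((X i).b a b).coeff γ ∈ B) →
    (∀ X ∈ w.support, ∃ a b, a ≠ b ∧ X a = X b) →
    (w.sum fun X q => (q : k) * TG (fst F) 1 X) = 0

/-! ## Modules RTG, RTF, RCV, RTH, RTE, RAD: the theorem for the higher components -/

/-- RTG (adapt P_HTH.lean; uses HFG, HNA, HNL, HUN, RTX, HDE): cycles with coefficients in `B`.

Proof: as HTH (StW.lean, P_HTH.lean), with RTX for `B`.  `H`, `z'` from HFG, `f = glG H.subtype`, `z = hmap f z'`; `f` is injective, so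
for `X' ∈ z'.support` `f ∘ X' ∈ z.support`, and the coefficient of an entry of `X' j` (or `(X' j)⁻¹`) at `h ∈ H` is the
coefficient of the entry of `f (X' j)` at `h`, hence in `B`.  The entries of the lists `Y` in the support of
`lT T _ i (z'.mapDomain ofFn)` are entries of the `X' ∈ z'.support` (`NatLift.nat`, see the proof of HNL (0) in P_HNL.lean). -/
def S_RTG : Prop := ∀ (T : ∀ V : Type, ℕ → List V → (List V →₀ ℚ)), NatLift T →
    ∀ (k : Type) [Field k] [CharZero k] (G : Type) [Group G] (n i r : ℕ), 1 ≤ n → 1 ≤ i →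
    ∀ B : Subring k, ∀ z ∈ cyc ℚ ((Matrix (Fin r) (Fin r) (MonoidAlgebra k G))ˣ) n,
    (∀ X ∈ z.support, ∀ j a b γ, ((X j).val a b).coeff γ ∈ B ∧ ((X j)⁻¹.val a b).coeff γ ∈ B) →
    ∀ F : (Fin (n + 2 * i + 1) → G) → G → ℚ, AdmS B (n + 2 * i) F →
    ((lT T _ i (z.mapDomain List.ofFn)).sum fun Y q => (q : k) * cval F (hseq (n + 2 * i) Y)) = 0

/-- RTF (adapt P_HTE.lean; uses HFG, HNA, HID, RTX, HDE): idempotent matrices with coefficients in `B`. -/
def S_RTF : Prop := ∀ (k : Type) [Field k] [CharZero k] (G : Type) [Group G] (i r : ℕ), 1 ≤ i →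
    ∀ (B : Subring k) (e : Matrix (Fin r) (Fin r) (MonoidAlgebra k G)), e * e = e →
    (∀ a b γ, (e a b).coeff γ ∈ B) →
    ∀ F : (Fin (2 * i + 1) → G) → G → ℚ, AdmS B (2 * i) F → cval F (fun _ => e) = 0

/-- RCV: change of coefficients.

Proof.  (a) The coefficients of the entries of the image are the images of the coefficients, so
`hcoef (image) γ = algebraMap R k (hcoef h γ)`.  (b) `AdmS R n F` implies `AdmS B n F` for `B = (algebraMap R k).range`, which is
isomorphic to `R` (`RingEquiv.ofLeftInverse` or `RingHom.rangeRestrict`, bijective): `p` is a unit in `R` if it is a unit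
in `B`. -/
def S_RCV : Prop :=
    (∀ (R : Type) [CommRing R] (k : Type) [Field k] [Algebra R k] (G : Type) [Group G] (ι : Type) [Fintype ι]
      (n : ℕ) (F : (Fin (n + 1) → G) → G → ℚ) (h : Fin (n + 1) → Matrix ι ι (MonoidAlgebra R G)),
      cvalS k F h = cval F (fun j => (h j).map (MonoidAlgebra.mapRingHom G (algebraMap R k)))) ∧
    ∀ (R : Type) [CommRing R] (k : Type) [Field k] [Algebra R k], Function.Injective (algebraMap R k) →
      ∀ (G : Type) [Group G] (n : ℕ) (F : (Fin (n + 1) → G) → G → ℚ), AdmS R n F →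
      AdmS (algebraMap R k).range n F

/-- RTH (uses RTG, RCV): cycles of `GL_r(R[G])`.

Proof.  Let `f : GL_r(R[G]) → GL_r(k[G])` be the map of groups induced by `algebraMap R k` (`Units.map` of
`RingHom.mapMatrix`), `z' = hmap ℚ f (n + 1) z`, again in `cyc` (`hmap` commutes with `bd` and maps `g X - X` to
`f(g) f(X) - f(X)`; see P_NAT.lean).  `z'.mapDomain ofFn` is the image under `List.map f` of `z.mapDomain ofFn`, so `lT T _ i` of it is
the image of `lT T _ i (z.mapDomain ofFn)` (`NatLift.nat`), and `hseq m (Y.map f) j` is the image of `hseq m Y j`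
(`List.getD_map`); by RCV (a) the sum is the sum in RTG for `z'` (`Finsupp.sum_mapDomain_index`), with
`B = (algebraMap R k).range`, and RCV (b). -/
def S_RTH : Prop := ∀ (T : ∀ V : Type, ℕ → List V → (List V →₀ ℚ)), NatLift T →
    ∀ (R : Type) [CommRing R] (k : Type) [Field k] [CharZero k] [Algebra R k],
    Function.Injective (algebraMap R k) → ∀ (G : Type) [Group G] (n i r : ℕ), 1 ≤ n → 1 ≤ i →
    ∀ z ∈ cyc ℚ ((Matrix (Fin r) (Fin r) (MonoidAlgebra R G))ˣ) n,
    ∀ F : (Fin (n + 2 * i + 1) → G) → G → ℚ, AdmS R (n + 2 * i) F →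
    ((lT T _ i (z.mapDomain List.ofFn)).sum fun Y q => (q : k) * cvalS k F (hseq (n + 2 * i) Y)) = 0

/-- RTE (uses RTF, RCV): idempotent matrices over `R[G]`.

Proof.  The image `e'` of `e` over `k[G]` is idempotent, its coefficients are in `B = (algebraMap R k).range`; RCV. -/
def S_RTE : Prop := ∀ (R : Type) [CommRing R] (k : Type) [Field k] [CharZero k] [Algebra R k],
    Function.Injective (algebraMap R k) → ∀ (G : Type) [Group G] (i r : ℕ), 1 ≤ i →
    ∀ e : Matrix (Fin r) (Fin r) (MonoidAlgebra R G), e * e = e →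
    ∀ F : (Fin (2 * i + 1) → G) → G → ℚ, AdmS R (2 * i) F → cvalS k F (fun _ => e) = 0

/-- RAD (uses RRF): admissible families.

Proof.  (a) The condition in `AdmY` implies that in `AdmSY`.  (b) For `H`, `y ∈ H` take `f' = f`, `E = 0` (compare P_HLI.lean); the
denominators are `1`.  If `y ≠ 1` then `RootC R y f` with `b = 1` by RRF (a) for `H` (no prime is a unit in `R`).  If `y = 1`: for a
finite set `V` all but finitely many primes `p` are in the set: if `z ^ p` is conjugate to `1` then `z ^ p = 1`, and if `p` does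
not divide the order of `z` (`z ∈ V`) then `z = 1`. -/
def S_RAD : Prop :=
    (∀ (R : Type) [CommRing R] (G : Type) [Group G] (n : ℕ) (F : (Fin (n + 1) → G) → G → ℚ),
      AdmT n F → AdmS R n F) ∧
    ∀ (R : Type) [CommRing R], (∀ p : ℕ, p.Prime → ¬ IsUnit (p : R)) →
      ∀ (G : Type) [Group G], (∀ H : Subgroup G, H.FG → ResFin H) →
      ∀ (n : ℕ) (F : (Fin (n + 1) → G) → G → ℤ), IntFam n F → AdmS R n (fun a y => (F a y : ℚ))

end Pool.Agent.FJA
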