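import Pool.Agent.FJA.LmChern
import Pool.Agent.FJA.LmDennis
import Pool.Agent.FJA.StY

/-!
# Direct limits of groups: statements of the modules

A cycle of `GL_r(R[G])` (or an idempotent matrix over `R[G]`) only involves finitely many elements of `G` and finitely
many products, so it lifts to a cycle of `GL_r(R[Q])` for every group `Q` over `G` to which a sufficiently large finite
part of the multiplication table of `G` lifts.
-/

set_option autoImplicit false

open Matrix Pool.Agent.WhK Pool.Agent.Lib25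

noncomputable section

namespace Pool.Agent.FJA

/-- The map of general linear groups of a map of groups. -/
def glR (R : Type) [CommRing R] {H G : Type} [Group H] [Group G] (f : H →* G) {r : ℕ} :
    (Matrix (Fin r) (Fin r) (MonoidAlgebra R H))ˣ →* (Matrix (Fin r) (Fin r) (MonoidAlgebra R G))ˣ :=
  Units.map ((MonoidAlgebra.mapDomainRingHom R f).mapMatrix :
    Matrix (Fin r) (Fin r) (MonoidAlgebra R H) →+* Matrix (Fin r) (Fin r) (MonoidAlgebra R G)).toMonoidHom

/-- LMF: lifting cycles.

Proof (compare P_FGS.lean).  If `n = m + 1`, write `bd z ∈ hdeg` as a finite combination `∑_i c_i (g_i Y_i - Y_i)` (span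
induction); for `n = 0` there is no condition.  Let `T` be the finite set of the matrices `X j`, `X ∈ z.support`, `g_i`, `Y_i j`,
`g_i * Y_i j`, and `S` the finite set of `1`, the elements of the supports of the entries of the `A` and `A⁻¹`, `A ∈ T`, and
the products of two such elements.  Let `PSec π s S`.  `s 1 = 1` (`s 1 = s 1 * s 1`).  Let `σ` be the additive map
`R[G] → R[Q]` which maps the group element `g` to `s g` (`MonoidAlgebra.mapDomain s` or `Finsupp.mapDomain`), applied to the
entries of matrices.  If the supports of the entries of `A`, `B` and the products of their elements are in `S` then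
`σ (A * B) = σ A * σ B`; so `σ A`, `σ A⁻¹` are inverse to each other for `A ∈ T`.  Let `L A ∈ GL_r(R[Q])` be this lift for `A ∈ T`,
`L A = 1` for `A ∉ T`.  `glR R π (L A) = A` for `A ∈ T` (`π (s g) = g` for `g ∈ S`), and `L (g_i * Y_i j) = L g_i * L (Y_i j)`.
`z' = hmap L z`: `bd z' = hmap L (bd z) = ∑_i c_i (L g_i · L Y_i - L Y_i) ∈ hdeg`, and `hmap (glR R π) z' = z`. -/
def S_LMF : Prop := ∀ (R : Type) [CommRing R] (G : Type) [Group G] (n r : ℕ),
    ∀ z ∈ cyc ℚ ((Matrix (Fin r) (Fin r) (MonoidAlgebra R G))ˣ) n,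
    ∃ S : Finset G, ∀ (Q : Type) [Group Q] (π : Q →* G) (s : G → Q), PSec π s S →
      ∃ z' ∈ cyc ℚ ((Matrix (Fin r) (Fin r) (MonoidAlgebra R Q))ˣ) n,
        hmap ℚ (glR R (r := r) π) (n + 1) z' = z

/-- LME: lifting idempotent matrices.

Proof: `S` the set of the elements of the supports of the entries of `e` and the products of two such elements,
`e' = σ e` (see LMF). -/
def S_LME : Prop := ∀ (R : Type) [CommRing R] (G : Type) [Group G] (r : ℕ)
    (e : Matrix (Fin r) (Fin r) (MonoidAlgebra R G)), e * e = e →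
    ∃ S : Finset G, ∀ (Q : Type) [Group Q] (π : Q →* G) (s : G → Q), PSec π s S →
      ∃ e' : Matrix (Fin r) (Fin r) (MonoidAlgebra R Q), e' * e' = e' ∧
        (MonoidAlgebra.mapDomainRingHom R π).mapMatrix e' = e

/-- LNA (compare P_HNA.lean, where `π` is the inclusion of a subgroup): naturality of `cvalS`.

Proof.  The coefficient of the image of `x ∈ R[Q]` at `γ` is the sum of the coefficients of `x` at the `γ'` with
`π γ' = γ`, so `hcoef (image) γ` is the sum of `hcoef h γ'` over the `γ' : Fin (n + 1) → Q` with `π ∘ γ' = γ`; these sums are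
finite sums (`hcoef h γ' ≠ 0` implies that `γ' j` is in the union of the supports of the entries of `h j`).
`fpr (π ∘ γ') = π ∘ fpr γ'`, and the product of `π ∘ γ'` is the image of the product of `γ'`. -/
def S_LNA : Prop := ∀ (R : Type) [CommRing R] (k : Type) [Field k] [Algebra R k] (Q G : Type) [Group Q] [Group G]
    (π : Q →* G) (n r : ℕ) (F : (Fin (n + 1) → G) → G → ℚ)
    (h : Fin (n + 1) → Matrix (Fin r) (Fin r) (MonoidAlgebra R Q)),
    cvalS k F (fun j => ((MonoidAlgebra.mapDomainRingHom R π).mapMatrix :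
      Matrix (Fin r) (Fin r) (MonoidAlgebra R Q) →+* Matrix (Fin r) (Fin r) (MonoidAlgebra R G)) (h j)) =
      cvalS k (fun (a : Fin (n + 1) → Q) (y : Q) => F (fun i => π (a i)) (π y)) h

/-- LNZ (compare P_NAT.lean, where `π` is the inclusion of a subgroup): naturality of `dtr`.

Proof: as LNA; the value `F (fpr γ) (List.ofFn γ).prod` and `dcoef` instead of `hcoef`. -/
def S_LNZ : Prop := ∀ (Q G : Type) [Group Q] [Group G] (π : Q →* G) (n r : ℕ) (F : (Fin (n + 1) → G) → G → ℚ)
    (X : Fin (n + 1) → (Matrix (Fin r) (Fin r) (MonoidAlgebra ℤ Q))ˣ),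
    dtr F (fun j => glZ π (X j)) = dtr (fun (a : Fin (n + 1) → Q) (y : Q) => F (fun i => π (a i)) (π y)) X

/-- LTH (uses RTH, LMF, LNA): the higher components of the Chern character of cycles.

Proof.  `S` from LMF for `z`, `Q`, `π`, `s` from `AdmLC.adm` for `S`, `z'` from LMF, `F' a y = F (π a) (π y)`, a family on `Q`.
`AdmS R (n + 2 i) F'`: `F'` is invariant; for a subgroup `H` of `Q` and `y ∈ H` restrict `f'`, `E` of `AdmSY` for `y ∈ Q` to `H` (an
element of `H` which is not a `p ^ c`-th power in `Q` is not one in `H`; elements which are conjugate in `H` are conjugate in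
`Q`; `z ∈ zpowers (z ^ p)` in `Q` implies the same in `H`).  `z.mapDomain ofFn` is the image under `List.map (glR R π)` of
`z'.mapDomain ofFn`, so `lT T _ i` of it is the image of `lT T _ i (z'.mapDomain ofFn)` (`NatLift.nat`), and
`hseq m (Y.map (glR R π)) j` is the image of `hseq m Y j` (`List.getD_map`); see P_RTH.lean, P_HTH.lean.  LNA and RTH for `Q`. -/
def S_LTH : Prop := ∀ (T : ∀ V : Type, ℕ → List V → (List V →₀ ℚ)), NatLift T →
    ∀ (R : Type) [CommRing R] (k : Type) [Field k] [CharZero k] [Algebra R k],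
    Function.Injective (algebraMap R k) → ∀ (G : Type) [Group G] (n i r : ℕ), 1 ≤ n → 1 ≤ i →
    ∀ z ∈ cyc ℚ ((Matrix (Fin r) (Fin r) (MonoidAlgebra R G))ˣ) n,
    ∀ F : (Fin (n + 2 * i + 1) → G) → G → ℚ, AdmLC R (n + 2 * i) F →
    ((lT T _ i (z.mapDomain List.ofFn)).sum fun Y q => (q : k) * cvalS k F (hseq (n + 2 * i) Y)) = 0

/-- LTE (uses RTE, LME, LNA): idempotent matrices (as LTH). -/
def S_LTE : Prop := ∀ (R : Type) [CommRing R] (k : Type) [Field k] [CharZero k] [Algebra R k],
    Function.Injective (algebraMap R k) → ∀ (G : Type) [Group G] (i r : ℕ), 1 ≤ i →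
    ∀ e : Matrix (Fin r) (Fin r) (MonoidAlgebra R G), e * e = e →
    ∀ F : (Fin (2 * i + 1) → G) → G → ℚ, AdmLC R (2 * i) F → cvalS k F (fun _ => e) = 0

/-- LTC (uses DEQ, WOQ, RTB, LMF, LNZ): the Dennis trace.

Proof.  `n = m + 1`, `w` from WOQ for `z`.  Let `F` be admissible, `F1` its restriction to `y = 1`, `F0 a y = F a y` for `y ≠ 1`,
`F0 a 1 = 0`.  By DEQ (b) the value of `F` on `z` is the sum of the values of `F1` and `F0`, and the value of `F1` is
`w.sum F1 a 1 = w.sum F a 1` by WOQ.  `S` from LMF for `z` (`R = ℤ`, `glR ℤ π = glZ π`), `Q`, `π`, `s` from `AdmLG.adm`, `z'` from LMF.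
By LNZ (`Finsupp.sum_mapDomain_index`) the value of `F0` on `z` is the value of `F' a y = F0 (π a) (π y)` on `z'`.  `F'` is
invariant; for `1 ≠ y ∈ Q`: if `π y = 1` then `F' · y = 0`, and `AdmRAt n y 0` with `f' = 0`, `E = 0`; if `π y ≠ 1` then
`F' a y = F (π a) (π y)`.  So by RTB for `Q` and `z'` the value is `w'.sum F' a 1 = 0`. -/
def S_LTC : Prop := ∀ (G : Type) [Group G] (n r : ℕ), 1 ≤ n →
    ∀ z ∈ cyc ℚ ((Matrix (Fin r) (Fin r) (MonoidAlgebra ℤ G))ˣ) n,
    ∃ w ∈ cyc ℚ G n, ∀ F : (Fin (n + 1) → G) → G → ℚ, AdmLG n F →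
      (z.sum fun X q => q * dtr F X) = w.sum fun a q => q * F a 1

/-- LXA: finitely generated subgroups.

Proof.  `Q = Subgroup.closure S`, `π` the inclusion, `s g = g` if `g ∈ Q` and `1` otherwise.  `π y ≠ 1` means `y ≠ 1`. -/
def S_LXA : Prop :=
    (∀ (R : Type) [CommRing R] (G : Type) [Group G] (n : ℕ) (F : (Fin (n + 1) → G) → G → ℚ),
      AdmS R n F → AdmLC R n F) ∧
    (∀ (G : Type) [Group G] (n : ℕ) (F : (Fin (n + 1) → G) → G → ℚ), AdmRG n F → AdmLG n F) ∧
    ∀ (P : ∀ (Q : Type) [Group Q], Prop) (G : Type) [Group G], (∀ H : Subgroup G, H.FG → P H) → LimOf P G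

/-- LXB: integral classes, higher components.

Proof (compare P_RAD.lean, P_HLI.lean).  For `S` take `Q`, `π`, `s` from `LimOf TDvb G`, and for `y ∈ Q` `f' a = F (π a) (π y)`,
`E = 0`: `CInv` (if `g` commutes with `y` then `π g` commutes with `π y`), `AltB`, a cocycle, the denominators are `1`.  If `y` has
infinite order then `y` is not divisible (`TDvb Q`): `RootC R y f'` with `b = 1`.  If `y` has finite order: for a finite set `V` all
but finitely many primes `p` are in the set: if `z ^ p` is conjugate to `y` then `z` has finite order, and if `p` does not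
divide `orderOf z` then `z` is a power of `z ^ p`. -/
def S_LXB : Prop := ∀ (R : Type) [CommRing R], (∀ p : ℕ, p.Prime → ¬ IsUnit (p : R)) →
    ∀ (G : Type) [Group G], LimOf TDvb G →
    ∀ (n : ℕ) (F : (Fin (n + 1) → G) → G → ℤ), IntFam n F → AdmLC R n (fun a y => (F a y : ℚ))

/-- LBA (adapt P_RBA.lean, where `m` is the order of `y`): cocycles which are invariant under powers of `y ^ m`.

Proof.  `f' a = (m ^ (n + 1))⁻¹ ∑_(t : Fin (n + 1) → Fin m) f (fun i => y ^ (t i) * a i)` and `E` as in P_RBA.lean. -/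
def S_LBA : Prop := ∀ (G : Type) [Group G] (n m : ℕ) (y : G) (f : (Fin (n + 1) → G) → ℚ), 0 < m →
    CInv y f → (∀ a : Fin (n + 2) → G, cobE f a = 0) →
    (∀ (t : Fin (n + 1) → ℤ) (a : Fin (n + 1) → G), f (fun i => (y ^ m) ^ t i * a i) = f a) → RootC ℤ y f →
    ∃ (f' : (Fin (n + 1) → G) → ℚ) (E : (Fin n → G) → ℚ), CInv y f' ∧ CInv y E ∧
      (∀ a : Fin (n + 2) → G, cobE f' a = 0) ∧ (∀ a, f a = f' a + cobE E a) ∧ RootC ℤ y f' ∧
      ∀ (t : Fin (n + 1) → ℤ) (a : Fin (n + 1) → G), f' (fun i => y ^ t i * a i) = f' a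

/-- LXC (uses LBA): integral classes, Dennis trace.

Proof.  For `S` take `Q`, `π`, `s` from the hypothesis, let `y ∈ Q`, `π y ≠ 1`, `f a = F (π a) (π y)`: `CInv`, a cocycle, the
denominators are `1`.  If `n ≤ 3`, `TDvb Q` and `y` has finite order: the third case of `AdmR`, `f' = f`, `E = 0`, `m = 1`.
Otherwise `y` is not divisible (`y ≠ 1`), so `RootC ℤ y f` with `b = 1`; if `π y` has infinite order then `f` is invariant under
powers of `y`: `f' = f`, `E = 0`; if `π y` has finite order `m`, then `f` is invariant under powers of `y ^ m` (`π (y ^ m) = 1`), and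
LBA applies. -/
def S_LXC : Prop := ∀ (G : Type) [Group G] (n : ℕ) (F : (Fin (n + 1) → G) → G → ℤ), CocFam n F →
    (∀ y : G, ¬ IsOfFinOrder y → ∀ (t : Fin (n + 1) → ℤ) (a : Fin (n + 1) → G),
      F (fun i => y ^ t i * a i) y = F a y) →
    (LimOf NDvb G ∨ (n ≤ 3 ∧ LimOf TDvb G)) → AdmLG n (fun a y => (F a y : ℚ))

end Pool.Agent.FJA
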