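import Pool.Agent.FJA.TrDefs

/-!
# Integral families: the Dennis trace and admissible families, first form
-/

set_option autoImplicit false

noncomputable section

namespace Pool.Agent.FJA

/-- The value of the family `F` on the Dennis trace of the simplex `X`. -/
def dennis {k : Type} [CommRing k] {G : Type} [Group G] {n r : ℕ}
    (F : (Fin (n + 1) → G) → G → ℤ)
    (X : Fin (n + 1) → (Matrix (Fin r) (Fin r) (MonoidAlgebra k G))ˣ) : k :=
  ∑ᶠ γ : Fin (n + 1) → G, dcoef X γ * (F (fpr γ) (List.ofFn γ).prod : k)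

/-- The family `F` is admissible: at every `y ≠ 1` at which it does not vanish, either `y` has finite
order, and `n ≤ 3` or the `p`-torsion of `G` is bounded for a prime divisor `p` of the order of `y`; or
`y` has infinite order, `F (·; y)` is a cocycle on the cosets of the powers of `y`, and for every `z ∈ G` only
finitely many powers `z ^ p`, `p` prime, are conjugate to `y`. -/
structure AdmF {G : Type} [Group G] (n : ℕ) (F : (Fin (n + 1) → G) → G → ℤ) : Prop where
  fam : CocFam n F
  adm : ∀ y : G, y ≠ 1 → (∃ a, F a y ≠ 0) →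
    (IsOfFinOrder y ∧ (n ≤ 3 ∨ ∃ p : ℕ, p.Prime ∧ p ∣ orderOf y ∧ PBdd G p)) ∨
    (¬ IsOfFinOrder y ∧
      (∀ (t : Fin (n + 1) → ℤ) (a : Fin (n + 1) → G), F (fun i => y ^ t i * a i) y = F a y) ∧
      ∀ z : G, {p : ℕ | p.Prime ∧ IsConj (z ^ p) y}.Finite)

end Pool.Agent.FJA
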