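import Pool.Agent.FJA.St10
import Pool.Agent.FJA.TrDefB

/-!
# The Dennis trace of `ℤ[G]` away from the class of `1`: statements of the modules

`dennis F X` (TrDefB.lean) is the value of a family of cocycles on the Dennis trace of a simplex.
`TX (fst F) 1 X` (Rec.lean, Core.lean) is the same number, computed with recorded paths.
-/

set_option autoImplicit false

open Matrix Pool.Agent.WhK Pool.Agent.Lib25

noncomputable section

namespace Pool.Agent.FJA

/-- The base change `ℤ → k` on invertible matrices. -/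
def zU (k : Type) [Field k] {G : Type} [Group G] {r : ℕ} :
    (Matrix (Fin r) (Fin r) (MonoidAlgebra ℤ G))ˣ →* (Matrix (Fin r) (Fin r) (MonoidAlgebra k G))ˣ :=
  Units.map ((MonoidAlgebra.mapRingHom G (Int.castRingHom k)).mapMatrix :
    Matrix (Fin r) (Fin r) (MonoidAlgebra ℤ G) →+* Matrix (Fin r) (Fin r) (MonoidAlgebra k G)).toMonoidHom

/-- The family `F` with rational values. -/
def qF {G : Type} {m : ℕ} (F : (Fin m → G) → G → ℤ) : (Fin m → G) → G → ℚ := fun a y => (F a y : ℚ)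

/-- The value of a family with rational values on the Dennis trace. -/
def dennisQ {k : Type} [Field k] {G : Type} [Group G] {n r : ℕ} (F : (Fin (n + 1) → G) → G → ℚ)
    (X : Fin (n + 1) → (Matrix (Fin r) (Fin r) (MonoidAlgebra k G))ˣ) : k :=
  ∑ᶠ γ : Fin (n + 1) → G, dcoef X γ * ((F (fpr γ) (List.ofFn γ).prod : ℚ) : k)

/-- `Pdg G n` (Core7.lean) for one prime `ℓ`. -/
def PdgL (G : Type) [Group G] (n ℓ : ℕ) [Fact ℓ.Prime] : Prop := ∀ (n0 : ℕ), 0 < n0 →
    ∀ (F : (Fin (n + 2) → G) → G → ℚ), GCoch (n + 1) (fun y => y ^ n0 = 1) F →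
    ∀ B : KCh ℚ_[ℓ] (G × Multiplicative ℤ) (n + 3), (∀ x ∈ B.support, ∀ i, NIU (x.2 i)) →
    (∀ η : Rec (G × Multiplicative ℤ) (Fin (n + 2)) → ℚ, NullFun (sg2 G) η → ∀ N : ℕ, 0 < N →
      TK ℚ_[ℓ] η N (bdK _ _ (n + 2) B) = 0) →
    ∀ e : ℕ, TK ℚ_[ℓ] (fst (cup F)) 1 B = TK ℚ_[ℓ] (fst (powF (ℓ ^ e) (cup F))) 1 B

/-- PDL: `PdgL G n p` if the `p`-torsion is bounded. -/
def S_PDL : Prop := ∀ (G : Type) [Group G] (p : ℕ) [Fact p.Prime], TorP G p → ∀ n : ℕ, PdgL G n p

/-! ## Modules DEN, DEZ: the Dennis trace and `TX` -/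

/-- DEN: the Dennis trace formula.

Proof.  `φ = fst F` is invariant under conjugation (`CjInv`; EVS (f), or directly from `inv`).  `UX X` is the
product over `i` of `j X_i * ω_i * j X_i⁻¹` (`j = jm k _`, `ω_i = wm k _ i`).  Regroup: `UX X = j X_0 * Z * j X_n⁻¹`,
`Z = ω_0 * j (X_0⁻¹ X_1) * ω_1 * ⋯ * j (X_(n-1)⁻¹ X_n) * ω_n`, and `lin φ (tr (j A * Z')) = lin φ (tr (Z' * j A))` for a
`CjInv` function `φ` (see P_TXA.lean), so `TX φ 1 X = lin φ (tr (∏ j, ω_j * j (h j)))`, `h j = (X j)⁻¹ * X (j + 1)`.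
Expand: the trace of an ordered product of `n + 1` matrices is the sum over `a : Fin (n + 1) → Fin r` of the
ordered products of the entries `(a j, a (j + 1))`; the entry of `ω_j * j (h j)` is the sum over `γ_j` of
`(h j (a j) (a (j + 1))).coeff γ_j` times the record `om j * inc γ_j`; and the ordered product of the
`om j * inc (γ j)` is the record with `lst i = [fpr γ i]` and `val = (List.ofFn γ).prod`.  The `finsum` over `γ` is a
finite sum: `dcoef X γ ≠ 0` implies that every `γ j` is in the finite union of the supports of the entries of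
`h j`. -/
def S_DEN : Prop := ∀ (k : Type) [Field k] [CharZero k] (G : Type) [Group G] (n r : ℕ)
    (F : (Fin (n + 1) → G) → G → ℚ),
    (∀ (g : G) (a : Fin (n + 1) → G) (y : G), F (fun i => g * a i) (g * y * g⁻¹) = F a y) →
    ∀ X : Fin (n + 1) → (Matrix (Fin r) (Fin r) (MonoidAlgebra k G))ˣ,
    TX (fst F) 1 X = dennisQ F X

/-- DEZ: base change, additivity, finiteness.

Proof.  (a) `dcoef X γ ≠ 0` implies that `γ j` is in the union of the supports of the entries of
`(X j)⁻¹ * X (j + 1)`, a finite set.  (b) The coefficients of the image of `x` under `mapRingHom` are the images of the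
coefficients, so `dcoef` is the image of `dcoef`; `finsum` commutes with the additive map `ℤ → k` (finite
support).  (c) `finsum_add_distrib`. -/
def S_DEZ : Prop :=
    (∀ (k : Type) [CommRing k] (G : Type) [Group G] (n r : ℕ)
      (X : Fin (n + 1) → (Matrix (Fin r) (Fin r) (MonoidAlgebra k G))ˣ),
      {γ : Fin (n + 1) → G | dcoef X γ ≠ 0}.Finite) ∧
    (∀ (k : Type) [Field k] [CharZero k] (G : Type) [Group G] (n r : ℕ)
      (F : (Fin (n + 1) → G) → G → ℤ) (X : Fin (n + 1) → (Matrix (Fin r) (Fin r) (MonoidAlgebra ℤ G))ˣ),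
      dennisQ (qF F) (fun j => zU k (X j)) = ((dennis F X : ℤ) : k) ∧
      ∀ γ, dcoef (fun j => zU k (X j)) γ = ((dcoef X γ : ℤ) : k)) ∧
    ∀ (k : Type) [CommRing k] (G : Type) [Group G] (n r : ℕ) (I : Type) (s : Finset I)
      (F : I → (Fin (n + 1) → G) → G → ℤ)
      (X : Fin (n + 1) → (Matrix (Fin r) (Fin r) (MonoidAlgebra k G))ˣ),
      (dennis (fun a y => ∑ i ∈ s, F i a y) X : k) = ∑ i ∈ s, dennis (F i) X

/-! ## Modules SHF, VAN, TFI: the classes of the elements of finite order -/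

/-- The product of a chain of `GL_r(k[G])` with the loop `t` of `Z' = Multiplicative ℤ`: the prism between the
inclusion of `k[G]` into `k[G × Z']` and its product with `t = (1, ofAdd 1)`. -/
def tP (k : Type) [Field k] {G : Type} [Group G] (n r : ℕ)
    (c : (Fin (n + 1) → (Matrix (Fin r) (Fin r) (MonoidAlgebra k G))ˣ) →₀ ℚ) :
    KCh k (G × Multiplicative ℤ) (n + 2) :=
  kinK k (G × Multiplicative ℤ) (n + 2) r
    (prism ℚ (fun A => glG (MonoidHom.inl G (Multiplicative ℤ)) A)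
      (fun A => sclU k (Fin r) (((1 : G), Multiplicative.ofAdd 1) : G × Multiplicative ℤ) *
        glG (MonoidHom.inl G (Multiplicative ℤ)) A) (n + 1) c)

/-- SHF (uses TXinv, PRI, BD, TWI, TXR, TXlen): the product with `t`.

Proof.  Let `f A = glG inl A`, `f' A = t f A`, `P = prism f f'`.
(a) `bdK (kinK x) = kinK (bd x)` and PRI: `bd (P c) = hmap f' c - hmap f c - P (bd c)`.  For a null function `η` (it
is `CjInv`) `TX η N (A X) = TX η N X` (TXinv), so the functional has the same value on `hmap f' c` and `hmap f c`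
(`t` is an invertible matrix).  `bd c` is in `hdeg` (`c ∈ cyc`, `n ≥ 1`): a combination of `g X - X`, and
`P (g X - X) = f(g) P(X) - P(X)` (BD (c), or directly from the definition: `f (g A) = f g * f A`,
`f' (g A) = f g * f' A` as the scalar matrix `t` commutes with `f g`), on which the functional vanishes.
(b) The simplex `i ∈ Fin (n + 1)` of `P X` has the vertices `sclU (1, ofAdd (b j)) * glG inl (X (i.predAbove j))`,
`j ∈ Fin (n + 2)`, with `b j = 0` for `j ≤ i.castSucc` and `1` otherwise.  By TWI (with `f = inl`) its value is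
`TX (fun μ => fst (cup F) (twR inl γ μ)) 1 (fun j => X (i.predAbove j))`, and for `μ` with all lists of length `1`
(TXlen) `fst (cup F) (twR ..) = F (fun j => head (μ.lst j.castSucc)) μ.val * (b (last (n+1)) - b (last n).castSucc)`.
This is zero for `i ≠ last`; for `i = last n` the last factor is `1`, and TXR (or TXfac) for the map `castSucc`
gives `TX (fst F) 1 X`, with the sign `(-1) ^ n`.
(c) The vertices are `glG inl (X j)` or `t * glG inl (X j)` with `X ∈ c.support`: integral together with their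
inverses (the coefficients are the same, up to the translation by `t`). -/
def S_SHF : Prop := (∀ (k : Type) [Field k] [CharZero k] (G : Type) [Group G] (n r : ℕ), 1 ≤ n →
      ∀ c ∈ cyc ℚ ((Matrix (Fin r) (Fin r) (MonoidAlgebra k G))ˣ) n,
      ∀ η : Rec (G × Multiplicative ℤ) (Fin (n + 1)) → ℚ, NullFun (sg2 G) η → ∀ N : ℕ,
        TK k η N (bdK _ _ (n + 1) (tP k n r c)) = 0) ∧
    (∀ (k : Type) [Field k] [CharZero k] (G : Type) [Group G] (n r : ℕ)
      (c : (Fin (n + 1) → (Matrix (Fin r) (Fin r) (MonoidAlgebra k G))ˣ) →₀ ℚ)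
      (F : (Fin (n + 1) → G) → G → ℚ),
      TK k (fst (cup F)) 1 (tP k n r c) =
        (-1 : k) ^ n * c.sum fun X q => (q : k) * TX (fst F) 1 X) ∧
    ∀ (ℓ : ℕ) [Fact ℓ.Prime] (G : Type) [Group G] (n r : ℕ)
      (c : (Fin (n + 1) → (Matrix (Fin r) (Fin r) (MonoidAlgebra ℚ_[ℓ] G))ˣ) →₀ ℚ),
      (∀ X ∈ c.support, ∀ j, NIU (X j)) → ∀ x ∈ (tP ℚ_[ℓ] n r c).support, ∀ i, NIU (x.2 i)

/-- VAN: the functionals of the families at elements of order divisible by `p` vanish.

Proof: the last part of the proof of `t_RPB` in P_RPB.lean: `F` is a `GCoch (n + 1) (fun y => y ^ n0 = 1)`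
(`pow_orderOf_eq_one`); by `PdgL` `TK (fst (cup F)) 1 B = TK (fst (powF (p ^ E) (cup F))) 1 B` for all `E`; for
`p ^ E` larger than the orders of the finitely many endpoints of finite order of the records in the supports of the
entries of `UX x.2`, `x ∈ B.support`, the right side is zero. -/
def S_VAN : Prop := ∀ (G : Type) [Group G] (n n0 : ℕ), 0 < n0 →
    ∀ (p : ℕ) [Fact p.Prime], p ∣ n0 → PdgL G n p →
    ∀ F : (Fin (n + 2) → G) → G → ℚ, GCoch (n + 1) (fun y => orderOf y = n0) F →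
    ∀ B : KCh ℚ_[p] (G × Multiplicative ℤ) (n + 3), (∀ x ∈ B.support, ∀ i, NIU (x.2 i)) →
    (∀ η : Rec (G × Multiplicative ℤ) (Fin (n + 2)) → ℚ, NullFun (sg2 G) η → ∀ N : ℕ, 0 < N →
      TK ℚ_[p] η N (bdK _ _ (n + 2) B) = 0) →
    TK ℚ_[p] (fst (cup F)) 1 B = 0

/-- TFI (uses DEN, DEZ, SHF, VAN): the elements of finite order.

Proof.  Let `k = ℚ_p`, `c = hmap (zU k) z`, again in `cyc`.  `qF F` is a
`GCoch (n + 1) (fun y => orderOf y = n0)`.  `B = tP k (n + 1) r c`: by SHF (a), (c) (the coefficients of the matrices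
`zU k X` and of their inverses are integers) it satisfies the hypotheses of VAN, and SHF (b) gives
`∑ z(X) TX (fst (qF F)) 1 (zU k X) = 0` in `ℚ_p`; this is the image of `∑ z(X) dennis F X` by DEN and DEZ (b). -/
def S_TFI : Prop := ∀ (G : Type) [Group G] (n n0 : ℕ), 0 < n0 →
    ∀ (p : ℕ) [Fact p.Prime], p ∣ n0 → PdgL G n p →
    ∀ F : (Fin (n + 2) → G) → G → ℤ, CocFam (n + 1) F → (∀ a y, F a y ≠ 0 → orderOf y = n0) →
    ∀ (r : ℕ), ∀ z ∈ cyc ℚ ((Matrix (Fin r) (Fin r) (MonoidAlgebra ℤ G))ˣ) (n + 1),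
    (z.sum fun X q => q * ((dennis F X : ℤ) : ℚ)) = 0

/-! ## Modules SEF, TRF, SCF, BFL: the classes of the elements of infinite order -/

/-- A section with values modulo the powers of `y` on the lists of length `N`. -/
structure SecF {Γ : Type} [Group Γ] (N : ℕ) (s : List Γ → Γ → Γ) : Prop where
  inv : ∀ (γ : Γ) (Y : List Γ) (y : Γ), Y ≠ [] →
    ∃ t : ℤ, s (Y.map (γ * ·)) (γ * y * γ⁻¹) = γ * (y ^ t * s Y y)
  rot : ∀ (Y : List Γ) (y : Γ), Y.length = N → GoodP N Y y → ∃ t : ℤ, s (rotL y Y) y = y ^ t * s Y y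

/-- SEF: existence of such sections.

Proof (compare P_MRN.lean and P_SEC.lean).  Let `P` be the set of the pairs `(Y, y)` with `Y.length = N` and
`GoodP N Y y`; it is invariant under `γ (Y, y) = (γ Y, γ y γ⁻¹)` and `rot (Y, y) = (rotL y Y, y)` (`MRN.goodP_conj`,
`MRN.goodP_rot`).  Choose a representative `q = (Y_q, y_q)` of every class of the equivalence relation generated;
every element of the class is `γ rot^e q` with `e ∈ ℕ`, `γ ∈ Γ` (`rot^N (Y, y) = y (Y, y)`).  For `(Y, y) ∈ P` put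
`s Y y = γ * head Y_q` for a choice of `(γ, e)` with `(Y, y) = γ rot^e q`; for `(Y, y) ∉ P` put `s Y y = Y.headD 1`.
If also `(Y, y) = γ' rot^e' q`, say `e ≤ e'`, then `δ = γ⁻¹ γ'` satisfies `Stb Y' y_q δ (e' - e)` for
`Y' = rot^e Y_q`, so `e' - e = N m` by `GoodP`, `δ y_q^m Y' = Y'`, `δ = y_q^(-m)` (`Y'` is nonempty), and
`γ' head Y_q = γ y_q^(-m) head Y_q = y^(-m) γ head Y_q`.  So another choice changes `s Y y` by a power of `y` from the
left.  `inv`: for `(Y, y) ∈ P` from this; for `(Y, y) ∉ P` with `t = 0`.  `rot`: from this.  (If `N = 0` the statement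
`rot` is about `Y = []`, `rotL y [] = []`.) -/
def S_SEF : Prop := ∀ (Γ : Type) [Group Γ] (N : ℕ), ∃ s : List Γ → Γ → Γ, SecF N s

/-- The value of `F` at the section `s`, for the paths with lists of length `N`. -/
def evN {Γ : Type} [Group Γ] {M : ℕ} (N : ℕ) (F : (Fin M → Γ) → Γ → ℚ) (s : List Γ → Γ → Γ)
    (μ : Rec Γ (Fin M)) : ℚ := by
  classical
  exact if ∀ i, (μ.lst i).length = N then F (fun i => s (μ.lst i) μ.val) μ.val else 0

/-- TRF: `evN N F s` is a trace function on a submonoid on which the lists are good.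

Proof (compare P_PSA.lean, P_PSN.lean, `CUL.trace_bal` in P_CUL.lean).  Let `μ, ν ∈ Sb`, `y = μ.val * ν.val`.  The
lists of `μ * ν` are `Y_i ++ μ.val Y'_i`, those of `ν * μ` are `Y'_i ++ ν.val Y_i`, with endpoint
`ν.val * μ.val = μ.val⁻¹ y μ.val`; translated by `μ.val` they are `μ.val Y'_i ++ y Y_i`, the rotations by `|Y_i|` steps
(the same number for all `i`, `Sb ≤ Bal`) of the first ones.  If the lengths are not `N`, both sides are zero.
If `F · y = 0` then both sides are zero (`F` is invariant).  Otherwise all the lists of `μ * ν` are good, also after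
rotations (`MRN.goodP_rot`), and `SecF.rot`, `SecF.inv` change `s` by powers of `y` from the left, which do not
change `F` (`hb`). -/
def S_TRF : Prop := ∀ (Γ : Type) [Group Γ] (M N : ℕ) (F : (Fin M → Γ) → Γ → ℚ)
    (s : List Γ → Γ → Γ), 0 < N →
    (∀ (g : Γ) (a : Fin M → Γ) (y : Γ), F (fun i => g * a i) (g * y * g⁻¹) = F a y) →
    (∀ (t : Fin M → ℤ) (a : Fin M → Γ) (y : Γ), F (fun i => y ^ t i * a i) y = F a y) →
    SecF N s → ∀ Sb : Submonoid (Rec Γ (Fin M)), Sb ≤ Bal Γ (Fin M) →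
    (∀ μ ∈ Sb, (∀ i, (μ.lst i).length = N) → (∃ a, F a μ.val ≠ 0) →
      ∀ i, GoodP N (μ.lst i) μ.val) →
    ∀ μ ∈ Sb, ∀ ν ∈ Sb, evN N F s (μ * ν) = evN N F s (ν * μ)

/-- SCF (uses TXlin, TXfac, TXlen, PRI): the section `s` and the first recorded positions.

Proof (compare S_SCH in St1.lean and P_SCH.lean; it is simpler here).  For `v : Fin (M + 1) → Γ × Γ` and fixed `y` the
linear extension of `F · y` is zero on boundaries (`coc`), so PRI for the basis element `v` and the maps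
`f = Prod.snd`, `f' = Prod.fst` gives `F (f' ∘ v) - F (f ∘ v) = ∑_i (-1)^i E (v ∘ i.succAbove)` with
`E v = ∑_(j : Fin M) (-1)^j F (mix f f' v j) y`.  Put `v_i = (s (μ.lst i) y, (μ.lst i).headD 1)`, `y = μ.val`, and
`η μ = E v` if all the lists of `μ : Rec Γ (Fin M)` have length `N`, `η μ = 0` otherwise.  For all `μ` with lists of
length `N` (TXlen): `evN N F s μ - fst F μ = ∑_i (-1)^i η (Rec.res i.succAbove μ)` (`N > 0`).  TXlin, TXfac.  `η` is
`CjInv`: `s` changes by `γ * y ^ t *`, the head by `γ *`, so the arguments of `F` change by `γ *` and powers of `y`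
(`inv`, `hb`). -/
def S_SCF : Prop := ∀ (Γ : Type) [Group Γ] (M N : ℕ) (F : (Fin (M + 1) → Γ) → Γ → ℚ)
    (s : List Γ → Γ → Γ), 0 < N →
    (∀ (g : Γ) (a : Fin (M + 1) → Γ) (y : Γ), F (fun i => g * a i) (g * y * g⁻¹) = F a y) →
    (∀ (a : Fin (M + 2) → Γ) (y : Γ),
      ∑ i : Fin (M + 2), (-1 : ℚ) ^ (i : ℕ) * F (fun j => a (i.succAbove j)) y = 0) →
    (∀ (t : Fin (M + 1) → ℤ) (a : Fin (M + 1) → Γ) (y : Γ), F (fun i => y ^ t i * a i) y = F a y) →
    SecF N s →
    ∃ η : Rec Γ (Fin M) → ℚ, CjInv η ∧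
      ∀ (k : Type) [Field k] [CharZero k] (ι : Type) [Fintype ι] [DecidableEq ι]
        (X : Fin (M + 1) → (Matrix ι ι (MonoidAlgebra k Γ))ˣ),
        TX (evN N F s) N X - TX (fst F) N X =
          ∑ i : Fin (M + 1), (-1 : k) ^ (i : ℕ) * TX η N (fun t => X (i.succAbove t))

/-- BFL (uses DEN, DEZ, SEF, TRF, SCF, SUP, TXinv, TXfst, TXlen, GAS): the elements of infinite order.

Proof.  Let `F' = qF F`, `D = ∑ z(X) dennis F X ∈ ℚ`, `M = n + 2` labels (`Fin (n + 2)`).  (1) Over `ℚ`: SUP (b) for the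
simplices `zU ℚ X`, `X ∈ z.support`, gives a finite set `T` of records with lists of length `1` which contains the
supports of the entries of all `UX (zU ℚ X)`; `Sb = closure T`, and `L1` from SUP (a).  For every prime `ℓ`,
`UX (zU ℚ_ℓ X)` is the base change of `UX (zU ℚ X)` (P_TXB.lean), so its entries have support in `T`, too; they are
integral (`NIU`, GAUint).
(2) For all but finitely many primes `ℓ`: no `u ^ ℓ`, `u ∈ L1` or `u` an endpoint of an element of `T`, is conjugate to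
`y0` (hypothesis), and `z(X) ∈ ℤ_ℓ` for all `X`.  Let `ℓ` be such a prime.
(3) If `μ ∈ Sb` has lists of length `ℓ` and `F' a μ.val ≠ 0` for some `a` (so `y = μ.val` is conjugate to `y0`) then
`GoodP ℓ (μ.lst i) y`: let `Y = μ.lst i`, `Stb Y y δ e`, `ℓ ∤ e`.  In the sequence of the list, `Y a = δ Y (a + e)`,
`Y (a + ℓ) = y Y a`; by Bezout (`u e + v ℓ = 1`, `δ0 = δ ^ u * y ^ (- v)`) there is `δ0` with `Y a = δ0 Y (a + 1)` for
all `a` (the lemmas `PER.stb`, `PER.exists_min` in P_PER.lean), so `δ0 ^ ℓ * y = 1`, and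
`u0 = (Y 0)⁻¹ Y 1 = (Y 0)⁻¹ δ0⁻¹ (Y 0) ∈ L1` (`Inc`, with `e = 0`) has `u0 ^ ℓ = (Y 0)⁻¹ y (Y 0)` conjugate to `y0`:
excluded in (2).
(4) `s` from SEF for `N = ℓ`, `φ = evN ℓ F' s`: it is a trace function on `Sb` by TRF and (3), with integral values.
`Step7.step` with `k = 0`: `‖TX φ ℓ X - TX (fun μ => φ (μ ^ ℓ)) 1 X‖ ≤ ℓ⁻¹` for `X = zU ℚ_ℓ ∘ X`; and
`φ (μ ^ ℓ) = 0` for `μ ∈ T`, as its endpoint `μ.val ^ ℓ` is not conjugate to `y0` (2), so the second term is zero
(`RGB.TX_congr` in P_RGB.lean: `TX φ 1 X` only depends on the values on the supports of the entries of `UX X`).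
(5) `∑ z(X) TX φ ℓ X = ∑ z(X) TX (fst F') ℓ X = ∑ z(X) TX (fst F') 1 X = D`: the first equality by SCF, because
`∑ z(X) ∑_i (-1)^i TX η ℓ (X ∘ i.succAbove) = 0`: it is the value of the functional of the `CjInv` function `η` on the
boundary `bd z ∈ hdeg` (TXinv); the second one by TXfst (`fst F'` satisfies its hypothesis); the third one by DEN
and DEZ (b).
(6) So `‖D‖_ℓ ≤ ℓ⁻¹` for infinitely many primes `ℓ`: `D = 0` (a nonzero rational number has norm `≥ 1` for all `ℓ`
which do not divide its numerator). -/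
def S_BFL : Prop := ∀ (G : Type) [Group G] (n : ℕ) (y0 : G),
    (∀ u : G, {p : ℕ | p.Prime ∧ IsConj (u ^ p) y0}.Finite) →
    ∀ F : (Fin (n + 2) → G) → G → ℤ, CocFam (n + 1) F → (∀ a y, F a y ≠ 0 → IsConj y y0) →
    (∀ (t : Fin (n + 2) → ℤ) (a : Fin (n + 2) → G) (y : G),
      F (fun i => y ^ t i * a i) y = F a y) →
    ∀ (r : ℕ), ∀ z ∈ cyc ℚ ((Matrix (Fin r) (Fin r) (MonoidAlgebra ℤ G))ˣ) (n + 1),
    (z.sum fun X q => q * ((dennis F X : ℤ) : ℚ)) = 0

/-! ## Modules WON, TRA: the class of `1` and the assembly map -/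

/-- WON (uses DEN, DEZ, TXinv, TXfac, TXlin): the part of the Dennis trace at the class of `1` is a cycle of `G`.

Proof.  Put `w = ∑_X z(X) ∑_γ dcoef X γ · (fpr γ)`, the sum over the (finitely many) `γ` with product `1` and
`dcoef X γ ≠ 0`.  The equation holds by definition.  `bd w ∈ hdeg ℚ G n`: a chain `x` is in `hdeg` if
`∑_a x(a) f(a) = 0` for all functions `f : (Fin (n + 1) → G) → ℚ` with `f (g a) = f a` (otherwise there is a linear
form on the quotient by `hdeg` which is not zero on `x`; its values on the basis elements are such a function).  For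
such an `f` let `f1 a y = f a` if `y = 1`, `0` otherwise, `φ = fst f1 : Rec G (Fin (n + 1)) → ℚ`, which is `CjInv`, and
`g1 a y = ∑_i (-1)^i f1 (a ∘ i.succAbove) y`.  For `μ` with nonempty lists `fst g1 μ = cobR φ μ`.  So (DEN for `g1` and
`k = ℚ`, TXlen) `∑_a (bd w)(a) f(a) = ∑_a w(a) g1 a 1 = ∑_X z(X) dennisQ g1 (zU ℚ X) = ∑_X z(X) TX (cobR φ) 1 (zU ℚ X)`,
which is the value of the functional of the `CjInv` function `φ` on `bd z ∈ hdeg` (TXfac, `BND.TX_cobR` in
P_BND.lean), hence zero by TXinv. -/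
def S_WON : Prop := ∀ (G : Type) [Group G] (n r : ℕ),
    ∀ z ∈ cyc ℚ ((Matrix (Fin r) (Fin r) (MonoidAlgebra ℤ G))ˣ) (n + 1),
    ∃ w ∈ cyc ℚ G (n + 1), ∀ F : (Fin (n + 2) → G) → G → ℤ,
      (∀ a y, F a y ≠ 0 → y = 1) →
      (z.sum fun X q => q * ((dennis F X : ℤ) : ℚ)) = w.sum fun a q => q * ((F a 1 : ℤ) : ℚ)

/-- GMA: the Dennis trace of the simplices of the elements of the group.

Proof: `(X j)⁻¹ * X (j + 1)` is the `1 × 1` matrix of `(a j)⁻¹ * a (j + 1)`, so `dcoef X γ` is `1` if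
`γ j = (a j)⁻¹ * a (j + 1)` for all `j` and `0` otherwise; for this `γ` the product `γ 0 ⋯ γ n` is `1` and
`fpr γ j = (a 0)⁻¹ * a j`, so the value is `F ((a 0)⁻¹ a; 1) = F (a; 1)`. -/
def S_GMA : Prop := ∀ (G : Type) [Group G] (n : ℕ) (F : (Fin (n + 1) → G) → G → ℤ), CocFam n F →
    ∀ a : Fin (n + 1) → G, (dennis F (fun j => gMat (a j)) : ℤ) = F a 1

/-- TRA (uses DEZ, TFI, BFL, WON, PDG, PDL): the theorem.

Proof.  `n = m + 1`.  Let `z` be given, `E` the finite set of the products `(List.ofFn γ).prod` with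
`dcoef X γ ≠ 0`, `X ∈ z.support` (DEZ (a)).  Let `w` be as in WON.  For an admissible `F` write
`F = F_1 + ∑_C F_C + F_0` with `F_1` the restriction to `y = 1`, `F_C` the restrictions to the finitely many conjugacy
classes `C ≠ {1}` which meet `E`, `F_0` the restriction to the complement, for which `dennis F_0 X = 0`
(`X ∈ z.support`); the value on `z` is additive (DEZ (c)).  Let `y0 ∈ C`, `F_C ≠ 0`.  If `y0` has finite order `n0 ≥ 2`:
TFI for a prime divisor `p` of `n0`, where `PdgL G m p` holds by `hpdg` (`m ≤ 2`) or by PDL (`PBdd` is `TorP`).  If `y0` has infinite order: BFL; the third hypothesis holds for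
all `y ∈ C` by the invariance of `F`: `y = g y0 g⁻¹`, `y ^ t * a = g (y0 ^ t * (g⁻¹ a))`, and for `y ∉ C` the family is
zero.  So the value of `F` is the value of `F_1`, which is given by WON, as `F_1 a 1 = F a 1`. -/
def S_TRA : Prop := ∀ (G : Type) [Group G] (n r : ℕ), 1 ≤ n →
    ∀ z ∈ cyc ℚ ((Matrix (Fin r) (Fin r) (MonoidAlgebra ℤ G))ˣ) n,
    ∃ w ∈ cyc ℚ G n, ∀ F : (Fin (n + 1) → G) → G → ℤ, AdmF n F →
      (z.sum fun X q => q * ((dennis F X : ℤ) : ℚ)) = w.sum fun a q => q * ((F a 1 : ℤ) : ℚ)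

end Pool.Agent.FJA
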