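import Pool.Agent.FJA.TrDefs

/-!
# Admissible families of rational cocycles

The values of families of rational cocycles on the Dennis trace, and the conditions under which they only
depend on the class of `1`.
-/

set_option autoImplicit false

noncomputable section

namespace Pool.Agent.FJA

/-- The value of the family `F` on the Dennis trace of the simplex `X` of `GL_r(ℤ[G])`. -/
def dtr {G : Type} [Group G] {n r : ℕ} (F : (Fin (n + 1) → G) → G → ℚ)
    (X : Fin (n + 1) → (Matrix (Fin r) (Fin r) (MonoidAlgebra ℤ G))ˣ) : ℚ :=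
  ∑ᶠ γ : Fin (n + 1) → G, ((dcoef X γ : ℤ) : ℚ) * F (fpr γ) (List.ofFn γ).prod

/-- The coboundary of a homogeneous cochain. -/
def cobE {G : Type} {n : ℕ} (E : (Fin n → G) → ℚ) (a : Fin (n + 1) → G) : ℚ :=
  ∑ i : Fin (n + 1), (-1 : ℚ) ^ (i : ℕ) * E (fun j => a (i.succAbove j))

/-- The cochain `f` is invariant under the centralizer of `y`. -/
def CInv {G : Type} [Group G] {n : ℕ} (y : G) (f : (Fin n → G) → ℚ) : Prop :=
  ∀ (g : G) (a : Fin n → G), g * y = y * g → f (fun i => g * a i) = f a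

/-- The conditions on `G`, `y ≠ 1` and a rational cocycle `f` of the centralizer of `y`. -/
def AdmC {G : Type} [Group G] (n : ℕ) (y : G) (f : (Fin (n + 1) → G) → ℚ) : Prop :=
  f = 0 ∨
  (IsOfFinOrder y ∧ (∃ m : ℕ, m ≠ 0 ∧ ∀ a, (f a).den ∣ m) ∧
    (n ≤ 3 ∨ ∃ p : ℕ, p.Prime ∧ p ∣ orderOf y ∧ PBdd G p)) ∨
  (∀ V : Finset G, {p : ℕ | p.Prime ∧ (∀ a, ¬ p ∣ (f a).den) ∧
    (∀ g : G, g * y ^ p = y ^ p * g → g * y = y * g) ∧
    ∀ z ∈ V, ¬ IsConj z (y ^ p) ∧ (IsConj (z ^ p) (y ^ p) → IsConj z y)}.Infinite) ∨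
  ((∀ (t : Fin (n + 1) → ℤ) (a : Fin (n + 1) → G), f (fun i => y ^ t i * a i) = f a) ∧
    ∀ V : Finset G, {p : ℕ | p.Prime ∧ (∀ a, ¬ p ∣ (f a).den) ∧
      ∀ z ∈ V, ¬ IsConj (z ^ p) y}.Infinite)

/-- The cochain `f` is the sum of the coboundary of a cochain `E` and a cocycle `f'`, both invariant under
the centralizer of `y`, and `f'` satisfies the conditions. -/
def AdmAt {G : Type} [Group G] (n : ℕ) (y : G) (f : (Fin (n + 1) → G) → ℚ) : Prop :=
  ∃ (f' : (Fin (n + 1) → G) → ℚ) (E : (Fin n → G) → ℚ), CInv y f' ∧ CInv y E ∧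
    (∀ a : Fin (n + 2) → G, cobE f' a = 0) ∧ (∀ a, f a = f' a + cobE E a) ∧ AdmC n y f'

/-- Admissible families `F` of rational cochains: `F` is invariant, and for every finitely generated subgroup
`H` of `G` and `1 ≠ y ∈ H` the restriction of `F (·; y)` to `H` is admissible. -/
def AdmG {G : Type} [Group G] (n : ℕ) (F : (Fin (n + 1) → G) → G → ℚ) : Prop :=
  (∀ (g : G) (a : Fin (n + 1) → G) (y : G), F (fun i => g * a i) (g * y * g⁻¹) = F a y) ∧
  ∀ H : Subgroup G, H.FG → ∀ y : H, y ≠ 1 →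
    AdmAt n y (fun a : Fin (n + 1) → H => F (fun i => (a i : G)) (y : G))

end Pool.Agent.FJA
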