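import Pool.Agent.FJA.StT
import Pool.Agent.FJA.TrDef2

/-!
# The Dennis trace of `ℤ[G]` away from the class of `1`, general form: statements of the modules

The theorem of StT.lean for rational families (TrDef2.lean), with conditions for the finitely generated subgroups
only, and for arbitrary classes (not only those of `Z(y)/⟨y⟩`) at the elements `y` of infinite order with
`Z(y ^ ℓ) = Z(y)` for infinitely many primes `ℓ`.
-/

set_option autoImplicit false

open Matrix Pool.Agent.WhK Pool.Agent.Lib25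

noncomputable section

namespace Pool.Agent.FJA

/-- The map of general linear groups of a map of groups. -/
def glZ {H G : Type} [Group H] [Group G] (f : H →* G) {r : ℕ} :
    (Matrix (Fin r) (Fin r) (MonoidAlgebra ℤ H))ˣ →* (Matrix (Fin r) (Fin r) (MonoidAlgebra ℤ G))ˣ :=
  Units.map ((MonoidAlgebra.mapDomainRingHom ℤ f).mapMatrix :
    Matrix (Fin r) (Fin r) (MonoidAlgebra ℤ H) →+* Matrix (Fin r) (Fin r) (MonoidAlgebra ℤ G)).toMonoidHom

/-! ## Modules DEQ, TFQ, COB, WOQ, GMQ: rational families -/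

/-- DEQ (uses DEZ): the functional `dtr`.

Proof.  (a) DEZ (a), (b): the sum over `γ` is a finite sum.  (b), (c) additivity of finite sums.  (d) By definition of
`dennis`.  (e) `E` is the set of the products `(List.ofFn γ).prod` of the finitely many `γ` with `dcoef X γ ≠ 0`,
`X ∈ z.support` (DEZ (a)). -/
def S_DEQ : Prop :=
    (∀ (k : Type) [Field k] [CharZero k] (G : Type) [Group G] (n r : ℕ)
      (F : (Fin (n + 1) → G) → G → ℚ) (X : Fin (n + 1) → (Matrix (Fin r) (Fin r) (MonoidAlgebra ℤ G))ˣ),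
      dennisQ F (fun j => zU k (X j)) = ((dtr F X : ℚ) : k)) ∧
    (∀ (G : Type) [Group G] (n r : ℕ) (I : Type) (s : Finset I) (F : I → (Fin (n + 1) → G) → G → ℚ)
      (X : Fin (n + 1) → (Matrix (Fin r) (Fin r) (MonoidAlgebra ℤ G))ˣ),
      dtr (fun a y => ∑ i ∈ s, F i a y) X = ∑ i ∈ s, dtr (F i) X) ∧
    (∀ (G : Type) [Group G] (n r : ℕ) (c : ℚ) (F : (Fin (n + 1) → G) → G → ℚ)
      (X : Fin (n + 1) → (Matrix (Fin r) (Fin r) (MonoidAlgebra ℤ G))ˣ),
      dtr (fun a y => c * F a y) X = c * dtr F X) ∧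
    (∀ (G : Type) [Group G] (n r : ℕ) (F : (Fin (n + 1) → G) → G → ℤ)
      (X : Fin (n + 1) → (Matrix (Fin r) (Fin r) (MonoidAlgebra ℤ G))ˣ),
      dtr (qF F) X = ((dennis F X : ℤ) : ℚ)) ∧
    ∀ (G : Type) [Group G] (n r : ℕ)
      (z : (Fin (n + 1) → (Matrix (Fin r) (Fin r) (MonoidAlgebra ℤ G))ˣ) →₀ ℚ),
      ∃ E : Finset G, ∀ F F' : (Fin (n + 1) → G) → G → ℚ, (∀ y ∈ E, ∀ a, F a y = F' a y) →
        ∀ X ∈ z.support, dtr F X = dtr F' X

/-- TFQ (uses DEQ, TFI): rational families at the elements of finite order.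

Proof.  Let `D > 0` be a denominator of `F` (`GCoch.den`); TFI for the integral family `D * F` (choose the integers),
DEQ (c), (d). -/
def S_TFQ : Prop := ∀ (G : Type) [Group G] (n n0 : ℕ), 0 < n0 →
    ∀ (p : ℕ) [Fact p.Prime], p ∣ n0 → PdgL G n p →
    ∀ F : (Fin (n + 2) → G) → G → ℚ, GCoch (n + 1) (fun y => orderOf y = n0) F →
    ∀ (r : ℕ), ∀ z ∈ cyc ℚ ((Matrix (Fin r) (Fin r) (MonoidAlgebra ℤ G))ˣ) (n + 1),
    (z.sum fun X q => q * dtr F X) = 0

/-- COB (uses DEN, DEQ, BFL.sum_faces in P_BFL.lean, BND.TX_cobR, TXlen): coboundaries.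

Proof.  Let `φ = fst E : Rec G (Fin (n + 1)) → ℚ`, which is `CjInv` (`WON.cjInv_fst` in P_WON.lean), and
`F a y = cobE (fun b => E b y) a`.  For records with nonempty lists `fst F = cobR φ`, so by DEN, DEQ (a) (for `k = ℚ`)
and TXlen `dtr F X = TX (cobR φ) 1 (zU ℚ X) = ∑ i, (-1) ^ i * TX φ 1 (zU ℚ X ∘ i.succAbove)`, and the sum over `z`
vanishes by `BFL.sum_faces`.  Compare `WON.fst_cob`, `WON.TX_cob`. -/
def S_COB : Prop := ∀ (G : Type) [Group G] (n : ℕ) (E : (Fin (n + 1) → G) → G → ℚ),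
    (∀ (g : G) (a : Fin (n + 1) → G) (y : G), E (fun i => g * a i) (g * y * g⁻¹) = E a y) →
    ∀ (r : ℕ), ∀ z ∈ cyc ℚ ((Matrix (Fin r) (Fin r) (MonoidAlgebra ℤ G))ˣ) (n + 1),
    (z.sum fun X q => q * dtr (fun (a : Fin (n + 2) → G) y => cobE (fun b => E b y) a) X) = 0

/-- WOQ (uses DEQ, WON): the class of `1` for rational functions.

Proof.  `w` from WON.  Both sides are `ℚ`-linear in `F` and only depend on the values of `F` at finitely many `(a, y)`
(the `(fpr γ, 1)` with `dcoef X γ ≠ 0`, `X ∈ z.support`, and the `(a, 1)` with `a ∈ w.support`).  Multiply by a common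
denominator of these values. -/
def S_WOQ : Prop := ∀ (G : Type) [Group G] (n r : ℕ),
    ∀ z ∈ cyc ℚ ((Matrix (Fin r) (Fin r) (MonoidAlgebra ℤ G))ˣ) (n + 1),
    ∃ w ∈ cyc ℚ G (n + 1), ∀ F : (Fin (n + 2) → G) → G → ℚ,
      (∀ a y, F a y ≠ 0 → y = 1) →
      (z.sum fun X q => q * dtr F X) = w.sum fun a q => q * F a 1

/-- GMQ: as GMA (see P_GMA.lean) for rational families. -/
def S_GMQ : Prop := ∀ (G : Type) [Group G] (n : ℕ) (F : (Fin (n + 1) → G) → G → ℚ),
    (∀ (g : G) (a : Fin (n + 1) → G) (y : G), F (fun i => g * a i) (g * y * g⁻¹) = F a y) →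
    ∀ a : Fin (n + 1) → G, dtr F (fun j => gMat (a j)) = F a 1

/-! ## Module STQ: the Gauss congruence for `ℓ`-integral functions -/

/-- STQ (uses `Step7.step`, SUP): the Gauss congruence for functions with `ℓ`-integral values.

Proof.  Let `Sb = closure T`.  There are only finitely many `μ ∈ Sb` all of whose lists have length `ℓ`: the lists of
a product of `j` elements of `T` have length `j` (there is at least one label), so they are products of `ℓ` elements of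
`T`.  So there is `D > 0` prime to `ℓ` such that `D * φ μ` is an integer for all of them.  `Step7.step` with `k = 0` for
`D * φ`; `TX` is linear and `‖D‖ = 1` in `ℚ_ℓ`. -/
def S_STQ : Prop := ∀ (Γ : Type) [Group Γ] (M ℓ : ℕ) [Fact ℓ.Prime] (T : Finset (Rec Γ (Fin (M + 1)))),
    (∀ t ∈ T, ∀ i, (t.lst i).length = 1) →
    ∀ φ : Rec Γ (Fin (M + 1)) → ℚ,
    (∀ μ ∈ Submonoid.closure (T : Set (Rec Γ (Fin (M + 1)))),
      ∀ ν ∈ Submonoid.closure (T : Set (Rec Γ (Fin (M + 1)))), φ (μ * ν) = φ (ν * μ)) →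
    (∀ μ, ¬ ℓ ∣ (φ μ).den) →
    ∀ (ι : Type) [Fintype ι] [DecidableEq ι] (X : Fin (M + 1) → (Matrix ι ι (MonoidAlgebra ℚ_[ℓ] Γ))ˣ),
    (∀ i, NIU (X i)) → (∀ a b μ, (UX X a b).coeff μ ≠ 0 → μ ∈ T) →
    ‖TX φ ℓ X - TX (fun μ => φ (μ ^ ℓ)) 1 X‖ ≤ (ℓ : ℝ)⁻¹

/-! ## Module BFM: the elements of infinite order, backwards -/

/-- BFM (uses DEN, DEQ, SEF, TRF, SCF, STQ; adapt P_BFL.lean): rational families.

Proof: as BFL (P_BFL.lean), with one large prime `ℓ` from the infinite set of the hypothesis for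
`V = L ∪ {endpoints of T0}`, `STQ` instead of `Step7.step`, and DEQ (a) instead of DEZ. -/
def S_BFM : Prop := ∀ (G : Type) [Group G] (n : ℕ) (y0 : G) (F : (Fin (n + 2) → G) → G → ℚ),
    (∀ (g : G) (a : Fin (n + 2) → G) (y : G), F (fun i => g * a i) (g * y * g⁻¹) = F a y) →
    (∀ (a : Fin (n + 3) → G) (y : G),
      ∑ i : Fin (n + 3), (-1 : ℚ) ^ (i : ℕ) * F (fun j => a (i.succAbove j)) y = 0) →
    (∀ a y, F a y ≠ 0 → IsConj y y0) →
    (∀ V : Finset G, {p : ℕ | p.Prime ∧ (∀ a y, ¬ p ∣ (F a y).den) ∧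
      ∀ u ∈ V, ¬ IsConj (u ^ p) y0}.Infinite) →
    (∀ (t : Fin (n + 2) → ℤ) (a : Fin (n + 2) → G) (y : G),
      F (fun i => y ^ t i * a i) y = F a y) →
    ∀ (r : ℕ), ∀ z ∈ cyc ℚ ((Matrix (Fin r) (Fin r) (MonoidAlgebra ℤ G))ˣ) (n + 1),
    (z.sum fun X q => q * dtr F X) = 0

/-! ## Modules SEG, SCG, TRG, FWD: the elements of infinite order, forwards

`ρ : Γ → Γ` is a function with `ρ (γ y γ⁻¹) = γ ρ(y) γ⁻¹` (so `ρ y` commutes with `y`), a choice of roots:
`ρ y ^ N = y` in the applications. -/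

/-- A rotation by `e` steps which is an element `δ` of the group satisfies `δ = (ρ y) ^ (-e)`. -/
def GoodR {Γ : Type} [Group Γ] (ρ : Γ → Γ) (Y : List Γ) (y : Γ) : Prop :=
  ∀ (δ : Γ) (e : ℕ), Stb Y y δ e → δ * ρ y ^ e = 1

/-- Sections which are equivariant, the rotation acting by `ρ y`. -/
structure SecG {Γ : Type} [Group Γ] (ρ : Γ → Γ) (s : List Γ → Γ → Γ) : Prop where
  inv : ∀ (γ : Γ) (Y : List Γ) (y : Γ), Y ≠ [] →
    s (Y.map (γ * ·)) (γ * y * γ⁻¹) = γ * s Y y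
  rot : ∀ (Y : List Γ) (y : Γ), Y ≠ [] → GoodR ρ Y y → s (rotL y Y) y = ρ y * s Y y
  per : ∀ (Y : List Γ) (y : Γ), Y ≠ [] → GoodR ρ Y y → rotL y Y = Y.map (ρ y * ·) →
    s Y y = Y.headD 1

/-- SEG: existence of such sections.

Proof (adapt P_SEF.lean; `A = sq Y y` is the extended list, `rep A` the representative of its class).  For `Y ≠ []`
with `GoodR ρ Y y` (this is invariant under `Γ` and rotations) choose `γ`, `m` with `A n = γ * rep A (n + m)` for all `n`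
and put `s Y y = (ρ y) ^ m * (γ * rep A 0)`; otherwise `s Y y = Y.headD 1`.  If also `A n = γ' * rep A (n + m')` then
`A n = γ γ'⁻¹ A (n + (m - m'))`, so `γ γ'⁻¹ (ρ y) ^ (m - m') = 1` by `GoodR` (for negative `m - m'` use the inverse), and
`s` does not depend on the choice.  `inv` and `rot` follow (`A' n = δ * A n`, `A' n = A (n + 1)` have the same `rep`).
`per`: `A (n + 1) = ρ y * A n` for all `n`, so `rep A 0 = γ⁻¹ A (-m) = γ⁻¹ (ρ y) ^ (-m) A 0` and `s Y y = (ρ y) ^ m * A (-m) = A 0`. -/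
def S_SEG : Prop := ∀ (Γ : Type) [Group Γ] (ρ : Γ → Γ), (∀ γ y : Γ, ρ (γ * y * γ⁻¹) = γ * ρ y * γ⁻¹) →
    ∃ s : List Γ → Γ → Γ, SecG ρ s

/-- SCG: as SCF (see P_SCF.lean), for a strictly equivariant section. -/
def S_SCG : Prop := ∀ (Γ : Type) [Group Γ] (M N : ℕ) (F : (Fin (M + 1) → Γ) → Γ → ℚ)
    (s : List Γ → Γ → Γ), 0 < N →
    (∀ (g : Γ) (a : Fin (M + 1) → Γ) (y : Γ), F (fun i => g * a i) (g * y * g⁻¹) = F a y) →
    (∀ (a : Fin (M + 2) → Γ) (y : Γ),
      ∑ i : Fin (M + 2), (-1 : ℚ) ^ (i : ℕ) * F (fun j => a (i.succAbove j)) y = 0) →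
    (∀ (γ : Γ) (Y : List Γ) (y : Γ), Y ≠ [] → s (Y.map (γ * ·)) (γ * y * γ⁻¹) = γ * s Y y) →
    ∃ η : Rec Γ (Fin M) → ℚ, CjInv η ∧
      ∀ (k : Type) [Field k] [CharZero k] (ι : Type) [Fintype ι] [DecidableEq ι]
        (X : Fin (M + 1) → (Matrix ι ι (MonoidAlgebra k Γ))ˣ),
        TX (evN N F s) N X - TX (fst F) N X =
          ∑ i : Fin (M + 1), (-1 : k) ^ (i : ℕ) * TX η N (fun t => X (i.succAbove t))

/-- TRG: `evN N F s` is a trace function (adapt P_TRF.lean).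

Proof.  The lists of `μ * ν` are `Y_i ++ μ.val Y'_i`, `y = μ.val * ν.val`; those of `ν * μ`, translated by `μ.val`, are
their rotations by `c = |Y_i|` steps, the same number for all `i` (`Sb ≤ Bal`), with the same `y`.  If the lengths are
not `N` both sides are zero, and also if `F · y = 0`.  Otherwise `GoodR` holds for the lists of `μ * ν`, also after
rotations, and `SecG.inv`, `SecG.rot` give `s` of the second lists as `(ρ y) ^ c * s` of the first ones.
`F (ρ(y)^c a; y) = F (a; y)` since `ρ y` commutes with `y` (`hρ` for `γ = y`) and `F` is invariant. -/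
def S_TRG : Prop := ∀ (Γ : Type) [Group Γ] (M N : ℕ) (F : (Fin M → Γ) → Γ → ℚ) (ρ : Γ → Γ)
    (s : List Γ → Γ → Γ), 0 < N →
    (∀ (g : Γ) (a : Fin M → Γ) (y : Γ), F (fun i => g * a i) (g * y * g⁻¹) = F a y) →
    (∀ γ y : Γ, ρ (γ * y * γ⁻¹) = γ * ρ y * γ⁻¹) →
    SecG ρ s → ∀ Sb : Submonoid (Rec Γ (Fin M)), Sb ≤ Bal Γ (Fin M) →
    (∀ μ ∈ Sb, (∀ i, (μ.lst i).length = N) → (∃ a, F a μ.val ≠ 0) →
      ∀ i, GoodR ρ (μ.lst i) μ.val) →
    ∀ μ ∈ Sb, ∀ ν ∈ Sb, evN N F s (μ * ν) = evN N F s (ν * μ)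

/-- FWD (uses DEN, DEQ, STQ, SEG, SCG, TRG, SUP, TXfst; the setting is that of P_BFL.lean): the elements of infinite
order, forwards.

Proof.  Let `D = ∑ z(X) dtr F X`; the finite data `T0` (records with lists of length `1`), `L`, `Sb = closure T0` as in
P_BFL.lean, `V = L ∪ {endpoints of T0}`.  Let `ℓ` be a large prime (prime to `z(X).den`, `ℓ > z.support.card` and
`ℓ ∤ D.num` if `D ≠ 0`) in the infinite set of the hypothesis for `V`.
(1) `ρ : G → G`: `ρ (g y0^ℓ g⁻¹) = g y0 g⁻¹`, well defined as elements which commute with `y0 ^ ℓ` commute with `y0`,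
and `ρ y = y` (or `1`) if `y` is not conjugate to `y0 ^ ℓ`.  `ρ (γ y γ⁻¹) = γ ρ(y) γ⁻¹`, and `ρ(y) ^ ℓ = y`, `ρ y` is
conjugate to `y0`, if `y` is conjugate to `y0 ^ ℓ`.  `F1 a y = F a (ρ y)` if `y` is conjugate to `y0 ^ ℓ`, `0` otherwise:
invariant, a cocycle, `ℓ`-integral.
(2) If `μ ∈ Sb` has lists of length `ℓ` and `F1 a μ.val ≠ 0` for some `a` then `GoodR ρ (μ.lst i) μ.val`: let
`Y = μ.lst i`, `y = μ.val`, conjugate to `y0 ^ ℓ`, `A = SEC.sq Y y`, `Stb Y y δ e`: `A n = δ A (n + e)`, and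
`A (n + ℓ) = y A n`.  If `e = q ℓ` then `δ y^q = 1` and `ρ(y)^e = y^q`.  If `ℓ ∤ e` then the smallest period of `A`
(`PER.exists_min`) is `1`: `A (n + 1) = h A n` for all `n`, `h ^ ℓ = y`, `δ h^e = 1`; `u = (A 0)⁻¹ A 1 = (A 0)⁻¹ h A 0 ∈ L`
(`Inc`), `u ^ ℓ` is conjugate to `y0 ^ ℓ`, so (`u ∈ V`) `u` and `h` are conjugate to `y0`, `h = g y0 g⁻¹`, `y = g y0^ℓ g⁻¹`
and `ρ y = h`.  (Compare `BFL.goodP`.)
(3) `s` from SEG, `φ = evN ℓ F1 s`: a trace function on `Sb` (TRG) with `ℓ`-integral values.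
(4) For `μ ∈ T0` `φ (μ ^ ℓ) = fst F μ`: the lists of `μ` are `[a_i]`, those of `μ ^ ℓ` are `[a_i, h a_i, ..., h^(ℓ-1) a_i]`,
`h = μ.val`, with endpoint `h ^ ℓ`.  If `h ^ ℓ` is conjugate to `y0 ^ ℓ` then `h` is conjugate to `y0` (`h ∈ V`),
`ρ (h ^ ℓ) = h`, `rotL (h^ℓ) Y = Y.map (h * ·)`, so `s Y (h ^ ℓ) = a_i` by `per` and (2), and the value is `F (a_i) h`.
Otherwise `h` is not conjugate to `y0` and both sides are zero.
(5) STQ for `zU ℚ_ℓ ∘ X`: `‖TX φ ℓ X - TX (fst F) 1 X‖ ≤ ℓ⁻¹` (`RGB.TX_congr`), and `TX (fst F) 1 X = dtr F X` (DEN, DEQ (a)).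
(6) `∑ z(X) TX φ ℓ X = ∑ z(X) TX (fst F1) ℓ X` (SCG and `BFL.sum_faces`) `= ∑ z(X) TX (fst F1) 1 X` (TXfst) `= 0`, because
`fst F1 μ = 0` for `μ ∈ T0`: `μ.val ∈ V` is not conjugate to `y0 ^ ℓ` (`RGB.TX_congr`).
(7) So `‖D‖_ℓ < 1`, and `D = 0`. -/
def S_FWD : Prop := ∀ (G : Type) [Group G] (n : ℕ) (y0 : G) (F : (Fin (n + 2) → G) → G → ℚ),
    (∀ (g : G) (a : Fin (n + 2) → G) (y : G), F (fun i => g * a i) (g * y * g⁻¹) = F a y) →
    (∀ (a : Fin (n + 3) → G) (y : G),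
      ∑ i : Fin (n + 3), (-1 : ℚ) ^ (i : ℕ) * F (fun j => a (i.succAbove j)) y = 0) →
    (∀ a y, F a y ≠ 0 → IsConj y y0) →
    (∀ V : Finset G, {p : ℕ | p.Prime ∧ (∀ a y, ¬ p ∣ (F a y).den) ∧
      (∀ g : G, g * y0 ^ p = y0 ^ p * g → g * y0 = y0 * g) ∧
      ∀ u ∈ V, ¬ IsConj u (y0 ^ p) ∧ (IsConj (u ^ p) (y0 ^ p) → IsConj u y0)}.Infinite) →
    ∀ (r : ℕ), ∀ z ∈ cyc ℚ ((Matrix (Fin r) (Fin r) (MonoidAlgebra ℤ G))ˣ) (n + 1),
    (z.sum fun X q => q * dtr F X) = 0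

/-! ## Modules FGS, NAT: finitely generated subgroups -/

/-- FGS: cycles come from finitely generated subgroups.

Proof.  Let `m = n + 1`.  `bd z ∈ hdeg` is a finite linear combination of `g_i Y_i - Y_i`, `g_i ∈ GL_r(ℤ[G])`
(`Submodule.span`: induction or `Submodule.mem_span_set`).  Let `H` be the subgroup generated by the finitely many
elements of the supports of the entries of the matrices `X j`, `(X j)⁻¹` (`X ∈ z.support`), `g_i`, `g_i⁻¹`, `Y_i j`,
`(Y_i j)⁻¹`.  All these matrices are in the range of the injective map `glZ H.subtype` (a matrix with entries supported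
in `H` is the image of a matrix over `ℤ[H]`, uniquely; so the lifts of a matrix and its inverse are inverse to each
other).  So `z = hmap z'`, and `bd z = hmap (y')` with `y' ∈ hdeg` of `H`.  `hmap (bd z') = bd (hmap z') = bd z = hmap y'`
and `hmap` is injective, so `bd z' = y' ∈ hdeg`. -/
def S_FGS : Prop := ∀ (G : Type) [Group G] (n r : ℕ),
    ∀ z ∈ cyc ℚ ((Matrix (Fin r) (Fin r) (MonoidAlgebra ℤ G))ˣ) (n + 1),
    ∃ H : Subgroup G, H.FG ∧ ∃ z' ∈ cyc ℚ ((Matrix (Fin r) (Fin r) (MonoidAlgebra ℤ H))ˣ) (n + 1),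
      hmap ℚ (glZ (r := r) H.subtype) (n + 2) z' = z

/-- NAT: naturality of `dtr` and of cycles.

Proof.  (a) `(glZ H.subtype (X j))⁻¹ * glZ H.subtype (X (j + 1))` is the image of `(X j)⁻¹ * X (j + 1)`, whose coefficient at
`γ` is that of the latter at `γ'` if `γ = γ'` comes from `H` and zero otherwise; so `dcoef` of the image is zero unless
all `γ j` are in `H`, and then it is `dcoef X γ'`.  (b) `hmap` maps `cyc` to `cyc` for a map of groups (it commutes with
`bd` and maps `g X - X` to `f(g) f(X) - f(X)`). -/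
def S_NAT : Prop :=
    (∀ (G : Type) [Group G] (H : Subgroup G) (n r : ℕ) (F : (Fin (n + 1) → G) → G → ℚ)
      (X : Fin (n + 1) → (Matrix (Fin r) (Fin r) (MonoidAlgebra ℤ H))ˣ),
      dtr F (fun j => glZ H.subtype (X j)) =
        dtr (fun (a : Fin (n + 1) → H) (y : H) => F (fun i => (a i : G)) (y : G)) X) ∧
    ∀ (G : Type) [Group G] (H : Subgroup G) (n : ℕ), ∀ w ∈ cyc ℚ H n,
      hmap ℚ (fun h : H => (h : G)) (n + 1) w ∈ cyc ℚ G n

/-! ## Modules TRB, TRC: the theorem -/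

/-- TRB (uses DEQ, TFQ, COB, WOQ, BFM, FWD, PDL, PDG): the theorem, with the conditions in `G`.

Proof.  `n = m + 1`.  Let `E0` be the finite set of DEQ (e) for `z`, `R` a finite set of representatives `≠ 1` of the
conjugacy classes which meet `E0`, `w` from WOQ.  Let `F` be given, and for `y ∈ R` let `f'_y`, `E_y` be as in `AdmAt`.
The families `F'_y (a; x) = f'_y (g⁻¹ a)` for `x = g y g⁻¹`, `0` if `x` is not conjugate to `y`, and `E'_y` (defined in the
same way from `E_y`) are well defined and invariant (`CInv`), `F'_y` is a family of cocycles.  For `x ∈ E0`: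
`F a x = F1 a x + ∑_(y ∈ R) (F'_y a x + cobE (E'_y · x) a)`, `F1` the restriction of `F` to `x = 1` (`F (a; g y g⁻¹) =
F (g⁻¹ a; y)` by the invariance of `F`).  By DEQ (b), (e) the value on `z` is the sum of the values: `COB` for `E'_y`,
WOQ for `F1`, and the value of `F'_y` is zero: if `f'_y = 0` clear; if `y` has finite order: TFQ for a prime divisor
`p` of `orderOf y` (`y ≠ 1`), with `PdgL G m p` from `hpdg` if `m ≤ 2` and from PDL if `PBdd G p` (`= TorP G p`); otherwise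
FWD or BFM (the values of `F'_y` are values of `f'_y` or zero; for the last case: for `x = g y g⁻¹`,
`x ^ t * a = g (y ^ t * (g⁻¹ a))`). -/
def S_TRB : Prop := ∀ (G : Type) [Group G] (n r : ℕ), 1 ≤ n →
    ∀ z ∈ cyc ℚ ((Matrix (Fin r) (Fin r) (MonoidAlgebra ℤ G))ˣ) n,
    ∃ w ∈ cyc ℚ G n, ∀ F : (Fin (n + 1) → G) → G → ℚ,
      (∀ (g : G) (a : Fin (n + 1) → G) (y : G), F (fun i => g * a i) (g * y * g⁻¹) = F a y) →
      (∀ y : G, y ≠ 1 → AdmAt n y (fun a => F a y)) →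
      (z.sum fun X q => q * dtr F X) = w.sum fun a q => q * F a 1

/-- TRC (uses FGS, NAT, TRB): the theorem.

Proof.  `H`, `z'` from FGS, `w'` from TRB for `H` and `z'`, `w = hmap w'` (NAT (b)).  For an admissible `F` the restriction
`F' a y = F (a; y)` of `F` to `H` satisfies the conditions of TRB, and the values agree by NAT (a)
(`Finsupp.sum_mapDomain_index`). -/
def S_TRC : Prop := ∀ (G : Type) [Group G] (n r : ℕ), 1 ≤ n →
    ∀ z ∈ cyc ℚ ((Matrix (Fin r) (Fin r) (MonoidAlgebra ℤ G))ˣ) n,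
    ∃ w ∈ cyc ℚ G n, ∀ F : (Fin (n + 1) → G) → G → ℚ, AdmG n F →
      (z.sum fun X q => q * dtr F X) = w.sum fun a q => q * F a 1

/-! ## Modules LTB, LCE, LCJ, LNQ: linear groups over `ℚ` -/

/-- LTB: torsion in `GL_N(ℚ)`.

Proof.  (a) If `x` has order `p ^ c`, `c ≥ 1`, then `minpoly ℚ x` divides `X ^ (p ^ c) - 1 = Φ * (X ^ (p ^ (c-1)) - 1)`,
`Φ = cyclotomic (p ^ c) ℚ` irreducible of degree `p ^ (c-1) * (p - 1)`.  If `Φ` does not divide `minpoly ℚ x` then it is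
prime to it, so `minpoly ℚ x` divides `X ^ (p ^ (c-1)) - 1`, and `x ^ (p ^ (c-1)) = 1`, a contradiction.  So
`p ^ (c-1) * (p - 1) ≤ N` (the minimal polynomial divides the characteristic polynomial).  If `p ^ c ∣ orderOf g` then a
power of `g` has order `p ^ c`; so `PBdd` with `p ^ (c-1) > N`.  (b) the case `c = 1`: an element with `x ^ p = 1`,
`p > N + 1`, is `1`. -/
def S_LTB : Prop := ∀ (Γ : Type) [Group Γ] (N : ℕ) (ρ : Γ →* GL (Fin N) ℚ), Function.Injective ρ →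
    (∀ p : ℕ, p.Prime → PBdd Γ p) ∧ ∀ p : ℕ, p.Prime → N + 1 < p → ∀ x : Γ, x ^ p = 1 → x = 1

/-- LCE: centralizers in `GL_N(ℚ)`.

Proof.  Let `T` be the linear endomorphism `g ↦ y g y⁻¹` of the space of `N × N` matrices, `μ` its minimal polynomial
over `ℚ`, of degree `≤ N ^ 2`.  If `g y^p = y^p g` then `(T ^ p - 1) g = 0`.  `X ^ p - 1 = Φ * (X - 1)`, `Φ = cyclotomic p ℚ`
irreducible of degree `p - 1 > N ^ 2`, so `Φ` does not divide `μ` and is prime to it.  `Φ(T) ((T - 1) g) = 0` and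
`μ(T) = 0` give `(T - 1) g = 0`. -/
def S_LCE : Prop := ∀ (Γ : Type) [Group Γ] (N : ℕ) (ρ : Γ →* GL (Fin N) ℚ), Function.Injective ρ →
    ∀ p : ℕ, p.Prime → N ^ 2 + 1 < p → ∀ g y : Γ, g * y ^ p = y ^ p * g → g * y = y * g

/-- LCJ: conjugate powers in finitely generated linear groups over `ℚ`.

Proof.  Suppose that `z` is conjugate to `y ^ p` for infinitely many primes `p`.  (1) Over `ℂ` (or `AlgebraicClosure ℚ`):
if `λ` is an eigenvalue of `y`, then `λ ^ p` is an eigenvalue of `z` for infinitely many `p`, so `λ ^ p = λ ^ q` for some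
`p ≠ q` and `λ` is a root of unity.  So there is `M > 0` such that all the eigenvalues of `U = ρ(y) ^ M` are `1`
(spectral mapping) and `(U - 1) ^ N = 0`.  (2) `Γ` is finitely generated, so for almost all primes `p` the entries of all
`ρ(g)`, `g ∈ Γ`, are `p`-integral (take `p` prime to the denominators of the entries of the `ρ(s)`, `ρ(s)⁻¹`, `s` in a finite
set of generators).  For such a prime `p ≥ N` with `z = g y^p g⁻¹`: `U ^ p = 1 + ∑_(1 ≤ i < N) (p choose i) (U - 1) ^ i` has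
entries congruent to those of `1` modulo `p`, and so has `ρ(z) ^ M = ρ(g) U^p ρ(g)⁻¹`.  So the entries of `ρ(z)^M - 1` are
divisible by infinitely many primes, `z ^ M = 1`, `y ^ (p M) = 1`: `y` has finite order. -/
def S_LCJ : Prop := ∀ (Γ : Type) [Group Γ] [Group.FG Γ] (N : ℕ) (ρ : Γ →* GL (Fin N) ℚ),
    Function.Injective ρ → ∀ y : Γ, ¬ IsOfFinOrder y → ∀ z : Γ,
    {p : ℕ | p.Prime ∧ IsConj z (y ^ p)}.Finite

/-- LNQ (uses LTB, LCE, LCJ): families of integral cocycles on linear groups over `ℚ` are admissible.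

Proof.  Let `H`, `y ≠ 1` be given, `Γ = H`; `f' = f`, `E = 0`; the denominators are `1`.  `CInv`: if `g` commutes with
`y` then `F (g a; y) = F (g a; g y g⁻¹) = F (a; y)`.  If `y` has finite order: LTB (a) for a prime divisor of `orderOf y`.
If `y` has infinite order: the third case of `AdmC` holds for all but finitely many primes: the second condition is LCE;
`z`, `y ^ p` are not conjugate for almost all `p` by LCJ (`V` is finite); and if `p > N ^ 2 + N + 1` and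
`y ^ p = g z^p g⁻¹ = z' ^ p`, `z' = g z g⁻¹`, then `z'` commutes with `y ^ p`, hence with `y` (LCE), so `(z' y⁻¹) ^ p = 1` and
`z' = y` (LTB (b)). -/
def S_LNQ : Prop := ∀ (G : Type) [Group G] (n N : ℕ) (ρ : G →* GL (Fin N) ℚ),
    Function.Injective ρ → ∀ F : (Fin (n + 1) → G) → G → ℤ, CocFam n F → AdmG n (fun a y => (F a y : ℚ))

end Pool.Agent.FJA
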