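import Pool.Agent.FJA.HcCore

/-!
# The higher components of the Chern character: statements of the modules

Idea of the proof.  Let `D(w)` be the value of a family `F` (degree `m`, `m + 1` labels) on a cyclic cycle `w`
of simplices of `GL_r(k[Γ])`.  For a prime `N` let `s` be a section of the lists of length `N` which is invariant
under rotations.  The `N`-fold functional of `F ∘ s` has `N`-integral values.  It agrees on `w` with the `N`-fold
functional of the average of `F` over all the choices of one position in each list (XI, KI), which is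
`N ^ (-(m + 1)) ∑_t sign(sort t) D(w ∘ sort t)`, the sum over all functions `t` from the set of labels to `Fin N` (EV);
the sum over `t` is a polynomial `R(N)` of degree `≤ m + 1` with `R(1) = D(w)`, whose top coefficient is the average of
`sign(σ) D(w ∘ σ)` over all the permutations `σ` (CP).  As `R(N)` is divisible by `N ^ (m + 1)` for infinitely many
primes `N`, `R(x) = c x ^ (m + 1)` (PO), so `D(w) = R(1)` is the antisymmetrization, which vanishes if the simplices of
`w` have repeated vertices.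

Conventions: `jm`, `wm` as in Rec.lean, `P i = jm (X i).a * wm i * jm (X i).b` the factors of `UG X`.
-/

set_option autoImplicit false

open Matrix Pool.Agent.WhK Pool.Agent.Lib25

noncomputable section

namespace Pool.Agent.FJA

/-! ## Modules HEX, HCM: matrices over monoid algebras -/

/-- HEX: expansion of the trace of a power.

Proof.  Show by induction on `N`, for all `κ : M`, `κ' : M'`, all entries `(a, b)` and all `g`, `φ`, `ψ`: if
`φ (κ * (List.ofFn μ).prod) = ψ (κ' * (List.ofFn fun s => g s (μ s)).prod)` for all `μ : Fin N → M` with values in `T`,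
then `lin (φ (κ * ·)) ((A ^ N) a b) = lin (ψ (κ' * ·)) ((∏ g s (A)) a b)`.  For `N + 1` write both products with the
first factor in front (`pow_succ'`, `List.ofFn_succ`, `List.prod_cons`, `Matrix.mul_apply`), use bilinearity of the product
of `MonoidAlgebra` (`lin φ (x * y) = ∑_(μ ∈ supp x) x_μ * lin (φ (μ * ·)) y`) and the induction hypothesis with
`κ * μ`, `κ' * g 0 μ`, `μ ∈ T`.  Then take `κ = 1`, `κ' = 1` and the sum over the diagonal entries. -/
def S_HEX : Prop := ∀ (k : Type) [Field k] [CharZero k] (M M' : Type) [Monoid M] [Monoid M'] (ι : Type)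
    [Fintype ι] [DecidableEq ι] (A : Matrix ι ι (MonoidAlgebra k M)) (T : Set M),
    (∀ a b μ, (A a b).coeff μ ≠ 0 → μ ∈ T) →
    ∀ (N : ℕ) (g : Fin N → (M →* M')) (φ : M → ℚ) (ψ : M' → ℚ),
    (∀ μ : Fin N → M, (∀ s, μ s ∈ T) →
      φ (List.ofFn μ).prod = ψ (List.ofFn fun s => g s (μ s)).prod) →
    lin k φ (Matrix.trace (A ^ N)) =
      lin k ψ (Matrix.trace (List.ofFn fun s =>
        ((MonoidAlgebra.mapDomainRingHom k (g s)).mapMatrix :
          Matrix ι ι (MonoidAlgebra k M) →+* Matrix ι ι (MonoidAlgebra k M')) A).prod)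

/-- HCM: exchange of two factors.

Proof.  `tr (A * B) = ∑_(a, b) A a b * B b a`, `tr (B * A) = ∑_(a, b) B b a * A a b`; expand `A a b`, `B b a` in the
basis elements of their supports and use `lin_single`. -/
def S_HCM : Prop := ∀ (k : Type) [Field k] [CharZero k] (M : Type) [Monoid M] (ι : Type) [Fintype ι]
    [DecidableEq ι] (A B : Matrix ι ι (MonoidAlgebra k M)) (TA TB : Set M),
    (∀ a b μ, (A a b).coeff μ ≠ 0 → μ ∈ TA) → (∀ a b μ, (B a b).coeff μ ≠ 0 → μ ∈ TB) →
    ∀ φ φ' : M → ℚ, (∀ κ ∈ TA, ∀ p ∈ TB, φ (κ * p) = φ' (p * κ)) →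
    lin k φ (Matrix.trace (A * B)) = lin k φ' (Matrix.trace (B * A))

/-! ## Modules HTG, HFA, HRO, HSW, HEV, HDE, HIN: the functionals `TG` -/

/-- HTG: linearity, supports (compare TXlin, TXlen, SUP in P_TXA.lean, P_TXD.lean, P_SUP.lean).

Proof.  (a) `lin` is linear in `φ`.  (b) The coefficients of the entries of `P i` are supported in the finite set of
products `inc γ * om i * inc γ'`, `γ`, `γ'` in the supports of the entries of `(X i).a`, `(X i).b`: records whose list
`i` has length one and whose other lists are empty.  So the entries of `UG X` are supported in a finite set of records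
all of whose lists have length one.  (c) By (b) the entries of `UG X` are supported in the elements of `S` all of whose
lists have length one, and the coefficients of the entries of `(UG X) ^ N` in the elements of `S` with lists of length
`N`; `lin φ` only depends on the values of `φ` on the support. -/
def S_HTG : Prop :=
    (∀ (k : Type) [Field k] [CharZero k] (Γ : Type) [Group Γ] (ι : Type) [Fintype ι] [DecidableEq ι]
      (ε : Matrix ι ι (MonoidAlgebra k Γ)) (M N : ℕ) (X : Fin M → RPair ε) (I : Type) (s : Finset I)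
      (c : I → ℚ) (φ : I → Rec Γ (Fin M) → ℚ),
      TG (fun μ => ∑ i ∈ s, c i * φ i μ) N X = ∑ i ∈ s, (c i : k) * TG (φ i) N X) ∧
    (∀ (k : Type) [Field k] [CharZero k] (Γ : Type) [Group Γ] (ι : Type) [Fintype ι] [DecidableEq ι]
      (ε : Matrix ι ι (MonoidAlgebra k Γ)) (M : ℕ) (X : Fin M → RPair ε),
      ∃ T : Finset (Rec Γ (Fin M)), (∀ t ∈ T, ∀ i, (t.lst i).length = 1) ∧
        ∀ a b μ, (UG X a b).coeff μ ≠ 0 → μ ∈ T) ∧
    ∀ (k : Type) [Field k] [CharZero k] (Γ : Type) [Group Γ] (ι : Type) [Fintype ι] [DecidableEq ι]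
      (ε : Matrix ι ι (MonoidAlgebra k Γ)) (M N : ℕ) (X : Fin M → RPair ε)
      (S : Submonoid (Rec Γ (Fin M))) (φ φ' : Rec Γ (Fin M) → ℚ),
      (∀ a b μ, (UG X a b).coeff μ ≠ 0 → μ ∈ S) →
      (∀ μ ∈ S, (∀ i, (μ.lst i).length = N) → φ μ = φ' μ) → TG φ N X = TG φ' N X

/-- HFA: faces (compare `t_TXfac` in P_TXA.lean).

Proof.  The ring homomorphism `θ` of matrices induced by the monoid homomorphism `Rec.res i.succAbove` maps `P i` to
`jm ((X i).a * (X i).b) = jm ε` and `P (i.succAbove t)` to the factor `t` of `UG (X ∘ i.succAbove)`.  As there are at least two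
factors, `jm ε` is absorbed by a neighbour (`ε * a = a`, `b * ε = b`), so `θ (UG X) = UG (X ∘ i.succAbove)`. -/
def S_HFA : Prop := ∀ (k : Type) [Field k] [CharZero k] (Γ : Type) [Group Γ] (ι : Type) [Fintype ι]
    [DecidableEq ι] (ε : Matrix ι ι (MonoidAlgebra k Γ)) (M N : ℕ) (φ : Rec Γ (Fin (M + 1)) → ℚ)
    (i : Fin (M + 2)) (X : Fin (M + 2) → RPair ε),
    TG (fun μ => φ (Rec.res i.succAbove μ)) N X = TG φ N (fun t => X (i.succAbove t))

/-- HRO (uses HCM): cyclic rotation of the simplex.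

Proof.  Let `Q = P 1 * ⋯ * P M`, so `UG X = P 0 * Q`, and let `θ` be the ring homomorphism of matrices induced by
`Rec.res e`, `e j = j + 1` (a bijection of `Fin (M + 1)`); `Rec.res e (om (e j)) = om j` (`Rec.res_om`).  So
`UG (fun j => X (j + 1)) = θ (Q * P 0)`.  With `K = (Q * P 0) ^ (N - 1) * Q`: `(Q * P 0) ^ N = K * P 0` and
`(P 0 * Q) ^ N = P 0 * K`.  So the claim is HCM for `A = K`, `B = P 0` and the functions `φ ∘ Rec.res e` and `φ ∘ rotR`.  The
entries of `P 0` are supported in the `p` with `p.lst 0` of length one and `p.lst j = []` for `j ≠ 0`; the entries of `K`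
in the `κ` with `κ.lst 0` of length `N - 1` and `κ.lst j` of length `N` for `j ≠ 0`.  For such `p`, `κ` (with
`p.lst 0 = [x]`) one has `rotR (p * κ) = inc p.val * Rec.res e (κ * p) * inc p.val⁻¹`: with `y = p.val * κ.val` the
list `0` of `p * κ` is `x :: p.val κ.lst 0`, its rotation is `p.val κ.lst 0 ++ [y x]`, and the list `0` of `κ * p` is
`κ.lst 0 ++ [κ.val x]`.  All its lists have length `N`, so the hypothesis on `φ` applies. -/
def S_HRO : Prop := ∀ (k : Type) [Field k] [CharZero k] (Γ : Type) [Group Γ] (ι : Type) [Fintype ι]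
    [DecidableEq ι] (ε : Matrix ι ι (MonoidAlgebra k Γ)) (M N : ℕ), 0 < N →
    ∀ φ : Rec Γ (Fin (M + 1)) → ℚ,
    (∀ (γ : Γ) (μ : Rec Γ (Fin (M + 1))), (∀ i, (μ.lst i).length = N) →
      φ (Rec.inc γ * μ * Rec.inc γ⁻¹) = φ μ) →
    ∀ X : Fin (M + 1) → RPair ε,
    TG φ N (fun j => X (j + 1)) = TG (fun μ => φ (rotR μ)) N X

/-- HSW: two equal consecutive vertices.

Proof.  Let `a = j.castSucc`, `b = j.succ`, `sw = Equiv.swap a b`, `θ` the ring homomorphism of matrices induced by
`Rec.res sw`.  `θ (P i) = P i` for `i ≠ a, b`; `P a * P b = jm A * wm a * jm (B * A) * wm b * jm B = jm A * wm a * wm b * jm B` with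
`A = (X a).a`, `B = (X a).b`, `B * A = 1`, and `θ` exchanges `wm a` and `wm b`, which commute (`om a * om b = om b * om a`
for `a ≠ b`).  So `θ (UG X) = UG X`, and `lin (φ ∘ Rec.res sw) x = lin φ (θ x)`. -/
def S_HSW : Prop := ∀ (k : Type) [Field k] [CharZero k] (Γ : Type) [Group Γ] (ι : Type) [Fintype ι]
    [DecidableEq ι] (ε : Matrix ι ι (MonoidAlgebra k Γ)) (M N : ℕ) (φ : Rec Γ (Fin (M + 2)) → ℚ)
    (j : Fin (M + 1)) (X : Fin (M + 2) → RPair ε), X j.castSucc = X j.succ →
    (X j.succ).b * (X j.succ).a = 1 →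
    TG (fun μ => φ (Rec.res (Equiv.swap j.castSucc j.succ) μ)) N X = TG φ N X

/-- HLX: products in lexicographic order (no group theory).

Proof.  The left side is the product over the list `Λ` of all the pairs `(s, j) ∈ Fin N × Fin (M + 1)` in
lexicographic order of `Q (s, j)`, `Q (s, j) = P j` if `t j = s`, `ε` otherwise.  By the rules `ε ε = ε`, `ε P = P`,
`P ε = P` the product of a list of elements `P j`, `ε`, at least one of which is a `P j`, is the product of the sublist
without the `ε` (induction on the list).  The list of the `j` with `(s, j) ∈ Λ`, `t j = s` is strictly sorted for the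
relation `(t i, i) < (t j, j)` (lexicographic) and contains every `j` once; so does `List.ofFn (Tuple.sort t)`
(`Tuple.eq_sort_iff`, `Tuple.eq_sort_iff'`); so they are equal (`List.Perm.eq_of_sorted` or similar). -/
def S_HLX : Prop := ∀ (R : Type) [Monoid R] (M N : ℕ) (P : Fin (M + 1) → R) (ε : R), ε * ε = ε →
    (∀ j, ε * P j = P j) → (∀ j, P j * ε = P j) → ∀ t : Fin (M + 1) → Fin N,
    (List.ofFn fun s : Fin N => (List.ofFn fun j : Fin (M + 1) => if t j = s then P j else ε).prod).prod =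
      (List.ofFn fun a : Fin (M + 1) => P (Tuple.sort t a)).prod

/-- HEV (uses HEX, HLX, HTG): the value at the positions `t j`.

Proof.  (1) Let `g s : Rec Γ (Fin (M + 1)) →* Rec Γ (Fin (M + 1))` keep the lists `j` with `t j = s` and replace the
others by `[]`.  For `μ : Fin N → Rec Γ (Fin (M + 1))` with all lists of length one (the support of `UG X`, HTG (b))
the list `j` of `(List.ofFn μ).prod` has length `N`, its entry number `s` is
`(μ 0 ⋯ μ (s - 1)).val * (head of (μ s).lst j)`; the list `j` of the product of the `g s (μ s)` is the list of length one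
of the entry number `t j` of it; the endpoints agree.  So `evT F t (∏ μ s) = fst F (∏ g s (μ s))`, and HEX gives
`TG (evT F t) N X = lin (fst F) (tr (∏_s g s (UG X)))`.
(2) `g s` maps `P j` to `P j` if `t j = s` and to `jm ((X j).a * (X j).b) = jm ε` otherwise.  HLX (with `jm ε`) gives
`∏_s g s (UG X) = ∏_a P (σ a)`, `σ = Tuple.sort t`.
(3) The ring homomorphism induced by `Rec.res σ` maps `P (σ a)` to the factor `a` of `UG (X ∘ σ)` (`Rec.res_om`), and
`fst F (Rec.res σ μ) = sign σ * fst F μ` as `F` is alternating. -/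
def S_HEV : Prop := ∀ (k : Type) [Field k] [CharZero k] (Γ : Type) [Group Γ] (ι : Type) [Fintype ι]
    [DecidableEq ι] (ε : Matrix ι ι (MonoidAlgebra k Γ)) (M N : ℕ) (F : (Fin (M + 1) → Γ) → Γ → ℚ),
    (∀ (σ : Equiv.Perm (Fin (M + 1))) (a : Fin (M + 1) → Γ) (y : Γ),
      F (fun j => a (σ j)) y = ((Equiv.Perm.sign σ : ℤ) : ℚ) * F a y) →
    ∀ (t : Fin (M + 1) → Fin N) (X : Fin (M + 1) → RPair ε),
    TG (evT F t) N X =
      ((Equiv.Perm.sign (Tuple.sort t) : ℤ) : k) * TG (fst F) 1 (fun a => X (Tuple.sort t a))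

/-- HDE: the trace formula (compare `t_DEN` in P_DEN.lean; `h j = (X j).b * (X (j + 1)).a` instead of
`(X j)⁻¹ * X (j + 1)`).

Proof.  `fst F` is invariant under conjugation.  `UG X = jm (X 0).a * Z * jm (X n).b` with
`Z = ω_0 * jm (h 0) * ω_1 * ⋯ * jm (h (n - 1)) * ω_n`, so `lin (fst F) (tr (UG X)) = lin (fst F) (tr (Z * jm (h n)))`.  Expand as
in P_DEN.lean. -/
def S_HDE : Prop := ∀ (k : Type) [Field k] [CharZero k] (Γ : Type) [Group Γ] (ι : Type) [Fintype ι]
    [DecidableEq ι] (ε : Matrix ι ι (MonoidAlgebra k Γ)) (n : ℕ) (F : (Fin (n + 1) → Γ) → Γ → ℚ),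
    (∀ (g : Γ) (a : Fin (n + 1) → Γ) (y : Γ), F (fun i => g * a i) (g * y * g⁻¹) = F a y) →
    ∀ X : Fin (n + 1) → RPair ε,
    TG (fst F) 1 X = cval F (fun j => (X j).b * (X (j + 1)).a)

/-- HIN: integrality.

Proof.  The elements of `k[M]` with coefficients in the subring `A` form a subring, so the coefficients of the trace of
`(UG X) ^ N` are in `A`.  `TG φ N X` is the sum over the support of this trace of the coefficient times `φ μ`; let `d` be
the product of the denominators of these finitely many `φ μ`. -/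
def S_HIN : Prop := ∀ (k : Type) [Field k] [CharZero k] (Γ : Type) [Group Γ] (ι : Type) [Fintype ι]
    [DecidableEq ι] (ε : Matrix ι ι (MonoidAlgebra k Γ)) (M N : ℕ) (A : Subring k)
    (X : Fin M → RPair ε), (∀ i a b γ, ((X i).a a b).coeff γ ∈ A) → (∀ i a b γ, ((X i).b a b).coeff γ ∈ A) →
    ∀ (ℓ : ℕ), ℓ.Prime → ∀ φ : Rec Γ (Fin M) → ℚ, (∀ μ, ¬ ℓ ∣ (φ μ).den) →
    ∃ d : ℤ, ¬ (ℓ : ℤ) ∣ d ∧ (d : k) * TG φ N X ∈ A

/-! ## Modules HCP, HFD, HPO: a polynomial and a divisibility argument -/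

/-- HCP: the sum over all `t` is a polynomial in `N`.

Proof.  For `t : Fin L → Fin N` with image `S` (a finset with `b` elements) write `t = e ∘ c`,
`e = S.orderEmbOfFin _ : Fin b ↪o Fin N`, `c : Fin L → Fin b` surjective; `Tuple.sort t = Tuple.sort c` as `e` is strictly
monotone (`Tuple.eq_sort_iff`).  So `∑_t f (sort t) = ∑_(b ≤ L) (N choose b) ρ_b`, `ρ_b` the sum of `f (sort c)` over the
surjective maps `c : Fin L → Fin b` (a bijection `t ↦ (S, c)`).  `ρ_0 = 0` (`L ≥ 1`), `ρ_1 = f 1`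
(`Tuple.sort_eq_refl_iff_monotone`), `ρ_L = ∑ σ, f σ` (`c` is a permutation, `Tuple.sort c = c⁻¹`).  The polynomial
`x choose b` (`(descPochhammer k b) * C (b !)⁻¹`) has degree `b`, leading coefficient `1 / b !`, and takes the value `0` at
`x = 1` for `b ≥ 2`. -/
def S_HCP : Prop := ∀ (k : Type) [Field k] [CharZero k] (L : ℕ), 1 ≤ L → ∀ f : Equiv.Perm (Fin L) → k,
    ∃ R : Polynomial k, R.natDegree ≤ L ∧ R.coeff L * (L.factorial : k) = ∑ σ, f σ ∧ R.eval 1 = f 1 ∧
      ∀ N : ℕ, R.eval (N : k) = ∑ t : Fin L → Fin N, f (Tuple.sort t)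

/-- HFD: in a finitely generated domain of characteristic zero no nonzero element is divisible by infinitely many
primes.

Proof (compare the use of Zariski's lemma in P_SPC.lean).  Suppose `x ≠ 0`.  Let `B` be the `ℚ`-subalgebra of `k`
generated by `s` and `x⁻¹`, and `θ : B → F` a surjective homomorphism of `ℚ`-algebras to a field `F` which is finite over
`ℚ` (the quotient by a maximal ideal).  There is an integer `n > 0` such that `n * θ(c)` is integral over `ℤ` for all the
generators `c ∈ s ∪ {x⁻¹}`; so for every `a` in the ring generated by `s ∪ {x⁻¹}` there is an `e` such that `n ^ e * θ(a)` is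
integral over `ℤ`.  Let `ℓ` be a prime of the set which does not divide `n`, `d * x = ℓ * a`.  Then `d = ℓ * (a * x⁻¹)`, so
`θ(a x⁻¹) = d / ℓ`, and `n ^ e * d / ℓ` is integral over `ℤ` for some `e`, hence an integer (`IsIntegrallyClosed ℤ`), a
contradiction. -/
def S_HFD : Prop := ∀ (k : Type) [Field k] [CharZero k] (s : Finset k) (x : k),
    x ∈ Subring.closure (s : Set k) →
    {ℓ : ℕ | ℓ.Prime ∧ ∃ d : ℤ, ¬ (ℓ : ℤ) ∣ d ∧ ∃ a ∈ Subring.closure (s : Set k),
      (d : k) * x = (ℓ : k) * a}.Infinite → x = 0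

/-- HPO (uses HFD): polynomials whose values at infinitely many primes are divisible by a large power.

Proof.  Enlarge `s` by the coefficients of `R`.  Show by induction that the coefficient `r_j` of `R` is zero for `j < L`:
if `r_i = 0` for `i < j` then `R(ℓ) = ℓ ^ j * (r_j + ℓ * q)` with `q` in the ring, so `d * r_j = ℓ * (ℓ ^ (L - j - 1) * a - d * q)`
for infinitely many `ℓ`, and `r_j = 0` by HFD.  So `R = r_L X ^ L`. -/
def S_HPO : Prop := ∀ (k : Type) [Field k] [CharZero k] (s : Finset k) (L : ℕ) (R : Polynomial k),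
    R.natDegree ≤ L →
    {ℓ : ℕ | ℓ.Prime ∧ ∃ d : ℤ, ¬ (ℓ : ℤ) ∣ d ∧ ∃ a ∈ Subring.closure (s : Set k),
      (d : k) * R.eval (ℓ : k) = (ℓ : k) ^ L * a}.Infinite →
    R.eval 1 = R.coeff L

/-! ## Modules HSE, HGD, HPR, HAL, HXI: lists -/

/-- HSE: existence of sections (adapt P_SEF.lean: `GoodQ` instead of `GoodP N`).

Proof.  Let `P` be the set of the pairs `(Y, y)` with `Y ≠ []` and `GoodQ Y y`; it is invariant under
`γ (Y, y) = (γ Y, γ y γ⁻¹)` and `rot (Y, y) = (rotL y Y, y)`.  Choose a representative `q = (Y_q, y_q)` of every class of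
the equivalence relation generated; every element of the class is `γ rot^e q` with `e ∈ ℕ`, `γ ∈ Γ`
(`rot^(length) (Y, y) = y (Y, y)`).  For `(Y, y) ∈ P` put `s Y y = γ * head Y_q` for a choice of `(γ, e)` with
`(Y, y) = γ rot^e q`; for `(Y, y) ∉ P` put `s Y y = Y.headD 1`.  If also `(Y, y) = γ' rot^e' q`, say `e ≤ e'`, then
`δ = γ⁻¹ γ'` satisfies `Stb Y' y_q δ (e' - e)` for `Y' = rot^e Y_q`, so `δ` is a power of `y_q` (`GoodQ` is invariant under
rotations), and `γ' head Y_q = y^m γ head Y_q`.  So another choice changes `s Y y` by a power of `y` from the left, which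
gives `inv` and `rot`. -/
def S_HSE : Prop := ∀ (Γ : Type) [Group Γ], ∃ s : List Γ → Γ → Γ, SecQ s

/-- HGD: the lists of prime length are good (adapt `BFL.goodP` in P_BFL.lean).

Proof.  Let `Stb Y y δ e`, `A n` the extended list (`SEC.sq Y y`): `A n = δ A (n + e)`, `A (n + ℓ) = y A n`.  If
`e = ℓ q` then `δ y^q = 1`.  If `ℓ ∤ e` then the smallest period of `A` (`PER.exists_min`) is `1`: `A (n + 1) = h A n` for all
`n`, `h ^ ℓ = y`, `δ = h ^ (-e)`.  `u = (A 0)⁻¹ A 1 = (A 0)⁻¹ h A 0 ∈ L` (`Inc`) and `u ^ ℓ = (A 0)⁻¹ y A 0` is conjugate to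
`y0`, so `u` is a power of `u ^ ℓ`, hence `h` is a power of `h ^ ℓ = y`, and so is `δ`. -/
def S_HGD : Prop := ∀ (Γ : Type) [Group Γ] (y0 : Γ) (ℓ : ℕ), ℓ.Prime → ∀ L : Finset Γ,
    (∀ u ∈ L, IsConj (u ^ ℓ) y0 → u ∈ Subgroup.zpowers (u ^ ℓ)) →
    ∀ (Y : List Γ) (y : Γ), Y.length = ℓ → IsConj y y0 → Inc L Y y → GoodQ Y y

/-- HPR (compare P_SCF.lean): the prism between the section and the positions.

Proof.  For `v : Fin (M + 1) → Γ × Γ` and fixed `y`, PRI (`t_PRI`) for the maps `f = Prod.snd`, `f' = Prod.fst` and the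
cocycle identity give `F (fst ∘ v) y - F (snd ∘ v) y = ∑_i (-1)^i E (v ∘ i.succAbove)`, where
`E v = ∑_(j : Fin M) (-1)^j F (mix snd fst v j) y` for `v : Fin M → Γ × Γ` (as in P_SCF.lean).  Apply this to
`v_t j = (s (Y j) y, (Y j).getD (t j) 1)` and take the average over all `t : Fin (M + 1) → Fin N`; `h Y y` is the average of
`E (j ↦ (s (Y j) y, (Y j).getD (t j) 1))` over `t : Fin M → Fin N` (the term `i` does not depend on `t i`,
`Fin.insertNthEquiv` or `Fin.consEquiv`).  (a) is the averaged identity.  (b) `s` changes by `γ * y ^ m *`, the entries of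
the lists by `γ *`: use `inv` and `bas`.  (c) `s (rotL y (Y i)) y = y ^ m * s (Y i) y` by `GoodQ`; the entries of `rotL y (Y i)`
at `t` are those of `Y i` at `t + 1`, and `y *` the entry at `0` for `t = N - 1`; reindex the sum over `t i` and use
`bas`.  (d) clear. -/
def S_HPR : Prop := ∀ (Γ : Type) [Group Γ] (M N : ℕ) (F : (Fin (M + 1) → Γ) → Γ → ℚ)
    (s : List Γ → Γ → Γ), 0 < N →
    (∀ (g : Γ) (a : Fin (M + 1) → Γ) (y : Γ), F (fun i => g * a i) (g * y * g⁻¹) = F a y) →
    (∀ (a : Fin (M + 2) → Γ) (y : Γ),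
      ∑ i : Fin (M + 2), (-1 : ℚ) ^ (i : ℕ) * F (fun j => a (i.succAbove j)) y = 0) →
    (∀ (t : Fin (M + 1) → ℤ) (a : Fin (M + 1) → Γ) (y : Γ), F (fun i => y ^ t i * a i) y = F a y) →
    SecQ s →
    ∃ h : (Fin M → List Γ) → Γ → ℚ,
      (∀ (Y : Fin (M + 1) → List Γ) (y : Γ),
        F (fun j => s (Y j) y) y -
          ((N : ℚ) ^ (M + 1))⁻¹ * ∑ t : Fin (M + 1) → Fin N, F (fun j => (Y j).getD (t j) 1) y =
          ∑ i : Fin (M + 1), (-1 : ℚ) ^ (i : ℕ) * h (fun j => Y (i.succAbove j)) y) ∧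
      (∀ (γ : Γ) (Y : Fin M → List Γ) (y : Γ), (∀ i, (Y i).length = N) →
        h (fun i => (Y i).map (γ * ·)) (γ * y * γ⁻¹) = h Y y) ∧
      (∀ (Y : Fin M → List Γ) (y : Γ), (∀ i, (Y i).length = N) → ∀ i, GoodQ (Y i) y →
        h (Function.update Y i (rotL y (Y i))) y = h Y y) ∧
      ∀ y : Γ, (∀ a, F a y = 0) → ∀ Y : Fin M → List Γ, h Y y = 0

/-- HAL: antisymmetrization.

Proof.  `h' Y = (1 / M !) ∑_π sign(π) h (Y ∘ π)`.  (a) clear.  (b) As `g` is alternating,
`g Y = (1 / (M + 1) !) ∑_(π ∈ Perm (Fin (M + 1))) sign(π) g (Y ∘ π)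
= (1 / (M + 1) !) ∑_π ∑_i sign(π) (-1)^i h (Y ∘ π ∘ i.succAbove)`.  For `π`, `i` let `a = π i` and `π'` the permutation of `Fin M`
with `π (i.succAbove j) = a.succAbove (π' j)`; then `sign(π) = (-1)^(i + a) sign(π')`, and `(π, i) ↦ (a, π', i)` is a bijection
(`Equiv.Perm.decomposeFin`, `Fin.succAbove`, `Matrix.det_succ_row` uses the same sign computation; compare
`Matrix.submatrix_succAbove_det_eq_negOnePow_submatrix_succAbove_det` or do it with cycles `Fin.cycleRange`:
`Fin.sign_cycleRange`). -/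
def S_HAL : Prop := ∀ (α : Type) (M : ℕ) (g : (Fin (M + 1) → α) → ℚ) (h : (Fin M → α) → ℚ),
    (∀ (σ : Equiv.Perm (Fin (M + 1))) (Y : Fin (M + 1) → α),
      g (fun j => Y (σ j)) = ((Equiv.Perm.sign σ : ℤ) : ℚ) * g Y) →
    (∀ Y : Fin (M + 1) → α, g Y = ∑ i : Fin (M + 1), (-1 : ℚ) ^ (i : ℕ) * h (fun j => Y (i.succAbove j))) →
    ∀ Y : Fin (M + 1) → α, g Y = ∑ i : Fin (M + 1), (-1 : ℚ) ^ (i : ℕ) *
      (((M.factorial : ℚ))⁻¹ * ∑ π : Equiv.Perm (Fin M), ((Equiv.Perm.sign π : ℤ) : ℚ) *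
        h (fun j => Y (i.succAbove (π j))))

/-- HXI (uses HPR, HAL, HGD): the function `ξ`.

Proof.  `h` from HPR, `ξ Y y = (1 / M !) ∑_π sign(π) h (Y ∘ π) y`.  (a) HAL for fixed `y`: the left side of HPR (a) is
alternating in `Y`, as `F · y` is alternating (in the sum over `t` replace `t` by `t ∘ σ`).  (b) `XiT`: `inv` from HPR (b);
`alt` clear (reindex the sum over `π`); `rot`: `update Y i (rotL y (Y i)) ∘ π = update (Y ∘ π) (π⁻¹ i) (rotL y (Y i))`, HPR (c)
if all the lists of `μ` are good; if `F · μ.val = 0` both sides are zero by HPR (d).  If `F · μ.val ≠ 0` then `μ.val` is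
conjugate to `y0` (`FamY.supp`), and the lists of `μ` are good by HGD and the hypothesis `hL` (their lengths are `ℓ > 0`). -/
def S_HXI : Prop := ∀ (Γ : Type) [Group Γ] (M : ℕ) (F : (Fin (M + 1) → Γ) → Γ → ℚ) (y0 : Γ), FamY F y0 →
    ∀ s : List Γ → Γ → Γ, SecQ s → ∀ (T : Finset (Rec Γ (Fin M))) (L : Finset Γ),
    (∀ μ ∈ Submonoid.closure (T : Set (Rec Γ (Fin M))), (∀ i, μ.lst i ≠ []) →
      ∀ i, Inc L (μ.lst i) μ.val) →
    ∀ ℓ : ℕ, ℓ.Prime → (∀ u ∈ L, IsConj (u ^ ℓ) y0 → u ∈ Subgroup.zpowers (u ^ ℓ)) →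
    ∃ ξ : (Fin M → List Γ) → Γ → ℚ, XiT ℓ T ξ ∧
      ∀ (Y : Fin (M + 1) → List Γ) (y : Γ),
        F (fun j => s (Y j) y) y -
          ((ℓ : ℚ) ^ (M + 1))⁻¹ * ∑ t : Fin (M + 1) → Fin ℓ, F (fun j => (Y j).getD (t j) 1) y =
          ∑ i : Fin (M + 1), (-1 : ℚ) ^ (i : ℕ) * ξ (fun j => Y (i.succAbove j)) y

/-! ## Modules HKI, HUN, HID: chains on whose boundary the functionals vanish -/

/-- HKI (uses HRO, HSW, HTG).

Proof.  (a) `lf ξ` satisfies the hypothesis of HRO by `XiT.inv`, so `TG (lf ξ) N (fun j => X (j + 1)) =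
TG (fun μ => lf ξ (rotR μ)) N X`.  For `μ` in the closure of `T` with lists of length `N`:
`lf ξ (rotR μ) = ξ (λ ∘ finRotate) μ.val = (-1)^M ξ λ μ.val = (-1)^M ξ μ.lst μ.val`, `λ = update μ.lst 0 (rotL μ.val (μ.lst 0))`
(`XiT.alt`, `sign_finRotate`, `finRotate_succ_apply`, `XiT.rot`).  HTG (c) for the closure of `T`, (a) for the constant.
(b) HSW and `XiT.alt` for the swap: `TG (lf ξ) N X = - TG (lf ξ) N X`.  (c) `X' = fun j => X (j + 1)` has
`X' (last M).castSucc = X (last) = X 0 = X' (last)`; (b) for `X'` and (a) for `X`. -/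
def S_HKI : Prop := ∀ (k : Type) [Field k] [CharZero k] (Γ : Type) [Group Γ] (ι : Type) [Fintype ι]
    [DecidableEq ι] (ε : Matrix ι ι (MonoidAlgebra k Γ)),
    (∀ (M N : ℕ) (T : Finset (Rec Γ (Fin (M + 1)))) (ξ : (Fin (M + 1) → List Γ) → Γ → ℚ), 0 < N →
      XiT N T ξ → ∀ X : Fin (M + 1) → RPair ε, (∀ a b μ, (UG X a b).coeff μ ≠ 0 → μ ∈ T) →
      TG (lf ξ) N (fun j => X (j + 1)) = (-1 : k) ^ M * TG (lf ξ) N X) ∧
    (∀ (M N : ℕ) (T : Finset (Rec Γ (Fin (M + 2)))) (ξ : (Fin (M + 2) → List Γ) → Γ → ℚ),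
      XiT N T ξ → ∀ (X : Fin (M + 2) → RPair ε) (j : Fin (M + 1)), X j.castSucc = X j.succ →
      (X j.succ).b * (X j.succ).a = 1 → TG (lf ξ) N X = 0) ∧
    ∀ (M N : ℕ) (T : Finset (Rec Γ (Fin (M + 2)))) (ξ : (Fin (M + 2) → List Γ) → Γ → ℚ), 0 < N →
      XiT N T ξ → ∀ X : Fin (M + 2) → RPair ε, (∀ a b μ, (UG X a b).coeff μ ≠ 0 → μ ∈ T) →
      X (Fin.last (M + 1)) = X 0 → (X 0).b * (X 0).a = 1 → TG (lf ξ) N X = 0

/-- HUN (uses HKI, HTG, TXinv): cyclic cycles of the general linear groups.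

Proof.  Write `bd w = h + c`, `h ∈ hdeg`, `c` in the span of a finite set of generators of `cdg`
(`Submodule.mem_span_finite_of_mem_span` or `Finsupp` / induction); let `T` be the union of the finite sets of HTG (b) for the
simplices `pU ∘ X` of these finitely many generators.  Let `ξ` with `XiT N T ξ` be given, and `Λ` the linear functional
`single X q ↦ q * TG (lf ξ) N (pU ∘ X)`.  `Λ h = 0`: for `φ μ = lf ξ μ` if all the lists of `μ` have length `N`, `0` otherwise,
`CjInv φ` holds (`XiT.inv`), and `TG (lf ξ) N (pU ∘ X) = TX φ N X` (HTG (c) for `S = ⊤`; `TG φ N (pU ∘ X) = TX φ N X` by `rfl`), so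
TXinv applies (compare `BFL.sum_faces` in P_BFL.lean).  `Λ c = 0`: HKI (a) for the rotations, HKI (b), (c) for the
simplices with `X j = X (j + 1)` (`M = M' + 1`, `j = j'.castSucc` or `j = last`).  The sum in `BdT` is `Λ (bd w)`. -/
def S_HUN : Prop := ∀ (k : Type) [Field k] [CharZero k] (Γ : Type) [Group Γ] (ι : Type) [Fintype ι]
    [DecidableEq ι] (M : ℕ), 1 ≤ M →
    ∀ w : (Fin (M + 2) → (Matrix ι ι (MonoidAlgebra k Γ))ˣ) →₀ ℚ,
    bd ℚ ((Matrix ι ι (MonoidAlgebra k Γ))ˣ) (M + 1) w ∈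
      hdeg ℚ ((Matrix ι ι (MonoidAlgebra k Γ))ˣ) M ⊔ cdg ((Matrix ι ι (MonoidAlgebra k Γ))ˣ) M →
    BdT (w.mapDomain fun X j => pU (X j))

/-- HID (uses HKI, HTG): idempotent matrices.

Proof.  `T` from HTG (b) for the constant simplex `X : Fin (M + 1) → RPair e`.  All the faces of the constant simplex are
`X`, and `∑_(i : Fin (M + 2)) (-1)^i = 1` as `M` is odd.  HKI (a): `TG (lf ξ) N X = (-1)^M TG (lf ξ) N X = - TG (lf ξ) N X`. -/
def S_HID : Prop := ∀ (k : Type) [Field k] [CharZero k] (Γ : Type) [Group Γ] (ι : Type) [Fintype ι]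
    [DecidableEq ι] (e : Matrix ι ι (MonoidAlgebra k Γ)) (he : e * e = e) (M : ℕ), Odd M →
    BdT (Finsupp.single (fun _ : Fin (M + 2) => pE e he) (1 : ℚ))

/-! ## Modules HCO, HCB, HTX: the main theorem for a group -/

/-- HCO (uses HSE, HXI, HTG, HFA, HEV, HIN, HCP, HPO, SUP (a)): the value on a cyclic cycle is the value on its
antisymmetrization; it vanishes if the simplices have repeated vertices.

Proof.  Let `L = M + 2` be the number of labels, `D(w ∘ σ) = ∑ w(X) TG (fst F) 1 (X ∘ σ)`, `f σ = sign(σ) D(w ∘ σ)`, `R` the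
polynomial of HCP.  `T` from `BdT w`; `LL` from SUP (a) for `T`; `s` from HSE; `A` the subring generated by the
finitely many coefficients of the entries of the matrices `(X i).a`, `(X i).b`, `X ∈ w.support` (a finite set `S0`).
For a prime `ℓ` in the infinite set of `FamY.prm` for `V = LL` which does not divide the denominators of the `w(X)` (all but
finitely many) let `ξ` be as in HXI (with `M + 1` for `M`), `φ μ = F (fun j => s (μ.lst j) μ.val) μ.val`.  Then, by HXI,
HTG (a) and HFA, `TG φ ℓ X - ℓ^(-L) ∑_t TG (evT F t) ℓ X = ∑_i (-1)^i TG (lf ξ) ℓ (X ∘ i.succAbove)` for all `X`, and the sum over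
`w` of the right side vanishes by `BdT`.  By HEV `∑_X w(X) ∑_t TG (evT F t) ℓ X = ∑_t f (sort t) = R(ℓ)`.  By HIN
`d * ∑_X w(X) TG φ ℓ X ∈ A` for some `d` prime to `ℓ`.  So `d * R(ℓ) = ℓ^L * a`, `a ∈ A`, and HPO gives `R(1) = R.coeff L`,
that is (a): `L ! * f(1) = ∑ σ, f σ`.
(b) If `X a = X b`, `a ≠ b`, then `X ∘ (swap a b * σ) = X ∘ σ` and the signs are opposite, so
`∑_σ sign(σ) TG (fst F) 1 (X ∘ σ) = 0` (`Finset.sum_involution`). -/
def S_HCO : Prop := ∀ (k : Type) [Field k] [CharZero k] (Γ : Type) [Group Γ] (ι : Type) [Fintype ι]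
    [DecidableEq ι] (ε : Matrix ι ι (MonoidAlgebra k Γ)) (M : ℕ) (F : (Fin (M + 2) → Γ) → Γ → ℚ) (y0 : Γ),
    FamY F y0 → ∀ w : (Fin (M + 2) → RPair ε) →₀ ℚ, BdT w →
    (((M + 2).factorial : k) * (w.sum fun X q => (q : k) * TG (fst F) 1 X) =
      ∑ σ : Equiv.Perm (Fin (M + 2)), ((Equiv.Perm.sign σ : ℤ) : k) *
        (w.sum fun X q => (q : k) * TG (fst F) 1 (fun a => X (σ a)))) ∧
    ((∀ X ∈ w.support, ∃ a b, a ≠ b ∧ X a = X b) →
      (w.sum fun X q => (q : k) * TG (fst F) 1 X) = 0)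

/-- HCB (uses HTG, HFA): coboundaries.

Proof.  `BdT` for `N = 1` and `ξ Y y = E (fun j => (Y j).headD 1) y`: `XiT 1 T ξ` holds (lists of length one, `rotL y [a] = [y a]`).
For records with nonempty lists `fst (cobE E) μ = ∑_i (-1)^i lf ξ (Rec.res i.succAbove μ)`; HTG (c) (`S = ⊤`, lists of
length one), (a), HFA. -/
def S_HCB : Prop := ∀ (k : Type) [Field k] [CharZero k] (Γ : Type) [Group Γ] (ι : Type) [Fintype ι]
    [DecidableEq ι] (ε : Matrix ι ι (MonoidAlgebra k Γ)) (M : ℕ) (E : (Fin (M + 1) → Γ) → Γ → ℚ),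
    (∀ (g : Γ) (a : Fin (M + 1) → Γ) (y : Γ), E (fun i => g * a i) (g * y * g⁻¹) = E a y) →
    (∀ y : Γ, AltB y (fun a => E a y)) →
    ∀ w : (Fin (M + 2) → RPair ε) →₀ ℚ, BdT w →
    (w.sum fun X q => (q : k) * TG (fst fun (a : Fin (M + 2) → Γ) y => cobE (fun b => E b y) a) 1 X) = 0

/-- HTX (uses HCO, HCB, HTG): admissible families.

Proof (compare P_TRB.lean).  Let `E0` be the finite set of the endpoints of the records of the finite sets of HTG (b) for
`X ∈ w.support`, `R` a finite set of representatives of the conjugacy classes which meet `E0`.  For `y ∈ R` let `f'_y`, `E_y`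
be as in `AdmY`.  The families `F'_y (a; x) = f'_y (g⁻¹ a)` for `x = g y g⁻¹`, `0` if `x` is not conjugate to `y`, and `E'_y`
(defined in the same way from `E_y`) are well defined and invariant (`CInv`); if `f'_y ≠ 0` then `FamY F'_y y`; and `E'_y`
satisfies the hypotheses of HCB.  For `x ∈ E0`: `F a x = ∑_(y ∈ R) (F'_y a x + cobE (E'_y · x) a)`.  By HTG (c) (for `N = 1` and
the closures of the finite sets; `TG φ 1 X` only depends on the values of `φ` on the support of the entries of `UG X`: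
these are the elements of the closure with lists of length one) and HTG (a) the value on `w` is the sum of the values,
which are zero by HCO (b) and HCB. -/
def S_HTX : Prop := ∀ (k : Type) [Field k] [CharZero k] (Γ : Type) [Group Γ] (ι : Type) [Fintype ι]
    [DecidableEq ι] (ε : Matrix ι ι (MonoidAlgebra k Γ)) (M : ℕ) (F : (Fin (M + 2) → Γ) → Γ → ℚ),
    (∀ (g : Γ) (a : Fin (M + 2) → Γ) (y : Γ), F (fun i => g * a i) (g * y * g⁻¹) = F a y) →
    (∀ y : Γ, AdmY (M + 1) y (fun a => F a y)) →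
    ∀ w : (Fin (M + 2) → RPair ε) →₀ ℚ, BdT w → (∀ X ∈ w.support, ∃ a b, a ≠ b ∧ X a = X b) →
    (w.sum fun X q => (q : k) * TG (fst F) 1 X) = 0

/-! ## Modules HBB, HB2, HLE, HNL: natural lifts to the negative cyclic complex -/

/-- HBB: `∂ B + B ∂ = 0`, exactly, for all lists.

Proof.  Let `q + 1` be the length of `X` (`q = 0`: direct; `X = []`: all zero).  With `x_p`, `p` modulo `q + 1`, the term `j` of
`B X` is `(-1)^(q (j + 1))` times the list `(x_j, x_(j+1), …, x_(j+q+1))` of length `q + 2`.  Deleting its first entry gives the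
rotation `(x_(j+1), …, x_(j+q+1))`, deleting its last entry `(x_j, …, x_(j+q))`; the sum over `j` of
`(-1)^(q(j+1)) (rot_(j+1) + (-1)^(q+1) rot_j)` telescopes to zero.  Deleting the entry `a`, `1 ≤ a ≤ q`, gives the list of the
term of `B (∂_p X)`, `p = j + a` modulo `q + 1`, which starts with `x_j`; the signs are opposite: for `j < p` (`a = p - j`, `x_j` has
index `j` in `∂_p X`) `(-1)^(a + q (j + 1)) = - (-1)^(p + (q - 1)(j + 1))`; for `j > p` (`a = p - j + q + 1`, `x_j` has index
`j - 1`) `(-1)^(a + q(j + 1)) = - (-1)^(p + (q - 1) j)`. -/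
def S_HBB : Prop := ∀ (V : Type) (X : List V),
    bdL V (conB V (Finsupp.single X 1)) + conB V (bdL V (Finsupp.single X 1)) = 0

/-- HB2: degenerate chains.

Proof.  (a) Every list in `B X` starts and ends with the same entry, and its rotations followed by their first entry
contain two equal consecutive entries: for the rotation by `0` the last entry is repeated, for the others the last entry
is followed by the first.  (b) If `X = A ++ v :: v :: C` then every rotation of `X` contains `v :: v`, except the one which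
starts with the second `v`; this one ends with `v`, and in `B X` it is followed by `v`.  (c) clear. -/
def S_HB2 : Prop := ∀ V : Type,
    (∀ c : List V →₀ ℚ, conB V (conB V c) ∈ degL V) ∧
    (∀ c ∈ degL V, conB V c ∈ degL V) ∧
    ∀ (x : V), ∀ c ∈ degL V, c.mapDomain (List.cons x) ∈ degL V

/-- HLE (uses HBB, HB2): existence of natural lifts.

Proof.  Define `T V 0 X = single X 1`, `T V (i + 1) [] = 0` and (recursion on `i` and on the length)
`T V (i + 1) (x :: X) = cons x (lT (i + 1) (∂ (x :: X)) - B (T V i (x :: X)))`, where `cons x` is the linear extension of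
`List.cons x` (in the recursion write the first term as `∑ j : Fin (X.length + 1), (-1)^j • T V (i + 1) ((x :: X).eraseIdx j)`).
`nat`, `deg`: by induction (`∂`, `B`, `cons` are natural; `List.map_eraseIdx`, `List.map_rotate`, `List.length_eraseIdx`).
`bd`: show `∂ T_(i+1) X ≡ lT (i + 1) (∂ X) - B (T_i X)` modulo `degL` for all `X` (also `[]`) by induction on `i` and the length.
`∂ (cons x c) = c - cons x (∂ c)` for all chains `c`.  For `c = lT (i + 1) (∂ X) - B (T_i X)`, `X = x :: X'`: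
`∂ (lT (i + 1) (∂ X)) ≡ lT (i + 1) (∂ ∂ X) - B (lT i (∂ X)) = - B (lT i (∂ X))` by induction (the lists of `∂ X` are shorter;
`∂ ∂ = 0`), and `- ∂ B (T_i X) = B (∂ T_i X)` by HBB, which is `B (lT i (∂ X))` for `i = 0` and
`≡ B (lT i (∂ X)) - B B T_(i-1) X ≡ B (lT i (∂ X))` for `i ≥ 1` (induction on `i`, HB2 (a), (b)).  So `∂ c ≡ 0`, and
`∂ (cons x c) ≡ c` by HB2 (c). -/
def S_HLE : Prop := ∃ T : ∀ V : Type, ℕ → List V → (List V →₀ ℚ), NatLift T

/-- HNL: the lift of a cycle is a cyclic cycle with repeated vertices.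

Proof.  (0) For every `X`, `i`, the lists in `T V i X` have entries from `X`: `NatLift.nat` for the map `Fin X.length → V` and
the list `List.finRange`.  (a) By (0) and `deg` the lists `Y` in `T V i (List.ofFn X)`, `X : Fin (n + 1) → V`, `i ≥ 1`, have length
`n + 1 + 2 i = M + 2 > n + 1` and at most `n + 1` different entries.
(b) `bd (tpL (M + 2) c) = tpL (M + 1) (bdL c)` for all chains `c` of lists (on lists of another length both are zero).  With
`zL = z.mapDomain List.ofFn`: by `NatLift.bd` for the lists `List.ofFn X` (nonempty) `bdL (lT i zL)` is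
`lT i (bdL zL) - conB (lT (i - 1) zL)` modulo `degL`.  `tpL (M + 1)` maps degenerate lists (of length `M + 1 ≥ 2`) to `cdg`, and the
lists of `conB`, whose first and last entries agree, to `cdg` (`X (last) = X 0 = X (last + 1)`; their lengths here are
`M + 1`).  `bdL zL = (bd z).mapDomain List.ofFn`, `bd z ∈ hdeg` is a combination of differences `g X - X`, and
`lT i (g X - X) = g (T i X) - T i X` by `nat` for the map `g * ·`, which `tpL` maps to `hdeg`. -/
def S_HNL : Prop := ∀ (T : ∀ V : Type, ℕ → List V → (List V →₀ ℚ)), NatLift T →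
    ∀ (V : Type) [Group V] (n i M : ℕ), 1 ≤ n → 1 ≤ i → n + 2 * i = M + 1 → ∀ z ∈ cyc ℚ V n,
    (∀ X ∈ (tpL V (M + 2) (lT T V i (z.mapDomain List.ofFn))).support, ∃ a b, a ≠ b ∧ X a = X b) ∧
    bd ℚ V (M + 1) (tpL V (M + 2) (lT T V i (z.mapDomain List.ofFn))) ∈ hdeg ℚ V M ⊔ cdg V M

/-! ## Modules HFG, HNA: finitely generated subgroups -/

/-- HFG (adapt P_FGS.lean, with a field `k` instead of `ℤ` and `glG` instead of `glZ`): cycles and idempotent
matrices come from finitely generated subgroups. -/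
def S_HFG : Prop :=
    (∀ (k : Type) [Field k] [CharZero k] (G : Type) [Group G] (n r : ℕ), 1 ≤ n →
      ∀ z ∈ cyc ℚ ((Matrix (Fin r) (Fin r) (MonoidAlgebra k G))ˣ) n,
      ∃ H : Subgroup G, H.FG ∧ ∃ z' ∈ cyc ℚ ((Matrix (Fin r) (Fin r) (MonoidAlgebra k H))ˣ) n,
        hmap ℚ (glG (k := k) (ι := Fin r) H.subtype) (n + 1) z' = z) ∧
    ∀ (k : Type) [Field k] [CharZero k] (G : Type) [Group G] (r : ℕ)
      (e : Matrix (Fin r) (Fin r) (MonoidAlgebra k G)), e * e = e →
      ∃ H : Subgroup G, H.FG ∧ ∃ e' : Matrix (Fin r) (Fin r) (MonoidAlgebra k H), e' * e' = e' ∧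
        (MonoidAlgebra.mapDomainRingHom k H.subtype).mapMatrix e' = e

/-- HNA (adapt P_NAT.lean): naturality of `cval`.

Proof.  The coefficient of the image of `h j a b` at `γ` is that of `h j a b` at `γ'` if `γ = γ'` comes from `H` and zero
otherwise; so `hcoef` of the image is zero unless all `γ j` are in `H`, and then it is `hcoef h γ'`. -/
def S_HNA : Prop := ∀ (k : Type) [Field k] [CharZero k] (G : Type) [Group G] (H : Subgroup G) (n r : ℕ)
    (F : (Fin (n + 1) → G) → G → ℚ) (h : Fin (n + 1) → Matrix (Fin r) (Fin r) (MonoidAlgebra k H)),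
    cval F (fun j => ((MonoidAlgebra.mapDomainRingHom k H.subtype).mapMatrix :
      Matrix (Fin r) (Fin r) (MonoidAlgebra k H) →+* Matrix (Fin r) (Fin r) (MonoidAlgebra k G)) (h j)) =
      cval (fun (a : Fin (n + 1) → H) (y : H) => F (fun i => (a i : G)) (y : G)) h

/-! ## Modules HTH, HTE, HLI: the theorem -/

/-- HTH (uses HFG, HNA, HNL, HUN, HTX, HDE): the theorem for cycles.

Proof.  `H`, `z'` from HFG, `f = glG H.subtype`.  `z.mapDomain ofFn` is the image under `List.map f` of `z'.mapDomain ofFn`, so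
`lT T _ i (z.mapDomain ofFn)` is the image of `c' = lT T _ i (z'.mapDomain ofFn)` (`NatLift.nat`), and
`hseq m (Y.map f) j` is the image of `hseq m Y j` (`List.getD_map`).  By HNA the sum is `∑_Y c'(Y) cval F' (hseq m Y)`, `F'` the
restriction of `F` to `H`.  With `m = n + 2 i = M + 1`, all the lists of `c'` have length `M + 2` (`deg`), so with
`w' = tpL (M + 2) c'` this is `∑_X w'(X) cval F' (fun j => ((X j)⁻¹ * X (j + 1)).val)`, which by HDE is
`∑_X w(X) TG (fst F') 1 X` for `w = w'.mapDomain (fun X j => pU (X j))`.  HNL, HUN, HTX for the group `H`, with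
`AdmT.adm`. -/
def S_HTH : Prop := ∀ (T : ∀ V : Type, ℕ → List V → (List V →₀ ℚ)), NatLift T →
    ∀ (k : Type) [Field k] [CharZero k] (G : Type) [Group G] (n i r : ℕ), 1 ≤ n → 1 ≤ i →
    ∀ z ∈ cyc ℚ ((Matrix (Fin r) (Fin r) (MonoidAlgebra k G))ˣ) n,
    ∀ F : (Fin (n + 2 * i + 1) → G) → G → ℚ, AdmT (n + 2 * i) F →
    ((lT T _ i (z.mapDomain List.ofFn)).sum fun Y q => (q : k) * cval F (hseq (n + 2 * i) Y)) = 0

/-- HTE (uses HFG, HNA, HID, HTX, HDE): the theorem for idempotent matrices.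

Proof.  `2 i = M + 1`, `M` odd.  `H`, `e'` from HFG; HNA; HID and HTX for the group `H` and the chain
`single (fun _ => pE e' he') 1`, whose simplex has repeated vertices (`M + 2 ≥ 2`); HDE: `(pE e' he').b * (pE e' he').a = e' * e' = e'`. -/
def S_HTE : Prop := ∀ (k : Type) [Field k] [CharZero k] (G : Type) [Group G] (i r : ℕ), 1 ≤ i →
    ∀ e : Matrix (Fin r) (Fin r) (MonoidAlgebra k G), e * e = e →
    ∀ F : (Fin (2 * i + 1) → G) → G → ℚ, AdmT (2 * i) F → cval F (fun _ => e) = 0

/-- HLI (uses LJK): integral families are admissible at the elements of finite order, and on linear groups.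

Proof.  For `H`, `y ∈ H` take `f' = f`, `E = 0` (`CInv` of `f`: if `g` commutes with `y` then
`F (g a; y) = F (g a; g y g⁻¹) = F (a; y)`; the denominators are `1`).  Let `V` be a finite set.  If `y` has finite order: if
`z ^ p` is conjugate to `y` then `z` has finite order, and if `p` does not divide `orderOf z` then `z` is a power of `z ^ p`; so all but
finitely many primes `p` are in the set.  If `y` has infinite order: (a) `f = 0`; (b) by LJK for the finitely generated
group `H`: for `z ∈ V` (of infinite order, otherwise `z ^ p` is not conjugate to `y`) `{p | IsConj y (z ^ p)}` is finite. -/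
def S_HLI : Prop :=
    (∀ (G : Type) [Group G] (n : ℕ) (F : (Fin (n + 1) → G) → G → ℤ), IntFam n F →
      (∀ a y, F a y ≠ 0 → IsOfFinOrder y) → AdmT n (fun a y => (F a y : ℚ))) ∧
    ∀ (G : Type) [Group G] (K : Type) [Field K] [CharZero K] (n N : ℕ) (ρ : G →* GL (Fin N) K),
      Function.Injective ρ → ∀ F : (Fin (n + 1) → G) → G → ℤ, IntFam n F → AdmT n (fun a y => (F a y : ℚ))

end Pool.Agent.FJA
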