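import Pool.Agent.FJA.RtDefs
import Pool.Agent.FJA.StX

/-!
# Linear groups over fields: residual finiteness
-/

set_option autoImplicit false

open Matrix

noncomputable section

namespace Pool.Agent.FJA

/-- RML: the finitely generated subgroups of linear groups are residually finite (Malcev).

Proof (compare P_SPC.lean).  Let `H` be generated by the finite set `S`, closed under inverses, `A` the subring of `K`
generated by the entries of the `ρ(s)`, `s ∈ S`: a domain, finitely generated as a ring, and `ρ` maps `H` to `GL_N(A)`.
Let `1 ≠ h ∈ H` and `c ≠ 0` an entry of `ρ(h) - 1`.  `Localization.Away c` of `A` is a nonzero ring of finite type over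
`ℤ`; let `F` be its quotient by a maximal ideal, a field of finite type over `ℤ`, hence a finite `ℤ`-module
(`finite_of_finite_type_of_isJacobsonRing`); if `F` had characteristic zero then `ℤ → F` would be injective and integral and
`ℤ` a field (`isField_of_isIntegral_of_isField` or similar); so `F` has characteristic `p` and is a finite-dimensional vector
space over `ZMod p`: `F` is finite.  The map `θ : A → F` has `θ c ≠ 0`.  The kernel of the composition
`H → GL_N(A) → GL_N(F)` is a normal subgroup of finite index (the target is a finite group) which does not contain `h`. -/
def S_RML : Prop := ∀ (G : Type) [Group G] (K : Type) [Field K] (N : ℕ) (ρ : G →* GL (Fin N) K),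
    Function.Injective ρ → ∀ H : Subgroup G, H.FG → ResFin H

end Pool.Agent.FJA
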