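import Pool.Agent.FJA.Chains

/-!
# The Dennis trace of the general linear groups of a group ring

For a tuple `X 0, …, X n` of invertible matrices over `k[G]` put `h j = (X j)⁻¹ * X (j + 1)` (indices
modulo `n + 1`).  The Dennis trace of the homogeneous simplex `X` is the element
`∑ γ, dcoef X γ • (γ n ⊗ γ 0 ⊗ ⋯ ⊗ γ (n - 1))` of the Hochschild complex of `k[G]`, the trace of
`h n ⊗ h 0 ⊗ ⋯ ⊗ h (n - 1)`, `h n = (h 0 * ⋯ * h (n - 1))⁻¹` (the classical formula).  A family `F` of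
homogeneous cocycles `F (·; y)`, `y ∈ G`, of degree `n` on `G` with `F (g a; g y g⁻¹) = F (a; y)` (the same as a
class in `H^n(Z_G(y))` for every conjugacy class of `G`) gives the Hochschild cocycle with the value
`F (1, γ 0, …, γ 0 ⋯ γ (n - 1); γ 0 ⋯ γ n)` on `γ n ⊗ γ 0 ⊗ ⋯ ⊗ γ (n - 1)`.
-/

set_option autoImplicit false

noncomputable section

namespace Pool.Agent.FJA

/-- The product `γ 0 * ⋯ * γ (j - 1)`. -/
def fpr {G : Type} [Group G] {n : ℕ} (γ : Fin (n + 1) → G) (j : Fin (n + 1)) : G :=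
  ((List.ofFn γ).take j).prod

/-- The coefficient of `γ n ⊗ γ 0 ⊗ ⋯ ⊗ γ (n - 1)` in the trace of `h n ⊗ h 0 ⊗ ⋯ ⊗ h (n - 1)`,
`h j = (X j)⁻¹ * X (j + 1)`. -/
def dcoef {k : Type} [CommRing k] {G : Type} [Group G] {n r : ℕ}
    (X : Fin (n + 1) → (Matrix (Fin r) (Fin r) (MonoidAlgebra k G))ˣ) (γ : Fin (n + 1) → G) : k :=
  ∑ a : Fin (n + 1) → Fin r, ∏ j : Fin (n + 1),
    (((X j)⁻¹ * X (j + 1) : (Matrix (Fin r) (Fin r) (MonoidAlgebra k G))ˣ).val (a j)
      (a (j + 1))).coeff (γ j)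

/-- Invariant families of homogeneous integral cocycles of degree `n`. -/
structure CocFam {G : Type} [Group G] (n : ℕ) (F : (Fin (n + 1) → G) → G → ℤ) : Prop where
  inv : ∀ (g : G) (a : Fin (n + 1) → G) (y : G), F (fun i => g * a i) (g * y * g⁻¹) = F a y
  coc : ∀ (a : Fin (n + 2) → G) (y : G),
    ∑ i : Fin (n + 2), (-1 : ℤ) ^ (i : ℕ) * F (fun j => a (i.succAbove j)) y = 0

/-- The orders of the elements of finite order of `G` are not divisible by high powers of `p`. -/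
def PBdd (G : Type) [Group G] (p : ℕ) : Prop :=
  ∃ c : ℕ, ∀ g : G, IsOfFinOrder g → ¬ p ^ c ∣ orderOf g

/-- The `1 × 1` matrix of an element of the group. -/
def gMat {G : Type} [Group G] : G →* (Matrix (Fin 1) (Fin 1) (MonoidAlgebra ℤ G))ˣ :=
  (Units.map ((Matrix.scalar (Fin 1) : MonoidAlgebra ℤ G →+*
    Matrix (Fin 1) (Fin 1) (MonoidAlgebra ℤ G)).toMonoidHom.comp
    (MonoidAlgebra.of ℤ G))).comp (toUnits : G ≃* Gˣ).toMonoidHom

end Pool.Agent.FJA
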